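import Pool.Agent.Lib.TC.ATD

/-!
# Section 11.1, AT2
-/

namespace Pool.Agent.TC



open scoped Classical

namespace AT2Aux

open MonoidAlgebra

variable {π : Type} [Group π]

/-- Evaluation of a function on the group ring. -/
noncomputable def ev {V : Type} [AddCommGroup V] [Module ℚ V] (t : π → V) :
    MonoidAlgebra ℚ π →+ V :=
  (Finsupp.linearCombination ℚ t).toAddMonoidHom.comp coeffAddEquiv.toAddMonoidHom

variable {V : Type} [AddCommGroup V] [Module ℚ V]

theorem ev_single (t : π → V) (h : π) (c : ℚ) : ev t (single h c) = c • t h := by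
  change Finsupp.linearCombination ℚ t (Finsupp.single h c) = _
  rw [Finsupp.linearCombination_single]

theorem ev_mul_single (t : π → V) (α : MonoidAlgebra ℚ π) (g : π) (c : ℚ) :
    ev t (α * single g c) = c • ev (fun h => t (h * g)) α := by
  induction α using MonoidAlgebra.induction_linear with
  | zero => rw [zero_mul, map_zero, map_zero, smul_zero]
  | add x y hx hy => rw [add_mul, map_add, hx, hy, map_add, smul_add]
  | single m r => rw [single_mul_single, ev_single, ev_single, smul_smul, mul_comm]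

theorem ev_single_mul (t : π → V) (α : MonoidAlgebra ℚ π) (g : π) :
    ev t (single g 1 * α) = ev (fun h => t (g * h)) α := by
  induction α using MonoidAlgebra.induction_linear with
  | zero => rw [mul_zero, map_zero, map_zero]
  | add x y hx hy => rw [mul_add, map_add, hx, hy, map_add]
  | single m r => rw [single_mul_single, ev_single, ev_single, one_mul]

theorem ev_comp {W : Type} [AddCommGroup W] [Module ℚ W] (t : π → V) (f : V →ₗ[ℚ] W)
    (α : MonoidAlgebra ℚ π) : ev (fun h => f (t h)) α = f (ev t α) := by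
  induction α using MonoidAlgebra.induction_linear with
  | zero => rw [map_zero, map_zero, map_zero]
  | add x y hx hy => rw [map_add, map_add, map_add, hx, hy]
  | single m r => rw [ev_single, ev_single, map_smul]

theorem ev_add (t t' : π → V) (α : MonoidAlgebra ℚ π) :
    ev (fun h => t h + t' h) α = ev t α + ev t' α := by
  induction α using MonoidAlgebra.induction_linear with
  | zero => rw [map_zero, map_zero, map_zero, add_zero]
  | add x y hx hy => rw [map_add, map_add, map_add, hx, hy]; abel
  | single m r => rw [ev_single, ev_single, ev_single, smul_add]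

/-- The orbits of left multiplication by the powers of `x`. -/
abbrev Q (x : π) : Type := Quotient (QuotientGroup.rightRel (Subgroup.zpowers x))

/-- The orbit of `h`. -/
def q (x : π) (h : π) : Q x := Quotient.mk _ h

theorem q_eq {x : π} {h h' : π} : q x h = q x h' ↔ ∃ m : ℤ, h' = x ^ m * h := by
  unfold q
  rw [Quotient.eq, QuotientGroup.rightRel_apply, Subgroup.mem_zpowers_iff]
  constructor
  · rintro ⟨m, hm⟩
    exact ⟨m, by rw [hm, inv_mul_cancel_right]⟩
  · rintro ⟨m, hm⟩
    exact ⟨m, by rw [hm, mul_inv_cancel_right]⟩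

/-- The coset sums. -/
noncomputable def L (x : π) : MonoidAlgebra ℚ π →+ (Q x →₀ ℚ) :=
  ev fun h => Finsupp.single (q x h) 1

theorem ev_of_L {x : π} {α : MonoidAlgebra ℚ π} (h : L x α = 0) (D : Q x → ℚ) :
    ev (fun h => D (q x h)) α = 0 := by
  have h1 := ev_comp (fun h => Finsupp.single (q x h) (1 : ℚ)) (Finsupp.linearCombination ℚ D) α
  have h2 : (fun h : π => Finsupp.linearCombination ℚ D (Finsupp.single (q x h) (1 : ℚ))) =
      fun h => D (q x h) := by
    funext h
    rw [Finsupp.linearCombination_single, one_smul]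
  rw [h2] at h1
  rw [h1]
  change Finsupp.linearCombination ℚ D (L x α) = 0
  rw [h, map_zero]

theorem exists_n {x : π} (hx : ∀ m : ℤ, x ^ m = 1 → m = 0) :
    ∃ n : π → ℤ, ∀ (m : ℤ) (h : π), n (x ^ m * h) = m + n h := by
  have h1 : ∀ h : π, ∃ m : ℤ, h = x ^ m * Quotient.out (q x h) := by
    intro h
    have h2 : q x (Quotient.out (q x h)) = q x h := Quotient.out_eq (q x h)
    exact q_eq.1 h2
  choose n hn using h1
  refine ⟨n, fun m h => ?_⟩
  have h2 := hn (x ^ m * h)
  have h3 : q x (x ^ m * h) = q x h := (q_eq.2 ⟨m, rfl⟩).symm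
  rw [h3] at h2
  have h4 : x ^ m * h = x ^ (m + n h) * Quotient.out (q x h) := by
    rw [zpow_add, mul_assoc, ← hn h]
  have h5 : x ^ (n (x ^ m * h)) = x ^ (m + n h) := mul_right_cancel (h2.symm.trans h4)
  have h6 : x ^ (n (x ^ m * h) - (m + n h)) = 1 := by
    rw [zpow_sub, h5, mul_inv_cancel]
  have h7 := hx _ h6
  linarith

/-- The main formula. -/
theorem phi_mul {x : π} {n : π → ℤ} (hn : ∀ (m : ℤ) (h : π), n (x ^ m * h) = m + n h)
    {α : MonoidAlgebra ℚ π} (hα : L x α = 0) (a : MonoidAlgebra ℚ π) :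
    ev (fun h => (n h : ℚ)) (α * a) = augH ℚ π a * ev (fun h => (n h : ℚ)) α := by
  induction a using MonoidAlgebra.induction_linear with
  | zero => rw [mul_zero, map_zero, map_zero, zero_mul]
  | add x y hx hy => rw [mul_add, map_add, hx, hy, map_add, add_mul]
  | single g c =>
    rw [ev_mul_single]
    have h1 : augH ℚ π (single g c) = c := by
      unfold augH
      rw [MonoidAlgebra.lift_single]
      simp
    rw [h1, smul_eq_mul]
    congr 1
    let D : Q x → ℚ := Quotient.lift (fun h : π => ((n (h * g) - n h : ℤ) : ℚ)) (by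
      intro h h' hh
      obtain ⟨m, hm⟩ := q_eq.1 (Quotient.sound hh : q x h = q x h')
      rw [hm, mul_assoc, hn, hn]
      congr 1
      ring)
    have h2 := ev_of_L hα D
    have h3 : (fun h : π => (n (h * g) : ℚ)) = fun h => (n h : ℚ) + D (q x h) := by
      funext h
      change (n (h * g) : ℚ) = (n h : ℚ) + ((n (h * g) - n h : ℤ) : ℚ)
      push_cast
      ring
    rw [h3, ev_add, h2, add_zero]

/-- Coset sums of elements divisible by `1 + w + ⋯ + w^(K-1)`. -/
theorem card_le {x w : π} {K : ℕ} (hw : w ^ K = x) (hx : ∀ m : ℤ, x ^ m = 1 → m = 0)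
    {α β : MonoidAlgebra ℚ π}
    (hα : α = (∑ j ∈ Finset.range K, (of ℚ π w) ^ j) * β) (h0 : L x α ≠ 0) :
    K ≤ (L x α).support.card := by
  have hcomm : ∀ m : ℤ, w * x ^ m = x ^ m * w := by
    intro m
    rw [← hw, ← zpow_natCast, ← zpow_mul]
    exact (Commute.refl w).zpow_right _
  let A : Q x → Q x := Quotient.map (fun h : π => w * h) (by
    intro h h' hh
    obtain ⟨m, hm⟩ := q_eq.1 (Quotient.sound hh : q x h = q x h')
    refine Quotient.exact ?_
    change q x (w * h) = q x (w * h')
    rw [q_eq]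
    exact ⟨m, by rw [hm, ← mul_assoc, hcomm, mul_assoc]⟩)
  have hA : ∀ h, A (q x h) = q x (w * h) := fun h => rfl
  have hAinj : Function.Injective A := by
    intro a b hab
    induction a using Quotient.inductionOn with
    | _ a =>
    induction b using Quotient.inductionOn with
    | _ b =>
    change q x (w * a) = q x (w * b) at hab
    obtain ⟨m, hm⟩ := q_eq.1 hab
    change q x a = q x b
    rw [q_eq]
    refine ⟨m, ?_⟩
    rw [← mul_assoc, ← hcomm, mul_assoc] at hm
    exact mul_left_cancel hm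
  have h1 : ∀ γ : MonoidAlgebra ℚ π, L x (of ℚ π w * γ) = Finsupp.mapDomain A (L x γ) := by
    intro γ
    have h2 := ev_comp (fun h => Finsupp.single (q x h) (1 : ℚ)) (Finsupp.lmapDomain ℚ ℚ A) γ
    change L x (single w 1 * γ) = Finsupp.lmapDomain ℚ ℚ A (L x γ)
    rw [L, ev_single_mul, ← h2]
    congr 2
    funext h
    rw [Finsupp.lmapDomain_apply, Finsupp.mapDomain_single, hA]
  have h2 : ∀ γ : MonoidAlgebra ℚ π, L x (of ℚ π x * γ) = L x γ := by
    intro γ
    change L x (single x 1 * γ) = L x γ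
    rw [L, ev_single_mul]
    congr 2
    funext h
    congr 1
    rw [eq_comm, q_eq]
    exact ⟨1, by rw [zpow_one]⟩
  have h3 : L x (of ℚ π w * α) = L x α := by
    have h4 : of ℚ π w * α - α = of ℚ π x * β - β := by
      rw [hα, ← mul_assoc]
      have h5 := mul_geom_sum (of ℚ π w) K
      rw [sub_mul, one_mul] at h5
      rw [← sub_mul, h5, ← map_pow, hw, sub_mul, one_mul]
    have h6 := congrArg (L x) h4
    rw [map_sub, map_sub, h2, sub_self] at h6
    exact sub_eq_zero.1 h6
  rw [h1] at h3
  have h4 : ∀ h, q x h ∈ (L x α).support → q x (w * h) ∈ (L x α).support := by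
    intro h hh
    rw [← h3, Finsupp.mapDomain_support_of_injective hAinj]
    exact Finset.mem_image.2 ⟨q x h, hh, rfl⟩
  obtain ⟨h, hh⟩ : ∃ h, q x h ∈ (L x α).support := by
    obtain ⟨a, ha⟩ := Finsupp.support_nonempty_iff.2 h0
    induction a using Quotient.inductionOn with
    | _ a => exact ⟨a, ha⟩
  have h5 : ∀ j : ℕ, q x (w ^ j * h) ∈ (L x α).support := by
    intro j
    induction j with
    | zero => rw [pow_zero, one_mul]; exact hh
    | succ j ih => rw [pow_succ', mul_assoc]; exact h4 _ ih
  calc K = (Finset.range K).card := (Finset.card_range K).symm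
    _ ≤ _ := Finset.card_le_card_of_injOn (fun j => q x (w ^ j * h)) (fun j _ => h5 j) (by
      intro i hi j hj hij
      have hi' := Finset.mem_range.1 (Finset.mem_coe.1 hi)
      have hj' := Finset.mem_range.1 (Finset.mem_coe.1 hj)
      obtain ⟨m, hm⟩ := q_eq.1 hij
      rw [← mul_assoc] at hm
      have h6 := mul_right_cancel hm
      have h7 : x ^ ((K : ℤ) * m + i - j) = 1 := by
        have h8 : w ^ ((K : ℤ) * m + i - j) = 1 := by
          rw [zpow_sub, zpow_add, zpow_mul, zpow_natCast, zpow_natCast, zpow_natCast, hw, ← h6,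
            mul_inv_cancel]
        rw [← hw, ← zpow_natCast, ← zpow_mul, mul_comm, zpow_mul, h8, one_zpow]
      have h8 := hx _ h7
      have h9 : m = 0 := by
        by_contra hm0
        rcases lt_or_gt_of_ne hm0 with h | h
        · have : (K : ℤ) * m ≤ K * (-1) := by
            apply mul_le_mul_of_nonneg_left _ (by positivity)
            omega
          omega
        · have : (K : ℤ) * 1 ≤ K * m := by
            apply mul_le_mul_of_nonneg_left _ (by positivity)
            omega
          omega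
      rw [h9, mul_zero] at h8
      omega)

end AT2Aux

open AT2Aux MonoidAlgebra in
/-- AT2. If `x` has infinite order and is conjugate to `x ^ N`, `N ≥ 2`, then the rational
augmentation ideal is not projective. -/
theorem at_divisible {π : Type} [Group π] {x u : π} {N : ℕ} (hN : 2 ≤ N)
    (hx : ∀ m : ℕ, m ≠ 0 → x ^ m ≠ 1) (hu : u * x * u⁻¹ = x ^ N) :
    ¬ Module.Projective (MonoidAlgebra ℚ π) (augI ℚ π) := by
  intro hP
  have hxz : ∀ m : ℤ, x ^ m = 1 → m = 0 := by
    intro m hm
    by_contra h0
    apply hx m.natAbs (Int.natAbs_ne_zero.2 h0)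
    rcases Int.natAbs_eq m with h | h
    · rw [h, zpow_natCast] at hm
      exact hm
    · rw [h, zpow_neg, zpow_natCast, inv_eq_one] at hm
      exact hm
  obtain ⟨n, hn⟩ := exists_n hxz
  -- the roots of `x`
  have hconj : ∀ k : ℕ, u ^ k * x * (u ^ k)⁻¹ = x ^ (N ^ k) := by
    intro k
    induction k with
    | zero => simp
    | succ k ih =>
      have h1 : u ^ (k + 1) * x * (u ^ (k + 1))⁻¹ = u * (u ^ k * x * (u ^ k)⁻¹) * u⁻¹ := by
        rw [pow_succ']; group
      rw [h1, ih]
      have h2 : u * x ^ N ^ k * u⁻¹ = (u * x * u⁻¹) ^ N ^ k := by rw [conj_pow]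
      rw [h2, hu, ← pow_mul, pow_succ', mul_comm]
  have hroot : ∀ k : ℕ, ((u ^ k)⁻¹ * x * u ^ k) ^ (N ^ k) = x := by
    intro k
    have h1 : ((u ^ k)⁻¹ * x * u ^ k) ^ (N ^ k) = (u ^ k)⁻¹ * x ^ (N ^ k) * u ^ k := by
      have := conj_pow (a := (u ^ k)⁻¹) (b := x) (i := N ^ k)
      rw [inv_inv] at this
      exact this
    rw [h1, ← hconj k]
    group
  have hmem : ∀ g : π, of ℚ π g - 1 ∈ augI ℚ π := by
    intro g
    change augH ℚ π (of ℚ π g - 1) = 0
    rw [map_sub, map_one]
    unfold augH
    rw [MonoidAlgebra.lift_of]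
    simp
  obtain ⟨s, hs⟩ := hP.out
  let y : π → augI ℚ π := fun g => ⟨of ℚ π g - 1, hmem g⟩
  have hL : ∀ a, L x (s (y x) a) = 0 := by
    intro a
    by_contra h0
    set K := (L x (s (y x) a)).support.card with hK
    set w := (u ^ K)⁻¹ * x * u ^ K with hw
    have h1 : y x = (∑ j ∈ Finset.range (N ^ K), (of ℚ π w) ^ j) • y w := by
      apply Subtype.ext
      change of ℚ π x - 1 = (∑ j ∈ Finset.range (N ^ K), (of ℚ π w) ^ j) * (of ℚ π w - 1)
      rw [geom_sum_mul, ← map_pow, hw, hroot K]
    have h2 : s (y x) a = (∑ j ∈ Finset.range (N ^ K), (of ℚ π w) ^ j) * s (y w) a := by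
      rw [h1, map_smul]
      rfl
    have h3 := card_le (hroot K) hxz h2 h0
    have h4 : K < N ^ K := Nat.lt_pow_self (by omega)
    omega
  have h1 := hs (y x)
  have h2 := congrArg (fun z : augI ℚ π => ev (fun h => (n h : ℚ)) (z : MonoidAlgebra ℚ π)) h1
  change ev (fun h => (n h : ℚ)) ((Finsupp.linearCombination (MonoidAlgebra ℚ π) id (s (y x)) :
    augI ℚ π) : MonoidAlgebra ℚ π) = ev (fun h => (n h : ℚ)) ((y x : augI ℚ π) :
    MonoidAlgebra ℚ π) at h2
  rw [Finsupp.linearCombination_apply, Finsupp.sum] at h2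
  rw [AddSubmonoidClass.coe_finsetSum, map_sum] at h2
  have h3 : ∀ a ∈ (s (y x)).support, ev (fun h => (n h : ℚ))
      (((s (y x) a) • (id a) : augI ℚ π) : MonoidAlgebra ℚ π) = 0 := by
    intro a _
    change ev (fun h => (n h : ℚ)) (s (y x) a * (a : MonoidAlgebra ℚ π)) = 0
    rw [phi_mul hn (hL a)]
    have h4 : augH ℚ π (a : MonoidAlgebra ℚ π) = 0 := a.2
    rw [h4, zero_mul]
  rw [Finset.sum_eq_zero h3] at h2
  have h4 : ev (fun h => (n h : ℚ)) ((y x : augI ℚ π) : MonoidAlgebra ℚ π) = 1 := by
    change ev (fun h => (n h : ℚ)) (single x 1 - 1) = 1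
    rw [map_sub, MonoidAlgebra.one_def, ev_single, ev_single, one_smul, one_smul]
    have h5 := hn 1 1
    rw [zpow_one, mul_one] at h5
    rw [h5]
    push_cast
    ring
  rw [h4] at h2
  exact zero_ne_one h2

end Pool.Agent.TC
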