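import Pool.Agent.Lib.TC.ATD

/-!
# Section 11.1, AT3
-/

namespace Pool.Agent.TC

set_option linter.unusedSectionVars false

open scoped Classical

namespace AT3Aux

section poly

open Polynomial

variable {A V : Type} [Ring A] [AddCommGroup V]

lemma coeff_comm (T : A →+ V) (hT : ∀ a b, T (a * b) = T (b * a)) (p q : A[X]) (k : ℕ) :
    T ((p * q).coeff k) = T ((q * p).coeff k) := by
  rw [coeff_mul, coeff_mul, map_sum, map_sum, ← Finset.Nat.sum_antidiagonal_swap]
  refine Finset.sum_congr rfl fun x _ => ?_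
  exact hT _ _

lemma coeff_deriv (T : A →+ V) (hT : ∀ a b, T (a * b) = T (b * a)) (p : A[X]) (k n : ℕ) :
    ∀ j : ℕ, T ((p ^ j * derivative (p ^ (n + 1))).coeff k) =
      (n + 1) • T ((p ^ (j + n) * derivative p).coeff k) := by
  induction n with
  | zero => intro j; simp
  | succ n ih =>
    intro j
    rw [pow_succ p (n + 1), derivative_mul, mul_add, coeff_add, map_add, ← mul_assoc,
      coeff_comm T hT, ← mul_assoc, ← pow_succ', ih (j + 1), ← mul_assoc, ← pow_add,
      show j + 1 + n = j + (n + 1) by ring, succ_nsmul _ (n + 1)]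

/-- Additivity of the power `q` in characteristic `q`, under a trace. -/
lemma pow_add_char {q : ℕ} (hq : q.Prime) (T : A →+ V) (hT : ∀ a b, T (a * b) = T (b * a))
    (hV : ∀ v : V, q • v = 0) (a b : A) : T ((a + b) ^ q) = T (a ^ q) + T (b ^ q) := by
  set p : A[X] := C a + C b * X with hp
  have hdeg : p.natDegree ≤ 1 := by
    rw [hp]
    refine (natDegree_add_le _ _).trans (max_le (by simp) ?_)
    exact (natDegree_C_mul_le b X).trans natDegree_X_le
  have h0 : ∀ k : ℕ, ((k + 1 : ℕ) : ℕ) • T ((p ^ q).coeff (k + 1)) = 0 := by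
    intro k
    have h1 := coeff_deriv T hT p k (q - 1) 0
    rw [Nat.sub_add_cancel hq.one_le, pow_zero, one_mul, hV, coeff_derivative] at h1
    have h2 : (p ^ q).coeff (k + 1) * ((k : A) + 1) = (k + 1) • (p ^ q).coeff (k + 1) := by
      rw [nsmul_eq_mul, ← Nat.cast_succ, Nat.cast_comm]
    rw [h2, map_nsmul] at h1
    exact h1
  have h0' : ∀ k : ℕ, k ≠ 0 → k < q → T ((p ^ q).coeff k) = 0 := by
    intro k hk hkq
    obtain ⟨l, rfl⟩ := Nat.exists_eq_succ_of_ne_zero hk
    have h1 := h0 l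
    have hc : Nat.Coprime (l + 1) q := by
      refine (Nat.Coprime.symm ?_)
      rw [Nat.Prime.coprime_iff_not_dvd hq]
      intro hd
      exact absurd (Nat.le_of_dvd (by omega) hd) (by omega)
    have hb := Nat.gcd_eq_gcd_ab (l + 1) q
    rw [hc] at hb
    have h3 : ((1 : ℕ) : ℤ) • T ((p ^ q).coeff (l + 1)) = 0 := by
      rw [hb, add_smul, mul_comm, mul_smul, mul_comm, mul_smul, natCast_zsmul, natCast_zsmul,
        h1, hV]
      simp
    simpa using h3
  let φ : A[X] →+* A := eval₂RingHom' (RingHom.id A) 1 (fun a => Commute.one_right _)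
  have hφ : ∀ r : A[X], ∀ n, r.natDegree < n → φ r = ∑ i ∈ Finset.range n, r.coeff i := by
    intro r n hn
    change eval₂ (RingHom.id A) 1 r = _
    rw [eval₂_eq_sum_range' _ hn]
    simp
  have hφp : φ p = a + b := by
    change eval₂ (RingHom.id A) 1 p = _
    simp [hp]
  have hdq : (p ^ q).natDegree < q + 1 := by
    refine Nat.lt_succ_of_le ((natDegree_pow_le).trans ?_)
    calc q * p.natDegree ≤ q * 1 := Nat.mul_le_mul_left _ hdeg
      _ = q := mul_one q
  have hs : (a + b) ^ q = ∑ i ∈ Finset.range (q + 1), (p ^ q).coeff i := by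
    rw [← hφ _ _ hdq, map_pow, hφp]
  have hlast : (p ^ q).coeff q = b ^ q := by
    have := coeff_pow_of_natDegree_le (m := q) hdeg
    rw [mul_one] at this
    rw [this]
    simp [hp]
  have hfirst : (p ^ q).coeff 0 = a ^ q := by
    have := map_pow (constantCoeff (R := A)) p q
    change (p ^ q).coeff 0 = (p.coeff 0) ^ q at this
    rw [this]
    simp [hp]
  rw [hs, map_sum, Finset.sum_range_succ, hlast]
  congr 1
  rw [Finset.sum_eq_single 0, hfirst]
  · intro k hk hk0
    exact h0' k hk0 (Finset.mem_range.1 hk)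
  · intro h
    exact absurd (Finset.mem_range.2 hq.pos) h

end poly

section grp

variable {G : Type} [Group G] {R : Type} [CommRing R]

/-- The sum of the coefficients over the elements satisfying `P`. -/
noncomputable def fn (R : Type) [CommRing R] (P : G → Prop) : MonoidAlgebra R G →+ R where
  toFun x := x.coeff.sum (fun g a => if P g then a else 0)
  map_zero' := by simp
  map_add' x y := by
    rw [MonoidAlgebra.coeff_add, Finsupp.sum_add_index']
    · intro g
      split_ifs <;> rfl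
    · intro g a b
      split_ifs <;> simp

lemma fn_apply (P : G → Prop) (x : MonoidAlgebra R G) :
    fn R P x = x.coeff.sum (fun g a => if P g then a else 0) := rfl

lemma fn_single (P : G → Prop) (g : G) (a : R) :
    fn R P (MonoidAlgebra.single g a) = if P g then a else 0 := by
  rw [fn_apply, MonoidAlgebra.coeff_single, Finsupp.sum_single_index]
  split_ifs <;> rfl

lemma fn_comm (P : G → Prop) (hP : ∀ g h, P (g * h) ↔ P (h * g)) (x y : MonoidAlgebra R G) :
    fn R P (x * y) = fn R P (y * x) := by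
  induction x using MonoidAlgebra.induction_linear with
  | zero => simp
  | add x x' hx hx' => rw [add_mul, mul_add, map_add, map_add, hx, hx']
  | single g a =>
    induction y using MonoidAlgebra.induction_linear with
    | zero => simp
    | add x x' hx hx' => rw [add_mul, mul_add, map_add, map_add, hx, hx']
    | single h b =>
      rw [MonoidAlgebra.single_mul_single, MonoidAlgebra.single_mul_single, fn_single, fn_single,
        mul_comm b a]
      simp only [hP g h]

lemma fn_map {R' : Type} [CommRing R'] (f : R →+* R') (P : G → Prop) (x : MonoidAlgebra R G) :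
    fn R' P (MonoidAlgebra.mapRingHom G f x) = f (fn R P x) := by
  induction x using MonoidAlgebra.induction_linear with
  | zero => simp
  | add x x' hx hx' => rw [map_add, map_add, map_add, map_add, hx, hx']
  | single g a =>
    rw [MonoidAlgebra.mapRingHom_single, fn_single, fn_single]
    split_ifs <;> simp

variable {m : ℕ}

/-- The matrix trace. -/
noncomputable def tr (R : Type) [CommRing R] (m : ℕ) (P : G → Prop) :
    Matrix (Fin m) (Fin m) (MonoidAlgebra R G) →+ R where
  toFun X := ∑ i, fn R P (X i i)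
  map_zero' := by simp
  map_add' X Y := by simp [Finset.sum_add_distrib]

lemma tr_apply (P : G → Prop) (X : Matrix (Fin m) (Fin m) (MonoidAlgebra R G)) :
    tr R m P X = ∑ i, fn R P (X i i) := rfl

lemma tr_comm (P : G → Prop) (hP : ∀ g h, P (g * h) ↔ P (h * g))
    (X Y : Matrix (Fin m) (Fin m) (MonoidAlgebra R G)) : tr R m P (X * Y) = tr R m P (Y * X) := by
  simp only [tr_apply, Matrix.mul_apply, map_sum]
  rw [Finset.sum_comm]
  refine Finset.sum_congr rfl fun i _ => Finset.sum_congr rfl fun j _ => ?_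
  exact fn_comm P hP _ _

lemma tr_map {R' : Type} [CommRing R'] (f : R →+* R') (P : G → Prop)
    (X : Matrix (Fin m) (Fin m) (MonoidAlgebra R G)) :
    tr R' m P (X.map (MonoidAlgebra.mapRingHom G f)) = f (tr R m P X) := by
  simp only [tr_apply, Matrix.map_apply, fn_map, map_sum]

lemma conj_mul_comm (s g h : G) : IsConj s (g * h) ↔ IsConj s (h * g) := by
  have h1 : IsConj (g * h) (h * g) := isConj_iff.2 ⟨h, by group⟩
  exact ⟨fun H => H.trans h1, fun H => H.trans h1.symm⟩

/-- The Frobenius congruence. -/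
lemma tr_pow {q : ℕ} [hq : Fact q.Prime] (s : G)
    (X : Matrix (Fin m) (Fin m) (MonoidAlgebra (ZMod q) G)) :
    tr (ZMod q) m (IsConj s) (X ^ q) = tr (ZMod q) m (fun g => IsConj s (g ^ q)) X := by
  have hV : ∀ v : ZMod q, q • v = 0 := fun v => by simp
  have hadd : ∀ X Y : Matrix (Fin m) (Fin m) (MonoidAlgebra (ZMod q) G),
      tr (ZMod q) m (IsConj s) ((X + Y) ^ q) = tr (ZMod q) m (IsConj s) (X ^ q) +
        tr (ZMod q) m (IsConj s) (Y ^ q) := fun X Y =>
    pow_add_char hq.out _ (tr_comm _ (conj_mul_comm s)) hV X Y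
  have hq0 : q ≠ 0 := hq.out.ne_zero
  refine Matrix.induction_on' (P := fun X => tr (ZMod q) m (IsConj s) (X ^ q) =
    tr (ZMod q) m (fun g => IsConj s (g ^ q)) X) X ?_ ?_ ?_
  · rw [zero_pow hq0, map_zero, map_zero]
  · intro X Y hX hY
    rw [hadd, map_add, hX, hY]
  · intro i j x
    induction x using MonoidAlgebra.induction_linear with
    | zero => rw [Matrix.single_zero, zero_pow hq0, map_zero, map_zero]
    | add x y hx hy => rw [Matrix.single_add, hadd, map_add, hx, hy]
    | single g a =>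
      by_cases hij : i = j
      · subst hij
        have hpow : ∀ n : ℕ, n ≠ 0 → (Matrix.single i i (MonoidAlgebra.single g a) :
            Matrix (Fin m) (Fin m) (MonoidAlgebra (ZMod q) G)) ^ n =
            Matrix.single i i (MonoidAlgebra.single g a ^ n) := by
          intro n hn
          obtain ⟨n, rfl⟩ := Nat.exists_eq_succ_of_ne_zero hn
          clear hn
          induction n with
          | zero => simp
          | succ n ih =>
            change (Matrix.single i i (MonoidAlgebra.single g a) :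
              Matrix (Fin m) (Fin m) (MonoidAlgebra (ZMod q) G)) ^ (n + 1) = _ at ih
            rw [pow_succ _ (n + 1), ih, Matrix.single_mul_single_same, ← pow_succ]
        rw [hpow q hq0, MonoidAlgebra.single_pow, ZMod.pow_card, tr_apply, tr_apply]
        refine Finset.sum_congr rfl fun k _ => ?_
        by_cases hk : k = i
        · subst hk
          rw [Matrix.single_apply_same, Matrix.single_apply_same, fn_single, fn_single]
        · rw [Matrix.single_apply_of_ne, Matrix.single_apply_of_ne, map_zero, map_zero]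
          · exact fun h => hk h.1.symm
          · exact fun h => hk h.1.symm
      · have hsq : ∀ n : ℕ, 2 ≤ n → (Matrix.single i j (MonoidAlgebra.single g a) :
            Matrix (Fin m) (Fin m) (MonoidAlgebra (ZMod q) G)) ^ n = 0 := by
          intro n hn
          obtain ⟨n, rfl⟩ := Nat.exists_eq_add_of_le hn
          rw [pow_add, pow_two, Matrix.single_mul_single_of_ne _ _ _ _ (Ne.symm hij), zero_mul]
        rw [hsq q hq.out.two_le, map_zero, tr_apply]
        refine (Finset.sum_eq_zero fun k _ => ?_).symm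
        rw [Matrix.single_apply_of_ne, map_zero]
        rintro ⟨h1, h2⟩
        exact hij (h1.trans h2.symm)

end grp

section integral

variable {G : Type} [Group G]

/-- The inclusion of the integral group ring. -/
noncomputable def inc (G : Type) [Group G] : MonoidAlgebra ℤ G →+* MonoidAlgebra ℚ G :=
  MonoidAlgebra.mapRingHom G (Int.castRingHom ℚ)

lemma inc_inj : Function.Injective (inc G) := by
  intro x y hxy
  ext g
  have := congrArg (fun z => z.coeff g) hxy
  simp only [inc, MonoidAlgebra.coeff_mapRingHom] at this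
  have h : ((x.coeff g : ℤ) : ℚ) = ((y.coeff g : ℤ) : ℚ) := this
  exact_mod_cast h

lemma den1 (x : MonoidAlgebra ℚ G) : ∃ (b : ℤ) (y : MonoidAlgebra ℤ G), b ≠ 0 ∧ inc G y = b • x := by
  induction x using MonoidAlgebra.induction_linear with
  | zero => exact ⟨1, 0, one_ne_zero, by simp⟩
  | add x x' hx hx' =>
    obtain ⟨b, y, hb, hy⟩ := hx
    obtain ⟨b', y', hb', hy'⟩ := hx'
    refine ⟨b * b', b' • y + b • y', mul_ne_zero hb hb', ?_⟩
    rw [map_add, map_zsmul, map_zsmul, hy, hy', smul_smul, smul_smul, mul_comm b' b, smul_add]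
  | single g a =>
    refine ⟨a.den, MonoidAlgebra.single g a.num, by exact_mod_cast a.den_ne_zero, ?_⟩
    rw [inc, MonoidAlgebra.mapRingHom_single, MonoidAlgebra.smul_single]
    congr 1
    rw [zsmul_eq_mul]
    push_cast
    exact (Rat.den_mul_eq_num a).symm

lemma den2 {m : ℕ} (e : Matrix (Fin m) (Fin m) (MonoidAlgebra ℚ G)) :
    ∃ (b : ℤ) (E : Matrix (Fin m) (Fin m) (MonoidAlgebra ℤ G)), b ≠ 0 ∧
      E.map (inc G) = b • e := by
  choose B Y hB hY using fun i j => den1 (e i j)
  have hd : ∀ i j, B i j ∣ ∏ i, ∏ j, B i j := fun i j =>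
    (Finset.dvd_prod_of_mem (fun j => B i j) (Finset.mem_univ j)).trans
      (Finset.dvd_prod_of_mem (fun i => ∏ j, B i j) (Finset.mem_univ i))
  choose C hC using hd
  refine ⟨∏ i, ∏ j, B i j, Matrix.of fun i j => C i j • Y i j,
    Finset.prod_ne_zero_iff.2 fun i _ => Finset.prod_ne_zero_iff.2 fun j _ => hB i j, ?_⟩
  ext1 i j
  rw [Matrix.map_apply, Matrix.smul_apply]
  change inc G (C i j • Y i j) = _
  rw [map_zsmul, hY, smul_smul, mul_comm, ← hC i j]

lemma den3 {m : ℕ} (e : Matrix (Fin m) (Fin m) (MonoidAlgebra ℚ G)) (he : e * e = e) :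
    ∃ (b : ℤ) (E : Matrix (Fin m) (Fin m) (MonoidAlgebra ℤ G)), b ≠ 0 ∧
      E.map (inc G) = b • e ∧ E * E = b • E := by
  obtain ⟨b, E, hb, hE⟩ := den2 e
  refine ⟨b, E, hb, hE, ?_⟩
  have hinj : Function.Injective
      (fun X : Matrix (Fin m) (Fin m) (MonoidAlgebra ℤ G) => X.map (inc G)) := by
    intro X Y hXY
    ext1 i j
    exact inc_inj (congrFun (congrFun hXY i) j)
  apply hinj
  change (E * E).map (inc G) = (b • E).map (inc G)
  have h1 : (b • E).map (inc G) = b • E.map (inc G) := by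
    ext1 i j
    rw [Matrix.map_apply, Matrix.smul_apply, Matrix.smul_apply, Matrix.map_apply, map_zsmul]
  rw [Matrix.map_mul, h1, hE, smul_mul_assoc, mul_smul_comm, he]

/-- The congruence for one prime. -/
lemma congr_prime {m : ℕ} (b : ℤ) (E : Matrix (Fin m) (Fin m) (MonoidAlgebra ℤ G))
    (hE : E * E = b • E) {q : ℕ} (hq : q.Prime) (hqb : ¬ (q : ℤ) ∣ b) (s : G) :
    (q : ℤ) ∣ tr ℤ m (IsConj s) E - tr ℤ m (fun g => IsConj s (g ^ q)) E := by
  have : Fact q.Prime := ⟨hq⟩
  set f : ℤ →+* ZMod q := Int.castRingHom (ZMod q) with hf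
  set F : Matrix (Fin m) (Fin m) (MonoidAlgebra (ZMod q) G) :=
    E.map (MonoidAlgebra.mapRingHom G f) with hF
  have h1 : F * F = b • F := by
    rw [hF, ← Matrix.map_mul, hE]
    ext1 i j
    rw [Matrix.map_apply, Matrix.smul_apply, Matrix.smul_apply, Matrix.map_apply, map_zsmul]
  have h2 : ∀ n : ℕ, F ^ (n + 1) = b ^ n • F := by
    intro n
    induction n with
    | zero => simp
    | succ n ih => rw [pow_succ, ih, smul_mul_assoc, h1, smul_smul, ← pow_succ]
  have h3 : F ^ q = F := by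
    have h4 := h2 (q - 1)
    rw [Nat.sub_add_cancel hq.one_le] at h4
    rw [h4]
    have h5 : ((b ^ (q - 1) : ℤ) : ZMod q) = 1 := by
      push_cast
      apply ZMod.pow_card_sub_one_eq_one
      intro h6
      exact hqb ((ZMod.intCast_zmod_eq_zero_iff_dvd b q).1 h6)
    have h6 : ∀ c : ℤ, (c : ZMod q) = 1 → c • F = F := by
      intro c hc
      ext i j g
      rw [Matrix.smul_apply, MonoidAlgebra.coeff_smul, Finsupp.smul_apply, zsmul_eq_mul, hc,
        one_mul]
    exact h6 _ h5
  have h4 := tr_pow s F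
  rw [h3, hF, tr_map, tr_map] at h4
  rw [← ZMod.intCast_zmod_eq_zero_iff_dvd]
  push_cast
  rw [sub_eq_zero]
  exact h4

lemma fn_bound (P : G → Prop) (x : MonoidAlgebra ℤ G) :
    |fn ℤ P x| ≤ x.coeff.sum (fun _ a => |a|) := by
  rw [fn_apply, Finsupp.sum, Finsupp.sum]
  refine (Finset.abs_sum_le_sum_abs _ _).trans (Finset.sum_le_sum fun g _ => ?_)
  split_ifs
  · exact le_rfl
  · simp

lemma tr_bound {m : ℕ} (P : G → Prop) (E : Matrix (Fin m) (Fin m) (MonoidAlgebra ℤ G)) :
    |tr ℤ m P E| ≤ ∑ i, (E i i).coeff.sum (fun _ a => |a|) := by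
  rw [tr_apply]
  exact (Finset.abs_sum_le_sum_abs _ _).trans (Finset.sum_le_sum fun i _ => fn_bound P _)

/-- One prime for all classes. -/
lemma exists_prime {m : ℕ} (b : ℤ) (hb : b ≠ 0)
    (E : Matrix (Fin m) (Fin m) (MonoidAlgebra ℤ G)) (hE : E * E = b • E) :
    ∃ q : ℕ, 2 ≤ q ∧ ∀ s : G, tr ℤ m (IsConj s) E = tr ℤ m (fun g => IsConj s (g ^ q)) E := by
  set M : ℤ := ∑ i, (E i i).coeff.sum (fun _ a => |a|) with hM
  obtain ⟨q, hq, hqp⟩ := Nat.exists_infinite_primes (2 * M.toNat + b.natAbs + 1)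
  refine ⟨q, hqp.two_le, fun s => ?_⟩
  have hqb : ¬ (q : ℤ) ∣ b := by
    intro hd
    have := Int.natAbs_dvd_natAbs.2 hd
    rw [Int.natAbs_natCast] at this
    have := Nat.le_of_dvd (Int.natAbs_pos.2 hb) this
    omega
  have h1 := congr_prime b E hE hqp hqb s
  have h2 := tr_bound (IsConj s) E
  have h3 := tr_bound (fun g => IsConj s (g ^ q)) E
  rw [← hM] at h2 h3
  have h4 : |tr ℤ m (IsConj s) E - tr ℤ m (fun g => IsConj s (g ^ q)) E| < (q : ℤ) := by
    have h5 : |tr ℤ m (IsConj s) E - tr ℤ m (fun g => IsConj s (g ^ q)) E| ≤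
      |tr ℤ m (IsConj s) E| + |tr ℤ m (fun g => IsConj s (g ^ q)) E| := abs_sub _ _
    have h6 : M ≤ (M.toNat : ℤ) := Int.self_le_toNat M
    have h7 : ((2 * M.toNat + b.natAbs + 1 : ℕ) : ℤ) ≤ (q : ℤ) := by exact_mod_cast hq
    push_cast at h7
    have h8 : (0 : ℤ) ≤ |b| := abs_nonneg b
    omega
  have h5 := Int.eq_zero_of_abs_lt_dvd h1 h4
  exact sub_eq_zero.1 h5

end integral

section iter

variable {G : Type} [Group G]

lemma IsConj_pow {a b : G} (h : IsConj a b) (n : ℕ) : IsConj (a ^ n) (b ^ n) := by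
  obtain ⟨c, hc⟩ := isConj_iff.1 h
  refine isConj_iff.2 ⟨c, ?_⟩
  rw [← conj_pow, hc]

/-- The union of the supports. -/
noncomputable def supp {m : ℕ} (E : Matrix (Fin m) (Fin m) (MonoidAlgebra ℤ G)) : Finset G :=
  Finset.univ.biUnion fun i => (E i i).coeff.support

lemma tr_eq {m : ℕ} (E : Matrix (Fin m) (Fin m) (MonoidAlgebra ℤ G)) (P : G → Prop) :
    tr ℤ m P E = ∑ g ∈ (supp E).filter P, ∑ i, (E i i).coeff g := by
  rw [tr_apply, Finset.sum_comm]
  refine Finset.sum_congr rfl fun i _ => ?_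
  rw [fn_apply, Finset.sum_filter, Finsupp.sum]
  refine Finset.sum_subset ?_ ?_
  · intro g hg
    exact Finset.mem_biUnion.2 ⟨i, Finset.mem_univ i, hg⟩
  · intro g _ hg
    rw [Finsupp.notMem_support_iff.1 hg]
    simp

/-- The step. -/
lemma step {m : ℕ} (E : Matrix (Fin m) (Fin m) (MonoidAlgebra ℤ G)) (q : ℕ) {s : G}
    (h : tr ℤ m (fun g => IsConj s (g ^ q)) E ≠ 0) :
    ∃ t ∈ supp E, tr ℤ m (IsConj t) E ≠ 0 ∧ IsConj s (t ^ q) := by
  by_contra hcon
  push Not at hcon
  apply h
  rw [tr_eq]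
  set W := (supp E).filter (fun g => IsConj s (g ^ q)) with hW
  have hmaps : ∀ g ∈ W, ConjClasses.mk g ∈ W.image ConjClasses.mk := fun g hg =>
    Finset.mem_image_of_mem _ hg
  rw [← Finset.sum_fiberwise_of_maps_to hmaps]
  refine Finset.sum_eq_zero fun c hc => ?_
  obtain ⟨t, ht, rfl⟩ := Finset.mem_image.1 hc
  rw [hW, Finset.mem_filter] at ht
  by_cases h0 : tr ℤ m (IsConj t) E = 0
  · rw [tr_eq] at h0
    rw [← h0]
    refine Finset.sum_congr ?_ fun _ _ => rfl
    ext g
    rw [hW, Finset.mem_filter, Finset.mem_filter, Finset.mem_filter,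
      ConjClasses.mk_eq_mk_iff_isConj]
    constructor
    · rintro ⟨⟨h1, _⟩, h2⟩
      exact ⟨h1, h2.symm⟩
    · rintro ⟨h1, h2⟩
      exact ⟨⟨h1, ht.2.trans (IsConj_pow h2 q)⟩, h2.symm⟩
  · exact absurd ht.2 (hcon t ht.1 h0)

lemma iter {m : ℕ} (E : Matrix (Fin m) (Fin m) (MonoidAlgebra ℤ G)) {q : ℕ} (hq : 2 ≤ q)
    (hE : ∀ s : G, tr ℤ m (IsConj s) E = tr ℤ m (fun g => IsConj s (g ^ q)) E) {s : G}
    (hs : tr ℤ m (IsConj s) E ≠ 0) : ∃ N : ℕ, 2 ≤ N ∧ IsConj s (s ^ N) := by
  let X : Type := {t : G // t ∈ supp E ∧ tr ℤ m (IsConj t) E ≠ 0}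
  have hXf : Finite X := by
    refine Finite.of_injective (fun x : X => (⟨x.1, x.2.1⟩ : supp E)) ?_
    intro x y hxy
    exact Subtype.ext (congrArg (fun z : supp E => (z : G)) hxy)
  have hnext : ∀ x : G, tr ℤ m (IsConj x) E ≠ 0 → ∃ y : X, IsConj x (y.1 ^ q) := by
    intro x hx
    rw [hE] at hx
    obtain ⟨t, ht1, ht2, ht3⟩ := step E q hx
    exact ⟨⟨t, ht1, ht2⟩, ht3⟩
  have hnext' : ∀ x : X, ∃ y : X, IsConj x.1 (y.1 ^ q) := fun x => hnext x.1 x.2.2
  choose f hf using hnext'
  obtain ⟨x0, hx0⟩ := hnext s hs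
  have hit : ∀ (n : ℕ) (x : X), IsConj x.1 ((f^[n] x).1 ^ (q ^ n)) := by
    intro n
    induction n with
    | zero =>
      intro x
      rw [Function.iterate_zero_apply, pow_zero, pow_one]
    | succ n ih =>
      intro x
      rw [Function.iterate_succ_apply', pow_succ', pow_mul]
      exact (ih x).trans (IsConj_pow (hf _) (q ^ n))
  obtain ⟨a, b, hab, heq⟩ := Finite.exists_ne_map_eq_of_infinite (fun n : ℕ => f^[n] x0)
  wlog hlt : a < b generalizing a b with H
  · exact H b a (Ne.symm hab) heq.symm (lt_of_le_of_ne (not_lt.1 hlt) (Ne.symm hab))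
  obtain ⟨k, rfl⟩ := Nat.exists_eq_add_of_lt hlt
  set y : X := f^[a] x0 with hy
  have hy2 : f^[k + 1] y = y := by
    rw [hy, ← Function.iterate_add_apply, show k + 1 + a = a + k + 1 by ring]
    exact heq.symm
  have h1 : IsConj y.1 (y.1 ^ (q ^ (k + 1))) := by
    have := hit (k + 1) y
    rwa [hy2] at this
  have h2 : IsConj s (y.1 ^ (q ^ (a + 1))) := by
    have := IsConj_pow (hit a x0) q
    rw [← pow_mul, ← pow_succ] at this
    exact hx0.trans this
  refine ⟨q ^ (k + 1), ?_, ?_⟩
  · exact hq.trans (Nat.le_self_pow (Nat.succ_ne_zero k) q)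
  · have h3 := IsConj_pow h1 (q ^ (a + 1))
    have h4 := (IsConj_pow h2 (q ^ (k + 1))).symm
    rw [← pow_mul, mul_comm, pow_mul] at h4
    exact (h2.trans h3).trans (by rw [← pow_mul, mul_comm, pow_mul] at h4 ⊢; exact h4)

end iter

end AT3Aux

/-- AT3 (Bass). If the rank function `r = clTr e` of an idempotent matrix over `ℚ[π]` is nonzero
at `s` then `s` is conjugate to a proper power of itself. (All entries are in `ℤ[1/D][π]`. For
primes `q` not dividing `D`: `e ^ q = e`, and modulo `q` and commutators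
`tr (e ^ q) = ∑ e_ii(g) g ^ q`, so `r(s) = ∑ r(t)` over the classes `t` with `t ^ q ~ s`, modulo `q`;
for large `q` this is an equality of rational numbers. So `t ↦ t ^ q` permutes the finite support
of `r`, and some iterate fixes the class of `s`.) -/
theorem at_bass {π : Type} [Group π] {m : ℕ}
    (e : Matrix (Fin m) (Fin m) (MonoidAlgebra ℚ π)) (he : e * e = e) {s : π}
    (hr : clTr e s ≠ 0) : ∃ (u : π) (N : ℕ), 2 ≤ N ∧ u * s * u⁻¹ = s ^ N := by
  obtain ⟨b, E, hb, hE, hEE⟩ := AT3Aux.den3 e he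
  obtain ⟨q, hq, hall⟩ := AT3Aux.exists_prime b hb E hEE
  have h1 : AT3Aux.tr ℚ m (IsConj s) (E.map (AT3Aux.inc π)) =
      ((AT3Aux.tr ℤ m (IsConj s) E : ℤ) : ℚ) :=
    AT3Aux.tr_map (Int.castRingHom ℚ) (IsConj s) E
  have h2 : AT3Aux.tr ℚ m (IsConj s) e = clTr e s := rfl
  rw [hE, map_zsmul, h2, zsmul_eq_mul] at h1
  have h3 : AT3Aux.tr ℤ m (IsConj s) E ≠ 0 := by
    intro h0
    rw [h0, Int.cast_zero] at h1
    rcases mul_eq_zero.1 h1 with h | h
    · exact hb (by exact_mod_cast h)
    · exact hr h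
  obtain ⟨N, hN, hc⟩ := AT3Aux.iter E hq hall h3
  obtain ⟨u, hu⟩ := isConj_iff.1 hc
  exact ⟨u, N, hN, hu⟩

end Pool.Agent.TC
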