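import Pool.Agent.Lib.TC.ATD

/-!
# Section 11.1, AT4
-/

namespace Pool.Agent.TC



open scoped Classical InnerProductSpace

namespace AT4Aux

variable {π : Type} [Group π] {m : ℕ}

/-- The Hilbert space `ℓ²(π)^m`. -/
abbrev Hs (π : Type) (m : ℕ) := lp (fun _ : Fin m × π => ℝ) 2

theorem fin_mem (f : Fin m × π → ℝ) (hf : {i | f i ≠ 0}.Finite) :
    Memℓp (E := fun _ : Fin m × π => ℝ) f 2 :=
  (memℓp_zero hf).of_exponent_ge (by positivity)

theorem vec_fin (x : Fin m → MonoidAlgebra ℚ π) :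
    {p : Fin m × π | ((x p.1).coeff p.2 : ℝ) ≠ 0}.Finite := by
  have : {p : Fin m × π | ((x p.1).coeff p.2 : ℝ) ≠ 0} ⊆
      ⋃ i : Fin m, (fun g => (i, g)) '' ((x i).coeff.support : Set π) := by
    rintro ⟨i, g⟩ h
    refine Set.mem_iUnion.mpr ⟨i, g, ?_, rfl⟩
    simp only [Set.mem_ofPred_eq, ne_eq, Rat.cast_eq_zero] at h
    simpa using h
  exact (Set.finite_iUnion fun i => (Finset.finite_toSet _).image _).subset this

/-- Vectors over the group ring as vectors of the Hilbert space. -/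
noncomputable def vec (x : Fin m → MonoidAlgebra ℚ π) : Hs π m :=
  ⟨fun p => ((x p.1).coeff p.2 : ℝ), fin_mem _ (vec_fin x)⟩

theorem vec_apply (x : Fin m → MonoidAlgebra ℚ π) (p : Fin m × π) :
    vec x p = ((x p.1).coeff p.2 : ℝ) := rfl

/-- The standard basis. -/
noncomputable def dl (p : Fin m × π) : Hs π m := lp.single 2 p (1 : ℝ)

theorem inner_dl (f : Hs π m) (p : Fin m × π) : ⟪f, dl p⟫_ℝ = f p := by
  rw [dl, lp.inner_single_right]
  simp

theorem dl_apply (p q : Fin m × π) : dl p q = if q = p then (1 : ℝ) else 0 := by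
  rw [dl, lp.single_apply, Pi.single_apply]

theorem tr_mem' (g : π) (f : Hs π m) :
    Memℓp (E := fun _ : Fin m × π => ℝ) (fun p => f (p.1, p.2 * g)) 2 := by
  have h := lp.memℓp f
  have h2 : (0 : ℝ) < (2 : ENNReal).toReal := by norm_num
  rw [memℓp_gen_iff h2] at h ⊢
  exact h.comp_injective (i := fun p : Fin m × π => (p.1, p.2 * g)) (by
    rintro ⟨i, a⟩ ⟨j, b⟩ hab
    simp only [Prod.mk.injEq, mul_left_inj] at hab
    exact Prod.ext hab.1 hab.2)

/-- Right translation by `g`. -/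
noncomputable def tr (g : π) : Hs π m →ₗᵢ[ℝ] Hs π m where
  toFun f := ⟨fun p => f (p.1, p.2 * g), tr_mem' g f⟩
  map_add' f f' := rfl
  map_smul' c f := rfl
  norm_map' f := by
    have h2 : (0 : ℝ) < (2 : ENNReal).toReal := by norm_num
    rw [lp.norm_eq_tsum_rpow h2, lp.norm_eq_tsum_rpow h2]
    congr 1
    exact Equiv.tsum_eq ((Equiv.refl (Fin m)).prodCongr (Equiv.mulRight g))
      (fun p => ‖f p‖ ^ (2 : ENNReal).toReal)

theorem tr_apply (g : π) (f : Hs π m) (p : Fin m × π) : tr g f p = f (p.1, p.2 * g) := rfl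

theorem tr_dl (g h : π) (i : Fin m) : tr g (dl (i, h)) = dl (i, h * g⁻¹) := by
  apply lp.ext
  funext p
  rw [tr_apply, dl_apply, dl_apply]
  congr 1
  rw [Prod.ext_iff, Prod.ext_iff, eq_iff_iff]
  simp only [eq_mul_inv_iff_mul_eq]

theorem tr_tr (g h : π) (f : Hs π m) : tr g (tr h f) = tr (g * h) f := by
  apply lp.ext
  funext p
  rw [tr_apply, tr_apply, tr_apply, mul_assoc]

theorem tr_one (f : Hs π m) : tr 1 f = f := by
  apply lp.ext
  funext p
  rw [tr_apply, mul_one]

variable (e : Matrix (Fin m) (Fin m) (MonoidAlgebra ℚ π))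

/-- The span of the image of the matrix. -/
noncomputable def V0 : Submodule ℝ (Hs π m) :=
  Submodule.span ℝ (Set.range fun x : Fin m → MonoidAlgebra ℚ π => vec (e.mulVec x))

theorem tr_vec (g : π) (x : Fin m → MonoidAlgebra ℚ π) :
    tr g (vec x) = vec fun i => x i * MonoidAlgebra.single g⁻¹ 1 := by
  apply lp.ext
  funext p
  rw [tr_apply, vec_apply, vec_apply, MonoidAlgebra.coeff_mul_single_apply, inv_inv, mul_one]

theorem mulVec_single (g : π) (x : Fin m → MonoidAlgebra ℚ π) :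
    (e.mulVec fun i => x i * MonoidAlgebra.single g 1) =
      fun i => e.mulVec x i * MonoidAlgebra.single g 1 := by
  funext i
  simp only [Matrix.mulVec, dotProduct, Finset.sum_mul, mul_assoc]

theorem tr_mem {g : π} {f : Hs π m} (hf : f ∈ V0 e) : tr g f ∈ V0 e := by
  induction hf using Submodule.span_induction with
  | mem f hf =>
    obtain ⟨x, rfl⟩ := hf
    refine Submodule.subset_span ⟨fun i => x i * MonoidAlgebra.single g⁻¹ 1, ?_⟩
    show vec (e.mulVec _) = tr g (vec (e.mulVec x))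
    rw [mulVec_single, tr_vec]
  | zero => rw [map_zero]; exact zero_mem _
  | add a b _ _ ha hb => rw [map_add]; exact add_mem ha hb
  | smul c a _ ha => rw [map_smul]; exact Submodule.smul_mem _ _ ha

/-- The closure. -/
noncomputable def V : Submodule ℝ (Hs π m) := (V0 e).topologicalClosure

instance : CompleteSpace (V e) := (V0 e).isClosed_topologicalClosure.completeSpace_coe

theorem tr_memV {g : π} {f : Hs π m} (hf : f ∈ V e) : tr g f ∈ V e := by
  have h1 : f ∈ closure (V0 e : Set (Hs π m)) := hf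
  have h2 : tr g f ∈ closure (V0 e : Set (Hs π m)) :=
    map_mem_closure (tr g).continuous h1 fun x hx => tr_mem e hx
  exact h2

/-- The projection. -/
noncomputable def P : Hs π m →L[ℝ] Hs π m := (V e).starProjection

theorem P_tr (g : π) (f : Hs π m) : P e (tr g f) = tr g (P e f) := by
  refine Submodule.eq_starProjection_of_mem_of_inner_eq_zero ?_ ?_
  · exact tr_memV e (Submodule.starProjection_apply_mem _ _)
  · intro w hw
    have h1 : w = tr g (tr g⁻¹ w) := by rw [tr_tr, mul_inv_cancel, tr_one]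
    rw [h1, ← map_sub, LinearIsometry.inner_map_map]
    exact Submodule.starProjection_inner_eq_zero _ _ (tr_memV e hw)

theorem P_inv (g h h' : π) (i j : Fin m) :
    ⟪P e (dl (i, h * g)), dl (j, h' * g)⟫_ℝ = ⟪P e (dl (i, h)), dl (j, h')⟫_ℝ := by
  have h1 : ∀ (i : Fin m) (h : π), dl (i, h * g) = tr g⁻¹ (dl (i, h)) := by
    intro i h
    rw [tr_dl, inv_inv]
  rw [h1, h1, P_tr, LinearIsometry.inner_map_map]

/-- The adjoint vector of row `j`. -/
noncomputable def W (j : Fin m) : Hs π m :=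
  ∑ i, (e j i).coeff.sum fun g a => (a : ℝ) • dl (i, g⁻¹)

theorem inner_W (f : Hs π m) (j : Fin m) :
    ⟪f, W e j⟫_ℝ = ∑ i, (e j i).coeff.sum fun g a => (a : ℝ) * ⟪f, dl (i, g⁻¹)⟫_ℝ := by
  rw [W, inner_sum]
  refine Finset.sum_congr rfl fun i _ => ?_
  rw [Finsupp.sum, Finsupp.sum, inner_sum]
  refine Finset.sum_congr rfl fun g _ => ?_
  rw [real_inner_smul_right]

theorem inner_vec_W (y : Fin m → MonoidAlgebra ℚ π) (j : Fin m) :
    ⟪vec y, W e j⟫_ℝ = ((e.mulVec y j).coeff 1 : ℝ) := by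
  rw [inner_W]
  have h1 : (e.mulVec y j).coeff 1 =
      ∑ i, (e j i).coeff.sum fun g a => a * (y i).coeff g⁻¹ := by
    rw [Matrix.mulVec, dotProduct, MonoidAlgebra.coeff_sum, Finsupp.finsetSum_apply]
    refine Finset.sum_congr rfl fun i _ => ?_
    rw [MonoidAlgebra.coeff_mul_apply_left]
    simp only [mul_one]
  rw [h1]
  push_cast
  refine Finset.sum_congr rfl fun i _ => ?_
  rw [Finsupp.sum, Finsupp.sum]
  push_cast
  refine Finset.sum_congr rfl fun g _ => ?_
  rw [inner_dl, vec_apply]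

variable {e}

theorem inner_V_W (he : e * e = e) (j : Fin m) {f : Hs π m} (hf : f ∈ V e) :
    ⟪f, W e j⟫_ℝ = ⟪f, dl (j, 1)⟫_ℝ := by
  have h0 : ∀ f ∈ V0 e, ⟪f, W e j⟫_ℝ = ⟪f, dl (j, 1)⟫_ℝ := by
    intro f hf
    induction hf using Submodule.span_induction with
    | mem f hf =>
      obtain ⟨x, rfl⟩ := hf
      show ⟪vec (e.mulVec x), W e j⟫_ℝ = ⟪vec (e.mulVec x), dl (j, 1)⟫_ℝ
      rw [inner_vec_W, Matrix.mulVec_mulVec, he, inner_dl, vec_apply]
    | zero => rw [inner_zero_left, inner_zero_left]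
    | add a b _ _ ha hb => rw [inner_add_left, inner_add_left, ha, hb]
    | smul c a _ ha => rw [real_inner_smul_left, real_inner_smul_left, ha]
  have h1 : f ∈ closure (V0 e : Set (Hs π m)) := hf
  have h2 : IsClosed {f : Hs π m | ⟪f, W e j⟫_ℝ = ⟪f, dl (j, 1)⟫_ℝ} :=
    isClosed_eq (continuous_id.inner continuous_const) (continuous_id.inner continuous_const)
  exact (closure_minimal (fun f hf => h0 f hf) h2) h1

theorem vec_col (i : Fin m) : vec (fun j => e j i) =
    ∑ j, (e j i).coeff.sum fun g a => (a : ℝ) • dl (j, g) := by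
  apply lp.ext
  funext ⟨k, h⟩
  rw [← inner_dl, ← inner_dl (∑ j, _), inner_dl, vec_apply, sum_inner]
  have h1 : ∀ j, ⟪((e j i).coeff.sum fun g a => (a : ℝ) • dl (j, g)), dl (k, h)⟫_ℝ =
      if k = j then ((e k i).coeff h : ℝ) else 0 := by
    intro j
    rw [Finsupp.sum, sum_inner]
    have h2 : ∀ g ∈ (e j i).coeff.support,
        ⟪((((e j i).coeff g : ℚ) : ℝ) • dl (j, g) : Hs π m), dl (k, h)⟫_ℝ =
        if h = g then (if k = j then ((e k i).coeff h : ℝ) else 0) else 0 := by
      intro g _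
      rw [real_inner_smul_left, inner_dl, dl_apply]
      by_cases hk : k = j
      · subst hk
        by_cases hg : h = g
        · subst hg; simp
        · simp [hg]
      · simp [hk]
    rw [Finset.sum_congr rfl h2, Finset.sum_ite_eq]
    split_ifs with h3 h4
    · rfl
    · rfl
    · rename_i h4
      subst h4
      rw [Finsupp.notMem_support_iff.mp h3, Rat.cast_zero]
    · rfl
  rw [Finset.sum_congr rfl fun j _ => h1 j, Finset.sum_ite_eq, if_pos (Finset.mem_univ k)]

theorem col_mem (i : Fin m) : vec (fun j => e j i) ∈ V e := by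
  refine Submodule.le_topologicalClosure _ (Submodule.subset_span ⟨Pi.single i 1, ?_⟩)
  show vec (e.mulVec (Pi.single i 1)) = _
  rw [Matrix.mulVec_single_one]
  rfl

end AT4Aux

open AT4Aux

/-- AT4 (Kaplansky). An idempotent matrix over `ℚ[π]` whose trace at `1` vanishes is zero.
(Real `ℓ²(π)^m`; orthogonal projection onto the image.) -/
theorem at_kaplansky {π : Type} [Group π] {m : ℕ}
    (e : Matrix (Fin m) (Fin m) (MonoidAlgebra ℚ π)) (he : e * e = e)
    (hr : ∑ i, (e i i).coeff 1 = 0) : e = 0 := by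
  have hPmem : ∀ f, P e f ∈ V e := fun f => Submodule.starProjection_apply_mem _ _
  have hPself : ∀ f ∈ V e, P e f = f := fun f hf =>
    Submodule.starProjection_eq_self_iff.mpr hf
  have hsym : ∀ f f', ⟪P e f, f'⟫_ℝ = ⟪f, P e f'⟫_ℝ := fun f f' =>
    Submodule.inner_starProjection_left_eq_right _ _ _
  -- the trace of the projection
  have h1 : ∑ j, ⟪P e (dl (j, 1)), dl (j, 1)⟫_ℝ = 0 := by
    have h2 : ∀ j, ⟪P e (dl (j, 1)), dl (j, 1)⟫_ℝ =
        ∑ i, (e j i).coeff.sum fun g a => (a : ℝ) * ⟪P e (dl (j, g)), dl (i, 1)⟫_ℝ := by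
      intro j
      rw [← inner_V_W he j (hPmem _), inner_W]
      refine Finset.sum_congr rfl fun i _ => ?_
      rw [Finsupp.sum, Finsupp.sum]
      refine Finset.sum_congr rfl fun g _ => ?_
      congr 1
      rw [← P_inv e g 1 g⁻¹ j i, one_mul, inv_mul_cancel]
    have h3 : ∀ i, ((e i i).coeff 1 : ℝ) =
        ∑ j, (e j i).coeff.sum fun g a => (a : ℝ) * ⟪P e (dl (j, g)), dl (i, 1)⟫_ℝ := by
      intro i
      have h4 : ((e i i).coeff 1 : ℝ) = ⟪P e (vec fun j => e j i), dl (i, 1)⟫_ℝ := by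
        rw [hPself _ (col_mem i), inner_dl, vec_apply]
      rw [h4, vec_col, map_sum, sum_inner]
      refine Finset.sum_congr rfl fun j _ => ?_
      rw [Finsupp.sum, Finsupp.sum, map_sum, sum_inner]
      refine Finset.sum_congr rfl fun g _ => ?_
      rw [map_smul, real_inner_smul_left]
    rw [Finset.sum_congr rfl fun j _ => h2 j, Finset.sum_comm,
      ← Finset.sum_congr rfl fun i _ => h3 i]
    exact_mod_cast hr
  have hnn : ∀ p : Fin m × π, ⟪P e (dl p), dl p⟫_ℝ = ‖P e (dl p)‖ ^ 2 := by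
    intro p
    rw [← real_inner_self_eq_norm_sq, hsym (dl p) (P e (dl p)), hPself _ (hPmem _), real_inner_comm]
  have h5 : ∀ j, ⟪P e (dl (j, 1)), dl (j, 1)⟫_ℝ = 0 := by
    intro j
    refine (Finset.sum_eq_zero_iff_of_nonneg fun j _ => ?_).mp h1 j (Finset.mem_univ j)
    rw [hnn]; positivity
  have h6 : ∀ j g, P e (dl (j, g)) = 0 := by
    intro j g
    have h7 := P_inv e g 1 1 j j
    rw [one_mul, h5, hnn] at h7
    simpa using h7
  refine Matrix.ext fun i j => ?_
  have h8 : ∀ g, ((e i j).coeff g : ℝ) = 0 := by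
    intro g
    have h9 : ((e i j).coeff g : ℝ) = ⟪P e (vec fun i => e i j), dl (i, g)⟫_ℝ := by
      rw [hPself _ (col_mem j), inner_dl, vec_apply]
    rw [h9, hsym, h6, inner_zero_right]
  ext g
  exact_mod_cast h8 g

end Pool.Agent.TC
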