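import Pool.Agent.Lib.TC.ATD

/-!
# Section 11.1, AT5
-/

namespace Pool.Agent.TC



open scoped Classical

section defs -- copy of the two definitions of AT.lean, delete when assembling

variable (k π : Type) [Field k] [Group π]

end defs

namespace AT5Aux

variable {k π : Type} [Field k] [Group π]

lemma augH_of (g : π) : augH k π (MonoidAlgebra.of k π g) = 1 := by
  simp [augH]

lemma mem_augI (x : MonoidAlgebra k π) : x ∈ augI k π ↔ augH k π x = 0 := Iff.rfl

lemma of_sub_mem (g : π) : MonoidAlgebra.of k π g - 1 ∈ augI k π := by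
  rw [mem_augI, map_sub, augH_of, map_one, sub_self]

/-- The span of the elements `a - 1`. -/
noncomputable def spanA (S : Set π) : Submodule (MonoidAlgebra k π) (MonoidAlgebra k π) :=
  Submodule.span _ ((fun a => MonoidAlgebra.of k π a - 1) '' S)

lemma of_sub_mem_span (S : Set π) (hS : Subgroup.closure S = ⊤) (g : π) :
    MonoidAlgebra.of k π g - 1 ∈ spanA (k := k) S := by
  have hg : g ∈ Subgroup.closure S := by rw [hS]; trivial
  induction hg using Subgroup.closure_induction with
  | mem x hx => exact Submodule.subset_span ⟨x, hx, rfl⟩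
  | one => rw [map_one, sub_self]; exact Submodule.zero_mem _
  | mul x y _ _ hx hy =>
    have h : MonoidAlgebra.of k π (x * y) - 1 =
        MonoidAlgebra.of k π x • (MonoidAlgebra.of k π y - 1) + (MonoidAlgebra.of k π x - 1) := by
      rw [map_mul, smul_eq_mul, mul_sub, mul_one]
      abel
    rw [h]
    exact Submodule.add_mem _ (Submodule.smul_mem _ _ hy) hx
  | inv x _ hx =>
    have h : MonoidAlgebra.of k π x⁻¹ - 1 =
        - (MonoidAlgebra.of k π x⁻¹ • (MonoidAlgebra.of k π x - 1)) := by
      rw [smul_eq_mul, mul_sub, mul_one, ← map_mul, inv_mul_cancel, map_one]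
      abel
    rw [h]
    exact Submodule.neg_mem _ (Submodule.smul_mem _ _ hx)

lemma sub_augH_mem (S : Set π) (hS : Subgroup.closure S = ⊤) (x : MonoidAlgebra k π) :
    x - algebraMap k _ (augH k π x) ∈ spanA (k := k) S := by
  induction x using MonoidAlgebra.induction_on with
  | of g =>
    rw [augH_of, map_one]
    exact of_sub_mem_span S hS g
  | add x y hx hy =>
    rw [map_add, map_add, add_sub_add_comm]
    exact Submodule.add_mem _ hx hy
  | smul r x hx =>
    have h : r • x - algebraMap k (MonoidAlgebra k π) (augH k π (r • x)) =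
        algebraMap k (MonoidAlgebra k π) r • (x - algebraMap k _ (augH k π x)) := by
      rw [map_smul, smul_eq_mul, smul_eq_mul, map_mul, mul_sub, Algebra.smul_def]
    rw [h]
    exact Submodule.smul_mem _ _ hx

lemma augI_le (S : Set π) (hS : Subgroup.closure S = ⊤) : augI k π ≤ spanA (k := k) S := by
  intro x hx
  have h := sub_augH_mem S hS x
  rw [mem_augI] at hx
  rwa [hx, map_zero, sub_zero] at h

/-- A homomorphism from a finitely generated group to `ℚ` has a multiple with integral values. -/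
lemma hom_rat {π : Type} [Group π] (S : Finset π) (hS : Subgroup.closure (S : Set π) = ⊤)
    (hZ : ∀ f : π →* Multiplicative ℤ, f = 1) (f : π → ℚ) (hf : ∀ x y, f (x * y) = f x + f y)
    (x : π) : f x = 0 := by
  have h1 : f 1 = 0 := by
    have := hf 1 1
    rw [mul_one] at this
    linarith
  have hinv : ∀ x, f x⁻¹ = - f x := by
    intro x
    have := hf x⁻¹ x
    rw [inv_mul_cancel, h1] at this
    linarith
  -- common denominator
  obtain ⟨N, hN, hNS⟩ : ∃ N : ℕ, 0 < N ∧ ∀ a ∈ S, ∃ z : ℤ, (N : ℚ) * f a = z := by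
    refine ⟨∏ a ∈ S, (f a).den, Finset.prod_pos fun a _ => (f a).den_pos, fun a ha => ?_⟩
    refine ⟨(∏ b ∈ S.erase a, (f b).den : ℕ) * (f a).num, ?_⟩
    rw [← Finset.mul_prod_erase S _ ha]
    push_cast
    have h2 : ((f a).den : ℚ) * f a = (f a).num := by
      rw [mul_comm]
      exact Rat.mul_den_eq_num _
    calc ((f a).den : ℚ) * (∏ b ∈ S.erase a, ((f b).den : ℚ)) * f a
        = (∏ b ∈ S.erase a, ((f b).den : ℚ)) * (((f a).den : ℚ) * f a) := by ring
      _ = _ := by rw [h2]
  have hint : ∀ x, ∃ z : ℤ, (N : ℚ) * f x = z := by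
    intro x
    have hx : x ∈ Subgroup.closure (S : Set π) := by rw [hS]; trivial
    induction hx using Subgroup.closure_induction with
    | mem x hx => exact hNS x hx
    | one => exact ⟨0, by rw [h1]; simp⟩
    | mul x y _ _ hx hy =>
      obtain ⟨z, hz⟩ := hx
      obtain ⟨w, hw⟩ := hy
      exact ⟨z + w, by rw [hf, mul_add, hz, hw]; push_cast; ring⟩
    | inv x _ hx =>
      obtain ⟨z, hz⟩ := hx
      exact ⟨-z, by rw [hinv, mul_neg, hz]; push_cast; ring⟩
  choose z hz using hint
  have hzmul : ∀ x y, z (x * y) = z x + z y := by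
    intro x y
    have : ((z (x * y) : ℤ) : ℚ) = ((z x + z y : ℤ) : ℚ) := by
      rw [← hz, hf, mul_add, hz, hz]
      push_cast
      ring
    exact_mod_cast this
  let F : π →* Multiplicative ℤ :=
    { toFun := fun x => Multiplicative.ofAdd (z x)
      map_one' := by
        have : ((z 1 : ℤ) : ℚ) = 0 := by rw [← hz, h1, mul_zero]
        have h3 : z 1 = 0 := by exact_mod_cast this
        rw [h3]
        rfl
      map_mul' := fun x y => by
        rw [hzmul]
        rfl }
  have hF := DFunLike.congr_fun (hZ F) x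
  have hzx : z x = 0 := by
    have h4 : Multiplicative.ofAdd (z x) = 1 := hF
    exact Multiplicative.ofAdd.injective h4
  have h5 := hz x
  rw [hzx, Int.cast_zero] at h5
  rcases mul_eq_zero.1 h5 with h6 | h6
  · exfalso
    have : N = 0 := by exact_mod_cast h6
    omega
  · exact h6

end AT5Aux

open AT5Aux in
/-- AT5. If the rational augmentation ideal of a finitely generated group is projective then it is
the image of an idempotent matrix, and the sum of all diagonal coefficients is the rational rank of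
the abelianisation: it vanishes if every homomorphism to `ℤ` is trivial. -/
theorem at_rank {π : Type} [Group π] [Group.FG π]
    (h : Module.Projective (MonoidAlgebra ℚ π) (augI ℚ π))
    (hZ : ∀ f : π →* Multiplicative ℤ, f = 1) :
    ∃ (m : ℕ) (e : Matrix (Fin m) (Fin m) (MonoidAlgebra ℚ π)), e * e = e ∧
      ∑ i, augH ℚ π (e i i) = 0 ∧ (e = 0 → ∀ x : π, x = 1) := by
  obtain ⟨S, hS⟩ := (Group.FG.out : (⊤ : Subgroup π).FG)
  let m := S.card
  let a : Fin m → π := fun i => (S.equivFin.symm i : π)
  have ha : ∀ g ∈ S, ∃ i, a i = g := fun g hg => ⟨S.equivFin ⟨g, hg⟩, by simp [a]⟩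
  have haS : ∀ i, a i ∈ S := fun i => (S.equivFin.symm i).2
  let v : Fin m → augI ℚ π := fun i => ⟨MonoidAlgebra.of ℚ π (a i) - 1, of_sub_mem _⟩
  let φ : (Fin m → MonoidAlgebra ℚ π) →ₗ[MonoidAlgebra ℚ π] augI ℚ π :=
    Fintype.linearCombination (MonoidAlgebra ℚ π) v
  have hφ : ∀ x, φ x = ∑ i, x i • v i := fun x => Fintype.linearCombination_apply _ _ x
  have hsurj : Function.Surjective φ := by
    rw [← LinearMap.range_eq_top, eq_top_iff]
    rintro ⟨x, hx⟩ -
    have h1 := augI_le (k := ℚ) (S : Set π) hS hx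
    have h2 : spanA (k := ℚ) (S : Set π) ≤ (LinearMap.range φ).map (augI ℚ π).subtype := by
      rw [spanA, Submodule.span_le]
      rintro _ ⟨g, hg, rfl⟩
      obtain ⟨i, rfl⟩ := ha g hg
      refine ⟨v i, ⟨Pi.single i 1, ?_⟩, rfl⟩
      rw [hφ, Finset.sum_eq_single i]
      · rw [Pi.single_eq_same, one_smul]
      · intro j _ hj
        rw [Pi.single_eq_of_ne hj, zero_smul]
      · intro hi
        exact absurd (Finset.mem_univ i) hi
    obtain ⟨y, hy, hyx⟩ := h2 h1
    have : y = ⟨x, hx⟩ := Subtype.ext hyx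
    rw [← this]
    exact hy
  obtain ⟨s, hs⟩ := Module.projective_lifting_property φ LinearMap.id hsurj
  have hs' : ∀ x, φ (s x) = x := fun x => LinearMap.congr_fun hs x
  let e : Matrix (Fin m) (Fin m) (MonoidAlgebra ℚ π) := fun i j => s (v i) j
  have hse : ∀ x : Fin m → MonoidAlgebra ℚ π, ∀ j, s (φ x) j = ∑ i, x i * e i j := by
    intro x j
    rw [hφ, map_sum, Finset.sum_apply]
    refine Finset.sum_congr rfl fun i _ => ?_
    rw [map_smul]
    rfl
  have hvan : ∀ j, ∀ g : π, augH ℚ π (s ⟨MonoidAlgebra.of ℚ π g - 1, of_sub_mem g⟩ j) = 0 := by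
    intro j g
    refine hom_rat S hS hZ
      (fun g => augH ℚ π (s ⟨MonoidAlgebra.of ℚ π g - 1, of_sub_mem g⟩ j)) ?_ g
    intro x y
    have h1 : (⟨MonoidAlgebra.of ℚ π (x * y) - 1, of_sub_mem _⟩ : augI ℚ π) =
        MonoidAlgebra.of ℚ π x • ⟨MonoidAlgebra.of ℚ π y - 1, of_sub_mem y⟩ +
          ⟨MonoidAlgebra.of ℚ π x - 1, of_sub_mem x⟩ := by
      apply Subtype.ext
      change MonoidAlgebra.of ℚ π (x * y) - 1 =
        MonoidAlgebra.of ℚ π x • (MonoidAlgebra.of ℚ π y - 1) + (MonoidAlgebra.of ℚ π x - 1)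
      rw [map_mul, smul_eq_mul, mul_sub, mul_one]
      abel
    change augH ℚ π (s ⟨MonoidAlgebra.of ℚ π (x * y) - 1, of_sub_mem _⟩ j) = _
    rw [h1, map_add, map_smul, Pi.add_apply, Pi.smul_apply, smul_eq_mul, map_add, map_mul,
      augH_of, one_mul]
    exact add_comm _ _
  refine ⟨m, e, ?_, ?_, ?_⟩
  · ext1 i j
    rw [Matrix.mul_apply]
    have h1 := hse (s (v i)) j
    rw [hs'] at h1
    exact h1.symm
  · refine Finset.sum_eq_zero fun i _ => ?_
    exact hvan i (a i)
  · intro he x
    have hz : ∀ y : augI ℚ π, y = 0 := by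
      intro y
      obtain ⟨w, rfl⟩ := hsurj y
      have h1 : s (φ w) = 0 := by
        funext j
        rw [hse, he]
        simp
      rw [← hs' (φ w), h1, map_zero]
    have h1 := congrArg Subtype.val (hz ⟨MonoidAlgebra.of ℚ π x - 1, of_sub_mem x⟩)
    have h2 : MonoidAlgebra.of ℚ π x = MonoidAlgebra.of ℚ π 1 := by
      rw [map_one]
      exact sub_eq_zero.1 h1
    exact MonoidAlgebra.of_injective h2

end Pool.Agent.TC
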