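import Pool.Agent.Lib.TC.ATD

/-!
# Section 11.1, AT6
-/

namespace Pool.Agent.TC



open scoped Classical

namespace AT6Aux

variable {k π : Type} [Field k] [Group π]

theorem aug_single (g : π) (c : k) : augH k π (MonoidAlgebra.single g c) = c := by
  unfold augH
  rw [MonoidAlgebra.lift_single]
  simp

/-- The linear extension of a map on the group. -/
noncomputable def ext {V : Type} [AddCommGroup V] [Module k V] (D : π → V) :
    MonoidAlgebra k π →ₗ[k] V :=
  (Finsupp.lift V k π D) ∘ₗ (MonoidAlgebra.coeffLinearEquiv k).toLinearMap

theorem ext_single {V : Type} [AddCommGroup V] [Module k V] (D : π → V) (g : π) (c : k) :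
    ext D (MonoidAlgebra.single g c) = c • D g := by
  unfold ext
  simp [Finsupp.lift_apply]

theorem mem_augI {a : MonoidAlgebra k π} : a ∈ augI k π ↔ augH k π a = 0 := Iff.rfl

end AT6Aux

open AT6Aux in
/-- AT6. Projectivity from crossed homomorphisms: if there is a crossed homomorphism
`D : π → k[π]^m` whose composition with the map `e_i ↦ a_i - 1` is `g ↦ g - 1` then the
augmentation ideal is projective. -/
theorem at_crossed {k π : Type} [Field k] [Group π] {m : ℕ} (a : Fin m → π)
    (D : π → Fin m → MonoidAlgebra k π)
    (hD : ∀ g h : π, D (g * h) = D g + fun i => MonoidAlgebra.of k π g * D h i)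
    (hφ : ∀ g : π, ∑ i, D g i * (MonoidAlgebra.of k π (a i) - 1) = MonoidAlgebra.of k π g - 1) :
    Module.Projective (MonoidAlgebra k π) (augI k π) := by
  have e1 : ∀ (g : π) (c : k), MonoidAlgebra.single g c = c • MonoidAlgebra.of k π g := by
    intro g c
    simp
  -- the semilinearity
  have hS : ∀ r x : MonoidAlgebra k π, ext D (r * x) = augH k π x • ext D r + r • ext D x := by
    intro r x
    induction r using MonoidAlgebra.induction_linear with
    | zero => simp
    | add r r' h h' => rw [add_mul, map_add, h, h', map_add, smul_add, add_smul]; abel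
    | single g c =>
      induction x using MonoidAlgebra.induction_linear with
      | zero => simp
      | add x x' h h' => rw [mul_add, map_add, h, h', map_add, map_add, smul_add, add_smul]; abel
      | single h d =>
        rw [MonoidAlgebra.single_mul_single, ext_single, ext_single, ext_single, aug_single, hD]
        funext i
        simp only [Pi.add_apply, Pi.smul_apply, smul_eq_mul, e1 g c, smul_add, mul_smul,
          smul_mul_assoc, Algebra.mul_smul_comm]
        rw [smul_comm c d (D g i), smul_comm c d (MonoidAlgebra.of k π g * D h i)]
  -- the map to the ideal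
  let φ : (Fin m → MonoidAlgebra k π) →ₗ[MonoidAlgebra k π] augI k π :=
    { toFun := fun v => ⟨∑ i, v i * (MonoidAlgebra.of k π (a i) - 1), by
        rw [mem_augI, map_sum]
        refine Finset.sum_eq_zero fun i _ => ?_
        rw [map_mul, map_sub, map_one, MonoidAlgebra.of_apply, aug_single, sub_self, mul_zero]⟩
      map_add' := fun v w => by
        apply Subtype.ext
        simp [add_mul, Finset.sum_add_distrib]
      map_smul' := fun r v => by
        apply Subtype.ext
        simp [Finset.mul_sum, mul_assoc] }
  let s : augI k π →ₗ[MonoidAlgebra k π] (Fin m → MonoidAlgebra k π) :=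
    { toFun := fun x => ext D x.1
      map_add' := fun x y => by simp
      map_smul' := fun r x => by
        change ext D (r * x.1) = _
        rw [hS, mem_augI.1 x.2, zero_smul, zero_add]
        rfl }
  refine Module.Projective.of_split s φ ?_
  apply LinearMap.ext
  intro x
  apply Subtype.ext
  change ∑ i, ext D x.1 i * (MonoidAlgebra.of k π (a i) - 1) = x.1
  have key : ∀ y : MonoidAlgebra k π, ∑ i, ext D y i * (MonoidAlgebra.of k π (a i) - 1) =
      y - augH k π y • 1 := by
    intro y
    induction y using MonoidAlgebra.induction_linear with
    | zero => simp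
    | add y y' h h' =>
      simp only [map_add, Pi.add_apply, add_mul, Finset.sum_add_distrib, h, h', add_smul]
      abel
    | single g c =>
      simp only [ext_single, Pi.smul_apply, smul_mul_assoc, aug_single]
      rw [← Finset.smul_sum, hφ, smul_sub, ← e1]
  rw [key, mem_augI.1 x.2, zero_smul, sub_zero]

end Pool.Agent.TC
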