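import Pool.Agent.Lib.TC.AT1
import Pool.Agent.Lib.TC.AT2
import Pool.Agent.Lib.TC.AT3
import Pool.Agent.Lib.TC.AT4
import Pool.Agent.Lib.TC.AT5
import Pool.Agent.Lib.TC.AT6

/-!
# Section 11.1: groups with projective augmentation ideals
-/

namespace Pool.Agent.TC

open scoped Classical

namespace AT7Aux

variable {π : Type} [Group π]

/-- A group without nontrivial homomorphisms to `ℤ/p` has no nontrivial homomorphism to `ℤ`. -/
theorem hom_int {p : ℕ} [Fact p.Prime] (hp : ∀ f : π →* Multiplicative (ZMod p), f = 1)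
    (f : π →* Multiplicative ℤ) : f = 1 := by
  by_contra hf
  obtain ⟨d, hd⟩ := Int.subgroup_cyclic (AddMonoidHom.range (MonoidHom.toAdditiveLeft f))
  have hmem : ∀ g : π, ∃ k : ℤ, (f g).toAdd = k * d := by
    intro g
    have h1 : (f g).toAdd ∈ AddMonoidHom.range (MonoidHom.toAdditiveLeft f) :=
      ⟨Additive.ofMul g, rfl⟩
    rw [hd, AddSubgroup.mem_closure_singleton] at h1
    obtain ⟨k, hk⟩ := h1
    exact ⟨k, by rw [← hk, smul_eq_mul]⟩
  choose F hF using hmem
  have hd0 : d ≠ 0 := by
    rintro rfl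
    apply hf
    ext g
    have := hF g
    rw [mul_zero] at this
    simpa using this
  have hFmul : ∀ g h, F (g * h) = F g + F h := by
    intro g h
    have h1 := hF (g * h)
    rw [map_mul, toAdd_mul, hF g, hF h, ← add_mul] at h1
    exact (mul_right_cancel₀ hd0 h1).symm
  let φ : π →* Multiplicative (ZMod p) :=
    MonoidHom.mk' (fun g => Multiplicative.ofAdd ((F g : ℤ) : ZMod p)) fun g h => by
      rw [hFmul, Int.cast_add, ofAdd_add]
  have hφ := hp φ
  have h1 : d ∈ AddMonoidHom.range (MonoidHom.toAdditiveLeft f) := by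
    rw [hd]
    exact AddSubgroup.subset_closure rfl
  obtain ⟨a, ha⟩ := h1
  have h2 : (f a.toMul).toAdd = d := ha
  have h3 : F a.toMul = 1 := by
    have h4 := hF a.toMul
    rw [h2] at h4
    have h5 : (1 : ℤ) * d = F a.toMul * d := by rw [one_mul]; exact h4
    exact (mul_right_cancel₀ hd0 h5).symm
  have h6 : φ a.toMul = 1 := by rw [hφ]; rfl
  have h7 : ((F a.toMul : ℤ) : ZMod p) = 0 := h6
  rw [h3, Int.cast_one] at h7
  exact one_ne_zero h7

theorem torsion_free (hT : ∀ ℓ : ℕ, ℓ.Prime → ∀ x : π, x ^ ℓ = 1 → x = 1) {x : π} {m : ℕ}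
    (hm : m ≠ 0) (hx : x ^ m = 1) : x = 1 := by
  induction m using Nat.strong_induction_on generalizing x with
  | _ m ih =>
    by_cases h1 : m = 1
    · rw [h1, pow_one] at hx
      exact hx
    · obtain ⟨q, hq, l, rfl⟩ := Nat.exists_prime_and_dvd h1
      have hl : l ≠ 0 := by
        rintro rfl
        exact hm (mul_zero q)
      have h2 : x ^ q = 1 := by
        refine ih l ?_ hl (x := x ^ q) ?_
        · have := hq.two_le
          nlinarith [Nat.pos_of_ne_zero hl]
        · rw [← pow_mul]
          exact hx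
      exact hT q hq x h2

theorem aug_eq (a : MonoidAlgebra ℚ π) : augH ℚ π a = a.coeff.sum fun _ c => c := by
  unfold augH
  rw [MonoidAlgebra.lift_apply]
  refine Finsupp.sum_congr fun g _ => ?_
  simp

end AT7Aux

open AT7Aux in
/-- AT. -/
theorem at_main {p : ℕ} [Fact p.Prime] {π : Type} [Group π] [Group.FG π]
    (hp : ∀ f : π →* Multiplicative (ZMod p), f = 1)
    (hproj : ∀ (k : Type) [Field k], Module.Projective (MonoidAlgebra k π) (augI k π)) (x : π) :
    x = 1 := by
  obtain ⟨m, e, he, hsum, h0⟩ := at_rank (hproj ℚ) (hom_int hp)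
  refine h0 (at_kaplansky e he ?_) x
  have hT : ∀ ℓ : ℕ, ℓ.Prime → ∀ x : π, x ^ ℓ = 1 → x = 1 := by
    intro ℓ hℓ x hx
    haveI : Fact ℓ.Prime := ⟨hℓ⟩
    exact at_torsion (hproj (ZMod ℓ)) x hx
  have hr : ∀ s : π, s ≠ 1 → clTr e s = 0 := by
    intro s hs
    by_contra hne
    obtain ⟨u, N, hN, hu⟩ := at_bass e he hne
    exact at_divisible hN (fun m hm h => hs (torsion_free hT hm h)) hu (hproj ℚ)
  -- the sum of the diagonal coefficients
  set D : π →₀ ℚ := ∑ i, (e i i).coeff with hD
  have hDg : ∀ g, D g = ∑ i, (e i i).coeff g := by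
    intro g
    rw [hD, Finsupp.finset_sum_apply]
  have h1 : D.sum (fun _ c => c) = 0 := by
    rw [← hsum, hD, ← Finsupp.sum_finset_sum_index (fun _ => rfl) (fun _ _ _ => rfl)]
    exact Finset.sum_congr rfl fun i _ => (aug_eq _).symm
  have h2 : ∀ s, clTr e s = D.sum fun g c => if IsConj s g then c else 0 := by
    intro s
    unfold clTr
    rw [hD, ← Finsupp.sum_finset_sum_index]
    · intro g; simp
    · intro g a b; split_ifs <;> simp
  have h3 : D.sum (fun _ c => c) = D 1 := by
    rw [Finsupp.sum, ← Finset.sum_fiberwise_of_maps_to (g := ConjClasses.mk)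
      (t := insert (ConjClasses.mk 1) (D.support.image ConjClasses.mk))
      (fun g hg => Finset.mem_insert_of_mem (Finset.mem_image_of_mem _ hg))]
    rw [Finset.sum_eq_single_of_mem (ConjClasses.mk 1) (Finset.mem_insert_self _ _)]
    · have h4 : (D.support.filter fun g => ConjClasses.mk g = ConjClasses.mk 1) =
          D.support.filter fun g => g = 1 := by
        refine Finset.filter_congr fun g _ => ?_
        rw [ConjClasses.mk_eq_mk_iff_isConj, isConj_one_left]
      rw [h4, Finset.sum_filter, Finset.sum_ite_eq']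
      split_ifs with h5
      · rfl
      · exact (Finsupp.notMem_support_iff.1 h5).symm
    · intro c hc hc1
      obtain ⟨s, rfl⟩ := ConjClasses.mk_surjective c
      have hs : s ≠ 1 := fun h => hc1 (by rw [h])
      have h5 := hr s hs
      rw [h2, Finsupp.sum, ← Finset.sum_filter] at h5
      rw [← h5]
      refine Finset.sum_congr ?_ fun _ _ => rfl
      refine Finset.filter_congr fun g _ => ?_
      rw [ConjClasses.mk_eq_mk_iff_isConj, isConj_comm]
  rw [← hDg, ← h3, h1]

end Pool.Agent.TC
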