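import Pool.Agent.Lib.TC.ATD

/-!
# Section 11.1, AT1
-/

namespace Pool.Agent.TC



open scoped Classical

namespace AT1Aux

variable {k π : Type} [Field k] [Group π]

theorem aug_single (g : π) (c : k) : augH k π (MonoidAlgebra.single g c) = c := by
  unfold augH
  rw [MonoidAlgebra.lift_single]
  simp

theorem mem_augI {a : MonoidAlgebra k π} : a ∈ augI k π ↔ augH k π a = 0 := Iff.rfl

/-- The part of an element with support in `T`. -/
noncomputable def part (T : Set π) : MonoidAlgebra k π →+ MonoidAlgebra k π :=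
  (MonoidAlgebra.coeffAddEquiv.symm : (π →₀ k) ≃+ MonoidAlgebra k π).toAddMonoidHom.comp
    ((Finsupp.filterAddHom (M := k) (· ∈ T)).comp
      (MonoidAlgebra.coeffAddEquiv : MonoidAlgebra k π ≃+ (π →₀ k)).toAddMonoidHom)

theorem part_single (T : Set π) (g : π) (c : k) :
    part T (MonoidAlgebra.single g c) = if g ∈ T then MonoidAlgebra.single g c else 0 := by
  have h : part T (MonoidAlgebra.single g c) =
      MonoidAlgebra.ofCoeff ((Finsupp.single g c).filter (· ∈ T)) := rfl
  rw [h]
  split_ifs with hg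
  · rw [Finsupp.filter_single_of_pos _ hg]
    rfl
  · rw [Finsupp.filter_single_of_neg _ hg]
    rfl

/-- A transversal for left multiplication by the powers of `x`. -/
theorem exists_transversal {x : π} {n : ℕ} (hn : orderOf x = n) (h0 : 0 < n) :
    ∃ T : Set π, ∀ g : π, ∃ i ∈ Finset.range n, ∀ j ∈ Finset.range n,
      ((x⁻¹) ^ j * g ∈ T ↔ j = i) := by
  let r := QuotientGroup.rightRel (Subgroup.zpowers x)
  refine ⟨{g | (Quotient.mk r g).out = g}, fun g => ?_⟩
  have h1 : r ((Quotient.mk r g).out) g := Quotient.exact (Quotient.out_eq _)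
  rw [QuotientGroup.rightRel_apply] at h1
  have hfin : IsOfFinOrder x := by
    rw [← orderOf_pos_iff, hn]
    exact h0
  have h2 := hfin.mem_zpowers_iff_mem_range_orderOf.1 h1
  rw [Finset.mem_image] at h2
  obtain ⟨i, hi, hi'⟩ := h2
  rw [hn] at hi
  set o := (Quotient.mk r g).out with ho
  have hg : g = x ^ i * o := by rw [hi']; group
  refine ⟨i, hi, fun j hj => ?_⟩
  have h3 : Quotient.mk r ((x⁻¹) ^ j * g) = Quotient.mk r g := by
    apply Quotient.sound
    change r _ _
    rw [QuotientGroup.rightRel_apply]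
    have : g * ((x⁻¹) ^ j * g)⁻¹ = x ^ j := by
      rw [mul_inv_rev, mul_inv_cancel_left, inv_pow, inv_inv]
    rw [this]
    exact Subgroup.pow_mem _ (Subgroup.mem_zpowers x) j
  rw [Set.mem_setOf_eq, h3, ← ho, hg, ← mul_assoc]
  rw [Finset.mem_range] at hi hj
  constructor
  · intro h
    have h4 : (x⁻¹) ^ j * x ^ i = 1 := by
      have := congrArg (· * o⁻¹) h
      simp only [mul_inv_cancel_right, mul_inv_cancel] at this
      exact this.symm
    rw [inv_pow, inv_mul_eq_one] at h4
    exact pow_injOn_Iio_orderOf (by rw [hn]; exact hj) (by rw [hn]; exact hi) h4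
  · rintro rfl
    rw [inv_pow, inv_mul_cancel, one_mul]

end AT1Aux

open AT1Aux in
/-- AT1. If the augmentation ideal over `F_ℓ` is projective then there is no element of order
`ℓ`. -/
theorem at_torsion {ℓ : ℕ} [Fact ℓ.Prime] {π : Type} [Group π]
    (h : Module.Projective (MonoidAlgebra (ZMod ℓ) π) (augI (ZMod ℓ) π)) (x : π)
    (hx : x ^ ℓ = 1) : x = 1 := by
  by_contra hx1
  have hℓ : ℓ.Prime := Fact.out
  have hord : orderOf x = ℓ := orderOf_eq_prime hx hx1
  obtain ⟨T, hT⟩ := exists_transversal hord hℓ.pos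
  set A := MonoidAlgebra (ZMod ℓ) π with hA
  let X : A := MonoidAlgebra.of (ZMod ℓ) π x
  let Y : A := MonoidAlgebra.of (ZMod ℓ) π x⁻¹
  let P : A →+ A := part T
  have hXY : ∀ i, X ^ i * Y ^ i = 1 := by
    intro i
    change MonoidAlgebra.of (ZMod ℓ) π x ^ i * MonoidAlgebra.of (ZMod ℓ) π x⁻¹ ^ i = 1
    rw [← map_pow, ← map_pow, ← map_mul, inv_pow, mul_inv_cancel, map_one]
  -- the decomposition
  have hdec : ∀ a : A, ∑ i ∈ Finset.range ℓ, X ^ i * P (Y ^ i * a) = a := by
    intro a
    induction a using MonoidAlgebra.induction_linear with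
    | zero => simp
    | add a b ha hb =>
      simp only [mul_add, map_add, Finset.sum_add_distrib, ha, hb]
    | single g c =>
      obtain ⟨i, hi, hij⟩ := hT g
      have e1 : ∀ j, Y ^ j * MonoidAlgebra.single g c = MonoidAlgebra.single ((x⁻¹) ^ j * g) c := by
        intro j
        change MonoidAlgebra.of (ZMod ℓ) π x⁻¹ ^ j * MonoidAlgebra.single g c = _
        rw [← map_pow, MonoidAlgebra.of_apply, MonoidAlgebra.single_mul_single, one_mul]
      rw [Finset.sum_eq_single_of_mem i hi]
      · have h1 : P (Y ^ i * MonoidAlgebra.single g c) = Y ^ i * MonoidAlgebra.single g c := by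
          rw [e1]
          change part T _ = _
          rw [part_single, if_pos ((hij i hi).2 rfl)]
        rw [h1, ← mul_assoc, hXY, one_mul]
      · intro j hj hji
        have h1 : P (Y ^ j * MonoidAlgebra.single g c) = 0 := by
          rw [e1]
          change part T _ = _
          rw [part_single, if_neg fun h => hji ((hij j hj).1 h)]
        rw [h1, mul_zero]
  -- exactness
  have hex : ∀ a : A, ∑ i ∈ Finset.range ℓ, Y ^ i * a = 0 → ∃ b, a = (X - 1) * b := by
    intro a ha
    refine ⟨∑ i ∈ Finset.range ℓ, (∑ j ∈ Finset.range i, X ^ j) * P (Y ^ i * a), ?_⟩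
    rw [Finset.mul_sum]
    have e2 : ∀ i ∈ Finset.range ℓ, (X - 1) * ((∑ j ∈ Finset.range i, X ^ j) * P (Y ^ i * a)) =
        X ^ i * P (Y ^ i * a) - P (Y ^ i * a) := by
      intro i _
      rw [← mul_assoc, mul_geom_sum, sub_mul, one_mul]
    rw [Finset.sum_congr rfl e2, Finset.sum_sub_distrib, hdec, ← map_sum, ha, map_zero, sub_zero]
  have hinv : ∀ a : A, (X - 1) * a = 0 → augH (ZMod ℓ) π a = 0 := by
    intro a ha
    have h1 : X * a = a := by
      rw [sub_mul, one_mul, sub_eq_zero] at ha
      exact ha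
    have h2 : Y * a = a := by
      have h3 : Y * X = 1 := by
        change MonoidAlgebra.of (ZMod ℓ) π x⁻¹ * MonoidAlgebra.of (ZMod ℓ) π x = 1
        rw [← map_mul, inv_mul_cancel, map_one]
      calc Y * a = Y * (X * a) := by rw [h1]
        _ = a := by rw [← mul_assoc, h3, one_mul]
    have h3 : ∀ i : ℕ, Y ^ i * a = a := by
      intro i
      induction i with
      | zero => simp
      | succ i ih => rw [pow_succ, mul_assoc, h2, ih]
    have h4 := hdec a
    simp only [h3] at h4
    rw [← h4, map_sum]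
    have h5 : ∀ i ∈ Finset.range ℓ, augH (ZMod ℓ) π (X ^ i * P a) = augH (ZMod ℓ) π (P a) := by
      intro i _
      rw [map_mul, map_pow]
      change augH (ZMod ℓ) π (MonoidAlgebra.of (ZMod ℓ) π x) ^ i * _ = _
      rw [MonoidAlgebra.of_apply, aug_single, one_pow, one_mul]
    rw [Finset.sum_congr rfl h5, Finset.sum_const, Finset.card_range, nsmul_eq_mul,
      ZMod.natCast_self, zero_mul]
  -- the projective module
  let M := augI (ZMod ℓ) π
  obtain ⟨s, hs⟩ := h.out
  have hXm : X - 1 ∈ augI (ZMod ℓ) π := by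
    rw [mem_augI, map_sub, map_one]
    change augH (ZMod ℓ) π (MonoidAlgebra.of (ZMod ℓ) π x) - 1 = 0
    rw [MonoidAlgebra.of_apply, aug_single, sub_self]
  let m : M := ⟨X - 1, hXm⟩
  have hYX : Y * X = 1 := by
    change MonoidAlgebra.of (ZMod ℓ) π x⁻¹ * MonoidAlgebra.of (ZMod ℓ) π x = 1
    rw [← map_mul, inv_mul_cancel, map_one]
  have hYl : Y ^ ℓ = 1 := by
    change MonoidAlgebra.of (ZMod ℓ) π x⁻¹ ^ ℓ = 1
    rw [← map_pow, inv_pow, hx, inv_one, map_one]
  have hYsum : ∑ i ∈ Finset.range ℓ, Y ^ i • m = 0 := by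
    rw [← Finset.sum_smul]
    apply Subtype.ext
    change (∑ i ∈ Finset.range ℓ, Y ^ i) * (X - 1) = 0
    have h1 : X - 1 = -((Y - 1) * X) := by
      rw [sub_mul, hYX, one_mul, neg_sub]
    rw [h1, mul_neg, ← mul_assoc, geom_sum_mul, hYl, sub_self, zero_mul, neg_zero]
  have h6 : ∀ q : M, ∃ b : A, s m q = (X - 1) * b := by
    intro q
    refine hex _ ?_
    have h7 := congrArg (fun f => f q) (congrArg s hYsum)
    simp only [map_sum, map_smul, map_zero, Finsupp.coe_zero, Pi.zero_apply] at h7
    rw [Finsupp.finset_sum_apply] at h7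
    simpa using h7
  choose b hb using h6
  have h8 : m = (X - 1) • (∑ q ∈ (s m).support, b q • q) := by
    conv_lhs => rw [← hs m]
    rw [Finsupp.linearCombination_apply, Finsupp.sum, Finset.smul_sum]
    refine Finset.sum_congr rfl fun q _ => ?_
    rw [hb q, mul_smul]
    rfl
  set a : M := ∑ q ∈ (s m).support, b q • q with ha
  have h9 : X - 1 = (X - 1) * (a : A) := congrArg Subtype.val h8
  have h10 : (X - 1) * (1 - (a : A)) = 0 := by
    rw [mul_sub, mul_one, ← h9, sub_self]
  have h11 := hinv _ h10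
  rw [map_sub, map_one, mem_augI.1 a.2, sub_zero] at h11
  exact one_ne_zero h11

end Pool.Agent.TC
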