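import Mathlib

/-!
# Section 11.1: definitions (augmentation, rank function)
-/

namespace Pool.Agent.TC

open scoped Classical

section defs

variable (k π : Type) [Field k] [Group π]

/-- The augmentation. -/
noncomputable def augH : MonoidAlgebra k π →ₐ[k] k := MonoidAlgebra.lift k k π 1

/-- The augmentation ideal, as a left ideal. -/
noncomputable def augI : Submodule (MonoidAlgebra k π) (MonoidAlgebra k π) :=
  RingHom.ker (augH k π)

end defs

/-- The sum of the coefficients of the diagonal entries of the matrix `e` over the conjugacy class
of `s`. -/
noncomputable def clTr {k π : Type} [Field k] [Group π] {m : ℕ}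
    (e : Matrix (Fin m) (Fin m) (MonoidAlgebra k π)) (s : π) : k :=
  ∑ i, (e i i).coeff.sum (fun g a => if IsConj s g then a else 0)

end Pool.Agent.TC
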