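import Pool.Agent.Lib.TC.CochD

/-!
# Section 7.1: cochains, row C1
-/

namespace Pool.Agent.TC

open CubeHom

section statements

variable {X Y : Type*} [TopologicalSpace X] [TopologicalSpace Y] {A A' A'' : Type*}
  [AddCommGroup A] [AddCommGroup A'] [AddCommGroup A''] {R : Type*} [CommRing R]

namespace C1Aux

theorem fc_lt_none {n : ℕ} {w : ℕ → Option Bool} {j : ℕ} (hj : j < n) (hw : w j = none) (u : Cb) :
    fc n w u j = u ((Finset.range j).filter (fun i => w i = none)).card := by
  simp [fc, hj, hw]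

theorem fc_lt_some {n : ℕ} {w : ℕ → Option Bool} {j : ℕ} {b : Bool} (hj : j < n)
    (hw : w j = some b) (u : Cb) : fc n w u j = bitI b := by
  simp [fc, hj, hw]

theorem lc_congr [Module R A] {s : Set C(Cb, X)} {u v : C(Cb, X) → A} (h : ∀ σ ∈ s, u σ = v σ)
    {c : Ch R X} (hc : c ∈ Finsupp.supported R R s) :
    Finsupp.linearCombination R u c = Finsupp.linearCombination R v c := by
  rw [Finsupp.linearCombination_apply, Finsupp.linearCombination_apply]
  refine Finsupp.sum_congr fun σ hσ => ?_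
  rw [h σ (hc hσ)]

theorem lc_zero [Module R A] {s : Set C(Cb, X)} {u : C(Cb, X) → A} (h : ∀ σ ∈ s, u σ = 0)
    {c : Ch R X} (hc : c ∈ Finsupp.supported R R s) : Finsupp.linearCombination R u c = 0 := by
  rw [Finsupp.linearCombination_apply]
  refine Finset.sum_eq_zero fun σ hσ => ?_
  simp only [h σ (hc hσ), smul_zero]

theorem sign_smul [Module R A] (i : ℕ) (x : A) : ((-1 : R) ^ i) • x = ((-1 : ℤ) ^ i) • x := by
  rw [← Int.cast_smul_eq_zsmul R]
  push_cast
  rfl

end C1Aux

open C1Aux

/-- Composition with two face maps (`w'` in the free coordinates of `w`). -/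
theorem isCube_fc {n : ℕ} {w : ℕ → Option Bool} {σ : C(Cb, X)} (h : IsCube (n : ℤ) σ) :
    IsCube ((((Finset.range n).filter (fun i => w i = none)).card : ℕ) : ℤ)
      (σ.comp (fc n w)) := by
  refine ⟨by positivity, dependsOn_comp_right h.2 fun x y hxy j hj => ?_⟩
  simp only [Set.mem_ofPred_eq] at hxy hj
  have hjn : j < n := by exact_mod_cast hj
  cases hw : w j with
  | none =>
    rw [fc_lt_none hjn hw, fc_lt_none hjn hw]
    apply hxy
    have h1 : ((Finset.range j).filter (fun i => w i = none)).card <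
        ((Finset.range n).filter (fun i => w i = none)).card := by
      refine Finset.card_lt_card ⟨?_, ?_⟩
      · exact Finset.filter_subset_filter _ (Finset.range_subset_range.2 hjn.le)
      · intro h2
        have h3 : j ∈ (Finset.range j).filter (fun i => w i = none) :=
          h2 (Finset.mem_filter.2 ⟨Finset.mem_range.2 hjn, hw⟩)
        rw [Finset.mem_filter, Finset.mem_range] at h3
        exact lt_irrefl _ h3.1
    exact_mod_cast h1
  | some b => rw [fc_lt_some hjn hw, fc_lt_some hjn hw]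

/-- The pairing and the boundary. -/
theorem lc_bd [Module R A] {k : ℕ} (u : C(Cb, X) → A) (c : Ch R X) :
    Finsupp.linearCombination R u (bd ((k + 1 : ℕ) : ℤ) c) =
      Finsupp.linearCombination R (dl k u) c := by
  have h : (Finsupp.linearCombination R u).comp (bd ((k + 1 : ℕ) : ℤ)) =
      Finsupp.linearCombination R (dl k u) := by
    refine Finsupp.lhom_ext fun σ r => ?_
    rw [LinearMap.comp_apply, bd_apply, Int.toNat_natCast, map_sum,
      Finsupp.linearCombination_single, dl, Finset.smul_sum]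
    refine Finset.sum_congr rfl fun i _ => ?_
    rw [map_smul, map_sub, face_single, face_single, Finsupp.linearCombination_single,
      Finsupp.linearCombination_single, sign_smul, ← smul_sub, smul_comm]
  exact LinearMap.congr_fun h c

theorem dl_dl (k : ℕ) (u : C(Cb, X) → A) (σ : C(Cb, X)) : dl (k + 1) (dl k u) σ = 0 := by
  have h1 := lc_bd (R := ℤ) (k := k + 1) (dl k u) (Finsupp.single σ 1)
  rw [← lc_bd, Finsupp.linearCombination_single, one_smul] at h1
  rw [← h1]
  have h2 := bd_bd (R := ℤ) ((k + 1 + 1 : ℕ) : ℤ) (Finsupp.single σ 1)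
  have h3 : ((k + 1 + 1 : ℕ) : ℤ) - 1 = ((k + 1 : ℕ) : ℤ) := by push_cast; ring
  rw [h3] at h2
  rw [h2, map_zero]

theorem dl_pb (k : ℕ) (f : C(X, Y)) (u : C(Cb, Y) → A) : dl k (pb f u) = pb f (dl k u) := rfl

theorem lc_push [Module R A] (f : C(X, Y)) (u : C(Cb, Y) → A) (c : Ch R X) :
    Finsupp.linearCombination R u (push f c) = Finsupp.linearCombination R (pb f u) c := by
  have h : (Finsupp.linearCombination R u).comp (push f) =
      Finsupp.linearCombination R (pb f u) := by
    refine Finsupp.lhom_ext fun σ r => ?_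
    rw [LinearMap.comp_apply, push_single, Finsupp.linearCombination_single,
      Finsupp.linearCombination_single]
    rfl
  exact LinearMap.congr_fun h c

theorem dl_rel (S : CS X) {k : ℕ} {u : C(Cb, X) → A} (h : S.Rel k u) : S.Rel (k + 1) (dl k u) := by
  intro σ h1 h2 h3
  have hk : ((k + 1 : ℕ) : ℤ) - 1 = (k : ℤ) := by push_cast; ring
  unfold dl
  refine Finset.sum_eq_zero fun i hi => ?_
  rw [Finset.mem_range] at hi
  have hi' : (i : ℤ) < ((k + 1 : ℕ) : ℤ) := by exact_mod_cast hi
  have hf : ∀ e, IsCube (k : ℤ) (σ.comp (ins i e)) := by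
    intro e
    have := h1.face hi' e
    rwa [hk] at this
  rcases h3 with h3 | ⟨j, hj, h3⟩
  · rw [h _ (hf 1) (S.ok_comp _ _ h2) (Or.inl (S.nul_comp _ _ h3)),
      h _ (hf 0) (S.ok_comp _ _ h2) (Or.inl (S.nul_comp _ _ h3)), sub_zero, smul_zero]
  · rcases eq_or_ne i j with hij | hij
    · subst hij
      rw [comp_ins_eq h3 1 0, sub_self, smul_zero]
    · have hd : ∀ e, Degen (k : ℤ) (σ.comp (ins i e)) := by
        intro e
        have := degen_face h3 hj hij hi' e
        rwa [hk] at this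
      rw [h _ (hf 1) (S.ok_comp _ _ h2) (Or.inr (hd 1)),
        h _ (hf 0) (S.ok_comp _ _ h2) (Or.inr (hd 0)), sub_zero, smul_zero]

/-- The values of a cocycle on boundaries. -/
theorem coc_bd [Module R A] (S : CS X) {k : ℕ} {u : C(Cb, X) → A} (h : S.Coc k u) {c : Ch R X}
    (hc : S.Bd R k c) : Finsupp.linearCombination R u c = 0 := by
  obtain ⟨b, hb, hcb⟩ := hc
  have h1 : Finsupp.linearCombination R u (c - bd ((k : ℤ) + 1) b) = 0 :=
    lc_zero (fun σ hσ => h.1 σ hσ.1 hσ.2.1 hσ.2.2) hcb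
  have hk : ((k + 1 : ℕ) : ℤ) = (k : ℤ) + 1 := by push_cast; ring
  have h2 : Finsupp.linearCombination R u (bd ((k : ℤ) + 1) b) = 0 := by
    rw [← hk, lc_bd]
    refine lc_zero (fun σ hσ => h.2 σ ?_ hσ.2) hb
    rw [hk]
    exact hσ.1
  rw [map_sub, h2, sub_zero] at h1
  exact h1

/-- The values of a coboundary on cycles. -/
theorem cob_cyc [Module R A] (S : CS X) {k : ℕ} {u : C(Cb, X) → A} (h : S.Cob k u) {c : Ch R X}
    (hc : c ∈ S.Z R ((k + 1 : ℕ) : ℤ)) : Finsupp.linearCombination R u c = 0 := by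
  obtain ⟨v, hv, hu⟩ := h
  obtain ⟨h1, h2⟩ := hc
  rw [lc_congr (v := dl k v) (fun σ hσ => hu σ hσ.1 hσ.2) h1, ← lc_bd]
  have hk : ((k + 1 : ℕ) : ℤ) - 1 = (k : ℤ) := by push_cast; ring
  have h3 : bd ((k + 1 : ℕ) : ℤ) c ∈ S.Q R (k : ℤ) := by
    rw [← hk]
    exact h2
  exact lc_zero (fun σ hσ => hv σ hσ.1 hσ.2.1 hσ.2.2) h3

end statements

end Pool.Agent.TC
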