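import Pool.Agent.Lib.TC.CochD

/-!
# Rows C2 and C4: cup_rel, bi_fst, bi_snd, bi_eval
-/

namespace Pool.Agent.TC

open CubeHom

section c24

variable {X Y : Type*} [TopologicalSpace X] [TopologicalSpace Y] {A A' A'' : Type*}
  [AddCommGroup A] [AddCommGroup A'] [AddCommGroup A''] {R : Type*} [CommRing R]

namespace C24Aux

theorem rank_lt {w : ℕ → Option Bool} {i j : ℕ} (hij : i < j) (hi : w i = none) :
    ((Finset.range i).filter (fun a => w a = none)).card <
      ((Finset.range j).filter (fun a => w a = none)).card := by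
  refine Finset.card_lt_card ⟨fun a ha => ?_, fun hcon => ?_⟩
  · rw [Finset.mem_filter, Finset.mem_range] at ha ⊢
    exact ⟨by omega, ha.2⟩
  · have := hcon (Finset.mem_filter.2 ⟨Finset.mem_range.2 hij, hi⟩)
    rw [Finset.mem_filter, Finset.mem_range] at this
    omega

theorem card_free_fixed (n : ℕ) (w : ℕ → Option Bool) :
    ((Finset.range n).filter (fun i => w i = none)).card +
      ((Finset.range n).filter (fun i => w i ≠ none)).card = n := by
  have := Finset.card_filter_add_card_filter_not (s := Finset.range n) (fun i => w i = none)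
  rw [Finset.card_range] at this
  exact this

theorem fc_free {n : ℕ} {w : ℕ → Option Bool} {j : ℕ} (hj : j < n) (hw : w j = none) (u : Cb) :
    fc n w u j = u ((Finset.range j).filter (fun i => w i = none)).card := by
  show (if j < n then (match w j with
    | none => u ((Finset.range j).filter (fun i => w i = none)).card
    | some b => bitI b) else _) = _
  rw [if_pos hj, hw]

theorem fc_fixed {n : ℕ} {w : ℕ → Option Bool} {j : ℕ} {b : Bool} (hj : j < n)
    (hw : w j = some b) (u : Cb) : fc n w u j = bitI b := by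
  show (if j < n then (match w j with
    | none => u ((Finset.range j).filter (fun i => w i = none)).card
    | some b => bitI b) else _) = _
  rw [if_pos hj, hw]

theorem fc_high {n : ℕ} {w : ℕ → Option Bool} {j : ℕ} (hj : n ≤ j) (u : Cb) :
    fc n w u j = u (j - ((Finset.range n).filter (fun i => w i ≠ none)).card) := by
  show (if j < n then (match w j with
    | none => u ((Finset.range j).filter (fun i => w i = none)).card
    | some b => bitI b) else _) = _
  rw [if_neg (by omega)]

theorem isCube_fc' {n : ℕ} {w : ℕ → Option Bool} {σ : C(Cb, X)} (h : IsCube (n : ℤ) σ) :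
    IsCube ((((Finset.range n).filter (fun i => w i = none)).card : ℕ) : ℤ)
      (σ.comp (fc n w)) := by
  refine ⟨by positivity, dependsOn_comp_right h.2 fun x y hxy j hj => ?_⟩
  simp only [Set.mem_ofPred_eq] at hxy hj
  have hj' : j < n := by omega
  cases hw : w j with
  | none =>
    rw [fc_free hj' hw, fc_free hj' hw]
    exact hxy _ (by exact_mod_cast rank_lt hj' hw)
  | some b => rw [fc_fixed hj' hw, fc_fixed hj' hw]

theorem degen_fc {n : ℕ} {w : ℕ → Option Bool} {σ : C(Cb, X)} {i : ℕ} (hi : i < n)
    (hw : w i = none) (h : DependsOn (σ : Cb → X) {j : ℕ | j ≠ i}) :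
    Degen ((((Finset.range n).filter (fun i => w i = none)).card : ℕ) : ℤ)
      (σ.comp (fc n w)) := by
  refine ⟨((Finset.range i).filter (fun a => w a = none)).card,
    by exact_mod_cast rank_lt hi hw, dependsOn_comp_right h fun x y hxy j hj => ?_⟩
  simp only [Set.mem_ofPred_eq] at hxy hj
  by_cases hj' : j < n
  · cases hw' : w j with
    | none =>
      rw [fc_free hj' hw', fc_free hj' hw']
      refine hxy _ ?_
      rcases lt_or_gt_of_ne hj with h1 | h1
      · exact (rank_lt h1 hw').ne
      · exact (rank_lt h1 hw).ne'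
    | some b => rw [fc_fixed hj' hw', fc_fixed hj' hw']
  · rw [fc_high (by omega), fc_high (by omega)]
    refine hxy _ ?_
    have h1 := card_free_fixed n w
    have h2 := rank_lt (w := w) hi hw
    omega

theorem card_wfr {n : ℕ} {H : Finset ℕ} (hH : H ⊆ Finset.range n) :
    ((Finset.range n).filter (fun i => wfr H i = none)).card = H.card := by
  congr 1
  ext a
  rw [Finset.mem_filter]
  unfold wfr
  constructor
  · rintro ⟨_, h2⟩
    by_contra hcon
    rw [if_neg hcon] at h2
    exact absurd h2 (by simp)
  · intro ha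
    exact ⟨hH ha, by rw [if_pos ha]⟩

theorem card_wbk {n : ℕ} {H : Finset ℕ} (hH : H ⊆ Finset.range n) :
    ((Finset.range n).filter (fun i => wbk H i = none)).card = n - H.card := by
  have : (Finset.range n).filter (fun i => wbk H i = none) = Finset.range n \ H := by
    ext a
    rw [Finset.mem_filter, Finset.mem_sdiff]
    unfold wbk
    refine and_congr_right fun _ => ?_
    by_cases ha : a ∈ H
    · simp [ha]
    · simp [ha]
  rw [this, Finset.card_sdiff_of_subset hH, Finset.card_range]

end C24Aux

open C24Aux in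
/-- The cup product is normalised and vanishes where one of the factors vanishes. -/
theorem cup_rel (S T : CS X) (hST : T.ok = S.ok) (β : A →+ A' →+ A'') {p q : ℕ}
    {u : C(Cb, X) → A} {v : C(Cb, X) → A'} (hu : S.Rel p u) (hv : T.Rel q v) :
    CS.Rel ⟨S.ok, fun σ => S.nul σ ∨ T.nul σ, S.ok_comp,
      fun σ f h => h.imp (S.nul_comp σ f) (T.nul_comp σ f)⟩ (p + q) (cup β p q u v) := by
  intro σ hσ hok hnul
  refine Finset.sum_eq_zero fun H hH => ?_
  rw [Finset.mem_powersetCard] at hH
  have hf : ((Finset.range (p + q)).filter (fun i => wfr H i = none)).card = p := by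
    rw [card_wfr hH.1, hH.2]
  have hb : ((Finset.range (p + q)).filter (fun i => wbk H i = none)).card = q := by
    rw [card_wbk hH.1, hH.2]
    omega
  have hσ' : IsCube ((p + q : ℕ) : ℤ) σ := hσ
  have cf := isCube_fc' (w := wfr H) hσ'
  have cb := isCube_fc' (w := wbk H) hσ'
  rw [hf] at cf
  rw [hb] at cb
  have zu : ∀ h : S.nul (σ.comp (fc (p + q) (wfr H))) ∨
      Degen (p : ℤ) (σ.comp (fc (p + q) (wfr H))),
      sgnS (p + q) H • β (u (σ.comp (fc (p + q) (wfr H)))) (v (σ.comp (fc (p + q) (wbk H)))) = 0 :=
    fun h => by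
      rw [hu _ cf (S.ok_comp _ _ hok) h, map_zero, AddMonoidHom.zero_apply, smul_zero]
  have zv : ∀ h : T.nul (σ.comp (fc (p + q) (wbk H))) ∨
      Degen (q : ℤ) (σ.comp (fc (p + q) (wbk H))),
      sgnS (p + q) H • β (u (σ.comp (fc (p + q) (wfr H)))) (v (σ.comp (fc (p + q) (wbk H)))) = 0 :=
    fun h => by
      rw [hv _ cb (T.ok_comp _ _ (by rw [hST]; exact hok)) h, map_zero, smul_zero]
  rcases hnul with (h | h) | ⟨i, hi, h⟩
  · exact zu (Or.inl (S.nul_comp _ _ h))
  · exact zv (Or.inl (T.nul_comp _ _ h))
  · have hi' : i < p + q := by omega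
    by_cases hiH : i ∈ H
    · have := degen_fc (w := wfr H) hi' (by unfold wfr; rw [if_pos hiH]) h
      rw [hf] at this
      exact zu (Or.inr this)
    · have := degen_fc (w := wbk H) hi' (by unfold wbk; rw [if_neg hiH]) h
      rw [hb] at this
      exact zv (Or.inr this)

/-- The two projections. -/
theorem bi_fst {i : ℕ} {a : C(Cb, X) → R} (ha : (CS.top X).Rel i a) :
    Bi R i 0 a (fun _ : C(Cb, Y) => 1) (pb ContinuousMap.fst a) := by
  intro m l τ σ hml hτ hσ
  have e : pb ContinuousMap.fst a (crossCube m τ σ) = a τ := rfl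
  rw [e]
  by_cases hm : m = i
  · rw [if_pos hm, mul_one]
  · rw [if_neg hm]
    have hlt : m < i := by omega
    refine ha τ ⟨by positivity, fun x y hxy => hτ.2 fun j hj => hxy j ?_⟩ trivial
      (Or.inr ⟨m, by exact_mod_cast hlt, fun x y hxy => hτ.2 fun j hj => hxy j ?_⟩)
    · simp only [Set.mem_ofPred_eq] at hj ⊢
      omega
    · simp only [Set.mem_ofPred_eq] at hj ⊢
      omega

theorem bi_snd {j : ℕ} {b : C(Cb, Y) → R} (hb : (CS.top Y).Rel j b) :
    Bi R 0 j (fun _ : C(Cb, X) => 1) b (pb ContinuousMap.snd b) := by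
  intro m l τ σ hml hτ hσ
  have e : pb ContinuousMap.snd b (crossCube m τ σ) = b (σ.comp (drop m)) := rfl
  rw [e]
  by_cases hm : m = 0
  · subst hm
    rw [if_pos rfl, one_mul]
    congr 1
    ext u
    show σ (drop 0 u) = σ u
    congr 1
    funext k
    rw [drop_apply, zero_add]
  · rw [if_neg hm]
    refine hb _ ⟨by positivity, dependsOn_comp_right hσ.2 fun x y hxy k hk => ?_⟩ trivial
      (Or.inr ⟨0, by simp only [Nat.cast_zero]; omega,
        dependsOn_comp_right hσ.2 fun x y hxy k hk => ?_⟩)
    · simp only [Set.mem_ofPred_eq] at hxy hk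
      rw [drop_apply, drop_apply]
      exact hxy _ (by push_cast; omega)
    · simp only [Set.mem_ofPred_eq] at hxy hk
      rw [drop_apply, drop_apply]
      exact hxy _ (by omega)

/-- Evaluation on cross products of chains. -/
theorem bi_eval {i j : ℕ} {a : C(Cb, X) → R} {b : C(Cb, Y) → R} {u : C(Cb, X × Y) → R}
    (h : Bi R i j a b u) {m l : ℕ} (hml : m + l = i + j) {x : Ch R X} {y : Ch R Y}
    (hx : x ∈ CubeHom.C R (m : ℤ) Set.univ) (hy : y ∈ CubeHom.C R (l : ℤ) Set.univ) :
    Finsupp.linearCombination R u (cr m x y) =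
      if m = i then Finsupp.linearCombination R a x * Finsupp.linearCombination R b y else 0 := by
  have key := bilin_eq_of_supported
    (f := (cr m : Ch R X →ₗ[R] Ch R Y →ₗ[R] Ch R (X × Y)).compr₂ (Finsupp.linearCombination R u))
    (g := if m = i then (LinearMap.mul R R).compl₁₂ (Finsupp.linearCombination R a)
      (Finsupp.linearCombination R b) else 0)
    (fun τ hτ σ hσ => ?_) hx hy
  · rw [LinearMap.compr₂_apply] at key
    rw [key]
    split_ifs
    · rw [LinearMap.compl₁₂_apply, LinearMap.mul_apply']
    · rfl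
  · rw [LinearMap.compr₂_apply, cr_single_single, one_mul, Finsupp.linearCombination_single,
      one_smul, h m l τ σ hml hτ.1 hσ.1]
    split_ifs
    · rw [LinearMap.compl₁₂_apply, LinearMap.mul_apply', Finsupp.linearCombination_single,
        Finsupp.linearCombination_single, one_smul, one_smul]
    · rfl

end c24

end Pool.Agent.TC
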