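import Pool.Agent.Lib.TC.CochD

/-!
# C5: the external product formula
-/

namespace Pool.Agent.TC

open CubeHom

namespace C5Aux

variable {X Y : Type*} [TopologicalSpace X] [TopologicalSpace Y]

/-- The number of free coordinates of a word among the first `n`. -/
def fr (w : ℕ → Option Bool) (n : ℕ) : ℕ := ((Finset.range n).filter (fun i => w i = none)).card

theorem card_range_add (P : ℕ → Prop) [DecidablePred P] (m k : ℕ) :
    ((Finset.range (m + k)).filter P).card =
      ((Finset.range m).filter P).card + ((Finset.range k).filter fun i => P (m + i)).card := by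
  rw [Finset.card_filter, Finset.card_filter, Finset.card_filter, Finset.sum_range_add]

theorem fr_add (w : ℕ → Option Bool) (m k : ℕ) :
    fr w (m + k) = fr w m + fr (fun i => w (m + i)) k := card_range_add _ m k

/-- The value of a coordinate of a face. -/
def fcv (x : Option Bool) (c : I) : I :=
  match x with
  | none => c
  | some b => bitI b

theorem fc_lt {n : ℕ} (w : ℕ → Option Bool) (u : Cb) {j : ℕ} (hj : j < n) :
    fc n w u j = fcv (w j) (u (fr w j)) := if_pos hj

theorem fc_ge {n : ℕ} (w : ℕ → Option Bool) (u : Cb) {j : ℕ} (hj : ¬ j < n) :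
    fc n w u j = u (j - ((Finset.range n).filter (fun i => w i ≠ none)).card) := if_neg hj

theorem fr_congr {n : ℕ} {w w' : ℕ → Option Bool} (h : ∀ j < n, w j = w' j) : fr w n = fr w' n := by
  rw [fr, fr]
  congr 1
  refine Finset.filter_congr fun i hi => ?_
  rw [h i (Finset.mem_range.1 hi)]

theorem fc_congr {n : ℕ} {w w' : ℕ → Option Bool} (h : ∀ j < n, w j = w' j) : fc n w = fc n w' := by
  have hcard' : (Finset.range n).filter (fun i => w i ≠ none) =
      (Finset.range n).filter (fun i => w' i ≠ none) := by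
    refine Finset.filter_congr fun i hi => ?_
    rw [h i (Finset.mem_range.1 hi)]
  refine ContinuousMap.ext fun u => funext fun j => ?_
  by_cases hj : j < n
  · rw [fc_lt w u hj, fc_lt w' u hj, h j hj, fr_congr fun i hi => h i (hi.trans hj)]
  · rw [fc_ge w u hj, fc_ge w' u hj, hcard']

theorem fr_lt {w : ℕ → Option Bool} {i j : ℕ} (hij : i < j) (hi : w i = none) :
    fr w i < fr w j := by
  refine Finset.card_lt_card ⟨fun a ha => ?_, fun hcon => ?_⟩
  · rw [Finset.mem_filter, Finset.mem_range] at ha ⊢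
    exact ⟨by omega, ha.2⟩
  · have := hcon (Finset.mem_filter.2 ⟨Finset.mem_range.2 hij, hi⟩)
    rw [Finset.mem_filter, Finset.mem_range] at this
    omega

theorem isCube_face {n : ℕ} (w : ℕ → Option Bool) {σ : C(Cb, X)} (h : IsCube (n : ℤ) σ) :
    IsCube ((fr w n : ℕ) : ℤ) (σ.comp (fc n w)) := by
  refine ⟨by positivity, fun x y hxy => h.2 fun j hj => ?_⟩
  have hj' : j < n := by exact_mod_cast hj
  rw [fc_lt w _ hj', fc_lt w _ hj']
  cases hw : w j with
  | none =>
    have h1 : x (fr w j) = y (fr w j) := by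
      refine hxy (fr w j) ?_
      have := fr_lt hj' hw
      change ((fr w j : ℕ) : ℤ) < ((fr w n : ℕ) : ℤ)
      exact_mod_cast this
    rw [h1]
  | some b => rfl

/-- The face of a product cube. -/
theorem crossCube_fc {m l : ℕ} (w : ℕ → Option Bool) (τ : C(Cb, X)) (σ : C(Cb, Y))
    (hτ : IsCube (m : ℤ) τ) (hσ : IsCube (l : ℤ) σ) :
    (crossCube m τ σ).comp (fc (m + l) w) =
      crossCube (fr w m) (τ.comp (fc m w)) (σ.comp (fc l (fun j => w (m + j)))) := by
  ext u
  · change τ (fc (m + l) w u) = τ (fc m w u)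
    refine hτ.2 fun j hj => ?_
    have hj' : j < m := by exact_mod_cast hj
    have hj2 : j < m + l := by omega
    rw [fc_lt w u hj', fc_lt w u hj2]
  · change σ (drop m (fc (m + l) w u)) = σ (fc l (fun j => w (m + j)) (drop (fr w m) u))
    refine hσ.2 fun j hj => ?_
    have hj' : j < l := by exact_mod_cast hj
    change fc (m + l) w u (m + j) = fc l (fun j => w (m + j)) (drop (fr w m) u) j
    have hj2 : m + j < m + l := by omega
    rw [fc_lt w u hj2, fc_lt _ _ hj', fr_add]
    rfl

/-- The number of inversions. -/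
def inv (n : ℕ) (H : Finset ℕ) : ℕ :=
  ∑ k ∈ (Finset.range n).filter (· ∈ H), ((Finset.range k).filter (· ∉ H)).card

theorem sgnS_eq (n : ℕ) (H : Finset ℕ) : sgnS n H = (-1) ^ inv n H := by
  rw [sgnS, inv]
  congr 1
  rw [Finset.card_filter, Finset.sum_product_right, Finset.sum_filter]
  refine Finset.sum_congr rfl fun k hk => ?_
  split_ifs with hkH
  · rw [Finset.card_filter]
    have h1 : Finset.range k ⊆ Finset.range n :=
      Finset.range_subset_range.2 (Finset.mem_range.1 hk).le
    rw [← Finset.sum_subset h1 (f := fun i => if i ∉ H ∧ k ∈ H ∧ i < k then 1 else 0)]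
    · refine Finset.sum_congr rfl fun i hi => ?_
      have := Finset.mem_range.1 hi
      simp [hkH, this]
    · intro i _ hi
      rw [Finset.mem_range, not_lt] at hi
      rw [if_neg]
      omega
  · refine Finset.sum_eq_zero fun i _ => ?_
    rw [if_neg]
    tauto

theorem inv_add (m l : ℕ) (H H₁ H₂ : Finset ℕ) (h1 : ∀ i < m, i ∈ H ↔ i ∈ H₁)
    (h2 : ∀ i < l, m + i ∈ H ↔ i ∈ H₂) :
    inv (m + l) H = inv m H₁ + inv l H₂ +
      ((Finset.range m).filter (· ∉ H₁)).card * ((Finset.range l).filter (· ∈ H₂)).card := by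
  rw [inv, inv, inv, Finset.sum_filter, Finset.sum_filter, Finset.sum_filter,
    Finset.sum_range_add, add_assoc]
  congr 1
  · refine Finset.sum_congr rfl fun k hk => ?_
    have hk' := Finset.mem_range.1 hk
    simp only [h1 k hk']
    split_ifs
    · congr 1
      refine Finset.filter_congr fun i hi => ?_
      rw [h1 i ((Finset.mem_range.1 hi).trans hk')]
    · rfl
  · rw [Finset.card_filter (fun i => i ∈ H₂), Finset.mul_sum, ← Finset.sum_add_distrib]
    refine Finset.sum_congr rfl fun k hk => ?_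
    have hk' := Finset.mem_range.1 hk
    simp only [h2 k hk']
    split_ifs
    · rw [card_range_add, mul_one, add_comm]
      congr 1
      · congr 1
        refine Finset.filter_congr fun i hi => ?_
        rw [h2 i ((Finset.mem_range.1 hi).trans hk')]
      · congr 1
        refine Finset.filter_congr fun i hi => ?_
        rw [h1 i (Finset.mem_range.1 hi)]
    · rw [mul_zero, add_zero]

/-- The coordinates of `H` smaller than `m`. -/
def H1 (m : ℕ) (H : Finset ℕ) : Finset ℕ := (Finset.range m).filter (· ∈ H)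

/-- The coordinates of `H` in `[m, m + l)`, shifted. -/
def H2 (m l : ℕ) (H : Finset ℕ) : Finset ℕ := (Finset.range l).filter (fun i => m + i ∈ H)

theorem mem_H1 {m : ℕ} {H : Finset ℕ} {i : ℕ} : i ∈ H1 m H ↔ i < m ∧ i ∈ H := by
  simp [H1]

theorem mem_H2 {m l : ℕ} {H : Finset ℕ} {i : ℕ} : i ∈ H2 m l H ↔ i < l ∧ m + i ∈ H := by
  simp [H2]

theorem card_H {m l : ℕ} {H : Finset ℕ} (hH : H ⊆ Finset.range (m + l)) :
    (H1 m H).card + (H2 m l H).card = H.card := by
  have h := card_range_add (fun i => i ∈ H) m l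
  have h2 : (Finset.range (m + l)).filter (fun i => i ∈ H) = H := by
    ext i
    simp only [Finset.mem_filter]
    exact ⟨fun h => h.2, fun h => ⟨hH h, h⟩⟩
  rw [h2] at h
  exact h.symm

/-- The union of a set of coordinates and a shifted one. -/
def join (m : ℕ) (A B : Finset ℕ) : Finset ℕ := A ∪ B.map (addLeftEmbedding m)

theorem mem_join {m : ℕ} {A B : Finset ℕ} {i : ℕ} :
    i ∈ join m A B ↔ i ∈ A ∨ ∃ b ∈ B, m + b = i := by
  simp [join]

theorem join_subset {m l : ℕ} {A B : Finset ℕ} (hA : A ⊆ Finset.range m)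
    (hB : B ⊆ Finset.range l) : join m A B ⊆ Finset.range (m + l) := by
  intro i hi
  rw [Finset.mem_range]
  rcases mem_join.1 hi with h | ⟨b, hb, rfl⟩
  · have := Finset.mem_range.1 (hA h)
    omega
  · have := Finset.mem_range.1 (hB hb)
    omega

theorem H1_join {m : ℕ} {A B : Finset ℕ} (hA : A ⊆ Finset.range m) : H1 m (join m A B) = A := by
  ext i
  rw [mem_H1, mem_join]
  constructor
  · rintro ⟨h1, h2 | ⟨b, hb, h2⟩⟩
    · exact h2
    · omega
  · intro h
    exact ⟨Finset.mem_range.1 (hA h), Or.inl h⟩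

theorem H2_join {m l : ℕ} {A B : Finset ℕ} (hA : A ⊆ Finset.range m)
    (hB : B ⊆ Finset.range l) : H2 m l (join m A B) = B := by
  ext i
  rw [mem_H2, mem_join]
  constructor
  · rintro ⟨h1, h2 | ⟨b, hb, h2⟩⟩
    · have := Finset.mem_range.1 (hA h2)
      omega
    · have : b = i := by omega
      rwa [← this]
  · intro h
    exact ⟨Finset.mem_range.1 (hB h), Or.inr ⟨i, h, rfl⟩⟩

theorem join_H {m l : ℕ} {H : Finset ℕ} (hH : H ⊆ Finset.range (m + l)) :
    join m (H1 m H) (H2 m l H) = H := by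
  ext i
  rw [mem_join]
  constructor
  · rintro (h | ⟨b, hb, rfl⟩)
    · exact (mem_H1.1 h).2
    · exact (mem_H2.1 hb).2
  · intro h
    by_cases hi : i < m
    · exact Or.inl (mem_H1.2 ⟨hi, h⟩)
    · refine Or.inr ⟨i - m, mem_H2.2 ⟨?_, ?_⟩, by omega⟩
      · have := Finset.mem_range.1 (hH h)
        omega
      · have h1 : m + (i - m) = i := by omega
        rwa [h1]

theorem wfr_none {H : Finset ℕ} {i : ℕ} : wfr H i = none ↔ i ∈ H := by
  rw [wfr]
  split_ifs with h <;> simp [h]

theorem wbk_none {H : Finset ℕ} {i : ℕ} : wbk H i = none ↔ i ∉ H := by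
  rw [wbk]
  split_ifs with h <;> simp [h]

theorem fr_wfr {m : ℕ} {H : Finset ℕ} (hH : H ⊆ Finset.range m) : fr (wfr H) m = H.card := by
  rw [fr]
  congr 1
  ext i
  rw [Finset.mem_filter, wfr_none]
  exact ⟨fun h => h.2, fun h => ⟨hH h, h⟩⟩

theorem card_not {m : ℕ} {H : Finset ℕ} (hH : H ⊆ Finset.range m) :
    ((Finset.range m).filter (· ∉ H)).card = m - H.card := by
  have h1 : (Finset.range m).filter (· ∉ H) = Finset.range m \ H := by
    ext i
    simp
  rw [h1, Finset.card_sdiff_of_subset hH, Finset.card_range]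

theorem fr_wbk {m : ℕ} {H : Finset ℕ} (hH : H ⊆ Finset.range m) :
    fr (wbk H) m = m - H.card := by
  rw [fr, ← card_not hH]
  congr 1
  ext i
  rw [Finset.mem_filter, wbk_none, Finset.mem_filter]

theorem wfr_congr {H H' : Finset ℕ} {i j : ℕ} (h : i ∈ H ↔ j ∈ H') : wfr H i = wfr H' j := by
  rw [wfr, wfr]
  simp only [h]

theorem wbk_congr {H H' : Finset ℕ} {i j : ℕ} (h : i ∈ H ↔ j ∈ H') : wbk H i = wbk H' j := by
  rw [wbk, wbk]
  simp only [h]

theorem H1_iff {m : ℕ} {H : Finset ℕ} {i : ℕ} (hi : i < m) : i ∈ H ↔ i ∈ H1 m H := by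
  rw [mem_H1]
  tauto

theorem H2_iff {m l : ℕ} {H : Finset ℕ} {i : ℕ} (hi : i < l) : m + i ∈ H ↔ i ∈ H2 m l H := by
  rw [mem_H2]
  tauto

theorem H1_subset {m : ℕ} {H : Finset ℕ} : H1 m H ⊆ Finset.range m := Finset.filter_subset _ _

theorem H2_subset {m l : ℕ} {H : Finset ℕ} : H2 m l H ⊆ Finset.range l := Finset.filter_subset _ _

/-- The front face of a product cube. -/
theorem front {m l : ℕ} (H : Finset ℕ) (τ : C(Cb, X)) (σ : C(Cb, Y))
    (hτ : IsCube (m : ℤ) τ) (hσ : IsCube (l : ℤ) σ) :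
    (crossCube m τ σ).comp (fc (m + l) (wfr H)) =
      crossCube (H1 m H).card (τ.comp (fc m (wfr (H1 m H)))) (σ.comp (fc l (wfr (H2 m l H)))) := by
  have h1 : ∀ j < m, wfr H j = wfr (H1 m H) j := fun j hj => wfr_congr (H1_iff hj)
  have h2 : ∀ j < l, (fun j => wfr H (m + j)) j = wfr (H2 m l H) j :=
    fun j hj => wfr_congr (H2_iff hj)
  rw [crossCube_fc _ _ _ hτ hσ, fc_congr h1, fc_congr h2, fr_congr h1, fr_wfr H1_subset]

/-- The back face of a product cube. -/
theorem back {m l : ℕ} (H : Finset ℕ) (τ : C(Cb, X)) (σ : C(Cb, Y))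
    (hτ : IsCube (m : ℤ) τ) (hσ : IsCube (l : ℤ) σ) :
    (crossCube m τ σ).comp (fc (m + l) (wbk H)) =
      crossCube (m - (H1 m H).card) (τ.comp (fc m (wbk (H1 m H))))
        (σ.comp (fc l (wbk (H2 m l H)))) := by
  have h1 : ∀ j < m, wbk H j = wbk (H1 m H) j := fun j hj => wbk_congr (H1_iff hj)
  have h2 : ∀ j < l, (fun j => wbk H (m + j)) j = wbk (H2 m l H) j :=
    fun j hj => wbk_congr (H2_iff hj)
  rw [crossCube_fc _ _ _ hτ hσ, fc_congr h1, fc_congr h2, fr_congr h1, fr_wbk H1_subset]

theorem isCube_front {m : ℕ} {H : Finset ℕ} {τ : C(Cb, X)} (hτ : IsCube (m : ℤ) τ)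
    (hH : H ⊆ Finset.range m) : IsCube (H.card : ℤ) (τ.comp (fc m (wfr H))) := by
  have h := isCube_face (wfr H) hτ
  rwa [fr_wfr hH] at h

theorem isCube_back {m : ℕ} {H : Finset ℕ} {τ : C(Cb, X)} (hτ : IsCube (m : ℤ) τ)
    (hH : H ⊆ Finset.range m) : IsCube ((m - H.card : ℕ) : ℤ) (τ.comp (fc m (wbk H))) := by
  have h := isCube_face (wbk H) hτ
  rwa [fr_wbk hH] at h

theorem sign {R : Type*} [CommRing R] (m l i i' j : ℕ) (H : Finset ℕ) (hm : m = i + i')
    (h1 : (H1 m H).card = i) (h2 : (H2 m l H).card = j) :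
    (-1 : R) ^ (j * i') * ((sgnS (m + l) H : ℤ) : R) =
      ((sgnS m (H1 m H) : ℤ) : R) * ((sgnS l (H2 m l H) : ℤ) : R) := by
  have h3 : (Finset.range l).filter (· ∈ H2 m l H) = H2 m l H := by
    ext k
    rw [Finset.mem_filter]
    exact ⟨fun h => h.2, fun h => ⟨H2_subset h, h⟩⟩
  rw [sgnS_eq, sgnS_eq, sgnS_eq,
    inv_add m l H (H1 m H) (H2 m l H) (fun _ h => H1_iff h) (fun _ h => H2_iff h),
    card_not H1_subset, h3, h1, h2]
  have h4 : m - i = i' := by omega
  rw [h4]
  push_cast
  have h5 : (-1 : R) ^ (j * i') * (-1 : R) ^ (j * i') = 1 := by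
    rw [← mul_pow]
    simp
  rw [pow_add, pow_add, mul_comm i' j]
  linear_combination (-1 : R) ^ inv m (H1 m H) * (-1 : R) ^ inv l (H2 m l H) * h5

end C5Aux

section c5

open C5Aux

variable {X Y : Type*} [TopologicalSpace X] [TopologicalSpace Y] {R : Type*} [CommRing R]

/-- External product formula `(a × b)(a' × b') = (-1)^{|b||a'|} (a a') × (b b')`. (Checked
numerically.) -/
theorem bi_cup {i j i' j' : ℕ} {a a' : C(Cb, X) → R} {b b' : C(Cb, Y) → R}
    {u u' : C(Cb, X × Y) → R} (h : Bi R i j a b u) (h' : Bi R i' j' a' b' u') :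
    Bi R (i + i') (j + j') (cup (AddMonoidHom.mul) i i' a a') (cup (AddMonoidHom.mul) j j' b b')
      (fun σ => (-1 : R) ^ (j * i') * cup (AddMonoidHom.mul) (i + j) (i' + j') u u' σ) := by
  intro m l τ σ hml hτ hσ
  have hn : i + j + (i' + j') = m + l := by omega
  have hterm : ∀ H ∈ (Finset.range (m + l)).powersetCard (i + j),
      sgnS (m + l) H • AddMonoidHom.mul (u ((crossCube m τ σ).comp (fc (m + l) (wfr H))))
        (u' ((crossCube m τ σ).comp (fc (m + l) (wbk H)))) =
      if (H1 m H).card = i ∧ m = i + i' then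
        sgnS (m + l) H • ((a (τ.comp (fc m (wfr (H1 m H)))) * b (σ.comp (fc l (wfr (H2 m l H))))) *
          (a' (τ.comp (fc m (wbk (H1 m H)))) * b' (σ.comp (fc l (wbk (H2 m l H)))))) else 0 := by
    intro H hH
    rw [Finset.mem_powersetCard] at hH
    have hc := card_H hH.1
    have hc1 : (H1 m H).card ≤ m := by
      have := Finset.card_le_card (H1_subset (m := m) (H := H))
      rwa [Finset.card_range] at this
    have hc2 : (H2 m l H).card ≤ l := by
      have := Finset.card_le_card (H2_subset (m := m) (l := l) (H := H))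
      rwa [Finset.card_range] at this
    rw [front H τ σ hτ hσ, back H τ σ hτ hσ,
      h (H1 m H).card (H2 m l H).card _ _ (by omega) (isCube_front hτ H1_subset)
        (isCube_front hσ H2_subset),
      h' (m - (H1 m H).card) (l - (H2 m l H).card) _ _ (by omega) (isCube_back hτ H1_subset)
        (isCube_back hσ H2_subset)]
    by_cases h1 : (H1 m H).card = i
    · by_cases h2 : m = i + i'
      · have h3 : m - (H1 m H).card = i' := by omega
        rw [if_pos h1, if_pos h3, if_pos ⟨h1, h2⟩]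
        rfl
      · have h3 : ¬ m - (H1 m H).card = i' := by omega
        rw [if_neg h3, map_zero, smul_zero,
          if_neg (show ¬((H1 m H).card = i ∧ m = i + i') from fun h => h2 h.2)]
    · rw [if_neg h1, map_zero, AddMonoidHom.zero_apply, smul_zero,
        if_neg (show ¬((H1 m H).card = i ∧ m = i + i') from fun h => h1 h.1)]
  change (-1 : R) ^ (j * i') * ∑ H ∈ (Finset.range (i + j + (i' + j'))).powersetCard (i + j),
    sgnS (i + j + (i' + j')) H •
      AddMonoidHom.mul (u ((crossCube m τ σ).comp (fc (i + j + (i' + j')) (wfr H))))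
        (u' ((crossCube m τ σ).comp (fc (i + j + (i' + j')) (wbk H)))) = _
  rw [hn, Finset.sum_congr rfl hterm]
  by_cases hm : m = i + i'
  swap
  · rw [if_neg hm, Finset.sum_eq_zero, mul_zero]
    intro H _
    rw [if_neg (fun h => hm h.2)]
  have hl : l = j + j' := by omega
  rw [if_pos hm]
  have hR : cup (AddMonoidHom.mul) i i' a a' τ * cup (AddMonoidHom.mul) j j' b b' σ =
      ∑ q ∈ (Finset.range m).powersetCard i ×ˢ (Finset.range l).powersetCard j,
        (((sgnS m q.1 : ℤ) : R) * (a (τ.comp (fc m (wfr q.1))) * a' (τ.comp (fc m (wbk q.1))))) *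
        (((sgnS l q.2 : ℤ) : R) * (b (σ.comp (fc l (wfr q.2))) * b' (σ.comp (fc l (wbk q.2))))) := by
    rw [cup, cup, ← hm, ← hl, Finset.sum_mul_sum, Finset.sum_product]
    refine Finset.sum_congr rfl fun p _ => Finset.sum_congr rfl fun q _ => ?_
    rw [zsmul_eq_mul, zsmul_eq_mul]
    rfl
  rw [hR, ← Finset.sum_filter_of_ne (s := (Finset.range (m + l)).powersetCard (i + j))
    (p := fun H => (H1 m H).card = i), Finset.mul_sum]
  swap
  · intro H _ h0
    by_contra h1
    exact h0 (if_neg (fun h => h1 h.1))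
  refine Finset.sum_nbij' (fun H => (H1 m H, H2 m l H)) (fun q => join m q.1 q.2) ?_ ?_ ?_ ?_ ?_
  · intro H hH
    rw [Finset.mem_filter, Finset.mem_powersetCard] at hH
    have hc := card_H hH.1.1
    rw [Finset.mem_product, Finset.mem_powersetCard, Finset.mem_powersetCard]
    refine ⟨⟨H1_subset, hH.2⟩, H2_subset, ?_⟩
    change (H2 m l H).card = j
    omega
  · intro q hq
    rw [Finset.mem_product, Finset.mem_powersetCard, Finset.mem_powersetCard] at hq
    have hs := join_subset hq.1.1 hq.2.1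
    have hc := card_H hs
    rw [H1_join hq.1.1, H2_join hq.1.1 hq.2.1] at hc
    rw [Finset.mem_filter, Finset.mem_powersetCard, H1_join hq.1.1]
    exact ⟨⟨hs, by omega⟩, hq.1.2⟩
  · intro H hH
    rw [Finset.mem_filter, Finset.mem_powersetCard] at hH
    exact join_H hH.1.1
  · intro q hq
    rw [Finset.mem_product, Finset.mem_powersetCard, Finset.mem_powersetCard] at hq
    exact Prod.ext (H1_join hq.1.1) (H2_join hq.1.1 hq.2.1)
  · intro H hH
    rw [Finset.mem_filter, Finset.mem_powersetCard] at hH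
    have hc := card_H hH.1.1
    rw [if_pos ⟨hH.2, hm⟩, zsmul_eq_mul, ← mul_assoc,
      sign m l i i' j H hm hH.2 (by omega)]
    ring

end c5

end Pool.Agent.TC
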