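import Pool.Agent.Lib.TC.CC1

/-!
# Universal coefficients over a field
-/

namespace Pool.Agent.TC

open CubeHom

variable {X : Type*} [TopologicalSpace X]

theorem C6Aux.factor {K V W : Type*} [Field K] [AddCommGroup V] [Module K V] [AddCommGroup W]
    [Module K W] (F : V →ₗ[K] W) (G : V →ₗ[K] K) (h : LinearMap.ker F ≤ LinearMap.ker G) :
    ∃ φ : W →ₗ[K] K, ∀ x, φ (F x) = G x := by
  obtain ⟨φ, hφ⟩ := LinearMap.exists_extend
    (((LinearMap.ker F).liftQ G h) ∘ₗ (F.quotKerEquivRange.symm).toLinearMap)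
  refine ⟨φ, fun x => ?_⟩
  have h6 := LinearMap.congr_fun hφ (F.rangeRestrict x)
  have h7 := F.quotKerEquivRange_symm_apply_image x ⟨x, rfl⟩
  simp only [LinearMap.coe_comp, LinearEquiv.coe_coe, Function.comp_apply] at h6
  change φ (F x) = _ at h6
  rw [h6]
  change (Submodule.liftQ (LinearMap.ker F) G h) (F.quotKerEquivRange.symm ⟨F x, _⟩) = G x
  rw [h7]
  rfl

theorem C6Aux.factor2 {K M N : Type*} [Field K] [AddCommGroup M] [Module K M] [AddCommGroup N]
    [Module K N] (B : M →ₗ[K] N) (g : M →ₗ[K] K) (Cs : Submodule K M) (Qs : Submodule K N)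
    (h : ∀ c ∈ Cs, B c ∈ Qs → g c = 0) :
    ∃ φ : N →ₗ[K] K, (∀ c ∈ Cs, φ (B c) = g c) ∧ ∀ q ∈ Qs, φ q = 0 := by
  obtain ⟨φ, hφ⟩ := C6Aux.factor ((B ∘ₗ Cs.subtype).coprod Qs.subtype)
    ((g ∘ₗ Cs.subtype) ∘ₗ LinearMap.fst K Cs Qs) (by
      rintro ⟨c, q⟩ hcq
      have h1 : B (c : M) + (q : N) = 0 := by simpa using hcq
      have h3 : B (c : M) = -(q : N) := eq_neg_of_add_eq_zero_left h1
      have h4 : g c = 0 := h c c.2 (by rw [h3]; exact Qs.neg_mem q.2)
      simpa using h4)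
  refine ⟨φ, fun c hc => ?_, fun q hq => ?_⟩
  · simpa using hφ (⟨c, hc⟩, 0)
  · simpa using hφ (0, ⟨q, hq⟩)

/-- Universal coefficients over a field: a relative cocycle of positive degree which vanishes on
all relative cycles is a coboundary. -/
theorem uct_field {K : Type*} [Field K] (S : CS X) {k : ℕ} {u : C(Cb, X) → K}
    (hu : S.Coc (k + 1) u)
    (h : ∀ c ∈ S.Z K ((k + 1 : ℕ) : ℤ), Finsupp.linearCombination K u c = 0) : S.Cob k u := by
  classical
  have hk : (((k + 1 : ℕ) : ℤ) - 1) = (k : ℤ) := by push_cast; ring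
  obtain ⟨φ, hF1, hF2⟩ := C6Aux.factor2 (bd ((k + 1 : ℕ) : ℤ) : Ch K X →ₗ[K] Ch K X)
    (Finsupp.linearCombination K u) (S.C K ((k + 1 : ℕ) : ℤ)) (S.Q K (k : ℤ)) (by
      intro c hc h1
      refine h c (Submodule.mem_inf.2 ⟨hc, ?_⟩)
      rw [Submodule.mem_comap, hk]
      exact h1)
  have hv : φ = Finsupp.linearCombination K (fun σ => φ (Finsupp.single σ 1)) := by
    refine Finsupp.lhom_ext' fun σ => ?_
    ext
    simp
  refine ⟨fun σ => φ (Finsupp.single σ 1), ?_, ?_⟩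
  · intro σ h1 h2 h3
    have h4 : (Finsupp.single σ (1 : K) : Ch K X) ∈ S.Q K (k : ℤ) :=
      Finsupp.single_mem_supported K (1 : K) (s := {σ | IsCube (k : ℤ) σ ∧ S.ok σ ∧
        (S.nul σ ∨ Degen (k : ℤ) σ)}) ⟨h1, h2, h3⟩
    exact hF2 _ h4
  · intro σ h1 h2
    have h4 : (Finsupp.single σ (1 : K) : Ch K X) ∈ S.C K ((k + 1 : ℕ) : ℤ) :=
      Finsupp.single_mem_supported K (1 : K) (s := {σ | IsCube ((k + 1 : ℕ) : ℤ) σ ∧ S.ok σ})
        ⟨h1, h2⟩
    have h5 := hF1 _ h4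
    have h6 := lc_bd (R := K) (k := k) (fun σ => φ (Finsupp.single σ 1)) (Finsupp.single σ 1)
    rw [Finsupp.linearCombination_single, one_smul] at h6
    rw [Finsupp.linearCombination_single, one_smul] at h5
    rw [← h5, ← h6]
    exact LinearMap.congr_fun hv _

end Pool.Agent.TC
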