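import Pool.Agent.Lib.TC.CC1
import Pool.Agent.Lib.MP_cb6a70_gt_HB.Small

/-!
# Row C7: the small cubes theorem for arbitrary open covers
-/

namespace Pool.Agent.TC

open CubeHom CubeHom.Sub

namespace C7A

variable {X : Type*} [TopologicalSpace X] {R : Type*} [CommRing R]

/-- The subdivision in degree `n`. -/
noncomputable abbrev F (R X : Type*) [CommRing R] [TopologicalSpace X] (n : ℕ) :
    Module.End R (Ch R X) := subF (sF R X) n

/-- The homotopy in degree `n`. -/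
noncomputable abbrev G (R X : Type*) [CommRing R] [TopologicalSpace X] (n : ℕ) :
    Module.End R (Ch R X) := subG R (sF R X) (fun i => pre R X (sqC i)) n

/-- Preservation of the chains of a system. -/
def PresS (S : CS X) (n n' : ℕ) (φ : Module.End R (Ch R X)) : Prop :=
  (∀ c ∈ S.C R (n : ℤ), φ c ∈ S.C R (n' : ℤ)) ∧ (∀ c ∈ S.Q R (n : ℤ), φ c ∈ S.Q R (n' : ℤ))

variable {S : CS X}

theorem PresS.mul {n n' n'' : ℕ} {φ ψ : Module.End R (Ch R X)} (h : PresS S n' n'' φ)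
    (h' : PresS S n n' ψ) : PresS S n n'' (φ * ψ) :=
  ⟨fun c hc => h.1 _ (h'.1 c hc), fun c hc => h.2 _ (h'.2 c hc)⟩

theorem PresS.add {n n' : ℕ} {φ ψ : Module.End R (Ch R X)} (h : PresS S n n' φ)
    (h' : PresS S n n' ψ) : PresS S n n' (φ + ψ) :=
  ⟨fun c hc => Submodule.add_mem _ (h.1 c hc) (h'.1 c hc),
    fun c hc => Submodule.add_mem _ (h.2 c hc) (h'.2 c hc)⟩

theorem PresS.smul {n n' : ℕ} {φ : Module.End R (Ch R X)} (h : PresS S n n' φ) (r : R) :
    PresS S n n' (r • φ) :=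
  ⟨fun c hc => Submodule.smul_mem _ r (h.1 c hc),
    fun c hc => Submodule.smul_mem _ r (h.2 c hc)⟩

theorem PresS.zero {n n' : ℕ} : PresS S n n' (0 : Module.End R (Ch R X)) :=
  ⟨fun _ _ => Submodule.zero_mem _, fun _ _ => Submodule.zero_mem _⟩

theorem PresS.one {n : ℕ} : PresS S n n (1 : Module.End R (Ch R X)) :=
  ⟨fun _ hc => hc, fun _ hc => hc⟩

theorem PresS.pow {n : ℕ} {φ : Module.End R (Ch R X)} (h : PresS S n n φ) (m : ℕ) :
    PresS S n n (φ ^ m) := by
  induction m with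
  | zero => rw [pow_zero]; exact PresS.one
  | succ m ih => rw [pow_succ]; exact ih.mul h

theorem PresS.sum {n n' : ℕ} {ι : Type*} (s : Finset ι) {φ : ι → Module.End R (Ch R X)}
    (h : ∀ i ∈ s, PresS S n n' (φ i)) : PresS S n n' (∑ i ∈ s, φ i) := by
  classical
  induction s using Finset.induction_on with
  | empty => simpa using PresS.zero
  | insert i s hi ih =>
    rw [Finset.sum_insert hi]
    exact (h i (Finset.mem_insert_self _ _)).add
      (ih fun j hj => h j (Finset.mem_insert_of_mem hj))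

theorem pres_pre {n n' : ℕ} {a : C(Cb, Cb)}
    (h1 : ∀ u v : Cb, (∀ j < n', u j = v j) → ∀ j < n, a u j = a v j)
    (h2 : ∀ i < n, ∃ i' < n', ∀ u v : Cb, (∀ j, j ≠ i' → u j = v j) →
      ∀ j, j ≠ i → a u j = a v j) :
    PresS S n n' (pre R X a) := by
  have h3 : ∀ σ : C(Cb, X), IsCube (n : ℤ) σ → IsCube (n' : ℤ) (σ.comp a) := by
    intro σ hσ
    rw [isCube_nat] at hσ ⊢
    intro u v huv
    exact hσ _ _ (h1 u v huv)
  refine ⟨fun c hc => ?_, fun c hc => ?_⟩
  · refine mem_supported_mapDomain a ?_ hc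
    rintro σ ⟨hσ, hU⟩
    exact ⟨h3 σ hσ, S.ok_comp _ _ hU⟩
  · refine mem_supported_mapDomain a ?_ hc
    rintro σ ⟨hσ, hok, hU⟩
    refine ⟨h3 σ hσ, S.ok_comp _ _ hok, ?_⟩
    rcases hU with hU | ⟨i, hi, hdeg⟩
    · exact Or.inl (S.nul_comp _ _ hU)
    · obtain ⟨i', hi', h4⟩ := h2 i (by exact_mod_cast hi)
      refine Or.inr ⟨i', by exact_mod_cast hi', fun u v huv => ?_⟩
      exact hdeg fun j hj => h4 u v (fun j hj => huv j hj) j hj

theorem pres_atc {f : I → I} {hf : Continuous f} {i n : ℕ} :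
    PresS S n n (pre R X (⟨atc f i, continuous_atc hf i⟩ : C(Cb, Cb))) := by
  refine pres_pre (fun u v h j hj => ?_) (fun l hl => ⟨l, hl, fun u v h j hj => ?_⟩)
  · simp only [ContinuousMap.coe_mk, atc, h j hj]
  · simp only [ContinuousMap.coe_mk, atc, h j hj]

theorem pres_sF {i n : ℕ} : PresS S n n (sF R X i) :=
  (pres_atc (hf := continuous_loI)).add (pres_atc (hf := continuous_hiI))

theorem pres_F {m n : ℕ} : PresS S n n (F R X m) := by
  induction m with
  | zero => exact PresS.one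
  | succ m ih => exact ih.mul pres_sF

theorem pres_sqC {i n : ℕ} : PresS S n (n + 1) (pre R X (sqC i)) := by
  refine pres_pre (fun u v h j hj => ?_) (fun l hl => ?_)
  · simp only [sqC_apply]
    rw [h j (by omega), h (j + 1) (by omega)]
  · rcases Nat.lt_or_ge i l with hil | hil
    · refine ⟨l + 1, by omega, fun u v h j hj => ?_⟩
      simp only [sqC_apply]
      by_cases h1 : j < i
      · rw [if_pos h1, if_pos h1, h j (by omega)]
      · by_cases h2 : j = i
        · rw [if_neg h1, if_neg h1, if_pos h2, if_pos h2, h j (by omega), h (j + 1) (by omega)]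
        · rw [if_neg h1, if_neg h1, if_neg h2, if_neg h2, h (j + 1) (by omega)]
    · refine ⟨l, by omega, fun u v h j hj => ?_⟩
      simp only [sqC_apply]
      by_cases h1 : j < i
      · rw [if_pos h1, if_pos h1, h j (by omega)]
      · by_cases h2 : j = i
        · rw [if_neg h1, if_neg h1, if_pos h2, if_pos h2, h j (by omega), h (j + 1) (by omega)]
        · rw [if_neg h1, if_neg h1, if_neg h2, if_neg h2, h (j + 1) (by omega)]

theorem pres_G {n m : ℕ} : PresS S n (n + 1) (G R X m) :=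
  PresS.sum _ fun _ _ => (pres_F.mul pres_sqC).smul _

theorem toC_mem_Q {n i : ℕ} (hi : i < n) {c : Ch R X} (hc : c ∈ S.C R (n : ℤ)) :
    pre R X (toC i) c ∈ S.Q R (n : ℤ) := by
  refine mem_supported_mapDomain (toC i) ?_ hc
  rintro σ ⟨hσ, hU⟩
  refine ⟨?_, S.ok_comp _ _ hU, Or.inr ⟨i, by exact_mod_cast hi, fun u v huv => ?_⟩⟩
  · rw [isCube_nat] at hσ ⊢
    intro u v huv
    refine hσ _ _ fun j hj => ?_
    simp only [toC, ContinuousMap.coe_mk, atc, huv j hj]
  · refine congrArg σ (funext fun j => ?_)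
    simp only [toC, ContinuousMap.coe_mk, atc]
    by_cases h1 : j = i
    · simp [h1]
    · simp only [h1, if_false]
      exact huv j h1

theorem bd_F (n : ℕ) (c : Ch R X) :
    bd ((n + 1 : ℕ) : ℤ) (F R X (n + 1) c) = F R X n (bd ((n + 1 : ℕ) : ℤ) c) := by
  have h2 := LinearMap.congr_fun
    (subD_mul_subF (R := R) (S := sF R X) (d := dF R X) rel1 rel2 rel3 n) c
  rw [← bd_eq] at h2
  exact h2

theorem bd_Fpow (n m : ℕ) (c : Ch R X) :
    bd ((n + 1 : ℕ) : ℤ) ((F R X (n + 1) ^ m) c) = (F R X n ^ m) (bd ((n + 1 : ℕ) : ℤ) c) := by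
  induction m with
  | zero => simp
  | succ m ih => rw [pow_succ', pow_succ', Module.End.mul_apply, Module.End.mul_apply, bd_F, ih]

theorem Q_le_C {k : ℤ} : S.Q R k ≤ S.C R k :=
  Finsupp.supported_mono fun _ h => ⟨h.1, h.2.1⟩

/-- One step of the subdivision of a cycle of the system. -/
theorem step {n : ℕ} {c : Ch R X} (hc : c ∈ S.Z R (n : ℤ)) :
    F R X n c ∈ S.Z R (n : ℤ) ∧ ∃ b ∈ S.C R ((n : ℤ) + 1),
      c - F R X n c - bd ((n : ℤ) + 1) b ∈ S.Q R (n : ℤ) := by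
  obtain ⟨hc1, hc2⟩ := hc
  have hc2' : bd (n : ℤ) c ∈ S.Q R ((n : ℤ) - 1) := hc2
  cases n with
  | zero =>
    refine ⟨⟨hc1, hc2⟩, 0, Submodule.zero_mem _, ?_⟩
    have : c - F R X 0 c - bd (((0 : ℕ) : ℤ) + 1) (0 : Ch R X) = 0 := by
      rw [map_zero, sub_zero]
      exact sub_self c
    rw [this]
    exact Submodule.zero_mem _
  | succ n =>
    have e1 : (((n + 1 : ℕ) : ℤ) - 1) = (n : ℤ) := by push_cast; ring
    have e2 : (((n + 2 : ℕ) : ℤ)) = ((n + 1 : ℕ) : ℤ) + 1 := by push_cast; ring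
    rw [e1] at hc2'
    refine ⟨⟨pres_F.1 _ hc1, ?_⟩, ?_⟩
    · rw [SetLike.mem_coe, Submodule.mem_comap, bd_F, e1]
      exact pres_F.2 _ hc2'
    · have key := subD_mul_subG (R := R) (S := sF R X) (T := fun i => pre R X (sqC i))
        (d := dF R X) (H := fun i => pre R X (hiC i)) (K := fun i => pre R X (toC i))
        (L := fun i => pre R X (loC i)) rel1 rel2 rel3 rel4 rel5 rel6 rel7 (fun _ => rfl) n
      have key' := LinearMap.congr_fun key c
      rw [← bd_eq, ← bd_eq] at key'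
      rw [e2] at key'
      refine ⟨-(G R X (n + 1) c), ?_, ?_⟩
      · have h1 := (pres_G (R := R) (S := S) (n := n + 1) (m := n + 1)).1 c hc1
        refine Submodule.neg_mem _ ?_
        exact_mod_cast h1
      · rw [map_neg]
        have h2 : G R X n (bd ((n + 1 : ℕ) : ℤ) c) ∈ S.Q R ((n + 1 : ℕ) : ℤ) :=
          (pres_G (R := R) (S := S) (n := n) (m := n)).2 _ hc2'
        have h6 : (∑ i ∈ Finset.range (n + 1), subF (sF R X) i * pre R X (toC i) :
            Module.End R (Ch R X)) c ∈ S.Q R ((n + 1 : ℕ) : ℤ) := by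
          rw [LinearMap.sum_apply]
          refine Submodule.sum_mem _ fun i hi => ?_
          rw [Module.End.mul_apply]
          exact (pres_F (R := R) (S := S) (m := i) (n := n + 1)).2 _
            (toC_mem_Q (by simpa using hi) hc1)
        have h8 : bd (((n + 1 : ℕ) : ℤ) + 1) (G R X (n + 1) c) +
            G R X n (bd ((n + 1 : ℕ) : ℤ) c) = F R X (n + 1) c - c -
            (∑ i ∈ Finset.range (n + 1), subF (sF R X) i * pre R X (toC i) :
          Module.End R (Ch R X)) c := key'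
        have h7 : c - F R X (n + 1) c - -(bd (((n + 1 : ℕ) : ℤ) + 1) (G R X (n + 1) c)) =
            -(G R X n (bd ((n + 1 : ℕ) : ℤ) c))
            - (∑ i ∈ Finset.range (n + 1), subF (sF R X) i * pre R X (toC i) :
            Module.End R (Ch R X)) c := by
          rw [← eq_sub_iff_add_eq] at h8
          rw [h8]
          abel
        rw [h7]
        exact Submodule.sub_mem _ (Submodule.neg_mem _ h2) h6

theorem iter {n : ℕ} {c : Ch R X} (hc : c ∈ S.Z R (n : ℤ)) (m : ℕ) :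
    (F R X n ^ m) c ∈ S.Z R (n : ℤ) ∧ ∃ b ∈ S.C R ((n : ℤ) + 1),
      c - (F R X n ^ m) c - bd ((n : ℤ) + 1) b ∈ S.Q R (n : ℤ) := by
  induction m with
  | zero =>
    refine ⟨by simpa using hc, 0, Submodule.zero_mem _, ?_⟩
    have : c - (F R X n ^ 0) c - bd ((n : ℤ) + 1) (0 : Ch R X) = 0 := by
      rw [map_zero, sub_zero, pow_zero]
      exact sub_self c
    rw [this]
    exact Submodule.zero_mem _
  | succ m ih =>
    obtain ⟨h1, b, hb, h2⟩ := ih
    obtain ⟨h3, b', hb', h4⟩ := step h1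
    rw [pow_succ', Module.End.mul_apply]
    refine ⟨h3, b + b', Submodule.add_mem _ hb hb', ?_⟩
    have h5 : c - F R X n ((F R X n ^ m) c) - bd ((n : ℤ) + 1) (b + b') =
        (c - (F R X n ^ m) c - bd ((n : ℤ) + 1) b) +
        ((F R X n ^ m) c - F R X n ((F R X n ^ m) c) - bd ((n : ℤ) + 1) b') := by
      rw [map_add]
      abel
    rw [h5]
    exact Submodule.add_mem _ h2 h4

/-! ### Smallness -/

theorem single_small {𝒱 : Set (Set X)} (hV : ∀ V ∈ 𝒱, IsOpen V) (hcov : ⋃₀ 𝒱 = Set.univ)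
    {n : ℕ} {σ : C(Cb, X)} (hσ : IsCube (n : ℤ) σ) (r : R) :
    ∃ m0 : ℕ, ∀ m ≥ m0, (F R X n ^ m) (Finsupp.single σ r) ∈
      (CS.mk' 𝒱 ∅).C R (n : ℤ) := by
  classical
  let g : (Fin n → I) → X := fun x => σ (extZ n x)
  have hg : Continuous g := σ.continuous.comp (continuous_extZ n)
  let cov : 𝒱 → Set (Fin n → I) := fun V => g ⁻¹' V.1
  have hcov' : ∀ b, IsOpen (cov b) := fun b => (hV b.1 b.2).preimage hg
  obtain ⟨δ, hδ, hball⟩ := lebesgue_number_lemma_of_metric (s := Set.univ) isCompact_univ hcov'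
    (fun x _ => by
      have : g x ∈ ⋃₀ 𝒱 := by rw [hcov]; exact Set.mem_univ _
      obtain ⟨V, hV1, hV2⟩ := this
      exact Set.mem_iUnion.mpr ⟨⟨V, hV1⟩, hV2⟩)
  obtain ⟨m0, hm0⟩ := exists_pow_lt_of_lt_one hδ (show (1 / 2 : ℝ) < 1 by norm_num)
  refine ⟨m0, fun m hm => ?_⟩
  have hmδ : (1 / 2 : ℝ) ^ m < δ :=
    lt_of_le_of_lt (pow_le_pow_of_le_one (by norm_num) (by norm_num) hm) hm0
  have h1 : (F R X n ^ m) (Finsupp.single σ r) ∈ (CS.top X).C R (n : ℤ) :=
    ((pres_F (S := CS.top X) (R := R) (m := n) (n := n)).pow m).1 _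
      (Finsupp.single_mem_supported R r ⟨hσ, trivial⟩)
  have h3 := small_subF_pow (R := R) (σ := σ) n m r
  rw [CS.C, Finsupp.mem_supported]
  intro τ hτ
  have h5 : IsCube (n : ℤ) τ := ((Finsupp.mem_supported R _).mp h1 hτ).1
  obtain ⟨a, ha, rfl⟩ := (Finsupp.mem_supported R _).mp h3 hτ
  obtain ⟨b, hb⟩ := hball (fun j : Fin n => a (fun _ => 0) j) (Set.mem_univ _)
  have h6 : ∀ u, (fun j : Fin n => a u j) ∈ cov b := by
    intro u
    apply hb
    rw [Metric.mem_ball, dist_pi_lt_iff hδ]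
    intro j
    have h7 := ha j u (fun _ => 0)
    simp only [j.2, if_true] at h7
    have h8 : dist (u j) (0 : I) ≤ 1 := by
      rw [Subtype.dist_eq, Real.dist_eq]
      have h0 := (u j).2.1
      have h1 := (u j).2.2
      simp only [Set.Icc.coe_zero, sub_zero]
      rw [abs_of_nonneg h0]
      exact h1
    calc dist (a u j) (a (fun _ => 0) j) ≤ (1 / 2 : ℝ) ^ m * dist (u j) (0 : I) := h7
      _ ≤ (1 / 2 : ℝ) ^ m * 1 := mul_le_mul_of_nonneg_left h8 (by positivity)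
      _ < δ := by rw [mul_one]; exact hmδ
  have h9 : ∀ u, (σ.comp a) u = g (fun j : Fin n => a u j) := by
    intro u
    refine (isCube_nat.mp hσ) _ _ fun j hj => ?_
    simp [extZ, hj]
  refine ⟨h5, b.1, b.2, fun u => ?_⟩
  rw [h9]
  exact h6 u

theorem eventually_small {𝒱 : Set (Set X)} (hV : ∀ V ∈ 𝒱, IsOpen V) (hcov : ⋃₀ 𝒱 = Set.univ)
    {n : ℕ} {c : Ch R X} (hc : c ∈ (CS.top X).C R (n : ℤ)) :
    ∃ m0 : ℕ, ∀ m ≥ m0, (F R X n ^ m) c ∈ (CS.mk' 𝒱 ∅).C R (n : ℤ) := by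
  rw [CS.C, Finsupp.supported_eq_span_single] at hc
  induction hc using Submodule.span_induction with
  | mem x hx =>
    obtain ⟨σ, ⟨hσ, -⟩, rfl⟩ := hx
    exact single_small hV hcov hσ 1
  | zero => exact ⟨0, fun m _ => by rw [map_zero]; exact Submodule.zero_mem _⟩
  | add x y _ _ hx hy =>
    obtain ⟨m1, h1⟩ := hx
    obtain ⟨m2, h2⟩ := hy
    refine ⟨max m1 m2, fun m hm => ?_⟩
    rw [map_add]
    exact Submodule.add_mem _ (h1 m (le_trans (le_max_left _ _) hm))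
      (h2 m (le_trans (le_max_right _ _) hm))
  | smul r x _ hx =>
    obtain ⟨m1, h1⟩ := hx
    refine ⟨m1, fun m hm => ?_⟩
    rw [map_smul]
    exact Submodule.smul_mem _ _ (h1 m hm)

/-- Small and zero. -/
theorem mem_Q_small {𝒱 : Set (Set X)} {k : ℤ} {c : Ch R X} (h1 : c ∈ (CS.mk' 𝒱 ∅).C R k)
    (h2 : c ∈ (CS.top X).Q R k) : c ∈ (CS.mk' 𝒱 ∅).Q R k := by
  unfold CS.C at h1
  unfold CS.Q at h2 ⊢
  rw [Finsupp.mem_supported] at h1 h2 ⊢
  intro τ hτ
  obtain ⟨g1, g2⟩ := h1 hτ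
  obtain ⟨g3, -, g4⟩ := h2 hτ
  refine ⟨g1, g2, Or.inr ?_⟩
  rcases g4 with g4 | g4
  · exact g4.elim
  · exact g4

theorem C_of_neg {k : ℤ} (hk : k < 0) {c : Ch R X} (hc : c ∈ S.C R k) : c = 0 := by
  unfold CS.C at hc
  have : {σ : C(Cb, X) | IsCube k σ ∧ S.ok σ} = ∅ := by
    ext σ
    simp only [Set.mem_ofPred_eq, Set.mem_empty_iff_false, iff_false]
    rintro ⟨⟨h, -⟩, -⟩
    omega
  rw [this, Finsupp.supported_empty] at hc
  exact (Submodule.mem_bot R).mp hc

/-- The boundary preserves the chains. -/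
theorem bd_C {n : ℕ} {c : Ch R X} (hc : c ∈ S.C R ((n + 1 : ℕ) : ℤ)) :
    bd ((n + 1 : ℕ) : ℤ) c ∈ S.C R (n : ℤ) := by
  have hface : ∀ (i : ℕ) (e : I), i < n + 1 → face i e c ∈ S.C R (n : ℤ) := by
    intro i e hi
    refine mem_supported_mapDomain (ins i e) ?_ hc
    rintro σ ⟨hσ, hok⟩
    refine ⟨?_, S.ok_comp _ _ hok⟩
    rw [isCube_nat] at hσ ⊢
    intro u v huv
    refine hσ _ _ fun j hj => ?_
    rw [ins_apply, ins_apply]
    by_cases h1 : j < i
    · rw [if_pos h1, if_pos h1, huv j (by omega)]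
    · by_cases h2 : j = i
      · rw [if_neg h1, if_neg h1, if_pos h2, if_pos h2]
      · rw [if_neg h1, if_neg h1, if_neg h2, if_neg h2, huv (j - 1) (by omega)]
  unfold bd
  rw [LinearMap.sum_apply]
  refine Submodule.sum_mem _ fun i hi => ?_
  have hi' : i < n + 1 := by
    have := Finset.mem_range.mp hi
    simpa using this
  rw [LinearMap.smul_apply, LinearMap.sub_apply]
  exact Submodule.smul_mem _ _ (Submodule.sub_mem _ (hface i 1 hi') (hface i 0 hi'))

end C7A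

open C7A

section

variable {X : Type*} [TopologicalSpace X] {R : Type*} [CommRing R]

/-- Small cubes, surjectivity: every cycle (of the whole space, relative to nothing) is homologous
to a small one. `𝒱` is an open cover. -/
theorem small_cycle {𝒱 : Set (Set X)} (hV : ∀ V ∈ 𝒱, IsOpen V)
    (hcov : ⋃₀ 𝒱 = Set.univ) {k : ℤ} {c : Ch R X} (hc : c ∈ (CS.top X).Z R k) :
    ∃ c' ∈ (CS.mk' 𝒱 ∅).Z R k, (CS.top X).Bd R k (c - c') := by
  rcases lt_or_ge k 0 with hk | hk
  · rw [C_of_neg hk hc.1]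
    refine ⟨0, Submodule.zero_mem _, 0, Submodule.zero_mem _, ?_⟩
    rw [map_zero, sub_zero, sub_zero]
    exact Submodule.zero_mem _
  · obtain ⟨n, rfl⟩ := Int.eq_ofNat_of_zero_le hk
    obtain ⟨m, hm⟩ := eventually_small hV hcov hc.1
    obtain ⟨h1, b, hb, h2⟩ := iter hc m
    have h3 := hm m le_rfl
    refine ⟨_, ⟨h3, ?_⟩, b, hb, h2⟩
    rw [SetLike.mem_coe, Submodule.mem_comap]
    have h4 : bd (n : ℤ) ((F R X n ^ m) c) ∈ (CS.top X).Q R ((n : ℤ) - 1) := h1.2
    cases n with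
    | zero =>
      have : bd ((0 : ℕ) : ℤ) ((F R X 0 ^ m) c) = 0 := by
        unfold bd
        simp
      rw [this]
      exact Submodule.zero_mem _
    | succ n =>
      have e1 : (((n + 1 : ℕ) : ℤ) - 1) = (n : ℤ) := by push_cast; ring
      rw [e1] at h4 ⊢
      exact mem_Q_small (bd_C h3) h4

/-- Small cubes, injectivity. -/
theorem small_bd {𝒱 : Set (Set X)} (hV : ∀ V ∈ 𝒱, IsOpen V)
    (hcov : ⋃₀ 𝒱 = Set.univ) {k : ℤ} {c : Ch R X} (hc : c ∈ (CS.mk' 𝒱 ∅).Z R k)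
    (h : (CS.top X).Bd R k c) : (CS.mk' 𝒱 ∅).Bd R k c := by
  rcases lt_or_ge k 0 with hk | hk
  · rw [C_of_neg hk hc.1]
    refine ⟨0, Submodule.zero_mem _, ?_⟩
    rw [map_zero, sub_zero]
    exact Submodule.zero_mem _
  · obtain ⟨n, rfl⟩ := Int.eq_ofNat_of_zero_le hk
    obtain ⟨b, hb, hq⟩ := h
    have e1 : ((n : ℤ) + 1) = ((n + 1 : ℕ) : ℤ) := by push_cast; ring
    have hb' : b ∈ (CS.top X).C R ((n + 1 : ℕ) : ℤ) := by rwa [← e1]
    obtain ⟨m1, hm1⟩ := eventually_small hV hcov hb'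
    obtain ⟨m2, hm2⟩ := eventually_small hV hcov (Q_le_C hq)
    set m := max m1 m2 with hm
    have g1 := hm1 m (le_max_left _ _)
    have g2 := hm2 m (le_max_right _ _)
    have g3 : (F R X n ^ m) (c - bd ((n : ℤ) + 1) b) ∈ (CS.mk' 𝒱 ∅).Q R (n : ℤ) :=
      mem_Q_small g2 ((pres_F.pow m).2 _ hq)
    obtain ⟨-, b', hb2, h2⟩ := iter hc m
    refine ⟨b' + (F R X (n + 1) ^ m) b, Submodule.add_mem _ hb2 (by rw [e1]; exact g1), ?_⟩
    have e3 : c - bd ((n : ℤ) + 1) (b' + (F R X (n + 1) ^ m) b) =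
        (c - (F R X n ^ m) c - bd ((n : ℤ) + 1) b') +
          (F R X n ^ m) (c - bd ((n : ℤ) + 1) b) := by
      rw [map_add, map_sub, e1, bd_Fpow]
      abel
    rw [e3]
    exact Submodule.add_mem _ h2 g3

end

end Pool.Agent.TC
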