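import Pool.Agent.Lib.TC.Dual

/-!
# The cap product with a scalar cochain, on the level of chains
-/

namespace Pool.Agent.TC

open CubeHom

section cap

variable {X Y : Type} [TopologicalSpace X] [TopologicalSpace Y] {R : Type} [CommRing R]

/-- The cap product of a cube of dimension `p + q` with a scalar cochain of degree `q`. -/
noncomputable def cap1 (p q : ℕ) (u : C(Cb, X) → R) (τ : C(Cb, X)) : Ch R X :=
  ∑ H ∈ (Finset.range (p + q)).powersetCard p,
    Finsupp.single (τ.comp (fc (p + q) (wfr H)))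
      ((sgnS (p + q) H : R) * u (τ.comp (fc (p + q) (wbk H))))

/-- The cap product of a chain with a scalar cochain of degree `q`. -/
noncomputable def capc (p q : ℕ) (u : C(Cb, X) → R) : Ch R X →ₗ[R] Ch R X :=
  Finsupp.linearCombination R (cap1 p q u)

theorem capc_single (p q : ℕ) (u : C(Cb, X) → R) (τ : C(Cb, X)) (a : R) :
    capc p q u (Finsupp.single τ a) = a • cap1 p q u τ := by
  simp [capc]

/-- The defining adjunction with the cup product. -/
theorem lc_capc (p q : ℕ) (u v : C(Cb, X) → R) (c : Ch R X) :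
    Finsupp.linearCombination R v (capc p q u c) =
      Finsupp.linearCombination R (cup (AddMonoidHom.mul) p q v u) c := by
  have h : (Finsupp.linearCombination R v).comp (capc p q u) =
      Finsupp.linearCombination R (cup (AddMonoidHom.mul) p q v u) := by
    ext τ
    simp only [LinearMap.comp_apply, Finsupp.lsingle_apply, capc_single, one_smul, cap1, map_sum,
      Finsupp.linearCombination_single, cup, smul_eq_mul, zsmul_eq_mul, one_mul]
    refine Finset.sum_congr rfl fun H _ => ?_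
    rw [AddMonoidHom.coe_mul, AddMonoidHom.coe_mulLeft]
    ring
  exact LinearMap.congr_fun h c

theorem isCube_wfr {p q : ℕ} {H : Finset ℕ} (hH : H ∈ (Finset.range (p + q)).powersetCard p)
    {τ : C(Cb, X)} (hτ : IsCube ((p + q : ℕ) : ℤ) τ) :
    IsCube (p : ℤ) (τ.comp (fc (p + q) (wfr H))) := by
  have h := isCube_fc (w := wfr H) hτ
  rw [Finset.mem_powersetCard] at hH
  have h2 : ((Finset.range (p + q)).filter (fun i => wfr H i = none)) = H := by
    ext i
    rw [Finset.mem_filter]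
    constructor
    · rintro ⟨_, h⟩
      by_contra hi
      simp [wfr, hi] at h
    · intro hi
      exact ⟨hH.1 hi, by simp [wfr, hi]⟩
  rw [h2, hH.2] at h
  exact h

theorem isCube_wbk {p q : ℕ} {H : Finset ℕ} (hH : H ∈ (Finset.range (p + q)).powersetCard p)
    {τ : C(Cb, X)} (hτ : IsCube ((p + q : ℕ) : ℤ) τ) :
    IsCube (q : ℤ) (τ.comp (fc (p + q) (wbk H))) := by
  have h := isCube_fc (w := wbk H) hτ
  rw [Finset.mem_powersetCard] at hH
  have h2 : ((Finset.range (p + q)).filter (fun i => wbk H i = none)) =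
      (Finset.range (p + q)) \ H := by
    ext i
    rw [Finset.mem_filter, Finset.mem_sdiff]
    by_cases hi : i ∈ H <;> simp [wbk, hi]
  rw [h2, Finset.card_sdiff_of_subset hH.1, hH.2, Finset.card_range, Nat.add_sub_cancel_left] at h
  exact h

/-- A family of cubes closed under precomposition is preserved by the boundary. -/
theorem bd_mem_closed {k : ℤ} {c : Ch R X} {P : C(Cb, X) → Prop}
    (hP : ∀ (σ : C(Cb, X)) (f : C(Cb, Cb)), P σ → P (σ.comp f))
    (hc : c ∈ Finsupp.supported R R {τ | IsCube k τ ∧ P τ}) :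
    bd k c ∈ Finsupp.supported R R {τ | IsCube (k - 1) τ ∧ P τ} := by
  refine map_mem_of_supported (bd k) _ (fun τ hτ => ?_) hc
  rw [bd_apply]
  refine Submodule.sum_mem _ fun i hi => Submodule.smul_mem _ _ ?_
  rw [Finset.mem_range] at hi
  rw [face_single, face_single]
  exact Submodule.sub_mem _
    (single_mem_supported (S := {τ | IsCube (k - 1) τ ∧ P τ})
      ⟨hτ.1.face (by omega) _, hP _ _ hτ.2⟩ _)
    (single_mem_supported (S := {τ | IsCube (k - 1) τ ∧ P τ})
      ⟨hτ.1.face (by omega) _, hP _ _ hτ.2⟩ _)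

/-- A family of cubes closed under precomposition which contains the cubes of `c` contains the
cubes of the cap product. -/
theorem capc_mem {p q : ℕ} {u : C(Cb, X) → R} {c : Ch R X} {P : C(Cb, X) → Prop}
    (hP : ∀ (σ : C(Cb, X)) (f : C(Cb, Cb)), P σ → P (σ.comp f))
    (hc : c ∈ Finsupp.supported R R {τ | IsCube ((p + q : ℕ) : ℤ) τ ∧ P τ}) :
    capc p q u c ∈ Finsupp.supported R R {τ | IsCube (p : ℤ) τ ∧ P τ} := by
  refine map_mem_of_supported (capc p q u) _ (fun τ hτ => ?_) hc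
  rw [capc_single, one_smul, cap1]
  refine Submodule.sum_mem _ fun H hH => ?_
  exact single_mem_supported (S := {τ | IsCube (p : ℤ) τ ∧ P τ})
    ⟨isCube_wfr hH hτ.1, hP _ _ hτ.2⟩ _

theorem capc_mem_C {p q : ℕ} {u : C(Cb, X) → R} {c : Ch R X}
    (hc : c ∈ CubeHom.C R ((p + q : ℕ) : ℤ) Set.univ) :
    capc p q u c ∈ CubeHom.C R (p : ℤ) Set.univ :=
  capc_mem (P := fun σ => ∀ u, σ u ∈ (Set.univ : Set X)) (fun _ f h u => h (f u)) hc

/-- Naturality. -/
theorem push_capc {p q : ℕ} (f : C(X, Y)) (u : C(Cb, Y) → R) (c : Ch R X) :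
    push f (capc p q (pb f u) c) = capc p q u (push f c) := by
  have h : (push f).comp (capc p q (pb f u)) = (capc p q u).comp (push f) := by
    ext τ : 2
    simp only [LinearMap.comp_apply, Finsupp.lsingle_apply, capc_single, one_smul, cap1, map_sum,
      push_single, pb]
    rfl
  exact LinearMap.congr_fun h c

/-- If the cochain vanishes on all faces of the cubes of `c` then the cap product is zero. -/
theorem capc_eq_zero {p q : ℕ} {u : C(Cb, X) → R} {c : Ch R X}
    (hc : c ∈ CubeHom.C R ((p + q : ℕ) : ℤ) Set.univ)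
    (h : ∀ τ ∈ c.support, ∀ f : C(Cb, Cb), IsCube (q : ℤ) (τ.comp f) → u (τ.comp f) = 0) :
    capc p q u c = 0 := by
  rw [capc, Finsupp.linearCombination_apply]
  refine Finset.sum_eq_zero fun τ hτ => ?_
  have h0 : cap1 p q u τ = 0 := by
    unfold cap1
    refine Finset.sum_eq_zero fun H hH => ?_
    rw [h τ hτ _ (isCube_wbk hH ((Finsupp.mem_supported _ _).mp hc hτ).1), mul_zero,
      Finsupp.single_zero]
  simp only [h0, smul_zero]

/-- The boundary of the cap product of `c` with a cocycle is degenerate if the cubes of the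
boundary of `c` are degenerate or killed by the cocycle. -/
theorem bd_capc {p q : ℕ} {u : C(Cb, X) → R} (hu : (CS.top X).Coc q u) {c : Ch R X}
    (hc : c ∈ CubeHom.C R ((p + 1 + q : ℕ) : ℤ) Set.univ)
    (hb : ∀ t ∈ (bd ((p + 1 + q : ℕ) : ℤ) c).support, Degen ((p + q : ℕ) : ℤ) t ∨
      ∀ f : C(Cb, Cb), IsCube (q : ℤ) (t.comp f) → u (t.comp f) = 0) :
    ∀ σ ∈ (bd ((p + 1 : ℕ) : ℤ) (capc (p + 1) q u c)).support, Degen (p : ℤ) σ := by
  classical
  intro σ hσ
  by_contra hdeg
  rw [Finsupp.mem_support_iff] at hσ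
  apply hσ
  set v : C(Cb, X) → R := fun τ => if τ = σ then 1 else 0 with hv
  have hvlc : ∀ w : Ch R X, Finsupp.linearCombination R v w = w σ := by
    intro w
    rw [Finsupp.linearCombination_apply, Finsupp.sum]
    simp only [hv, smul_eq_mul, mul_ite, mul_one, mul_zero]
    rw [Finset.sum_ite_eq']
    split_ifs with h
    · rfl
    · exact (Finsupp.notMem_support_iff.mp h).symm
  have hvrel : (CS.top X).Rel p v := by
    intro τ _ _ h
    rcases h with h | h
    · exact h.elim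
    · rw [hv]
      simp only [ite_eq_right_iff]
      rintro rfl
      exact absurd h hdeg
  have h1 : Finsupp.linearCombination R (cup (AddMonoidHom.mul) p q v u)
      (bd ((p + 1 + q : ℕ) : ℤ) c) = 0 := by
    rw [Finsupp.linearCombination_apply, Finsupp.sum]
    refine Finset.sum_eq_zero fun t ht => ?_
    have hcube : IsCube ((p + q : ℕ) : ℤ) t := by
      have h2 := bd_mem_C hc
      have h3 := (Finsupp.mem_supported _ _).mp h2 ht
      have h4 : ((p + 1 + q : ℕ) : ℤ) - 1 = ((p + q : ℕ) : ℤ) := by push_cast; ring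
      rw [h4] at h3
      exact h3.1
    rcases hb t ht with h | h
    · have h2 := cup_rel (CS.top X) (CS.top X) rfl (AddMonoidHom.mul (R := R)) hvrel hu.1 t hcube
        trivial (Or.inr h)
      rw [h2, smul_zero]
    · rw [cup, Finset.sum_eq_zero, smul_zero]
      intro H hH
      rw [h _ (isCube_wbk hH hcube), map_zero, smul_zero]
  rw [← hvlc, lc_bd, lc_capc]
  have h5 : Finsupp.linearCombination R (cup (AddMonoidHom.mul) (p + 1) q (dl p v) u) c =
      Finsupp.linearCombination R (dl (p + q) (cup (AddMonoidHom.mul) p q v u)) c := by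
    rw [Finsupp.linearCombination_apply, Finsupp.linearCombination_apply]
    refine Finsupp.sum_congr fun t ht => ?_
    have hcube := ((Finsupp.mem_supported _ _).mp hc ht).1
    have h6 : IsCube ((p + q + 1 : ℕ) : ℤ) t := by
      have h4 : ((p + 1 + q : ℕ) : ℤ) = ((p + q + 1 : ℕ) : ℤ) := by push_cast; ring
      rwa [h4] at hcube
    rw [dl_cup (AddMonoidHom.mul) p q v u h6]
    have h7 : cup (AddMonoidHom.mul) p (q + 1) v (dl q u) t = 0 := by
      rw [cup]
      refine Finset.sum_eq_zero fun H hH => ?_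
      have h6' : IsCube ((p + (q + 1) : ℕ) : ℤ) t := h6
      have h8 := isCube_wbk hH h6'
      rw [hu.2 _ h8 trivial, map_zero, smul_zero]
    rw [h7, smul_zero, add_zero]
  have h12 : ((p + 1 + q : ℕ) : ℤ) = ((p + q + 1 : ℕ) : ℤ) := by push_cast; ring
  rw [h5, ← lc_bd, ← h12, h1]

end cap

section pairing

variable {π E F : Type} [Group π] [TopologicalSpace E] [TopologicalSpace F] [MulAction π E]
  (Fi : FineCov π E F) {k L : Type} [Field k] [AddCommGroup L] [Module k L]
  (μ : C(Cb, F × F) → k) (ρ : Representation k π L) (m : ℕ)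

/-- The pairing as a linear map in the coefficient. -/
noncomputable def FineCov.SSl (τ s : C(Cb, E)) : L →ₗ[k] L where
  toFun l := Fi.SS μ ρ m l τ s
  map_add' l l' := Fi.SS_add_left l l' τ s
  map_smul' a l := Fi.SS_smul_left a l τ s

/-- The pairing as a linear map in the chain. -/
noncomputable def FineCov.SScl (l : L) (s : C(Cb, E)) : Ch k E →ₗ[k] L where
  toFun c := Fi.SSc μ ρ m l c s
  map_add' c c' := Fi.SSc_add c c' s
  map_smul' a c := Fi.SSc_smul a c s

theorem FineCov.SSl_apply (τ s : C(Cb, E)) (l : L) :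
    Fi.SSl μ ρ m τ s l = Fi.SS μ ρ m l τ s := rfl

theorem FineCov.SScl_apply (l : L) (c : Ch k E) (s : C(Cb, E)) :
    Fi.SScl μ ρ m l s c = Fi.SSc μ ρ m l c s := rfl

theorem FineCov.SScl_single (l : L) (τ s : C(Cb, E)) (a : k) :
    Fi.SScl μ ρ m l s (Finsupp.single τ a) = a • Fi.SS μ ρ m l τ s := Fi.SSc_single τ s a

/-- Expansion of the cap product in a basis, for one cube. -/
theorem FineCov.capS_expand {ι : Type} (β : Module.Basis ι k L) (p q : ℕ) (u : C(Cb, E) → L)
    (τ : C(Cb, E)) : ∃ S0 : Finset ι, ∀ S : Finset ι, S0 ⊆ S → ∀ s : C(Cb, E),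
      Fi.capS μ ρ (p + q) q u τ s =
        ∑ b ∈ S, Fi.SSc μ ρ q (β b) (cap1 p q (fun σ => β.coord b (u σ)) τ) s := by
  classical
  refine ⟨((Finset.range (p + q)).powersetCard p).biUnion fun H =>
    (β.repr (u (τ.comp (fc (p + q) (wbk H))))).support, fun S hS s => ?_⟩
  rw [FineCov.capS, Nat.add_sub_cancel]
  have h1 : ∀ b, Fi.SSc μ ρ q (β b) (cap1 p q (fun σ => β.coord b (u σ)) τ) s =
      ∑ H ∈ (Finset.range (p + q)).powersetCard p,
        ((sgnS (p + q) H : k) * β.coord b (u (τ.comp (fc (p + q) (wbk H))))) •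
          Fi.SS μ ρ q (β b) (τ.comp (fc (p + q) (wfr H))) s := by
    intro b
    rw [← Fi.SScl_apply, cap1, map_sum]
    refine Finset.sum_congr rfl fun H _ => ?_
    rw [Fi.SScl_single]
  simp only [h1]
  rw [Finset.sum_comm]
  refine Finset.sum_congr rfl fun H hH => ?_
  have h2 : u (τ.comp (fc (p + q) (wbk H))) =
      ∑ b ∈ S, β.coord b (u (τ.comp (fc (p + q) (wbk H)))) • β b := by
    have h3 := β.linearCombination_repr (u (τ.comp (fc (p + q) (wbk H))))
    rw [Finsupp.linearCombination_apply, Finsupp.sum] at h3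
    conv_lhs => rw [← h3]
    refine Finset.sum_subset (fun b hb => hS (Finset.mem_biUnion.mpr ⟨H, hH, hb⟩))
      fun b _ hb => ?_
    rw [Finsupp.notMem_support_iff.mp hb, zero_smul]
  conv_lhs => rw [← Fi.SSl_apply, h2, map_sum]
  rw [Finset.smul_sum]
  refine Finset.sum_congr rfl fun b _ => ?_
  rw [map_smul, Fi.SSl_apply, ← Int.cast_smul_eq_zsmul k, smul_smul]

/-- Expansion of the cap product in a basis, for a chain. -/
theorem FineCov.capS_chain {ι : Type} (β : Module.Basis ι k L) (p q : ℕ) (u : C(Cb, E) → L)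
    (c : Ch k E) : ∃ S : Finset ι, ∀ s : C(Cb, E),
      Finsupp.linearCombination k (fun τ => Fi.capS μ ρ (p + q) q u τ s) c =
        ∑ b ∈ S, Fi.SSc μ ρ q (β b) (capc p q (fun σ => β.coord b (u σ)) c) s := by
  classical
  choose S0 hS0 using Fi.capS_expand μ ρ β p q u
  refine ⟨c.support.biUnion S0, fun s => ?_⟩
  rw [Finsupp.linearCombination_apply, Finsupp.sum]
  have h1 : ∀ b, Fi.SSc μ ρ q (β b) (capc p q (fun σ => β.coord b (u σ)) c) s =
      ∑ τ ∈ c.support, c τ • Fi.SSc μ ρ q (β b) (cap1 p q (fun σ => β.coord b (u σ)) τ) s := by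
    intro b
    rw [← Fi.SScl_apply, capc, Finsupp.linearCombination_apply, Finsupp.sum, map_sum]
    refine Finset.sum_congr rfl fun τ _ => ?_
    rw [map_smul, Fi.SScl_apply]
  simp only [h1]
  rw [Finset.sum_comm]
  refine Finset.sum_congr rfl fun τ hτ => ?_
  rw [hS0 τ (c.support.biUnion S0) (Finset.subset_biUnion_of_mem S0 hτ) s, Finset.smul_sum]

/-- The sum over the lifted cubes as a chain. -/
theorem FineCov.capS_sum (d q : ℕ) (u : C(Cb, E) → L) (ξ : Ch k F) (τ : C(Cb, F) → C(Cb, E))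
    (s : C(Cb, E)) :
    ∑ t ∈ ξ.support, ξ t • Fi.capS μ ρ d q u (τ t) s =
      Finsupp.linearCombination k (fun σ => Fi.capS μ ρ d q u σ s)
        (∑ t ∈ ξ.support, Finsupp.single (τ t) (ξ t)) := by
  rw [map_sum]
  refine Finset.sum_congr rfl fun t _ => ?_
  rw [Finsupp.linearCombination_single]

/-- The open cover of the covering space. -/
def FineCov.VE : Set (Set E) := (fun V => Fi.p ⁻¹' V) '' Fi.𝒱

theorem FineCov.sm_iff (s : C(Cb, E)) : Fi.Sm s ↔ ∃ V ∈ Fi.VE, ∀ u, s u ∈ V := by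
  constructor
  · rintro ⟨V, hV, h⟩
    exact ⟨_, ⟨V, hV, rfl⟩, h⟩
  · rintro ⟨_, ⟨V, hV, rfl⟩, h⟩
    exact ⟨V, hV, h⟩

theorem FineCov.openVE : ∀ V ∈ Fi.VE, IsOpen V := by
  rintro _ ⟨V, hV, rfl⟩
  exact (Fi.openV V hV).preimage Fi.p.continuous

theorem FineCov.covVE : ⋃₀ Fi.VE = Set.univ := by
  rw [Set.eq_univ_iff_forall]
  intro e
  obtain ⟨V, hV, h⟩ := Fi.covV e
  exact ⟨_, ⟨V, hV, rfl⟩, h⟩

theorem FineCov.invVE (g : π) : ∀ V ∈ Fi.VE, (fun e : E => g • e) '' V ∈ Fi.VE := by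
  rintro _ ⟨V, hV, rfl⟩
  refine ⟨V, hV, ?_⟩
  ext e
  constructor
  · intro he
    refine ⟨g⁻¹ • e, ?_, smul_inv_smul g e⟩
    rw [Set.mem_preimage, Fi.p_smul]
    exact he
  · rintro ⟨e', he', rfl⟩
    change Fi.p (g • e') ∈ V
    rw [Fi.p_smul]
    exact he'

theorem FineCov.sm_comp {s : C(Cb, E)} (h : Fi.Sm s) (f : C(Cb, Cb)) : Fi.Sm (s.comp f) := by
  obtain ⟨V, hV, h⟩ := h
  exact ⟨V, hV, fun u => h (f u)⟩

theorem FineCov.sm_act {s : C(Cb, E)} (g : π) : Fi.Sm ((Fi.act g).comp s) ↔ Fi.Sm s := by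
  have h : ∀ u, Fi.p (((Fi.act g).comp s) u) = Fi.p (s u) := fun u => Fi.p_smul g (s u)
  unfold FineCov.Sm
  simp only [h]

/-- If the components of the cap product bound small chains then the pairing with the cap
product is the coboundary of an equivariant normalised cochain. -/
theorem FineCov.capS_bounds {d p j : ℕ} (hμ : (offD F).Coc d μ) (hd : p + (j + 1) = d)
    {ι : Type} (β : Module.Basis ι k L) {u : C(Cb, E) → L} {c : Ch k E}
    (hc : ∀ b, (CS.mk' Fi.VE ∅).Bd k (p : ℤ) (capc p (j + 1) (fun σ => β.coord b (u σ)) c)) :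
    ∃ η : C(Cb, E) → L,
      (∀ (g : π) (σ : C(Cb, E)), η ((Fi.act g).comp σ) = ρ g (η σ)) ∧
      (∀ σ : C(Cb, E), IsCube (j : ℤ) σ → Degen (j : ℤ) σ → η σ = 0) ∧
      ∀ s : C(Cb, E), IsCube ((j + 1 : ℕ) : ℤ) s → Fi.Sm s →
        Finsupp.linearCombination k (fun τ => Fi.capS μ ρ d (j + 1) u τ s) c = dl j η s := by
  classical
  subst hd
  choose bb hbb hbb' using hc
  obtain ⟨S, hS⟩ := Fi.capS_chain μ ρ β p (j + 1) u c
  have hbbs : ∀ b, ∀ τ ∈ (bb b).support, IsCube ((p + 1 : ℕ) : ℤ) τ ∧ Fi.Sm τ := by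
    intro b τ hτ
    have h1 := (Finsupp.mem_supported _ _).mp (hbb b) hτ
    exact ⟨by exact_mod_cast h1.1, (Fi.sm_iff τ).mpr h1.2⟩
  have hQ : ∀ b, ∀ τ ∈ (capc p (j + 1) (fun σ => β.coord b (u σ)) c -
      bd ((p : ℤ) + 1) (bb b)).support, IsCube (p : ℤ) τ ∧ Fi.Sm τ ∧ Degen (p : ℤ) τ := by
    intro b τ hτ
    have h1 := (Finsupp.mem_supported _ _).mp (hbb' b) hτ
    refine ⟨h1.1, (Fi.sm_iff τ).mpr h1.2.1, ?_⟩
    rcases h1.2.2 with ⟨V, hV, -⟩ | h2
    · exact hV.elim
    · exact h2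
  refine ⟨fun s => if Fi.Sm s then (-1 : ℤ) ^ j • ∑ b ∈ S, Fi.SSc μ ρ j (β b) (bb b) s else 0,
    ?_, ?_, ?_⟩
  · intro g σ
    beta_reduce
    by_cases hσ : Fi.Sm σ
    · rw [if_pos hσ, if_pos ((Fi.sm_act g).mpr hσ), map_zsmul, map_sum]
      congr 1
      refine Finset.sum_congr rfl fun b _ => ?_
      rw [FineCov.SSc, FineCov.SSc, Finsupp.sum, Finsupp.sum, map_sum]
      refine Finset.sum_congr rfl fun τ hτ => ?_
      rw [map_smul, Fi.SS_equi g (hbbs b τ hτ).2 hσ]
    · rw [if_neg hσ, if_neg (fun h => hσ ((Fi.sm_act g).mp h)), map_zero]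
  · intro σ hσ hdeg
    by_cases hs : Fi.Sm σ
    · simp only [if_pos hs]
      rw [Finset.sum_eq_zero, smul_zero]
      intro b _
      rw [FineCov.SSc, Finsupp.sum]
      refine Finset.sum_eq_zero fun τ hτ => ?_
      rw [Fi.SS_degen hμ (n := p + 1) (by omega) (hbbs b τ hτ).1 hσ (Or.inl hdeg), smul_zero]
    · simp only [if_neg hs]
  · intro s hs hsm
    rw [hS s, dl]
    have h1 : ∀ (i : ℕ) (e : I), Fi.Sm (s.comp (ins i e)) := fun i e => Fi.sm_comp hsm _
    simp only [if_pos (h1 _ _)]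
    have h2 : ∀ b, Fi.SSc μ ρ (j + 1) (β b) (capc p (j + 1) (fun σ => β.coord b (u σ)) c) s =
        (-1 : ℤ) ^ j • dl j (Fi.SSc μ ρ j (β b) (bb b)) s := by
      intro b
      have h3 : Fi.SSc μ ρ (j + 1) (β b) (capc p (j + 1) (fun σ => β.coord b (u σ)) c -
          bd ((p : ℤ) + 1) (bb b)) s = 0 := by
        rw [FineCov.SSc, Finsupp.sum]
        refine Finset.sum_eq_zero fun τ hτ => ?_
        obtain ⟨h4, -, h5⟩ := hQ b τ hτ
        rw [Fi.SS_degen hμ (m := j + 1) (n := p) (by omega) h4 hs (Or.inr h5), smul_zero]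
      have h6 : Fi.SSc μ ρ (j + 1) (β b) (capc p (j + 1) (fun σ => β.coord b (u σ)) c) s =
          Fi.SSc μ ρ (j + 1) (β b) (bd ((p : ℤ) + 1) (bb b)) s := by
        rw [← Fi.SScl_apply, ← Fi.SScl_apply] at *
        rw [map_sub, sub_eq_zero] at h3
        exact h3
      rw [h6]
      have h7 : Fi.SSc μ ρ (j + 1) (β b) (bd ((p : ℤ) + 1) (bb b)) s =
          ∑ τ ∈ (bb b).support, (bb b) τ •
            Fi.SSc μ ρ (j + 1) (β b) (bd ((p + 1 : ℕ) : ℤ) (Finsupp.single τ 1)) s := by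
        conv_lhs => rw [← Finsupp.sum_single (bb b)]
        rw [Finsupp.sum, map_sum, ← Fi.SScl_apply, map_sum]
        refine Finset.sum_congr rfl fun τ _ => ?_
        rw [← Fi.SScl_apply, ← map_smul, ← map_smul, Finsupp.smul_single', mul_one]
        norm_cast
      rw [h7]
      have h8 : ∀ τ ∈ (bb b).support,
          Fi.SSc μ ρ (j + 1) (β b) (bd ((p + 1 : ℕ) : ℤ) (Finsupp.single τ 1)) s =
            (-1 : ℤ) ^ j • dl j (Fi.SS μ ρ j (β b) τ) s := by
        intro τ hτ
        rw [Fi.dl_SS hμ (n := p + 1) (by omega) (hbbs b τ hτ).2 hsm (hbbs b τ hτ).1 hs, smul_smul,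
          ← pow_add, ← two_mul, pow_mul, neg_one_sq, one_pow, one_smul]
      rw [Finset.sum_congr rfl fun τ hτ => by rw [h8 τ hτ]]
      have h9 : ∀ s' : C(Cb, E), Fi.SSc μ ρ j (β b) (bb b) s' =
          ∑ τ ∈ (bb b).support, (bb b) τ • Fi.SS μ ρ j (β b) τ s' := fun s' => rfl
      simp only [dl, h9, ← Finset.sum_sub_distrib, ← smul_sub, Finset.smul_sum]
      rw [Finset.sum_comm]
      refine Finset.sum_congr rfl fun i _ => Finset.sum_congr rfl fun τ _ => ?_
      simp only [← Int.cast_smul_eq_zsmul k, smul_smul]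
      congr 1
      ring
    rw [Finset.sum_congr rfl fun b _ => h2 b]
    simp only [dl, Finset.smul_sum, ← smul_sub, ← Finset.sum_sub_distrib]
    rw [Finset.sum_comm]
    refine Finset.sum_congr rfl fun i _ => Finset.sum_congr rfl fun b _ => ?_
    rw [smul_comm]

end pairing

end Pool.Agent.TC
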