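import Pool.Agent.Lib.TC.CupComb

/-!
# Faces of the face maps; the Leibniz rule
-/

namespace Pool.Agent.TC.Comb

open CubeHom Finset

/-- number of free letters before `j` -/
def cf (w : ℕ → Option Bool) (j : ℕ) : ℕ := ((range j).filter (fun i => w i = none)).card

/-- number of fixed letters before `j` -/
def cx (w : ℕ → Option Bool) (j : ℕ) : ℕ := ((range j).filter (fun i => w i ≠ none)).card

lemma cf_add_cx (w : ℕ → Option Bool) (j : ℕ) : cf w j + cx w j = j := by
  unfold cf cx
  have h := card_filter_add_card_filter_not (s := range j) (fun i => w i = none)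
  rwa [card_range] at h

lemma fc_none {n : ℕ} {w : ℕ → Option Bool} {j : ℕ} (hj : j < n) (h : w j = none) (u : Cb) :
    fc n w u j = u (cf w j) := by
  change (if j < n then (match w j with
      | none => u ((Finset.range j).filter (fun i => w i = none)).card
      | some b => bitI b)
    else _) = _
  rw [if_pos hj, h]
  rfl

lemma fc_some {n : ℕ} {w : ℕ → Option Bool} {j : ℕ} (hj : j < n) {b : Bool} (h : w j = some b)
    (u : Cb) : fc n w u j = bitI b := by
  change (if j < n then (match w j with
      | none => u ((Finset.range j).filter (fun i => w i = none)).card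
      | some b => bitI b)
    else _) = _
  rw [if_pos hj, h]

lemma fc_ge {n : ℕ} {w : ℕ → Option Bool} {j : ℕ} (hj : n ≤ j) (u : Cb) :
    fc n w u j = u (j - cx w n) := if_neg (by omega)

lemma insW_dsh (i : ℕ) (b : Bool) (w : ℕ → Option Bool) (a : ℕ) :
    insW i b w (dsh i a) = w a := by
  unfold insW
  rcases lt_or_ge a i with h | h
  · rw [dsh_lt h, if_pos h]
  · rw [dsh_ge h, if_neg (by omega), if_neg (by omega), Nat.add_sub_cancel]

lemma insW_self (i : ℕ) (b : Bool) (w : ℕ → Option Bool) : insW i b w i = some b := by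
  unfold insW
  rw [if_neg (lt_irrefl i), if_pos rfl]

lemma cf_insW_lt {i j : ℕ} (h : j ≤ i) (b : Bool) (w : ℕ → Option Bool) :
    cf (insW i b w) j = cf w j := by
  unfold cf
  congr 1
  refine filter_congr fun a ha => ?_
  rw [mem_range] at ha
  unfold insW
  rw [if_pos (by omega)]

lemma cf_insW_gt {i j : ℕ} (h : i ≤ j) (b : Bool) (w : ℕ → Option Bool) :
    cf (insW i b w) (j + 1) = cf w j := by
  unfold cf
  rw [card_filter, card_filter, sum_range_dsh h, insW_self, if_neg (by simp), zero_add]
  simp only [insW_dsh]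

lemma cx_insW_gt {i j : ℕ} (h : i ≤ j) (b : Bool) (w : ℕ → Option Bool) :
    cx (insW i b w) (j + 1) = cx w j + 1 := by
  have h1 := cf_add_cx (insW i b w) (j + 1)
  have h2 := cf_add_cx w j
  rw [cf_insW_gt h] at h1
  omega

/-- Inserting a coordinate after a face map. -/
lemma ins_fc {n i : ℕ} (hi : i ≤ n) (b : Bool) (w : ℕ → Option Bool) :
    (ins i (bitI b)).comp (fc n w) = fc (n + 1) (insW i b w) := by
  ext u : 1
  funext j
  rw [ContinuousMap.comp_apply]
  rcases lt_trichotomy j i with h | h | h
  · rw [ins_apply_lt h]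
    have hw : insW i b w j = w j := by
      unfold insW
      rw [if_pos h]
    cases hj : w j with
    | none =>
      rw [fc_none (by omega) hj, fc_none (by omega) (hw.trans hj), cf_insW_lt h.le]
    | some b' =>
      rw [fc_some (by omega) hj, fc_some (by omega) (hw.trans hj)]
  · subst h
    rw [ins_apply_self, fc_some (by omega) (insW_self j b w)]
  · rw [ins_apply_gt h]
    obtain ⟨m, rfl⟩ : ∃ m, j = m + 1 := ⟨j - 1, by omega⟩
    rw [Nat.add_sub_cancel]
    rcases lt_or_ge m n with hm | hm
    · have hw : insW i b w (m + 1) = w m := by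
        unfold insW
        rw [if_neg (by omega), if_neg (by omega), Nat.add_sub_cancel]
      cases hj : w m with
      | none =>
        rw [fc_none hm hj, fc_none (by omega) (hw.trans hj), cf_insW_gt (by omega)]
      | some b' =>
        rw [fc_some hm hj, fc_some (by omega) (hw.trans hj)]
    · rw [fc_ge hm, fc_ge (by omega), cx_insW_gt hi]
      congr 1
      omega

lemma cf_mono (w : ℕ → Option Bool) {i j : ℕ} (h : i ≤ j) : cf w i ≤ cf w j :=
  card_le_card (filter_subset_filter _ (range_subset_range.2 h))

lemma cf_succ (w : ℕ → Option Bool) {i : ℕ} (h : w i = none) : cf w (i + 1) = cf w i + 1 := by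
  unfold cf
  rw [range_add_one, filter_insert, if_pos h, card_insert_of_notMem (by simp)]

lemma cf_upd_le {w : ℕ → Option Bool} {i j : ℕ} (h : j ≤ i) (b : Bool) :
    cf (upd w i b) j = cf w j := by
  unfold cf
  congr 1
  refine filter_congr fun a ha => ?_
  rw [mem_range] at ha
  unfold upd
  rw [if_neg (by omega)]

lemma cf_upd_gt {w : ℕ → Option Bool} {i j : ℕ} (hw : w i = none) (h : i < j) (b : Bool) :
    cf (upd w i b) j + 1 = cf w j := by
  unfold cf
  have e : (range j).filter (fun a => w a = none) =
      insert i ((range j).filter (fun a => upd w i b a = none)) := by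
    ext a
    simp only [mem_filter, mem_range, mem_insert]
    unfold upd
    by_cases ha : a = i
    · subst ha
      simp [hw, h]
    · simp [ha]
  rw [e, card_insert_of_notMem]
  simp [upd]

lemma cx_upd_gt {w : ℕ → Option Bool} {i j : ℕ} (hw : w i = none) (h : i < j) (b : Bool) :
    cx (upd w i b) j = cx w j + 1 := by
  have h1 := cf_add_cx (upd w i b) j
  have h2 := cf_add_cx w j
  have h3 := cf_upd_gt hw h b
  omega

/-- Faces of a face map. -/
lemma fc_ins {n i : ℕ} (hi : i < n) (b : Bool) {w : ℕ → Option Bool} (hw : w i = none) :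
    (fc n w).comp (ins (cf w i) (bitI b)) = fc n (upd w i b) := by
  ext u : 1
  funext j
  rw [ContinuousMap.comp_apply]
  have hupd : ∀ a, a ≠ i → upd w i b a = w a := fun a ha => by
    unfold upd
    rw [if_neg ha]
  rcases lt_or_ge j n with hj | hj
  · rcases lt_trichotomy j i with h | h | h
    · cases hwj : w j with
      | none =>
        have h1 := cf_succ w hwj
        have h2 := cf_mono w (show j + 1 ≤ i by omega)
        rw [fc_none hj hwj, ins_apply_lt (by omega), fc_none hj ((hupd j h.ne).trans hwj),
          cf_upd_le h.le]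
      | some b' =>
        rw [fc_some hj hwj, fc_some hj ((hupd j h.ne).trans hwj)]
    · subst h
      rw [fc_none hj hw, ins_apply_self, fc_some hj (show upd w j b j = some b by
        unfold upd
        rw [if_pos rfl])]
    · cases hwj : w j with
      | none =>
        have h1 := cf_succ w hw
        have h2 := cf_mono w (show i + 1 ≤ j by omega)
        have h3 := cf_upd_gt hw h b
        rw [fc_none hj hwj, ins_apply_gt (by omega), fc_none hj ((hupd j h.ne').trans hwj)]
        congr 1
        omega
      | some b' =>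
        rw [fc_some hj hwj, fc_some hj ((hupd j h.ne').trans hwj)]
  · have h1 := cf_succ w hw
    have h2 := cf_mono w (show i + 1 ≤ n by omega)
    have h3 := cf_add_cx w n
    rw [fc_ge hj, ins_apply_gt (by omega), fc_ge hj, cx_upd_gt hw hi]
    congr 1

/-- Reindexing an alternating sum by the elements of a finite set. -/
lemma sum_range_card {M : Type*} [AddCommGroup M] (S : Finset ℕ) (F : ℕ → M) :
    ∑ l ∈ range S.card, ((-1 : ℤ) ^ l) • F l = ∑ i ∈ S, ((-1 : ℤ) ^ cb S i) • F (cb S i) := by
  have hmap : ∀ i ∈ S, cb S i < S.card := by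
    intro i hi
    refine card_lt_card ⟨filter_subset _ _, fun h => ?_⟩
    have := h hi
    rw [mem_filter] at this
    exact lt_irrefl i this.2
  have hlt : ∀ i ∈ S, ∀ j ∈ S, i < j → cb S i < cb S j := by
    intro i hi j hj hij
    refine card_lt_card ⟨fun a ha => ?_, fun h => ?_⟩
    · rw [mem_filter] at ha ⊢
      exact ⟨ha.1, by omega⟩
    · have := h (mem_filter.2 ⟨hi, hij⟩)
      rw [mem_filter] at this
      exact lt_irrefl i this.2
  have hinj : Set.InjOn (cb S) S := by
    intro i hi j hj h
    rcases lt_trichotomy i j with h1 | h1 | h1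
    · have := hlt i hi j hj h1
      omega
    · exact h1
    · have := hlt j hj i hi h1
      omega
  have himg : S.image (cb S) = range S.card := by
    refine eq_of_subset_of_card_le ?_ ?_
    · intro l hl
      rw [mem_image] at hl
      obtain ⟨i, hi, rfl⟩ := hl
      exact mem_range.2 (hmap i hi)
    · rw [card_range, card_image_of_injOn hinj]
  rw [← himg, sum_image hinj]

lemma cf_wfr {H : Finset ℕ} (i : ℕ) : cf (wfr H) i = cb H i := by
  unfold cf cb
  congr 1
  ext a
  simp only [mem_filter, mem_range, wfr]
  by_cases h : a ∈ H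
  · simp [h]
  · simp [h]

lemma cf_wbk {H : Finset ℕ} (i : ℕ) : cf (wbk H) i = cn H i := by
  unfold cf cn
  congr 1
  ext a
  simp only [mem_filter, mem_range, wbk]
  by_cases h : a ∈ H
  · simp [h]
  · simp [h]

lemma cb_compl {n : ℕ} {H : Finset ℕ} {i : ℕ} (hi : i ≤ n) :
    cb ((range n).filter (· ∉ H)) i = cn H i := by
  unfold cb cn
  congr 1
  ext a
  simp only [mem_filter, mem_range]
  constructor
  · rintro ⟨⟨-, h1⟩, h2⟩
    exact ⟨h2, h1⟩
  · rintro ⟨h1, h2⟩
    exact ⟨⟨by omega, h2⟩, h1⟩

end Pool.Agent.TC.Comb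

namespace Pool.Agent.TC

open CubeHom Comb

variable {X : Type*} [TopologicalSpace X] {A A' A'' : Type*}
  [AddCommGroup A] [AddCommGroup A'] [AddCommGroup A'']

lemma bitI_true : bitI true = 1 := rfl

lemma bitI_false : bitI false = 0 := rfl

/-- The coboundary of a cochain on a front face. -/
lemma dl_wfr {N : ℕ} {H : Finset ℕ} (hH : H ⊆ Finset.range N) {p : ℕ} (hp : H.card = p + 1)
    (u : C(Cb, X) → A) (σ : C(Cb, X)) :
    dl p u (σ.comp (fc N (wfr H))) = ∑ i ∈ H, ((-1 : ℤ) ^ cb H i) •
      (u (σ.comp (fc N (upd (wfr H) i true))) - u (σ.comp (fc N (upd (wfr H) i false)))) := by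
  have h := sum_range_card H (fun l => u ((σ.comp (fc N (wfr H))).comp (ins l 1)) -
    u ((σ.comp (fc N (wfr H))).comp (ins l 0)))
  rw [hp] at h
  unfold dl
  rw [h]
  refine Finset.sum_congr rfl fun i hi => ?_
  have hi' : i < N := Finset.mem_range.1 (hH hi)
  have hw : wfr H i = none := if_pos hi
  rw [ContinuousMap.comp_assoc, ContinuousMap.comp_assoc, ← cf_wfr, ← bitI_true, ← bitI_false,
    fc_ins hi' true hw, fc_ins hi' false hw]

/-- The coboundary of a cochain on a back face. -/
lemma dl_wbk {N : ℕ} {H : Finset ℕ} {q : ℕ}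
    (hq : ((Finset.range N).filter (· ∉ H)).card = q + 1)
    (v : C(Cb, X) → A) (σ : C(Cb, X)) :
    dl q v (σ.comp (fc N (wbk H))) = ∑ i ∈ (Finset.range N).filter (· ∉ H),
      ((-1 : ℤ) ^ cn H i) •
      (v (σ.comp (fc N (upd (wbk H) i true))) - v (σ.comp (fc N (upd (wbk H) i false)))) := by
  have h := sum_range_card ((Finset.range N).filter (· ∉ H))
    (fun l => v ((σ.comp (fc N (wbk H))).comp (ins l 1)) -
    v ((σ.comp (fc N (wbk H))).comp (ins l 0)))
  rw [hq] at h
  unfold dl
  rw [h]
  refine Finset.sum_congr rfl fun i hi => ?_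
  rw [Finset.mem_filter, Finset.mem_range] at hi
  have hw : wbk H i = none := if_neg hi.2
  rw [ContinuousMap.comp_assoc, ContinuousMap.comp_assoc, cb_compl hi.1.le, ← cf_wbk, ← bitI_true,
    ← bitI_false, fc_ins hi.1 true hw, fc_ins hi.1 false hw]

/-- Leibniz rule, for all cubes. -/
theorem dl_cup_all (β : A →+ A' →+ A'') (p q : ℕ) (u : C(Cb, X) → A) (v : C(Cb, X) → A')
    (σ : C(Cb, X)) :
    dl (p + q) (cup β p q u v) σ =
      cup β (p + 1) q (dl p u) v σ + (-1 : ℤ) ^ p • cup β p (q + 1) u (dl q v) σ := by
  set T : ℕ → (ℕ → Option Bool) → (ℕ → Option Bool) → A'' := fun m w w' =>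
    if m = p then β (u (σ.comp (fc (p + q + 1) w))) (v (σ.comp (fc (p + q + 1) w'))) else 0 with hT
  have hL : dl (p + q) (cup β p q u v) σ =
      ∑ i ∈ Finset.range (p + q + 1), ∑ H ∈ (Finset.range (p + q)).powerset,
      ((-1) ^ i * sgnS (p + q) H) • (T H.card (insW i true (wfr H)) (insW i true (wbk H)) -
        T H.card (insW i false (wfr H)) (insW i false (wbk H))) := by
    unfold dl
    refine Finset.sum_congr rfl fun i hi => ?_
    have hi' : i ≤ p + q := by
      rw [Finset.mem_range] at hi
      omega
    have hc : ∀ b, cup β p q u v (σ.comp (ins i (bitI b))) =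
        ∑ H ∈ (Finset.range (p + q)).powerset, sgnS (p + q) H •
          T H.card (insW i b (wfr H)) (insW i b (wbk H)) := by
      intro b
      unfold cup
      rw [Finset.powersetCard_eq_filter, Finset.sum_filter]
      refine Finset.sum_congr rfl fun H _ => ?_
      rw [hT]
      simp only
      split_ifs
      · rw [ContinuousMap.comp_assoc, ContinuousMap.comp_assoc, ins_fc hi', ins_fc hi']
      · rw [smul_zero]
    rw [← bitI_true, ← bitI_false, hc, hc, ← Finset.sum_sub_distrib, Finset.smul_sum]
    refine Finset.sum_congr rfl fun H _ => ?_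
    rw [← smul_sub, smul_smul]
  have hR1 : cup β (p + 1) q (dl p u) v σ = ∑ H ∈ (Finset.range (p + q + 1)).powerset,
      ∑ i ∈ H, tin (p + q) T H i := by
    unfold cup
    rw [Nat.add_right_comm p 1 q, Finset.powersetCard_eq_filter, Finset.sum_filter]
    refine Finset.sum_congr rfl fun H hH => ?_
    split_ifs with hc
    · rw [dl_wfr (Finset.mem_powerset.1 hH) hc, ← AddMonoidHom.flip_apply, map_sum,
        Finset.smul_sum]
      refine Finset.sum_congr rfl fun i _ => ?_
      unfold tin
      rw [map_zsmul, smul_smul, map_sub, AddMonoidHom.flip_apply, AddMonoidHom.flip_apply, hT]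
      simp only [hc, Nat.add_sub_cancel, if_true]
    · symm
      refine Finset.sum_eq_zero fun i hi => ?_
      have hpos : 0 < H.card := Finset.card_pos.2 ⟨i, hi⟩
      unfold tin
      rw [hT]
      simp only
      rw [if_neg (by omega), if_neg (by omega), sub_self, smul_zero]
  have hR2 : (-1 : ℤ) ^ p • cup β p (q + 1) u (dl q v) σ =
      ∑ H ∈ (Finset.range (p + q + 1)).powerset,
      ∑ i ∈ (Finset.range (p + q + 1)).filter (· ∉ H), tout (p + q) T H i := by
    unfold cup
    rw [← Nat.add_assoc, Finset.powersetCard_eq_filter, Finset.sum_filter, Finset.smul_sum]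
    refine Finset.sum_congr rfl fun H hH => ?_
    split_ifs with hc
    · have hq : ((Finset.range (p + q + 1)).filter (· ∉ H)).card = q + 1 := by
        have h1 := Finset.card_filter_add_card_filter_not (s := Finset.range (p + q + 1)) (· ∈ H)
        have h2 : (Finset.range (p + q + 1)).filter (· ∈ H) = H := by
          ext j
          rw [Finset.mem_filter]
          exact ⟨fun h => h.2, fun h => ⟨Finset.mem_powerset.1 hH h, h⟩⟩
        rw [h2, Finset.card_range, hc] at h1
        omega
      rw [dl_wbk hq, map_sum, Finset.smul_sum, Finset.smul_sum]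
      refine Finset.sum_congr rfl fun i _ => ?_
      unfold tout
      rw [map_zsmul, smul_smul, smul_smul, map_sub, hT]
      simp only [hc, if_true]
      congr 1
      ring
    · rw [smul_zero]
      symm
      refine Finset.sum_eq_zero fun i hi => ?_
      unfold tout
      rw [hT]
      simp only
      rw [if_neg hc, if_neg hc, sub_self, smul_zero]
  rw [hL, Comb.star, Finset.sum_add_distrib, hR1, hR2]

end Pool.Agent.TC
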