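import Pool.Agent.Lib.TC.CC1
import Pool.Agent.Lib.TC.CC24
import Pool.Agent.Lib.TC.CC5
import Pool.Agent.Lib.TC.CC6
import Pool.Agent.Lib.TC.CC7
import Pool.Agent.Lib.TC.CupGeo

/-!
# Section 7.1: cochains on singular cubes, cup product
-/

namespace Pool.Agent.TC

open CubeHom

variable {X Y : Type*} [TopologicalSpace X] [TopologicalSpace Y] {A A' A'' : Type*}
  [AddCommGroup A] [AddCommGroup A'] [AddCommGroup A'']

theorem cup_pb (β : A →+ A' →+ A'') (p q : ℕ) (f : C(X, Y)) (u : C(Cb, Y) → A)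
    (v : C(Cb, Y) → A') : cup β p q (pb f u) (pb f v) = pb f (cup β p q u v) := rfl

/-- Leibniz rule. -/
theorem dl_cup (β : A →+ A' →+ A'') (p q : ℕ) (u : C(Cb, X) → A) (v : C(Cb, X) → A')
    {σ : C(Cb, X)} (_hσ : IsCube ((p + q + 1 : ℕ) : ℤ) σ) :
    dl (p + q) (cup β p q u v) σ =
      cup β (p + 1) q (dl p u) v σ + (-1 : ℤ) ^ p • cup β p (q + 1) u (dl q v) σ :=
  dl_cup_all β p q u v σ

end Pool.Agent.TC
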