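import Pool.Agent.Lib.MP_cb6a70_gt_HB.Calc
import Pool.Agent.Lib.MP_cb6a70_gt_HB.BdCalc
import Pool.Agent.Lib.MP_cb6a70_gt_HB.DegEmb

/-!
# Section 7.1: cochains on singular cubes, cup product

A cochain of degree `k` is a function on cubes `C(Cb, X) → A`; only its values on `k`-cubes matter.
The pairing with chains is `Finsupp.linearCombination R u`.
-/

namespace Pool.Agent.TC

open CubeHom

/-- `0` or `1`. -/
def bitI (b : Bool) : I := if b then 1 else 0

/-- The face map `Cb → Cb` given by a word: the coordinate `j < n` is free if `w j = none` and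
fixed to `bitI b` if `w j = some b`. -/
def fc (n : ℕ) (w : ℕ → Option Bool) : C(Cb, Cb) where
  toFun u := fun j =>
    if j < n then
      match w j with
      | none => u ((Finset.range j).filter (fun i => w i = none)).card
      | some b => bitI b
    else u (j - ((Finset.range n).filter (fun i => w i ≠ none)).card)
  continuous_toFun := by
    refine continuous_pi fun j => ?_
    by_cases h : j < n
    · simp only [h, if_true]
      cases w j with
      | none => exact continuous_apply _
      | some b => exact continuous_const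
    · simp only [h, if_false]
      exact continuous_apply _

section basic

variable {X Y : Type*} [TopologicalSpace X] [TopologicalSpace Y] {A A' A'' : Type*}
  [AddCommGroup A] [AddCommGroup A'] [AddCommGroup A'']

/-- The coboundary of a cochain of degree `k`. -/
def dl (k : ℕ) (u : C(Cb, X) → A) : C(Cb, X) → A := fun σ =>
  ∑ i ∈ Finset.range (k + 1), ((-1 : ℤ) ^ i) • (u (σ.comp (ins i 1)) - u (σ.comp (ins i 0)))

/-- Pull back of a cochain along a map. -/
def pb (f : C(X, Y)) (u : C(Cb, Y) → A) : C(Cb, X) → A := fun σ => u (f.comp σ)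

/-- The sign of the shuffle which moves the coordinates in `H` before the others. -/
def sgnS (n : ℕ) (H : Finset ℕ) : ℤ :=
  (-1) ^ ((Finset.range n ×ˢ Finset.range n).filter
    (fun q => q.1 ∉ H ∧ q.2 ∈ H ∧ q.1 < q.2)).card

/-- Front face: keep the coordinates in `H`, the others are `0`. -/
def wfr (H : Finset ℕ) : ℕ → Option Bool := fun j => if j ∈ H then none else some false

/-- Back face: the coordinates in `H` are `1`, keep the others. -/
def wbk (H : Finset ℕ) : ℕ → Option Bool := fun j => if j ∈ H then some true else none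

/-- The cup product of cochains of degrees `p` and `q`, with respect to the pairing `β`. -/
def cup (β : A →+ A' →+ A'') (p q : ℕ) (u : C(Cb, X) → A) (v : C(Cb, X) → A') :
    C(Cb, X) → A'' := fun σ =>
  ∑ H ∈ (Finset.range (p + q)).powersetCard p,
    sgnS (p + q) H • β (u (σ.comp (fc (p + q) (wfr H)))) (v (σ.comp (fc (p + q) (wbk H))))

/-- A set `ok` of cubes of `X` and a set `nul` of cubes considered as zero, both closed under
precomposition with maps of the cube. -/
structure CS (X : Type*) [TopologicalSpace X] where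
  ok : C(Cb, X) → Prop
  nul : C(Cb, X) → Prop
  ok_comp : ∀ (σ : C(Cb, X)) (f : C(Cb, Cb)), ok σ → ok (σ.comp f)
  nul_comp : ∀ (σ : C(Cb, X)) (f : C(Cb, Cb)), nul σ → nul (σ.comp f)

/-- All cubes, nothing is zero. -/
def CS.top (X : Type*) [TopologicalSpace X] : CS X :=
  ⟨fun _ => True, fun _ => False, fun _ _ _ => trivial, fun _ _ h => h⟩

/-- Cubes inside one of the sets of `𝒱`; cubes inside one of the sets of `𝒜` are zero. -/
def CS.mk' (𝒱 𝒜 : Set (Set X)) : CS X :=
  ⟨fun σ => ∃ V ∈ 𝒱, ∀ u, σ u ∈ V, fun σ => ∃ V ∈ 𝒜, ∀ u, σ u ∈ V,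
    fun _ f ⟨V, hV, h⟩ => ⟨V, hV, fun u => h (f u)⟩,
    fun _ f ⟨V, hV, h⟩ => ⟨V, hV, fun u => h (f u)⟩⟩

/-- The product system: `ok` in both components, zero in one of them. -/
def CS.prod (S : CS X) (T : CS Y) : CS (X × Y) :=
  ⟨fun ω => S.ok (ContinuousMap.fst.comp ω) ∧ T.ok (ContinuousMap.snd.comp ω),
    fun ω => S.nul (ContinuousMap.fst.comp ω) ∨ T.nul (ContinuousMap.snd.comp ω),
    fun _ f h => ⟨S.ok_comp _ f h.1, T.ok_comp _ f h.2⟩,
    fun _ f h => h.imp (S.nul_comp _ f) (T.nul_comp _ f)⟩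

/-- The chains of the system. -/
noncomputable def CS.C (S : CS X) (R : Type*) [CommRing R] (k : ℤ) : Submodule R (Ch R X) :=
  Finsupp.supported R R {σ | IsCube k σ ∧ S.ok σ}

/-- The zero chains of the system. -/
noncomputable def CS.Q (S : CS X) (R : Type*) [CommRing R] (k : ℤ) : Submodule R (Ch R X) :=
  Finsupp.supported R R {σ | IsCube k σ ∧ S.ok σ ∧ (S.nul σ ∨ Degen k σ)}

/-- The cycles of the system. -/
noncomputable def CS.Z (S : CS X) (R : Type*) [CommRing R] (k : ℤ) : Submodule R (Ch R X) :=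
  S.C R k ⊓ (S.Q R (k - 1)).comap (bd k)

/-- Homologous to zero in the system. -/
def CS.Bd (S : CS X) (R : Type*) [CommRing R] (k : ℤ) (c : Ch R X) : Prop :=
  ∃ b ∈ S.C R (k + 1), c - bd (k + 1) b ∈ S.Q R k

/-- Normalised relative cochains of degree `k`. -/
def CS.Rel (S : CS X) (k : ℕ) (u : C(Cb, X) → A) : Prop :=
  ∀ σ, IsCube (k : ℤ) σ → S.ok σ → (S.nul σ ∨ Degen (k : ℤ) σ) → u σ = 0

/-- Cocycles. -/
def CS.Coc (S : CS X) (k : ℕ) (u : C(Cb, X) → A) : Prop :=
  S.Rel k u ∧ ∀ σ, IsCube ((k + 1 : ℕ) : ℤ) σ → S.ok σ → dl k u σ = 0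

/-- `u` (of degree `k + 1`) is the coboundary of a relative cochain. -/
def CS.Cob (S : CS X) (k : ℕ) (u : C(Cb, X) → A) : Prop :=
  ∃ v : C(Cb, X) → A, S.Rel k v ∧ ∀ σ, IsCube ((k + 1 : ℕ) : ℤ) σ → S.ok σ → u σ = dl k v σ

end basic

section statements

variable {X Y : Type*} [TopologicalSpace X] [TopologicalSpace Y] {A A' A'' : Type*}
  [AddCommGroup A] [AddCommGroup A'] [AddCommGroup A''] {R : Type*} [CommRing R]

/-- `u` is on product cubes the product of `a` (degree `i`) and `b` (degree `j`). -/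
def Bi (R : Type*) [CommRing R] {X Y : Type*} [TopologicalSpace X] [TopologicalSpace Y] (i j : ℕ)
    (a : C(Cb, X) → R) (b : C(Cb, Y) → R) (u : C(Cb, X × Y) → R) : Prop :=
  ∀ (m l : ℕ) (τ : C(Cb, X)) (σ : C(Cb, Y)), m + l = i + j → IsCube (m : ℤ) τ →
    IsCube (l : ℤ) σ → u (crossCube m τ σ) = if m = i then a τ * b σ else 0

end statements

end Pool.Agent.TC
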