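import Pool.Agent.Lib.TC.CollB
import Pool.Agent.Lib.MP_cb6a70_gt_HB.Hurewicz
import Pool.Agent.Lib.MP_cb6a70_gt_HB.Ane
import Pool.Agent.Lib.MP_cb6a70_gt_HB.FillPi
import Pool.Agent.Lib.MP_cb6a70_gt_HB.SphereSC

/-!
# Section 12.2, 12.3: manifolds minus a ball
-/

namespace Pool.Agent.TC

open Metric Set CubeHom
open scoped unitInterval ContinuousMap

variable {d : ℕ} {X : Type} [TopologicalSpace X] [T2Space X]

namespace CollAAux

theorem interior {d : ℕ} {X : Type} [TopologicalSpace X] (hX : LocEuc d X) {O M : Set X}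
    (hO : IsOpen O) (hOM : O ⊆ M) (x : X) (hx : x ∈ O) :
    ∃ S : Set M, IsOpen S ∧ (⟨x, hOM hx⟩ : M) ∈ S ∧ Nonempty (S ≃ₜ (Fin d → ℝ)) := by
  obtain ⟨T, hT, hxT, ⟨φ⟩⟩ := hX x
  let j : (Fin d → ℝ) → X := fun v => φ.symm v
  have hj : Topology.IsOpenEmbedding j :=
    hT.isOpenEmbedding_subtypeVal.comp φ.symm.isOpenEmbedding
  set v₀ : Fin d → ℝ := φ ⟨x, hxT⟩ with hv₀
  have hj0 : j v₀ = x := by simp [j, hv₀]
  obtain ⟨r, hr, hrO⟩ := Metric.isOpen_iff.1 (hO.preimage hj.continuous) v₀ (by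
    rw [mem_preimage, hj0]; exact hx)
  let b := (OpenPartialHomeomorph.univBall v₀ r : OpenPartialHomeomorph (Fin d → ℝ)
    (Fin d → ℝ))
  have hb : Topology.IsOpenEmbedding b :=
    b.isOpenEmbedding (OpenPartialHomeomorph.univBall_source _ _)
  have hbr : ∀ v, b v ∈ ball v₀ r := by
    intro v
    have : b v ∈ b.target := b.map_source (by
      rw [OpenPartialHomeomorph.univBall_source]; trivial)
    rwa [OpenPartialHomeomorph.univBall_target _ hr] at this
  let f : (Fin d → ℝ) → X := fun v => j (b v)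
  have hf : Topology.IsOpenEmbedding f := hj.comp hb
  have hfU : ∀ v, f v ∈ O := fun v => hrO (hbr v)
  have hf0 : f 0 = x := by
    show j (b 0) = x
    rw [show b 0 = v₀ from OpenPartialHomeomorph.univBall_apply_zero _ _, hj0]
  let e := hf.isEmbedding.toHomeomorph
  refine ⟨{y | (y : X) ∈ range f}, hf.isOpen_range.preimage continuous_subtype_val, ⟨0, hf0⟩,
    ⟨{
      toFun := fun y => e.symm ⟨y.1.1, y.2⟩
      invFun := fun v => ⟨⟨f v, hOM (hfU v)⟩, ⟨v, rfl⟩⟩
      left_inv := ?_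
      right_inv := ?_
      continuous_toFun := ?_
      continuous_invFun := ?_ }⟩⟩
  · rintro ⟨⟨y, hy⟩, hyv⟩
    refine Subtype.ext (Subtype.ext ?_)
    have h1 : (e (e.symm ⟨y, hyv⟩) : X) = y := by rw [e.apply_symm_apply]
    exact h1
  · intro v
    exact hf.isEmbedding.toHomeomorph_symm_apply v
  · exact e.symm.continuous.comp
      ((continuous_subtype_val.comp continuous_subtype_val).subtype_mk _)
  · exact (hf.continuous.subtype_mk _).subtype_mk _

/-- A half space is a product. -/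
theorem half_prod (k : ℕ) : Nonempty (({a : ℝ // 0 ≤ a} × (Fin k → ℝ)) ≃ₜ Half k) := by
  refine ⟨{
    toFun := fun z => ⟨(Fin.cons z.1.1 z.2 : Fin (k + 1) → ℝ), z.1.2⟩
    invFun := fun a => (⟨a.1 0, a.2⟩, fun i => a.1 i.succ)
    left_inv := ?_
    right_inv := ?_
    continuous_toFun := ?_
    continuous_invFun := ?_ }⟩
  · intro z
    rfl
  · intro a
    refine Subtype.ext (funext fun i => ?_)
    refine Fin.cases ?_ (fun i => ?_) i
    · rfl
    · rfl
  · refine Continuous.subtype_mk (continuous_pi fun i => ?_) _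
    refine Fin.cases ?_ (fun i => ?_) i
    · exact continuous_subtype_val.comp continuous_fst
    · exact (continuous_apply i).comp continuous_snd
  · refine Continuous.prodMk (Continuous.subtype_mk ?_ _) (continuous_pi fun i => ?_)
    · exact (continuous_apply 0).comp continuous_subtype_val
    · exact (continuous_apply i.succ).comp continuous_subtype_val

/-- Polar coordinates outside the unit ball, away from the ray through `-v`. -/
theorem polar0 {k : ℕ} (v : sphere (0 : EuclideanSpace ℝ (Fin (k + 1))) 1) :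
    Nonempty ({w : EuclideanSpace ℝ (Fin (k + 1)) //
      w + ‖w‖ • (v : EuclideanSpace ℝ (Fin (k + 1))) ≠ 0 ∧ 1 ≤ ‖w‖} ≃ₜ
      ({a : ℝ // 0 ≤ a} ×
        ({-v}ᶜ : Set (sphere (0 : EuclideanSpace ℝ (Fin (k + 1))) 1)))) := by
  have hpos : ∀ w : {w : EuclideanSpace ℝ (Fin (k + 1)) //
      w + ‖w‖ • (v : EuclideanSpace ℝ (Fin (k + 1))) ≠ 0 ∧ 1 ≤ ‖w‖}, 0 < ‖w.1‖ :=
    fun w => lt_of_lt_of_le one_pos w.2.2
  have hn : ∀ w : {w : EuclideanSpace ℝ (Fin (k + 1)) //
      w + ‖w‖ • (v : EuclideanSpace ℝ (Fin (k + 1))) ≠ 0 ∧ 1 ≤ ‖w‖},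
      ‖w.1‖⁻¹ • w.1 ∈ sphere (0 : EuclideanSpace ℝ (Fin (k + 1))) 1 := by
    intro w
    rw [mem_sphere_zero_iff_norm, norm_smul, norm_inv, norm_norm, inv_mul_cancel₀ (hpos w).ne']
  have hne : ∀ w : {w : EuclideanSpace ℝ (Fin (k + 1)) //
      w + ‖w‖ • (v : EuclideanSpace ℝ (Fin (k + 1))) ≠ 0 ∧ 1 ≤ ‖w‖},
      (⟨‖w.1‖⁻¹ • w.1, hn w⟩ : sphere (0 : EuclideanSpace ℝ (Fin (k + 1))) 1) ∈
        ({-v}ᶜ : Set (sphere (0 : EuclideanSpace ℝ (Fin (k + 1))) 1)) := by
    intro w h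
    have h1 : ‖w.1‖⁻¹ • w.1 = -(v : EuclideanSpace ℝ (Fin (k + 1))) := congrArg Subtype.val h
    apply w.2.1
    have h2 : w.1 = ‖w.1‖ • (‖w.1‖⁻¹ • w.1) := by
      rw [smul_smul, mul_inv_cancel₀ (hpos w).ne', one_smul]
    have h3 : w.1 + ‖w.1‖ • (v : EuclideanSpace ℝ (Fin (k + 1))) =
        ‖w.1‖ • (‖w.1‖⁻¹ • w.1) + ‖w.1‖ • (v : EuclideanSpace ℝ (Fin (k + 1))) := by
      rw [← h2]
    rw [h3, h1, ← smul_add, neg_add_cancel, smul_zero]
  have hr : ∀ a : {a : ℝ // 0 ≤ a}, 0 < 1 + a.1 := fun a => by have := a.2; linarith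
  have hnorm : ∀ (a : {a : ℝ // 0 ≤ a}) (u : sphere (0 : EuclideanSpace ℝ (Fin (k + 1))) 1),
      ‖(1 + a.1) • (u : EuclideanSpace ℝ (Fin (k + 1)))‖ = 1 + a.1 := by
    intro a u
    rw [norm_smul, norm_eq_of_mem_sphere, mul_one, Real.norm_eq_abs, abs_of_pos (hr a)]
  refine ⟨{
    toFun := fun w => (⟨‖w.1‖ - 1, sub_nonneg.2 w.2.2⟩, ⟨⟨‖w.1‖⁻¹ • w.1, hn w⟩, hne w⟩)
    invFun := fun z => ⟨(1 + z.1.1) • (z.2.1 : EuclideanSpace ℝ (Fin (k + 1))), by
        constructor
        · rw [hnorm, ← smul_add]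
          refine smul_ne_zero (hr z.1).ne' fun h => z.2.2 ?_
          exact Subtype.ext (eq_neg_of_add_eq_zero_left h)
        · rw [hnorm]
          have := z.1.2
          linarith⟩
    left_inv := ?_
    right_inv := ?_
    continuous_toFun := ?_
    continuous_invFun := ?_ }⟩
  · intro w
    refine Subtype.ext ?_
    change (1 + (‖w.1‖ - 1)) • (‖w.1‖⁻¹ • w.1) = w.1
    rw [add_sub_cancel, smul_smul, mul_inv_cancel₀ (hpos w).ne', one_smul]
  · rintro ⟨a, u⟩
    refine Prod.ext (Subtype.ext ?_) (Subtype.ext (Subtype.ext ?_))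
    · change ‖(1 + a.1) • (u.1 : EuclideanSpace ℝ (Fin (k + 1)))‖ - 1 = a.1
      rw [hnorm, add_sub_cancel_left]
    · change ‖(1 + a.1) • (u.1 : EuclideanSpace ℝ (Fin (k + 1)))‖⁻¹ •
        ((1 + a.1) • (u.1 : EuclideanSpace ℝ (Fin (k + 1)))) = u.1
      rw [hnorm, smul_smul, inv_mul_cancel₀ (hr a).ne', one_smul]
  · refine Continuous.prodMk (Continuous.subtype_mk ?_ _)
      (Continuous.subtype_mk (Continuous.subtype_mk ?_ _) _)
    · exact continuous_subtype_val.norm.sub continuous_const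
    · exact (continuous_subtype_val.norm.inv₀ fun w => (hpos w).ne').smul continuous_subtype_val
  · refine Continuous.subtype_mk ?_ _
    exact (continuous_const.add (continuous_subtype_val.comp continuous_fst)).smul
      (continuous_subtype_val.comp (continuous_subtype_val.comp continuous_snd))

/-- Polar coordinates outside the unit ball, away from the ray through `-v`. -/
theorem polar {k : ℕ} (v : sphere (0 : EuclideanSpace ℝ (Fin (k + 1))) 1) :
    Nonempty ({w : EuclideanSpace ℝ (Fin (k + 1)) //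
      w + ‖w‖ • (v : EuclideanSpace ℝ (Fin (k + 1))) ≠ 0 ∧ 1 ≤ ‖w‖} ≃ₜ Half k) := by
  obtain ⟨h1⟩ := polar0 v
  obtain ⟨h2⟩ := half_prod k
  exact ⟨(h1.trans ((Homeomorph.refl _).prodCongr (sphereChart (-v)))).trans h2⟩

end CollAAux

namespace CollDAux

/-- The vector with first coordinate `c`. -/
noncomputable def vec {d : ℕ} (c : ℝ) (y : EuclideanSpace ℝ (Fin d)) :
    EuclideanSpace ℝ (Fin (d + 1)) := WithLp.toLp 2 (Fin.cons c (WithLp.ofLp y))

variable {d : ℕ}

theorem vec_zero (c : ℝ) (y : EuclideanSpace ℝ (Fin d)) : vec c y 0 = c := rfl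

theorem vec_succ (c : ℝ) (y : EuclideanSpace ℝ (Fin d)) (i : Fin d) : vec c y i.succ = y i := rfl

theorem norm_vec_sq (c : ℝ) (y : EuclideanSpace ℝ (Fin d)) :
    ‖vec c y‖ ^ 2 = c ^ 2 + ‖y‖ ^ 2 := by
  rw [EuclideanSpace.norm_sq_eq, EuclideanSpace.norm_sq_eq, Fin.sum_univ_succ]
  simp [vec_zero, vec_succ]

theorem vec_inj {c c' : ℝ} {y y' : EuclideanSpace ℝ (Fin d)} (h : vec c y = vec c' y') :
    c = c' ∧ y = y' := by
  constructor
  · have := congrArg (fun z : EuclideanSpace ℝ (Fin (d + 1)) => z 0) h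
    exact this
  · ext i
    have := congrArg (fun z : EuclideanSpace ℝ (Fin (d + 1)) => z i.succ) h
    exact this

theorem continuous_vec {T : Type*} [TopologicalSpace T] {c : T → ℝ}
    {y : T → EuclideanSpace ℝ (Fin d)} (hc : Continuous c) (hy : Continuous y) :
    Continuous fun t => vec (c t) (y t) := by
  unfold vec
  refine (PiLp.continuous_toLp 2 _).comp (continuous_pi fun i => ?_)
  refine Fin.cases ?_ (fun i => ?_) i
  · simpa using hc
  · simp only [Fin.cons_succ]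
    fun_prop

theorem smul_vec (a c : ℝ) (y : EuclideanSpace ℝ (Fin d)) : a • vec c y = vec (a * c) (a • y) := by
  ext i
  refine Fin.cases ?_ (fun i => ?_) i
  · rfl
  · rfl

/-- The denominator. -/
noncomputable def den (ρ : ℝ) : ℝ := ρ ^ 2 + (1 - ρ) ^ 2

theorem den_pos (ρ : ℝ) : 0 < den ρ := by
  unfold den
  nlinarith [sq_nonneg (ρ - (1 - ρ)), sq_nonneg ρ, sq_nonneg (1 - ρ)]

/-- The collapse of the boundary of the unit ball. -/
noncomputable def P0 (v : EuclideanSpace ℝ (Fin d)) : EuclideanSpace ℝ (Fin (d + 1)) :=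
  vec ((2 * ‖v‖ - 1) / den ‖v‖) ((2 * (1 - ‖v‖) / den ‖v‖) • v)

theorem norm_P0 (v : EuclideanSpace ℝ (Fin d)) : ‖P0 v‖ = 1 := by
  have h : ‖P0 v‖ ^ 2 = 1 := by
    unfold P0
    rw [norm_vec_sq, norm_smul, Real.norm_eq_abs, mul_pow, sq_abs]
    have := (den_pos ‖v‖).ne'
    field_simp
    unfold den
    ring
  have h1 := norm_nonneg (P0 v)
  nlinarith

/-- The collapse. -/
noncomputable def P (v : EuclideanSpace ℝ (Fin d)) : Sph d := ⟨P0 v, by simp [norm_P0]⟩

theorem continuous_P : Continuous (P : EuclideanSpace ℝ (Fin d) → Sph d) := by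
  refine Continuous.subtype_mk ?_ _
  have hden : Continuous fun v : EuclideanSpace ℝ (Fin d) => den ‖v‖ := by
    unfold den
    fun_prop
  refine continuous_vec ?_ ?_
  · exact Continuous.div (by fun_prop) hden fun v => (den_pos _).ne'
  · exact (Continuous.div (by fun_prop) hden fun v => (den_pos _).ne').smul continuous_id

/-- The north pole. -/
noncomputable def N : Sph d := ⟨vec 1 0, by
  have h : ‖(vec 1 0 : EuclideanSpace ℝ (Fin (d + 1)))‖ ^ 2 = 1 := by
    rw [norm_vec_sq]; simp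
  have h1 := norm_nonneg (vec 1 0 : EuclideanSpace ℝ (Fin (d + 1)))
  rw [mem_sphere_zero_iff_norm]
  nlinarith⟩

theorem P_of_norm {v : EuclideanSpace ℝ (Fin d)} (hv : ‖v‖ = 1) : P v = N := by
  refine Subtype.ext ?_
  change P0 v = vec 1 0
  unfold P0 den
  rw [hv]
  norm_num

theorem P_inj {v w : EuclideanSpace ℝ (Fin d)} (hv : ‖v‖ ≤ 1) (hw : ‖w‖ ≤ 1) (h : P v = P w) :
    v = w ∨ (‖v‖ = 1 ∧ ‖w‖ = 1) := by
  have h0 : P0 v = P0 w := congrArg Subtype.val h
  obtain ⟨h1, h2⟩ := vec_inj h0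
  have hdv := (den_pos ‖v‖).ne'
  have hdw := (den_pos ‖w‖).ne'
  rw [div_eq_div_iff hdv hdw] at h1
  have h3 : (‖v‖ - ‖w‖) * (1 - (2 * ‖v‖ - 1) * (2 * ‖w‖ - 1)) = 0 := by
    unfold den at h1
    linarith [h1]
  have hv0 := norm_nonneg v
  have hw0 := norm_nonneg w
  have h4 : ‖v‖ = ‖w‖ := by
    rcases mul_eq_zero.1 h3 with h | h
    · linarith
    · -- product of two numbers in [-1, 1] equal to one
      have h5 : (2 * ‖v‖ - 1) * (2 * ‖w‖ - 1) = 1 := by linarith
      nlinarith [sq_nonneg ((2 * ‖v‖ - 1) - (2 * ‖w‖ - 1))]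
  by_cases h5 : ‖v‖ = 1
  · exact Or.inr ⟨h5, by rw [← h4]; exact h5⟩
  · left
    rw [← h4] at h2
    have h6 : 2 * (1 - ‖v‖) / den ‖v‖ ≠ 0 := by
      refine div_ne_zero ?_ hdv
      intro h7
      apply h5
      linarith
    exact smul_right_injective _ h6 h2

theorem P_surj (z : Sph d) : z = N ∨ ∃ v : EuclideanSpace ℝ (Fin d), ‖v‖ ≤ 1 ∧ P v = z := by
  obtain ⟨z, hz⟩ := z
  rw [mem_sphere_zero_iff_norm] at hz
  set c : ℝ := z 0 with hc
  set y : EuclideanSpace ℝ (Fin d) := WithLp.toLp 2 (fun i => z i.succ) with hy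
  have hzv : z = vec c y := by
    ext i
    refine Fin.cases ?_ (fun i => ?_) i
    · rfl
    · rfl
  have hn : c ^ 2 + ‖y‖ ^ 2 = 1 := by
    rw [← norm_vec_sq, ← hzv, hz]; norm_num
  have hy0 := norm_nonneg y
  by_cases h1 : c = 1
  · left
    have h2 : y = 0 := by
      rw [h1] at hn
      have : ‖y‖ ^ 2 = 0 := by linarith
      exact norm_eq_zero.1 (pow_eq_zero_iff (two_ne_zero) |>.1 this)
    refine Subtype.ext ?_
    change z = vec 1 0
    rw [hzv, h1, h2]
  · right
    have hc1 : c < 1 := lt_of_le_of_ne (by nlinarith) h1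
    have hcm : -1 ≤ c := by nlinarith
    have hpos : 0 < 1 + ‖y‖ - c := by linarith
    have hy1 : 0 < 1 + ‖y‖ := by linarith
    have hnorm : ‖(1 + ‖y‖ - c)⁻¹ • y‖ = (1 + ‖y‖ + c) / (2 * (1 + ‖y‖)) := by
      rw [norm_smul, Real.norm_eq_abs, abs_of_pos (inv_pos.2 hpos)]
      rw [inv_mul_eq_div, div_eq_div_iff hpos.ne' (by positivity)]
      nlinarith
    refine ⟨(1 + ‖y‖ - c)⁻¹ • y, ?_, ?_⟩
    · rw [hnorm, div_le_one (by positivity)]
      nlinarith
    · refine Subtype.ext ?_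
      change P0 ((1 + ‖y‖ - c)⁻¹ • y) = z
      unfold P0
      rw [hnorm, hzv]
      have hden : den ((1 + ‖y‖ + c) / (2 * (1 + ‖y‖))) = (1 + ‖y‖)⁻¹ := by
        unfold den
        field_simp
        nlinarith
      rw [hden]
      congr 1
      · field_simp
        ring
      · rw [smul_smul]
        have : 2 * (1 - (1 + ‖y‖ + c) / (2 * (1 + ‖y‖))) / (1 + ‖y‖)⁻¹ * (1 + ‖y‖ - c)⁻¹ = 1 := by
          have h3 := hpos.ne'
          field_simp
          ring
        rw [this, one_smul]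

/-- A continuous surjection from a compact space to a Hausdorff space is a quotient map. -/
theorem quot_of {A B : Type*} [TopologicalSpace A] [TopologicalSpace B] [CompactSpace A]
    [T2Space B] {f : A → B} (hf : Continuous f) (hs : Function.Surjective f) :
    Topology.IsQuotientMap f :=
  hf.isClosedMap.isQuotientMap hf hs

/-- Lifting of maps. -/
theorem exists_lift {A B C : Type*} [TopologicalSpace A] [TopologicalSpace B]
    [TopologicalSpace C] [CompactSpace A] [T2Space B] {f : A → B} (hf : Continuous f)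
    (hs : Function.Surjective f) {g : A → C} (hg : Continuous g)
    (h : ∀ a b, f a = f b → g a = g b) : ∃ k : C(B, C), ∀ a, k (f a) = g a := by
  let F : C(A, B) := ⟨f, hf⟩
  let Gm : C(A, C) := ⟨g, hg⟩
  have hq : Topology.IsQuotientMap F := quot_of hf hs
  refine ⟨hq.lift Gm fun a b hab => h a b hab, fun a => ?_⟩
  exact DFunLike.congr_fun (hq.lift_comp Gm fun a b hab => h a b hab) a

end CollDAux

open CollAAux in
theorem locHalf_co (hX : LocEuc d X) (φ : EuclideanSpace ℝ (Fin d) → X)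
    (hφ : Topology.IsOpenEmbedding φ) (hd : 1 ≤ d) : LocHalf (Co φ) := by
  obtain ⟨k, rfl⟩ : ∃ k, d = k + 1 := ⟨d - 1, by omega⟩
  have hmem : ∀ w : EuclideanSpace ℝ (Fin (k + 1)), φ w ∈ Co φ ↔ 1 ≤ ‖w‖ := by
    intro w
    rw [mem_compl_iff, hφ.injective.mem_set_image, mem_ball_zero_iff, not_lt]
  rintro ⟨x, hx⟩
  by_cases hxc : x ∈ φ '' closedBall 0 1
  · obtain ⟨v, hv, rfl⟩ := hxc
    have hv1 : ‖v‖ = 1 := le_antisymm (mem_closedBall_zero_iff.1 hv) ((hmem v).1 hx)
    let v' : sphere (0 : EuclideanSpace ℝ (Fin (k + 1))) 1 := ⟨v, by simp [hv1]⟩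
    obtain ⟨h1⟩ := polar v'
    let W : Set (EuclideanSpace ℝ (Fin (k + 1))) := {w | w + ‖w‖ • v ≠ 0}
    have hW : IsOpen W := isOpen_ne_fun (by fun_prop) continuous_const
    let e := hφ.isEmbedding.toHomeomorph
    have he : ∀ w, e.symm ⟨φ w, w, rfl⟩ = w := fun w => hφ.isEmbedding.toHomeomorph_symm_apply w
    have he' : ∀ (y : X) (hy : y ∈ range φ), φ (e.symm ⟨y, hy⟩) = y := by
      intro y hy
      obtain ⟨w, rfl⟩ := hy
      rw [he]
    have hsub : ∀ y ∈ φ '' W, y ∈ range φ := by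
      rintro _ ⟨w, _, rfl⟩
      exact ⟨w, rfl⟩
    refine ⟨{y | (y : X) ∈ φ '' W}, (hφ.isOpenMap _ hW).preimage continuous_subtype_val,
      ⟨v, ?_, rfl⟩, k, Or.inr ⟨Homeomorph.trans {
        toFun := fun y => ⟨e.symm ⟨y.1.1, hsub _ y.2⟩, by
          obtain ⟨⟨y, hy⟩, w, hw, hwy⟩ := y
          have hwy' : φ w = y := hwy
          subst hwy'
          rw [he]
          exact ⟨hw, (hmem w).1 hy⟩⟩
        invFun := fun w => ⟨⟨φ w.1, (hmem _).2 w.2.2⟩, ⟨w.1, w.2.1, rfl⟩⟩
        left_inv := ?_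
        right_inv := ?_
        continuous_toFun := ?_
        continuous_invFun := ?_ } h1⟩⟩
    · change v + ‖v‖ • v ≠ 0
      rw [hv1, one_smul]
      intro h2
      have h3 : (2 : ℝ) • v = 0 := by rw [two_smul]; exact h2
      have h4 : v = 0 := (smul_eq_zero.1 h3).resolve_left two_ne_zero
      rw [h4, norm_zero] at hv1
      exact zero_ne_one hv1
    · rintro ⟨⟨y, hy⟩, hyw⟩
      exact Subtype.ext (Subtype.ext (he' y (hsub _ hyw)))
    · intro w
      exact Subtype.ext (he w.1)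
    · exact Continuous.subtype_mk (e.symm.continuous.comp
        ((continuous_subtype_val.comp continuous_subtype_val).subtype_mk _)) _
    · exact ((hφ.continuous.comp continuous_subtype_val).subtype_mk _).subtype_mk _
  · have hO : IsOpen (φ '' closedBall 0 1)ᶜ :=
      ((isCompact_closedBall _ _).image hφ.continuous).isClosed.isOpen_compl
    obtain ⟨S, hS, hxS, hS'⟩ := interior hX hO (M := Co φ)
      (compl_subset_compl.2 (image_mono ball_subset_closedBall)) x hxc
    exact ⟨S, hS, hxS, k + 1, Or.inl hS'⟩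

theorem contractible_co (hd : 1 ≤ d) [CompactSpace X] (hX : LocEuc d X)
    (φ : EuclideanSpace ℝ (Fin d) → X) (hφ : Topology.IsOpenEmbedding φ) {N : ℕ}
    (e : X → (Fin N → ℝ)) (he : Topology.IsEmbedding e) [SimplyConnectedSpace (Co φ)]
    (hH : ∀ k : ℤ, 1 ≤ k → ∀ c ∈ Z ℤ k (Set.univ : Set (Co φ)) ∅, Bd ℤ k Set.univ ∅ c) :
    ContractibleSpace (Co φ) := by
  have hMcl : IsClosed (Co φ) := (hφ.isOpenMap _ isOpen_ball).isClosed_compl
  have : CompactSpace (Co φ) := isCompact_iff_compactSpace.1 hMcl.isCompact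
  have : Nonempty (Co φ) := PathConnectedSpace.nonempty
  exact contractible_of_fills (fun x => e x.1) (he.comp Topology.IsEmbedding.subtypeVal)
    (locHalf_co hX φ hφ hd) fun m => fills_of_acyclic hH m

open CollDAux in
/-- 12.3: if the complement of a coordinate ball is contractible then the space is homotopy
equivalent to a sphere (explicit collar argument). -/
theorem sphere_of_contractible_co (hd : 1 ≤ d) [CompactSpace X]
    (φ : EuclideanSpace ℝ (Fin d) → X) (hφ : Topology.IsOpenEmbedding φ)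
    (hM : ContractibleSpace (Co φ)) : Nonempty (X ≃ₕ Sph d) := by
  classical
  -- the contraction
  have hMcl : IsClosed (Co φ) := (hφ.isOpenMap _ isOpen_ball).isClosed_compl
  have : CompactSpace (Co φ) := isCompact_iff_compactSpace.1 hMcl.isCompact
  obtain ⟨m₀, ⟨h⟩⟩ := id_nullhomotopic (Co φ)
  have h0 : ∀ m, h (0, m) = m := fun m => h.apply_zero m
  have h1 : ∀ m, h (1, m) = m₀ := fun m => h.apply_one m
  have hmem : ∀ v : EuclideanSpace ℝ (Fin d), φ v ∈ Co φ ↔ 1 ≤ ‖v‖ := by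
    intro v
    rw [mem_compl_iff, hφ.injective.mem_set_image, mem_ball_zero_iff, not_lt]
  have hcase : ∀ x : X, (∃ v : EuclideanSpace ℝ (Fin d), ‖v‖ ≤ 1 ∧ φ v = x) ∨ x ∈ Co φ := by
    intro x
    by_cases hx : x ∈ φ '' ball 0 1
    · obtain ⟨v, hv, rfl⟩ := hx
      exact Or.inl ⟨v, (mem_ball_zero_iff.1 hv).le, rfl⟩
    · exact Or.inr hx
  -- the collapse
  have hp : ∃ p : C(X, Sph d), (∀ v : EuclideanSpace ℝ (Fin d), ‖v‖ ≤ 1 → p (φ v) = P v) ∧
      ∀ x ∈ Co φ, p x = N := by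
    let A := {v : EuclideanSpace ℝ (Fin d) // ‖v‖ ≤ 1} ⊕ Co φ
    have : CompactSpace {v : EuclideanSpace ℝ (Fin d) // ‖v‖ ≤ 1} := by
      have : {v : EuclideanSpace ℝ (Fin d) | ‖v‖ ≤ 1} = closedBall 0 1 := by
        ext v; simp
      have h2 : IsCompact {v : EuclideanSpace ℝ (Fin d) | ‖v‖ ≤ 1} := by
        rw [this]
        exact isCompact_closedBall _ _
      exact isCompact_iff_compactSpace.1 h2
    let f : A → X := Sum.elim (fun v => φ v.1) (fun m => m.1)
    let g : A → Sph d := Sum.elim (fun v => P v.1) (fun _ => N)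
    obtain ⟨p, hp⟩ := exists_lift (f := f) (g := g)
      (continuous_sumElim.2 ⟨hφ.continuous.comp continuous_subtype_val, continuous_subtype_val⟩)
      (by
        intro x
        rcases hcase x with ⟨v, hv, hx⟩ | hx
        · exact ⟨Sum.inl ⟨v, hv⟩, hx⟩
        · exact ⟨Sum.inr ⟨x, hx⟩, rfl⟩)
      (continuous_sumElim.2 ⟨continuous_P.comp continuous_subtype_val, continuous_const⟩)
      (by
        rintro (a | a) (b | b) hab
        · have : a = b := Subtype.ext (hφ.injective hab)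
          rw [this]
        · have h2 : φ a.1 ∈ Co φ := by
            have h3 : φ a.1 = b.1 := hab
            rw [h3]; exact b.2
          exact P_of_norm (le_antisymm a.2 ((hmem _).1 h2))
        · have h2 : φ b.1 ∈ Co φ := by
            have h3 : a.1 = φ b.1 := hab
            rw [← h3]; exact a.2
          exact (P_of_norm (le_antisymm b.2 ((hmem _).1 h2))).symm
        · rfl)
    exact ⟨p, fun v hv => hp (Sum.inl ⟨v, hv⟩), fun x hx => hp (Sum.inr ⟨x, hx⟩)⟩
  obtain ⟨p, hp1, hp2⟩ := hp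
  have hpsurj : Function.Surjective p := by
    intro z
    rcases P_surj z with h2 | ⟨v, hv, h2⟩
    · exact ⟨m₀, by rw [hp2 _ m₀.2, h2]⟩
    · exact ⟨φ v, by rw [hp1 v hv, h2]⟩
  have hpinj : ∀ x y, p x = p y → x = y ∨ (x ∈ Co φ ∧ y ∈ Co φ) := by
    intro x y hxy
    rcases hcase x with ⟨v, hv, hx⟩ | hx
    · rcases hcase y with ⟨w, hw, hy⟩ | hy
      · rw [← hx, ← hy, hp1 v hv, hp1 w hw] at hxy
        rcases P_inj hv hw hxy with h2 | ⟨h2, h3⟩
        · left; rw [← hx, ← hy, h2]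
        · right
          rw [← hx, ← hy, hmem, hmem]
          exact ⟨h2.ge, h3.ge⟩
      · obtain ⟨u, hu⟩ : ∃ u : EuclideanSpace ℝ (Fin d), ‖u‖ = 1 :=
          ⟨EuclideanSpace.single ⟨0, hd⟩ 1, by simp⟩
        rw [← hx, hp1 v hv, hp2 y hy, ← P_of_norm hu] at hxy
        rcases P_inj hv hu.le hxy with h2 | ⟨h2, h3⟩
        · right
          rw [← hx, h2, hmem]
          exact ⟨hu.ge, hy⟩
        · right
          rw [← hx, hmem]
          exact ⟨h2.ge, hy⟩
    · rcases hcase y with ⟨w, hw, hy⟩ | hy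
      · obtain ⟨u, hu⟩ : ∃ u : EuclideanSpace ℝ (Fin d), ‖u‖ = 1 :=
          ⟨EuclideanSpace.single ⟨0, hd⟩ 1, by simp⟩
        rw [← hy, hp1 w hw, hp2 x hx, ← P_of_norm hu] at hxy
        rcases P_inj hu.le hw hxy with h2 | ⟨h2, h3⟩
        · right
          rw [← hy, ← h2, hmem]
          exact ⟨hx, hu.ge⟩
        · right
          rw [← hy, hmem]
          exact ⟨hx, h3.ge⟩
      · exact Or.inr ⟨hx, hy⟩
  -- the homotopy
  have hH : ∃ H : C(I × X, X), (∀ x, H (0, x) = x) ∧ (∀ x ∈ Co φ, H (1, x) = m₀) ∧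
      ∀ s, ∀ x ∈ Co φ, H (s, x) ∈ Co φ := by
    let A1 := {z : I × EuclideanSpace ℝ (Fin d) // ‖z.2‖ ≤ 1 - (z.1 : ℝ) / 2}
    let A2 := {z : I × EuclideanSpace ℝ (Fin d) // 1 - (z.1 : ℝ) / 2 ≤ ‖z.2‖ ∧ ‖z.2‖ ≤ 1}
    have hcpt : IsCompact ((univ : Set I) ×ˢ (closedBall (0 : EuclideanSpace ℝ (Fin d)) 1)) :=
      isCompact_univ.prod (isCompact_closedBall _ _)
    have : CompactSpace A1 := by
      refine isCompact_iff_compactSpace.1 (hcpt.of_isClosed_subset ?_ ?_)
      · exact isClosed_le (f := fun z : I × EuclideanSpace ℝ (Fin d) => ‖z.2‖)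
          (g := fun z : I × EuclideanSpace ℝ (Fin d) => 1 - (z.1 : ℝ) / 2)
          (by fun_prop) (by fun_prop)
      · intro z hz
        refine ⟨mem_univ _, ?_⟩
        rw [mem_closedBall_zero_iff]
        have h2 : ‖z.2‖ ≤ 1 - (z.1 : ℝ) / 2 := hz
        have h3 := z.1.2.1
        linarith
    have : CompactSpace A2 := by
      refine isCompact_iff_compactSpace.1 (hcpt.of_isClosed_subset ?_ ?_)
      · exact (isClosed_le (f := fun z : I × EuclideanSpace ℝ (Fin d) => 1 - (z.1 : ℝ) / 2)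
          (by fun_prop) (by fun_prop)).inter
          (isClosed_le (f := fun z : I × EuclideanSpace ℝ (Fin d) => ‖z.2‖) (by fun_prop)
          (by fun_prop))
      · intro z hz
        refine ⟨mem_univ _, ?_⟩
        rw [mem_closedBall_zero_iff]
        exact hz.2
    have hA2 : ∀ z : A2, 0 < ‖z.1.2‖ := by
      intro z
      have h2 := z.2.1
      have h3 := z.1.1.2.2
      linarith
    have hA2n : ∀ z : A2, ‖(‖z.1.2‖⁻¹ • z.1.2)‖ = 1 := by
      intro z
      rw [norm_smul, norm_inv, norm_norm, inv_mul_cancel₀ (hA2 z).ne']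
    let time : A2 → I := fun z => ⟨2 * (‖z.1.2‖ - 1 + (z.1.1 : ℝ) / 2), by
      have h2 := z.2.1
      have h3 := z.2.2
      have h4 := z.1.1.2.2
      constructor
      · linarith
      · linarith⟩
    have htime : Continuous time := by
      refine Continuous.subtype_mk ?_ _
      fun_prop
    let sph : A2 → Co φ := fun z => ⟨φ (‖z.1.2‖⁻¹ • z.1.2), (hmem _).2 (hA2n z).ge⟩
    have hsph : Continuous sph := by
      have hn : Continuous fun z : A2 => ‖z.1.2‖ :=
        (continuous_snd.comp continuous_subtype_val).norm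
      refine Continuous.subtype_mk (hφ.continuous.comp ?_) _
      exact (hn.inv₀ fun z => (hA2 z).ne').smul (continuous_snd.comp continuous_subtype_val)
    let f : A1 ⊕ A2 ⊕ (I × Co φ) → I × X :=
      Sum.elim (fun z => (z.1.1, φ z.1.2)) (Sum.elim (fun z => (z.1.1, φ z.1.2))
        (fun z => (z.1, z.2.1)))
    let g : A1 ⊕ A2 ⊕ (I × Co φ) → X :=
      Sum.elim (fun z => φ ((1 - (z.1.1 : ℝ) / 2)⁻¹ • z.1.2))
        (Sum.elim (fun z => (h (time z, sph z)).1) (fun z => (h z).1))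
    have hf : Continuous f := by
      refine continuous_sumElim.2 ⟨?_, continuous_sumElim.2 ⟨?_, ?_⟩⟩
      · exact Continuous.prodMk (by fun_prop) (hφ.continuous.comp (by fun_prop))
      · exact Continuous.prodMk (by fun_prop) (hφ.continuous.comp (by fun_prop))
      · fun_prop
    have hpos : ∀ s : I, 0 < 1 - (s : ℝ) / 2 := by
      intro s
      have := s.2.2
      linarith
    have hg : Continuous g := by
      refine continuous_sumElim.2 ⟨?_, continuous_sumElim.2 ⟨?_, ?_⟩⟩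
      · have hn : Continuous fun z : A1 => 1 - (z.1.1 : ℝ) / 2 :=
          continuous_const.sub ((continuous_subtype_val.comp
            (continuous_fst.comp continuous_subtype_val)).div_const 2)
        exact hφ.continuous.comp ((hn.inv₀ fun z => (hpos _).ne').smul
          (continuous_snd.comp continuous_subtype_val))
      · exact continuous_subtype_val.comp (h.continuous.comp (htime.prodMk hsph))
      · exact continuous_subtype_val.comp h.continuous
    have hsurj : Function.Surjective f := by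
      rintro ⟨s, x⟩
      rcases hcase x with ⟨v, hv, hx⟩ | hx
      · rcases le_total ‖v‖ (1 - (s : ℝ) / 2) with h2 | h2
        · exact ⟨Sum.inl ⟨(s, v), h2⟩, by change (s, φ v) = _; rw [hx]⟩
        · exact ⟨Sum.inr (Sum.inl ⟨(s, v), h2, hv⟩), by change (s, φ v) = _; rw [hx]⟩
      · exact ⟨Sum.inr (Sum.inr (s, ⟨x, hx⟩)), rfl⟩
    -- compatibility
    have c12 : ∀ (a : A1) (b : A2), f (Sum.inl a) = f (Sum.inr (Sum.inl b)) →
        g (Sum.inl a) = g (Sum.inr (Sum.inl b)) := by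
      rintro ⟨⟨s, v⟩, ha⟩ ⟨⟨t, w⟩, hb⟩ hab
      change (s, φ v) = (t, φ w) at hab
      obtain ⟨rfl, h2⟩ := Prod.mk.inj hab
      obtain rfl := hφ.injective h2
      have h3 : ‖v‖ = 1 - (s : ℝ) / 2 := le_antisymm ha hb.1
      change φ ((1 - (s : ℝ) / 2)⁻¹ • v) = (h (time ⟨(s, v), hb⟩, sph ⟨(s, v), hb⟩)).1
      have h4 : time ⟨(s, v), hb⟩ = 0 := by
        refine Subtype.ext ?_
        change 2 * (‖v‖ - 1 + (s : ℝ) / 2) = 0
        rw [h3]; ring
      rw [h4, h0]
      change _ = φ (‖v‖⁻¹ • v)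
      rw [h3]
    have c13 : ∀ (a : A1) (b : I × Co φ), f (Sum.inl a) = f (Sum.inr (Sum.inr b)) →
        g (Sum.inl a) = g (Sum.inr (Sum.inr b)) := by
      rintro ⟨⟨s, v⟩, ha⟩ ⟨t, m⟩ hab
      change (s, φ v) = (t, m.1) at hab
      obtain ⟨rfl, h2⟩ := Prod.mk.inj hab
      have h3 : 1 ≤ ‖v‖ := (hmem v).1 (by rw [h2]; exact m.2)
      have ha' : ‖v‖ ≤ 1 - (s : ℝ) / 2 := ha
      have h4 : (s : ℝ) = 0 := by
        have := s.2.1
        linarith
      have h5 : s = 0 := Subtype.ext h4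
      change φ ((1 - (s : ℝ) / 2)⁻¹ • v) = (h (s, m)).1
      rw [h5, h0, ← h2]
      simp
    have c23 : ∀ (a : A2) (b : I × Co φ), f (Sum.inr (Sum.inl a)) = f (Sum.inr (Sum.inr b)) →
        g (Sum.inr (Sum.inl a)) = g (Sum.inr (Sum.inr b)) := by
      rintro ⟨⟨s, v⟩, ha⟩ ⟨t, m⟩ hab
      change (s, φ v) = (t, m.1) at hab
      obtain ⟨rfl, h2⟩ := Prod.mk.inj hab
      have h3 : ‖v‖ = 1 := le_antisymm ha.2 ((hmem v).1 (by rw [h2]; exact m.2))
      change (h (time ⟨(s, v), ha⟩, sph ⟨(s, v), ha⟩)).1 = (h (s, m)).1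
      have h4 : time ⟨(s, v), ha⟩ = s := by
        refine Subtype.ext ?_
        change 2 * (‖v‖ - 1 + (s : ℝ) / 2) = s
        rw [h3]; ring
      have h5 : sph ⟨(s, v), ha⟩ = m := by
        refine Subtype.ext ?_
        change φ (‖v‖⁻¹ • v) = m.1
        rw [h3, inv_one, one_smul, h2]
      rw [h4, h5]
    obtain ⟨H, hH⟩ := exists_lift hf hsurj hg (by
      rintro (a | a | a) (b | b | b) hab
      · have : a = b := by
          obtain ⟨⟨s, v⟩, ha⟩ := a
          obtain ⟨⟨t, w⟩, hb⟩ := b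
          change (s, φ v) = (t, φ w) at hab
          obtain ⟨rfl, h2⟩ := Prod.mk.inj hab
          obtain rfl := hφ.injective h2
          rfl
        rw [this]
      · exact c12 a b hab
      · exact c13 a b hab
      · exact (c12 b a hab.symm).symm
      · have : a = b := by
          obtain ⟨⟨s, v⟩, ha⟩ := a
          obtain ⟨⟨t, w⟩, hb⟩ := b
          change (s, φ v) = (t, φ w) at hab
          obtain ⟨rfl, h2⟩ := Prod.mk.inj hab
          obtain rfl := hφ.injective h2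
          rfl
        rw [this]
      · exact c23 a b hab
      · exact (c13 b a hab.symm).symm
      · exact (c23 b a hab.symm).symm
      · have : a = b := by
          obtain ⟨s, m⟩ := a
          obtain ⟨t, m'⟩ := b
          change (s, m.1) = (t, m'.1) at hab
          obtain ⟨rfl, h2⟩ := Prod.mk.inj hab
          rw [Subtype.ext h2]
        rw [this])
    refine ⟨H, fun x => ?_, fun x hx => ?_, fun s x hx => ?_⟩
    · rcases hcase x with ⟨v, hv, hx⟩ | hx
      · have h2 := hH (Sum.inl ⟨(0, v), by simpa using hv⟩)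
        change H (0, φ v) = φ ((1 - ((0 : I) : ℝ) / 2)⁻¹ • v) at h2
        rw [← hx, h2]
        simp
      · have h2 := hH (Sum.inr (Sum.inr (0, ⟨x, hx⟩)))
        change H (0, x) = (h (0, ⟨x, hx⟩)).1 at h2
        rw [h2, h0]
    · have h2 := hH (Sum.inr (Sum.inr (1, ⟨x, hx⟩)))
      change H (1, x) = (h (1, ⟨x, hx⟩)).1 at h2
      rw [h2, h1]
    · have h2 := hH (Sum.inr (Sum.inr (s, ⟨x, hx⟩)))
      change H (s, x) = (h (s, ⟨x, hx⟩)).1 at h2
      rw [h2]
      exact (h (s, ⟨x, hx⟩)).2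
  obtain ⟨H, hH0, hH1, hHM⟩ := hH
  -- the maps
  obtain ⟨j, hj⟩ := exists_lift p.continuous hpsurj (g := fun x => H (1, x))
    (by fun_prop) (by
      intro a b hab
      rcases hpinj a b hab with h2 | ⟨h2, h3⟩
      · rw [h2]
      · rw [hH1 a h2, hH1 b h3])
  obtain ⟨K, hK⟩ := exists_lift (f := fun z : I × X => (z.1, p z.2)) (by fun_prop) (by
      rintro ⟨s, z⟩
      obtain ⟨x, hx⟩ := hpsurj z
      exact ⟨(s, x), by rw [← hx]⟩) (g := fun z : I × X => p (H z)) (by fun_prop) (by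
      rintro ⟨s, x⟩ ⟨t, y⟩ hab
      obtain ⟨rfl, h2⟩ := Prod.mk.inj hab
      rcases hpinj x y h2 with h3 | ⟨h3, h4⟩
      · rw [h3]
      · change p (H (s, x)) = p (H (s, y))
        rw [hp2 _ (hHM s x h3), hp2 _ (hHM s y h4)])
  refine ⟨⟨p, j, ?_, ?_⟩⟩
  · -- j ∘ p ≃ id
    refine ContinuousMap.Homotopic.symm ⟨⟨H, hH0, fun x => ?_⟩⟩
    exact (hj x).symm
  · refine ContinuousMap.Homotopic.symm ⟨⟨K, fun z => ?_, fun z => ?_⟩⟩
    · obtain ⟨x, rfl⟩ := hpsurj z
      have h2 := hK (0, x)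
      change K (0, p x) = p (H (0, x)) at h2
      change K (0, p x) = p x
      rw [h2, hH0]
    · obtain ⟨x, rfl⟩ := hpsurj z
      have h2 := hK (1, x)
      change K (1, p x) = p (H (1, x)) at h2
      change K (1, p x) = p (j (p x))
      rw [h2, hj]

end Pool.Agent.TC
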