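import Pool.Agent.Lib.TC.Ext
import Pool.Agent.Lib.MP_cb6a70_gt_HB.Hurewicz
import Pool.Agent.Lib.MP_cb6a70_gt_HB.Ane
import Pool.Agent.Lib.MP_cb6a70_gt_HB.FillPi

/-!
# Section 12.2, 12.3: manifolds minus a ball
-/

namespace Pool.Agent.TC

open Metric Set CubeHom
open scoped unitInterval ContinuousMap

variable {d : ℕ} {X : Type} [TopologicalSpace X] [T2Space X]

/-- The complement of an open coordinate ball. -/
abbrev Co (φ : EuclideanSpace ℝ (Fin d) → X) : Set X := (φ '' ball 0 1)ᶜ

namespace CollBAux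

variable {r : ℕ} {Y : Type} [TopologicalSpace Y] [T2Space Y]

theorem isClosed_image_closedBall (φ : EuclideanSpace ℝ (Fin d) → X)
    (hφ : Topology.IsOpenEmbedding φ) : IsClosed (φ '' closedBall 0 1) :=
  ((isCompact_closedBall _ _).image hφ.continuous).isClosed

theorem isClosed_image_sphere (φ : EuclideanSpace ℝ (Fin d) → X)
    (hφ : Topology.IsOpenEmbedding φ) : IsClosed (φ '' sphere 0 1) :=
  ((isCompact_sphere _ _).image hφ.continuous).isClosed

omit [T2Space X] in
theorem isClosed_Co (φ : EuclideanSpace ℝ (Fin d) → X)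
    (hφ : Topology.IsOpenEmbedding φ) : IsClosed (Co φ) :=
  (hφ.isOpenMap _ isOpen_ball).isClosed_compl

/-- Pushing a map of a compact set of dimension at most `r` off the open coordinate ball. -/
theorem push_off (φ : EuclideanSpace ℝ (Fin (r + 1)) → Y) (hφ : Topology.IsOpenEmbedding φ)
    {E : Type} [NormedAddCommGroup E] [NormedSpace ℝ E] [FiniteDimensional ℝ E]
    (hr : Module.finrank ℝ E ≤ r) {Q : Set E} (hQ : IsCompact Q)
    (h : E → Y) (hh : ContinuousOn h Q) :
    ∃ h' : E → Y, ContinuousOn h' Q ∧ (∀ z ∈ Q, h' z ∈ Co φ) ∧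
      ∀ z, h z ∈ Co φ → h' z = h z := by
  classical
  have hclK : IsClosed (Q ∩ h ⁻¹' (φ '' closedBall 0 1)) :=
    hh.preimage_isClosed_of_isClosed hQ.isClosed (isClosed_image_closedBall φ hφ)
  have hclA : IsClosed (Q ∩ h ⁻¹' (φ '' sphere 0 1)) :=
    hh.preimage_isClosed_of_isClosed hQ.isClosed (isClosed_image_sphere φ hφ)
  have hclL : IsClosed (Q ∩ h ⁻¹' (Co φ)) :=
    hh.preimage_isClosed_of_isClosed hQ.isClosed (isClosed_Co φ hφ)
  have hK : IsCompact (Q ∩ h ⁻¹' (φ '' closedBall 0 1)) :=
    hQ.of_isClosed_subset hclK inter_subset_left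
  have hAK : Q ∩ h ⁻¹' (φ '' sphere 0 1) ⊆ Q ∩ h ⁻¹' (φ '' closedBall 0 1) :=
    inter_subset_inter_right _ (preimage_mono (image_mono sphere_subset_closedBall))
  have hne : Nonempty (Sph r) := by
    have : Nontrivial (EuclideanSpace ℝ (Fin (r + 1))) := inferInstance
    exact ((NormedSpace.sphere_nonempty (E := EuclideanSpace ℝ (Fin (r + 1)))
      (x := 0) (r := 1)).2 zero_le_one).to_subtype
  let f : E → Sph r := fun z =>
    if hz : ∃ v : Sph r, φ (v : EuclideanSpace ℝ (Fin (r + 1))) = h z then hz.choose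
    else Classical.arbitrary _
  have hf1 : ∀ z, h z ∈ φ '' sphere 0 1 → φ (f z : EuclideanSpace ℝ (Fin (r + 1))) = h z := by
    rintro z ⟨v, hv, hvz⟩
    have hz : ∃ v : Sph r, φ (v : EuclideanSpace ℝ (Fin (r + 1))) = h z := ⟨⟨v, hv⟩, hvz⟩
    simp only [f, dif_pos hz]
    exact hz.choose_spec
  have hfc : ContinuousOn f (Q ∩ h ⁻¹' (φ '' sphere 0 1)) := by
    have hind : Topology.IsInducing
        (fun v : Sph r => φ (v : EuclideanSpace ℝ (Fin (r + 1)))) :=
      (hφ.isEmbedding.comp Topology.IsEmbedding.subtypeVal).isInducing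
    rw [hind.continuousOn_iff]
    exact (hh.mono inter_subset_left).congr fun z hz => hf1 z hz.2
  obtain ⟨F, hFc, hFA⟩ := ext_sphere hr hK hclA hAK f hfc
  refine ⟨fun z => if h z ∈ Co φ then h z
    else φ (F z : EuclideanSpace ℝ (Fin (r + 1))), ?_, ?_, ?_⟩
  · have hcov : Q = (Q ∩ h ⁻¹' (φ '' closedBall 0 1)) ∪ (Q ∩ h ⁻¹' (Co φ)) := by
      ext z
      constructor
      · intro hz
        by_cases hC : h z ∈ Co φ
        · exact Or.inr ⟨hz, hC⟩
        · exact Or.inl ⟨hz, image_mono ball_subset_closedBall (not_not.1 hC)⟩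
      · rintro (hz | hz) <;> exact hz.1
    rw [hcov]
    refine ContinuousOn.union_of_isClosed ?_ ?_ hclK hclL
    · have h1 : ContinuousOn (fun z => φ (F z : EuclideanSpace ℝ (Fin (r + 1))))
          (Q ∩ h ⁻¹' (φ '' closedBall 0 1)) :=
        hφ.continuous.comp_continuousOn (continuous_subtype_val.comp_continuousOn hFc)
      refine h1.congr fun z hz => ?_
      by_cases hC : h z ∈ Co φ
      · have hzs : h z ∈ φ '' sphere 0 1 := by
          obtain ⟨v, hv, hvz⟩ := hz.2
          refine ⟨v, ?_, hvz⟩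
          rw [mem_closedBall_zero_iff] at hv
          rw [mem_sphere_zero_iff_norm]
          refine le_antisymm hv (not_lt.1 fun hlt => hC ⟨v, ?_, hvz⟩)
          rwa [mem_ball_zero_iff]
        simp only [if_pos hC]
        rw [hFA ⟨hz.1, hzs⟩, hf1 z hzs]
      · simp only [if_neg hC]
    · refine (hh.mono inter_subset_left).congr fun z hz => ?_
      simp only [if_pos (show h z ∈ Co φ from hz.2)]
  · intro z _
    by_cases hC : h z ∈ Co φ
    · simp only [if_pos hC]
      exact hC
    · simp only [if_neg hC]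
      rintro ⟨v, hv, hvz⟩
      have hv' : v = (F z : EuclideanSpace ℝ (Fin (r + 1))) := hφ.injective hvz
      have h1 : ‖(F z : EuclideanSpace ℝ (Fin (r + 1)))‖ = 1 := by
        have := (F z).2
        rwa [mem_sphere_zero_iff_norm] at this
      rw [mem_ball_zero_iff, hv', h1] at hv
      exact lt_irrefl _ hv
  · intro z hz
    simp only [if_pos hz]

theorem isSimplyConnected_Co [SimplyConnectedSpace Y] (hr : 2 ≤ r)
    (φ : EuclideanSpace ℝ (Fin (r + 1)) → Y) (hφ : Topology.IsOpenEmbedding φ) :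
    IsSimplyConnected (Co φ) := by
  rw [isSimplyConnected_iff_exists_homotopy_refl_forall_mem]
  have hne : (Co φ).Nonempty := by
    obtain ⟨v, hv⟩ := (NormedSpace.sphere_nonempty (E := EuclideanSpace ℝ (Fin (r + 1)))
      (x := 0) (r := 1)).2 zero_le_one
    refine ⟨φ v, ?_⟩
    rintro ⟨w, hw, hwv⟩
    rw [hφ.injective hwv, mem_ball_zero_iff] at hw
    rw [mem_sphere_zero_iff_norm] at hv
    exact absurd hw (by simp [hv])
  refine ⟨?_, ?_⟩
  · obtain ⟨x, hx⟩ := hne
    refine ⟨x, hx, fun {y} hy => ?_⟩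
    let p : Path x y := PathConnectedSpace.somePath x y
    obtain ⟨h', hc, hC, he⟩ := push_off φ hφ (E := ℝ)
      (by simpa using le_trans one_le_two hr) (isCompact_Icc (a := (0 : ℝ)) (b := 1))
      p.extend p.continuous_extend.continuousOn
    refine JoinedIn.ofLine hc ?_ ?_ ?_
    · rw [he 0 (by simpa using hx)]
      simp
    · rw [he 1 (by simpa using hy)]
      simp
    · rintro _ ⟨z, hz, rfl⟩
      exact hC z hz
  · intro x p hp
    obtain ⟨G⟩ : Nonempty (p.Homotopy (Path.refl x)) :=
      SimplyConnectedSpace.paths_homotopic p (Path.refl x)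
    have hx : x ∈ Co φ := by simpa using hp 0
    let h : ℝ × ℝ → Y := fun z => G (projIcc 0 1 zero_le_one z.1, projIcc 0 1 zero_le_one z.2)
    have hh : Continuous h := by
      refine (map_continuous G).comp ?_
      exact ((continuous_projIcc.comp continuous_fst).prodMk
        (continuous_projIcc.comp continuous_snd))
    have hI : ∀ s t : I, h ((s : ℝ), (t : ℝ)) = G (s, t) := by
      intro s t
      simp [h]
    obtain ⟨h', hc, hC, he⟩ := push_off φ hφ (E := ℝ × ℝ)
      (by simpa using hr)
      ((isCompact_Icc (a := (0 : ℝ)) (b := 1)).prod (isCompact_Icc (a := (0 : ℝ)) (b := 1)))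
      h hh.continuousOn
    have hmem : ∀ z : I × I, ((z.1 : ℝ), (z.2 : ℝ)) ∈ Icc (0 : ℝ) 1 ×ˢ Icc (0 : ℝ) 1 :=
      fun z => ⟨z.1.2, z.2.2⟩
    have hc' : Continuous fun z : I × I => h' ((z.1 : ℝ), (z.2 : ℝ)) := by
      refine hc.comp_continuous ?_ hmem
      exact ((continuous_subtype_val.comp continuous_fst).prodMk
        (continuous_subtype_val.comp continuous_snd))
    have hk : ∀ s t : I, G (s, t) ∈ Co φ → h' ((s : ℝ), (t : ℝ)) = G (s, t) := by
      intro s t hst
      rw [he _ (by rw [hI]; exact hst), hI]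
    have h0 : ∀ t : I, G (0, t) = p t := fun t => by simp
    have h1 : ∀ t : I, G (1, t) = x := fun t => by simp
    refine ⟨{ toFun := fun z => h' ((z.1 : ℝ), (z.2 : ℝ))
              continuous_toFun := hc'
              map_zero_left := ?_
              map_one_left := ?_
              prop' := ?_ }, ?_⟩
    · intro t
      have := hk 0 t (by rw [h0]; exact hp t)
      simpa using this
    · intro t
      have := hk 1 t (by rw [h1]; exact hx)
      simpa using this
    · intro s t ht
      rcases ht with ht | ht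
      · subst ht
        have hG : G (s, 0) = x := by simp
        have := hk s 0 (by rw [hG]; exact hx)
        simpa using this
      · have ht' : t = 1 := ht
        subst ht'
        have hG : G (s, 1) = x := by simp
        have := hk s 1 (by rw [hG]; exact hx)
        simpa using this
    · intro z
      exact hC _ (hmem z)

end CollBAux

/-- 12.2: push a null homotopy off the ball. -/
theorem simplyConnected_co (hd : 3 ≤ d) [SimplyConnectedSpace X]
    (φ : EuclideanSpace ℝ (Fin d) → X) (hφ : Topology.IsOpenEmbedding φ) :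
    SimplyConnectedSpace (Co φ) := by
  obtain ⟨r, rfl⟩ : ∃ r, d = r + 1 := ⟨d - 1, by omega⟩
  exact (CollBAux.isSimplyConnected_Co (by omega) φ hφ).simplyConnectedSpace

end Pool.Agent.TC
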