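import Pool.Agent.Lib.TC.CochD

/-!
# Combinatorics of the cup product of cubical cochains
-/

namespace Pool.Agent.TC.Comb

open CubeHom Finset

/-- skip `i` -/
def dsh (i : ℕ) : ℕ ↪ ℕ := ⟨fun h => if h < i then h else h + 1, by
  intro a b h
  simp only at h
  split_ifs at h <;> omega⟩

lemma dsh_lt {i h : ℕ} (hh : h < i) : dsh i h = h := if_pos hh

lemma dsh_ge {i h : ℕ} (hh : i ≤ h) : dsh i h = h + 1 := if_neg (by omega)

lemma dsh_ne (i h : ℕ) : dsh i h ≠ i := by
  rcases lt_or_ge h i with hh | hh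
  · rw [dsh_lt hh]; omega
  · rw [dsh_ge hh]; omega

lemma dsh_lt_iff {i a b : ℕ} : dsh i a < dsh i b ↔ a < b := by
  rcases lt_or_ge a i with h1 | h1 <;> rcases lt_or_ge b i with h2 | h2
  · rw [dsh_lt h1, dsh_lt h2]
  · rw [dsh_lt h1, dsh_ge h2]; omega
  · rw [dsh_ge h1, dsh_lt h2]; omega
  · rw [dsh_ge h1, dsh_ge h2]; omega

lemma dsh_lt_self {i a : ℕ} : dsh i a < i ↔ a < i := by
  rcases lt_or_ge a i with h1 | h1
  · rw [dsh_lt h1]
  · rw [dsh_ge h1]; omega

lemma self_lt_dsh {i a : ℕ} : i < dsh i a ↔ i ≤ a := by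
  rcases lt_or_ge a i with h1 | h1
  · rw [dsh_lt h1]; omega
  · rw [dsh_ge h1]; omega

lemma range_succ_eq {n i : ℕ} (hi : i ≤ n) :
    range (n + 1) = insert i ((range n).map (dsh i)) := by
  ext j
  simp only [mem_range, mem_insert, mem_map]
  constructor
  · intro hj
    rcases lt_trichotomy j i with h | h | h
    · exact Or.inr ⟨j, by omega, dsh_lt h⟩
    · exact Or.inl h
    · exact Or.inr ⟨j - 1, by omega, by rw [dsh_ge (by omega)]; omega⟩
  · rintro (h | ⟨a, ha, rfl⟩)
    · omega
    · rcases lt_or_ge a i with h1 | h1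
      · rw [dsh_lt h1]; omega
      · rw [dsh_ge h1]; omega

lemma notMem_map_dsh (i : ℕ) (s : Finset ℕ) : i ∉ s.map (dsh i) := by
  rw [mem_map]
  rintro ⟨a, -, h⟩
  exact dsh_ne i a h

/-- Sums over subsets of `range (n+1)`. -/
lemma sum_powerset_dsh {M : Type*} [AddCommMonoid M] {n i : ℕ} (hi : i ≤ n)
    (g : Finset ℕ → M) :
    ∑ H ∈ (range (n + 1)).powerset, g H =
      ∑ H ∈ (range n).powerset, (g (H.map (dsh i)) + g (insert i (H.map (dsh i)))) := by
  rw [range_succ_eq hi, sum_powerset_insert (notMem_map_dsh i _), sum_add_distrib]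
  have e : ((range n).map (dsh i)).powerset = (range n).powerset.image (·.map (dsh i)) := by
    rw [map_eq_image, powerset_image]
    refine image_congr fun s _ => ?_
    rw [map_eq_image]
  rw [e, sum_image, sum_image]
  · intro a _ b _ h
    exact map_injective _ h
  · intro a _ b _ h
    exact map_injective _ h

/-- Sums over `range (n+1)`. -/
lemma sum_range_dsh {M : Type*} [AddCommMonoid M] {n i : ℕ} (hi : i ≤ n) (g : ℕ → M) :
    ∑ j ∈ range (n + 1), g j = g i + ∑ j ∈ range n, g (dsh i j) := by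
  rw [range_succ_eq hi, sum_insert (notMem_map_dsh i _), sum_map]

/-- number of inversions -/
def inv (n : ℕ) (H : Finset ℕ) : ℕ :=
  ∑ a ∈ range n, ∑ b ∈ range n, if a ∉ H ∧ b ∈ H ∧ a < b then 1 else 0

lemma sgnS_eq (n : ℕ) (H : Finset ℕ) : sgnS n H = (-1) ^ inv n H := by
  unfold sgnS inv
  rw [card_filter, sum_product]

/-- number of elements below `i` -/
def cb (H : Finset ℕ) (i : ℕ) : ℕ := (H.filter (· < i)).card

/-- number of non-elements below `i` -/
def cn (H : Finset ℕ) (i : ℕ) : ℕ := ((range i).filter (· ∉ H)).card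

/-- number of elements from `i` on -/
def ca (H : Finset ℕ) (i : ℕ) : ℕ := (H.filter (i ≤ ·)).card

lemma cb_add_ca (H : Finset ℕ) (i : ℕ) : cb H i + ca H i = H.card := by
  unfold cb ca
  rw [← card_filter_add_card_filter_not (s := H) (· < i)]
  congr 2
  ext j
  simp

lemma cb_add_cn (H : Finset ℕ) (i : ℕ) : cb H i + cn H i = i := by
  unfold cb cn
  have h := card_filter_add_card_filter_not (s := range i) (· ∈ H)
  rw [card_range] at h
  have e : H.filter (· < i) = (range i).filter (· ∈ H) := by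
    ext j
    simp [and_comm]
  rw [e]
  exact h

lemma inv_map {n i : ℕ} (hi : i ≤ n) {H : Finset ℕ} (hH : H ⊆ range n) :
    inv (n + 1) (H.map (dsh i)) = inv n H + ca H i := by
  unfold inv ca
  rw [sum_range_dsh hi, sum_range_dsh hi]
  have h1 : ∀ a, (∑ b ∈ range (n + 1), if dsh i a ∉ H.map (dsh i) ∧ b ∈ H.map (dsh i) ∧ dsh i a < b
      then 1 else 0) = ∑ b ∈ range n, if a ∉ H ∧ b ∈ H ∧ a < b then 1 else 0 := by
    intro a
    rw [sum_range_dsh hi, if_neg (fun h => notMem_map_dsh i H h.2.1), zero_add]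
    refine sum_congr rfl fun b _ => ?_
    simp only [mem_map', dsh_lt_iff]
  simp only [h1]
  rw [if_neg (by simp), zero_add, add_comm]
  congr 1
  rw [card_filter, ← sum_subset hH]
  · refine sum_congr rfl fun b hb => ?_
    simp only [mem_map', self_lt_dsh, notMem_map_dsh, not_false_eq_true, true_and, hb]
  · intro b _ hb
    simp only [mem_map', hb, false_and, and_false, if_false]

lemma inv_insert {n i : ℕ} (hi : i ≤ n) (H : Finset ℕ) :
    inv (n + 1) (insert i (H.map (dsh i))) = inv n H + cn H i := by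
  unfold inv cn
  rw [sum_range_dsh hi]
  have h0 : ∀ a, dsh i a ∈ insert i (H.map (dsh i)) ↔ a ∈ H := by
    intro a
    rw [mem_insert, mem_map', or_iff_right (dsh_ne i a)]
  have h1 : ∀ a, (∑ b ∈ range (n + 1), if dsh i a ∉ insert i (H.map (dsh i)) ∧
      b ∈ insert i (H.map (dsh i)) ∧ dsh i a < b then 1 else 0) =
      (if a ∉ H ∧ a < i then 1 else 0) + ∑ b ∈ range n, if a ∉ H ∧ b ∈ H ∧ a < b then 1 else 0 := by
    intro a
    rw [sum_range_dsh hi]
    congr 1
    · simp only [h0, mem_insert_self, true_and, dsh_lt_self]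
    · refine sum_congr rfl fun b _ => ?_
      simp only [h0, dsh_lt_iff]
  have h2 : (∑ b ∈ range (n + 1), if i ∉ insert i (H.map (dsh i)) ∧
      b ∈ insert i (H.map (dsh i)) ∧ i < b then 1 else 0) = 0 := by
    refine sum_eq_zero fun b _ => if_neg ?_
    simp
  simp only [h1]
  rw [h2, zero_add, sum_add_distrib, add_comm]
  congr 1
  rw [card_filter, ← sum_subset (range_subset_range.2 hi)]
  · refine sum_congr rfl fun b hb => ?_
    simp only [mem_range.1 hb, and_true]
  · intro b _ hb
    rw [mem_range] at hb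
    simp only [hb, and_false, if_false]

/-! ### words -/

/-- insert a fixed letter at the place `i` -/
def insW (i : ℕ) (b : Bool) (w : ℕ → Option Bool) : ℕ → Option Bool := fun j =>
  if j < i then w j else if j = i then some b else w (j - 1)

/-- replace the letter at the place `i` -/
def upd (w : ℕ → Option Bool) (i : ℕ) (b : Bool) : ℕ → Option Bool := fun j =>
  if j = i then some b else w j

lemma mem_map_lt {i j : ℕ} (h : j < i) (H : Finset ℕ) : j ∈ H.map (dsh i) ↔ j ∈ H := by
  have h2 := mem_map' (dsh i) (a := j) (s := H)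
  rwa [dsh_lt h] at h2

lemma mem_map_gt {i j : ℕ} (h : i < j) (H : Finset ℕ) : j ∈ H.map (dsh i) ↔ j - 1 ∈ H := by
  have h2 := mem_map' (dsh i) (a := j - 1) (s := H)
  rwa [dsh_ge (by omega), Nat.sub_add_cancel (by omega)] at h2

lemma word1 (i : ℕ) (H : Finset ℕ) :
    upd (wfr (insert i (H.map (dsh i)))) i true = insW i true (wfr H) := by
  funext j
  unfold upd insW wfr
  rcases lt_trichotomy j i with h | h | h
  · simp only [h, h.ne, if_true, if_false, mem_insert, false_or, mem_map_lt h]
  · simp [h]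
  · simp only [h.ne', not_lt.2 h.le, if_false, mem_insert, false_or, mem_map_gt h]

lemma word2 (i : ℕ) (H : Finset ℕ) :
    wbk (insert i (H.map (dsh i))) = insW i true (wbk H) := by
  funext j
  unfold insW wbk
  rcases lt_trichotomy j i with h | h | h
  · simp only [h, h.ne, if_true, mem_insert, false_or, mem_map_lt h]
  · simp [h]
  · simp only [h.ne', not_lt.2 h.le, if_false, mem_insert, false_or, mem_map_gt h]

lemma word3 (i : ℕ) (H : Finset ℕ) : wfr (H.map (dsh i)) = insW i false (wfr H) := by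
  funext j
  unfold insW wfr
  rcases lt_trichotomy j i with h | h | h
  · simp only [h, if_true, mem_map_lt h]
  · subst h
    simp only [notMem_map_dsh, lt_irrefl, if_false, if_true]
  · simp only [h.ne', not_lt.2 h.le, if_false, mem_map_gt h]

lemma word4 (i : ℕ) (H : Finset ℕ) :
    upd (wbk (H.map (dsh i))) i false = insW i false (wbk H) := by
  funext j
  unfold upd insW wbk
  rcases lt_trichotomy j i with h | h | h
  · simp only [h, h.ne, if_true, if_false, mem_map_lt h]
  · simp [h]
  · simp only [h.ne', not_lt.2 h.le, if_false, mem_map_gt h]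

lemma word5 (i : ℕ) (H : Finset ℕ) :
    upd (wfr (insert i (H.map (dsh i)))) i false = wfr (H.map (dsh i)) := by
  funext j
  unfold upd wfr
  by_cases h : j = i
  · subst h
    simp only [notMem_map_dsh, if_false, if_true]
  · simp only [h, if_false, mem_insert, false_or]

lemma word6 (i : ℕ) (H : Finset ℕ) :
    upd (wbk (H.map (dsh i))) i true = wbk (insert i (H.map (dsh i))) := by
  funext j
  unfold upd wbk
  by_cases h : j = i
  · subst h
    simp
  · simp only [h, if_false, mem_insert, false_or]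

/-! ### the identity -/

lemma card_insert_map (i : ℕ) (H : Finset ℕ) : (insert i (H.map (dsh i))).card = H.card + 1 := by
  rw [card_insert_of_notMem (notMem_map_dsh i H), card_map]

lemma cb_map (i : ℕ) (H : Finset ℕ) : cb (H.map (dsh i)) i = cb H i := by
  unfold cb
  rw [filter_map, card_map]
  congr 1
  ext j
  simp [dsh_lt_self]

lemma cb_insert (i : ℕ) (H : Finset ℕ) : cb (insert i (H.map (dsh i))) i = cb H i := by
  rw [← cb_map i H]
  unfold cb
  rw [filter_insert, if_neg (lt_irrefl i)]

lemma cn_map (i : ℕ) (H : Finset ℕ) : cn (H.map (dsh i)) i = cn H i := by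
  unfold cn
  congr 1
  ext j
  simp only [mem_filter, mem_range, and_congr_right_iff]
  intro h
  rw [mem_map_lt h]

lemma neg_one_pow_congr {a b : ℕ} (h : a % 2 = b % 2) : (-1 : ℤ) ^ a = (-1) ^ b := by
  rw [← Nat.div_add_mod a 2, ← Nat.div_add_mod b 2, h]
  simp [pow_add, pow_mul]

variable {M : Type*} [AddCommGroup M]

/-- the terms with `i ∈ H` -/
def tin (n : ℕ) (T : ℕ → (ℕ → Option Bool) → (ℕ → Option Bool) → M) (H : Finset ℕ) (i : ℕ) : M :=
  (sgnS (n + 1) H * (-1) ^ cb H i) • (T (H.card - 1) (upd (wfr H) i true) (wbk H) -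
    T (H.card - 1) (upd (wfr H) i false) (wbk H))

/-- the terms with `i ∉ H` -/
def tout (n : ℕ) (T : ℕ → (ℕ → Option Bool) → (ℕ → Option Bool) → M) (H : Finset ℕ) (i : ℕ) : M :=
  (sgnS (n + 1) H * ((-1) ^ H.card * (-1) ^ cn H i)) • (T H.card (wfr H) (upd (wbk H) i true) -
    T H.card (wfr H) (upd (wbk H) i false))

lemma star_term (n : ℕ) (T : ℕ → (ℕ → Option Bool) → (ℕ → Option Bool) → M) {i : ℕ} (hi : i ≤ n)
    {H : Finset ℕ} (hH : H ⊆ range n) :
    tin n T (insert i (H.map (dsh i))) i + tout n T (H.map (dsh i)) i =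
      ((-1) ^ i * sgnS n H) • (T H.card (insW i true (wfr H)) (insW i true (wbk H)) -
        T H.card (insW i false (wfr H)) (insW i false (wbk H))) := by
  unfold tin tout
  have h1 := cb_add_ca H i
  have h2 := cb_add_cn H i
  rw [cb_insert, cn_map, card_insert_map, Nat.add_sub_cancel, card_map, word1, word5, word2,
    word4, word3, word6, word2, sgnS_eq, sgnS_eq, sgnS_eq, inv_insert hi, inv_map hi hH, ← pow_add,
    ← pow_add, ← pow_add, ← pow_add]
  have e1 : (-1 : ℤ) ^ (inv n H + cn H i + cb H i) = (-1) ^ (i + inv n H) :=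
    neg_one_pow_congr (by congr 1; omega)
  have e2 : (-1 : ℤ) ^ (inv n H + ca H i + (H.card + cn H i)) = (-1) ^ (i + inv n H) :=
    neg_one_pow_congr (by omega)
  rw [e1, e2, ← smul_add]
  congr 1
  abel

/-- **The combinatorial identity.** -/
theorem star (n : ℕ) (T : ℕ → (ℕ → Option Bool) → (ℕ → Option Bool) → M) :
    ∑ i ∈ range (n + 1), ∑ H ∈ (range n).powerset,
      ((-1) ^ i * sgnS n H) • (T H.card (insW i true (wfr H)) (insW i true (wbk H)) -
        T H.card (insW i false (wfr H)) (insW i false (wbk H))) =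
    ∑ H ∈ (range (n + 1)).powerset, (∑ i ∈ H, tin n T H i +
      ∑ i ∈ (range (n + 1)).filter (· ∉ H), tout n T H i) := by
  have h1 : ∀ H ∈ (range (n + 1)).powerset, (∑ i ∈ H, tin n T H i +
      ∑ i ∈ (range (n + 1)).filter (· ∉ H), tout n T H i) =
      ∑ i ∈ range (n + 1), ((if i ∈ H then tin n T H i else 0) +
        (if i ∉ H then tout n T H i else 0)) := by
    intro H hH
    rw [sum_add_distrib, ← sum_filter, ← sum_filter]
    congr 1
    refine sum_congr ?_ fun _ _ => rfl
    ext j
    rw [mem_filter]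
    exact ⟨fun h => ⟨mem_powerset.1 hH h, h⟩, fun h => h.2⟩
  conv_rhs => rw [sum_congr rfl h1, sum_comm]
  refine sum_congr rfl fun i hi => ?_
  have hi' : i ≤ n := by
    rw [mem_range] at hi
    omega
  rw [sum_powerset_dsh hi']
  refine sum_congr rfl fun H hH => ?_
  rw [if_neg (notMem_map_dsh i H), if_pos (notMem_map_dsh i H), if_pos (mem_insert_self _ _),
    if_neg (by simp), zero_add, add_zero, add_comm, star_term n T hi' (mem_powerset.1 hH)]

end Pool.Agent.TC.Comb
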