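import Pool.Agent.Lib.TC.CupI0

/-!
# CI3: Sq^1 is the Bockstein
-/

namespace Pool.Agent.TC

open CubeHom

variable {X Y : Type*} [TopologicalSpace X] [TopologicalSpace Y]

namespace CI3Aux

theorem fc_eq_ins {n i : ℕ} {w : ℕ → Option Bool} {b : Bool} (hi : i < n)
    (hwi : w i = some b) (h : ∀ j < n, j ≠ i → w j = none) : fc n w = ins i (bitI b) := by
  ext u l : 2
  show (if l < n then
      match w l with
      | none => u ((Finset.range l).filter (fun i => w i = none)).card
      | some b => bitI b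
    else u (l - ((Finset.range n).filter (fun i => w i ≠ none)).card)) = ins i (bitI b) u l
  by_cases hl : l < n
  · rw [if_pos hl]
    rcases lt_trichotomy l i with h1 | h1 | h1
    · rw [ins_apply_lt h1, h l hl h1.ne]
      have h2 : (Finset.range l).filter (fun i => w i = none) = Finset.range l := by
        refine Finset.filter_true_of_mem fun k hk => ?_
        have := Finset.mem_range.mp hk
        exact h k (by omega) (by omega)
      simp only [h2, Finset.card_range]
    · subst h1
      rw [ins_apply_self, hwi]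
    · rw [ins_apply_gt h1, h l hl h1.ne']
      have h2 : (Finset.range l).filter (fun i => w i = none) = (Finset.range l).erase i := by
        ext k
        simp only [Finset.mem_filter, Finset.mem_range, Finset.mem_erase]
        constructor
        · rintro ⟨h3, h4⟩
          refine ⟨?_, h3⟩
          rintro rfl
          rw [hwi] at h4
          cases h4
        · rintro ⟨h3, h4⟩
          exact ⟨h4, h k (by omega) h3⟩
      simp only [h2]
      rw [Finset.card_erase_of_mem (Finset.mem_range.mpr h1), Finset.card_range]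
  · rw [if_neg hl, ins_apply_gt (by omega)]
    have h2 : (Finset.range n).filter (fun i => w i ≠ none) = {i} := by
      ext k
      simp only [Finset.mem_filter, Finset.mem_range, Finset.mem_singleton]
      constructor
      · rintro ⟨h3, h4⟩
        by_contra h5
        exact h4 (h k h3 h5)
      · rintro rfl
        exact ⟨hi, by rw [hwi]; simp⟩
    rw [h2, Finset.card_singleton]

section term

variable {n a b : ℕ} (u : C(Cb, X) → ZMod 2) (σ : C(Cb, X)) {w1 w2 : ℕ → Option Bool}

theorem tm_ab (hab : a < b) (hb : b < n) (h1 : ∀ k < n, k ≠ a → k ≠ b → w1 k = none)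
    (h2 : ∀ k < n, k ≠ a → k ≠ b → w2 k = none) {v v' : Bool} (ha1 : w1 a = some v)
    (hb1 : w1 b = none) (ha2 : w2 a = none) (hb2 : w2 b = some v') :
    (if ((Finset.range n).filter (fun k => w1 k = none)).card = n - 1 then
      u (σ.comp (fc n w1)) * u (σ.comp (fc n w2)) else 0) =
      u (σ.comp (ins a (bitI v))) * u (σ.comp (ins b (bitI v'))) := by
  have e1 : (Finset.range n).filter (fun k => w1 k = none) = (Finset.range n).erase a := by
    ext k
    simp only [Finset.mem_filter, Finset.mem_range, Finset.mem_erase]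
    constructor
    · rintro ⟨h3, h4⟩
      refine ⟨?_, h3⟩
      rintro rfl
      rw [ha1] at h4
      cases h4
    · rintro ⟨h3, h4⟩
      by_cases h5 : k = b
      · subst h5; exact ⟨h4, hb1⟩
      · exact ⟨h4, h1 k h4 h3 h5⟩
  rw [e1, Finset.card_erase_of_mem (Finset.mem_range.mpr (by omega)), Finset.card_range,
    if_pos rfl]
  rw [fc_eq_ins (i := a) (b := v) (by omega) ha1 (fun k hk hka => by
      by_cases h5 : k = b
      · subst h5; exact hb1
      · exact h1 k hk hka h5),
    fc_eq_ins (i := b) (b := v') hb hb2 (fun k hk hkb => by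
      by_cases h5 : k = a
      · subst h5; exact ha2
      · exact h2 k hk h5 hkb)]

theorem tm_ba (hab : a < b) (hb : b < n) (h1 : ∀ k < n, k ≠ a → k ≠ b → w1 k = none)
    (h2 : ∀ k < n, k ≠ a → k ≠ b → w2 k = none) {v v' : Bool} (ha1 : w1 a = none)
    (hb1 : w1 b = some v) (ha2 : w2 a = some v') (hb2 : w2 b = none) :
    (if ((Finset.range n).filter (fun k => w1 k = none)).card = n - 1 then
      u (σ.comp (fc n w1)) * u (σ.comp (fc n w2)) else 0) =
      u (σ.comp (ins a (bitI v'))) * u (σ.comp (ins b (bitI v))) := by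
  have e1 : (Finset.range n).filter (fun k => w1 k = none) = (Finset.range n).erase b := by
    ext k
    simp only [Finset.mem_filter, Finset.mem_range, Finset.mem_erase]
    constructor
    · rintro ⟨h3, h4⟩
      refine ⟨?_, h3⟩
      rintro rfl
      rw [hb1] at h4
      cases h4
    · rintro ⟨h3, h4⟩
      by_cases h5 : k = a
      · subst h5; exact ⟨h4, ha1⟩
      · exact ⟨h4, h1 k h4 h5 h3⟩
  rw [e1, Finset.card_erase_of_mem (Finset.mem_range.mpr (by omega)), Finset.card_range,
    if_pos rfl]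
  rw [fc_eq_ins (i := b) (b := v) hb hb1 (fun k hk hkb => by
      by_cases h5 : k = a
      · subst h5; exact ha1
      · exact h1 k hk h5 hkb),
    fc_eq_ins (i := a) (b := v') (by omega) ha2 (fun k hk hka => by
      by_cases h5 : k = b
      · subst h5; exact hb2
      · exact h2 k hk hka h5), mul_comm]

theorem tm_00 (hab : a < b) (hb : b < n) (h1 : ∀ k < n, k ≠ a → k ≠ b → w1 k = none)
    (ha1 : w1 a = none) (hb1 : w1 b = none) :
    (if ((Finset.range n).filter (fun k => w1 k = none)).card = n - 1 then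
      u (σ.comp (fc n w1)) * u (σ.comp (fc n w2)) else 0) = 0 := by
  have e1 : (Finset.range n).filter (fun k => w1 k = none) = Finset.range n := by
    refine Finset.filter_true_of_mem fun k hk => ?_
    have hk := Finset.mem_range.mp hk
    by_cases h5 : k = a
    · subst h5; exact ha1
    · by_cases h6 : k = b
      · subst h6; exact hb1
      · exact h1 k hk h5 h6
  rw [e1, Finset.card_range, if_neg (by omega)]

theorem tm_11 (hab : a < b) (hb : b < n) {v v' : Bool} (ha1 : w1 a = some v)
    (hb1 : w1 b = some v') :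
    (if ((Finset.range n).filter (fun k => w1 k = none)).card = n - 1 then
      u (σ.comp (fc n w1)) * u (σ.comp (fc n w2)) else 0) = 0 := by
  have e1 : (Finset.range n).filter (fun k => w1 k = none) ⊆
      ((Finset.range n).erase a).erase b := by
    intro k
    simp only [Finset.mem_filter, Finset.mem_range, Finset.mem_erase]
    rintro ⟨h3, h4⟩
    refine ⟨?_, ?_, h3⟩
    · rintro rfl
      rw [hb1] at h4
      cases h4
    · rintro rfl
      rw [ha1] at h4
      cases h4
  have e2 := Finset.card_le_card e1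
  rw [Finset.card_erase_of_mem (Finset.mem_erase.mpr ⟨hab.ne', Finset.mem_range.mpr hb⟩),
    Finset.card_erase_of_mem (Finset.mem_range.mpr (by omega)), Finset.card_range] at e2
  rw [if_neg (by omega)]

end term

/-- The value of `u` on the positively oriented face in direction `i`. -/
def xp (u : C(Cb, X) → ZMod 2) (σ : C(Cb, X)) (i : ℕ) : ZMod 2 :=
  if Even i then u (σ.comp (ins i (bitI true))) else u (σ.comp (ins i (bitI false)))

/-- The value of `u` on the negatively oriented face in direction `i`. -/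
def xm (u : C(Cb, X) → ZMod 2) (σ : C(Cb, X)) (i : ℕ) : ZMod 2 :=
  if Even i then u (σ.comp (ins i (bitI false))) else u (σ.comp (ins i (bitI true)))

theorem pair_eq (u : C(Cb, X) → ZMod 2) (σ : C(Cb, X)) {n a b : ℕ} (hab : a < b) (hb : b < n)
    {B : Finset ℕ} (hB : B = Finset.range n \ {a, b}) :
    (∑ Rr ∈ (Finset.range n \ B).powerset,
      if ((Finset.range n).filter (fun j => wI1 B Rr j = none)).card = n - 1 then
        u (σ.comp (fc n (wI1 B Rr))) * u (σ.comp (fc n (wI2 B Rr)))
      else 0) = xp u σ a * xp u σ b + xm u σ a * xm u σ b := by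
  have hsd : Finset.range n \ B = {a, b} := by
    rw [hB]
    refine Finset.sdiff_sdiff_eq_self ?_
    intro k hk
    simp only [Finset.mem_insert, Finset.mem_singleton] at hk
    rw [Finset.mem_range]
    omega
  have haB : a ∉ B := by rw [hB]; simp
  have hbB : b ∉ B := by rw [hB]; simp
  have hea : evB B a ↔ Even a := by
    have : B.filter (· < a) = Finset.range a := by
      ext k
      rw [hB]
      simp only [Finset.mem_filter, Finset.mem_sdiff, Finset.mem_range, Finset.mem_insert,
        Finset.mem_singleton]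
      omega
    rw [evB, this, Finset.card_range]
  have heb : evB B b ↔ ¬ Even b := by
    have : B.filter (· < b) = (Finset.range b).erase a := by
      ext k
      rw [hB]
      simp only [Finset.mem_filter, Finset.mem_sdiff, Finset.mem_range, Finset.mem_insert,
        Finset.mem_singleton, Finset.mem_erase]
      omega
    rw [evB, this, Finset.card_erase_of_mem (Finset.mem_range.mpr hab), Finset.card_range]
    obtain ⟨c, rfl⟩ : ∃ c, b = c + 1 := ⟨b - 1, by omega⟩
    rw [Nat.add_sub_cancel, Nat.even_add_one, not_not]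
  have hk1 : ∀ Rr, ∀ k < n, k ≠ a → k ≠ b → wI1 B Rr k = none := by
    intro Rr k hk hka hkb
    have : k ∈ B := by
      rw [hB]; simp [hk, hka, hkb]
    simp [wI1, this]
  have hk2 : ∀ Rr, ∀ k < n, k ≠ a → k ≠ b → wI2 B Rr k = none := by
    intro Rr k hk hka hkb
    have : k ∈ B := by
      rw [hB]; simp [hk, hka, hkb]
    simp [wI2, this]
  have hba : b ∉ ({a} : Finset ℕ) := by simp [hab.ne']
  have hab' : a ∉ ({b} : Finset ℕ) := by simp [hab.ne]
  have hps : ({b} : Finset ℕ).powerset = {∅, {b}} := by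
    ext s; simp [Finset.subset_singleton_iff]
  rw [hsd, Finset.sum_powerset_insert hab', hps,
    Finset.sum_pair (Finset.singleton_ne_empty b).symm,
    Finset.sum_pair (Finset.singleton_ne_empty b).symm]
  have hne := hab.ne
  have hne' := hab.ne'
  by_cases ha : Even a <;> by_cases hb2 : Even b
  · have h1 : evB B a := hea.mpr ha
    have h2 : ¬ evB B b := fun h => heb.mp h hb2
    rw [tm_ab u σ hab hb (w1 := wI1 B ∅) (w2 := wI2 B ∅) (hk1 _) (hk2 _) (v := false) (v' := false) (by simp [wI1, haB, h1])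
        (by simp [wI1, hbB, h2]) (by simp [wI2, haB, h1]) (by simp [wI2, hbB, h2]),
      tm_11 u σ hab hb (w1 := wI1 B {b}) (w2 := wI2 B {b}) (v := false) (v' := true) (by simp [wI1, haB, h1, hne])
        (by simp [wI1, hbB, h2]),
      tm_00 u σ hab hb (w1 := wI1 B (insert a ∅)) (w2 := wI2 B (insert a ∅)) (hk1 _) (by simp [wI1, haB, h1]) (by simp [wI1, hbB, h2, hne']),
      tm_ba u σ hab hb (w1 := wI1 B (insert a {b})) (w2 := wI2 B (insert a {b})) (hk1 _) (hk2 _) (v := true) (v' := true) (by simp [wI1, haB, h1])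
        (by simp [wI1, hbB, h2]) (by simp [wI2, haB, h1]) (by simp [wI2, hbB, h2])]
    simp only [xp, xm, ha, hb2, if_true]
    ring
  · have h1 : evB B a := hea.mpr ha
    have h2 : evB B b := heb.mpr hb2
    rw [tm_11 u σ hab hb (w1 := wI1 B ∅) (w2 := wI2 B ∅) (v := false) (v' := false) (by simp [wI1, haB, h1])
        (by simp [wI1, hbB, h2]),
      tm_ab u σ hab hb (w1 := wI1 B {b}) (w2 := wI2 B {b}) (hk1 _) (hk2 _) (v := false) (v' := true) (by simp [wI1, haB, h1, hne])
        (by simp [wI1, hbB, h2]) (by simp [wI2, haB, h1, hne]) (by simp [wI2, hbB, h2]),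
      tm_ba u σ hab hb (w1 := wI1 B (insert a ∅)) (w2 := wI2 B (insert a ∅)) (hk1 _) (hk2 _) (v := false) (v' := true) (by simp [wI1, haB, h1])
        (by simp [wI1, hbB, h2, hne']) (by simp [wI2, haB, h1]) (by simp [wI2, hbB, h2, hne']),
      tm_00 u σ hab hb (w1 := wI1 B (insert a {b})) (w2 := wI2 B (insert a {b})) (hk1 _) (by simp [wI1, haB, h1]) (by simp [wI1, hbB, h2])]
    simp only [xp, xm, ha, hb2, if_true, if_false]
    ring
  · have h1 : ¬ evB B a := fun h => ha (hea.mp h)
    have h2 : ¬ evB B b := fun h => heb.mp h hb2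
    rw [tm_00 u σ hab hb (w1 := wI1 B ∅) (w2 := wI2 B ∅) (hk1 _) (by simp [wI1, haB, h1]) (by simp [wI1, hbB, h2]),
      tm_ba u σ hab hb (w1 := wI1 B {b}) (w2 := wI2 B {b}) (hk1 _) (hk2 _) (v := true) (v' := false) (by simp [wI1, haB, h1, hne])
        (by simp [wI1, hbB, h2]) (by simp [wI2, haB, h1, hne]) (by simp [wI2, hbB, h2]),
      tm_ab u σ hab hb (w1 := wI1 B (insert a ∅)) (w2 := wI2 B (insert a ∅)) (hk1 _) (hk2 _) (v := true) (v' := false) (by simp [wI1, haB, h1])
        (by simp [wI1, hbB, h2, hne']) (by simp [wI2, haB, h1]) (by simp [wI2, hbB, h2, hne']),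
      tm_11 u σ hab hb (w1 := wI1 B (insert a {b})) (w2 := wI2 B (insert a {b})) (v := true) (v' := true) (by simp [wI1, haB, h1])
        (by simp [wI1, hbB, h2])]
    simp only [xp, xm, ha, hb2, if_true, if_false]
    ring
  · have h1 : ¬ evB B a := fun h => ha (hea.mp h)
    have h2 : evB B b := heb.mpr hb2
    rw [tm_ba u σ hab hb (w1 := wI1 B ∅) (w2 := wI2 B ∅) (hk1 _) (hk2 _) (v := false) (v' := false) (by simp [wI1, haB, h1])
        (by simp [wI1, hbB, h2]) (by simp [wI2, haB, h1]) (by simp [wI2, hbB, h2]),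
      tm_00 u σ hab hb (w1 := wI1 B {b}) (w2 := wI2 B {b}) (hk1 _) (by simp [wI1, haB, h1, hne]) (by simp [wI1, hbB, h2]),
      tm_11 u σ hab hb (w1 := wI1 B (insert a ∅)) (w2 := wI2 B (insert a ∅)) (v := true) (v' := false) (by simp [wI1, haB, h1])
        (by simp [wI1, hbB, h2, hne']),
      tm_ab u σ hab hb (w1 := wI1 B (insert a {b})) (w2 := wI2 B (insert a {b})) (hk1 _) (hk2 _) (v := true) (v' := true) (by simp [wI1, haB, h1])
        (by simp [wI1, hbB, h2]) (by simp [wI2, haB, h1]) (by simp [wI2, hbB, h2])]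
    simp only [xp, xm, ha, hb2, if_false]
    ring

theorem z2_cases (x : ZMod 2) : x = 0 ∨ x = 1 := by
  revert x; decide

theorem prod_z2 (x : ℕ → ZMod 2) (T : Finset ℕ) :
    ∏ i ∈ T, x i = if ∀ i ∈ T, x i = 1 then 1 else 0 := by
  split_ifs with h
  · exact Finset.prod_eq_one h
  · push Not at h
    obtain ⟨i, hi, hx⟩ := h
    exact Finset.prod_eq_zero hi ((z2_cases _).resolve_right hx)

theorem sum_prod (x : ℕ → ZMod 2) (n : ℕ) :
    ∑ T ∈ (Finset.range n).powersetCard 2, ∏ i ∈ T, x i =
      ((((Finset.range n).filter fun i => x i = 1).card.choose 2 : ℕ) : ZMod 2) := by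
  classical
  rw [Finset.sum_congr rfl fun T _ => prod_z2 x T, Finset.sum_boole, ← Finset.card_powersetCard]
  congr 2
  ext T
  simp only [Finset.mem_filter, Finset.mem_powersetCard]
  constructor
  · rintro ⟨⟨h1, h2⟩, h3⟩
    exact ⟨fun i hi => Finset.mem_filter.mpr ⟨h1 hi, h3 i hi⟩, h2⟩
  · rintro ⟨h1, h2⟩
    exact ⟨⟨fun i hi => (Finset.mem_filter.mp (h1 hi)).1, h2⟩,
      fun i hi => (Finset.mem_filter.mp (h1 hi)).2⟩

theorem sum_val (x : ℕ → ZMod 2) (n : ℕ) :
    ∑ i ∈ Finset.range n, ((x i).val : ℤ) =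
      (((Finset.range n).filter fun i => x i = 1).card : ℤ) := by
  rw [Finset.card_filter]
  push_cast
  refine Finset.sum_congr rfl fun i _ => ?_
  rcases z2_cases (x i) with h | h
  · rw [h]; decide
  · rw [h]; decide

theorem sq1_eq {j : ℕ} (hj : 1 ≤ j) (u : C(Cb, X) → ZMod 2) (σ : C(Cb, X)) :
    sq1 j u σ = ∑ T ∈ (Finset.range (j + 1)).powersetCard 2, ∏ i ∈ T, xp u σ i +
      ∑ T ∈ (Finset.range (j + 1)).powersetCard 2, ∏ i ∈ T, xm u σ i := by
  classical
  rw [← Finset.sum_add_distrib]
  show (∑ B ∈ (Finset.range (j + 1)).powersetCard (j - 1), _) = _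
  refine Finset.sum_bij' (fun B _ => Finset.range (j + 1) \ B)
    (fun T _ => Finset.range (j + 1) \ T) ?_ ?_ ?_ ?_ ?_
  · intro B hB
    rw [Finset.mem_powersetCard] at hB ⊢
    refine ⟨Finset.sdiff_subset, ?_⟩
    rw [Finset.card_sdiff_of_subset hB.1, hB.2, Finset.card_range]
    omega
  · intro T hT
    rw [Finset.mem_powersetCard] at hT ⊢
    refine ⟨Finset.sdiff_subset, ?_⟩
    rw [Finset.card_sdiff_of_subset hT.1, hT.2, Finset.card_range]
    omega
  · intro B hB
    exact Finset.sdiff_sdiff_eq_self (Finset.mem_powersetCard.mp hB).1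
  · intro T hT
    exact Finset.sdiff_sdiff_eq_self (Finset.mem_powersetCard.mp hT).1
  · intro B hB
    have hB' := Finset.mem_powersetCard.mp hB
    have hc : (Finset.range (j + 1) \ B).card = 2 := by
      rw [Finset.card_sdiff_of_subset hB'.1, hB'.2, Finset.card_range]
      omega
    obtain ⟨a, b, hab, hT⟩ : ∃ a b, a < b ∧ Finset.range (j + 1) \ B = {a, b} := by
      obtain ⟨a, b, hab, hT⟩ := Finset.card_eq_two.mp hc
      rcases lt_or_gt_of_ne hab with h | h
      · exact ⟨a, b, h, hT⟩
      · exact ⟨b, a, h, by rw [hT, Finset.pair_comm]⟩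
    have hb : b < j + 1 := by
      have : b ∈ Finset.range (j + 1) \ B := by rw [hT]; simp
      exact Finset.mem_range.mp (Finset.mem_sdiff.mp this).1
    have hB2 : B = Finset.range (j + 1) \ {a, b} := by
      rw [← hT, Finset.sdiff_sdiff_eq_self hB'.1]
    have := pair_eq u σ hab hb hB2
    rw [Nat.add_sub_cancel] at this
    rw [this, hT, Finset.prod_pair hab.ne, Finset.prod_pair hab.ne]

theorem dl_eq {A : Type*} [AddCommGroup A] (j : ℕ) (f : ZMod 2 → A) (u : C(Cb, X) → ZMod 2)
    (σ : C(Cb, X)) :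
    dl j (fun τ => f (u τ)) σ =
      ∑ i ∈ Finset.range (j + 1), (f (xp u σ i) - f (xm u σ i)) := by
  refine Finset.sum_congr rfl fun i _ => ?_
  have h1 : bitI true = 1 := rfl
  have h0 : bitI false = 0 := rfl
  by_cases hi : Even i
  · rw [hi.neg_one_pow, one_smul]
    simp only [xp, xm, hi, if_true, h1, h0]
  · rw [(Nat.not_even_iff_odd.mp hi).neg_one_pow, neg_one_smul]
    simp only [xp, xm, hi, if_false, h1, h0]
    abel

end CI3Aux

open CI3Aux

/-- Sq^1 is the Bockstein, exactly, for the lift with values `0` and `1`: twice `sq1 u` is the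
coboundary of the lift, modulo 4. -/
theorem sq1_bockstein {j : ℕ} (hj : 1 ≤ j) {u : C(Cb, X) → ZMod 2} {σ : C(Cb, X)}
    (hσ : IsCube ((j + 1 : ℕ) : ℤ) σ) (hu : dl j u σ = 0) :
    dl j (fun τ => ((u τ).val : ℤ)) σ ≡ 2 * ((sq1 j u σ).val : ℤ) [ZMOD 4] := by
  classical
  rw [dl_eq j (fun x : ZMod 2 => ((x.val : ℕ) : ℤ)) u σ, Finset.sum_sub_distrib, sum_val, sum_val,
    sq1_eq hj, sum_prod, sum_prod, ← Nat.cast_add]
  have h1 : dl j u σ = ∑ i ∈ Finset.range (j + 1), (xp u σ i - xm u σ i) :=
    dl_eq j (fun x : ZMod 2 => x) u σ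
  set s := ((Finset.range (j + 1)).filter fun i => xp u σ i = 1).card with hs
  set t := ((Finset.range (j + 1)).filter fun i => xm u σ i = 1).card with ht
  have hval : ∀ x : ZMod 2, ((((x.val : ℕ) : ℤ)) : ZMod 2) = x := by decide
  have h2 : (((s : ℤ) - (t : ℤ) : ℤ) : ZMod 2) = 0 := by
    rw [hs, ht, ← sum_val, ← sum_val, ← Finset.sum_sub_distrib, ← hu, h1]
    push_cast
    refine Finset.sum_congr rfl fun i _ => ?_
    have e1 := hval (xp u σ i)
    have e2 := hval (xm u σ i)
    push_cast at e1 e2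
    rw [e1, e2]
  obtain ⟨r, hr⟩ : (2 : ℤ) ∣ (s : ℤ) - t := (ZMod.intCast_zmod_eq_zero_iff_dvd _ 2).mp h2
  have h3 : ∀ m : ℕ, (2 : ℤ) * (((m : ZMod 2).val : ℕ) : ℤ) ≡ 2 * m [ZMOD 4] := by
    intro m
    rw [ZMod.val_natCast]
    have h4 : (m : ℤ) % 2 ≡ m [ZMOD 2] := Int.mod_modEq _ _
    have h5 := h4.mul_left' (c := 2)
    push_cast
    exact h5
  refine Int.ModEq.symm ((h3 _).trans ?_)
  have h4 : ∀ m : ℕ, (2 : ℤ) * (m.choose 2 : ℤ) = m * (m - 1) := by
    intro m
    rw [Nat.choose_two_right]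
    have h5 : 2 ∣ m * (m - 1) := (Nat.even_mul_pred_self m).two_dvd
    have h6 : 2 * (m * (m - 1) / 2) = m * (m - 1) := Nat.mul_div_cancel' h5
    rcases Nat.eq_zero_or_pos m with rfl | hm
    · simp
    · have h7 : ((m - 1 : ℕ) : ℤ) = (m : ℤ) - 1 := by
        rw [Nat.cast_sub hm, Nat.cast_one]
      rw [← h7]
      exact_mod_cast h6
  push_cast
  rw [mul_add, h4, h4]
  obtain ⟨c, hc⟩ : (2 : ℤ) ∣ (t : ℤ) * (t - 1) := (Int.even_mul_pred_self t).two_dvd
  have hst : (s : ℤ) = t + 2 * r := by linarith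
  refine (Int.modEq_iff_dvd.mpr ⟨-(c + t * r + r ^ 2 - r), ?_⟩)
  rw [hst]
  linear_combination (-2) * hc
end Pool.Agent.TC
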