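import Pool.Agent.Lib.TC.Coch

/-!
# Section 7.3: cup-i products modulo 2 on cubes, Sq^1 and Sq^2
-/

namespace Pool.Agent.TC

open CubeHom

variable {X Y : Type*} [TopologicalSpace X] [TopologicalSpace Y]

/-- An even number of elements of `B` below `j`. -/
def evB (B : Finset ℕ) (j : ℕ) : Prop := Even (B.filter (· < j)).card

instance (B : Finset ℕ) (j : ℕ) : Decidable (evB B j) := by unfold evB; infer_instance

/-- First face of the word with letters `B` on `B`, `R` on `Rr` and `L` elsewhere. -/
def wI1 (B Rr : Finset ℕ) : ℕ → Option Bool := fun j =>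
  if j ∈ B then none
  else if j ∈ Rr then (if evB B j then none else some true)
  else (if evB B j then some false else none)

/-- Second face. -/
def wI2 (B Rr : Finset ℕ) : ℕ → Option Bool := fun j =>
  if j ∈ B then none
  else if j ∈ Rr then (if evB B j then some true else none)
  else (if evB B j then none else some false)

/-- The cup-i product of cochains of degrees `p` and `n + i - p`, a cochain of degree `n`. -/
def cupI (i n p : ℕ) (u v : C(Cb, X) → ZMod 2) : C(Cb, X) → ZMod 2 := fun σ =>
  ∑ B ∈ (Finset.range n).powersetCard i, ∑ Rr ∈ (Finset.range n \ B).powerset,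
    if ((Finset.range n).filter (fun j => wI1 B Rr j = none)).card = p then
      u (σ.comp (fc n (wI1 B Rr))) * v (σ.comp (fc n (wI2 B Rr)))
    else 0

namespace CI1Aux

open Finset

/-- Words. -/
abbrev W := ℕ → Option Bool

/-- Number of free letters. -/
def cnt (N : ℕ) (w : W) : ℕ := ((Finset.range N).filter (fun j => w j = none)).card

/-- Insertion of a letter. -/
def insw (a : ℕ) (b : Bool) (w : W) : W := fun j =>
  if j < a then w j else if j = a then some b else w (j - 1)

theorem cnt_succ (N : ℕ) (w : W) : cnt (N + 1) w = cnt N w + if w N = none then 1 else 0 := by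
  unfold cnt
  rw [Finset.range_add_one, Finset.filter_insert]
  by_cases h : w N = none
  · simp [h]
  · simp [h]

theorem cnt_mono {M N : ℕ} (h : M ≤ N) (w : W) : cnt M w ≤ cnt N w := by
  unfold cnt
  apply Finset.card_le_card
  apply Finset.filter_subset_filter
  exact Finset.range_subset_range.2 h

theorem cnt_lt {M N : ℕ} (h : M < N) {w : W} (hw : w M = none) : cnt M w < cnt N w := by
  have := cnt_mono (Nat.succ_le_of_lt h) w
  have h2 := cnt_succ M w
  simp only [hw, if_true] at h2
  have h3 : cnt M.succ w = cnt (M + 1) w := rfl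
  omega

theorem cnt_congr {N : ℕ} {w w' : W} (h : ∀ j < N, w j = w' j) : cnt N w = cnt N w' := by
  unfold cnt
  congr 1
  apply Finset.filter_congr
  intro j hj
  rw [h j (Finset.mem_range.1 hj)]

theorem cnt_update_ge {N j : ℕ} (h : N ≤ j) (w : W) (x : Option Bool) :
    cnt N (Function.update w j x) = cnt N w := by
  apply cnt_congr
  intro i hi
  rw [Function.update_of_ne (by omega)]

theorem cnt_update_lt {N j : ℕ} (h : j < N) {w : W} (hw : w j = none) (b : Bool) :
    cnt N (Function.update w j (some b)) + 1 = cnt N w := by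
  induction N with
  | zero => omega
  | succ N ih =>
    rw [cnt_succ, cnt_succ]
    rcases Nat.lt_succ_iff_lt_or_eq.1 h with h1 | h1
    · rw [Function.update_of_ne (by omega), ← ih h1]
      ring
    · subst h1
      rw [cnt_update_ge le_rfl, Function.update_self]
      simp [hw]

theorem ncnt (N : ℕ) (w : W) :
    ((Finset.range N).filter (fun i => w i ≠ none)).card = N - cnt N w := by
  have := Finset.card_filter_add_card_filter_not (s := Finset.range N) (fun j => w j = none)
  rw [Finset.card_range] at this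
  unfold cnt
  simp only [ne_eq]
  omega

theorem cnt_le (N : ℕ) (w : W) : cnt N w ≤ N := by
  unfold cnt
  calc _ ≤ (Finset.range N).card := Finset.card_filter_le _ _
    _ = N := Finset.card_range N

theorem cnt_insw {n a : ℕ} (ha : a ≤ n) (b : Bool) (w : W) :
    cnt (n + 1) (insw a b w) = cnt n w := by
  induction n with
  | zero =>
    have : a = 0 := by omega
    subst this
    simp [cnt, insw]
  | succ n ih =>
    rw [cnt_succ]
    rcases Nat.lt_or_ge n a with h | h
    · have : a = n + 1 := by omega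
      subst this
      have : insw (n + 1) b w (n + 1) = some b := by simp [insw]
      rw [this]
      simp only [reduceCtorEq, if_false, add_zero]
      apply cnt_congr
      intro j hj
      simp [insw, hj]
    · rw [ih h, cnt_succ n w]
      have : insw a b w (n + 1) = w n := by
        simp only [insw]
        rw [if_neg (by omega), if_neg (by omega)]
        simp
      rw [this]

theorem fc_apply_lt {n j : ℕ} (h : j < n) (w : W) (u : Cb) :
    fc n w u j = match w j with
      | none => u (cnt j w)
      | some b => bitI b := by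
  simp only [fc, ContinuousMap.coe_mk, h, if_true, cnt]
  cases w j <;> rfl

theorem fc_apply_ge {n j : ℕ} (h : n ≤ j) (w : W) (u : Cb) :
    fc n w u j = u (j - (n - cnt n w)) := by
  have h1 : ¬ j < n := by omega
  rw [← ncnt]
  simp [fc, h1]

theorem ins_apply (i : ℕ) (e : I) (u : Cb) (j : ℕ) :
    ins i e u j = if j < i then u j else if j = i then e else u (j - 1) := rfl

/-- Insertion after a face map. -/
theorem ins_fc {n a : ℕ} (ha : a ≤ n) (b : Bool) (w : W) :
    (ins a (bitI b)).comp (fc n w) = fc (n + 1) (insw a b w) := by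
  ext u j
  simp only [ContinuousMap.comp_apply, ins_apply]
  rcases lt_trichotomy j a with h | h | h
  · rw [if_pos h, fc_apply_lt (by omega), fc_apply_lt (by omega)]
    have h1 : insw a b w j = w j := by simp [insw, h]
    have h2 : cnt j (insw a b w) = cnt j w := by
      apply cnt_congr
      intro i hi
      have : i < a := by omega
      simp [insw, this]
    rw [h1, h2]
  · subst h
    rw [if_neg (lt_irrefl _), if_pos rfl, fc_apply_lt (by omega)]
    have h1 : insw j b w j = some b := by simp [insw]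
    rw [h1]
  · rw [if_neg (by omega), if_neg (by omega)]
    obtain ⟨m, rfl⟩ : ∃ m, j = m + 1 := ⟨j - 1, by omega⟩
    simp only [Nat.add_sub_cancel]
    rcases Nat.lt_or_ge m n with hm | hm
    · rw [fc_apply_lt hm, fc_apply_lt (by omega)]
      have h1 : insw a b w (m + 1) = w m := by
        simp only [insw]
        rw [if_neg (by omega), if_neg (by omega)]
        simp
      have h2 : cnt (m + 1) (insw a b w) = cnt m w := cnt_insw (by omega) b w
      rw [h1, h2]
    · rw [fc_apply_ge hm, fc_apply_ge (by omega), cnt_insw ha]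
      congr 2
      have := cnt_le n w
      omega

/-- A face map after an insertion. -/
theorem fc_ins {n j : ℕ} (hj : j < n) {w : W} (hw : w j = none) (b : Bool) :
    (fc n w).comp (ins (cnt j w) (bitI b)) = fc n (Function.update w j (some b)) := by
  ext u m
  simp only [ContinuousMap.comp_apply]
  rcases Nat.lt_or_ge m n with hm | hm
  · rw [fc_apply_lt hm, fc_apply_lt hm]
    rcases lt_trichotomy m j with h | h | h
    · rw [Function.update_of_ne (by omega), cnt_update_ge (by omega)]
      cases hwm : w m with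
      | none =>
        have := cnt_lt h hwm
        simp [ins_apply, this]
      | some c => rfl
    · subst h
      rw [Function.update_self, hw]
      simp [ins_apply]
    · rw [Function.update_of_ne (by omega)]
      have h1 := cnt_update_lt h hw b
      cases hwm : w m with
      | none =>
        have h2 := cnt_lt h hw
        simp only [ins_apply]
        rw [if_neg (by omega), if_neg (by omega)]
        congr 2
        omega
      | some c => rfl
  · rw [fc_apply_ge hm, fc_apply_ge hm, ins_apply]
    have h1 := cnt_update_lt hj hw b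
    have h2 := cnt_lt hj hw
    have h3 := cnt_le n w
    rw [if_neg (by omega), if_neg (by omega)]
    congr 2
    omega

/-- Sum over the free letters. -/
theorem sum_faces {M : Type*} [AddCommMonoid M] (n : ℕ) (w : W) (g : ℕ → C(Cb, Cb) → M)
    (b : Bool) :
    ∑ k ∈ Finset.range (cnt n w), g k ((fc n w).comp (ins k (bitI b))) =
      ∑ j ∈ Finset.range n, if w j = none then g (cnt j w) (fc n (Function.update w j (some b)))
        else 0 := by
  rw [← Finset.sum_filter]
  symm
  have hinj : Set.InjOn (fun j => cnt j w) ((Finset.range n).filter (fun j => w j = none)) := by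
    intro j hj k hk h
    simp only [Finset.coe_filter, Finset.mem_range, Set.mem_ofPred_eq] at hj hk
    by_contra hne
    rcases lt_or_gt_of_ne hne with h1 | h1
    · exact absurd h (ne_of_lt (cnt_lt h1 hj.2))
    · exact absurd h (ne_of_gt (cnt_lt h1 hk.2))
  have himg : ((Finset.range n).filter (fun j => w j = none)).image (fun j => cnt j w) =
      Finset.range (cnt n w) := by
    apply Finset.eq_of_subset_of_card_le
    · intro k hk
      simp only [Finset.mem_image, Finset.mem_filter, Finset.mem_range] at hk ⊢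
      obtain ⟨j, hj, rfl⟩ := hk
      exact cnt_lt hj.1 hj.2
    · rw [Finset.card_image_of_injOn hinj, Finset.card_range]
      rfl
  rw [← himg, Finset.sum_image hinj]
  apply Finset.sum_congr rfl
  intro j hj
  simp only [Finset.mem_filter, Finset.mem_range] at hj
  rw [fc_ins hj.1 hj.2]

/-- Functions of pairs of words. -/
abbrev FF := W → W → ZMod 2

/-- Set the last letters. -/
def updF (N : ℕ) (x y : Option Bool) (F : FF) : FF := fun w1 w2 =>
  F (Function.update w1 N x) (Function.update w2 N y)

/-- `F` depends only on the first `N` letters. -/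
def Loc (N : ℕ) (F : FF) : Prop := ∀ w1 w1' w2 w2' : W, (∀ j < N, w1 j = w1' j) →
  (∀ j < N, w2 j = w2' j) → F w1 w2 = F w1' w2'

theorem loc_upd {N : ℕ} {F : FF} (h : Loc (N + 1) F) (x y : Option Bool) :
    Loc N (updF N x y F) := by
  intro w1 w1' w2 w2' h1 h2
  apply h
  · intro j hj
    by_cases hjN : j = N
    · subst hjN; simp
    · rw [Function.update_of_ne hjN, Function.update_of_ne hjN]
      exact h1 j (by omega)
  · intro j hj
    by_cases hjN : j = N
    · subst hjN; simp
    · rw [Function.update_of_ne hjN, Function.update_of_ne hjN]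
      exact h2 j (by omega)

/-- The letters `R` and `L`. -/
def r1 (i : ℤ) : Option Bool := if Even i then none else some true
def r2 (i : ℤ) : Option Bool := if Even i then some true else none
def l1 (i : ℤ) : Option Bool := if Even i then some false else none
def l2 (i : ℤ) : Option Bool := if Even i then none else some false

/-- The sum over all codes with `i` letters `B`. -/
def S : ℕ → ℤ → FF → ZMod 2
  | 0, i, F => if i = 0 then F (fun _ => none) (fun _ => none) else 0
  | N + 1, i, F => S N (i - 1) (updF N none none F) + S N i (updF N (r1 i) (r2 i) F) +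
      S N i (updF N (l1 i) (l2 i) F)

/-- The sum over all codes of length `N - 1` and all insertions. -/
def T : ℕ → ℤ → FF → ZMod 2
  | 0, _, _ => 0
  | N + 1, i, F => S N i (updF N (some false) (some false) F) +
      S N i (updF N (some true) (some true) F) + T N (i - 1) (updF N none none F) +
      T N i (updF N (r1 i) (r2 i) F) + T N i (updF N (l1 i) (l2 i) F)

theorem S_add (N : ℕ) : ∀ (i : ℤ) (F G : FF),
    S N i (fun w1 w2 => F w1 w2 + G w1 w2) = S N i F + S N i G := by
  induction N with
  | zero => intro i F G; by_cases h : i = 0 <;> simp [S, h]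
  | succ N ih =>
    intro i F G
    simp only [S]
    have h : ∀ x y, updF N x y (fun w1 w2 => F w1 w2 + G w1 w2) =
        fun w1 w2 => updF N x y F w1 w2 + updF N x y G w1 w2 := fun x y => rfl
    rw [h, h, h, ih, ih, ih]
    ring

theorem S_zero (N : ℕ) : ∀ (i : ℤ), S N i (fun _ _ => 0) = 0 := by
  induction N with
  | zero => intro i; simp [S]
  | succ N ih =>
    intro i
    simp only [S]
    have h : ∀ x y, updF N x y (fun _ _ => 0) = fun _ _ => 0 := fun x y => rfl
    rw [h, h, h, ih, ih]
    ring

theorem S_neg (N : ℕ) : ∀ (i : ℤ) (F : FF), i < 0 → S N i F = 0 := by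
  induction N with
  | zero => intro i F hi; simp only [S]; rw [if_neg (by omega)]
  | succ N ih =>
    intro i F hi
    simp only [S]
    rw [ih _ _ hi, ih _ _ hi, ih _ _ (by omega)]
    ring

/-- The sum of a function on all codes only depends on the values on pairs with the right
dimension. -/
theorem S_congr' (N : ℕ) : ∀ (i : ℤ) (F G : FF),
    (∀ w1 w2 : W, (∀ j < N, w1 j = none ∨ w2 j = none) → (cnt N w1 + cnt N w2 : ℤ) = N + i →
      (∀ j, N ≤ j → w1 j = none ∧ w2 j = none) → F w1 w2 = G w1 w2) →
      S N i F = S N i G := by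
  induction N with
  | zero =>
    intro i F G h
    by_cases hi : i = 0
    · simp only [S, hi, if_true]
      apply h
      · intro j hj; omega
      · simp [cnt, hi]
      · intro j _; exact ⟨rfl, rfl⟩
    · simp [S, hi]
  | succ N ih =>
    intro i F G h
    simp only [S]
    have key : ∀ (x y : Option Bool) (i' : ℤ), (x = none ∨ y = none) →
        ((if x = none then (1 : ℤ) else 0) + (if y = none then 1 else 0) + i' = i + 1) →
        S N i' (updF N x y F) = S N i' (updF N x y G) := by
      intro x y i' hxy hx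
      apply ih
      intro w1 w2 hn hw ho
      apply h
      · intro j hj
        by_cases hjN : j = N
        · subst hjN
          rw [Function.update_self, Function.update_self]
          exact hxy
        · rw [Function.update_of_ne hjN, Function.update_of_ne hjN]
          exact hn j (by omega)
      · rw [cnt_succ, cnt_succ, cnt_update_ge le_rfl, cnt_update_ge le_rfl, Function.update_self,
          Function.update_self]
        by_cases h1 : x = none <;> by_cases h2 : y = none <;> simp [h1, h2] at hx ⊢ <;> omega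
      · intro j hj
        rw [Function.update_of_ne (by omega), Function.update_of_ne (by omega)]
        exact ho j (by omega)
    rw [key none none (i - 1) (Or.inl rfl) (by simp; ring), key (r1 i) (r2 i) i,
      key (l1 i) (l2 i) i]
    · unfold l1 l2; by_cases h : Even i <;> simp [h]
    · unfold l1 l2; by_cases h : Even i <;> simp [h] <;> ring
    · unfold r1 r2; by_cases h : Even i <;> simp [h]
    · unfold r1 r2; by_cases h : Even i <;> simp [h] <;> ring

theorem S_congr (N : ℕ) (i : ℤ) (F G : FF)
    (h : ∀ w1 w2 : W, (cnt N w1 + cnt N w2 : ℤ) = N + i → F w1 w2 = G w1 w2) :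
      S N i F = S N i G := S_congr' N i F G (fun w1 w2 _ hw _ => h w1 w2 hw)

/-- Boundary of the first word. -/
def b1 (N : ℕ) (F : FF) : FF := fun w1 w2 => ∑ j ∈ Finset.range N,
  if w1 j = none then F (Function.update w1 j (some false)) w2 +
    F (Function.update w1 j (some true)) w2 else 0

/-- Boundary of the second word. -/
def b2 (N : ℕ) (F : FF) : FF := fun w1 w2 => ∑ j ∈ Finset.range N,
  if w2 j = none then F w1 (Function.update w2 j (some false)) +
    F w1 (Function.update w2 j (some true)) else 0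

theorem upd_b1 (N : ℕ) (x y : Option Bool) (F : FF) :
    updF N x y (b1 (N + 1) F) = fun w1 w2 => b1 N (updF N x y F) w1 w2 +
      (if x = none then updF N (some false) y F w1 w2 + updF N (some true) y F w1 w2 else 0) := by
  funext w1 w2
  simp only [updF, b1]
  rw [Finset.sum_range_succ]
  congr 1
  · apply Finset.sum_congr rfl
    intro j hj
    have hj' : j < N := Finset.mem_range.1 hj
    have hne : j ≠ N := by omega
    rw [Function.update_of_ne hne, Function.update_comm hne, Function.update_comm hne]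
  · rw [Function.update_self, Function.update_idem, Function.update_idem]

theorem upd_b2 (N : ℕ) (x y : Option Bool) (F : FF) :
    updF N x y (b2 (N + 1) F) = fun w1 w2 => b2 N (updF N x y F) w1 w2 +
      (if y = none then updF N x (some false) F w1 w2 + updF N x (some true) F w1 w2 else 0) := by
  funext w1 w2
  simp only [updF, b2]
  rw [Finset.sum_range_succ]
  congr 1
  · apply Finset.sum_congr rfl
    intro j hj
    have hj' : j < N := Finset.mem_range.1 hj
    have hne : j ≠ N := by omega
    rw [Function.update_of_ne hne, Function.update_comm hne, Function.update_comm hne]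
  · rw [Function.update_self, Function.update_idem, Function.update_idem]

/-- Swap. -/
def swp (F : FF) : FF := fun w1 w2 => F w2 w1

theorem upd_swp (N : ℕ) (x y : Option Bool) (F : FF) :
    updF N x y (swp F) = swp (updF N y x F) := rfl

theorem two_eq (x : ZMod 2) : x + x = 0 := CharTwo.add_self_eq_zero x

/-- The main identity. -/
theorem main (N : ℕ) : ∀ (i : ℤ) (F : FF),
    S N i (b1 N F) + S N i (b2 N F) = T N i F + S N (i - 1) F + S N (i - 1) (swp F) := by
  induction N with
  | zero =>
    intro i F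
    have h1 : b1 0 F = fun _ _ => 0 := by funext w1 w2; simp [b1]
    have h2 : b2 0 F = fun _ _ => 0 := by funext w1 w2; simp [b2]
    rw [h1, h2, S_zero]
    simp only [T, S, swp]
    by_cases h : i - 1 = 0
    · simp [h, two_eq]
    · simp [h]
  | succ N ih =>
    intro i F
    simp only [S, T, upd_b1, upd_b2, S_add, upd_swp]
    have e1 := ih (i - 1) (updF N none none F)
    have e2 := ih i (updF N (r1 i) (r2 i) F)
    have e3 := ih i (updF N (l1 i) (l2 i) F)
    by_cases h : Even i
    · have h' : ¬ Even (i - 1) := by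
        intro h2
        rw [Int.even_sub_one] at h2
        exact h2 h
      simp only [r1, r2, l1, l2, h, h', if_true, if_false, reduceCtorEq, S_add, S_zero] at e1 e2 e3 ⊢
      linear_combination e1 + e2 + e3 + two_eq (S N (i - 1) (updF N none (some true) F))
        + two_eq (S N (i - 1) (updF N (some false) none F))
        + two_eq (S N i (updF N (some false) (some true) F))
    · have h' : Even (i - 1) := by
        rw [Int.even_sub_one]; exact h
      simp only [r1, r2, l1, l2, h, h', if_true, if_false, reduceCtorEq, S_add, S_zero] at e1 e2 e3 ⊢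
      linear_combination e1 + e2 + e3 + two_eq (S N (i - 1) (updF N none (some false) F))
        + two_eq (S N (i - 1) (updF N (some true) none F))
        + two_eq (S N i (updF N (some true) (some false) F))

/-- Insertion in both words. -/
def insF (a : ℕ) (b : Bool) (F : FF) : FF := fun w1 w2 => F (insw a b w1) (insw a b w2)

theorem insF_last {n : ℕ} {F : FF} (h : Loc (n + 1) F) (b : Bool) :
    insF n b F = updF n (some b) (some b) F := by
  funext w1 w2
  have key : ∀ w : W, ∀ j < n + 1, insw n b w j = Function.update w n (some b) j := by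
    intro w j hj
    by_cases hjn : j = n
    · subst hjn; simp [insw]
    · rw [Function.update_of_ne hjn]
      simp only [insw]
      rw [if_pos (by omega)]
  exact h _ _ _ _ (key w1) (key w2)

theorem insw_update {n a : ℕ} (ha : a ≤ n) (b : Bool) (x : Option Bool) (w : W) :
    insw a b (Function.update w n x) = Function.update (insw a b w) (n + 1) x := by
  funext j
  by_cases hj : j = n + 1
  · subst hj
    rw [Function.update_self]
    simp only [insw]
    rw [if_neg (by omega), if_neg (by omega)]
    simp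
  · rw [Function.update_of_ne hj]
    simp only [insw]
    by_cases h1 : j < a
    · rw [if_pos h1, if_pos h1, Function.update_of_ne (by omega)]
    · rw [if_neg h1, if_neg h1]
      by_cases h2 : j = a
      · rw [if_pos h2, if_pos h2]
      · rw [if_neg h2, if_neg h2, Function.update_of_ne (by omega)]

theorem upd_insF {n a : ℕ} (ha : a ≤ n) (b : Bool) (x y : Option Bool) (F : FF) :
    updF n x y (insF a b F) = insF a b (updF (n + 1) x y F) := by
  funext w1 w2
  simp only [updF, insF]
  rw [insw_update ha, insw_update ha]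

theorem sum_ins (n : ℕ) : ∀ (i : ℤ) (F : FF), Loc (n + 1) F →
    ∑ a ∈ Finset.range (n + 1), (S n i (insF a false F) + S n i (insF a true F)) =
      T (n + 1) i F := by
  induction n with
  | zero =>
    intro i F h
    rw [Finset.sum_range_one, insF_last h, insF_last h]
    simp only [T, add_zero]
  | succ n ih =>
    intro i F h
    rw [Finset.sum_range_succ, insF_last h, insF_last h]
    have hs : ∀ a ∈ Finset.range (n + 1),
        (S (n + 1) i (insF a false F) + S (n + 1) i (insF a true F)) =
        (S n (i - 1) (insF a false (updF (n + 1) none none F)) +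
          S n (i - 1) (insF a true (updF (n + 1) none none F))) +
        (S n i (insF a false (updF (n + 1) (r1 i) (r2 i) F)) +
          S n i (insF a true (updF (n + 1) (r1 i) (r2 i) F))) +
        (S n i (insF a false (updF (n + 1) (l1 i) (l2 i) F)) +
          S n i (insF a true (updF (n + 1) (l1 i) (l2 i) F))) := by
      intro a ha
      have ha' : a ≤ n := Nat.lt_succ_iff.1 (Finset.mem_range.1 ha)
      rw [show S (n + 1) i (insF a false F) = S n (i - 1) (updF n none none (insF a false F)) +
        S n i (updF n (r1 i) (r2 i) (insF a false F)) +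
        S n i (updF n (l1 i) (l2 i) (insF a false F)) from rfl,
        show S (n + 1) i (insF a true F) = S n (i - 1) (updF n none none (insF a true F)) +
        S n i (updF n (r1 i) (r2 i) (insF a true F)) +
        S n i (updF n (l1 i) (l2 i) (insF a true F)) from rfl]
      simp only [upd_insF ha']
      ring
    rw [Finset.sum_congr rfl hs, Finset.sum_add_distrib, Finset.sum_add_distrib,
      ih _ _ (loc_upd h _ _), ih _ _ (loc_upd h _ _), ih _ _ (loc_upd h _ _)]
    rw [show T (n + 1 + 1) i F = S (n + 1) i (updF (n + 1) (some false) (some false) F) +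
      S (n + 1) i (updF (n + 1) (some true) (some true) F) +
      T (n + 1) (i - 1) (updF (n + 1) none none F) +
      T (n + 1) i (updF (n + 1) (r1 i) (r2 i) F) + T (n + 1) i (updF (n + 1) (l1 i) (l2 i) F)
      from rfl]
    ring

theorem evB_eq {N : ℕ} {B : Finset ℕ} (hB : B ⊆ Finset.range N) : evB B N ↔ Even (B.card : ℤ) := by
  unfold evB
  rw [Finset.filter_true_of_mem (fun j hj => Finset.mem_range.1 (hB hj))]
  exact (Int.even_coe_nat _).symm

theorem evB_insert {N j : ℕ} (hj : j ≤ N) (B : Finset ℕ) : evB (insert N B) j ↔ evB B j := by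
  unfold evB
  rw [Finset.filter_insert, if_neg (show ¬ N < j by omega)]

/-- The sum over the codes, as a sum over sets. -/
def G (N : ℕ) (i : ℤ) (F : FF) : ZMod 2 :=
  ∑ B ∈ (Finset.range N).powerset, ∑ Rr ∈ (Finset.range N \ B).powerset,
    if (B.card : ℤ) = i then F (wI1 B Rr) (wI2 B Rr) else 0

theorem G_eq (N : ℕ) : ∀ (i : ℤ) (F : FF), Loc N F → G N i F = S N i F := by
  induction N with
  | zero =>
    intro i F h
    simp only [G, Finset.range_zero, Finset.powerset_empty, Finset.sum_singleton,
      Finset.empty_sdiff, S, Finset.card_empty, Nat.cast_zero]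
    by_cases hi : i = 0
    · rw [if_pos hi.symm, if_pos hi]
      exact h _ _ _ _ (fun j hj => absurd hj (Nat.not_lt_zero j))
        (fun j hj => absurd hj (Nat.not_lt_zero j))
    · rw [if_neg (Ne.symm hi), if_neg hi]
  | succ N ih =>
    intro i F h
    simp only [S]
    rw [← ih _ _ (loc_upd h _ _), ← ih _ _ (loc_upd h _ _), ← ih _ _ (loc_upd h _ _)]
    unfold G
    rw [Finset.range_add_one, Finset.sum_powerset_insert (by simp)]
    rw [← Finset.sum_add_distrib, ← Finset.sum_add_distrib, ← Finset.sum_add_distrib]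
    apply Finset.sum_congr rfl
    intro B hB
    have hB' : B ⊆ Finset.range N := Finset.mem_powerset.1 hB
    have hNB : N ∉ B := fun h' => by simpa using hB' h'
    have hd1 : insert N (Finset.range N) \ B = insert N (Finset.range N \ B) := by
      rw [Finset.insert_sdiff_of_notMem _ hNB]
    have hd2 : insert N (Finset.range N) \ insert N B = Finset.range N \ B := by
      ext j
      simp only [Finset.mem_sdiff, Finset.mem_insert, Finset.mem_range]
      by_cases hj : j = N
      · subst hj; simp
      · simp [hj]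
    rw [hd1, hd2, Finset.sum_powerset_insert (by simp), ← Finset.sum_add_distrib,
      ← Finset.sum_add_distrib, ← Finset.sum_add_distrib, ← Finset.sum_add_distrib]
    apply Finset.sum_congr rfl
    intro Rr hR
    have hR' : Rr ⊆ Finset.range N \ B := Finset.mem_powerset.1 hR
    have hNR : N ∉ Rr := fun h' => by simpa using hR' h'
    have hL : (B.card : ℤ) = i → F (wI1 B Rr) (wI2 B Rr) =
        updF N (l1 i) (l2 i) F (wI1 B Rr) (wI2 B Rr) := by
      intro hi
      unfold updF
      congr 1
      · symm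
        rw [Function.update_eq_self_iff]
        simp only [wI1, hNB, hNR, if_false, l1, ← hi, evB_eq hB']
      · symm
        rw [Function.update_eq_self_iff]
        simp only [wI2, hNB, hNR, if_false, l2, ← hi, evB_eq hB']
    have hRr : (B.card : ℤ) = i → F (wI1 B (insert N Rr)) (wI2 B (insert N Rr)) =
        updF N (r1 i) (r2 i) F (wI1 B Rr) (wI2 B Rr) := by
      intro hi
      unfold updF
      congr 1
      · funext j
        by_cases hj : j = N
        · subst hj
          rw [Function.update_self]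
          simp only [wI1, hNB, Finset.mem_insert_self, if_true, if_false, r1, ← hi, evB_eq hB']
        · rw [Function.update_of_ne hj]
          simp only [wI1, Finset.mem_insert, hj, false_or]
      · funext j
        by_cases hj : j = N
        · subst hj
          rw [Function.update_self]
          simp only [wI2, hNB, Finset.mem_insert_self, if_true, if_false, r2, ← hi, evB_eq hB']
        · rw [Function.update_of_ne hj]
          simp only [wI2, Finset.mem_insert, hj, false_or]
    have hBB : F (wI1 (insert N B) Rr) (wI2 (insert N B) Rr) =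
        updF N none none F (wI1 B Rr) (wI2 B Rr) := by
      unfold updF
      apply h
      · intro j hj
        by_cases hjN : j = N
        · subst hjN
          rw [Function.update_self]
          simp [wI1]
        · rw [Function.update_of_ne hjN]
          simp only [wI1, Finset.mem_insert, hjN, false_or, evB_insert (show j ≤ N by omega)]
      · intro j hj
        by_cases hjN : j = N
        · subst hjN
          rw [Function.update_self]
          simp [wI2]
        · rw [Function.update_of_ne hjN]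
          simp only [wI2, Finset.mem_insert, hjN, false_or, evB_insert (show j ≤ N by omega)]
    rw [hBB, Finset.card_insert_of_notMem hNB]
    by_cases hi : (B.card : ℤ) = i
    · have h1 : ¬ ((B.card + 1 : ℕ) : ℤ) = i := by push_cast; omega
      have h2 : ¬ (B.card : ℤ) = i - 1 := by omega
      simp only [if_pos hi, if_neg h1, if_neg h2, hL hi, hRr hi]
      ring
    · by_cases h2 : (B.card : ℤ) = i - 1
      · have h1 : ((B.card + 1 : ℕ) : ℤ) = i := by push_cast; omega
        simp only [if_neg hi, if_pos h1, if_pos h2]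
        ring
      · have h1 : ¬ ((B.card + 1 : ℕ) : ℤ) = i := by push_cast; omega
        simp only [if_neg hi, if_neg h1, if_neg h2, add_zero]

/-- The function of a pair of cochains. -/
def FU (N p : ℕ) (u v : C(Cb, X) → ZMod 2) (σ : C(Cb, X)) : FF := fun w1 w2 =>
  if cnt N w1 = p then u (σ.comp (fc N w1)) * v (σ.comp (fc N w2)) else 0

theorem fc_congr {N : ℕ} {w w' : W} (h : ∀ j < N, w j = w' j) : fc N w = fc N w' := by
  ext u j
  rcases Nat.lt_or_ge j N with hj | hj
  · rw [fc_apply_lt hj, fc_apply_lt hj, h j hj,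
      cnt_congr (N := j) (w := w) (w' := w') (fun i hi => h i (by omega))]
  · rw [fc_apply_ge hj, fc_apply_ge hj, cnt_congr h]

theorem loc_FU (N p : ℕ) (u v : C(Cb, X) → ZMod 2) (σ : C(Cb, X)) : Loc N (FU N p u v σ) := by
  intro w1 w1' w2 w2' h1 h2
  unfold FU
  rw [cnt_congr h1, fc_congr h1, fc_congr h2]

theorem cupI_eq_G (i N p : ℕ) (u v : C(Cb, X) → ZMod 2) (σ : C(Cb, X)) :
    cupI i N p u v σ = G N i (FU N p u v σ) := by
  unfold cupI G
  rw [Finset.powersetCard_eq_filter, Finset.sum_filter]
  apply Finset.sum_congr rfl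
  intro B _
  by_cases hi : B.card = i
  · have hi' : (B.card : ℤ) = i := by exact_mod_cast hi
    rw [if_pos hi]
    apply Finset.sum_congr rfl
    intro Rr _
    rw [if_pos hi']
    rfl
  · have hi' : ¬ (B.card : ℤ) = i := by exact_mod_cast hi
    rw [if_neg hi]
    simp only [if_neg hi', Finset.sum_const_zero]

theorem cupI_eq (i N p : ℕ) (u v : C(Cb, X) → ZMod 2) (σ : C(Cb, X)) :
    cupI i N p u v σ = S N i (FU N p u v σ) := by
  rw [cupI_eq_G, G_eq _ _ _ (loc_FU N p u v σ)]

theorem bitI_true : bitI true = 1 := rfl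
theorem bitI_false : bitI false = 0 := rfl

theorem neg_one_smul (a : ℕ) (x : ZMod 2) : ((-1 : ℤ) ^ a) • x = x := by
  rcases neg_one_pow_eq_or ℤ a with h | h
  · rw [h, one_smul]
  · rw [h, neg_smul, one_smul]
    exact ZMod.neg_eq_self_mod_two x

theorem dl_eq (k : ℕ) (u : C(Cb, X) → ZMod 2) (σ : C(Cb, X)) :
    dl k u σ = ∑ a ∈ Finset.range (k + 1),
      (u (σ.comp (ins a (bitI false))) + u (σ.comp (ins a (bitI true)))) := by
  unfold dl
  apply Finset.sum_congr rfl
  intro a _
  rw [neg_one_smul, bitI_true, bitI_false]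
  have := two_eq (u (σ.comp (ins a 0)))
  linear_combination (-1 : ZMod 2) * this

theorem dl_fc {N k : ℕ} {w : W} (hw : cnt N w = k + 1) (u : C(Cb, X) → ZMod 2) (σ : C(Cb, X)) :
    dl k u (σ.comp (fc N w)) = ∑ j ∈ Finset.range N,
      if w j = none then u (σ.comp (fc N (Function.update w j (some false)))) +
        u (σ.comp (fc N (Function.update w j (some true)))) else 0 := by
  rw [dl_eq, ← hw, Finset.sum_add_distrib]
  have h := fun b => sum_faces N w (fun _ f => u (σ.comp f)) b
  have e1 : ∀ (b : Bool) (a : ℕ), (σ.comp (fc N w)).comp (ins a (bitI b)) =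
      σ.comp ((fc N w).comp (ins a (bitI b))) := fun b a => rfl
  simp only [e1]
  rw [h false, h true, ← Finset.sum_add_distrib]
  apply Finset.sum_congr rfl
  intro j _
  by_cases hj : w j = none
  · simp only [hj, if_true]
  · simp only [hj, if_false, add_zero]

end CI1Aux

open CI1Aux in
/-- The coboundary formula (numerically checked), `q = n + i - p`. -/
theorem dl_cupI (i n p q : ℕ) (h : p + q = n + i) (u v : C(Cb, X) → ZMod 2) {σ : C(Cb, X)}
    (hσ : IsCube ((n + 1 : ℕ) : ℤ) σ) :
    dl n (cupI i n p u v) σ =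
      cupI i (n + 1) (p + 1) (dl p u) v σ + cupI i (n + 1) p u (dl q v) σ +
        (if i = 0 then 0 else cupI (i - 1) (n + 1) p u v σ + cupI (i - 1) (n + 1) q v u σ) := by
  have hloc := loc_FU (n + 1) p u v σ
  have hm := main (n + 1) i (FU (n + 1) p u v σ)
  have h1 : dl n (cupI i n p u v) σ = T (n + 1) i (FU (n + 1) p u v σ) := by
    rw [dl_eq, ← sum_ins _ _ _ hloc]
    apply Finset.sum_congr rfl
    intro a ha
    have ha' : a ≤ n := Nat.lt_succ_iff.1 (Finset.mem_range.1 ha)
    have key : ∀ b : Bool, cupI i n p u v (σ.comp (ins a (bitI b))) =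
        S n i (insF a b (FU (n + 1) p u v σ)) := by
      intro b
      rw [cupI_eq]
      congr 1
      funext w1 w2
      simp only [FU, insF]
      rw [cnt_insw ha', ← ins_fc ha', ← ins_fc ha']
      rfl
    rw [key, key]
  have h2 : cupI i (n + 1) (p + 1) (dl p u) v σ = S (n + 1) i (b1 (n + 1) (FU (n + 1) p u v σ)) := by
    rw [cupI_eq]
    congr 1
    funext w1 w2
    simp only [FU, b1]
    by_cases hw : cnt (n + 1) w1 = p + 1
    · rw [if_pos hw, dl_fc hw, Finset.sum_mul]
      apply Finset.sum_congr rfl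
      intro j hj
      have hj' : j < n + 1 := Finset.mem_range.1 hj
      by_cases hwj : w1 j = none
      · have hc := fun b => cnt_update_lt hj' hwj b
        have hc' : ∀ b, cnt (n + 1) (Function.update w1 j (some b)) = p := by
          intro b
          have := hc b
          omega
        rw [if_pos hwj, if_pos hwj, if_pos (hc' _), if_pos (hc' _), add_mul]
      · rw [if_neg hwj, if_neg hwj, zero_mul]
    · rw [if_neg hw]
      symm
      apply Finset.sum_eq_zero
      intro j hj
      have hj' : j < n + 1 := Finset.mem_range.1 hj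
      by_cases hwj : w1 j = none
      · have hc' : ∀ b, ¬ cnt (n + 1) (Function.update w1 j (some b)) = p := by
          intro b
          have := cnt_update_lt hj' hwj b
          omega
        rw [if_pos hwj, if_neg (hc' _), if_neg (hc' _), add_zero]
      · rw [if_neg hwj]
  have h3 : cupI i (n + 1) p u (dl q v) σ = S (n + 1) i (b2 (n + 1) (FU (n + 1) p u v σ)) := by
    rw [cupI_eq]
    apply S_congr
    intro w1 w2 hw
    simp only [FU, b2]
    by_cases hp : cnt (n + 1) w1 = p
    · have hq : cnt (n + 1) w2 = q + 1 := by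
        rw [hp] at hw
        push_cast at hw
        omega
      rw [if_pos hp, dl_fc hq, Finset.mul_sum]
      apply Finset.sum_congr rfl
      intro j _
      simp only [if_pos hp]
      by_cases hwj : w2 j = none
      · rw [if_pos hwj, if_pos hwj, mul_add]
      · rw [if_neg hwj, if_neg hwj, mul_zero]
    · rw [if_neg hp]
      symm
      apply Finset.sum_eq_zero
      intro j _
      simp only [if_neg hp, add_zero, ite_self]
  rw [h1, h2, h3]
  by_cases hi : i = 0
  · subst hi
    have hneg : ∀ F : FF, S (n + 1) (-1) F = 0 := fun F => S_neg (n + 1) (-1) F (by norm_num)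
    rw [if_pos rfl]
    have h4 := hneg (FU (n + 1) p u v σ)
    have h5 := hneg (swp (FU (n + 1) p u v σ))
    simp only [Nat.cast_zero, zero_sub] at hm
    rw [h4, h5] at hm
    rw [Nat.cast_zero, add_zero, hm]
    ring
  · rw [if_neg hi]
    obtain ⟨k, rfl⟩ : ∃ k, i = k + 1 := ⟨i - 1, by omega⟩
    simp only [Nat.add_sub_cancel]
    rw [cupI_eq, cupI_eq]
    have h4 : S (n + 1) k (FU (n + 1) q v u σ) = S (n + 1) k (swp (FU (n + 1) p u v σ)) := by
      apply S_congr
      intro w1 w2 hw
      simp only [FU, swp]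
      by_cases hp : cnt (n + 1) w2 = p
      · have hq : cnt (n + 1) w1 = q := by
          rw [hp] at hw
          push_cast at hw
          omega
        rw [if_pos hp, if_pos hq, mul_comm]
      · have hq : ¬ cnt (n + 1) w1 = q := by
          intro hq
          rw [hq] at hw
          push_cast at hw
          omega
        rw [if_neg hp, if_neg hq]
    rw [h4]
    rw [show ((k + 1 : ℕ) : ℤ) - 1 = (k : ℤ) by push_cast; ring] at hm
    rw [hm]
    have e1 := two_eq (S (n + 1) k (FU (n + 1) p u v σ))
    have e2 := two_eq (S (n + 1) k (swp (FU (n + 1) p u v σ)))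
    linear_combination (-1 : ZMod 2) * e1 + (-1 : ZMod 2) * e2

theorem cupI_pb (i n p : ℕ) (f : C(X, Y)) (u v : C(Cb, Y) → ZMod 2) :
    cupI i n p (pb f u) (pb f v) = pb f (cupI i n p u v) := rfl

namespace CI2Aux

open CI1Aux

theorem cupI_congr {i N p q : ℕ} (h : p + q = N + i) {u u' v v' : C(Cb, X) → ZMod 2}
    {σ : C(Cb, X)} (hu : ∀ w, cnt N w = p → u (σ.comp (fc N w)) = u' (σ.comp (fc N w)))
    (hv : ∀ w, cnt N w = q → v (σ.comp (fc N w)) = v' (σ.comp (fc N w))) :
    cupI i N p u v σ = cupI i N p u' v' σ := by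
  rw [cupI_eq, cupI_eq]
  apply S_congr
  intro w1 w2 hw
  simp only [FU]
  by_cases hp : cnt N w1 = p
  · have hq : cnt N w2 = q := by rw [hp] at hw; omega
    rw [if_pos hp, if_pos hp, hu w1 hp, hv w2 hq]
  · rw [if_neg hp, if_neg hp]

theorem cupI_add_left (i N p : ℕ) (u u' v : C(Cb, X) → ZMod 2) (σ : C(Cb, X)) :
    cupI i N p (fun τ => u τ + u' τ) v σ = cupI i N p u v σ + cupI i N p u' v σ := by
  rw [cupI_eq, cupI_eq, cupI_eq, ← S_add]
  congr 1
  funext w1 w2
  simp only [FU]
  by_cases hp : cnt N w1 = p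
  · rw [if_pos hp, if_pos hp, if_pos hp, add_mul]
  · rw [if_neg hp, if_neg hp, if_neg hp, add_zero]

theorem cupI_add_right (i N p : ℕ) (u v v' : C(Cb, X) → ZMod 2) (σ : C(Cb, X)) :
    cupI i N p u (fun τ => v τ + v' τ) σ = cupI i N p u v σ + cupI i N p u v' σ := by
  rw [cupI_eq, cupI_eq, cupI_eq, ← S_add]
  congr 1
  funext w1 w2
  simp only [FU]
  by_cases hp : cnt N w1 = p
  · rw [if_pos hp, if_pos hp, if_pos hp, mul_add]
  · rw [if_neg hp, if_neg hp, if_neg hp, add_zero]

theorem cupI_zero (i N p : ℕ) (σ : C(Cb, X)) :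
    cupI i N p (fun _ => 0) (fun _ => 0) σ = 0 := by
  rw [cupI_eq]
  have : FU N p (fun _ : C(Cb, X) => (0 : ZMod 2)) (fun _ => 0) σ = fun _ _ => 0 := by
    funext w1 w2
    simp [FU]
  rw [this, S_zero]

theorem cupI_zero_left {i N p : ℕ} {u v : C(Cb, X) → ZMod 2}
    {σ : C(Cb, X)} (hu : ∀ w, cnt N w = p → u (σ.comp (fc N w)) = 0) :
    cupI i N p u v σ = 0 := by
  rw [cupI_eq]
  have : FU N p u v σ = fun _ _ => 0 := by
    funext w1 w2
    simp only [FU]
    by_cases hp : cnt N w1 = p
    · rw [if_pos hp, hu w1 hp, zero_mul]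
    · rw [if_neg hp]
  rw [this, S_zero]

theorem cupI_zero_right {i N p q : ℕ} (h : p + q = N + i) {u v : C(Cb, X) → ZMod 2}
    {σ : C(Cb, X)} (hv : ∀ w, cnt N w = q → v (σ.comp (fc N w)) = 0) :
    cupI i N p u v σ = 0 := by
  rw [cupI_eq, ← S_zero N i]
  apply S_congr
  intro w1 w2 hw
  simp only [FU]
  by_cases hp : cnt N w1 = p
  · have hq : cnt N w2 = q := by rw [hp] at hw; omega
    rw [if_pos hp, hv w2 hq, mul_zero]
  · rw [if_neg hp]

theorem isCube_cnt {N k : ℕ} {w : W} (hw : cnt N w = k) {σ : C(Cb, X)}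
    (h : IsCube (N : ℤ) σ) : IsCube (k : ℤ) (σ.comp (fc N w)) := by
  subst hw
  exact isCube_fc h

/-- Faces of degenerate cubes. -/
theorem degen_fc {N j : ℕ} {w : W} (hj : j < N) (hw : w j = none) {σ : C(Cb, X)}
    (h : DependsOn (σ : Cb → X) {m : ℕ | m ≠ j}) :
    Degen ((cnt N w : ℕ) : ℤ) (σ.comp (fc N w)) := by
  refine ⟨cnt j w, by exact_mod_cast cnt_lt hj hw, ?_⟩
  intro x y hxy
  simp only [ContinuousMap.comp_apply]
  apply h
  intro m hm
  have hm' : m ≠ j := hm
  rcases Nat.lt_or_ge m N with hmN | hmN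
  · rw [fc_apply_lt hmN, fc_apply_lt hmN]
    cases hwm : w m with
    | none =>
      apply hxy
      show cnt m w ≠ cnt j w
      rcases lt_or_gt_of_ne hm' with h1 | h1
      · exact ne_of_lt (cnt_lt h1 hwm)
      · exact ne_of_gt (cnt_lt h1 hw)
    | some b => rfl
  · rw [fc_apply_ge hmN, fc_apply_ge hmN]
    apply hxy
    show m - (N - cnt N w) ≠ cnt j w
    have h1 := cnt_lt hj hw
    have h2 := cnt_le N w
    omega

end CI2Aux

open CI1Aux CI2Aux

theorem cupI_rel (S : CS X) {i n p q : ℕ} (h : p + q = n + i) {u v : C(Cb, X) → ZMod 2}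
    (hu : S.Rel p u) (hv : S.Rel q v) : S.Rel n (cupI i n p u v) := by
  intro σ hσ hok hd
  rw [cupI_eq, ← S_zero n i]
  apply S_congr'
  intro w1 w2 hn hw _
  simp only [FU]
  by_cases hp : cnt n w1 = p
  · have hq : cnt n w2 = q := by rw [hp] at hw; omega
    rw [if_pos hp]
    rcases hd with hnul | ⟨j, hj, hdep⟩
    · rw [hu _ (isCube_cnt hp hσ) (S.ok_comp _ _ hok) (Or.inl (S.nul_comp _ _ hnul)), zero_mul]
    · have hj' : j < n := by exact_mod_cast hj
      rcases hn j hj' with h1 | h1
      · have := degen_fc hj' h1 hdep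
        rw [hp] at this
        rw [hu _ (isCube_cnt hp hσ) (S.ok_comp _ _ hok) (Or.inr this), zero_mul]
      · have := degen_fc hj' h1 hdep
        rw [hq] at this
        rw [hv _ (isCube_cnt hq hσ) (S.ok_comp _ _ hok) (Or.inr this), mul_zero]
  · rw [if_neg hp]

/-- Sq^2 of a cocycle of degree `j`, as a cochain of degree `j + 2`; zero if `j < 2`. -/
def sq2 (j : ℕ) (u : C(Cb, X) → ZMod 2) : C(Cb, X) → ZMod 2 :=
  if 2 ≤ j then cupI (j - 2) (j + 2) j u u else fun _ => 0

/-- Sq^1 of a cocycle of degree `j ≥ 1`, as a cochain of degree `j + 1`. -/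
def sq1 (j : ℕ) (u : C(Cb, X) → ZMod 2) : C(Cb, X) → ZMod 2 := cupI (j - 1) (j + 1) j u u

/-- The functional version: for `c` of degree `j` (`3 ≤ j + 1`), `d(sq2f c) = sq2 (dc)`. -/
def sq2f (j : ℕ) (c : C(Cb, X) → ZMod 2) : C(Cb, X) → ZMod 2 := fun σ =>
  cupI (j - 2) (j + 2) j c c σ + cupI (j - 1) (j + 2) j c (dl j c) σ

theorem sq2_coc (S : CS X) {j : ℕ} (hj : 2 ≤ j) {u : C(Cb, X) → ZMod 2} (hu : S.Coc j u) :
    S.Coc (j + 2) (sq2 j u) := by
  obtain ⟨m, rfl⟩ : ∃ m, j = m + 2 := ⟨j - 2, by omega⟩
  have hs : sq2 (m + 2) u = cupI m (m + 2 + 2) (m + 2) u u := by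
    unfold sq2; rw [if_pos hj, Nat.add_sub_cancel]
  rw [hs]
  refine ⟨cupI_rel S (by omega) hu.1 hu.1, ?_⟩
  intro σ hσ hok
  have hz : ∀ w, cnt (m + 2 + 2 + 1) w = m + 2 + 1 →
      dl (m + 2) u (σ.comp (fc (m + 2 + 2 + 1) w)) = 0 := fun w hw =>
    hu.2 _ (isCube_cnt hw hσ) (S.ok_comp _ _ hok)
  rw [dl_cupI m (m + 2 + 2) (m + 2) (m + 2) (by omega) u u hσ, cupI_zero_left hz,
    cupI_zero_right (q := m + 2 + 1) (by omega) hz, two_eq, two_eq, ite_self, add_zero]

theorem sq2f_dl (S : CS X) {j : ℕ} (hj : 2 ≤ j) {c : C(Cb, X) → ZMod 2} (hc : S.Rel j c)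
    {σ : C(Cb, X)} (hσ : IsCube ((j + 3 : ℕ) : ℤ) σ) (hok : S.ok σ) :
    dl (j + 2) (sq2f j c) σ = sq2 (j + 1) (dl j c) σ := by
  obtain ⟨m, rfl⟩ : ∃ m, j = m + 2 := ⟨j - 2, by omega⟩
  have hs : sq2 (m + 2 + 1) (dl (m + 2) c) =
      cupI (m + 1) (m + 2 + 2 + 1) (m + 2 + 1) (dl (m + 2) c) (dl (m + 2) c) := by
    unfold sq2; rw [if_pos (by omega)]; rfl
  have hf : dl (m + 2 + 2) (sq2f (m + 2) c) σ =
      dl (m + 2 + 2) (cupI m (m + 2 + 2) (m + 2) c c) σ +
      dl (m + 2 + 2) (cupI (m + 1) (m + 2 + 2) (m + 2) c (dl (m + 2) c)) σ := by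
    rw [dl_eq, dl_eq, dl_eq, ← Finset.sum_add_distrib]
    apply Finset.sum_congr rfl
    intro a _
    show (cupI m (m + 2 + 2) (m + 2) c c _ + cupI (m + 1) (m + 2 + 2) (m + 2) c _ _) +
      (cupI m (m + 2 + 2) (m + 2) c c _ + cupI (m + 1) (m + 2 + 2) (m + 2) c _ _) = _
    ring
  have hz : ∀ w, cnt (m + 2 + 2 + 1) w = m + 2 + 1 + 1 →
      dl (m + 2 + 1) (dl (m + 2) c) (σ.comp (fc (m + 2 + 2 + 1) w)) = 0 := fun w hw =>
    dl_dl _ _ _
  rw [hf, hs, dl_cupI m (m + 2 + 2) (m + 2) (m + 2) (by omega) c c hσ,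
    dl_cupI (m + 1) (m + 2 + 2) (m + 2) (m + 2 + 1) (by omega) c (dl (m + 2) c) hσ,
    cupI_zero_right (q := m + 2 + 1 + 1) (p := m + 2) (v := dl (m + 2 + 1) (dl (m + 2) c))
      (by omega) hz, two_eq, ite_self, if_neg (by omega)]
  simp only [Nat.add_sub_cancel]
  have e1 := two_eq (cupI m (m + 2 + 2 + 1) (m + 2 + 1) (dl (m + 2) c) c σ)
  have e2 := two_eq (cupI m (m + 2 + 2 + 1) (m + 2) c (dl (m + 2) c) σ)
  linear_combination e1 + e2

/-- Change of `c` by a cocycle. -/
theorem sq2f_add (S : CS X) {j : ℕ} (hj : 2 ≤ j) {c c' : C(Cb, X) → ZMod 2} (hc : S.Rel j c)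
    (hc' : S.Coc j c') :
    S.Cob (j + 1) (fun σ => sq2f j (fun τ => c τ + c' τ) σ - sq2f j c σ - sq2 j c' σ) := by
  obtain ⟨m, rfl⟩ : ∃ m, j = m + 2 := ⟨j - 2, by omega⟩
  refine ⟨cupI (m + 1) (m + 2 + 1) (m + 2) c' c, cupI_rel S (by omega) hc'.1 hc, ?_⟩
  intro σ hσ hok
  have hs : sq2 (m + 2) c' = cupI m (m + 2 + 1 + 1) (m + 2) c' c' := by
    unfold sq2; rw [if_pos hj, Nat.add_sub_cancel]
  have hz : ∀ w, cnt (m + 2 + 1 + 1) w = m + 2 + 1 →
      dl (m + 2) c' (σ.comp (fc (m + 2 + 1 + 1) w)) = 0 := fun w hw =>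
    hc'.2 _ (isCube_cnt hw hσ) (S.ok_comp _ _ hok)
  have hdl : (dl (m + 2) fun τ => c τ + c' τ) = fun τ => dl (m + 2) c τ + dl (m + 2) c' τ := by
    funext τ
    rw [dl_eq, dl_eq, dl_eq, ← Finset.sum_add_distrib]
    apply Finset.sum_congr rfl
    intro a _
    ring
  have hf : ∀ b : C(Cb, X) → ZMod 2, sq2f (m + 2) b σ = cupI m (m + 2 + 1 + 1) (m + 2) b b σ +
      cupI (m + 1) (m + 2 + 1 + 1) (m + 2) b (dl (m + 2) b) σ := fun b => rfl
  show sq2f (m + 2) (fun τ => c τ + c' τ) σ - sq2f (m + 2) c σ - sq2 (m + 2) c' σ = _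
  rw [dl_cupI (m + 1) (m + 2 + 1) (m + 2) (m + 2) (by omega) c' c hσ, if_neg (by omega),
    cupI_zero_left hz, hf, hf, hs, hdl]
  simp only [Nat.add_sub_cancel, cupI_add_left, cupI_add_right]
  rw [cupI_zero_right (q := m + 2 + 1) (by omega) hz (v := dl (m + 2) c') (u := c),
    cupI_zero_right (q := m + 2 + 1) (by omega) hz (v := dl (m + 2) c') (u := c')]
  ring

/-- Sq^2 of a coboundary. -/
theorem sq2_cob (S : CS X) {j : ℕ} (hj : 2 ≤ j) {u : C(Cb, X) → ZMod 2} (hu : S.Cob j u) :
    S.Cob (j + 2) (sq2 (j + 1) u) := by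
  obtain ⟨v, hv, hvu⟩ := hu
  refine ⟨sq2f j v, ?_, ?_⟩
  · intro σ hσ hok hd
    show cupI (j - 2) (j + 2) j v v σ + cupI (j - 1) (j + 2) j v (dl j v) σ = 0
    rw [cupI_rel S (by omega) hv hv σ hσ hok hd,
      cupI_rel S (q := j + 1) (by omega) hv (dl_rel S hv) σ hσ hok hd, add_zero]
  · intro σ hσ hok
    rw [sq2f_dl S hj hv hσ hok]
    have hs : ∀ b : C(Cb, X) → ZMod 2, sq2 (j + 1) b = cupI (j + 1 - 2) (j + 2 + 1) (j + 1) b b := by
      intro b
      unfold sq2; rw [if_pos (by omega)]
    rw [hs, hs]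
    have key : ∀ w, cnt (j + 2 + 1) w = j + 1 →
        u (σ.comp (fc (j + 2 + 1) w)) = dl j v (σ.comp (fc (j + 2 + 1) w)) := fun w hw =>
      hvu _ (isCube_cnt hw hσ) (S.ok_comp _ _ hok)
    exact cupI_congr (q := j + 1) (by omega) key key

/-- Sq^2 is additive on cocycles modulo coboundaries. -/
theorem sq2_add (S : CS X) {j : ℕ} (hj : 2 ≤ j) {u v : C(Cb, X) → ZMod 2} (hu : S.Coc j u)
    (hv : S.Coc j v) :
    S.Cob (j + 1) (fun σ => sq2 j (fun τ => u τ + v τ) σ - sq2 j u σ - sq2 j v σ) := by
  obtain ⟨m, rfl⟩ : ∃ m, j = m + 2 := ⟨j - 2, by omega⟩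
  refine ⟨cupI (m + 1) (m + 2 + 1) (m + 2) u v, cupI_rel S (by omega) hu.1 hv.1, ?_⟩
  intro σ hσ hok
  have hs : ∀ b : C(Cb, X) → ZMod 2, sq2 (m + 2) b = cupI m (m + 2 + 1 + 1) (m + 2) b b := by
    intro b
    unfold sq2; rw [if_pos hj, Nat.add_sub_cancel]
  have hzu : ∀ w, cnt (m + 2 + 1 + 1) w = m + 2 + 1 →
      dl (m + 2) u (σ.comp (fc (m + 2 + 1 + 1) w)) = 0 := fun w hw =>
    hu.2 _ (isCube_cnt hw hσ) (S.ok_comp _ _ hok)
  have hzv : ∀ w, cnt (m + 2 + 1 + 1) w = m + 2 + 1 →
      dl (m + 2) v (σ.comp (fc (m + 2 + 1 + 1) w)) = 0 := fun w hw =>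
    hv.2 _ (isCube_cnt hw hσ) (S.ok_comp _ _ hok)
  show sq2 (m + 2) (fun τ => u τ + v τ) σ - sq2 (m + 2) u σ - sq2 (m + 2) v σ = _
  rw [dl_cupI (m + 1) (m + 2 + 1) (m + 2) (m + 2) (by omega) u v hσ, if_neg (by omega),
    cupI_zero_left hzu, cupI_zero_right (q := m + 2 + 1) (by omega) hzv, hs, hs, hs]
  simp only [Nat.add_sub_cancel, cupI_add_left, cupI_add_right]
  ring

/-- `BiF i j f u`: on product cubes of bidegree `(m, l)` with `m + l = k` the cochain `u` is
`f m τ σ`. -/
def BiF (k : ℕ) (f : ℕ → C(Cb, X) → C(Cb, Y) → ZMod 2) (u : C(Cb, X × Y) → ZMod 2) : Prop :=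
  ∀ (m l : ℕ) (τ : C(Cb, X)) (σ : C(Cb, Y)), m + l = k → IsCube (m : ℤ) τ →
    IsCube (l : ℤ) σ → u (crossCube m τ σ) = f m τ σ

namespace CI4Aux

open CI1Aux CI2Aux

/-- The last letters. -/
def sh (m : ℕ) (w : W) : W := fun j => w (m + j)

theorem sh_update_ge (m l : ℕ) (w : W) (x : Option Bool) :
    sh m (Function.update w (m + l) x) = Function.update (sh m w) l x := by
  funext j
  by_cases hj : j = l
  · subst hj; simp [sh]
  · have h1 : m + j ≠ m + l := by omega
    rw [Function.update_of_ne hj]
    simp only [sh]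
    rw [Function.update_of_ne h1]

theorem cnt_add (m l : ℕ) (w : W) : cnt (m + l) w = cnt m w + cnt l (sh m w) := by
  induction l with
  | zero => simp [cnt]
  | succ l ih =>
    rw [← Nat.add_assoc, cnt_succ, cnt_succ, ih]
    simp only [sh]
    ring

theorem S_mul_const (N : ℕ) : ∀ (i : ℤ) (F : FF) (c : ZMod 2),
    S N i (fun w1 w2 => F w1 w2 * c) = S N i F * c := by
  induction N with
  | zero => intro i F c; by_cases h : i = 0 <;> simp [S, h]
  | succ N ih =>
    intro i F c
    simp only [S]
    have h : ∀ x y, updF N x y (fun w1 w2 => F w1 w2 * c) =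
        fun w1 w2 => updF N x y F w1 w2 * c := fun x y => rfl
    rw [h, h, h, ih, ih, ih]
    ring

theorem S_big (N : ℕ) : ∀ (i : ℤ) (F : FF), (N : ℤ) < i → S N i F = 0 := by
  induction N with
  | zero => intro i F hi; simp only [S]; rw [if_neg (by push_cast at hi; omega)]
  | succ N ih =>
    intro i F hi
    push_cast at hi
    simp only [S]
    rw [ih _ _ (by omega), ih _ _ (by omega), ih _ _ (by omega)]
    ring

theorem S_top (N : ℕ) : ∀ (F : FF), S N N F = F (fun _ => none) (fun _ => none) := by
  induction N with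
  | zero => intro F; simp [S]
  | succ N ih =>
    intro F
    have h1 : (((N + 1 : ℕ) : ℤ) - 1) = (N : ℤ) := by push_cast; ring
    have h2 : ∀ x y, S N ((N + 1 : ℕ) : ℤ) (updF N x y F) = 0 := fun x y =>
      S_big N _ _ (by push_cast; omega)
    simp only [S]
    rw [h1, ih, h2, h2, add_zero, add_zero]
    unfold updF
    rw [show Function.update (fun _ : ℕ => (none : Option Bool)) N none = fun _ => none from
      Function.update_eq_self N _]

theorem r1_shift (k : ℤ) (s : ℕ) :
    (r1 k, r2 k) = if Even s then (r1 (k - s), r2 (k - s)) else (r2 (k - s), r1 (k - s)) := by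
  unfold r1 r2
  by_cases hs : Even s
  · have h1 : Even ((s : ℕ) : ℤ) := (Int.even_coe_nat s).2 hs
    have h2 : Even (k - s) ↔ Even k := by
      rw [Int.even_sub]; exact ⟨fun h => h.2 h1, fun h => ⟨fun _ => h1, fun _ => h⟩⟩
    simp only [hs, if_true, h2]
  · have h1 : ¬ Even ((s : ℕ) : ℤ) := fun h => hs ((Int.even_coe_nat s).1 h)
    have h2 : Even (k - s) ↔ ¬ Even k := by
      rw [Int.even_sub]
      exact ⟨fun h hk => h1 (h.1 hk), fun h => ⟨fun hk => absurd hk h, fun h' => absurd h' h1⟩⟩
    simp only [hs, if_false, h2]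
    by_cases hk : Even k <;> simp [hk]

theorem l1_shift (k : ℤ) (s : ℕ) :
    (l1 k, l2 k) = if Even s then (l1 (k - s), l2 (k - s)) else (l2 (k - s), l1 (k - s)) := by
  unfold l1 l2
  by_cases hs : Even s
  · have h1 : Even ((s : ℕ) : ℤ) := (Int.even_coe_nat s).2 hs
    have h2 : Even (k - s) ↔ Even k := by
      rw [Int.even_sub]; exact ⟨fun h => h.2 h1, fun h => ⟨fun _ => h1, fun _ => h⟩⟩
    simp only [hs, if_true, h2]
  · have h1 : ¬ Even ((s : ℕ) : ℤ) := fun h => hs ((Int.even_coe_nat s).1 h)
    have h2 : Even (k - s) ↔ ¬ Even k := by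
      rw [Int.even_sub]
      exact ⟨fun h hk => h1 (h.1 hk), fun h => ⟨fun hk => absurd hk h, fun h' => absurd h' h1⟩⟩
    simp only [hs, if_false, h2]
    by_cases hk : Even k <;> simp [hk]

/-- Swap if `s` is odd. -/
def sw (s : ℕ) (F : FF) : FF := if Even s then F else swp F

/-- Codes of length `m + l`. -/
theorem S_split (m : ℕ) (A : FF) (hA : Loc m A) (l : ℕ) : ∀ (k : ℤ) (Bf : FF),
    S (m + l) k (fun w1 w2 => A w1 w2 * Bf (sh m w1) (sh m w2)) =
      ∑ s ∈ Finset.range (m + 1), S m s A * S l (k - s) (sw s Bf) := by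
  induction l with
  | zero =>
    intro k Bf
    have h1 : S (m + 0) k (fun w1 w2 => A w1 w2 * Bf (sh m w1) (sh m w2)) =
        S m k A * Bf (fun _ => none) (fun _ => none) := by
      rw [← S_mul_const, Nat.add_zero]
      apply S_congr'
      intro w1 w2 _ _ ho
      congr 2
      · funext j; exact (ho (m + j) (by omega)).1
      · funext j; exact (ho (m + j) (by omega)).2
    have h2 : ∀ s : ℕ, S 0 (k - s) (sw s Bf) =
        if k = s then Bf (fun _ => none) (fun _ => none) else 0 := by
      intro s
      simp only [S, sub_eq_zero]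
      unfold sw swp
      by_cases hs : Even s <;> simp [hs]
    rw [h1]
    simp only [h2]
    rcases lt_or_ge k 0 with hk | hk
    · rw [S_neg m k A hk, zero_mul]
      symm
      apply Finset.sum_eq_zero
      intro s _
      rw [if_neg (by omega), mul_zero]
    · obtain ⟨n, rfl⟩ : ∃ n : ℕ, k = n := ⟨k.toNat, by omega⟩
      rcases Nat.lt_or_ge m n with hmn | hmn
      · rw [S_big m n A (by exact_mod_cast hmn), zero_mul]
        symm
        apply Finset.sum_eq_zero
        intro s hs
        have : s < m + 1 := Finset.mem_range.1 hs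
        rw [if_neg (by omega), mul_zero]
      · rw [Finset.sum_eq_single n]
        · rw [if_pos rfl]
        · intro s _ hs
          rw [if_neg (by intro h; exact hs (by exact_mod_cast h.symm)), mul_zero]
        · intro h
          exact absurd (Finset.mem_range.2 (by omega)) h
  | succ l ih =>
    intro k Bf
    have hu : ∀ x y, updF (m + l) x y (fun w1 w2 => A w1 w2 * Bf (sh m w1) (sh m w2)) =
        fun w1 w2 => A w1 w2 * updF l x y Bf (sh m w1) (sh m w2) := by
      intro x y
      funext w1 w2
      simp only [updF]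
      rw [sh_update_ge, sh_update_ge]
      congr 1
      apply hA
      · intro j hj; rw [Function.update_of_ne (by omega)]
      · intro j hj; rw [Function.update_of_ne (by omega)]
    rw [← Nat.add_assoc]
    rw [show S (m + l + 1) k (fun w1 w2 => A w1 w2 * Bf (sh m w1) (sh m w2)) =
      S (m + l) (k - 1) (updF (m + l) none none (fun w1 w2 => A w1 w2 * Bf (sh m w1) (sh m w2))) +
      S (m + l) k (updF (m + l) (r1 k) (r2 k)
        (fun w1 w2 => A w1 w2 * Bf (sh m w1) (sh m w2))) +
      S (m + l) k (updF (m + l) (l1 k) (l2 k)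
        (fun w1 w2 => A w1 w2 * Bf (sh m w1) (sh m w2))) from rfl]
    rw [hu, hu, hu, ih, ih, ih, ← Finset.sum_add_distrib, ← Finset.sum_add_distrib]
    apply Finset.sum_congr rfl
    intro s _
    rw [← mul_add, ← mul_add]
    congr 1
    rw [show S (l + 1) (k - s) (sw s Bf) = S l (k - s - 1) (updF l none none (sw s Bf)) +
      S l (k - s) (updF l (r1 (k - s)) (r2 (k - s)) (sw s Bf)) +
      S l (k - s) (updF l (l1 (k - s)) (l2 (k - s)) (sw s Bf)) from rfl]
    have hr := r1_shift k s
    have hl := l1_shift k s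
    have hk : k - 1 - (s : ℤ) = k - s - 1 := by ring
    rw [hk]
    by_cases hs : Even s
    · rw [if_pos hs, Prod.mk.injEq] at hr hl
      rw [hr.1, hr.2, hl.1, hl.2]
      simp only [sw, if_pos hs]
    · rw [if_neg hs, Prod.mk.injEq] at hr hl
      rw [hr.1, hr.2, hl.1, hl.2]
      simp only [sw, if_neg hs]
      rfl

theorem crossCube_fc {m l : ℕ} {τ : C(Cb, X)} {σ : C(Cb, Y)} (hτ : IsCube (m : ℤ) τ)
    (hσ : IsCube (l : ℤ) σ) (w : W) :
    (crossCube m τ σ).comp (fc (m + l) w) =
      crossCube (cnt m w) (τ.comp (fc m w)) (σ.comp (fc l (sh m w))) := by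
  ext u
  · show τ (fc (m + l) w u) = τ (fc m w u)
    apply hτ.2
    intro j hj
    have hj' : j < m := by exact_mod_cast (show (j : ℤ) < m from hj)
    rw [fc_apply_lt (by omega), fc_apply_lt hj']
  · show σ (drop m (fc (m + l) w u)) = σ (fc l (sh m w) (drop (cnt m w) u))
    apply hσ.2
    intro j hj
    have hj' : j < l := by exact_mod_cast (show (j : ℤ) < l from hj)
    show fc (m + l) w u (m + j) = _
    rw [fc_apply_lt (by omega), fc_apply_lt hj']
    have h1 : sh m w j = w (m + j) := rfl
    rw [h1]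
    cases w (m + j) with
    | none =>
      show u (cnt (m + j) w) = u (cnt m w + cnt j (sh m w))
      rw [cnt_add]
    | some b => rfl

/-- The square of a cochain. -/
def Sq (N p : ℕ) (u : C(Cb, X) → ZMod 2) (σ : C(Cb, X)) : FF := fun w1 w2 =>
  if cnt N w1 = p ∧ cnt N w2 = p then u (σ.comp (fc N w1)) * u (σ.comp (fc N w2)) else 0

theorem swp_Sq (N p : ℕ) (u : C(Cb, X) → ZMod 2) (σ : C(Cb, X)) :
    swp (Sq N p u σ) = Sq N p u σ := by
  funext w1 w2
  unfold swp Sq
  by_cases h : cnt N w1 = p ∧ cnt N w2 = p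
  · rw [if_pos h, if_pos h.symm, mul_comm]
  · rw [if_neg h, if_neg (fun h' => h h'.symm)]

theorem sw_Sq (s N p : ℕ) (u : C(Cb, X) → ZMod 2) (σ : C(Cb, X)) :
    sw s (Sq N p u σ) = Sq N p u σ := by
  unfold sw
  rw [swp_Sq, ite_self]

theorem loc_Sq (N p : ℕ) (u : C(Cb, X) → ZMod 2) (σ : C(Cb, X)) : Loc N (Sq N p u σ) := by
  intro w1 w1' w2 w2' h1 h2
  unfold Sq
  rw [cnt_congr h1, fc_congr h1, fc_congr h2, cnt_congr h2]

theorem S_Sq_ne {N p : ℕ} {i : ℤ} (h : (N : ℤ) + i ≠ 2 * p) (u : C(Cb, X) → ZMod 2)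
    (σ : C(Cb, X)) : S N i (Sq N p u σ) = 0 := by
  rw [← S_zero N i]
  apply S_congr
  intro w1 w2 hw
  unfold Sq
  rw [if_neg]
  rintro ⟨h1, h2⟩
  apply h
  rw [← hw, h1, h2]
  ring

theorem S_Sq_eq {N p i : ℕ} (h : N + i = 2 * p) (u : C(Cb, X) → ZMod 2)
    (σ : C(Cb, X)) : S N i (Sq N p u σ) = cupI i N p u u σ := by
  rw [cupI_eq]
  apply S_congr
  intro w1 w2 hw
  unfold Sq FU
  by_cases h1 : cnt N w1 = p
  · have h2 : cnt N w2 = p := by rw [h1] at hw; omega
    rw [if_pos ⟨h1, h2⟩, if_pos h1]
  · rw [if_neg (fun h' => h1 h'.1), if_neg h1]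

theorem fc_none (N : ℕ) : fc N (fun _ => none) = ContinuousMap.id Cb := by
  have hc : ∀ j, cnt j (fun _ => (none : Option Bool)) = j := by
    intro j
    unfold cnt
    simp
  ext u j
  rcases Nat.lt_or_ge j N with hj | hj
  · rw [fc_apply_lt hj]
    simp only [hc]
    rfl
  · rw [fc_apply_ge hj, hc]
    simp

/-- `u ∪_n u = u` in the top case. -/
theorem cupI_top (N : ℕ) (u : C(Cb, X) → ZMod 2) (σ : C(Cb, X)) :
    cupI N N N u u σ = u σ := by
  have hc : cnt N (fun _ => (none : Option Bool)) = N := by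
    unfold cnt
    simp
  rw [cupI_eq, S_top]
  unfold FU
  rw [hc, if_pos rfl, fc_none]
  have : σ.comp (ContinuousMap.id Cb) = σ := ContinuousMap.comp_id σ
  rw [this]
  generalize u σ = x
  revert x
  decide

/-- The square on product cubes. -/
theorem cupI_cross {i j : ℕ} {a : C(Cb, X) → ZMod 2} {b : C(Cb, Y) → ZMod 2}
    {u : C(Cb, X × Y) → ZMod 2} (hu : Bi (ZMod 2) i j a b u) {m l k : ℕ}
    (hk : m + l + k = 2 * (i + j)) {τ : C(Cb, X)} {σ : C(Cb, Y)}
    (hτ : IsCube (m : ℤ) τ) (hσ : IsCube (l : ℤ) σ) :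
    cupI k (m + l) (i + j) u u (crossCube m τ σ) =
      ∑ s ∈ Finset.range (m + 1), S m s (Sq m i a τ) * S l (k - s) (Sq l j b σ) := by
  have h1 : cupI k (m + l) (i + j) u u (crossCube m τ σ) =
      S (m + l) k (fun w1 w2 => Sq m i a τ w1 w2 * Sq l j b σ (sh m w1) (sh m w2)) := by
    rw [cupI_eq]
    apply S_congr
    intro w1 w2 hw
    have key : ∀ w : W, cnt (m + l) w = i + j →
        u ((crossCube m τ σ).comp (fc (m + l) w)) =
          if cnt m w = i then a (τ.comp (fc m w)) * b (σ.comp (fc l (sh m w))) else 0 := by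
      intro w hw
      rw [crossCube_fc hτ hσ]
      rw [cnt_add] at hw
      exact hu _ _ _ _ hw (isCube_cnt rfl hτ) (isCube_cnt rfl hσ)
    simp only [FU, Sq]
    by_cases hw1 : cnt (m + l) w1 = i + j
    · have hw2 : cnt (m + l) w2 = i + j := by rw [hw1] at hw; push_cast at hw; omega
      rw [if_pos hw1, key w1 hw1, key w2 hw2]
      rw [cnt_add] at hw1 hw2
      by_cases h1 : cnt m w1 = i
      · have h1' : cnt l (sh m w1) = j := by omega
        by_cases h2 : cnt m w2 = i
        · have h2' : cnt l (sh m w2) = j := by omega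
          rw [if_pos h1, if_pos h2, if_pos ⟨h1, h2⟩, if_pos ⟨h1', h2'⟩]
          ring
        · rw [if_neg h2, if_neg (fun h : cnt m w1 = i ∧ cnt m w2 = i => h2 h.2), mul_zero,
            zero_mul]
      · rw [if_neg h1, if_neg (fun h : cnt m w1 = i ∧ cnt m w2 = i => h1 h.1), zero_mul, zero_mul]
    · rw [if_neg hw1]
      rw [cnt_add] at hw1
      symm
      by_cases h1 : cnt m w1 = i ∧ cnt m w2 = i
      · rw [if_neg (fun h2 : cnt l (sh m w1) = j ∧ cnt l (sh m w2) = j => hw1 (by omega)),
          mul_zero]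
      · rw [if_neg h1, zero_mul]
  rw [h1, S_split m _ (loc_Sq m i a τ) l]
  apply Finset.sum_congr rfl
  intro s _
  rw [sw_Sq]

end CI4Aux

open CI1Aux CI4Aux in
/-- The external Cartan formula for Sq^2 on product cubes (`a` of degree `i`, `b` of degree `j`,
`2 ≤ i`, `2 ≤ j`). -/
theorem sq2_cartan {i j : ℕ} (hi : 2 ≤ i) (hj : 2 ≤ j) {a : C(Cb, X) → ZMod 2}
    {b : C(Cb, Y) → ZMod 2} (ha : (CS.top X).Rel i a) (hb : (CS.top Y).Rel j b)
    {u : C(Cb, X × Y) → ZMod 2} (hu : Bi (ZMod 2) i j a b u) :
    BiF (i + j + 2) (fun m τ σ =>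
      if m = i + 2 then sq2 i a τ * b σ
      else if m = i + 1 then sq1 i a τ * sq1 j b σ
      else if m = i then a τ * sq2 j b σ
      else 0) (sq2 (i + j) u) := by
  intro m l τ σ hml hτ hσ
  have h0 : sq2 (i + j) u (crossCube m τ σ) =
      ∑ s ∈ Finset.range (m + 1), S m s (Sq m i a τ) * S l ((i + j - 2 : ℕ) - s) (Sq l j b σ) := by
    unfold sq2
    rw [if_pos (by omega), ← hml]
    exact cupI_cross hu (by omega) hτ hσ
  have hne : ∀ s : ℕ, m + s ≠ 2 * i → S m s (Sq m i a τ) = 0 := by
    intro s hs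
    exact S_Sq_ne (by exact_mod_cast hs) a τ
  -- the only term
  have hone : ∀ s : ℕ, s ≤ m → m + s = 2 * i → sq2 (i + j) u (crossCube m τ σ) =
      S m s (Sq m i a τ) * S l ((i + j - 2 : ℕ) - s) (Sq l j b σ) := by
    intro s hsm hs
    rw [h0, Finset.sum_eq_single s]
    · intro t _ ht
      rw [hne t (by omega), zero_mul]
    · intro h
      exact absurd (Finset.mem_range.2 (by omega)) h
  beta_reduce
  by_cases h2 : m = i + 2
  · obtain ⟨c, rfl⟩ : ∃ c, i = c + 2 := ⟨i - 2, by omega⟩
    have hl : l = j := by omega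
    rw [if_pos h2, hone c (by omega) (by omega)]
    subst h2
    subst hl
    have e1 : (((c + 2 + l - 2 : ℕ) : ℤ) - (c : ℤ)) = (l : ℤ) := by omega
    rw [e1, S_Sq_eq (by omega), S_Sq_eq (by omega), cupI_top]
    unfold sq2
    rw [if_pos hi, Nat.add_sub_cancel]
  · rw [if_neg h2]
    by_cases h1 : m = i + 1
    · obtain ⟨c, rfl⟩ : ∃ c, i = c + 1 := ⟨i - 1, by omega⟩
      obtain ⟨d, rfl⟩ : ∃ d, j = d + 1 := ⟨j - 1, by omega⟩
      have hl : l = d + 1 + 1 := by omega
      rw [if_pos h1, hone c (by omega) (by omega)]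
      subst h1
      subst hl
      have e1 : (((c + 1 + (d + 1) - 2 : ℕ) : ℤ) - (c : ℤ)) = (d : ℤ) := by omega
      rw [e1, S_Sq_eq (by omega), S_Sq_eq (by omega)]
      unfold sq1
      rw [Nat.add_sub_cancel, Nat.add_sub_cancel]
    · rw [if_neg h1]
      by_cases hm0 : m = i
      · obtain ⟨d, rfl⟩ : ∃ d, j = d + 2 := ⟨j - 2, by omega⟩
        have hl : l = d + 2 + 2 := by omega
        rw [if_pos hm0, hone i (by omega) (by omega)]
        subst hm0
        subst hl
        have e1 : (((m + (d + 2) - 2 : ℕ) : ℤ) - (m : ℤ)) = (d : ℤ) := by omega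
        rw [e1, S_Sq_eq (by omega), S_Sq_eq (by omega), cupI_top]
        unfold sq2
        rw [if_pos hj, Nat.add_sub_cancel]
      · rw [if_neg hm0, h0]
        apply Finset.sum_eq_zero
        intro s hs'
        have hs2 : s < m + 1 := Finset.mem_range.1 hs'
        by_cases hs3 : m + s = 2 * i
        · have : S l ((i + j - 2 : ℕ) - s) (Sq l j b σ) = 0 := by
            apply S_big
            omega
          rw [this, mul_zero]
        · rw [hne s hs3, zero_mul]

end Pool.Agent.TC
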