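import Mathlib

/-!
# Invariant topological complexity and linear spheres: definitions
-/

namespace Pool.Agent.TC

open Metric Set
open scoped Manifold ContDiff unitInterval

/-- The cyclic group of order `p`, multiplicatively. -/
abbrev Cp (p : ℕ) : Type := Multiplicative (ZMod p)

/-- The standard sphere of dimension `n`. -/
abbrev Sph (n : ℕ) : Type := sphere (0 : EuclideanSpace ℝ (Fin (n + 1))) 1

/-- The fixed point set. -/
abbrev Fx (G X : Type*) [Group G] [MulAction G X] : Type _ := {x : X // ∀ g : G, g • x = x}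

/-- `TCle G X k`: the product `X × X` is covered by `k + 1` open `(G × G)`-invariant sets over
each of which there is a `(G × G)`-equivariant section of the evaluation map of pairs of paths
`(γ, δ)` with `γ(1)` and `δ(0)` in the same orbit. -/
def TCle (G X : Type*) [Group G] [TopologicalSpace X] [MulAction G X] (k : ℕ) : Prop :=
  ∃ U : Fin (k + 1) → Set (X × X),
    (∀ i, IsOpen (U i)) ∧
    (∀ i (g h : G) (x y : X), (x, y) ∈ U i → (g • x, h • y) ∈ U i) ∧
    (⋃ i, U i) = univ ∧
    ∀ i, ∃ s : X × X → C(I, X) × C(I, X), ContinuousOn s (U i) ∧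
      ∀ x y, (x, y) ∈ U i →
        (∃ g : G, g • (s (x, y)).1 1 = (s (x, y)).2 0) ∧
        (s (x, y)).1 0 = x ∧ (s (x, y)).2 1 = y ∧
        ∀ (g h : G) (t : I), (s (g • x, h • y)).1 t = g • (s (x, y)).1 t ∧
          (s (g • x, h • y)).2 t = h • (s (x, y)).2 t

/-- The invariant topological complexity (reduced normalisation). -/
noncomputable def ITC (G X : Type*) [Group G] [TopologicalSpace X] [MulAction G X] : ℕ∞ :=
  ⨅ (k : ℕ) (_ : TCle G X k), (k : ℕ∞)

/-- Ordinary topological complexity at most `k`, in the form of homotopies between the two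
projections. -/
def TC0le (F : Type*) [TopologicalSpace F] (k : ℕ) : Prop :=
  ∃ U : Fin (k + 1) → Set (F × F), (∀ i, IsOpen (U i)) ∧ (⋃ i, U i) = univ ∧
    ∀ i, ∃ H : C(I × U i, F), ∀ q : U i, H (0, q) = q.1.1 ∧ H (1, q) = q.1.2

/-- `f₀` and `f₁` are `G`-homotopic. -/
def GHomotopic (G : Type*) {X Y : Type*} [Group G] [TopologicalSpace X] [TopologicalSpace Y]
    [MulAction G X] [MulAction G Y] (f₀ f₁ : C(X, Y)) : Prop :=
  ∃ H : C(I × X, Y), (∀ x, H (0, x) = f₀ x) ∧ (∀ x, H (1, x) = f₁ x) ∧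
    ∀ (g : G) (t : I) (x : X), H (t, g • x) = g • H (t, x)

/-- `f` is equivariant. -/
def Equi (G : Type*) {X Y : Type*} [Group G] [TopologicalSpace X] [TopologicalSpace Y]
    [MulAction G X] [MulAction G Y] (f : C(X, Y)) : Prop :=
  ∀ (g : G) (x : X), f (g • x) = g • f x

/-- `X` and `Y` are `G`-homotopy equivalent. -/
def GHEquiv (G X Y : Type*) [Group G] [TopologicalSpace X] [TopologicalSpace Y]
    [MulAction G X] [MulAction G Y] : Prop :=
  ∃ (f : C(X, Y)) (h : C(Y, X)), Equi G f ∧ Equi G h ∧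
    GHomotopic G (h.comp f) (ContinuousMap.id X) ∧ GHomotopic G (f.comp h) (ContinuousMap.id Y)

/-- The unit sphere of an orthogonal representation of dimension `n + 1`. -/
def LinSphere {G : Type*} [Group G] {n : ℕ}
    (_ρ : G →* (EuclideanSpace ℝ (Fin (n + 1)) ≃ₗᵢ[ℝ] EuclideanSpace ℝ (Fin (n + 1)))) : Type :=
  Sph n

section LinSphere

variable {G : Type*} [Group G] {n : ℕ}
  (ρ : G →* (EuclideanSpace ℝ (Fin (n + 1)) ≃ₗᵢ[ℝ] EuclideanSpace ℝ (Fin (n + 1))))

instance : TopologicalSpace (LinSphere ρ) := inferInstanceAs (TopologicalSpace (Sph n))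

/-- The underlying vector of a point of the sphere of a representation. -/
def LinSphere.vec {ρ : G →* (EuclideanSpace ℝ (Fin (n + 1)) ≃ₗᵢ[ℝ] EuclideanSpace ℝ (Fin (n + 1)))}
    (v : LinSphere ρ) : EuclideanSpace ℝ (Fin (n + 1)) :=
  Subtype.val (p := fun x => x ∈ sphere (0 : EuclideanSpace ℝ (Fin (n + 1))) 1) v

theorem LinSphere.norm_vec
    {ρ : G →* (EuclideanSpace ℝ (Fin (n + 1)) ≃ₗᵢ[ℝ] EuclideanSpace ℝ (Fin (n + 1)))}
    (v : LinSphere ρ) : ‖v.vec‖ = 1 := by
  have h := Subtype.property (p := fun x => x ∈ sphere (0 : EuclideanSpace ℝ (Fin (n + 1))) 1) v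
  simpa [LinSphere.vec] using h

noncomputable instance : MulAction G (LinSphere ρ) where
  smul g v := (⟨ρ g v.vec, by simp [LinSphere.norm_vec]⟩ : Sph n)
  one_smul v := by
    apply Subtype.ext
    change ρ 1 v.vec = v.vec
    simp
  mul_smul g h v := by
    apply Subtype.ext
    change ρ (g * h) v.vec = ρ g (ρ h v.vec)
    simp

theorem LinSphere.vec_smul (g : G) (v : LinSphere ρ) : (g • v).vec = ρ g v.vec := rfl

end LinSphere

/-- The statement: for all primes `p` and all smooth actions of `C_p` on `S^n` with nonempty path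
connected fixed point set, `S^n` is `C_p`-homotopy equivalent to a linear `C_p`-sphere if and
only if the invariant topological complexity is at most `2`. -/
def MainStatement : Prop :=
  ∀ (p : ℕ) [Fact p.Prime] (n : ℕ) [MulAction (Cp p) (Sph n)],
    (∀ g : Cp p, ContMDiff (𝓡 n) (𝓡 n) ∞ (fun x : Sph n => g • x)) →
    IsPathConnected {x : Sph n | ∀ g : Cp p, g • x = x} →
    ((∃ ρ : Cp p →* (EuclideanSpace ℝ (Fin (n + 1)) ≃ₗᵢ[ℝ] EuclideanSpace ℝ (Fin (n + 1))),
        GHEquiv (Cp p) (Sph n) (LinSphere ρ)) ↔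
      ITC (Cp p) (Sph n) ≤ 2)

end Pool.Agent.TC
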