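import Pool.Agent.Lib.TC.Deg1

/-!
# The degree of the power map
-/

namespace Pool.Agent.TC

open CubeHom

namespace DgPower


variable {m : ℕ}

/-- the last two coordinates as a complex number -/
def wv (x : EuclideanSpace ℝ (Fin (m + 1 + 1))) : ℂ :=
  ⟨x (Fin.castSucc (Fin.last m)), x (Fin.last (m + 1))⟩

theorem wv_cont : Continuous (wv (m := m)) := by
  unfold wv
  have e : (fun x : EuclideanSpace ℝ (Fin (m + 1 + 1)) =>
      (⟨x (Fin.castSucc (Fin.last m)), x (Fin.last (m + 1))⟩ : ℂ)) =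
      fun x : EuclideanSpace ℝ (Fin (m + 1 + 1)) =>
        ((x (Fin.castSucc (Fin.last m)) : ℝ) : ℂ) +
        ((x (Fin.last (m + 1)) : ℝ) : ℂ) * Complex.I := funext fun x => by
      apply Complex.ext <;> simp
  rw [e]
  fun_prop

theorem nsq (x : EuclideanSpace ℝ (Fin (m + 1 + 1))) :
    ‖x‖ ^ 2 = (∑ i : Fin m, (x (Fin.castSucc (Fin.castSucc i))) ^ 2) + ‖wv x‖ ^ 2 := by
  rw [EuclideanSpace.real_norm_sq_eq, Fin.sum_univ_castSucc, Fin.sum_univ_castSucc,
    Complex.sq_norm, Complex.normSq_apply]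
  simp only [wv]
  ring

/-- multiplication of the last two coordinates by a complex number -/
noncomputable def rotV (u : ℂ) (x : EuclideanSpace ℝ (Fin (m + 1 + 1))) :
    EuclideanSpace ℝ (Fin (m + 1 + 1)) :=
  WithLp.toLp 2 fun i => if (i : ℕ) < m then x i else
    if (i : ℕ) = m then (u * wv x).re else (u * wv x).im

theorem rotV_lt (u : ℂ) (x : EuclideanSpace ℝ (Fin (m + 1 + 1))) {i : Fin (m + 1 + 1)}
    (hi : (i : ℕ) < m) : rotV u x i = x i := by
  simp [rotV, hi]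

theorem wv_rotV (u : ℂ) (x : EuclideanSpace ℝ (Fin (m + 1 + 1))) :
    wv (rotV u x) = u * wv x := by
  apply Complex.ext <;> simp [wv, rotV]

theorem norm_rotV {u : ℂ} (hu : ‖u‖ = 1) (x : EuclideanSpace ℝ (Fin (m + 1 + 1))) :
    ‖rotV u x‖ = ‖x‖ := by
  have h : ‖rotV u x‖ ^ 2 = ‖x‖ ^ 2 := by
    rw [nsq, nsq, wv_rotV, norm_mul, hu, one_mul]
    congr 1
    refine Finset.sum_congr rfl fun i _ => ?_
    rw [rotV_lt]
    simp
  exact (sq_eq_sq₀ (norm_nonneg _) (norm_nonneg _)).1 h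

theorem rotV_cont : Continuous fun q : ℂ × EuclideanSpace ℝ (Fin (m + 1 + 1)) =>
    rotV q.1 q.2 := by
  unfold rotV
  refine (PiLp.continuous_toLp 2 _).comp (continuous_pi fun i => ?_)
  have h1 : Continuous fun q : ℂ × EuclideanSpace ℝ (Fin (m + 1 + 1)) => q.1 * wv q.2 :=
    continuous_fst.mul (wv_cont.comp continuous_snd)
  split_ifs
  · fun_prop
  · exact Complex.continuous_re.comp h1
  · exact Complex.continuous_im.comp h1

/-- rotation of the last two coordinates by an angle -/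
noncomputable def rot : C(ℝ × Sph (m + 1), Sph (m + 1)) where
  toFun q := ⟨rotV (Complex.exp (q.1 * Complex.I)) q.2, by
    rw [mem_sphere_zero_iff_norm, norm_rotV (Complex.norm_exp_ofReal_mul_I q.1)]
    exact mem_sphere_zero_iff_norm.1 q.2.2⟩
  continuous_toFun := by
    refine Continuous.subtype_mk ?_ _
    refine rotV_cont.comp (Continuous.prodMk ?_ ?_)
    · fun_prop
    · exact continuous_subtype_val.comp continuous_snd

theorem rot_lt (s : ℝ) (x : Sph (m + 1)) {i : Fin (m + 1 + 1)} (hi : (i : ℕ) < m) :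
    (rot (s, x) : EuclideanSpace ℝ (Fin (m + 1 + 1))) i =
      (x : EuclideanSpace ℝ (Fin (m + 1 + 1))) i := rotV_lt _ _ hi

theorem wv_rot (s : ℝ) (x : Sph (m + 1)) :
    wv (rot (s, x) : EuclideanSpace ℝ (Fin (m + 1 + 1))) =
      Complex.exp (s * Complex.I) * wv (x : EuclideanSpace ℝ (Fin (m + 1 + 1))) := wv_rotV _ _

theorem sph_ext {x y : Sph (m + 1)}
    (h : ∀ i : Fin (m + 1 + 1), (i : ℕ) < m → (x : EuclideanSpace ℝ (Fin (m + 1 + 1))) i =
      (y : EuclideanSpace ℝ (Fin (m + 1 + 1))) i)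
    (hw : wv (x : EuclideanSpace ℝ (Fin (m + 1 + 1))) =
      wv (y : EuclideanSpace ℝ (Fin (m + 1 + 1)))) : x = y := by
  apply Subtype.ext
  ext i
  rcases lt_trichotomy (i : ℕ) m with h1 | h1 | h1
  · exact h i h1
  · have e : i = Fin.castSucc (Fin.last m) := Fin.ext h1
    have := congrArg Complex.re hw
    rw [e]
    exact this
  · have e : i = Fin.last (m + 1) := Fin.ext (by have := i.2; simp; omega)
    have := congrArg Complex.im hw
    rw [e]
    exact this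

theorem sph_nsq (x : Sph (m + 1)) :
    (∑ i : Fin m, ((x : EuclideanSpace ℝ (Fin (m + 1 + 1)))
      (Fin.castSucc (Fin.castSucc i))) ^ 2) +
      ‖wv (x : EuclideanSpace ℝ (Fin (m + 1 + 1)))‖ ^ 2 = 1 := by
  rw [← nsq, mem_sphere_zero_iff_norm.1 x.2, one_pow]

theorem coord_zero {x : Sph (m + 1)}
    (h : ‖wv (x : EuclideanSpace ℝ (Fin (m + 1 + 1)))‖ = 1) (i : Fin (m + 1 + 1))
    (hi : (i : ℕ) < m) : (x : EuclideanSpace ℝ (Fin (m + 1 + 1))) i = 0 := by
  have h1 := sph_nsq x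
  rw [h, one_pow] at h1
  have h2 : (∑ i : Fin m, ((x : EuclideanSpace ℝ (Fin (m + 1 + 1)))
      (Fin.castSucc (Fin.castSucc i))) ^ 2) = 0 := by linarith
  rw [Finset.sum_eq_zero_iff_of_nonneg (fun _ _ => sq_nonneg _)] at h2
  have h3 := h2 ⟨i, hi⟩ (Finset.mem_univ _)
  have h4 : Fin.castSucc (Fin.castSucc (⟨i, hi⟩ : Fin m)) = i := Fin.ext rfl
  rw [h4] at h3
  exact pow_eq_zero_iff (two_ne_zero) |>.1 h3

theorem eq_of_wv {x y : Sph (m + 1)}
    (h : wv (x : EuclideanSpace ℝ (Fin (m + 1 + 1))) =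
      wv (y : EuclideanSpace ℝ (Fin (m + 1 + 1))))
    (h1 : ‖wv (x : EuclideanSpace ℝ (Fin (m + 1 + 1)))‖ = 1) : x = y :=
  sph_ext (fun i hi => by rw [coord_zero h1 i hi, coord_zero (h ▸ h1) i hi]) h

/-- the base point -/
noncomputable def y0 (m : ℕ) : Sph (m + 1) :=
  ⟨EuclideanSpace.single (Fin.castSucc (Fin.last m)) 1, by
    rw [mem_sphere_zero_iff_norm, PiLp.norm_single, norm_one]⟩

theorem wv_y0 : wv (y0 m : EuclideanSpace ℝ (Fin (m + 1 + 1))) = 1 := by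
  apply Complex.ext
  · simp [wv, y0]
  · simp only [wv, y0, Complex.one_im]
    rw [PiLp.single_apply, if_neg]
    intro h
    have := congrArg Fin.val h
    simp at this

theorem norm_wv_y0 : ‖wv (y0 m : EuclideanSpace ℝ (Fin (m + 1 + 1)))‖ = 1 := by
  rw [wv_y0, norm_one]

theorem eq_y0 {x : Sph (m + 1)} (h : wv (x : EuclideanSpace ℝ (Fin (m + 1 + 1))) = 1) :
    x = y0 m := eq_of_wv (by rw [h, wv_y0]) (by rw [h, norm_one])

/-- a continuous version of the argument -/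
noncomputable def ang (x : Sph (m + 1)) : ℝ :=
  Real.arcsin ((wv (x : EuclideanSpace ℝ (Fin (m + 1 + 1)))).im /
    max ‖wv (x : EuclideanSpace ℝ (Fin (m + 1 + 1)))‖ (1 / 2))

theorem wvc : Continuous fun x : Sph (m + 1) => wv (x : EuclideanSpace ℝ (Fin (m + 1 + 1))) :=
  wv_cont.comp continuous_subtype_val

theorem ang_cont : Continuous (ang (m := m)) := by
  unfold ang
  refine Real.continuous_arcsin.comp (Continuous.div (Complex.continuous_im.comp wvc)
    ((continuous_norm.comp wvc).max continuous_const) fun x => ?_)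
  have : (1 / 2 : ℝ) ≤ max ‖wv (x : EuclideanSpace ℝ (Fin (m + 1 + 1)))‖ (1 / 2) :=
    le_max_right _ _
  intro h
  rw [h] at this
  norm_num at this

/-- the neighbourhood of the base point -/
def nb (m b : ℕ) : Set (Sph (m + 1)) :=
  {x | 1 / 2 < (wv (x : EuclideanSpace ℝ (Fin (m + 1 + 1)))).re ∧ b * |ang x| < Real.pi}

theorem nb_open (b : ℕ) : IsOpen (nb m b) :=
  (isOpen_lt continuous_const (Complex.continuous_re.comp wvc)).inter
    (isOpen_lt (continuous_const.mul ang_cont.abs) continuous_const)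

theorem ang_eq {x : Sph (m + 1)}
    (h : 1 / 2 < (wv (x : EuclideanSpace ℝ (Fin (m + 1 + 1)))).re) :
    ang x = Complex.arg (wv (x : EuclideanSpace ℝ (Fin (m + 1 + 1)))) := by
  rw [Complex.arg_of_re_nonneg (by linarith), ang, max_eq_left]
  exact h.le.trans (Complex.re_le_norm _)

theorem wv_eq {x : Sph (m + 1)}
    (h : 1 / 2 < (wv (x : EuclideanSpace ℝ (Fin (m + 1 + 1)))).re) :
    wv (x : EuclideanSpace ℝ (Fin (m + 1 + 1))) =
      ‖wv (x : EuclideanSpace ℝ (Fin (m + 1 + 1)))‖ * Complex.exp (ang x * Complex.I) := by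
  rw [ang_eq h, Complex.norm_mul_exp_arg_mul_I]

theorem y0_mem (b : ℕ) : y0 m ∈ nb m b := by
  have h : 1 / 2 < (wv (y0 m : EuclideanSpace ℝ (Fin (m + 1 + 1)))).re := by
    rw [wv_y0]; norm_num
  refine ⟨h, ?_⟩
  rw [ang_eq h, wv_y0, Complex.arg_one, abs_zero, mul_zero]
  exact Real.pi_pos

/-- A small multiple of the angle which is trivial on the circle is zero. -/
theorem ang_zero {θ : ℝ} (h : |θ| < Real.pi) (h1 : Complex.exp (θ * Complex.I) = 1) : θ = 0 := by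
  rw [Complex.exp_eq_one_iff] at h1
  obtain ⟨n, hn⟩ := h1
  have h2 : (θ : ℂ) = n * (2 * Real.pi) := by
    have h3 : (θ : ℂ) * Complex.I = (n * (2 * Real.pi)) * Complex.I := by rw [hn]; ring
    exact mul_right_cancel₀ Complex.I_ne_zero h3
  have h3 : θ = n * (2 * Real.pi) := by exact_mod_cast h2
  have h4 : n = 0 := by
    by_contra hne
    have h5 : (1 : ℝ) ≤ |(n : ℝ)| := by
      rw [← Int.cast_abs]
      exact_mod_cast Int.one_le_abs hne
    rw [h3, abs_mul, abs_of_pos (by positivity : (0 : ℝ) < 2 * Real.pi)] at h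
    nlinarith [Real.pi_pos]
  rw [h3, h4]
  simp

/-- In the neighbourhood, the base point is the only point with given properties. -/
theorem nb_unique {b : ℕ} {x : Sph (m + 1)} (hx : x ∈ nb m b) {t : ℝ} (ht : 1 ≤ t)
    (htb : t ≤ b) (h1 : ‖wv (x : EuclideanSpace ℝ (Fin (m + 1 + 1)))‖ = 1)
    (h2 : Complex.exp ((t * ang x : ℝ) * Complex.I) = 1) : x = y0 m := by
  have h3 : |t * ang x| < Real.pi := by
    rw [abs_mul, abs_of_nonneg (by linarith : (0 : ℝ) ≤ t)]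
    exact lt_of_le_of_lt (mul_le_mul_of_nonneg_right htb (abs_nonneg _)) hx.2
  have h4 := ang_zero h3 h2
  have h5 : ang x = 0 := by
    rcases mul_eq_zero.1 h4 with h | h
    · linarith
    · exact h
  apply eq_y0
  rw [wv_eq hx.1, h1, h5]
  simp

section power

variable {b : ℕ} (hb : 1 ≤ b) (Θ : C(Sph (m + 1), Sph (m + 1)))
  (h1 : ∀ (x : Sph (m + 1)) (i : Fin (m + 1 + 1)), (i : ℕ) < m →
      (Θ x : EuclideanSpace ℝ (Fin (m + 1 + 1))) i = (x : EuclideanSpace ℝ (Fin (m + 1 + 1))) i)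
  (h2 : ∀ (x : Sph (m + 1)), wv (Θ x : EuclideanSpace ℝ (Fin (m + 1 + 1))) *
      (‖wv (x : EuclideanSpace ℝ (Fin (m + 1 + 1)))‖ : ℂ) ^ (b - 1) =
      wv (x : EuclideanSpace ℝ (Fin (m + 1 + 1))) ^ b)

include h1 in
theorem norm_Θ (x : Sph (m + 1)) : ‖wv (Θ x : EuclideanSpace ℝ (Fin (m + 1 + 1)))‖ =
    ‖wv (x : EuclideanSpace ℝ (Fin (m + 1 + 1)))‖ := by
  have e1 := sph_nsq (Θ x)
  have e2 := sph_nsq x
  have e3 : (∑ i : Fin m, ((Θ x : EuclideanSpace ℝ (Fin (m + 1 + 1)))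
      (Fin.castSucc (Fin.castSucc i))) ^ 2) =
      ∑ i : Fin m, ((x : EuclideanSpace ℝ (Fin (m + 1 + 1)))
      (Fin.castSucc (Fin.castSucc i))) ^ 2 :=
    Finset.sum_congr rfl fun i _ => by rw [h1]; simp
  rw [e3] at e1
  exact (sq_eq_sq₀ (norm_nonneg _) (norm_nonneg _)).1 (by linarith)

include h1 h2 in
/-- Two points with the same power have the same image. -/
theorem Θ_eq {x x' : Sph (m + 1)}
    (h : ∀ i : Fin (m + 1 + 1), (i : ℕ) < m → (x : EuclideanSpace ℝ (Fin (m + 1 + 1))) i =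
      (x' : EuclideanSpace ℝ (Fin (m + 1 + 1))) i)
    (hn : ‖wv (x : EuclideanSpace ℝ (Fin (m + 1 + 1)))‖ =
      ‖wv (x' : EuclideanSpace ℝ (Fin (m + 1 + 1)))‖)
    (hw : wv (x : EuclideanSpace ℝ (Fin (m + 1 + 1))) ^ b =
      wv (Θ x' : EuclideanSpace ℝ (Fin (m + 1 + 1))) *
      (‖wv (x : EuclideanSpace ℝ (Fin (m + 1 + 1)))‖ : ℂ) ^ (b - 1)) : Θ x = Θ x' := by
  refine sph_ext (fun i hi => by rw [h1 _ i hi, h1 _ i hi, h i hi]) ?_
  by_cases h0 : ‖wv (x : EuclideanSpace ℝ (Fin (m + 1 + 1)))‖ = 0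
  · have e1 := norm_Θ Θ h1 x
    have e2 := norm_Θ Θ h1 x'
    rw [h0] at e1
    rw [← hn, h0] at e2
    rw [norm_eq_zero.1 e1, norm_eq_zero.1 e2]
  · have e1 := h2 x
    rw [hw] at e1
    exact mul_right_cancel₀ (pow_ne_zero _ (by exact_mod_cast h0)) e1

include h1 h2 hb in
theorem Θ_rot (k : ℕ) (x : Sph (m + 1)) : Θ (rot (2 * Real.pi * k / b, x)) = Θ x := by
  have hb' : (b : ℂ) ≠ 0 := by exact_mod_cast (by omega : b ≠ 0)
  have e1 : ‖wv (rot (2 * Real.pi * k / b, x) : EuclideanSpace ℝ (Fin (m + 1 + 1)))‖ =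
      ‖wv (x : EuclideanSpace ℝ (Fin (m + 1 + 1)))‖ := by
    rw [wv_rot, norm_mul, Complex.norm_exp_ofReal_mul_I, one_mul]
  refine Θ_eq Θ h1 h2 (fun i hi => rot_lt _ _ hi) e1 ?_
  rw [e1, h2, wv_rot, mul_pow, ← Complex.exp_nat_mul]
  have e2 : (b : ℂ) * (((2 * Real.pi * k / b : ℝ) : ℂ) * Complex.I) = k * (2 * Real.pi * Complex.I) := by
    push_cast
    field_simp
  rw [e2, Complex.exp_nat_mul_two_pi_mul_I, one_mul]

/-- the points over the base point -/
noncomputable def pt (m b k : ℕ) : Sph (m + 1) := rot (2 * Real.pi * k / b, y0 m)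

include h1 h2 hb in
theorem Θ_pt {x : Sph (m + 1)} (hx : Θ x = y0 m) : ∃ k < b, x = pt m b k := by
  have hb' : b ≠ 0 := by omega
  have hb'' : (b : ℂ) ≠ 0 := by exact_mod_cast hb'
  have e1 : ‖wv (x : EuclideanSpace ℝ (Fin (m + 1 + 1)))‖ = 1 := by
    rw [← norm_Θ Θ h1 x, hx, norm_wv_y0]
  have e2 := h2 x
  rw [e1, hx, wv_y0] at e2
  simp only [Complex.ofReal_one, one_pow, mul_one] at e2
  have : NeZero b := ⟨hb'⟩
  obtain ⟨k, hk, e3⟩ := (Complex.isPrimitiveRoot_exp b hb').eq_pow_of_pow_eq_one e2.symm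
  refine ⟨k, hk, eq_of_wv ?_ e1⟩
  rw [pt, wv_rot, wv_y0, mul_one, ← e3, ← Complex.exp_nat_mul]
  congr 1
  push_cast
  field_simp

include hb in
/-- The rotated neighbourhoods contain only one of the points. -/
theorem pt_notMem {j k : ℕ} (hj : j < b) (hk : k < b) {x : Sph (m + 1)} (hx : x ∈ nb m b)
    (h : rot (2 * Real.pi * j / b, x) = pt m b k) : j = k := by
  have hb' : b ≠ 0 := by omega
  have hb'' : (b : ℂ) ≠ 0 := by exact_mod_cast hb'
  have e0 := congrArg (fun q : Sph (m + 1) => wv (q : EuclideanSpace ℝ (Fin (m + 1 + 1)))) h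
  simp only [pt, wv_rot, wv_y0, mul_one] at e0
  have e1 : ‖wv (x : EuclideanSpace ℝ (Fin (m + 1 + 1)))‖ = 1 := by
    have := congrArg norm e0
    rwa [norm_mul, Complex.norm_exp_ofReal_mul_I, Complex.norm_exp_ofReal_mul_I, one_mul] at this
  have ef : ∀ l : ℕ, Complex.exp (((2 * Real.pi * l / b : ℝ) : ℂ) * Complex.I) =
      Complex.exp (2 * Real.pi * Complex.I / b) ^ l := by
    intro l
    rw [← Complex.exp_nat_mul]
    congr 1
    push_cast
    field_simp
  have ep : ∀ l : ℕ, (Complex.exp (((2 * Real.pi * l / b : ℝ) : ℂ) * Complex.I)) ^ b = 1 := by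
    intro l
    rw [ef, ← pow_mul, mul_comm l b, pow_mul, (Complex.isPrimitiveRoot_exp b hb').pow_eq_one, one_pow]
  have e2 : wv (x : EuclideanSpace ℝ (Fin (m + 1 + 1))) ^ b = 1 := by
    have := congrArg (fun q : ℂ => q ^ b) e0
    simpa only [mul_pow, ep, one_mul] using this
  rw [wv_eq hx.1, e1] at e2
  simp only [Complex.ofReal_one, one_mul] at e2
  rw [← Complex.exp_nat_mul] at e2
  have e3 : x = y0 m := nb_unique hx (t := b) (by exact_mod_cast hb) le_rfl e1 (by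
    rw [← e2]
    congr 1
    push_cast
    ring)
  rw [e3, wv_y0, mul_one, ef, ef] at e0
  exact (Complex.isPrimitiveRoot_exp b hb').pow_inj hj hk e0

/-- the homotopy from the identity to the power map near the base point -/
noncomputable def hom (m b : ℕ) : C(CubeHom.I × Sph (m + 1), Sph (m + 1)) where
  toFun q := rot (((q.1 : ℝ) * ((b : ℝ) - 1)) * ang q.2, q.2)
  continuous_toFun := by
    refine rot.continuous.comp (Continuous.prodMk ?_ continuous_snd)
    refine Continuous.mul ?_ (ang_cont.comp continuous_snd)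
    exact (continuous_subtype_val.comp continuous_fst).mul continuous_const

theorem rot_zero (x : Sph (m + 1)) : rot ((0 : ℝ), x) = x := by
  refine sph_ext (fun i hi => rot_lt _ _ hi) ?_
  rw [wv_rot]
  simp

include hb in
theorem hom_ne (t : CubeHom.I) {x : Sph (m + 1)} (hx : x ∈ nb m b) (hne : x ≠ y0 m) :
    hom m b (t, x) ≠ y0 m := by
  intro h
  apply hne
  have e0 := congrArg (fun q : Sph (m + 1) => wv (q : EuclideanSpace ℝ (Fin (m + 1 + 1)))) h
  have e0' : Complex.exp ((((t : ℝ) * ((b : ℝ) - 1)) * ang x : ℝ) * Complex.I) *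
      wv (x : EuclideanSpace ℝ (Fin (m + 1 + 1))) = 1 := by
    rw [← wv_y0 (m := m), ← e0]
    exact (wv_rot _ _).symm
  have e1 : ‖wv (x : EuclideanSpace ℝ (Fin (m + 1 + 1)))‖ = 1 := by
    have := congrArg norm e0'
    rwa [norm_mul, Complex.norm_exp_ofReal_mul_I, one_mul, norm_one] at this
  rw [wv_eq hx.1, e1, Complex.ofReal_one, one_mul, ← Complex.exp_add] at e0'
  have hb1 : (1 : ℝ) ≤ b := by exact_mod_cast hb
  have t0 : (0 : ℝ) ≤ t := t.2.1
  have t1 : (t : ℝ) ≤ 1 := t.2.2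
  refine nb_unique hx (t := (t : ℝ) * ((b : ℝ) - 1) + 1) (by nlinarith) (by nlinarith) e1 ?_
  rw [← e0']
  congr 1
  push_cast
  ring

include hb h1 h2 in
theorem hom_one {x : Sph (m + 1)} (hx : x ∈ nb m b) : hom m b (1, x) = Θ x := by
  refine sph_ext (fun i hi => ?_) ?_
  · rw [h1 x i hi]
    exact rot_lt _ _ hi
  · have e1 : wv (hom m b (1, x) : EuclideanSpace ℝ (Fin (m + 1 + 1))) =
        Complex.exp ((((1 : ℝ) * ((b : ℝ) - 1)) * ang x : ℝ) * Complex.I) *
      wv (x : EuclideanSpace ℝ (Fin (m + 1 + 1))) := wv_rot _ _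
    rw [e1]
    have hn0 : ‖wv (x : EuclideanSpace ℝ (Fin (m + 1 + 1)))‖ ≠ 0 := by
      have := Complex.re_le_norm (wv (x : EuclideanSpace ℝ (Fin (m + 1 + 1))))
      have := hx.1
      intro h
      linarith
    refine mul_right_cancel₀ (b := (‖wv (x : EuclideanSpace ℝ (Fin (m + 1 + 1)))‖ : ℂ) ^ (b - 1))
      (pow_ne_zero _ (by exact_mod_cast hn0)) ?_
    rw [h2]
    obtain ⟨c, rfl⟩ : ∃ c, b = c + 1 := ⟨b - 1, by omega⟩
    rw [pow_succ, Nat.add_sub_cancel]
    have e2 : wv (x : EuclideanSpace ℝ (Fin (m + 1 + 1))) ^ c =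
        (‖wv (x : EuclideanSpace ℝ (Fin (m + 1 + 1)))‖ : ℂ) ^ c *
          Complex.exp ((((1 : ℝ) * (((c + 1 : ℕ) : ℝ) - 1)) * ang x : ℝ) * Complex.I) := by
      conv_lhs => rw [wv_eq hx.1, mul_pow, ← Complex.exp_nat_mul]
      congr 2
      push_cast
      ring
    rw [e2]
    ring

end power

/-- the rotation by a fixed angle -/
noncomputable def ro (m : ℕ) (s : ℝ) : C(Sph (m + 1), Sph (m + 1)) :=
  ⟨fun x => rot (s, x), rot.continuous.comp (Continuous.prodMk continuous_const continuous_id)⟩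

/-- the homotopy from the identity to a rotation -/
noncomputable def roH (m : ℕ) (s : ℝ) : C(CubeHom.I × Sph (m + 1), Sph (m + 1)) :=
  ⟨fun q => rot ((q.1 : ℝ) * s, q.2), rot.continuous.comp (Continuous.prodMk
    ((continuous_subtype_val.comp continuous_fst).mul continuous_const) continuous_snd)⟩

theorem rot_rot (s t : ℝ) (x : Sph (m + 1)) : rot (s, rot (t, x)) = rot (s + t, x) := by
  refine sph_ext (fun i hi => by rw [rot_lt _ _ hi, rot_lt _ _ hi, rot_lt _ _ hi]) ?_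
  rw [wv_rot, wv_rot, wv_rot, ← mul_assoc, ← Complex.exp_add]
  congr 2
  push_cast
  ring

theorem ro_inj (s : ℝ) {x y : Sph (m + 1)} (h : ro m s x = ro m s y) : x = y := by
  have h1 : ∀ x : Sph (m + 1), rot (-s, ro m s x) = x := fun x => by
    change rot (-s, rot (s, x)) = x
    rw [rot_rot, neg_add_cancel, rot_zero]
  rw [← h1 x, h, h1 y]

theorem ro_bd (s : ℝ) {k : ℤ} {z : Ch ℤ (Sph (m + 1))} (hz : z ∈ CubeHom.Z ℤ k Set.univ ∅) :
    CubeHom.Bd ℤ k Set.univ ∅ (push (ro m s) z - z) := by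
  have h1 : atTime (roH m s) 1 = ro m s := by
    ext x
    change ((rot (((1 : CubeHom.I) : ℝ) * s, x) : Sph (m + 1)) :
      EuclideanSpace ℝ (Fin (m + 1 + 1))) _ = _
    simp [ro]
  have h0 : atTime (roH m s) 0 = ContinuousMap.id _ := by
    refine ContinuousMap.ext fun x => ?_
    change rot (((0 : CubeHom.I) : ℝ) * s, x) = x
    rw [show ((0 : CubeHom.I) : ℝ) * s = 0 by simp, rot_zero]
  have h2 := Bd_homotopy (H := roH m s) (U := Set.univ) (A := ∅) (V := Set.univ) (A' := ∅)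
    (fun _ _ _ => Set.mem_univ _) (fun _ _ h => h) hz
  rwa [h1, h0, push_id] at h2

theorem mv_points {n : ℤ} {Y : Type} [TopologicalSpace Y] {A₁ A₂ : Set Y} (o1 : IsOpen A₁)
    (o2 : IsOpen A₂) (hA : A₁ ∪ A₂ = Set.univ) {c : Ch ℤ Y} (hc : c ∈ CubeHom.C ℤ n Set.univ)
    (h1 : CubeHom.Bd ℤ n Set.univ A₁ c) (h2 : CubeHom.Bd ℤ n Set.univ A₂ c) :
    CubeHom.Bd ℤ n Set.univ (A₁ ∩ A₂) c := by
  rw [← TCH.BT_one] at h1 h2 ⊢
  refine TCH.mv_rel (g := ContinuousMap.id Y) TCH.TOp.one Function.injective_id o1 o2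
    (fun _ => Iff.rfl) (fun _ => Iff.rfl) (fun e he => ?_) hc h1 h2
  rw [TCH.BT_one, hA]
  exact CubeHom.Bd.of_mem_C he.1

theorem push_congr {X Y : Type} [TopologicalSpace X] [TopologicalSpace Y] {k : ℤ} {U : Set X}
    {f g : C(X, Y)} (h : ∀ x ∈ U, f x = g x) {c : Ch ℤ X} (hc : c ∈ CubeHom.C ℤ k U) :
    push f c = push g c := by
  refine map_eq_of_supported (push f) (push g) (fun σ hσ => ?_) hc
  rw [push_single, push_single]
  congr 1
  exact ContinuousMap.ext fun u => h _ (hσ.2 u)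

/-- The power map has degree `b`. -/
theorem main {b : ℕ} (hb : 1 ≤ b) {z : Ch ℤ (Sph (m + 1))} (hz : FCyc (m + 1) z)
    (Θ : C(Sph (m + 1), Sph (m + 1)))
    (h1 : ∀ (x : Sph (m + 1)) (i : Fin (m + 1 + 1)), (i : ℕ) < m →
      (Θ x : EuclideanSpace ℝ (Fin (m + 1 + 1))) i = (x : EuclideanSpace ℝ (Fin (m + 1 + 1))) i)
    (h2 : ∀ (x : Sph (m + 1)), wv (Θ x : EuclideanSpace ℝ (Fin (m + 1 + 1))) *
      (‖wv (x : EuclideanSpace ℝ (Fin (m + 1 + 1)))‖ : ℂ) ^ (b - 1) =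
      wv (x : EuclideanSpace ℝ (Fin (m + 1 + 1))) ^ b) : Dg z Θ b := by
  classical
  obtain ⟨D, hD⟩ := hz.gen (push Θ z) (push_mem_Z (fun _ _ => Set.mem_univ _) (fun _ h => h) hz.mem)
  have oy : IsOpen ({y0 m}ᶜ : Set (Sph (m + 1))) := isOpen_compl_singleton
  have hcov : (Set.univ : Set (Sph (m + 1))) = nb m b ∪ {y0 m}ᶜ := by
    ext x
    by_cases hx : x = y0 m
    · simp [hx, y0_mem]
    · simp [hx]
  obtain ⟨z1, hz1, hzz⟩ := excision_surj (nb_open b) oy hcov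
    (Z_mono subset_rfl (Set.empty_subset _) hz.mem)
  -- the homotopy near the base point
  have hom1 : CubeHom.Bd ℤ ((m + 1 : ℕ) : ℤ) Set.univ {y0 m}ᶜ (push Θ z1 - z1) := by
    have hz1' : z1 ∈ CubeHom.Z ℤ ((m + 1 : ℕ) : ℤ) (nb m b) (nb m b ∩ {y0 m}ᶜ) :=
      ⟨hz1.1, mem_Q_inter (bd_mem_C hz1.1) hz1.2⟩
    have e := Bd_homotopy (H := hom m b) (U := nb m b) (A := nb m b ∩ {y0 m}ᶜ) (V := Set.univ)
      (A' := {y0 m}ᶜ) (fun _ _ _ => Set.mem_univ _) (fun t x hx => hom_ne hb t hx.1 hx.2) hz1'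
    have e0 : atTime (hom m b) 0 = ContinuousMap.id _ := by
      refine ContinuousMap.ext fun x => ?_
      change rot ((((0 : CubeHom.I) : ℝ) * ((b : ℝ) - 1)) * ang x, x) = x
      rw [show (((0 : CubeHom.I) : ℝ) * ((b : ℝ) - 1)) * ang x = 0 by simp, rot_zero]
    have e1 : push (atTime (hom m b) 1) z1 = push Θ z1 :=
      push_congr (fun x hx => hom_one hb Θ h1 h2 hx) hz1.1
    rwa [e0, push_id, e1] at e
  have hΘR : ∀ j : ℕ, Θ.comp (ro m (2 * Real.pi * j / b)) = Θ := fun j =>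
    ContinuousMap.ext fun x => Θ_rot hb Θ h1 h2 j x
  set R : ℕ → C(Sph (m + 1), Sph (m + 1)) := fun j => ro m (2 * Real.pi * j / b) with hR
  have hRpt : ∀ j, R j (y0 m) = pt m b j := fun j => rfl
  set c : Ch ℤ (Sph (m + 1)) := z - ∑ j ∈ Finset.range b, push (R j) z1 with hc
  have hcC : c ∈ CubeHom.C ℤ ((m + 1 : ℕ) : ℤ) Set.univ :=
    Submodule.sub_mem _ hz.mem.1 (Submodule.sum_mem _ fun j _ =>
      push_mem_C (fun _ _ => Set.mem_univ _) hz1.1)
  have hloc : ∀ k < b, CubeHom.Bd ℤ ((m + 1 : ℕ) : ℤ) Set.univ {pt m b k}ᶜ c := by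
    intro k hk
    have e1 : CubeHom.Bd ℤ ((m + 1 : ℕ) : ℤ) Set.univ {pt m b k}ᶜ (push (R k) (z - z1)) := by
      refine hzz.push (fun _ _ => Set.mem_univ _) ?_
      intro x hx h
      refine hx (ro_inj (2 * Real.pi * k / b) ?_)
      exact h
    have e2 : CubeHom.Bd ℤ ((m + 1 : ℕ) : ℤ) Set.univ {pt m b k}ᶜ (push (R k) z - z) :=
      (ro_bd _ hz.mem).mono subset_rfl (Set.empty_subset _)
    have e3 : CubeHom.Bd ℤ ((m + 1 : ℕ) : ℤ) Set.univ {pt m b k}ᶜ
        (∑ j ∈ (Finset.range b).erase k, push (R j) z1) := by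
      refine CubeHom.Bd.of_mem_C (Submodule.sum_mem _ fun j hj => ?_)
      rw [Finset.mem_erase, Finset.mem_range] at hj
      refine push_mem_C ?_ hz1.1
      intro x hx h
      exact hj.1 (pt_notMem hb hj.2 hk hx h)
    have e4 : c = (push (R k) (z - z1) - (push (R k) z - z)) -
        ∑ j ∈ (Finset.range b).erase k, push (R j) z1 := by
      rw [hc, ← Finset.add_sum_erase _ _ (Finset.mem_range.2 hk), map_sub]
      abel
    rw [e4]
    exact (e1.sub e2).sub e3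
  have key : ∀ k ≤ b, CubeHom.Bd ℤ ((m + 1 : ℕ) : ℤ) Set.univ {x | ∃ j < k, x = pt m b j}ᶜ c := by
    intro k
    induction k with
    | zero =>
      intro _
      refine CubeHom.Bd.of_mem_C ?_
      have : ({x | ∃ j < 0, x = pt m b j}ᶜ : Set (Sph (m + 1))) = Set.univ := by
        ext x; simp
      rw [this]
      exact hcC
    | succ k ih =>
      intro hk
      have e1 : ({x | ∃ j < k + 1, x = pt m b j}ᶜ : Set (Sph (m + 1))) =
          {x | ∃ j < k, x = pt m b j}ᶜ ∩ {pt m b k}ᶜ := by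
        ext x
        simp only [Set.mem_compl_iff, Set.mem_ofPred_eq, Set.mem_inter_iff,
          Set.mem_singleton_iff]
        constructor
        · intro h
          exact ⟨fun ⟨j, hj, hx⟩ => h ⟨j, by omega, hx⟩, fun hx => h ⟨k, by omega, hx⟩⟩
        · rintro ⟨ha, hb'⟩ ⟨j, hj, hx⟩
          rcases Nat.lt_succ_iff_lt_or_eq.1 hj with h | h
          · exact ha ⟨j, h, hx⟩
          · subst h; exact hb' hx
      rw [e1]
      refine mv_points ?_ isOpen_compl_singleton ?_ hcC (ih (by omega)) (hloc k (by omega))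
      · rw [isOpen_compl_iff]
        refine Set.Finite.isClosed ?_
        refine ((Finset.range k).finite_toSet.image (pt m b)).subset ?_
        rintro x ⟨j, hj, rfl⟩
        exact ⟨j, by simpa using hj, rfl⟩
      · ext x
        simp only [Set.mem_union, Set.mem_compl_iff, Set.mem_ofPred_eq, Set.mem_singleton_iff,
          Set.mem_univ, iff_true]
        by_contra hcon
        push Not at hcon
        obtain ⟨⟨j, hj, hx⟩, hx'⟩ := hcon
        have : j = k := pt_notMem (x := y0 m) hb (by omega) (by omega) (y0_mem b) (by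
          rw [← hx', hx]; rfl)
        omega
  have e1 : CubeHom.Bd ℤ ((m + 1 : ℕ) : ℤ) Set.univ {y0 m}ᶜ (push Θ c) := by
    refine (key b le_rfl).push (fun _ _ => Set.mem_univ _) ?_
    intro x hx h
    obtain ⟨k, hk, hxk⟩ := Θ_pt hb Θ h1 h2 (x := x) h
    exact hx ⟨k, hk, hxk⟩
  have e2 : push Θ c = push Θ z - (b : ℤ) • push Θ z1 := by
    rw [hc, map_sub, map_sum]
    congr 1
    rw [Finset.sum_congr rfl fun j _ => by rw [push_push, hΘR j]]
    rw [Finset.sum_const, Finset.card_range]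
    simp
  rw [e2] at e1
  have e3 : CubeHom.Bd ℤ ((m + 1 : ℕ) : ℤ) Set.univ {y0 m}ᶜ ((D - (b : ℤ)) • z) := by
    have e4 := hD.mono subset_rfl (Set.empty_subset ({y0 m}ᶜ : Set (Sph (m + 1))))
    have e5 := (hom1.smul (b : ℤ)).sub (hzz.smul (b : ℤ))
    have e6 := (e1.sub e4).add (hom1.smul (b : ℤ))
    have e7 := (e6.sub (hzz.smul (b : ℤ)))
    have e8 : (D - (b : ℤ)) • z = push Θ z - (b : ℤ) • push Θ z1 - (push Θ z - D • z) +
        (b : ℤ) • (push Θ z1 - z1) - (b : ℤ) • (z - z1) := by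
      rw [sub_smul, smul_sub, smul_sub]
      abel
    rw [e8]
    exact e7
  have e4 := hz.free (y0 m) (D - b) e3
  have e5 : D = b := by linarith
  rw [e5] at hD
  exact hD

end DgPower

/-- The map `(v, w) ↦ (v, w^b / |w|^(b-1))` of `S(ℝ^(n-1) × ℂ)` has degree `b`. Here coordinates
`n - 1` and `n` of `ℝ^(n+1)` are the real and imaginary part of `w`. (Suspensions `susp_inj` of the
library, `H_2(ℂ, ℂ - 0) → H_1(ℂ - 0)`, the angle cocycle.) -/
theorem dg_power {n b : ℕ} (hn : 2 ≤ n) (hb : 1 ≤ b) {z : Ch ℤ (Sph n)} (hz : FCyc n z)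
    (Θ : C(Sph n, Sph n))
    (h1 : ∀ (x : Sph n) (i : Fin (n + 1)), (i : ℕ) < n - 1 →
      (Θ x : EuclideanSpace ℝ (Fin (n + 1))) i = (x : EuclideanSpace ℝ (Fin (n + 1))) i)
    (h2 : ∀ (x : Sph n), let w : ℂ := ⟨(x : EuclideanSpace ℝ (Fin (n + 1)))
        ⟨n - 1, by omega⟩, (x : EuclideanSpace ℝ (Fin (n + 1))) ⟨n, by omega⟩⟩
      let w' : ℂ := ⟨(Θ x : EuclideanSpace ℝ (Fin (n + 1)))
        ⟨n - 1, by omega⟩, (Θ x : EuclideanSpace ℝ (Fin (n + 1))) ⟨n, by omega⟩⟩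
      w' * (‖w‖ : ℂ) ^ (b - 1) = w ^ b) : Dg z Θ b := by
  obtain ⟨m, rfl⟩ : ∃ m, n = m + 1 := ⟨n - 1, by omega⟩
  exact DgPower.main hb hz Θ h1 h2

end Pool.Agent.TC
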