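import Pool.Agent.Lib.TC.Deg4
import Pool.Agent.Lib.TC.Deg5

/-!
# Section 13.2: degrees and representations
-/

namespace Pool.Agent.TC

open CubeHom

namespace DG6

section Reps

variable {n : ℕ}

/-- Extension by zero. -/
noncomputable def exz (x : EuclideanSpace ℝ (Fin (n + 1))) (i : ℕ) : ℝ :=
  if h : i < n + 1 then x ⟨i, h⟩ else 0

theorem exz_of_lt (x : EuclideanSpace ℝ (Fin (n + 1))) {i : ℕ} (h : i < n + 1) :
    exz x i = x ⟨i, h⟩ := dif_pos h

theorem exz_add (x y : EuclideanSpace ℝ (Fin (n + 1))) (i : ℕ) :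
    exz (x + y) i = exz x i + exz y i := by
  unfold exz
  split_ifs <;> simp

theorem exz_smul (r : ℝ) (x : EuclideanSpace ℝ (Fin (n + 1))) (i : ℕ) :
    exz (r • x) i = r * exz x i := by
  unfold exz
  split_ifs <;> simp

theorem continuous_exz (i : ℕ) :
    Continuous (fun x : EuclideanSpace ℝ (Fin (n + 1)) => exz x i) := by
  unfold exz
  split_ifs
  · fun_prop
  · exact continuous_const

/-- The pair of coordinates `a + 2 j`, `a + 2 j + 1` as a complex number. -/
noncomputable def cpx (a : ℕ) (x : EuclideanSpace ℝ (Fin (n + 1))) (j : ℕ) : ℂ :=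
  ⟨exz x (a + 2 * j), exz x (a + 2 * j + 1)⟩

theorem cpx_add (a : ℕ) (x y : EuclideanSpace ℝ (Fin (n + 1))) (j : ℕ) :
    cpx a (x + y) j = cpx a x j + cpx a y j := by
  apply Complex.ext <;> simp [cpx, exz_add]

theorem cpx_smul (a : ℕ) (r : ℝ) (x : EuclideanSpace ℝ (Fin (n + 1))) (j : ℕ) :
    cpx a (r • x) j = (r : ℂ) * cpx a x j := by
  apply Complex.ext <;> simp [cpx, exz_smul]

theorem continuous_cpx (a j : ℕ) :
    Continuous (fun x : EuclideanSpace ℝ (Fin (n + 1)) => cpx a x j) := by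
  have h : (fun x : EuclideanSpace ℝ (Fin (n + 1)) => cpx a x j) =
      fun x => ((exz x (a + 2 * j) : ℝ) : ℂ) + ((exz x (a + 2 * j + 1) : ℝ) : ℂ) * Complex.I := by
    funext x
    apply Complex.ext <;> simp [cpx]
  rw [h]
  exact (Complex.continuous_ofReal.comp (continuous_exz _)).add
    ((Complex.continuous_ofReal.comp (continuous_exz _)).mul continuous_const)

/-- Operate with `f j` on the `j`-th pair of coordinates. -/
noncomputable def pairOp (a : ℕ) (f : ℕ → ℂ → ℂ) (x : EuclideanSpace ℝ (Fin (n + 1))) :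
    EuclideanSpace ℝ (Fin (n + 1)) :=
  WithLp.toLp 2 fun i => if (i : ℕ) < a then x i else
    if ((i : ℕ) - a) % 2 = 0 then (f (((i : ℕ) - a) / 2) (cpx a x (((i : ℕ) - a) / 2))).re
    else (f (((i : ℕ) - a) / 2) (cpx a x (((i : ℕ) - a) / 2))).im

theorem pairOp_apply (a : ℕ) (f : ℕ → ℂ → ℂ) (x : EuclideanSpace ℝ (Fin (n + 1)))
    (i : Fin (n + 1)) : pairOp a f x i = if (i : ℕ) < a then x i else
    if ((i : ℕ) - a) % 2 = 0 then (f (((i : ℕ) - a) / 2) (cpx a x (((i : ℕ) - a) / 2))).re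
    else (f (((i : ℕ) - a) / 2) (cpx a x (((i : ℕ) - a) / 2))).im := rfl

theorem pairOp_low (a : ℕ) (f : ℕ → ℂ → ℂ) (x : EuclideanSpace ℝ (Fin (n + 1)))
    {i : Fin (n + 1)} (hi : (i : ℕ) < a) : pairOp a f x i = x i := by
  rw [pairOp_apply, if_pos hi]

theorem cpx_pairOp (a : ℕ) (f : ℕ → ℂ → ℂ) (x : EuclideanSpace ℝ (Fin (n + 1))) {j : ℕ}
    (hj : a + 2 * j + 1 < n + 1) : cpx a (pairOp a f x) j = f j (cpx a x j) := by
  have e1 : (a + 2 * j - a) % 2 = 0 := by omega
  have e2 : (a + 2 * j - a) / 2 = j := by omega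
  have e3 : ¬ (a + 2 * j + 1 - a) % 2 = 0 := by omega
  have e4 : (a + 2 * j + 1 - a) / 2 = j := by omega
  apply Complex.ext
  · change exz (pairOp a f x) (a + 2 * j) = _
    rw [exz_of_lt _ (by omega), pairOp_apply]
    rw [if_neg (by simp), if_pos e1]
    simp only [e2]
  · change exz (pairOp a f x) (a + 2 * j + 1) = _
    rw [exz_of_lt _ (by omega), pairOp_apply]
    rw [if_neg (by simp; omega), if_neg e3]
    simp only [e4]

theorem ext_pair {a k : ℕ} (hak : n + 1 = a + 2 * k) {x y : EuclideanSpace ℝ (Fin (n + 1))}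
    (h1 : ∀ i : Fin (n + 1), (i : ℕ) < a → x i = y i)
    (h2 : ∀ j < k, cpx a x j = cpx a y j) : x = y := by
  ext i
  by_cases hi : (i : ℕ) < a
  · exact h1 i hi
  · have hj : ((i : ℕ) - a) / 2 < k := by omega
    have h3 := h2 _ hj
    rcases Nat.mod_two_eq_zero_or_one ((i : ℕ) - a) with h0 | h0
    · have e : a + 2 * (((i : ℕ) - a) / 2) = i := by omega
      have h4 := congrArg Complex.re h3
      change exz x _ = exz y _ at h4
      rw [e, exz_of_lt _ i.2, exz_of_lt _ i.2] at h4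
      exact h4
    · have e : a + 2 * (((i : ℕ) - a) / 2) + 1 = i := by omega
      have h4 := congrArg Complex.im h3
      change exz x _ = exz y _ at h4
      rw [e, exz_of_lt _ i.2, exz_of_lt _ i.2] at h4
      exact h4

theorem sum_pairs (f : ℕ → ℝ) (a k : ℕ) : ∑ i ∈ Finset.range (a + 2 * k), f i =
    ∑ i ∈ Finset.range a, f i + ∑ j ∈ Finset.range k, (f (a + 2 * j) + f (a + 2 * j + 1)) := by
  induction k with
  | zero => simp
  | succ k ih =>
    have e : a + 2 * (k + 1) = a + 2 * k + 1 + 1 := by ring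
    rw [e, Finset.sum_range_succ, Finset.sum_range_succ, ih, Finset.sum_range_succ]
    ring

theorem norm_sq_pair {a k : ℕ} (hak : n + 1 = a + 2 * k) (x : EuclideanSpace ℝ (Fin (n + 1))) :
    ‖x‖ ^ 2 = ∑ i ∈ Finset.range a, exz x i ^ 2 + ∑ j ∈ Finset.range k, ‖cpx a x j‖ ^ 2 := by
  rw [EuclideanSpace.norm_sq_eq]
  have h1 : ∑ i : Fin (n + 1), ‖x i‖ ^ 2 = ∑ i ∈ Finset.range (n + 1), exz x i ^ 2 := by
    rw [Finset.sum_range]
    refine Finset.sum_congr rfl fun i _ => ?_
    rw [exz_of_lt x i.2, Real.norm_eq_abs, sq_abs]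
  rw [h1, hak, sum_pairs]
  congr 1
  refine Finset.sum_congr rfl fun j _ => ?_
  rw [Complex.sq_norm, Complex.normSq_apply]
  simp only [cpx]
  ring

theorem norm_pairOp {a k : ℕ} (hak : n + 1 = a + 2 * k) (f : ℕ → ℂ → ℂ)
    (hf : ∀ j w, ‖f j w‖ = ‖w‖) (x : EuclideanSpace ℝ (Fin (n + 1))) :
    ‖pairOp a f x‖ = ‖x‖ := by
  have h : ‖pairOp a f x‖ ^ 2 = ‖x‖ ^ 2 := by
    rw [norm_sq_pair hak, norm_sq_pair hak]
    congr 1
    · refine Finset.sum_congr rfl fun i hi => ?_
      simp only [Finset.mem_range] at hi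
      rw [exz_of_lt _ (by omega), exz_of_lt _ (by omega), pairOp_low _ _ _ (by exact hi)]
    · refine Finset.sum_congr rfl fun j hj => ?_
      simp only [Finset.mem_range] at hj
      rw [cpx_pairOp _ _ _ (by omega), hf]
  exact (sq_eq_sq₀ (norm_nonneg _) (norm_nonneg _)).1 h

theorem continuous_pairOp (a : ℕ) (f : ℕ → ℂ → ℂ) (hf : ∀ j, Continuous (f j)) :
    Continuous (pairOp (n := n) a f) := by
  unfold pairOp
  refine (PiLp.continuous_toLp 2 _).comp (continuous_pi fun i => ?_)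
  split_ifs
  · fun_prop
  · exact Complex.continuous_re.comp ((hf _).comp (continuous_cpx _ _))
  · exact Complex.continuous_im.comp ((hf _).comp (continuous_cpx _ _))

/-- The rotations of the pairs of coordinates. -/
noncomputable def rotL {a k : ℕ} (hak : n + 1 = a + 2 * k) (c : ℕ → Circle) :
    EuclideanSpace ℝ (Fin (n + 1)) →ₗ[ℝ] EuclideanSpace ℝ (Fin (n + 1)) where
  toFun := pairOp a fun j w => (c j : ℂ) * w
  map_add' x y := by
    refine ext_pair hak (fun i hi => ?_) fun j hj => ?_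
    · simp [pairOp_low a _ _ hi]
    · rw [cpx_add, cpx_pairOp _ _ _ (by omega), cpx_pairOp _ _ _ (by omega),
        cpx_pairOp _ _ _ (by omega), cpx_add, mul_add]
  map_smul' r x := by
    refine ext_pair hak (fun i hi => ?_) fun j hj => ?_
    · simp [pairOp_low a _ _ hi]
    · simp only [RingHom.id_apply]
      rw [cpx_smul, cpx_pairOp _ _ _ (by omega), cpx_pairOp _ _ _ (by omega), cpx_smul]
      ring

theorem rotL_apply {a k : ℕ} (hak : n + 1 = a + 2 * k) (c : ℕ → Circle)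
    (x : EuclideanSpace ℝ (Fin (n + 1))) :
    rotL hak c x = pairOp a (fun j w => (c j : ℂ) * w) x := rfl

theorem rotL_mul {a k : ℕ} (hak : n + 1 = a + 2 * k) (c c' : ℕ → Circle)
    (x : EuclideanSpace ℝ (Fin (n + 1))) :
    rotL hak c (rotL hak c' x) = rotL hak (c * c') x := by
  simp only [rotL_apply]
  refine ext_pair hak (fun i hi => ?_) fun j hj => ?_
  · rw [pairOp_low a _ _ hi, pairOp_low a _ _ hi, pairOp_low a _ _ hi]
  · rw [cpx_pairOp _ _ _ (by omega), cpx_pairOp _ _ _ (by omega), cpx_pairOp _ _ _ (by omega)]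
    simp [mul_assoc]

theorem rotL_one {a k : ℕ} (hak : n + 1 = a + 2 * k) (x : EuclideanSpace ℝ (Fin (n + 1))) :
    rotL hak 1 x = x := by
  simp only [rotL_apply]
  refine ext_pair hak (fun i hi => ?_) fun j hj => ?_
  · rw [pairOp_low a _ _ hi]
  · rw [cpx_pairOp _ _ _ (by omega)]
    simp

theorem rotL_norm {a k : ℕ} (hak : n + 1 = a + 2 * k) (c : ℕ → Circle)
    (x : EuclideanSpace ℝ (Fin (n + 1))) : ‖rotL hak c x‖ = ‖x‖ := by
  rw [rotL_apply]
  exact norm_pairOp hak _ (fun j w => by rw [norm_mul, Circle.norm_coe, one_mul]) x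

/-- The rotation as an isometry. -/
noncomputable def rotI {a k : ℕ} (hak : n + 1 = a + 2 * k) (c : ℕ → Circle) :
    EuclideanSpace ℝ (Fin (n + 1)) ≃ₗᵢ[ℝ] EuclideanSpace ℝ (Fin (n + 1)) where
  toLinearEquiv := LinearEquiv.ofLinearMap (rotL hak c) (rotL hak c⁻¹)
        (by
          refine LinearMap.ext fun x => ?_
          rw [LinearMap.comp_apply, rotL_mul, mul_inv_cancel, rotL_one]
          rfl)
        (by
          refine LinearMap.ext fun x => ?_
          rw [LinearMap.comp_apply, rotL_mul, inv_mul_cancel, rotL_one]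
          rfl)
  norm_map' x := rotL_norm hak c x

/-- The rotations of the pairs of coordinates, as a homomorphism. -/
noncomputable def rot {a k : ℕ} (hak : n + 1 = a + 2 * k) :
    (ℕ → Circle) →* (EuclideanSpace ℝ (Fin (n + 1)) ≃ₗᵢ[ℝ] EuclideanSpace ℝ (Fin (n + 1))) where
  toFun c := rotI hak c
  map_one' := by
    ext1 x
    exact rotL_one hak x
  map_mul' c c' := by
    ext1 x
    exact (rotL_mul hak c c' x).symm

theorem rot_apply {a k : ℕ} (hak : n + 1 = a + 2 * k) (c : ℕ → Circle)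
    (x : EuclideanSpace ℝ (Fin (n + 1))) :
    rot hak c x = pairOp a (fun j w => (c j : ℂ) * w) x := rfl

/-- The fixed point sphere. -/
theorem fixHomeo {G : Type} [Group G] {d : ℕ} (hdn : d ≤ n)
    (ρ : G →* (EuclideanSpace ℝ (Fin (n + 1)) ≃ₗᵢ[ℝ] EuclideanSpace ℝ (Fin (n + 1))))
    (hfix : ∀ x : EuclideanSpace ℝ (Fin (n + 1)), (∀ g, ρ g x = x) ↔
      ∀ i : Fin (n + 1), d < (i : ℕ) → x i = 0) : Nonempty (Fx G (LinSphere ρ) ≃ₜ Sph d) := by
  have hcast : Function.Injective (Fin.castLE (show d + 1 ≤ n + 1 by omega)) :=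
    Fin.castLE_injective _
  -- restriction and extension
  let res : EuclideanSpace ℝ (Fin (n + 1)) → EuclideanSpace ℝ (Fin (d + 1)) :=
    fun x => WithLp.toLp 2 fun i => x (Fin.castLE (show d + 1 ≤ n + 1 by omega) i)
  let ext : EuclideanSpace ℝ (Fin (d + 1)) → EuclideanSpace ℝ (Fin (n + 1)) :=
    fun y => WithLp.toLp 2 fun i => if h : (i : ℕ) < d + 1 then y ⟨i, h⟩ else 0
  have hres : Continuous res := by
    refine (PiLp.continuous_toLp 2 _).comp (continuous_pi fun i => ?_)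
    fun_prop
  have hext : Continuous ext := by
    refine (PiLp.continuous_toLp 2 _).comp (continuous_pi fun i => ?_)
    split_ifs
    · fun_prop
    · exact continuous_const
  have extv : ∀ y (i : Fin (n + 1)), d < (i : ℕ) → ext y i = 0 := by
    intro y i hi
    change (if h : (i : ℕ) < d + 1 then y ⟨i, h⟩ else 0) = 0
    rw [dif_neg (by omega)]
  have hre : ∀ y, res (ext y) = y := by
    intro y
    ext i
    change (if h : ((Fin.castLE (show d + 1 ≤ n + 1 by omega) i : Fin (n + 1)) : ℕ) < d + 1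
      then y ⟨_, h⟩ else 0) = y i
    rw [dif_pos (by simp only [Fin.val_castLE]; omega)]
    rfl
  have her : ∀ x, (∀ i : Fin (n + 1), d < (i : ℕ) → x i = 0) → ext (res x) = x := by
    intro x hx
    ext i
    by_cases h : (i : ℕ) < d + 1
    · change (if h : (i : ℕ) < d + 1 then res x ⟨i, h⟩ else 0) = x i
      rw [dif_pos h]
      rfl
    · rw [extv _ _ (by omega), hx _ (by omega)]
  have hnorm : ∀ x, (∀ i : Fin (n + 1), d < (i : ℕ) → x i = 0) → ‖res x‖ = ‖x‖ := by
    intro x hx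
    have h : ‖res x‖ ^ 2 = ‖x‖ ^ 2 := by
      rw [EuclideanSpace.norm_sq_eq, EuclideanSpace.norm_sq_eq]
      refine Fintype.sum_of_injective _ hcast _ _ ?_ fun i => rfl
      intro i hi
      have : d < (i : ℕ) := by
        by_contra hcon
        exact hi ⟨⟨i, by omega⟩, rfl⟩
      rw [hx i this]
      simp
    exact (sq_eq_sq₀ (norm_nonneg _) (norm_nonneg _)).1 h
  have hvec : ∀ x : Fx G (LinSphere ρ), ∀ i : Fin (n + 1), d < (i : ℕ) → x.1.vec i = 0 := by
    intro x
    refine (hfix _).1 fun g => ?_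
    rw [← LinSphere.vec_smul, x.2 g]
  have cvec : Continuous (fun x : LinSphere ρ => x.vec) :=
    continuous_subtype_val (p := fun x => x ∈ Metric.sphere (0 : EuclideanSpace ℝ (Fin (n + 1))) 1)
  refine ⟨{ toFun := fun x => ⟨res x.1.vec, ?_⟩, invFun := fun y => ⟨(⟨ext y.1, ?_⟩ : Sph n), ?_⟩,
            left_inv := ?_, right_inv := ?_, continuous_toFun := ?_, continuous_invFun := ?_ }⟩
  · rw [mem_sphere_zero_iff_norm, hnorm _ (hvec x), LinSphere.norm_vec]
  · have hy := y.2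
    rw [mem_sphere_zero_iff_norm] at hy
    rw [mem_sphere_zero_iff_norm, ← hnorm _ (extv _), hre, hy]
  · intro g
    apply Subtype.ext
    change ρ g (ext y.1) = ext y.1
    exact (hfix _).2 (extv _) g
  · intro x
    apply Subtype.ext
    apply Subtype.ext
    exact her _ (hvec x)
  · intro y
    apply Subtype.ext
    exact hre _
  · exact Continuous.subtype_mk (hres.comp (cvec.comp continuous_subtype_val)) _
  · exact Continuous.subtype_mk (Continuous.subtype_mk (hext.comp continuous_subtype_val) _) _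

/-- Fixed vectors of a family of rotations. -/
theorem rot_fix {G : Type} [Group G] {d k : ℕ} (hak : n + 1 = (d + 1) + 2 * k)
    (c : G →* (ℕ → Circle)) (hc : ∀ j < k, ∃ g, c g j ≠ 1)
    (x : EuclideanSpace ℝ (Fin (n + 1))) :
    (∀ g, ((rot hak).comp c) g x = x) ↔ ∀ i : Fin (n + 1), d < (i : ℕ) → x i = 0 := by
  constructor
  · intro h
    have h1 : ∀ j < k, cpx (d + 1) x j = 0 := by
      intro j hj
      obtain ⟨g, hg⟩ := hc j hj
      have h2 := congrArg (fun y => cpx (d + 1) y j) (h g)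
      simp only [MonoidHom.comp_apply, rot_apply] at h2
      rw [cpx_pairOp _ _ _ (by omega)] at h2
      by_contra hne
      apply hg
      have h3 : (((c g j : Circle) : ℂ)) = 1 := by
        have := mul_right_cancel₀ hne (h2.trans (one_mul _).symm)
        exact this
      exact Circle.ext (by simpa using h3)
    have h2 : x = pairOp (d + 1) (fun _ _ => 0) x := by
      refine ext_pair hak (fun i hi => (pairOp_low _ _ _ hi).symm) fun j hj => ?_
      rw [cpx_pairOp _ _ _ (by omega), h1 j hj]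
    intro i hi
    rw [h2, pairOp_apply, if_neg (by omega)]
    split_ifs <;> simp
  · intro h g
    simp only [MonoidHom.comp_apply, rot_apply]
    refine ext_pair hak (fun i hi => pairOp_low _ _ _ hi) fun j hj => ?_
    have h0 : cpx (d + 1) x j = 0 := by
      apply Complex.ext
      · change exz x _ = 0
        rw [exz_of_lt _ (by omega)]
        exact h _ (by simp; omega)
      · change exz x _ = 0
        rw [exz_of_lt _ (by omega)]
        exact h _ (by simp; omega)
    rw [cpx_pairOp _ _ _ (by omega), h0, mul_zero]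

/-- The power map `w ↦ w^b / |w|^(b-1)`. -/
noncomputable def pw (b : ℕ) (w : ℂ) : ℂ := w * (w / (‖w‖ : ℂ)) ^ (b - 1)

theorem norm_pw (b : ℕ) (w : ℂ) : ‖pw b w‖ = ‖w‖ := by
  unfold pw
  by_cases h : w = 0
  · simp [h]
  · have h1 : ‖w‖ ≠ 0 := norm_ne_zero_iff.2 h
    rw [norm_mul, norm_pow, norm_div, Complex.norm_real, norm_norm, div_self h1, one_pow, mul_one]

theorem continuous_pw (b : ℕ) : Continuous (pw b) := by
  rw [continuous_iff_continuousAt]
  intro w
  by_cases h : w = 0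
  · subst h
    have h0 : pw b 0 = 0 := by simp [pw]
    unfold ContinuousAt
    rw [h0, tendsto_zero_iff_norm_tendsto_zero]
    simp only [norm_pw]
    have : Filter.Tendsto (fun w : ℂ => ‖w‖) (nhds 0) (nhds ‖(0 : ℂ)‖) :=
      (continuous_norm.tendsto 0)
    simpa using this
  · unfold pw
    have h1 : (‖w‖ : ℂ) ≠ 0 := by
      simpa using h
    exact continuousAt_id.mul ((continuousAt_id.div
      (Complex.continuous_ofReal.comp continuous_norm).continuousAt h1).pow _)

theorem pw_mul (b : ℕ) (hb : 1 ≤ b) (c : Circle) (w : ℂ) :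
    pw b ((c : ℂ) * w) = ((c ^ b : Circle) : ℂ) * pw b w := by
  obtain ⟨m, rfl⟩ : ∃ m, b = m + 1 := ⟨b - 1, by omega⟩
  unfold pw
  have h1 : ‖(c : ℂ) * w‖ = ‖w‖ := by rw [norm_mul, Circle.norm_coe, one_mul]
  rw [h1, Nat.add_sub_cancel, mul_div_assoc, mul_pow]
  push_cast
  ring

theorem pw_spec (b : ℕ) (hb : 1 ≤ b) (w : ℂ) : pw b w * (‖w‖ : ℂ) ^ (b - 1) = w ^ b := by
  obtain ⟨m, rfl⟩ : ∃ m, b = m + 1 := ⟨b - 1, by omega⟩
  unfold pw
  rw [Nat.add_sub_cancel]
  by_cases h : w = 0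
  · subst h
    simp
  · have h1 : (‖w‖ : ℂ) ≠ 0 := by
      simpa using h
    rw [mul_assoc, ← mul_pow, div_mul_cancel₀ _ h1]
    ring

end Reps

/-- The standard character of the cyclic group. -/
noncomputable def chi (p : ℕ) [NeZero p] : Cp p →* Circle := (ZMod.toCircle (N := p)).toMonoidHom

theorem chi_pow_ne {p : ℕ} [NeZero p] {b : ℕ} (hb : ¬ p ∣ b) :
    (chi p (Multiplicative.ofAdd 1)) ^ b ≠ 1 := by
  intro h
  apply hb
  have h1 : chi p ((Multiplicative.ofAdd (1 : ZMod p)) ^ b) = ZMod.toCircle (0 : ZMod p) := by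
    rw [map_pow, h, AddChar.map_zero_eq_one]
  have h2 : (Multiplicative.ofAdd (1 : ZMod p)) ^ b = Multiplicative.ofAdd ((b : ℕ) : ZMod p) := by
    rw [← ofAdd_nsmul, nsmul_eq_mul, mul_one]
  rw [h2] at h1
  exact (ZMod.natCast_eq_zero_iff b p).1 (ZMod.injective_toCircle (N := p) h1)

section OddRep

variable {n d k : ℕ} (hak : n + 1 = (d + 1) + 2 * k)

/-- The weights of the second representation. -/
noncomputable def wts (p : ℕ) [NeZero p] (k b : ℕ) : Cp p →* (ℕ → Circle) :=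
  MonoidHom.pi fun j => if j = k - 1 then (powMonoidHom b).comp (chi p) else chi p

theorem wts_last (p : ℕ) [NeZero p] (k b : ℕ) (g : Cp p) :
    wts p k b g (k - 1) = (chi p g) ^ b := by
  unfold wts
  rw [MonoidHom.pi_apply, if_pos rfl]
  rfl

theorem wts_ne (p : ℕ) [NeZero p] (k b : ℕ) (g : Cp p) {j : ℕ} (hj : j ≠ k - 1) :
    wts p k b g j = chi p g := by
  unfold wts
  rw [MonoidHom.pi_apply, if_neg hj]

theorem wts_nontriv (p : ℕ) [NeZero p] (hp : ¬ p ∣ 1) (k : ℕ) {b : ℕ} (hb : ¬ p ∣ b) (j : ℕ) :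
    ∃ g, wts p k b g j ≠ 1 := by
  refine ⟨Multiplicative.ofAdd 1, ?_⟩
  by_cases h : j = k - 1
  · rw [h, wts_last]
    exact chi_pow_ne hb
  · rw [wts_ne _ _ _ _ h]
    have := chi_pow_ne (p := p) hp
    rwa [pow_one] at this

/-- The power map on the last pair of coordinates. -/
noncomputable def pwf (k b : ℕ) (j : ℕ) (w : ℂ) : ℂ := if j = k - 1 then pw b w else w

theorem norm_pwf (k b j : ℕ) (w : ℂ) : ‖pwf k b j w‖ = ‖w‖ := by
  unfold pwf
  split_ifs
  · exact norm_pw b w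
  · rfl

theorem continuous_pwf (k b j : ℕ) : Continuous (pwf k b j) := by
  unfold pwf
  by_cases h : j = k - 1
  · simp only [h, if_true]
    exact continuous_pw b
  · simp only [h, if_false]
    exact continuous_id

theorem pwf_mem {n d k : ℕ} (hak : n + 1 = (d + 1) + 2 * k) (b : ℕ) (x : Sph n) :
    pairOp (d + 1) (pwf k b) x.1 ∈ Metric.sphere (0 : EuclideanSpace ℝ (Fin (n + 1))) 1 := by
  have hx := x.2
  rw [mem_sphere_zero_iff_norm] at hx
  rw [mem_sphere_zero_iff_norm, norm_pairOp hak _ (norm_pwf k b), hx]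

/-- The power map of the sphere. -/
noncomputable def powS (b : ℕ) : C(Sph n, Sph n) where
  toFun x := ⟨pairOp (d + 1) (pwf k b) x.1, pwf_mem hak b x⟩
  continuous_toFun := Continuous.subtype_mk
    ((continuous_pairOp _ _ (continuous_pwf k b)).comp continuous_subtype_val) (pwf_mem hak b)

theorem powS_val (b : ℕ) (x : Sph n) : (powS hak b x).1 = pairOp (d + 1) (pwf k b) x.1 := rfl

/-- The power map between linear spheres. -/
noncomputable def powL {G : Type} [Group G] (b : ℕ)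
    (ρ ρ' : G →* (EuclideanSpace ℝ (Fin (n + 1)) ≃ₗᵢ[ℝ] EuclideanSpace ℝ (Fin (n + 1)))) :
    C(LinSphere ρ, LinSphere ρ') where
  toFun x := powS hak b x
  continuous_toFun := (powS hak b).continuous

theorem powL_vec {G : Type} [Group G] (b : ℕ)
    (ρ ρ' : G →* (EuclideanSpace ℝ (Fin (n + 1)) ≃ₗᵢ[ℝ] EuclideanSpace ℝ (Fin (n + 1))))
    (x : LinSphere ρ) : (powL hak b ρ ρ' x).vec = pairOp (d + 1) (pwf k b) x.vec := rfl

theorem vec_ext {G : Type} [Group G]
    {ρ : G →* (EuclideanSpace ℝ (Fin (n + 1)) ≃ₗᵢ[ℝ] EuclideanSpace ℝ (Fin (n + 1)))}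
    {x y : LinSphere ρ} (h : x.vec = y.vec) : x = y := Subtype.ext h

theorem powL_equi {p : ℕ} [NeZero p] {b : ℕ} (hb1 : 1 ≤ b) :
    Equi (Cp p) (powL hak b ((rot hak).comp (MonoidHom.pi fun _ => chi p))
      ((rot hak).comp (wts p k b))) := by
  intro g x
  apply vec_ext
  rw [powL_vec, LinSphere.vec_smul, LinSphere.vec_smul, powL_vec, MonoidHom.comp_apply,
    MonoidHom.comp_apply, rot_apply, rot_apply]
  refine ext_pair hak (fun i hi => ?_) fun j hj => ?_
  · rw [pairOp_low _ _ _ hi, pairOp_low _ _ _ hi, pairOp_low _ _ _ hi, pairOp_low _ _ _ hi]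
  · rw [cpx_pairOp _ _ _ (by omega), cpx_pairOp _ _ _ (by omega), cpx_pairOp _ _ _ (by omega),
      cpx_pairOp _ _ _ (by omega), MonoidHom.pi_apply]
    unfold pwf
    by_cases h : j = k - 1
    · subst h
      rw [if_pos rfl, wts_last, pw_mul b hb1, if_pos rfl]
    · rw [wts_ne _ _ _ _ h, if_neg h, if_neg h]

include hak in
theorem pairOp_fix (b : ℕ) (v : EuclideanSpace ℝ (Fin (n + 1)))
    (hv : ∀ i : Fin (n + 1), d < (i : ℕ) → v i = 0) : pairOp (d + 1) (pwf k b) v = v := by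
  refine ext_pair hak (fun i hi => pairOp_low _ _ _ hi) fun j hj => ?_
  have h0 : cpx (d + 1) v j = 0 := by
    apply Complex.ext
    · change exz v _ = 0
      rw [exz_of_lt _ (by omega)]
      exact hv _ (by simp; omega)
    · change exz v _ = 0
      rw [exz_of_lt _ (by omega)]
      exact hv _ (by simp; omega)
  rw [cpx_pairOp _ _ _ (by omega), h0]
  unfold pwf
  split_ifs
  · simp [pw]
  · rfl

/-- The inclusion of fixed point sets. -/
def incF {G : Type} [Group G]
    {ρ ρ' : G →* (EuclideanSpace ℝ (Fin (n + 1)) ≃ₗᵢ[ℝ] EuclideanSpace ℝ (Fin (n + 1)))}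
    (h : ∀ x : EuclideanSpace ℝ (Fin (n + 1)), (∀ g, ρ' g x = x) → ∀ g, ρ g x = x) :
    C(Fx G (LinSphere ρ'), Fx G (LinSphere ρ)) where
  toFun x := ⟨(x.1 : Sph n), fun g => Subtype.ext (by
    change ρ g x.1.vec = x.1.vec
    exact h x.1.vec (fun g => by rw [← LinSphere.vec_smul, x.2 g]) g)⟩
  continuous_toFun := Continuous.subtype_mk continuous_subtype_val _

theorem incF_vec {G : Type} [Group G]
    {ρ ρ' : G →* (EuclideanSpace ℝ (Fin (n + 1)) ≃ₗᵢ[ℝ] EuclideanSpace ℝ (Fin (n + 1)))}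
    (h : ∀ x : EuclideanSpace ℝ (Fin (n + 1)), (∀ g, ρ' g x = x) → ∀ g, ρ g x = x)
    (x : Fx G (LinSphere ρ')) : (incF h x).1.vec = x.1.vec := rfl

theorem fixMap_val {G X Y : Type} [Group G] [TopologicalSpace X] [TopologicalSpace Y]
    [MulAction G X] [MulAction G Y] (f : C(X, Y)) (hf : Equi G f) (x : Fx G X) :
    (fixMap f hf x).1 = f x.1 := rfl

theorem powL_isHE {G : Type} [Group G] {b : ℕ}
    {ρ ρ' : G →* (EuclideanSpace ℝ (Fin (n + 1)) ≃ₗᵢ[ℝ] EuclideanSpace ℝ (Fin (n + 1)))}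
    (hρ : ∀ x, (∀ g, ρ g x = x) ↔ ∀ i : Fin (n + 1), d < (i : ℕ) → x i = 0)
    (hρ' : ∀ x, (∀ g, ρ' g x = x) ↔ ∀ i : Fin (n + 1), d < (i : ℕ) → x i = 0)
    (hE : Equi G (powL hak b ρ ρ')) : IsHE (fixMap (powL hak b ρ ρ') hE) := by
  have hinc : ∀ x : EuclideanSpace ℝ (Fin (n + 1)), (∀ g, ρ' g x = x) → ∀ g, ρ g x = x :=
    fun x h => (hρ x).2 ((hρ' x).1 h)
  have e1 : (incF hinc).comp (fixMap (powL hak b ρ ρ') hE) = ContinuousMap.id _ := by
    ext1 x
    apply Subtype.ext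
    apply vec_ext
    rw [ContinuousMap.comp_apply, incF_vec, fixMap_val, powL_vec, ContinuousMap.id_apply]
    refine pairOp_fix hak b _ ((hρ _).1 fun g => ?_)
    rw [← LinSphere.vec_smul, x.2 g]
  have e2 : (fixMap (powL hak b ρ ρ') hE).comp (incF hinc) = ContinuousMap.id _ := by
    ext1 x
    apply Subtype.ext
    apply vec_ext
    rw [ContinuousMap.comp_apply, fixMap_val, powL_vec, incF_vec, ContinuousMap.id_apply]
    refine pairOp_fix hak b _ ((hρ' _).1 fun g => ?_)
    rw [← LinSphere.vec_smul, x.2 g]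
  exact ⟨incF hinc, by rw [e1], by rw [e2]⟩

theorem powS_dg (hn : 2 ≤ n) (hk : 1 ≤ k) {b : ℕ} (hb1 : 1 ≤ b) {z : Ch ℤ (Sph n)}
    (hz : FCyc n z) : Dg z (powS hak b) b := by
  refine dg_power hn hb1 hz (powS hak b) (fun x i hi => ?_) fun x => ?_
  · rw [powS_val]
    by_cases hia : (i : ℕ) < d + 1
    · exact pairOp_low _ _ _ hia
    · rw [pairOp_apply, if_neg hia]
      have hj : ((i : ℕ) - (d + 1)) / 2 ≠ k - 1 := by omega
      have hfj : pwf k b (((i : ℕ) - (d + 1)) / 2)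
          (cpx (d + 1) x.1 (((i : ℕ) - (d + 1)) / 2)) =
          cpx (d + 1) x.1 (((i : ℕ) - (d + 1)) / 2) := if_neg hj
      rw [hfj]
      split_ifs with h0
      · change exz x.1 _ = _
        have e : d + 1 + 2 * (((i : ℕ) - (d + 1)) / 2) = i := by omega
        rw [e, exz_of_lt _ i.2]
      · change exz x.1 _ = _
        have e : d + 1 + 2 * (((i : ℕ) - (d + 1)) / 2) + 1 = i := by omega
        rw [e, exz_of_lt _ i.2]
  · have e1 : d + 1 + 2 * (k - 1) = n - 1 := by omega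
    have e2 : d + 1 + 2 * (k - 1) + 1 = n := by omega
    have e3 : ∀ v : EuclideanSpace ℝ (Fin (n + 1)), (⟨v ⟨n - 1, by omega⟩,
        v ⟨n, by omega⟩⟩ : ℂ) = cpx (d + 1) v (k - 1) := by
      intro v
      apply Complex.ext
      · change _ = exz v _
        rw [e1, exz_of_lt _ (by omega)]
      · change _ = exz v _
        rw [e2, exz_of_lt _ (by omega)]
    simp only [powS_val, e3]
    rw [cpx_pairOp _ _ _ (by omega)]
    unfold pwf
    rw [if_pos rfl]
    exact pw_spec b hb1 _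

theorem und2_powL {G : Type} [Group G] (b : ℕ)
    (ρ ρ' : G →* (EuclideanSpace ℝ (Fin (n + 1)) ≃ₗᵢ[ℝ] EuclideanSpace ℝ (Fin (n + 1)))) :
    und2 (powL hak b ρ ρ') = powS hak b := rfl

end OddRep

/-- Representations for odd `p`: trivial on `ℝ^(d+1)`, rotations on the rest; the weight of the
last coordinate can be multiplied by `b`. -/
theorem _root_.Pool.Agent.TC.exists_rep_odd {p : ℕ} [Fact p.Prime] (hp : p ≠ 2) {n d : ℕ} (hn : 2 ≤ n) (hdn : d < n)
    (he : Even (n - d)) :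
    ∃ ρ : Cp p →* (EuclideanSpace ℝ (Fin (n + 1)) ≃ₗᵢ[ℝ] EuclideanSpace ℝ (Fin (n + 1))),
      Nonempty (Fx (Cp p) (LinSphere ρ) ≃ₜ Sph d) ∧
      ∀ b : ℕ, ¬ p ∣ b → ∃ (ρ' : Cp p →* (EuclideanSpace ℝ (Fin (n + 1)) ≃ₗᵢ[ℝ]
          EuclideanSpace ℝ (Fin (n + 1)))) (Θ : C(LinSphere ρ, LinSphere ρ'))
        (hΘ : Equi (Cp p) Θ), IsHE (fixMap Θ hΘ) ∧
          ∀ z : Ch ℤ (Sph n), FCyc n z → Dg z (und2 Θ) b := by
  obtain ⟨k, hk⟩ := he
  have hak : n + 1 = (d + 1) + 2 * k := by omega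
  have hk1 : 1 ≤ k := by omega
  have hp1 : ¬ p ∣ 1 := fun h => (Fact.out : p.Prime).one_lt.ne' (Nat.dvd_one.1 h)
  have hc : ∀ j < k, ∃ g, (MonoidHom.pi fun _ => chi p : Cp p →* (ℕ → Circle)) g j ≠ 1 := by
    intro j _
    refine ⟨Multiplicative.ofAdd 1, ?_⟩
    rw [MonoidHom.pi_apply]
    have := chi_pow_ne (p := p) hp1
    rwa [pow_one] at this
  have hfix := rot_fix hak (MonoidHom.pi fun _ => chi p) hc
  refine ⟨(rot hak).comp (MonoidHom.pi fun _ => chi p), fixHomeo hdn.le _ hfix, fun b hb => ?_⟩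
  have hb1 : 1 ≤ b := by
    rcases Nat.eq_zero_or_pos b with h | h
    · exact absurd (h ▸ dvd_zero p) hb
    · exact h
  have hfix' := rot_fix hak (wts p k b) (fun j _ => wts_nontriv p hp1 k hb j)
  refine ⟨(rot hak).comp (wts p k b), powL hak b _ _, powL_equi hak hb1,
    powL_isHE hak hfix hfix' _, fun z hz => ?_⟩
  rw [und2_powL]
  exact powS_dg hak hn hk1 hb1 hz

/-- Representations for `p = 2`. -/
theorem _root_.Pool.Agent.TC.exists_rep_two {n d : ℕ} (hdn : d < n) :
    ∃ ρ : Cp 2 →* (EuclideanSpace ℝ (Fin (n + 1)) ≃ₗᵢ[ℝ] EuclideanSpace ℝ (Fin (n + 1))),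
      Nonempty (Fx (Cp 2) (LinSphere ρ) ≃ₜ Sph d) := by
  classical
  -- the reflection
  let e : EuclideanSpace ℝ (Fin (n + 1)) ≃ₗᵢ[ℝ] EuclideanSpace ℝ (Fin (n + 1)) :=
    LinearIsometryEquiv.piLpCongrRight 2 fun i : Fin (n + 1) =>
      if d < (i : ℕ) then LinearIsometryEquiv.neg ℝ else LinearIsometryEquiv.refl ℝ ℝ
  have he1 : ∀ x (i : Fin (n + 1)), e x i = if d < (i : ℕ) then -(x i) else x i := by
    intro x i
    change (if d < (i : ℕ) then LinearIsometryEquiv.neg ℝ else LinearIsometryEquiv.refl ℝ ℝ)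
      (x i) = _
    split_ifs <;> rfl
  have he2 : e * e = 1 := by
    ext x i
    change e (e x) i = x i
    rw [he1, he1]
    split_ifs <;> simp
  let ρ : Cp 2 →* (EuclideanSpace ℝ (Fin (n + 1)) ≃ₗᵢ[ℝ] EuclideanSpace ℝ (Fin (n + 1))) :=
    { toFun := fun g => if g = 1 then 1 else e
      map_one' := if_pos rfl
      map_mul' := by
        intro g h
        have hall : ∀ g : Cp 2, g = 1 ∨ g = Multiplicative.ofAdd 1 := by decide
        have hne : (Multiplicative.ofAdd (1 : ZMod 2)) ≠ 1 := by decide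
        have hsq : (Multiplicative.ofAdd (1 : ZMod 2)) * Multiplicative.ofAdd 1 = 1 := by decide
        rcases hall g with rfl | rfl
        · simp
        · rcases hall h with rfl | rfl
          · simp
          · rw [hsq, if_pos rfl, if_neg hne, he2] }
  refine ⟨ρ, fixHomeo hdn.le ρ fun x => ?_⟩
  constructor
  · intro h i hi
    have h1 := h (Multiplicative.ofAdd 1)
    have hne : (Multiplicative.ofAdd (1 : ZMod 2)) ≠ 1 := by decide
    change (if (Multiplicative.ofAdd (1 : ZMod 2)) = 1 then (1 : EuclideanSpace ℝ (Fin (n + 1))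
      ≃ₗᵢ[ℝ] EuclideanSpace ℝ (Fin (n + 1))) else e) x = x at h1
    rw [if_neg hne] at h1
    have h2 : e x i = x i := by rw [h1]
    rw [he1, if_pos hi] at h2
    linarith
  · intro h g
    change (if g = 1 then (1 : EuclideanSpace ℝ (Fin (n + 1))
      ≃ₗᵢ[ℝ] EuclideanSpace ℝ (Fin (n + 1))) else e) x = x
    split_ifs
    · rfl
    · ext i
      rw [he1]
      split_ifs with hi
      · rw [h i hi, neg_zero]
      · rfl

end DG6

end Pool.Agent.TC
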