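import Pool.Agent.Lib.TC.DegD

/-!
# Degrees of self-maps of the sphere
-/

namespace Pool.Agent.TC

open CubeHom

namespace DG1

theorem chMap_int {X : Type*} [TopologicalSpace X] (z : Ch ℤ X) :
    TCH.chMap (Int.castRingHom ℤ) z = z := by
  ext σ
  simp [TCH.chMap]

theorem _root_.Pool.Agent.TC.exists_fcyc {n : ℕ} (hn : 1 ≤ n) : ∃ z : Ch ℤ (Sph n), FCyc n z := by
  obtain ⟨z, hz, h⟩ := TCH.exists_sph_cycle hn
  obtain ⟨h1, h2, h3, h4⟩ := h ℤ
  rw [chMap_int] at h1 h2 h3 h4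
  exact ⟨z, h1, h3, h4, h2⟩

section degree

variable {n : ℕ} {z : Ch ℤ (Sph n)} (hz : FCyc n z)

include hz

theorem _root_.Pool.Agent.TC.exists_dg (Φ : C(Sph n, Sph n)) : ∃ D : ℤ, Dg z Φ D :=
  hz.gen _ (push_mem_Z (fun _ _ => Set.mem_univ _) (fun _ h => h) hz.mem)

omit hz in
theorem bd_smul_sub {w : Ch ℤ (Sph n)} {D D' : ℤ}
    (h : CubeHom.Bd ℤ (n : ℤ) Set.univ ∅ (w - D • z))
    (h' : CubeHom.Bd ℤ (n : ℤ) Set.univ ∅ (w - D' • z)) :
    CubeHom.Bd ℤ (n : ℤ) Set.univ ∅ ((D' - D) • z) := by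
  have h2 := h.sub h'
  rwa [sub_sub_sub_cancel_left, ← sub_smul] at h2

theorem _root_.Pool.Agent.TC.dg_unique {Φ : C(Sph n, Sph n)} {D D' : ℤ} (h : Dg z Φ D) (h' : Dg z Φ D') :
    D = D' := by
  obtain ⟨x⟩ : Nonempty (Sph n) := by
    obtain ⟨x, hx⟩ := (NormedSpace.sphere_nonempty (E := EuclideanSpace ℝ (Fin (n + 1)))
      (x := 0) (r := 1)).mpr zero_le_one
    exact ⟨⟨x, hx⟩⟩
  have h2 := hz.free x _ ((bd_smul_sub h h').mono le_rfl (Set.empty_subset _))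
  omega

theorem _root_.Pool.Agent.TC.dg_comp {Φ Φ' : C(Sph n, Sph n)} {D D' : ℤ} (h : Dg z Φ D) (h' : Dg z Φ' D') :
    Dg z (Φ.comp Φ') (D * D') := by
  unfold Dg at *
  have h1 := h'.push (f := Φ) (V := Set.univ) (A' := ∅) (fun _ _ => Set.mem_univ _)
    (fun _ h => h)
  rw [map_sub, push_push, map_smul] at h1
  have h2 := h.smul D'
  rw [smul_sub, smul_smul, mul_comm D' D] at h2
  exact h1.trans h2

theorem _root_.Pool.Agent.TC.dg_homotopic {Φ Φ' : C(Sph n, Sph n)} {D : ℤ} (h : Dg z Φ D)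
    (hh : Φ.Homotopic Φ') : Dg z Φ' D := by
  obtain ⟨H⟩ := hh
  let H' : C(I × Sph n, Sph n) := H.toContinuousMap
  have h1 := Bd_homotopy (R := ℤ) (H := H') (U := Set.univ) (A := ∅) (V := Set.univ) (A' := ∅)
    (fun _ _ _ => Set.mem_univ _) (fun _ _ h => h.elim) hz.mem
  have e1 : atTime H' 1 = Φ' := ContinuousMap.ext fun x => H.apply_one x
  have e0 : atTime H' 0 = Φ := ContinuousMap.ext fun x => H.apply_zero x
  rw [e1, e0] at h1
  exact h1.trans h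

theorem _root_.Pool.Agent.TC.isHE_of_dg_one (hn : 2 ≤ n) {Φ : C(Sph n, Sph n)} (h : Dg z Φ 1) : IsHE Φ := by
  have h1 : Φ.Homotopic (ContinuousMap.id _) := by
    refine TCH.hopf_self hn hz.mem hz.gen Φ ?_
    unfold Dg at h
    rwa [one_smul] at h
  exact ⟨ContinuousMap.id _, by rwa [ContinuousMap.id_comp], by rwa [ContinuousMap.comp_id]⟩

end degree

end DG1

end Pool.Agent.TC
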