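import Pool.Agent.Lib.TC.DegD

/-!
# The collapse of the boundary of the cube
-/

namespace Pool.Agent.TC

open CubeHom

namespace DG2Aux

open Metric Topology

variable {n : ℕ}

/-- The centred cube. -/
noncomputable def cen (u : Fin n → I) : Fin n → ℝ := fun i => 2 * (u i : ℝ) - 1

theorem continuous_cen : Continuous (cen : (Fin n → I) → Fin n → ℝ) := by
  unfold cen; fun_prop

/-- A function which vanishes exactly on the boundary. -/
noncomputable def mm (u : Fin n → I) : ℝ := ∏ i, ((u i : ℝ) * (1 - u i))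

theorem continuous_mm : Continuous (mm : (Fin n → I) → ℝ) := by
  unfold mm; fun_prop

theorem mm_nonneg (u : Fin n → I) : 0 ≤ mm u :=
  Finset.prod_nonneg fun i _ => mul_nonneg (u i).2.1 (sub_nonneg.2 (u i).2.2)

theorem mm_bdry {u : Fin n → I} (h : ∃ i, u i = 0 ∨ u i = 1) : mm u = 0 := by
  obtain ⟨i, hi⟩ := h
  refine Finset.prod_eq_zero (Finset.mem_univ i) ?_
  rcases hi with hi | hi
  · rw [hi]; simp
  · rw [hi]; simp

theorem mm_pos {u : Fin n → I} (h : cen u = 0) : 0 < mm u := by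
  refine Finset.prod_pos fun i _ => ?_
  have h1 : 2 * (u i : ℝ) - 1 = 0 := congrFun h i
  have h2 : (u i : ℝ) = 1 / 2 := by linarith
  rw [h2]
  norm_num

theorem cen_bdry {u : Fin n → I} (h : ∃ i, u i = 0 ∨ u i = 1) : cen u ≠ 0 := by
  obtain ⟨i, hi⟩ := h
  intro h0
  have h1 : 2 * (u i : ℝ) - 1 = 0 := congrFun h0 i
  rcases hi with hi | hi
  · rw [hi] at h1
    norm_num at h1
  · rw [hi] at h1
    norm_num at h1

section

variable {E : Type*} [NormedAddCommGroup E] [InnerProductSpace ℝ E] (v : E)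

/-- The numerator and the quotient of the collapse. -/
noncomputable def AA (w : (ℝ ∙ v)ᗮ) (m : ℝ) : E :=
  (‖w‖ ^ 2 + 4 * m ^ 2)⁻¹ • ((4 * m) • (w : E) + (‖w‖ ^ 2 - 4 * m ^ 2) • v)

theorem inner_zero (w : (ℝ ∙ v)ᗮ) : inner ℝ (w : E) v = 0 := by
  have h := Submodule.inner_left_of_mem_orthogonal (Submodule.mem_span_singleton_self v) w.2
  exact h

variable {v} (hv : ‖v‖ = 1)

include hv

theorem norm_AA (w : (ℝ ∙ v)ᗮ) {m : ℝ} (h : 0 < ‖w‖ ^ 2 + 4 * m ^ 2) : ‖AA v w m‖ = 1 := by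
  have h0 := inner_zero v w
  have h1 : ‖(4 * m) • (w : E) + (‖w‖ ^ 2 - 4 * m ^ 2) • v‖ ^ 2 =
      (‖w‖ ^ 2 + 4 * m ^ 2) ^ 2 := by
    rw [norm_add_sq_real, real_inner_smul_left, real_inner_smul_right, h0, norm_smul, norm_smul,
      mul_pow, mul_pow, hv, Real.norm_eq_abs, Real.norm_eq_abs, sq_abs, sq_abs]
    have h2 : ‖(w : E)‖ = ‖w‖ := rfl
    rw [h2]
    ring
  have h2 : ‖(4 * m) • (w : E) + (‖w‖ ^ 2 - 4 * m ^ 2) • v‖ = ‖w‖ ^ 2 + 4 * m ^ 2 := by
    exact (pow_left_inj₀ (norm_nonneg _) h.le two_ne_zero).1 h1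
  rw [AA, norm_smul, h2, norm_inv, Real.norm_eq_abs, abs_of_pos h, inv_mul_cancel₀ h.ne']

theorem AA_eq_neg {w : (ℝ ∙ v)ᗮ} {m : ℝ} (h : 0 < ‖w‖ ^ 2 + 4 * m ^ 2) (h1 : AA v w m = -v) :
    w = 0 := by
  have h0 := inner_zero v w
  have h2 : inner ℝ (AA v w m) v = -1 := by
    rw [h1, inner_neg_left, real_inner_self_eq_norm_sq, hv]
    norm_num
  rw [AA, real_inner_smul_left, inner_add_left, real_inner_smul_left, real_inner_smul_left, h0,
    real_inner_self_eq_norm_sq, hv, mul_zero, zero_add, one_pow, mul_one,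
    inv_mul_eq_iff_eq_mul₀ h.ne'] at h2
  have h3 : ‖w‖ ^ 2 = 0 := by linarith
  exact norm_eq_zero.1 (pow_eq_zero_iff two_ne_zero |>.1 h3)

omit hv in
theorem AA_zero {w : (ℝ ∙ v)ᗮ} (h : w ≠ 0) : AA v w 0 = v := by
  have h1 : ‖w‖ ^ 2 ≠ 0 := pow_ne_zero _ (norm_ne_zero_iff.2 h)
  rw [AA]
  simp only [mul_zero, zero_smul, zero_add, ne_eq, OfNat.ofNat_ne_zero, not_false_eq_true,
    zero_pow, add_zero, sub_zero, smul_smul]
  rw [inv_mul_cancel₀ h1, one_smul]

end

theorem const_Q {Y : Type*} [TopologicalSpace Y] (y : Y) {k : ℤ} (hk : 1 ≤ k) :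
    CubeHom.Q ℤ k ({y} : Set Y) ≤ CubeHom.Q ℤ k (∅ : Set Y) := by
  refine Finsupp.supported_mono ?_
  rintro σ ⟨h1, h2⟩
  refine ⟨h1, Or.inr ?_⟩
  rcases h2 with h2 | h2
  · refine ⟨0, by push_cast; omega, fun a b _ => ?_⟩
    have e1 := h2 a
    have e2 := h2 b
    rw [Set.mem_singleton_iff] at e1 e2
    rw [e1, e2]
  · exact h2

/-- The positivity of the denominator. -/
theorem den_pos {E : Type*} [NormedAddCommGroup E] [InnerProductSpace ℝ E] {v : E}
    (L : (Fin n → ℝ) ≃L[ℝ] (ℝ ∙ v)ᗮ) (p : I × (Fin n → I)) :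
    0 < ‖L (cen p.2)‖ ^ 2 + 4 * ((1 - (p.1 : ℝ)) * mm p.2 + p.1) ^ 2 := by
  have h1 : 0 ≤ (1 - (p.1 : ℝ)) * mm p.2 :=
    mul_nonneg (sub_nonneg.2 p.1.2.2) (mm_nonneg _)
  have h2 : (0 : ℝ) ≤ p.1 := p.1.2.1
  by_cases h0 : cen p.2 = 0
  · have h3 : 0 < (1 - (p.1 : ℝ)) * mm p.2 + p.1 := by
      rcases eq_or_lt_of_le h2 with h4 | h4
      · rw [← h4]
        have := mm_pos h0
        linarith
      · linarith
    positivity
  · have h3 : L (cen p.2) ≠ 0 := by
      rw [Ne, map_eq_zero_iff L L.injective]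
      exact h0
    have h4 : 0 < ‖L (cen p.2)‖ := norm_pos_iff.2 h3
    positivity

/-- The homotopy. -/
noncomputable def HH (y0 : Sph n)
    (L : (Fin n → ℝ) ≃L[ℝ] (ℝ ∙ (y0 : EuclideanSpace ℝ (Fin (n + 1))))ᗮ) :
    C(I × (Fin n → I), Sph n) where
  toFun p := ⟨AA _ (L (cen p.2)) ((1 - (p.1 : ℝ)) * mm p.2 + p.1), by
    rw [mem_sphere_zero_iff_norm]
    exact norm_AA (norm_eq_of_mem_sphere y0) _ (den_pos L p)⟩
  continuous_toFun := by
    refine Continuous.subtype_mk ?_ _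
    have hc : Continuous fun p : I × (Fin n → I) => L (cen p.2) :=
      L.continuous.comp (continuous_cen.comp continuous_snd)
    have hm : Continuous fun p : I × (Fin n → I) => (1 - (p.1 : ℝ)) * mm p.2 + p.1 := by
      have := continuous_mm.comp (continuous_snd : Continuous fun p : I × (Fin n → I) => p.2)
      have h1 : Continuous fun p : I × (Fin n → I) => (p.1 : ℝ) :=
        continuous_subtype_val.comp continuous_fst
      exact ((continuous_const.sub h1).mul this).add h1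
    unfold AA
    refine Continuous.smul (Continuous.inv₀ ?_ fun p => (den_pos L p).ne') ?_
    · exact (hc.norm.pow 2).add (continuous_const.mul (hm.pow 2))
    · exact ((continuous_const.mul hm).smul (continuous_subtype_val.comp hc)).add
        (((hc.norm.pow 2).sub (continuous_const.mul (hm.pow 2))).smul continuous_const)

end DG2Aux

open DG2Aux in
/-- The collapse of the boundary of the cube: a map `I^n → S^n` which is constant on the boundary
and has degree `± 1`; injective on the interior. -/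
theorem exists_collapse {n : ℕ} (hn : 2 ≤ n) {z : Ch ℤ (Sph n)} (hz : FCyc n z) (y0 : Sph n) :
    ∃ α : C(Fin n → I, Sph n), (∀ v, (∃ i, v i = 0 ∨ v i = 1) → α v = y0) ∧
      (CubeHom.Bd ℤ (n : ℤ) Set.univ ∅ (push α (Finsupp.single (idCube n) 1) - z) ∨
        CubeHom.Bd ℤ (n : ℤ) Set.univ ∅ (push α (Finsupp.single (idCube n) 1) + z)) := by
  classical
  set v : EuclideanSpace ℝ (Fin (n + 1)) := (y0 : EuclideanSpace ℝ (Fin (n + 1))) with hvdef
  have hv : ‖v‖ = 1 := norm_eq_of_mem_sphere y0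
  have hv0 : v ≠ 0 := by
    intro h
    rw [h, norm_zero] at hv
    exact zero_ne_one hv
  have : Fact (Module.finrank ℝ (EuclideanSpace ℝ (Fin (n + 1))) = n + 1) := ⟨by simp⟩
  have hfr : Module.finrank ℝ (Fin n → ℝ) = Module.finrank ℝ (ℝ ∙ v)ᗮ := by
    rw [Submodule.finrank_orthogonal_span_singleton (n := n) hv0, Module.finrank_fin_fun]
  let L : (Fin n → ℝ) ≃L[ℝ] (ℝ ∙ v)ᗮ := ContinuousLinearEquiv.ofFinrankEq hfr
  -- the chart
  let ψ : (Fin n → ℝ) → Sph n := fun w => stereoInvFun hv (L w)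
  have hψ : Topology.IsOpenEmbedding ψ := by
    have h1 : Topology.IsOpenEmbedding ((stereographic hv).symm) :=
      OpenPartialHomeomorph.isOpenEmbedding _ (stereographic_target hv)
    exact h1.comp L.toHomeomorph.isOpenEmbedding
  have hψe : ∀ w, (ψ w : EuclideanSpace ℝ (Fin (n + 1))) = AA v (L w) 1 := by
    intro w
    change (stereoInvFun hv (L w) : EuclideanSpace ℝ (Fin (n + 1))) = _
    rw [stereoInvFun_apply, AA]
    norm_num
  have hψ0 : (ψ 0 : EuclideanSpace ℝ (Fin (n + 1))) = -v := by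
    rw [hψe, map_zero, AA]
    simp only [norm_zero, ZeroMemClass.coe_zero, smul_zero, zero_add, ne_eq, OfNat.ofNat_ne_zero,
      not_false_eq_true, zero_pow, one_pow, mul_one, zero_sub, smul_smul]
    norm_num
  set φ := chartOf hψ with hφ
  set H := HH y0 L with hH
  set x0 : Sph n := ψ 0 with hx0
  have hK : inChart φ {0} = {x0} := by
    unfold inChart
    rw [Set.image_singleton]
    rfl
  -- the homotopy avoids the point on the boundary
  have hbd : ∀ t : I, ∀ u ∈ bdry n, H (t, u) ∈ ({x0}ᶜ : Set (Sph n)) := by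
    intro t u hu h
    have h1 : H (t, u) = x0 := h
    have h2 : AA v (L (cen u)) ((1 - (t : ℝ)) * mm u + t) = -v := by
      rw [← hψ0, ← h1]
      rfl
    have h3 := AA_eq_neg hv (den_pos L (t, u)) h2
    exact cen_bdry hu ((map_eq_zero_iff L L.injective).1 h3)
  have hB := Bd_homotopy (R := ℤ) (H := H) (k := n) (U := Set.univ) (A := bdry n)
    (V := Set.univ) (A' := {x0}ᶜ) (fun _ _ _ => Set.mem_univ _) hbd (idCube_mem_Z ℤ n)
  have e1 : push (atTime H 1) (Finsupp.single (idCube n) 1) = locCh ℤ φ := by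
    rw [push_single, locCh]
    congr 1
    ext u : 1
    apply Subtype.ext
    change AA v (L (cen (idCube n u))) ((1 - ((1 : I) : ℝ)) * mm (idCube n u) + ((1 : I) : ℝ)) =
      (ψ (stdCube n u) : EuclideanSpace ℝ (Fin (n + 1)))
    rw [hψe]
    have h1 : stdCube n u = cen (idCube n u) := rfl
    rw [h1]
    simp
  rw [e1] at hB
  set α : C(Fin n → I, Sph n) := atTime H 0 with hα
  have hαb : ∀ u, (∃ i, u i = 0 ∨ u i = 1) → α u = y0 := by
    intro u hu
    apply Subtype.ext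
    change AA v (L (cen u)) ((1 - ((0 : I) : ℝ)) * mm u + ((0 : I) : ℝ)) = v
    rw [mm_bdry hu]
    have h1 : (1 - ((0 : I) : ℝ)) * 0 + ((0 : I) : ℝ) = 0 := by simp
    rw [h1]
    exact AA_zero (by rw [Ne, map_eq_zero_iff L L.injective]; exact cen_bdry hu)
  have hc : push α (Finsupp.single (idCube n) 1) ∈
      CubeHom.Z ℤ (n : ℤ) (Set.univ : Set (Sph n)) ∅ := by
    have h1 := push_mem_Z (f := α) (V := Set.univ) (A' := {y0}) (Set.mapsTo_univ _ _)
      (fun u hu => hαb u hu) (idCube_mem_Z ℤ n)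
    exact ⟨h1.1, const_Q y0 (by omega) h1.2⟩
  refine ⟨α, hαb, ?_⟩
  obtain ⟨r, hr⟩ := hz.gen _ hc
  have hzx : z ∈ CubeHom.Z ℤ (n : ℤ) Set.univ (inChart φ {0})ᶜ :=
    Z_mono le_rfl (Set.empty_subset _) hz.mem
  obtain ⟨s, hs⟩ := loc_gen hψ.isOpen_range φ isCompact_singleton (convex_singleton 0)
    (Set.singleton_nonempty 0) (by
      rintro x rfl i
      simp) hzx
  rw [hK] at hs
  have hrs : r * s = 1 := by
    have h1 : CubeHom.Bd ℤ (n : ℤ) Set.univ (inChart φ {0})ᶜ ((1 - r * s) • locCh ℤ φ) := by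
      rw [hK]
      have h2 := (hB.add (hr.mono le_rfl (Set.empty_subset _))).add (hs.smul r)
      have e2 : (locCh ℤ φ - push α (Finsupp.single (idCube n) 1)) +
          (push α (Finsupp.single (idCube n) 1) - r • z) + r • (z - s • locCh ℤ φ) =
            (1 - r * s) • locCh ℤ φ := by
        rw [smul_sub, sub_smul, one_smul, mul_smul]
        abel
      rw [e2] at h2
      exact h2
    have h2 := loc_free hψ.isOpen_range φ isCompact_singleton (convex_singleton 0)
      (Set.singleton_nonempty 0) (by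
        rintro x rfl i
        simp) h1
    linarith
  rcases Int.eq_one_or_neg_one_of_mul_eq_one hrs with h | h
  · left
    rw [h, one_smul] at hr
    exact hr
  · right
    rw [h, neg_one_smul, sub_neg_eq_add] at hr
    exact hr

end Pool.Agent.TC
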