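import Pool.Agent.Lib.TC.Deg2

/-!
# All degrees occur
-/

namespace Pool.Agent.TC

open CubeHom

namespace DG3Aux

section Loops

variable {X : Type} [TopologicalSpace X]

/-- The cube `τ` is constant on the boundary in the directions `1, …, n - 1`. -/
def SideConst (n : ℕ) (y0 : X) (τ : C(Cb, X)) : Prop :=
  ∀ (u : Cb) (i : ℕ), 1 ≤ i → i < n → (u i = 0 ∨ u i = 1) → τ u = y0

theorem SideConst.face {n : ℕ} {y0 : X} {τ : C(Cb, X)} (h : SideConst n y0 τ) {j : ℕ}
    (h1 : 1 ≤ j) (h2 : j < n) : Sub.dF ℤ X j (Finsupp.single τ 1) = 0 := by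
  have h3 : ∀ e : I, (e = 0 ∨ e = 1) → τ.comp (ins j e) = ContinuousMap.const Cb y0 := by
    intro e he
    ext u
    change τ (ins j e u) = y0
    refine h _ j h1 h2 ?_
    rw [ins_apply_self]
    exact he
  simp only [Sub.dF, LinearMap.sub_apply, Sub.pre_single]
  rw [h3 1 (Or.inr rfl), h3 0 (Or.inl rfl), sub_self]

/-- The boundary of an `(m + 2)`-chain. -/
theorem bd_two (m : ℕ) (c : Ch ℤ X) :
    bd (((m + 1 : ℕ) : ℤ) + 1) c = Sub.dF ℤ X 0 c - Sub.dF ℤ X 1 c +
      ∑ j ∈ Finset.range m, ((-1 : ℤ) ^ j) • Sub.dF ℤ X (j + 2) c := by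
  have h1 : (((m + 1 : ℕ) : ℤ) + 1) = ((m + 2 : ℕ) : ℤ) := by push_cast; ring
  have h2 : ∀ j ∈ Finset.range m, (((-1 : ℤ) ^ (j + 1 + 1)) • Sub.dF ℤ X (j + 1 + 1)) c =
      ((-1 : ℤ) ^ j) • Sub.dF ℤ X (j + 2) c := by
    intro j _
    rw [pow_succ, pow_succ, LinearMap.smul_apply]
    simp
  rw [h1, Sub.bd_eq, Sub.subD, LinearMap.sum_apply, Finset.sum_range_succ',
    Finset.sum_range_succ', Finset.sum_congr rfl h2]
  generalize ∑ j ∈ Finset.range m, ((-1 : ℤ) ^ j) • Sub.dF ℤ X (j + 2) c = S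
  simp only [pow_zero, one_smul, zero_add, pow_one, neg_smul, LinearMap.neg_apply]
  abel

/-- A cube is the sum of its two halves. -/
theorem half_sum {n : ℕ} (hn : 1 ≤ n) {y0 : X} {τ : C(Cb, X)} (h : SideConst n y0 τ)
    (hc : IsCube (n : ℤ) τ) :
    CubeHom.Bd ℤ (n : ℤ) Set.univ ∅ (Finsupp.single τ 1 -
      Finsupp.single (τ.comp (Sub.loC 0)) 1 - Finsupp.single (τ.comp (Sub.hiC 0)) 1) := by
  obtain ⟨m, rfl⟩ : ∃ m, n = m + 1 := ⟨n - 1, by omega⟩
  have hC : (Finsupp.single τ 1 : Ch ℤ X) ∈ C ℤ ((m + 1 : ℕ) : ℤ) Set.univ :=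
    mem_C_single hc (fun _ => Set.mem_univ _) 1
  refine ⟨-(Sub.pre ℤ X (Sub.sqC 0) (Finsupp.single τ 1)), ?_, ?_⟩
  · refine Submodule.neg_mem _ ?_
    have := (Sub.pres_sqC (R := ℤ) (X := X) (i := 0) (n := m + 1)).1 Set.univ _ hC
    exact_mod_cast this
  · have h6 := LinearMap.congr_fun (Sub.rel6 (R := ℤ) (X := X) 0) (Finsupp.single τ 1)
    have h7 := LinearMap.congr_fun (Sub.rel7 (R := ℤ) (X := X) 0) (Finsupp.single τ 1)
    simp only [Module.End.mul_apply, LinearMap.sub_apply, Module.End.one_apply,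
      Sub.pre_single (Sub.hiC 0), Sub.pre_single (Sub.loC 0), zero_add] at h6 h7
    have h5 : ∀ j ∈ Finset.range m, ((-1 : ℤ) ^ j) •
        Sub.dF ℤ X (j + 2) (Sub.pre ℤ X (Sub.sqC 0) (Finsupp.single τ 1)) = 0 := by
      intro j hj
      have := LinearMap.congr_fun (Sub.rel5 (R := ℤ) (X := X) 0 (j + 1) (by omega))
        (Finsupp.single τ 1)
      simp only [Module.End.mul_apply] at this
      rw [this, h.face (by omega) (by simp only [Finset.mem_range] at hj; omega), map_zero,
        smul_zero]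
    rw [map_neg, bd_two, Finset.sum_eq_zero h5, h6, h7]
    have hQ := Sub.toC_mem_Q (R := ℤ) (X := X) (n := m + 1) (i := 0) (by omega) (A := ∅) hC
    have e : Finsupp.single τ 1 - Finsupp.single (τ.comp (Sub.loC 0)) 1 -
        Finsupp.single (τ.comp (Sub.hiC 0)) 1 -
        -(Finsupp.single (τ.comp (Sub.hiC 0)) 1 - Finsupp.single τ 1 -
          (Sub.pre ℤ X (Sub.toC 0) (Finsupp.single τ 1) -
            Finsupp.single (τ.comp (Sub.loC 0)) 1) + 0) =
        -(Sub.pre ℤ X (Sub.toC 0) (Finsupp.single τ (1 : ℤ))) := by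
      abel
    rw [e]
    exact Submodule.neg_mem _ hQ

/-- The map `(u₀, u₁, u₂, …) ↦ (max (1 - u₀) u₁, u₂, …)`. -/
noncomputable def maxC : C(Cb, Cb) where
  toFun u := fun j => if j = 0 then max (unitInterval.symm (u 0)) (u 1) else u (j + 1)
  continuous_toFun := by
    refine continuous_pi fun j => ?_
    by_cases h : j = 0
    · simp only [h, if_true]
      fun_prop
    · simp only [h, if_false]
      exact continuous_apply (j + 1)

theorem maxC_apply (u : Cb) (j : ℕ) :
    maxC u j = if j = 0 then max (unitInterval.symm (u 0)) (u 1) else u (j + 1) := rfl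

/-- Reversal of the first coordinate. -/
noncomputable def revC : C(Cb, Cb) :=
  ⟨Sub.atc unitInterval.symm 0, Sub.continuous_atc (by fun_prop) 0⟩

theorem revC_apply (u : Cb) (j : ℕ) :
    revC u j = if j = 0 then unitInterval.symm (u j) else u j := rfl

theorem toC_apply (i : ℕ) (u : Cb) (j : ℕ) : Sub.toC i u j = if j = i then 1 else u j := rfl

theorem pres_maxC {n : ℕ} : Sub.Pres n (n + 1) (Sub.pre ℤ X maxC) := by
  refine Sub.pres_pre (fun u v h j hj => ?_) (fun l hl => ?_)
  · simp only [maxC_apply]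
    by_cases h0 : j = 0
    · rw [if_pos h0, if_pos h0, h 0 (by omega), h 1 (by omega)]
    · rw [if_neg h0, if_neg h0, h (j + 1) (by omega)]
  · by_cases hl0 : l = 0
    · refine ⟨0, by omega, fun u v h j hj => ?_⟩
      simp only [maxC_apply]
      rw [if_neg (by omega), if_neg (by omega), h (j + 1) (by omega)]
    · refine ⟨l + 1, by omega, fun u v h j hj => ?_⟩
      simp only [maxC_apply]
      by_cases h0 : j = 0
      · rw [if_pos h0, if_pos h0, h 0 (by omega), h 1 (by omega)]
      · rw [if_neg h0, if_neg h0, h (j + 1) (by omega)]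

/-- The reversed cube is the negative. -/
theorem rev_sum {n : ℕ} (hn : 1 ≤ n) {y0 : X} {τ : C(Cb, X)} (h : SideConst n y0 τ)
    (hc : IsCube (n : ℤ) τ) :
    CubeHom.Bd ℤ (n : ℤ) Set.univ ∅ (Finsupp.single τ 1 +
      Finsupp.single (τ.comp revC) 1) := by
  obtain ⟨m, rfl⟩ : ∃ m, n = m + 1 := ⟨n - 1, by omega⟩
  have hC : (Finsupp.single τ 1 : Ch ℤ X) ∈ C ℤ ((m + 1 : ℕ) : ℤ) Set.univ :=
    mem_C_single hc (fun _ => Set.mem_univ _) 1
  refine ⟨Sub.pre ℤ X maxC (Finsupp.single τ 1), ?_, ?_⟩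
  · have := (pres_maxC (X := X) (n := m + 1)).1 Set.univ _ hC
    exact_mod_cast this
  · have h6 : Sub.dF ℤ X 0 (Sub.pre ℤ X maxC (Finsupp.single τ 1)) =
        Finsupp.single τ 1 - Sub.pre ℤ X (Sub.toC 0) (Finsupp.single τ 1) := by
      simp only [Sub.dF, LinearMap.sub_apply, Sub.pre_single]
      congr 2
      · ext u
        refine congrArg τ (funext fun j => ?_)
        rw [maxC_apply]
        by_cases h0 : j = 0
        · subst h0
          rw [if_pos rfl, ins_apply_self, ins_apply_gt (by omega)]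
          simp
        · rw [if_neg h0, ins_apply_gt (by omega)]
          rfl
      · ext u
        refine congrArg τ (funext fun j => ?_)
        rw [maxC_apply, toC_apply]
        by_cases h0 : j = 0
        · subst h0
          rw [if_pos rfl, if_pos rfl, ins_apply_self]
          simp [unitInterval.le_one']
        · rw [if_neg h0, if_neg h0, ins_apply_gt (by omega)]
          rfl
    have h7 : Sub.dF ℤ X 1 (Sub.pre ℤ X maxC (Finsupp.single τ 1)) =
        Sub.pre ℤ X (Sub.toC 0) (Finsupp.single τ 1) - Finsupp.single (τ.comp revC) 1 := by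
      simp only [Sub.dF, LinearMap.sub_apply, Sub.pre_single]
      congr 2
      · ext u
        refine congrArg τ (funext fun j => ?_)
        rw [maxC_apply, toC_apply]
        by_cases h0 : j = 0
        · subst h0
          rw [if_pos rfl, if_pos rfl, ins_apply_self]
          simp [unitInterval.le_one']
        · rw [if_neg h0, if_neg h0, ins_apply_gt (by omega)]
          rfl
      · ext u
        refine congrArg τ (funext fun j => ?_)
        rw [maxC_apply, revC_apply]
        by_cases h0 : j = 0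
        · subst h0
          rw [if_pos rfl, if_pos rfl, ins_apply_self, ins_apply_lt (by omega)]
          simp
        · rw [if_neg h0, if_neg h0, ins_apply_gt (by omega)]
          rfl
    have h5 : ∀ j ∈ Finset.range m, ((-1 : ℤ) ^ j) •
        Sub.dF ℤ X (j + 2) (Sub.pre ℤ X maxC (Finsupp.single τ 1)) = 0 := by
      intro j hj
      have h8 : ∀ e : I, (e = 0 ∨ e = 1) →
          (τ.comp maxC).comp (ins (j + 2) e) = ContinuousMap.const Cb y0 := by
        intro e he
        ext u
        change τ (maxC (ins (j + 2) e u)) = y0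
        refine h _ (j + 1) (by omega) (by simp only [Finset.mem_range] at hj; omega) ?_
        rw [maxC_apply, if_neg (by omega), ins_apply_self]
        exact he
      simp only [Sub.dF, LinearMap.sub_apply, Sub.pre_single]
      rw [h8 1 (Or.inr rfl), h8 0 (Or.inl rfl), sub_self, smul_zero]
    rw [bd_two, Finset.sum_eq_zero h5, h6, h7]
    have hQ := Sub.toC_mem_Q (R := ℤ) (X := X) (n := m + 1) (i := 0) (by omega) (A := ∅) hC
    have e : Finsupp.single τ 1 + Finsupp.single (τ.comp revC) 1 -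
        (Finsupp.single τ 1 - Sub.pre ℤ X (Sub.toC 0) (Finsupp.single τ 1) -
          (Sub.pre ℤ X (Sub.toC 0) (Finsupp.single τ 1) - Finsupp.single (τ.comp revC) 1) + 0) =
        Sub.pre ℤ X (Sub.toC 0) (Finsupp.single τ (1 : ℤ)) +
          Sub.pre ℤ X (Sub.toC 0) (Finsupp.single τ (1 : ℤ)) := by
      abel
    rw [e]
    exact Submodule.add_mem _ hQ hQ

/-- The map `α` is constant on the boundary of the cube. -/
def BdConst {n : ℕ} (y0 : X) (α : C(Fin n → I, X)) : Prop :=
  ∀ v, (∃ i, v i = 0 ∨ v i = 1) → α v = y0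

theorem BdConst.side {n : ℕ} {y0 : X} {α : C(Fin n → I, X)} (h : BdConst y0 α) :
    SideConst n y0 (α.comp (idCube n)) :=
  fun _ i _ h2 hu => h _ ⟨⟨i, h2⟩, hu⟩

theorem push_idCube {n : ℕ} (α : C(Fin n → I, X)) :
    (push α (Finsupp.single (idCube n) 1) : Ch ℤ X) =
      Finsupp.single (α.comp (idCube n)) 1 := by
  simp [push]

/-- Doubling. -/
noncomputable def dbl (t : I) : I := Set.projIcc 0 1 zero_le_one (2 * (t : ℝ))

/-- Doubling, second half. -/
noncomputable def dbl' (t : I) : I := Set.projIcc 0 1 zero_le_one (2 * (t : ℝ) - 1)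

theorem continuous_dbl : Continuous dbl := continuous_projIcc.comp (by fun_prop)

theorem continuous_dbl' : Continuous dbl' := continuous_projIcc.comp (by fun_prop)

theorem dbl_lo (t : I) : dbl (Sub.loI t) = t := by
  have h : (2 * ((Sub.loI t : I) : ℝ)) = (t : ℝ) := by
    simp only [Sub.loI]
    ring
  unfold dbl
  rw [h]
  exact Set.projIcc_val _ t

theorem dbl'_hi (t : I) : dbl' (Sub.hiI t) = t := by
  have h : (2 * ((Sub.hiI t : I) : ℝ) - 1) = (t : ℝ) := by
    simp only [Sub.hiI]
    ring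
  unfold dbl'
  rw [h]
  exact Set.projIcc_val _ t

theorem dbl_zero : dbl 0 = 0 := by
  unfold dbl
  simp [Set.projIcc_left]

theorem dbl'_one : dbl' 1 = 1 := by
  unfold dbl'
  have : (2 * ((1 : I) : ℝ) - 1) = 1 := by norm_num
  rw [this]
  exact Set.projIcc_of_right_le _ le_rfl

theorem dbl_half {t : I} (h : (t : ℝ) = 1 / 2) : dbl t = 1 := by
  unfold dbl
  have : (2 * (t : ℝ)) = 1 := by rw [h]; norm_num
  rw [this]
  exact Set.projIcc_of_right_le _ le_rfl

theorem dbl'_half {t : I} (h : (t : ℝ) = 1 / 2) : dbl' t = 0 := by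
  unfold dbl'
  have : (2 * (t : ℝ) - 1) = 0 := by rw [h]; norm_num
  rw [this]
  exact Set.projIcc_of_le_left _ le_rfl

open Classical in
/-- Concatenation in the first coordinate. -/
noncomputable def concat {n : ℕ} {y0 : X} (i0 : Fin n) {α β : C(Fin n → I, X)}
    (hα : BdConst y0 α) (hβ : BdConst y0 β) : C(Fin n → I, X) where
  toFun v := if (v i0 : ℝ) ≤ 1 / 2 then α (Function.update v i0 (dbl (v i0)))
    else β (Function.update v i0 (dbl' (v i0)))
  continuous_toFun := by
    refine Continuous.if_le ?_ ?_ (by fun_prop) continuous_const ?_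
    · exact α.continuous.comp (continuous_id.update i0 (continuous_dbl.comp (by fun_prop)))
    · exact β.continuous.comp (continuous_id.update i0 (continuous_dbl'.comp (by fun_prop)))
    · intro v hv
      rw [hα _ ⟨i0, Or.inr (by rw [Function.update_self, dbl_half hv])⟩,
        hβ _ ⟨i0, Or.inl (by rw [Function.update_self, dbl'_half hv])⟩]

theorem concat_apply {n : ℕ} {y0 : X} (i0 : Fin n) {α β : C(Fin n → I, X)}
    (hα : BdConst y0 α) (hβ : BdConst y0 β) (v : Fin n → I) :
    concat i0 hα hβ v = if (v i0 : ℝ) ≤ 1 / 2 then α (Function.update v i0 (dbl (v i0)))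
      else β (Function.update v i0 (dbl' (v i0))) := by
  simp only [concat, ContinuousMap.coe_mk]

theorem concat_bdConst {n : ℕ} {y0 : X} (i0 : Fin n) {α β : C(Fin n → I, X)}
    (hα : BdConst y0 α) (hβ : BdConst y0 β) : BdConst y0 (concat i0 hα hβ) := by
  rintro v ⟨i, hi⟩
  rw [concat_apply]
  by_cases h : i = i0
  · subst h
    rcases hi with hi | hi
    · rw [if_pos (by rw [hi]; norm_num)]
      refine hα _ ⟨i, Or.inl ?_⟩
      rw [Function.update_self, hi, dbl_zero]
    · rw [if_neg (by rw [hi]; norm_num)]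
      refine hβ _ ⟨i, Or.inr ?_⟩
      rw [Function.update_self, hi, dbl'_one]
  · split_ifs
    · exact hα _ ⟨i, by rwa [Function.update_of_ne h]⟩
    · exact hβ _ ⟨i, by rwa [Function.update_of_ne h]⟩

theorem idCube_atc {n : ℕ} (hn : 1 ≤ n) (f : I → I) (hf : Continuous f) (u : Cb) :
    idCube n ((⟨Sub.atc f 0, Sub.continuous_atc hf 0⟩ : C(Cb, Cb)) u) =
      Function.update (idCube n u) ⟨0, by omega⟩ (f (u 0)) := by
  funext i
  change Sub.atc f 0 u i = _
  unfold Sub.atc
  by_cases h : i = ⟨0, by omega⟩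
  · subst h
    simp
  · rw [Function.update_of_ne h, if_neg]
    · rfl
    · intro h'
      exact h (Fin.ext h')

theorem concat_bd {n : ℕ} (hn : 1 ≤ n) {y0 : X} {α β : C(Fin n → I, X)}
    (hα : BdConst y0 α) (hβ : BdConst y0 β) :
    CubeHom.Bd ℤ (n : ℤ) Set.univ ∅ (push (concat ⟨0, by omega⟩ hα hβ)
      (Finsupp.single (idCube n) 1) - push α (Finsupp.single (idCube n) 1) -
        push β (Finsupp.single (idCube n) 1)) := by
  rw [push_idCube, push_idCube, push_idCube]
  have h1 := half_sum hn (concat_bdConst (⟨0, by omega⟩ : Fin n) hα hβ).side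
    ((idCube_isCube n).comp (concat ⟨0, by omega⟩ hα hβ))
  have e1 : ((concat ⟨0, by omega⟩ hα hβ).comp (idCube n)).comp (Sub.loC 0) =
      α.comp (idCube n) := by
    ext u
    change concat ⟨0, by omega⟩ hα hβ (idCube n (Sub.loC 0 u)) = α (idCube n u)
    unfold Sub.loC
    rw [idCube_atc hn _ Sub.continuous_loI, concat_apply, Function.update_self, if_pos, Function.update_idem,
      dbl_lo]
    · congr 1
      exact Function.update_eq_self _ _
    · have := (u 0).2.2
      simp only [Sub.loI]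
      linarith
  have e2 : ((concat ⟨0, by omega⟩ hα hβ).comp (idCube n)).comp (Sub.hiC 0) =
      β.comp (idCube n) := by
    ext u
    change concat ⟨0, by omega⟩ hα hβ (idCube n (Sub.hiC 0 u)) = β (idCube n u)
    unfold Sub.hiC
    rw [idCube_atc hn _ Sub.continuous_hiI, concat_apply, Function.update_self, Function.update_idem,
      Function.update_idem, dbl'_hi]
    have e3 : Function.update (idCube n u) (⟨0, by omega⟩ : Fin n) (u 0) = idCube n u :=
      Function.update_eq_self _ _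
    rw [e3]
    by_cases h0 : ((Sub.hiI (u 0) : I) : ℝ) ≤ 1 / 2
    · rw [if_pos h0]
      have h00 := (u 0).2.1
      have h4 : ((u 0 : I) : ℝ) = 0 := by
        simp only [Sub.hiI] at h0
        linarith
      have h5 : ((Sub.hiI (u 0) : I) : ℝ) = 1 / 2 := by
        simp only [Sub.hiI]
        rw [h4]
        norm_num
      rw [hα _ ⟨⟨0, by omega⟩, Or.inr (by rw [Function.update_self, dbl_half h5])⟩]
      exact (hβ _ ⟨⟨0, by omega⟩, Or.inl (Subtype.ext h4)⟩).symm
    · rw [if_neg h0]
  rw [e1, e2] at h1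
  exact h1

/-- The reversed map. -/
noncomputable def revMap {n : ℕ} (i0 : Fin n) (α : C(Fin n → I, X)) : C(Fin n → I, X) where
  toFun v := α (Function.update v i0 (unitInterval.symm (v i0)))
  continuous_toFun := α.continuous.comp (continuous_id.update i0 (by fun_prop))

theorem revMap_bdConst {n : ℕ} {y0 : X} (i0 : Fin n) {α : C(Fin n → I, X)}
    (hα : BdConst y0 α) : BdConst y0 (revMap i0 α) := by
  rintro v ⟨i, hi⟩
  change α _ = y0
  by_cases h : i = i0
  · subst h
    refine hα _ ⟨i, ?_⟩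
    rw [Function.update_self]
    rcases hi with hi | hi
    · right
      rw [hi]
      simp
    · left
      rw [hi]
      simp
  · exact hα _ ⟨i, by rwa [Function.update_of_ne h]⟩

theorem revMap_bd {n : ℕ} (hn : 1 ≤ n) {y0 : X} {α : C(Fin n → I, X)}
    (hα : BdConst y0 α) :
    CubeHom.Bd ℤ (n : ℤ) Set.univ ∅ (push α (Finsupp.single (idCube n) 1) +
      push (revMap ⟨0, by omega⟩ α) (Finsupp.single (idCube n) 1)) := by
  rw [push_idCube, push_idCube]
  have h1 := rev_sum hn hα.side ((idCube_isCube n).comp α)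
  have e1 : (α.comp (idCube n)).comp revC = (revMap ⟨0, by omega⟩ α).comp (idCube n) := by
    ext u
    change α (idCube n (revC u)) = α (Function.update (idCube n u) ⟨0, by omega⟩
      (unitInterval.symm (idCube n u ⟨0, by omega⟩)))
    unfold revC
    rw [idCube_atc hn _ (by fun_prop)]
    rfl
  rwa [e1] at h1

end Loops

end DG3Aux

open DG3Aux in
/-- All degrees occur: concatenate in the first coordinate. -/
theorem exists_loop {n : ℕ} (hn : 2 ≤ n) {z : Ch ℤ (Sph n)} (hz : FCyc n z) (y0 : Sph n)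
    (m : ℤ) : ∃ α : C(Fin n → I, Sph n), (∀ v, (∃ i, v i = 0 ∨ v i = 1) → α v = y0) ∧
      CubeHom.Bd ℤ (n : ℤ) Set.univ ∅ (push α (Finsupp.single (idCube n) 1) - m • z) := by
  have hn1 : 1 ≤ n := by omega
  -- addition
  have hadd : ∀ a b : ℤ, (∃ α : C(Fin n → I, Sph n), BdConst y0 α ∧
      CubeHom.Bd ℤ (n : ℤ) Set.univ ∅ (push α (Finsupp.single (idCube n) 1) - a • z)) →
      (∃ α : C(Fin n → I, Sph n), BdConst y0 α ∧
      CubeHom.Bd ℤ (n : ℤ) Set.univ ∅ (push α (Finsupp.single (idCube n) 1) - b • z)) →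
      ∃ α : C(Fin n → I, Sph n), BdConst y0 α ∧
      CubeHom.Bd ℤ (n : ℤ) Set.univ ∅
        (push α (Finsupp.single (idCube n) 1) - (a + b) • z) := by
    rintro a b ⟨α, hα, h1⟩ ⟨β, hβ, h2⟩
    refine ⟨concat ⟨0, by omega⟩ hα hβ, concat_bdConst _ hα hβ, ?_⟩
    have h3 := ((concat_bd hn1 hα hβ).add h1).add h2
    refine (Eq.mp (congrArg _ ?_) h3)
    rw [add_smul]
    abel
  -- negation
  have hneg : ∀ a : ℤ, (∃ α : C(Fin n → I, Sph n), BdConst y0 α ∧
      CubeHom.Bd ℤ (n : ℤ) Set.univ ∅ (push α (Finsupp.single (idCube n) 1) - a • z)) →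
      ∃ α : C(Fin n → I, Sph n), BdConst y0 α ∧
      CubeHom.Bd ℤ (n : ℤ) Set.univ ∅
        (push α (Finsupp.single (idCube n) 1) - (-a) • z) := by
    rintro a ⟨α, hα, h1⟩
    refine ⟨revMap ⟨0, by omega⟩ α, revMap_bdConst _ hα, ?_⟩
    have h3 := (revMap_bd hn1 hα).sub h1
    refine (Eq.mp (congrArg _ ?_) h3)
    rw [neg_smul]
    abel
  -- zero
  have hzero : ∃ α : C(Fin n → I, Sph n), BdConst y0 α ∧
      CubeHom.Bd ℤ (n : ℤ) Set.univ ∅
        (push α (Finsupp.single (idCube n) 1) - (0 : ℤ) • z) := by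
    refine ⟨ContinuousMap.const _ y0, fun v _ => rfl, ?_⟩
    rw [zero_smul, sub_zero, push_idCube]
    refine CubeHom.Bd.of_mem_Q (mem_Q_single ((idCube_isCube n).comp _) (Or.inr ?_) 1)
    exact ⟨0, by omega, fun u v _ => rfl⟩
  -- one
  have hone : ∃ α : C(Fin n → I, Sph n), BdConst y0 α ∧
      CubeHom.Bd ℤ (n : ℤ) Set.univ ∅
        (push α (Finsupp.single (idCube n) 1) - (1 : ℤ) • z) := by
    obtain ⟨α, hα, h1 | h1⟩ := exists_collapse hn hz y0
    · exact ⟨α, hα, by rwa [one_smul]⟩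
    · have := hneg (-1) ⟨α, hα, by rwa [neg_smul, one_smul, sub_neg_eq_add]⟩
      rwa [neg_neg] at this
  have main : ∃ α : C(Fin n → I, Sph n), BdConst y0 α ∧
      CubeHom.Bd ℤ (n : ℤ) Set.univ ∅ (push α (Finsupp.single (idCube n) 1) - m • z) := by
    induction m using Int.induction_on with
    | zero => exact hzero
    | succ i ih => exact hadd _ _ ih hone
    | pred i ih =>
      have := hadd _ _ ih (hneg 1 hone)
      exact this
  exact main

end Pool.Agent.TC
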