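import Pool.Agent.Lib.TC.Deg1
import Pool.Agent.Lib.TC.Deg3

/-!
# Modification of equivariant maps on a free orbit
-/

namespace Pool.Agent.TC

open CubeHom

namespace DG4

open Topology Set

/-- There are charts inside any open set. -/
theorem exists_chart {n : ℕ} {Y : Type*} [TopologicalSpace Y] (hY : LocEuc n Y)
    {W : Set Y} (hW : IsOpen W) {y : Y} (hy : y ∈ W) :
    ∃ ψ : C(Fin n → ℝ, Y), IsOpenEmbedding ψ ∧ ψ 0 = y ∧ Set.range ψ ⊆ W := by
  obtain ⟨S, hS, hyS, ⟨φ⟩⟩ := hY y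
  have h1 : IsOpenEmbedding (fun v : Fin n → ℝ => (φ.symm v : Y)) :=
    hS.isOpenEmbedding_subtypeVal.comp φ.symm.isOpenEmbedding
  have h2 : IsOpen ((fun v : Fin n → ℝ => (φ.symm v : Y)) ⁻¹' W) := hW.preimage h1.continuous
  have h3 : φ ⟨y, hyS⟩ ∈ (fun v : Fin n → ℝ => (φ.symm v : Y)) ⁻¹' W := by
    simpa using hy
  obtain ⟨r, hr, hball⟩ := Metric.isOpen_iff.1 h2 _ h3
  have h4 : IsOpenEmbedding (OpenPartialHomeomorph.univBall (φ ⟨y, hyS⟩) r) :=
    OpenPartialHomeomorph.isOpenEmbedding _ (OpenPartialHomeomorph.univBall_source _ _)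
  refine ⟨⟨_, (h1.comp h4).continuous⟩, h1.comp h4, ?_, ?_⟩
  · simp
  · rintro _ ⟨v, rfl⟩
    apply hball
    have h5 := (OpenPartialHomeomorph.univBall (φ ⟨y, hyS⟩) r).map_source
      (x := v) (by rw [OpenPartialHomeomorph.univBall_source]; trivial)
    rwa [OpenPartialHomeomorph.univBall_target _ hr] at h5

section glue

variable {G X Y T : Type} [Group G] [Finite G] [TopologicalSpace X] [T2Space X]
  [TopologicalSpace Y] [TopologicalSpace T] [MulAction G X] [MulAction G Y] {n : ℕ}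

/-- Replacing an equivariant map on the orbit of a free chart. -/
theorem glue (hX : ∀ g : G, Continuous (fun x : X => g • x))
    (hY : ∀ g : G, Continuous (fun y : Y => g • y)) (ψ : C(Fin n → ℝ, X))
    (hψ : IsOpenEmbedding ψ) (hdis : ∀ g : G, g ≠ 1 → ∀ v w, g • ψ v ≠ ψ w)
    (f : C(T × X, Y)) (hf : ∀ (g : G) t x, f (t, g • x) = g • f (t, x))
    (h : C(T × (Fin n → ℝ), Y)) {K : Set (Fin n → ℝ)} (hK : IsCompact K)
    (hh : ∀ t, ∀ v ∉ K, h (t, v) = f (t, ψ v)) :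
    ∃ f' : C(T × X, Y), (∀ (g : G) t x, f' (t, g • x) = g • f' (t, x)) ∧
      (∀ (g : G) t v, f' (t, g • ψ v) = g • h (t, v)) ∧
      ∀ t x, (∀ (g : G), ∀ v ∈ K, x ≠ g • ψ v) → f' (t, x) = f (t, x) := by
  classical
  have huniq : ∀ (g g' : G) v v', g • ψ v = g' • ψ v' → g = g' ∧ v = v' := by
    intro g g' v v' he
    have h1 : (g'⁻¹ * g) • ψ v = ψ v' := by rw [mul_smul, he, inv_smul_smul]
    by_cases h2 : g'⁻¹ * g = 1
    · have h3 : g = g' := by rwa [inv_mul_eq_one, eq_comm] at h2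
      refine ⟨h3, hψ.injective ?_⟩
      rw [h2, one_smul] at h1
      exact h1
    · exact absurd h1 (hdis _ h2 v v')
  let F : T × X → Y := fun q =>
    if hq : ∃ (g : G) (v : Fin n → ℝ), q.2 = g • ψ v then
      hq.choose • h (q.1, hq.choose_spec.choose) else f q
  have hF1 : ∀ (g : G) t v, F (t, g • ψ v) = g • h (t, v) := by
    intro g t v
    have hq : ∃ (g' : G) (v' : Fin n → ℝ), (t, g • ψ v).2 = g' • ψ v' := ⟨g, v, rfl⟩
    have e1 : F (t, g • ψ v) = hq.choose • h (t, hq.choose_spec.choose) := dif_pos hq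
    obtain ⟨e2, e3⟩ := huniq _ _ _ _ hq.choose_spec.choose_spec
    rw [e1, ← e3, ← e2]
  have hF2 : ∀ t x, (∀ (g : G), ∀ v ∈ K, x ≠ g • ψ v) → F (t, x) = f (t, x) := by
    intro t x hx
    by_cases hq : ∃ (g : G) (v : Fin n → ℝ), x = g • ψ v
    · obtain ⟨g, v, rfl⟩ := hq
      have hv : v ∉ K := fun hv => hx g v hv rfl
      rw [hF1, hh t v hv, hf]
    · exact dif_neg hq
  have hcont : Continuous F := by
    rw [continuous_iff_continuousAt]
    rintro ⟨t, x⟩
    by_cases hq : ∃ (g : G) (v : Fin n → ℝ), x = g • ψ v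
    · obtain ⟨g, v, rfl⟩ := hq
      have e1 : IsOpenEmbedding (fun w : Fin n → ℝ => g • ψ w) := by
        have : IsOpenEmbedding (fun x : X => g • x) :=
          (Homeomorph.mk (MulAction.toPerm g) (hX g) (hX g⁻¹)).isOpenEmbedding
        exact this.comp hψ
      have e2 : IsOpenEmbedding (Prod.map id (fun w : Fin n → ℝ => g • ψ w) :
          T × (Fin n → ℝ) → T × X) := IsOpenEmbedding.id.prodMap e1
      have e3 : ContinuousAt (F ∘ Prod.map id (fun w : Fin n → ℝ => g • ψ w)) (t, v) := by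
        have e4 : F ∘ Prod.map id (fun w : Fin n → ℝ => g • ψ w) = fun q => g • h q := by
          funext q
          exact hF1 g q.1 q.2
        rw [e4]
        exact ((hY g).comp h.continuous).continuousAt
      exact (e2.continuousAt_iff).1 e3
    · have hA : IsClosed (⋃ g : G, (fun w : Fin n → ℝ => g • ψ w) '' K) := by
        refine isClosed_iUnion_of_finite fun g => ?_
        exact (hK.image ((hX g).comp ψ.continuous)).isClosed
      have hx : x ∈ (⋃ g : G, (fun w : Fin n → ℝ => g • ψ w) '' K)ᶜ := by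
        intro hx
        rw [Set.mem_iUnion] at hx
        obtain ⟨g, v, -, hv⟩ := hx
        exact hq ⟨g, v, hv.symm⟩
      have hN : {q : T × X | q.2 ∈ (⋃ g : G, (fun w : Fin n → ℝ => g • ψ w) '' K)ᶜ} ∈ 𝓝 (t, x) :=
        (hA.isOpen_compl.preimage continuous_snd).mem_nhds hx
      refine (f.continuous.continuousAt (x := (t, x))).congr ?_
      filter_upwards [hN] with q hq'
      refine (hF2 q.1 q.2 fun g v hv he => hq' ?_).symm
      rw [Set.mem_iUnion]
      exact ⟨g, v, hv, he.symm⟩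
  refine ⟨⟨F, hcont⟩, ?_, hF1, hF2⟩
  intro g t x
  change F (t, g • x) = g • F (t, x)
  by_cases hq : ∃ (g : G) (v : Fin n → ℝ), x = g • ψ v
  · obtain ⟨g', v, rfl⟩ := hq
    rw [← mul_smul, hF1, hF1, mul_smul]
  · rw [hF2 t x fun g v _ he => hq ⟨g, v, he⟩, hF2 t (g • x) fun g' v _ he => hq ⟨g⁻¹ * g', v, ?_⟩,
      hf]
    rw [mul_smul, ← he, inv_smul_smul]

/-- Charts around free points with disjoint translates. -/
theorem exists_free_chart (hX : ∀ g : G, Continuous (fun x : X => g • x)) (hE : LocEuc n X)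
    {x : X} (hx : ∀ g : G, g ≠ 1 → g • x ≠ x) :
    ∃ ψ : C(Fin n → ℝ, X), IsOpenEmbedding ψ ∧ ψ 0 = x ∧
      ∀ g : G, g ≠ 1 → ∀ v w, g • ψ v ≠ ψ w := by
  have h1 : ∀ g : G, ∃ W : Set X, IsOpen W ∧ x ∈ W ∧ (g ≠ 1 → ∀ a ∈ W, g • a ∉ W) := by
    intro g
    by_cases hg : g = 1
    · exact ⟨Set.univ, isOpen_univ, Set.mem_univ _, fun h => absurd hg h⟩
    · obtain ⟨U, V, hU, hV, hxU, hxV, hUV⟩ := t2_separation (hx g hg)
      refine ⟨V ∩ (fun a : X => g • a) ⁻¹' U, hV.inter (hU.preimage (hX g)), ⟨hxV, hxU⟩, ?_⟩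
      rintro - a ⟨-, ha⟩ ⟨hb, -⟩
      exact Set.disjoint_left.1 hUV ha hb
  choose W hW1 hW2 hW3 using h1
  obtain ⟨ψ, h2, h3, h4⟩ := exists_chart hE (isOpen_iInter_of_finite hW1)
    (Set.mem_iInter.2 hW2)
  refine ⟨ψ, h2, h3, fun g hg v w he => ?_⟩
  have h5 := Set.mem_iInter.1 (h4 ⟨v, rfl⟩) g
  have h6 := Set.mem_iInter.1 (h4 ⟨w, rfl⟩) g
  rw [← he] at h6
  exact hW3 g hg _ h5 h6

end glue


section homology

variable {X Y : Type} [TopologicalSpace X] [TopologicalSpace Y] {n : ℕ}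

/-- The chart of an open embedding. -/
noncomputable def cht (e : C(Fin n → ℝ, X)) (he : IsOpenEmbedding e) :
    Set.range e ≃ₜ (Fin n → ℝ) := he.isEmbedding.toHomeomorph.symm

theorem inChart_cht (e : C(Fin n → ℝ, X)) (he : IsOpenEmbedding e) (K : Set (Fin n → ℝ)) :
    inChart (cht e he) K = e '' K := rfl

theorem locCh_cht (e : C(Fin n → ℝ, X)) (he : IsOpenEmbedding e) :
    locCh ℤ (cht e he) = push e (stdCh ℤ n) := by
  rw [Loc.locCh_eq]
  rfl

/-- The small box. -/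
def bx (n : ℕ) : Set (Fin n → ℝ) := Metric.closedBall 0 (1 / 2)

theorem bx_compact (n : ℕ) : IsCompact (bx n) := isCompact_closedBall _ _

theorem bx_convex (n : ℕ) : Convex ℝ (bx n) := convex_closedBall _ _

theorem zero_mem_bx (n : ℕ) : (0 : Fin n → ℝ) ∈ bx n := Metric.mem_closedBall_self (by norm_num)

theorem bx_lt {n : ℕ} {x : Fin n → ℝ} (hx : x ∈ bx n) (i : Fin n) : -1 < x i ∧ x i < 1 := by
  have h1 : ‖x‖ ≤ 1 / 2 := by simpa [bx] using hx
  have h2 := (norm_le_pi_norm x i).trans h1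
  rw [Real.norm_eq_abs, abs_le] at h2
  constructor <;> linarith [h2.1, h2.2]

/-- The local sign. -/
theorem exists_sign [T2Space X] (e : C(Fin n → ℝ, X)) (he : IsOpenEmbedding e) {z : Ch ℤ X}
    (hz : z ∈ Z ℤ (n : ℤ) Set.univ ∅) :
    ∃ ε : ℤ, Bd ℤ (n : ℤ) Set.univ (e '' bx n)ᶜ (z - ε • push e (stdCh ℤ n)) := by
  obtain ⟨r, hr⟩ := loc_gen he.isOpen_range (cht e he) (bx_compact n) (bx_convex n)
    ⟨0, zero_mem_bx n⟩ (fun x hx => bx_lt hx) (Z_mono subset_rfl (Set.empty_subset _) hz)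
  rw [locCh_cht, inChart_cht] at hr
  exact ⟨r, hr⟩

theorem sign_free [T2Space X] (e : C(Fin n → ℝ, X)) (he : IsOpenEmbedding e) {r : ℤ}
    (h : Bd ℤ (n : ℤ) Set.univ (e '' bx n)ᶜ (r • push e (stdCh ℤ n))) : r = 0 := by
  refine loc_free he.isOpen_range (cht e he) (bx_compact n) (bx_convex n)
    ⟨0, zero_mem_bx n⟩ (fun x hx => bx_lt hx) ?_
  rw [locCh_cht, inChart_cht]
  exact h

theorem sign_free_pt [T2Space X] (e : C(Fin n → ℝ, X)) (he : IsOpenEmbedding e) {r : ℤ}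
    (h : Bd ℤ (n : ℤ) Set.univ {e 0}ᶜ (r • push e (stdCh ℤ n))) : r = 0 := by
  refine loc_free he.isOpen_range (cht e he) (K := {0}) isCompact_singleton (convex_singleton _)
    ⟨0, rfl⟩ (fun x hx i => ?_) ?_
  · rw [Set.mem_singleton_iff] at hx
    rw [hx]
    constructor <;> simp
  · rw [locCh_cht, inChart_cht, Set.image_singleton]
    exact h

/-- The sign is a unit. -/
theorem sign_unit [T2Space X] (e : C(Fin n → ℝ, X)) (he : IsOpenEmbedding e) {z : Ch ℤ X}
    (hz : LocGen n z) {ε : ℤ}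
    (h : Bd ℤ (n : ℤ) Set.univ (e '' bx n)ᶜ (z - ε • push e (stdCh ℤ n))) :
    ∃ r : ℤ, r * ε = 1 := by
  have h1 : push e (stdCh ℤ n) ∈ Z ℤ (n : ℤ) Set.univ ({e 0}ᶜ : Set X) := by
    refine push_mem_Z (U := Set.univ) (Set.mapsTo_univ _ _) (A := ({0}ᶜ : Set (Fin n → ℝ)))
      ?_ ?_
    · intro v hv hv'
      exact hv (he.injective hv')
    · refine Loc.stdCh_mem_compl fun x hx i => ?_
      rw [Set.mem_singleton_iff] at hx
      rw [hx]
      constructor <;> simp
  obtain ⟨r, hr⟩ := hz (e 0) _ h1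
  refine ⟨r, ?_⟩
  have h2 : Bd ℤ (n : ℤ) Set.univ ({e 0}ᶜ : Set X) (z - ε • push e (stdCh ℤ n)) :=
    h.mono subset_rfl (Set.compl_subset_compl.2 (Set.singleton_subset_iff.2
      (Set.mem_image_of_mem e (zero_mem_bx n))))
  have h3 := hr.add (h2.smul r)
  have h4 : (1 - r * ε) = 0 := by
    apply sign_free_pt e he
    convert h3 using 1
    rw [sub_smul, one_smul, smul_sub, smul_smul]
    abel
  linarith

/-- Signs and self-maps. -/
theorem sign_push [T2Space X] (e : C(Fin n → ℝ, X)) (γ : C(X, X)) (hγ : Function.Injective γ)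
    (he : IsOpenEmbedding (γ.comp e)) {z : Ch ℤ X} {d ε ε' : ℤ}
    (hd : Bd ℤ (n : ℤ) Set.univ ∅ (push γ z - d • z))
    (h : Bd ℤ (n : ℤ) Set.univ (e '' bx n)ᶜ (z - ε • push e (stdCh ℤ n)))
    (h' : Bd ℤ (n : ℤ) Set.univ ((γ.comp e) '' bx n)ᶜ (z - ε' • push (γ.comp e) (stdCh ℤ n))) :
    d * ε' = ε := by
  have h1 : Bd ℤ (n : ℤ) Set.univ ((γ.comp e) '' bx n)ᶜ
      (push γ z - ε • push (γ.comp e) (stdCh ℤ n)) := by
    have h2 := h.push (f := γ) (V := Set.univ) (A' := ((γ.comp e) '' bx n)ᶜ)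
      (Set.mapsTo_univ _ _) (by
        rintro x hx ⟨v, hv, hvx⟩
        exact hx ⟨v, hv, hγ hvx⟩)
    rwa [map_sub, map_smul, push_push] at h2
  have h3 := hd.mono (U' := Set.univ) (A' := ((γ.comp e) '' bx n)ᶜ) subset_rfl
    (Set.empty_subset _)
  have h4 := (h1.sub h3).sub (h'.smul d)
  have h5 : d * ε' - ε = 0 := by
    apply sign_free (γ.comp e) he
    convert h4 using 1
    rw [sub_smul, smul_sub, smul_smul]
    abel
  linarith

/-- Two maps which agree on `V`. -/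
theorem diff_mem {f f' : C(X, Y)} {V : Set X} (hV : ∀ x ∈ V, f' x = f x) {k : ℤ} {q : Ch ℤ X}
    (hq : q ∈ Q ℤ k V) : push f' q - push f q ∈ Q ℤ k (∅ : Set Y) := by
  have h1 := map_mem_of_supported (push f' - push f) (Q ℤ k (∅ : Set Y)) (fun σ hσ => ?_) hq
  · simpa using h1
  · rw [LinearMap.sub_apply, push_single, push_single]
    obtain ⟨h1, h2 | h2⟩ := hσ
    · have h3 : f'.comp σ = f.comp σ := by
        ext u
        exact hV _ (h2 u)
      rw [h3, sub_self]
      exact Submodule.zero_mem _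
    · exact Submodule.sub_mem _ (mem_Q_single (h1.comp f') (Or.inr (h2.comp f')) _)
        (mem_Q_single (h1.comp f) (Or.inr (h2.comp f)) _)

theorem diff_bd {f f' : C(X, Y)} {V : Set X} (hV : ∀ x ∈ V, f' x = f x) {k : ℤ} {z c : Ch ℤ X}
    (h : Bd ℤ k Set.univ V (z - c)) :
    Bd ℤ k Set.univ ∅ ((push f' z - push f z) - (push f' c - push f c)) := by
  obtain ⟨b, hb, hq⟩ := h
  refine ⟨push f' b - push f b, Submodule.sub_mem _ (push_mem_C (Set.mapsTo_univ _ _) hb)
    (push_mem_C (Set.mapsTo_univ _ _) hb), ?_⟩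
  have h1 := diff_mem hV hq
  convert h1 using 1
  simp only [map_sub, bd_push]
  abel

/-- Constant cubes are degenerate. -/
theorem Q_pt (hn : 1 ≤ n) (y : Y) : Q ℤ (n : ℤ) {y} ≤ Q ℤ (n : ℤ) (∅ : Set Y) := by
  refine Finsupp.supported_mono ?_
  rintro σ ⟨h1, h2 | h2⟩
  · refine ⟨h1, Or.inr ⟨0, by exact_mod_cast hn, fun u v _ => ?_⟩⟩
    rw [Set.mem_singleton_iff.1 (h2 u), Set.mem_singleton_iff.1 (h2 v)]
  · exact ⟨h1, Or.inr h2⟩

theorem Bd_pt (hn : 1 ≤ n) {y : Y} {c : Ch ℤ Y} (h : Bd ℤ (n : ℤ) Set.univ {y} c) :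
    Bd ℤ (n : ℤ) Set.univ ∅ c := by
  obtain ⟨b, hb, hq⟩ := h
  exact ⟨b, hb, Q_pt hn y hq⟩

theorem norm_stdCube (u : Cb) : ‖stdCube n u‖ ≤ 1 := by
  rw [pi_norm_le_iff_of_nonneg zero_le_one]
  intro i
  rw [stdCube_apply, Real.norm_eq_abs, abs_le]
  have h0 := (u i).2.1
  have h1 := (u i).2.2
  constructor <;> linarith

/-- The image of the box under a map which is constant on the box. -/
theorem push_const (hn : 1 ≤ n) {f : C(Fin n → ℝ, Y)} {y : Y} (h : ∀ v, ‖v‖ ≤ 1 → f v = y) :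
    Bd ℤ (n : ℤ) Set.univ ∅ (push f (stdCh ℤ n)) := by
  refine Bd_pt hn (y := y) (Bd.of_mem_C ?_)
  unfold stdCh
  rw [push_single]
  exact mem_C_single ((stdCube_isCube n).comp f) (fun u => h _ (norm_stdCube u)) _

/-- The clamping map of the interval. -/
noncomputable def clamp : C(ℝ, I) := ⟨Set.projIcc 0 1 zero_le_one, continuous_projIcc⟩

theorem clamp_of_le {t : ℝ} (h : t ≤ 0) : clamp t = 0 := Set.projIcc_of_le_left zero_le_one h

theorem clamp_of_ge {t : ℝ} (h : 1 ≤ t) : clamp t = 1 := Set.projIcc_of_right_le zero_le_one h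

/-- The homotopy of the cube. -/
noncomputable def clH (n : ℕ) : C(I × (Fin n → I), Fin n → I) where
  toFun q := fun i => ⟨_, convex_mem q.1 (clamp (2 * (q.2 i : ℝ) - 1 / 2)) (q.2 i)⟩
  continuous_toFun := by
    refine continuous_pi fun i => Continuous.subtype_mk ?_ _
    fun_prop

theorem clH_mapsTo {n : ℕ} (t : I) {v : Fin n → I} (hv : v ∈ bdry n) : clH n (t, v) ∈ bdry n := by
  obtain ⟨i, hi⟩ := hv
  refine ⟨i, ?_⟩
  rcases hi with hi | hi
  · left
    apply Subtype.ext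
    change (1 - (t : ℝ)) * ((clamp (2 * (v i : ℝ) - 1 / 2) : I) : ℝ) + (t : ℝ) * (v i : ℝ) = 0
    rw [hi, clamp_of_le (by norm_num)]
    simp
  · right
    apply Subtype.ext
    change (1 - (t : ℝ)) * ((clamp (2 * (v i : ℝ) - 1 / 2) : I) : ℝ) + (t : ℝ) * (v i : ℝ) = 1
    rw [hi, clamp_of_ge (by norm_num)]
    simp

/-- The box maps to the loop. -/
theorem push_loop (hn : 1 ≤ n) {α : C(Fin n → I, Y)} {y : Y}
    (hα : ∀ v, (∃ i, v i = 0 ∨ v i = 1) → α v = y) {h : C(Fin n → ℝ, Y)}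
    (hh : ∀ v, ‖v‖ ≤ 1 → h v = α (fun i => clamp (v i + 1 / 2))) :
    Bd ℤ (n : ℤ) Set.univ ∅
      (push α (Finsupp.single (idCube n) 1) - push h (stdCh ℤ n)) := by
  have h1 := Bd_homotopy (R := ℤ) (H := α.comp (clH n)) (k := n) (U := Set.univ) (A := bdry n)
    (V := Set.univ) (A' := {y}) (fun _ _ _ => Set.mem_univ _)
    (fun t v hv => hα _ (clH_mapsTo t hv)) (idCube_mem_Z ℤ n)
  have e1 : atTime (α.comp (clH n)) 1 = α := by
    ext v
    change α (clH n (1, v)) = α v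
    congr 1
    funext i
    apply Subtype.ext
    change (1 - ((1 : I) : ℝ)) * ((clamp (2 * (v i : ℝ) - 1 / 2) : I) : ℝ) +
      ((1 : I) : ℝ) * (v i : ℝ) = v i
    simp
  have e0 : (atTime (α.comp (clH n)) 0).comp (idCube n) = h.comp (stdCube n) := by
    ext u
    change α (clH n (0, idCube n u)) = h (stdCube n u)
    rw [hh _ (norm_stdCube u)]
    congr 1
    funext i
    apply Subtype.ext
    change (1 - ((0 : I) : ℝ)) * ((clamp (2 * ((u i : I) : ℝ) - 1 / 2) : I) : ℝ) +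
      ((0 : I) : ℝ) * ((u i : I) : ℝ) = ((clamp (2 * ((u i : I) : ℝ) - 1 + 1 / 2) : I) : ℝ)
    rw [show 2 * ((u i : I) : ℝ) - 1 + 1 / 2 = 2 * ((u i : I) : ℝ) - 1 / 2 by ring]
    simp
  rw [e1, push_single (atTime (α.comp (clH n)) 0), e0] at h1
  have h2 := Bd_pt hn h1
  unfold stdCh
  rw [push_single h]
  exact h2

end homology


section stretch

variable {G X Y : Type} [Group G] [Finite G] [TopologicalSpace X] [T2Space X]
  [TopologicalSpace Y] [MulAction G X] [MulAction G Y] {n : ℕ}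

/-- Making an equivariant map constant on a free chart. -/
theorem stretch (hX : ∀ g : G, Continuous (fun x : X => g • x))
    (hY : ∀ g : G, Continuous (fun y : Y => g • y)) (ψ : C(Fin n → ℝ, X))
    (hψ : IsOpenEmbedding ψ) (hdis : ∀ g : G, g ≠ 1 → ∀ v w, g • ψ v ≠ ψ w)
    (f : C(X, Y)) (hf : ∀ (g : G) x, f (g • x) = g • f x) :
    ∃ F : C(I × X, Y), (∀ (g : G) t x, F (t, g • x) = g • F (t, x)) ∧ (∀ x, F (0, x) = f x) ∧
      (∀ (g : G) v, ‖v‖ ≤ 1 → F (1, g • ψ v) = g • f (ψ 0)) ∧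
      ∀ t x, (∀ (g : G) v, x ≠ g • ψ v) → F (t, x) = f x := by
  let h : C(I × (Fin n → ℝ), Y) :=
    ⟨fun q => f (ψ (((1 - (q.1 : ℝ)) + (q.1 : ℝ) * ((clamp (‖q.2‖ - 1) : I) : ℝ)) • q.2)),
      by fun_prop⟩
  obtain ⟨F, h1, h2, h3⟩ := glue hX hY ψ hψ hdis (f.comp ⟨fun q : I × X => q.2, by fun_prop⟩)
    (fun g _ x => hf g x) h (isCompact_closedBall (0 : Fin n → ℝ) 2) (by
      intro t v hv
      have hv' : 2 < ‖v‖ := by simpa using hv
      change f (ψ (((1 - (t : ℝ)) + (t : ℝ) * ((clamp (‖v‖ - 1) : I) : ℝ)) • v)) = f (ψ v)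
      rw [clamp_of_ge (by linarith)]
      simp)
  refine ⟨F, h1, ?_, ?_, ?_⟩
  · intro x
    by_cases hx : ∃ (g : G) (v : Fin n → ℝ), x = g • ψ v
    · obtain ⟨g, v, rfl⟩ := hx
      rw [h2, hf]
      congr 1
      change f (ψ (((1 - ((0 : I) : ℝ)) + ((0 : I) : ℝ) * ((clamp (‖v‖ - 1) : I) : ℝ)) • v)) =
        f (ψ v)
      simp
    · exact h3 0 x fun g v _ he => hx ⟨g, v, he⟩
  · intro g v hv
    rw [h2]
    congr 1
    change f (ψ (((1 - ((1 : I) : ℝ)) + ((1 : I) : ℝ) * ((clamp (‖v‖ - 1) : I) : ℝ)) • v)) =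
      f (ψ 0)
    rw [clamp_of_le (by linarith)]
    simp
  · exact fun t x hx => h3 t x fun g v _ => hx g v

/-- Inserting a loop. -/
theorem insert_loop (hX : ∀ g : G, Continuous (fun x : X => g • x))
    (hY : ∀ g : G, Continuous (fun y : Y => g • y)) (ψ : C(Fin n → ℝ, X))
    (hψ : IsOpenEmbedding ψ) (hdis : ∀ g : G, g ≠ 1 → ∀ v w, g • ψ v ≠ ψ w)
    (f : C(X, Y)) (hf : ∀ (g : G) x, f (g • x) = g • f x) {y : Y}
    (hfy : ∀ v, ‖v‖ ≤ 1 → f (ψ v) = y) (α : C(Fin n → I, Y))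
    (hα : ∀ v, (∃ i, v i = 0 ∨ v i = 1) → α v = y) :
    ∃ (f' : C(X, Y)) (h : C(Fin n → ℝ, Y)), (∀ (g : G) x, f' (g • x) = g • f' x) ∧
      (∀ (g : G) v, f' (g • ψ v) = g • h v) ∧
      (∀ v, ‖v‖ ≤ 1 → h v = α (fun i => clamp (v i + 1 / 2))) ∧
      ∀ x, (∀ (g : G), ∀ v ∈ bx n, x ≠ g • ψ v) → f' x = f x := by
  classical
  -- outside the small box the loop is constant
  have hout : ∀ v : Fin n → ℝ, v ∉ bx n → α (fun i => clamp (v i + 1 / 2)) = y := by
    intro v hv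
    have hv' : ¬ ‖v‖ ≤ 1 / 2 := by simpa [bx] using hv
    rw [pi_norm_le_iff_of_nonneg (by norm_num)] at hv'
    push Not at hv'
    obtain ⟨i, hi⟩ := hv'
    rw [Real.norm_eq_abs, lt_abs] at hi
    refine hα _ ⟨i, ?_⟩
    rcases hi with hi | hi
    · right
      exact clamp_of_ge (by linarith)
    · left
      exact clamp_of_le (by linarith)
  let h : C(Fin n → ℝ, Y) :=
    ⟨fun v => if ‖v‖ ≤ 1 then α (fun i => clamp (v i + 1 / 2)) else f (ψ v), by
      refine Continuous.if_le ?_ ?_ continuous_norm continuous_const ?_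
      · fun_prop
      · fun_prop
      · intro v hv
        rw [hfy v hv.le]
        refine hout v fun hv2 => ?_
        have : ‖v‖ ≤ 1 / 2 := by simpa [bx] using hv2
        linarith⟩
  have hh1 : ∀ v, ‖v‖ ≤ 1 → h v = α (fun i => clamp (v i + 1 / 2)) := fun v hv => if_pos hv
  have hh2 : ∀ v, ¬ ‖v‖ ≤ 1 → h v = f (ψ v) := fun v hv => if_neg hv
  obtain ⟨F, h1, h2, h3⟩ := glue (T := Unit) hX hY ψ hψ hdis
    (f.comp ⟨fun q : Unit × X => q.2, by fun_prop⟩)
    (fun g _ x => hf g x) (h.comp ⟨fun q : Unit × (Fin n → ℝ) => q.2, by fun_prop⟩)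
    (bx_compact n) (by
      intro t v hv
      change h v = f (ψ v)
      by_cases hv1 : ‖v‖ ≤ 1
      · rw [hh1 v hv1, hfy v hv1, hout v hv]
      · exact hh2 v hv1)
  exact ⟨F.comp ⟨fun x => ((), x), by fun_prop⟩, h, fun g x => h1 g () x,
    fun g v => h2 g () v, hh1, fun x hx => h3 () x hx⟩

end stretch

section prime

variable {p : ℕ} [Fact p.Prime]

theorem free_of_prime {X : Type} [MulAction (Cp p) X] {x : X} {g0 : Cp p} (h0 : g0 • x ≠ x) :
    ∀ g : Cp p, g ≠ 1 → g • x ≠ x := by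
  intro g hg he
  apply h0
  have h1 : g0 ∈ Subgroup.zpowers g := by
    refine mem_zpowers_of_prime_card (p := p) ?_ hg
    rw [Nat.card_eq_fintype_card, Fintype.card_multiplicative, ZMod.card]
  obtain ⟨k, rfl⟩ := Subgroup.mem_zpowers_iff.1 h1
  have h2 : g ∈ MulAction.stabilizer (Cp p) x := he
  exact (MulAction.stabilizer (Cp p) x).zpow_mem h2 k

end prime

section total

variable {X : Type} [TopologicalSpace X] [T2Space X] {n : ℕ} {ι : Type} [Fintype ι]

/-- A cycle is, near a finite disjoint union of balls, the sum of its local pieces. -/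
theorem pieces (hX : LocEuc n X) {z : Ch ℤ X} (hz : z ∈ Z ℤ (n : ℤ) Set.univ ∅)
    (e : ι → C(Fin n → ℝ, X)) (he : ∀ i, IsOpenEmbedding (e i))
    (hdis : ∀ i j, i ≠ j → ∀ v w, e i v ≠ e j w) (ε : ι → ℤ)
    (hε : ∀ i, Bd ℤ (n : ℤ) Set.univ (e i '' bx n)ᶜ (z - ε i • push (e i) (stdCh ℤ n))) :
    Bd ℤ (n : ℤ) Set.univ (⋃ i, e i '' bx n)ᶜ (z - ∑ i, ε i • push (e i) (stdCh ℤ n)) := by
  classical
  have hcyc : ∀ i, push (e i) (stdCh ℤ n) ∈ Z ℤ (n : ℤ) Set.univ (⋃ i, e i '' bx n)ᶜ := by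
    intro i
    refine push_mem_Z (U := Set.univ) (Set.mapsTo_univ _ _) (A := Loc.offBox n) ?_
      (Loc.stdCh_mem_offBox n)
    intro v hv hv2
    rw [Set.mem_iUnion] at hv2
    obtain ⟨j, w, hw, hwv⟩ := hv2
    by_cases hij : i = j
    · subst hij
      have := (he i).injective hwv
      subst this
      exact Loc.offBox_subset (K := bx n) (fun x hx => bx_lt hx) hv hw
    · exact hdis i j hij v w hwv.symm
  refine Pool.Agent.TCH.van_top hX ?_ ?_ ?_
  · exact isCompact_iUnion fun i => (bx_compact n).image (e i).continuous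
  · refine Submodule.sub_mem _ (Z_mono subset_rfl (Set.empty_subset _) hz) ?_
    exact Submodule.sum_mem _ fun i _ => Submodule.smul_mem _ _ (hcyc i)
  · intro x hx
    rw [Set.mem_iUnion] at hx
    obtain ⟨i, v, hv, rfl⟩ := hx
    rw [← Finset.add_sum_erase _ _ (Finset.mem_univ i), ← sub_sub]
    refine Bd.sub ?_ ?_
    · exact (hε i).mono subset_rfl (Set.compl_subset_compl.2
        (Set.singleton_subset_iff.2 (Set.mem_image_of_mem (e i) hv)))
    · refine Bd.of_mem_C (Submodule.sum_mem _ fun j hj => Submodule.smul_mem _ _ ?_)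
      refine push_mem_C (U := Set.univ) ?_ (Loc.stdCh_mem_offBox n).1
      intro w _ hw
      exact hdis i j (Finset.ne_of_mem_erase hj).symm v w hw.symm

end total

end DG4

open DG4 Topology in
/-- Modification of an equivariant map on the orbit of a free disc: the degree changes by a
multiple of `p`. (`D ≠ 0` gives that the degree of every group element on source and target is
the same, equal to its inverse as it is `± 1`.) -/
theorem modify {p : ℕ} [Fact p.Prime] {n : ℕ} (hn : 2 ≤ n) [MulAction (Cp p) (Sph n)]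
    (hX : GMan (Cp p) (Sph n) n) (hfree : ∃ (x : Sph n) (g : Cp p), g • x ≠ x)
    {ρ : Cp p →* (EuclideanSpace ℝ (Fin (n + 1)) ≃ₗᵢ[ℝ] EuclideanSpace ℝ (Fin (n + 1)))}
    {z : Ch ℤ (Sph n)} (hz : FCyc n z) (Φ : C(Sph n, LinSphere ρ)) (hΦ : Equi (Cp p) Φ) {D : ℤ}
    (hD : Dg z (und Φ) D) (hD0 : D ≠ 0) (m : ℤ) :
    ∃ Φ' : C(Sph n, LinSphere ρ), Equi (Cp p) Φ' ∧
      (∀ x : Fx (Cp p) (Sph n), Φ' (x : Sph n) = Φ (x : Sph n)) ∧
        Dg z (und Φ') (D + p * m) := by
  classical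
  obtain ⟨x, g0, h0⟩ := hfree
  have hfr := free_of_prime h0
  have hc : ∀ g : Cp p, Continuous (fun x : Sph n => g • x) := hX.cont
  have hY : ∀ g : Cp p, Continuous (fun y : LinSphere ρ => g • y) := (gman_linSphere ρ).cont
  obtain ⟨ψ, hψ, hψ0, hdis⟩ := exists_free_chart hc hX.loc hfr
  let γ : Cp p → C(Sph n, Sph n) := fun g => ⟨fun x => g • x, hc g⟩
  let η0 : Cp p → C(LinSphere ρ, LinSphere ρ) := fun g => ⟨fun y => g • y, hY g⟩
  let η : Cp p → C(Sph n, Sph n) := fun g => η0 g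
  have hγ : ∀ g, Function.Injective (γ g) := fun g => MulAction.injective g
  let e : Cp p → C(Fin n → ℝ, Sph n) := fun g => (γ g).comp ψ
  have he : ∀ g, IsOpenEmbedding (e g) := by
    intro g
    have : IsOpenEmbedding (fun x : Sph n => g • x) :=
      (Homeomorph.mk (MulAction.toPerm g) (hc g) (hc g⁻¹)).isOpenEmbedding
    exact this.comp hψ
  have hedis : ∀ g g' : Cp p, g ≠ g' → ∀ v w, e g v ≠ e g' w := by
    intro g g' hgg v w hvw
    change g • ψ v = g' • ψ w at hvw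
    refine hdis (g'⁻¹ * g) (fun h => hgg ?_) v w ?_
    · rwa [inv_mul_eq_one, eq_comm] at h
    · rw [mul_smul, hvw, inv_smul_smul]
  -- signs
  obtain ⟨ε0, hε0⟩ := exists_sign ψ hψ hz.mem
  choose ε hε using fun g => exists_sign (e g) (he g) hz.mem
  obtain ⟨r, hr⟩ := sign_unit ψ hψ hz.loc hε0
  -- degrees of the group elements
  have hdeg : ∀ g, ∃ d, Dg z (γ g) d ∧ Dg z (η g) d := by
    intro g
    obtain ⟨d, hd⟩ := exists_dg hz (γ g)
    obtain ⟨d', hd'⟩ := exists_dg hz (η g)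
    have h1 : Dg z ((und Φ).comp (γ g)) (D * d) := dg_comp hz hD hd
    have h2 : Dg z ((η g).comp (und Φ)) (d' * D) := dg_comp hz hd' hD
    have h3 : (und Φ).comp (γ g) = (η g).comp (und Φ) := by
      ext1 y
      exact hΦ g y
    rw [h3] at h1
    have h4 := dg_unique hz h1 h2
    have h5 : d = d' := mul_left_cancel₀ hD0 (by linarith)
    exact ⟨d, hd, h5 ▸ hd'⟩
  choose d hd hd' using hdeg
  have hsign : ∀ g, d g * ε g = ε0 := fun g =>
    sign_push ψ (γ g) (hγ g) (he g) (hd g) hε0 (hε g)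
  -- the maps
  obtain ⟨F, hF1, hF2, hF3, hF4⟩ := stretch hc hY ψ hψ hdis Φ hΦ
  let Φ1 : C(Sph n, LinSphere ρ) := atTime F 1
  have hΦ1 : ∀ (g : Cp p) x, Φ1 (g • x) = g • Φ1 x := fun g x => hF1 g 1 x
  obtain ⟨α, hα1, hα2⟩ := exists_loop hn hz (Φ (ψ 0) : Sph n) (r * m)
  let α' : C(Fin n → I, LinSphere ρ) := ⟨fun v => (α v : Sph n), α.continuous⟩
  have hΦ1c : ∀ (g : Cp p) v, ‖v‖ ≤ 1 → Φ1 (g • ψ v) = g • Φ (ψ 0) := hF3
  obtain ⟨Φ2, h, h1, h2, h3, h4⟩ := insert_loop hc hY ψ hψ hdis Φ1 hΦ1 (y := Φ (ψ 0))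
    (fun v hv => by
      have := hΦ1c 1 v hv
      rwa [one_smul, one_smul] at this) α' hα1
  have hfix : ∀ x : Sph n, (∀ g : Cp p, g • x = x) → ∀ (g : Cp p) v, x ≠ g • ψ v := by
    intro x hx g v hxv
    have h5 : ψ v = x := by rw [← inv_smul_smul g (ψ v), ← hxv]; exact hx _
    have hg0 : g0 ≠ 1 := by
      rintro rfl
      exact h0 (one_smul _ _)
    exact hdis g0 hg0 v v (by rw [h5]; exact hx g0)
  refine ⟨Φ2, h1, ?_, ?_⟩
  · intro x
    rw [h4 x fun g v _ => hfix x x.2 g v]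
    exact hF4 1 x (hfix x x.2)
  · -- the degree
    have hn1 : 1 ≤ n := by omega
    have hpc := pieces hX.loc hz.mem e he hedis ε hε
    have hagree : ∀ x ∈ (⋃ g, e g '' bx n)ᶜ, und Φ2 x = und Φ1 x := by
      intro x hx
      refine h4 x fun g v hv hxv => hx ?_
      rw [Set.mem_iUnion]
      exact ⟨g, v, hv, hxv.symm⟩
    have hdiff := diff_bd hagree hpc
    -- the constant pieces
    have hc1 : Bd ℤ (n : ℤ) Set.univ ∅
        (push (und Φ1) (∑ g, ε g • push (e g) (stdCh ℤ n))) := by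
      rw [map_sum]
      have : ∀ s : Finset (Cp p), Bd ℤ (n : ℤ) Set.univ ∅
          (∑ g ∈ s, push (und Φ1) (ε g • push (e g) (stdCh ℤ n))) := by
        intro s
        induction s using Finset.induction_on with
        | empty => rw [Finset.sum_empty]; exact Bd.zero _ _ _
        | insert g s hg ih =>
          rw [Finset.sum_insert hg, map_smul, push_push]
          refine Bd.add (Bd.smul _ (push_const hn1 (y := (g • Φ (ψ 0) : LinSphere ρ)) ?_)) ih
          intro v hv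
          exact hΦ1c g v hv
      exact this Finset.univ
    -- the loops
    have hc2 : ∀ g, Bd ℤ (n : ℤ) Set.univ ∅
        (push (und Φ2) (push (e g) (stdCh ℤ n)) - (r * m * d g) • z) := by
      intro g
      let h' : C(Fin n → ℝ, Sph n) := ⟨fun v => (h v : LinSphere ρ), h.continuous⟩
      have e1 : (und Φ2).comp (e g) = (η g).comp h' := by
        ext1 v
        exact h2 g v
      rw [push_push, e1, ← push_push]
      have e2 := push_loop hn1 (α := α) (y := (Φ (ψ 0) : Sph n)) hα1 (h := h') h3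
      have e3 := (e2.sub_comm.trans hα2).push (f := η g) (V := Set.univ) (A' := ∅)
        (Set.mapsTo_univ _ _) (Set.mapsTo_empty _ _)
      rw [map_sub, map_smul] at e3
      have e4 := (hd' g).smul (r * m)
      have e5 := e3.add e4
      convert e5 using 1
      rw [smul_sub, smul_smul]
      abel
    have hc3 : Bd ℤ (n : ℤ) Set.univ ∅
        (push (und Φ2) (∑ g, ε g • push (e g) (stdCh ℤ n)) - (p * m) • z) := by
      have e1 : ∀ s : Finset (Cp p), Bd ℤ (n : ℤ) Set.univ ∅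
          (∑ g ∈ s, (ε g • (push (und Φ2) (push (e g) (stdCh ℤ n)) - (r * m * d g) • z))) := by
        intro s
        induction s using Finset.induction_on with
        | empty => rw [Finset.sum_empty]; exact Bd.zero _ _ _
        | insert g s hg ih =>
          rw [Finset.sum_insert hg]
          exact Bd.add (Bd.smul _ (hc2 g)) ih
      convert e1 Finset.univ using 1
      have e2 : ∀ g, ε g • (push (und Φ2) (push (e g) (stdCh ℤ n)) - (r * m * d g) • z) =
          push (und Φ2) (ε g • push (e g) (stdCh ℤ n)) - m • z := by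
        intro g
        rw [smul_sub, smul_smul, map_smul]
        congr 2
        have := hsign g
        calc ε g * (r * m * d g) = r * (d g * ε g) * m := by ring
          _ = m := by rw [this, hr, one_mul]
      rw [Finset.sum_congr rfl fun g _ => e2 g, Finset.sum_sub_distrib, map_sum, Finset.sum_const,
        Finset.card_univ, Fintype.card_multiplicative, ZMod.card, ← Nat.cast_smul_eq_nsmul ℤ,
        smul_smul]
    have hc4 : Dg z (und Φ1) D := by
      refine dg_homotopic hz hD ⟨?_⟩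
      exact
        { toFun := fun q => (F q : LinSphere ρ)
          continuous_toFun := F.continuous
          map_zero_left := fun x => hF2 x
          map_one_left := fun x => rfl }
    have hall := (((hdiff.add hc3).sub hc1).add hc4)
    change Bd ℤ (n : ℤ) Set.univ ∅ (push (und Φ2) z - (D + p * m) • z)
    convert hall using 1
    rw [add_smul]
    abel

end Pool.Agent.TC
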