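import Pool.Agent.Lib.TC.Halo

/-!
# Section 13.3: equivariant homotopy equivalences (Dold)
-/

namespace Pool.Agent.TC

open Set
open scoped unitInterval

/-- `f` is a homotopy equivalence. -/
def IsHE {X Y : Type} [TopologicalSpace X] [TopologicalSpace Y] (f : C(X, Y)) : Prop :=
  ∃ h : C(Y, X), (h.comp f).Homotopic (ContinuousMap.id X) ∧
    (f.comp h).Homotopic (ContinuousMap.id Y)

/-- The space of the path fibration of `f`. -/
abbrev PFib {X Y : Type} [TopologicalSpace X] [TopologicalSpace Y] (f : C(X, Y)) : Type :=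
  {q : X × C(I, Y) // q.2 0 = f q.1}

namespace DoldA

variable {X Y : Type} [TopologicalSpace X] [TopologicalSpace Y] {f : C(X, Y)} {h : C(Y, X)}

/-- The clamp. -/
noncomputable def pr (t : ℝ) : I := projIcc 0 1 zero_le_one t

theorem continuous_pr : Continuous pr := continuous_projIcc (h := zero_le_one)

theorem pr_of_le {t : ℝ} (ht : t ≤ 0) : pr t = 0 := projIcc_of_le_left zero_le_one ht

theorem pr_of_ge {t : ℝ} (ht : 1 ≤ t) : pr t = 1 := projIcc_of_right_le zero_le_one ht

theorem pr_coe (t : I) : pr (t : ℝ) = t := projIcc_val zero_le_one t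

variable (L : (h.comp f).Homotopy (ContinuousMap.id X))
  (K : (f.comp h).Homotopy (ContinuousMap.id Y))

/-- The path `β` of a point of the path fibration. -/
noncomputable def b (t : ℝ) (e : PFib f) : Y :=
  if t ≤ 1 then e.1.2 (pr (1 - t)) else if t ≤ 2 then f (L (pr (2 - t), e.1.1))
    else K (pr (t - 2), f e.1.1)

theorem L0 (x : X) : L (0, x) = h (f x) := L.apply_zero x

theorem L1 (x : X) : L (1, x) = x := L.apply_one x

theorem K0 (y : Y) : K (0, y) = f (h y) := K.apply_zero y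

theorem K1 (y : Y) : K (1, y) = y := K.apply_one y

theorem continuous_b : Continuous fun q : ℝ × PFib f => b L K q.1 q.2 := by
  unfold b
  have c1 : Continuous fun q : ℝ × PFib f => q.2.1.2 (pr (1 - q.1)) := by
    have h1 : Continuous fun q : ℝ × PFib f => pr (1 - q.1) :=
      continuous_pr.comp (by fun_prop)
    exact Continuous.eval (by fun_prop) h1
  have c2 : Continuous fun q : ℝ × PFib f => f (L (pr (2 - q.1), q.2.1.1)) := by
    have h1 : Continuous fun q : ℝ × PFib f => pr (2 - q.1) :=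
      continuous_pr.comp (by fun_prop)
    have h2 : Continuous fun q : ℝ × PFib f => (pr (2 - q.1), q.2.1.1) :=
      h1.prodMk (by fun_prop)
    exact f.continuous.comp (L.continuous.comp h2)
  have c3 : Continuous fun q : ℝ × PFib f => K (pr (q.1 - 2), f q.2.1.1) := by
    have h1 : Continuous fun q : ℝ × PFib f => pr (q.1 - 2) :=
      continuous_pr.comp (by fun_prop)
    have h2 : Continuous fun q : ℝ × PFib f => (pr (q.1 - 2), f q.2.1.1) :=
      h1.prodMk (by fun_prop)
    exact K.continuous.comp h2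
  refine Continuous.if_le c1 (Continuous.if_le c2 c3 continuous_fst continuous_const ?_)
    continuous_fst continuous_const ?_
  · rintro ⟨t, e⟩ (ht : t = 2)
    subst ht
    change f (L (pr (2 - 2), e.1.1)) = K (pr (2 - 2), f e.1.1)
    rw [sub_self, pr_of_le le_rfl, L0, K0]
  · rintro ⟨t, e⟩ (ht : t = 1)
    subst ht
    change e.1.2 (pr (1 - 1)) = if (1 : ℝ) ≤ 2 then f (L (pr (2 - 1), e.1.1)) else _
    rw [sub_self, pr_of_le le_rfl, if_pos (by norm_num), pr_of_ge (by norm_num), L1]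
    exact e.2

theorem b_zero (e : PFib f) : b L K 0 e = e.1.2 1 := by
  unfold b
  rw [if_pos zero_le_one, pr_of_ge (by norm_num)]

theorem b_low {t : ℝ} (ht : t ≤ 1) (e : PFib f) : b L K t e = e.1.2 (pr (1 - t)) := by
  unfold b
  rw [if_pos ht]

theorem b_mid {t : ℝ} (h1 : 1 ≤ t) (h2 : t ≤ 2) (e : PFib f) :
    b L K t e = f (L (pr (2 - t), e.1.1)) := by
  rcases h1.eq_or_lt with h3 | h3
  · subst h3
    rw [b_low L K le_rfl, sub_self, pr_of_le le_rfl, pr_of_ge (by norm_num), L1]
    exact e.2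
  · unfold b
    rw [if_neg (not_le.mpr h3), if_pos h2]

theorem b_high {t : ℝ} (h2 : 2 ≤ t) (e : PFib f) : b L K t e = K (pr (t - 2), f e.1.1) := by
  rcases h2.eq_or_lt with h3 | h3
  · subst h3
    rw [b_mid L K (by norm_num) le_rfl, sub_self, pr_of_le le_rfl, L0, K0]
  · unfold b
    rw [if_neg (by linarith), if_neg (not_le.mpr h3)]

/-- The argument of `β` in the first half. -/
noncomputable def a (t u : ℝ) : ℝ :=
  max 1 (min 2 t) + min u 1 * (t - max 1 (min 2 t)) - max (u - 1) 0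

theorem continuous_a : Continuous fun q : ℝ × ℝ => a q.1 q.2 := by
  unfold a
  fun_prop

/-- The point of `X` of the deformation. -/
noncomputable def F1 (q : I × PFib f) : X :=
  if (q.1 : ℝ) ≤ 1 / 2 then L (pr (2 - 6 * (q.1 : ℝ)), q.2.1.1) else h (b L K (6 - 6 * (q.1 : ℝ)) q.2)

/-- The path of the deformation. -/
noncomputable def F2 (q : (I × PFib f) × I) : Y :=
  if (q.1.1 : ℝ) ≤ 1 / 2 then b L K (a (6 * (q.1.1 : ℝ)) ((q.2 : ℝ) * (1 + 6 * (q.1.1 : ℝ)))) q.1.2
    else K (pr (min ((q.2 : ℝ) * (1 + (6 - 6 * (q.1.1 : ℝ)))) 1),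
      b L K ((6 - 6 * (q.1.1 : ℝ)) - max ((q.2 : ℝ) * (1 + (6 - 6 * (q.1.1 : ℝ))) - 1) 0) q.1.2)

theorem continuous_F1 : Continuous (F1 L K) := by
  unfold F1
  have c1 : Continuous fun q : I × PFib f => L (pr (2 - 6 * (q.1 : ℝ)), q.2.1.1) := by
    have h1 : Continuous fun q : I × PFib f => pr (2 - 6 * (q.1 : ℝ)) :=
      continuous_pr.comp (by fun_prop)
    exact L.continuous.comp (h1.prodMk (by fun_prop))
  have c2 : Continuous fun q : I × PFib f => h (b L K (6 - 6 * (q.1 : ℝ)) q.2) := by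
    have h1 : Continuous fun q : I × PFib f => ((6 - 6 * (q.1 : ℝ) : ℝ), q.2) := by fun_prop
    exact h.continuous.comp ((continuous_b L K).comp h1)
  refine Continuous.if_le c1 c2 (by fun_prop) continuous_const ?_
  rintro ⟨t, e⟩ (ht : (t : ℝ) = 1 / 2)
  change L (pr (2 - 6 * t), e.1.1) = h (b L K (6 - 6 * t) e)
  rw [ht, b_high L K (by norm_num), pr_of_le (by norm_num), pr_of_ge (by norm_num), L0, K1]

theorem continuous_F2 : Continuous (F2 L K) := by
  unfold F2
  have c1 : Continuous fun q : (I × PFib f) × I =>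
      b L K (a (6 * (q.1.1 : ℝ)) ((q.2 : ℝ) * (1 + 6 * (q.1.1 : ℝ)))) q.1.2 := by
    have h1 : Continuous fun q : (I × PFib f) × I =>
        ((6 * (q.1.1 : ℝ) : ℝ), ((q.2 : ℝ) * (1 + 6 * (q.1.1 : ℝ)) : ℝ)) := by fun_prop
    exact (continuous_b L K).comp ((continuous_a.comp h1).prodMk (by fun_prop))
  have c2 : Continuous fun q : (I × PFib f) × I =>
      K (pr (min ((q.2 : ℝ) * (1 + (6 - 6 * (q.1.1 : ℝ)))) 1),
        b L K ((6 - 6 * (q.1.1 : ℝ)) - max ((q.2 : ℝ) * (1 + (6 - 6 * (q.1.1 : ℝ))) - 1) 0) q.1.2) := by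
    have h1 : Continuous fun q : (I × PFib f) × I =>
        pr (min ((q.2 : ℝ) * (1 + (6 - 6 * (q.1.1 : ℝ)))) 1) := continuous_pr.comp (by fun_prop)
    have h2 : Continuous fun q : (I × PFib f) × I =>
        (((6 - 6 * (q.1.1 : ℝ)) - max ((q.2 : ℝ) * (1 + (6 - 6 * (q.1.1 : ℝ))) - 1) 0 : ℝ), q.1.2) := by fun_prop
    exact K.continuous.comp (h1.prodMk ((continuous_b L K).comp h2))
  refine Continuous.if_le c1 c2 (by fun_prop) continuous_const ?_
  rintro ⟨⟨t, e⟩, τ⟩ (ht : (t : ℝ) = 1 / 2)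
  change b L K (a (6 * (t : ℝ)) ((τ : ℝ) * (1 + 6 * (t : ℝ)))) e =
    K (pr (min ((τ : ℝ) * (1 + (6 - 6 * (t : ℝ)))) 1),
      b L K ((6 - 6 * (t : ℝ)) - max ((τ : ℝ) * (1 + (6 - 6 * (t : ℝ))) - 1) 0) e)
  rw [ht]
  have hτ0 := τ.2.1
  have hτ1 := τ.2.2
  have e1 : (τ : ℝ) * (1 + 6 * (1 / 2)) = 4 * τ := by ring
  have e2 : (τ : ℝ) * (1 + (6 - 6 * (1 / 2))) = 4 * τ := by ring
  rw [e1, e2]
  have hm : max (1 : ℝ) (min 2 (6 * (1 / 2))) = 2 := by norm_num
  unfold a
  rw [hm]
  rcases le_total (4 * (τ : ℝ)) 1 with h1 | h1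
  · rw [min_eq_left h1, max_eq_right (by linarith)]
    rw [b_high L K (by linarith), b_high L K (by norm_num)]
    have e3 : (2 : ℝ) + 4 * τ * (6 * (1 / 2) - 2) - 0 - 2 = 4 * τ := by ring
    have e4 : (6 : ℝ) - 6 * (1 / 2) - 0 - 2 = 1 := by norm_num
    rw [e3, e4, pr_of_ge le_rfl, K1]
  · rw [min_eq_right h1, max_eq_left (by linarith), pr_of_ge le_rfl, K1]
    congr 1
    ring

theorem F2_one (q : I × PFib f) : F2 L K (q, 1) = q.2.1.2 1 := by
  unfold F2
  obtain ⟨t, e⟩ := q
  have ht0 := t.2.1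
  have ht1 := t.2.2
  simp only [Icc.coe_one, one_mul]
  split_ifs with h1
  · have e1 : a (6 * t) (1 + 6 * t) = 0 := by
      unfold a
      rw [min_eq_right (by linarith : (1 : ℝ) ≤ 1 + 6 * t),
        max_eq_left (by linarith : (0 : ℝ) ≤ 1 + 6 * t - 1)]
      ring
    rw [e1, b_zero]
  · have e1 : (6 - 6 * (t : ℝ)) - max (1 + (6 - 6 * (t : ℝ)) - 1) 0 = 0 := by
      rw [max_eq_left (by linarith)]
      ring
    rw [e1, b_zero, min_eq_right (by linarith), pr_of_ge le_rfl, K1]

theorem F2_zero (q : I × PFib f) : F2 L K (q, 0) = f (F1 L K q) := by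
  unfold F2 F1
  obtain ⟨t, e⟩ := q
  simp only [Icc.coe_zero, zero_mul]
  split_ifs with h1
  · have e1 : a (6 * t) 0 = max 1 (min 2 (6 * (t : ℝ))) := by
      unfold a
      rw [min_eq_left (by norm_num : (0 : ℝ) ≤ 1), max_eq_right (by norm_num : (0 : ℝ) - 1 ≤ 0)]
      ring
    rw [e1, b_mid L K (le_max_left _ _) (max_le (by norm_num) (min_le_left _ _))]
    congr 3
    rcases le_total (6 * (t : ℝ)) 1 with h2 | h2
    · rw [min_eq_right (by linarith), max_eq_left h2, pr_of_ge (by norm_num),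
        pr_of_ge (by linarith)]
    · rcases le_total (6 * (t : ℝ)) 2 with h3 | h3
      · rw [min_eq_right h3, max_eq_right h2]
      · rw [min_eq_left h3, max_eq_right (by norm_num), pr_of_le (by norm_num),
          pr_of_le (by linarith)]
  · rw [min_eq_left (by norm_num : (0 : ℝ) ≤ 1), max_eq_right (by norm_num : (0 : ℝ) - 1 ≤ 0),
      sub_zero, pr_of_le le_rfl, K0]

theorem F1_start (e : PFib f) : F1 L K (0, e) = e.1.1 := by
  unfold F1
  simp only [Icc.coe_zero, mul_zero, sub_zero]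
  rw [if_pos (by norm_num), pr_of_ge (by norm_num), L1]

theorem F2_start (e : PFib f) (τ : I) : F2 L K ((0, e), τ) = e.1.2 τ := by
  unfold F2
  simp only [Icc.coe_zero, mul_zero, add_zero, mul_one]
  rw [if_pos (by norm_num)]
  have hτ0 := τ.2.1
  have hτ1 := τ.2.2
  have e1 : a 0 τ = 1 - τ := by
    unfold a
    rw [min_eq_right (by norm_num : (0 : ℝ) ≤ 2), max_eq_left (by norm_num : (0 : ℝ) ≤ 1),
      min_eq_left hτ1, max_eq_right (by linarith)]
    ring
  rw [e1, b_low L K (by linarith), sub_sub_cancel, pr_coe]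

theorem F1_end (e : PFib f) : F1 L K (1, e) = h (e.1.2 1) := by
  unfold F1
  simp only [Icc.coe_one, mul_one, sub_self]
  rw [if_neg (by norm_num), b_zero]

theorem F2_end (e : PFib f) (τ : I) : F2 L K ((1, e), τ) = K (τ, e.1.2 1) := by
  unfold F2
  simp only [Icc.coe_one, mul_one, sub_self, add_zero]
  rw [if_neg (by norm_num)]
  have hτ0 := τ.2.1
  have hτ1 := τ.2.2
  rw [min_eq_left hτ1, max_eq_right (by linarith), sub_self, b_zero, pr_coe]

end DoldA

open DoldA

/-- The path fibration of a homotopy equivalence is shrinkable: it has a section, and the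
section followed by the projection is homotopic to the identity over the base. -/
theorem shrinkable {X Y : Type} [TopologicalSpace X] [TopologicalSpace Y] (f : C(X, Y))
    (hf : IsHE f) :
    ∃ (s : C(Y, PFib f)) (D : C(I × PFib f, PFib f)), (∀ y, (s y).1.2 1 = y) ∧
      (∀ e, D (0, e) = e) ∧ (∀ e, D (1, e) = s (e.1.2 1)) ∧
      ∀ t e, (D (t, e)).1.2 1 = e.1.2 1 := by
  obtain ⟨h, ⟨L⟩, ⟨K⟩⟩ := hf
  have hKc : Continuous fun q : Y × I => K (q.2, q.1) :=
    K.continuous.comp (by fun_prop)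
  obtain ⟨Kc, hK⟩ : ∃ Kc : C(Y, C(I, Y)), Kc = ContinuousMap.curry ⟨_, hKc⟩ := ⟨_, rfl⟩
  have hKa : ∀ y τ, Kc y τ = K (τ, y) := by
    intro y τ
    rw [hK]
    rfl
  obtain ⟨F, hF⟩ : ∃ F : C(I × PFib f, C(I, Y)), F = ContinuousMap.curry
      ⟨F2 L K, continuous_F2 L K⟩ := ⟨_, rfl⟩
  have hFa : ∀ q τ, F q τ = F2 L K (q, τ) := by
    intro q τ
    rw [hF]
    rfl
  refine ⟨⟨fun y => ⟨(h y, Kc y), by rw [hKa, K0]⟩, by fun_prop⟩,
    ⟨fun q => ⟨(F1 L K q, F q), by rw [hFa, F2_zero]⟩, ?_⟩, ?_, ?_, ?_, ?_⟩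
  · exact Continuous.subtype_mk ((continuous_F1 L K).prodMk F.continuous) _
  · intro y
    exact (hKa y 1).trans (K1 K y)
  · intro e
    apply Subtype.ext
    refine Prod.ext (F1_start L K e) ?_
    ext τ
    exact (hFa _ _).trans (F2_start L K e τ)
  · intro e
    apply Subtype.ext
    refine Prod.ext (F1_end L K e) ?_
    ext τ
    exact ((hFa _ _).trans (F2_end L K e τ)).trans (hKa _ _).symm
  · intro t e
    exact (hFa _ _).trans (F2_one L K (t, e))

end Pool.Agent.TC

namespace Pool.Agent.TC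

/-- The map induced on the fixed point sets. -/
def fixMap {G X Y : Type} [Group G] [TopologicalSpace X] [TopologicalSpace Y] [MulAction G X]
    [MulAction G Y] (f : C(X, Y)) (hf : Equi G f) : C(Fx G X, Fx G Y) where
  toFun x := ⟨f x, fun g => by rw [← hf g, x.2 g]⟩
  continuous_toFun := by fun_prop

end Pool.Agent.TC

namespace Pool.Agent.TC.DoldB

open Set
open scoped unitInterval Topology

variable {G X Y : Type} [Group G] [TopologicalSpace X] [TopologicalSpace Y] [MulAction G X]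
  [MulAction G Y]

/-- action on the path fibration -/
noncomputable def gact (hY : ∀ g : G, Continuous (fun y : Y => g • y)) (f : C(X, Y)) (hf : Equi G f) (g : G)
    (q : PFib f) : PFib f :=
  ⟨(g • q.1.1, (ContinuousMap.mk (fun y : Y => g • y) (hY g)).comp q.1.2), by
    change g • q.1.2 0 = f (g • q.1.1)
    rw [hf g, q.2]⟩

section

variable {hY : ∀ g : G, Continuous (fun y : Y => g • y)} {f : C(X, Y)} {hf : Equi G f}

lemma continuous_gact (hX : ∀ g : G, Continuous (fun x : X => g • x)) (g : G) : Continuous (gact hY f hf g) := by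
  refine Continuous.subtype_mk (Continuous.prodMk ?_ ?_) _
  · exact (hX g).comp (continuous_fst.comp continuous_subtype_val)
  · exact (ContinuousMap.continuous_postcomp _).comp (continuous_snd.comp continuous_subtype_val)

lemma gact_one (q : PFib f) : gact hY f hf 1 q = q := by
  apply Subtype.ext
  refine Prod.ext ?_ ?_
  · exact one_smul G _
  · ext t
    exact one_smul G _

lemma gact_mul (g g' : G) (q : PFib f) :
    gact hY f hf (g * g') q = gact hY f hf g (gact hY f hf g' q) := by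
  apply Subtype.ext
  refine Prod.ext ?_ ?_
  · exact mul_smul g g' _
  · ext t
    exact mul_smul g g' _

lemma gact_end (g : G) (q : PFib f) : (gact hY f hf g q).1.2 1 = g • q.1.2 1 := rfl

end

variable (hY : ∀ g : G, Continuous (fun y : Y => g • y)) (f : C(X, Y)) (hf : Equi G f)

/-- There is an equivariant section over an open invariant neighbourhood of `L`. -/
def Sec (L : Set Y) : Prop :=
  ∃ U : Set Y, IsOpen U ∧ (∀ (g : G), ∀ y ∈ U, g • y ∈ U) ∧ L ⊆ U ∧
    ∃ w : Y → PFib f, ContinuousOn w U ∧ ∀ y ∈ U, (w y).1.2 1 = y ∧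
      ∀ g : G, w (g • y) = gact hY f hf g (w y)

include hY in
/-- Urysohn in a normal space with an invariant neighbourhood. -/
lemma exists_inv_nhd [Finite G] [NormalSpace Y] {L U : Set Y} (hL : IsClosed L)
    (hLi : ∀ (g : G), ∀ y ∈ L, g • y ∈ L) (hU : IsOpen U) (hLU : L ⊆ U) :
    ∃ V : Set Y, IsOpen V ∧ (∀ (g : G), ∀ y ∈ V, g • y ∈ V) ∧ L ⊆ V ∧ closure V ⊆ U := by
  obtain ⟨V₀, hV₀, hLV, hVU⟩ := normal_exists_closure_subset hL hU hLU
  refine ⟨⋂ g : G, (fun y : Y => g • y) ⁻¹' V₀, isOpen_iInter_of_finite fun g =>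
    hV₀.preimage (hY g), ?_, ?_, ?_⟩
  · intro g y hy
    rw [mem_iInter] at hy ⊢
    intro g'
    have := hy (g' * g)
    rwa [mem_preimage, mul_smul] at this
  · intro y hy
    rw [mem_iInter]
    intro g
    exact hLV (hLi g y hy)
  · refine (closure_mono ?_).trans hVU
    intro y hy
    have := (mem_iInter.1 hy) 1
    rwa [mem_preimage, one_smul] at this

/-- One step of the extension. -/
lemma Sec.step (hX : ∀ g : G, Continuous (fun x : X => g • x)) [Finite G] [T2Space Y]
    [CompactSpace Y] {L : Set Y} (hL : IsClosed L)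
    (hLi : ∀ (g : G), ∀ y ∈ L, g • y ∈ L) (h : Sec hY f hf L) (h1 : IsHE f)
    {O : Set Y} (hO : IsOpen O) (hfree : ∀ (g : G), g ≠ 1 → ∀ y ∈ O, g • y ∉ O) :
    Sec hY f hf (L ∪ {y | ∃ g : G, g • y ∈ O}) := by
  classical
  obtain ⟨U, hU, hUi, hLU, w, hwc, hw⟩ := h
  obtain ⟨s, D, hs, hD0, hD1, hDe⟩ := shrinkable f h1
  obtain ⟨V, hV, hVi, hLV, hVU⟩ := exists_inv_nhd hY hL hLi hU hLU
  have hdis : Disjoint Uᶜ (closure V) := by
    rw [Set.disjoint_left]
    intro y hy hy'
    exact hy (hVU hy')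
  obtain ⟨lam, hl0, hl1, hl⟩ := exists_continuous_zero_one_of_isClosed hU.isClosed_compl
    isClosed_closure hdis
  -- the parameter
  have hpar : ∀ y : Y, 1 / 2 ≤ lam y → 2 - 2 * lam y ∈ I := fun y hy =>
    ⟨by linarith [(hl y).2], by linarith⟩
  set par : Y → I := fun y => Set.projIcc 0 1 zero_le_one (2 - 2 * lam y) with hpard
  have hparc : Continuous par := continuous_projIcc.comp (by fun_prop)
  set s' : Y → PFib f := fun y => if lam y ≤ 1 / 2 then s y else D (par y, w y) with hs'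
  have hsub : {y | 1 / 2 ≤ lam y} ⊆ U := by
    intro y hy
    by_contra hyU
    have h0 : lam y = 0 := hl0 hyU
    have : (1 : ℝ) / 2 ≤ lam y := hy
    rw [h0] at this
    norm_num at this
  have hs'c : Continuous s' := by
    refine continuous_if_le lam.continuous continuous_const s.continuous.continuousOn ?_ ?_
    · exact D.continuous.comp_continuousOn (hparc.continuousOn.prodMk (hwc.mono hsub))
    · intro y hy
      have hp : par y = 1 := by
        rw [hpard]
        simp only
        rw [hy, show (2 : ℝ) - 2 * (1 / 2) = 1 by norm_num, Set.projIcc_right]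
        rfl
      rw [hp, hD1, (hw y (hsub (by rw [mem_ofPred_eq, hy]))).1]
  have hs'e : ∀ y, (s' y).1.2 1 = y := by
    intro y
    rw [hs']
    simp only
    split_ifs with hy
    · exact hs y
    · rw [hDe]
      exact (hw y (hsub (le_of_lt (not_le.1 hy)))).1
  have hs'V : ∀ y ∈ V, s' y = w y := by
    intro y hy
    have h1 : lam y = 1 := hl1 (subset_closure hy)
    rw [hs']
    simp only
    rw [h1, if_neg (by norm_num)]
    have hp : par y = 0 := by
      rw [hpard]
      simp only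
      rw [h1, show (2 : ℝ) - 2 * 1 = 0 by norm_num, Set.projIcc_left]
      rfl
    rw [hp, hD0]
  -- the new section
  set GO : Set Y := {y | ∃ g : G, g • y ∈ O} with hGO
  have huniq : ∀ (g g' : G) (y : Y), g • y ∈ O → g' • y ∈ O → g = g' := by
    intro g g' y h h'
    by_contra hne
    have h2 : g' * g⁻¹ ≠ 1 := by
      intro h3
      exact hne (mul_inv_eq_one.1 h3).symm
    refine hfree _ h2 _ h ?_
    rwa [smul_smul, inv_mul_cancel_right]
  set τ : Y → PFib f := fun y => if h : ∃ g : G, g • y ∈ O then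
    gact hY f hf (h.choose)⁻¹ (s' (h.choose • y)) else w y with hτ
  have hτO : ∀ (g : G) (y : Y), g • y ∈ O → τ y = gact hY f hf g⁻¹ (s' (g • y)) := by
    intro g y hy
    have h : ∃ g : G, g • y ∈ O := ⟨g, hy⟩
    rw [hτ]
    simp only
    rw [dif_pos h, huniq _ _ _ h.choose_spec hy]
  have hτV : ∀ y ∈ V, τ y = w y := by
    intro y hy
    by_cases h : ∃ g : G, g • y ∈ O
    · obtain ⟨g, hg⟩ := h
      rw [hτO g y hg, hs'V _ (hVi g y hy), (hw y (hVU (subset_closure hy))).2 g, ← gact_mul,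
        inv_mul_cancel, gact_one]
    · rw [hτ]
      simp only
      rw [dif_neg h]
  have hGOo : IsOpen GO := by
    have : GO = ⋃ g : G, (fun y : Y => g • y) ⁻¹' O := by
      ext y
      simp [hGO]
    rw [this]
    exact isOpen_iUnion fun g => hO.preimage (hY g)
  have hGOi : ∀ (g : G), ∀ y ∈ GO, g • y ∈ GO := by
    rintro g y ⟨g', hg'⟩
    refine ⟨g' * g⁻¹, ?_⟩
    rwa [smul_smul, inv_mul_cancel_right]
  refine ⟨V ∪ GO, hV.union hGOo, ?_, ?_, τ, ?_, ?_⟩
  · rintro g y (hy | hy)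
    · exact Or.inl (hVi g y hy)
    · exact Or.inr (hGOi g y hy)
  · exact union_subset_union_left _ hLV
  · rintro y (hy | ⟨g, hg⟩)
    · refine ContinuousAt.continuousWithinAt ?_
      have h1 : ContinuousAt w y := hwc.continuousAt (hU.mem_nhds (hVU (subset_closure hy)))
      refine h1.congr ?_
      filter_upwards [hV.mem_nhds hy] with y' hy'
      exact (hτV y' hy').symm
    · refine ContinuousAt.continuousWithinAt ?_
      have h1 : ContinuousAt (fun y => gact hY f hf g⁻¹ (s' (g • y))) y :=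
        ((continuous_gact hX g⁻¹).comp (hs'c.comp (hY g))).continuousAt
      refine h1.congr ?_
      filter_upwards [(hO.preimage (hY g)).mem_nhds hg] with y' hy'
      exact (hτO g y' hy').symm
  · intro y hy
    by_cases h : ∃ g : G, g • y ∈ O
    · obtain ⟨g, hg⟩ := h
      constructor
      · rw [hτO g y hg, gact_end, hs'e, inv_smul_smul]
      · intro g'
        have h2 : (g * g'⁻¹) • g' • y ∈ O := by
          rwa [smul_smul, inv_mul_cancel_right]
        rw [hτO _ _ h2, hτO g y hg, ← gact_mul, smul_smul, inv_mul_cancel_right, mul_inv_rev,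
          inv_inv]
    · have hyV : y ∈ V := by
        rcases hy with hy | hy
        · exact hy
        · exact absurd hy h
      rw [hτV y hyV]
      refine ⟨(hw y (hVU (subset_closure hyV))).1, fun g' => ?_⟩
      rw [hτV _ (hVi g' y hyV)]
      exact (hw y (hVU (subset_closure hyV))).2 g'

/-- Restriction to a smaller set. -/
lemma Sec.mono {L L' : Set Y} (h : Sec hY f hf L) (hL : L' ⊆ L) : Sec hY f hf L' := by
  obtain ⟨U, h1, h2, h3, h4⟩ := h
  exact ⟨U, h1, h2, hL.trans h3, h4⟩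

/-- The section over the halo. -/
lemma Sec.start (H : Halo G Y) (h1 : IsHE f) (h2 : IsHE (fixMap f hf)) :
    Sec hY f hf H.N := by
  classical
  obtain ⟨s, -, -, -, -, -⟩ := shrinkable f h1
  obtain ⟨sG, -, hsG, -, -, -⟩ := shrinkable (fixMap f hf) h2
  set r0 : H.N → Fx G Y := fun y => ⟨H.r (0, y), H.zero y⟩ with hr0
  have hr0c : Continuous r0 :=
    Continuous.subtype_mk (H.r.continuous.comp (by fun_prop)) _
  -- the path
  have hl : Continuous fun q : H.N × I =>
      (((sG (r0 q.1)).1.2 (Set.projIcc 0 1 zero_le_one (2 * (q.2 : ℝ))) : Fx G Y) : Y) := by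
    refine continuous_subtype_val.comp ?_
    have e1 : Continuous fun q : H.N × I => (sG (r0 q.1)).1.2 :=
      continuous_snd.comp (continuous_subtype_val.comp (sG.continuous.comp
        (hr0c.comp continuous_fst)))
    exact e1.eval (continuous_projIcc.comp (by fun_prop))
  have hr : Continuous fun q : H.N × I =>
      H.r (Set.projIcc 0 1 zero_le_one (2 * (q.2 : ℝ) - 1), q.1) :=
    H.r.continuous.comp ((continuous_projIcc.comp (by fun_prop)).prodMk continuous_fst)
  set F : C(H.N × I, Y) := ⟨fun q => if (q.2 : ℝ) ≤ 1 / 2 then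
      (((sG (r0 q.1)).1.2 (Set.projIcc 0 1 zero_le_one (2 * (q.2 : ℝ))) : Fx G Y) : Y)
    else H.r (Set.projIcc 0 1 zero_le_one (2 * (q.2 : ℝ) - 1), q.1), by
      refine continuous_if_le (by fun_prop) continuous_const hl.continuousOn hr.continuousOn ?_
      rintro ⟨y, t⟩ ht
      simp only at ht
      simp only
      rw [ht, show (2 : ℝ) * (1 / 2) = 1 by norm_num, show (1 : ℝ) - 1 = 0 by norm_num,
        Set.projIcc_right, Set.projIcc_left]
      change (((sG (r0 y)).1.2 1 : Fx G Y) : Y) = H.r (0, y)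
      rw [hsG]⟩ with hF
  have hF0 : ∀ y : H.N, F.curry y 0 = f ((sG (r0 y)).1.1 : X) := by
    intro y
    change (if ((0 : I) : ℝ) ≤ 1 / 2 then _ else _) = _
    rw [if_pos (by norm_num)]
    have e : Set.projIcc (0 : ℝ) 1 zero_le_one (2 * ((0 : I) : ℝ)) = 0 := by
      rw [show (2 : ℝ) * ((0 : I) : ℝ) = 0 by simp, Set.projIcc_left]
      rfl
    rw [e, (sG (r0 y)).2]
    rfl
  have hF1 : ∀ y : H.N, F.curry y 1 = y := by
    intro y
    change (if ((1 : I) : ℝ) ≤ 1 / 2 then _ else _) = _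
    rw [if_neg (by norm_num)]
    have e : Set.projIcc (0 : ℝ) 1 zero_le_one (2 * ((1 : I) : ℝ) - 1) = 1 := by
      rw [show (2 : ℝ) * ((1 : I) : ℝ) - 1 = 1 by norm_num, Set.projIcc_right]
      rfl
    rw [e]
    exact H.one y
  set w0 : H.N → PFib f := fun y => ⟨(((sG (r0 y)).1.1 : X), F.curry y), hF0 y⟩ with hw0
  have hw0c : Continuous w0 := by
    refine Continuous.subtype_mk (Continuous.prodMk ?_ F.curry.continuous) _
    exact continuous_subtype_val.comp (continuous_fst.comp (continuous_subtype_val.comp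
      (sG.continuous.comp hr0c)))
  have hwg : ∀ (g : G) (y : H.N), w0 ⟨g • (y : Y), H.inv g y y.2⟩ = gact hY f hf g (w0 y) := by
    intro g y
    have hrg : r0 ⟨g • (y : Y), H.inv g y y.2⟩ = r0 y := by
      apply Subtype.ext
      change H.r (0, _) = H.r (0, y)
      rw [H.equi, H.zero]
    apply Subtype.ext
    refine Prod.ext ?_ ?_
    · change (((sG (r0 ⟨g • (y : Y), _⟩)).1.1 : Fx G X) : X) = g • (((sG (r0 y)).1.1 : Fx G X) : X)
      rw [hrg, ((sG (r0 y)).1.1).2 g]
    · ext t
      change F (⟨g • (y : Y), H.inv g y y.2⟩, t) = g • F (y, t)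
      rw [hF]
      simp only [ContinuousMap.coe_mk]
      by_cases ht : (t : ℝ) ≤ 1 / 2
      · rw [if_pos ht, if_pos ht, hrg]
        exact (((sG (r0 y)).1.2 _).2 g).symm
      · rw [if_neg ht, if_neg ht]
        exact H.equi g _ y
  refine ⟨H.N, H.openN, H.inv, subset_rfl, fun y => if h : y ∈ H.N then w0 ⟨y, h⟩ else s y,
    ?_, ?_⟩
  · rw [continuousOn_iff_continuous_domRestrict]
    refine hw0c.congr fun y => ?_
    rw [Set.domRestrict_apply, dif_pos y.2]
  · intro y hy
    refine ⟨?_, fun g => ?_⟩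
    · simp only
      rw [dif_pos hy]
      exact hF1 ⟨y, hy⟩
    · simp only
      rw [dif_pos hy, dif_pos (H.inv g y hy)]
      exact hwg g ⟨y, hy⟩

/-- The closed invariant sets. -/
def Ls (G : Type) [Group G] [MulAction G Y] {m : ℕ} (K : Option (Fin m) → Set Y)
    (s : Finset (Fin m)) : Set Y :=
  {y | (∃ g : G, g • y ∈ K none) ∨ ∃ i ∈ s, ∃ g : G, g • y ∈ K (some i)}

include hY in
lemma isClosed_orbit [Finite G] {K : Set Y} (hK : IsClosed K) :
    IsClosed {y | ∃ g : G, g • y ∈ K} := by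
  have : {y | ∃ g : G, g • y ∈ K} = ⋃ g : G, (fun y : Y => g • y) ⁻¹' K := by
    ext y
    simp
  rw [this]
  exact isClosed_iUnion_of_finite fun g => hK.preimage (hY g)

include hY in
lemma isClosed_Ls [Finite G] {m : ℕ} {K : Option (Fin m) → Set Y} (hK : ∀ o, IsClosed (K o))
    (s : Finset (Fin m)) : IsClosed (Ls G K s) := by
  have : Ls G K s = {y | ∃ g : G, g • y ∈ K none} ∪
      ⋃ i ∈ s, {y | ∃ g : G, g • y ∈ K (some i)} := by
    ext y
    simp [Ls]
  rw [this]
  exact (isClosed_orbit hY (hK none)).union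
    (s.finite_toSet.isClosed_biUnion fun i _ => isClosed_orbit hY (hK (some i)))

omit [TopologicalSpace Y] in
lemma orbit_inv {K : Set Y} (g : G) {y : Y} (h : ∃ g' : G, g' • y ∈ K) :
    ∃ g' : G, g' • g • y ∈ K := by
  obtain ⟨g', hg'⟩ := h
  exact ⟨g' * g⁻¹, by rwa [smul_smul, inv_mul_cancel_right]⟩

omit [TopologicalSpace Y] in
lemma Ls_inv {m : ℕ} (K : Option (Fin m) → Set Y) (s : Finset (Fin m)) (g : G) (y : Y)
    (h : y ∈ Ls G K s) : g • y ∈ Ls G K s := by
  rcases h with h | ⟨i, hi, h⟩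
  · exact Or.inl (orbit_inv g h)
  · exact Or.inr ⟨i, hi, orbit_inv g h⟩

end Pool.Agent.TC.DoldB

namespace Pool.Agent.TC

open Set DoldB
open scoped unitInterval

/-- Existence of a right inverse up to `G`-homotopy: extend a section of the path fibration from
the fixed point set over a halo and then over finitely many free open sets. -/
theorem exists_right_inverse {G X Y : Type} [Group G] [TopologicalSpace X]
    [TopologicalSpace Y] [MulAction G X] [MulAction G Y] [Finite G] [T2Space Y] [CompactSpace Y]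
    (hX : ∀ g : G, Continuous (fun x : X => g • x)) (hY : ∀ g : G, Continuous (fun y : Y => g • y))
    (H : Halo G Y) {m : ℕ} (O : Fin m → Set Y) (hO : ∀ i, IsOpen (O i))
    (hfree : ∀ i (g : G), g ≠ 1 → ∀ y ∈ O i, g • y ∉ O i)
    (hcov : ∀ y : Y, y ∈ H.N ∨ ∃ i, y ∈ O i)
    (f : C(X, Y)) (hf : Equi G f) (h1 : IsHE f) (h2 : IsHE (fixMap f hf)) :
    ∃ h : C(Y, X), Equi G h ∧ GHomotopic G (f.comp h) (ContinuousMap.id Y) := by
  classical
  obtain ⟨K, hKu, hKc, hKs⟩ := exists_iUnion_eq_closed_subset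
    (u := fun o : Option (Fin m) => o.elim H.N O)
    (fun o => by cases o with
      | none => exact H.openN
      | some i => exact hO i)
    (fun x => Set.toFinite _)
    (by
      refine eq_univ_of_forall fun y => ?_
      rw [mem_iUnion]
      rcases hcov y with h | ⟨i, h⟩
      · exact ⟨none, h⟩
      · exact ⟨some i, h⟩)
  have key : ∀ s : Finset (Fin m), Sec hY f hf (Ls G K s) := by
    intro s
    induction s using Finset.induction_on with
    | empty =>
      refine (Sec.start hY f hf H h1 h2).mono hY f hf ?_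
      rintro y (⟨g, hg⟩ | ⟨i, hi, -⟩)
      · have := H.inv g⁻¹ _ (hKs none hg)
        rwa [inv_smul_smul] at this
      · simp at hi
    | insert i s hi ih =>
      refine (Sec.step hY f hf hX (isClosed_Ls hY hKc s) (Ls_inv K s) ih h1 (hO i)
        (hfree i)).mono hY f hf ?_
      rintro y (h | ⟨j, hj, g, hg⟩)
      · exact Or.inl (Or.inl h)
      · rw [Finset.mem_insert] at hj
        rcases hj with rfl | hj
        · exact Or.inr ⟨g, hKs (some j) hg⟩
        · exact Or.inl (Or.inr ⟨j, hj, g, hg⟩)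
  obtain ⟨U, -, -, hU, w, hwc, hw⟩ := key Finset.univ
  have hall : ∀ y : Y, y ∈ U := by
    intro y
    apply hU
    have hy : y ∈ ⋃ o, K o := hKu ▸ mem_univ y
    obtain ⟨o, ho⟩ := mem_iUnion.1 hy
    cases o with
    | none => exact Or.inl ⟨1, by rwa [one_smul]⟩
    | some i => exact Or.inr ⟨i, Finset.mem_univ i, 1, by rwa [one_smul]⟩
  have hwc' : Continuous w := by
    have : U = univ := eq_univ_of_forall hall
    rwa [this, continuousOn_univ] at hwc
  refine ⟨⟨fun y => (w y).1.1, continuous_fst.comp (continuous_subtype_val.comp hwc')⟩, ?_,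
    ⟨fun q => (w q.2).1.2 q.1, ?_⟩, ?_, ?_, ?_⟩
  · intro g y
    change (w (g • y)).1.1 = g • (w y).1.1
    rw [(hw y (hall y)).2 g]
    rfl
  · have e1 : Continuous fun q : I × Y => (w q.2).1.2 :=
      continuous_snd.comp (continuous_subtype_val.comp (hwc'.comp continuous_snd))
    exact e1.eval continuous_fst
  · intro y
    exact (w y).2
  · intro y
    exact (hw y (hall y)).1
  · intro g t y
    change (w (g • y)).1.2 t = g • (w y).1.2 t
    rw [(hw y (hall y)).2 g]
    rfl

end Pool.Agent.TC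

namespace Pool.Agent.TC

open Set
open scoped unitInterval

namespace DoldCAux

theorem symm {G X Y : Type} [Group G] [TopologicalSpace X] [TopologicalSpace Y] [MulAction G X]
    [MulAction G Y] {f₀ f₁ : C(X, Y)} (h : GHomotopic G f₀ f₁) : GHomotopic G f₁ f₀ := by
  obtain ⟨H, h0, h1, he⟩ := h
  refine ⟨⟨fun z => H (unitInterval.symm z.1, z.2), by fun_prop⟩, fun x => ?_, fun x => ?_,
    fun g t x => ?_⟩
  · show H (unitInterval.symm 0, x) = f₁ x
    rw [unitInterval.symm_zero, h1]
  · show H (unitInterval.symm 1, x) = f₀ x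
    rw [unitInterval.symm_one, h0]
  · show H (unitInterval.symm t, g • x) = g • H (unitInterval.symm t, x)
    rw [he]

theorem trans {G X Y : Type} [Group G] [TopologicalSpace X] [TopologicalSpace Y] [MulAction G X]
    [MulAction G Y] {f₀ f₁ f₂ : C(X, Y)} (h : GHomotopic G f₀ f₁) (h' : GHomotopic G f₁ f₂) :
    GHomotopic G f₀ f₂ := by
  obtain ⟨H, h0, h1, he⟩ := h
  obtain ⟨H', h0', h1', he'⟩ := h'
  let K : ContinuousMap.Homotopy f₀ f₁ := ⟨H, h0, h1⟩
  let K' : ContinuousMap.Homotopy f₁ f₂ := ⟨H', h0', h1'⟩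
  refine ⟨(K.trans K').toContinuousMap, fun x => (K.trans K').apply_zero x,
    fun x => (K.trans K').apply_one x, fun g t x => ?_⟩
  show (K.trans K') (t, g • x) = g • (K.trans K') (t, x)
  rw [ContinuousMap.Homotopy.trans_apply, ContinuousMap.Homotopy.trans_apply]
  split_ifs with ht
  · exact he g _ x
  · exact he' g _ x

theorem comp_left {G X Y Z : Type} [Group G] [TopologicalSpace X] [TopologicalSpace Y]
    [TopologicalSpace Z] [MulAction G X] [MulAction G Y] [MulAction G Z] {f₀ f₁ : C(X, Y)}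
    (k : C(Y, Z)) (hk : Equi G k) (h : GHomotopic G f₀ f₁) :
    GHomotopic G (k.comp f₀) (k.comp f₁) := by
  obtain ⟨H, h0, h1, he⟩ := h
  refine ⟨k.comp H, fun x => ?_, fun x => ?_, fun g t x => ?_⟩
  · show k (H (0, x)) = k (f₀ x)
    rw [h0]
  · show k (H (1, x)) = k (f₁ x)
    rw [h1]
  · show k (H (t, g • x)) = g • k (H (t, x))
    rw [he, hk]

theorem comp_right {G X Y Z : Type} [Group G] [TopologicalSpace X] [TopologicalSpace Y]
    [TopologicalSpace Z] [MulAction G X] [MulAction G Y] [MulAction G Z] {f₀ f₁ : C(Y, Z)}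
    (k : C(X, Y)) (hk : Equi G k) (h : GHomotopic G f₀ f₁) :
    GHomotopic G (f₀.comp k) (f₁.comp k) := by
  obtain ⟨H, h0, h1, he⟩ := h
  refine ⟨⟨fun z => H (z.1, k z.2), by fun_prop⟩, fun x => ?_, fun x => ?_, fun g t x => ?_⟩
  · show H (0, k x) = f₀ (k x)
    rw [h0]
  · show H (1, k x) = f₁ (k x)
    rw [h1]
  · show H (t, k (g • x)) = g • H (t, k x)
    rw [hk, he]

theorem homotopic {G X Y : Type} [Group G] [TopologicalSpace X] [TopologicalSpace Y]
    [MulAction G X] [MulAction G Y] {f₀ f₁ : C(X, Y)} (h : GHomotopic G f₀ f₁) :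
    f₀.Homotopic f₁ := by
  obtain ⟨H, h0, h1, -⟩ := h
  exact ⟨⟨H, h0, h1⟩⟩

/-- A right inverse of a homotopy equivalence is a homotopy equivalence. -/
theorem isHE_right {X Y : Type} [TopologicalSpace X] [TopologicalSpace Y] {f : C(X, Y)}
    {h : C(Y, X)} (hf : IsHE f) (hh : (f.comp h).Homotopic (ContinuousMap.id Y)) : IsHE h := by
  obtain ⟨f', h1, h2⟩ := hf
  refine ⟨f, hh, ?_⟩
  have h3 : (f'.comp (f.comp h)).Homotopic (f'.comp (ContinuousMap.id Y)) :=
    (ContinuousMap.Homotopic.refl f').comp hh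
  have h4 : ((f'.comp f).comp h).Homotopic ((ContinuousMap.id X).comp h) :=
    h1.comp (ContinuousMap.Homotopic.refl h)
  have h5 : h.Homotopic f' := by
    have h6 : (f'.comp f).comp h = f'.comp (f.comp h) := rfl
    rw [h6] at h4
    exact h4.symm.trans h3
  exact (h5.comp (ContinuousMap.Homotopic.refl f)).trans h1

theorem homotopic_fix {G X Y : Type} [Group G] [TopologicalSpace X] [TopologicalSpace Y]
    [MulAction G X] [MulAction G Y] {f : C(X, Y)} {h : C(Y, X)} (hf : Equi G f) (hh : Equi G h)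
    (hfh : GHomotopic G (f.comp h) (ContinuousMap.id Y)) :
    ((fixMap f hf).comp (fixMap h hh)).Homotopic (ContinuousMap.id (Fx G Y)) := by
  obtain ⟨H, h0, h1, he⟩ := hfh
  refine ⟨⟨⟨fun z => ⟨H (z.1, z.2.1), fun g => ?_⟩, ?_⟩, fun x => ?_, fun x => ?_⟩⟩
  · rw [← he, z.2.2 g]
  · exact Continuous.subtype_mk (by fun_prop) _
  · apply Subtype.ext
    exact h0 x.1
  · apply Subtype.ext
    exact h1 x.1

end DoldCAux

open DoldCAux in
/-- Dold's theorem. -/
theorem dold {p : ℕ} [Fact p.Prime] {X Y : Type} [TopologicalSpace X] [TopologicalSpace Y]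
    [MulAction (Cp p) X] [MulAction (Cp p) Y] [T2Space X] [CompactSpace X] [T2Space Y]
    [CompactSpace Y] (hX : ∀ g : Cp p, Continuous (fun x : X => g • x))
    (hY : ∀ g : Cp p, Continuous (fun y : Y => g • y))
    (HX : Halo (Cp p) X) (HY : Halo (Cp p) Y) (f : C(X, Y)) (hf : Equi (Cp p) f)
    (h1 : IsHE f) (h2 : IsHE (fixMap f hf)) : GHEquiv (Cp p) X Y := by
  haveI : NeZero p := ⟨(Fact.out : p.Prime).ne_zero⟩
  haveI : Finite (Cp p) := inferInstanceAs (Finite (ZMod p))
  obtain ⟨m, O, hO, hfree, hcov⟩ := exists_free_cover hY HY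
  obtain ⟨h, hh, hfh⟩ := exists_right_inverse hX hY HY O hO hfree hcov f hf h1 h2
  have h3 : IsHE h := isHE_right h1 (homotopic hfh)
  have h4 : IsHE (fixMap h hh) := isHE_right h2 (homotopic_fix hf hh hfh)
  obtain ⟨m', O', hO', hfree', hcov'⟩ := exists_free_cover hX HX
  obtain ⟨k, hk, hhk⟩ := exists_right_inverse hY hX HX O' hO' hfree' hcov' h hh h3 h4
  refine ⟨f, h, hf, hh, ?_, hfh⟩
  -- `f` is homotopic to `k`
  have h5 : GHomotopic (Cp p) (f.comp (h.comp k)) (f.comp (ContinuousMap.id X)) :=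
    comp_left f hf hhk
  have h6 : GHomotopic (Cp p) ((f.comp h).comp k) ((ContinuousMap.id Y).comp k) :=
    comp_right k hk hfh
  have h7 : GHomotopic (Cp p) f k := trans (symm h5) h6
  exact trans (comp_left h hh h7) hhk

end Pool.Agent.TC
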