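import Pool.Agent.Lib.TC.Halo

/-!
# Section 12.1, 13.1: extension of maps to spheres
-/

namespace Pool.Agent.TC

open Metric Set
open scoped Manifold ContDiff

/-- EXT: a map from a closed subset of a compact set in a Euclidean space of dimension `≤ r` to
`S^r` extends. -/
theorem ext_sphere {E : Type} [NormedAddCommGroup E] [NormedSpace ℝ E] [FiniteDimensional ℝ E]
    {r : ℕ} (hr : Module.finrank ℝ E ≤ r) {K A : Set E} (hK : IsCompact K) (hA : IsClosed A)
    (hAK : A ⊆ K) (f : E → Sph r) (hf : ContinuousOn f A) :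
    ∃ F : E → Sph r, ContinuousOn F K ∧ EqOn F f A := by
  let V := EuclideanSpace ℝ (Fin (r + 1))
  have : TietzeExtension V := TietzeExtension.of_tvs ℝ
  -- Tietze
  have hfc : Continuous fun x : A => ((f x : Sph r) : V) :=
    continuous_subtype_val.comp (continuousOn_iff_continuous_domRestrict.1 hf)
  obtain ⟨g, hg⟩ := ContinuousMap.exists_restrict_eq hA (⟨_, hfc⟩ : C(A, V))
  have hgA : ∀ x ∈ A, g x = (f x : V) := fun x hx => by
    have := congrArg (fun u : C(A, V) => u ⟨x, hx⟩) hg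
    simpa using this
  -- a smooth approximation
  obtain ⟨P, hP⟩ := exists_contMDiffMap_forall_mem_convex_of_local_const (I := 𝓘(ℝ, E))
    (n := (⊤ : ℕ∞)) (t := fun x : E => ball (g x) (1 / 8)) (fun x => convex_ball _ _) (fun x => by
      refine ⟨g x, ?_⟩
      have h1 := (g.continuous.tendsto x).eventually (ball_mem_nhds (g x) (by norm_num :
        (0 : ℝ) < 1 / 8))
      filter_upwards [h1] with y hy
      rw [mem_ball, dist_comm]
      exact hy)
  have hPd : ContDiff ℝ 1 (fun x : E => P x) := by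
    have h1 : ContDiff ℝ ∞ (fun x : E => P x) := contMDiff_iff_contDiff.1 P.contMDiff
    exact h1.of_le (by exact_mod_cast le_top)
  have hdense := hPd.dense_compl_range_of_finrank_lt_finrank (by
    have h1 : Module.finrank ℝ (EuclideanSpace ℝ (Fin (r + 1))) = r + 1 := by simp
    show Module.finrank ℝ E < Module.finrank ℝ (EuclideanSpace ℝ (Fin (r + 1)))
    omega)
  obtain ⟨v, hv, hvb⟩ := hdense.exists_dist_lt (0 : V) (by norm_num : (0 : ℝ) < 1 / 8)
  rw [dist_comm, dist_zero_right] at hvb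
  -- Urysohn
  have hcl : IsClosed {x : E | ‖g x‖ ≤ 1 / 2} := isClosed_le (by fun_prop) continuous_const
  have hdis : Disjoint {x : E | ‖g x‖ ≤ 1 / 2} A := by
    rw [Set.disjoint_left]
    intro x hx hxA
    rw [mem_ofPred_eq, hgA x hxA] at hx
    have : ‖((f x : Sph r) : V)‖ = 1 := by simp
    rw [this] at hx
    norm_num at hx
  obtain ⟨l, hl0, hl1, hl⟩ := exists_continuous_zero_one_of_isClosed hcl hA hdis
  set h : E → V := fun x => (P x - v) + (l x) • (g x - (P x - v)) with hh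
  have hhc : Continuous h := by
    have h1 : Continuous fun x : E => P x := hPd.continuous
    rw [hh]
    fun_prop
  have hclose : ∀ x, ‖g x - (P x - v)‖ ≤ 1 / 4 := by
    intro x
    have h1 : ‖g x - P x‖ < 1 / 8 := by
      have := hP x
      rwa [mem_ball, dist_comm, dist_eq_norm] at this
    calc ‖g x - (P x - v)‖ = ‖(g x - P x) + v‖ := by congr 1; abel
      _ ≤ ‖g x - P x‖ + ‖v‖ := norm_add_le _ _
      _ ≤ 1 / 4 := by linarith
  have hne : ∀ x, h x ≠ 0 := by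
    intro x hx
    by_cases hgx : ‖g x‖ ≤ 1 / 2
    · have h1 : l x = 0 := hl0 hgx
      simp only [hh, h1, zero_smul, add_zero] at hx
      exact hv ⟨x, by simpa [sub_eq_zero] using hx⟩
    · push Not at hgx
      have h1 : h x = g x - (1 - l x) • (g x - (P x - v)) := by
        simp only [hh, sub_smul, one_smul]
        abel
      have h2 := (hl x).1
      have h3 := (hl x).2
      have h4 : ‖(1 - l x) • (g x - (P x - v))‖ ≤ 1 / 4 := by
        rw [norm_smul, Real.norm_of_nonneg (by linarith)]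
        calc (1 - l x) * ‖g x - (P x - v)‖ ≤ 1 * (1 / 4) :=
              mul_le_mul (by linarith) (hclose x) (norm_nonneg _) (by norm_num)
          _ = 1 / 4 := one_mul _
      rw [h1, sub_eq_zero] at hx
      rw [← hx] at h4
      linarith
  refine ⟨fun x => ⟨(‖h x‖)⁻¹ • h x, ?_⟩, ?_, ?_⟩
  · rw [mem_sphere_zero_iff_norm, norm_smul, norm_inv, norm_norm,
      inv_mul_cancel₀ (norm_ne_zero_iff.2 (hne x))]
  · refine Continuous.continuousOn ?_
    refine Continuous.subtype_mk ?_ _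
    exact (hhc.norm.inv₀ fun x => norm_ne_zero_iff.2 (hne x)).smul hhc
  · intro x hx
    apply Subtype.ext
    have h1 : l x = 1 := hl1 hx
    have h2 : h x = (f x : V) := by
      simp only [hh, h1, one_smul]
      rw [← hgA x hx]
      abel
    have h3 : ‖((f x : Sph r) : V)‖ = 1 := by simp
    show (‖h x‖)⁻¹ • h x = _
    rw [h2, h3, inv_one, one_smul]

namespace ExtBAux

theorem exists_chart {n : ℕ} {Y : Type*} [TopologicalSpace Y] (hY : CubeHom.LocEuc n Y)
    {W : Set Y} (hW : IsOpen W) {y : Y} (hy : y ∈ W) :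
    ∃ ψ : (Fin n → ℝ) → Y, Topology.IsOpenEmbedding ψ ∧ ψ 0 = y ∧ Set.range ψ ⊆ W := by
  obtain ⟨S, hS, hyS, ⟨φ⟩⟩ := hY y
  have h1 : Topology.IsOpenEmbedding (fun v : Fin n → ℝ => (φ.symm v : Y)) :=
    hS.isOpenEmbedding_subtypeVal.comp φ.symm.isOpenEmbedding
  have h2 : IsOpen ((fun v : Fin n → ℝ => (φ.symm v : Y)) ⁻¹' W) := hW.preimage h1.continuous
  have h3 : φ ⟨y, hyS⟩ ∈ (fun v : Fin n → ℝ => (φ.symm v : Y)) ⁻¹' W := by
    simpa using hy
  obtain ⟨r, hr, hball⟩ := Metric.isOpen_iff.1 h2 _ h3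
  have h4 : Topology.IsOpenEmbedding (OpenPartialHomeomorph.univBall (φ ⟨y, hyS⟩) r) :=
    OpenPartialHomeomorph.isOpenEmbedding _ (OpenPartialHomeomorph.univBall_source _ _)
  refine ⟨_, h1.comp h4, ?_, ?_⟩
  · simp
  · rintro _ ⟨v, rfl⟩
    apply hball
    have h5 := (OpenPartialHomeomorph.univBall (φ ⟨y, hyS⟩) r).map_source
      (x := v) (by rw [OpenPartialHomeomorph.univBall_source]; trivial)
    rwa [OpenPartialHomeomorph.univBall_target _ hr] at h5

/-- One step of the extension over a free orbit of closed sets. -/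
theorem step {G X Y : Type} [Group G] [Finite G] [TopologicalSpace X]
    [MulAction G X] [TopologicalSpace Y] [MulAction G Y]
    (hcX : ∀ g : G, Continuous fun x : X => g • x) (hcY : ∀ g : G, Continuous fun y : Y => g • y)
    {A : Set X} (hA : IsClosed A) (hAi : ∀ (g : G) (x : X), x ∈ A → g • x ∈ A)
    {Φ : X → Y} (hΦ : ContinuousOn Φ A) (hΦe : ∀ (g : G) (x : X), x ∈ A → Φ (g • x) = g • Φ x)
    {D : Set X} (hD : IsClosed D) (hfree : ∀ g : G, g ≠ 1 → ∀ x ∈ D, g • x ∉ D)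
    {Ψ : X → Y} (hΨ : ContinuousOn Ψ D) (hΨΦ : EqOn Ψ Φ (A ∩ D)) :
    ∃ Φ' : X → Y, ContinuousOn Φ' (A ∪ ⋃ g : G, {x : X | g • x ∈ D}) ∧ EqOn Φ' Φ A ∧
      ∀ (g : G) (x : X), x ∈ A ∪ ⋃ g : G, {x : X | g • x ∈ D} → Φ' (g • x) = g • Φ' x := by
  classical
  let Φ' : X → Y := fun x =>
    if h : ∃ g : G, g • x ∈ D then (Classical.choose h)⁻¹ • Ψ (Classical.choose h • x) else Φ x
  have h1 : ∀ (g : G) (x : X), g • x ∈ D → Φ' x = g⁻¹ • Ψ (g • x) := by
    intro g x hg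
    have h : ∃ g : G, g • x ∈ D := ⟨g, hg⟩
    have h2 : Φ' x = (Classical.choose h)⁻¹ • Ψ (Classical.choose h • x) := dif_pos h
    have h3 : Classical.choose h = g := by
      by_contra hne
      have h4 : Classical.choose h * g⁻¹ ≠ 1 := fun h5 => hne (by
        rwa [mul_inv_eq_one] at h5)
      apply hfree _ h4 _ hg
      rw [← mul_smul, inv_mul_cancel_right]
      exact Classical.choose_spec h
    rw [h2, h3]
  have h2 : ∀ x ∈ A, Φ' x = Φ x := by
    intro x hx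
    by_cases h : ∃ g : G, g • x ∈ D
    · obtain ⟨g, hg⟩ := h
      rw [h1 g x hg, hΨΦ ⟨hAi g x hx, hg⟩, hΦe g x hx, inv_smul_smul]
    · exact dif_neg h
  refine ⟨Φ', ?_, h2, ?_⟩
  · have hcl : ∀ g : G, IsClosed {x : X | g • x ∈ D} := fun g => hD.preimage (hcX g)
    refine ContinuousOn.union_of_isClosed (hΦ.congr h2) ?_ hA (isClosed_iUnion_of_finite hcl)
    refine (locallyFinite_of_finite _).continuousOn_iUnion hcl fun g => ?_
    have h3 : ContinuousOn (fun x : X => g⁻¹ • Ψ (g • x)) {x : X | g • x ∈ D} :=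
      (hcY g⁻¹).comp_continuousOn (hΨ.comp (hcX g).continuousOn fun x hx => hx)
    exact h3.congr fun x hx => h1 g x hx
  · intro g x hx
    rcases hx with hx | hx
    · rw [h2 _ (hAi g x hx), h2 _ hx, hΦe g x hx]
    · obtain ⟨g₀, hg₀⟩ := mem_iUnion.mp hx
      have hg₀' : g₀ • x ∈ D := hg₀
      have h3 : (g₀ * g⁻¹) • (g • x) = g₀ • x := by
        rw [← mul_smul, inv_mul_cancel_right]
      rw [h1 (g₀ * g⁻¹) (g • x) (by rw [h3]; exact hg₀'), h3, h1 g₀ x hg₀', ← mul_smul, mul_inv_rev,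
        inv_inv]

/-- Extension over a disc in a chart. -/
theorem disc {n : ℕ} {X : Type} [TopologicalSpace X] {ψ : (Fin n → ℝ) → X}
    (hψ : Topology.IsOpenEmbedding ψ) {A : Set X} (hA : IsClosed A) {Φ : X → Sph n}
    (hΦ : ContinuousOn Φ A) :
    ∃ Ψ : X → Sph n, ContinuousOn Ψ (ψ '' closedBall 0 1) ∧
      EqOn Ψ Φ (A ∩ ψ '' closedBall 0 1) := by
  have hcl : IsClosed (closedBall (0 : Fin n → ℝ) 1 ∩ ψ ⁻¹' A) :=
    isClosed_closedBall.inter (hA.preimage hψ.continuous)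
  obtain ⟨F, hF, hFf⟩ := ext_sphere (E := Fin n → ℝ) (r := n) (by simp)
    (isCompact_closedBall (0 : Fin n → ℝ) 1) hcl inter_subset_left (fun v => Φ (ψ v))
    (hΦ.comp hψ.continuous.continuousOn fun v hv => hv.2)
  let e := hψ.toOpenPartialHomeomorph ψ
  have he : ∀ v, e.symm (ψ v) = v := fun v =>
    e.left_inv (x := v) (by simp [e])
  refine ⟨fun x => F (e.symm x), ?_, ?_⟩
  · refine hF.comp (e.continuousOn_symm.mono ?_) ?_
    · rintro _ ⟨v, -, rfl⟩
      exact e.map_source (x := v) (by simp [e])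
    · rintro _ ⟨v, hv, rfl⟩
      rw [he]
      exact hv
  · rintro _ ⟨hx, ⟨v, hv, rfl⟩⟩
    show F (e.symm (ψ v)) = Φ (ψ v)
    rw [he]
    exact hFf ⟨hv, hx⟩

theorem continuous_smul_lin {G : Type} [Group G] {n : ℕ}
    (ρ : G →* (EuclideanSpace ℝ (Fin (n + 1)) ≃ₗᵢ[ℝ] EuclideanSpace ℝ (Fin (n + 1)))) (g : G) :
    Continuous fun v : LinSphere ρ => g • v := by
  have hi : Topology.IsInducing (LinSphere.vec (ρ := ρ)) :=
    (Topology.IsInducing.subtypeVal : Topology.IsInducing (Subtype.val : Sph n → _))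
  rw [hi.continuous_iff]
  exact (ρ g).continuous.comp hi.continuous

/-- The map on the halo. -/
theorem onHalo {G X Y : Type} [Group G] [TopologicalSpace X] [MulAction G X]
    [TopologicalSpace Y] [MulAction G Y] [Nonempty Y] (H : Halo G X) (f : C(Fx G X, Fx G Y)) :
    ∃ Φ : X → Y, ContinuousOn Φ H.N ∧ (∀ (g : G) (x : X), x ∈ H.N → Φ (g • x) = g • Φ x) ∧
      ∀ x : Fx G X, Φ x = (f x : Y) := by
  classical
  let k : H.N → Y := fun x => (f ⟨H.r (0, x), H.zero x⟩ : Y)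
  have hk : Continuous k := by
    refine continuous_subtype_val.comp (f.continuous.comp ?_)
    exact Continuous.subtype_mk (H.r.continuous.comp (by fun_prop)) _
  have hkg : ∀ (g : G) (x : H.N), k ⟨g • (x : X), H.inv g x x.2⟩ = g • k x := by
    intro g x
    have h1 : H.r (0, ⟨g • (x : X), H.inv g x x.2⟩) = H.r (0, x) := by
      rw [H.equi, H.zero]
    show (f ⟨H.r (0, ⟨g • (x : X), H.inv g x x.2⟩), _⟩ : Y) = g • (f ⟨H.r (0, x), _⟩ : Y)
    rw [(f ⟨H.r (0, x), H.zero x⟩).2 g]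
    congr 2
    exact Subtype.ext h1
  refine ⟨fun x => if hx : x ∈ H.N then k ⟨x, hx⟩ else Classical.arbitrary Y, ?_, ?_, ?_⟩
  · rw [continuousOn_iff_continuous_domRestrict]
    convert hk using 1
    funext x
    exact dif_pos x.2
  · intro g x hx
    simp only [dif_pos hx, dif_pos (H.inv g x hx)]
    exact hkg g ⟨x, hx⟩
  · intro x
    have hx : (x : X) ∈ H.N := H.sub x x.2
    simp only [dif_pos hx]
    show (f ⟨H.r (0, ⟨x, hx⟩), _⟩ : Y) = _
    congr 2
    exact Subtype.ext (H.fix 0 ⟨x, hx⟩ x.2)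

end ExtBAux

open ExtBAux in
/-- Extension of equivariant maps to the sphere of a representation of the same dimension. -/
theorem gext {p : ℕ} [Fact p.Prime] {X : Type} [TopologicalSpace X] [MulAction (Cp p) X]
    {n : ℕ} (h : GMan (Cp p) X n) (H : Halo (Cp p) X)
    {ρ : Cp p →* (EuclideanSpace ℝ (Fin (n + 1)) ≃ₗᵢ[ℝ] EuclideanSpace ℝ (Fin (n + 1)))}
    (f : C(Fx (Cp p) X, Fx (Cp p) (LinSphere ρ))) :
    ∃ Φ : C(X, LinSphere ρ), Equi (Cp p) Φ ∧ ∀ x : Fx (Cp p) X, Φ x = (f x : LinSphere ρ) := by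
  classical
  have := h.t2
  have := h.compact
  have hnz : NeZero p := ⟨(Fact.out : p.Prime).ne_zero⟩
  have : Finite (Cp p) := inferInstanceAs (Finite (ZMod p))
  obtain ⟨g₁, hg₁⟩ : ∃ g : Cp p, g ≠ 1 := by
    have : Fact (1 < p) := ⟨(Fact.out : p.Prime).one_lt⟩
    have : Nontrivial (Cp p) := inferInstanceAs (Nontrivial (ZMod p))
    exact exists_ne 1
  have hne : Nonempty (LinSphere ρ) :=
    ⟨(⟨EuclideanSpace.single 0 1, by simp⟩ : Sph n)⟩
  obtain ⟨m, O, hO, hOf, hOc⟩ := exists_free_cover h.cont H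
  have hψ : ∀ x : (H.Nᶜ : Set X), ∃ ψ : (Fin n → ℝ) → X, Topology.IsOpenEmbedding ψ ∧ ψ 0 = x ∧
      ∀ g : Cp p, g ≠ 1 → ∀ y ∈ range ψ, g • y ∉ range ψ := by
    intro x
    obtain ⟨i, hi⟩ := (hOc x).resolve_left x.2
    obtain ⟨ψ, h1, h2, h3⟩ := exists_chart h.loc (hO i) hi
    exact ⟨ψ, h1, h2, fun g hg y hy hy' => hOf i g hg y (h3 hy) (h3 hy')⟩
  choose ψ hψo hψ0 hψf using hψ
  have hK : IsCompact (H.Nᶜ : Set X) := H.openN.isClosed_compl.isCompact
  obtain ⟨t, ht⟩ := hK.elim_nhds_subcover' (fun x hx => ψ ⟨x, hx⟩ '' ball 0 1) (by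
    intro x hx
    refine ((hψo ⟨x, hx⟩).isOpenMap _ isOpen_ball).mem_nhds ⟨0, by simp, hψ0 ⟨x, hx⟩⟩)
  let V : Set X := ⋃ x ∈ t, ψ x '' ball 0 1
  have hV : IsOpen V := isOpen_biUnion fun x _ => (hψo x).isOpenMap _ isOpen_ball
  let N' : Set X := (⋃ g : Cp p, {x : X | g • x ∈ V})ᶜ
  have hN'c : IsClosed N' := by
    refine (isOpen_iUnion fun g => ?_).isClosed_compl
    exact hV.preimage (h.cont g)
  have hN'i : ∀ (g : Cp p) (x : X), x ∈ N' → g • x ∈ N' := by
    intro g x hx hgx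
    obtain ⟨g', hg'⟩ := mem_iUnion.mp hgx
    apply hx
    refine mem_iUnion.mpr ⟨g' * g, ?_⟩
    show (g' * g) • x ∈ V
    rw [mul_smul]
    exact hg'
  have hN'N : N' ⊆ H.N := by
    intro x hx
    by_contra hxN
    apply hx
    refine mem_iUnion.mpr ⟨1, ?_⟩
    show (1 : Cp p) • x ∈ V
    rw [one_smul]
    have h1 := ht hxN
    simp only [mem_iUnion] at h1 ⊢
    obtain ⟨i, hi, hx'⟩ := h1
    exact mem_iUnion₂.mpr ⟨i, hi, hx'⟩
  have hFN' : ∀ x : X, (∀ g : Cp p, g • x = x) → x ∈ N' := by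
    intro x hx hx'
    obtain ⟨g, hg⟩ := mem_iUnion.mp hx'
    have hg' : g • x ∈ V := hg
    rw [hx g] at hg'
    obtain ⟨i, hi, v, hv, hvx⟩ := mem_iUnion₂.mp hg'
    refine hψf i g₁ hg₁ x ⟨v, hvx⟩ ?_
    rw [hx g₁]
    exact ⟨v, hvx⟩
  obtain ⟨Φ₀, hΦ₀c, hΦ₀e, hΦ₀f⟩ := onHalo H f
  have hind : ∀ s : Finset (H.Nᶜ : Set X), ∃ Φ : X → LinSphere ρ,
      ContinuousOn Φ (N' ∪ ⋃ x ∈ s, ⋃ g : Cp p, {y : X | g • y ∈ ψ x '' closedBall 0 1}) ∧
      EqOn Φ Φ₀ N' ∧ ∀ (g : Cp p) (y : X),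
        y ∈ N' ∪ ⋃ x ∈ s, ⋃ g : Cp p, {y : X | g • y ∈ ψ x '' closedBall 0 1} →
        Φ (g • y) = g • Φ y := by
    intro s
    induction s using Finset.induction_on with
    | empty =>
      refine ⟨Φ₀, ?_, fun _ _ => rfl, ?_⟩
      · refine hΦ₀c.mono ?_
        rintro x (hx | hx)
        · exact hN'N hx
        · simp at hx
      · rintro g y (hy | hy)
        · exact hΦ₀e g y (hN'N hy)
        · simp at hy
    | insert a s ha ih =>
      obtain ⟨Φ, hΦc, hΦ0, hΦe⟩ := ih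
      have hDc : ∀ x, IsClosed (ψ x '' closedBall 0 1) := fun x =>
        ((isCompact_closedBall (0 : Fin n → ℝ) 1).image (hψo x).continuous).isClosed
      have hAc : IsClosed (N' ∪ ⋃ x ∈ s, ⋃ g : Cp p, {y : X | g • y ∈ ψ x '' closedBall 0 1}) := by
        refine hN'c.union ?_
        refine Set.Finite.isClosed_biUnion s.finite_toSet fun x _ => ?_
        exact isClosed_iUnion_of_finite fun g => (hDc x).preimage (h.cont g)
      have hAi : ∀ (g : Cp p) (y : X),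
          y ∈ N' ∪ ⋃ x ∈ s, ⋃ g : Cp p, {y : X | g • y ∈ ψ x '' closedBall 0 1} →
          g • y ∈ N' ∪ ⋃ x ∈ s, ⋃ g : Cp p, {y : X | g • y ∈ ψ x '' closedBall 0 1} := by
        rintro g y (hy | hy)
        · exact Or.inl (hN'i g y hy)
        · right
          obtain ⟨x, hx, hy⟩ := mem_iUnion₂.mp hy
          obtain ⟨g', hg'⟩ := mem_iUnion.mp hy
          refine mem_iUnion₂.mpr ⟨x, hx, mem_iUnion.mpr ⟨g' * g⁻¹, ?_⟩⟩
          show (g' * g⁻¹) • g • y ∈ ψ x '' closedBall 0 1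
          rw [← mul_smul, inv_mul_cancel_right]
          exact hg'
      obtain ⟨Ψ, hΨc, hΨe⟩ := disc (hψo a) hAc (Φ := Φ) hΦc
      obtain ⟨Φ', h1, h2, h3⟩ := step h.cont (continuous_smul_lin ρ) hAc hAi hΦc hΦe (hDc a)
        (fun g hg x hx hx' => hψf a g hg x (image_subset_range _ _ hx)
          (image_subset_range _ _ hx')) hΨc hΨe
      have hset : (N' ∪ ⋃ x ∈ insert a s, ⋃ g : Cp p, {y : X | g • y ∈ ψ x '' closedBall 0 1}) =
          (N' ∪ ⋃ x ∈ s, ⋃ g : Cp p, {y : X | g • y ∈ ψ x '' closedBall 0 1}) ∪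
            ⋃ g : Cp p, {y : X | g • y ∈ ψ a '' closedBall 0 1} := by
        rw [Finset.set_biUnion_insert, union_assoc,
          union_comm (⋃ g : Cp p, {y : X | g • y ∈ ψ a '' closedBall 0 1})]
      refine ⟨Φ', ?_, ?_, ?_⟩
      · rw [hset]
        exact h1
      · intro x hx
        rw [h2 (Or.inl hx), hΦ0 hx]
      · rw [hset]
        exact h3
  obtain ⟨Φ, h1, h2, h3⟩ := hind t
  have huniv : (N' ∪ ⋃ x ∈ t, ⋃ g : Cp p, {y : X | g • y ∈ ψ x '' closedBall 0 1}) = univ := by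
    rw [eq_univ_iff_forall]
    intro y
    by_cases hy : y ∈ N'
    · exact Or.inl hy
    · right
      have hy' : y ∈ ⋃ g : Cp p, {x : X | g • x ∈ V} := not_not.mp hy
      obtain ⟨g, hg⟩ := mem_iUnion.mp hy'
      obtain ⟨x, hx, hxy⟩ := mem_iUnion₂.mp (show g • y ∈ V from hg)
      exact mem_iUnion₂.mpr ⟨x, hx, mem_iUnion.mpr ⟨g, image_mono ball_subset_closedBall hxy⟩⟩
  rw [huniv] at h1 h3
  refine ⟨⟨Φ, continuousOn_univ.mp h1⟩, fun g x => h3 g x (mem_univ x), fun x => ?_⟩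
  show Φ x = _
  rw [h2 (hFN' x x.2), hΦ₀f]

end Pool.Agent.TC
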