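import Pool.Agent.Lib.TC.Man

namespace Pool.Agent.TC

open Metric Set
open scoped Manifold ContDiff

namespace Man1Aux

/-- An inner product invariant under a finite group, as a change of coordinates. -/
theorem exists_coord {G V : Type} [Group G] [Fintype G] [AddCommGroup V] [Module ℝ V] {n : ℕ}
    (L : V ≃ₗ[ℝ] EuclideanSpace ℝ (Fin n)) (D : G →* (V →ₗ[ℝ] V)) :
    ∃ T : V ≃ₗ[ℝ] EuclideanSpace ℝ (Fin n), ∀ u : V, ‖T u‖ ^ 2 = ∑ g : G, ‖L (D g u)‖ ^ 2 := by
  let core : InnerProductSpace.Core ℝ V :=
    { inner := fun u v => ∑ g : G, inner ℝ (L (D g u)) (L (D g v))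
      conj_inner_symm := fun u v => by
        simp only [map_sum]
        refine Finset.sum_congr rfl fun g _ => ?_
        exact inner_conj_symm _ _
      re_inner_nonneg := fun u => by
        simp only [map_sum]
        exact Finset.sum_nonneg fun g _ => inner_self_nonneg
      add_left := fun u v w => by
        simp only [map_add, inner_add_left, Finset.sum_add_distrib]
      smul_left := fun u v r => by
        simp only [map_smul, inner_smul_left, Finset.mul_sum]
      definite := fun u hu => by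
        have h1 : ∀ g ∈ (Finset.univ : Finset G), 0 ≤ inner ℝ (L (D g u)) (L (D g u)) :=
          fun g _ => real_inner_self_nonneg
        have h2 := (Finset.sum_eq_zero_iff_of_nonneg h1).1 hu 1 (Finset.mem_univ _)
        have h3 := inner_self_eq_zero.1 h2
        simpa using h3 }
  letI : NormedAddCommGroup V := core.toNormedAddCommGroup
  letI : InnerProductSpace ℝ V := InnerProductSpace.ofCore core.toCore
  haveI : FiniteDimensional ℝ V := L.symm.finiteDimensional
  have hfin : Module.finrank ℝ V = n := by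
    rw [L.finrank_eq, finrank_euclideanSpace, Fintype.card_fin]
  let b := (stdOrthonormalBasis ℝ V).reindex (finCongr hfin)
  refine ⟨b.repr.toLinearEquiv, fun u => ?_⟩
  have h1 : ‖b.repr u‖ = ‖u‖ := b.repr.norm_map u
  change ‖b.repr u‖ ^ 2 = _
  rw [h1]
  have h2 : ‖u‖ ^ 2 = inner ℝ u u := (real_inner_self_eq_norm_sq u).symm
  rw [h2]
  change ∑ g : G, inner ℝ (L (D g u)) (L (D g u)) = _
  refine Finset.sum_congr rfl fun g _ => ?_
  exact real_inner_self_eq_norm_sq _

section topo

variable {G X E : Type} [Group G] [TopologicalSpace X] [MulAction G X]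
  [NormedAddCommGroup E] [InnerProductSpace ℝ E]

/-- An equivariant local homeomorphism to an orthogonal representation gives an equivariant open
embedding of the representation. -/
theorem exists_emb [Finite G] (hc : ∀ g : G, Continuous fun x : X => g • x) (x : X)
    (hx : ∀ g : G, g • x = x) (F : OpenPartialHomeomorph X E) (Ψ : X → E)
    (hF : ∀ y ∈ F.source, F y = Ψ y) (hxs : x ∈ F.source) (h0 : Ψ x = 0)
    (ρ : G →* (E ≃ₗᵢ[ℝ] E)) (hΨ : ∀ g y, Ψ (g • y) = ρ g (Ψ y)) :
    ∃ φ : C(E, X), Topology.IsOpenEmbedding φ ∧ φ 0 = x ∧ ∀ g v, φ (ρ g v) = g • φ v := by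
  -- the invariant open set
  let O : Set X := ⋂ g : G, (fun y => g • y) ⁻¹' F.source
  have hO : IsOpen O := isOpen_iInter_of_finite fun g => F.open_source.preimage (hc g)
  have hxO : x ∈ O := by
    refine mem_iInter.2 fun g => ?_
    change g • x ∈ F.source
    rw [hx]
    exact hxs
  have hOs : O ⊆ F.source := fun y hy => by
    have := mem_iInter.1 hy (1 : G)
    simpa using this
  have hOg : ∀ (g : G), ∀ y ∈ O, g • y ∈ O := fun g y hy => by
    refine mem_iInter.2 fun h => ?_
    have := mem_iInter.1 hy (h * g)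
    change (h * g) • y ∈ F.source at this
    change h • g • y ∈ F.source
    rwa [mul_smul] at this
  have himg : IsOpen (F '' O) := F.isOpen_image_of_subset_source hO hOs
  have h0m : (0 : E) ∈ F '' O := ⟨x, hxO, by rw [hF x hxs, h0]⟩
  obtain ⟨ε, hε, hball⟩ := Metric.isOpen_iff.1 himg 0 h0m
  have hsymm : ∀ v ∈ ball (0 : E) ε, F.symm v ∈ O ∧ F (F.symm v) = v := by
    intro v hv
    obtain ⟨y, hy, rfl⟩ := hball hv
    rw [F.left_inv (hOs hy)]
    exact ⟨hy, rfl⟩
  have htar : ball (0 : E) ε ⊆ F.target := by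
    intro v hv
    obtain ⟨y, hy, rfl⟩ := hball hv
    exact F.map_source (hOs hy)
  let u := OpenPartialHomeomorph.univBall (0 : E) ε
  have hu : ∀ v, u v ∈ ball (0 : E) ε := by
    intro v
    have := u.map_source (x := v) (by rw [OpenPartialHomeomorph.univBall_source]; trivial)
    rwa [OpenPartialHomeomorph.univBall_target _ hε] at this
  have hsrc : (u.trans F.symm).source = univ := by
    rw [OpenPartialHomeomorph.trans_source]
    ext v
    simp only [mem_inter_iff, mem_preimage, mem_univ, iff_true]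
    refine ⟨by rw [OpenPartialHomeomorph.univBall_source]; trivial, ?_⟩
    exact htar (hu v)
  have hemb := (u.trans F.symm).isOpenEmbedding hsrc
  refine ⟨⟨fun v => F.symm (u v), hemb.continuous⟩, hemb, ?_, ?_⟩
  · change F.symm (u 0) = x
    have : u 0 = 0 := OpenPartialHomeomorph.univBall_apply_zero _ _
    rw [this]
    have h2 : F x = 0 := by rw [hF x hxs, h0]
    rw [← h2, F.left_inv hxs]
  · intro g v
    change F.symm (u (ρ g v)) = g • F.symm (u v)
    have hug : u (ρ g v) = ρ g (u v) := by
      simp only [u, OpenPartialHomeomorph.univBall, dif_pos hε]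
      simp [OpenPartialHomeomorph.unitBallBall, OpenPartialHomeomorph.univUnitBall,
        LinearIsometryEquiv.norm_map, map_smul]
    obtain ⟨h1, h2⟩ := hsymm _ (hu v)
    rw [hug]
    have h3 : F (g • F.symm (u v)) = ρ g (u v) := by
      rw [hF _ (hOs (hOg g _ h1)), hΨ, ← hF _ (hOs h1), h2]
    rw [← h3, F.left_inv (hOs (hOg g _ h1))]

end topo

section lin

variable {G X E : Type} [Group G] [TopologicalSpace X] [MulAction G X]
  [NormedAddCommGroup E] [NormedSpace ℝ E]

/-- The action in a chart. -/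
def act (φ : OpenPartialHomeomorph X E) (g : G) (v : E) : E := φ (g • φ.symm v)

theorem act_self {φ : OpenPartialHomeomorph X E} {x : X} (hxs : x ∈ φ.source)
    (hx : ∀ g : G, g • x = x) (g : G) : act φ g (φ x) = φ x := by
  unfold act
  rw [φ.left_inv hxs, hx]

theorem act_one {φ : OpenPartialHomeomorph X E} {x : X} (hxs : x ∈ φ.source) :
    act φ (1 : G) =ᶠ[nhds (φ x)] id := by
  have h := φ.open_target.mem_nhds (φ.map_source hxs)
  filter_upwards [h] with v hv
  unfold act
  rw [one_smul, φ.right_inv hv]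
  rfl

theorem act_mul {φ : OpenPartialHomeomorph X E} {x : X} (hxs : x ∈ φ.source)
    (hc : ∀ g : G, Continuous fun x : X => g • x)
    (hx : ∀ g : G, g • x = x) (g h : G) :
    act φ (g * h) =ᶠ[nhds (φ x)] act φ g ∘ act φ h := by
  have h1 : ContinuousAt (fun v => h • φ.symm v) (φ x) :=
    (hc h).continuousAt.comp (φ.continuousAt_symm (φ.map_source hxs))
  have h2 : (fun v => h • φ.symm v) (φ x) ∈ φ.source := by
    change h • φ.symm (φ x) ∈ φ.source
    rw [φ.left_inv hxs, hx]
    exact hxs
  have h3 := h1.eventually (φ.open_source.mem_nhds h2)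
  filter_upwards [h3] with v hv
  change φ ((g * h) • φ.symm v) = φ (g • φ.symm (φ (h • φ.symm v)))
  rw [φ.left_inv hv, mul_smul]

/-- The linearised action. -/
noncomputable def dact (φ : OpenPartialHomeomorph X E) {x : X} (hxs : x ∈ φ.source)
    (hc : ∀ g : G, Continuous fun x : X => g • x) (hx : ∀ g : G, g • x = x)
    (hd : ∀ g : G, DifferentiableAt ℝ (act φ g) (φ x)) : G →* (E →ₗ[ℝ] E) where
  toFun g := (fderiv ℝ (act φ g) (φ x) : E →L[ℝ] E)
  map_one' := by
    rw [(act_one (G := G) hxs).fderiv_eq, fderiv_id]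
    rfl
  map_mul' g h := by
    rw [(act_mul hxs hc hx g h).fderiv_eq]
    have h1 := fderiv_comp (φ x) (by rw [act_self hxs hx]; exact hd g) (hd h)
    rw [h1, act_self hxs hx]
    rfl

end lin

section main

variable {G X : Type} [Group G] [Fintype G] [TopologicalSpace X] [MulAction G X] {n : ℕ}

theorem main (φ : OpenPartialHomeomorph X (EuclideanSpace ℝ (Fin n))) {x : X}
    (hxs : x ∈ φ.source)
    (hc : ∀ g : G, Continuous fun x : X => g • x) (hx : ∀ g : G, g • x = x)
    (hd : ∀ g : G, ContDiffAt ℝ ∞ (act φ g) (φ x)) :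
    Nonempty (LinChart G X n x) := by
  classical
  have hd' : ∀ g : G, DifferentiableAt ℝ (act φ g) (φ x) := fun g =>
    (hd g).differentiableAt (by simp)
  let D := dact φ hxs hc hx hd'
  have hD : ∀ g v, D g v = fderiv ℝ (act φ g) (φ x) v := fun g v => rfl
  let Ψ : X → EuclideanSpace ℝ (Fin n) := fun y =>
    ((Fintype.card G : ℝ)⁻¹) • ∑ h : G, D h⁻¹ (φ (h • y) - φ x)
  have hΨD : ∀ g y, Ψ (g • y) = D g (Ψ y) := by
    intro g y
    simp only [Ψ, map_smul, map_sum]
    congr 1
    rw [← Equiv.sum_comp (Equiv.mulRight g⁻¹)]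
    refine Finset.sum_congr rfl fun h _ => ?_
    simp only [Equiv.coe_mulRight, mul_inv_rev, inv_inv, map_mul]
    rw [smul_smul, inv_mul_cancel_right]
    rfl
  have hΨx : Ψ x = 0 := by
    simp [Ψ, hx]
  -- derivative of Ψ in the chart
  let Dc : G → (EuclideanSpace ℝ (Fin n) →L[ℝ] EuclideanSpace ℝ (Fin n)) := fun g =>
    fderiv ℝ (act φ g) (φ x)
  have hstrict : HasStrictFDerivAt (fun v => Ψ (φ.symm v))
      ((ContinuousLinearEquiv.refl ℝ (EuclideanSpace ℝ (Fin n)) :
        EuclideanSpace ℝ (Fin n) ≃L[ℝ] EuclideanSpace ℝ (Fin n)) :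
        EuclideanSpace ℝ (Fin n) →L[ℝ] EuclideanSpace ℝ (Fin n)) (φ x) := by
    have h1 : ∀ h : G, HasStrictFDerivAt (fun v => Dc h⁻¹ (φ (h • φ.symm v) - φ x))
        ((Dc h⁻¹).comp (Dc h)) (φ x) := by
      intro h
      have h2 : HasStrictFDerivAt (act φ h) (Dc h) (φ x) := (hd h).hasStrictFDerivAt (by simp)
      exact (Dc h⁻¹).hasStrictFDerivAt.comp (φ x) (h2.sub_const (φ x))
    have h3 := HasStrictFDerivAt.fun_sum (u := (Finset.univ : Finset G))
      (fun h _ => h1 h)
    have h4 : HasStrictFDerivAt (fun v => Ψ (φ.symm v))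
        (((Fintype.card G : ℝ)⁻¹) • ∑ h : G, (Dc h⁻¹).comp (Dc h)) (φ x) :=
      h3.const_smul ((Fintype.card G : ℝ)⁻¹)
    refine h4.congr_fderiv ?_
    refine ContinuousLinearMap.ext fun v => ?_
    have h5 : ∀ h : G, Dc h⁻¹ (Dc h v) = v := by
      intro h
      have h6 : D h⁻¹ (D h v) = v := by
        have : (D h⁻¹ * D h) v = v := by
          rw [← map_mul, inv_mul_cancel, map_one]
          rfl
        exact this
      exact h6
    have hcard : (Fintype.card G : ℝ) ≠ 0 := Nat.cast_ne_zero.2 Fintype.card_ne_zero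
    rw [ContinuousLinearMap.smul_apply, ContinuousLinearMap.sum_apply]
    simp only [ContinuousLinearMap.comp_apply, h5, Finset.sum_const, Finset.card_univ]
    change (Fintype.card G : ℝ)⁻¹ • (Fintype.card G) • v = v
    rw [← Nat.cast_smul_eq_nsmul ℝ (Fintype.card G) v, smul_smul, inv_mul_cancel₀ hcard, one_smul]
  let e := hstrict.toOpenPartialHomeomorph (fun v => Ψ (φ.symm v))
  have hae : φ x ∈ e.source := hstrict.mem_toOpenPartialHomeomorph_source
  obtain ⟨T, hT⟩ := exists_coord (LinearEquiv.refl ℝ (EuclideanSpace ℝ (Fin n))) D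
  let Tc := T.toContinuousLinearEquiv
  let F : OpenPartialHomeomorph X (EuclideanSpace ℝ (Fin n)) :=
    (φ.trans e).trans Tc.toHomeomorph.toOpenPartialHomeomorph
  have hinv : ∀ (g : G) (v : EuclideanSpace ℝ (Fin n)), D g⁻¹ (D g v) = v := by
    intro g v
    have : (D g⁻¹ * D g) v = v := by
      rw [← map_mul, inv_mul_cancel, map_one]
      rfl
    exact this
  have hnorm : ∀ (g : G) (v : EuclideanSpace ℝ (Fin n)), ‖T (D g v)‖ = ‖T v‖ := by
    intro g v
    have h1 : ‖T (D g v)‖ ^ 2 = ‖T v‖ ^ 2 := by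
      rw [hT, hT]
      rw [← Equiv.sum_comp (Equiv.mulRight g⁻¹)]
      refine Finset.sum_congr rfl fun h _ => ?_
      simp only [Equiv.coe_mulRight, map_mul, Module.End.mul_apply]
      rw [hinv]
    exact (pow_left_inj₀ (norm_nonneg _) (norm_nonneg _) two_ne_zero).1 h1
  let ρ : G →* (EuclideanSpace ℝ (Fin n) ≃ₗᵢ[ℝ] EuclideanSpace ℝ (Fin n)) :=
    { toFun := fun g =>
        { toFun := fun v => T (D g (T.symm v))
          map_add' := fun u v => by simp only [map_add]
          map_smul' := fun c v => by simp only [map_smul, RingHom.id_apply]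
          invFun := fun v => T (D g⁻¹ (T.symm v))
          left_inv := fun v => by
            simp only [LinearEquiv.symm_apply_apply]
            rw [hinv, LinearEquiv.apply_symm_apply]
          right_inv := fun v => by
            simp only [LinearEquiv.symm_apply_apply]
            have := hinv g⁻¹ (T.symm v)
            rw [inv_inv] at this
            rw [this, LinearEquiv.apply_symm_apply]
          norm_map' := fun v => by
            change ‖T (D g (T.symm v))‖ = _
            rw [hnorm, LinearEquiv.apply_symm_apply] }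
      map_one' := by
        ext1 v
        change T (D 1 (T.symm v)) = v
        rw [map_one]
        exact T.apply_symm_apply v
      map_mul' := fun g h => by
        ext1 v
        change T (D (g * h) (T.symm v)) = T (D g (T.symm (T (D h (T.symm v)))))
        rw [map_mul, LinearEquiv.symm_apply_apply]
        rfl }
  have hF : ∀ y ∈ F.source, F y = T (Ψ y) := by
    intro y hy
    have hy1 : y ∈ φ.source := by
      simp only [F, OpenPartialHomeomorph.trans_source, mem_inter_iff] at hy
      exact hy.1.1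
    change T (Ψ (φ.symm (φ y))) = _
    rw [φ.left_inv hy1]
  have hxF : x ∈ F.source := by
    simp only [F, OpenPartialHomeomorph.trans_source, mem_inter_iff, mem_preimage,
      Homeomorph.toOpenPartialHomeomorph_source, mem_univ, and_true]
    exact ⟨hxs, hae⟩
  obtain ⟨ψ, h1, h2, h3⟩ := exists_emb hc x hx F (fun y => T (Ψ y)) hF hxF
    (by change T (Ψ x) = 0; rw [hΨx, map_zero]) ρ (fun g y => by
      change T (Ψ (g • y)) = T (D g (T.symm (T (Ψ y))))
      rw [hΨD, LinearEquiv.symm_apply_apply])
  exact ⟨⟨ρ, ψ, h1, h2, h3⟩⟩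

end main

end Man1Aux

/-- Average of a chart, inverse function theorem, invariant inner product, shrink to a ball and
stretch it radially. -/
theorem exists_linChart {G : Type} [Group G] [Finite G] {n : ℕ} [MulAction G (Sph n)]
    (hs : ∀ g : G, ContMDiff (𝓡 n) (𝓡 n) ∞ (fun x : Sph n => g • x)) (x : Sph n)
    (hx : ∀ g : G, g • x = x) : Nonempty (LinChart G (Sph n) n x) := by
  have := Fintype.ofFinite G
  refine Man1Aux.main (chartAt (EuclideanSpace ℝ (Fin n)) x) (mem_chart_source _ x)
    (fun g => (hs g).continuous) hx fun g => ?_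
  have h1 := (contMDiffAt_iff.1 ((hs g) x)).2
  simp only [mfld_simps, contDiffWithinAt_univ] at h1
  rw [hx g] at h1
  exact h1


theorem Man1Aux.locEuc_sph (n : ℕ) : CubeHom.LocEuc n (Sph n) := by
  intro x
  have := Fact.mk (@finrank_euclideanSpace_fin ℝ _ (n + 1))
  refine ⟨(chartAt (EuclideanSpace ℝ (Fin n)) x).source,
    (chartAt (EuclideanSpace ℝ (Fin n)) x).open_source, mem_chart_source _ x, ⟨?_⟩⟩
  have ht : (chartAt (EuclideanSpace ℝ (Fin n)) x).target = univ := stereographic'_target _
  exact (chartAt (EuclideanSpace ℝ (Fin n)) x).toHomeomorphSourceTarget.trans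
    ((Homeomorph.setCongr ht).trans ((Homeomorph.Set.univ _).trans
      (EuclideanSpace.equiv (Fin n) ℝ).toHomeomorph))

theorem gman_of_smooth {G : Type} [Group G] [Finite G] {n : ℕ} [MulAction G (Sph n)]
    (hs : ∀ g : G, ContMDiff (𝓡 n) (𝓡 n) ∞ (fun x : Sph n => g • x)) :
    GMan G (Sph n) n where
  t2 := inferInstance
  compact := inferInstance
  cont g := (hs g).continuous
  loc := Man1Aux.locEuc_sph n
  chart x hx := exists_linChart hs x hx

theorem gman_linSphere {G : Type} [Group G] [Finite G] {n : ℕ}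
    (ρ : G →* (EuclideanSpace ℝ (Fin (n + 1)) ≃ₗᵢ[ℝ] EuclideanSpace ℝ (Fin (n + 1)))) :
    GMan G (LinSphere ρ) n := by
  let _ : MulAction G (Sph n) := (inferInstance : MulAction G (LinSphere ρ))
  have := Fact.mk (@finrank_euclideanSpace_fin ℝ _ (n + 1))
  have h : GMan G (Sph n) n := by
    refine gman_of_smooth fun g => ?_
    have h1 : ContMDiff (𝓡 n) 𝓘(ℝ, EuclideanSpace ℝ (Fin (n + 1))) ∞
        (fun x : Sph n => ρ g (x : EuclideanSpace ℝ (Fin (n + 1)))) := by
      have h2 : ContMDiff 𝓘(ℝ, EuclideanSpace ℝ (Fin (n + 1)))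
          𝓘(ℝ, EuclideanSpace ℝ (Fin (n + 1))) ∞ (ρ g) :=
        (ρ g).toContinuousLinearEquiv.contDiff.contMDiff
      exact h2.comp contMDiff_coe_sphere
    exact h1.codRestrict_sphere (fun x => by simp)
  exact h

end Pool.Agent.TC
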