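import Pool.Agent.Lib.TC.HSph
import Pool.Agent.Lib.TC.Man1
import Pool.Agent.Lib.TC.Ext
import Pool.Agent.Lib.TC.Dold
import Pool.Agent.Lib.MP_cb6a70_gt_HB.DegEmb
import Pool.Agent.Lib.MP_cb6a70_gt_HB.Collapse

/-!
# Section 13.2: degrees, definitions
-/

namespace Pool.Agent.TC

open CubeHom

/-- `Φ` has degree `D` with respect to the fundamental cycle `z`. -/
def Dg {n : ℕ} (z : Ch ℤ (Sph n)) (Φ : C(Sph n, Sph n)) (D : ℤ) : Prop :=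
  CubeHom.Bd ℤ (n : ℤ) Set.univ ∅ (push Φ z - D • z)

/-- A fundamental cycle of the sphere. -/
structure FCyc (n : ℕ) (z : Ch ℤ (Sph n)) : Prop where
  mem : z ∈ CubeHom.Z ℤ (n : ℤ) Set.univ ∅
  gen : ∀ w ∈ CubeHom.Z ℤ (n : ℤ) (Set.univ : Set (Sph n)) ∅,
    ∃ r : ℤ, CubeHom.Bd ℤ (n : ℤ) Set.univ ∅ (w - r • z)
  free : ∀ (x : Sph n) (r : ℤ), CubeHom.Bd ℤ (n : ℤ) Set.univ {x}ᶜ (r • z) → r = 0
  loc : LocGen n z

/-- The underlying map of standard spheres. -/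
def und {n : ℕ} {G : Type} [Group G]
    {ρ : G →* (EuclideanSpace ℝ (Fin (n + 1)) ≃ₗᵢ[ℝ] EuclideanSpace ℝ (Fin (n + 1)))}
    {X : Type} [TopologicalSpace X] (Φ : C(X, LinSphere ρ)) : C(X, Sph n) :=
  ⟨fun x => (Φ x : Sph n), Φ.continuous⟩

/-- Maps between linear spheres. -/
def und2 {n : ℕ} {G : Type} [Group G]
    {ρ ρ' : G →* (EuclideanSpace ℝ (Fin (n + 1)) ≃ₗᵢ[ℝ] EuclideanSpace ℝ (Fin (n + 1)))}
    (Φ : C(LinSphere ρ, LinSphere ρ')) : C(Sph n, Sph n) :=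
  ⟨fun x => (Φ (x : LinSphere ρ) : Sph n), Φ.continuous⟩

end Pool.Agent.TC
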