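import Pool.Agent.Lib.TC.DualC
import Pool.Agent.Lib.MP_cb6a70_gt_HB.ConseqA

/-!
# Section 8.4: Poincare duality over a field
-/

namespace Pool.Agent.TC

open CubeHom

namespace PDd

section chains

variable {X : Type} [TopologicalSpace X] {K : Type} [Field K]

/-- The faces of a cube paired with `u`. -/
noncomputable def capT (i j : ℕ) (u : C(Cb, X) → K) (t : C(Cb, X)) : Ch K X :=
  ∑ H ∈ (Finset.range (i + j)).powersetCard i, sgnS (i + j) H •
    Finsupp.single (t.comp (fc (i + j) (wfr H))) (u (t.comp (fc (i + j) (wbk H))))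

/-- The cap product of a chain of degree `i + j` with a cochain of degree `j`. -/
noncomputable def capL (i j : ℕ) (u : C(Cb, X) → K) : Ch K X →ₗ[K] Ch K X :=
  Finsupp.linearCombination K (capT i j u)

theorem lc_capL (i j : ℕ) (v u : C(Cb, X) → K) (ξ : Ch K X) :
    Finsupp.linearCombination K v (capL i j u ξ) =
      Finsupp.linearCombination K (cup AddMonoidHom.mul i j v u) ξ := by
  have h : (Finsupp.linearCombination K v).comp (capL i j u) =
      Finsupp.linearCombination K (cup AddMonoidHom.mul i j v u) := by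
    refine Finsupp.lhom_ext fun t a => ?_
    rw [LinearMap.comp_apply, capL, Finsupp.linearCombination_single, map_smul, capT, map_sum,
      Finsupp.linearCombination_single, cup]
    congr 1
    refine Finset.sum_congr rfl fun H _ => ?_
    rw [map_zsmul, Finsupp.linearCombination_single, AddMonoidHom.mul_apply, smul_eq_mul, mul_comm]
  exact LinearMap.congr_fun h ξ

theorem lc_congr {v w : C(Cb, X) → K} {c : Ch K X} {s : Set C(Cb, X)}
    (hc : c ∈ Finsupp.supported K K s) (h : ∀ σ ∈ s, v σ = w σ) :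
    Finsupp.linearCombination K v c = Finsupp.linearCombination K w c := by
  rw [Finsupp.linearCombination_apply, Finsupp.linearCombination_apply]
  refine Finsupp.sum_congr fun σ hσ => ?_
  rw [h σ ((Finsupp.mem_supported K c).mp hc hσ)]

theorem lc_zero {v : C(Cb, X) → K} {c : Ch K X} {s : Set C(Cb, X)}
    (hc : c ∈ Finsupp.supported K K s) (h : ∀ σ ∈ s, v σ = 0) :
    Finsupp.linearCombination K v c = 0 := by
  rw [lc_congr (w := fun _ => 0) hc h, Finsupp.linearCombination_apply]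
  simp [Finsupp.sum]

theorem card_wfr {n i : ℕ} {H : Finset ℕ} (hH : H ∈ (Finset.range n).powersetCard i) :
    ((Finset.range n).filter (fun x => wfr H x = none)).card = i := by
  rw [Finset.mem_powersetCard] at hH
  have h : (Finset.range n).filter (fun x => wfr H x = none) = H := by
    ext x
    simp only [Finset.mem_filter, wfr]
    by_cases hx : x ∈ H
    · simp [hx, Finset.mem_range.mp (hH.1 hx)]
    · simp [hx]
  rw [h, hH.2]

theorem card_wbk {i j : ℕ} {H : Finset ℕ} (hH : H ∈ (Finset.range (i + j)).powersetCard i) :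
    ((Finset.range (i + j)).filter (fun x => wbk H x = none)).card = j := by
  rw [Finset.mem_powersetCard] at hH
  have h : (Finset.range (i + j)).filter (fun x => wbk H x = none) = Finset.range (i + j) \ H := by
    ext x
    simp only [Finset.mem_filter, wbk, Finset.mem_sdiff]
    by_cases hx : x ∈ H
    · simp [hx]
    · simp [hx]
  rw [h, Finset.card_sdiff_of_subset hH.1, hH.2, Finset.card_range]
  omega

theorem mem_C_bd (S : CS X) {k : ℤ} {c : Ch K X} (hc : c ∈ S.C K k) :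
    bd k c ∈ S.C K (k - 1) := by
  have h1 : c ∈ CubeHom.C K k Set.univ := by
    refine Finsupp.supported_mono (s := {σ : C(Cb, X) | IsCube k σ ∧ S.ok σ}) ?_ hc
    exact fun σ hσ => ⟨hσ.1, fun _ => Set.mem_univ _⟩
  have h2 := bd_mem_C h1
  have h3 : bd k c ∈ Finsupp.supported K K {σ : C(Cb, X) | S.ok σ} := by
    rw [bd, LinearMap.sum_apply]
    refine Submodule.sum_mem _ fun i _ => ?_
    rw [LinearMap.smul_apply, LinearMap.sub_apply]
    refine Submodule.smul_mem _ _ (Submodule.sub_mem _ ?_ ?_)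
    · exact Sub.mem_supported_mapDomain (ins i 1) (fun σ hσ => S.ok_comp σ _ hσ)
        (Finsupp.supported_mono (fun σ hσ => hσ.2) hc)
    · exact Sub.mem_supported_mapDomain (ins i 0) (fun σ hσ => S.ok_comp σ _ hσ)
        (Finsupp.supported_mono (fun σ hσ => hσ.2) hc)
  rw [Finsupp.mem_supported] at h3
  rw [CubeHom.C, Finsupp.mem_supported] at h2
  rw [CS.C, Finsupp.mem_supported]
  exact fun σ hσ => ⟨(h2 hσ).1, h3 hσ⟩

theorem capL_mem_C (S : CS X) {i j : ℕ} (u : C(Cb, X) → K) {ξ : Ch K X}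
    (hξ : ξ ∈ S.C K ((i + j : ℕ) : ℤ)) : capL i j u ξ ∈ S.C K (i : ℤ) := by
  rw [capL, Finsupp.linearCombination_apply]
  refine Submodule.sum_mem _ fun t ht => Submodule.smul_mem _ _ ?_
  have ht' := (Finsupp.mem_supported K ξ).mp hξ ht
  refine Submodule.sum_mem _ fun H hH => ?_
  refine zsmul_mem (Finsupp.single_mem_supported K _ ?_) _
  refine ⟨?_, S.ok_comp _ _ ht'.2⟩
  have h := isCube_fc (n := i + j) (w := wfr H) ht'.1
  rwa [card_wfr hH] at h

/-- The pairing with normalised cochains detects the degenerate chains. -/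
theorem mem_Q_of_lc (S : CS X) {k : ℕ} {c : Ch K X} (hc : c ∈ S.C K (k : ℤ))
    (h : ∀ w : C(Cb, X) → K, (CS.top X).Rel k w → Finsupp.linearCombination K w c = 0) :
    c ∈ S.Q K (k : ℤ) := by
  classical
  rw [CS.C, Finsupp.mem_supported] at hc
  rw [CS.Q, Finsupp.mem_supported]
  intro τ hτ
  refine ⟨(hc hτ).1, (hc hτ).2, Or.inr ?_⟩
  by_contra hdeg
  have h1 := h (fun σ => if σ = τ then 1 else 0) (by
    intro σ _ _ hσ
    have h2 : σ ≠ τ := by
      rintro rfl
      rcases hσ with hσ | hσ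
      · exact hσ
      · exact hdeg hσ
    simp [h2])
  rw [Finsupp.linearCombination_apply, Finsupp.sum] at h1
  simp only [smul_eq_mul, mul_ite, mul_one, mul_zero, Finset.sum_ite_eq'] at h1
  have hτ' : τ ∈ c.support := hτ
  rw [if_pos hτ'] at h1
  exact (Finsupp.mem_support_iff.mp hτ') h1

/-- The cap product of a cycle with a cocycle is a cycle. -/
theorem capL_mem_Z (S : CS X) (hS : ∀ σ, ¬ S.nul σ) {i j : ℕ} {u : C(Cb, X) → K}
    (hu : (CS.top X).Coc j u) {ξ : Ch K X} (hξ : ξ ∈ S.Z K ((i + 1 + j : ℕ) : ℤ)) :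
    capL (i + 1) j u ξ ∈ S.Z K ((i + 1 : ℕ) : ℤ) := by
  refine ⟨capL_mem_C S u hξ.1, ?_⟩
  show bd ((i + 1 : ℕ) : ℤ) (capL (i + 1) j u ξ) ∈ S.Q K (((i + 1 : ℕ) : ℤ) - 1)
  have e1 : (((i + 1 : ℕ) : ℤ) - 1) = (i : ℤ) := by push_cast; ring
  have h1 := mem_C_bd S (capL_mem_C S u hξ.1)
  rw [e1] at h1 ⊢
  refine mem_Q_of_lc S h1 fun w hw => ?_
  rw [lc_bd, lc_capL]
  have e2 : i + 1 + j = i + j + 1 := by omega
  have hξC : ξ ∈ Finsupp.supported K K {σ : C(Cb, X) | IsCube ((i + j + 1 : ℕ) : ℤ) σ ∧ S.ok σ} := by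
    have := hξ.1
    rw [CS.C, e2] at this
    exact this
  have h3 : Finsupp.linearCombination K (cup AddMonoidHom.mul (i + 1) j (dl i w) u) ξ =
      Finsupp.linearCombination K (dl (i + j) (cup AddMonoidHom.mul i j w u)) ξ := by
    refine lc_congr hξC fun σ hσ => ?_
    rw [dl_cup _ _ _ _ _ hσ.1]
    have h4 : cup AddMonoidHom.mul i (j + 1) w (dl j u) σ = 0 := by
      refine Finset.sum_eq_zero fun H hH => ?_
      have h5 := isCube_fc (n := i + (j + 1)) (w := wbk H) hσ.1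
      rw [card_wbk hH] at h5
      rw [hu.2 _ h5 trivial, map_zero, smul_zero]
    rw [h4, smul_zero, add_zero]
  rw [h3, ← lc_bd]
  have h6 : bd ((i + 1 + j : ℕ) : ℤ) ξ ∈ S.Q K (((i + 1 + j : ℕ) : ℤ) - 1) := hξ.2
  have e3 : (((i + 1 + j : ℕ) : ℤ) - 1) = ((i + j : ℕ) : ℤ) := by push_cast; ring
  have e4 : ((i + 1 + j : ℕ) : ℤ) = ((i + j + 1 : ℕ) : ℤ) := by push_cast; ring
  rw [e3, e4] at h6
  refine lc_zero h6 fun σ hσ => ?_
  have h7 := cup_rel (CS.top X) (CS.top X) rfl AddMonoidHom.mul hw hu.1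
  refine h7 σ hσ.1 trivial (Or.inr ?_)
  rcases hσ.2.2 with h | h
  · exact absurd h (hS σ)
  · exact h

end chains

section top

variable {X : Type} [TopologicalSpace X] {K : Type} [Field K]

theorem top_C (k : ℤ) : (CS.top X).C K k = CubeHom.C K k (Set.univ : Set X) := by
  unfold CS.C CubeHom.C
  congr 1
  ext σ
  simp [CS.top]

theorem top_Q (k : ℤ) : (CS.top X).Q K k = CubeHom.Q K k (∅ : Set X) := by
  unfold CS.Q CubeHom.Q
  congr 1
  ext σ
  have h : ¬ ∀ u : Cb, σ u ∈ (∅ : Set X) := fun h => h (fun _ => 0)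
  simp [CS.top]

/-- Replacing the fundamental cycle by a homologous one does not change the pairing with `μ`. -/
theorem mu_bd {μ : C(Cb, X × X) → K} {d : ℕ} (hμ : (offD X).Coc d μ) {c : Ch K X}
    (hc : (CS.top X).Bd K (d : ℤ) c) {v : C(Cb, X)} (hv : IsCube 0 v) :
    Finsupp.linearCombination K μ (cr 0 (Finsupp.single v 1) c) = 0 := by
  refine coc_bd (offD X) hμ ?_
  have h1 : CubeHom.Bd K (d : ℤ) Set.univ (∅ : Set X) c := by
    obtain ⟨b, hb, hq⟩ := hc
    rw [top_C] at hb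
    rw [top_Q] at hq
    exact ⟨b, hb, hq⟩
  have h2 : Finsupp.single v (1 : K) ∈ CubeHom.Z K ((0 : ℕ) : ℤ) Set.univ (∅ : Set X) := by
    refine ⟨Finsupp.single_mem_supported K _ ⟨hv, fun _ => Set.mem_univ _⟩, ?_⟩
    show bd ((0 : ℕ) : ℤ) (Finsupp.single v (1 : K)) ∈
      CubeHom.Q K (((0 : ℕ) : ℤ) - 1) (∅ : Set X)
    rw [bd_of_nonpos (by simp)]
    exact Submodule.zero_mem _
  have h3 := Cq.cr_bd_right (A' := (∅ : Set (X × X))) h2 h1 (by simp) (by simp)
  obtain ⟨b, hb, hq⟩ := h3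
  have e : ((0 : ℕ) : ℤ) + (d : ℤ) = (d : ℤ) := by simp
  rw [e] at hb hq
  rw [CubeHom.C, Finsupp.mem_supported] at hb
  rw [CubeHom.Q, Finsupp.mem_supported] at hq
  refine ⟨b, ?_, ?_⟩
  · rw [CS.C, Finsupp.mem_supported]
    exact fun σ hσ => ⟨(hb hσ).1, Set.univ, rfl, fun _ => Set.mem_univ _⟩
  · rw [CS.Q, Finsupp.mem_supported]
    refine fun σ hσ => ⟨(hq hσ).1, ⟨Set.univ, rfl, fun _ => Set.mem_univ _⟩, ?_⟩
    rcases (hq hσ).2 with h | h
    · exact absurd (h fun _ => 0) (Set.notMem_empty _)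
    · exact Or.inr h

/-- The cup product of cocycles. -/
theorem cup_coc {i j : ℕ} {v u : C(Cb, X) → K} (hv : (CS.top X).Coc i v)
    (hu : (CS.top X).Coc j u) : (CS.top X).Coc (i + j) (cup AddMonoidHom.mul i j v u) := by
  refine ⟨fun σ h1 h2 h3 => ?_, fun σ hσ _ => ?_⟩
  · have h4 := cup_rel (CS.top X) (CS.top X) rfl AddMonoidHom.mul hv.1 hu.1
    refine h4 σ h1 h2 ?_
    rcases h3 with h | h
    · exact Or.inl (Or.inl h)
    · exact Or.inr h
  · rw [dl_cup _ _ _ _ _ hσ]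
    have h1 : cup AddMonoidHom.mul (i + 1) j (dl i v) u σ = 0 := by
      refine Finset.sum_eq_zero fun H hH => ?_
      have e : i + 1 + j = i + j + 1 := by omega
      have h5 := isCube_fc (n := i + 1 + j) (w := wfr H) (e ▸ hσ)
      rw [card_wfr hH] at h5
      rw [hv.2 _ h5 trivial, map_zero, AddMonoidHom.zero_apply, smul_zero]
    have h2 : cup AddMonoidHom.mul i (j + 1) v (dl j u) σ = 0 := by
      refine Finset.sum_eq_zero fun H hH => ?_
      have h5 := isCube_fc (n := i + (j + 1)) (w := wbk H) hσ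
      rw [card_wbk hH] at h5
      rw [hu.2 _ h5 trivial, map_zero, smul_zero]
    rw [h1, h2, smul_zero, add_zero]

theorem dl_mul (k : ℕ) (a : K) (v : C(Cb, X) → K) (σ : C(Cb, X)) :
    dl k (fun τ => a * v τ) σ = a * dl k v σ := by
  simp only [dl, Finset.mul_sum, mul_smul_comm, mul_sub]

theorem coc_mul {S : CS X} {k : ℕ} (a : K) {v : C(Cb, X) → K} (hv : S.Coc k v) :
    S.Coc k (fun τ => a * v τ) := by
  refine ⟨fun σ h1 h2 h3 => ?_, fun σ h1 h2 => ?_⟩
  · show a * v σ = 0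
    rw [hv.1 σ h1 h2 h3, mul_zero]
  · rw [dl_mul, hv.2 σ h1 h2, mul_zero]

theorem cup_mul (i j : ℕ) (a : K) (v u : C(Cb, X) → K) :
    cup AddMonoidHom.mul i j (fun τ => a * v τ) u =
      fun σ => a * cup AddMonoidHom.mul i j v u σ := by
  funext σ
  simp only [cup, Finset.mul_sum, mul_smul_comm, AddMonoidHom.mul_apply, mul_assoc]

theorem lc_mul (a : K) (v : C(Cb, X) → K) (c : Ch K X) :
    Finsupp.linearCombination K (fun σ => a * v σ) c = a * Finsupp.linearCombination K v c := by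
  simp only [Finsupp.linearCombination_apply, Finsupp.sum, smul_eq_mul, Finset.mul_sum]
  exact Finset.sum_congr rfl fun σ _ => by ring

/-- A cycle on which all cocycles vanish is a boundary. -/
theorem bd_of_pairing (S : CS X) {k : ℕ} {c : Ch K X} (hc : c ∈ S.Z K (k : ℤ))
    (h : ∀ v : C(Cb, X) → K, S.Coc k v → Finsupp.linearCombination K v c = 0) :
    S.Bd K (k : ℤ) c := by
  let B : Submodule K (S.Z K (k : ℤ)) :=
    { carrier := {c | S.Bd K (k : ℤ) (c : Ch K X)}
      add_mem' := by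
        rintro c c' ⟨b, hb, hq⟩ ⟨b', hb', hq'⟩
        refine ⟨b + b', Submodule.add_mem _ hb hb', ?_⟩
        have h1 := Submodule.add_mem _ hq hq'
        convert h1 using 1
        rw [map_add, Submodule.coe_add]
        abel
      zero_mem' := ⟨0, Submodule.zero_mem _, by
        rw [map_zero, sub_zero]
        exact Submodule.zero_mem _⟩
      smul_mem' := by
        rintro a c ⟨b, hb, hq⟩
        refine ⟨a • b, Submodule.smul_mem _ _ hb, ?_⟩
        have h1 := Submodule.smul_mem _ a hq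
        convert h1 using 1
        rw [map_smul, Submodule.coe_smul, smul_sub] }
  by_contra hc'
  have hnB : (⟨c, hc⟩ : S.Z K (k : ℤ)) ∉ B := hc'
  obtain ⟨φ, hφ, hB⟩ := Submodule.exists_le_ker_of_notMem (K := K) (V := S.Z K (k : ℤ)) hnB
  obtain ⟨v, hv, hv'⟩ := exists_cocycle extProp_field S φ fun c hc => hB hc
  apply hφ
  rw [← hv']
  exact h v hv

end top

end PDd

open PDd in
/-- 8.4. Poincare duality over a field. (The trivial covering `E = F`; the cap product of a
cocycle which is not a coboundary does not bound.) -/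
theorem pdual {F : Type} [TopologicalSpace F] [T2Space F] [CompactSpace F] (hF : ENR F) {d : ℕ}
    (hd : LocEuc d F) {K : Type} [Field K] {ξ : Ch K F} (hξ : ξ ∈ (CS.top F).Z K (d : ℤ))
    {μ : C(Cb, F × F) → K} (hμ : (offD F).Coc d μ)
    (h1 : ∀ v : C(Cb, F), IsCube 0 v →
      Finsupp.linearCombination K μ (cr 0 (Finsupp.single v 1) ξ) = 1) : PDual F d K ξ := by
  intro i j hi hij u hu hncob
  obtain ⟨i, rfl⟩ : ∃ i', i = i' + 1 := ⟨i - 1, by omega⟩
  subst hij
  by_contra hno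
  have hz : ∀ v : C(Cb, F) → K, (CS.top F).Coc (i + 1) v →
      Finsupp.linearCombination K (cup AddMonoidHom.mul (i + 1) (j + 1) v u) ξ = 0 := by
    intro v hv
    by_contra hne
    refine hno ⟨fun σ => (Finsupp.linearCombination K
      (cup AddMonoidHom.mul (i + 1) (j + 1) v u) ξ)⁻¹ * v σ, coc_mul _ hv, ?_⟩
    rw [cup_mul, lc_mul, inv_mul_cancel₀ hne]
  let _ : MulAction Unit F :=
    { smul := fun _ x => x, one_smul := fun _ => rfl, mul_smul := fun _ _ _ => rfl }
  let C : RCov Unit F (Set.univ : Set F) :=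
    { p := ContinuousMap.id F
      range := Set.range_id
      cov := fun x _ => IsEvenlyCovered.to_isEvenlyCovered_preimage (I := Unit)
        ⟨inferInstance, Set.univ, Set.mem_univ _, isOpen_univ, isOpen_univ,
          (Homeomorph.prodPUnit _).symm, fun _ => rfl⟩
      cont := fun _ => continuous_id
      p_smul := fun _ _ => rfl
      free := fun _ _ _ => rfl
      trans := fun e e' h => ⟨1, h⟩ }
  obtain ⟨Fi, hp, -, -⟩ := exists_fine hF hd isOpen_univ C {Set.univ} (by simp) (by simp)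
  have hp' : Fi.p = ContinuousMap.id F := hp
  have hcov : ⋃₀ Fi.𝒱 = Set.univ := by
    rw [Set.eq_univ_iff_forall]
    intro x
    obtain ⟨V, hV, hx⟩ := Fi.covV x
    rw [hp'] at hx
    exact ⟨V, hV, hx⟩
  have hSm : ∀ s : C(Cb, F), Fi.Sm s ↔ (CS.mk' Fi.𝒱 ∅).ok s := by
    intro s
    unfold FineCov.Sm
    rw [hp']
    rfl
  obtain ⟨ξ', hξ', hbd⟩ := small_cycle Fi.openV hcov hξ
  have hz' : ∀ v : C(Cb, F) → K, (CS.top F).Coc (i + 1) v →
      Finsupp.linearCombination K v (capL (i + 1) (j + 1) u ξ') = 0 := by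
    intro v hv
    rw [lc_capL, ← hz v hv]
    have h2 := coc_bd (CS.top F) (cup_coc hv hu) hbd
    rw [map_sub, sub_eq_zero] at h2
    exact h2.symm
  have hζ := capL_mem_Z (CS.mk' Fi.𝒱 ∅) (fun σ ⟨V, hV, _⟩ => hV) hu hξ'
  have hζtop : capL (i + 1) (j + 1) u ξ' ∈ (CS.top F).Z K ((i + 1 : ℕ) : ℤ) := by
    have h3 : capL (i + 1) (j + 1) u ξ' ∈ (CS.mk' Fi.𝒱 ∅).C K ((i + 1 : ℕ) : ℤ) := hζ.1
    have h4 : bd ((i + 1 : ℕ) : ℤ) (capL (i + 1) (j + 1) u ξ') ∈
      (CS.mk' Fi.𝒱 ∅).Q K (((i + 1 : ℕ) : ℤ) - 1) := hζ.2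
    rw [CS.C, Finsupp.mem_supported] at h3
    rw [CS.Q, Finsupp.mem_supported] at h4
    refine ⟨?_, ?_⟩
    · rw [SetLike.mem_coe, CS.C, Finsupp.mem_supported]
      exact fun σ hσ => ⟨(h3 hσ).1, trivial⟩
    · show bd ((i + 1 : ℕ) : ℤ) (capL (i + 1) (j + 1) u ξ') ∈
        (CS.top F).Q K (((i + 1 : ℕ) : ℤ) - 1)
      rw [CS.Q, Finsupp.mem_supported]
      refine fun σ hσ => ⟨(h4 hσ).1, trivial, Or.inr ?_⟩
      rcases (h4 hσ).2.2 with ⟨V, hV, _⟩ | h
      · exact absurd hV (Set.notMem_empty _)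
      · exact h
  obtain ⟨b, hb, hbq⟩ := small_bd Fi.openV hcov hζ (bd_of_pairing _ hζtop hz')
  have hb' := (Finsupp.mem_supported K b).mp hb
  have hbq' := (Finsupp.mem_supported K _).mp hbq
  have hξC := (Finsupp.mem_supported K ξ').mp hξ'.1
  obtain ⟨ρ, hρ⟩ : ∃ ρ : Representation K Unit K, ρ = Representation.trivial K Unit K := ⟨_, rfl⟩
  obtain ⟨ε, -, η, -, hηd, hη⟩ := Fi.duality ρ hμ hu
    (by
      intro g σ
      rw [hρ, Representation.trivial_apply]
      congr 1)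
    (ξ := ξ')
    (by
      rw [CubeHom.C, Finsupp.mem_supported]
      exact fun σ hσ => ⟨(hξC hσ).1, fun _ => Set.mem_univ _⟩)
    (fun t ht => (hξC ht).2) (M := Set.univ)
    (by
      intro v hv _
      have h2 := mu_bd hμ hbd hv
      rw [map_sub, map_sub, h1 v hv, sub_eq_zero] at h2
      exact h2.symm)
    (by
      intro t ht
      left
      have h2 := (Finsupp.mem_supported K _).mp
        (show bd ((i + 1 + (j + 1) : ℕ) : ℤ) ξ' ∈
          (CS.mk' Fi.𝒱 ∅).Q K (((i + 1 + (j + 1) : ℕ) : ℤ) - 1) from hξ'.2)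
      rcases (h2 ht).2.2 with ⟨V, hV, _⟩ | h
      · exact absurd hV (Set.notMem_empty _)
      · exact h)
    (fun t => t) (fun t _ => by rw [hp']; rfl)
  -- the chain ζ and the pairing
  have hclaim1 : ∀ s : C(Cb, F), ∑ t ∈ ξ'.support, ξ' t •
      Fi.capS μ ρ (i + 1 + (j + 1)) (j + 1) u t s =
        Fi.SSc μ ρ (j + 1) 1 (capL (i + 1) (j + 1) u ξ') s := by
    intro s
    have h2 : ∀ c : Ch K F, Fi.SSc μ ρ (j + 1) 1 c s =
        Finsupp.linearCombination K (fun τ => Fi.SS μ ρ (j + 1) 1 τ s) c := fun c => by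
      rw [Finsupp.linearCombination_apply]
      rfl
    rw [h2, capL, Finsupp.linearCombination_apply K ξ', Finsupp.sum, map_sum]
    refine Finset.sum_congr rfl fun t _ => ?_
    rw [map_smul, capT, map_sum, FineCov.capS, show i + 1 + (j + 1) - (j + 1) = i + 1 by omega]
    congr 1
    refine Finset.sum_congr rfl fun H _ => ?_
    rw [map_zsmul, Finsupp.linearCombination_single, ← FineCov.SS_smul_left, smul_eq_mul, mul_one]
  have hclaim2 : ∀ s : C(Cb, F), IsCube ((j + 1 : ℕ) : ℤ) s → Fi.Sm s →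
      Fi.SSc μ ρ (j + 1) 1 (capL (i + 1) (j + 1) u ξ') s =
        Fi.SSc μ ρ (j + 1) 1 (bd (((i + 1 : ℕ) : ℤ) + 1) b) s := by
    intro s hs hs'
    have h2 : ∀ c : Ch K F, Fi.SSc μ ρ (j + 1) 1 c s =
        Finsupp.linearCombination K (fun τ => Fi.SS μ ρ (j + 1) 1 τ s) c := fun c => by
      rw [Finsupp.linearCombination_apply]
      rfl
    rw [h2, h2, ← sub_eq_zero, ← map_sub]
    refine lc_zero hbq fun τ hτ => ?_
    have h3 : Degen ((i + 1 : ℕ) : ℤ) τ := by
      rcases hτ.2.2 with ⟨V, hV, _⟩ | h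
      · exact absurd hV (Set.notMem_empty _)
      · exact h
    exact Fi.SS_degen hμ (by omega) hτ.1 hs (Or.inr h3)
  have hclaim3 : ∀ s : C(Cb, F), IsCube ((j + 1 : ℕ) : ℤ) s → Fi.Sm s →
      dl j (fun s => Fi.SSc μ ρ j 1 b s) s =
        (-1 : K) ^ j * Fi.SSc μ ρ (j + 1) 1 (bd (((i + 1 : ℕ) : ℤ) + 1) b) s := by
    intro s hs hs'
    have h2 : ∀ c : Ch K F, Fi.SSc μ ρ (j + 1) 1 c s =
        Finsupp.linearCombination K (fun τ => Fi.SS μ ρ (j + 1) 1 τ s) c := fun c => by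
      rw [Finsupp.linearCombination_apply]
      rfl
    have h3 : dl j (fun s => Fi.SSc μ ρ j 1 b s) s =
        ∑ τ ∈ b.support, b τ * dl j (Fi.SS μ ρ j 1 τ) s := by
      simp only [dl, FineCov.SSc, Finsupp.sum, smul_eq_mul, Finset.mul_sum, mul_smul_comm]
      rw [Finset.sum_comm]
      refine Finset.sum_congr rfl fun k _ => ?_
      rw [← Finset.sum_sub_distrib, Finset.smul_sum]
      refine Finset.sum_congr rfl fun τ _ => ?_
      rw [mul_sub]
    have h4 : bd (((i + 1 : ℕ) : ℤ) + 1) b =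
        ∑ τ ∈ b.support, b τ • bd (((i + 1 : ℕ) : ℤ) + 1) (Finsupp.single τ (1 : K)) := by
      conv_lhs => rw [← Finsupp.sum_single b, Finsupp.sum, map_sum]
      refine Finset.sum_congr rfl fun τ _ => ?_
      rw [← map_smul, Finsupp.smul_single, smul_eq_mul, mul_one]
    rw [h3, h2, h4, map_sum, Finset.mul_sum]
    refine Finset.sum_congr rfl fun τ hτ => ?_
    have e2 : (((i + 1 : ℕ) : ℤ) + 1) = ((i + 2 : ℕ) : ℤ) := by push_cast; ring
    have h5 := Fi.dl_SS (ρ := ρ) (l := 1) (m := j) (n := i + 2) hμ (by omega)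
      ((hSm τ).2 (hb' hτ).2) hs' (by rw [← e2]; exact (hb' hτ).1) hs
    rw [h5, map_smul, ← h2, e2, smul_eq_mul]
    simp only [zsmul_eq_mul, Int.cast_pow, Int.cast_neg, Int.cast_one]
    ring
  apply hncob
  have hcob : (CS.mk' Fi.𝒱 ∅).Cob j u := by
    refine ⟨fun s => (ε * (-1 : K) ^ j) * Fi.SSc μ ρ j 1 b s + η s, ?_, ?_⟩
    · intro σ h2 h3 h4
      have h5 : Degen (j : ℤ) σ := by
        rcases h4 with ⟨V, hV, _⟩ | h
        · exact absurd hV (Set.notMem_empty _)
        · exact h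
      have h6 : Fi.SSc μ ρ j 1 b σ = 0 := by
        unfold FineCov.SSc
        refine Finset.sum_eq_zero fun τ hτ => ?_
        have e2 : (((i + 1 : ℕ) : ℤ) + 1) = ((i + 2 : ℕ) : ℤ) := by push_cast; ring
        have h7 : Fi.SS μ ρ j 1 τ σ = 0 :=
          Fi.SS_degen (n := i + 2) hμ (by omega) (by rw [← e2]; exact (hb' hτ).1) h2 (Or.inl h5)
        show b τ • Fi.SS μ ρ j 1 τ σ = 0
        rw [h7, smul_zero]
      show (ε * (-1 : K) ^ j) * Fi.SSc μ ρ j 1 b σ + η σ = 0
      rw [h6, hηd σ h2 h5, mul_zero, add_zero]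
    · intro σ h2 h3
      have h4 := (hSm σ).2 h3
      have h5 := hη σ h2 h4 (fun _ => Set.mem_univ _)
      rw [hclaim1, hclaim2 σ h2 h4] at h5
      have h6 : dl j (fun s => (ε * (-1 : K) ^ j) * Fi.SSc μ ρ j 1 b s + η s) σ =
          (ε * (-1 : K) ^ j) * dl j (fun s => Fi.SSc μ ρ j 1 b s) σ + dl j η σ := by
        rw [← dl_mul]
        simp only [dl]
        rw [← Finset.sum_add_distrib]
        refine Finset.sum_congr rfl fun k _ => ?_
        rw [← smul_add]
        congr 1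
        ring
      rw [h6, hclaim3 σ h2 h4, h5, smul_eq_mul]
      have e3 : (-1 : K) ^ j * (-1 : K) ^ j = 1 := by
        rw [← mul_pow]; simp
      linear_combination (-ε * Fi.SSc μ ρ (j + 1) 1 (bd (((i + 1 : ℕ) : ℤ) + 1) b) σ) * e3
  refine uct_field (CS.top F) hu fun c hc => ?_
  obtain ⟨c', hc', hcc⟩ := small_cycle Fi.openV hcov hc
  have h2 := coc_bd (CS.top F) hu hcc
  rw [map_sub, cob_cyc _ hcob hc', sub_zero] at h2
  exact h2

end Pool.Agent.TC
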