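import Pool.Agent.Lib.TC.ZDD

/-!
# Section 9: zero divisors, row ZD3
-/

namespace Pool.Agent.TC

open CubeHom

variable {F : Type} [TopologicalSpace F]

/-- The coboundary commutes with homomorphisms of the coefficients. -/
theorem dl_hom {A B : Type*} [AddCommGroup A] [AddCommGroup B] (f : A →+ B) (k : ℕ)
    (u : C(Cb, F) → A) (σ : C(Cb, F)) : dl k (fun τ => f (u τ)) σ = f (dl k u σ) := by
  unfold dl
  rw [map_sum]
  refine Finset.sum_congr rfl fun i _ => ?_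
  rw [map_zsmul, map_sub]

/-- Cocycles with trivial Bockstein lift to `ℤ/4`. -/
theorem lift4 (S : CS F) {j : ℕ} (hj : 1 ≤ j) {u : C(Cb, F) → ZMod 2} (hu : S.Coc j u)
    (h : S.Cob j (sq1 j u)) :
    ∃ v : C(Cb, F) → ZMod 4, S.Coc j v ∧
      ∀ σ, ZMod.castHom (show 2 ∣ 4 by norm_num) (ZMod 2) (v σ) = u σ := by
  obtain ⟨w, hw, hw'⟩ := h
  refine ⟨fun σ => Int.castAddHom (ZMod 4) (((u σ).val : ℤ) - 2 * ((w σ).val : ℤ)),
    ⟨fun σ h1 h2 h3 => ?_, fun σ h1 h2 => ?_⟩, fun σ => ?_⟩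
  · change Int.castAddHom (ZMod 4) (((u σ).val : ℤ) - 2 * ((w σ).val : ℤ)) = 0
    rw [hu.1 σ h1 h2 h3, hw σ h1 h2 h3]
    simp
  · rw [dl_hom (Int.castAddHom (ZMod 4)) j (fun σ => ((u σ).val : ℤ) - 2 * ((w σ).val : ℤ)) σ]
    have e1 : dl j (fun τ => ((u τ).val : ℤ) - 2 * ((w τ).val : ℤ)) σ =
        dl j (fun τ => ((u τ).val : ℤ)) σ - 2 * dl j (fun τ => ((w τ).val : ℤ)) σ := by
      unfold dl
      rw [Finset.mul_sum, ← Finset.sum_sub_distrib]
      refine Finset.sum_congr rfl fun i _ => ?_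
      simp only [smul_eq_mul]
      ring
    have e2 := sq1_bockstein hj h1 (hu.2 σ h1 h2)
    have e3 : Int.castAddHom (ZMod 2) (dl j (fun τ => ((w τ).val : ℤ)) σ) = sq1 j u σ := by
      rw [← dl_hom (Int.castAddHom (ZMod 2)) j (fun τ => ((w τ).val : ℤ)) σ, hw' σ h1 h2]
      congr 1
      funext τ
      simp
    have e4 : dl j (fun τ => ((w τ).val : ℤ)) σ ≡ ((sq1 j u σ).val : ℤ) [ZMOD 2] := by
      have h5 : ((dl j (fun τ => ((w τ).val : ℤ)) σ : ℤ) : ZMod 2) =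
          (((sq1 j u σ).val : ℤ) : ZMod 2) := by
        rw [← e3]
        simp
      exact (ZMod.intCast_eq_intCast_iff _ _ 2).1 h5
    have e5 : 2 * dl j (fun τ => ((w τ).val : ℤ)) σ ≡ 2 * ((sq1 j u σ).val : ℤ) [ZMOD 4] := by
      have := e4.mul_left' (c := 2)
      simpa using this
    rw [e1]
    have e6 : dl j (fun τ => ((u τ).val : ℤ)) σ - 2 * dl j (fun τ => ((w τ).val : ℤ)) σ ≡ 0
        [ZMOD 4] := by
      have := e2.sub e5
      simpa using this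
    have h7 := (ZMod.intCast_eq_intCast_iff _ _ 4).2 e6
    simpa using h7
  · have h1 : Int.castAddHom (ZMod 4) (((u σ).val : ℤ) - 2 * ((w σ).val : ℤ)) =
      (((u σ).val : ℤ) : ZMod 4) - 2 * (((w σ).val : ℤ) : ZMod 4) := by simp
    change ZMod.castHom (show 2 ∣ 4 by norm_num) (ZMod 2)
      (Int.castAddHom (ZMod 4) (((u σ).val : ℤ) - 2 * ((w σ).val : ℤ))) = u σ
    rw [h1, map_sub, map_mul, map_intCast, map_intCast, map_ofNat]
    have h2 : (2 : ZMod 2) = 0 := rfl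
    have h3 : (OfNat.ofNat 2 : ZMod 2) = 0 := rfl
    rw [h3, zero_mul, sub_zero]
    simp

end Pool.Agent.TC
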