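import Pool.Agent.Lib.TC.ZD2
import Pool.Agent.Lib.TC.ZD3

/-!
Row ZD4: `zd_conclusion`. Needs `PDual`, `zd_off`, `zd_two`, `lift4` of ZD.lean before it; paste
in place of the sorried statement.
-/

namespace Pool.Agent.TC

open CubeHom

variable {F : Type} [TopologicalSpace F]

namespace ZD4Aux

/-- A nonzero homology class is detected by a cocycle. -/
theorem hz_witness {K : Type} [Field K] (S : CS F) {k : ℕ} (h : ¬ S.Hz K (k : ℤ)) :
    ∃ w : C(Cb, F) → K, S.Coc k w ∧ ∃ b ∈ S.Z K (k : ℤ), Finsupp.linearCombination K w b ≠ 0 := by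
  unfold CS.Hz at h
  push Not at h
  obtain ⟨c, hc, hn⟩ := h
  let B : Submodule K (S.Z K (k : ℤ)) :=
    { carrier := {x | S.Bd K (k : ℤ) (x : Ch K F)}
      add_mem' := by
        rintro x y ⟨a, ha, ha'⟩ ⟨b, hb, hb'⟩
        refine ⟨a + b, Submodule.add_mem _ ha hb, ?_⟩
        have e : ((x + y : S.Z K (k : ℤ)) : Ch K F) - bd ((k : ℤ) + 1) (a + b) =
            ((x : Ch K F) - bd ((k : ℤ) + 1) a) + ((y : Ch K F) - bd ((k : ℤ) + 1) b) := by
          rw [map_add, Submodule.coe_add]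
          abel
        rw [e]
        exact Submodule.add_mem _ ha' hb'
      zero_mem' := by
        refine ⟨0, Submodule.zero_mem _, ?_⟩
        rw [map_zero, sub_zero]
        exact Submodule.zero_mem _
      smul_mem' := by
        rintro r x ⟨a, ha, ha'⟩
        refine ⟨r • a, Submodule.smul_mem _ _ ha, ?_⟩
        rw [map_smul, Submodule.coe_smul, ← smul_sub]
        exact Submodule.smul_mem _ _ ha' }
  have hcB : (⟨c, hc⟩ : S.Z K (k : ℤ)) ∉ B := hn
  obtain ⟨φ, h1, h2⟩ := @Submodule.exists_dual_map_eq_bot_of_notMem K (S.Z K (k : ℤ)) _ _ _ B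
    ⟨c, hc⟩ hcB inferInstance
  obtain ⟨w, hw, hw'⟩ := exists_cocycle extProp_field S φ (fun x hx => by
    have hx' : φ x ∈ B.map φ := Submodule.mem_map_of_mem (f := φ) hx
    rw [h2] at hx'
    exact (Submodule.mem_bot K).1 hx')
  exact ⟨w, hw, c, hc, by rw [hw' ⟨c, hc⟩]; exact h1⟩

/-- A cocycle which does not vanish on a cycle is not a coboundary. -/
theorem not_cob {R : Type} [CommRing R] (S : CS F) {k : ℕ} {w : C(Cb, F) → R} {b : Ch R F}
    (hb : b ∈ S.Z R ((k + 1 : ℕ) : ℤ)) (h : Finsupp.linearCombination R w b ≠ 0) :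
    ¬ S.Cob k w := fun hc => h (cob_cyc S hc hb)

theorem card_wfr {n : ℕ} {H : Finset ℕ} (hH : H ⊆ Finset.range n) :
    ((Finset.range n).filter (fun i => wfr H i = none)).card = H.card := by
  congr 1
  ext i
  simp only [Finset.mem_filter, wfr]
  constructor
  · rintro ⟨_, h⟩
    by_contra hi
    simp [hi] at h
  · intro h
    exact ⟨hH h, by simp [h]⟩

theorem card_wbk {n : ℕ} {H : Finset ℕ} (hH : H ⊆ Finset.range n) :
    ((Finset.range n).filter (fun i => wbk H i = none)).card = n - H.card := by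
  have e : (Finset.range n).filter (fun i => wbk H i = none) = Finset.range n \ H := by
    ext i
    simp only [Finset.mem_filter, wbk, Finset.mem_sdiff]
    constructor
    · rintro ⟨h1, h⟩
      refine ⟨h1, fun hi => ?_⟩
      simp [hi] at h
    · rintro ⟨h1, h⟩
      exact ⟨h1, by simp [h]⟩
  rw [e, Finset.card_sdiff_of_subset hH, Finset.card_range]

theorem cup_zero_left {A A' A'' : Type} [AddCommGroup A] [AddCommGroup A'] [AddCommGroup A'']
    (S : CS F) (β : A →+ A' →+ A'') {p q : ℕ} {u : C(Cb, F) → A} (v : C(Cb, F) → A')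
    (hu : ∀ τ, IsCube (p : ℤ) τ → S.ok τ → u τ = 0) {σ : C(Cb, F)}
    (hσ : IsCube ((p + q : ℕ) : ℤ) σ) (hok : S.ok σ) : cup β p q u v σ = 0 := by
  unfold cup
  refine Finset.sum_eq_zero fun H hH => ?_
  rw [Finset.mem_powersetCard] at hH
  have h1 := isCube_fc (w := wfr H) hσ
  rw [card_wfr hH.1, hH.2] at h1
  rw [hu _ h1 (S.ok_comp _ _ hok), map_zero, AddMonoidHom.zero_apply, smul_zero]

theorem cup_zero_right {A A' A'' : Type} [AddCommGroup A] [AddCommGroup A'] [AddCommGroup A'']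
    (S : CS F) (β : A →+ A' →+ A'') {p q : ℕ} (u : C(Cb, F) → A) {v : C(Cb, F) → A'}
    (hv : ∀ τ, IsCube (q : ℤ) τ → S.ok τ → v τ = 0) {σ : C(Cb, F)}
    (hσ : IsCube ((p + q : ℕ) : ℤ) σ) (hok : S.ok σ) : cup β p q u v σ = 0 := by
  unfold cup
  refine Finset.sum_eq_zero fun H hH => ?_
  rw [Finset.mem_powersetCard] at hH
  have h1 := isCube_fc (w := wbk H) hσ
  rw [card_wbk hH.1, hH.2, Nat.add_sub_cancel_left] at h1
  rw [hv _ h1 (S.ok_comp _ _ hok), map_zero, smul_zero]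

/-- The cup product of cocycles is a cocycle. -/
theorem cup_coc {R : Type} [CommRing R] (S : CS F) {p q : ℕ} {u v : C(Cb, F) → R}
    (hu : S.Coc p u) (hv : S.Coc q v) : S.Coc (p + q) (cup AddMonoidHom.mul p q u v) := by
  refine ⟨fun σ h1 h2 h3 => ?_, fun σ h1 h2 => ?_⟩
  · exact cup_rel S S rfl AddMonoidHom.mul hu.1 hv.1 σ h1 h2 (h3.imp Or.inl id)
  · rw [dl_cup AddMonoidHom.mul p q u v h1]
    rw [cup_zero_left S AddMonoidHom.mul v hu.2 (by rwa [show p + 1 + q = p + q + 1 by omega]) h2,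
      cup_zero_right S AddMonoidHom.mul u hv.2 h1 h2, smul_zero, add_zero]

/-- Sq^1 of a cocycle is a cocycle. -/
theorem sq1_coc (S : CS F) {j : ℕ} (hj : 1 ≤ j) {u : C(Cb, F) → ZMod 2} (hu : S.Coc j u) :
    S.Coc (j + 1) (sq1 j u) := by
  refine ⟨cupI_rel S (by omega : j + j = (j + 1) + (j - 1)) hu.1 hu.1, fun σ h1 h2 => ?_⟩
  have key : dl (j + 1) (fun τ => 2 * ((sq1 j u τ).val : ℤ)) σ ≡ 0 [ZMOD 4] := by
    have h0 := dl_dl j (fun τ => ((u τ).val : ℤ)) σ
    rw [← h0]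
    unfold dl
    refine Int.ModEq.sum fun i hi => ?_
    rw [Finset.mem_range] at hi
    have hf : ∀ e : I, IsCube ((j + 1 : ℕ) : ℤ) (σ.comp (ins i e)) := fun e => by
      have := h1.face (i := i) (by push_cast; omega) e
      rwa [show ((j + 1 + 1 : ℕ) : ℤ) - 1 = ((j + 1 : ℕ) : ℤ) by push_cast; ring] at this
    have hb : ∀ e : I, dl j (fun τ => ((u τ).val : ℤ)) (σ.comp (ins i e)) ≡
        2 * ((sq1 j u (σ.comp (ins i e))).val : ℤ) [ZMOD 4] := fun e =>
      sq1_bockstein hj (hf e) (hu.2 _ (hf e) (S.ok_comp _ _ h2))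
    rw [smul_eq_mul, smul_eq_mul]
    exact Int.ModEq.mul_left _ ((hb 1).symm.sub (hb 0).symm)
  have key2 : (2 : ℤ) ∣ dl (j + 1) (fun τ => ((sq1 j u τ).val : ℤ)) σ := by
    have e : dl (j + 1) (fun τ => 2 * ((sq1 j u τ).val : ℤ)) σ =
        2 * dl (j + 1) (fun τ => ((sq1 j u τ).val : ℤ)) σ := by
      unfold dl
      rw [Finset.mul_sum]
      refine Finset.sum_congr rfl fun i _ => ?_
      rw [smul_eq_mul, smul_eq_mul]
      ring
    rw [e, Int.modEq_zero_iff_dvd] at key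
    omega
  have e2 : dl (j + 1) (sq1 j u) σ =
      ((dl (j + 1) (fun τ => ((sq1 j u τ).val : ℤ)) σ : ℤ) : ZMod 2) := by
    unfold dl
    rw [Int.cast_sum]
    refine Finset.sum_congr rfl fun i _ => ?_
    have hc : ∀ x : ZMod 2, (((x.val : ℤ)) : ZMod 2) = x := fun x => by
      rw [Int.cast_natCast, ZMod.natCast_zmod_val]
    rw [smul_eq_mul, Int.cast_mul, Int.cast_sub, zsmul_eq_mul, hc, hc]
  rw [e2]
  exact (ZMod.intCast_zmod_eq_zero_iff_dvd _ 2).2 (by exact_mod_cast key2)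

theorem fin4 : ∀ (t : ZMod 4), 2 * (t * t) = 0 → ((t.val : ℕ) : ZMod 2) = 1 → False := by decide

/-- Evaluation and change of rings. -/
theorem map_eval {R R' : Type} [CommRing R] [CommRing R'] (g : R →+* R') (v : C(Cb, F) → R)
    (c : Ch ℤ F) :
    g (Finsupp.linearCombination R v (castCh R c)) =
      Finsupp.linearCombination R' (fun σ => g (v σ)) (castCh R' c) := by
  have h : (g.toAddMonoidHom.comp (Finsupp.linearCombination R v).toAddMonoidHom).comp
        (castCh R) =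
      (Finsupp.linearCombination R' (fun σ => g (v σ))).toAddMonoidHom.comp (castCh R') := by
    refine Finsupp.addHom_ext fun σ r => ?_
    simp [castCh_single]
  exact DFunLike.congr_fun h c

/-- Cup products and change of rings. -/
theorem map_cup {R R' : Type} [CommRing R] [CommRing R'] (g : R →+* R') (p q : ℕ)
    (u v : C(Cb, F) → R) (σ : C(Cb, F)) :
    g (cup AddMonoidHom.mul p q u v σ) =
      cup AddMonoidHom.mul p q (fun τ => g (u τ)) (fun τ => g (v τ)) σ := by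
  unfold cup
  rw [map_sum]
  refine Finset.sum_congr rfl fun H _ => ?_
  rw [map_zsmul, AddMonoidHom.mul_apply, AddMonoidHom.mul_apply, map_mul]

/-- Integral cycles give cycles over all rings. -/
theorem cast_cyc {R : Type} [CommRing R] (S : CS F) {k : ℤ} {c : Ch ℤ F} (hc : c ∈ S.Z ℤ k) :
    castCh R c ∈ S.Z R k := by
  obtain ⟨h1, h2⟩ := hc
  refine ⟨?_, ?_⟩
  · change c ∈ S.C ℤ k at h1
    change castCh R c ∈ S.C R k
    unfold CS.C at h1 ⊢
    rw [Finsupp.mem_supported] at h1 ⊢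
    exact (Finset.coe_subset.2 (Finsupp.support_mapRange (hf := by simp))).trans h1
  · change bd k c ∈ S.Q ℤ (k - 1) at h2
    change bd k (castCh R c) ∈ S.Q R (k - 1)
    rw [← castCh_bd]
    unfold CS.Q at h2 ⊢
    rw [Finsupp.mem_supported] at h2 ⊢
    exact (Finset.coe_subset.2 (Finsupp.support_mapRange (hf := by simp))).trans h2

/-- The lower and the upper bound for the degrees. -/
theorem deg_of {K : Type} [Field K] (hF : TC0le F 2) {i j d : ℕ} (hi : 1 ≤ i) (hj : 1 ≤ j)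
    (hd : i + j = d) {u v : C(Cb, F) → K} (hu : (CS.top F).Coc i u) (hv : (CS.top F).Coc j v)
    {ξ : Ch K F} (hξ : ξ ∈ (CS.top F).Z K (d : ℤ))
    (h : Finsupp.linearCombination K (cup AddMonoidHom.mul i j u v) ξ = 1) {l : ℕ} (hl : 1 ≤ l)
    (hld : l < d) (hN : ¬ (CS.top F).Hz K (l : ℤ)) : l = i ∨ l = j := by
  by_contra hc
  push Not at hc
  obtain ⟨w, hw, b, hb, hwb⟩ := hz_witness (CS.top F) hN
  subst hd
  have := zd_off hF hi hj hl hc.1 hc.2 (by omega) hu hv hw hξ hb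
  rw [h, one_mul] at this
  exact hwb this

end ZD4Aux

open ZD4Aux in
/-- 9.3, the conclusion. -/
theorem zd_conclusion (hF : TC0le F 2) {d : ℕ} (ξ : Ch ℤ F) (hξ : ξ ∈ (CS.top F).Z ℤ (d : ℤ))
    (hPD : ∀ (q : ℕ) [Fact q.Prime], PDual F d (ZMod q) (castCh (ZMod q) ξ))
    (hadj : ∀ (q : ℕ) [Fact q.Prime] (i : ℕ), 0 < i → i < d → ¬ (CS.top F).Hz (ZMod q) (i : ℤ) →
      ∃ j : ℕ, 1 ≤ j ∧ j + 2 ≤ d ∧ ¬ (CS.top F).Hz (ZMod q) (j : ℤ) ∧
        ¬ (CS.top F).Hz (ZMod q) ((j + 1 : ℕ) : ℤ))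
    (h1 : 3 ≤ d → (CS.top F).Hz (ZMod 2) 1) (q : ℕ) [hq : Fact q.Prime] :
    (∀ j : ℕ, 0 < j → j < d → (CS.top F).Hz (ZMod q) (j : ℤ)) ∨
      (q = 2 ∧ ∃ k : ℕ, 2 ≤ k ∧ d = 2 * k + 1 ∧
        (∀ j : ℕ, 0 < j → j < d → j ≠ k → j ≠ k + 1 → (CS.top F).Hz (ZMod 2) (j : ℤ)) ∧
        ∃ x x' : C(Cb, F) → ZMod 2, (CS.top F).Coc k x ∧ (CS.top F).Coc k x' ∧
          Finsupp.linearCombination (ZMod 2) (cup AddMonoidHom.mul k (k + 1) x (sq1 k x'))
            (castCh (ZMod 2) ξ) = 1) := by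
  by_cases hall : ∀ j : ℕ, 0 < j → j < d → (CS.top F).Hz (ZMod q) (j : ℤ)
  · exact Or.inl hall
  refine Or.inr ?_
  push Not at hall
  obtain ⟨i, hi0, hid, hin⟩ := hall
  obtain ⟨k, hk1, hkd, hNk, hNk1⟩ := hadj q i hi0 hid hin
  have hξq : castCh (ZMod q) ξ ∈ (CS.top F).Z (ZMod q) (d : ℤ) := cast_cyc _ hξ
  -- the degree of `ξ`
  have hd : d = 2 * k + 1 := by
    obtain ⟨j, rfl⟩ : ∃ j, k = j + 1 := ⟨k - 1, by omega⟩
    obtain ⟨u, hu, b, hb, hub⟩ := hz_witness (CS.top F) hNk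
    obtain ⟨v, hv, hvu⟩ := hPD q (d - (j + 1)) j (by omega) (by omega) u hu (not_cob _ hb hub)
    have := deg_of hF (by omega) hk1 (by omega) hv hu hξq hvu (l := j + 1 + 1) (by omega)
      (by omega) hNk1
    omega
  -- the classes in degrees `k` and `k + 1`
  obtain ⟨u, hu, b, hb, hub⟩ := hz_witness (CS.top F) hNk1
  obtain ⟨v, hv, hvu⟩ := hPD q k k hk1 (by omega) u hu (not_cob _ hb hub)
  have hother : ∀ j : ℕ, 0 < j → j < d → j ≠ k → j ≠ k + 1 →
      (CS.top F).Hz (ZMod q) (j : ℤ) := by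
    intro j hj0 hjd hjk hjk1
    by_contra hN
    have := deg_of hF hk1 (by omega) (by omega) hv hu hξq hvu (l := j) hj0 hjd hN
    omega
  have hdk : d = k + (k + 1) := by omega
  have hodd : Odd (k + (k + 1)) := ⟨k, by omega⟩
  subst hdk
  -- the prime is 2
  have hq2 : q = 2 := by
    have h2 := zd_two hF hk1 (by omega) hodd hv hu (cup_coc _ hv hu) hξq
    rw [hvu, mul_one, mul_one] at h2
    have h3 : ((2 : ℕ) : ZMod q) = 0 := by exact_mod_cast h2
    rw [ZMod.natCast_eq_zero_iff] at h3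
    exact (Nat.prime_dvd_prime_iff_eq hq.out Nat.prime_two).1 h3
  subst hq2
  have hk2 : 2 ≤ k := by
    by_contra hk
    have hk' : k = 1 := by omega
    subst hk'
    exact hNk (by exact_mod_cast h1 (by omega))
  refine ⟨rfl, k, hk2, by omega, hother, ?_⟩
  by_contra hno
  push Not at hno
  -- all Bocksteins in degree `k` are zero
  have hsq : ∀ x' : C(Cb, F) → ZMod 2, (CS.top F).Coc k x' → (CS.top F).Cob k (sq1 k x') := by
    intro x' hx'
    by_contra hn
    obtain ⟨x, hx, hxx⟩ := hPD 2 k k hk1 rfl (sq1 k x') (sq1_coc _ hk1 hx') hn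
    exact hno x x' hx hx' hxx
  obtain ⟨v4, hv4, hv4'⟩ := lift4 (CS.top F) hk1 hv (hsq v hv)
  have hsq' : (CS.top F).Cob (k + 1) (sq1 (k + 1) u) := by
    refine uct extProp_field (CS.top F) (sq1_coc _ (by omega) hu) fun c hc => ?_
    exact coc_bd (CS.top F) (sq1_coc _ (by omega) hu)
      (hother (k + 1 + 1) (by omega) (by omega) (by omega) (by omega) c hc)
  obtain ⟨u4, hu4, hu4'⟩ := lift4 (CS.top F) (by omega) hu hsq'
  have hξ4 : castCh (ZMod 4) ξ ∈ (CS.top F).Z (ZMod 4) ((k + (k + 1) : ℕ) : ℤ) := cast_cyc _ hξ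
  have h4 := zd_two hF hk1 (by omega) hodd hv4 hu4 (cup_coc _ hv4 hu4) hξ4
  have h5 := map_eval (ZMod.castHom (show 2 ∣ 4 by norm_num) (ZMod 2))
    (cup AddMonoidHom.mul k (k + 1) v4 u4) ξ
  have h6 : (fun σ => ZMod.castHom (show 2 ∣ 4 by norm_num) (ZMod 2)
      (cup AddMonoidHom.mul k (k + 1) v4 u4 σ)) = cup AddMonoidHom.mul k (k + 1) v u := by
    funext σ
    rw [map_cup]
    congr 1
    · funext τ
      exact hv4' τ
    · funext τ
      exact hu4' τ
  rw [h6, hvu] at h5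
  generalize Finsupp.linearCombination (ZMod 4) (cup AddMonoidHom.mul k (k + 1) v4 u4)
    (castCh (ZMod 4) ξ) = t at h4 h5
  refine fin4 t h4 ?_
  rw [← h5, ZMod.castHom_apply, ZMod.natCast_val]

end Pool.Agent.TC
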