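import Pool.Agent.Lib.TC.Uct
import Pool.Agent.Lib.TC.ZD
import Pool.Agent.Lib.MP_cb6a70_gt_HB.UCover

/-!
# Section 8: the pairing near the diagonal on a regular covering, duality with local coefficients
-/

namespace Pool.Agent.TC

open CubeHom

/-- Euclidean neighbourhood retract. -/
structure ENR (F : Type) [TopologicalSpace F] where
  n : ℕ
  ι : C(F, EuclideanSpace ℝ (Fin n))
  W : Set (EuclideanSpace ℝ (Fin n))
  openW : IsOpen W
  mem : ∀ x, ι x ∈ W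
  r : C(W, F)
  r_ι : ∀ x, r ⟨ι x, mem x⟩ = x

/-- A regular covering `p` of the subset `N` of `F` with the group `π`. -/
structure RCov (π E : Type) {F : Type} [Group π] [TopologicalSpace E] [TopologicalSpace F]
    [MulAction π E] (N : Set F) where
  p : C(E, F)
  range : Set.range p = N
  cov : IsCoveringMapOn p N
  cont : ∀ g : π, Continuous (fun e : E => g • e)
  p_smul : ∀ (g : π) (e : E), p (g • e) = p e
  free : ∀ (g : π) (e : E), g • e = e → g = 1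
  trans : ∀ e e' : E, p e = p e' → ∃ g : π, g • e = e'

/-- A regular covering with a neighbourhood `O` of the diagonal, a homotopy `H` over it between
the two projections, and a fine open cover `𝒱`. -/
structure FineCov (π E F : Type) [Group π] [TopologicalSpace E] [TopologicalSpace F]
    [MulAction π E] where
  p : C(E, F)
  cont : ∀ g : π, Continuous (fun e : E => g • e)
  p_smul : ∀ (g : π) (e : E), p (g • e) = p e
  free : ∀ (g : π) (e : E), g • e = e → g = 1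
  trans : ∀ e e' : E, p e = p e' → ∃ g : π, g • e = e'
  O : Set (E × E)
  openO : IsOpen O
  inv : ∀ (g : π) (e e' : E), (e, e') ∈ O → (g • e, g • e') ∈ O
  H : C(I × O, E)
  H0 : ∀ q, H (0, q) = q.1.1
  H1 : ∀ q, H (1, q) = q.1.2
  Hequi : ∀ (g : π) (t : I) (q q' : O), q'.1 = (g • q.1.1, g • q.1.2) → H (t, q') = g • H (t, q)
  𝒱 : Set (Set F)
  openV : ∀ V ∈ 𝒱, IsOpen V
  covV : ∀ e : E, ∃ V ∈ 𝒱, p e ∈ V
  fine : ∀ s t : C(Cb, E), (∃ V ∈ 𝒱, ∀ u, p (s u) ∈ V) → (∃ V ∈ 𝒱, ∀ u, p (t u) ∈ V) →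
    (∃ u v, s u = t v) → ∀ u v, (s u, t v) ∈ O ∧ (p (s u) = p (t v) → s u = t v)
  lift : ∀ t : C(Cb, F), (∃ V ∈ 𝒱, ∀ u, t u ∈ V) → ∀ (u : Cb) (e : E), p e = t u →
    ∃ t' : C(Cb, E), p.comp t' = t ∧ t' u = e

namespace PDa

section sheets

variable {E F : Type} [TopologicalSpace E] [TopologicalSpace F] {p : C(E, F)}

/-- Sheets of `p`. -/
structure Sheet (p : C(E, F)) (S : Set E) : Prop where
  opn : IsOpen S
  inj : Set.InjOn p S
  rest : IsOpen (p ⁻¹' (p '' S) \ S)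

/-- Evenly covered open sets. -/
def Evn (p : C(E, F)) (U : Set F) : Prop :=
  IsOpen U ∧ ∀ e, p e ∈ U → ∃ S, Sheet p S ∧ e ∈ S ∧ p '' S = U

theorem exists_evn {N : Set F} (hc : IsCoveringMapOn p N) {x : F} (hx : x ∈ N) :
    ∃ U : Set F, IsOpen U ∧ x ∈ U ∧ ∀ V ⊆ U, IsOpen V → Evn p V := by
  obtain ⟨hd, U, hxU, hU, hfU, H, hH⟩ := hc x hx
  refine ⟨U, hU, hxU, fun V hVU hV => ⟨hV, fun e he => ?_⟩⟩
  have hopen : ∀ P : (p ⁻¹' {x}) → Prop, IsOpen
      ((Subtype.val : (p ⁻¹' U) → E) '' {z | p z ∈ V ∧ P (H z).2}) := by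
    intro P
    refine hfU.isOpenMap_subtype_val _ ?_
    have h1 : IsOpen {z : (p ⁻¹' U) | p z ∈ V} :=
      hV.preimage (p.continuous.comp continuous_subtype_val)
    have h2 : IsOpen {z : (p ⁻¹' U) | P (H z).2} :=
      (isOpen_discrete {i | P i}).preimage (continuous_snd.comp H.continuous)
    exact h1.inter h2
  set i0 := (H ⟨e, hVU he⟩).2 with hi0
  have himg : p '' ((Subtype.val : (p ⁻¹' U) → E) '' {z | p z ∈ V ∧ (H z).2 = i0}) = V := by
    apply Set.Subset.antisymm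
    · rintro _ ⟨_, ⟨z, hz, rfl⟩, rfl⟩
      exact hz.1
    · intro y hy
      have e1 : p (H.symm (⟨y, hVU hy⟩, i0)) = y := by
        rw [← hH, H.apply_symm_apply]
      refine ⟨_, ⟨H.symm (⟨y, hVU hy⟩, i0), ⟨?_, ?_⟩, rfl⟩, e1⟩
      · rw [e1]
        exact hy
      · rw [H.apply_symm_apply]
  refine ⟨(Subtype.val : (p ⁻¹' U) → E) '' {z | p z ∈ V ∧ (H z).2 = i0}, ⟨hopen (· = i0), ?_, ?_⟩,
    ⟨⟨e, hVU he⟩, ⟨he, rfl⟩, rfl⟩, himg⟩
  · rintro _ ⟨z, hz, rfl⟩ _ ⟨z', hz', rfl⟩ hzz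
    have : H z = H z' := by
      refine Prod.ext (Subtype.ext ?_) (hz.2.trans hz'.2.symm)
      rw [hH, hH]
      exact hzz
    rw [H.injective this]
  · rw [himg]
    convert hopen (fun i => i ≠ i0) using 1
    ext e'
    constructor
    · rintro ⟨h1, h2⟩
      refine ⟨⟨e', hVU h1⟩, ⟨h1, fun h3 => h2 ⟨⟨e', hVU h1⟩, ⟨h1, h3⟩, rfl⟩⟩, rfl⟩
    · rintro ⟨z, hz, rfl⟩
      refine ⟨hz.1, ?_⟩
      rintro ⟨z', hz', hzz⟩
      have := Subtype.ext hzz
      subst this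
      exact hz.2 hz'.2

/-- Maps lift into a sheet. -/
theorem Sheet.lift (hp : IsOpenMap p) {S : Set E} (hS : Sheet p S) {A : Type}
    [TopologicalSpace A] (f : C(A, F)) (hf : ∀ a, f a ∈ p '' S) :
    ∃ g : C(A, E), (∀ a, g a ∈ S) ∧ ∀ a, p (g a) = f a := by
  choose g hg using hf
  have hemb : Topology.IsOpenEmbedding (fun s : S => p s) :=
    Topology.IsOpenEmbedding.of_continuous_injective_isOpenMap
      (p.continuous.comp continuous_subtype_val)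
      (fun s s' h => Subtype.ext (hS.inj s.2 s'.2 h))
      (hp.comp hS.opn.isOpenMap_subtype_val)
  have hc : Continuous fun a => (⟨g a, (hg a).1⟩ : S) := by
    rw [hemb.isInducing.continuous_iff]
    exact f.continuous.congr fun a => (hg a).2.symm
  exact ⟨⟨g, continuous_subtype_val.comp hc⟩, fun a => (hg a).1, fun a => (hg a).2⟩

/-- Connected sets over the image of a sheet stay in the sheet. -/
theorem Sheet.stay {S : Set E} (hS : Sheet p S) {A : Type} [TopologicalSpace A]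
    [PreconnectedSpace A] (g : C(A, E)) (hg : ∀ a, p (g a) ∈ p '' S) {a₀ : A} (h0 : g a₀ ∈ S)
    (a : A) : g a ∈ S := by
  have h1 : IsClopen (g ⁻¹' S) := by
    refine ⟨⟨?_⟩, hS.opn.preimage g.continuous⟩
    have : (g ⁻¹' S)ᶜ = g ⁻¹' (p ⁻¹' (p '' S) \ S) := by
      ext b
      exact ⟨fun h => ⟨hg b, h⟩, fun h => h.2⟩
    rw [this]
    exact hS.rest.preimage g.continuous
  have h2 := h1.eq_univ ⟨a₀, h0⟩
  have h3 : a ∈ g ⁻¹' S := by
    rw [h2]
    exact Set.mem_univ a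
  exact h3

end sheets

section homotopy

variable {E F : Type} [TopologicalSpace E] [TopologicalSpace F] (hF : ENR F) (p : C(E, F))

/-- The segment between two points. -/
noncomputable def seg (t : I) (x y : F) : EuclideanSpace ℝ (Fin hF.n) :=
  (1 - (t : ℝ)) • hF.ι x + (t : ℝ) • hF.ι y

/-- The set of points retracted into `U`. -/
def Wr (U : Set F) : Set (EuclideanSpace ℝ (Fin hF.n)) :=
  {w | ∃ h : w ∈ hF.W, hF.r ⟨w, h⟩ ∈ U}

theorem Wr_open {U : Set F} (hU : IsOpen U) : IsOpen (Wr hF U) := by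
  have h : Wr hF U = Subtype.val '' (hF.r ⁻¹' U) := by
    ext w
    constructor
    · rintro ⟨h, h'⟩
      exact ⟨⟨w, h⟩, h', rfl⟩
    · rintro ⟨⟨w, h⟩, h', rfl⟩
      exact ⟨h, h'⟩
  rw [h]
  exact hF.openW.isOpenMap_subtype_val _ (hU.preimage hF.r.continuous)

theorem Wr_mono {U V : Set F} (h : U ⊆ V) : Wr hF U ⊆ Wr hF V := fun _ hw =>
  ⟨hw.1, h hw.2⟩

/-- Pairs of points of the sheet `S` with the segment over the image of the sheet. -/
def OS (S : Set E) : Set (E × E) :=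
  {q | q.1 ∈ S ∧ q.2 ∈ S ∧ ∀ t : I, seg hF t (p q.1) (p q.2) ∈ Wr hF (p '' S)}

theorem seg_cont : Continuous fun z : I × (E × E) => seg hF z.1 (p z.2.1) (p z.2.2) := by
  unfold seg
  fun_prop

theorem OS_open (hp : IsOpenMap p) {S : Set E} (hS : IsOpen S) : IsOpen (OS hF p S) := by
  have h1 : IsOpen {q : E × E | q.1 ∈ S} := hS.preimage continuous_fst
  have h2 : IsOpen {q : E × E | q.2 ∈ S} := hS.preimage continuous_snd
  have h3 : IsOpen {q : E × E | ∀ t : I, seg hF t (p q.1) (p q.2) ∈ Wr hF (p '' S)} := by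
    have h4 : IsClosed {z : I × (E × E) | seg hF z.1 (p z.2.1) (p z.2.2) ∉ Wr hF (p '' S)} :=
      ((Wr_open hF (hp _ hS)).preimage (seg_cont hF p)).isClosed_compl
    have h5 := isClosedMap_snd_of_compactSpace _ h4
    have h6 : {q : E × E | ∀ t : I, seg hF t (p q.1) (p q.2) ∈ Wr hF (p '' S)} =
        (Prod.snd '' {z : I × (E × E) |
          seg hF z.1 (p z.2.1) (p z.2.2) ∉ Wr hF (p '' S)})ᶜ := by
      ext q
      constructor
      · rintro h ⟨⟨t, q'⟩, h', rfl⟩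
        exact h' (h t)
      · intro h t
        by_contra h'
        exact h ⟨(t, q), h', rfl⟩
    rw [h6]
    exact h5.isOpen_compl
  exact h1.inter (h2.inter h3)

/-- The lift of the homotopy over one sheet. -/
theorem exists_L (hp : IsOpenMap p) {S : Set E} (hS : Sheet p S) :
    ∃ L : C(I × OS hF p S, E), (∀ z, L z ∈ S) ∧
      ∀ z, ∃ h, p (L z) = hF.r ⟨seg hF z.1 (p z.2.1.1) (p z.2.1.2), h⟩ := by
  have hmem : ∀ z : I × OS hF p S, seg hF z.1 (p z.2.1.1) (p z.2.1.2) ∈ hF.W :=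
    fun z => (z.2.2.2.2 z.1).1
  let f : C(I × OS hF p S, F) :=
    ⟨fun z => hF.r ⟨seg hF z.1 (p z.2.1.1) (p z.2.1.2), hmem z⟩,
      hF.r.continuous.comp (((seg_cont hF p).comp
        (continuous_fst.prodMk (continuous_subtype_val.comp continuous_snd))).subtype_mk _)⟩
  obtain ⟨L, h1, h2⟩ := hS.lift hp f fun z => (z.2.2.2.2 z.1).2
  exact ⟨L, h1, fun z => ⟨hmem z, h2 z⟩⟩

/-- The neighbourhood of the diagonal. -/
def OO : Set (E × E) := {q | ∃ S, Sheet p S ∧ q ∈ OS hF p S}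

theorem OO_open (hp : IsOpenMap p) : IsOpen (OO hF p) := by
  have h : OO hF p = ⋃ (S : Set E) (_ : Sheet p S), OS hF p S := by
    ext q
    simp only [OO, Set.mem_iUnion, Set.mem_ofPred_eq, exists_prop]
  rw [h]
  exact isOpen_iUnion fun S => isOpen_iUnion fun hS => OS_open hF p hp hS.opn

theorem r_ι' (x : F) (h) : hF.r ⟨hF.ι x, h⟩ = x := hF.r_ι x

theorem seg_zero (x y : F) : seg hF 0 x y = hF.ι x := by
  simp [seg]

theorem seg_one (x y : F) : seg hF 1 x y = hF.ι y := by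
  simp [seg]

theorem exists_H (hp : IsOpenMap p) :
    ∃ H : C(I × OO hF p, E), ∀ (t : I) (q : OO hF p) (S : Set E), Sheet p S → q.1 ∈ OS hF p S →
      H (t, q) ∈ S ∧ ∃ h, p (H (t, q)) = hF.r ⟨seg hF t (p q.1.1) (p q.1.2), h⟩ := by
  classical
  choose L hL1 hL2 using fun S : {S // Sheet p S} => exists_L hF p hp S.2
  let U : {S // Sheet p S} → Set (I × OO hF p) := fun S => {z | z.2.1 ∈ OS hF p S.1}
  let φ : ∀ S : {S // Sheet p S}, C(U S, E) := fun S =>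
    (L S).comp ⟨fun z => (z.1.1, ⟨z.1.2.1, z.2⟩), by
      refine (continuous_fst.comp continuous_subtype_val).prodMk ?_
      exact (continuous_subtype_val.comp (continuous_snd.comp continuous_subtype_val)).subtype_mk _⟩
  have hφ : ∀ (S S' : {S // Sheet p S}) (z : I × OO hF p) (h : z ∈ U S) (h' : z ∈ U S'),
      φ S ⟨z, h⟩ = φ S' ⟨z, h'⟩ := by
    rintro S S' ⟨t, q⟩ h h'
    change L S (t, ⟨q.1, h⟩) = L S' (t, ⟨q.1, h'⟩)
    -- the path in the second sheet stays in the first one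
    let γ : C(I, E) := (L S').comp ⟨fun τ => (τ, ⟨q.1, h'⟩), by fun_prop⟩
    have hγ : ∀ τ, γ τ ∈ S.1 := by
      refine S.2.stay γ (fun τ => ?_) (a₀ := 0) ?_
      · obtain ⟨hm, e⟩ := hL2 S' (τ, ⟨q.1, h'⟩)
        change p (L S' (τ, ⟨q.1, h'⟩)) ∈ _
        rw [e]
        exact (h.2.2 τ).2
      · obtain ⟨hm, e⟩ := hL2 S' (0, ⟨q.1, h'⟩)
        have e2 : L S' (0, ⟨q.1, h'⟩) = q.1.1 := by
          refine S'.2.inj (hL1 S' _) h'.1 ?_
          rw [e]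
          have e3 := seg_zero hF (p q.1.1) (p q.1.2)
          have : ∀ (w : EuclideanSpace ℝ (Fin hF.n)) (hw : w ∈ hF.W), w = hF.ι (p q.1.1) →
              hF.r ⟨w, hw⟩ = p q.1.1 := by
            rintro w hw rfl
            exact hF.r_ι _
          exact this _ _ e3
        change L S' (0, ⟨q.1, h'⟩) ∈ S.1
        rw [e2]
        exact h.1
    refine S.2.inj (hL1 S _) (hγ t) ?_
    obtain ⟨hm, e⟩ := hL2 S (t, ⟨q.1, h⟩)
    obtain ⟨hm', e'⟩ := hL2 S' (t, ⟨q.1, h'⟩)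
    rw [e, e']
  have hU : ∀ z, ∃ S, U S ∈ nhds z := by
    intro z
    obtain ⟨S, hS, hz⟩ := z.2.2
    refine ⟨⟨S, hS⟩, IsOpen.mem_nhds ?_ hz⟩
    exact (OS_open hF p hp hS.opn).preimage (continuous_subtype_val.comp continuous_snd)
  refine ⟨ContinuousMap.liftCover U φ hφ hU, fun t q S hS hq => ?_⟩
  have e : ContinuousMap.liftCover U φ hφ hU (t, q) = L ⟨S, hS⟩ (t, ⟨q.1, hq⟩) :=
    ContinuousMap.liftCover_coe (S := U) (φ := φ) (hφ := hφ) (hS := hU)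
      (i := ⟨S, hS⟩) (⟨(t, q), hq⟩ : U ⟨S, hS⟩)
  rw [e]
  exact ⟨hL1 ⟨S, hS⟩ _, hL2 ⟨S, hS⟩ (t, ⟨q.1, hq⟩)⟩

theorem r_eq {w : EuclideanSpace ℝ (Fin hF.n)} (hw : w ∈ hF.W) {x : F} (h : w = hF.ι x) :
    hF.r ⟨w, hw⟩ = x := by
  subst h
  exact hF.r_ι _

end homotopy

section action

variable {E F : Type} [TopologicalSpace E] [TopologicalSpace F] {p : C(E, F)} {a b : C(E, E)}

theorem image_move (ha : ∀ e, p (a e) = p e) (hb : ∀ e, p (b e) = p e)
    (hab : ∀ e, a (b e) = e) (S : Set E) : p '' (a ⁻¹' S) = p '' S := by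
  apply Set.Subset.antisymm
  · rintro _ ⟨e, he, rfl⟩
    exact ⟨a e, he, ha e⟩
  · rintro _ ⟨e, he, rfl⟩
    refine ⟨b e, ?_, hb e⟩
    change a (b e) ∈ S
    rw [hab]
    exact he

theorem Sheet.move (ha : ∀ e, p (a e) = p e) (hb : ∀ e, p (b e) = p e)
    (hab : ∀ e, a (b e) = e) (hba : ∀ e, b (a e) = e) {S : Set E} (hS : Sheet p S) :
    Sheet p (a ⁻¹' S) := by
  refine ⟨hS.opn.preimage a.continuous, fun e he e' he' h => ?_, ?_⟩
  · have h1 : a e = a e' := hS.inj he he' (by rw [ha, ha]; exact h)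
    rw [← hba e, h1, hba]
  · rw [image_move ha hb hab]
    have h1 : p ⁻¹' (p '' S) \ a ⁻¹' S = a ⁻¹' (p ⁻¹' (p '' S) \ S) := by
      ext e
      change (p e ∈ p '' S ∧ a e ∉ S) ↔ (p (a e) ∈ p '' S ∧ a e ∉ S)
      rw [ha]
    rw [h1]
    exact hS.rest.preimage a.continuous

theorem OS_move (hF : ENR F) (ha : ∀ e, p (a e) = p e) (hb : ∀ e, p (b e) = p e)
    (hab : ∀ e, a (b e) = e) {S : Set E} {q : E × E} (hq : q ∈ OS hF p S) :
    (b q.1, b q.2) ∈ OS hF p (a ⁻¹' S) := by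
  refine ⟨?_, ?_, fun t => ?_⟩
  · change a (b q.1) ∈ S
    rw [hab]
    exact hq.1
  · change a (b q.2) ∈ S
    rw [hab]
    exact hq.2.1
  · rw [image_move ha hb hab]
    change seg hF t (p (b q.1)) (p (b q.2)) ∈ _
    rw [hb, hb]
    exact hq.2.2 t

end action

section good

variable {E F : Type} [TopologicalSpace E] [TopologicalSpace F] (hF : ENR F) (p : C(E, F))

/-- The ball around the image of `c` retracts into the evenly covered set `U`. -/
def Good (c : F) (r : ℝ) (U : Set F) : Prop :=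
  Evn p U ∧ ∀ w, ‖w - hF.ι c‖ < r → w ∈ Wr hF U

variable {hF p}

theorem Good.mem {c : F} {r : ℝ} {U : Set F} (h : Good hF p c r U) {y : F}
    (hy : ‖hF.ι y - hF.ι c‖ < r) : y ∈ U := by
  obtain ⟨h1, h2⟩ := h.2 _ hy
  rwa [r_eq hF h1 rfl] at h2

theorem Good.fine {c : F} {r : ℝ} {U : Set F} (h : Good hF p c r U) {s t : C(Cb, E)}
    (hs : ∀ u, ‖hF.ι (p (s u)) - hF.ι c‖ < r) (ht : ∀ u, ‖hF.ι (p (t u)) - hF.ι c‖ < r)
    {u₀ v₀ : Cb} (h0 : s u₀ = t v₀) (u v : Cb) :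
    (s u, t v) ∈ OO hF p ∧ (p (s u) = p (t v) → s u = t v) := by
  obtain ⟨S, hS, hmem, himg⟩ := h.1.2 (s u₀) (h.mem (hs u₀))
  have hsS : ∀ u, s u ∈ S := hS.stay s (fun u => by rw [himg]; exact h.mem (hs u)) hmem
  have htS : ∀ v, t v ∈ S :=
    hS.stay t (fun u => by rw [himg]; exact h.mem (ht u)) (a₀ := v₀) (by rw [← h0]; exact hmem)
  refine ⟨⟨S, hS, hsS u, htS v, fun τ => ?_⟩, fun e => hS.inj (hsS u) (htS v) e⟩
  rw [himg]
  refine h.2 _ ?_
  have e1 : seg hF τ (p (s u)) (p (t v)) - hF.ι c =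
      (1 - (τ : ℝ)) • (hF.ι (p (s u)) - hF.ι c) + (τ : ℝ) • (hF.ι (p (t v)) - hF.ι c) := by
    unfold seg
    module
  change ‖seg hF τ (p (s u)) (p (t v)) - hF.ι c‖ < r
  rw [e1]
  have h1 := hs u
  have h2 := ht v
  have h3 := τ.2.1
  have h4 := τ.2.2
  have h5 := norm_add_le ((1 - (τ : ℝ)) • (hF.ι (p (s u)) - hF.ι c))
    ((τ : ℝ) • (hF.ι (p (t v)) - hF.ι c))
  rw [norm_smul, norm_smul, Real.norm_of_nonneg h3, Real.norm_of_nonneg (by linarith)] at h5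
  have h6 : (1 - (τ : ℝ)) * ‖hF.ι (p (s u)) - hF.ι c‖ ≤ (1 - (τ : ℝ)) * r :=
    mul_le_mul_of_nonneg_left h1.le (by linarith)
  have h7 : (τ : ℝ) * ‖hF.ι (p (t v)) - hF.ι c‖ ≤ (τ : ℝ) * r :=
    mul_le_mul_of_nonneg_left h2.le h3
  rcases eq_or_lt_of_le h3 with h8 | h8
  · have h9 : (τ : ℝ) = 0 := h8.symm
    rw [h9] at h5 ⊢
    simp only [sub_zero, one_mul, zero_mul, add_zero, one_smul, zero_smul] at h5 ⊢
    exact h1
  · have h7' : (τ : ℝ) * ‖hF.ι (p (t v)) - hF.ι c‖ < (τ : ℝ) * r :=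
      mul_lt_mul_of_pos_left h2 h8
    calc _ ≤ _ := h5
      _ < (1 - (τ : ℝ)) * r + (τ : ℝ) * r := add_lt_add_of_le_of_lt h6 h7'
      _ = r := by ring

end good

end PDa

/-- Existence, with the cover finer than a given one. (`N` open in the manifold `F`; near-diagonal
homotopy `r((1-t)x + ty)`; lift it starting at `e`; star refinement with a `1`-Lipschitz function
on a metric space.) -/
theorem exists_fine {F : Type} [TopologicalSpace F] [T2Space F] [CompactSpace F] (hF : ENR F)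
    {d : ℕ} (hd : LocEuc d F) {π E : Type} [Group π] [TopologicalSpace E] [MulAction π E]
    {N : Set F} (hN : IsOpen N) (C : RCov π E N) (𝒲 : Set (Set F)) (hW : ∀ W ∈ 𝒲, IsOpen W)
    (hcov : N ⊆ ⋃₀ 𝒲) :
    ∃ Fi : FineCov π E F, Fi.p = C.p ∧ (∀ V ∈ Fi.𝒱, ∃ W ∈ 𝒲, V ⊆ W) ∧ ∀ V ∈ Fi.𝒱, V ⊆ N := by
  classical
  have hmemN : ∀ e, C.p e ∈ N := fun e => C.range.subset ⟨e, rfl⟩
  have huniv : C.p ⁻¹' N = Set.univ := Set.eq_univ_of_forall hmemN
  have hp : IsOpenMap C.p := by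
    have h := C.cov.isLocalHomeomorphOn
    rw [huniv] at h
    exact (isLocalHomeomorph_iff_isLocalHomeomorphOn_univ.2 h).isOpenMap
  obtain ⟨H, hH⟩ := PDa.exists_H hF C.p hp
  -- the action
  let act : π → C(E, E) := fun g => ⟨fun e => g • e, C.cont g⟩
  have hact : ∀ (g : π) (e : E), C.p (act g e) = C.p e := fun g e => C.p_smul g e
  have hact1 : ∀ (g : π) (e : E), act g⁻¹ (act g e) = e := fun g e => inv_smul_smul g e
  have hact2 : ∀ (g : π) (e : E), act g (act g⁻¹ e) = e := fun g e => smul_inv_smul g e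
  let 𝒱 : Set (Set F) := {V | IsOpen V ∧ (∃ W ∈ 𝒲, V ⊆ W) ∧ ∃ c r U, 0 < r ∧ U ⊆ N ∧
    PDa.Good hF C.p c (3 * r) U ∧ ∀ y ∈ V, ‖hF.ι y - hF.ι c‖ < r}
  refine ⟨
    { p := C.p
      cont := C.cont
      p_smul := C.p_smul
      free := C.free
      trans := C.trans
      O := PDa.OO hF C.p
      openO := PDa.OO_open hF C.p hp
      inv := ?_
      H := H
      H0 := ?_
      H1 := ?_
      Hequi := ?_
      𝒱 := 𝒱
      openV := fun V hV => hV.1
      covV := ?_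
      fine := ?_
      lift := ?_ }, rfl, fun V hV => hV.2.1, ?_⟩
  · rintro g e e' ⟨S, hS, hq⟩
    exact ⟨_, hS.move (hact g⁻¹) (hact g) (hact1 g) (hact2 g),
      PDa.OS_move hF (hact g⁻¹) (hact g) (hact1 g) hq⟩
  · intro q
    obtain ⟨S, hS, hq⟩ := q.2
    obtain ⟨h1, h2, h3⟩ := hH 0 q S hS hq
    refine hS.inj h1 hq.1 ?_
    rw [h3]
    exact PDa.r_eq hF h2 (PDa.seg_zero hF _ _)
  · intro q
    obtain ⟨S, hS, hq⟩ := q.2
    obtain ⟨h1, h2, h3⟩ := hH 1 q S hS hq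
    refine hS.inj h1 hq.2.1 ?_
    rw [h3]
    exact PDa.r_eq hF h2 (PDa.seg_one hF _ _)
  · intro g t q q' hqq
    obtain ⟨S, hS, hq⟩ := q.2
    obtain ⟨h1, h2, h3⟩ := hH t q S hS hq
    have hS' := hS.move (hact g⁻¹) (hact g) (hact1 g) (hact2 g)
    have hq' : q'.1 ∈ PDa.OS hF C.p (act g⁻¹ ⁻¹' S) := by
      rw [hqq]
      exact PDa.OS_move hF (hact g⁻¹) (hact g) (hact1 g) hq
    obtain ⟨h1', h2', h3'⟩ := hH t q' _ hS' hq'
    refine hS'.inj h1' ?_ ?_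
    · change act g⁻¹ (act g (H (t, q))) ∈ S
      rw [hact1]
      exact h1
    · rw [h3', C.p_smul, h3]
      congr 1
      apply Subtype.ext
      change PDa.seg hF t (C.p q'.1.1) (C.p q'.1.2) = PDa.seg hF t (C.p q.1.1) (C.p q.1.2)
      rw [hqq]
      change PDa.seg hF t (C.p (g • q.1.1)) (C.p (g • q.1.2)) = _
      rw [C.p_smul, C.p_smul]
  · intro e
    have hx : C.p e ∈ N := hmemN e
    obtain ⟨U₀, oU, hxU, hEv⟩ := PDa.exists_evn C.cov hx
    have hopen := PDa.Wr_open hF (oU.inter hN)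
    have hmem : hF.ι (C.p e) ∈ PDa.Wr hF (U₀ ∩ N) := by
      refine ⟨hF.mem _, ?_⟩
      rw [hF.r_ι]
      exact ⟨hxU, hx⟩
    obtain ⟨R, hR, hball⟩ := Metric.isOpen_iff.1 hopen _ hmem
    obtain ⟨W, hW', hxW⟩ := hcov hx
    refine ⟨W ∩ {y | ‖hF.ι y - hF.ι (C.p e)‖ < R / 3}, ⟨?_, ⟨W, hW', Set.inter_subset_left⟩,
      C.p e, R / 3, U₀ ∩ N, by positivity, Set.inter_subset_right,
      ⟨hEv _ Set.inter_subset_left (oU.inter hN), fun w hw => hball ?_⟩, fun y hy => hy.2⟩,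
      hxW, ?_⟩
    · refine (hW W hW').inter ?_
      exact isOpen_lt ((hF.ι.continuous.sub continuous_const).norm) continuous_const
    · rw [Metric.mem_ball, dist_eq_norm]
      linarith
    · change ‖hF.ι (C.p e) - hF.ι (C.p e)‖ < R / 3
      rw [sub_self, norm_zero]
      positivity
  · rintro s t ⟨V₁, ⟨-, -, c₁, r₁, U₁, hr₁, -, hG₁, hV₁⟩, hs⟩
      ⟨V₂, ⟨-, -, c₂, r₂, U₂, hr₂, -, hG₂, hV₂⟩, ht⟩ ⟨u₀, v₀, h0⟩ u v
    have hs' : ∀ u, ‖hF.ι (C.p (s u)) - hF.ι c₁‖ < r₁ := fun u => hV₁ _ (hs u)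
    have ht' : ∀ u, ‖hF.ι (C.p (t u)) - hF.ι c₂‖ < r₂ := fun u => hV₂ _ (ht u)
    have h1 := hs' u₀
    have h2 := ht' v₀
    rw [← h0] at h2
    rcases le_total r₂ r₁ with hle | hle
    · refine hG₁.fine (fun u => by linarith [hs' u]) (fun v => ?_) h0 u v
      have e : hF.ι (C.p (t v)) - hF.ι c₁ = (hF.ι (C.p (t v)) - hF.ι c₂) -
          (hF.ι (C.p (s u₀)) - hF.ι c₂) + (hF.ι (C.p (s u₀)) - hF.ι c₁) := by abel
      rw [e]
      have e1 := norm_add_le ((hF.ι (C.p (t v)) - hF.ι c₂) -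
          (hF.ι (C.p (s u₀)) - hF.ι c₂)) (hF.ι (C.p (s u₀)) - hF.ι c₁)
      have e2 := norm_sub_le (hF.ι (C.p (t v)) - hF.ι c₂) (hF.ι (C.p (s u₀)) - hF.ι c₂)
      linarith [ht' v]
    · refine hG₂.fine (fun u => ?_) (fun v => by linarith [ht' v]) h0 u v
      have e : hF.ι (C.p (s u)) - hF.ι c₂ = (hF.ι (C.p (s u)) - hF.ι c₁) -
          (hF.ι (C.p (s u₀)) - hF.ι c₁) + (hF.ι (C.p (s u₀)) - hF.ι c₂) := by abel
      rw [e]
      have e1 := norm_add_le ((hF.ι (C.p (s u)) - hF.ι c₁) -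
          (hF.ι (C.p (s u₀)) - hF.ι c₁)) (hF.ι (C.p (s u₀)) - hF.ι c₂)
      have e2 := norm_sub_le (hF.ι (C.p (s u)) - hF.ι c₁) (hF.ι (C.p (s u₀)) - hF.ι c₁)
      linarith [hs' u]
  · rintro t ⟨V, ⟨-, -, c, r, U, hr, -, hG, hV⟩, ht⟩ u e he
    have hU : ∀ a, t a ∈ U := fun a => hG.mem (by linarith [hV _ (ht a)])
    obtain ⟨S, hS, heS, himg⟩ := hG.1.2 e (by rw [he]; exact hU u)
    obtain ⟨g, hg1, hg2⟩ := hS.lift hp t (fun a => by rw [himg]; exact hU a)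
    exact ⟨g, ContinuousMap.ext hg2, hS.inj (hg1 u) heS (by rw [hg2, he])⟩
  · rintro V ⟨-, -, c, r, U, hr, hUN, hG, hV⟩ y hy
    exact hUN (hG.mem (by linarith [hV _ hy]))

section pairing

variable {π E F : Type} [Group π] [TopologicalSpace E] [TopologicalSpace F] [MulAction π E]
  (Fi : FineCov π E F) {k L : Type} [Field k] [AddCommGroup L] [Module k L]

/-- The action of `g` as a continuous map. -/
def FineCov.act (g : π) : C(E, E) := ⟨fun e => g • e, Fi.cont g⟩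

/-- Small cubes. -/
def FineCov.Sm (s : C(Cb, E)) : Prop := ∃ V ∈ Fi.𝒱, ∀ u, Fi.p (s u) ∈ V

open Classical in
/-- The pairing `S(l ⊗ τ)(s)`; `m` is the dimension of `s`. -/
noncomputable def FineCov.SS (μ : C(Cb, F × F) → k) (ρ : Representation k π L) (m : ℕ) (l : L)
    (τ s : C(Cb, E)) : L :=
  if h : ∃ g : π, ∃ u v, s u = g • τ v then
    μ (crossCube m (Fi.p.comp s) (Fi.p.comp τ)) • ρ h.choose l else 0

/-- Linear extension in `τ`. -/
noncomputable def FineCov.SSc (μ : C(Cb, F × F) → k) (ρ : Representation k π L) (m : ℕ) (l : L)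
    (c : Ch k E) (s : C(Cb, E)) : L :=
  c.sum (fun τ a => a • Fi.SS μ ρ m l τ s)

/-- Cochains which vanish off the diagonal. -/
abbrev offD (F : Type) [TopologicalSpace F] : CS (F × F) :=
  CS.mk' {Set.univ} {{x : F × F | x.1 ≠ x.2}}

variable {μ : C(Cb, F × F) → k} {ρ : Representation k π L} {m : ℕ} {l : L}

namespace PDb

omit [AddCommGroup L] [Module k L] in
theorem Sm_act {g : π} {τ : C(Cb, E)} (h : Fi.Sm τ) : Fi.Sm ((Fi.act g).comp τ) := by
  obtain ⟨V, hV, h⟩ := h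
  refine ⟨V, hV, fun u => ?_⟩
  change Fi.p (g • τ u) ∈ V
  rw [Fi.p_smul]
  exact h u

theorem p_act (g : π) (s : C(Cb, E)) : Fi.p.comp ((Fi.act g).comp s) = Fi.p.comp s := by
  ext u
  exact Fi.p_smul g (s u)

theorem meet_unique {τ s : C(Cb, E)} (hτ : Fi.Sm τ) (hs : Fi.Sm s) {g g' : π}
    (h : ∃ u v, s u = g • τ v) (h' : ∃ u v, s u = g' • τ v) : g' = g := by
  obtain ⟨u, v, huv⟩ := h
  obtain ⟨u', v', huv'⟩ := h'
  have h2 : s u' = g • τ v' :=
    (Fi.fine s ((Fi.act g).comp τ) hs (Sm_act Fi hτ) ⟨u, v, huv⟩ u' v').2 (by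
      change Fi.p (s u') = Fi.p (g • τ v')
      rw [huv', Fi.p_smul, Fi.p_smul])
  have h3 : g⁻¹ * g' = 1 := Fi.free _ (τ v') (by rw [mul_smul, ← huv', h2, inv_smul_smul])
  exact (inv_mul_eq_one.1 h3).symm

theorem SS_of_meet {τ s : C(Cb, E)} (hτ : Fi.Sm τ) (hs : Fi.Sm s) {g : π}
    (h : ∃ u v, s u = g • τ v) :
    Fi.SS μ ρ m l τ s = μ (crossCube m (Fi.p.comp s) (Fi.p.comp τ)) • ρ g l := by
  have hex : ∃ g : π, ∃ u v, s u = g • τ v := ⟨g, h⟩
  rw [FineCov.SS, dif_pos hex, meet_unique Fi hτ hs h hex.choose_spec]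

theorem SS_of_not {τ s : C(Cb, E)} (h : ¬ ∃ g : π, ∃ u v, s u = g • τ v) :
    Fi.SS μ ρ m l τ s = 0 := by
  rw [FineCov.SS, dif_neg h]

theorem SSc_eq (c : Ch k E) (s : C(Cb, E)) : Fi.SSc μ ρ m l c s =
    Finsupp.linearCombination k (fun τ => Fi.SS μ ρ m l τ s) c := rfl

/-- Faces of cubes which meet. -/
theorem SS_sub {d : ℕ} (hμ : (offD F).Coc d μ) {τ s τ' s' : C(Cb, E)} (hτ : Fi.Sm τ)
    (hs : Fi.Sm s) {g : π} (h : ∃ u v, s u = g • τ v) (hτ' : ∀ v, ∃ w, τ' v = τ w)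
    (hs' : ∀ u, ∃ w, s' u = s w)
    (hc : IsCube (d : ℤ) (crossCube m (Fi.p.comp s') (Fi.p.comp τ'))) :
    Fi.SS μ ρ m l τ' s' = μ (crossCube m (Fi.p.comp s') (Fi.p.comp τ')) • ρ g l := by
  have hSm : ∀ {t t' : C(Cb, E)}, Fi.Sm t → (∀ u, ∃ w, t' u = t w) → Fi.Sm t' := by
    rintro t t' ⟨V, hV, h1⟩ h2
    refine ⟨V, hV, fun u => ?_⟩
    obtain ⟨w, hw⟩ := h2 u
    rw [hw]
    exact h1 w
  by_cases hex : ∃ g' : π, ∃ u v, s' u = g' • τ' v
  · obtain ⟨g', u, v, huv⟩ := hex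
    have h1 : g' = g := by
      obtain ⟨u1, hu1⟩ := hs' u
      obtain ⟨v1, hv1⟩ := hτ' v
      exact meet_unique Fi hτ hs h ⟨u1, v1, by rw [← hu1, ← hv1, huv]⟩
    rw [SS_of_meet Fi (hSm hτ hτ') (hSm hs hs') ⟨u, v, huv⟩, h1]
  · rw [SS_of_not Fi hex]
    have h0 : μ (crossCube m (Fi.p.comp s') (Fi.p.comp τ')) = 0 := by
      refine hμ.1 _ hc ⟨Set.univ, rfl, fun _ => Set.mem_univ _⟩
        (Or.inl ⟨_, rfl, fun w hw => ?_⟩)
      have hw' : Fi.p (s' w) = Fi.p (τ' (drop m w)) := hw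
      obtain ⟨g', hg'⟩ := Fi.trans _ _ hw'.symm
      exact hex ⟨g', w, drop m w, hg'.symm⟩
    rw [h0, zero_smul]

end PDb

theorem FineCov.SSc_single (τ s : C(Cb, E)) (a : k) :
    Fi.SSc μ ρ m l (Finsupp.single τ a) s = a • Fi.SS μ ρ m l τ s := by
  rw [PDb.SSc_eq, Finsupp.linearCombination_single]

theorem FineCov.SSc_add (c c' : Ch k E) (s : C(Cb, E)) :
    Fi.SSc μ ρ m l (c + c') s = Fi.SSc μ ρ m l c s + Fi.SSc μ ρ m l c' s := by
  rw [PDb.SSc_eq, PDb.SSc_eq, PDb.SSc_eq, map_add]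

theorem FineCov.SSc_smul (a : k) (c : Ch k E) (s : C(Cb, E)) :
    Fi.SSc μ ρ m l (a • c) s = a • Fi.SSc μ ρ m l c s := by
  rw [PDb.SSc_eq, PDb.SSc_eq, map_smul]

theorem FineCov.SS_add_left (l l' : L) (τ s : C(Cb, E)) :
    Fi.SS μ ρ m (l + l') τ s = Fi.SS μ ρ m l τ s + Fi.SS μ ρ m l' τ s := by
  unfold FineCov.SS
  split_ifs with h
  · rw [map_add, smul_add]
  · rw [add_zero]

theorem FineCov.SS_smul_left (a : k) (l : L) (τ s : C(Cb, E)) :
    Fi.SS μ ρ m (a • l) τ s = a • Fi.SS μ ρ m l τ s := by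
  unfold FineCov.SS
  split_ifs with h
  · rw [map_smul, smul_comm]
  · rw [smul_zero]

/-- D1. Equivariance in the test cube. -/
theorem FineCov.SS_equi (g : π) {τ s : C(Cb, E)} (hτ : Fi.Sm τ) (hs : Fi.Sm s) :
    Fi.SS μ ρ m l τ ((Fi.act g).comp s) = ρ g (Fi.SS μ ρ m l τ s) := by
  by_cases h : ∃ g' : π, ∃ u v, s u = g' • τ v
  · obtain ⟨g', u, v, huv⟩ := h
    have h2 : ∃ u v, ((Fi.act g).comp s) u = (g * g') • τ v :=
      ⟨u, v, by
        change g • s u = _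
        rw [huv, mul_smul]⟩
    rw [PDb.SS_of_meet Fi hτ (PDb.Sm_act Fi hs) h2, PDb.SS_of_meet Fi hτ hs ⟨u, v, huv⟩, map_smul,
      map_mul, PDb.p_act]
    rfl
  · rw [PDb.SS_of_not Fi h, map_zero, PDb.SS_of_not]
    rintro ⟨g', u, v, huv⟩
    have huv' : g • s u = g' • τ v := huv
    exact h ⟨g⁻¹ * g', u, v, by rw [mul_smul, ← huv', inv_smul_smul]⟩

/-- Translation of the cube `τ`. -/
theorem FineCov.SS_act (g : π) {τ s : C(Cb, E)} (hτ : Fi.Sm τ) (hs : Fi.Sm s) :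
    Fi.SS μ ρ m l ((Fi.act g).comp τ) s = Fi.SS μ ρ m (ρ g⁻¹ l) τ s := by
  by_cases h : ∃ g' : π, ∃ u v, s u = g' • τ v
  · obtain ⟨g', u, v, huv⟩ := h
    have h2 : ∃ u v, s u = (g' * g⁻¹) • ((Fi.act g).comp τ) v :=
      ⟨u, v, by
        change s u = (g' * g⁻¹) • g • τ v
        rw [huv, mul_smul, inv_smul_smul]⟩
    rw [PDb.SS_of_meet Fi (PDb.Sm_act Fi hτ) hs h2, PDb.SS_of_meet Fi hτ hs ⟨u, v, huv⟩,
      map_mul, PDb.p_act]
    rfl
  · rw [PDb.SS_of_not Fi h, PDb.SS_of_not]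
    rintro ⟨g', u, v, huv⟩
    have huv' : s u = g' • g • τ v := huv
    exact h ⟨g' * g, u, v, by rw [mul_smul, ← huv']⟩

/-- Zero if the images in `F` are disjoint. -/
theorem FineCov.SS_disjoint {τ s : C(Cb, E)} (h : ∀ u v, Fi.p (s u) ≠ Fi.p (τ v)) :
    Fi.SS μ ρ m l τ s = 0 := by
  refine PDb.SS_of_not Fi ?_
  rintro ⟨g, u, v, huv⟩
  exact h u v (by rw [huv, Fi.p_smul])

/-- Normalised. -/
theorem FineCov.SS_degen {d n : ℕ} (hμ : (offD F).Coc d μ) (hmn : m + n = d) {τ s : C(Cb, E)}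
    (hτ : IsCube (n : ℤ) τ) (hs : IsCube (m : ℤ) s)
    (h : Degen (m : ℤ) s ∨ Degen (n : ℤ) τ) : Fi.SS μ ρ m l τ s = 0 := by
  have hs1 : IsCube (m : ℤ) (Fi.p.comp s) := hs.comp _
  have hτ1 : IsCube (n : ℤ) (Fi.p.comp τ) := hτ.comp _
  have hd : (m : ℤ) + (n : ℤ) = (d : ℤ) := by exact_mod_cast hmn
  have h0 : μ (crossCube m (Fi.p.comp s) (Fi.p.comp τ)) = 0 := by
    refine hμ.1 _ ?_ ⟨Set.univ, rfl, fun _ => Set.mem_univ _⟩ (Or.inr ?_)
    · have := isCube_cross hs1 hτ1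
      rwa [hd] at this
    · rcases h with h | h
      · have := degen_cross_left (h.comp Fi.p) hτ1
        rwa [hd] at this
      · have := degen_cross_right hs1 (h.comp Fi.p)
        rwa [hd] at this
  unfold FineCov.SS
  rw [h0]
  split_ifs
  · rw [zero_smul]
  · rfl

/-- D2. The boundary formula. -/
theorem FineCov.dl_SS {d n : ℕ} (hμ : (offD F).Coc d μ) (hmn : m + n = d) {τ s : C(Cb, E)}
    (hτ : Fi.Sm τ) (hs : Fi.Sm s) (hτ' : IsCube (n : ℤ) τ) (hs' : IsCube ((m + 1 : ℕ) : ℤ) s) :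
    dl m (Fi.SS μ ρ m l τ) s =
      (-1 : ℤ) ^ m • Fi.SSc μ ρ (m + 1) l (bd (n : ℤ) (Finsupp.single τ 1)) s := by
  rw [PDb.SSc_eq, bd_apply, Int.toNat_natCast, map_sum]
  simp only [map_smul, map_sub, face_single, Finsupp.linearCombination_single, one_smul]
  unfold dl
  by_cases h : ∃ g : π, ∃ u v, s u = g • τ v
  · obtain ⟨g, hg⟩ := h
    have hps : IsCube ((m + 1 : ℕ) : ℤ) (Fi.p.comp s) := hs'.comp _
    have hpτ : IsCube (n : ℤ) (Fi.p.comp τ) := hτ'.comp _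
    set ω : C(Cb, F × F) := crossCube (m + 1) (Fi.p.comp s) (Fi.p.comp τ) with hωdef
    have hω : IsCube ((d + 1 : ℕ) : ℤ) ω := by
      have h1 := isCube_cross hps hpτ
      have h2 : (((m + 1 : ℕ) : ℤ) + (n : ℤ)) = ((d + 1 : ℕ) : ℤ) := by
        rw [← hmn]
        push_cast
        ring
      rwa [h2] at h1
    have hco := hμ.2 ω hω ⟨Set.univ, rfl, fun _ => Set.mem_univ _⟩
    unfold dl at hco
    rw [show d + 1 = (m + 1) + n by omega, Finset.sum_range_add] at hco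
    have hL : ∀ i ∈ Finset.range (m + 1), ∀ e : I, Fi.SS μ ρ m l τ (s.comp (ins i e)) =
        μ (ω.comp (ins i e)) • ρ g l := by
      intro i hi e
      rw [Finset.mem_range] at hi
      have h1 : ω.comp (ins i e) = crossCube m (Fi.p.comp (s.comp (ins i e))) (Fi.p.comp τ) := by
        rw [hωdef, cross_ins_left hi, Nat.add_sub_cancel]
        rfl
      rw [h1]
      refine PDb.SS_sub Fi hμ hτ hs hg (fun v => ⟨v, rfl⟩) (fun u => ⟨ins i e u, rfl⟩) ?_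
      rw [← h1]
      have h2 := hω.face (i := i) (by push_cast; omega) e
      rwa [show ((d + 1 : ℕ) : ℤ) - 1 = (d : ℤ) by push_cast; ring] at h2
    have hR : ∀ j ∈ Finset.range n, ∀ e : I,
        Fi.SS μ ρ (m + 1) l (τ.comp (ins j e)) s = μ (ω.comp (ins (m + 1 + j) e)) • ρ g l := by
      intro j hj e
      rw [Finset.mem_range] at hj
      have h1 : ω.comp (ins (m + 1 + j) e) =
          crossCube (m + 1) (Fi.p.comp s) (Fi.p.comp (τ.comp (ins j e))) := by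
        rw [hωdef, cross_ins_right j e hps]
        rfl
      rw [h1]
      refine PDb.SS_sub Fi hμ hτ hs hg (fun v => ⟨ins j e v, rfl⟩) (fun u => ⟨u, rfl⟩) ?_
      rw [← h1]
      have h2 := hω.face (i := m + 1 + j) (by push_cast; omega) e
      rwa [show ((d + 1 : ℕ) : ℤ) - 1 = (d : ℤ) by push_cast; ring] at h2
    have e1 : ∑ i ∈ Finset.range (m + 1), (-1 : ℤ) ^ i • (Fi.SS μ ρ m l τ (s.comp (ins i 1)) -
        Fi.SS μ ρ m l τ (s.comp (ins i 0))) =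
        (∑ i ∈ Finset.range (m + 1), (-1 : ℤ) ^ i • (μ (ω.comp (ins i 1)) -
          μ (ω.comp (ins i 0)))) • ρ g l := by
      rw [Finset.sum_smul]
      refine Finset.sum_congr rfl fun i hi => ?_
      rw [hL i hi, hL i hi, ← sub_smul, smul_assoc]
    have e2 : ∑ j ∈ Finset.range n, (-1 : k) ^ j • (Fi.SS μ ρ (m + 1) l (τ.comp (ins j 1)) s -
        Fi.SS μ ρ (m + 1) l (τ.comp (ins j 0)) s) =
        ((-1 : ℤ) ^ (m + 1) • ∑ j ∈ Finset.range n, (-1 : ℤ) ^ (m + 1 + j) •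
          (μ (ω.comp (ins (m + 1 + j) 1)) - μ (ω.comp (ins (m + 1 + j) 0)))) • ρ g l := by
      rw [Finset.smul_sum, Finset.sum_smul]
      refine Finset.sum_congr rfl fun j hj => ?_
      rw [hR j hj, hR j hj, ← sub_smul, smul_smul, smul_smul, ← pow_add,
        show m + 1 + (m + 1 + j) = 2 * (m + 1) + j by ring, pow_add, pow_mul, neg_one_sq,
        one_pow, one_mul, zsmul_eq_mul]
      push_cast
      rfl
    rw [e1, e2, eq_neg_of_add_eq_zero_left hco, ← smul_assoc, smul_smul, pow_succ,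
      ← mul_assoc, ← pow_add, ← two_mul, pow_mul, neg_one_sq, one_pow, one_mul, neg_one_smul]
  · have hz1 : ∀ i (e : I), Fi.SS μ ρ m l τ (s.comp (ins i e)) = 0 := by
      intro i e
      refine PDb.SS_of_not Fi ?_
      rintro ⟨g, u, v, huv⟩
      exact h ⟨g, ins i e u, v, huv⟩
    have hz2 : ∀ j (e : I), Fi.SS μ ρ (m + 1) l (τ.comp (ins j e)) s = 0 := by
      intro j e
      refine PDb.SS_of_not Fi ?_
      rintro ⟨g, u, v, huv⟩
      exact h ⟨g, u, ins j e v, huv⟩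
    simp only [hz1, hz2, sub_self, smul_zero, Finset.sum_const_zero]

/-- The cap product with a lifted cube `τ` of dimension `d`, followed by the pairing. -/
noncomputable def FineCov.capS (μ : C(Cb, F × F) → k) (ρ : Representation k π L) (d j : ℕ)
    (u : C(Cb, E) → L) (τ s : C(Cb, E)) : L :=
  ∑ H ∈ (Finset.range d).powersetCard (d - j),
    sgnS d H • Fi.SS μ ρ j (u (τ.comp (fc d (wbk H)))) (τ.comp (fc d (wfr H))) s

end pairing

end Pool.Agent.TC
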