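import Pool.Agent.Lib.TC.Dual0

/-!
# D3: the duality formula
-/

namespace Pool.Agent.TC

open CubeHom

namespace D3Aux

variable {X Y : Type*} [TopologicalSpace X] [TopologicalSpace Y]

/-- The number of free coordinates of a word among the first `n`. -/
def fr (w : ℕ → Option Bool) (n : ℕ) : ℕ := ((Finset.range n).filter (fun i => w i = none)).card

theorem card_range_add (P : ℕ → Prop) [DecidablePred P] (m k : ℕ) :
    ((Finset.range (m + k)).filter P).card =
      ((Finset.range m).filter P).card + ((Finset.range k).filter fun i => P (m + i)).card := by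
  rw [Finset.card_filter, Finset.card_filter, Finset.card_filter, Finset.sum_range_add]

theorem fr_add (w : ℕ → Option Bool) (m k : ℕ) :
    fr w (m + k) = fr w m + fr (fun i => w (m + i)) k := card_range_add _ m k

/-- The value of a coordinate of a face. -/
def fcv (x : Option Bool) (c : I) : I :=
  match x with
  | none => c
  | some b => bitI b

theorem fc_lt {n : ℕ} (w : ℕ → Option Bool) (u : Cb) {j : ℕ} (hj : j < n) :
    fc n w u j = fcv (w j) (u (fr w j)) := if_pos hj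

theorem fc_ge {n : ℕ} (w : ℕ → Option Bool) (u : Cb) {j : ℕ} (hj : ¬ j < n) :
    fc n w u j = u (j - ((Finset.range n).filter (fun i => w i ≠ none)).card) := if_neg hj

theorem fr_congr {n : ℕ} {w w' : ℕ → Option Bool} (h : ∀ j < n, w j = w' j) : fr w n = fr w' n := by
  rw [fr, fr]
  congr 1
  refine Finset.filter_congr fun i hi => ?_
  rw [h i (Finset.mem_range.1 hi)]

theorem fc_congr {n : ℕ} {w w' : ℕ → Option Bool} (h : ∀ j < n, w j = w' j) : fc n w = fc n w' := by
  have hcard' : (Finset.range n).filter (fun i => w i ≠ none) =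
      (Finset.range n).filter (fun i => w' i ≠ none) := by
    refine Finset.filter_congr fun i hi => ?_
    rw [h i (Finset.mem_range.1 hi)]
  refine ContinuousMap.ext fun u => funext fun j => ?_
  by_cases hj : j < n
  · rw [fc_lt w u hj, fc_lt w' u hj, h j hj, fr_congr fun i hi => h i (hi.trans hj)]
  · rw [fc_ge w u hj, fc_ge w' u hj, hcard']

theorem fr_lt {w : ℕ → Option Bool} {i j : ℕ} (hij : i < j) (hi : w i = none) :
    fr w i < fr w j := by
  refine Finset.card_lt_card ⟨fun a ha => ?_, fun hcon => ?_⟩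
  · rw [Finset.mem_filter, Finset.mem_range] at ha ⊢
    exact ⟨by omega, ha.2⟩
  · have := hcon (Finset.mem_filter.2 ⟨Finset.mem_range.2 hij, hi⟩)
    rw [Finset.mem_filter, Finset.mem_range] at this
    omega

theorem isCube_face {n : ℕ} (w : ℕ → Option Bool) {σ : C(Cb, X)} (h : IsCube (n : ℤ) σ) :
    IsCube ((fr w n : ℕ) : ℤ) (σ.comp (fc n w)) := by
  refine ⟨by positivity, fun x y hxy => h.2 fun j hj => ?_⟩
  have hj' : j < n := by exact_mod_cast hj
  rw [fc_lt w _ hj', fc_lt w _ hj']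
  cases hw : w j with
  | none =>
    have h1 : x (fr w j) = y (fr w j) := by
      refine hxy (fr w j) ?_
      have := fr_lt hj' hw
      change ((fr w j : ℕ) : ℤ) < ((fr w n : ℕ) : ℤ)
      exact_mod_cast this
    rw [h1]
  | some b => rfl

/-- The face of a product cube. -/
theorem crossCube_fc {m l : ℕ} (w : ℕ → Option Bool) (τ : C(Cb, X)) (σ : C(Cb, Y))
    (hτ : IsCube (m : ℤ) τ) (hσ : IsCube (l : ℤ) σ) :
    (crossCube m τ σ).comp (fc (m + l) w) =
      crossCube (fr w m) (τ.comp (fc m w)) (σ.comp (fc l (fun j => w (m + j)))) := by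
  ext u
  · change τ (fc (m + l) w u) = τ (fc m w u)
    refine hτ.2 fun j hj => ?_
    have hj' : j < m := by exact_mod_cast hj
    have hj2 : j < m + l := by omega
    rw [fc_lt w u hj', fc_lt w u hj2]
  · change σ (drop m (fc (m + l) w u)) = σ (fc l (fun j => w (m + j)) (drop (fr w m) u))
    refine hσ.2 fun j hj => ?_
    have hj' : j < l := by exact_mod_cast hj
    change fc (m + l) w u (m + j) = fc l (fun j => w (m + j)) (drop (fr w m) u) j
    have hj2 : m + j < m + l := by omega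
    rw [fc_lt w u hj2, fc_lt _ _ hj', fr_add]
    rfl

/-- The number of inversions. -/
def inv (n : ℕ) (H : Finset ℕ) : ℕ :=
  ∑ k ∈ (Finset.range n).filter (· ∈ H), ((Finset.range k).filter (· ∉ H)).card

theorem sgnS_eq (n : ℕ) (H : Finset ℕ) : sgnS n H = (-1) ^ inv n H := by
  rw [sgnS, inv]
  congr 1
  rw [Finset.card_filter, Finset.sum_product_right, Finset.sum_filter]
  refine Finset.sum_congr rfl fun k hk => ?_
  split_ifs with hkH
  · rw [Finset.card_filter]
    have h1 : Finset.range k ⊆ Finset.range n :=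
      Finset.range_subset_range.2 (Finset.mem_range.1 hk).le
    rw [← Finset.sum_subset h1 (f := fun i => if i ∉ H ∧ k ∈ H ∧ i < k then 1 else 0)]
    · refine Finset.sum_congr rfl fun i hi => ?_
      have := Finset.mem_range.1 hi
      simp [hkH, this]
    · intro i _ hi
      rw [Finset.mem_range, not_lt] at hi
      rw [if_neg]
      omega
  · refine Finset.sum_eq_zero fun i _ => ?_
    rw [if_neg]
    tauto

theorem inv_add (m l : ℕ) (H H₁ H₂ : Finset ℕ) (h1 : ∀ i < m, i ∈ H ↔ i ∈ H₁)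
    (h2 : ∀ i < l, m + i ∈ H ↔ i ∈ H₂) :
    inv (m + l) H = inv m H₁ + inv l H₂ +
      ((Finset.range m).filter (· ∉ H₁)).card * ((Finset.range l).filter (· ∈ H₂)).card := by
  rw [inv, inv, inv, Finset.sum_filter, Finset.sum_filter, Finset.sum_filter,
    Finset.sum_range_add, add_assoc]
  congr 1
  · refine Finset.sum_congr rfl fun k hk => ?_
    have hk' := Finset.mem_range.1 hk
    simp only [h1 k hk']
    split_ifs
    · congr 1
      refine Finset.filter_congr fun i hi => ?_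
      rw [h1 i ((Finset.mem_range.1 hi).trans hk')]
    · rfl
  · rw [Finset.card_filter (fun i => i ∈ H₂), Finset.mul_sum, ← Finset.sum_add_distrib]
    refine Finset.sum_congr rfl fun k hk => ?_
    have hk' := Finset.mem_range.1 hk
    simp only [h2 k hk']
    split_ifs
    · rw [card_range_add, mul_one, add_comm]
      congr 1
      · congr 1
        refine Finset.filter_congr fun i hi => ?_
        rw [h2 i ((Finset.mem_range.1 hi).trans hk')]
      · congr 1
        refine Finset.filter_congr fun i hi => ?_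
        rw [h1 i (Finset.mem_range.1 hi)]
    · rw [mul_zero, add_zero]

/-- The coordinates of `H` smaller than `m`. -/
def H1 (m : ℕ) (H : Finset ℕ) : Finset ℕ := (Finset.range m).filter (· ∈ H)

/-- The coordinates of `H` in `[m, m + l)`, shifted. -/
def H2 (m l : ℕ) (H : Finset ℕ) : Finset ℕ := (Finset.range l).filter (fun i => m + i ∈ H)

theorem mem_H1 {m : ℕ} {H : Finset ℕ} {i : ℕ} : i ∈ H1 m H ↔ i < m ∧ i ∈ H := by
  simp [H1]

theorem mem_H2 {m l : ℕ} {H : Finset ℕ} {i : ℕ} : i ∈ H2 m l H ↔ i < l ∧ m + i ∈ H := by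
  simp [H2]

theorem card_H {m l : ℕ} {H : Finset ℕ} (hH : H ⊆ Finset.range (m + l)) :
    (H1 m H).card + (H2 m l H).card = H.card := by
  have h := card_range_add (fun i => i ∈ H) m l
  have h2 : (Finset.range (m + l)).filter (fun i => i ∈ H) = H := by
    ext i
    simp only [Finset.mem_filter]
    exact ⟨fun h => h.2, fun h => ⟨hH h, h⟩⟩
  rw [h2] at h
  exact h.symm

/-- The union of a set of coordinates and a shifted one. -/
def join (m : ℕ) (A B : Finset ℕ) : Finset ℕ := A ∪ B.map (addLeftEmbedding m)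

theorem mem_join {m : ℕ} {A B : Finset ℕ} {i : ℕ} :
    i ∈ join m A B ↔ i ∈ A ∨ ∃ b ∈ B, m + b = i := by
  simp [join]

theorem join_subset {m l : ℕ} {A B : Finset ℕ} (hA : A ⊆ Finset.range m)
    (hB : B ⊆ Finset.range l) : join m A B ⊆ Finset.range (m + l) := by
  intro i hi
  rw [Finset.mem_range]
  rcases mem_join.1 hi with h | ⟨b, hb, rfl⟩
  · have := Finset.mem_range.1 (hA h)
    omega
  · have := Finset.mem_range.1 (hB hb)
    omega

theorem H1_join {m : ℕ} {A B : Finset ℕ} (hA : A ⊆ Finset.range m) : H1 m (join m A B) = A := by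
  ext i
  rw [mem_H1, mem_join]
  constructor
  · rintro ⟨h1, h2 | ⟨b, hb, h2⟩⟩
    · exact h2
    · omega
  · intro h
    exact ⟨Finset.mem_range.1 (hA h), Or.inl h⟩

theorem H2_join {m l : ℕ} {A B : Finset ℕ} (hA : A ⊆ Finset.range m)
    (hB : B ⊆ Finset.range l) : H2 m l (join m A B) = B := by
  ext i
  rw [mem_H2, mem_join]
  constructor
  · rintro ⟨h1, h2 | ⟨b, hb, h2⟩⟩
    · have := Finset.mem_range.1 (hA h2)
      omega
    · have : b = i := by omega
      rwa [← this]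
  · intro h
    exact ⟨Finset.mem_range.1 (hB h), Or.inr ⟨i, h, rfl⟩⟩

theorem join_H {m l : ℕ} {H : Finset ℕ} (hH : H ⊆ Finset.range (m + l)) :
    join m (H1 m H) (H2 m l H) = H := by
  ext i
  rw [mem_join]
  constructor
  · rintro (h | ⟨b, hb, rfl⟩)
    · exact (mem_H1.1 h).2
    · exact (mem_H2.1 hb).2
  · intro h
    by_cases hi : i < m
    · exact Or.inl (mem_H1.2 ⟨hi, h⟩)
    · refine Or.inr ⟨i - m, mem_H2.2 ⟨?_, ?_⟩, by omega⟩
      · have := Finset.mem_range.1 (hH h)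
        omega
      · have h1 : m + (i - m) = i := by omega
        rwa [h1]

theorem wfr_none {H : Finset ℕ} {i : ℕ} : wfr H i = none ↔ i ∈ H := by
  rw [wfr]
  split_ifs with h <;> simp [h]

theorem wbk_none {H : Finset ℕ} {i : ℕ} : wbk H i = none ↔ i ∉ H := by
  rw [wbk]
  split_ifs with h <;> simp [h]

theorem fr_wfr {m : ℕ} {H : Finset ℕ} (hH : H ⊆ Finset.range m) : fr (wfr H) m = H.card := by
  rw [fr]
  congr 1
  ext i
  rw [Finset.mem_filter, wfr_none]
  exact ⟨fun h => h.2, fun h => ⟨hH h, h⟩⟩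

theorem card_not {m : ℕ} {H : Finset ℕ} (hH : H ⊆ Finset.range m) :
    ((Finset.range m).filter (· ∉ H)).card = m - H.card := by
  have h1 : (Finset.range m).filter (· ∉ H) = Finset.range m \ H := by
    ext i
    simp
  rw [h1, Finset.card_sdiff_of_subset hH, Finset.card_range]

theorem fr_wbk {m : ℕ} {H : Finset ℕ} (hH : H ⊆ Finset.range m) :
    fr (wbk H) m = m - H.card := by
  rw [fr, ← card_not hH]
  congr 1
  ext i
  rw [Finset.mem_filter, wbk_none, Finset.mem_filter]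

theorem wfr_congr {H H' : Finset ℕ} {i j : ℕ} (h : i ∈ H ↔ j ∈ H') : wfr H i = wfr H' j := by
  rw [wfr, wfr]
  simp only [h]

theorem wbk_congr {H H' : Finset ℕ} {i j : ℕ} (h : i ∈ H ↔ j ∈ H') : wbk H i = wbk H' j := by
  rw [wbk, wbk]
  simp only [h]

theorem H1_iff {m : ℕ} {H : Finset ℕ} {i : ℕ} (hi : i < m) : i ∈ H ↔ i ∈ H1 m H := by
  rw [mem_H1]
  tauto

theorem H2_iff {m l : ℕ} {H : Finset ℕ} {i : ℕ} (hi : i < l) : m + i ∈ H ↔ i ∈ H2 m l H := by
  rw [mem_H2]
  tauto

theorem H1_subset {m : ℕ} {H : Finset ℕ} : H1 m H ⊆ Finset.range m := Finset.filter_subset _ _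

theorem H2_subset {m l : ℕ} {H : Finset ℕ} : H2 m l H ⊆ Finset.range l := Finset.filter_subset _ _

/-- The front face of a product cube. -/
theorem front {m l : ℕ} (H : Finset ℕ) (τ : C(Cb, X)) (σ : C(Cb, Y))
    (hτ : IsCube (m : ℤ) τ) (hσ : IsCube (l : ℤ) σ) :
    (crossCube m τ σ).comp (fc (m + l) (wfr H)) =
      crossCube (H1 m H).card (τ.comp (fc m (wfr (H1 m H)))) (σ.comp (fc l (wfr (H2 m l H)))) := by
  have h1 : ∀ j < m, wfr H j = wfr (H1 m H) j := fun j hj => wfr_congr (H1_iff hj)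
  have h2 : ∀ j < l, (fun j => wfr H (m + j)) j = wfr (H2 m l H) j :=
    fun j hj => wfr_congr (H2_iff hj)
  rw [crossCube_fc _ _ _ hτ hσ, fc_congr h1, fc_congr h2, fr_congr h1, fr_wfr H1_subset]

/-- The back face of a product cube. -/
theorem back {m l : ℕ} (H : Finset ℕ) (τ : C(Cb, X)) (σ : C(Cb, Y))
    (hτ : IsCube (m : ℤ) τ) (hσ : IsCube (l : ℤ) σ) :
    (crossCube m τ σ).comp (fc (m + l) (wbk H)) =
      crossCube (m - (H1 m H).card) (τ.comp (fc m (wbk (H1 m H))))
        (σ.comp (fc l (wbk (H2 m l H)))) := by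
  have h1 : ∀ j < m, wbk H j = wbk (H1 m H) j := fun j hj => wbk_congr (H1_iff hj)
  have h2 : ∀ j < l, (fun j => wbk H (m + j)) j = wbk (H2 m l H) j :=
    fun j hj => wbk_congr (H2_iff hj)
  rw [crossCube_fc _ _ _ hτ hσ, fc_congr h1, fc_congr h2, fr_congr h1, fr_wbk H1_subset]

theorem isCube_front {m : ℕ} {H : Finset ℕ} {τ : C(Cb, X)} (hτ : IsCube (m : ℤ) τ)
    (hH : H ⊆ Finset.range m) : IsCube (H.card : ℤ) (τ.comp (fc m (wfr H))) := by
  have h := isCube_face (wfr H) hτ
  rwa [fr_wfr hH] at h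

theorem isCube_back {m : ℕ} {H : Finset ℕ} {τ : C(Cb, X)} (hτ : IsCube (m : ℤ) τ)
    (hH : H ⊆ Finset.range m) : IsCube ((m - H.card : ℕ) : ℤ) (τ.comp (fc m (wbk H))) := by
  have h := isCube_face (wbk H) hτ
  rwa [fr_wbk hH] at h

theorem sign {R : Type*} [CommRing R] (m l i i' j : ℕ) (H : Finset ℕ) (hm : m = i + i')
    (h1 : (H1 m H).card = i) (h2 : (H2 m l H).card = j) :
    (-1 : R) ^ (j * i') * ((sgnS (m + l) H : ℤ) : R) =
      ((sgnS m (H1 m H) : ℤ) : R) * ((sgnS l (H2 m l H) : ℤ) : R) := by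
  have h3 : (Finset.range l).filter (· ∈ H2 m l H) = H2 m l H := by
    ext k
    rw [Finset.mem_filter]
    exact ⟨fun h => h.2, fun h => ⟨H2_subset h, h⟩⟩
  rw [sgnS_eq, sgnS_eq, sgnS_eq,
    inv_add m l H (H1 m H) (H2 m l H) (fun _ h => H1_iff h) (fun _ h => H2_iff h),
    card_not H1_subset, h3, h1, h2]
  have h4 : m - i = i' := by omega
  rw [h4]
  push_cast
  have h5 : (-1 : R) ^ (j * i') * (-1 : R) ^ (j * i') = 1 := by
    rw [← mul_pow]
    simp
  rw [pow_add, pow_add, mul_comm i' j]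
  linear_combination (-1 : R) ^ inv m (H1 m H) * (-1 : R) ^ inv l (H2 m l H) * h5


/-! ### Cubes of smaller dimension -/

theorem isCube_of_le {a m : ℕ} {σ : C(Cb, X)} (h : IsCube (a : ℤ) σ) (ham : a ≤ m) :
    IsCube (m : ℤ) σ := by
  refine ⟨by positivity, fun x y hxy => h.2 fun i hi => hxy i ?_⟩
  simp only [Set.mem_ofPred_eq] at hi ⊢
  omega

theorem degen_of_lt {a m : ℕ} {σ : C(Cb, X)} (h : IsCube (a : ℤ) σ) (ham : a < m) :
    Degen (m : ℤ) σ := by
  refine ⟨a, by omega, fun x y hxy => h.2 fun i hi => hxy i ?_⟩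
  simp only [Set.mem_ofPred_eq] at hi ⊢
  omega

theorem fc_id {n : ℕ} {w : ℕ → Option Bool} (h : ∀ j < n, w j = none) :
    fc n w = ContinuousMap.id Cb := by
  refine ContinuousMap.ext fun u => funext fun j => ?_
  by_cases hj : j < n
  · rw [fc_lt w u hj, h j hj]
    change u (fr w j) = u j
    have e : fr w j = j := by
      unfold fr
      rw [Finset.filter_true_of_mem, Finset.card_range]
      intro i hi
      exact h i ((Finset.mem_range.1 hi).trans hj)
    rw [e]
  · rw [fc_ge w u hj]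
    have e : ((Finset.range n).filter (fun i => w i ≠ none)).card = 0 := by
      rw [Finset.card_eq_zero, Finset.filter_eq_empty_iff]
      intro i hi
      rw [not_not]
      exact h i (Finset.mem_range.1 hi)
    rw [e]
    rfl

theorem comp_wbk_empty (n : ℕ) (σ : C(Cb, X)) : σ.comp (fc n (wbk ∅)) = σ := by
  rw [fc_id fun j _ => wbk_none.2 (Finset.notMem_empty j)]
  rfl

theorem comp_wfr_range (n : ℕ) (σ : C(Cb, X)) : σ.comp (fc n (wfr (Finset.range n))) = σ := by
  rw [fc_id fun j hj => wfr_none.2 (Finset.mem_range.2 hj)]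
  rfl

/-- The vertex `0`. -/
def zz : Cb := fun _ => 0

theorem comp_wfr_empty {n : ℕ} {σ : C(Cb, X)} (hσ : IsCube (n : ℤ) σ) :
    σ.comp (fc n (wfr ∅)) = ContinuousMap.const Cb (σ zz) := by
  refine ContinuousMap.ext fun u => ?_
  change σ (fc n (wfr ∅) u) = σ zz
  refine hσ.2 fun j hj => ?_
  have hj' : j < n := by exact_mod_cast hj
  rw [fc_lt _ _ hj', wfr, if_neg (Finset.notMem_empty j)]
  rfl

theorem sgnS_empty (n : ℕ) : sgnS n ∅ = 1 := by
  unfold sgnS
  simp

theorem sgnS_range (n : ℕ) : sgnS n (Finset.range n) = 1 := by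
  unfold sgnS
  rw [Finset.filter_false_of_mem]
  · simp
  · intro q hq
    rw [Finset.mem_product] at hq
    exact fun h => h.1 hq.1

section cupprod

variable {A A' A'' : Type*} [AddCommGroup A] [AddCommGroup A'] [AddCommGroup A'']

theorem fst_cross (n : ℕ) (τ : C(Cb, X)) (σ : C(Cb, Y)) :
    (ContinuousMap.fst : C(X × Y, X)).comp (crossCube n τ σ) = τ := rfl

theorem snd_cross (n : ℕ) (τ : C(Cb, X)) (σ : C(Cb, Y)) :
    (ContinuousMap.snd : C(X × Y, Y)).comp (crossCube n τ σ) = σ.comp (drop n) := rfl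

theorem drop_zero : drop 0 = ContinuousMap.id Cb := by
  refine ContinuousMap.ext fun u => funext fun j => ?_
  rw [drop_apply, zero_add]
  rfl

/-- Product with a cochain of the first factor. -/
theorem cup_fst (β : A →+ A' →+ A'') {m d : ℕ} (M : C(Cb, X × Y) → A) (u : C(Cb, X) → A')
    (hu : ∀ σ : C(Cb, X), IsCube (m : ℤ) σ → Degen (m : ℤ) σ → u σ = 0) {s : C(Cb, X)}
    {t : C(Cb, Y)} (hs : IsCube (m : ℤ) s) (ht : IsCube (d : ℤ) t) :
    cup β d m M (pb ContinuousMap.fst u) (crossCube m s t) =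
      (-1 : ℤ) ^ (d * m) • β (M (crossCube 0 (ContinuousMap.const Cb (s zz)) t)) (u s) := by
  have hsub : join m ∅ (Finset.range d) ⊆ Finset.range (m + d) :=
    join_subset (Finset.empty_subset _) subset_rfl
  have hcard := card_H hsub
  have e1 : H1 m (join m ∅ (Finset.range d)) = ∅ := H1_join (Finset.empty_subset _)
  have e2 : H2 m d (join m ∅ (Finset.range d)) = Finset.range d :=
    H2_join (Finset.empty_subset _) subset_rfl
  rw [e1, e2, Finset.card_empty, Finset.card_range, zero_add] at hcard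
  unfold cup
  rw [add_comm d m, Finset.sum_eq_single (join m ∅ (Finset.range d))]
  · have h1 := front (m := m) (l := d) (join m ∅ (Finset.range d)) s t hs ht
    have h2 := back (m := m) (l := d) (join m ∅ (Finset.range d)) s t hs ht
    rw [h1, h2]
    unfold pb
    rw [fst_cross, e1, e2, Finset.card_empty, comp_wbk_empty, comp_wfr_range, comp_wfr_empty hs]
    have h3 := sign (R := ℤ) m d 0 m d (join m ∅ (Finset.range d)) (by omega)
      (by rw [e1]; rfl) (by rw [e2, Finset.card_range])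
    rw [e1, e2, sgnS_empty, sgnS_range] at h3
    have h4 : sgnS (m + d) (join m ∅ (Finset.range d)) = (-1 : ℤ) ^ (d * m) := by
      have h5 : (-1 : ℤ) ^ (d * m) * (-1 : ℤ) ^ (d * m) = 1 := by
        rw [← mul_pow]
        simp
      push_cast at h3
      linear_combination ((-1 : ℤ) ^ (d * m)) * h3 - sgnS (m + d) (join m ∅ (Finset.range d)) * h5
    rw [h4]
  · intro H hH hne
    rw [Finset.mem_powersetCard] at hH
    have hc := card_H hH.1
    have h0 : 0 < (H1 m H).card := by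
      rw [Finset.card_pos, Finset.nonempty_iff_ne_empty]
      intro h0
      apply hne
      rw [h0, Finset.card_empty, zero_add, hH.2] at hc
      have h3 : H2 m d H = Finset.range d :=
        Finset.eq_of_subset_of_card_le H2_subset (by rw [Finset.card_range, hc])
      rw [← join_H hH.1, h0, h3]
    have hm := Finset.card_le_card (H1_subset (m := m) (H := H))
    rw [Finset.card_range] at hm
    rw [back H s t hs ht]
    unfold pb
    rw [fst_cross, hu _ (isCube_of_le (isCube_back hs H1_subset) (by omega))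
      (degen_of_lt (isCube_back hs H1_subset) (by omega)), map_zero, smul_zero]
  · intro h
    exact absurd (Finset.mem_powersetCard.2 ⟨hsub, hcard.symm⟩) h

/-- Product with a cochain of the second factor. -/
theorem cup_snd (β : A →+ A' →+ A'') {m d : ℕ} (M : C(Cb, X × Y) → A) (u : C(Cb, Y) → A')
    (hu : ∀ σ : C(Cb, Y), IsCube (m : ℤ) σ → Degen (m : ℤ) σ → u σ = 0) {s : C(Cb, X)}
    {t : C(Cb, Y)} (hs : IsCube (m : ℤ) s) (ht : IsCube (d : ℤ) t) :
    cup β d m M (pb ContinuousMap.snd u) (crossCube m s t) =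
      ∑ H ∈ (Finset.range d).powersetCard (d - m),
        sgnS d H • β (M (crossCube m s (t.comp (fc d (wfr H))))) (u (t.comp (fc d (wbk H)))) := by
  unfold cup
  rw [add_comm d m]
  have hz : ∀ H ∈ (Finset.range (m + d)).powersetCard d, (H1 m H).card ≠ m →
      sgnS (m + d) H • β (M ((crossCube m s t).comp (fc (m + d) (wfr H))))
        (pb ContinuousMap.snd u ((crossCube m s t).comp (fc (m + d) (wbk H)))) = 0 := by
    intro H hH h1
    rw [Finset.mem_powersetCard] at hH
    have hc := card_H hH.1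
    have hm := Finset.card_le_card (H1_subset (m := m) (H := H))
    rw [Finset.card_range] at hm
    have hd := Finset.card_le_card (H2_subset (m := m) (l := d) (H := H))
    rw [Finset.card_range] at hd
    rw [back H s t hs ht]
    unfold pb
    rw [snd_cross]
    have hcube : IsCube (m : ℤ)
        ((t.comp (fc d (wbk (H2 m d H)))).comp (drop (m - (H1 m H).card))) := by
      refine ⟨by positivity, fun x y hxy => ?_⟩
      refine (isCube_back ht (H2_subset (m := m) (l := d) (H := H))).2 fun i hi => ?_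
      simp only [Set.mem_ofPred_eq] at hi hxy
      rw [drop_apply, drop_apply]
      exact hxy _ (by omega)
    have hdeg : Degen (m : ℤ)
        ((t.comp (fc d (wbk (H2 m d H)))).comp (drop (m - (H1 m H).card))) := by
      refine ⟨0, by omega, fun x y hxy => ?_⟩
      change (t.comp (fc d (wbk (H2 m d H)))) (drop (m - (H1 m H).card) x) =
        (t.comp (fc d (wbk (H2 m d H)))) (drop (m - (H1 m H).card) y)
      congr 1
      funext i
      simp only [Set.mem_ofPred_eq] at hxy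
      rw [drop_apply, drop_apply]
      exact hxy _ (by omega)
    rw [hu _ hcube hdeg, map_zero, smul_zero]
  rcases Nat.lt_or_ge d m with hdm | hdm
  · rw [Finset.sum_eq_zero, Finset.sum_eq_zero]
    · intro H hH
      have h1 : IsCube ((d - H.card : ℕ) : ℤ) (t.comp (fc d (wbk H))) :=
        isCube_back ht (Finset.mem_powersetCard.1 hH).1
      rw [hu _ (isCube_of_le h1 (by omega)) (degen_of_lt h1 (by omega)), map_zero, smul_zero]
    · intro H hH
      refine hz H hH fun h => ?_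
      rw [Finset.mem_powersetCard] at hH
      have hc := card_H hH.1
      omega
  rw [← Finset.sum_filter_of_ne (s := (Finset.range (m + d)).powersetCard d)
    (p := fun H => (H1 m H).card = m)]
  swap
  · intro H hH h0
    by_contra h1
    exact h0 (hz H hH h1)
  refine Finset.sum_nbij' (fun H => H2 m d H) (fun B => join m (Finset.range m) B) ?_ ?_ ?_ ?_ ?_
  · intro H hH
    rw [Finset.mem_filter, Finset.mem_powersetCard] at hH
    have hc := card_H hH.1.1
    rw [Finset.mem_powersetCard]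
    refine ⟨H2_subset, ?_⟩
    omega
  · intro B hB
    rw [Finset.mem_powersetCard] at hB
    have hs' := join_subset (A := Finset.range m) subset_rfl hB.1
    have hc := card_H hs'
    rw [H1_join subset_rfl, H2_join subset_rfl hB.1, Finset.card_range] at hc
    rw [Finset.mem_filter, Finset.mem_powersetCard, H1_join subset_rfl, Finset.card_range]
    exact ⟨⟨hs', by omega⟩, rfl⟩
  · intro H hH
    rw [Finset.mem_filter, Finset.mem_powersetCard] at hH
    have h1 : H1 m H = Finset.range m :=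
      Finset.eq_of_subset_of_card_le H1_subset (by rw [Finset.card_range, hH.2])
    have h2 := join_H hH.1.1
    rwa [h1] at h2
  · intro B hB
    rw [Finset.mem_powersetCard] at hB
    exact H2_join subset_rfl hB.1
  · intro H hH
    rw [Finset.mem_filter, Finset.mem_powersetCard] at hH
    have hc := card_H hH.1.1
    have h1 : H1 m H = Finset.range m :=
      Finset.eq_of_subset_of_card_le H1_subset (by rw [Finset.card_range, hH.2])
    have h3 := sign (R := ℤ) m d m 0 (d - m) H (by omega) hH.2 (by omega)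
    rw [h1, sgnS_range, mul_zero, pow_zero, one_mul] at h3
    push_cast at h3
    rw [one_mul] at h3
    have h4 := front H s t hs ht
    have h5 := back H s t hs ht
    rw [h4, h5]
    unfold pb
    rw [snd_cross, hH.2, Nat.sub_self, drop_zero, h1, comp_wfr_range, h3]
    rfl

end cupprod

section pairing

variable {π E F : Type} [Group π] [TopologicalSpace E] [TopologicalSpace F] [MulAction π E]
  (Fi : FineCov π E F) {k L : Type} [Field k] [AddCommGroup L] [Module k L]

/-- The cubes `s` and `t` meet. -/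
def Meet (s t : C(Cb, E)) : Prop := ∃ x y, s x = t y

variable {Fi} in
theorem Sm.comp {s : C(Cb, E)} (hs : Fi.Sm s) (a : C(Cb, Cb)) : Fi.Sm (s.comp a) := by
  obtain ⟨V, hV, h⟩ := hs
  exact ⟨V, hV, fun x => h (a x)⟩

variable {Fi} in
theorem Sm.act {s : C(Cb, E)} (hs : Fi.Sm s) (g : π) : Fi.Sm ((Fi.act g).comp s) := by
  obtain ⟨V, hV, h⟩ := hs
  refine ⟨V, hV, fun x => ?_⟩
  change Fi.p (g • s x) ∈ V
  rw [Fi.p_smul]
  exact h x

theorem p_act (g : π) (s : C(Cb, E)) : Fi.p.comp ((Fi.act g).comp s) = Fi.p.comp s :=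
  ContinuousMap.ext fun x => Fi.p_smul g (s x)

variable {Fi}

theorem lift_unique {t t' : C(Cb, E)} (ht : Fi.Sm t) (ht' : Fi.Sm t')
    (hp : Fi.p.comp t = Fi.p.comp t') (h : Meet t t') : t = t' := by
  refine ContinuousMap.ext fun x => (Fi.fine t t' ht ht' h x x).2 ?_
  exact DFunLike.congr_fun hp x

theorem meet_unique {s t t' : C(Cb, E)} (hs : Fi.Sm s) (ht : Fi.Sm t) (ht' : Fi.Sm t')
    (hp : Fi.p.comp t = Fi.p.comp t') (h : Meet s t) (h' : Meet s t') : t = t' := by
  refine lift_unique ht ht' hp ?_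
  obtain ⟨x, y, e⟩ := h'
  refine ⟨y, y, ?_⟩
  rw [← e]
  symm
  refine (Fi.fine s t hs ht h x y).2 ?_
  rw [e]
  exact (DFunLike.congr_fun hp y).symm

theorem lift_dep {t : C(Cb, E)} (ht : Fi.Sm t) {S : Set ℕ}
    (h : DependsOn ((Fi.p.comp t : C(Cb, F)) : Cb → F) S) : DependsOn (t : Cb → E) S := by
  classical
  obtain ⟨a, ha⟩ : ∃ a : C(Cb, Cb), ∀ x i, a x i = if i ∈ S then x i else 0 := by
    refine ⟨⟨fun x i => if i ∈ S then x i else 0, ?_⟩, fun _ _ => rfl⟩
    refine continuous_pi fun i => ?_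
    by_cases hi : i ∈ S
    · simp only [hi, if_true]
      exact continuous_apply i
    · simp only [hi, if_false]
      exact continuous_const
  have e : t.comp a = t := by
    refine lift_unique (Sm.comp ht a) ht ?_ ⟨zz, a zz, rfl⟩
    refine ContinuousMap.ext fun x => h fun i hi => ?_
    rw [ha, if_pos hi]
  intro x y hxy
  rw [← e]
  change t (a x) = t (a y)
  congr 1
  funext i
  rw [ha, ha]
  by_cases hi : i ∈ S
  · rw [if_pos hi, if_pos hi, hxy i hi]
  · rw [if_neg hi, if_neg hi]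

theorem lift_isCube {t : C(Cb, E)} (ht : Fi.Sm t) {n : ℤ} (h : IsCube n (Fi.p.comp t)) :
    IsCube n t := ⟨h.1, lift_dep ht h.2⟩

theorem lift_degen {t : C(Cb, E)} (ht : Fi.Sm t) {n : ℤ} (h : Degen n (Fi.p.comp t)) :
    Degen n t := by
  obtain ⟨i, hi, h⟩ := h
  exact ⟨i, hi, lift_dep ht h⟩

variable (Fi)

/-- The prism of a cube of `O` along `H`. -/
def prismC (ω : C(Cb, E × E)) (h : ∀ x, ω x ∈ Fi.O) : C(Cb, E) :=
  Fi.H.comp ⟨fun x => (x 0, ⟨ω (drop 1 x), h _⟩), by
    refine (continuous_apply 0).prodMk ?_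
    exact Continuous.subtype_mk (ω.continuous.comp (drop 1).continuous) _⟩

theorem prismC_apply (ω : C(Cb, E × E)) (h : ∀ x, ω x ∈ Fi.O) (x : Cb) :
    prismC Fi ω h x = Fi.H (x 0, ⟨ω (drop 1 x), h _⟩) := rfl

theorem prismC_ins_zero (ω : C(Cb, E × E)) (h : ∀ x, ω x ∈ Fi.O) (e : I) :
    (prismC Fi ω h).comp (ins 0 e) =
      ⟨fun x => Fi.H (e, ⟨ω x, h x⟩), Fi.H.continuous.comp (continuous_const.prodMk
        (Continuous.subtype_mk ω.continuous _))⟩ := by
  refine ContinuousMap.ext fun x => ?_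
  change Fi.H ((ins 0 e x) 0, ⟨ω (drop 1 (ins 0 e x)), h _⟩) = Fi.H (e, ⟨ω x, h x⟩)
  have h1 : drop 1 (ins 0 e x) = x := by
    funext j
    rw [drop_apply, ins_apply_gt (by omega)]
    congr 1
    omega
  have h2 : (ins 0 e x) 0 = e := ins_apply_self 0 e x
  congr 1
  refine Prod.ext h2 (Subtype.ext ?_)
  change ω (drop 1 (ins 0 e x)) = ω x
  rw [h1]

theorem prismC_ins_succ (ω : C(Cb, E × E)) (h : ∀ x, ω x ∈ Fi.O) (i : ℕ) (e : I) :
    (prismC Fi ω h).comp (ins (i + 1) e) =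
      prismC Fi (ω.comp (ins i e)) (fun x => h (ins i e x)) := by
  refine ContinuousMap.ext fun x => ?_
  change Fi.H ((ins (i + 1) e x) 0, ⟨ω (drop 1 (ins (i + 1) e x)), h _⟩) =
    Fi.H (x 0, ⟨ω (ins i e (drop 1 x)), h _⟩)
  have h1 : drop 1 (ins (i + 1) e x) = ins i e (drop 1 x) := by
    funext j
    rw [drop_apply]
    rcases lt_trichotomy j i with hj | hj | hj
    · rw [ins_apply_lt (by omega), ins_apply_lt hj, drop_apply]
    · subst hj
      rw [add_comm 1 j, ins_apply_self, ins_apply_self]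
    · rw [ins_apply_gt (by omega), ins_apply_gt hj, drop_apply]
      congr 1
      omega
  have h2 : (ins (i + 1) e x) 0 = x 0 := ins_apply_lt (by omega) e x
  congr 1
  refine Prod.ext h2 (Subtype.ext ?_)
  change ω (drop 1 (ins (i + 1) e x)) = ω (ins i e (drop 1 x))
  rw [h1]

theorem isCube_prismC {n : ℕ} {ω : C(Cb, E × E)} (h : ∀ x, ω x ∈ Fi.O)
    (hω : IsCube (n : ℤ) ω) : IsCube ((n + 1 : ℕ) : ℤ) (prismC Fi ω h) := by
  refine ⟨by positivity, fun x y hxy => ?_⟩
  simp only [Set.mem_ofPred_eq] at hxy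
  rw [prismC_apply, prismC_apply]
  congr 1
  refine Prod.ext (hxy 0 (by positivity)) (Subtype.ext ?_)
  change ω (drop 1 x) = ω (drop 1 y)
  refine hω.2 fun i hi => ?_
  simp only [Set.mem_ofPred_eq] at hi
  rw [drop_apply, drop_apply]
  exact hxy _ (by push_cast; omega)

theorem degen_prismC {n : ℕ} {ω : C(Cb, E × E)} (h : ∀ x, ω x ∈ Fi.O)
    (hω : Degen (n : ℤ) ω) : Degen ((n + 1 : ℕ) : ℤ) (prismC Fi ω h) := by
  obtain ⟨i, hi, hω⟩ := hω
  refine ⟨i + 1, by push_cast; omega, fun x y hxy => ?_⟩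
  simp only [Set.mem_ofPred_eq] at hxy
  rw [prismC_apply, prismC_apply]
  congr 1
  refine Prod.ext (hxy 0 (by omega)) (Subtype.ext ?_)
  change ω (drop 1 x) = ω (drop 1 y)
  refine hω fun l hl => ?_
  simp only [Set.mem_ofPred_eq] at hl
  rw [drop_apply, drop_apply]
  exact hxy _ (by omega)

open Classical in
/-- The cochain `e`. -/
noncomputable def ee (u : C(Cb, E) → L) : C(Cb, E × E) → L := fun ω =>
  if h : ∀ x, ω x ∈ Fi.O then u (prismC Fi ω h) else 0

theorem ee_of (u : C(Cb, E) → L) {ω : C(Cb, E × E)} (h : ∀ x, ω x ∈ Fi.O) :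
    ee Fi u ω = u (prismC Fi ω h) := dif_pos h

theorem dl_ee {j : ℕ} {u : C(Cb, E) → L} (hu : (CS.top E).Coc (j + 1) u) {ω : C(Cb, E × E)}
    (hω : IsCube ((j + 1 : ℕ) : ℤ) ω) (h : ∀ x, ω x ∈ Fi.O) :
    dl j (ee Fi u) ω = pb ContinuousMap.snd u ω - pb ContinuousMap.fst u ω := by
  have h1 := hu.2 (prismC Fi ω h) (isCube_prismC Fi h hω) trivial
  unfold dl at h1 ⊢
  rw [Finset.sum_range_succ', pow_zero, one_smul, prismC_ins_zero, prismC_ins_zero] at h1
  have e1 : (⟨fun x => Fi.H (1, ⟨ω x, h x⟩), Fi.H.continuous.comp (continuous_const.prodMk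
      (Continuous.subtype_mk ω.continuous _))⟩ : C(Cb, E)) = ContinuousMap.snd.comp ω :=
    ContinuousMap.ext fun x => Fi.H1 _
  have e0 : (⟨fun x => Fi.H (0, ⟨ω x, h x⟩), Fi.H.continuous.comp (continuous_const.prodMk
      (Continuous.subtype_mk ω.continuous _))⟩ : C(Cb, E)) = ContinuousMap.fst.comp ω :=
    ContinuousMap.ext fun x => Fi.H0 _
  rw [e1, e0] at h1
  have h2 : ∑ i ∈ Finset.range (j + 1), (-1 : ℤ) ^ (i + 1) •
      (u ((prismC Fi ω h).comp (ins (i + 1) 1)) - u ((prismC Fi ω h).comp (ins (i + 1) 0))) =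
      -∑ i ∈ Finset.range (j + 1), (-1 : ℤ) ^ i •
        (ee Fi u (ω.comp (ins i 1)) - ee Fi u (ω.comp (ins i 0))) := by
    rw [← Finset.sum_neg_distrib]
    refine Finset.sum_congr rfl fun i _ => ?_
    rw [prismC_ins_succ, prismC_ins_succ, ee_of Fi u (fun x => h (ins i 1 x)),
      ee_of Fi u (fun x => h (ins i 0 x)), pow_succ, mul_neg_one, neg_smul]
  rw [h2] at h1
  unfold pb
  rw [neg_add_eq_zero] at h1
  exact h1

theorem ee_rel {j : ℕ} {u : C(Cb, E) → L} (hu : (CS.top E).Rel (j + 1) u) :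
    (CS.top (E × E)).Rel j (ee Fi u) := by
  intro ω hω _ h
  have hd : Degen (j : ℤ) ω := h.resolve_left fun h => h
  unfold ee
  split_ifs with h
  · exact hu _ (isCube_prismC Fi h hω) trivial (Or.inr (degen_prismC Fi h hd))
  · rfl

/-- The diagonal action. -/
def act2 (g : π) : C(E × E, E × E) := (Fi.act g).prodMap (Fi.act g)

theorem act2_mem (g : π) (q : E × E) : act2 Fi g q ∈ Fi.O ↔ q ∈ Fi.O := by
  constructor
  · intro h
    have h1 := Fi.inv g⁻¹ _ _ h
    change (g⁻¹ • g • q.1, g⁻¹ • g • q.2) ∈ Fi.O at h1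
    rwa [inv_smul_smul, inv_smul_smul] at h1
  · exact Fi.inv g q.1 q.2

theorem ee_equi {ρ : Representation k π L} {u : C(Cb, E) → L}
    (hequi : ∀ (g : π) (σ : C(Cb, E)), u ((Fi.act g).comp σ) = ρ g (u σ)) (g : π)
    (ω : C(Cb, E × E)) : ee Fi u ((act2 Fi g).comp ω) = ρ g (ee Fi u ω) := by
  by_cases h : ∀ x, ω x ∈ Fi.O
  · have h' : ∀ x, (act2 Fi g).comp ω x ∈ Fi.O := fun x => (act2_mem Fi g _).2 (h x)
    rw [ee_of Fi u h, ee_of Fi u h', ← hequi]
    congr 1
    refine ContinuousMap.ext fun x => ?_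
    exact Fi.Hequi g (x 0) ⟨ω (drop 1 x), h _⟩ ⟨act2 Fi g (ω (drop 1 x)), h' (drop 1 x)⟩ rfl
  · have h' : ¬ ∀ x, (act2 Fi g).comp ω x ∈ Fi.O := fun h' =>
      h fun x => (act2_mem Fi g _).1 (h' x)
    unfold ee
    rw [dif_neg h, dif_neg h', map_zero]

/-- The pull back of `μ` to the covering. -/
def mm (μ : C(Cb, F × F) → k) : C(Cb, E × E) → k := pb (Fi.p.prodMap Fi.p) μ

/-- Cubes off the diagonal of `F` are zero. -/
def offE : CS (E × E) :=
  ⟨fun _ => True, fun ω => ∀ x, Fi.p (ω x).1 ≠ Fi.p (ω x).2, fun _ _ _ => trivial,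
    fun _ f h x => h (f x)⟩

variable {μ : C(Cb, F × F) → k} {d j : ℕ}

theorem mm_rel (hμ : (offD F).Coc d μ) : (offE Fi).Rel d (mm Fi μ) := by
  intro ω hω _ h
  refine hμ.1 _ (hω.comp _) ⟨Set.univ, Set.mem_singleton _, fun _ => Set.mem_univ _⟩ ?_
  rcases h with h | h
  · exact Or.inl ⟨{x : F × F | x.1 ≠ x.2}, Set.mem_singleton _, h⟩
  · exact Or.inr (h.comp _)

theorem dl_mm (hμ : (offD F).Coc d μ) {ω : C(Cb, E × E)} (hω : IsCube ((d + 1 : ℕ) : ℤ) ω) :
    dl d (mm Fi μ) ω = 0 := by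
  unfold mm
  rw [dl_pb]
  exact hμ.2 _ (hω.comp _) ⟨Set.univ, Set.mem_singleton _, fun _ => Set.mem_univ _⟩

/-- The cochain `M ∪ e`. -/
noncomputable def nn (μ : C(Cb, F × F) → k) (u : C(Cb, E) → L) (d j : ℕ) : C(Cb, E × E) → L :=
  cup AddMonoidHom.smul d j (mm Fi μ) (ee Fi u)

theorem nn_zero (hμ : (offD F).Coc d μ) {u : C(Cb, E) → L} (hu : (CS.top E).Rel (j + 1) u)
    {ω : C(Cb, E × E)} (hω : IsCube ((d + j : ℕ) : ℤ) ω)
    (h : (∀ x, Fi.p (ω x).1 ≠ Fi.p (ω x).2) ∨ Degen ((d + j : ℕ) : ℤ) ω) :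
    nn Fi μ u d j ω = 0 := by
  refine cup_rel (offE Fi) (CS.top (E × E)) rfl AddMonoidHom.smul (mm_rel Fi hμ) (ee_rel Fi hu)
    ω hω trivial ?_
  rcases h with h | h
  · exact Or.inl (Or.inl h)
  · exact Or.inr h

theorem nn_equi {ρ : Representation k π L} {u : C(Cb, E) → L}
    (hequi : ∀ (g : π) (σ : C(Cb, E)), u ((Fi.act g).comp σ) = ρ g (u σ)) (g : π)
    (ω : C(Cb, E × E)) : nn Fi μ u d j ((act2 Fi g).comp ω) = ρ g (nn Fi μ u d j ω) := by
  unfold nn cup
  rw [map_sum]
  refine Finset.sum_congr rfl fun H _ => ?_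
  have e1 : mm Fi μ (((act2 Fi g).comp ω).comp (fc (d + j) (wfr H))) =
      mm Fi μ (ω.comp (fc (d + j) (wfr H))) := by
    unfold mm pb
    congr 1
    refine ContinuousMap.ext fun x => ?_
    exact Prod.ext (Fi.p_smul g _) (Fi.p_smul g _)
  have e2 := ee_equi Fi hequi g (ω.comp (fc (d + j) (wbk H)))
  rw [map_zsmul, e1]
  congr 1
  change mm Fi μ (ω.comp (fc (d + j) (wfr H))) •
    ee Fi u ((act2 Fi g).comp (ω.comp (fc (d + j) (wbk H)))) =
    ρ g (mm Fi μ (ω.comp (fc (d + j) (wfr H))) • ee Fi u (ω.comp (fc (d + j) (wbk H))))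
  rw [e2, map_smul]

theorem dl_nn (hμ : (offD F).Coc d μ) {u : C(Cb, E) → L} (hu : (CS.top E).Coc (j + 1) u)
    {ω : C(Cb, E × E)} (hω : IsCube ((d + j + 1 : ℕ) : ℤ) ω) (h : ∀ x, ω x ∈ Fi.O) :
    dl (d + j) (nn Fi μ u d j) ω = (-1 : ℤ) ^ d •
      (cup AddMonoidHom.smul d (j + 1) (mm Fi μ) (pb ContinuousMap.snd u) ω -
        cup AddMonoidHom.smul d (j + 1) (mm Fi μ) (pb ContinuousMap.fst u) ω) := by
  unfold nn
  rw [dl_cup _ _ _ _ _ hω]
  have z1 : cup AddMonoidHom.smul (d + 1) j (dl d (mm Fi μ)) (ee Fi u) ω = 0 := by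
    unfold cup
    refine Finset.sum_eq_zero fun H hH => ?_
    rw [Finset.mem_powersetCard] at hH
    have h1 : IsCube ((d + 1 : ℕ) : ℤ) (ω.comp (fc (d + 1 + j) (wfr H))) := by
      have h2 := isCube_front (m := d + 1 + j) (H := H) (τ := ω)
        (by rwa [show d + 1 + j = d + j + 1 by omega]) hH.1
      rwa [hH.2] at h2
    rw [dl_mm Fi hμ h1, map_zero, AddMonoidHom.zero_apply, smul_zero]
  rw [z1, zero_add]
  congr 1
  unfold cup
  rw [← Finset.sum_sub_distrib]
  refine Finset.sum_congr rfl fun H hH => ?_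
  rw [Finset.mem_powersetCard] at hH
  have h1 : IsCube ((j + 1 : ℕ) : ℤ) (ω.comp (fc (d + (j + 1)) (wbk H))) := by
    have h2 := isCube_back (m := d + (j + 1)) (H := H) (τ := ω) hω hH.1
    rwa [hH.2, Nat.add_sub_cancel_left] at h2
  rw [dl_ee Fi hu h1 (fun x => h _), map_sub, smul_sub]

open Classical in
/-- Evaluation of `N` on `s × t'`, `t'` the lift of `t` which meets `s`. -/
noncomputable def Phi (n : ℕ) (N : C(Cb, E × E) → L) (s : C(Cb, E)) (t : C(Cb, F)) : L :=
  if h : ∃ t' : C(Cb, E), Fi.p.comp t' = t ∧ Fi.Sm t' ∧ Meet s t' then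
    N (crossCube n s h.choose) else 0

variable {Fi} {n : ℕ} {N : C(Cb, E × E) → L}

theorem Phi_eq {s t' : C(Cb, E)} (hs : Fi.Sm s) (ht' : Fi.Sm t') (h : Meet s t') :
    Phi Fi n N s (Fi.p.comp t') = N (crossCube n s t') := by
  have h1 : ∃ t'' : C(Cb, E), Fi.p.comp t'' = Fi.p.comp t' ∧ Fi.Sm t'' ∧ Meet s t'' :=
    ⟨t', rfl, ht', h⟩
  unfold Phi
  rw [dif_pos h1]
  have h2 := h1.choose_spec
  rw [meet_unique hs h2.2.1 ht' h2.1 h2.2.2 h]

theorem Phi_zero {s : C(Cb, E)} {t : C(Cb, F)}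
    (h : ¬ ∃ t' : C(Cb, E), Fi.p.comp t' = t ∧ Fi.Sm t' ∧ Meet s t') : Phi Fi n N s t = 0 :=
  dif_neg h

theorem Phi_face {s t : C(Cb, E)} (hs : Fi.Sm s) (ht : Fi.Sm t) (h : Meet s t) (a b : C(Cb, Cb))
    (hN : (∀ x y, Fi.p (s (a x)) ≠ Fi.p (t (b y))) →
      N (crossCube n (s.comp a) (t.comp b)) = 0) :
    Phi Fi n N (s.comp a) ((Fi.p.comp t).comp b) = N (crossCube n (s.comp a) (t.comp b)) := by
  by_cases hm : Meet (s.comp a) (t.comp b)
  · exact Phi_eq (Sm.comp hs a) (Sm.comp ht b) hm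
  · rw [hN, Phi_zero]
    · rintro ⟨t', h1, h2, x, y, h3⟩
      refine hm ⟨x, y, ?_⟩
      refine (Fi.fine s t hs ht h (a x) (b y)).2 ?_
      have h4 := DFunLike.congr_fun h1 y
      change Fi.p (t' y) = Fi.p (t (b y)) at h4
      rw [← h4, ← h3]
      rfl
    · intro x y he
      exact hm ⟨x, y, (Fi.fine s t hs ht h (a x) (b y)).2 he⟩

theorem Phi_none {s t : C(Cb, E)} (ht : Fi.Sm t)
    (h : ¬ ∃ t' : C(Cb, E), Fi.p.comp t' = Fi.p.comp t ∧ Fi.Sm t' ∧ Meet s t')
    (a b : C(Cb, Cb)) : Phi Fi n N (s.comp a) ((Fi.p.comp t).comp b) = 0 := by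
  refine Phi_zero ?_
  rintro ⟨t', h1, h2, x, y, h3⟩
  have h4 := DFunLike.congr_fun h1 y
  change Fi.p (t' y) = Fi.p (t (b y)) at h4
  obtain ⟨g, hg⟩ := Fi.trans (t (b y)) (t' y) h4.symm
  refine h ⟨(Fi.act g).comp t, p_act Fi g t, Sm.act ht g, a x, b y, ?_⟩
  change s (a x) = g • t (b y)
  rw [hg]
  exact h3

theorem Phi_equi {ρ : Representation k π L}
    (hN : ∀ (g : π) (ω : C(Cb, E × E)), N ((act2 Fi g).comp ω) = ρ g (N ω)) (g : π)
    {s : C(Cb, E)} (hs : Fi.Sm s) (t : C(Cb, F)) :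
    Phi Fi n N ((Fi.act g).comp s) t = ρ g (Phi Fi n N s t) := by
  by_cases h : ∃ t' : C(Cb, E), Fi.p.comp t' = t ∧ Fi.Sm t' ∧ Meet s t'
  · obtain ⟨t', rfl, h2, h3⟩ := h
    rw [Phi_eq hs h2 h3, ← p_act Fi g t', Phi_eq (Sm.act hs g) (Sm.act h2 g), ← hN]
    · rfl
    · obtain ⟨x, y, h3⟩ := h3
      exact ⟨x, y, congrArg (fun z => g • z) h3⟩
  · rw [Phi_zero h, map_zero, Phi_zero]
    rintro ⟨t', h1, h2, x, y, h3⟩
    refine h ⟨(Fi.act g⁻¹).comp t', (p_act Fi g⁻¹ t').trans h1, Sm.act h2 g⁻¹, x, y, ?_⟩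
    change s x = g⁻¹ • t' y
    rw [← h3]
    change s x = g⁻¹ • g • s x
    rw [inv_smul_smul]

/-- The coboundary on product cubes. -/
theorem dl_cross {X Y A : Type*} [TopologicalSpace X] [TopologicalSpace Y] [AddCommGroup A]
    (N : C(Cb, X × Y) → A) {d j : ℕ} {s : C(Cb, X)} (hs : IsCube ((j + 1 : ℕ) : ℤ) s)
    (t : C(Cb, Y)) :
    dl (d + j) N (crossCube (j + 1) s t) = dl j (fun s' => N (crossCube j s' t)) s +
      (-1 : ℤ) ^ (j + 1) • ∑ i ∈ Finset.range d, (-1 : ℤ) ^ i •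
        (N (crossCube (j + 1) s (t.comp (ins i 1))) -
          N (crossCube (j + 1) s (t.comp (ins i 0)))) := by
  unfold dl
  rw [show d + j + 1 = (j + 1) + d by omega, Finset.sum_range_add, Finset.smul_sum]
  congr 1
  · refine Finset.sum_congr rfl fun i hi => ?_
    rw [Finset.mem_range] at hi
    rw [cross_ins_left hi, cross_ins_left hi, Nat.add_sub_cancel]
  · refine Finset.sum_congr rfl fun i _ => ?_
    rw [cross_ins_right i 1 hs, cross_ins_right i 0 hs, smul_smul, ← pow_add]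

end pairing

section main

variable {π E F : Type} [Group π] [TopologicalSpace E] [TopologicalSpace F] [MulAction π E]
  {Fi : FineCov π E F} {k L : Type} [Field k] [AddCommGroup L] [Module k L]
  {μ : C(Cb, F × F) → k} {d j m : ℕ} {ρ : Representation k π L}

theorem mu_zero (hμ : (offD F).Coc d μ) {ω : C(Cb, F × F)} (hω : IsCube (d : ℤ) ω)
    (h : ∀ x, (ω x).1 ≠ (ω x).2) : μ ω = 0 :=
  hμ.1 ω hω ⟨Set.univ, Set.mem_singleton _, fun _ => Set.mem_univ _⟩
    (Or.inl ⟨{x : F × F | x.1 ≠ x.2}, Set.mem_singleton _, h⟩)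

theorem SS_meet (hμ : (offD F).Coc d μ) {n : ℕ} (hmn : m + n = d) (l : L) {s t : C(Cb, E)}
    (hs : Fi.Sm s) (ht : Fi.Sm t) (g : π) (h : Meet s ((Fi.act g).comp t))
    (hs' : IsCube (m : ℤ) s) (a : C(Cb, Cb)) (ht' : IsCube (n : ℤ) (t.comp a)) :
    Fi.SS μ ρ m l (t.comp a) s =
      μ (crossCube m (Fi.p.comp s) (Fi.p.comp (t.comp a))) • ρ g l := by
  have key : ∀ x y, Fi.p (s x) = Fi.p (t (a y)) → s x = g • t (a y) := fun x y e =>
    (Fi.fine s ((Fi.act g).comp t) hs (Sm.act ht g) h x (a y)).2 (by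
      change Fi.p (s x) = Fi.p (g • t (a y))
      rw [Fi.p_smul]
      exact e)
  unfold FineCov.SS
  split_ifs with h1
  · obtain ⟨x, y, e⟩ := h1.choose_spec
    change s x = h1.choose • t (a y) at e
    have e2 := key x y (by rw [e]; exact Fi.p_smul _ _)
    have e3 : h1.choose = g := by
      have e4 : (g⁻¹ * h1.choose) • t (a y) = t (a y) := by
        rw [mul_smul, ← e, e2, inv_smul_smul]
      exact (inv_mul_eq_one.1 (Fi.free _ _ e4)).symm
    rw [e3]
  · rw [mu_zero hμ, zero_smul]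
    · have h2 := isCube_cross (n := m) (hs'.comp Fi.p) (ht'.comp Fi.p)
      rw [← hmn]
      exact_mod_cast h2
    · intro x e
      exact h1 ⟨g, x, drop m x, key x (drop m x) e⟩

theorem SS_zero_left (τ s : C(Cb, E)) : Fi.SS μ ρ m 0 τ s = 0 := by
  unfold FineCov.SS
  split_ifs
  · rw [map_zero, smul_zero]
  · rfl

theorem SS_none (l : L) {s t : C(Cb, E)} (ht : Fi.Sm t)
    (h : ¬ ∃ t' : C(Cb, E), Fi.p.comp t' = Fi.p.comp t ∧ Fi.Sm t' ∧ Meet s t')
    (a : C(Cb, Cb)) : Fi.SS μ ρ m l (t.comp a) s = 0 := by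
  unfold FineCov.SS
  rw [dif_neg]
  rintro ⟨g, x, y, e⟩
  exact h ⟨(Fi.act g).comp t, p_act Fi g t, Sm.act ht g, x, a y, e⟩

theorem capS_meet (hμ : (offD F).Coc d μ) {u : C(Cb, E) → L} (hu : (CS.top E).Rel m u)
    (hequi : ∀ (g : π) (σ : C(Cb, E)), u ((Fi.act g).comp σ) = ρ g (u σ)) {s t : C(Cb, E)}
    (hs : Fi.Sm s) (ht : Fi.Sm t) (g : π) (h : Meet s ((Fi.act g).comp t))
    (hs' : IsCube (m : ℤ) s) (ht' : IsCube (d : ℤ) t) :
    Fi.capS μ ρ d m u t s =
      cup AddMonoidHom.smul d m (mm Fi μ) (pb ContinuousMap.snd u)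
        (crossCube m s ((Fi.act g).comp t)) := by
  have hu' : ∀ σ : C(Cb, E), IsCube (m : ℤ) σ → Degen (m : ℤ) σ → u σ = 0 :=
    fun σ h1 h2 => hu σ h1 trivial (Or.inr h2)
  rw [cup_snd AddMonoidHom.smul (mm Fi μ) u hu' hs' (ht'.comp (Fi.act g))]
  unfold FineCov.capS
  refine Finset.sum_congr rfl fun H hH => ?_
  rw [Finset.mem_powersetCard] at hH
  congr 1
  have e1 : u (((Fi.act g).comp t).comp (fc d (wbk H))) = ρ g (u (t.comp (fc d (wbk H)))) :=
    hequi g (t.comp (fc d (wbk H)))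
  have e2 : mm Fi μ (crossCube m s (((Fi.act g).comp t).comp (fc d (wfr H)))) =
      μ (crossCube m (Fi.p.comp s) (Fi.p.comp (t.comp (fc d (wfr H))))) := by
    unfold mm pb
    congr 1
    refine ContinuousMap.ext fun x => ?_
    exact Prod.ext rfl (Fi.p_smul g _)
  rw [e1, e2]
  rcases Nat.lt_or_ge d m with hdm | hdm
  · have h1 : IsCube ((d - H.card : ℕ) : ℤ) (t.comp (fc d (wbk H))) := isCube_back ht' hH.1
    rw [hu' _ (isCube_of_le h1 (by omega)) (degen_of_lt h1 (by omega)), SS_zero_left, map_zero,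
      map_zero]
  · refine SS_meet (n := d - m) hμ (by omega) _ hs ht g h hs' _ ?_
    have h1 := isCube_front ht' hH.1
    rwa [hH.2] at h1

theorem capS_none {u : C(Cb, E) → L} {s t : C(Cb, E)} (ht : Fi.Sm t)
    (h : ¬ ∃ t' : C(Cb, E), Fi.p.comp t' = Fi.p.comp t ∧ Fi.Sm t' ∧ Meet s t') :
    Fi.capS μ ρ d m u t s = 0 := by
  unfold FineCov.capS
  refine Finset.sum_eq_zero fun H _ => ?_
  rw [SS_none _ ht h, smul_zero]

/-- The formula for one cube of the fundamental chain. -/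
theorem main_cube (hμ : (offD F).Coc d μ) {u : C(Cb, E) → L} (hu : (CS.top E).Coc (j + 1) u)
    (hequi : ∀ (g : π) (σ : C(Cb, E)), u ((Fi.act g).comp σ) = ρ g (u σ)) {s t : C(Cb, E)}
    (hs : Fi.Sm s) (ht : Fi.Sm t) (hs' : IsCube ((j + 1 : ℕ) : ℤ) s) (ht' : IsCube (d : ℤ) t) :
    dl j (fun s' => Phi Fi j (nn Fi μ u d j) s' (Fi.p.comp t)) s +
      (-1 : ℤ) ^ (j + 1) • ∑ i ∈ Finset.range d, (-1 : ℤ) ^ i •
        (Phi Fi (j + 1) (nn Fi μ u d j) s ((Fi.p.comp t).comp (ins i 1)) -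
          Phi Fi (j + 1) (nn Fi μ u d j) s ((Fi.p.comp t).comp (ins i 0))) =
      (-1 : ℤ) ^ d • (Fi.capS μ ρ d (j + 1) u t s - (-1 : ℤ) ^ (d * (j + 1)) •
        (μ (crossCube 0 (ContinuousMap.const Cb (Fi.p (s zz))) (Fi.p.comp t)) • u s)) := by
  have hu' : ∀ σ : C(Cb, E), IsCube ((j + 1 : ℕ) : ℤ) σ → Degen ((j + 1 : ℕ) : ℤ) σ → u σ = 0 :=
    fun σ h1 h2 => hu.1 σ h1 trivial (Or.inr h2)
  by_cases hm : ∃ t' : C(Cb, E), Fi.p.comp t' = Fi.p.comp t ∧ Fi.Sm t' ∧ Meet s t'
  · -- the cubes meet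
    obtain ⟨t1, hp, ht1, hmt⟩ := hm
    obtain ⟨g, hg⟩ := Fi.trans (t zz) (t1 zz) (DFunLike.congr_fun hp zz).symm
    have e1 : t1 = (Fi.act g).comp t :=
      lift_unique ht1 (Sm.act ht g) (hp.trans (p_act Fi g t).symm) ⟨zz, zz, hg.symm⟩
    have ht1' : IsCube (d : ℤ) t1 := by
      rw [e1]
      exact ht'.comp _
    have hO : ∀ x, crossCube (j + 1) s t1 x ∈ Fi.O := fun x =>
      (Fi.fine s t1 hs ht1 hmt x (drop (j + 1) x)).1
    have hcube : IsCube ((d + j + 1 : ℕ) : ℤ) (crossCube (j + 1) s t1) := by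
      have h1 := isCube_cross (n := j + 1) hs' ht1'
      have h2 : ((j + 1 : ℕ) : ℤ) + (d : ℤ) = ((d + j + 1 : ℕ) : ℤ) := by push_cast; omega
      rwa [h2] at h1
    have key := dl_nn Fi hμ hu hcube hO
    rw [dl_cross (nn Fi μ u d j) hs' t1,
      cup_fst AddMonoidHom.smul (mm Fi μ) u hu' hs' ht1'] at key
    have e2 := capS_meet hμ hu.1 hequi hs ht g (by rw [← e1]; exact hmt) hs' ht'
    rw [← e1] at e2
    rw [e2]
    have e3 : (AddMonoidHom.smul
        (mm Fi μ (crossCube 0 (ContinuousMap.const Cb (s zz)) t1))) (u s) =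
        μ (crossCube 0 (ContinuousMap.const Cb (Fi.p (s zz))) (Fi.p.comp t)) • u s := by
      rw [← hp]
      rfl
    rw [e3] at key
    rw [← key]
    congr 1
    · unfold dl
      refine Finset.sum_congr rfl fun i hi => ?_
      rw [Finset.mem_range] at hi
      have h1 : ∀ e : I, Phi Fi j (nn Fi μ u d j) (s.comp (ins i e)) (Fi.p.comp t) =
          nn Fi μ u d j (crossCube j (s.comp (ins i e)) t1) := by
        intro e
        have h2 := Phi_face (n := j) (N := nn Fi μ u d j) hs ht1 hmt (ins i e)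
          (ContinuousMap.id Cb) ?_
        · rw [← hp]
          exact h2
        · intro hoff
          refine nn_zero Fi hμ hu.1 ?_ (Or.inl fun x => hoff x (drop j x))
          have h3 : IsCube (j : ℤ) (s.comp (ins i e)) := by
            have h4 := hs'.face (i := i) (by exact_mod_cast hi) e
            have h5 : ((j + 1 : ℕ) : ℤ) - 1 = (j : ℤ) := by push_cast; omega
            rwa [h5] at h4
          have h6 := isCube_cross (n := j) h3 ht1'
          have h7 : (j : ℤ) + (d : ℤ) = ((d + j : ℕ) : ℤ) := by push_cast; omega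
          rwa [h7] at h6
      beta_reduce
      rw [h1, h1]
    · congr 1
      refine Finset.sum_congr rfl fun i hi => ?_
      rw [Finset.mem_range] at hi
      have h1 : ∀ e : I, Phi Fi (j + 1) (nn Fi μ u d j) s ((Fi.p.comp t).comp (ins i e)) =
          nn Fi μ u d j (crossCube (j + 1) s (t1.comp (ins i e))) := by
        intro e
        have h2 := Phi_face (n := j + 1) (N := nn Fi μ u d j) hs ht1 hmt
          (ContinuousMap.id Cb) (ins i e) ?_
        · rw [← hp]
          exact h2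
        · intro hoff
          refine nn_zero Fi hμ hu.1 ?_ (Or.inl fun x => hoff x (drop (j + 1) x))
          have h3 : IsCube ((d - 1 : ℕ) : ℤ) (t1.comp (ins i e)) := by
            have h4 := ht1'.face (i := i) (by exact_mod_cast hi) e
            have h5 : (d : ℤ) - 1 = ((d - 1 : ℕ) : ℤ) := by omega
            rwa [h5] at h4
          have h6 := isCube_cross (n := j + 1) hs' h3
          have h7 : ((j + 1 : ℕ) : ℤ) + ((d - 1 : ℕ) : ℤ) = ((d + j : ℕ) : ℤ) := by omega
          rwa [h7] at h6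
      rw [h1, h1]
  · -- the cubes do not meet
    have e1 : dl j (fun s' => Phi Fi j (nn Fi μ u d j) s' (Fi.p.comp t)) s = 0 := by
      unfold dl
      refine Finset.sum_eq_zero fun i _ => ?_
      have h1 : ∀ e : I, Phi Fi j (nn Fi μ u d j) (s.comp (ins i e)) (Fi.p.comp t) = 0 :=
        fun e => Phi_none (n := j) (N := nn Fi μ u d j) ht hm (ins i e) (ContinuousMap.id Cb)
      beta_reduce
      rw [h1, h1, sub_zero, smul_zero]
    have e2 : ∑ i ∈ Finset.range d, (-1 : ℤ) ^ i •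
        (Phi Fi (j + 1) (nn Fi μ u d j) s ((Fi.p.comp t).comp (ins i 1)) -
          Phi Fi (j + 1) (nn Fi μ u d j) s ((Fi.p.comp t).comp (ins i 0))) = 0 := by
      refine Finset.sum_eq_zero fun i _ => ?_
      have h1 : ∀ e : I, Phi Fi (j + 1) (nn Fi μ u d j) s ((Fi.p.comp t).comp (ins i e)) = 0 :=
        fun e => Phi_none (n := j + 1) (N := nn Fi μ u d j) ht hm (ContinuousMap.id Cb) (ins i e)
      rw [h1, h1, sub_zero, smul_zero]
    have e3 : μ (crossCube 0 (ContinuousMap.const Cb (Fi.p (s zz))) (Fi.p.comp t)) = 0 := by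
      refine mu_zero hμ ?_ ?_
      · have h0 : IsCube ((0 : ℕ) : ℤ) (ContinuousMap.const Cb (Fi.p (s zz))) :=
          ⟨by simp, fun _ _ _ => rfl⟩
        have h1 := isCube_cross (n := 0) h0 (ht'.comp Fi.p)
        have h2 : ((0 : ℕ) : ℤ) + (d : ℤ) = (d : ℤ) := by simp
        rwa [h2] at h1
      · intro x e
        change Fi.p (s zz) = Fi.p (t (drop 0 x)) at e
        obtain ⟨g, hg⟩ := Fi.trans (t (drop 0 x)) (s zz) e.symm
        exact hm ⟨(Fi.act g).comp t, p_act Fi g t, Sm.act ht g, zz, drop 0 x, hg.symm⟩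
    rw [e1, e2, e3, capS_none ht hm, zero_smul, smul_zero, smul_zero, sub_zero, smul_zero,
      add_zero]

end main

end D3Aux

open D3Aux in
/-- D3. **Duality formula** with coefficients in a representation of the deck group, relative
version: `M` is the test region, the boundary of the small chain `ξ` does not meet `M`.
(Compare `M ∪ pr₁^* u` and `M ∪ pr₂^* u` on products `s × t` of small cubes which meet, by the
prism of the homotopy `H`; evaluate on `s × ξ`. The first is `± u(s)`, the second the sum, the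
difference `± dη(s)`, `η(s') = (M ∪ e)(s' × ξ)`.) -/
theorem FineCov.duality {π E F : Type} [Group π] [TopologicalSpace E] [TopologicalSpace F]
    [MulAction π E] (Fi : FineCov π E F) {k L : Type} [Field k] [AddCommGroup L] [Module k L]
    {μ : C(Cb, F × F) → k} (ρ : Representation k π L) {d j : ℕ} (hμ : (offD F).Coc d μ)
    {u : C(Cb, E) → L} (hu : (CS.top E).Coc (j + 1) u)
    (hequi : ∀ (g : π) (σ : C(Cb, E)), u ((Fi.act g).comp σ) = ρ g (u σ))
    {ξ : Ch k F} (hξ : ξ ∈ CubeHom.C k (d : ℤ) Set.univ)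
    (hsm : ∀ t ∈ ξ.support, ∃ V ∈ Fi.𝒱, ∀ w, t w ∈ V) {M : Set F}
    (h1 : ∀ v : C(Cb, F), IsCube 0 v → (∀ w, v w ∈ M) →
      Finsupp.linearCombination k μ (cr 0 (Finsupp.single v 1) ξ) = 1)
    (h2 : ∀ t ∈ (bd (d : ℤ) ξ).support, Degen ((d : ℤ) - 1) t ∨ ∀ w, t w ∉ M)
    (τ : C(Cb, F) → C(Cb, E)) (hτ : ∀ t ∈ ξ.support, Fi.p.comp (τ t) = t) :
    ∃ ε : k, (ε = 1 ∨ ε = -1) ∧ ∃ η : C(Cb, E) → L,
      (∀ (g : π) (σ : C(Cb, E)), η ((Fi.act g).comp σ) = ρ g (η σ)) ∧
      (∀ σ : C(Cb, E), IsCube (j : ℤ) σ → Degen (j : ℤ) σ → η σ = 0) ∧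
      ∀ s : C(Cb, E), IsCube ((j + 1 : ℕ) : ℤ) s → Fi.Sm s → (∀ w, Fi.p (s w) ∈ M) →
        u s = ε • (∑ t ∈ ξ.support, ξ t • Fi.capS μ ρ d (j + 1) u (τ t) s) + dl j η s := by
  classical
  obtain ⟨N, hN⟩ : ∃ N : C(Cb, E × E) → L, N = nn Fi μ u d j := ⟨_, rfl⟩
  have hcube : ∀ t ∈ ξ.support, IsCube (d : ℤ) t := fun t ht =>
    ((Finsupp.mem_supported k ξ).1 hξ ht).1
  have hsm' : ∀ t ∈ ξ.support, Fi.Sm (τ t) := by
    intro t ht
    obtain ⟨V, hV, h⟩ := hsm t ht
    refine ⟨V, hV, fun w => ?_⟩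
    rw [← hτ t ht] at h
    exact h w
  -- the cochain `η'`
  obtain ⟨η', hη'⟩ : ∃ η' : C(Cb, E) → L, ∀ s, η' s = ∑ t ∈ ξ.support, ξ t • Phi Fi j N s t :=
    ⟨_, fun _ => rfl⟩
  obtain ⟨η, hη⟩ : ∃ η : C(Cb, E) → L, ∀ s, η s =
      if Fi.Sm s then -(-1 : ℤ) ^ (d * (j + 1) + d) • η' s else 0 := ⟨_, fun _ => rfl⟩
  refine ⟨(-1) ^ (d * (j + 1)), neg_one_pow_eq_or k _, η, ?_, ?_, ?_⟩
  · -- equivariance
    intro g σ
    rw [hη, hη]
    by_cases hσ : Fi.Sm σ
    · rw [if_pos hσ, if_pos (Sm.act hσ g), hη', hη', map_zsmul, map_sum]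
      congr 1
      refine Finset.sum_congr rfl fun t _ => ?_
      rw [map_smul, hN, Phi_equi (fun g ω => nn_equi Fi hequi g ω) g hσ t]
    · have hσ' : ¬ Fi.Sm ((Fi.act g).comp σ) := by
        intro h
        apply hσ
        have h3 := Sm.act h g⁻¹
        have e : (Fi.act g⁻¹).comp ((Fi.act g).comp σ) = σ :=
          ContinuousMap.ext fun x => inv_smul_smul g (σ x)
        rwa [e] at h3
      rw [if_neg hσ, if_neg hσ', map_zero]
  · -- normalised
    intro σ hσ hd
    rw [hη]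
    split_ifs with hs
    · rw [hη', Finset.sum_eq_zero, smul_zero]
      intro t ht
      have h3 : Phi Fi j N σ t = 0 := by
        by_cases hm : ∃ t' : C(Cb, E), Fi.p.comp t' = t ∧ Fi.Sm t' ∧ Meet σ t'
        · obtain ⟨t', rfl, ht', hmt⟩ := hm
          rw [Phi_eq hs ht' hmt, hN]
          have h4 : IsCube (d : ℤ) t' := lift_isCube ht' (hcube _ ht)
          have h5 : (j : ℤ) + (d : ℤ) = ((d + j : ℕ) : ℤ) := by push_cast; omega
          have h6 := isCube_cross (n := j) hσ h4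
          have h7 := degen_cross_left (n := j) hd h4
          rw [h5] at h6 h7
          exact nn_zero Fi hμ hu.1 h6 (Or.inr h7)
        · exact Phi_zero hm
      rw [h3, smul_zero]
    · rfl
  · -- the formula
    intro s hs' hs hsM
    have hkey : ∀ t ∈ ξ.support, _ := fun t ht =>
      main_cube (ρ := ρ) hμ hu hequi hs (hsm' t ht) hs'
        (lift_isCube (hsm' t ht) (by rw [hτ t ht]; exact hcube t ht))
    -- the sum of the right hand sides
    have s1 : ∑ t ∈ ξ.support, ξ t •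
        μ (crossCube 0 (ContinuousMap.const Cb (Fi.p (s zz))) t) = 1 := by
      have h3 := h1 (ContinuousMap.const Cb (Fi.p (s zz))) ⟨le_rfl, fun _ _ _ => rfl⟩
        (fun _ => hsM zz)
      rw [← h3]
      conv_rhs => rw [← Finsupp.sum_single ξ, Finsupp.sum, map_sum, map_sum]
      refine Finset.sum_congr rfl fun t _ => ?_
      rw [cr_single_single, one_mul, Finsupp.linearCombination_single]
    -- the boundary of `ξ`
    have s2 : ∑ t ∈ ξ.support, ξ t • ∑ i ∈ Finset.range d, (-1 : ℤ) ^ i •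
        (Phi Fi (j + 1) N s (t.comp (ins i 1)) - Phi Fi (j + 1) N s (t.comp (ins i 0))) = 0 := by
      have h3 : Finsupp.linearCombination k (Phi Fi (j + 1) N s) (bd (d : ℤ) ξ) =
          ∑ t ∈ ξ.support, ξ t • ∑ i ∈ Finset.range d, (-1 : ℤ) ^ i •
            (Phi Fi (j + 1) N s (t.comp (ins i 1)) -
              Phi Fi (j + 1) N s (t.comp (ins i 0))) := by
        conv_lhs => rw [← Finsupp.sum_single ξ, Finsupp.sum, map_sum, map_sum]
        refine Finset.sum_congr rfl fun t _ => ?_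
        rw [bd_apply, Int.toNat_natCast, map_sum, Finset.smul_sum]
        refine Finset.sum_congr rfl fun i _ => ?_
        rw [face_single, face_single, map_smul, map_sub, Finsupp.linearCombination_single,
          Finsupp.linearCombination_single, ← smul_sub, smul_comm]
        congr 1
        rcases neg_one_pow_eq_or ℤ i with hi | hi
        · have hi' : (-1 : k) ^ i = 1 := by
            have := congrArg (Int.cast : ℤ → k) hi
            push_cast at this
            exact this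
          rw [hi, hi', one_smul, one_smul]
        · have hi' : (-1 : k) ^ i = -1 := by
            have := congrArg (Int.cast : ℤ → k) hi
            push_cast at this
            exact this
          rw [hi, hi', neg_smul, neg_smul, one_smul, one_smul]
      rw [← h3, Finsupp.linearCombination_apply, Finsupp.sum]
      refine Finset.sum_eq_zero fun t ht => ?_
      have h4 : Phi Fi (j + 1) N s t = 0 := by
        by_cases hm : ∃ t' : C(Cb, E), Fi.p.comp t' = t ∧ Fi.Sm t' ∧ Meet s t'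
        · obtain ⟨t', rfl, ht', hmt⟩ := hm
          rcases h2 _ ht with h5 | h5
          · rw [Phi_eq hs ht' hmt, hN]
            have hbd : bd (d : ℤ) ξ ∈ CubeHom.C k ((d : ℤ) - 1) Set.univ := bd_mem_C hξ
            have h6 : IsCube ((d : ℤ) - 1) (Fi.p.comp t') :=
              ((Finsupp.mem_supported k _).1 hbd ht).1
            have h7 := lift_isCube ht' h6
            have h8 := lift_degen ht' h5
            have h9 := isCube_cross (n := j + 1) hs' h7
            have h10 := degen_cross_right (n := j + 1) hs' h8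
            have h11 : ((j + 1 : ℕ) : ℤ) + ((d : ℤ) - 1) = ((d + j : ℕ) : ℤ) := by
              push_cast
              omega
            rw [h11] at h9 h10
            exact nn_zero Fi hμ hu.1 h9 (Or.inr h10)
          · obtain ⟨x, y, e⟩ := hmt
            refine absurd (hsM x) ?_
            rw [e]
            exact h5 y
        · exact Phi_zero hm
      rw [h4, smul_zero]
    -- the left hand side
    have s3 : ∑ t ∈ ξ.support, ξ t • dl j (fun s' => Phi Fi j N s' t) s = dl j η' s := by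
      unfold dl
      rw [show (∑ t ∈ ξ.support, ξ t • ∑ i ∈ Finset.range (j + 1), (-1 : ℤ) ^ i •
          (Phi Fi j N (s.comp (ins i 1)) t - Phi Fi j N (s.comp (ins i 0)) t)) =
        ∑ t ∈ ξ.support, ∑ i ∈ Finset.range (j + 1), ξ t • (-1 : ℤ) ^ i •
          (Phi Fi j N (s.comp (ins i 1)) t - Phi Fi j N (s.comp (ins i 0)) t) from
          Finset.sum_congr rfl fun t _ => Finset.smul_sum, Finset.sum_comm]
      refine Finset.sum_congr rfl fun i _ => ?_
      rw [hη', hη', ← Finset.sum_sub_distrib, Finset.smul_sum]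
      refine Finset.sum_congr rfl fun t _ => ?_
      rw [smul_comm, smul_sub]
    have s4 : dl j η s = -(-1 : ℤ) ^ (d * (j + 1) + d) • dl j η' s := by
      unfold dl
      rw [Finset.smul_sum]
      refine Finset.sum_congr rfl fun i _ => ?_
      rw [hη, hη, if_pos (Sm.comp hs _), if_pos (Sm.comp hs _), ← smul_sub, smul_comm]
    -- sum up
    have hsum : ∑ t ∈ ξ.support, ξ t • (dl j (fun s' => Phi Fi j N s' t) s +
        (-1 : ℤ) ^ (j + 1) • ∑ i ∈ Finset.range d, (-1 : ℤ) ^ i •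
          (Phi Fi (j + 1) N s (t.comp (ins i 1)) - Phi Fi (j + 1) N s (t.comp (ins i 0)))) =
        ∑ t ∈ ξ.support, ξ t • ((-1 : ℤ) ^ d • (Fi.capS μ ρ d (j + 1) u (τ t) s -
          (-1 : ℤ) ^ (d * (j + 1)) •
            (μ (crossCube 0 (ContinuousMap.const Cb (Fi.p (s zz))) t) • u s))) := by
      refine Finset.sum_congr rfl fun t ht => ?_
      have h3 := hkey t ht
      rw [hτ t ht, ← hN] at h3
      rw [h3]
    have hL : ∑ t ∈ ξ.support, ξ t • (dl j (fun s' => Phi Fi j N s' t) s +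
        (-1 : ℤ) ^ (j + 1) • ∑ i ∈ Finset.range d, (-1 : ℤ) ^ i •
          (Phi Fi (j + 1) N s (t.comp (ins i 1)) - Phi Fi (j + 1) N s (t.comp (ins i 0)))) =
        dl j η' s := by
      simp only [smul_add, Finset.sum_add_distrib]
      rw [s3]
      have h3 : ∑ t ∈ ξ.support, ξ t • (-1 : ℤ) ^ (j + 1) • ∑ i ∈ Finset.range d, (-1 : ℤ) ^ i •
          (Phi Fi (j + 1) N s (t.comp (ins i 1)) - Phi Fi (j + 1) N s (t.comp (ins i 0))) =
          (-1 : ℤ) ^ (j + 1) • ∑ t ∈ ξ.support, ξ t • ∑ i ∈ Finset.range d, (-1 : ℤ) ^ i •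
          (Phi Fi (j + 1) N s (t.comp (ins i 1)) - Phi Fi (j + 1) N s (t.comp (ins i 0))) := by
        rw [Finset.smul_sum]
        exact Finset.sum_congr rfl fun t _ => smul_comm _ _ _
      rw [h3, s2, smul_zero, add_zero]
    have hR : ∑ t ∈ ξ.support, ξ t • ((-1 : ℤ) ^ d • (Fi.capS μ ρ d (j + 1) u (τ t) s -
          (-1 : ℤ) ^ (d * (j + 1)) •
            (μ (crossCube 0 (ContinuousMap.const Cb (Fi.p (s zz))) t) • u s))) =
        (-1 : ℤ) ^ d • (∑ t ∈ ξ.support, ξ t • Fi.capS μ ρ d (j + 1) u (τ t) s -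
          (-1 : ℤ) ^ (d * (j + 1)) • u s) := by
      have h3 : u s = ∑ t ∈ ξ.support, ξ t •
          (μ (crossCube 0 (ContinuousMap.const Cb (Fi.p (s zz))) t) • u s) := by
        have h4 : (∑ t ∈ ξ.support, ξ t •
            μ (crossCube 0 (ContinuousMap.const Cb (Fi.p (s zz))) t)) • u s = u s := by
          rw [s1, one_smul]
        conv_lhs => rw [← h4, Finset.sum_smul]
        refine Finset.sum_congr rfl fun t _ => ?_
        rw [smul_eq_mul, mul_smul]
      conv_rhs => rw [h3]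
      rw [Finset.smul_sum, ← Finset.sum_sub_distrib, Finset.smul_sum]
      refine Finset.sum_congr rfl fun t _ => ?_
      rw [smul_comm, smul_sub, smul_comm (ξ t) ((-1 : ℤ) ^ (d * (j + 1)))]
    rw [hL, hR] at hsum
    rw [s4, hsum]
    have hk : ((-1 : k) ^ (d * (j + 1))) • (∑ t ∈ ξ.support, ξ t •
        Fi.capS μ ρ d (j + 1) u (τ t) s) = (-1 : ℤ) ^ (d * (j + 1)) • (∑ t ∈ ξ.support, ξ t •
        Fi.capS μ ρ d (j + 1) u (τ t) s) := by
      rcases Nat.even_or_odd (d * (j + 1)) with hi | hi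
      · rw [hi.neg_one_pow, hi.neg_one_pow, one_smul, one_smul]
      · rw [hi.neg_one_pow, hi.neg_one_pow, neg_smul, neg_smul, one_smul, one_smul]
    rw [hk, pow_add, neg_smul, smul_smul, smul_sub, smul_smul]
    have e1 : (-1 : ℤ) ^ (d * (j + 1)) * (-1 : ℤ) ^ d * (-1 : ℤ) ^ d =
        (-1 : ℤ) ^ (d * (j + 1)) := by
      rw [mul_assoc, ← mul_pow]
      simp
    have e2 : (-1 : ℤ) ^ (d * (j + 1)) * (-1 : ℤ) ^ (d * (j + 1)) = 1 := by
      rw [← mul_pow]
      simp
    rw [e1, e2, one_smul]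
    abel

end Pool.Agent.TC
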