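import Pool.Agent.Lib.TC.EZ4

/-!
# Task EZ6 (splice into EZ.lean in place of coc_of_product, after exists_ezK and ezP_bd; tested against EZ.lean under a primed name)
-/

namespace Pool.Agent.TC

open CubeHom

namespace EZ6Aux

variable {R : Type*} [CommRing R] {X Y B : Type*} [TopologicalSpace X] [TopologicalSpace Y]
  [TopologicalSpace B] {A : Type*} [AddCommGroup A]

/-- Put `m` zeros in front. -/
def inj (m : ℕ) : C(Cb, Cb) where
  toFun u := fun j => if j < m then 0 else u (j - m)
  continuous_toFun := by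
    refine continuous_pi fun j => ?_
    by_cases h1 : j < m
    · simpa [h1] using continuous_const
    · simpa [h1] using continuous_apply (j - m)

theorem inj_lt {m j : ℕ} (h : j < m) (u : Cb) : inj m u j = 0 := by simp [inj, h]

theorem inj_ge {m j : ℕ} (h : m ≤ j) (u : Cb) : inj m u j = u (j - m) := by
  have h' : ¬ j < m := by omega
  simp [inj, h']

theorem drop_inj (m : ℕ) (u : Cb) : drop m (inj m u) = u := by
  funext j
  rw [drop_apply, inj_ge (by omega)]
  congr 1
  omega

/-- The linear extension vanishes if the function vanishes on the support. -/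
theorem lc_zero {u : C(Cb, X) → A} {c : Ch ℤ X} (h : ∀ σ ∈ c.support, u σ = 0) :
    Finsupp.linearCombination ℤ u c = 0 := by
  rw [Finsupp.linearCombination_apply, Finsupp.sum]
  exact Finset.sum_eq_zero fun σ hσ => by rw [h σ hσ, smul_zero]

/-- A cube which does not depend on the free coordinate `i`. -/
theorem degen_fc {n i : ℕ} {w : ℕ → Option Bool} {σ : C(Cb, X)} (hi : i < n) (hw : w i = none)
    (hσ : DependsOn (σ : Cb → X) {j : ℕ | j ≠ i}) :
    Degen ((((Finset.range n).filter (fun j => w j = none)).card : ℕ) : ℤ)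
      (σ.comp (fc n w)) := by
  have hmono : ∀ {a b : ℕ}, a < b → w a = none →
      ((Finset.range a).filter (fun j => w j = none)).card <
        ((Finset.range b).filter (fun j => w j = none)).card := by
    intro a b hab ha
    refine Finset.card_lt_card (Finset.ssubset_iff_subset_ne.2 ⟨?_, ?_⟩)
    · intro j hj
      rw [Finset.mem_filter, Finset.mem_range] at hj ⊢
      exact ⟨by omega, hj.2⟩
    · intro he
      have : a ∈ (Finset.range b).filter (fun j => w j = none) := by
        rw [Finset.mem_filter, Finset.mem_range]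
        exact ⟨hab, ha⟩
      rw [← he, Finset.mem_filter, Finset.mem_range] at this
      omega
  have hsplit : ((Finset.range n).filter (fun j => w j = none)).card +
      ((Finset.range n).filter (fun j => w j ≠ none)).card = n := by
    have h := Finset.card_filter_add_card_filter_not (s := Finset.range n) (fun j => w j = none)
    rw [Finset.card_range] at h
    exact h
  refine ⟨((Finset.range i).filter (fun j => w j = none)).card, ?_, ?_⟩
  · exact_mod_cast hmono hi hw
  refine dependsOn_comp_right hσ fun x y hxy j hj => ?_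
  simp only [Set.mem_ofPred_eq] at hxy hj
  change (if j < n then _ else _) = (if j < n then _ else _)
  by_cases hjn : j < n
  · rw [if_pos hjn, if_pos hjn]
    rcases hwj : w j with _ | b
    · refine hxy _ ?_
      rcases lt_or_gt_of_ne hj with h | h
      · exact (hmono h hwj).ne
      · exact (hmono h hw).ne'
    · rfl
  · rw [if_neg hjn, if_neg hjn]
    refine hxy _ ?_
    have := hmono hi hw
    omega

theorem card_fr {n : ℕ} {H : Finset ℕ} (hH : H ⊆ Finset.range n) :
    ((Finset.range n).filter (fun j => wfr H j = none)).card = H.card := by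
  congr 1
  ext j
  rw [Finset.mem_filter]
  constructor
  · rintro ⟨_, h2⟩
    by_contra h
    simp [wfr, h] at h2
  · intro h
    exact ⟨hH h, by simp [wfr, h]⟩

theorem card_bk {n : ℕ} {H : Finset ℕ} (hH : H ⊆ Finset.range n) :
    ((Finset.range n).filter (fun j => wbk H j = none)).card = n - H.card := by
  have h1 : (Finset.range n).filter (fun j => wbk H j = none) = Finset.range n \ H := by
    ext j
    rw [Finset.mem_filter, Finset.mem_sdiff]
    constructor
    · rintro ⟨h1, h2⟩
      refine ⟨h1, fun h => ?_⟩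
      simp [wbk, h] at h2
    · rintro ⟨h1, h2⟩
      exact ⟨h1, by simp [wbk, h2]⟩
  rw [h1, Finset.card_sdiff_of_subset hH, Finset.card_range]

section main

variable (S : CS Y) (T : CS B) (n : ℕ) (f : ℕ → C(Cb, Y) → C(Cb, B) → A)

open Classical in
/-- The function on cubes of the product given by `f` on product cubes. -/
noncomputable def gf (ω : C(Cb, Y × B)) : A :=
  ∑ m ∈ Finset.range (n + 1),
    if IsCube (m : ℤ) (ContinuousMap.fst.comp ω) ∧
      IsCube ((n - m : ℕ) : ℤ) ((ContinuousMap.snd.comp ω).comp (inj m)) ∧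
      ω = crossCube m (ContinuousMap.fst.comp ω) ((ContinuousMap.snd.comp ω).comp (inj m))
    then f m (ContinuousMap.fst.comp ω) ((ContinuousMap.snd.comp ω).comp (inj m)) else 0

variable {S T n f}
variable (hf0 : ∀ m l τ σ, m + l = n → IsCube (m : ℤ) τ → IsCube (l : ℤ) σ → S.ok τ → T.ok σ →
      (S.nul τ ∨ T.nul σ ∨ Degen (m : ℤ) τ ∨ Degen (l : ℤ) σ) → f m τ σ = 0)

include hf0

theorem gf_cross {m l : ℕ} {τ : C(Cb, Y)} {σ : C(Cb, B)} (hml : m + l = n)
    (hτ : IsCube (m : ℤ) τ) (hσ : IsCube (l : ℤ) σ) (h1 : S.ok τ) (h2 : T.ok σ) :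
    gf n f (crossCube m τ σ) = f m τ σ := by
  classical
  unfold gf
  have e1 : ContinuousMap.fst.comp (crossCube m τ σ) = τ := by
    ext u
    rfl
  have e2 : ∀ k, (ContinuousMap.snd.comp (crossCube m τ σ)).comp (inj k) =
      σ.comp ((drop m).comp (inj k)) := by
    intro k
    ext u
    rfl
  have e3 : σ.comp ((drop m).comp (inj m)) = σ := by
    ext u
    change σ (drop m (inj m u)) = σ u
    rw [drop_inj]
  rw [Finset.sum_eq_single m]
  · rw [if_pos]
    · rw [e1, e2, e3]
    · rw [e1, e2, e3]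
      refine ⟨hτ, ?_, rfl⟩
      have : n - m = l := by omega
      rw [this]
      exact hσ
  · intro k hk hkm
    rw [Finset.mem_range] at hk
    split_ifs with h
    · rw [e1, e2] at h ⊢
      obtain ⟨g1, g2, g3⟩ := h
      refine hf0 k (n - k) _ _ (by omega) g1 g2 h1 (T.ok_comp _ _ h2) ?_
      rcases lt_or_gt_of_ne hkm with h | h
      · -- `k < m`
        refine Or.inr (Or.inr (Or.inr ⟨0, by push_cast; omega, ?_⟩))
        refine dependsOn_comp_right (S := {j : ℕ | (j : ℤ) < l}) hσ.2 fun x y hxy j _ => ?_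
        simp only [Set.mem_ofPred_eq] at hxy
        change drop m (inj k x) j = drop m (inj k y) j
        rw [drop_apply, drop_apply, inj_ge (by omega), inj_ge (by omega)]
        exact hxy _ (by omega)
      · refine Or.inr (Or.inr (Or.inl ⟨m, by omega, ?_⟩))
        intro x y hxy
        refine hτ.2 fun j hj => hxy j ?_
        simp only [Set.mem_ofPred_eq] at hj ⊢
        omega
    · rfl
  · intro h
    exact absurd (Finset.mem_range.2 (by omega)) h

theorem gf_rel : (S.prod T).Rel n (gf n f) := by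
  classical
  intro ω hω hok hn
  unfold gf
  refine Finset.sum_eq_zero fun m hm => ?_
  rw [Finset.mem_range] at hm
  split_ifs with h
  · obtain ⟨g1, g2, g3⟩ := h
    refine hf0 m (n - m) _ _ (by omega) g1 g2 hok.1 (T.ok_comp _ _ hok.2) ?_
    rcases hn with (h | h) | ⟨i, hi, h⟩
    · exact Or.inl h
    · exact Or.inr (Or.inl (T.nul_comp _ _ h))
    · by_cases him : i < m
      · refine Or.inr (Or.inr (Or.inl ⟨i, by exact_mod_cast him, dependsOn_comp_left h⟩))
      · refine Or.inr (Or.inr (Or.inr ⟨i - m, by omega, ?_⟩))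
        refine dependsOn_comp_right (S := {j : ℕ | j ≠ i}) (dependsOn_comp_left h)
          fun x y hxy j hj => ?_
        simp only [Set.mem_ofPred_eq] at hxy hj
        by_cases hjm : j < m
        · rw [inj_lt hjm, inj_lt hjm]
        · rw [inj_ge (by omega), inj_ge (by omega)]
          exact hxy _ (by omega)
  · rfl

theorem dl_gf {u : C(Cb, Y × B) → A}
    (hf : ∀ m l τ σ, m + l = n + 1 → IsCube (m : ℤ) τ → IsCube (l : ℤ) σ → S.ok τ → T.ok σ →
      u (crossCube m τ σ) =
        (∑ i ∈ Finset.range m, ((-1 : ℤ) ^ i) •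
          (f (m - 1) (τ.comp (ins i 1)) σ - f (m - 1) (τ.comp (ins i 0)) σ)) +
        (-1 : ℤ) ^ m • ∑ i ∈ Finset.range l, ((-1 : ℤ) ^ i) •
          (f m τ (σ.comp (ins i 1)) - f m τ (σ.comp (ins i 0))))
    {m l : ℕ} {τ : C(Cb, Y)} {σ : C(Cb, B)} (hml : m + l = n + 1)
    (hτ : IsCube (m : ℤ) τ) (hσ : IsCube (l : ℤ) σ) (h1 : S.ok τ) (h2 : T.ok σ) :
    dl n (gf n f) (crossCube m τ σ) = u (crossCube m τ σ) := by
  rw [hf m l τ σ hml hτ hσ h1 h2]
  unfold dl
  rw [← hml, Finset.sum_range_add]
  congr 1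
  · refine Finset.sum_congr rfl fun i hi => ?_
    rw [Finset.mem_range] at hi
    have hc : ((m - 1 : ℕ) : ℤ) = (m : ℤ) - 1 := by omega
    rw [cross_ins_left hi, cross_ins_left hi,
      gf_cross hf0 (l := l) (by omega) (by rw [hc]; exact hτ.face (by exact_mod_cast hi) _) hσ
        (S.ok_comp _ _ h1) h2,
      gf_cross hf0 (l := l) (by omega) (by rw [hc]; exact hτ.face (by exact_mod_cast hi) _) hσ
        (S.ok_comp _ _ h1) h2]
  · rw [Finset.smul_sum]
    refine Finset.sum_congr rfl fun i hi => ?_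
    rw [Finset.mem_range] at hi
    have hc : ((l - 1 : ℕ) : ℤ) = (l : ℤ) - 1 := by omega
    rw [cross_ins_right i _ hτ, cross_ins_right i _ hτ,
      gf_cross hf0 (l := l - 1) (by omega) hτ
        (by rw [hc]; exact hσ.face (by exact_mod_cast hi) _) h1 (T.ok_comp _ _ h2),
      gf_cross hf0 (l := l - 1) (by omega) hτ
        (by rw [hc]; exact hσ.face (by exact_mod_cast hi) _) h1 (T.ok_comp _ _ h2),
      smul_smul, pow_add]

end main

/-- Chains whose cubes are ok. -/
noncomputable def OK (S : CS X) : Submodule ℤ (Ch ℤ X) := Finsupp.supported ℤ ℤ {σ | S.ok σ}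

theorem OK_of {S : CS X} {c : Ch ℤ X} (h : ∀ σ ∈ c.support, S.ok σ) : c ∈ OK S := by
  rw [OK, Finsupp.mem_supported]
  intro σ hσ
  exact h σ hσ

theorem of_OK {S : CS X} {c : Ch ℤ X} (h : c ∈ OK S) : ∀ σ ∈ c.support, S.ok σ := by
  rw [OK, Finsupp.mem_supported] at h
  intro σ hσ
  exact h hσ

theorem bd_OK {S : CS X} {k : ℤ} {c : Ch ℤ X} (h : c ∈ OK S) : bd k c ∈ OK S := by
  refine map_mem_of_supported (bd k) _ (fun σ hσ => ?_) h
  rw [bd_apply]
  refine Submodule.sum_mem _ fun i _ => Submodule.smul_mem _ _ (Submodule.sub_mem _ ?_ ?_)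
  all_goals
    rw [face_single]
    exact single_mem_supported (S := {σ | S.ok σ}) (S.ok_comp _ _ hσ) _

theorem ezP_single (n : ℕ) (ω : C(Cb, Y × B)) :
    ezP ℤ Y B n (Finsupp.single ω 1) = ∑ H ∈ (Finset.range n).powerset, Finsupp.single
      (crossCube H.card ((ContinuousMap.fst.comp ω).comp (fc n (wfr H)))
        ((ContinuousMap.snd.comp ω).comp (fc n (wbk H)))) (sgnS n H) := by
  simp [ezP]

theorem ezP_OK {S : CS Y} {T : CS B} {n : ℕ} {c : Ch ℤ (Y × B)} (h : c ∈ OK (S.prod T)) :
    ezP ℤ Y B n c ∈ OK (S.prod T) := by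
  refine map_mem_of_supported (ezP ℤ Y B n) _ (fun ω hω => ?_) h
  rw [ezP_single]
  refine Submodule.sum_mem _ fun H _ => ?_
  refine single_mem_supported (S := {σ | (S.prod T).ok σ}) ?_ _
  refine ⟨?_, ?_⟩
  · exact S.ok_comp _ _ hω.1
  · exact T.ok_comp _ ((fc n (wbk H)).comp (drop H.card)) hω.2

end EZ6Aux

open EZ6Aux in
/-- A relative cocycle on `Y × B` whose restriction to product cubes is a coboundary (of a
function `f m τ σ` of pairs of cubes, `m` the dimension of `τ`) is a coboundary. -/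
theorem coc_of_product {Y B : Type*} [TopologicalSpace Y] [TopologicalSpace B]
    {A : Type*} [AddCommGroup A] (S : CS Y) (T : CS B) {n : ℕ}
    {u : C(Cb, Y × B) → A} (hu : (S.prod T).Coc (n + 1) u)
    (f : ℕ → C(Cb, Y) → C(Cb, B) → A)
    (hf0 : ∀ m l τ σ, m + l = n → IsCube (m : ℤ) τ → IsCube (l : ℤ) σ → S.ok τ → T.ok σ →
      (S.nul τ ∨ T.nul σ ∨ Degen (m : ℤ) τ ∨ Degen (l : ℤ) σ) → f m τ σ = 0)
    (hf : ∀ m l τ σ, m + l = n + 1 → IsCube (m : ℤ) τ → IsCube (l : ℤ) σ → S.ok τ → T.ok σ →
      u (crossCube m τ σ) =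
        (∑ i ∈ Finset.range m, ((-1 : ℤ) ^ i) •
          (f (m - 1) (τ.comp (ins i 1)) σ - f (m - 1) (τ.comp (ins i 0)) σ)) +
        (-1 : ℤ) ^ m • ∑ i ∈ Finset.range l, ((-1 : ℤ) ^ i) •
          (f m τ (σ.comp (ins i 1)) - f m τ (σ.comp (ins i 0)))) :
    (S.prod T).Cob n u := by
  obtain ⟨K, hKC, hKQ, -, hK, hsup⟩ := exists_ezK ℤ Y B
  set P := S.prod T with hP
  set g := gf n f with hg
  -- `K` preserves `OK`
  have hKOK : ∀ k : ℕ, ∀ c ∈ OK P, K k c ∈ OK P := by
    intro k c hc
    refine map_mem_of_supported (K k) _ (fun ω hω => ?_) hc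
    refine OK_of fun κ hκ => ?_
    obtain ⟨α, β, rfl⟩ := hsup k ω κ hκ
    exact ⟨S.ok_comp _ α hω.1, T.ok_comp _ β hω.2⟩
  -- vanishing on `Q`
  have hQ : ∀ {k : ℕ} {v : C(Cb, Y × B) → A}, P.Rel k v → ∀ c ∈ CubeHom.Q ℤ (k : ℤ) ∅,
      c ∈ OK P → Finsupp.linearCombination ℤ v c = 0 := by
    intro k v hv c hc hc'
    refine lc_zero fun κ hκ => ?_
    rw [CubeHom.Q, Finsupp.mem_supported] at hc
    obtain ⟨h1, h2⟩ := hc hκ
    rcases h2 with h2 | h2
    · exact absurd (h2 fun _ => 0) (Set.notMem_empty _)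
    · exact hv κ h1 (of_OK hc' κ hκ) (Or.inr h2)
  have hgrel : P.Rel n g := gf_rel hf0
  set U := Finsupp.linearCombination ℤ u with hU
  set G := Finsupp.linearCombination ℤ g with hG
  set v1 : C(Cb, Y × B) → A := fun ω => U (K n (Finsupp.single ω 1)) with hv1
  set v2 : C(Cb, Y × B) → A := fun ω => G (ezP ℤ Y B n (Finsupp.single ω 1)) with hv2
  have e1 : ∀ c, U (K n c) = Finsupp.linearCombination ℤ v1 c := by
    intro c
    have : U.comp (K n) = Finsupp.linearCombination ℤ v1 := by
      refine Finsupp.lhom_ext fun ω r => ?_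
      rw [LinearMap.comp_apply, Finsupp.linearCombination_single, ← Finsupp.smul_single_one,
        map_smul, map_smul]
    exact LinearMap.congr_fun this c
  have e2 : ∀ c, G (ezP ℤ Y B n c) = Finsupp.linearCombination ℤ v2 c := by
    intro c
    have : G.comp (ezP ℤ Y B n) = Finsupp.linearCombination ℤ v2 := by
      refine Finsupp.lhom_ext fun ω r => ?_
      rw [LinearMap.comp_apply, Finsupp.linearCombination_single, ← Finsupp.smul_single_one,
        map_smul, map_smul]
    exact LinearMap.congr_fun this c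
  refine ⟨fun ω => v2 ω - v1 ω, ?_, ?_⟩
  · -- relative
    intro ω hω hok hn
    have hs : Finsupp.single ω (1 : ℤ) ∈ OK P :=
      single_mem_supported (S := {σ | P.ok σ}) hok _
    have a1 : v1 ω = 0 := by
      change U (K n (Finsupp.single ω 1)) = 0
      have hKs := hKC n (Finsupp.single ω 1) (mem_C_single hω (fun _ => Set.mem_univ _) _)
      rcases hn with h | h
      · refine lc_zero fun κ hκ => ?_
        rw [CubeHom.C, Finsupp.mem_supported] at hKs
        have hcube := (hKs hκ).1
        have hκok := of_OK (hKOK n _ hs) κ hκ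
        refine hu.1 κ hcube hκok (Or.inl ?_)
        obtain ⟨α, β, rfl⟩ := hsup n ω κ hκ
        exact h.imp (S.nul_comp _ α) (T.nul_comp _ β)
      · exact hQ hu.1 _ (hKQ n _ (mem_Q_single hω (Or.inr h) _)) (hKOK n _ hs)
    have a2 : v2 ω = 0 := by
      change G (ezP ℤ Y B n (Finsupp.single ω 1)) = 0
      rw [EZ6Aux.ezP_single, map_sum]
      refine Finset.sum_eq_zero fun H hH => ?_
      rw [Finset.mem_powerset] at hH
      have hcard : H.card ≤ n := by
        have := Finset.card_le_card hH
        rwa [Finset.card_range] at this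
      have c1 : IsCube ((H.card : ℕ) : ℤ) ((ContinuousMap.fst.comp ω).comp (fc n (wfr H))) := by
        have := isCube_fc (w := wfr H) (hω.comp ContinuousMap.fst)
        rwa [card_fr hH] at this
      have c2 : IsCube ((n - H.card : ℕ) : ℤ)
          ((ContinuousMap.snd.comp ω).comp (fc n (wbk H))) := by
        have := isCube_fc (w := wbk H) (hω.comp ContinuousMap.snd)
        rwa [card_bk hH] at this
      rw [hG, Finsupp.linearCombination_single, hg,
        gf_cross hf0 (l := n - H.card) (by omega) c1 c2 (S.ok_comp _ _ hok.1)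
          (T.ok_comp _ _ hok.2),
        hf0 H.card (n - H.card) _ _ (by omega) c1 c2 (S.ok_comp _ _ hok.1)
          (T.ok_comp _ _ hok.2) ?_, smul_zero]
      rcases hn with (h | h) | ⟨i, hi, h⟩
      · exact Or.inl (S.nul_comp _ _ h)
      · exact Or.inr (Or.inl (T.nul_comp _ _ h))
      · have hi' : i < n := by exact_mod_cast hi
        by_cases hiH : i ∈ H
        · have := degen_fc (w := wfr H) hi' (by simp [wfr, hiH])
            (dependsOn_comp_left (f := ContinuousMap.fst) h)
          rw [card_fr hH] at this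
          exact Or.inr (Or.inr (Or.inl this))
        · have := degen_fc (w := wbk H) hi' (by simp [wbk, hiH])
            (dependsOn_comp_left (f := ContinuousMap.snd) h)
          rw [card_bk hH] at this
          exact Or.inr (Or.inr (Or.inr this))
    change v2 ω - v1 ω = 0
    rw [a1, a2, sub_zero]
  · intro ω hω hok
    have hs : Finsupp.single ω (1 : ℤ) ∈ OK P :=
      single_mem_supported (S := {σ | P.ok σ}) hok _
    have hsC : Finsupp.single ω (1 : ℤ) ∈ CubeHom.C ℤ ((n + 1 : ℕ) : ℤ) Set.univ :=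
      mem_C_single hω (fun _ => Set.mem_univ _) _
    set s := Finsupp.single ω (1 : ℤ) with hsdef
    -- the homotopy
    have b1 : U (bd ((n + 2 : ℕ) : ℤ) (K (n + 1) s)) = 0 := by
      have h := lc_bd (R := ℤ) (k := n + 1) u (K (n + 1) s)
      refine h.trans (lc_zero fun κ hκ => ?_)
      have h1 := hKC (n + 1) s hsC
      rw [CubeHom.C, Finsupp.mem_supported] at h1
      exact hu.2 κ (h1 hκ).1 (of_OK (hKOK (n + 1) _ hs) κ hκ)
    have b2 : U (bd ((n + 2 : ℕ) : ℤ) (K (n + 1) s) + K n (bd ((n + 1 : ℕ) : ℤ) s) -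
        (ezP ℤ Y B (n + 1) s - s)) = 0 := by
      refine hQ hu.1 _ (hK n s hsC) ?_
      exact Submodule.sub_mem _ (Submodule.add_mem _ (bd_OK (hKOK _ _ hs))
        (hKOK _ _ (bd_OK hs))) (Submodule.sub_mem _ (ezP_OK hs) hs)
    have b3 : U s = u ω := by
      rw [hU, hsdef, Finsupp.linearCombination_single, one_smul]
    have b4 : U (K n (bd ((n + 1 : ℕ) : ℤ) s)) = dl n v1 ω := by
      rw [e1]
      refine (lc_bd (R := ℤ) v1 s).trans ?_
      rw [hsdef, Finsupp.linearCombination_single, one_smul]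
    have b5 : U (ezP ℤ Y B (n + 1) s) = G (bd ((n + 1 : ℕ) : ℤ) (ezP ℤ Y B (n + 1) s)) := by
      refine Eq.trans ?_ (lc_bd (R := ℤ) g (ezP ℤ Y B (n + 1) s)).symm
      rw [hsdef, EZ6Aux.ezP_single, map_sum, map_sum]
      refine Finset.sum_congr rfl fun H hH => ?_
      rw [Finset.mem_powerset] at hH
      have hcard : H.card ≤ n + 1 := by
        have := Finset.card_le_card hH
        rwa [Finset.card_range] at this
      have c1 : IsCube ((H.card : ℕ) : ℤ)
          ((ContinuousMap.fst.comp ω).comp (fc (n + 1) (wfr H))) := by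
        have := isCube_fc (w := wfr H) (hω.comp ContinuousMap.fst)
        rwa [card_fr hH] at this
      have c2 : IsCube ((n + 1 - H.card : ℕ) : ℤ)
          ((ContinuousMap.snd.comp ω).comp (fc (n + 1) (wbk H))) := by
        have := isCube_fc (w := wbk H) (hω.comp ContinuousMap.snd)
        rwa [card_bk hH] at this
      rw [hU, Finsupp.linearCombination_single, Finsupp.linearCombination_single, hg,
        dl_gf hf0 hf (l := n + 1 - H.card) (by omega) c1 c2 (S.ok_comp _ _ hok.1)
          (T.ok_comp _ _ hok.2)]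
    have b6 : G (bd ((n + 1 : ℕ) : ℤ) (ezP ℤ Y B (n + 1) s) -
        ezP ℤ Y B n (bd ((n + 1 : ℕ) : ℤ) s)) = 0 :=
      hQ hgrel _ (ezP_bd hsC) (Submodule.sub_mem _ (bd_OK (ezP_OK hs)) (ezP_OK (bd_OK hs)))
    have b7 : G (ezP ℤ Y B n (bd ((n + 1 : ℕ) : ℤ) s)) = dl n v2 ω := by
      rw [e2]
      refine (lc_bd (R := ℤ) v2 s).trans ?_
      rw [hsdef, Finsupp.linearCombination_single, one_smul]
    have b8 : dl n (fun ω => v2 ω - v1 ω) ω = dl n v2 ω - dl n v1 ω := by
      unfold dl
      rw [← Finset.sum_sub_distrib]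
      refine Finset.sum_congr rfl fun i _ => ?_
      rw [← smul_sub]
      congr 1
      exact sub_sub_sub_comm _ _ _ _
    rw [map_sub, map_add, map_sub, b1, b3, b4, b5, zero_add] at b2
    rw [map_sub, b7] at b6
    rw [b8, ← sub_eq_zero.1 b6, sub_eq_zero.1 b2, sub_sub_cancel]

end Pool.Agent.TC
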