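import Pool.Agent.Lib.TC.Coch

/-!
# The operator EZ o AW, definition
-/

namespace Pool.Agent.TC

open CubeHom

variable {R : Type*} [CommRing R] {X Y B : Type*} [TopologicalSpace X] [TopologicalSpace Y]
  [TopologicalSpace B]

variable (R) in
/-- The operator `EZ ∘ AW`. -/
noncomputable def ezP (Y B : Type*) [TopologicalSpace Y] [TopologicalSpace B] (n : ℕ) :
    Ch R (Y × B) →ₗ[R] Ch R (Y × B) :=
  Finsupp.lift _ R _ (fun ω : C(Cb, Y × B) =>
    ∑ H ∈ (Finset.range n).powerset, Finsupp.single
      (crossCube H.card ((ContinuousMap.fst.comp ω).comp (fc n (wfr H)))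
        ((ContinuousMap.snd.comp ω).comp (fc n (wbk H)))) (sgnS n H : R))

end Pool.Agent.TC
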