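import Pool.Agent.Lib.TC.CupGeo
import Pool.Agent.Lib.TC.EZD

/-!
# The operator `EZ ∘ AW` commutes with the boundary
-/

namespace Pool.Agent.TC

open CubeHom Comb

variable {R : Type*} [CommRing R] {X Y B : Type*} [TopologicalSpace X] [TopologicalSpace Y]
  [TopologicalSpace B]

/-- Face maps of cubes are cubes. -/
lemma isCube_fc' {N : ℕ} {w : ℕ → Option Bool} {σ : C(Cb, X)} (h : IsCube (N : ℤ) σ) :
    IsCube ((cf w N : ℕ) : ℤ) (σ.comp (fc N w)) := by
  refine ⟨Int.natCast_nonneg _, dependsOn_comp_right h.2 ?_⟩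
  intro x y hxy j hj
  have hj' : j < N := by
    have : (j : ℤ) < N := hj
    exact_mod_cast this
  cases hw : w j with
  | none =>
    rw [fc_none hj' hw, fc_none hj' hw]
    refine hxy _ ?_
    have h1 := cf_succ w hw
    have h2 := cf_mono w (show j + 1 ≤ N by omega)
    have : cf w j < cf w N := by omega
    exact_mod_cast this
  | some b => rw [fc_some hj' hw, fc_some hj' hw]

lemma cf_wfr_card {N : ℕ} {H : Finset ℕ} (hH : H ⊆ Finset.range N) : cf (wfr H) N = H.card := by
  rw [cf_wfr]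
  unfold cb
  congr 1
  ext j
  rw [Finset.mem_filter]
  exact ⟨fun h => h.1, fun h => ⟨h, Finset.mem_range.1 (hH h)⟩⟩

lemma card_compl {N : ℕ} {H : Finset ℕ} (hH : H ⊆ Finset.range N) :
    ((Finset.range N).filter (· ∉ H)).card = N - H.card := by
  have h1 := Finset.card_filter_add_card_filter_not (s := Finset.range N) (· ∈ H)
  have h2 : (Finset.range N).filter (· ∈ H) = H := by
    ext j
    rw [Finset.mem_filter]
    exact ⟨fun h => h.2, fun h => ⟨hH h, h⟩⟩
  rw [h2, Finset.card_range] at h1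
  omega

lemma single_intCast {ι : Type*} (x : ι) (z : ℤ) :
    Finsupp.single x (z : R) = z • Finsupp.single x (1 : R) := by
  rw [Finsupp.smul_single, zsmul_one]

variable (R) in
/-- `ezP` on a cube. -/
lemma ezP_single (n : ℕ) (ω : C(Cb, Y × B)) :
    ezP R Y B n (Finsupp.single ω 1) = ∑ H ∈ (Finset.range n).powerset, sgnS n H •
      Finsupp.single (crossCube H.card ((ContinuousMap.fst.comp ω).comp (fc n (wfr H)))
        ((ContinuousMap.snd.comp ω).comp (fc n (wbk H)))) (1 : R) := by
  unfold ezP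
  simp only [Finsupp.lift_apply, Finsupp.sum_single_index, zero_smul, one_smul]
  exact Finset.sum_congr rfl fun H _ => single_intCast _ _

lemma bd_single (n : ℕ) (κ : C(Cb, X)) :
    bd (n : ℤ) (Finsupp.single κ (1 : R)) = ∑ l ∈ Finset.range n, ((-1 : ℤ) ^ l) •
      (Finsupp.single (κ.comp (ins l 1)) (1 : R) - Finsupp.single (κ.comp (ins l 0)) 1) := by
  rw [bd_apply, Int.toNat_natCast]
  refine Finset.sum_congr rfl fun l _ => ?_
  rw [face_single, face_single, ← Int.cast_smul_eq_zsmul R]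
  push_cast
  rfl

lemma zsmul_zsmul_sub {M : Type*} [AddCommGroup M] (z z' : ℤ) (x y : M) :
    z' • (z • x - z • y) = (z' * z) • (x - y) := by
  rw [← smul_sub, smul_smul]

lemma zsmul_zsmul' {M : Type*} [AddCommGroup M] (z z' : ℤ) (x : M) :
    z' • (z • x) = (z' * z) • x := smul_smul _ _ _

/-- `ezP` commutes with the boundary on cubes. -/
lemma ezP_bd_single {n : ℕ} {ω : C(Cb, Y × B)} (hω : IsCube ((n + 1 : ℕ) : ℤ) ω) :
    bd ((n + 1 : ℕ) : ℤ) (ezP R Y B (n + 1) (Finsupp.single ω 1)) =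
      ezP R Y B n (bd ((n + 1 : ℕ) : ℤ) (Finsupp.single ω 1)) := by
  obtain ⟨a, ha⟩ : ∃ a : C(Cb, Y), a = ContinuousMap.fst.comp ω := ⟨_, rfl⟩
  obtain ⟨b, hb⟩ : ∃ b : C(Cb, B), b = ContinuousMap.snd.comp ω := ⟨_, rfl⟩
  set T : ℕ → (ℕ → Option Bool) → (ℕ → Option Bool) → Ch R (Y × B) := fun m w w' =>
    Finsupp.single (crossCube m (a.comp (fc (n + 1) w)) (b.comp (fc (n + 1) w'))) 1 with hT
  have hac : IsCube ((n + 1 : ℕ) : ℤ) a := ha ▸ hω.comp _
  -- the right hand side
  have hR : ezP R Y B n (bd ((n + 1 : ℕ) : ℤ) (Finsupp.single ω 1)) =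
      ∑ i ∈ Finset.range (n + 1), ∑ H ∈ (Finset.range n).powerset,
      ((-1) ^ i * sgnS n H) • (T H.card (insW i true (wfr H)) (insW i true (wbk H)) -
        T H.card (insW i false (wfr H)) (insW i false (wbk H))) := by
    rw [bd_single, map_sum]
    refine Finset.sum_congr rfl fun i hi => ?_
    have hi' : i ≤ n := by
      rw [Finset.mem_range] at hi
      omega
    have hc : ∀ e, ezP R Y B n (Finsupp.single (ω.comp (ins i (bitI e))) 1) =
        ∑ H ∈ (Finset.range n).powerset, sgnS n H •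
          T H.card (insW i e (wfr H)) (insW i e (wbk H)) := by
      intro e
      rw [ezP_single]
      refine Finset.sum_congr rfl fun H _ => ?_
      rw [hT]
      simp only
      rw [← ins_fc hi', ← ins_fc hi', ha, hb]
      rfl
    rw [map_zsmul, map_sub, ← bitI_true, ← bitI_false, hc, hc, ← Finset.sum_sub_distrib,
      Finset.smul_sum]
    refine Finset.sum_congr rfl fun H _ => ?_
    exact zsmul_zsmul_sub _ _ _ _
  rw [hR, Comb.star, ezP_single, ← ha, ← hb, map_sum]
  refine Finset.sum_congr rfl fun H hH => ?_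
  rw [Finset.mem_powerset] at hH
  have hm : H.card ≤ n + 1 := by
    have := Finset.card_le_card hH
    rwa [Finset.card_range] at this
  have hτ : IsCube (H.card : ℤ) (a.comp (fc (n + 1) (wfr H))) := by
    have := isCube_fc' (w := wfr H) hac
    rwa [cf_wfr_card hH] at this
  rw [map_zsmul, bd_single]
  have hsplit : Finset.range (n + 1) = Finset.range (H.card + (n + 1 - H.card)) := by
    congr 1
    omega
  rw [hsplit, Finset.sum_range_add, ← hsplit, smul_add]
  congr 1
  · have h1 := sum_range_card H (fun l =>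
      (Finsupp.single ((crossCube H.card (a.comp (fc (n + 1) (wfr H)))
        (b.comp (fc (n + 1) (wbk H)))).comp (ins l 1)) (1 : R) -
      Finsupp.single ((crossCube H.card (a.comp (fc (n + 1) (wfr H)))
        (b.comp (fc (n + 1) (wbk H)))).comp (ins l 0)) (1 : R)))
    rw [h1, Finset.smul_sum]
    refine Finset.sum_congr rfl fun i hi => ?_
    have hi' : i < n + 1 := Finset.mem_range.1 (hH hi)
    have hw : wfr H i = none := if_pos hi
    have hlt : cb H i < H.card := by
      refine Finset.card_lt_card ⟨Finset.filter_subset _ _, fun h => ?_⟩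
      have := h hi
      rw [Finset.mem_filter] at this
      exact lt_irrefl i this.2
    rw [cross_ins_left hlt, cross_ins_left hlt, ContinuousMap.comp_assoc,
      ContinuousMap.comp_assoc, ← cf_wfr, ← bitI_true, ← bitI_false, fc_ins hi' true hw,
      fc_ins hi' false hw, smul_smul, cf_wfr]
    rfl
  · have hq := card_compl hH
    have h1 := sum_range_card ((Finset.range (n + 1)).filter (· ∉ H)) (fun l =>
      (Finsupp.single ((crossCube H.card (a.comp (fc (n + 1) (wfr H)))
        (b.comp (fc (n + 1) (wbk H)))).comp (ins (H.card + l) 1)) (1 : R) -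
      Finsupp.single ((crossCube H.card (a.comp (fc (n + 1) (wfr H)))
        (b.comp (fc (n + 1) (wbk H)))).comp (ins (H.card + l) 0)) (1 : R)))
    rw [hq] at h1
    simp only [pow_add, ← smul_smul]
    rw [← Finset.smul_sum, h1, Finset.smul_sum, Finset.smul_sum]
    refine Finset.sum_congr rfl fun i hi => ?_
    rw [Finset.mem_filter, Finset.mem_range] at hi
    have hw : wbk H i = none := if_neg hi.2
    rw [cross_ins_right _ _ hτ, cross_ins_right _ _ hτ, ContinuousMap.comp_assoc,
      ContinuousMap.comp_assoc, cb_compl hi.1.le, ← cf_wbk, ← bitI_true, ← bitI_false,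
      fc_ins hi.1 true hw, fc_ins hi.1 false hw, smul_smul, smul_smul, cf_wbk, mul_assoc]
    rfl

/-- `ezP` commutes with the boundary. -/
theorem ezP_bd_eq {n : ℕ} {c : Ch R (Y × B)} (hc : c ∈ CubeHom.C R ((n + 1 : ℕ) : ℤ) Set.univ) :
    bd ((n + 1 : ℕ) : ℤ) (ezP R Y B (n + 1) c) = ezP R Y B n (bd ((n + 1 : ℕ) : ℤ) c) := by
  have h := map_eq_of_supported ((bd ((n + 1 : ℕ) : ℤ)).comp (ezP R Y B (n + 1)))
    ((ezP R Y B n).comp (bd ((n + 1 : ℕ) : ℤ))) (fun ω hω => ezP_bd_single hω.1) hc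
  exact h

/-- `ezP` is a chain map modulo degenerate cubes. -/
theorem ezP_bd {n : ℕ} {c : Ch R (Y × B)} (hc : c ∈ CubeHom.C R ((n + 1 : ℕ) : ℤ) Set.univ) :
    bd ((n + 1 : ℕ) : ℤ) (ezP R Y B (n + 1) c) - ezP R Y B n (bd ((n + 1 : ℕ) : ℤ) c) ∈
      CubeHom.Q R (n : ℤ) ∅ := by
  rw [ezP_bd_eq hc, sub_self]
  exact Submodule.zero_mem _

end Pool.Agent.TC
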