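import Pool.Agent.Lib.TC.EZD

/-!
# Task EZ2 (splice into EZ.lean, after the definition of ezP)
-/

namespace Pool.Agent.TC

open CubeHom

variable {R : Type*} [CommRing R] {X Y B : Type*} [TopologicalSpace X] [TopologicalSpace Y]
  [TopologicalSpace B]

namespace EZ2Aux

/-- The rank of `j` among the free coordinates. -/
def rk (w : ℕ → Option Bool) (j : ℕ) : ℕ := ((Finset.range j).filter (fun i => w i = none)).card

theorem fc_none {n : ℕ} {w : ℕ → Option Bool} {j : ℕ} (hj : j < n) (hw : w j = none) (u : Cb) :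
    fc n w u j = u (rk w j) := by
  simp [fc, hj, hw, rk]

theorem fc_some {n : ℕ} {w : ℕ → Option Bool} {j : ℕ} {b : Bool} (hj : j < n)
    (hw : w j = some b) (u : Cb) : fc n w u j = bitI b := by
  simp [fc, hj, hw]

theorem fc_ge {n : ℕ} {w : ℕ → Option Bool} {j : ℕ} (hj : n ≤ j) (u : Cb) :
    fc n w u j = u (j - ((Finset.range n).filter (fun i => w i ≠ none)).card) := by
  simp [fc, Nat.not_lt.2 hj]

theorem rk_lt {w : ℕ → Option Bool} {i j : ℕ} (hij : i < j) (hw : w i = none) :
    rk w i < rk w j := by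
  refine Finset.card_lt_card ?_
  rw [Finset.ssubset_iff_of_subset]
  · exact ⟨i, by simp [hij, hw], by simp⟩
  · intro a ha
    simp only [Finset.mem_filter, Finset.mem_range] at ha ⊢
    exact ⟨by omega, ha.2⟩

theorem rk_add (w : ℕ → Option Bool) (n : ℕ) :
    rk w n + ((Finset.range n).filter (fun i => w i ≠ none)).card = n := by
  have h := Finset.card_filter_add_card_filter_not (s := Finset.range n) (fun i => w i = none)
  rw [Finset.card_range] at h
  exact h

theorem fc_agree {n : ℕ} {w : ℕ → Option Bool} {j : ℕ} (hj : j < n) (hw : w j = none) {u v : Cb}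
    (huv : ∀ i, i ≠ rk w j → u i = v i) (i : ℕ) (hi : i ≠ j) : fc n w u i = fc n w v i := by
  rcases lt_or_ge i n with h | h
  · rcases hwi : w i with _ | b
    · rw [fc_none h hwi, fc_none h hwi]
      refine huv _ ?_
      rcases lt_or_gt_of_ne hi with h' | h'
      · exact (rk_lt h' hwi).ne
      · exact (rk_lt h' hw).ne'
    · rw [fc_some h hwi, fc_some h hwi]
  · rw [fc_ge h, fc_ge h]
    refine huv _ ?_
    have h1 := rk_add w n
    have h2 := rk_lt hj hw
    omega

theorem degen_fc {n : ℕ} {w : ℕ → Option Bool} {j : ℕ} {σ : C(Cb, X)}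
    (h : DependsOn (σ : Cb → X) {i | i ≠ j}) (hj : j < n) (hw : w j = none) :
    Degen ((rk w n : ℕ) : ℤ) (σ.comp (fc n w)) := by
  refine ⟨rk w j, by exact_mod_cast rk_lt hj hw, ?_⟩
  exact dependsOn_comp_right h fun x y hxy i hi => fc_agree hj hw hxy i hi

theorem rk_wfr {n : ℕ} {H : Finset ℕ} (hH : H ⊆ Finset.range n) : rk (wfr H) n = H.card := by
  unfold rk
  congr 1
  ext i
  simp only [Finset.mem_filter, Finset.mem_range, wfr]
  constructor
  · rintro ⟨h1, h2⟩
    by_contra h3
    simp [h3] at h2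
  · intro h
    exact ⟨Finset.mem_range.1 (hH h), by simp [h]⟩

theorem rk_wbk {n : ℕ} {H : Finset ℕ} (hH : H ⊆ Finset.range n) : rk (wbk H) n = n - H.card := by
  unfold rk
  rw [← Finset.card_range n, ← Finset.card_sdiff_of_subset hH, Finset.card_range]
  congr 1
  ext i
  simp only [Finset.mem_filter, Finset.mem_range, wbk, Finset.mem_sdiff]
  constructor
  · rintro ⟨h1, h2⟩
    refine ⟨h1, fun h3 => ?_⟩
    simp [h3] at h2
  · rintro ⟨h1, h2⟩
    exact ⟨h1, by simp [h2]⟩

theorem ezP_single (n : ℕ) (ω : C(Cb, Y × B)) :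
    ezP R Y B n (Finsupp.single ω 1) = ∑ H ∈ (Finset.range n).powerset, Finsupp.single
      (crossCube H.card ((ContinuousMap.fst.comp ω).comp (fc n (wfr H)))
        ((ContinuousMap.snd.comp ω).comp (fc n (wbk H)))) (sgnS n H : R) := by
  simp [ezP]

theorem dependsOn_mono {Z : Type*} {f : Cb → Z} {S T : Set ℕ} (h : DependsOn f S) (hST : S ⊆ T) :
    DependsOn f T := fun _ _ hxy => h fun i hi => hxy i (hST hi)

theorem ezP_of_dep {n : ℕ} {ω : C(Cb, Y × B)} {K : Finset ℕ} (hK : K ⊆ Finset.range n)
    (hY : DependsOn ((ContinuousMap.fst.comp ω : C(Cb, Y)) : Cb → Y) {j | j ∈ K})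
    (hB : DependsOn ((ContinuousMap.snd.comp ω : C(Cb, B)) : Cb → B) {j | j < n ∧ j ∉ K}) :
    ezP R Y B n (Finsupp.single ω 1) - Finsupp.single
      (crossCube K.card ((ContinuousMap.fst.comp ω).comp (fc n (wfr K)))
        ((ContinuousMap.snd.comp ω).comp (fc n (wbk K)))) (sgnS n K : R) ∈
      CubeHom.Q R (n : ℤ) ∅ := by
  have hYc : IsCube (n : ℤ) (ContinuousMap.fst.comp ω) := by
    refine ⟨by omega, dependsOn_mono hY fun i hi => ?_⟩
    have := Finset.mem_range.1 (hK hi)
    simpa using this
  have hBc : IsCube (n : ℤ) (ContinuousMap.snd.comp ω) := by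
    refine ⟨by omega, dependsOn_mono hB fun i hi => ?_⟩
    simpa using hi.1
  rw [ezP_single, ← Finset.sum_erase_eq_sub (Finset.mem_powerset.2 hK)]
  refine Submodule.sum_mem _ fun H hH => ?_
  rw [Finset.mem_erase, Finset.mem_powerset] at hH
  obtain ⟨hne, hHn⟩ := hH
  have hc : H.card ≤ n := by
    have := Finset.card_le_card hHn
    rwa [Finset.card_range] at this
  have h1 : IsCube ((H.card : ℕ) : ℤ) ((ContinuousMap.fst.comp ω).comp (fc n (wfr H))) := by
    rw [← rk_wfr hHn]
    exact isCube_fc hYc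
  have h2 : IsCube ((n - H.card : ℕ) : ℤ) ((ContinuousMap.snd.comp ω).comp (fc n (wbk H))) := by
    rw [← rk_wbk hHn]
    exact isCube_fc hBc
  have e : ((H.card : ℕ) : ℤ) + ((n - H.card : ℕ) : ℤ) = (n : ℤ) := by omega
  have h3 := isCube_cross h1 h2
  rw [e] at h3
  refine mem_Q_single h3 (Or.inr ?_) _
  by_cases hsub : H ⊆ K
  · obtain ⟨j, hjK, hjH⟩ := Finset.exists_of_ssubset (Finset.ssubset_iff_subset_ne.2 ⟨hsub, hne⟩)
    have hd : Degen ((rk (wbk H) n : ℕ) : ℤ)
        ((ContinuousMap.snd.comp ω).comp (fc n (wbk H))) := by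
      refine degen_fc (j := j) (dependsOn_mono hB ?_) (Finset.mem_range.1 (hK hjK))
        (by simp [wbk, hjH])
      rintro i ⟨-, hi⟩ rfl
      exact hi hjK
    rw [rk_wbk hHn] at hd
    have := degen_cross_right h1 hd
    rwa [e] at this
  · obtain ⟨j, hjH, hjK⟩ := Finset.not_subset.1 hsub
    have hd : Degen ((rk (wfr H) n : ℕ) : ℤ)
        ((ContinuousMap.fst.comp ω).comp (fc n (wfr H))) := by
      refine degen_fc (j := j) (dependsOn_mono hY ?_) (Finset.mem_range.1 (hHn hjH))
        (by simp [wfr, hjH])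
      rintro i hi rfl
      exact hjK hi
    rw [rk_wfr hHn] at hd
    have := degen_cross_left hd h2
    rwa [e] at this

end EZ2Aux

open EZ2Aux

/-- On product cubes `ezP` is the identity modulo degenerate cubes. -/
theorem ezP_cross {m l : ℕ} {τ : C(Cb, Y)} {σ : C(Cb, B)} (hτ : IsCube (m : ℤ) τ)
    (hσ : IsCube (l : ℤ) σ) :
    ezP R Y B (m + l) (Finsupp.single (crossCube m τ σ) 1) -
      Finsupp.single (crossCube m τ σ) 1 ∈ CubeHom.Q R ((m + l : ℕ) : ℤ) ∅ := by
  have hK : Finset.range m ⊆ Finset.range (m + l) := by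
    intro i hi
    rw [Finset.mem_range] at hi ⊢
    omega
  have hY : DependsOn ((ContinuousMap.fst.comp (crossCube m τ σ) : C(Cb, Y)) : Cb → Y)
      {j | j ∈ Finset.range m} := by
    intro x y hxy
    refine hτ.2 fun j hj => hxy j ?_
    simp only [Set.mem_ofPred_eq, Finset.mem_range] at hj ⊢
    omega
  have hB : DependsOn ((ContinuousMap.snd.comp (crossCube m τ σ) : C(Cb, B)) : Cb → B)
      {j | j < m + l ∧ j ∉ Finset.range m} := by
    intro x y hxy
    refine hσ.2 fun j hj => ?_
    simp only [Set.mem_ofPred_eq] at hj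
    rw [drop_apply, drop_apply]
    refine hxy _ ?_
    simp only [Set.mem_ofPred_eq, Finset.mem_range]
    omega
  have h := ezP_of_dep (R := R) hK hY hB
  have hs : sgnS (m + l) (Finset.range m) = 1 := by
    unfold sgnS
    have : ((Finset.range (m + l) ×ˢ Finset.range (m + l)).filter
        (fun q => q.1 ∉ Finset.range m ∧ q.2 ∈ Finset.range m ∧ q.1 < q.2)) = ∅ := by
      refine Finset.filter_eq_empty_iff.2 ?_
      rintro ⟨a, b⟩ -
      simp only [Finset.mem_range]
      omega
    rw [this, Finset.card_empty, pow_zero]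
  rw [hs, Int.cast_one, Finset.card_range] at h
  have e1 : (ContinuousMap.fst.comp (crossCube m τ σ)).comp
      (fc (m + l) (wfr (Finset.range m))) = τ := by
    ext u
    change τ (fc (m + l) (wfr (Finset.range m)) u) = τ u
    refine hτ.2 fun j hj => ?_
    simp only [Set.mem_ofPred_eq] at hj
    have hj' : j < m := by omega
    rw [fc_none (by omega) (by simp [wfr, hj'])]
    congr 1
    have : j ≤ m := hj'.le
    unfold rk
    rw [Finset.filter_true_of_mem, Finset.card_range]
    intro i hi
    rw [Finset.mem_range] at hi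
    have : i < m := by omega
    simp [wfr, this]
  have e2 : (ContinuousMap.snd.comp (crossCube m τ σ)).comp
      (fc (m + l) (wbk (Finset.range m))) = σ := by
    ext u
    change σ (drop m (fc (m + l) (wbk (Finset.range m)) u)) = σ u
    refine hσ.2 fun j hj => ?_
    simp only [Set.mem_ofPred_eq] at hj
    rw [drop_apply, fc_none (by omega) (by simp [wbk])]
    congr 1
    have h1 : ((Finset.range (m + j)).filter (fun i => wbk (Finset.range m) i = none)) =
        Finset.range (m + j) \ Finset.range m := by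
      ext i
      simp only [Finset.mem_filter, Finset.mem_range, Finset.mem_sdiff, wbk]
      by_cases h : i < m <;> simp [h]
    unfold rk
    rw [h1, Finset.card_sdiff_of_subset, Finset.card_range, Finset.card_range]
    · omega
    · intro i hi
      rw [Finset.mem_range] at hi ⊢
      omega
  rwa [e1, e2] at h

/-- On swapped product cubes. -/
theorem ezP_swap {m l : ℕ} {τ : C(Cb, Y)} {σ : C(Cb, B)} (hτ : IsCube (m : ℤ) τ)
    (hσ : IsCube (l : ℤ) σ) :
    ezP R Y B (l + m) (Finsupp.single
        ((⟨Prod.swap, continuous_swap⟩ : C(B × Y, Y × B)).comp (crossCube l σ τ)) 1) -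
      Finsupp.single (crossCube m τ σ) ((-1 : R) ^ (m * l)) ∈
        CubeHom.Q R ((l + m : ℕ) : ℤ) ∅ := by
  set ω : C(Cb, Y × B) :=
    (⟨Prod.swap, continuous_swap⟩ : C(B × Y, Y × B)).comp (crossCube l σ τ) with hω
  set K : Finset ℕ := Finset.range (l + m) \ Finset.range l with hKdef
  have hmem : ∀ i, i ∈ K ↔ i < l + m ∧ l ≤ i := by
    intro i
    simp [hKdef]
  have hK : K ⊆ Finset.range (l + m) := Finset.sdiff_subset
  have hcard : K.card = m := by
    rw [hKdef, Finset.card_sdiff_of_subset, Finset.card_range, Finset.card_range]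
    · omega
    · intro i hi
      rw [Finset.mem_range] at hi ⊢
      omega
  have hY : DependsOn ((ContinuousMap.fst.comp ω : C(Cb, Y)) : Cb → Y) {j | j ∈ K} := by
    intro x y hxy
    change τ (drop l x) = τ (drop l y)
    refine hτ.2 fun j hj => ?_
    simp only [Set.mem_ofPred_eq] at hj
    rw [drop_apply, drop_apply]
    refine hxy _ ?_
    simp only [Set.mem_ofPred_eq, hmem]
    omega
  have hB : DependsOn ((ContinuousMap.snd.comp ω : C(Cb, B)) : Cb → B)
      {j | j < l + m ∧ j ∉ K} := by
    intro x y hxy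
    change σ x = σ y
    refine hσ.2 fun j hj => hxy _ ?_
    simp only [Set.mem_ofPred_eq, hmem] at hj ⊢
    omega
  have h := ezP_of_dep (R := R) hK hY hB
  have hs : sgnS (l + m) K = (-1) ^ (m * l) := by
    unfold sgnS
    have : ((Finset.range (l + m) ×ˢ Finset.range (l + m)).filter
        (fun q => q.1 ∉ K ∧ q.2 ∈ K ∧ q.1 < q.2)) = Finset.range l ×ˢ K := by
      ext ⟨a, b⟩
      simp only [Finset.mem_filter, Finset.mem_product, Finset.mem_range, hmem]
      omega
    rw [this, Finset.card_product, Finset.card_range, hcard, mul_comm]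
  rw [hs, hcard] at h
  have e1 : (ContinuousMap.fst.comp ω).comp (fc (l + m) (wfr K)) = τ := by
    ext u
    change τ (drop l (fc (l + m) (wfr K) u)) = τ u
    refine hτ.2 fun j hj => ?_
    simp only [Set.mem_ofPred_eq] at hj
    have hj' : l + j ∈ K := by rw [hmem]; omega
    rw [drop_apply, fc_none (by omega) (by simp [wfr, hj'])]
    congr 1
    have h1 : ((Finset.range (l + j)).filter (fun i => wfr K i = none)) =
        Finset.range (l + j) \ Finset.range l := by
      ext i
      simp only [Finset.mem_filter, Finset.mem_range, Finset.mem_sdiff, wfr, hmem]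
      by_cases h : i < l + m ∧ l ≤ i
      · simp [h]
      · simp only [h, if_false, reduceCtorEq, and_false, false_iff]
        omega
    unfold rk
    rw [h1, Finset.card_sdiff_of_subset, Finset.card_range, Finset.card_range]
    · omega
    · intro i hi
      rw [Finset.mem_range] at hi ⊢
      omega
  have e2 : (ContinuousMap.snd.comp ω).comp (fc (l + m) (wbk K)) = σ := by
    ext u
    change σ (fc (l + m) (wbk K) u) = σ u
    refine hσ.2 fun j hj => ?_
    simp only [Set.mem_ofPred_eq] at hj
    have hj' : j ∉ K := by rw [hmem]; omega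
    rw [fc_none (by omega) (by simp [wbk, hj'])]
    congr 1
    unfold rk
    rw [Finset.filter_true_of_mem, Finset.card_range]
    intro i hi
    rw [Finset.mem_range] at hi
    have : i ∉ K := by rw [hmem]; omega
    simp [wbk, this]
  rw [e1, e2] at h
  convert h using 3
  push_cast
  rfl

end Pool.Agent.TC
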