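import Pool.Agent.Lib.TC.EZ1
import Pool.Agent.Lib.MP_cb6a70_gt_HB.Nrm

/-!
# Section 7.2: the Alexander-Whitney / Eilenberg-Zilber operator

`ezP n` sends an `n`-cube `ω = (a, b)` of `Y × B` to `∑_H ± (a | H) × (b | Hᶜ)`.  It is naturally
chain homotopic to the identity (acyclic models: the universal cube is the diagonal of
`Cb → Cb × Cb`, contract `Cb × Cb` linearly, use the normalisation operator `Nr` of the library).
-/

namespace Pool.Agent.TC

open CubeHom

variable {R : Type*} [CommRing R] {X Y B : Type*} [TopologicalSpace X] [TopologicalSpace Y]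
  [TopologicalSpace B]

namespace EZ3Aux

/-- Truncation: the coordinates `≥ n` become `0`. -/
def tr (n : ℕ) : C(Cb, Cb) where
  toFun u := fun j => if j < n then u j else 0
  continuous_toFun := by
    refine continuous_pi fun j => ?_
    by_cases h : j < n
    · simpa [h] using continuous_apply j
    · simpa [h] using continuous_const

theorem comp_tr {Z : Type*} [TopologicalSpace Z] {n : ℕ} {σ : C(Cb, Z)}
    (h : IsCube (n : ℤ) σ) : σ.comp (tr n) = σ := by
  ext u
  refine h.2 fun j hj => ?_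
  have hj' : j < n := by exact_mod_cast hj
  simp [tr, hj']

/-- The universal `n`-cube of a product. -/
def ucube (n : ℕ) : C(Cb, Cb × Cb) := (tr n).prodMk (tr n)

theorem ucube_isCube (n : ℕ) : IsCube (n : ℤ) (ucube n) := by
  refine ⟨Int.natCast_nonneg n, fun x y hxy => ?_⟩
  have h : tr n x = tr n y := by
    funext j
    by_cases hj : j < n
    · simpa [tr, hj] using hxy j (by exact_mod_cast hj)
    · simp [tr, hj]
  simp only [ucube, ContinuousMap.prod_eval, h]

/-- The linear contraction of `Cb × Cb`. -/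
def contr : C(I × (Cb × Cb), Cb × Cb) where
  toFun p := (fun j => p.1 * p.2.1 j, fun j => p.1 * p.2.2 j)
  continuous_toFun := by fun_prop

variable (R) in
/-- The universal cube as a chain. -/
noncomputable def un (n : ℕ) : Ch R (Cb × Cb) := Finsupp.single (ucube n) 1

theorem un_mem (n : ℕ) : un R n ∈ CubeHom.C R (n : ℤ) Set.univ :=
  mem_C_single (ucube_isCube n) (fun _ => Set.mem_univ _) _

/-- The natural operator defined by a chain of `Cb × Cb`. -/
noncomputable def natK (κ : Ch R (Cb × Cb)) : Ch R (Y × B) →ₗ[R] Ch R (Y × B) :=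
  Finsupp.lift _ R _ (fun ω : C(Cb, Y × B) =>
    push ((ContinuousMap.fst.comp ω).prodMap (ContinuousMap.snd.comp ω)) κ)

theorem natK_single (κ : Ch R (Cb × Cb)) (ω : C(Cb, Y × B)) (r : R) :
    natK κ (Finsupp.single ω r) =
      r • push ((ContinuousMap.fst.comp ω).prodMap (ContinuousMap.snd.comp ω)) κ := by
  simp [natK]

theorem natK_zero (c : Ch R (Y × B)) : natK (0 : Ch R (Cb × Cb)) c = 0 := by
  have h : natK (Y := Y) (B := B) (0 : Ch R (Cb × Cb)) = 0 := by
    ext ω : 2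
    simp [natK_single]
  rw [h, LinearMap.zero_apply]

theorem natK_push {Y' B' : Type*} [TopologicalSpace Y'] [TopologicalSpace B']
    (κ : Ch R (Cb × Cb)) (f : C(Y, Y')) (g : C(B, B')) (c : Ch R (Y × B)) :
    natK κ (push (f.prodMap g) c) = push (f.prodMap g) (natK κ c) := by
  have h : (natK κ).comp (push (R := R) (f.prodMap g)) = (push (f.prodMap g)).comp (natK κ) := by
    ext ω : 2
    simp only [LinearMap.comp_apply, Finsupp.lsingle_apply, push_single, natK_single, one_smul,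
      push_push]
    rfl
  exact LinearMap.congr_fun h c

theorem natK_mem_C {m : ℤ} {κ : Ch R (Cb × Cb)} (hκ : κ ∈ CubeHom.C R m Set.univ)
    (c : Ch R (Y × B)) : natK κ c ∈ CubeHom.C R m Set.univ := by
  have hc : c ∈ Finsupp.supported R R (Set.univ : Set C(Cb, Y × B)) := by simp
  refine map_mem_of_supported (natK κ) _ (fun ω _ => ?_) hc
  rw [natK_single, one_smul]
  exact push_mem_C (fun _ _ => Set.mem_univ _) hκ

theorem fc_zero (w : ℕ → Option Bool) : fc 0 w = ContinuousMap.id Cb := by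
  ext u j
  simp [fc]

theorem ezP_single (n : ℕ) (ω : C(Cb, Y × B)) (r : R) :
    ezP R Y B n (Finsupp.single ω r) =
      r • ∑ H ∈ (Finset.range n).powerset, Finsupp.single
      (crossCube H.card ((ContinuousMap.fst.comp ω).comp (fc n (wfr H)))
        ((ContinuousMap.snd.comp ω).comp (fc n (wbk H)))) (sgnS n H : R) := by
  simp [ezP]

theorem ezP_zero (c : Ch R (Y × B)) : ezP R Y B 0 c = c := by
  have h : ezP R Y B 0 = LinearMap.id := by
    ext ω : 2
    simp only [LinearMap.comp_apply, Finsupp.lsingle_apply, ezP_single, one_smul,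
      Finset.range_zero, Finset.powerset_empty, Finset.sum_singleton, Finset.card_empty,
      LinearMap.id_apply, fc_zero, ContinuousMap.comp_id]
    have h1 : (sgnS 0 ∅ : ℤ) = 1 := by simp [sgnS]
    rw [h1, Int.cast_one]
    congr 1
    ext u
    · simp [crossCube]
    · simp only [crossCube, ContinuousMap.prod_eval, ContinuousMap.comp_apply]
      have h3 : drop 0 u = u := by
        funext j
        rw [drop_apply, zero_add]
      rw [h3]
      rfl
  rw [h, LinearMap.id_apply]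

theorem ezP_push {Y' B' : Type*} [TopologicalSpace Y'] [TopologicalSpace B']
    (n : ℕ) (f : C(Y, Y')) (g : C(B, B')) (c : Ch R (Y × B)) :
    ezP R Y' B' n (push (f.prodMap g) c) = push (f.prodMap g) (ezP R Y B n c) := by
  have h : (ezP R Y' B' n).comp (push (R := R) (f.prodMap g)) =
      (push (f.prodMap g)).comp (ezP R Y B n) := by
    ext ω : 2
    simp only [LinearMap.comp_apply, Finsupp.lsingle_apply, push_single, ezP_single, one_smul,
      map_sum]
    rfl
  exact LinearMap.congr_fun h c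

theorem card_wfr {n : ℕ} {H : Finset ℕ} (hH : H ⊆ Finset.range n) :
    ((Finset.range n).filter (fun i => wfr H i = none)).card = H.card := by
  congr 1
  ext i
  rw [Finset.mem_filter, Finset.mem_range]
  constructor
  · rintro ⟨_, h⟩
    by_contra hi
    simp [wfr, hi] at h
  · intro h
    exact ⟨Finset.mem_range.1 (hH h), by simp [wfr, h]⟩

theorem card_wbk {n : ℕ} {H : Finset ℕ} (hH : H ⊆ Finset.range n) :
    ((Finset.range n).filter (fun i => wbk H i = none)).card = n - H.card := by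
  have h1 : (Finset.range n).filter (fun i => wbk H i = none) = Finset.range n \ H := by
    ext i
    rw [Finset.mem_filter, Finset.mem_sdiff]
    refine and_congr_right fun _ => ?_
    by_cases hi : i ∈ H <;> simp [wbk, hi]
  rw [h1, Finset.card_sdiff_of_subset hH, Finset.card_range]

/-- A face map of a word which leaves free a coordinate on which the cube does not depend. -/
theorem degen_fc {n : ℕ} {w : ℕ → Option Bool} {σ : C(Cb, X)} {i : ℕ} (hi : i < n)
    (hw : w i = none) (hσ : DependsOn (σ : Cb → X) {j | j ≠ i}) :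
    Degen ((((Finset.range n).filter (fun i => w i = none)).card : ℕ) : ℤ)
      (σ.comp (fc n w)) := by
  have hlt : ∀ a b : ℕ, a < b → w a = none →
      ((Finset.range a).filter (fun i => w i = none)).card <
        ((Finset.range b).filter (fun i => w i = none)).card := by
    intro a b hab ha
    refine Finset.card_lt_card ?_
    rw [Finset.ssubset_iff]
    refine ⟨a, by simp, ?_⟩
    intro l hl
    rw [Finset.mem_insert, Finset.mem_filter, Finset.mem_range] at hl
    rw [Finset.mem_filter, Finset.mem_range]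
    rcases hl with rfl | hl
    · exact ⟨hab, ha⟩
    · exact ⟨by omega, hl.2⟩
  refine ⟨((Finset.range i).filter (fun i => w i = none)).card, ?_, ?_⟩
  · exact_mod_cast hlt i n hi hw
  · refine dependsOn_comp_right hσ fun x y hxy j hj => ?_
    simp only [Set.mem_ofPred_eq] at hj hxy
    have hsum : ((Finset.range n).filter (fun i => w i = none)).card +
        ((Finset.range n).filter (fun i => w i ≠ none)).card = n := by
      have := Finset.card_filter_add_card_filter_not (s := Finset.range n)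
        (fun i => w i = none)
      simpa using this
    simp only [fc, ContinuousMap.coe_mk]
    by_cases hjn : j < n
    · simp only [hjn, if_true]
      rcases hwj : w j with _ | b
      · simp only
        refine hxy _ ?_
        rcases lt_or_gt_of_ne hj with h | h
        · exact (hlt j i h hwj).ne
        · exact (hlt i j h hw).ne'
      · rfl
    · simp only [hjn, if_false]
      refine hxy _ ?_
      have := hlt i n hi hw
      omega

/-- The terms of `ezP` are cubes. -/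
theorem term_isCube {n : ℕ} {ω : C(Cb, Y × B)} (hω : IsCube (n : ℤ) ω) {H : Finset ℕ}
    (hH : H ⊆ Finset.range n) :
    IsCube (n : ℤ) (crossCube H.card ((ContinuousMap.fst.comp ω).comp (fc n (wfr H)))
        ((ContinuousMap.snd.comp ω).comp (fc n (wbk H)))) := by
  have h1 := isCube_fc (w := wfr H) (hω.comp ContinuousMap.fst)
  have h2 := isCube_fc (w := wbk H) (hω.comp ContinuousMap.snd)
  rw [card_wfr hH] at h1
  rw [card_wbk hH] at h2
  have h3 := isCube_cross h1 h2
  have hle : H.card ≤ n := by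
    simpa using Finset.card_le_card hH
  have h4 : ((H.card : ℕ) : ℤ) + ((n - H.card : ℕ) : ℤ) = (n : ℤ) := by omega
  rwa [h4] at h3

theorem ezP_mem_C {n : ℕ} {c : Ch R (Y × B)} (hc : c ∈ CubeHom.C R (n : ℤ) Set.univ) :
    ezP R Y B n c ∈ CubeHom.C R (n : ℤ) Set.univ := by
  refine map_mem_of_supported _ _ (fun ω hω => ?_) hc
  rw [ezP_single, one_smul]
  refine Submodule.sum_mem _ fun H hH => ?_
  exact mem_C_single (term_isCube hω.1 (Finset.mem_powerset.1 hH)) (fun _ => Set.mem_univ _) _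


/-- The terms of `ezP` of a degenerate cube are degenerate. -/
theorem term_degen {n : ℕ} {ω : C(Cb, Y × B)} (hω : IsCube (n : ℤ) ω) (hd : Degen (n : ℤ) ω)
    {H : Finset ℕ} (hH : H ⊆ Finset.range n) :
    Degen (n : ℤ) (crossCube H.card ((ContinuousMap.fst.comp ω).comp (fc n (wfr H)))
        ((ContinuousMap.snd.comp ω).comp (fc n (wbk H)))) := by
  obtain ⟨i, hi, hωi⟩ := hd
  have hi' : i < n := by exact_mod_cast hi
  have h1 := isCube_fc (w := wfr H) (hω.comp ContinuousMap.fst)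
  have h2 := isCube_fc (w := wbk H) (hω.comp ContinuousMap.snd)
  rw [card_wfr hH] at h1
  rw [card_wbk hH] at h2
  have hle : H.card ≤ n := by
    simpa using Finset.card_le_card hH
  have h4 : ((H.card : ℕ) : ℤ) + ((n - H.card : ℕ) : ℤ) = (n : ℤ) := by omega
  by_cases hiH : i ∈ H
  · have h3 := degen_fc (w := wfr H) hi' (by simp [wfr, hiH])
      (dependsOn_comp_left (f := ContinuousMap.fst) hωi)
    rw [card_wfr hH] at h3
    have h5 := degen_cross_left h3 h2
    rwa [h4] at h5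
  · have h3 := degen_fc (w := wbk H) hi' (by simp [wbk, hiH])
      (dependsOn_comp_left (f := ContinuousMap.snd) hωi)
    rw [card_wbk hH] at h3
    have h5 := degen_cross_right h1 h3
    rwa [h4] at h5

theorem ezP_mem_Q {n : ℕ} {c : Ch R (Y × B)} (hc : c ∈ CubeHom.Q R (n : ℤ) ∅) :
    ezP R Y B n c ∈ CubeHom.Q R (n : ℤ) ∅ := by
  refine map_mem_of_supported _ _ (fun ω hω => ?_) hc
  rw [ezP_single, one_smul]
  refine Submodule.sum_mem _ fun H hH => ?_
  rcases hω.2 with h | h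
  · exact (h 0).elim
  · exact mem_Q_single (term_isCube hω.1 (Finset.mem_powerset.1 hH))
      (Or.inr (term_degen hω.1 h (Finset.mem_powerset.1 hH))) _

variable (R) in
/-- The universal chain homotopy. -/
noncomputable def kap : ℕ → Ch R (Cb × Cb)
  | 0 => 0
  | n + 1 => prism contr (ezP R Cb Cb (n + 1) (un R (n + 1)) - un R (n + 1) -
      natK (kap n) (bd ((n + 1 : ℕ) : ℤ) (un R (n + 1))))

theorem bd_un_mem (n : ℕ) : bd ((n + 1 : ℕ) : ℤ) (un R (n + 1)) ∈
    CubeHom.C R (n : ℤ) Set.univ := by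
  have h := bd_mem_C (un_mem (R := R) (n + 1))
  rwa [show ((n + 1 : ℕ) : ℤ) - 1 = (n : ℤ) by push_cast; ring] at h

theorem kap_mem (n : ℕ) : kap R n ∈ CubeHom.C R ((n + 1 : ℕ) : ℤ) Set.univ := by
  induction n with
  | zero => exact Submodule.zero_mem _
  | succ n ih =>
    have h := prism_mem_C (H := contr) (V := Set.univ) (fun _ _ _ => Set.mem_univ _)
      (Submodule.sub_mem _ (Submodule.sub_mem _ (ezP_mem_C (un_mem (R := R) (n + 1)))
        (un_mem (R := R) (n + 1))) (natK_mem_C ih (bd ((n + 1 : ℕ) : ℤ) (un R (n + 1)))))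
    rw [show ((n + 1 : ℕ) : ℤ) + 1 = ((n + 1 + 1 : ℕ) : ℤ) by push_cast; ring] at h
    exact h

/-- Cycles of positive degree in `Cb × Cb` are boundaries of their cones. -/
theorem cone {n : ℕ} {z : Ch R (Cb × Cb)} (hz : z ∈ CubeHom.C R ((n + 1 : ℕ) : ℤ) Set.univ)
    (hbz : bd ((n + 1 : ℕ) : ℤ) z ∈ CubeHom.Q R (n : ℤ) ∅) :
    bd ((n + 2 : ℕ) : ℤ) (prism contr z) - z ∈ CubeHom.Q R ((n + 1 : ℕ) : ℤ) ∅ := by
  have h := bd_prism (H := contr) hz
  rw [show ((n + 1 : ℕ) : ℤ) + 1 = ((n + 2 : ℕ) : ℤ) by push_cast; ring] at h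
  rw [h]
  have h1 : atTime contr 1 = ContinuousMap.id (Cb × Cb) := by
    ext x j
    · simp [atTime, contr]
    · simp [atTime, contr]
  have h0 : push (atTime contr 0) z ∈ CubeHom.Q R ((n + 1 : ℕ) : ℤ) ∅ := by
    refine map_mem_of_supported (push (atTime contr 0)) _ (fun σ hσ => ?_) hz
    rw [push_single]
    refine mem_Q_single (hσ.1.comp _) (Or.inr ⟨0, by push_cast; omega, ?_⟩) _
    intro x y _
    simp [atTime, contr]
  have h2 : prism contr (bd ((n + 1 : ℕ) : ℤ) z) ∈ CubeHom.Q R ((n + 1 : ℕ) : ℤ) ∅ := by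
    have h3 := prism_mem_Q (H := contr) (U := ∅) (V := ∅) (fun _ _ hx => hx.elim) hbz
    rwa [show (n : ℤ) + 1 = ((n + 1 : ℕ) : ℤ) by push_cast; ring] at h3
  rw [h1, push_id, show z - push (atTime contr 0) z - prism contr (bd ((n + 1 : ℕ) : ℤ) z) - z =
    -(push (atTime contr 0) z + prism contr (bd ((n + 1 : ℕ) : ℤ) z)) by abel]
  exact Submodule.neg_mem _ (Submodule.add_mem _ h0 h2)

variable (R) in
/-- The homotopy formula for the universal cube. -/
def Univ (n : ℕ) : Prop :=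
  bd ((n + 2 : ℕ) : ℤ) (kap R (n + 1)) + natK (kap R n) (bd ((n + 1 : ℕ) : ℤ) (un R (n + 1))) -
    (ezP R Cb Cb (n + 1) (un R (n + 1)) - un R (n + 1)) ∈ CubeHom.Q R ((n + 1 : ℕ) : ℤ) ∅

/-- A cube is the image of the universal cube. -/
theorem push_ucube {n : ℕ} {ω : C(Cb, Y × B)} (hω : IsCube (n : ℤ) ω) :
    push ((ContinuousMap.fst.comp ω).prodMap (ContinuousMap.snd.comp ω)) (un R n) =
      Finsupp.single ω 1 := by
  rw [un, push_single]
  congr 1
  have h := comp_tr hω
  have h' : ∀ u, ω (tr n u) = ω u := fun u => by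
    rw [← ContinuousMap.comp_apply, h]
  ext u
  · show (ω (tr n u)).1 = _
    rw [h']
  · show (ω (tr n u)).2 = _
    rw [h']

theorem natK_un {κ : Ch R (Cb × Cb)} {ω : C(Cb, Y × B)} :
    natK κ (Finsupp.single ω (1 : R)) =
      push ((ContinuousMap.fst.comp ω).prodMap (ContinuousMap.snd.comp ω)) κ := by
  rw [natK_single, one_smul]

/-- From the universal cube to all chains. -/
theorem main_of_univ {n : ℕ} (h : Univ R n) {c : Ch R (Y × B)}
    (hc : c ∈ CubeHom.C R ((n + 1 : ℕ) : ℤ) Set.univ) :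
    bd ((n + 2 : ℕ) : ℤ) (natK (kap R (n + 1)) c) +
      natK (kap R n) (bd ((n + 1 : ℕ) : ℤ) c) - (ezP R Y B (n + 1) c - c) ∈
        CubeHom.Q R ((n + 1 : ℕ) : ℤ) ∅ := by
  refine map_mem_of_supported ((bd ((n + 2 : ℕ) : ℤ)).comp (natK (kap R (n + 1))) +
    (natK (kap R n)).comp (bd ((n + 1 : ℕ) : ℤ)) - (ezP R Y B (n + 1) - LinearMap.id))
    _ (fun ω hω => ?_) hc
  simp only [LinearMap.sub_apply, LinearMap.add_apply, LinearMap.comp_apply, LinearMap.id_apply]
  have h1 := push_mem_Q (f := (ContinuousMap.fst.comp ω).prodMap (ContinuousMap.snd.comp ω))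
    (V := ∅) (fun _ hx => hx.elim) h
  rw [map_sub, map_add, map_sub, ← bd_push, ← natK_un, ← natK_push, ← bd_push, ← ezP_push,
    push_ucube hω.1] at h1
  exact h1

theorem univ_all (n : ℕ) : Univ R n := by
  have key : ∀ n : ℕ, bd ((n + 1 : ℕ) : ℤ) (ezP R Cb Cb (n + 1) (un R (n + 1)) - un R (n + 1) -
      natK (kap R n) (bd ((n + 1 : ℕ) : ℤ) (un R (n + 1)))) ∈ CubeHom.Q R (n : ℤ) ∅ →
      Univ R n := by
    intro n hn
    have h := cone (Submodule.sub_mem _ (Submodule.sub_mem _ (ezP_mem_C (un_mem (R := R) (n + 1)))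
        (un_mem (R := R) (n + 1))) (natK_mem_C (kap_mem (R := R) n)
          (bd ((n + 1 : ℕ) : ℤ) (un R (n + 1))))) hn
    rw [Univ]
    have h2 : bd ((n + 2 : ℕ) : ℤ) (kap R (n + 1)) +
        natK (kap R n) (bd ((n + 1 : ℕ) : ℤ) (un R (n + 1))) -
        (ezP R Cb Cb (n + 1) (un R (n + 1)) - un R (n + 1)) =
        bd ((n + 2 : ℕ) : ℤ) (prism contr (ezP R Cb Cb (n + 1) (un R (n + 1)) - un R (n + 1) -
      natK (kap R n) (bd ((n + 1 : ℕ) : ℤ) (un R (n + 1))))) -
        (ezP R Cb Cb (n + 1) (un R (n + 1)) - un R (n + 1) -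
      natK (kap R n) (bd ((n + 1 : ℕ) : ℤ) (un R (n + 1)))) := by
      rw [kap]
      abel
    rw [h2]
    exact h
  induction n with
  | zero =>
    refine key 0 ?_
    have h1 := ezP_bd (un_mem (R := R) (0 + 1))
    rw [ezP_zero] at h1
    rw [kap, natK_zero, sub_zero, map_sub]
    exact h1
  | succ n ih =>
    refine key (n + 1) ?_
    have h1 := ezP_bd (un_mem (R := R) (n + 1 + 1))
    have h2 := main_of_univ ih (bd_un_mem (R := R) (n + 1))
    have h3 : bd ((n + 1 : ℕ) : ℤ) (bd ((n + 1 + 1 : ℕ) : ℤ) (un R (n + 1 + 1))) = 0 := by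
      have := bd_bd ((n + 1 + 1 : ℕ) : ℤ) (un R (n + 1 + 1))
      rwa [show ((n + 1 + 1 : ℕ) : ℤ) - 1 = ((n + 1 : ℕ) : ℤ) by push_cast; ring] at this
    rw [h3, map_zero, add_zero] at h2
    have h4 := Submodule.sub_mem _ h1 h2
    rw [map_sub, map_sub]
    have h5 : bd ((n + 1 + 1 : ℕ) : ℤ) (ezP R Cb Cb (n + 1 + 1) (un R (n + 1 + 1))) -
        bd ((n + 1 + 1 : ℕ) : ℤ) (un R (n + 1 + 1)) -
        bd ((n + 1 + 1 : ℕ) : ℤ) (natK (kap R (n + 1))
          (bd ((n + 1 + 1 : ℕ) : ℤ) (un R (n + 1 + 1)))) =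
      (bd ((n + 1 + 1 : ℕ) : ℤ) (ezP R Cb Cb (n + 1 + 1) (un R (n + 1 + 1))) -
        ezP R Cb Cb (n + 1) (bd ((n + 1 + 1 : ℕ) : ℤ) (un R (n + 1 + 1)))) -
      (bd ((n + 2 : ℕ) : ℤ) (natK (kap R (n + 1)) (bd ((n + 1 + 1 : ℕ) : ℤ) (un R (n + 1 + 1)))) -
        (ezP R Cb Cb (n + 1) (bd ((n + 1 + 1 : ℕ) : ℤ) (un R (n + 1 + 1))) -
          bd ((n + 1 + 1 : ℕ) : ℤ) (un R (n + 1 + 1)))) := by
      abel
    rw [h5]
    exact h4

/-- The normalisation does not change a chain modulo degenerate cubes. -/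
theorem sub_Nr_mem {k : ℕ} {c : Ch R X} (hc : c ∈ CubeHom.C R (k : ℤ) Set.univ) :
    c - Nr k c ∈ CubeHom.Q R (k : ℤ) ∅ := by
  have hz : ∀ (i : ℕ), i < k → ∀ c ∈ CubeHom.C R (k : ℤ) (Set.univ : Set X),
      zc i c ∈ CubeHom.Q R (k : ℤ) ∅ := by
    intro i hi c hc
    refine map_mem_of_supported (zc i) _ (fun σ hσ => ?_) hc
    rw [zc_single]
    refine mem_Q_single (isCube_zr hσ.1 i) (Or.inr ⟨i, by exact_mod_cast hi, ?_⟩) _
    refine dependsOn_comp_right (T := {j | j ≠ i}) ((dependsOn_univ _)) fun x y hxy j _ => ?_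
    by_cases hj : j = i
    · subst hj
      rw [zr_self, zr_self]
    · rw [zr_ne hj, zr_ne hj]
      exact hxy j hj
  have h : ∀ m : ℕ, m ≤ k → ∀ c ∈ CubeHom.C R (k : ℤ) (Set.univ : Set X),
      c - Nr m c ∈ CubeHom.Q R (k : ℤ) ∅ := by
    intro m
    induction m with
    | zero =>
      intro _ c _
      rw [Nr_zero, sub_self]
      exact Submodule.zero_mem _
    | succ m ih =>
      intro hm c hc
      rw [Nr_succ]
      have h1 := ih (by omega) (c - zc m c) (Submodule.sub_mem _ hc (zc_mem_C m hc))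
      have h2 := hz m (by omega) c hc
      have h3 := Submodule.add_mem _ h1 h2
      rwa [show c - zc m c - Nr m (c - zc m c) + zc m c = c - Nr m (c - zc m c) by abel] at h3
  exact h k le_rfl c hc

variable (R) in
/-- Chains supported on the cubes obtained from `ω` by reparametrisation of both components. -/
noncomputable def Rep (ω : C(Cb, Y × B)) : Submodule R (Ch R (Y × B)) :=
  Finsupp.supported R R {κ | ∃ α β : C(Cb, Cb),
    κ = ((ContinuousMap.fst.comp ω).comp α).prodMk ((ContinuousMap.snd.comp ω).comp β)}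

theorem Nr_mem_comp {ω : C(Cb, X)} (n : ℕ) : ∀ {c : Ch R X},
    c ∈ Finsupp.supported R R {κ : C(Cb, X) | ∃ ρ : C(Cb, Cb), κ = ω.comp ρ} →
    Nr n c ∈ Finsupp.supported R R {κ : C(Cb, X) | ∃ ρ : C(Cb, Cb), κ = ω.comp ρ} := by
  induction n with
  | zero => intro c hc; exact hc
  | succ n ih =>
    intro c hc
    rw [Nr_succ]
    refine ih (Submodule.sub_mem _ hc ?_)
    refine map_mem_of_supported (zc n) _ (fun σ hσ => ?_) hc
    obtain ⟨ρ, rfl⟩ := hσ
    rw [zc_single]
    exact single_mem_supported (S := {κ : C(Cb, X) | ∃ ρ : C(Cb, Cb), κ = ω.comp ρ})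
      ⟨ρ.comp (zr n), rfl⟩ _

theorem natK_mem_rep {κ : Ch R (Cb × Cb)} {ω : C(Cb, Y × B)} {c : Ch R (Y × B)}
    (hc : c ∈ Finsupp.supported R R {κ : C(Cb, Y × B) | ∃ ρ : C(Cb, Cb), κ = ω.comp ρ}) :
    natK κ c ∈ Rep R ω := by
  refine map_mem_of_supported (natK κ) _ (fun σ hσ => ?_) hc
  obtain ⟨ρ, rfl⟩ := hσ
  rw [natK_un]
  have hκ : κ ∈ Finsupp.supported R R (Set.univ : Set C(Cb, Cb × Cb)) := by simp
  refine map_mem_of_supported (push ((ContinuousMap.fst.comp (ω.comp ρ)).prodMap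
    (ContinuousMap.snd.comp (ω.comp ρ)))) _ (fun σ _ => ?_) hκ
  rw [push_single]
  refine single_mem_supported (S := {κ : C(Cb, Y × B) | ∃ α β : C(Cb, Cb),
    κ = ((ContinuousMap.fst.comp ω).comp α).prodMk ((ContinuousMap.snd.comp ω).comp β)})
    ⟨ρ.comp (ContinuousMap.fst.comp σ), ρ.comp (ContinuousMap.snd.comp σ), ?_⟩ _
  rfl

end EZ3Aux

/-- The natural chain homotopy between `ezP` and the identity. All cubes which occur in it are
of the form `(a ∘ α, b ∘ β)`. -/
theorem exists_ezK (R : Type*) [CommRing R] (Y B : Type*) [TopologicalSpace Y]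
    [TopologicalSpace B] :
    ∃ K : ℕ → Ch R (Y × B) →ₗ[R] Ch R (Y × B),
      (∀ n : ℕ, ∀ c ∈ CubeHom.C R (n : ℤ) Set.univ, K n c ∈ CubeHom.C R ((n + 1 : ℕ) : ℤ) Set.univ) ∧
      (∀ n : ℕ, ∀ c ∈ CubeHom.Q R (n : ℤ) ∅, K n c ∈ CubeHom.Q R ((n + 1 : ℕ) : ℤ) ∅) ∧
      (∀ c ∈ CubeHom.C R (0 : ℤ) Set.univ, bd 1 (K 0 c) - (ezP R Y B 0 c - c) ∈
        CubeHom.Q R (0 : ℤ) ∅) ∧
      (∀ n : ℕ, ∀ c ∈ CubeHom.C R ((n + 1 : ℕ) : ℤ) Set.univ,
        bd ((n + 2 : ℕ) : ℤ) (K (n + 1) c) + K n (bd ((n + 1 : ℕ) : ℤ) c) -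
          (ezP R Y B (n + 1) c - c) ∈ CubeHom.Q R ((n + 1 : ℕ) : ℤ) ∅) ∧
      ∀ (n : ℕ) (ω : C(Cb, Y × B)), ∀ κ ∈ (K n (Finsupp.single ω 1)).support, ∃ α β : C(Cb, Cb),
        κ = ((ContinuousMap.fst.comp ω).comp α).prodMk ((ContinuousMap.snd.comp ω).comp β) := by
  refine ⟨fun n => (EZ3Aux.natK (EZ3Aux.kap R n)).comp (Nr n), ?_, ?_, ?_, ?_, ?_⟩
  · intro n c _
    exact EZ3Aux.natK_mem_C (EZ3Aux.kap_mem n) _
  · intro n c hc
    rw [LinearMap.comp_apply, Nr_Q n hc, map_zero]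
    exact Submodule.zero_mem _
  · intro c _
    have h : (EZ3Aux.natK (EZ3Aux.kap R 0)).comp (Nr 0) c = 0 := by
      rw [LinearMap.comp_apply, EZ3Aux.kap, EZ3Aux.natK_zero]
    rw [h, map_zero, EZ3Aux.ezP_zero, sub_self, sub_zero]
    exact Submodule.zero_mem _
  · intro n c hc
    simp only [LinearMap.comp_apply]
    have h1 := EZ3Aux.main_of_univ (EZ3Aux.univ_all n) (Nr_mem_C (n + 1) hc)
    have h2 : Nr n (bd ((n + 1 : ℕ) : ℤ) c) = bd ((n + 1 : ℕ) : ℤ) (Nr (n + 1) c) := by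
      have := bd_Nr n c
      rw [show (n : ℤ) + 1 = ((n + 1 : ℕ) : ℤ) by push_cast; ring] at this
      exact this.symm
    rw [h2]
    have h3 := EZ3Aux.sub_Nr_mem hc
    have h4 := EZ3Aux.ezP_mem_Q h3
    have h5 := Submodule.add_mem _ (Submodule.sub_mem _ h1 h4) h3
    rw [map_sub] at h5
    have h6 : bd ((n + 2 : ℕ) : ℤ) (EZ3Aux.natK (EZ3Aux.kap R (n + 1)) (Nr (n + 1) c)) +
        EZ3Aux.natK (EZ3Aux.kap R n) (bd ((n + 1 : ℕ) : ℤ) (Nr (n + 1) c)) -
        (ezP R Y B (n + 1) c - c) =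
      bd ((n + 2 : ℕ) : ℤ) (EZ3Aux.natK (EZ3Aux.kap R (n + 1)) (Nr (n + 1) c)) +
        EZ3Aux.natK (EZ3Aux.kap R n) (bd ((n + 1 : ℕ) : ℤ) (Nr (n + 1) c)) -
        (ezP R Y B (n + 1) (Nr (n + 1) c) - Nr (n + 1) c) -
        (ezP R Y B (n + 1) c - ezP R Y B (n + 1) (Nr (n + 1) c)) + (c - Nr (n + 1) c) := by
      abel
    rw [h6]
    exact h5
  · intro n ω κ hκ
    have h1 : Nr n (Finsupp.single ω (1 : R)) ∈
        Finsupp.supported R R {κ : C(Cb, Y × B) | ∃ ρ : C(Cb, Cb), κ = ω.comp ρ} :=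
      EZ3Aux.Nr_mem_comp n (single_mem_supported
        (S := {κ : C(Cb, Y × B) | ∃ ρ : C(Cb, Cb), κ = ω.comp ρ}) ⟨ContinuousMap.id Cb, rfl⟩ _)
    have h2 := EZ3Aux.natK_mem_rep (κ := EZ3Aux.kap R n) h1
    rw [EZ3Aux.Rep, Finsupp.mem_supported] at h2
    exact h2 hκ

end Pool.Agent.TC
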