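import Pool.Agent.Lib.TC.EZ2
import Pool.Agent.Lib.TC.EZ3

/-!
Row EZ4: `ez_reduce`, `cr_swap`. Needs `ezP`, `ezP_swap`, `exists_ezK` (rows EZ2, EZ3) before it.
-/

namespace Pool.Agent.TC

open CubeHom

variable {R : Type*} [CommRing R] {X Y B : Type*} [TopologicalSpace X] [TopologicalSpace Y]
  [TopologicalSpace B]

namespace EZ4Aux

/-- Chains all of whose cubes satisfy `P`. -/
noncomputable def Sp (R : Type*) [CommRing R] {X : Type*} [TopologicalSpace X]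
    (P : C(Cb, X) → Prop) : Submodule R (Ch R X) :=
  Finsupp.supported R R {σ | P σ}

theorem mem_Sp_single {P : C(Cb, X) → Prop} {σ : C(Cb, X)} (h : P σ) (r : R) :
    Finsupp.single σ r ∈ Sp R P := single_mem_supported (S := {σ | P σ}) h r

theorem Sp_inf {P P' : C(Cb, X) → Prop} {c : Ch R X} (h : c ∈ Sp R P) (h' : c ∈ Sp R P') :
    c ∈ Sp R (fun σ => P σ ∧ P' σ) := by
  unfold Sp at *
  rw [Finsupp.mem_supported] at *
  exact fun σ hσ => ⟨h hσ, h' hσ⟩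

theorem Sp_mono {P P' : C(Cb, X) → Prop} (h : ∀ σ, P σ → P' σ) : Sp R P ≤ Sp R P' :=
  Finsupp.supported_mono fun σ hσ => h σ hσ

theorem C_univ {k : ℤ} : CubeHom.C R k (Set.univ : Set X) = Sp R (fun σ => IsCube k σ) := by
  unfold CubeHom.C Sp
  congr 1
  ext σ
  simp

theorem Q_empty {k : ℤ} : CubeHom.Q R k (∅ : Set X) =
    Sp R (fun σ => IsCube k σ ∧ Degen k σ) := by
  unfold CubeHom.Q Sp
  congr 1
  ext σ
  simp

theorem SC_eq (S : CS X) {k : ℤ} : S.C R k = Sp R (fun σ => IsCube k σ ∧ S.ok σ) := rfl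

theorem SQ_eq (S : CS X) {k : ℤ} :
    S.Q R k = Sp R (fun σ => IsCube k σ ∧ S.ok σ ∧ (S.nul σ ∨ Degen k σ)) := rfl

theorem mem_SC {S : CS X} {k : ℤ} {c : Ch R X} (h : c ∈ CubeHom.C R k (Set.univ : Set X))
    (h' : c ∈ Sp R S.ok) : c ∈ S.C R k := by
  rw [C_univ] at h
  exact Sp_inf h h'

theorem mem_SQ_degen {S : CS X} {k : ℤ} {c : Ch R X} (h : c ∈ CubeHom.Q R k (∅ : Set X))
    (h' : c ∈ Sp R S.ok) : c ∈ S.Q R k := by
  rw [Q_empty] at h
  exact Sp_mono (fun σ hσ => ⟨hσ.1.1, hσ.2, Or.inr hσ.1.2⟩) (Sp_inf h h')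

theorem mem_SQ_nul {S : CS X} {k : ℤ} {c : Ch R X} (h : c ∈ CubeHom.C R k (Set.univ : Set X))
    (h' : c ∈ Sp R S.ok) (h'' : c ∈ Sp R S.nul) : c ∈ S.Q R k := by
  rw [C_univ] at h
  exact Sp_mono (fun σ hσ => ⟨hσ.1, hσ.2.1, Or.inl hσ.2.2⟩) (Sp_inf h (Sp_inf h' h''))

theorem SC_le {S : CS X} {k : ℤ} : S.C R k ≤ CubeHom.C R k (Set.univ : Set X) := by
  rw [C_univ]
  exact Sp_mono fun σ hσ => hσ.1

theorem SC_ok {S : CS X} {k : ℤ} : S.C R k ≤ Sp R S.ok := Sp_mono fun _ hσ => hσ.2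

theorem bd_Sp {P : C(Cb, X) → Prop} (hP : ∀ (σ : C(Cb, X)) (f : C(Cb, Cb)), P σ → P (σ.comp f))
    {k : ℤ} {c : Ch R X} (hc : c ∈ Sp R P) : bd k c ∈ Sp R P := by
  refine map_mem_of_supported (bd k) _ (fun σ hσ => ?_) hc
  rw [bd_apply]
  refine Submodule.sum_mem _ fun i _ => Submodule.smul_mem _ _ (Submodule.sub_mem _ ?_ ?_)
  all_goals
    rw [face_single]
    exact mem_Sp_single (hP σ _ hσ) _

/-- `P` is stable under `(a, b) ↦ (a ∘ α, b ∘ β)`. -/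
def St (P : C(Cb, Y × B) → Prop) : Prop := ∀ (ω : C(Cb, Y × B)) (α β : C(Cb, Cb)), P ω →
  P (((ContinuousMap.fst.comp ω).comp α).prodMk ((ContinuousMap.snd.comp ω).comp β))

theorem St_ok (S : CS Y) (T : CS B) : St (S.prod T).ok := fun ω α β h =>
  ⟨S.ok_comp (ContinuousMap.fst.comp ω) α h.1, T.ok_comp (ContinuousMap.snd.comp ω) β h.2⟩

theorem St_nul (S : CS Y) (T : CS B) : St (S.prod T).nul := fun ω α β h =>
  h.imp (S.nul_comp (ContinuousMap.fst.comp ω) α) (T.nul_comp (ContinuousMap.snd.comp ω) β)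

theorem ezP_single (n : ℕ) (ω : C(Cb, Y × B)) :
    ezP R Y B n (Finsupp.single ω 1) = ∑ H ∈ (Finset.range n).powerset, Finsupp.single
      (crossCube H.card ((ContinuousMap.fst.comp ω).comp (fc n (wfr H)))
        ((ContinuousMap.snd.comp ω).comp (fc n (wbk H)))) (sgnS n H : R) := by
  simp [ezP]

theorem ezP_Sp {P : C(Cb, Y × B) → Prop} (hP : St P) {n : ℕ} {c : Ch R (Y × B)}
    (hc : c ∈ Sp R P) : ezP R Y B n c ∈ Sp R P := by
  refine map_mem_of_supported (ezP R Y B n) _ (fun ω hω => ?_) hc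
  rw [ezP_single]
  refine Submodule.sum_mem _ fun H _ => mem_Sp_single ?_ _
  exact hP ω (fc n (wfr H)) ((fc n (wbk H)).comp (drop H.card)) hω

theorem K_Sp {P : C(Cb, Y × B) → Prop} (hP : St P) {K : Ch R (Y × B) →ₗ[R] Ch R (Y × B)}
    (hK : ∀ ω : C(Cb, Y × B), ∀ κ ∈ (K (Finsupp.single ω 1)).support, ∃ α β : C(Cb, Cb),
        κ = ((ContinuousMap.fst.comp ω).comp α).prodMk ((ContinuousMap.snd.comp ω).comp β))
    {c : Ch R (Y × B)} (hc : c ∈ Sp R P) : K c ∈ Sp R P := by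
  refine map_mem_of_supported K _ (fun ω hω => ?_) hc
  unfold Sp
  rw [Finsupp.mem_supported]
  intro κ hκ
  obtain ⟨α, β, rfl⟩ := hK ω κ hκ
  exact hP ω α β hω

/-- A bilinear map with values in a submodule, checked on cubes. -/
theorem bilin_mem {M : Type*} [AddCommGroup M] [Module R M] {S : Set (C(Cb, Y))}
    {T : Set (C(Cb, B))} (f : Ch R Y →ₗ[R] Ch R B →ₗ[R] M) (P : Submodule R M)
    (h : ∀ τ ∈ S, ∀ σ ∈ T, f (Finsupp.single τ 1) (Finsupp.single σ 1) ∈ P)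
    {z : Ch R Y} {c : Ch R B} (hz : z ∈ Finsupp.supported R R S)
    (hc : c ∈ Finsupp.supported R R T) : f z c ∈ P := by
  refine map_mem_of_supported (f.flip c) P (fun τ hτ => ?_) hz
  rw [LinearMap.flip_apply]
  exact map_mem_of_supported (f (Finsupp.single τ 1)) P (fun σ hσ => h τ hτ σ hσ) hc

theorem Bd_add {S : CS X} {k : ℤ} {c c' : Ch R X} (h : S.Bd R k c) (h' : S.Bd R k c') :
    S.Bd R k (c + c') := by
  obtain ⟨b, hb, h⟩ := h
  obtain ⟨b', hb', h'⟩ := h'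
  refine ⟨b + b', Submodule.add_mem _ hb hb', ?_⟩
  rw [map_add, add_sub_add_comm]
  exact Submodule.add_mem _ h h'

theorem Bd_of_Q {S : CS X} {k : ℤ} {c : Ch R X} (h : c ∈ S.Q R k) : S.Bd R k c :=
  ⟨0, Submodule.zero_mem _, by rwa [map_zero, sub_zero]⟩

variable (Y B) in
/-- The swap. -/
abbrev sw : C(B × Y, Y × B) := ⟨Prod.swap, continuous_swap⟩

theorem swap_ok {S : CS Y} {T : CS B} {l : ℕ} {τ : C(Cb, Y)} {σ : C(Cb, B)} (hτ : S.ok τ)
    (hσ : T.ok σ) : (S.prod T).ok ((sw Y B).comp (crossCube l σ τ)) :=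
  ⟨S.ok_comp τ (drop l) hτ, hσ⟩

theorem swap_nul_left {S : CS Y} {T : CS B} {l : ℕ} {τ : C(Cb, Y)} {σ : C(Cb, B)}
    (hτ : S.nul τ) : (S.prod T).nul ((sw Y B).comp (crossCube l σ τ)) :=
  Or.inl (S.nul_comp τ (drop l) hτ)

theorem swap_nul_right {S : CS Y} {T : CS B} {l : ℕ} {τ : C(Cb, Y)} {σ : C(Cb, B)}
    (hσ : T.nul σ) : (S.prod T).nul ((sw Y B).comp (crossCube l σ τ)) := Or.inr hσ

theorem swapcr_Q_left {S : CS Y} {T : CS B} {l : ℕ} {k : ℤ} {x : Ch R Y} {y : Ch R B}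
    (hy : y ∈ T.Q R (l : ℤ)) (hx : x ∈ S.C R k) :
    push (sw Y B) (cr l y x) ∈ (S.prod T).Q R (l + k) := by
  refine bilin_mem ((cr l).compr₂ (push (sw Y B))) _ (fun σ hσ τ hτ => ?_) hy hx
  rw [LinearMap.compr₂_apply, cr_single_single, push_single, SQ_eq]
  refine mem_Sp_single ⟨(isCube_cross hσ.1 hτ.1).comp _, swap_ok hτ.2 hσ.2.1, ?_⟩ _
  exact hσ.2.2.imp (fun h => swap_nul_right h) fun h => (degen_cross_left h hτ.1).comp _

theorem swapcr_Q_right {S : CS Y} {T : CS B} {l : ℕ} {k : ℤ} {x : Ch R Y} {y : Ch R B}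
    (hy : y ∈ T.C R (l : ℤ)) (hx : x ∈ S.Q R k) :
    push (sw Y B) (cr l y x) ∈ (S.prod T).Q R (l + k) := by
  refine bilin_mem ((cr l).compr₂ (push (sw Y B))) _ (fun σ hσ τ hτ => ?_) hy hx
  rw [LinearMap.compr₂_apply, cr_single_single, push_single, SQ_eq]
  refine mem_Sp_single ⟨(isCube_cross hσ.1 hτ.1).comp _, swap_ok hτ.2.1 hσ.2, ?_⟩ _
  exact hτ.2.2.imp (fun h => swap_nul_left h) fun h => (degen_cross_right hσ.1 h).comp _

theorem swapcr_Z {S : CS Y} {T : CS B} {m l : ℕ} {x : Ch R Y} {y : Ch R B}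
    (hx : x ∈ S.Z R (m : ℤ)) (hy : y ∈ T.Z R (l : ℤ)) :
    push (sw Y B) (cr l y x) ∈ (S.prod T).Z R (l + m) := by
  refine ⟨?_, ?_⟩
  · refine bilin_mem ((cr l).compr₂ (push (sw Y B))) _ (fun σ hσ τ hτ => ?_) hy.1 hx.1
    rw [LinearMap.compr₂_apply, cr_single_single, push_single, SC_eq]
    exact mem_Sp_single ⟨(isCube_cross hσ.1 hτ.1).comp _, swap_ok hτ.2 hσ.2⟩ _
  · change bd ((l : ℤ) + m) (push (sw Y B) (cr l y x)) ∈ (S.prod T).Q R ((l : ℤ) + m - 1)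
    rw [bd_push, bd_cr (SC_le hy.1) (SC_le hx.1), map_add, map_smul]
    refine Submodule.add_mem _ ?_ (Submodule.smul_mem _ _ ?_)
    · rcases Nat.eq_zero_or_pos l with h0 | h0
      · subst h0
        rw [bd_of_nonpos (by simp)]
        simp
      · obtain ⟨l', rfl⟩ : ∃ l', l = l' + 1 := ⟨l - 1, by omega⟩
        have h3 : bd ((l' + 1 : ℕ) : ℤ) y ∈ T.Q R (l' : ℤ) := by
          have h3 : bd ((l' + 1 : ℕ) : ℤ) y ∈ T.Q R (((l' + 1 : ℕ) : ℤ) - 1) := hy.2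
          have h4 : (((l' + 1 : ℕ) : ℤ) - 1) = (l' : ℤ) := by push_cast; ring
          rwa [h4] at h3
        have h5 := swapcr_Q_left h3 hx.1
        have h6 : (((l' + 1 : ℕ) : ℤ) + m - 1) = (l' : ℤ) + m := by push_cast; ring
        rw [h6]
        exact h5
    · have h7 : bd (m : ℤ) x ∈ S.Q R ((m : ℤ) - 1) := hx.2
      have h8 := swapcr_Q_right hy.1 h7
      rwa [← add_sub_assoc] at h8

end EZ4Aux

open EZ4Aux in
/-- Every cycle of a product is homologous to a sum of cross products of chains (relative version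
for product systems). -/
theorem ez_reduce (S : CS Y) (T : CS B) {n : ℕ} {w : Ch R (Y × B)}
    (hw : w ∈ (S.prod T).Z R (n : ℤ)) : (S.prod T).Bd R (n : ℤ) (w - ezP R Y B n w) := by
  obtain ⟨K, hKC, hKQ, hK0, hK1, hKs⟩ := exists_ezK R Y B
  have hok : w ∈ Sp R (S.prod T).ok := SC_ok hw.1
  have hKok : ∀ (n : ℕ) {c : Ch R (Y × B)}, c ∈ Sp R (S.prod T).ok → K n c ∈ Sp R (S.prod T).ok :=
    fun n c hc => K_Sp (St_ok S T) (hKs n) hc
  have hbok : ∀ (k : ℤ) {c : Ch R (Y × B)}, c ∈ Sp R (S.prod T).ok →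
      bd k c ∈ Sp R (S.prod T).ok := fun k c hc => bd_Sp (S.prod T).ok_comp hc
  have hEok : ezP R Y B n w ∈ Sp R (S.prod T).ok := ezP_Sp (St_ok S T) hok
  refine ⟨-K n w, Submodule.neg_mem _ (mem_SC ?_ (hKok n hok)), ?_⟩
  · have h1 := hKC n w (SC_le hw.1)
    have h2 : (((n + 1 : ℕ) : ℤ)) = (n : ℤ) + 1 := by push_cast; ring
    rwa [h2] at h1
  rcases Nat.eq_zero_or_pos n with h0 | h0
  · subst h0
    have h1 := hK0 w (SC_le hw.1)
    have h2 : w - ezP R Y B 0 w - bd (((0 : ℕ) : ℤ) + 1) (-K 0 w) =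
        bd 1 (K 0 w) - (ezP R Y B 0 w - w) := by
      rw [map_neg]
      have : (((0 : ℕ) : ℤ) + 1) = 1 := by norm_num
      rw [this]
      abel
    rw [h2]
    refine mem_SQ_degen h1 ?_
    exact Submodule.sub_mem _ (hbok _ (hKok 0 hok)) (Submodule.sub_mem _ hEok hok)
  · obtain ⟨k, rfl⟩ : ∃ k, n = k + 1 := ⟨n - 1, by omega⟩
    have h1 := hK1 k w (SC_le hw.1)
    have h2 : w - ezP R Y B (k + 1) w - bd (((k + 1 : ℕ) : ℤ) + 1) (-K (k + 1) w) =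
        (bd ((k + 2 : ℕ) : ℤ) (K (k + 1) w) + K k (bd ((k + 1 : ℕ) : ℤ) w) -
          (ezP R Y B (k + 1) w - w)) - K k (bd ((k + 1 : ℕ) : ℤ) w) := by
      rw [map_neg]
      have : (((k + 1 : ℕ) : ℤ) + 1) = ((k + 2 : ℕ) : ℤ) := by push_cast; ring
      rw [this]
      abel
    rw [h2]
    refine Submodule.sub_mem _ (mem_SQ_degen h1 ?_) ?_
    · exact Submodule.sub_mem _ (Submodule.add_mem _ (hbok _ (hKok _ hok)) (hKok _ (hbok _ hok)))
        (Submodule.sub_mem _ hEok hok)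
    · have h3 : bd ((k + 1 : ℕ) : ℤ) w ∈ (S.prod T).Q R (k : ℤ) := by
        have h3 : bd ((k + 1 : ℕ) : ℤ) w ∈ (S.prod T).Q R (((k + 1 : ℕ) : ℤ) - 1) := hw.2
        have h4 : (((k + 1 : ℕ) : ℤ) - 1) = (k : ℤ) := by push_cast; ring
        rwa [h4] at h3
      refine map_mem_of_supported (K k) _ (fun ω hω => ?_) h3
      obtain ⟨g1, g2, g3 | g3⟩ := hω
      · refine mem_SQ_nul (hKC k _ (mem_C_single g1 (fun _ => Set.mem_univ _) _)) ?_ ?_
        · exact hKok k (mem_Sp_single g2 _)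
        · exact K_Sp (St_nul S T) (hKs k) (mem_Sp_single g3 _)
      · exact mem_SQ_degen (hKQ k _ (mem_Q_single g1 (Or.inr g3) _)) (hKok k (mem_Sp_single g2 _))

open EZ4Aux in
/-- Swap of a cross product. -/
theorem cr_swap {m l : ℕ} (S : CS Y) (T : CS B) {x : Ch R Y} {y : Ch R B}
    (hx : x ∈ S.Z R (m : ℤ)) (hy : y ∈ T.Z R (l : ℤ)) :
    (S.prod T).Bd R ((m + l : ℕ) : ℤ)
      (push (⟨Prod.swap, continuous_swap⟩ : C(B × Y, Y × B)) (cr l y x) -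
        (-1 : R) ^ (m * l) • cr m x y) := by
  have hcast : ((m + l : ℕ) : ℤ) = ((l + m : ℕ) : ℤ) := by rw [add_comm]
  have h1 : push (sw Y B) (cr l y x) ∈ (S.prod T).Z R (l + m) := swapcr_Z hx hy
  have h1' : push (sw Y B) (cr l y x) ∈ (S.prod T).Z R ((l + m : ℕ) : ℤ) := by
    have h2 : ((l + m : ℕ) : ℤ) = (l : ℤ) + m := by push_cast; ring
    rw [h2]; exact h1
  have h2 := ez_reduce S T h1'
  have h3 : ezP R Y B (l + m) (push (sw Y B) (cr l y x)) - (-1 : R) ^ (m * l) • cr m x y ∈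
      CubeHom.Q R ((l + m : ℕ) : ℤ) (∅ : Set (Y × B)) := by
    let f₁ : Ch R Y →ₗ[R] Ch R B →ₗ[R] Ch R (Y × B) :=
      (cr l).flip.compr₂ ((ezP R Y B (l + m)).comp (push (sw Y B)))
    let f₂ : Ch R Y →ₗ[R] Ch R B →ₗ[R] Ch R (Y × B) := (-(-1 : R) ^ (m * l)) • cr m
    let f : Ch R Y →ₗ[R] Ch R B →ₗ[R] Ch R (Y × B) := f₁ + f₂
    have hf : ∀ a b, f a b = ezP R Y B (l + m) (push (sw Y B) (cr l b a)) -
        (-1 : R) ^ (m * l) • cr m a b := fun a b => by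
      rw [sub_eq_add_neg, ← neg_smul]; rfl
    rw [← hf]
    refine bilin_mem f _ (fun τ hτ σ hσ => ?_) hx.1 hy.1
    rw [hf]
    have h4 := ezP_swap (R := R) (m := m) (l := l) hτ.1 hσ.1
    simp only [cr_single_single, push_single, mul_one, Finsupp.smul_single, smul_eq_mul]
    exact h4
  have h5 : ezP R Y B (l + m) (push (sw Y B) (cr l y x)) - (-1 : R) ^ (m * l) • cr m x y ∈
      Sp R (S.prod T).ok := by
    refine Submodule.sub_mem _ (ezP_Sp (St_ok S T) (SC_ok h1'.1)) (Submodule.smul_mem _ _ ?_)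
    refine bilin_mem (cr m) _ (fun τ hτ σ hσ => ?_) hx.1 hy.1
    rw [cr_single_single]
    exact mem_Sp_single ⟨hτ.2, T.ok_comp σ (drop m) hσ.2⟩ _
  have h6 := Bd_add h2 (Bd_of_Q (mem_SQ_degen h3 h5))
  rw [sub_add_sub_cancel] at h6
  rw [hcast]
  exact h6

end Pool.Agent.TC
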