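import Pool.Agent.Lib.TC.EZ4

namespace Pool.Agent.TC

open CubeHom

namespace EZ5Aux

section alg

open TensorProduct

variable {K : Type*} [Field K] {A D : Type*} [AddCommGroup A] [Module K A] [AddCommGroup D]
  [Module K D]

/-- Generalised inverse of a linear map over a field. -/
theorem exists_ginv (d : A →ₗ[K] A) : ∃ h : A →ₗ[K] A, ∀ a, d (h (d a)) = d a := by
  obtain ⟨s, hs⟩ := d.rangeRestrict.exists_rightInverse_of_surjective
    (LinearMap.range_rangeRestrict d)
  obtain ⟨h, hh⟩ := s.exists_extend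
  refine ⟨h, fun a => ?_⟩
  have h1 : h (d a) = s (d.rangeRestrict a) := by
    rw [← hh]; rfl
  rw [h1]
  have h2 := LinearMap.congr_fun hs (d.rangeRestrict a)
  simp only [LinearMap.comp_apply, LinearMap.id_apply] at h2
  have h3 := congrArg Subtype.val h2
  simpa using h3

theorem mem_ker_ker (d : A →ₗ[K] A) (e : D →ₗ[K] D) (u : A ⊗[K] D) (h1 : d.rTensor D u = 0)
    (h2 : e.lTensor A u = 0) :
    ∃ v : (LinearMap.ker d) ⊗[K] (LinearMap.ker e),
      TensorProduct.map (LinearMap.ker d).subtype (LinearMap.ker e).subtype v = u := by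
  have ex1 : Function.Exact ((LinearMap.ker e).subtype.lTensor A) (e.lTensor A) :=
    Module.Flat.lTensor_exact A (LinearMap.exact_subtype_ker_map e)
  obtain ⟨v1, hv1⟩ := (ex1 u).1 h2
  have inj : Function.Injective ((LinearMap.ker e).subtype.lTensor A) :=
    Module.Flat.lTensor_preserves_injective_linearMap _ (Submodule.injective_subtype _)
  have h3 : d.rTensor (LinearMap.ker e) v1 = 0 := by
    apply inj
    rw [map_zero, ← h1, ← hv1]
    rw [← LinearMap.comp_apply, ← LinearMap.comp_apply, LinearMap.lTensor_comp_rTensor,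
      LinearMap.rTensor_comp_lTensor]
  have ex2 : Function.Exact ((LinearMap.ker d).subtype.rTensor (LinearMap.ker e))
      (d.rTensor (LinearMap.ker e)) :=
    Module.Flat.rTensor_exact _ (LinearMap.exact_subtype_ker_map d)
  obtain ⟨v, hv⟩ := (ex2 v1).1 h3
  refine ⟨v, ?_⟩
  rw [← hv1, ← hv, ← LinearMap.comp_apply, LinearMap.lTensor_comp_rTensor]

theorem decomp (d : ℕ → A →ₗ[K] A) (e : ℕ → D →ₗ[K] D) (hd0 : d 0 = 0) (he0 : e 0 = 0)
    (hdd : ∀ m a, d m (d (m + 1) a) = 0) (n : ℕ) (t : ℕ → A ⊗[K] D)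
    (hcyc : ∀ m < n, (d (m + 1)).rTensor D (t (m + 1)) +
      ((-1 : K) ^ m) • (e (n - m)).lTensor A (t m) = 0) :
    ∃ s u : ℕ → A ⊗[K] D,
      (∀ m ≤ n, (d m).rTensor D (u m) = 0 ∧ (e (n - m)).lTensor A (u m) = 0) ∧
      t 0 = u 0 + (d 1).rTensor D (s 0) ∧
      ∀ m < n, t (m + 1) = u (m + 1) + (d (m + 2)).rTensor D (s (m + 1)) +
        ((-1 : K) ^ (m + 1)) • (e (n - m)).lTensor A (s m) := by
  choose h hh using fun m => exists_ginv (d m)
  let z : ℕ → A →ₗ[K] A := fun m =>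
    LinearMap.id - (d (m + 1)).comp (h (m + 1)) - (h m).comp (d m)
  have hdz : ∀ m, (d m).comp (z m) = 0 := by
    intro m
    ext a
    simp [z, hdd, hh]
  have hzd : ∀ m, (z m).comp (d (m + 1)) = 0 := by
    intro m
    ext a
    simp [z, hdd, hh]
  have hcom : ∀ (f : A →ₗ[K] A) (g : D →ₗ[K] D) (x : A ⊗[K] D),
      f.rTensor D (g.lTensor A x) = g.lTensor A (f.rTensor D x) := by
    intro f g x
    rw [← LinearMap.comp_apply, ← LinearMap.comp_apply, LinearMap.lTensor_comp_rTensor,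
      LinearMap.rTensor_comp_lTensor]
  have hcyc' : ∀ m < n, (e (n - m)).lTensor A (t m) =
      ((-1 : K) ^ (m + 1)) • (d (m + 1)).rTensor D (t (m + 1)) := by
    intro m hm
    have h1 := hcyc m hm
    have h2 : ((-1 : K) ^ m) • (e (n - m)).lTensor A (t m) =
        - (d (m + 1)).rTensor D (t (m + 1)) := by
      rw [eq_neg_iff_add_eq_zero, add_comm]
      exact h1
    have h3 : (e (n - m)).lTensor A (t m) =
        ((-1 : K) ^ m) • (((-1 : K) ^ m) • (e (n - m)).lTensor A (t m)) := by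
      rw [smul_smul, ← mul_pow]
      simp
    rw [h3, h2, pow_succ]
    simp
  have hz : ∀ m, (z m).rTensor D (t m) = t m - (d (m + 1)).rTensor D ((h (m + 1)).rTensor D (t m)) -
      (h m).rTensor D ((d m).rTensor D (t m)) := by
    intro m
    simp only [z, LinearMap.rTensor_sub, LinearMap.rTensor_id, LinearMap.rTensor_comp,
      LinearMap.sub_apply, LinearMap.id_apply, LinearMap.comp_apply]
  refine ⟨fun m => (h (m + 1)).rTensor D (t m), fun m => (z m).rTensor D (t m), ?_, ?_, ?_⟩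
  · intro m hm
    constructor
    · rw [← LinearMap.comp_apply, ← LinearMap.rTensor_comp, hdz]
      simp
    · rcases Nat.lt_or_ge m n with h1 | h1
      · rw [← hcom, hcyc' m h1, map_smul, ← LinearMap.comp_apply, ← LinearMap.rTensor_comp, hzd]
        simp
      · rw [show n - m = 0 by omega, he0]
        simp
  · simp only
    rw [hz, hd0]
    simp
  · intro m hm
    simp only
    rw [hz, ← hcom, hcyc' m hm, map_smul, smul_smul, ← mul_pow, neg_one_mul, neg_neg, one_pow,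
      one_smul]
    abel

/-- Linear maps on a tensor product: membership can be checked on pure tensors. -/
theorem tens_mem {M : Type*} [AddCommGroup M] [Module K M] (Φ : A ⊗[K] D →ₗ[K] M)
    (W : Submodule K M) (h : ∀ a b, Φ (a ⊗ₜ[K] b) ∈ W) (t : A ⊗[K] D) : Φ t ∈ W := by
  induction t using TensorProduct.induction_on with
  | zero => simp
  | tmul a b => exact h a b
  | add x y hx hy => rw [map_add]; exact W.add_mem hx hy

theorem tens_eq {M : Type*} [AddCommMonoid M] [Module K M] (Φ Ψ : A ⊗[K] D →ₗ[K] M)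
    (h : ∀ a b, Φ (a ⊗ₜ[K] b) = Ψ (a ⊗ₜ[K] b)) (t : A ⊗[K] D) : Φ t = Ψ t := by
  rw [TensorProduct.ext' h]

theorem fin_eq {ι M : Type*} [AddCommMonoid M] [Module K M] (f g : (ι →₀ K) →ₗ[K] M)
    {S : Set ι} (h : ∀ σ ∈ S, f (Finsupp.single σ 1) = g (Finsupp.single σ 1)) {c : ι →₀ K}
    (hc : c ∈ Finsupp.supported K K S) : f c = g c := by
  rw [Finsupp.supported_eq_span_single] at hc
  induction hc using Submodule.span_induction with
  | mem x hx =>
    obtain ⟨σ, hσ, rfl⟩ := hx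
    exact h σ hσ
  | zero => simp
  | add x y _ _ hx hy => rw [map_add, map_add, hx, hy]
  | smul a x _ hx => rw [map_smul, map_smul, hx]

end alg

section sys

variable {K : Type*} [Field K] {X Y B : Type*} [TopologicalSpace X] [TopologicalSpace Y]
  [TopologicalSpace B]

/-- The cubes which survive in the normalised relative complex. -/
def N (S : CS X) (k : ℤ) : Set C(Cb, X) := {σ | IsCube k σ ∧ S.ok σ ∧ ¬ (S.nul σ ∨ Degen k σ)}

open Classical in
variable (K) in
/-- Projection to the surviving cubes. -/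
noncomputable def p (S : CS X) (k : ℤ) : Ch K X →ₗ[K] Ch K X :=
  Finsupp.lift _ K _ (fun σ => if σ ∈ N S k then Finsupp.single σ 1 else 0)

theorem p_single_mem {S : CS X} {k : ℤ} {σ : C(Cb, X)} (h : σ ∈ N S k) :
    p K S k (Finsupp.single σ 1) = Finsupp.single σ 1 := by
  simp [p, h]

theorem p_single_not {S : CS X} {k : ℤ} {σ : C(Cb, X)} (h : σ ∉ N S k) :
    p K S k (Finsupp.single σ 1) = 0 := by
  simp [p, h]

theorem map_mem_all {ι M : Type*} [AddCommGroup M] [Module K M] (f : (ι →₀ K) →ₗ[K] M)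
    (P : Submodule K M) (h : ∀ σ, f (Finsupp.single σ 1) ∈ P) (c : ι →₀ K) : f c ∈ P :=
  map_mem_of_supported f P (S := Set.univ) (fun σ _ => h σ) (by simp [Finsupp.supported_univ])

theorem p_mem (S : CS X) (k : ℤ) (c : Ch K X) :
    p K S k c ∈ Finsupp.supported K K (N S k) := by
  refine map_mem_all _ _ (fun σ => ?_) c
  by_cases h : σ ∈ N S k
  · rw [p_single_mem h]
    exact single_mem_supported h 1
  · rw [p_single_not h]
    exact Submodule.zero_mem _

theorem supp_le_C (S : CS X) (k : ℤ) : Finsupp.supported K K (N S k) ≤ S.C K k :=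
  Finsupp.supported_mono fun _ h => ⟨h.1, h.2.1⟩

theorem p_mem_C (S : CS X) (k : ℤ) (c : Ch K X) : p K S k c ∈ S.C K k :=
  supp_le_C S k (p_mem S k c)

theorem p_eq_self {S : CS X} {k : ℤ} {c : Ch K X} (h : c ∈ Finsupp.supported K K (N S k)) :
    p K S k c = c := by
  have := map_eq_of_supported (p K S k) LinearMap.id (fun σ hσ => by
    rw [p_single_mem hσ, LinearMap.id_apply]) h
  simpa using this

theorem p_p (S : CS X) (k : ℤ) (c : Ch K X) : p K S k (p K S k c) = p K S k c :=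
  p_eq_self (p_mem S k c)

theorem sub_p_mem {S : CS X} {k : ℤ} {c : Ch K X} (h : c ∈ S.C K k) :
    c - p K S k c ∈ S.Q K k := by
  have h1 : (LinearMap.id - p K S k : Ch K X →ₗ[K] Ch K X) c ∈ S.Q K k := by
    refine map_mem_of_supported _ _ (fun σ hσ => ?_) h
    rw [LinearMap.sub_apply, LinearMap.id_apply]
    by_cases h2 : σ ∈ N S k
    · rw [p_single_mem h2, sub_self]
      exact Submodule.zero_mem _
    · rw [p_single_not h2, sub_zero]
      refine single_mem_supported (S := {σ | IsCube k σ ∧ S.ok σ ∧ (S.nul σ ∨ Degen k σ)})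
        ⟨hσ.1, hσ.2, ?_⟩ 1
      by_contra h3
      exact h2 ⟨hσ.1, hσ.2, h3⟩
  simpa using h1

theorem p_Q {S : CS X} {k : ℤ} {c : Ch K X} (h : c ∈ S.Q K k) : p K S k c = 0 := by
  have := map_eq_of_supported (p K S k) 0 (fun σ hσ => by
    rw [p_single_not (fun h => h.2.2 hσ.2.2), LinearMap.zero_apply]) h
  simpa using this

theorem mem_Q_of_p {S : CS X} {k : ℤ} {c : Ch K X} (h : c ∈ S.C K k) (h0 : p K S k c = 0) :
    c ∈ S.Q K k := by
  have := sub_p_mem h
  rwa [h0, sub_zero] at this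

theorem Q_le_C (S : CS X) (k : ℤ) : S.Q K k ≤ S.C K k :=
  Finsupp.supported_mono fun _ h => ⟨h.1, h.2.1⟩

theorem C_le (S : CS X) (k : ℤ) : S.C K k ≤ CubeHom.C K k Set.univ :=
  Finsupp.supported_mono fun _ h => ⟨h.1, fun _ => Set.mem_univ _⟩

theorem mem_C_single' {S : CS X} {k : ℤ} {σ : C(Cb, X)} (h1 : IsCube k σ) (h2 : S.ok σ) (r : K) :
    Finsupp.single σ r ∈ S.C K k :=
  single_mem_supported (S := {σ | IsCube k σ ∧ S.ok σ}) ⟨h1, h2⟩ r

theorem mem_Q_single' {S : CS X} {k : ℤ} {σ : C(Cb, X)} (h1 : IsCube k σ) (h2 : S.ok σ)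
    (h3 : S.nul σ ∨ Degen k σ) (r : K) : Finsupp.single σ r ∈ S.Q K k :=
  single_mem_supported (S := {σ | IsCube k σ ∧ S.ok σ ∧ (S.nul σ ∨ Degen k σ)}) ⟨h1, h2, h3⟩ r

theorem bd_C {S : CS X} {k : ℤ} {c : Ch K X} (hc : c ∈ S.C K k) : bd k c ∈ S.C K (k - 1) := by
  refine map_mem_of_supported (bd k) _ (fun σ hσ => ?_) hc
  rw [bd_apply]
  refine Submodule.sum_mem _ fun i hi => Submodule.smul_mem _ _ (Submodule.sub_mem _ ?_ ?_)
  all_goals
    rw [Finset.mem_range] at hi
    rw [face_single]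
    exact mem_C_single' (hσ.1.face (by omega) _) (S.ok_comp _ _ hσ.2) _

theorem bd_Q {S : CS X} {k : ℤ} {c : Ch K X} (hc : c ∈ S.Q K k) : bd k c ∈ S.Q K (k - 1) := by
  refine map_mem_of_supported (bd k) _ (fun σ hσ => ?_) hc
  obtain ⟨h1, h0, h2⟩ := hσ
  rcases h2 with h2 | ⟨i, hi, h2⟩
  · rw [bd_apply]
    refine Submodule.sum_mem _ fun i hi => Submodule.smul_mem _ _ (Submodule.sub_mem _ ?_ ?_)
    all_goals
      rw [Finset.mem_range] at hi
      rw [face_single]
      exact mem_Q_single' (h1.face (by omega) _) (S.ok_comp _ _ h0) (Or.inl (S.nul_comp _ _ h2)) _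
  · rw [bd_apply]
    refine Submodule.sum_mem _ fun j hj => Submodule.smul_mem _ _ ?_
    rw [Finset.mem_range] at hj
    rw [face_single, face_single]
    rcases eq_or_ne j i with hij | hij
    · subst hij
      rw [comp_ins_eq h2 1 0, sub_self]
      exact Submodule.zero_mem _
    · exact Submodule.sub_mem _
        (mem_Q_single' (h1.face (by omega) _) (S.ok_comp _ _ h0)
          (Or.inr (degen_face h2 hi hij (by omega) _)) _)
        (mem_Q_single' (h1.face (by omega) _) (S.ok_comp _ _ h0)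
          (Or.inr (degen_face h2 hi hij (by omega) _)) _)

variable (K) in
/-- The differential of the normalised complex. -/
noncomputable def d (S : CS X) (k : ℤ) : Ch K X →ₗ[K] Ch K X :=
  (p K S (k - 1)).comp ((bd k).comp (p K S k))

theorem d_apply (S : CS X) (k : ℤ) (c : Ch K X) :
    d K S k c = p K S (k - 1) (bd k (p K S k c)) := rfl

theorem d_zero (S : CS X) : d K S 0 = 0 := by
  ext1 σ
  ext1
  simp [d_apply, bd_of_nonpos (le_refl (0 : ℤ))]

theorem d_d (S : CS X) (k : ℤ) (c : Ch K X) : d K S k (d K S (k + 1) c) = 0 := by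
  rw [d_apply, d_apply, add_sub_cancel_right, p_p]
  have h1 := bd_C (p_mem_C S (k + 1) c)
  rw [add_sub_cancel_right] at h1
  have h2 := bd_Q (sub_p_mem h1)
  rw [map_sub] at h2
  have h3 := bd_bd (k + 1) (p K S (k + 1) c)
  rw [add_sub_cancel_right] at h3
  rw [h3, zero_sub] at h2
  have h4 := p_Q h2
  rw [map_neg, neg_eq_zero] at h4
  exact h4

theorem p_d (S : CS X) (k : ℤ) (c : Ch K X) : p K S (k - 1) (d K S k c) = d K S k c := by
  rw [d_apply, p_p]

theorem d_p (S : CS X) (k : ℤ) (c : Ch K X) : d K S k (p K S k c) = d K S k c := by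
  rw [d_apply, d_apply, p_p]

/-- Kernel of the normalised differential gives relative cycles. -/
theorem p_mem_Z {S : CS X} {k : ℤ} {c : Ch K X} (h : d K S k c = 0) : p K S k c ∈ S.Z K k :=
  ⟨p_mem_C S k c, mem_Q_of_p (bd_C (p_mem_C S k c)) h⟩

theorem cr_C {S : CS Y} {T : CS B} {m : ℕ} {k : ℤ} {x : Ch K Y} {y : Ch K B}
    (hx : x ∈ S.C K m) (hy : y ∈ T.C K k) : cr m x y ∈ (S.prod T).C K (m + k) := by
  refine cr_mem_of_supported _ (fun τ hτ σ hσ => ?_) hx hy
  exact mem_C_single' (isCube_cross hτ.1 hσ.1) (by exact ⟨hτ.2, T.ok_comp _ _ hσ.2⟩) _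

theorem cr_Q_left {S : CS Y} {T : CS B} {m : ℕ} {k : ℤ} {x : Ch K Y} {y : Ch K B}
    (hx : x ∈ S.Q K m) (hy : y ∈ T.C K k) : cr m x y ∈ (S.prod T).Q K (m + k) := by
  refine cr_mem_of_supported _ (fun τ hτ σ hσ => ?_) hx hy
  exact mem_Q_single' (isCube_cross hτ.1 hσ.1) (by exact ⟨hτ.2.1, T.ok_comp _ _ hσ.2⟩)
    (hτ.2.2.imp (fun h => by exact Or.inl h) fun h => degen_cross_left h hσ.1) _

theorem cr_Q_right {S : CS Y} {T : CS B} {m : ℕ} {k : ℤ} {x : Ch K Y} {y : Ch K B}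
    (hx : x ∈ S.C K m) (hy : y ∈ T.Q K k) : cr m x y ∈ (S.prod T).Q K (m + k) := by
  refine cr_mem_of_supported _ (fun τ hτ σ hσ => ?_) hx hy
  exact mem_Q_single' (isCube_cross hτ.1 hσ.1) (by exact ⟨hτ.2, T.ok_comp _ _ hσ.2.1⟩)
    (hσ.2.2.imp (fun h => by exact Or.inr (T.nul_comp _ _ h)) fun h => degen_cross_right hτ.1 h) _

end sys

section main

open TensorProduct

variable {K : Type*} [Field K] {Y B : Type*} [TopologicalSpace Y] [TopologicalSpace B]

variable (K Y B) in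
/-- The cross product as a linear map on the tensor product. -/
noncomputable def kap (m : ℕ) : Ch K Y ⊗[K] Ch K B →ₗ[K] Ch K (Y × B) := TensorProduct.lift (cr m)

theorem kap_tmul (m : ℕ) (x : Ch K Y) (y : Ch K B) : kap K Y B m (x ⊗ₜ y) = cr m x y := by
  simp [kap]

variable (K) in
/-- Projection to the surviving tensors. -/
noncomputable def E (S : CS Y) (T : CS B) (k l : ℤ) :
    Ch K Y ⊗[K] Ch K B →ₗ[K] Ch K Y ⊗[K] Ch K B := TensorProduct.map (p K S k) (p K T l)

theorem E_tmul (S : CS Y) (T : CS B) (k l : ℤ) (x : Ch K Y) (y : Ch K B) :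
    E K S T k l (x ⊗ₜ y) = p K S k x ⊗ₜ p K T l y := by
  simp [E]

theorem E_E (S : CS Y) (T : CS B) (k l : ℤ) (t : Ch K Y ⊗[K] Ch K B) :
    E K S T k l (E K S T k l t) = E K S T k l t := by
  exact tens_eq ((E K S T k l).comp (E K S T k l)) (E K S T k l) (fun a b => by
    rw [LinearMap.comp_apply, E_tmul, E_tmul, p_p, p_p]) t

theorem E_dr (S : CS Y) (T : CS B) (k l : ℤ) (t : Ch K Y ⊗[K] Ch K B) :
    E K S T (k - 1) l ((d K S k).rTensor _ t) = (d K S k).rTensor _ (E K S T k l t) := by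
  exact tens_eq ((E K S T (k - 1) l).comp ((d K S k).rTensor _))
      (((d K S k).rTensor _).comp (E K S T k l)) (fun a b => by
    rw [LinearMap.comp_apply, LinearMap.comp_apply, E_tmul,
      LinearMap.rTensor_tmul, LinearMap.rTensor_tmul, E_tmul, p_d, d_p]) t

theorem E_dl (S : CS Y) (T : CS B) (k l : ℤ) (t : Ch K Y ⊗[K] Ch K B) :
    E K S T k (l - 1) ((d K T l).lTensor _ t) = (d K T l).lTensor _ (E K S T k l t) := by
  exact tens_eq ((E K S T k (l - 1)).comp ((d K T l).lTensor _))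
      (((d K T l).lTensor _).comp (E K S T k l)) (fun a b => by
    rw [LinearMap.comp_apply, LinearMap.comp_apply, E_tmul,
      LinearMap.lTensor_tmul, LinearMap.lTensor_tmul, E_tmul, p_d, d_p]) t

theorem kap_C {S : CS Y} {T : CS B} (m l : ℕ) (t : Ch K Y ⊗[K] Ch K B) :
    kap K Y B m (E K S T m l t) ∈ (S.prod T).C K ((m + l : ℕ) : ℤ) := by
  refine tens_mem ((kap K Y B m).comp (E K S T m l)) _ (fun a b => ?_) t
  rw [LinearMap.comp_apply, E_tmul, kap_tmul]
  push_cast
  exact cr_C (p_mem_C _ _ _) (p_mem_C _ _ _)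

/-- Leibniz rule modulo zero chains. -/
theorem leibniz {S : CS Y} {T : CS B} (m l : ℕ) {t : Ch K Y ⊗[K] Ch K B}
    (ht : E K S T m l t = t) :
    bd ((m + l : ℕ) : ℤ) (kap K Y B m t) - (kap K Y B (m - 1) ((d K S m).rTensor _ t) +
      ((-1 : K) ^ m) • kap K Y B m ((d K T l).lTensor _ t)) ∈
        (S.prod T).Q K (((m + l : ℕ) : ℤ) - 1) := by
  rw [← ht]
  refine tens_mem ((((bd ((m + l : ℕ) : ℤ)).comp (kap K Y B m)) -
    ((kap K Y B (m - 1)).comp ((d K S m).rTensor _) +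
      ((-1 : K) ^ m) • (kap K Y B m).comp ((d K T l).lTensor _))).comp (E K S T m l)) _
        (fun a b => ?_) t
  simp only [LinearMap.comp_apply, LinearMap.sub_apply, LinearMap.add_apply,
    LinearMap.smul_apply, E_tmul, LinearMap.rTensor_tmul, LinearMap.lTensor_tmul, kap_tmul]
  have hx := p_mem_C (K := K) S m a
  have hy := p_mem_C (K := K) T l b
  have h1 := bd_cr (R := K) (n := m) (k := (l : ℤ)) (C_le _ _ hx) (C_le _ _ hy)
  push_cast
  rw [h1, d_p, d_p, d_apply, d_apply]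
  have h2 : cr (m - 1) (bd m (p K S m a)) (p K T l b) -
      cr (m - 1) (p K S (m - 1) (bd m (p K S m a))) (p K T l b) ∈
        (S.prod T).Q K ((m : ℤ) + l - 1) := by
    rcases Nat.eq_zero_or_pos m with h0 | h0
    · subst h0
      rw [Nat.cast_zero, bd_of_nonpos (le_refl (0 : ℤ))]
      simp
    · have h3 := cr_Q_left (m := m - 1) (T := T) (k := (l : ℤ)) (x := bd m (p K S m a) -
        p K S (m - 1) (bd m (p K S m a))) (y := p K T l b) (S := S) (by
          rw [show ((m - 1 : ℕ) : ℤ) = (m : ℤ) - 1 by omega]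
          exact sub_p_mem (bd_C hx)) hy
      rw [show ((m - 1 : ℕ) : ℤ) + (l : ℤ) = (m : ℤ) + l - 1 by omega, map_sub,
        LinearMap.sub_apply] at h3
      exact h3
  have h4 : cr m (p K S m a) (bd l (p K T l b)) -
      cr m (p K S m a) (p K T (l - 1) (bd l (p K T l b))) ∈
        (S.prod T).Q K ((m : ℤ) + l - 1) := by
    rw [← map_sub]
    have h3 := cr_Q_right (S := S) (T := T) hx (sub_p_mem (bd_C hy))
    rw [show (m : ℤ) + ((l : ℤ) - 1) = (m : ℤ) + l - 1 by ring] at h3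
    exact h3
  have h5 := Submodule.add_mem _ h2 (Submodule.smul_mem _ ((-1 : K) ^ m) h4)
  rw [smul_sub] at h5
  convert h5 using 1
  abel

/-- Padding by zeros. -/
def pad (m : ℕ) : C(Cb, Cb) where
  toFun u := fun j => if j < m then 0 else u (j - m)
  continuous_toFun := by
    refine continuous_pi fun j => ?_
    by_cases h : j < m
    · simpa [h] using continuous_const
    · simpa [h] using continuous_apply (j - m)

theorem drop_pad (m : ℕ) : (drop m).comp (pad m) = ContinuousMap.id Cb := by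
  ext u j : 2
  simp [drop_apply, pad]

open Classical in
variable (K) in
/-- The component of bidegree `(m, n - m)`. -/
noncomputable def lam (S : CS Y) (T : CS B) (n m : ℕ) : Ch K (Y × B) →ₗ[K] Ch K Y ⊗[K] Ch K B :=
  Finsupp.lift _ K _ (fun ω => if ContinuousMap.fst.comp ω ∈ N S m ∧
      (ContinuousMap.snd.comp ω).comp (pad m) ∈ N T ((n - m : ℕ) : ℤ) ∧
      ω = crossCube m (ContinuousMap.fst.comp ω) ((ContinuousMap.snd.comp ω).comp (pad m)) then
    (Finsupp.single (ContinuousMap.fst.comp ω) 1) ⊗ₜ[K]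
      (Finsupp.single ((ContinuousMap.snd.comp ω).comp (pad m)) 1) else 0)

theorem lam_pos {S : CS Y} {T : CS B} {n m : ℕ} {ω : C(Cb, Y × B)}
    (h1 : ContinuousMap.fst.comp ω ∈ N S m)
    (h2 : (ContinuousMap.snd.comp ω).comp (pad m) ∈ N T ((n - m : ℕ) : ℤ))
    (h3 : ω = crossCube m (ContinuousMap.fst.comp ω) ((ContinuousMap.snd.comp ω).comp (pad m))) :
    lam K S T n m (Finsupp.single ω 1) = (Finsupp.single (ContinuousMap.fst.comp ω) 1) ⊗ₜ[K]
      (Finsupp.single ((ContinuousMap.snd.comp ω).comp (pad m)) 1) := by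
  rw [lam, Finsupp.lift_apply, Finsupp.sum_single_index (by simp), one_smul,
    if_pos ⟨h1, h2, h3⟩]

theorem lam_neg {S : CS Y} {T : CS B} {n m : ℕ} {ω : C(Cb, Y × B)}
    (h : ¬ (ContinuousMap.fst.comp ω ∈ N S m ∧
      (ContinuousMap.snd.comp ω).comp (pad m) ∈ N T ((n - m : ℕ) : ℤ) ∧
      ω = crossCube m (ContinuousMap.fst.comp ω) ((ContinuousMap.snd.comp ω).comp (pad m)))) :
    lam K S T n m (Finsupp.single ω 1) = 0 := by
  rw [lam, Finsupp.lift_apply, Finsupp.sum_single_index (by simp), one_smul, if_neg h]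

theorem fst_cross (m : ℕ) (τ : C(Cb, Y)) (σ : C(Cb, B)) :
    ContinuousMap.fst.comp (crossCube m τ σ) = τ := rfl

theorem snd_cross (m : ℕ) (τ : C(Cb, Y)) (σ : C(Cb, B)) :
    ContinuousMap.snd.comp (crossCube m τ σ) = σ.comp (drop m) := rfl

theorem snd_cross_pad (m : ℕ) (τ : C(Cb, Y)) (σ : C(Cb, B)) :
    (ContinuousMap.snd.comp (crossCube m τ σ)).comp (pad m) = σ := by
  rw [snd_cross, ContinuousMap.comp_assoc, drop_pad, ContinuousMap.comp_id]

theorem lam_cross_eq {S : CS Y} {T : CS B} {n m : ℕ} {τ : C(Cb, Y)} {σ : C(Cb, B)} :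
    lam K S T n m (Finsupp.single (crossCube m τ σ) 1) =
      p K S m (Finsupp.single τ 1) ⊗ₜ[K] p K T ((n - m : ℕ) : ℤ) (Finsupp.single σ 1) := by
  by_cases h1 : τ ∈ N S m
  · by_cases h2 : σ ∈ N T ((n - m : ℕ) : ℤ)
    · rw [p_single_mem h1, p_single_mem h2, lam_pos]
      · rw [fst_cross, snd_cross_pad]
      · rwa [fst_cross]
      · rwa [snd_cross_pad]
      · rw [fst_cross, snd_cross_pad]
    · rw [p_single_not h2, TensorProduct.tmul_zero, lam_neg]
      rintro ⟨-, h, -⟩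
      rw [snd_cross_pad] at h
      exact h2 h
  · rw [p_single_not h1, TensorProduct.zero_tmul, lam_neg]
    rintro ⟨h, -, -⟩
    exact h1 h

theorem lam_cross_ne {S : CS Y} {T : CS B} {n m m' : ℕ} {τ : C(Cb, Y)} {σ : C(Cb, B)}
    (hm' : m' ≤ n) (hne : m ≠ m') (hτ : IsCube (m' : ℤ) τ) :
    lam K S T n m (Finsupp.single (crossCube m' τ σ) 1) = 0 := by
  apply lam_neg
  rintro ⟨h1, h2, h3⟩
  rw [fst_cross] at h1
  rcases Nat.lt_or_ge m' m with h | h
  · -- `τ` is degenerate as an `m`-cube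
    apply h1.2.2
    right
    refine ⟨m', by omega, ?_⟩
    intro x y hxy
    exact hτ.2 fun j hj => hxy j (by
      simp only [Set.mem_ofPred_eq] at hj ⊢
      omega)
  · have h : m < m' := lt_of_le_of_ne h hne
    apply h2.2.2
    right
    refine ⟨0, by omega, ?_⟩
    intro x y hxy
    rw [snd_cross]
    simp only [ContinuousMap.comp_apply]
    congr 1
    funext j
    rw [drop_apply, drop_apply]
    simp only [pad, ContinuousMap.coe_mk]
    rw [if_neg (by omega), if_neg (by omega)]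
    exact hxy _ (by
      simp only [Set.mem_ofPred_eq]
      omega)

theorem lam_Q {S : CS Y} {T : CS B} {n m : ℕ} (hm : m ≤ n) {c : Ch K (Y × B)}
    (hc : c ∈ (S.prod T).Q K (n : ℤ)) : lam K S T n m c = 0 := by
  have h := fin_eq (lam K S T n m) 0 (fun ω hω => ?_) hc
  · simpa using h
  rw [LinearMap.zero_apply]
  apply lam_neg
  rintro ⟨h1, h2, h3⟩
  rcases hω.2.2 with h4 | ⟨i, hi, h4⟩
  · rcases h4 with h4 | h4
    · exact h1.2.2 (Or.inl h4)
    · exact h2.2.2 (Or.inl (T.nul_comp _ _ h4))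
  · by_cases h5 : i < m
    · apply h1.2.2
      right
      exact ⟨i, by omega, dependsOn_comp_left h4⟩
    · apply h2.2.2
      right
      refine ⟨i - m, by omega, ?_⟩
      refine dependsOn_comp_right (dependsOn_comp_left h4) fun x y hxy j hj => ?_
      simp only [Set.mem_ofPred_eq] at hxy hj
      simp only [pad, ContinuousMap.coe_mk]
      by_cases h6 : j < m
      · rw [if_pos h6, if_pos h6]
      · rw [if_neg h6, if_neg h6]
        exact hxy _ (by omega)

theorem E_lam {S : CS Y} {T : CS B} {n m : ℕ} (c : Ch K (Y × B)) :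
    E K S T m ((n - m : ℕ) : ℤ) (lam K S T n m c) = lam K S T n m c := by
  refine fin_eq ((E K S T m ((n - m : ℕ) : ℤ)).comp (lam K S T n m)) (lam K S T n m)
    (S := Set.univ) (fun ω _ => ?_) (by simp [Finsupp.supported_univ])
  rw [LinearMap.comp_apply]
  by_cases h : (ContinuousMap.fst.comp ω ∈ N S m ∧
      (ContinuousMap.snd.comp ω).comp (pad m) ∈ N T ((n - m : ℕ) : ℤ) ∧
      ω = crossCube m (ContinuousMap.fst.comp ω) ((ContinuousMap.snd.comp ω).comp (pad m)))
  · rw [lam_pos h.1 h.2.1 h.2.2, E_tmul, p_single_mem h.1, p_single_mem h.2.1]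
  · rw [lam_neg h, map_zero]

theorem lam_kap {S : CS Y} {T : CS B} {n m m' : ℕ} (hm' : m' ≤ n) (t : Ch K Y ⊗[K] Ch K B)
    (ht : E K S T m' ((n - m' : ℕ) : ℤ) t = t) :
    lam K S T n m (kap K Y B m' t) = if m = m' then t else 0 := by
  rw [← ht]
  have h := tens_eq (((lam K S T n m).comp (kap K Y B m')).comp
    (E K S T m' ((n - m' : ℕ) : ℤ))) (if m = m' then E K S T m' ((n - m' : ℕ) : ℤ) else 0)
    (fun a b => ?_) t
  · rw [LinearMap.comp_apply, LinearMap.comp_apply] at h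
    rw [h]
    split_ifs <;> rfl
  rw [LinearMap.comp_apply, LinearMap.comp_apply, E_tmul, kap_tmul]
  have h2 : lam K S T n m (cr m' (p K S m' a) (p K T ((n - m' : ℕ) : ℤ) b)) =
      if m = m' then p K S m' a ⊗ₜ[K] p K T ((n - m' : ℕ) : ℤ) b else 0 := by
    have h3 := fin_eq ((lam K S T n m).comp (((cr m').flip (p K T ((n - m' : ℕ) : ℤ) b))))
      (if m = m' then (TensorProduct.mk K (Ch K Y) (Ch K B)).flip
        (p K T ((n - m' : ℕ) : ℤ) b) else 0) (fun τ hτ => ?_) (p_mem S m' a)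
    · rw [LinearMap.comp_apply, LinearMap.flip_apply] at h3
      rw [h3]
      split_ifs <;> rfl
    · rw [LinearMap.comp_apply, LinearMap.flip_apply]
      have h4 := fin_eq ((lam K S T n m).comp (cr m' (Finsupp.single τ 1)))
        (if m = m' then (TensorProduct.mk K (Ch K Y) (Ch K B))
          (Finsupp.single τ 1) else 0) (fun σ hσ => ?_) (p_mem T ((n - m' : ℕ) : ℤ) b)
      · rw [LinearMap.comp_apply] at h4
        rw [h4]
        split_ifs <;> rfl
      · rw [LinearMap.comp_apply, cr_single_single, one_mul]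
        split_ifs with h5
        · subst h5
          rw [lam_cross_eq, p_single_mem hτ, p_single_mem hσ, TensorProduct.mk_apply]
        · rw [lam_cross_ne hm' h5 hτ.1]
          rfl
  rw [h2]
  split_ifs
  · rw [E_tmul]
  · rfl

/-- The chains which are combinations of cross products of cubes. -/
def XS (S : CS Y) (T : CS B) (n : ℕ) : Set C(Cb, Y × B) :=
  {ω | ∃ m ≤ n, ∃ (τ : C(Cb, Y)) (σ : C(Cb, B)), IsCube (m : ℤ) τ ∧
    IsCube ((n - m : ℕ) : ℤ) σ ∧ S.ok τ ∧ T.ok σ ∧ ω = crossCube m τ σ}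

theorem ezP_mem {S : CS Y} {T : CS B} {n : ℕ} {w : Ch K (Y × B)}
    (hw : w ∈ (S.prod T).C K (n : ℤ)) :
    ezP K Y B n w ∈ Finsupp.supported K K (XS S T n) := by
  refine map_mem_of_supported _ _ (fun ω hω => ?_) hw
  rw [ezP, Finsupp.lift_apply, Finsupp.sum_single_index (by simp), one_smul]
  refine Submodule.sum_mem _ fun H hH => ?_
  rw [Finset.mem_powerset] at hH
  have hc : H.card ≤ n := by
    have := Finset.card_le_card hH
    simpa using this
  refine single_mem_supported (S := XS S T n) ⟨H.card, hc, _, _, ?_, ?_, ?_, ?_, rfl⟩ _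
  · have h1 := isCube_fc (w := wfr H) (hω.1.comp (ContinuousMap.fst))
    have h2 : (Finset.range n).filter (fun i => wfr H i = none) = H := by
      ext i
      rw [Finset.mem_filter]
      constructor
      · rintro ⟨_, h⟩
        by_contra h3
        simp [wfr, h3] at h
      · intro h
        exact ⟨hH h, by simp [wfr, h]⟩
    rw [h2] at h1
    exact h1
  · have h1 := isCube_fc (w := wbk H) (hω.1.comp (ContinuousMap.snd))
    have h2 : (Finset.range n).filter (fun i => wbk H i = none) = Finset.range n \ H := by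
      ext i
      rw [Finset.mem_filter, Finset.mem_sdiff]
      constructor
      · rintro ⟨h4, h⟩
        refine ⟨h4, fun h3 => ?_⟩
        simp [wbk, h3] at h
      · intro h
        exact ⟨h.1, by simp [wbk, h.2]⟩
    rw [h2, Finset.card_sdiff_of_subset hH, Finset.card_range] at h1
    exact h1
  · exact S.ok_comp _ _ hω.2.1
  · exact T.ok_comp _ _ hω.2.2

theorem reco {S : CS Y} {T : CS B} {n : ℕ} {c : Ch K (Y × B)}
    (hc : c ∈ Finsupp.supported K K (XS S T n)) :
    c - ∑ m ∈ Finset.range (n + 1), kap K Y B m (lam K S T n m c) ∈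
      (S.prod T).Q K (n : ℤ) := by
  have h := map_mem_of_supported (LinearMap.id - ∑ m ∈ Finset.range (n + 1),
    (kap K Y B m).comp (lam K S T n m)) ((S.prod T).Q K (n : ℤ)) (fun ω hω => ?_) hc
  · simpa [LinearMap.sum_apply] using h
  obtain ⟨m', hm', τ, σ, hτ, hσ, hτo, hσo, rfl⟩ := hω
  rw [LinearMap.sub_apply, LinearMap.id_apply, LinearMap.sum_apply,
    Finset.sum_eq_single m' (fun m _ hne => by
      rw [LinearMap.comp_apply, lam_cross_ne hm' hne hτ, map_zero])
      (fun h => absurd (Finset.mem_range.2 (by omega)) h),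
    LinearMap.comp_apply, lam_cross_eq, kap_tmul]
  have h1 : (Finsupp.single (crossCube m' τ σ) 1 : Ch K (Y × B)) =
      cr m' (Finsupp.single τ 1) (Finsupp.single σ 1) := by
    rw [cr_single_single, one_mul]
  rw [h1]
  have hτ' := mem_C_single' (K := K) (S := S) hτ hτo 1
  have hσ' := mem_C_single' (K := K) (S := T) hσ hσo 1
  have h2 := cr_Q_left (T := T) (sub_p_mem hτ') hσ'
  have h3 := cr_Q_right (T := T) (p_mem_C S m' (Finsupp.single τ 1)) (sub_p_mem hσ')
  rw [show ((m' : ℤ) + ((n - m' : ℕ) : ℤ)) = (n : ℤ) by omega] at h2 h3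
  have h4 := Submodule.add_mem _ h2 h3
  rw [map_sub, LinearMap.sub_apply, map_sub] at h4
  convert h4 using 1
  abel

theorem Bd_C {S : CS Y} {n : ℕ} {c : Ch K Y} (h : S.Bd K (n : ℤ) c) : c ∈ S.C K (n : ℤ) := by
  obtain ⟨b, hb, h⟩ := h
  have h1 := bd_C hb
  rw [add_sub_cancel_right] at h1
  have h2 := Submodule.add_mem _ (Q_le_C _ _ h) h1
  rwa [sub_add_cancel] at h2

theorem Bd_bd {S : CS Y} {n : ℕ} {c : Ch K Y} (h : S.Bd K (n : ℤ) c) :
    bd (n : ℤ) c ∈ S.Q K ((n : ℤ) - 1) := by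
  obtain ⟨b, hb, h⟩ := h
  have h1 := bd_Q h
  rw [map_sub] at h1
  have h2 := bd_bd ((n : ℤ) + 1) b
  rw [add_sub_cancel_right] at h2
  rwa [h2, sub_zero] at h1

/-- The main step: combinations of product cubes. -/
theorem kunneth_aux (S : CS Y) (T : CS B) {n : ℕ} {P : Ch K (Y × B)}
    (hP : P ∈ Finsupp.supported K K (XS S T n)) (hbd : bd (n : ℤ) P ∈ (S.prod T).Q K ((n : ℤ) - 1)) :
    ∃ c ∈ Submodule.span K {c : Ch K (Y × B) | ∃ m ≤ n, ∃ x ∈ S.Z K (m : ℤ),
      ∃ y ∈ T.Z K ((n - m : ℕ) : ℤ), c = cr m x y}, (S.prod T).Bd K (n : ℤ) (P - c) := by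
  obtain ⟨t, ht⟩ : ∃ t : ℕ → Ch K Y ⊗[K] Ch K B, t = fun m => lam K S T n m P := ⟨_, rfl⟩
  have htE : ∀ m : ℕ, E K S T (m : ℤ) ((n - m : ℕ) : ℤ) (t m) = t m := by
    intro m
    rw [ht]
    exact E_lam P
  have hPt : P - ∑ m ∈ Finset.range (n + 1), kap K Y B m (t m) ∈ (S.prod T).Q K (n : ℤ) := by
    rw [ht]
    exact reco hP
  -- cycle condition
  have hcyc : ∀ m : ℕ, m < n → (d K S ((m + 1 : ℕ) : ℤ)).rTensor _ (t (m + 1)) +
      ((-1 : K) ^ m) • (d K T ((n - m : ℕ) : ℤ)).lTensor _ (t m) = 0 := by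
    intro m0 hm0
    obtain ⟨n', rfl⟩ : ∃ n', n = n' + 1 := ⟨n - 1, by omega⟩
    have h1 := bd_Q hPt
    rw [map_sub] at h1
    have h2 := Submodule.sub_mem _ hbd h1
    rw [sub_sub_cancel, map_sum] at h2
    have h3 : ∑ m ∈ Finset.range (n' + 1 + 1), (bd (R := K) ((n' + 1 : ℕ) : ℤ) (kap K Y B m (t m)) -
        (kap K Y B (m - 1) ((d K S (m : ℤ)).rTensor _ (t m)) +
        ((-1 : K) ^ m) • kap K Y B m ((d K T ((n' + 1 - m : ℕ) : ℤ)).lTensor _ (t m)))) ∈
        (S.prod T).Q K (((n' + 1 : ℕ) : ℤ) - 1) := by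
      refine Submodule.sum_mem _ fun m hm => ?_
      rw [Finset.mem_range] at hm
      have h4 := leibniz m (n' + 1 - m) (htE m)
      rw [show m + (n' + 1 - m) = n' + 1 by omega] at h4
      exact h4
    rw [Finset.sum_sub_distrib] at h3
    have h5 := Submodule.sub_mem _ h2 h3
    rw [sub_sub_cancel, Finset.sum_add_distrib, Finset.sum_range_succ', Finset.sum_range_succ
      (fun m => ((-1 : K) ^ m) • kap K Y B m ((d K T ((n' + 1 - m : ℕ) : ℤ)).lTensor _ (t m)))]
      at h5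
    have e1 : kap K Y B (0 - 1) ((d K S ((0 : ℕ) : ℤ)).rTensor _ (t 0)) = 0 := by
      rw [Nat.cast_zero, d_zero]
      simp
    have e2 : kap K Y B (n' + 1) ((d K T ((n' + 1 - (n' + 1) : ℕ) : ℤ)).lTensor _ (t (n' + 1))) =
        0 := by
      rw [Nat.sub_self, Nat.cast_zero, d_zero]
      simp
    rw [e1, e2, smul_zero, add_zero, add_zero, ← Finset.sum_add_distrib] at h5
    obtain ⟨r, hr⟩ : ∃ r : ℕ → Ch K Y ⊗[K] Ch K B, r = fun m =>
      (d K S ((m + 1 : ℕ) : ℤ)).rTensor _ (t (m + 1)) +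
      ((-1 : K) ^ m) • (d K T ((n' + 1 - m : ℕ) : ℤ)).lTensor _ (t m) := ⟨_, rfl⟩
    have h6 : ∑ m ∈ Finset.range (n' + 1), kap K Y B m (r m) ∈ (S.prod T).Q K (n' : ℤ) := by
      rw [show (((n' + 1 : ℕ) : ℤ) - 1) = (n' : ℤ) by push_cast; ring] at h5
      convert h5 using 2
      rw [hr, map_add, map_smul, Nat.add_sub_cancel]
    have hrE : ∀ m : ℕ, m < n' + 1 → E K S T (m : ℤ) ((n' - m : ℕ) : ℤ) (r m) = r m := by
      intro m hm
      have a1 := E_dr S T ((m + 1 : ℕ) : ℤ) ((n' - m : ℕ) : ℤ) (t (m + 1))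
      have a2 := E_dl S T (m : ℤ) ((n' + 1 - m : ℕ) : ℤ) (t m)
      have a3 := htE (m + 1)
      rw [show n' + 1 - (m + 1) = n' - m by omega] at a3
      rw [a3] at a1
      rw [htE m] at a2
      rw [show (((m + 1 : ℕ) : ℤ) - 1) = (m : ℤ) by push_cast; ring] at a1
      rw [show (((n' + 1 - m : ℕ) : ℤ) - 1) = ((n' - m : ℕ) : ℤ) by omega] at a2
      rw [hr]
      simp only
      rw [map_add, map_smul, a1, a2]
    have h7 := lam_Q (m := m0) (by omega : m0 ≤ n') h6
    rw [map_sum, Finset.sum_eq_single m0, lam_kap (by omega) _ (hrE m0 hm0), if_pos rfl, hr] at h7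
    · exact h7
    · intro m hm hne
      rw [Finset.mem_range] at hm
      rw [lam_kap (by omega) _ (hrE m hm), if_neg (Ne.symm hne)]
    · intro h
      exact absurd (Finset.mem_range.2 hm0) h
  -- decomposition
  obtain ⟨s, u, hu, h0, hs⟩ := decomp (fun m => d K S (m : ℤ)) (fun m => d K T (m : ℤ))
    (by simp only [Nat.cast_zero]; exact d_zero S) (by simp only [Nat.cast_zero]; exact d_zero T)
    (fun m a => by
      have := d_d (K := K) S (m : ℤ) a
      simpa using this) n t hcyc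
  obtain ⟨s', hs'⟩ : ∃ s' : ℕ → Ch K Y ⊗[K] Ch K B, s' = fun m : ℕ =>
    E K S T ((m + 1 : ℕ) : ℤ) ((n - m : ℕ) : ℤ) (s m) := ⟨_, rfl⟩
  obtain ⟨u', hu'⟩ : ∃ u' : ℕ → Ch K Y ⊗[K] Ch K B, u' = fun m : ℕ =>
    E K S T (m : ℤ) ((n - m : ℕ) : ℤ) (u m) := ⟨_, rfl⟩
  have hs'E : ∀ m : ℕ, E K S T ((m + 1 : ℕ) : ℤ) ((n - m : ℕ) : ℤ) (s' m) = s' m := by
    intro m
    rw [hs']
    exact E_E _ _ _ _ _
  have b1 : ∀ m : ℕ, E K S T (m : ℤ) ((n - m : ℕ) : ℤ)
      ((d K S ((m + 1 : ℕ) : ℤ)).rTensor _ (s m)) =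
      (d K S ((m + 1 : ℕ) : ℤ)).rTensor _ (s' m) := by
    intro m
    have a1 := E_dr S T ((m + 1 : ℕ) : ℤ) ((n - m : ℕ) : ℤ) (s m)
    rw [show (((m + 1 : ℕ) : ℤ) - 1) = (m : ℤ) by push_cast; ring] at a1
    rw [a1, hs']
  have b2 : ∀ m : ℕ, m < n → E K S T ((m + 1 : ℕ) : ℤ) ((n - (m + 1) : ℕ) : ℤ)
      ((d K T ((n - m : ℕ) : ℤ)).lTensor _ (s m)) =
      (d K T ((n - m : ℕ) : ℤ)).lTensor _ (s' m) := by
    intro m hm
    have a1 := E_dl S T ((m + 1 : ℕ) : ℤ) ((n - m : ℕ) : ℤ) (s m)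
    rw [show (((n - m : ℕ) : ℤ) - 1) = ((n - (m + 1) : ℕ) : ℤ) by omega] at a1
    rw [a1, hs']
  have c0 : t 0 = u' 0 + (d K S ((0 + 1 : ℕ) : ℤ)).rTensor _ (s' 0) := by
    rw [← b1 0, hu', ← htE 0, h0, map_add]
  have c1 : ∀ m : ℕ, m < n → t (m + 1) = u' (m + 1) +
      (d K S ((m + 1 + 1 : ℕ) : ℤ)).rTensor _ (s' (m + 1)) +
      ((-1 : K) ^ (m + 1)) • (d K T ((n - m : ℕ) : ℤ)).lTensor _ (s' m) := by
    intro m hm
    rw [← b1 (m + 1), ← b2 m hm, hu', ← htE (m + 1), hs m hm, map_add, map_add, map_smul]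
  have hsum : ∑ m ∈ Finset.range (n + 1), kap K Y B m (t m) =
      ∑ m ∈ Finset.range (n + 1), kap K Y B m (u' m) +
      ∑ m ∈ Finset.range (n + 1), (kap K Y B m ((d K S ((m + 1 : ℕ) : ℤ)).rTensor _ (s' m)) +
        ((-1 : K) ^ (m + 1)) • kap K Y B (m + 1)
          ((d K T ((n - m : ℕ) : ℤ)).lTensor _ (s' m))) := by
    have e2 : kap K Y B (n + 1) ((d K T ((n - n : ℕ) : ℤ)).lTensor _ (s' n)) = 0 := by
      rw [Nat.sub_self, Nat.cast_zero, d_zero]
      simp
    rw [Finset.sum_add_distrib, Finset.sum_range_succ (fun m => ((-1 : K) ^ (m + 1)) •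
      kap K Y B (m + 1) ((d K T ((n - m : ℕ) : ℤ)).lTensor _ (s' m))), e2, smul_zero, add_zero,
      Finset.sum_range_succ', c0, Finset.sum_congr rfl (fun m hm => by
        rw [c1 m (Finset.mem_range.1 hm), map_add, map_add, map_smul] :
        ∀ m ∈ Finset.range n, kap K Y B (m + 1) (t (m + 1)) = kap K Y B (m + 1) (u' (m + 1)) +
          kap K Y B (m + 1) ((d K S ((m + 1 + 1 : ℕ) : ℤ)).rTensor _ (s' (m + 1))) +
          ((-1 : K) ^ (m + 1)) • kap K Y B (m + 1)
            ((d K T ((n - m : ℕ) : ℤ)).lTensor _ (s' m))),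
      Finset.sum_add_distrib, Finset.sum_add_distrib, map_add,
      Finset.sum_range_succ' (fun m => kap K Y B m (u' m)),
      Finset.sum_range_succ' (fun m => kap K Y B m
        ((d K S ((m + 1 : ℕ) : ℤ)).rTensor _ (s' m)))]
    abel
  refine ⟨∑ m ∈ Finset.range (n + 1), kap K Y B m (u' m), ?_, ?_⟩
  · refine Submodule.sum_mem _ fun m hm => ?_
    rw [Finset.mem_range] at hm
    obtain ⟨v, hv⟩ := mem_ker_ker (d K S (m : ℤ)) (d K T ((n - m : ℕ) : ℤ)) (u m)
      (hu m (by omega)).1 (hu m (by omega)).2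
    rw [hu']
    simp only
    rw [← hv]
    clear hv
    induction v using TensorProduct.induction_on with
    | zero =>
      rw [map_zero, map_zero, map_zero]
      exact Submodule.zero_mem _
    | tmul a b =>
      rw [TensorProduct.map_tmul, E_tmul, kap_tmul]
      exact Submodule.subset_span ⟨m, by omega, _, p_mem_Z a.2, _, p_mem_Z b.2, rfl⟩
    | add x y hx hy =>
      rw [map_add, map_add, map_add]
      exact Submodule.add_mem _ hx hy
  · refine ⟨∑ m ∈ Finset.range (n + 1), kap K Y B (m + 1) (s' m), ?_, ?_⟩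
    · refine Submodule.sum_mem _ fun m hm => ?_
      rw [Finset.mem_range] at hm
      rw [← hs'E m]
      have := kap_C (S := S) (T := T) (m + 1) (n - m) (s' m)
      rw [show (((m + 1 + (n - m) : ℕ) : ℤ)) = (n : ℤ) + 1 by omega] at this
      exact this
    · have h3 : ∑ m ∈ Finset.range (n + 1), (bd (R := K) ((n + 1 : ℕ) : ℤ)
          (kap K Y B (m + 1) (s' m)) -
          (kap K Y B m ((d K S ((m + 1 : ℕ) : ℤ)).rTensor _ (s' m)) +
          ((-1 : K) ^ (m + 1)) • kap K Y B (m + 1)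
            ((d K T ((n - m : ℕ) : ℤ)).lTensor _ (s' m)))) ∈ (S.prod T).Q K (n : ℤ) := by
        refine Submodule.sum_mem _ fun m hm => ?_
        rw [Finset.mem_range] at hm
        have h4 := leibniz (m + 1) (n - m) (hs'E m)
        rw [show m + 1 + (n - m) = n + 1 by omega, Nat.add_sub_cancel,
          show (((n + 1 : ℕ) : ℤ) - 1) = (n : ℤ) by push_cast; ring] at h4
        exact h4
      rw [Finset.sum_sub_distrib] at h3
      have h5 := Submodule.sub_mem _ hPt h3
      rw [hsum] at h5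
      have h6 : (((n + 1 : ℕ) : ℤ)) = (n : ℤ) + 1 := by push_cast; ring
      rw [h6] at h5
      rw [map_sum]
      convert h5 using 1
      abel

end main

end EZ5Aux

open EZ5Aux in
/-- Kuenneth over a field: every cycle is homologous to a sum of cross products of cycles. -/
theorem kunneth {K : Type*} [Field K] {Y B : Type*} [TopologicalSpace Y] [TopologicalSpace B]
    (S : CS Y) (T : CS B) {n : ℕ} {w : Ch K (Y × B)}
    (hw : w ∈ (S.prod T).Z K (n : ℤ)) :
    ∃ (r : ℕ) (m : Fin r → ℕ) (x : Fin r → Ch K Y) (y : Fin r → Ch K B),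
      (∀ i, m i ≤ n ∧ x i ∈ S.Z K (m i : ℤ) ∧ y i ∈ T.Z K ((n - m i : ℕ) : ℤ)) ∧
      (S.prod T).Bd K (n : ℤ) (w - ∑ i, cr (m i) (x i) (y i)) := by
  have h1 := ez_reduce S T hw
  have hP := ezP_mem hw.1
  have hbd : bd (n : ℤ) (ezP K Y B n w) ∈ (S.prod T).Q K ((n : ℤ) - 1) := by
    have h2 := Bd_bd h1
    rw [map_sub] at h2
    have h4 : bd (n : ℤ) w ∈ (S.prod T).Q K ((n : ℤ) - 1) := hw.2
    have h3 := Submodule.sub_mem _ h4 h2
    rwa [sub_sub_cancel] at h3
  obtain ⟨c, hc, hBd⟩ := kunneth_aux S T hP hbd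
  obtain ⟨r, f, g, hfg⟩ := Submodule.mem_span_set'.1 hc
  choose m hm x hx y hy hxy using fun i => (g i).2
  refine ⟨r, m, fun i => f i • x i, y, fun i => ⟨hm i, Submodule.smul_mem _ _ (hx i), hy i⟩, ?_⟩
  have h4 : ∑ i, cr (m i) (f i • x i) (y i) = c := by
    rw [← hfg]
    refine Finset.sum_congr rfl fun i _ => ?_
    rw [map_smul, LinearMap.smul_apply, ← hxy i]
  rw [h4]
  obtain ⟨b1, hb1, hb1'⟩ := h1
  obtain ⟨b2, hb2, hb2'⟩ := hBd
  refine ⟨b1 + b2, Submodule.add_mem _ hb1 hb2, ?_⟩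
  rw [map_add]
  have h5 := Submodule.add_mem _ hb1' hb2'
  convert h5 using 1
  abel

end Pool.Agent.TC
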