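import Pool.Agent.Lib.TC.Exc7

/-!
# Section 10.3, 10.4: the exceptional case
-/

namespace Pool.Agent.TC

open CubeHom

section ex8

variable {F : Type} [TopologicalSpace F] {R : Type} [CommRing R]

private theorem ex8_top_C (k : ℤ) : (CS.top F).C R k = CubeHom.C R k Set.univ := by
  unfold CS.C CubeHom.C
  congr 1
  ext σ
  simp [CS.top]

private theorem ex8_top_Q (k : ℤ) : (CS.top F).Q R k = CubeHom.Q R k ∅ := by
  unfold CS.Q CubeHom.Q
  congr 1
  ext σ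
  simp [CS.top]

private theorem ex8_top_Z {k : ℤ} {c : Ch R F} :
    c ∈ (CS.top F).Z R k ↔ c ∈ CubeHom.Z R k Set.univ ∅ := by
  unfold CS.Z CubeHom.Z
  rw [ex8_top_C, ex8_top_Q]

private theorem ex8_top_Bd {k : ℤ} {c : Ch R F} :
    (CS.top F).Bd R k c ↔ CubeHom.Bd R k Set.univ ∅ c := by
  unfold CS.Bd CubeHom.Bd
  rw [ex8_top_C, ex8_top_Q]

private theorem ex8_rel_C (B : Set F) (k : ℤ) : (relB B).C R k = CubeHom.C R k Set.univ := by
  unfold CS.C CubeHom.C relB CS.kill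
  congr 1
  ext σ
  simp [CS.top]

private theorem ex8_rel_Q (B : Set F) (k : ℤ) : (relB B).Q R k = CubeHom.Q R k B := by
  unfold CS.Q CubeHom.Q relB CS.kill
  congr 1
  ext σ
  simp [CS.top]

private theorem ex8_rel_Z {B : Set F} {k : ℤ} {c : Ch R F} :
    c ∈ (relB B).Z R k ↔ c ∈ CubeHom.Z R k Set.univ B := by
  unfold CS.Z CubeHom.Z
  rw [ex8_rel_C, ex8_rel_Q]

private theorem ex8_rel_Bd {B : Set F} {k : ℤ} {c : Ch R F} :
    (relB B).Bd R k c ↔ CubeHom.Bd R k Set.univ B c := by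
  unfold CS.Bd CubeHom.Bd
  rw [ex8_rel_C, ex8_rel_Q]

/-- The contraction of `ℝ^d`. -/
private noncomputable def ex8H (d : ℕ) : C(I × (Fin d → ℝ), Fin d → ℝ) :=
  ⟨fun p => (p.1 : ℝ) • p.2, by fun_prop⟩

private theorem ex8_euc {d : ℕ} {j : ℤ} (hj : 1 ≤ j) {c : Ch R (Fin d → ℝ)}
    (hc : c ∈ CubeHom.Z R j Set.univ ∅) : CubeHom.Bd R j Set.univ ∅ c := by
  have h2 := Bd_homotopy (R := R) (H := ex8H d) (U := Set.univ) (A := ∅) (V := Set.univ)
    (A' := ∅) (fun _ _ _ => Set.mem_univ _) (fun _ _ h => h.elim) hc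
  have e1 : atTime (ex8H d) 1 = ContinuousMap.id (Fin d → ℝ) := by
    ext x i
    simp [atTime, ex8H]
  rw [e1, push_id] at h2
  refine CubeHom.Bd.congr h2 (CubeHom.Bd.of_mem_Q ?_)
  refine map_mem_of_supported (push (atTime (ex8H d) 0)) _ (fun σ hσ => ?_) hc.1
  rw [push_single]
  refine mem_Q_single (hσ.1.comp _) (Or.inr ⟨0, by push_cast; omega, ?_⟩) _
  intro x y _
  change ((0 : I) : ℝ) • σ x = ((0 : I) : ℝ) • σ y
  simp

private theorem ex8_acyc {d : ℕ} {S : Set F} (hS : IsOpen S) (φ : S ≃ₜ (Fin d → ℝ)) {j : ℤ}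
    (hj : 1 ≤ j) {c : Ch R F} (hc : c ∈ CubeHom.Z R j (Set.range (Loc.chartMap φ)) ∅) :
    CubeHom.Bd R j (Set.range (Loc.chartMap φ)) ∅ c := by
  have hi := Loc.chartMap_openEmbedding hS φ
  have hC := hc.1
  rw [← map_push_C hi.isInducing hi.injective] at hC
  obtain ⟨c0, h0, rfl⟩ := hC
  have h1 : c0 ∈ CubeHom.Z R j Set.univ (∅ : Set (Fin d → ℝ)) := by
    refine ⟨h0, ?_⟩
    have h2 : CubeHom.bd j (push (Loc.chartMap φ) c0) ∈ CubeHom.Q R (j - 1) ∅ := hc.2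
    rw [bd_push, push_mem_Q_iff hi.injective, Set.preimage_empty] at h2
    exact h2
  exact (ex8_euc hj h1).push (fun x _ => Set.mem_range_self x) (fun x hx => hx.elim)

/-- The cube in the chart. -/
private noncomputable def ex8b {d : ℕ} {S : Set F} (φ : S ≃ₜ (Fin d → ℝ)) :
    C(Fin d → I, F) :=
  (Loc.chartMap φ).comp ⟨fun v i => 2 * ((v i : I) : ℝ) - 1, by fun_prop⟩

private theorem ex8_push_b {d : ℕ} {S : Set F} (φ : S ≃ₜ (Fin d → ℝ)) :
    push (ex8b φ) (Finsupp.single (idCube d) 1) = locCh R φ := by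
  rw [push_single]
  rfl

end ex8

/-- The exceptional case is impossible. -/
theorem exc_false {F : Type} [TopologicalSpace F] [T2Space F] [CompactSpace F]
    [PathConnectedSpace F] {E : Type} [NormedAddCommGroup E] [NormedSpace ℝ E] (e : F → E)
    (he : Topology.IsEmbedding e) {d k : ℕ} (hd : LocEuc d F) (hk : 2 ≤ k)
    (hdk : d = 2 * k + 1) (hTC : TC0le F 2) {ξ : Ch ℤ F} (hξ : ξ ∈ (CS.top F).Z ℤ (d : ℤ))
    (hloc : ∀ x : F, ∀ w ∈ CubeHom.Z ℤ (d : ℤ) Set.univ ({x}ᶜ : Set F),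
      ∃ r : ℤ, CubeHom.Bd ℤ (d : ℤ) Set.univ ({x}ᶜ : Set F) (w - r • ξ))
    (hgen : ∀ c ∈ (CS.top F).Z (ZMod 2) (d : ℤ), ∃ r : ZMod 2,
      (CS.top F).Bd (ZMod 2) (d : ℤ) (c - r • castCh (ZMod 2) ξ))
    (hab : ∀ j : ℤ, (d : ℤ) < j → (CS.top F).Hz (ZMod 2) j)
    (hH : ∀ j : ℕ, 0 < j → j < d → j ≠ k → j ≠ k + 1 → (CS.top F).Hz (ZMod 2) (j : ℤ))
    (hsq : SqZ (CS.top F) (2 * k - 1))
    {x x' : C(Cb, F) → ZMod 2} (hx : (CS.top F).Coc k x) (hx' : (CS.top F).Coc k x')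
    (h1 : Finsupp.linearCombination (ZMod 2) (cup AddMonoidHom.mul k (k + 1) x (sq1 k x'))
      (castCh (ZMod 2) ξ) = 1) : False := by
  obtain ⟨x0⟩ : Nonempty F := inferInstance
  obtain ⟨S, hS, hx0, ⟨φ⟩⟩ := hd x0
  obtain ⟨SM⟩ := exists_susM F e he
  have hK : IsCompact (Metric.closedBall (0 : Fin d → ℝ) (1 / 2)) := isCompact_closedBall _ _
  have hKc : Convex ℝ (Metric.closedBall (0 : Fin d → ℝ) (1 / 2)) := convex_closedBall _ _
  have hKne : (Metric.closedBall (0 : Fin d → ℝ) (1 / 2)).Nonempty :=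
    ⟨0, Metric.mem_closedBall_self (by norm_num)⟩
  have hK1 : ∀ x ∈ Metric.closedBall (0 : Fin d → ℝ) (1 / 2), ∀ i, -1 < x i ∧ x i < 1 := by
    intro x hx i
    rw [mem_closedBall_zero_iff] at hx
    have h := (norm_le_pi_norm x i).trans hx
    rw [Real.norm_eq_abs, abs_le] at h
    constructor <;> linarith [h.1, h.2]
  have h0 : (0 : Fin d → ℝ) ∈ Metric.closedBall (0 : Fin d → ℝ) (1 / 2) :=
    Metric.mem_closedBall_self (by norm_num)
  have hB' : IsOpen (inChart φ (Metric.closedBall (0 : Fin d → ℝ) (1 / 2)))ᶜ :=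
    Loc.isOpen_compl_inChart φ hK
  have hξ' : ξ ∈ CubeHom.Z ℤ (d : ℤ) Set.univ
      (inChart φ (Metric.closedBall (0 : Fin d → ℝ) (1 / 2)))ᶜ :=
    Z_mono subset_rfl (Set.empty_subset _) (ex8_top_Z.1 hξ)
  obtain ⟨ε, hε⟩ := loc_gen hS φ hK hKc hKne hK1 hξ'
  -- the sign
  have hs : (inChart φ {(0 : Fin d → ℝ)}) = {Loc.chartMap φ 0} := by
    unfold inChart
    rw [Set.image_singleton]
    rfl
  have hsub : (inChart φ (Metric.closedBall (0 : Fin d → ℝ) (1 / 2)))ᶜ ⊆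
      (inChart φ {(0 : Fin d → ℝ)})ᶜ := by
    rw [Set.compl_subset_compl]
    exact Set.image_mono (Set.singleton_subset_iff.2 h0)
  have h01 : ∀ x ∈ ({(0 : Fin d → ℝ)} : Set (Fin d → ℝ)), ∀ i, -1 < x i ∧ x i < 1 := by
    rintro x rfl i
    simp
  have hunit : ∃ r : ℤ, r * ε = 1 := by
    have hw : locCh ℤ φ ∈ CubeHom.Z ℤ (d : ℤ) Set.univ ({Loc.chartMap φ 0}ᶜ : Set F) := by
      rw [← hs]
      exact locCh_mem φ h01
    obtain ⟨r, hr⟩ := hloc (Loc.chartMap φ 0) _ hw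
    refine ⟨r, ?_⟩
    rw [← hs] at hr
    have h1 := (hε.mono subset_rfl hsub).smul r
    rw [smul_sub] at h1
    have h2 := hr.trans h1
    have h3 : CubeHom.Bd ℤ (d : ℤ) Set.univ (inChart φ {(0 : Fin d → ℝ)})ᶜ
        ((1 - r * ε) • locCh ℤ φ) := by
      rw [sub_smul, one_smul, mul_smul]
      exact h2
    have h4 := loc_free hS φ isCompact_singleton (convex_singleton _) (Set.singleton_nonempty _)
      h01 h3
    linarith
  have hε1 : ε = 1 ∨ ε = -1 := by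
    obtain ⟨r, hr⟩ := hunit
    exact Int.isUnit_iff.1 (IsUnit.of_mul_eq_one_right r hr)
  have hp : ∀ (R : Type) [CommRing R],
      push (ex8b φ) (Finsupp.single (idCube d) 1) = locCh R φ := fun R _ => ex8_push_b φ
  have hne : ¬ (CS.top F).Bd (ZMod 2) (d : ℤ) (castCh (ZMod 2) ξ) := by
    intro h
    rw [ex8_top_Bd] at h
    have h1 := h.mono subset_rfl (Set.empty_subset
      (inChart φ (Metric.closedBall (0 : Fin d → ℝ) (1 / 2)))ᶜ)
    have h2 := CubeHom.Bd.castCh (R := ZMod 2) hε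
    rw [map_sub, castCh_smul] at h2
    have h3 := h1.sub h2
    rw [sub_sub_cancel] at h3
    have h4 : CubeHom.castCh (ZMod 2) (locCh ℤ φ) = locCh (ZMod 2) φ := by
      unfold locCh
      rw [castCh_single, Int.cast_one]
    rw [h4] at h3
    have h5 := loc_free hS φ hK hKc hKne hK1 h3
    rcases hε1 with rfl | rfl
    · exact absurd h5 (by decide)
    · exact absurd h5 (by decide)
  have key := SM
  first
  | refine SusM.exc_false SM (B := Set.range (Loc.chartMap φ)) (ex8b φ)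
      (c := fun _ => ⟨1 / 2, by norm_num, by norm_num⟩) hk hdk hTC
      (Loc.chartMap_openEmbedding hS φ).isOpen_range hB' ?_ ?_ ?_ ?_ ?_ hξ hε1 ?_ hgen hne hab hH
      hsq hx hx' h1
  | refine SusM.exc_false (B := Set.range (Loc.chartMap φ)) (ex8b φ)
      (c := fun _ => ⟨1 / 2, by norm_num, by norm_num⟩) hk hdk hTC
      (Loc.chartMap_openEmbedding hS φ).isOpen_range hB' ?_ ?_ ?_ ?_ ?_ hξ hε1 ?_ hgen hne hab hH
      hsq hx hx' h1
  · exact fun j hj c hc => ex8_acyc hS φ hj hc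
  · rintro v i hv ⟨x, hx, hxv⟩
    have h2 : x = fun i => 2 * ((v i : I) : ℝ) - 1 := Loc.chartMap_injective φ hxv
    have h3 := hK1 x hx i
    rw [h2] at h3
    change -1 < 2 * ((v i : I) : ℝ) - 1 ∧ 2 * ((v i : I) : ℝ) - 1 < 1 at h3
    rcases hv with hv | hv
    · rw [hv] at h3
      have := h3.1
      norm_num at this
    · rw [hv] at h3
      have := h3.2
      norm_num at this
  · exact ⟨_, rfl⟩
  · intro j hj c hc
    rw [ex8_rel_Bd]
    exact loc_vanish hS φ hK hKc hKne hj (ex8_rel_Z.1 hc)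
  · intro r hr
    rw [ex8_rel_Bd, hp] at hr
    exact loc_free hS φ hK hKc hKne hK1 hr
  · rw [ex8_rel_Bd, hp]
    exact hε

end Pool.Agent.TC
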