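import Pool.Agent.Lib.TC.ExcD

/-!
# The exceptional case: maps of the blocks
-/

namespace Pool.Agent.TC

open CubeHom

section

variable {F : Type} [TopologicalSpace F] (SM : SusM F) {d : ℕ} (b : C(Fin d → I, F))

variable {B B' : Set F} {x0 : F}

namespace EX1

theorem low_mem {τ : SM.T} (h : SM.h τ = 0) : τ ∈ SM.P B := by
  refine Or.inl ?_
  rw [h]
  norm_num

theorem high_mem {τ : SM.T} (h : SM.h τ = 1) : τ ∈ SM.P B := by
  refine Or.inr (Or.inl ?_)
  rw [h]
  norm_num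

theorem q_zero_mem (x : F) : SM.q (0, x) ∈ SM.P B := low_mem SM (SM.h_q 0 x)

theorem q_one_mem (x : F) : SM.q (1, x) ∈ SM.P B := high_mem SM (SM.h_q 1 x)

theorem q_mem (t : I) {x : F} (hx : x ∈ B) : SM.q (t, x) ∈ SM.P B := by
  by_cases h0 : t = 0
  · rw [h0]
    exact q_zero_mem SM x
  · by_cases h1 : t = 1
    · rw [h1]
      exact q_one_mem SM x
    · refine Or.inr (Or.inr ?_)
      rw [SM.dir_q t x (lt_of_le_of_ne t.2.1 fun h => h0 h.symm)
        (lt_of_le_of_ne t.2.2 fun h => h1 h)]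
      exact hx

theorem clm_coe (t : I) : clm (t : ℝ) = t := Set.projIcc_val zero_le_one t

theorem Γ_low {r : ℝ} (h0 : 0 ≤ r) (h1 : r ≤ 1) (p : F × F) :
    SM.Γ (r, p) = SM.q (⟨r, h0, h1⟩, p.1) := by
  change (if r ≤ 1 then SM.q (clm r, p.1) else SM.q (clm (2 - r), p.2)) = _
  rw [if_pos h1]
  have := clm_coe ⟨r, h0, h1⟩
  exact congrArg (fun t => SM.q (t, p.1)) this

theorem Γ_high {r : ℝ} (h1 : 1 < r) (h2 : r ≤ 2) (p : F × F) :
    SM.Γ (r, p) = SM.q (⟨2 - r, by linarith, by linarith⟩, p.2) := by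
  change (if r ≤ 1 then SM.q (clm r, p.1) else SM.q (clm (2 - r), p.2)) = _
  rw [if_neg (not_le.2 h1)]
  have := clm_coe ⟨2 - r, by linarith, by linarith⟩
  exact congrArg (fun t => SM.q (t, p.2)) this

theorem D_apply (t : I) (p : F × F) : SM.D (t, p) = SM.Γ (2 * (t : ℝ), p) := rfl

theorem D_zero_mem (p : F × F) : SM.D (0, p) ∈ SM.P B := by
  rw [D_apply, Γ_low SM (by norm_num) (by norm_num)]
  refine low_mem SM ?_
  rw [SM.h_q]
  ext
  norm_num

theorem D_one_mem (p : F × F) : SM.D (1, p) ∈ SM.P B := by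
  rw [D_apply, Γ_high SM (by norm_num) (by norm_num)]
  refine low_mem SM ?_
  rw [SM.h_q]
  ext
  norm_num

/-- Up over a point of `B`. -/
theorem D_up (t : I) {p : F × F} (hp : p.1 ∈ B) : SM.D (clm ((t : ℝ) / 2), p) ∈ SM.P B := by
  have h : ((clm ((t : ℝ) / 2) : I) : ℝ) = (t : ℝ) / 2 := by
    have := clm_coe ⟨(t : ℝ) / 2, by linarith [t.2.1], by linarith [t.2.2]⟩
    exact congrArg Subtype.val this
  rw [D_apply, h, Γ_low SM (by linarith [t.2.1]) (by linarith [t.2.2])]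
  exact q_mem SM _ hp

/-- Down over a point of `B`. -/
theorem D_down (t : I) {p : F × F} (hp : p.2 ∈ B) : SM.D (clm (1 - (t : ℝ) / 2), p) ∈ SM.P B := by
  have h : ((clm (1 - (t : ℝ) / 2) : I) : ℝ) = 1 - (t : ℝ) / 2 := by
    have := clm_coe ⟨1 - (t : ℝ) / 2, by linarith [t.2.2], by linarith [t.2.1]⟩
    exact congrArg Subtype.val this
  rw [D_apply, h]
  rcases lt_or_ge (t : ℝ) 1 with h1 | h1
  · rw [Γ_high SM (by linarith) (by linarith [t.2.1])]
    exact q_mem SM _ hp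
  · have h2 : (t : ℝ) = 1 := le_antisymm t.2.2 h1
    rw [Γ_low SM (by linarith) (by linarith)]
    refine high_mem SM ?_
    rw [SM.h_q]
    ext
    change 2 * (1 - (t : ℝ) / 2) = 1
    rw [h2]
    norm_num

/-- In the middle. -/
theorem D_half_mem (p : F × F) : SM.D (clm (1 / 2), p) ∈ SM.P B := by
  have h : ((clm (1 / 2) : I) : ℝ) = 1 / 2 := by
    have := clm_coe ⟨1 / 2, by norm_num, by norm_num⟩
    exact congrArg Subtype.val this
  rw [D_apply, h, Γ_low SM (by norm_num) (by norm_num)]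
  refine high_mem SM ?_
  rw [SM.h_q]
  ext
  change (2 : ℝ) * (1 / 2) = 1
  norm_num

theorem sys_nul {τ : C(Cb, SM.T)} (h : ∀ u, τ u ∈ SM.P B) : (SM.sys B).nul τ :=
  Or.inr ⟨_, rfl, h⟩

theorem sysQ_ok (ω : C(Cb, SM.T × (SM.T × SM.T))) : (SM.sysQ B B').ok ω :=
  ⟨trivial, trivial, trivial⟩

theorem nul1 {ω : C(Cb, SM.T × (SM.T × SM.T))} (h : ∀ u, (ω u).1 ∈ SM.P B) :
    (SM.sysQ B B').nul ω := Or.inl (sys_nul SM h)

theorem nul2 {ω : C(Cb, SM.T × (SM.T × SM.T))} (h : ∀ u, (ω u).2.1 ∈ SM.P B) :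
    (SM.sysQ B B').nul ω := Or.inr (Or.inl (sys_nul SM h))

theorem nul3 {ω : C(Cb, SM.T × (SM.T × SM.T))} (h : ∀ u, (ω u).2.2 ∈ SM.P B') :
    (SM.sysQ B B').nul ω := Or.inr (Or.inr (sys_nul SM h))

theorem YR_face {σ : C(Cb, (Fin 3 → I) × (F × F))} (i : Fin 3)
    (h : (∀ u, (σ u).1 i = 0) ∨ (∀ u, (σ u).1 i = 1)) : (SM.YR B').nul σ := Or.inl ⟨i, h⟩

theorem YR_Ro {σ : C(Cb, (Fin 3 → I) × (F × F))}
    (h : ∀ u, SM.D ((σ u).1 2, (σ u).2) ∈ SM.P B') : (SM.YR B').nul σ :=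
  Or.inr ⟨_, rfl, h⟩

end EX1

theorem SusM.D3_maps : (SM.YR B').Maps (SM.sysQ B B') SM.D3 := by
  refine ⟨fun σ _ => EX1.sysQ_ok SM _, fun σ _ h => ?_⟩
  rcases h with ⟨i, h⟩ | ⟨V, hV, h⟩
  · have key : ∀ {A : Set F} (u : Cb), SM.D ((σ u).1 i, (σ u).2) ∈ SM.P A := by
      intro A u
      rcases h with h | h
      · rw [h u]
        exact EX1.D_zero_mem SM _
      · rw [h u]
        exact EX1.D_one_mem SM _
    fin_cases i
    · exact EX1.nul1 SM key
    · exact EX1.nul2 SM key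
    · exact EX1.nul3 SM key
  · rw [Set.mem_singleton_iff] at hV
    subst hV
    exact EX1.nul3 SM h

theorem blk1_maps (hb : ∀ v i, (v i = 0 ∨ v i = 1) → b v ∈ B') :
    (CS.faces (3 + d) F).Maps (SM.YR B') (blk1 b) := by
  refine ⟨fun σ _ => trivial, fun σ _ h => ?_⟩
  obtain ⟨i, h⟩ := h
  induction i using Fin.addCases with
  | left i =>
    fin_cases i
    · exact EX1.YR_face SM 0 h
    · exact EX1.YR_face SM 1 h
    · rcases h with h | h
      · refine EX1.YR_face SM 2 (Or.inl fun u => ?_)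
        change clm (((σ u).1 (Fin.castAdd d 2) : ℝ) / 2) = 0
        have h' : (σ u).1 (Fin.castAdd d 2) = 0 := h u
        rw [h']
        have := EX1.clm_coe 0
        simpa using this
      · refine EX1.YR_Ro SM fun u => ?_
        change SM.D (clm (((σ u).1 (Fin.castAdd d 2) : ℝ) / 2), _) ∈ _
        have h' : (σ u).1 (Fin.castAdd d 2) = 1 := h u
        rw [h']
        exact EX1.D_half_mem SM _
  | right j =>
    refine EX1.YR_Ro SM fun u => ?_
    refine EX1.D_up SM _ ?_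
    refine hb _ j ?_
    rcases h with h | h
    · exact Or.inl (h u)
    · exact Or.inr (h u)

theorem blk2_maps (hb : ∀ v i, (v i = 0 ∨ v i = 1) → b v ∈ B') :
    (CS.faces (3 + d) F).Maps (SM.YR B') (blk2 b) := by
  refine ⟨fun σ _ => trivial, fun σ _ h => ?_⟩
  obtain ⟨i, h⟩ := h
  induction i using Fin.addCases with
  | left i =>
    fin_cases i
    · exact EX1.YR_face SM 0 h
    · exact EX1.YR_face SM 1 h
    · rcases h with h | h
      · refine EX1.YR_face SM 2 (Or.inr fun u => ?_)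
        change clm (1 - ((σ u).1 (Fin.castAdd d 2) : ℝ) / 2) = 1
        have h' : (σ u).1 (Fin.castAdd d 2) = 0 := h u
        rw [h']
        have := EX1.clm_coe 1
        simpa using this
      · refine EX1.YR_Ro SM fun u => ?_
        change SM.D (clm (1 - ((σ u).1 (Fin.castAdd d 2) : ℝ) / 2), _) ∈ _
        have h' : (σ u).1 (Fin.castAdd d 2) = 1 := h u
        rw [h']
        have e : (1 : ℝ) - ((1 : I) : ℝ) / 2 = 1 / 2 := by
          change (1 : ℝ) - 1 / 2 = 1 / 2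
          norm_num
        rw [e]
        exact EX1.D_half_mem SM _
  | right j =>
    refine EX1.YR_Ro SM fun u => ?_
    refine EX1.D_down SM _ ?_
    refine hb _ j ?_
    rcases h with h | h
    · exact Or.inl (h u)
    · exact Or.inr (h u)

theorem SusM.gg_maps (hb : ∀ v i, (v i = 0 ∨ v i = 1) → b v ∈ B') :
    (CS.faces (3 + d) F).Maps (SM.sysQ B B') (SM.gg b) := by
  refine ⟨fun σ _ => EX1.sysQ_ok SM _, fun σ _ h => ?_⟩
  obtain ⟨i, h⟩ := h
  induction i using Fin.addCases with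
  | left i =>
    have key : ∀ {A : Set F} (u : Cb) (x : F), SM.q ((σ u).1 (Fin.castAdd d i), x) ∈ SM.P A := by
      intro A u x
      rcases h with h | h
      · rw [h u]
        exact EX1.q_zero_mem SM _
      · rw [h u]
        exact EX1.q_one_mem SM _
    fin_cases i
    · exact EX1.nul1 SM fun u => key u _
    · exact EX1.nul2 SM fun u => key u _
    · exact EX1.nul3 SM fun u => key u _
  | right j =>
    refine EX1.nul3 SM fun u => ?_
    refine EX1.q_mem SM _ (hb _ j ?_)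
    rcases h with h | h
    · exact Or.inl (h u)
    · exact Or.inr (h u)

end

end Pool.Agent.TC
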