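import Pool.Agent.Lib.TC.Exc1

/-!
# The exceptional case: homotopies of the blocks
-/

namespace Pool.Agent.TC

open CubeHom

namespace EX2Aux

theorem clm_coe (t : I) : clm (t : ℝ) = t := Set.projIcc_val zero_le_one t

theorem clm_zero : clm 0 = 0 := Set.projIcc_left zero_le_one

theorem clm_one : clm 1 = 1 := Set.projIcc_right zero_le_one

theorem clm_le {r : ℝ} (h : r ≤ 0) : clm r = 0 := Set.projIcc_of_le_left zero_le_one h

theorem clm_ge {r : ℝ} (h : 1 ≤ r) : clm r = 1 := Set.projIcc_of_right_le zero_le_one h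

/-- The first half of the time. -/
noncomputable def z1 : C(I, I) := ⟨fun s => clm (2 * s), continuous_clm.comp (by fun_prop)⟩

/-- The second half of the time. -/
noncomputable def z2 : C(I, I) := ⟨fun s => clm (2 * s - 1), continuous_clm.comp (by fun_prop)⟩

theorem z1_zero : z1 0 = 0 := clm_le (by simp)

theorem z2_zero : z2 0 = 0 := clm_le (by simp)

theorem z1_one : z1 1 = 1 := clm_ge (by simp)

theorem z2_one : z2 1 = 1 := clm_ge (by simp; norm_num)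

theorem z_or (s : I) : z2 s = 0 ∨ z1 s = 1 := by
  rcases le_total (2 * (s : ℝ)) 1 with h | h
  · left; exact clm_le (by linarith)
  · right; exact clm_ge h

/-- The contraction of the cube to the point `c`. -/
noncomputable def cc {d : ℕ} (c : Fin d → I) : C(I × (Fin d → I), Fin d → I) where
  toFun p := fun i => clm ((1 - (p.1 : ℝ)) * (p.2 i : ℝ) + (p.1 : ℝ) * (c i : ℝ))
  continuous_toFun := continuous_pi fun i => continuous_clm.comp (by fun_prop)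

theorem cc_zero {d : ℕ} (c v : Fin d → I) : cc c (0, v) = v := by
  funext i
  change clm ((1 - ((0 : I) : ℝ)) * (v i : ℝ) + ((0 : I) : ℝ) * (c i : ℝ)) = v i
  rw [Set.Icc.coe_zero, sub_zero, one_mul, zero_mul, add_zero, clm_coe]

theorem cc_one {d : ℕ} (c v : Fin d → I) : cc c (1, v) = c := by
  funext i
  change clm ((1 - ((1 : I) : ℝ)) * (v i : ℝ) + ((1 : I) : ℝ) * (c i : ℝ)) = c i
  rw [Set.Icc.coe_one, sub_self, zero_mul, one_mul, zero_add, clm_coe]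

section

variable {F : Type} [TopologicalSpace F] (SM : SusM F) {d : ℕ} (b : C(Fin d → I, F))

theorem gam_le {r : ℝ} (x y : F) (h : r ≤ 1) : SM.Γ (r, (x, y)) = SM.q (clm r, x) :=
  if_pos h

theorem gam_ge {r : ℝ} (x y : F) (h : 1 ≤ r) : SM.Γ (r, (x, y)) = SM.q (clm (2 - r), y) := by
  rcases h.lt_or_eq with h | h
  · exact if_neg (not_le.2 h)
  · subst h
    rw [gam_le SM x y le_rfl, clm_one, SM.q1, show (2 : ℝ) - 1 = 1 by norm_num, clm_one, SM.q1]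

variable {SM}

theorem mem_P_zero (B : Set F) (x : F) : SM.q (0, x) ∈ SM.P B := by
  left
  rw [SM.h_q]
  norm_num

theorem mem_P_one (B : Set F) (x : F) : SM.q (1, x) ∈ SM.P B := by
  right; left
  rw [SM.h_q]
  norm_num

theorem mem_P_of {B : Set F} {x : F} (hx : x ∈ B) (t : I) : SM.q (t, x) ∈ SM.P B := by
  rcases eq_or_ne t 0 with rfl | h0
  · exact mem_P_zero B x
  rcases eq_or_ne t 1 with rfl | h1
  · exact mem_P_one B x
  right; right
  rw [SM.dir_q _ _ (unitInterval.pos_iff_ne_zero.2 h0) (unitInterval.lt_one_iff_ne_one.2 h1)]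
  exact hx

theorem mem_P_end {B : Set F} {t : I} (ht : t = 0 ∨ t = 1) (x : F) : SM.q (t, x) ∈ SM.P B := by
  rcases ht with rfl | rfl
  · exact mem_P_zero B x
  · exact mem_P_one B x

theorem sys_nul {B : Set F} {τ : C(Cb, SM.T)} (h : ∀ u, τ u ∈ SM.P B) : (SM.sys B).nul τ :=
  Or.inr ⟨SM.P B, rfl, h⟩

variable {B B' : Set F}

theorem maps_of (H : C(I × ((Fin (3 + d) → I) × F), SM.T × (SM.T × SM.T)))
    (h0 : ∀ s t x, (hd3 t 0 = 0 ∨ hd3 t 0 = 1) → (H (s, (t, x))).1 ∈ SM.P B)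
    (h1 : ∀ s t x, (hd3 t 1 = 0 ∨ hd3 t 1 = 1) → (H (s, (t, x))).2.1 ∈ SM.P B)
    (h2 : ∀ s t x, (hd3 t 2 = 0 ∨ hd3 t 2 = 1) → (H (s, (t, x))).2.2 ∈ SM.P B')
    (h3 : ∀ s t x i, (tl3 t i = 0 ∨ tl3 t i = 1) → (H (s, (t, x))).2.2 ∈ SM.P B') :
    (CS.faces (3 + d) F).cyl.Maps (SM.sysQ B B') H := by
  refine ⟨fun σ _ => ⟨trivial, trivial, trivial⟩, ?_⟩
  rintro σ - ⟨i, hi⟩
  have hi' : ∀ u, (σ u).2.1 i = 0 ∨ (σ u).2.1 i = 1 := by
    rcases hi with hi | hi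
    · exact fun u => Or.inl (hi u)
    · exact fun u => Or.inr (hi u)
  clear hi
  induction i using Fin.addCases with
  | left i =>
    fin_cases i
    · exact Or.inl (sys_nul fun u => h0 _ _ _ (hi' u))
    · exact Or.inr (Or.inl (sys_nul fun u => h1 _ _ _ (hi' u)))
    · exact Or.inr (Or.inr (sys_nul fun u => h2 _ _ _ (hi' u)))
  | right i => exact Or.inr (Or.inr (sys_nul fun u => h3 _ _ _ i (hi' u)))

variable (SM)

/-- The homotopy of the second block. -/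
noncomputable def H2 (c : Fin d → I) :
    C(I × ((Fin (3 + d) → I) × F), SM.T × (SM.T × SM.T)) where
  toFun p := (SM.Γ ((2 - (z2 p.1 : ℝ)) * (hd3 p.2.1 0 : ℝ), (p.2.2, b (cc c (z1 p.1, tl3 p.2.1)))),
    (SM.Γ ((2 - (z2 p.1 : ℝ)) * (hd3 p.2.1 1 : ℝ), (p.2.2, b (cc c (z1 p.1, tl3 p.2.1)))),
      SM.q (hd3 p.2.1 2, b (tl3 p.2.1))))
  continuous_toFun := by
    have e0 : Continuous fun p : I × ((Fin (3 + d) → I) × F) => hd3 p.2.1 0 :=
      (continuous_hd3 0).comp (by fun_prop)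
    have e1 : Continuous fun p : I × ((Fin (3 + d) → I) × F) => hd3 p.2.1 1 :=
      (continuous_hd3 1).comp (by fun_prop)
    have e2 : Continuous fun p : I × ((Fin (3 + d) → I) × F) => hd3 p.2.1 2 :=
      (continuous_hd3 2).comp (by fun_prop)
    have e3 : Continuous fun p : I × ((Fin (3 + d) → I) × F) => tl3 p.2.1 :=
      continuous_tl3.comp (by fun_prop)
    fun_prop

/-- The homotopy of the first block. -/
noncomputable def H1 (c : Fin d → I) :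
    C(I × ((Fin (3 + d) → I) × F), SM.T × (SM.T × SM.T)) where
  toFun p := (SM.Γ ((z2 p.1 : ℝ) + (2 - (z2 p.1 : ℝ)) * (hd3 p.2.1 0 : ℝ),
      (b (cc c (z1 p.1, tl3 p.2.1)), p.2.2)),
    (SM.Γ ((z2 p.1 : ℝ) + (2 - (z2 p.1 : ℝ)) * (hd3 p.2.1 1 : ℝ),
      (b (cc c (z1 p.1, tl3 p.2.1)), p.2.2)),
      SM.q (hd3 p.2.1 2, b (tl3 p.2.1))))
  continuous_toFun := by
    have e0 : Continuous fun p : I × ((Fin (3 + d) → I) × F) => hd3 p.2.1 0 :=
      (continuous_hd3 0).comp (by fun_prop)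
    have e1 : Continuous fun p : I × ((Fin (3 + d) → I) × F) => hd3 p.2.1 1 :=
      (continuous_hd3 1).comp (by fun_prop)
    have e2 : Continuous fun p : I × ((Fin (3 + d) → I) × F) => hd3 p.2.1 2 :=
      (continuous_hd3 2).comp (by fun_prop)
    have e3 : Continuous fun p : I × ((Fin (3 + d) → I) × F) => tl3 p.2.1 :=
      continuous_tl3.comp (by fun_prop)
    fun_prop

theorem gam_mem2 {c : Fin d → I} (hc : b c ∈ B) (s : I) {t : I} (ht : t = 0 ∨ t = 1)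
    (v : Fin d → I) (x : F) :
    SM.Γ ((2 - (z2 s : ℝ)) * (t : ℝ), (x, b (cc c (z1 s, v)))) ∈ SM.P B := by
  rcases ht with rfl | rfl
  · rw [Set.Icc.coe_zero, mul_zero, gam_le SM _ _ zero_le_one, clm_zero]
    exact mem_P_zero B x
  · have h1 : (z2 s : ℝ) ≤ 1 := (z2 s).2.2
    rw [Set.Icc.coe_one, mul_one, gam_ge SM _ _ (by linarith), sub_sub_cancel, clm_coe]
    rcases z_or s with h | h
    · rw [h]
      exact mem_P_zero B _
    · rw [h, cc_one]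
      exact mem_P_of hc _

theorem gam_mem1 {c : Fin d → I} (hc : b c ∈ B) (s : I) {t : I} (ht : t = 0 ∨ t = 1)
    (v : Fin d → I) (x : F) :
    SM.Γ ((z2 s : ℝ) + (2 - (z2 s : ℝ)) * (t : ℝ), (b (cc c (z1 s, v)), x)) ∈ SM.P B := by
  rcases ht with rfl | rfl
  · have h1 : (z2 s : ℝ) ≤ 1 := (z2 s).2.2
    rw [Set.Icc.coe_zero, mul_zero, add_zero, gam_le SM _ _ h1, clm_coe]
    rcases z_or s with h | h
    · rw [h]
      exact mem_P_zero B _
    · rw [h, cc_one]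
      exact mem_P_of hc _
  · rw [Set.Icc.coe_one, mul_one, add_sub_cancel, gam_ge SM _ _ one_le_two, sub_self, clm_zero]
    exact mem_P_zero B x

theorem rev_apply (t : Fin (3 + d) → I) (x : F) : ((SM.gg b).comp
    ((revC (3 + d) F (Fin.castAdd d 0)).comp (revC (3 + d) F (Fin.castAdd d 1)))) (t, x) =
    (SM.q (unitInterval.symm (hd3 t 0), x), (SM.q (unitInterval.symm (hd3 t 1), x),
      SM.q (hd3 t 2, b (tl3 t)))) := by
  have hne : ∀ i j : Fin 3, i ≠ j → Fin.castAdd d i ≠ Fin.castAdd d j :=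
    fun i j h h' => h (Fin.castAdd_injective _ _ h')
  have hne' : ∀ (i : Fin 3) (j : Fin d), Fin.natAdd 3 j ≠ Fin.castAdd d i := by
    intro i j h
    have h1 := congrArg Fin.val h
    simp only [Fin.val_natAdd, Fin.val_castAdd] at h1
    omega
  obtain ⟨t1, ht1⟩ : ∃ t1, t1 = Function.update t (Fin.castAdd d 1)
    (unitInterval.symm (t (Fin.castAdd d 1))) := ⟨_, rfl⟩
  obtain ⟨t2, ht2⟩ : ∃ t2, t2 = Function.update t1 (Fin.castAdd d 0)
    (unitInterval.symm (t1 (Fin.castAdd d 0))) := ⟨_, rfl⟩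
  have e : ((SM.gg b).comp
      ((revC (3 + d) F (Fin.castAdd d 0)).comp (revC (3 + d) F (Fin.castAdd d 1)))) (t, x) =
      (SM.q (hd3 t2 0, x), (SM.q (hd3 t2 1, x), SM.q (hd3 t2 2, b (tl3 t2)))) := by
    rw [ht2, ht1]
    rfl
  have e0 : hd3 t2 0 = unitInterval.symm (hd3 t 0) := by
    change t2 (Fin.castAdd d 0) = _
    rw [ht2, Function.update_self, ht1, Function.update_of_ne (hne 0 1 (by decide))]
    rfl
  have e1 : hd3 t2 1 = unitInterval.symm (hd3 t 1) := by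
    change t2 (Fin.castAdd d 1) = _
    rw [ht2, Function.update_of_ne (hne 1 0 (by decide)), ht1, Function.update_self]
    rfl
  have e2 : hd3 t2 2 = hd3 t 2 := by
    change t2 (Fin.castAdd d 2) = _
    rw [ht2, Function.update_of_ne (hne 2 0 (by decide)), ht1,
      Function.update_of_ne (hne 2 1 (by decide))]
    rfl
  have e3 : tl3 t2 = tl3 t := by
    funext j
    change t2 (Fin.natAdd 3 j) = _
    rw [ht2, Function.update_of_ne (hne' 0 j), ht1, Function.update_of_ne (hne' 1 j)]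
    rfl
  rw [e, e0, e1, e2, e3]

theorem D3_apply (t : Fin 3 → I) (x y : F) : SM.D3 (t, (x, y)) =
    (SM.Γ (2 * (t 0 : ℝ), (x, y)), (SM.Γ (2 * (t 1 : ℝ), (x, y)), SM.Γ (2 * (t 2 : ℝ), (x, y)))) :=
  rfl

end

end EX2Aux

section

variable {F : Type} [TopologicalSpace F] (SM : SusM F) {d : ℕ} (b : C(Fin d → I, F))
variable {B B' : Set F} {x0 : F}

open EX2Aux in
theorem SusM.blk2_homotopy (hb : ∀ v i, (v i = 0 ∨ v i = 1) → b v ∈ B') {c : Fin d → I}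
    (hc : b c ∈ B) :
    ∃ H : C(I × ((Fin (3 + d) → I) × F), SM.T × (SM.T × SM.T)),
      (CS.faces (3 + d) F).cyl.Maps (SM.sysQ B B') H ∧
      atTime H 0 = SM.D3.comp (blk2 b) ∧ atTime H 1 = SM.gg b := by
  refine ⟨H2 SM b c, maps_of _ (fun s t x ht => gam_mem2 SM b hc s ht _ x)
    (fun s t x ht => gam_mem2 SM b hc s ht _ x) (fun s t x ht => mem_P_end ht _)
    (fun s t x i ht => mem_P_of (hb _ i ht) _), ?_, ?_⟩
  · refine ContinuousMap.ext fun p => ?_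
    obtain ⟨t, x⟩ := p
    change (SM.Γ ((2 - (z2 0 : ℝ)) * (hd3 t 0 : ℝ), (x, b (cc c (z1 0, tl3 t)))),
      (SM.Γ ((2 - (z2 0 : ℝ)) * (hd3 t 1 : ℝ), (x, b (cc c (z1 0, tl3 t)))),
        SM.q (hd3 t 2, b (tl3 t)))) = SM.D3 (![hd3 t 0, hd3 t 1, clm (1 - (hd3 t 2 : ℝ) / 2)],
          (x, b (tl3 t)))
    rw [D3_apply, z1_zero, z2_zero, cc_zero, Set.Icc.coe_zero, sub_zero]
    refine Prod.ext rfl (Prod.ext rfl ?_)
    change SM.q (hd3 t 2, b (tl3 t)) =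
      SM.Γ (2 * (clm (1 - (hd3 t 2 : ℝ) / 2) : ℝ), (x, b (tl3 t)))
    have h1 : (0 : ℝ) ≤ hd3 t 2 := (hd3 t 2).2.1
    have h2 : (hd3 t 2 : ℝ) ≤ 1 := (hd3 t 2).2.2
    have h3 : (clm (1 - (hd3 t 2 : ℝ) / 2) : ℝ) = 1 - (hd3 t 2 : ℝ) / 2 := by
      unfold clm
      rw [Set.projIcc_of_mem zero_le_one ⟨by linarith, by linarith⟩]
    rw [h3, gam_ge SM _ _ (by linarith), show (2 : ℝ) - 2 * (1 - (hd3 t 2 : ℝ) / 2) = hd3 t 2 by ring,
      clm_coe]
  · refine ContinuousMap.ext fun p => ?_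
    obtain ⟨t, x⟩ := p
    change (SM.Γ ((2 - (z2 1 : ℝ)) * (hd3 t 0 : ℝ), (x, b (cc c (z1 1, tl3 t)))),
      (SM.Γ ((2 - (z2 1 : ℝ)) * (hd3 t 1 : ℝ), (x, b (cc c (z1 1, tl3 t)))),
        SM.q (hd3 t 2, b (tl3 t)))) = (SM.q (hd3 t 0, x), (SM.q (hd3 t 1, x),
          SM.q (hd3 t 2, b (tl3 t))))
    rw [z2_one, Set.Icc.coe_one, show (2 : ℝ) - 1 = 1 by norm_num, one_mul, one_mul,
      gam_le SM _ _ (hd3 t 0).2.2, gam_le SM _ _ (hd3 t 1).2.2, clm_coe, clm_coe]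

open EX2Aux in
theorem SusM.blk1_homotopy (hb : ∀ v i, (v i = 0 ∨ v i = 1) → b v ∈ B') {c : Fin d → I}
    (hc : b c ∈ B) :
    ∃ H : C(I × ((Fin (3 + d) → I) × F), SM.T × (SM.T × SM.T)),
      (CS.faces (3 + d) F).cyl.Maps (SM.sysQ B B') H ∧
      atTime H 0 = SM.D3.comp (blk1 b) ∧
      atTime H 1 = (SM.gg b).comp ((revC (3 + d) F (Fin.castAdd d 0)).comp
        (revC (3 + d) F (Fin.castAdd d 1))) := by
  refine ⟨H1 SM b c, maps_of _ (fun s t x ht => gam_mem1 SM b hc s ht _ x)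
    (fun s t x ht => gam_mem1 SM b hc s ht _ x) (fun s t x ht => mem_P_end ht _)
    (fun s t x i ht => mem_P_of (hb _ i ht) _), ?_, ?_⟩
  · refine ContinuousMap.ext fun p => ?_
    obtain ⟨t, x⟩ := p
    change (SM.Γ ((z2 0 : ℝ) + (2 - (z2 0 : ℝ)) * (hd3 t 0 : ℝ), (b (cc c (z1 0, tl3 t)), x)),
      (SM.Γ ((z2 0 : ℝ) + (2 - (z2 0 : ℝ)) * (hd3 t 1 : ℝ), (b (cc c (z1 0, tl3 t)), x)),
        SM.q (hd3 t 2, b (tl3 t)))) = SM.D3 (![hd3 t 0, hd3 t 1, clm ((hd3 t 2 : ℝ) / 2)],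
          (b (tl3 t), x))
    rw [D3_apply, z1_zero, z2_zero, cc_zero, Set.Icc.coe_zero, sub_zero, zero_add, zero_add]
    refine Prod.ext rfl (Prod.ext rfl ?_)
    change SM.q (hd3 t 2, b (tl3 t)) =
      SM.Γ (2 * (clm ((hd3 t 2 : ℝ) / 2) : ℝ), (b (tl3 t), x))
    have h1 : (0 : ℝ) ≤ hd3 t 2 := (hd3 t 2).2.1
    have h2 : (hd3 t 2 : ℝ) ≤ 1 := (hd3 t 2).2.2
    have h3 : (clm ((hd3 t 2 : ℝ) / 2) : ℝ) = (hd3 t 2 : ℝ) / 2 := by
      unfold clm
      rw [Set.projIcc_of_mem zero_le_one ⟨by linarith, by linarith⟩]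
    rw [h3, mul_div_cancel₀ _ two_ne_zero, gam_le SM _ _ h2, clm_coe]
  · refine ContinuousMap.ext fun p => ?_
    obtain ⟨t, x⟩ := p
    have r0 : ∀ t : Fin (3 + d) → I, ∀ x : F, ((SM.gg b).comp
        ((revC (3 + d) F (Fin.castAdd d 0)).comp (revC (3 + d) F (Fin.castAdd d 1)))) (t, x) =
        (SM.q (unitInterval.symm (hd3 t 0), x), (SM.q (unitInterval.symm (hd3 t 1), x),
          SM.q (hd3 t 2, b (tl3 t)))) := by
      intro t x
      exact rev_apply SM b t x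
    rw [r0]
    change (SM.Γ ((z2 1 : ℝ) + (2 - (z2 1 : ℝ)) * (hd3 t 0 : ℝ), (b (cc c (z1 1, tl3 t)), x)),
      (SM.Γ ((z2 1 : ℝ) + (2 - (z2 1 : ℝ)) * (hd3 t 1 : ℝ), (b (cc c (z1 1, tl3 t)), x)),
        SM.q (hd3 t 2, b (tl3 t)))) = _
    have hs : ∀ u : I, SM.Γ ((z2 1 : ℝ) + (2 - (z2 1 : ℝ)) * (u : ℝ),
        (b (cc c (z1 1, tl3 t)), x)) = SM.q (unitInterval.symm u, x) := by
      intro u
      have h1 : (0 : ℝ) ≤ u := u.2.1
      rw [z2_one, Set.Icc.coe_one, show (2 : ℝ) - 1 = 1 by norm_num, one_mul,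
        gam_ge SM _ _ (by linarith), show (2 : ℝ) - (1 + u) = (unitInterval.symm u : I) by
          rw [unitInterval.coe_symm_eq]; ring, clm_coe]
    rw [hs, hs]

end

end Pool.Agent.TC
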