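import Pool.Agent.Lib.TC.Exc1

/-!
# The exceptional case: the fundamental cycle, vanishing
-/

namespace Pool.Agent.TC

open CubeHom

section

variable {F : Type} [TopologicalSpace F] (SM : SusM F) {d : ℕ} (b : C(Fin d → I, F))

variable {B B' : Set F} {x0 : F}

namespace EX34

section cross

variable {R : Type*} [CommRing R] {X Y : Type*} [TopologicalSpace X] [TopologicalSpace Y]

theorem C_le (S : CS X) (k : ℤ) : S.C R k ≤ CubeHom.C R k Set.univ :=
  Finsupp.supported_mono fun _ h => ⟨h.1, fun _ => Set.mem_univ _⟩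

theorem Q_single (S : CS X) {k : ℤ} {σ : C(Cb, X)} (h1 : IsCube k σ) (h2 : S.ok σ)
    (h3 : S.nul σ ∨ Degen k σ) (r : R) : Finsupp.single σ r ∈ S.Q R k :=
  single_mem_supported (S := {σ | IsCube k σ ∧ S.ok σ ∧ (S.nul σ ∨ Degen k σ)}) ⟨h1, h2, h3⟩ r

theorem C_single (S : CS X) {k : ℤ} {σ : C(Cb, X)} (h1 : IsCube k σ) (h2 : S.ok σ) (r : R) :
    Finsupp.single σ r ∈ S.C R k :=
  single_mem_supported (S := {σ | IsCube k σ ∧ S.ok σ}) ⟨h1, h2⟩ r

theorem cr_C (S : CS X) (T : CS Y) {n : ℕ} {k : ℤ} {x : Ch R X} {y : Ch R Y}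
    (hx : x ∈ S.C R n) (hy : y ∈ T.C R k) : cr n x y ∈ (S.prod T).C R (n + k) := by
  refine cr_mem_of_supported _ (fun τ hτ σ hσ => ?_) hx hy
  exact C_single (S.prod T) (isCube_cross hτ.1 hσ.1) ⟨hτ.2, T.ok_comp _ _ hσ.2⟩ _

theorem cr_Ql (S : CS X) (T : CS Y) {n : ℕ} {k : ℤ} {x : Ch R X} {y : Ch R Y}
    (hx : x ∈ S.Q R n) (hy : y ∈ T.C R k) : cr n x y ∈ (S.prod T).Q R (n + k) := by
  refine cr_mem_of_supported _ (fun τ hτ σ hσ => ?_) hx hy
  refine Q_single (S.prod T) (isCube_cross hτ.1 hσ.1) ⟨hτ.2.1, T.ok_comp _ _ hσ.2⟩ ?_ _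
  exact hτ.2.2.imp (fun h => Or.inl h) (fun h => degen_cross_left h hσ.1)

theorem cr_Qr (S : CS X) (T : CS Y) {n : ℕ} {k : ℤ} {x : Ch R X} {y : Ch R Y}
    (hx : x ∈ S.C R n) (hy : y ∈ T.Q R k) : cr n x y ∈ (S.prod T).Q R (n + k) := by
  refine cr_mem_of_supported _ (fun τ hτ σ hσ => ?_) hx hy
  refine Q_single (S.prod T) (isCube_cross hτ.1 hσ.1) ⟨hτ.2, T.ok_comp _ _ hσ.2.1⟩ ?_ _
  exact hσ.2.2.imp (fun h => Or.inr (T.nul_comp _ _ h)) (fun h => degen_cross_right hτ.1 h)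

/-- The second term of the boundary of a cross product. -/
theorem cr_bd_Q (S : CS X) (T : CS Y) {n : ℕ} {k : ℤ} {x : Ch R X} {y : Ch R Y}
    (hx : x ∈ S.Z R n) (hy : y ∈ T.C R k) :
    cr (n - 1) (bd n x) y ∈ (S.prod T).Q R (n + k - 1) := by
  rcases Nat.eq_zero_or_pos n with h0 | h0
  · subst h0
    have : bd ((0 : ℕ) : ℤ) x = 0 := by
      rw [bd_apply]; simp
    rw [this, map_zero, LinearMap.zero_apply]
    exact Submodule.zero_mem _
  · have e3 : ((n - 1 : ℕ) : ℤ) = (n : ℤ) - 1 := by omega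
    have h3 := cr_Ql S T (n := n - 1) (by rw [e3]; exact hx.2) hy
    have e4 : ((n - 1 : ℕ) : ℤ) + k = n + k - 1 := by omega
    rwa [e4] at h3

theorem cr_Z (S : CS X) (T : CS Y) {n : ℕ} {k : ℤ} {x : Ch R X} {y : Ch R Y}
    (hx : x ∈ S.Z R n) (hy : y ∈ T.Z R k) : cr n x y ∈ (S.prod T).Z R (n + k) := by
  refine ⟨cr_C S T hx.1 hy.1, ?_⟩
  change bd ((n : ℤ) + k) (cr n x y) ∈ (S.prod T).Q R (n + k - 1)
  rw [bd_cr (C_le S _ hx.1) (C_le T _ hy.1)]
  refine Submodule.add_mem _ (cr_bd_Q S T hx hy.1) (Submodule.smul_mem _ _ ?_)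
  have h := cr_Qr S T hx.1 (show bd k y ∈ T.Q R (k - 1) from hy.2)
  rwa [← add_sub_assoc] at h

theorem cr_bd_left (S : CS X) (T : CS Y) {n : ℕ} {k : ℤ} {x : Ch R X} {y : Ch R Y}
    (hx : S.Bd R n x) (hy : y ∈ T.Z R k) : (S.prod T).Bd R (n + k) (cr n x y) := by
  obtain ⟨b, hb, hq⟩ := hx
  have hb' : b ∈ S.C R ((n + 1 : ℕ) : ℤ) := by exact_mod_cast hb
  have e1 : (((n + 1 : ℕ) : ℤ) + k) = (n + k) + 1 := by push_cast; ring
  refine ⟨cr (n + 1) b y, ?_, ?_⟩
  · rw [← e1]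
    exact cr_C S T hb' hy.1
  · have h := bd_cr (R := R) (C_le S _ hb') (C_le T _ hy.1)
    rw [← e1, h, Nat.add_sub_cancel]
    have e2 : cr n x y - (cr n (bd ((n + 1 : ℕ) : ℤ) b) y +
        (-1 : R) ^ (n + 1) • cr (n + 1) b (bd k y)) =
        cr n (x - bd ((n : ℤ) + 1) b) y - (-1 : R) ^ (n + 1) • cr (n + 1) b (bd k y) := by
      rw [map_sub, LinearMap.sub_apply]
      push_cast
      abel
    rw [e2]
    refine Submodule.sub_mem _ (cr_Ql S T hq hy.1) (Submodule.smul_mem _ _ ?_)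
    have h3 := cr_Qr S T hb' (show bd k y ∈ T.Q R (k - 1) from hy.2)
    have e3 : (((n + 1 : ℕ) : ℤ) + (k - 1)) = n + k := by push_cast; ring
    rwa [e3] at h3

theorem cr_bd_right (S : CS X) (T : CS Y) {n : ℕ} {k : ℤ} {x : Ch R X} {y : Ch R Y}
    (hx : x ∈ S.Z R n) (hy : T.Bd R k y) : (S.prod T).Bd R (n + k) (cr n x y) := by
  obtain ⟨b, hb, hq⟩ := hy
  refine ⟨(-1 : R) ^ n • cr n x b, Submodule.smul_mem _ _ ?_, ?_⟩
  · have h := cr_C S T hx.1 hb
    rwa [← add_assoc] at h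
  · have h := bd_cr (R := R) (C_le S _ hx.1) (C_le T _ hb)
    rw [map_smul, add_assoc, h]
    have e0 : (-1 : R) ^ n * (-1) ^ n = 1 := by
      rw [← pow_add, ← two_mul, pow_mul]; simp
    have e2 : cr n x y - (-1 : R) ^ n • (cr (n - 1) (bd n x) b +
        (-1 : R) ^ n • cr n x (bd (k + 1) b)) =
        cr n x (y - bd (k + 1) b) - (-1 : R) ^ n • cr (n - 1) (bd n x) b := by
      rw [map_sub, smul_add, smul_smul, e0, one_smul]
      abel
    rw [e2]
    refine Submodule.sub_mem _ (cr_Qr S T hx.1 hq) (Submodule.smul_mem _ _ ?_)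
    have h3 := cr_bd_Q S T hx hb
    rwa [show (n : ℤ) + (k + 1) - 1 = n + k by ring] at h3

theorem Bd_add (S : CS X) {k : ℤ} {c d : Ch R X} (hc : S.Bd R k c) (hd : S.Bd R k d) :
    S.Bd R k (c + d) := by
  obtain ⟨a, ha, ha'⟩ := hc
  obtain ⟨b, hb, hb'⟩ := hd
  refine ⟨a + b, Submodule.add_mem _ ha hb, ?_⟩
  have e : c + d - bd (k + 1) (a + b) = (c - bd (k + 1) a) + (d - bd (k + 1) b) := by
    rw [map_add]; abel
  rw [e]
  exact Submodule.add_mem _ ha' hb'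

theorem Bd_smul (S : CS X) {k : ℤ} {c : Ch R X} (r : R) (hc : S.Bd R k c) :
    S.Bd R k (r • c) := by
  obtain ⟨a, ha, ha'⟩ := hc
  refine ⟨r • a, Submodule.smul_mem _ _ ha, ?_⟩
  rw [map_smul, ← smul_sub]
  exact Submodule.smul_mem _ _ ha'

theorem Bd_neg (S : CS X) {k : ℤ} {c : Ch R X} (hc : S.Bd R k c) : S.Bd R k (-c) := by
  have h := Bd_smul S (-1 : R) hc
  rwa [neg_one_smul] at h

theorem Bd_sub (S : CS X) {k : ℤ} {c d : Ch R X} (hc : S.Bd R k c) (hd : S.Bd R k d) :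
    S.Bd R k (c - d) := by
  rw [sub_eq_add_neg]
  exact Bd_add S hc (Bd_neg S hd)

theorem Bd_of_Q (S : CS X) {k : ℤ} {c : Ch R X} (hc : c ∈ S.Q R k) : S.Bd R k c :=
  ⟨0, Submodule.zero_mem _, by rwa [map_zero, sub_zero]⟩

end cross

section hom

variable {X Y : Type} [TopologicalSpace X] [TopologicalSpace Y]

theorem hmt {R : Type} [CommRing R] {S : CS X} {T : CS Y} {H : C(I × X, Y)}
    (hH : S.cyl.Maps T H) {k : ℤ} {c : Ch R X} (hc : c ∈ S.Z R k) :
    T.Bd R k (push (atTime H 1) c - push (atTime H 0) c) := by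
  have h := hH.push_bd (S.cyl_bd hc)
  rw [map_sub, push_push, push_push] at h
  exact h

theorem maps_comp_id {S T : CS X} (hok : ∀ σ, S.ok σ → T.ok σ)
    (hnul : ∀ σ, S.ok σ → S.nul σ → T.nul σ) : S.Maps T (ContinuousMap.id X) :=
  ⟨fun σ h => by rw [ContinuousMap.id_comp]; exact hok σ h,
    fun σ h h' => by rw [ContinuousMap.id_comp]; exact hnul σ h h'⟩

theorem id_bd {R : Type} [CommRing R] {S T : CS X} (hok : ∀ σ, S.ok σ → T.ok σ)
    (hnul : ∀ σ, S.ok σ → S.nul σ → T.nul σ) {k : ℤ} {c : Ch R X} (h : S.Bd R k c) :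
    T.Bd R k c := by
  have h1 := (maps_comp_id hok hnul).push_bd h
  rwa [push_id] at h1

theorem id_Z {R : Type} [CommRing R] {S T : CS X} (hok : ∀ σ, S.ok σ → T.ok σ)
    (hnul : ∀ σ, S.ok σ → S.nul σ → T.nul σ) {k : ℤ} {c : Ch R X} (h : c ∈ S.Z R k) :
    c ∈ T.Z R k := by
  have h1 := (maps_comp_id hok hnul).push_mem h
  rwa [push_id] at h1

/-- The point. -/
theorem punit_hz {R : Type} [CommRing R] {j : ℤ} (hj : j ≠ 0) : (CS.top PUnit).Hz R j := by
  intro c hc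
  refine Bd_of_Q _ (Finsupp.supported_mono ?_ hc.1)
  rintro σ ⟨h1, h2⟩
  refine ⟨h1, h2, Or.inr ⟨0, ?_, fun x y _ => rfl⟩⟩
  have := h1.1
  push_cast
  omega

end hom

section Ro

variable {F : Type} [TopologicalSpace F] (SM : SusM F) {B' : Set F}

theorem clm_coe (t : I) : clm (t : ℝ) = t := Set.projIcc_val zero_le_one t

theorem coe_clm {r : ℝ} (h0 : 0 ≤ r) (h1 : r ≤ 1) : ((clm r : I) : ℝ) = r :=
  congrArg Subtype.val (clm_coe ⟨r, h0, h1⟩)

theorem clm_eq {r : ℝ} (h0 : 0 ≤ r) (h1 : r ≤ 1) : clm r = ⟨r, h0, h1⟩ :=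
  clm_coe ⟨r, h0, h1⟩

theorem clm_low {r : ℝ} (h0 : r ≤ 0) : clm r = 0 := Set.projIcc_of_le_left _ h0

theorem clm_high {r : ℝ} (h0 : 1 ≤ r) : clm r = 1 := Set.projIcc_of_right_le _ h0

theorem D_low {t : I} (h : (t : ℝ) ≤ 1 / 2) (p : F × F) :
    SM.D (t, p) = SM.q (⟨2 * t, by linarith [t.2.1], by linarith⟩, p.1) := by
  change (if 2 * (t : ℝ) ≤ 1 then SM.q (clm (2 * (t : ℝ)), p.1)
    else SM.q (clm (2 - 2 * (t : ℝ)), p.2)) = _
  rw [if_pos (by linarith), clm_eq (by linarith [t.2.1]) (by linarith)]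

theorem D_high {t : I} (h : 1 / 2 ≤ (t : ℝ)) (p : F × F) :
    SM.D (t, p) = SM.q (⟨2 - 2 * t, by linarith [t.2.2], by linarith⟩, p.2) := by
  change (if 2 * (t : ℝ) ≤ 1 then SM.q (clm (2 * (t : ℝ)), p.1)
    else SM.q (clm (2 - 2 * (t : ℝ)), p.2)) = _
  by_cases h1 : 2 * (t : ℝ) ≤ 1
  · have h2 : (t : ℝ) = 1 / 2 := by linarith
    rw [if_pos h1]
    have e1 : clm (2 * (t : ℝ)) = 1 := clm_high (by linarith)
    have e2 : (⟨2 - 2 * t, by linarith [t.2.2], by linarith⟩ : I) = 1 := by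
      ext
      change 2 - 2 * (t : ℝ) = 1
      linarith
    rw [e1, e2, SM.q1, SM.q1]
  · rw [if_neg h1, clm_eq (by linarith [t.2.2]) (by linarith)]

theorem q_mem_iff (t : I) (x : F) :
    SM.q (t, x) ∈ SM.P B' ↔ (t : ℝ) < 1 / 4 ∨ 3 / 4 < (t : ℝ) ∨ x ∈ B' := by
  change ((SM.h (SM.q (t, x)) : ℝ) < 1 / 4 ∨ 3 / 4 < (SM.h (SM.q (t, x)) : ℝ) ∨
    SM.dir (SM.q (t, x)) ∈ B') ↔ _
  rw [SM.h_q]
  by_cases h0 : (t : ℝ) < 1 / 4
  · exact ⟨fun _ => Or.inl h0, fun _ => Or.inl h0⟩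
  · by_cases h1 : 3 / 4 < (t : ℝ)
    · exact ⟨fun _ => Or.inr (Or.inl h1), fun _ => Or.inr (Or.inl h1)⟩
    · rw [SM.dir_q t x]
      · change (0 : ℝ) < t
        linarith
      · change (t : ℝ) < 1
        linarith

theorem Ro_low {p : (Fin 3 → I) × (F × F)} (h : (p.1 2 : ℝ) ≤ 1 / 2) :
    p ∈ SM.Ro B' ↔ (p.1 2 : ℝ) < 1 / 8 ∨ 3 / 8 < (p.1 2 : ℝ) ∨ p.2.1 ∈ B' := by
  change SM.D (p.1 2, p.2) ∈ SM.P B' ↔ _
  rw [D_low SM h, q_mem_iff]
  constructor
  · rintro (h1 | h1 | h1)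
    · left
      have h2 : 2 * (p.1 2 : ℝ) < 1 / 4 := h1
      linarith
    · right; left
      have h2 : 3 / 4 < 2 * (p.1 2 : ℝ) := h1
      linarith
    · exact Or.inr (Or.inr h1)
  · rintro (h1 | h1 | h1)
    · left
      change 2 * (p.1 2 : ℝ) < 1 / 4
      linarith
    · right; left
      change 3 / 4 < 2 * (p.1 2 : ℝ)
      linarith
    · exact Or.inr (Or.inr h1)

theorem Ro_high {p : (Fin 3 → I) × (F × F)} (h : 1 / 2 ≤ (p.1 2 : ℝ)) :
    p ∈ SM.Ro B' ↔ 7 / 8 < (p.1 2 : ℝ) ∨ (p.1 2 : ℝ) < 5 / 8 ∨ p.2.2 ∈ B' := by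
  change SM.D (p.1 2, p.2) ∈ SM.P B' ↔ _
  rw [D_high SM h, q_mem_iff]
  constructor
  · rintro (h1 | h1 | h1)
    · left
      have h2 : 2 - 2 * (p.1 2 : ℝ) < 1 / 4 := h1
      linarith
    · right; left
      have h2 : 3 / 4 < 2 - 2 * (p.1 2 : ℝ) := h1
      linarith
    · exact Or.inr (Or.inr h1)
  · rintro (h1 | h1 | h1)
    · left
      change 2 - 2 * (p.1 2 : ℝ) < 1 / 4
      linarith
    · right; left
      change 3 / 4 < 2 - 2 * (p.1 2 : ℝ)
      linarith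
    · exact Or.inr (Or.inr h1)

theorem isOpen_Ro (hB' : IsOpen B') : IsOpen (SM.Ro B') := by
  have h : Continuous fun p : (Fin 3 → I) × (F × F) => SM.D (p.1 2, p.2) := by fun_prop
  exact (SM.isOpen_P hB').preimage h

/-- The middle. -/
theorem Ro_mid {p : (Fin 3 → I) × (F × F)} (h1 : 3 / 8 < (p.1 2 : ℝ))
    (h2 : (p.1 2 : ℝ) < 5 / 8) : p ∈ SM.Ro B' := by
  rcases le_total (p.1 2 : ℝ) (1 / 2) with h | h
  · exact (Ro_low SM h).2 (Or.inr (Or.inl h1))
  · exact (Ro_high SM h).2 (Or.inr (Or.inl h2))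

theorem YR_face {σ : C(Cb, (Fin 3 → I) × (F × F))} (i : Fin 3)
    (h : (∀ u, (σ u).1 i = 0) ∨ (∀ u, (σ u).1 i = 1)) : (SM.YR B').nul σ := Or.inl ⟨i, h⟩

theorem YR_Ro {σ : C(Cb, (Fin 3 → I) × (F × F))}
    (h : ∀ u, σ u ∈ SM.Ro B') : (SM.YR B').nul σ := Or.inr ⟨_, rfl, h⟩

end Ro

end EX34

namespace EX34

section half

variable {F : Type} [TopologicalSpace F] (SM : SusM F) {B' : Set F}

/-- The faces system on the cubes in the first half. -/
def S0 (F : Type) [TopologicalSpace F] : CS ((Fin 3 → I) × (F × F)) :=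
  ⟨fun σ => ∀ u, ((σ u).1 2 : ℝ) < 5 / 8,
    fun σ => ∃ i : Fin 3, (∀ u, (σ u).1 i = 0) ∨ (∀ u, (σ u).1 i = 1),
    fun _ f h u => h (f u),
    fun _ f h => h.imp fun _ h => h.imp (fun h u => h (f u)) (fun h u => h (f u))⟩

/-- The three open sets. -/
def W3 (B' : Set F) : Set (Set ((Fin 3 → I) × (F × F))) :=
  {{p | (p.1 2 : ℝ) < 1 / 8}, {p | 3 / 8 < (p.1 2 : ℝ)}, {p | p.2.1 ∈ B'}}

theorem cont3 {Z : Type*} [TopologicalSpace Z] {f g h : Z → I} (hf : Continuous f)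
    (hg : Continuous g) (hh : Continuous h) :
    Continuous fun z => (![f z, g z, h z] : Fin 3 → I) := by
  refine continuous_pi fun i => ?_
  fin_cases i
  · exact hf
  · exact hg
  · exact hh

theorem continuous_t2 : Continuous fun p : (Fin 3 → I) × (F × F) => (p.1 2 : ℝ) := by fun_prop

theorem W3_open (hB' : IsOpen B') : ∀ V ∈ W3 B', IsOpen V := by
  rintro V (rfl | rfl | rfl)
  · exact isOpen_lt continuous_t2 continuous_const
  · exact isOpen_lt continuous_const continuous_t2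
  · exact hB'.preimage (continuous_fst.comp continuous_snd)

theorem W3_union {p : (Fin 3 → I) × (F × F)} (h : (p.1 2 : ℝ) < 5 / 8) :
    p ∈ ⋃₀ W3 B' ↔ p ∈ SM.Ro B' := by
  have e : p ∈ ⋃₀ W3 B' ↔ (p.1 2 : ℝ) < 1 / 8 ∨ 3 / 8 < (p.1 2 : ℝ) ∨ p.2.1 ∈ B' := by
    constructor
    · rintro ⟨V, (rfl | rfl | rfl), hp⟩
      · exact Or.inl hp
      · exact Or.inr (Or.inl hp)
      · exact Or.inr (Or.inr hp)
    · rintro (h1 | h1 | h1)
      · exact ⟨_, Or.inl rfl, h1⟩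
      · exact ⟨_, Or.inr (Or.inl rfl), h1⟩
      · exact ⟨_, Or.inr (Or.inr rfl), h1⟩
  rw [e]
  rcases le_total (p.1 2 : ℝ) (1 / 2) with h1 | h1
  · exact (Ro_low SM h1).symm
  · exact ⟨fun _ => (Ro_high SM h1).2 (Or.inr (Or.inl h)),
      fun _ => Or.inr (Or.inl (by linarith))⟩

/-- Stretching the first half. -/
noncomputable def r1 : C((Fin 3 → I) × (F × F), (((Fin 3 → I) × PUnit.{1}) × F) × F) where
  toFun p := (((![p.1 0, p.1 1, clm (4 * (p.1 2 : ℝ) - 1 / 2)], PUnit.unit), p.2.1), p.2.2)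
  continuous_toFun := by
    refine Continuous.prodMk (Continuous.prodMk (Continuous.prodMk
      (cont3 (by fun_prop) (by fun_prop) ?_) continuous_const) (by fun_prop)) (by fun_prop)
    exact continuous_clm.comp ((continuous_const.mul continuous_t2).sub continuous_const)

noncomputable def j1 : C((((Fin 3 → I) × PUnit.{1}) × F) × F, (Fin 3 → I) × (F × F)) where
  toFun p := (![p.1.1.1 0, p.1.1.1 1, clm ((p.1.1.1 2 : ℝ) / 2)], (p.1.2, p.2))
  continuous_toFun := by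
    refine Continuous.prodMk (cont3 (by fun_prop) (by fun_prop) ?_) (by fun_prop)
    exact continuous_clm.comp (by fun_prop)

/-- The value of the homotopy. -/
noncomputable def hv (s t : I) : ℝ :=
  (1 - (s : ℝ)) * (t : ℝ) + (s : ℝ) * (((clm (4 * (t : ℝ) - 1 / 2) : I) : ℝ) / 2)

theorem continuous_hv : Continuous fun p : I × I => hv p.1 p.2 := by
  have h : Continuous fun p : I × I => ((clm (4 * (p.2 : ℝ) - 1 / 2) : I) : ℝ) :=
    continuous_subtype_val.comp (continuous_clm.comp (by fun_prop))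
  unfold hv
  exact ((continuous_const.sub (by fun_prop)).mul (by fun_prop)).add
    ((by fun_prop : Continuous fun p : I × I => (p.1 : ℝ)).mul (h.div_const 2))

/-- A convex combination lies between bounds. -/
theorem hv_le {s t : I} {a : ℝ} (h1 : (t : ℝ) ≤ a)
    (h2 : ((clm (4 * (t : ℝ) - 1 / 2) : I) : ℝ) / 2 ≤ a) : hv s t ≤ a := by
  have hs0 := s.2.1
  have hs1 := s.2.2
  unfold hv
  nlinarith [mul_le_mul_of_nonneg_left h1 (by linarith : (0 : ℝ) ≤ 1 - (s : ℝ)),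
    mul_le_mul_of_nonneg_left h2 hs0]

theorem le_hv {s t : I} {a : ℝ} (h1 : a ≤ (t : ℝ))
    (h2 : a ≤ ((clm (4 * (t : ℝ) - 1 / 2) : I) : ℝ) / 2) : a ≤ hv s t := by
  have hs0 := s.2.1
  have hs1 := s.2.2
  unfold hv
  nlinarith [mul_le_mul_of_nonneg_left h1 (by linarith : (0 : ℝ) ≤ 1 - (s : ℝ)),
    mul_le_mul_of_nonneg_left h2 hs0]

theorem hv_lt {s t : I} {a : ℝ} (h1 : (t : ℝ) < a)
    (h2 : ((clm (4 * (t : ℝ) - 1 / 2) : I) : ℝ) / 2 < a) : hv s t < a := by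
  have h := hv_le (s := s) (le_max_left (t : ℝ) (((clm (4 * (t : ℝ) - 1 / 2) : I) : ℝ) / 2))
    (le_max_right _ _)
  exact lt_of_le_of_lt h (max_lt h1 h2)

theorem lt_hv {s t : I} {a : ℝ} (h1 : a < (t : ℝ))
    (h2 : a < ((clm (4 * (t : ℝ) - 1 / 2) : I) : ℝ) / 2) : a < hv s t := by
  have h := le_hv (s := s) (min_le_left (t : ℝ) (((clm (4 * (t : ℝ) - 1 / 2) : I) : ℝ) / 2))
    (min_le_right _ _)
  exact lt_of_lt_of_le (lt_min h1 h2) h

theorem hv_nonneg (s t : I) : 0 ≤ hv s t :=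
  le_hv t.2.1 (by have := (clm (4 * (t : ℝ) - 1 / 2)).2.1; linarith)

theorem hv_le_one (s t : I) : hv s t ≤ 1 :=
  hv_le t.2.2 (by have := (clm (4 * (t : ℝ) - 1 / 2)).2.2; linarith)

/-- The homotopy. -/
noncomputable def H1 : C(I × ((Fin 3 → I) × (F × F)), (Fin 3 → I) × (F × F)) where
  toFun p := (![p.2.1 0, p.2.1 1, clm (hv p.1 (p.2.1 2))], p.2.2)
  continuous_toFun := by
    refine Continuous.prodMk (cont3 (by fun_prop) (by fun_prop) ?_) (by fun_prop)
    exact continuous_clm.comp (continuous_hv.comp (continuous_fst.prodMk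
      ((continuous_apply 2).comp (continuous_fst.comp continuous_snd))))

/-- The target. -/
def T1 (B' : Set F) : CS ((((Fin 3 → I) × PUnit.{1}) × F) × F) :=
  ((CS.faces 3 PUnit.{1}).prod (relB B')).prod (CS.top F)

theorem r1_maps : ((S0 F).kill (W3 B')).Maps (T1 B') r1 := by
  refine ⟨fun σ _ => ⟨⟨trivial, trivial⟩, trivial⟩, fun σ _ h => ?_⟩
  rcases h with ⟨i, h⟩ | ⟨V, hV, h⟩
  · refine Or.inl (Or.inl ⟨i, ?_⟩)
    fin_cases i
    · exact h
    · exact h
    · rcases h with h | h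
      · left
        intro u
        change clm (4 * (((σ u).1 2 : I) : ℝ) - 1 / 2) = 0
        refine clm_low ?_
        have : ((σ u).1 2 : I) = 0 := h u
        rw [this]
        norm_num
      · right
        intro u
        change clm (4 * (((σ u).1 2 : I) : ℝ) - 1 / 2) = 1
        refine clm_high ?_
        have : ((σ u).1 2 : I) = 1 := h u
        rw [this]
        norm_num
  · rcases hV with rfl | rfl | rfl
    · refine Or.inl (Or.inl ⟨2, Or.inl fun u => ?_⟩)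
      change clm (4 * (((σ u).1 2 : I) : ℝ) - 1 / 2) = 0
      have h1 : (((σ u).1 2 : I) : ℝ) < 1 / 8 := h u
      exact clm_low (by linarith)
    · refine Or.inl (Or.inl ⟨2, Or.inr fun u => ?_⟩)
      change clm (4 * (((σ u).1 2 : I) : ℝ) - 1 / 2) = 1
      have h1 : 3 / 8 < (((σ u).1 2 : I) : ℝ) := h u
      exact clm_high (by linarith)
    · exact Or.inl (Or.inr (Or.inr ⟨_, rfl, h⟩))

theorem j1_maps : (T1 B').Maps (SM.YR B') j1 := by
  refine ⟨fun σ _ => trivial, fun σ _ h => ?_⟩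
  rcases h with (⟨i, h⟩ | h) | h
  · fin_cases i
    · exact YR_face SM 0 h
    · exact YR_face SM 1 h
    · rcases h with h | h
      · refine YR_face SM 2 (Or.inl fun u => ?_)
        change clm (((σ u).1.1.1 2 : ℝ) / 2) = 0
        have h1 : (σ u).1.1.1 2 = 0 := h u
        rw [h1]
        exact clm_low (by norm_num)
      · refine YR_Ro SM fun u => Ro_mid SM ?_ ?_
        all_goals
          have h1 : (σ u).1.1.1 2 = 1 := h u
          have h2 : (((j1.comp σ) u).1 2 : ℝ) = 1 / 2 := by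
            change ((clm (((σ u).1.1.1 2 : ℝ) / 2) : I) : ℝ) = 1 / 2
            rw [h1, coe_clm (by norm_num) (by norm_num)]
            norm_num
          rw [h2]
          norm_num
  · rcases h with h | ⟨V, rfl, h⟩
    · exact h.elim
    · refine YR_Ro SM fun u => (Ro_low SM ?_).2 (Or.inr (Or.inr (h u)))
      change ((clm (((σ u).1.1.1 2 : ℝ) / 2) : I) : ℝ) ≤ 1 / 2
      have h1 := ((σ u).1.1.1 2).2.1
      have h2 := ((σ u).1.1.1 2).2.2
      rw [coe_clm (by linarith) (by linarith)]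
      linarith
  · exact h.elim

theorem H1_maps : ((S0 F).kill (W3 B')).cyl.Maps (SM.YR B') H1 := by
  refine ⟨fun σ _ => trivial, fun σ hok h => ?_⟩
  have hok' : ∀ u, (((σ u).2.1 2 : I) : ℝ) < 5 / 8 := hok
  have hval : ∀ u, (((H1.comp σ) u).1 2 : ℝ) = hv (σ u).1 ((σ u).2.1 2) := fun u =>
    coe_clm (hv_nonneg _ _) (hv_le_one _ _)
  have hval5 : ∀ u, (((H1.comp σ) u).1 2 : ℝ) < 5 / 8 := fun u => by
    rw [hval]
    refine hv_lt (hok' u) ?_
    have := (clm (4 * (((σ u).2.1 2 : I) : ℝ) - 1 / 2)).2.2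
    linarith
  rcases h with ⟨i, h⟩ | ⟨V, hV, h⟩
  · fin_cases i
    · exact YR_face SM 0 h
    · exact YR_face SM 1 h
    · rcases h with h | h
      · refine YR_face SM 2 (Or.inl fun u => ?_)
        have h1 : ((σ u).2.1 2 : I) = 0 := h u
        change clm (hv (σ u).1 ((σ u).2.1 2)) = 0
        refine clm_low (hv_le ?_ ?_)
        · rw [h1]; norm_num
        · rw [h1, clm_low (by norm_num)]
          norm_num
      · exfalso
        have h1 : ((σ 0).2.1 2 : I) = 1 := h 0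
        have h2 := hok' 0
        rw [h1] at h2
        norm_num at h2
  · refine YR_Ro SM fun u => ?_
    rcases hV with rfl | rfl | rfl
    · have h1 : (((σ u).2.1 2 : I) : ℝ) < 1 / 8 := h u
      have h2 : (((H1.comp σ) u).1 2 : ℝ) < 1 / 8 := by
        rw [hval]
        refine hv_lt h1 ?_
        rw [clm_low (by linarith)]
        norm_num
      exact (Ro_low SM (by linarith)).2 (Or.inl h2)
    · have h1 : 3 / 8 < (((σ u).2.1 2 : I) : ℝ) := h u
      refine Ro_mid SM ?_ (hval5 u)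
      rw [hval]
      refine lt_hv h1 ?_
      rw [clm_high (by linarith)]
      norm_num
    · rcases le_total (((H1.comp σ) u).1 2 : ℝ) (1 / 2) with h3 | h3
      · exact (Ro_low SM h3).2 (Or.inr (Or.inr (h u)))
      · exact (Ro_high SM h3).2 (Or.inr (Or.inl (hval5 u)))

theorem H1_zero : (atTime H1 0 : C((Fin 3 → I) × (F × F), _)) = ContinuousMap.id _ := by
  ext p : 1
  change (![p.1 0, p.1 1, clm (hv 0 (p.1 2))], p.2) = p
  refine Prod.ext ?_ rfl
  funext i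
  fin_cases i
  · rfl
  · rfl
  · change clm (hv 0 (p.1 2)) = p.1 2
    have h : hv 0 (p.1 2) = (p.1 2 : ℝ) := by
      unfold hv
      simp
    rw [h, clm_coe]

theorem H1_one : (atTime H1 1 : C((Fin 3 → I) × (F × F), _)) = j1.comp r1 := by
  ext p : 1
  change (![p.1 0, p.1 1, clm (hv 1 (p.1 2))], p.2) =
    (![p.1 0, p.1 1, clm (((clm (4 * (p.1 2 : ℝ) - 1 / 2) : I) : ℝ) / 2)], (p.2.1, p.2.2))
  have h : hv 1 (p.1 2) = ((clm (4 * (p.1 2 : ℝ) - 1 / 2) : I) : ℝ) / 2 := by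
    unfold hv
    simp
  rw [h]

theorem T1_hz {K : Type} [Field K] {d m : ℕ}
    (hloc : ∀ j : ℤ, j ≠ d → (relB B').Hz K j) (hm : (CS.top F).Hz K (m : ℤ)) :
    (T1 B').Hz K ((3 + d + m : ℕ) : ℤ) := by
  refine prod_hz _ _ fun i j hij => ?_
  by_cases hj : j = m
  · rw [hj]
    exact Or.inr hm
  · refine Or.inl (prod_hz _ _ fun a b hab => ?_)
    by_cases ha : a = 3
    · exact Or.inr (hloc _ (by omega))
    · left
      have h := faces_hz (punit_hz (R := K) (j := (a : ℤ) - 3) (by omega)) 3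
      rwa [show ((3 : ℕ) : ℤ) + ((a : ℤ) - 3) = (a : ℤ) by push_cast; ring] at h

/-- A cycle in the first half bounds. -/
theorem half_hz {K : Type} [Field K] {d m : ℕ} (hB' : IsOpen B')
    (hloc : ∀ j : ℤ, j ≠ d → (relB B').Hz K j) (hm : (CS.top F).Hz K (m : ℤ))
    {c : Ch K ((Fin 3 → I) × (F × F))} (hc : c ∈ (SM.YR B').Z K ((3 + d + m : ℕ) : ℤ))
    (hs : c ∈ Finsupp.supported K K {σ : C(Cb, (Fin 3 → I) × (F × F)) |
      ∀ u, ((σ u).1 2 : ℝ) < 5 / 8}) :
    (SM.YR B').Bd K ((3 + d + m : ℕ) : ℤ) c := by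
  have hc0 : c ∈ ((S0 F).kill {⋃₀ W3 B'}).Z K ((3 + d + m : ℕ) : ℤ) := by
    have hsb : bd ((3 + d + m : ℕ) : ℤ) c ∈ Finsupp.supported K K
        {σ : C(Cb, (Fin 3 → I) × (F × F)) | ∀ u, ((σ u).1 2 : ℝ) < 5 / 8} := by
      refine map_mem_of_supported (bd ((3 + d + m : ℕ) : ℤ)) _ (fun σ hσ => ?_) hs
      rw [bd_apply]
      refine Submodule.sum_mem _ fun i _ => Submodule.smul_mem _ _ (Submodule.sub_mem _ ?_ ?_)
      all_goals
        rw [face_single]
        exact single_mem_supported (R := K) (S := {σ : C(Cb, (Fin 3 → I) × (F × F)) |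
          ∀ u, ((σ u).1 2 : ℝ) < 5 / 8}) (σ := σ.comp (ins i _)) (fun u => hσ _) _
    refine ⟨?_, ?_⟩
    · have h1 : c ∈ Finsupp.supported K K ({σ | IsCube ((3 + d + m : ℕ) : ℤ) σ ∧
          (SM.YR B').ok σ} ∩ {σ : C(Cb, (Fin 3 → I) × (F × F)) |
          ∀ u, ((σ u).1 2 : ℝ) < 5 / 8}) := by
        rw [Finsupp.supported_inter]
        exact ⟨hc.1, hs⟩
      refine Finsupp.supported_mono ?_ h1
      rintro σ ⟨h2, h3⟩
      exact ⟨h2.1, h3⟩
    · have h1 : bd ((3 + d + m : ℕ) : ℤ) c ∈ Finsupp.supported K K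
          ({σ | IsCube (((3 + d + m : ℕ) : ℤ) - 1) σ ∧ (SM.YR B').ok σ ∧
            ((SM.YR B').nul σ ∨ Degen (((3 + d + m : ℕ) : ℤ) - 1) σ)} ∩
            {σ : C(Cb, (Fin 3 → I) × (F × F)) | ∀ u, ((σ u).1 2 : ℝ) < 5 / 8}) := by
        rw [Finsupp.supported_inter]
        exact ⟨hc.2, hsb⟩
      refine Finsupp.supported_mono ?_ h1
      rintro σ ⟨⟨h2, -, h3⟩, h4⟩
      refine ⟨h2, h4, h3.imp ?_ id⟩
      rintro (h2 | ⟨V, rfl, h2⟩)
      · exact Or.inl h2
      · exact Or.inr ⟨⋃₀ W3 B', rfl, fun u => (W3_union SM (h4 u)).2 (h2 u)⟩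
  obtain ⟨c', hc', hb⟩ := (S0 F).kill_union (W3_open hB') hc0
  have h1 : (SM.YR B').Bd K ((3 + d + m : ℕ) : ℤ) (c - c') := by
    refine id_bd (S := (S0 F).kill {⋃₀ W3 B'}) (fun _ _ => trivial) (fun σ hok h => ?_) hb
    rcases h with h | ⟨V, rfl, h⟩
    · exact Or.inl h
    · exact YR_Ro SM fun u => (W3_union SM (hok u)).1 (h u)
  have h2 := hmt (H1_maps SM) hc'
  rw [H1_zero, H1_one, push_id, ← push_push] at h2
  have h3 := (j1_maps SM).push_bd (T1_hz hloc hm _ (r1_maps.push_mem hc'))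
  have h4 := Bd_sub _ (Bd_add _ h1 h3) h2
  have e : c - c' + push j1 (push r1 c') - (push j1 (push r1 c') - c') = c := by abel
  rwa [e] at h4

/-- The reflection. -/
def rho (F : Type) [TopologicalSpace F] : C((Fin 3 → I) × (F × F), (Fin 3 → I) × (F × F)) where
  toFun p := (![p.1 0, p.1 1, unitInterval.symm (p.1 2)], (p.2.2, p.2.1))
  continuous_toFun := by
    refine Continuous.prodMk (cont3 (by fun_prop) (by fun_prop) ?_) (by fun_prop)
    exact unitInterval.continuous_symm.comp ((continuous_apply 2).comp continuous_fst)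

theorem rho_Ro {p : (Fin 3 → I) × (F × F)} (h : p ∈ SM.Ro B') : rho F p ∈ SM.Ro B' := by
  have e : ((rho F p).1 2 : ℝ) = 1 - (p.1 2 : ℝ) := rfl
  rcases le_total (p.1 2 : ℝ) (1 / 2) with h1 | h1
  · rw [Ro_low SM h1] at h
    refine (Ro_high SM (by rw [e]; linarith)).2 ?_
    rw [e]
    rcases h with h | h | h
    · left; linarith
    · right; left; linarith
    · right; right; exact h
  · rw [Ro_high SM h1] at h
    refine (Ro_low SM (by rw [e]; linarith)).2 ?_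
    rw [e]
    rcases h with h | h | h
    · left; linarith
    · right; left; linarith
    · right; right; exact h

theorem rho_maps : (SM.YR B').Maps (SM.YR B') (rho F) := by
  refine ⟨fun _ _ => trivial, fun σ _ h => ?_⟩
  rcases h with ⟨i, h⟩ | ⟨V, rfl, h⟩
  · fin_cases i
    · exact YR_face SM 0 h
    · exact YR_face SM 1 h
    · refine YR_face SM 2 (h.symm.imp (fun h u => ?_) fun h u => ?_)
      · change unitInterval.symm ((σ u).1 2) = 0
        have h1 : (σ u).1 2 = 1 := h u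
        rw [h1, unitInterval.symm_one]
      · change unitInterval.symm ((σ u).1 2) = 1
        have h1 : (σ u).1 2 = 0 := h u
        rw [h1, unitInterval.symm_zero]
  · exact YR_Ro SM fun u => rho_Ro SM (h u)

theorem rho_rho : (rho F).comp (rho F) = ContinuousMap.id _ := by
  ext p : 1
  change (![p.1 0, p.1 1, unitInterval.symm (unitInterval.symm (p.1 2))], (p.2.1, p.2.2)) = p
  refine Prod.ext ?_ rfl
  funext i
  fin_cases i
  · rfl
  · rfl
  · exact unitInterval.symm_symm _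

/-- A cycle in the second half bounds. -/
theorem half_hz' {K : Type} [Field K] {d m : ℕ} (hB' : IsOpen B')
    (hloc : ∀ j : ℤ, j ≠ d → (relB B').Hz K j) (hm : (CS.top F).Hz K (m : ℤ))
    {c : Ch K ((Fin 3 → I) × (F × F))} (hc : c ∈ (SM.YR B').Z K ((3 + d + m : ℕ) : ℤ))
    (hs : c ∈ Finsupp.supported K K {σ : C(Cb, (Fin 3 → I) × (F × F)) |
      ∀ u, 3 / 8 < ((σ u).1 2 : ℝ)}) :
    (SM.YR B').Bd K ((3 + d + m : ℕ) : ℤ) c := by
  have h1 := half_hz SM hB' hloc hm ((rho_maps SM).push_mem hc) (by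
    refine map_mem_of_supported (push (rho F)) _ (fun σ hσ => ?_) hs
    rw [push_single]
    refine single_mem_supported (S := {σ : C(Cb, (Fin 3 → I) × (F × F)) |
      ∀ u, ((σ u).1 2 : ℝ) < 5 / 8}) (fun u => ?_) _
    change 1 - ((σ u).1 2 : ℝ) < 5 / 8
    have := hσ u
    linarith)
  have h2 := (rho_maps SM).push_bd h1
  rwa [push_push, rho_rho, push_id] at h2

end half

end EX34

namespace EX34

theorem single_Z {R : Type*} [CommRing R] {X : Type*} [TopologicalSpace X] (S : CS X) {n : ℕ}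
    {σ : C(Cb, X)} (h1 : IsCube (n : ℤ) σ) (h2 : S.ok σ)
    (h3 : ∀ i < n, ∀ e : I, (e = 0 ∨ e = 1) → S.nul (σ.comp (ins i e))) :
    (Finsupp.single σ 1 : Ch R X) ∈ S.Z R (n : ℤ) := by
  refine ⟨C_single S h1 h2 1, ?_⟩
  change bd (n : ℤ) (Finsupp.single σ (1 : R)) ∈ S.Q R ((n : ℤ) - 1)
  rw [bd_apply]
  refine Submodule.sum_mem _ fun i hi => Submodule.smul_mem _ _ ?_
  rw [Int.toNat_natCast, Finset.mem_range] at hi
  rw [face_single, face_single]
  exact Submodule.sub_mem _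
    (Q_single S (h1.face (by omega) _) (S.ok_comp _ _ h2) (Or.inl (h3 i hi 1 (Or.inr rfl))) _)
    (Q_single S (h1.face (by omega) _) (S.ok_comp _ _ h2) (Or.inl (h3 i hi 0 (Or.inl rfl))) _)

/-- The square relative to its sides. -/
def S2 : CS (Fin 2 → I) :=
  ⟨fun _ => True, fun σ => ∃ i : Fin 2, (∀ u, σ u i = 0) ∨ (∀ u, σ u i = 1),
    fun _ _ _ => trivial,
    fun _ f h => h.imp fun _ h => h.imp (fun h u => h (f u)) (fun h u => h (f u))⟩

/-- The two halves of the interval relative to their ends. -/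
def U1 : CS I :=
  ⟨fun σ => ∀ u, (σ u : ℝ) ≤ 1 / 2, fun σ => (∀ u, σ u = 0) ∨ (∀ u, (σ u : ℝ) = 1 / 2),
    fun _ f h u => h (f u), fun _ f h => h.imp (fun h u => h (f u)) (fun h u => h (f u))⟩

def U2 : CS I :=
  ⟨fun σ => ∀ u, 1 / 2 ≤ (σ u : ℝ), fun σ => (∀ u, σ u = 1) ∨ (∀ u, (σ u : ℝ) = 1 / 2),
    fun _ f h u => h (f u), fun _ f h => h.imp (fun h u => h (f u)) (fun h u => h (f u))⟩

noncomputable def al : C(I, I) := ⟨fun t => clm ((t : ℝ) / 2), continuous_clm.comp (by fun_prop)⟩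

noncomputable def ga : C(I, I) :=
  ⟨fun t => clm (1 - (t : ℝ) / 2), continuous_clm.comp (by fun_prop)⟩

theorem coe_al (t : I) : (al t : ℝ) = (t : ℝ) / 2 :=
  coe_clm (by linarith [t.2.1]) (by linarith [t.2.2])

theorem coe_ga (t : I) : (ga t : ℝ) = 1 - (t : ℝ) / 2 :=
  coe_clm (by linarith [t.2.2]) (by linarith [t.2.1])

section

variable (R : Type*) [CommRing R]

theorem sq_mem : (Finsupp.single (idCube 2) 1 : Ch R (Fin 2 → I)) ∈ S2.Z R ((2 : ℕ) : ℤ) := by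
  refine single_Z S2 (idCube_isCube 2) trivial fun i hi e he => ⟨⟨i, hi⟩, ?_⟩
  have h : ∀ u, ((idCube 2).comp (ins i e)) u ⟨i, hi⟩ = e := fun u => ins_apply_self i e u
  rcases he with rfl | rfl
  · exact Or.inl h
  · exact Or.inr h

theorem al_mem : (Finsupp.single (al.comp iota) 1 : Ch R I) ∈ U1.Z R ((1 : ℕ) : ℤ) := by
  refine single_Z U1 (by have := iota_isCube.comp al; exact_mod_cast this) (fun u => ?_)
    fun i hi e he => ?_
  · change ((al (iota u) : I) : ℝ) ≤ 1 / 2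
    rw [coe_al]
    linarith [(iota u).2.2]
  · obtain rfl : i = 0 := by omega
    rcases he with rfl | rfl
    · left
      intro u
      change al (ins 0 0 u 0) = 0
      rw [ins_apply_self]
      exact clm_low (by norm_num)
    · right
      intro u
      change ((al (ins 0 1 u 0) : I) : ℝ) = 1 / 2
      rw [ins_apply_self, coe_al]
      norm_num

theorem ga_mem : (Finsupp.single (ga.comp iota) 1 : Ch R I) ∈ U2.Z R ((1 : ℕ) : ℤ) := by
  refine single_Z U2 (by have := iota_isCube.comp ga; exact_mod_cast this) (fun u => ?_)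
    fun i hi e he => ?_
  · change 1 / 2 ≤ ((ga (iota u) : I) : ℝ)
    rw [coe_ga]
    linarith [(iota u).2.2]
  · obtain rfl : i = 0 := by omega
    rcases he with rfl | rfl
    · left
      intro u
      change ga (ins 0 0 u 0) = 1
      rw [ins_apply_self]
      exact clm_high (by norm_num)
    · right
      intro u
      change ((ga (ins 0 1 u 0) : I) : ℝ) = 1 / 2
      rw [ins_apply_self, coe_ga]
      norm_num

/-- The connecting square. -/
noncomputable def ksq : C(Cb, I) :=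
  ⟨fun u => clm ((1 - (u 1 : ℝ)) * (u 0 : ℝ) + (u 1 : ℝ) / 2), continuous_clm.comp (by fun_prop)⟩

theorem ksq_isCube : IsCube (2 : ℤ) ksq := by
  refine ⟨by norm_num, fun x y hxy => ?_⟩
  change clm ((1 - (x 1 : ℝ)) * (x 0 : ℝ) + (x 1 : ℝ) / 2) =
    clm ((1 - (y 1 : ℝ)) * (y 0 : ℝ) + (y 1 : ℝ) / 2)
  rw [hxy 0 (by simp), hxy 1 (by simp)]

theorem iota_rel : (CS.top I).Bd R ((1 : ℕ) : ℤ) (Finsupp.single iota 1 -
    Finsupp.single (al.comp iota) 1 + Finsupp.single (ga.comp iota) (1 : R)) := by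
  refine ⟨Finsupp.single ksq 1, C_single _ (by exact_mod_cast ksq_isCube) trivial 1, ?_⟩
  have e0 : (((1 : ℕ) : ℤ) + 1).toNat = 2 := rfl
  have f1 : ksq.comp (ins 0 1) = ga.comp iota := by
    ext u : 1
    change clm ((1 - ((ins 0 1 u 1 : I) : ℝ)) * ((ins 0 1 u 0 : I) : ℝ) +
      ((ins 0 1 u 1 : I) : ℝ) / 2) = clm (1 - ((u 0 : I) : ℝ) / 2)
    rw [ins_apply_self, ins_apply_gt (by norm_num)]
    congr 1
    simp only [Nat.sub_self, Set.Icc.coe_one]
    ring
  have f2 : ksq.comp (ins 0 0) = al.comp iota := by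
    ext u : 1
    change clm ((1 - ((ins 0 0 u 1 : I) : ℝ)) * ((ins 0 0 u 0 : I) : ℝ) +
      ((ins 0 0 u 1 : I) : ℝ) / 2) = clm (((u 0 : I) : ℝ) / 2)
    rw [ins_apply_self, ins_apply_gt (by norm_num)]
    congr 1
    simp only [Nat.sub_self, Set.Icc.coe_zero]
    ring
  have f3 : ksq.comp (ins 1 0) = iota := by
    ext u : 1
    change clm ((1 - ((ins 1 0 u 1 : I) : ℝ)) * ((ins 1 0 u 0 : I) : ℝ) +
      ((ins 1 0 u 1 : I) : ℝ) / 2) = u 0
    rw [ins_apply_self, ins_apply_lt (by norm_num)]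
    have : (1 - ((0 : I) : ℝ)) * ((u 0 : I) : ℝ) + ((0 : I) : ℝ) / 2 = ((u 0 : I) : ℝ) := by
      simp
    rw [this, clm_coe]
  have f4 : DependsOn ((ksq.comp (ins 1 1) : C(Cb, I)) : Cb → I) {j : ℕ | j ≠ 0} := by
    intro x y _
    change clm ((1 - ((ins 1 1 x 1 : I) : ℝ)) * ((ins 1 1 x 0 : I) : ℝ) +
      ((ins 1 1 x 1 : I) : ℝ) / 2) = clm ((1 - ((ins 1 1 y 1 : I) : ℝ)) *
        ((ins 1 1 y 0 : I) : ℝ) + ((ins 1 1 y 1 : I) : ℝ) / 2)
    rw [ins_apply_self, ins_apply_self]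
    simp
  have f5 : IsCube ((1 : ℕ) : ℤ) (ksq.comp (ins 1 1)) := by
    have h := ksq_isCube.face (i := 1) (by norm_num) 1
    exact_mod_cast h
  rw [bd_apply, e0, Finset.sum_range_succ, Finset.sum_range_one, pow_zero, pow_one, one_smul,
    face_single, face_single, face_single, face_single, f1, f2, f3]
  have e : Finsupp.single iota (1 : R) - Finsupp.single (al.comp iota) 1 +
      Finsupp.single (ga.comp iota) 1 - (Finsupp.single (ga.comp iota) 1 -
        Finsupp.single (al.comp iota) 1 +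
        (-1 : R) • (Finsupp.single (ksq.comp (ins 1 1)) 1 - Finsupp.single iota 1)) =
      Finsupp.single (ksq.comp (ins 1 1)) 1 := by
    rw [neg_one_smul]
    abel
  rw [e]
  exact Q_single _ f5 trivial (Or.inr ⟨0, by norm_num, f4⟩) 1

end

/-- The last coordinate separately. -/
def Jc : C((Fin 2 → I) × I, Fin 3 → I) :=
  ⟨fun p => ![p.1 0, p.1 1, p.2], cont3 (by fun_prop) (by fun_prop) (by fun_prop)⟩

section

variable {F : Type} [TopologicalSpace F] (SM : SusM F) {B' : Set F} {d : ℕ} (b : C(Fin d → I, F))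

def JJ (F : Type) [TopologicalSpace F] :
    C(((Fin 2 → I) × I) × (F × F), (Fin 3 → I) × (F × F)) := Jc.prodMap (ContinuousMap.id _)

theorem JJ_sq {σ : C(Cb, ((Fin 2 → I) × I) × (F × F))}
    (h : S2.nul (ContinuousMap.fst.comp (ContinuousMap.fst.comp σ))) :
    (SM.YR B').nul ((JJ F).comp σ) := by
  obtain ⟨i, h⟩ := h
  fin_cases i
  · exact YR_face SM 0 h
  · exact YR_face SM 1 h

theorem JJ0 : ((S2.prod (CS.top I)).prod (CS.top (F × F))).Maps (SM.YR B') (JJ F) := by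
  refine ⟨fun _ _ => trivial, fun σ _ h => ?_⟩
  rcases h with (h | h) | h
  · exact JJ_sq SM h
  · exact h.elim
  · exact h.elim

theorem JJ1 : ((S2.prod U1).prod ((relB B').prod (CS.top F))).Maps (SM.YR B') (JJ F) := by
  refine ⟨fun _ _ => trivial, fun σ hok h => ?_⟩
  have hok' : ∀ u, ((σ u).1.2 : ℝ) ≤ 1 / 2 := hok.1.2
  rcases h with (h | h) | (h | h)
  · exact JJ_sq SM h
  · rcases h with h | h
    · exact YR_face SM 2 (Or.inl h)
    · refine YR_Ro SM fun u => ?_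
      have h1 : ((((JJ F).comp σ) u).1 2 : ℝ) = 1 / 2 := h u
      exact Ro_mid SM (by rw [h1]; norm_num) (by rw [h1]; norm_num)
  · rcases h with h | ⟨V, rfl, h⟩
    · exact h.elim
    · exact YR_Ro SM fun u => (Ro_low SM (hok' u)).2 (Or.inr (Or.inr (h u)))
  · exact h.elim

theorem JJ2 : ((S2.prod U2).prod ((CS.top F).prod (relB B'))).Maps (SM.YR B') (JJ F) := by
  refine ⟨fun _ _ => trivial, fun σ hok h => ?_⟩
  have hok' : ∀ u, 1 / 2 ≤ ((σ u).1.2 : ℝ) := hok.1.2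
  rcases h with (h | h) | (h | h)
  · exact JJ_sq SM h
  · rcases h with h | h
    · exact YR_face SM 2 (Or.inr h)
    · refine YR_Ro SM fun u => ?_
      have h1 : ((((JJ F).comp σ) u).1 2 : ℝ) = 1 / 2 := h u
      exact Ro_mid SM (by rw [h1]; norm_num) (by rw [h1]; norm_num)
  · exact h.elim
  · rcases h with h | ⟨V, rfl, h⟩
    · exact h.elim
    · exact YR_Ro SM fun u => (Ro_high SM (hok' u)).2 (Or.inr (Or.inr (h u)))

variable {R : Type} [CommRing R]

/-- The chain `[I²] × w × z`. -/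
noncomputable def X3 : Ch R I →ₗ[R] Ch R (F × F) →ₗ[R] Ch R ((Fin 3 → I) × (F × F)) :=
  (LinearMap.compr₂ (cr 3) (push (JJ F))).comp (cr 2 (Finsupp.single (idCube 2) 1))

theorem X3_apply (w : Ch R I) (z : Ch R (F × F)) :
    X3 w z = push (JJ F) (cr 3 (cr 2 (Finsupp.single (idCube 2) 1) w) z) := rfl

theorem X3_iota (z : Ch R (F × F)) : fcr 3 z = X3 (Finsupp.single iota 1) z := by
  have e1 : (Finsupp.single (idCube 3) 1 : Ch R (Fin 3 → I)) =
      push Jc (cr 2 (Finsupp.single (idCube 2) 1) (Finsupp.single iota 1)) := by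
    rw [cr_single_single, push_single, one_mul]
    congr 1
    ext u i : 2
    fin_cases i <;> rfl
  have h := push_cr (R := R) 3 Jc (ContinuousMap.id (F × F))
    (cr 2 (Finsupp.single (idCube 2) 1) (Finsupp.single iota 1)) z
  rw [push_id, ← e1] at h
  exact h

theorem X3_blk1 (ξ : Ch R F) :
    push (blk1 b) (fcr (3 + d) ξ) = X3 (Finsupp.single (al.comp iota) 1)
      (cr d (push b (Finsupp.single (idCube d) 1)) ξ) := by
  have h : (push (R := R) (blk1 b)).comp (cr (3 + d) (Finsupp.single (idCube (3 + d)) (1 : R))) =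
      (X3 (Finsupp.single (al.comp iota) 1)).comp
        (cr d (push b (Finsupp.single (idCube d) (1 : R)))) := by
    ext σ : 2
    simp only [LinearMap.comp_apply, Finsupp.lsingle_apply, X3_apply, push_single,
      cr_single_single, mul_one]
    congr 1
    ext u : 1
    refine Prod.ext ?_ (Prod.ext ?_ ?_)
    · funext i
      fin_cases i <;> rfl
    · rfl
    · change σ (drop (3 + d) u) = σ (drop d (drop 3 u))
      congr 1
      funext j
      simp only [drop_apply]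
      congr 1
      omega
  exact LinearMap.congr_fun h ξ

theorem X3_blk2 (ξ : Ch R F) :
    push (blk2 b) (fcr (3 + d) ξ) = X3 (Finsupp.single (ga.comp iota) 1)
      (push (⟨Prod.swap, continuous_swap⟩ : C(F × F, F × F))
        (cr d (push b (Finsupp.single (idCube d) 1)) ξ)) := by
  have h : (push (R := R) (blk2 b)).comp (cr (3 + d) (Finsupp.single (idCube (3 + d)) (1 : R))) =
      ((X3 (Finsupp.single (ga.comp iota) 1)).comp
        (push (⟨Prod.swap, continuous_swap⟩ : C(F × F, F × F)))).comp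
        (cr d (push b (Finsupp.single (idCube d) (1 : R)))) := by
    ext σ : 2
    simp only [LinearMap.comp_apply, Finsupp.lsingle_apply, X3_apply, push_single,
      cr_single_single, mul_one]
    congr 1
    ext u : 1
    refine Prod.ext ?_ (Prod.ext ?_ ?_)
    · funext i
      fin_cases i <;> rfl
    · change σ (drop (3 + d) u) = σ (drop d (drop 3 u))
      congr 1
      funext j
      simp only [drop_apply]
      congr 1
      omega
    · rfl
  exact LinearMap.congr_fun h ξ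

theorem b_mem (hb : ∀ v i, (v i = 0 ∨ v i = 1) → b v ∈ B') :
    push b (Finsupp.single (idCube d) (1 : R)) ∈ (relB B').Z R (d : ℤ) := by
  rw [push_single]
  refine single_Z _ ((idCube_isCube d).comp b) trivial fun i hi e he => Or.inr ⟨B', rfl, fun u => ?_⟩
  refine hb _ ⟨i, hi⟩ ?_
  have h : (idCube d) (ins i e u) ⟨i, hi⟩ = e := ins_apply_self i e u
  rcases he with rfl | rfl
  · exact Or.inl h
  · exact Or.inr h

end

end EX34

/-- N2a. The fundamental cycle of the domain relative to `Ro` is the sum of the two blocks.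
(Split the coordinate `t₂` at `1/2`; replace `ξ` by `ε b` in the factor which is tested;
reversal of the second half; swap sign `(-1)^(d²) = -1`.) -/
theorem SusM.blocks {R : Type} [CommRing R] (hd : Odd d) (hB' : IsOpen B')
    (hb : ∀ v i, (v i = 0 ∨ v i = 1) → b v ∈ B') {ξ : Ch R F}
    (hξ : ξ ∈ (CS.top F).Z R (d : ℤ)) (ε : R)
    (hε : (relB B').Bd R (d : ℤ) (ξ - ε • push b (Finsupp.single (idCube d) 1))) :
    (SM.YR B').Bd R ((3 + (d + d) : ℕ) : ℤ)
      (fcr 3 (cr d ξ ξ) - ε • (push (blk1 b) (fcr (3 + d) ξ) +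
        push (blk2 b) (fcr (3 + d) ξ))) := by
  rw [EX34.X3_iota, EX34.X3_blk1, EX34.X3_blk2]
  obtain ⟨bb, hbb⟩ : ∃ bb : Ch R F, bb = push b (Finsupp.single (idCube d) 1) := ⟨_, rfl⟩
  have hbZ : bb ∈ (relB B').Z R (d : ℤ) := hbb ▸ EX34.b_mem (R := R) b hb
  rw [← hbb] at hε ⊢
  have e3 : ((3 + (d + d) : ℕ) : ℤ) = ((3 : ℕ) : ℤ) + ((d : ℤ) + (d : ℤ)) := by push_cast; ring
  have e21 : (((2 : ℕ) : ℤ) + ((1 : ℕ) : ℤ)) = ((3 : ℕ) : ℤ) := by norm_num
  rw [e3]
  have hsq := EX34.sq_mem R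
  -- the first chain
  have hA : (SM.YR B').Bd R (((3 : ℕ) : ℤ) + ((d : ℤ) + (d : ℤ)))
      (EX34.X3 (Finsupp.single iota 1 - Finsupp.single (EX34.al.comp iota) 1 +
        Finsupp.single (EX34.ga.comp iota) (1 : R)) (cr d ξ ξ)) := by
    refine (EX34.JJ0 SM).push_bd (EX34.cr_bd_left _ _ ?_ ?_)
    · have h := EX34.cr_bd_right EX34.S2 (CS.top I) hsq (EX34.iota_rel R)
      rwa [e21] at h
    · refine EX34.id_Z (fun _ _ => trivial) (fun _ _ h => ?_)
        (EX34.cr_Z (CS.top F) (CS.top F) hξ hξ)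
      rcases h with h | h
      · exact h
      · exact h
  have hB : (SM.YR B').Bd R (((3 : ℕ) : ℤ) + ((d : ℤ) + (d : ℤ)))
      (EX34.X3 (Finsupp.single (EX34.al.comp iota) (1 : R)) (cr d (ξ - ε • bb) ξ)) := by
    refine (EX34.JJ1 SM).push_bd (EX34.cr_bd_right _ _ ?_ (EX34.cr_bd_left _ _ hε hξ))
    have h := EX34.cr_Z EX34.S2 EX34.U1 hsq (EX34.al_mem R)
    rwa [e21] at h
  have hga : cr 2 (Finsupp.single (idCube 2) 1) (Finsupp.single (EX34.ga.comp iota) (1 : R)) ∈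
      (EX34.S2.prod EX34.U2).Z R ((3 : ℕ) : ℤ) := by
    have h := EX34.cr_Z EX34.S2 EX34.U2 hsq (EX34.ga_mem R)
    rwa [e21] at h
  have hC : (SM.YR B').Bd R (((3 : ℕ) : ℤ) + ((d : ℤ) + (d : ℤ)))
      (EX34.X3 (Finsupp.single (EX34.ga.comp iota) (1 : R)) (cr d ξ (ξ - ε • bb))) :=
    (EX34.JJ2 SM).push_bd (EX34.cr_bd_right _ _ hga (EX34.cr_bd_right _ _ hξ hε))
  have hD : (SM.YR B').Bd R (((3 : ℕ) : ℤ) + ((d : ℤ) + (d : ℤ)))
      (EX34.X3 (Finsupp.single (EX34.ga.comp iota) (1 : R))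
        (push (⟨Prod.swap, continuous_swap⟩ : C(F × F, F × F)) (cr d bb ξ) + cr d ξ bb)) := by
    refine (EX34.JJ2 SM).push_bd (EX34.cr_bd_right _ _ hga ?_)
    have h := cr_swap (CS.top F) (relB B') hξ hbZ
    rw [(hd.mul hd).neg_one_pow, neg_one_smul, sub_neg_eq_add] at h
    have e4 : ((d + d : ℕ) : ℤ) = (d : ℤ) + (d : ℤ) := by push_cast; ring
    rwa [e4] at h
  have h := EX34.Bd_sub _ (EX34.Bd_sub _ (EX34.Bd_add _ hA hB) hC) (EX34.Bd_smul _ ε hD)
  refine (congrArg ((SM.YR B').Bd R (((3 : ℕ) : ℤ) + ((d : ℤ) + (d : ℤ)))) ?_).mp h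
  simp only [map_add, map_sub, LinearMap.add_apply, LinearMap.sub_apply, map_smul,
    LinearMap.smul_apply, smul_add]
  abel

/-- N2b. (Split at `t₂ = 1/2`; on each half Kuenneth for the cube rel faces in the first two
coordinates, an interval relative to its ends, `(F, B')`, and `F`.) -/
theorem SusM.yr_hz [T2Space F] {K : Type} [Field K] (hB' : IsOpen B')
    (hloc : ∀ j : ℤ, j ≠ d → (relB B').Hz K j) {m : ℕ} (hm : (CS.top F).Hz K (m : ℤ)) :
    (SM.YR B').Hz K ((3 + d + m : ℕ) : ℤ) := by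
  classical
  intro c hc
  obtain ⟨n, hn⟩ : ∃ n : ℤ, n = ((3 + d + m : ℕ) : ℤ) := ⟨_, rfl⟩
  rw [← hn] at hc
  set V1 : Set ((Fin 3 → I) × (F × F)) := {p | (p.1 2 : ℝ) < 5 / 8} with hV1
  set V2 : Set ((Fin 3 → I) × (F × F)) := {p | 3 / 8 < (p.1 2 : ℝ)} with hV2
  have hV : ∀ V ∈ ({V1, V2} : Set (Set ((Fin 3 → I) × (F × F)))), IsOpen V := by
    rintro V (rfl | rfl)
    · exact isOpen_lt EX34.continuous_t2 continuous_const
    · exact isOpen_lt continuous_const EX34.continuous_t2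
  obtain ⟨c', hc', hb⟩ := (SM.YR B').small_cycle hV (fun σ _ u => by
    rcases lt_or_ge ((σ u).1 2 : ℝ) (5 / 8) with h | h
    · exact ⟨V1, Or.inl rfl, h⟩
    · exact ⟨V2, Or.inr rfl, (by linarith : 3 / 8 < ((σ u).1 2 : ℝ))⟩) hc
  -- splitting
  set P : C(Cb, (Fin 3 → I) × (F × F)) → Prop := fun σ => ∀ u, σ u ∈ V1 with hP
  set c1 := c'.filter P with hc1
  set c2 := c'.filter (fun σ => ¬ P σ) with hc2
  have hsum : c1 + c2 = c' := Finsupp.filter_add_filter_not c' P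
  have hS1 : c1 ∈ Finsupp.supported K K {σ | (IsCube n σ ∧ (SM.YR B').ok σ) ∧ P σ} := by
    rw [Finsupp.mem_supported]
    intro σ hσ
    rw [Finset.mem_coe, Finsupp.mem_support_iff] at hσ
    have h1 : P σ := by
      by_contra h
      exact hσ (Finsupp.filter_apply_neg _ _ h)
    rw [Finsupp.filter_apply_pos _ _ h1] at hσ
    have h2 := (Finsupp.mem_supported _ _).1 hc'.1 (Finset.mem_coe.2 (Finsupp.mem_support_iff.2 hσ))
    exact ⟨⟨h2.1, trivial⟩, h1⟩
  have hS2 : c2 ∈ Finsupp.supported K K {σ | (IsCube n σ ∧ (SM.YR B').ok σ) ∧ ∀ u, σ u ∈ V2} := by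
    rw [Finsupp.mem_supported]
    intro σ hσ
    rw [Finset.mem_coe, Finsupp.mem_support_iff] at hσ
    have h1 : ¬ P σ := by
      intro h
      exact hσ (Finsupp.filter_apply_neg _ _ (fun h' => h' h))
    rw [hc2, Finsupp.filter_apply_pos (fun σ => ¬ P σ) _ h1] at hσ
    have h2 := (Finsupp.mem_supported _ _).1 hc'.1 (Finset.mem_coe.2 (Finsupp.mem_support_iff.2 hσ))
    obtain ⟨h3, -, V, hV', h4⟩ := h2
    refine ⟨⟨h3, trivial⟩, ?_⟩
    rcases hV' with rfl | rfl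
    · exact (h1 h4).elim
    · exact h4
  have hface : ∀ (V : Set ((Fin 3 → I) × (F × F))) (x : Ch K ((Fin 3 → I) × (F × F))),
      x ∈ Finsupp.supported K K {σ | (IsCube n σ ∧ (SM.YR B').ok σ) ∧ ∀ u, σ u ∈ V} →
      bd n x ∈ Finsupp.supported K K {σ | IsCube (n - 1) σ ∧ ∀ u, σ u ∈ V} := by
    intro V x hx
    have h0 : x ∈ CubeHom.C K n V := by
      refine Finsupp.supported_mono ?_ hx
      rintro σ ⟨h1, h2⟩
      exact ⟨h1.1, h2⟩
    exact bd_mem_C h0
  have hbd1 := hface V1 c1 hS1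
  have hbd2 := hface V2 c2 hS2
  have hbdc : bd n c' ∈ (SM.YR B').Q K (n - 1) := by
    refine Finsupp.supported_mono ?_ hc'.2
    rintro σ ⟨h1, h2, h3⟩
    exact ⟨h1, trivial, h3⟩
  have hZ1 : bd n c1 ∈ (SM.YR B').Q K (n - 1) := by
    have h1 : bd n c1 ∈ Finsupp.supported K K
        ({σ | IsCube (n - 1) σ ∧ (SM.YR B').ok σ ∧ ((SM.YR B').nul σ ∨ Degen (n - 1) σ)} ∪
          {σ | IsCube (n - 1) σ ∧ ∀ u, σ u ∈ V2}) := by
      have e : bd n c1 = bd n c' - bd n c2 := by rw [← hsum, map_add, add_sub_cancel_right]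
      rw [e]
      exact Submodule.sub_mem _ (Finsupp.supported_mono Set.subset_union_left hbdc)
        (Finsupp.supported_mono Set.subset_union_right hbd2)
    have h2 : bd n c1 ∈ Finsupp.supported K K
        (({σ | IsCube (n - 1) σ ∧ (SM.YR B').ok σ ∧ ((SM.YR B').nul σ ∨ Degen (n - 1) σ)} ∪
          {σ | IsCube (n - 1) σ ∧ ∀ u, σ u ∈ V2}) ∩
          {σ | IsCube (n - 1) σ ∧ ∀ u, σ u ∈ V1}) := by
      rw [Finsupp.supported_inter]
      exact ⟨h1, hbd1⟩
    refine Finsupp.supported_mono ?_ h2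
    rintro σ ⟨h3 | h3, h4⟩
    · exact h3
    · exact ⟨h3.1, trivial, Or.inl (EX34.YR_Ro SM fun u => EX34.Ro_mid SM (h3.2 u) (h4.2 u))⟩
  have hZ2 : bd n c2 ∈ (SM.YR B').Q K (n - 1) := by
    have e : bd n c2 = bd n c' - bd n c1 := by rw [← hsum, map_add, add_sub_cancel_left]
    rw [e]
    exact Submodule.sub_mem _ hbdc hZ1
  have hB1 : (SM.YR B').Bd K n c1 := by
    subst hn
    exact EX34.half_hz SM hB' hloc hm
      ⟨Finsupp.supported_mono (fun σ h => h.1) hS1, hZ1⟩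
      (Finsupp.supported_mono (fun σ h => h.2) hS1)
  have hB2 : (SM.YR B').Bd K n c2 := by
    subst hn
    exact EX34.half_hz' SM hB' hloc hm
      ⟨Finsupp.supported_mono (fun σ h => h.1) hS2, hZ2⟩
      (Finsupp.supported_mono (fun σ h => h.2) hS2)
  have h := EX34.Bd_add _ hb (EX34.Bd_add _ hB1 hB2)
  rw [hsum, sub_add_cancel, hn] at h
  exact h

end

end Pool.Agent.TC
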