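import Pool.Agent.Lib.TC.SuspHD

/-!
# Task SH2 (splice into SuspH.lean; the definitions CS.faces, fcr, revC are those of SuspH.lean)
-/

namespace Pool.Agent.TC

open CubeHom

variable {R : Type*} [CommRing R] {N : Type*} [TopologicalSpace N]

namespace SH2Aux

/-- Checking membership in the zero chains of a system on cubes. -/
theorem single_mem_Q {X : Type*} [TopologicalSpace X] (S : CS X) {k : ℤ} {σ : C(Cb, X)}
    (h1 : IsCube k σ) (h2 : S.ok σ) (h3 : S.nul σ ∨ Degen k σ) (r : R) :
    Finsupp.single σ r ∈ S.Q R k :=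
  single_mem_supported (S := {σ | IsCube k σ ∧ S.ok σ ∧ (S.nul σ ∨ Degen k σ)}) ⟨h1, h2, h3⟩ r

theorem single_mem_C {X : Type*} [TopologicalSpace X] (S : CS X) {k : ℤ} {σ : C(Cb, X)}
    (h1 : IsCube k σ) (h2 : S.ok σ) (r : R) : Finsupp.single σ r ∈ S.C R k :=
  single_mem_supported (S := {σ | IsCube k σ ∧ S.ok σ}) ⟨h1, h2⟩ r

theorem C_le_univ {X : Type*} [TopologicalSpace X] (S : CS X) (k : ℤ) :
    S.C R k ≤ CubeHom.C R k (Set.univ : Set X) :=
  Finsupp.supported_mono fun _ h => ⟨h.1, fun _ => Set.mem_univ _⟩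

/-- The chains on cubes inside one face of the cube. -/
noncomputable def PF (R : Type*) [CommRing R] (m : ℕ) : Submodule R (Ch R (Fin m → I)) :=
  Finsupp.supported R R {τ : C(Cb, Fin m → I) |
    IsCube (m : ℤ) τ ∧ ∃ l : Fin m, (∀ u, τ u l = 0) ∨ (∀ u, τ u l = 1)}

theorem single_mem_PF {m : ℕ} {τ : C(Cb, Fin m → I)} (h1 : IsCube (m : ℤ) τ)
    (h2 : ∃ l : Fin m, (∀ u, τ u l = 0) ∨ (∀ u, τ u l = 1)) (r : R) :
    Finsupp.single τ r ∈ PF R m :=
  single_mem_supported
    (S := {τ : C(Cb, Fin m → I) |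
      IsCube (m : ℤ) τ ∧ ∃ l : Fin m, (∀ u, τ u l = 0) ∨ (∀ u, τ u l = 1)}) ⟨h1, h2⟩ r

theorem cr_PF {m : ℕ} {j : ℤ} {z : Ch R (Fin m → I)} (hz : z ∈ PF R m) {c : Ch R N}
    (hc : c ∈ (CS.top N).C R j) : cr m z c ∈ (CS.faces m N).Q R (m + j) := by
  refine cr_mem_of_supported _ (fun τ hτ σ hσ => ?_) hz hc
  obtain ⟨l, hl⟩ := hτ.2
  exact single_mem_Q (CS.faces m N) (isCube_cross hτ.1 hσ.1) trivial
    (Or.inl ⟨l, hl.imp (fun h u => h u) (fun h u => h u)⟩) 1

/-- The cube used for the reversal of the coordinate `i`. -/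
def kap (m : ℕ) (i : Fin m) : C(Cb, Fin m → I) where
  toFun u := fun l => if (l : ℕ) < i then u l else if (l : ℕ) = i then
    u i * unitInterval.symm (u (i + 1)) else u (l + 1)
  continuous_toFun := by
    refine continuous_pi fun l => ?_
    by_cases h1 : (l : ℕ) < i
    · simpa [h1] using continuous_apply (l : ℕ)
    · by_cases h2 : (l : ℕ) = i
      · simp only [h2, lt_self_iff_false, if_false, if_true]
        exact (continuous_apply (i : ℕ)).mul
          (unitInterval.continuous_symm.comp (continuous_apply ((i : ℕ) + 1)))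
      · simpa [h1, h2] using continuous_apply ((l : ℕ) + 1)

theorem kap_lt {m : ℕ} {i l : Fin m} (h : (l : ℕ) < i) (u : Cb) : kap m i u l = u l := by
  change (if (l : ℕ) < i then u l else _) = _
  rw [if_pos h]

theorem kap_self {m : ℕ} (i : Fin m) (u : Cb) :
    kap m i u i = u i * unitInterval.symm (u (i + 1)) := by
  simp [kap]

theorem kap_gt {m : ℕ} {i l : Fin m} (h : (i : ℕ) < l) (u : Cb) :
    kap m i u l = u (l + 1) := by
  have h1 : ¬ (l : ℕ) < i := by omega
  have h2 : (l : ℕ) ≠ i := by omega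
  change (if (l : ℕ) < i then u l else if (l : ℕ) = i then _ else u (l + 1)) = _
  rw [if_neg h1, if_neg h2]

theorem kap_isCube {m : ℕ} (i : Fin m) : IsCube ((m + 1 : ℕ) : ℤ) (kap m i) := by
  refine ⟨by omega, fun u v huv => ?_⟩
  simp only [Set.mem_ofPred_eq] at huv
  funext l
  have hl := l.2
  have hi := i.2
  rcases lt_trichotomy (l : ℕ) i with h | h | h
  · rw [kap_lt h, kap_lt h]
    exact huv _ (by push_cast; omega)
  · have h' : l = i := Fin.ext h
    subst h'
    rw [kap_self, kap_self, huv _ (by push_cast; omega), huv (l + 1) (by push_cast; omega)]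
  · rw [kap_gt h, kap_gt h]
    exact huv _ (by push_cast; omega)

/-- The reversed identity cube. -/
def revId (m : ℕ) (i : Fin m) : C(Cb, Fin m → I) where
  toFun u := fun l => if l = i then unitInterval.symm (u l) else u l
  continuous_toFun := by
    refine continuous_pi fun l => ?_
    by_cases h : l = i
    · simp only [h, if_true]
      exact unitInterval.continuous_symm.comp (continuous_apply (i : ℕ))
    · simpa [h] using continuous_apply (l : ℕ)

theorem kap_face_one {m : ℕ} (i : Fin m) : (kap m i).comp (ins i 1) = revId m i := by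
  ext u l : 2
  simp only [ContinuousMap.comp_apply]
  rcases lt_trichotomy (l : ℕ) i with h | h | h
  · have h' : l ≠ i := fun h' => by rw [h'] at h; exact lt_irrefl _ h
    rw [kap_lt h, ins_apply_lt h]
    simp [revId, h']
  · have h' : l = i := Fin.ext h
    subst h'
    rw [kap_self, ins_apply_self, ins_apply_gt (Nat.lt_succ_self _), one_mul]
    simp [revId]
  · have h' : l ≠ i := fun h' => by rw [h'] at h; exact lt_irrefl _ h
    rw [kap_gt h, ins_apply_gt (by omega)]
    simp [revId, h']

theorem kap_face_zero {m : ℕ} (i : Fin m) : (kap m i).comp (ins (i + 1) 0) = idCube m := by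
  ext u l : 2
  simp only [ContinuousMap.comp_apply]
  rcases lt_trichotomy (l : ℕ) i with h | h | h
  · rw [kap_lt h, ins_apply_lt (by omega)]
    rfl
  · have h' : l = i := Fin.ext h
    subst h'
    rw [kap_self, ins_apply_self, ins_apply_lt (Nat.lt_succ_self _), unitInterval.symm_zero,
      mul_one]
    rfl
  · rw [kap_gt h, ins_apply_gt (by omega)]
    rfl

theorem kap_face_mem {m : ℕ} (i : Fin m) (l : ℕ) (hl : l < m + 1) (e : I) (he : e = 0 ∨ e = 1)
    (h1 : ¬ (l = i ∧ e = 1)) (h2 : ¬ (l = i + 1 ∧ e = 0)) :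
    ∃ n : Fin m, (∀ u, (kap m i).comp (ins l e) u n = 0) ∨
      (∀ u, (kap m i).comp (ins l e) u n = 1) := by
  have hi := i.2
  rcases lt_trichotomy l (i : ℕ) with h | h | h
  · refine ⟨⟨l, by omega⟩, ?_⟩
    have : ∀ u, (kap m i).comp (ins l e) u ⟨l, by omega⟩ = e := by
      intro u
      rw [ContinuousMap.comp_apply, kap_lt (by exact h), ins_apply_self]
    simpa only [this, forall_const] using he
  · have he0 : e = 0 := by
      rcases he with he | he
      · exact he
      · exact absurd ⟨h, he⟩ h1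
    refine ⟨i, Or.inl fun u => ?_⟩
    rw [ContinuousMap.comp_apply, kap_self, ← h, ins_apply_self, he0, zero_mul]
  · rcases eq_or_ne l (i + 1) with h' | h'
    · have he1 : e = 1 := by
        rcases he with he | he
        · exact absurd ⟨h', he⟩ h2
        · exact he
      refine ⟨i, Or.inl fun u => ?_⟩
      rw [ContinuousMap.comp_apply, kap_self, ← h', ins_apply_self, he1, unitInterval.symm_one,
        mul_zero]
    · refine ⟨⟨l - 1, by omega⟩, ?_⟩
      have : ∀ u, (kap m i).comp (ins l e) u ⟨l - 1, by omega⟩ = e := by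
        intro u
        rw [ContinuousMap.comp_apply, kap_gt (by change (i : ℕ) < l - 1; omega)]
        change ins l e u (l - 1 + 1) = e
        rw [Nat.sub_add_cancel (by omega), ins_apply_self]
      simpa only [this, forall_const] using he

theorem kap_face_PF {m : ℕ} (i : Fin m) (l : ℕ) (hl : l < m + 1) (e : I) (he : e = 0 ∨ e = 1)
    (h1 : ¬ (l = i ∧ e = 1)) (h2 : ¬ (l = i + 1 ∧ e = 0)) :
    Finsupp.single ((kap m i).comp (ins l e)) (1 : R) ∈ PF R m := by
  refine single_mem_PF ?_ (kap_face_mem i l hl e he h1 h2) 1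
  have := (kap_isCube i).face (i := l) (by exact_mod_cast hl) e
  rwa [show (((m + 1 : ℕ) : ℤ) - 1) = (m : ℤ) by push_cast; ring] at this

theorem key {m : ℕ} (i : Fin m) :
    Finsupp.single (revId m i) (1 : R) + Finsupp.single (idCube m) 1 -
      ((-1 : R) ^ (i : ℕ)) • bd ((m + 1 : ℕ) : ℤ) (Finsupp.single (kap m i) 1) ∈ PF R m := by
  have hi := i.2
  have hz : ((-1 : R) ^ (i : ℕ)) * ((-1 : R) ^ (i : ℕ)) = 1 := by
    rw [← mul_pow]; simp
  have h : ∑ l ∈ Finset.range (m + 1), (((-1 : R) ^ l) •
      (Finsupp.single ((kap m i).comp (ins l 1)) (1 : R) -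
        Finsupp.single ((kap m i).comp (ins l 0)) 1) -
      (if l = i then ((-1 : R) ^ (i : ℕ)) • Finsupp.single (revId m i) (1 : R) else 0) -
      (if l = i + 1 then ((-1 : R) ^ (i : ℕ)) • Finsupp.single (idCube m) (1 : R) else 0)) ∈
        PF R m := by
    refine Submodule.sum_mem _ fun l hl => ?_
    rw [Finset.mem_range] at hl
    by_cases hli : l = i
    · rw [if_pos hli, if_neg (by omega), sub_zero]
      have h0 := kap_face_PF (R := R) i l hl 0 (Or.inl rfl) (by simp) (by omega)
      have e1 : (kap m i).comp (ins l 1) = revId m i := by rw [hli]; exact kap_face_one i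
      rw [e1, hli, smul_sub, sub_sub_cancel_left]
      rw [hli] at h0
      exact Submodule.neg_mem _ (Submodule.smul_mem _ _ h0)
    · rw [if_neg hli, sub_zero]
      by_cases hli' : l = i + 1
      · rw [if_pos hli']
        have h0 := kap_face_PF (R := R) i l hl 1 (Or.inr rfl) (by omega) (by simp)
        have e1 : (kap m i).comp (ins l 0) = idCube m := by rw [hli']; exact kap_face_zero i
        rw [e1, hli', pow_succ, mul_neg_one, neg_smul, smul_sub, neg_sub, sub_sub_cancel_left]
        rw [hli'] at h0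
        exact Submodule.neg_mem _ (Submodule.smul_mem _ _ h0)
      · rw [if_neg hli', sub_zero]
        exact Submodule.smul_mem _ _ (Submodule.sub_mem _
          (kap_face_PF i l hl 1 (Or.inr rfl) (by omega) (by omega))
          (kap_face_PF i l hl 0 (Or.inl rfl) (by omega) (by omega)))
  have h2 := Submodule.smul_mem _ (-((-1 : R) ^ (i : ℕ))) h
  have hS : ∑ l ∈ Finset.range (m + 1), ((-1 : R) ^ l) •
      (Finsupp.single ((kap m i).comp (ins l 1)) (1 : R) -
        Finsupp.single ((kap m i).comp (ins l 0)) 1) =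
      bd ((m + 1 : ℕ) : ℤ) (Finsupp.single (kap m i) 1) := by
    rw [bd_apply, Int.toNat_natCast]
    simp only [face_single]
  rw [Finset.sum_sub_distrib, Finset.sum_sub_distrib, Finset.sum_ite_eq' , Finset.sum_ite_eq',
    if_pos (Finset.mem_range.2 (by omega)), if_pos (Finset.mem_range.2 (by omega)), hS,
    neg_smul, smul_sub, smul_sub, smul_smul, smul_smul, hz, one_smul, one_smul] at h2
  convert h2 using 1
  abel

end SH2Aux

open SH2Aux

theorem rev_fcr (m : ℕ) (i : Fin m) {j : ℤ} {c : Ch R N} (hc : c ∈ (CS.top N).Z R j) :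
    (CS.faces m N).Bd R (m + j) (push (revC m N i) (fcr m c) + fcr m c) := by
  have hcC := C_le_univ _ _ hc.1
  have hrev : push (revC m N i) (fcr m c) = cr m (Finsupp.single (revId m i) 1) c := by
    have h := map_eq_of_supported (R := R) (S := (Set.univ : Set (C(Cb, N))))
      ((push (revC m N i)).comp (cr m (Finsupp.single (idCube m) (1 : R))))
      (cr m (Finsupp.single (revId m i) (1 : R))) (fun σ _ => ?_) (c := c)
      (by simp [Finsupp.supported_univ])
    · simpa [fcr] using h
    · simp only [LinearMap.comp_apply, cr_single_single, mul_one, push_single]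
      congr 1
      ext u : 1
      simp only [ContinuousMap.comp_apply, crossCube_apply, revC, ContinuousMap.coe_mk]
      congr 1
      funext l
      rcases eq_or_ne l i with h | h
      · subst h
        simp [revId, idCube]
      · simp [revId, idCube, h]
  have hkC : (Finsupp.single (kap m i) 1 : Ch R (Fin m → I)) ∈
      CubeHom.C R ((m + 1 : ℕ) : ℤ) Set.univ :=
    mem_C_single (kap_isCube i) (fun _ => Set.mem_univ _) 1
  refine ⟨((-1 : R) ^ (i : ℕ)) • cr (m + 1) (Finsupp.single (kap m i) 1) c, ?_, ?_⟩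
  · refine Submodule.smul_mem _ _ ?_
    refine map_mem_of_supported (cr (m + 1) (Finsupp.single (kap m i) (1 : R))) _
      (fun σ hσ => ?_) hc.1
    rw [cr_single_single, one_mul]
    refine single_mem_C _ ?_ trivial 1
    have := isCube_cross (kap_isCube i) hσ.1
    rwa [show ((m + 1 : ℕ) : ℤ) + j = (m : ℤ) + j + 1 by push_cast; ring] at this
  · have e1 : (m : ℤ) + j + 1 = ((m + 1 : ℕ) : ℤ) + j := by push_cast; ring
    rw [map_smul, e1, bd_cr hkC hcC, hrev, Nat.add_sub_cancel]
    have e2 : cr m (Finsupp.single (revId m i) 1) c + fcr m c -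
        ((-1 : R) ^ (i : ℕ)) • (cr m (bd ((m + 1 : ℕ) : ℤ) (Finsupp.single (kap m i) 1)) c +
          ((-1 : R) ^ (m + 1)) • cr (m + 1) (Finsupp.single (kap m i) 1) (bd j c)) =
        cr m (Finsupp.single (revId m i) (1 : R) + Finsupp.single (idCube m) 1 -
          ((-1 : R) ^ (i : ℕ)) • bd ((m + 1 : ℕ) : ℤ) (Finsupp.single (kap m i) 1)) c -
        ((-1 : R) ^ (i : ℕ)) • ((-1 : R) ^ (m + 1)) •
          cr (m + 1) (Finsupp.single (kap m i) 1) (bd j c) := by
      simp only [map_sub, map_add, map_smul, LinearMap.sub_apply, LinearMap.add_apply,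
        LinearMap.smul_apply, smul_add, fcr]
      abel
    rw [e2]
    refine Submodule.sub_mem _ (cr_PF (key i) hc.1) (Submodule.smul_mem _ _
      (Submodule.smul_mem _ _ ?_))
    refine map_mem_of_supported (cr (m + 1) (Finsupp.single (kap m i) (1 : R))) _
      (fun σ hσ => ?_) hc.2
    obtain ⟨h1, -, h2⟩ := hσ
    rw [cr_single_single, one_mul]
    have e3 : ((m + 1 : ℕ) : ℤ) + (j - 1) = (m : ℤ) + j := by push_cast; ring
    refine single_mem_Q _ ?_ trivial (Or.inr ?_) 1
    · have := isCube_cross (kap_isCube i) h1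
      rwa [e3] at this
    · rcases h2 with h2 | h2
      · exact h2.elim
      · have := degen_cross_right (kap_isCube i) h2
        rwa [e3] at this

/-- Homotopies which keep every face inside itself do not change classes. -/
theorem faces_homotopy {m : ℕ} {Z : Type*} [TopologicalSpace Z] (S : CS Z)
    (H : C(I × ((Fin m → I) × N), Z)) (hok : ∀ σ, S.ok σ)
    (hH : ∀ (i : Fin m) (e : I), (e = 0 ∨ e = 1) → ∀ σ : C(Cb, I × ((Fin m → I) × N)),
      (∀ u, (σ u).2.1 i = e) → S.nul (H.comp σ)) {j : ℤ}
    {w : Ch R ((Fin m → I) × N)} (hw : w ∈ (CS.faces m N).Z R j) :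
    S.Bd R j (push (atTime H 1) w - push (atTime H 0) w) := by
  have hcube : ∀ {k : ℤ} {σ : C(Cb, (Fin m → I) × N)}, IsCube k σ →
      IsCube (k + 1) (H.comp (crossCube 1 iota σ)) := by
    intro k σ h
    have := isCube_cross (n := 1) (by exact_mod_cast iota_isCube) h
    rw [Nat.cast_one, add_comm] at this
    exact this.comp H
  refine ⟨prism H w, ?_, ?_⟩
  · refine map_mem_of_supported (prism H) _ (fun σ hσ => ?_) hw.1
    rw [prism_single]
    exact single_mem_C _ (hcube hσ.1) (hok _) 1
  · rw [bd_prism (C_le_univ _ _ hw.1), sub_sub_cancel]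
    refine map_mem_of_supported (prism H) _ (fun σ hσ => ?_) hw.2
    obtain ⟨h1, -, h2⟩ := hσ
    rw [prism_single]
    have h3 := hcube h1
    rw [sub_add_cancel] at h3
    refine single_mem_Q _ h3 (hok _) ?_ 1
    rcases h2 with ⟨i, h2⟩ | h2
    · left
      rcases h2 with h2 | h2
      · exact hH i 0 (Or.inl rfl) _ fun u => h2 _
      · exact hH i 1 (Or.inr rfl) _ fun u => h2 _
    · right
      have := degen_cross_right (n := 1) (by exact_mod_cast iota_isCube) h2
      rw [Nat.cast_one, add_sub_cancel] at this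
      exact this.comp H

end Pool.Agent.TC
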