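import Pool.Agent.Lib.TC.QD
import Pool.Agent.Lib.TC.SuspH

/-!
# Section 10.3: the secondary invariant `q`
-/

namespace Pool.Agent.TC

open CubeHom

namespace QIAux

section basic

variable {Y : Type} [TopologicalSpace Y]

theorem dl_sub {A : Type} [AddCommGroup A] (k : ℕ) (u v : C(Cb, Y) → A) (σ : C(Cb, Y)) :
    dl k (fun τ => u τ - v τ) σ = dl k u σ - dl k v σ := by
  rw [dl, dl, dl, ← Finset.sum_sub_distrib]
  refine Finset.sum_congr rfl fun i _ => ?_
  rw [← smul_sub]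
  congr 1
  abel

theorem dl_map {A B : Type} [AddCommGroup A] [AddCommGroup B] (g : A →+ B) (k : ℕ)
    (u : C(Cb, Y) → A) (σ : C(Cb, Y)) : dl k (fun τ => g (u τ)) σ = g (dl k u σ) := by
  rw [dl, dl, map_sum]
  refine Finset.sum_congr rfl fun i _ => ?_
  rw [map_zsmul, map_sub]

theorem sub_eq_add_two (a b : ZMod 2) : a - b = a + b := by
  revert a b; decide

theorem evB_dec (B Rr : Finset ℕ) (j : ℕ) (hj : j ∉ B) :
    (wI1 B Rr j = none ∧ wI2 B Rr j ≠ none) ∨ (wI1 B Rr j ≠ none ∧ wI2 B Rr j = none) := by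
  by_cases hR : j ∈ Rr <;> by_cases he : evB B j <;> simp [wI1, wI2, hj, hR, he]

theorem card_wI (n : ℕ) (B Rr : Finset ℕ) (hB : B ⊆ Finset.range n) :
    ((Finset.range n).filter (fun j => wI1 B Rr j = none)).card +
      ((Finset.range n).filter (fun j => wI2 B Rr j = none)).card = n + B.card := by
  have h1 : B.card = ∑ j ∈ Finset.range n, if j ∈ B then 1 else 0 := by
    rw [← Finset.card_filter]
    congr 1
    ext j
    rw [Finset.mem_filter]
    exact ⟨fun h => ⟨hB h, h⟩, fun h => h.2⟩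
  have h2 : n + B.card = ∑ j ∈ Finset.range n, (1 + if j ∈ B then 1 else 0) := by
    rw [Finset.sum_add_distrib, ← h1]
    simp
  rw [h2, Finset.card_filter, Finset.card_filter, ← Finset.sum_add_distrib]
  refine Finset.sum_congr rfl fun j _ => ?_
  by_cases hj : j ∈ B
  · simp [wI1, wI2, hj]
  · rcases evB_dec B Rr j hj with ⟨h, h'⟩ | ⟨h, h'⟩ <;> simp [h, h', hj]

/-- The cup-i product depends only on the values on the `ok` cubes of the right degrees. -/
theorem cupI_congr (S : CS Y) {i n p q : ℕ} (hpq : p + q = n + i)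
    {u u' v v' : C(Cb, Y) → ZMod 2}
    (hu : ∀ σ, IsCube (p : ℤ) σ → S.ok σ → u σ = u' σ)
    (hv : ∀ σ, IsCube (q : ℤ) σ → S.ok σ → v σ = v' σ) {σ : C(Cb, Y)}
    (hσ : IsCube (n : ℤ) σ) (hok : S.ok σ) : cupI i n p u v σ = cupI i n p u' v' σ := by
  rw [cupI, cupI]
  refine Finset.sum_congr rfl fun B hB => Finset.sum_congr rfl fun Rr _ => ?_
  rw [Finset.mem_powersetCard] at hB
  split_ifs with hp
  · have h1 := isCube_fc (w := wI1 B Rr) hσ
    have h2 := isCube_fc (w := wI2 B Rr) hσ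
    have h3 := card_wI n B Rr hB.1
    rw [hp] at h1
    have h4 : ((Finset.range n).filter (fun j => wI2 B Rr j = none)).card = q := by omega
    rw [h4] at h2
    rw [hu _ h1 (S.ok_comp _ _ hok), hv _ h2 (S.ok_comp _ _ hok)]
  · rfl

theorem sq2_congr (S : CS Y) {j : ℕ} {u u' : C(Cb, Y) → ZMod 2}
    (hu : ∀ σ, IsCube (j : ℤ) σ → S.ok σ → u σ = u' σ) {σ : C(Cb, Y)}
    (hσ : IsCube ((j + 2 : ℕ) : ℤ) σ) (hok : S.ok σ) : sq2 j u σ = sq2 j u' σ := by
  rw [sq2, sq2]
  split_ifs with hj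
  · exact cupI_congr S (by omega) hu hu hσ hok
  · rfl

theorem sq2f_congr (S : CS Y) {j : ℕ} (hj : 2 ≤ j) {u u' : C(Cb, Y) → ZMod 2}
    (hu : ∀ σ, IsCube (j : ℤ) σ → S.ok σ → u σ = u' σ) {σ : C(Cb, Y)}
    (hσ : IsCube ((j + 2 : ℕ) : ℤ) σ) (hok : S.ok σ) : sq2f j u σ = sq2f j u' σ := by
  rw [sq2f, sq2f]
  congr 1
  · exact cupI_congr S (by omega) hu hu hσ hok
  · refine cupI_congr S (q := j + 1) (by omega) hu ?_ hσ hok
    intro τ hτ hokτ
    rw [dl, dl]
    refine Finset.sum_congr rfl fun i hi => ?_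
    have hi' : ((i : ℕ) : ℤ) < ((j + 1 : ℕ) : ℤ) := by
      exact_mod_cast Finset.mem_range.1 hi
    have h1 : ∀ e, IsCube (j : ℤ) (τ.comp (ins i e)) := by
      intro e
      have := hτ.face hi' e
      have h2 : ((j + 1 : ℕ) : ℤ) - 1 = (j : ℤ) := by push_cast; ring
      rwa [h2] at this
    rw [hu _ (h1 1) (S.ok_comp _ _ hokτ), hu _ (h1 0) (S.ok_comp _ _ hokτ)]

theorem rel_pb {X : Type} [TopologicalSpace X] {A : Type} [AddCommGroup A] {S : CS X} {T : CS Y}
    {f : C(X, Y)} (hf : S.Maps T f) {k : ℕ} {u : C(Cb, Y) → A} (hu : T.Rel k u) :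
    S.Rel k (pb f u) := by
  intro σ hσ hok hn
  exact hu _ (hσ.comp f) (hf.1 σ hok) (hn.imp (hf.2 σ hok) (fun h => h.comp f))

theorem sq2f_rel (S : CS Y) {j : ℕ} (hj : 2 ≤ j) {c : C(Cb, Y) → ZMod 2} (hc : S.Rel j c) :
    S.Rel (j + 2) (sq2f j c) := by
  intro σ hσ hok hn
  rw [sq2f, cupI_rel S (i := j - 2) (n := j + 2) (p := j) (q := j) (by omega) hc hc σ hσ hok hn,
    cupI_rel S (i := j - 1) (n := j + 2) (p := j) (q := j + 1) (by omega) hc (dl_rel S hc)
      σ hσ hok hn, add_zero]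

theorem bd_of_hz {S : CS Y} {R : Type} [CommRing R] {k : ℤ} (h : S.Hz R k) {c : Ch R Y}
    (hc : c ∈ S.Z R k) : S.Bd R k c := h c hc

theorem maps_atTime (S : CS Y) (e : I) :
    S.Maps S.cyl (atTime (ContinuousMap.id (I × Y)) e) :=
  ⟨fun _ h => h, fun _ _ h => h⟩

end basic

end QIAux

open QIAux

variable {Q : Type} [TopologicalSpace Q] {SQ : CS Q} {n : ℕ}

/-- Sq^2 is zero on the classes of degree `n`. -/
def SqZ {Y : Type} [TopologicalSpace Y] (S : CS Y) (n : ℕ) : Prop :=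
  ∀ c : C(Cb, Y) → ZMod 2, S.Coc n c → S.Cob (n + 1) (sq2 n c)

/-- The integrand. -/
def QData.cur (D : QData SQ n) {Y : Type} [TopologicalSpace Y] (f : C(Y, Q))
    (c : C(Cb, Y) → ZMod 2) : C(Cb, Y) → ZMod 4 := fun σ =>
  D.V (f.comp σ) - i2 (sq2f n c σ) - i2 (D.e (f.comp σ))

/-- `v` is a value of the invariant of `f` on the relative cycle `y`. -/
def QData.IsQ (D : QData SQ n) {Y : Type} [TopologicalSpace Y] (S : CS Y) (f : C(Y, Q))
    (y : Ch (ZMod 4) Y) (v : ZMod 4) : Prop :=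
  ∃ c : C(Cb, Y) → ZMod 2, S.Rel n c ∧
    (∀ σ, IsCube ((n + 1 : ℕ) : ℤ) σ → S.ok σ → dl n c σ = D.U (f.comp σ)) ∧
    v = Finsupp.linearCombination (ZMod 4) (D.cur f c) y

variable (D : QData SQ n) {Y Y' : Type} [TopologicalSpace Y] [TopologicalSpace Y'] {S : CS Y}
  {S' : CS Y'} {f : C(Y, Q)} {y : Ch (ZMod 4) Y} {v v' : ZMod 4}

theorem QData.cur_coc (hn : 2 ≤ n) (hf : S.Maps SQ f) {c : C(Cb, Y) → ZMod 2} (hc : S.Rel n c)
    (hdc : ∀ σ, IsCube ((n + 1 : ℕ) : ℤ) σ → S.ok σ → dl n c σ = D.U (f.comp σ)) :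
    S.Coc (n + 2) (D.cur f c) := by
  refine ⟨?_, ?_⟩
  · intro σ hσ hok hnul
    have h1 : D.V (f.comp σ) = 0 := rel_pb hf D.V_rel σ hσ hok hnul
    have h2 : D.e (f.comp σ) = 0 := rel_pb hf D.e_rel σ hσ hok hnul
    rw [QData.cur, h1, h2, sq2f_rel S hn hc σ hσ hok hnul]
    simp
  · intro σ hσ hok
    have h0 : D.cur f c = fun τ => (fun τ => pb f D.V τ - (fun τ => i2 (sq2f n c τ)) τ) τ -
      (fun τ => i2 (pb f D.e τ)) τ := rfl
    rw [h0, dl_sub, dl_sub, dl_map, dl_map]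
    have h1 : dl (n + 2) (pb f D.V) σ = dl (n + 2) D.V (f.comp σ) := rfl
    have h2 : dl (n + 2) (pb f D.e) σ = dl (n + 2) D.e (f.comp σ) := rfl
    have h3 : sq2 (n + 1) (dl n c) σ = sq2 (n + 1) D.U (f.comp σ) := by
      have h4 : sq2 (n + 1) D.U (f.comp σ) = sq2 (n + 1) (pb f D.U) σ := by
        rw [sq2, sq2]
        split_ifs
        · rfl
        · rfl
      rw [h4]
      exact sq2_congr S hdc hσ hok
    rw [h1, h2, D.dV _ (hσ.comp f) (hf.1 σ hok), sq2f_dl S hn hc hσ hok, h3, map_add]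
    ring

theorem QData.unique (hn : 2 ≤ n) (hS : SqZ S n) (hy : y ∈ S.Z (ZMod 4) ((n + 2 : ℕ) : ℤ))
    (h : D.IsQ S f y v) (h' : D.IsQ S f y v') : v = v' := by
  obtain ⟨c, hc, hdc, hv⟩ := h
  obtain ⟨c', hc', hdc', hv'⟩ := h'
  -- the difference
  have hz : S.Coc n (fun τ => c' τ - c τ) := by
    refine ⟨fun σ hσ hok hnul => ?_, fun σ hσ hok => ?_⟩
    · change c' σ - c σ = 0
      rw [hc σ hσ hok hnul, hc' σ hσ hok hnul, sub_zero]
    · rw [dl_sub, hdc σ hσ hok, hdc' σ hσ hok, sub_self]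
  obtain ⟨w1, hw1, hw1'⟩ := sq2f_add S hn hc hz
  obtain ⟨w2, hw2, hw2'⟩ := hS _ hz
  have h1 : (fun τ => c τ + (c' τ - c τ)) = c' := by
    funext τ
    ring
  have key : S.Cob (n + 1) (fun σ => D.cur f c σ - D.cur f c' σ) := by
    refine ⟨fun τ => i2 (w1 τ - (0 - w2 τ)), fun σ hσ hok hnul => ?_, fun σ hσ hok => ?_⟩
    · change i2 (w1 σ - (0 - w2 σ)) = 0
      rw [hw1 σ hσ hok hnul, hw2 σ hσ hok hnul]
      simp
    · have h2 := hw1' σ hσ hok
      have h3 := hw2' σ hσ hok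
      rw [h1] at h2
      have h4 : dl (n + 1) (fun τ => i2 (w1 τ - (0 - w2 τ))) σ =
          i2 (dl (n + 1) w1 σ + dl (n + 1) w2 σ) := by
        rw [dl_map, dl_sub]
        congr 1
        have h5 : dl (n + 1) (fun τ => 0 - w2 τ) σ = - dl (n + 1) w2 σ := by
          rw [dl_sub (n + 1) (fun _ => 0) w2]
          simp [dl]
        rw [h5]
        ring
      rw [h4, ← h2, ← h3]
      have h6 : sq2f n c' σ - sq2f n c σ - sq2 n (fun τ => c' τ - c τ) σ +
          sq2 n (fun τ => c' τ - c τ) σ = sq2f n c' σ - sq2f n c σ := by ring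
      change (D.V (f.comp σ) - i2 (sq2f n c σ) - i2 (D.e (f.comp σ))) -
        (D.V (f.comp σ) - i2 (sq2f n c' σ) - i2 (D.e (f.comp σ))) = i2 _
      rw [h6, map_sub]
      ring
  have h2 := cob_cyc (R := ZMod 4) S key hy
  have h3 : Finsupp.linearCombination (ZMod 4) (fun σ => D.cur f c σ - D.cur f c' σ) y =
      Finsupp.linearCombination (ZMod 4) (D.cur f c) y -
        Finsupp.linearCombination (ZMod 4) (D.cur f c') y := by
    rw [Finsupp.linearCombination_apply, Finsupp.linearCombination_apply,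
      Finsupp.linearCombination_apply, ← Finsupp.sum_sub]
    refine Finsupp.sum_congr fun σ _ => ?_
    rw [smul_sub]
  rw [h3, ← hv, ← hv'] at h2
  exact sub_eq_zero.1 h2

theorem QData.exists_val (hS : S.Hz (ZMod 2) ((n + 1 : ℕ) : ℤ)) (hf : S.Maps SQ f)
    (y : Ch (ZMod 4) Y) : ∃ v, D.IsQ S f y v := by
  have : Fact (Nat.Prime 2) := ⟨Nat.prime_two⟩
  have h1 : S.Coc (n + 1) (pb f D.U) := hf.coc D.U_coc
  obtain ⟨c, hc, hdc⟩ := uct (extProp_field (K := ZMod 2)) S h1
    (fun c hc => coc_bd (R := ZMod 2) S h1 (hS c hc))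
  exact ⟨_, c, hc, fun σ hσ hok => (hdc σ hσ hok).symm, rfl⟩

theorem QData.of_bd (hn : 2 ≤ n) (hf : S.Maps SQ f) {y' : Ch (ZMod 4) Y}
    (hy : S.Bd (ZMod 4) ((n + 2 : ℕ) : ℤ) (y - y')) (h : D.IsQ S f y v) : D.IsQ S f y' v := by
  obtain ⟨c, hc, hdc, hv⟩ := h
  refine ⟨c, hc, hdc, ?_⟩
  have h1 := coc_bd (R := ZMod 4) S (D.cur_coc hn hf hc hdc) hy
  rw [map_sub] at h1
  rw [hv]
  exact sub_eq_zero.1 h1

theorem QData.of_smul_add {ε : ZMod 4} {y1 y2 : Ch (ZMod 4) Y}
    (h : D.IsQ S f (ε • (y1 + y2)) v) :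
    ∃ v1 v2, D.IsQ S f y1 v1 ∧ D.IsQ S f y2 v2 ∧ v = ε * (v1 + v2) := by
  obtain ⟨c, hc, hdc, hv⟩ := h
  refine ⟨_, _, ⟨c, hc, hdc, rfl⟩, ⟨c, hc, hdc, rfl⟩, ?_⟩
  rw [hv, map_smul, map_add, smul_eq_mul]

theorem QData.of_push {g : C(Y', Y)} (hg : S'.Maps S g) {y : Ch (ZMod 4) Y'}
    (h : D.IsQ S f (push g y) v) : D.IsQ S' (f.comp g) y v := by
  obtain ⟨c, hc, hdc, hv⟩ := h
  refine ⟨pb g c, rel_pb hg hc, fun σ hσ hok => hdc _ (hσ.comp g) (hg.1 σ hok), ?_⟩
  rw [hv, lc_push]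
  rfl

/-- Fewer zero cubes. -/
theorem QData.of_kill {𝒱 : Set (Set Y)} (h : D.IsQ (S.kill 𝒱) f y v) : D.IsQ S f y v := by
  obtain ⟨c, hc, hdc, hv⟩ := h
  exact ⟨c, fun σ hσ hok hnul => hc σ hσ hok (hnul.imp_left Or.inl), hdc, hv⟩

theorem QData.homotopy (hn : 2 ≤ n) (hS : SqZ S n) (hS' : S.Hz (ZMod 2) ((n + 1 : ℕ) : ℤ))
    (hy : y ∈ S.Z (ZMod 4) ((n + 2 : ℕ) : ℤ)) {H : C(I × Y, Q)} (hH : S.cyl.Maps SQ H)
    (h : D.IsQ S (atTime H 0) y v) : D.IsQ S (atTime H 1) y v := by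
  obtain ⟨v0, h0⟩ := D.exists_val (CS.cyl_hz hS') hH
    (push (atTime (ContinuousMap.id (I × Y)) 1) y)
  have h1 := D.of_bd hn hH (CS.cyl_bd S hy) h0
  have h2 := D.of_push (maps_atTime S 1) h0
  have h3 := D.of_push (maps_atTime S 0) h1
  have h4 : v = v0 := D.unique hn hS hy h h3
  rw [h4]
  exact h2

/-- If small cubes go to zero cubes then the invariant is zero. -/
theorem QData.null (hn : 2 ≤ n) (hS : SqZ S n) (hok : ∀ σ, S.ok σ) (hf : S.Maps SQ f)
    (hy : y ∈ S.Z (ZMod 4) ((n + 2 : ℕ) : ℤ)) {𝒱 : Set (Set Y)} (hV : ∀ V ∈ 𝒱, IsOpen V)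
    (hcov : ⋃₀ 𝒱 = Set.univ)
    (hnul : ∀ V ∈ 𝒱, ∀ σ : C(Cb, Y), (∀ u, σ u ∈ V) → SQ.nul (f.comp σ))
    (h : D.IsQ S f y v) : v = 0 := by
  have hcov' : ∀ σ, S.ok σ → ∀ u, ∃ V ∈ 𝒱, σ u ∈ V := by
    intro σ _ u
    have h1 : σ u ∈ ⋃₀ 𝒱 := by
      rw [hcov]
      exact Set.mem_univ _
    exact h1
  have hmap : (S.kill 𝒱).Maps SQ f := by
    refine ⟨hf.1, fun σ hσ hn' => ?_⟩
    rcases hn' with h1 | ⟨V, hV', h1⟩
    · exact hf.2 σ hσ h1
    · exact hnul V hV' σ h1
  obtain ⟨v0, h0⟩ := D.exists_val (CS.kill_all S hV hcov' _) hmap y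
  have hy' : y ∈ (S.kill 𝒱).Z (ZMod 4) ((n + 2 : ℕ) : ℤ) := by
    refine ⟨hy.1, ?_⟩
    have h2 : S.Q (ZMod 4) (((n + 2 : ℕ) : ℤ) - 1) ≤
        (S.kill 𝒱).Q (ZMod 4) (((n + 2 : ℕ) : ℤ) - 1) := by
      refine Finsupp.supported_mono ?_
      rintro σ ⟨ha, hb, hc⟩
      exact ⟨ha, hb, hc.imp_left Or.inl⟩
    exact h2 hy.2
  have hv0 : v0 = 0 := by
    obtain ⟨c, hc, hdc, hv⟩ := h0
    rw [hv]
    exact coc_bd (R := ZMod 4) (S.kill 𝒱) (D.cur_coc hn hmap hc hdc)
      (CS.kill_all S hV hcov' _ y hy')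
  have h1 := D.unique hn hS hy h (D.of_kill h0)
  rw [h1, hv0]

/-! ### Facts on the domains -/

namespace QIcAux

section cross

variable {R : Type*} [CommRing R] {X Y : Type*} [TopologicalSpace X] [TopologicalSpace Y]

theorem C_le (S : CS X) (k : ℤ) : S.C R k ≤ CubeHom.C R k Set.univ :=
  Finsupp.supported_mono fun _ h => ⟨h.1, fun _ => Set.mem_univ _⟩

theorem Q_single (S : CS X) {k : ℤ} {σ : C(Cb, X)} (h1 : IsCube k σ) (h2 : S.ok σ)
    (h3 : S.nul σ ∨ Degen k σ) (r : R) : Finsupp.single σ r ∈ S.Q R k :=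
  single_mem_supported (S := {σ | IsCube k σ ∧ S.ok σ ∧ (S.nul σ ∨ Degen k σ)}) ⟨h1, h2, h3⟩ r

theorem C_single (S : CS X) {k : ℤ} {σ : C(Cb, X)} (h1 : IsCube k σ) (h2 : S.ok σ) (r : R) :
    Finsupp.single σ r ∈ S.C R k :=
  single_mem_supported (S := {σ | IsCube k σ ∧ S.ok σ}) ⟨h1, h2⟩ r

theorem cr_C (S : CS X) (T : CS Y) {n : ℕ} {k : ℤ} {x : Ch R X} {y : Ch R Y}
    (hx : x ∈ S.C R n) (hy : y ∈ T.C R k) : cr n x y ∈ (S.prod T).C R (n + k) := by
  refine cr_mem_of_supported _ (fun τ hτ σ hσ => ?_) hx hy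
  exact C_single (S.prod T) (isCube_cross hτ.1 hσ.1) ⟨hτ.2, T.ok_comp _ _ hσ.2⟩ _

theorem cr_Ql (S : CS X) (T : CS Y) {n : ℕ} {k : ℤ} {x : Ch R X} {y : Ch R Y}
    (hx : x ∈ S.Q R n) (hy : y ∈ T.C R k) : cr n x y ∈ (S.prod T).Q R (n + k) := by
  refine cr_mem_of_supported _ (fun τ hτ σ hσ => ?_) hx hy
  refine Q_single (S.prod T) (isCube_cross hτ.1 hσ.1) ⟨hτ.2.1, T.ok_comp _ _ hσ.2⟩ ?_ _
  exact hτ.2.2.imp (fun h => Or.inl h) (fun h => degen_cross_left h hσ.1)

theorem cr_Qr (S : CS X) (T : CS Y) {n : ℕ} {k : ℤ} {x : Ch R X} {y : Ch R Y}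
    (hx : x ∈ S.C R n) (hy : y ∈ T.Q R k) : cr n x y ∈ (S.prod T).Q R (n + k) := by
  refine cr_mem_of_supported _ (fun τ hτ σ hσ => ?_) hx hy
  refine Q_single (S.prod T) (isCube_cross hτ.1 hσ.1) ⟨hτ.2, T.ok_comp _ _ hσ.2.1⟩ ?_ _
  exact hσ.2.2.imp (fun h => Or.inr (T.nul_comp _ _ h)) (fun h => degen_cross_right hτ.1 h)

theorem cr_bd_left (S : CS X) (T : CS Y) {n : ℕ} {k : ℤ} {x : Ch R X} {y : Ch R Y}
    (hx : S.Bd R n x) (hy : y ∈ T.Z R k) : (S.prod T).Bd R (n + k) (cr n x y) := by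
  obtain ⟨b, hb, hq⟩ := hx
  have hb' : b ∈ S.C R ((n + 1 : ℕ) : ℤ) := by exact_mod_cast hb
  have e1 : (((n + 1 : ℕ) : ℤ) + k) = (n + k) + 1 := by push_cast; ring
  refine ⟨cr (n + 1) b y, ?_, ?_⟩
  · rw [← e1]
    exact cr_C S T hb' hy.1
  · have h := bd_cr (R := R) (C_le S _ hb') (C_le T _ hy.1)
    rw [← e1, h, Nat.add_sub_cancel]
    have e2 : cr n x y - (cr n (bd ((n + 1 : ℕ) : ℤ) b) y +
        (-1 : R) ^ (n + 1) • cr (n + 1) b (bd k y)) =
        cr n (x - bd ((n : ℤ) + 1) b) y - (-1 : R) ^ (n + 1) • cr (n + 1) b (bd k y) := by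
      rw [map_sub, LinearMap.sub_apply]
      push_cast
      abel
    rw [e2]
    refine Submodule.sub_mem _ (cr_Ql S T hq hy.1) (Submodule.smul_mem _ _ ?_)
    have h3 := cr_Qr S T hb' (show bd k y ∈ T.Q R (k - 1) from hy.2)
    have e3 : (((n + 1 : ℕ) : ℤ) + (k - 1)) = n + k := by push_cast; ring
    rwa [e3] at h3

theorem cr_bd_right (S : CS X) (T : CS Y) {n : ℕ} {k : ℤ} {x : Ch R X} {y : Ch R Y}
    (hx : x ∈ S.Z R n) (hy : T.Bd R k y) : (S.prod T).Bd R (n + k) (cr n x y) := by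
  obtain ⟨b, hb, hq⟩ := hy
  refine ⟨(-1 : R) ^ n • cr n x b, Submodule.smul_mem _ _ ?_, ?_⟩
  · have h := cr_C S T hx.1 hb
    rwa [← add_assoc] at h
  · have h := bd_cr (R := R) (C_le S _ hx.1) (C_le T _ hb)
    rw [map_smul, add_assoc, h]
    have e0 : (-1 : R) ^ n * (-1) ^ n = 1 := by
      rw [← pow_add, ← two_mul, pow_mul]; simp
    have e2 : cr n x y - (-1 : R) ^ n • (cr (n - 1) (bd n x) b +
        (-1 : R) ^ n • cr n x (bd (k + 1) b)) =
        cr n x (y - bd (k + 1) b) - (-1 : R) ^ n • cr (n - 1) (bd n x) b := by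
      rw [map_sub, smul_add, smul_smul, e0, one_smul]
      abel
    rw [e2]
    refine Submodule.sub_mem _ (cr_Qr S T hx.1 hq) (Submodule.smul_mem _ _ ?_)
    rcases Nat.eq_zero_or_pos n with h0 | h0
    · subst h0
      have : bd ((0 : ℕ) : ℤ) x = 0 := by
        rw [bd_apply]; simp
      rw [this, map_zero, LinearMap.zero_apply]
      exact Submodule.zero_mem _
    · have e3 : ((n - 1 : ℕ) : ℤ) = (n : ℤ) - 1 := by omega
      have h3 := cr_Ql S T (n := n - 1) (by rw [e3]; exact hx.2) hb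
      have e4 : ((n - 1 : ℕ) : ℤ) + (k + 1) = n + k := by omega
      rwa [e4] at h3

theorem Bd_add (S : CS X) {k : ℤ} {c d : Ch R X} (hc : S.Bd R k c) (hd : S.Bd R k d) :
    S.Bd R k (c + d) := by
  obtain ⟨a, ha, ha'⟩ := hc
  obtain ⟨b, hb, hb'⟩ := hd
  refine ⟨a + b, Submodule.add_mem _ ha hb, ?_⟩
  have e : c + d - bd (k + 1) (a + b) = (c - bd (k + 1) a) + (d - bd (k + 1) b) := by
    rw [map_add]; abel
  rw [e]
  exact Submodule.add_mem _ ha' hb'

theorem Bd_zero (S : CS X) {k : ℤ} : S.Bd R k (0 : Ch R X) :=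
  ⟨0, Submodule.zero_mem _, by rw [map_zero, sub_zero]; exact Submodule.zero_mem _⟩

theorem Bd_sum (S : CS X) {k : ℤ} {ι : Type*} (s : Finset ι) (f : ι → Ch R X)
    (h : ∀ i ∈ s, S.Bd R k (f i)) : S.Bd R k (∑ i ∈ s, f i) :=
  Finset.sum_induction f (S.Bd R k) (fun _ _ => Bd_add S) (Bd_zero S) h

end cross

section faces

variable {R : Type*} [CommRing R] {N : Type*} [TopologicalSpace N]

theorem fcr_Q (m : ℕ) {k : ℤ} {c : Ch R N} (hc : c ∈ (CS.top N).Q R k) :
    fcr m c ∈ (CS.faces m N).Q R (m + k) := by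
  refine map_mem_of_supported (cr m (Finsupp.single (idCube m) (1 : R))) _ (fun σ hσ => ?_) hc
  obtain ⟨h1, -, h3⟩ := hσ
  rw [cr_single_single, one_mul]
  refine Q_single _ (isCube_cross (idCube_isCube m) h1) trivial (Or.inr ?_) 1
  rcases h3 with h3 | h3
  · exact h3.elim
  · exact degen_cross_right (idCube_isCube m) h3

theorem fcr_face (m : ℕ) {k : ℤ} {c : Ch R N} (hc : c ∈ CubeHom.C R k Set.univ) :
    cr (m - 1) (bd (m : ℤ) (Finsupp.single (idCube m) (1 : R))) c ∈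
      (CS.faces m N).Q R (m + k - 1) := by
  rw [bd_apply, map_sum, LinearMap.sum_apply]
  refine Submodule.sum_mem _ fun i hi => ?_
  rw [Int.toNat_natCast, Finset.mem_range] at hi
  rw [map_smul, LinearMap.smul_apply]
  refine Submodule.smul_mem _ _ ?_
  rw [map_sub, LinearMap.sub_apply]
  have key : ∀ e : I, (e = 0 ∨ e = 1) →
      cr (m - 1) (face i e (Finsupp.single (idCube m) (1 : R))) c ∈
        (CS.faces m N).Q R (m + k - 1) := by
    intro e he
    rw [face_single]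
    refine map_mem_of_supported (cr (m - 1) (Finsupp.single ((idCube m).comp (ins i e)) (1 : R)))
      _ (fun σ hσ => ?_) hc
    obtain ⟨h1, -⟩ := hσ
    rw [cr_single_single, one_mul]
    have h2 : IsCube ((m - 1 : ℕ) : ℤ) ((idCube m).comp (ins i e)) := by
      have := (idCube_isCube m).face (i := i) (by omega) e
      rwa [show ((m - 1 : ℕ) : ℤ) = (m : ℤ) - 1 by omega]
    have h3 := isCube_cross h2 h1
    rw [show ((m - 1 : ℕ) : ℤ) + k = (m : ℤ) + k - 1 by omega] at h3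
    refine Q_single (CS.faces m N) h3 trivial (Or.inl ⟨⟨i, hi⟩, ?_⟩) 1
    have h4 : ∀ u, (crossCube (m - 1) ((idCube m).comp (ins i e)) σ u).1 ⟨i, hi⟩ = e := by
      intro u
      exact ins_apply_self i e u
    rcases he with rfl | rfl
    · exact Or.inl h4
    · exact Or.inr h4
  exact Submodule.sub_mem _ (key 1 (Or.inr rfl)) (key 0 (Or.inl rfl))

theorem fcr_bd (m : ℕ) {j : ℤ} {c : Ch R N} (h : (CS.top N).Bd R j c) :
    (CS.faces m N).Bd R (m + j) (fcr m c) := by
  obtain ⟨b, hb, hq⟩ := h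
  have hid : (Finsupp.single (idCube m) 1 : Ch R (Fin m → I)) ∈ CubeHom.C R m Set.univ :=
    mem_C_single (idCube_isCube m) (fun _ => Set.mem_univ _) _
  refine ⟨(-1 : R) ^ m • fcr m b, Submodule.smul_mem _ _ ?_, ?_⟩
  · refine map_mem_of_supported (cr m (Finsupp.single (idCube m) (1 : R))) _ (fun σ hσ => ?_) hb
    rw [cr_single_single, one_mul]
    have h1 := isCube_cross (idCube_isCube m) hσ.1
    rw [← add_assoc] at h1
    exact C_single _ h1 trivial 1
  · have h := bd_cr (R := R) hid (C_le _ _ hb)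
    unfold fcr
    rw [map_smul, add_assoc, h]
    have e0 : (-1 : R) ^ m * (-1) ^ m = 1 := by
      rw [← pow_add, ← two_mul, pow_mul]; simp
    have e2 : cr m (Finsupp.single (idCube m) (1 : R)) c -
        (-1 : R) ^ m • (cr (m - 1) (bd m (Finsupp.single (idCube m) (1 : R))) b +
        (-1 : R) ^ m • cr m (Finsupp.single (idCube m) (1 : R)) (bd (j + 1) b)) =
        fcr m (c - bd (j + 1) b) -
          (-1 : R) ^ m • cr (m - 1) (bd m (Finsupp.single (idCube m) (1 : R))) b := by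
      unfold fcr
      rw [map_sub, smul_add, smul_smul, e0, one_smul]
      abel
    rw [e2]
    refine Submodule.sub_mem _ (fcr_Q m hq) (Submodule.smul_mem _ _ ?_)
    have h3 := fcr_face (R := R) m (C_le _ _ hb)
    have e4 : (m : ℤ) + (j + 1) - 1 = m + j := by ring
    rwa [e4] at h3

end faces

section sq

open CI1Aux CI2Aux CI4Aux

variable {N : Type} [TopologicalSpace N]

/-- The cochain of the second factor. -/
def fac (m : ℕ) (c : C(Cb, (Fin m → I) × N) → ZMod 2) : C(Cb, N) → ZMod 2 :=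
  fun σ => c (crossCube m (idCube m) σ)

theorem fac_key {m j l : ℕ} {c : C(Cb, (Fin m → I) × N) → ZMod 2}
    (hc : (CS.faces m N).Rel (m + j) c) {σ : C(Cb, N)} (hσ : IsCube (l : ℤ) σ) (w : W)
    (hw : cnt (m + l) w = m + j) :
    c ((crossCube m (idCube m) σ).comp (fc (m + l) w)) =
      if cnt m w = m then fac m c (σ.comp (fc l (sh m w))) else 0 := by
  rw [crossCube_fc (idCube_isCube m) hσ]
  by_cases h : cnt m w = m
  · rw [if_pos h, h]
    have hn : ∀ i < m, w i = none := by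
      intro i hi
      by_contra hne
      have h1 : ((Finset.range m).filter (fun j => w j = none)) ⊂ Finset.range m := by
        rw [Finset.ssubset_iff_of_subset (Finset.filter_subset _ _)]
        exact ⟨i, Finset.mem_range.2 hi, fun h => hne (Finset.mem_filter.1 h).2⟩
      have h2 := Finset.card_lt_card h1
      rw [Finset.card_range] at h2
      unfold cnt at h
      omega
    have h1 : fc m w = fc m (fun _ => none) := fc_congr hn
    rw [h1, fc_none]
    rfl
  · rw [if_neg h]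
    have h1 : ∃ i < m, w i ≠ none := by
      by_contra hcon
      push Not at hcon
      apply h
      unfold cnt
      rw [Finset.filter_true_of_mem (fun i hi => hcon i (Finset.mem_range.1 hi)),
        Finset.card_range]
    obtain ⟨i, hi, hwi⟩ := h1
    have h2 : IsCube ((m + j : ℕ) : ℤ) (crossCube (cnt m w) ((idCube m).comp (fc m w))
        (σ.comp (fc l (sh m w)))) := by
      have h3 := isCube_cross (isCube_cnt (w := w) rfl (idCube_isCube m))
        (isCube_cnt (w := sh m w) rfl hσ)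
      rw [cnt_add] at hw
      rw [← hw]
      exact_mod_cast h3
    refine hc _ h2 trivial (Or.inl ⟨⟨i, hi⟩, ?_⟩)
    obtain ⟨b, hb⟩ := Option.ne_none_iff_exists'.1 hwi
    have h4 : ∀ u, (crossCube (cnt m w) ((idCube m).comp (fc m w))
        (σ.comp (fc l (sh m w))) u).1 ⟨i, hi⟩ = bitI b := by
      intro u
      show fc m w u i = bitI b
      rw [fc_apply_lt hi, hb]
    cases b
    · exact Or.inl h4
    · exact Or.inr h4

theorem sq2_fac {m j : ℕ} (hj : 2 ≤ j) {c : C(Cb, (Fin m → I) × N) → ZMod 2}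
    (hc : (CS.faces m N).Rel (m + j) c) {σ : C(Cb, N)} (hσ : IsCube ((j + 2 : ℕ) : ℤ) σ) :
    sq2 (m + j) c (crossCube m (idCube m) σ) = sq2 j (fac m c) σ := by
  obtain ⟨d, rfl⟩ : ∃ d, j = d + 2 := ⟨j - 2, by omega⟩
  unfold sq2
  rw [if_pos (by omega), if_pos hj]
  have e1 : m + (d + 2) - 2 = m + d := by omega
  have e2 : m + (d + 2) + 2 = m + (d + 2 + 2) := by omega
  rw [e1, e2, Nat.add_sub_cancel]
  have h1 : cupI (m + d) (m + (d + 2 + 2)) (m + (d + 2)) c c (crossCube m (idCube m) σ) =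
      S (m + (d + 2 + 2)) ((m + d : ℕ) : ℤ) (fun w1 w2 =>
        Sq m m (fun _ => 1) (idCube m) w1 w2 *
          Sq (d + 2 + 2) (d + 2) (fac m c) σ (sh m w1) (sh m w2)) := by
    rw [cupI_eq]
    apply S_congr
    intro w1 w2 hw
    simp only [FU, Sq]
    by_cases hw1 : cnt (m + (d + 2 + 2)) w1 = m + (d + 2)
    · have hw2 : cnt (m + (d + 2 + 2)) w2 = m + (d + 2) := by rw [hw1] at hw; push_cast at hw; omega
      rw [if_pos hw1, fac_key hc hσ w1 hw1, fac_key hc hσ w2 hw2]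
      rw [cnt_add] at hw1 hw2
      by_cases h1 : cnt m w1 = m
      · have h1' : cnt (d + 2 + 2) (sh m w1) = d + 2 := by omega
        by_cases h2 : cnt m w2 = m
        · have h2' : cnt (d + 2 + 2) (sh m w2) = d + 2 := by omega
          rw [if_pos h1, if_pos h2, if_pos ⟨h1, h2⟩, if_pos ⟨h1', h2'⟩]
          ring
        · rw [if_neg h2, if_neg (fun h : cnt m w1 = m ∧ cnt m w2 = m => h2 h.2), mul_zero,
            zero_mul]
      · rw [if_neg h1, if_neg (fun h : cnt m w1 = m ∧ cnt m w2 = m => h1 h.1), zero_mul, zero_mul]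
    · rw [if_neg hw1]
      rw [cnt_add] at hw1
      symm
      by_cases h1 : cnt m w1 = m ∧ cnt m w2 = m
      · rw [if_neg (fun h2 : cnt (d + 2 + 2) (sh m w1) = d + 2 ∧
          cnt (d + 2 + 2) (sh m w2) = d + 2 => hw1 (by omega)), mul_zero]
      · rw [if_neg h1, zero_mul]
  rw [h1, S_split m _ (loc_Sq m m _ _) (d + 2 + 2), Finset.sum_eq_single m]
  · have e3 : (((m + d : ℕ) : ℤ) - (m : ℤ)) = (d : ℤ) := by push_cast; ring
    rw [sw_Sq, e3, S_Sq_eq (by omega), S_Sq_eq (by omega), cupI_top, one_mul]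
  · intro s _ hs
    rw [S_Sq_ne (by norm_cast; omega), zero_mul]
  · intro h
    exact absurd (Finset.mem_range.2 (Nat.lt_succ_self m)) h

theorem fac_coc {m j : ℕ} {c : C(Cb, (Fin m → I) × N) → ZMod 2}
    (hc : (CS.faces m N).Coc (m + j) c) : (CS.top N).Coc j (fac m c) := by
  refine ⟨?_, ?_⟩
  · intro σ hσ _ h
    have h1 := isCube_cross (idCube_isCube m) hσ
    refine hc.1 _ (by exact_mod_cast h1) trivial (Or.inr ?_)
    rcases h with h | h
    · exact h.elim
    · have h2 := degen_cross_right (idCube_isCube m) h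
      exact_mod_cast h2
  · intro σ hσ _
    have h1 := isCube_cross (idCube_isCube m) hσ
    have h2 := hc.2 (crossCube m (idCube m) σ) (by
      have e : ((m + j + 1 : ℕ) : ℤ) = (m : ℤ) + ((j + 1 : ℕ) : ℤ) := by push_cast; ring
      rw [e]; exact h1) trivial
    unfold dl at h2 ⊢
    rw [show m + j + 1 = m + (j + 1) by ring, Finset.sum_range_add] at h2
    have h3 : ∀ i ∈ Finset.range m, ((-1 : ℤ) ^ i) •
        (c ((crossCube m (idCube m) σ).comp (ins i 1)) -
          c ((crossCube m (idCube m) σ).comp (ins i 0))) = 0 := by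
      intro i hi
      have hi' := Finset.mem_range.1 hi
      have key : ∀ e : I, (e = 0 ∨ e = 1) → c ((crossCube m (idCube m) σ).comp (ins i e)) = 0 := by
        intro e he
        have h5 : IsCube ((m + j : ℕ) : ℤ) ((crossCube m (idCube m) σ).comp (ins i e)) := by
          have h6 := h1.face (i := i) (by push_cast; omega) e
          have e6 : ((m : ℤ) + ((j + 1 : ℕ) : ℤ) - 1) = ((m + j : ℕ) : ℤ) := by push_cast; ring
          rwa [e6] at h6
        refine hc.1 _ h5 trivial (Or.inl ⟨⟨i, hi'⟩, ?_⟩)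
        have h4 : ∀ u, (((crossCube m (idCube m) σ).comp (ins i e)) u).1 ⟨i, hi'⟩ = e := by
          intro u
          exact ins_apply_self i e u
        rcases he with rfl | rfl
        · exact Or.inl h4
        · exact Or.inr h4
      rw [key 1 (Or.inr rfl), key 0 (Or.inl rfl), sub_zero, smul_zero]
    rw [Finset.sum_eq_zero h3, zero_add] at h2
    have h7 : ∀ i ∈ Finset.range (j + 1), ((-1 : ℤ) ^ (m + i)) •
        (c ((crossCube m (idCube m) σ).comp (ins (m + i) 1)) -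
          c ((crossCube m (idCube m) σ).comp (ins (m + i) 0))) =
        ((-1 : ℤ) ^ m) • (((-1 : ℤ) ^ i) •
          (fac m c (σ.comp (ins i 1)) - fac m c (σ.comp (ins i 0)))) := by
      intro i _
      rw [cross_ins_right i 1 (idCube_isCube m), cross_ins_right i 0 (idCube_isCube m), pow_add,
        mul_smul]
      rfl
    rw [Finset.sum_congr rfl h7, ← Finset.smul_sum] at h2
    rcases neg_one_pow_eq_or ℤ m with hm | hm
    · rwa [hm, one_smul] at h2
    · rw [hm, neg_smul, one_smul, neg_eq_zero] at h2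
      exact h2

end sq

end QIcAux

namespace QIdAux

open QIcAux QDdAux

variable {X Y : Type} [TopologicalSpace X] [TopologicalSpace Y] {K : Type} [Field K]

theorem prod_top (X Y : Type) [TopologicalSpace X] [TopologicalSpace Y] :
    (CS.top X).prod (CS.top Y) = CS.top (X × Y) := by
  unfold CS.prod CS.top
  congr 1
  · funext ω
    exact propext ⟨fun _ => trivial, fun _ => ⟨trivial, trivial⟩⟩
  · funext ω
    exact propext ⟨fun h => h.elim id id, fun h => Or.inl h⟩

/-- A cochain which vanishes on the boundaries is a cocycle. -/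
theorem coc_of_bd (S : CS X) {k : ℕ} {u : C(Cb, X) → K}
    (h : ∀ y : Ch K X, S.Bd K (k : ℤ) y → Finsupp.linearCombination K u y = 0) : S.Coc k u := by
  refine ⟨fun σ h1 h2 h3 => ?_, fun σ h1 h2 => ?_⟩
  · have h4 := h (Finsupp.single σ 1) ⟨0, Submodule.zero_mem _, by
      rw [map_zero, sub_zero]
      exact Q_single S h1 h2 h3 1⟩
    rwa [Finsupp.linearCombination_single, one_smul] at h4
  · have e : ((k + 1 : ℕ) : ℤ) = (k : ℤ) + 1 := by push_cast; rfl
    have h4 := h (bd ((k + 1 : ℕ) : ℤ) (Finsupp.single σ 1)) ⟨Finsupp.single σ 1, by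
      have h5 := C_single (R := K) S h1 h2 1
      rwa [e] at h5, by
      rw [e, sub_self]
      exact Submodule.zero_mem _⟩
    rwa [lc_bd, Finsupp.linearCombination_single, one_smul] at h4

/-- The Künneth formula for cocycles. -/
theorem kun {n : ℕ} {v : C(Cb, X × Y) → K} (hv : (CS.top (X × Y)).Coc n v)
    (h : ∀ m l : ℕ, m + l = n → ∀ x ∈ (CS.top X).Z K (m : ℤ), ∀ y ∈ (CS.top Y).Z K (l : ℤ),
      Finsupp.linearCombination K v (cr m x y) = 0) {w : Ch K (X × Y)}
    (hw : w ∈ (CS.top (X × Y)).Z K (n : ℤ)) : Finsupp.linearCombination K v w = 0 := by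
  rw [← prod_top] at hw
  obtain ⟨r, m, x, y, h1, h2⟩ := kunneth (CS.top X) (CS.top Y) hw
  rw [prod_top] at h2
  have h3 := coc_bd (CS.top (X × Y)) hv h2
  rw [map_sub, sub_eq_zero] at h3
  rw [h3, map_sum]
  refine Finset.sum_eq_zero fun i _ => ?_
  obtain ⟨h4, h5, h6⟩ := h1 i
  exact h (m i) (n - m i) (by omega) _ h5 _ h6

theorem val_left {m l n : ℕ} (hn : m + l = n) {v : C(Cb, X × Y) → K}
    (hv : (CS.top (X × Y)).Coc n v) {x : Ch K X} {y : Ch K Y} (hx : (CS.top X).Bd K (m : ℤ) x)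
    (hy : y ∈ (CS.top Y).Z K (l : ℤ)) : Finsupp.linearCombination K v (cr m x y) = 0 := by
  have h := cr_bd_left (CS.top X) (CS.top Y) hx hy
  rw [prod_top] at h
  have e : (m : ℤ) + (l : ℤ) = (n : ℤ) := by exact_mod_cast hn
  rw [e] at h
  exact coc_bd _ hv h

theorem val_right {m l n : ℕ} (hn : m + l = n) {v : C(Cb, X × Y) → K}
    (hv : (CS.top (X × Y)).Coc n v) {x : Ch K X} {y : Ch K Y}
    (hx : x ∈ (CS.top X).Z K (m : ℤ)) (hy : (CS.top Y).Bd K (l : ℤ) y) :
    Finsupp.linearCombination K v (cr m x y) = 0 := by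
  have h := cr_bd_right (CS.top X) (CS.top Y) hx hy
  rw [prod_top] at h
  have e : (m : ℤ) + (l : ℤ) = (n : ℤ) := by exact_mod_cast hn
  rw [e] at h
  exact coc_bd _ hv h

/-- Evaluation on cross products. -/
theorem eval_cross {m l : ℕ} {v : C(Cb, X × Y) → K} {α : C(Cb, X) → K} {β : C(Cb, Y) → K}
    (h : ∀ τ σ, IsCube (m : ℤ) τ → IsCube (l : ℤ) σ → v (crossCube m τ σ) = α τ * β σ)
    {x : Ch K X} {y : Ch K Y} (hx : x ∈ (CS.top X).C K (m : ℤ))
    (hy : y ∈ (CS.top Y).C K (l : ℤ)) :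
    Finsupp.linearCombination K v (cr m x y) =
      Finsupp.linearCombination K α x * Finsupp.linearCombination K β y := by
  have h1 := map_eq_of_supported (R := K) ((Finsupp.linearCombination K v).comp ((cr m).flip y))
    ((Finsupp.linearCombination K β y) • (Finsupp.linearCombination K α))
    (fun τ (hτ : IsCube (m : ℤ) τ ∧ (CS.top X).ok τ) => ?_) hx
  · rw [LinearMap.comp_apply, LinearMap.flip_apply, LinearMap.smul_apply, smul_eq_mul,
      mul_comm] at h1
    exact h1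
  · rw [LinearMap.comp_apply, LinearMap.flip_apply, LinearMap.smul_apply, smul_eq_mul,
      Finsupp.linearCombination_single, one_smul, mul_comm]
    have h2 := map_eq_of_supported (R := K)
      ((Finsupp.linearCombination K v).comp (cr m (Finsupp.single τ 1)))
      ((α τ) • (Finsupp.linearCombination K β))
      (fun σ (hσ : IsCube (l : ℤ) σ ∧ (CS.top Y).ok σ) => ?_) hy
    · exact h2
    · rw [LinearMap.comp_apply, cr_single_single, one_mul, Finsupp.linearCombination_single,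
        one_smul, LinearMap.smul_apply, Finsupp.linearCombination_single, one_smul, smul_eq_mul]
      exact h τ σ hτ.1 hσ.1

theorem cr_Z (S : CS X) (T : CS Y) {n : ℕ} {k : ℤ} {x : Ch K X} {y : Ch K Y}
    (hx : x ∈ S.Z K n) (hy : y ∈ T.Z K k) : cr n x y ∈ (S.prod T).Z K (n + k) := by
  refine ⟨cr_C S T hx.1 hy.1, ?_⟩
  show bd ((n : ℤ) + k) (cr n x y) ∈ (S.prod T).Q K ((n : ℤ) + k - 1)
  rw [bd_cr (R := K) (C_le S _ hx.1) (C_le T _ hy.1)]
  refine Submodule.add_mem _ ?_ (Submodule.smul_mem _ _ ?_)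
  · rcases Nat.eq_zero_or_pos n with h0 | h0
    · subst h0
      have : bd ((0 : ℕ) : ℤ) x = 0 := by
        rw [bd_apply]; simp
      rw [this, map_zero, LinearMap.zero_apply]
      exact Submodule.zero_mem _
    · have e3 : ((n - 1 : ℕ) : ℤ) = (n : ℤ) - 1 := by omega
      have h3 := cr_Ql S T (n := n - 1) (x := bd (n : ℤ) x) (by rw [e3]; exact hx.2) hy.1
      have e4 : ((n - 1 : ℕ) : ℤ) + k = n + k - 1 := by omega
      rwa [e4] at h3
  · have h3 := cr_Qr S T hx.1 (show bd k y ∈ T.Q K (k - 1) from hy.2)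
    rwa [← add_sub_assoc] at h3

theorem lc_right {m : ℕ} (v : C(Cb, X × Y) → K) (x : Ch K X) (y : Ch K Y) :
    Finsupp.linearCombination K
      (fun σ => Finsupp.linearCombination K v (cr m x (Finsupp.single σ 1))) y =
      Finsupp.linearCombination K v (cr m x y) := by
  have h : Finsupp.linearCombination K
      (fun σ => Finsupp.linearCombination K v (cr m x (Finsupp.single σ 1))) =
      (Finsupp.linearCombination K v).comp (cr m x) := by
    ext σ
    simp
  rw [h]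
  rfl

theorem lc_left {m : ℕ} (v : C(Cb, X × Y) → K) (x : Ch K X) (y : Ch K Y) :
    Finsupp.linearCombination K
      (fun σ => Finsupp.linearCombination K v (cr m (Finsupp.single σ 1) y)) x =
      Finsupp.linearCombination K v (cr m x y) := by
  have h : Finsupp.linearCombination K
      (fun σ => Finsupp.linearCombination K v (cr m (Finsupp.single σ 1) y)) =
      (Finsupp.linearCombination K v).comp ((cr m).flip y) := by
    ext σ
    simp
  rw [h]
  rfl

/-- The dual class of a generator. -/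
theorem exists_dual {k : ℕ} {ξ : Ch (ZMod 2) X} (hξ : ξ ∈ (CS.top X).Z (ZMod 2) (k : ℤ))
    (hne : ¬ (CS.top X).Bd (ZMod 2) (k : ℤ) ξ) :
    ∃ z : C(Cb, X) → ZMod 2, (CS.top X).Coc k z ∧
      Finsupp.linearCombination (ZMod 2) z ξ = 1 := by
  let p : Submodule (ZMod 2) ((CS.top X).Z (ZMod 2) (k : ℤ)) :=
    { carrier := {c | (CS.top X).Bd (ZMod 2) (k : ℤ) (c : Ch (ZMod 2) X)}
      zero_mem' := Bd_zero _
      add_mem' := fun h1 h2 => Bd_add _ h1 h2
      smul_mem' := fun r c ⟨b, h1, h2⟩ => ⟨r • b, Submodule.smul_mem _ _ h1, by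
        rw [map_smul]
        have := Submodule.smul_mem _ r h2
        rwa [smul_sub] at this⟩ }
  obtain ⟨f, h1, h2⟩ := Submodule.exists_le_ker_of_notMem (p := p) (v := ⟨ξ, hξ⟩) hne
  obtain ⟨z, h3, h4⟩ := exists_cocycle extProp_field (CS.top X) f fun c hc => h2 hc
  refine ⟨z, h3, ?_⟩
  rw [h4 ⟨ξ, hξ⟩]
  revert h1
  generalize f ⟨ξ, hξ⟩ = t
  revert t
  decide

theorem coc_add {S : CS X} {k : ℕ} {u v : C(Cb, X) → ZMod 2} (hu : S.Coc k u) (hv : S.Coc k v) :
    S.Coc k (fun σ => u σ + v σ) := by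
  have h : (fun σ => u σ + v σ) = fun σ => u σ - v σ := by
    funext σ
    generalize u σ = x
    generalize v σ = y
    revert x y
    decide
  rw [h]
  exact coc_sub hu hv

end QIdAux

section domains

variable {N F : Type} [TopologicalSpace N] [TopologicalSpace F]

open QIcAux in
theorem faces_hz {R : Type} [CommRing R] {j : ℤ} (h : (CS.top N).Hz R j) (m : ℕ) :
    (CS.faces m N).Hz R (m + j) := by
  intro w hw
  obtain ⟨c, hc, hB⟩ := faces_surj m hw
  have h1 := fcr_bd m (h c hc)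
  have h2 := Bd_add _ hB h1
  rwa [sub_add_cancel] at h2

open QIcAux in
/-- A cocycle on the cube rel faces times `N` is `ε × u` modulo coboundaries, `u(σ)` is the value
on `[I^m] × σ`; Cartan formula. -/
theorem faces_sqz {j : ℕ} (hj : 2 ≤ j) {m : ℕ} (hm : 2 ≤ m) (h : SqZ (CS.top N) j) :
    SqZ (CS.faces m N) (m + j) := by
  intro c hc
  have hcoc := sq2_coc (CS.faces m N) (by omega) hc
  refine uct (R := ZMod 2) extProp_field _ (k := m + j + 1) hcoc ?_
  intro w hw
  have e1 : ((m + j + 1 + 1 : ℕ) : ℤ) = (m : ℤ) + ((j + 2 : ℕ) : ℤ) := by push_cast; ring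
  rw [e1] at hw
  obtain ⟨z, hz, hB⟩ := faces_surj m hw
  have h1 : Finsupp.linearCombination (ZMod 2) (sq2 (m + j) c) (w - fcr m z) = 0 := by
    refine coc_bd (R := ZMod 2) (CS.faces m N) (k := m + j + 2) hcoc ?_
    have e2 : ((m + j + 2 : ℕ) : ℤ) = (m : ℤ) + ((j + 2 : ℕ) : ℤ) := by push_cast; ring
    rw [e2]
    exact hB
  rw [map_sub, sub_eq_zero] at h1
  rw [h1]
  have h2 : Finsupp.linearCombination (ZMod 2) (sq2 (m + j) c) (fcr m z) =
      Finsupp.linearCombination (ZMod 2) (sq2 j (fac m c)) z := by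
    have h3 := map_eq_of_supported (R := ZMod 2)
      ((Finsupp.linearCombination (ZMod 2) (sq2 (m + j) c)).comp
        (cr m (Finsupp.single (idCube m) (1 : ZMod 2))))
      (Finsupp.linearCombination (ZMod 2) (sq2 j (fac m c)))
      (fun σ (hσ : IsCube ((j + 2 : ℕ) : ℤ) σ ∧ (CS.top N).ok σ) => by
        rw [LinearMap.comp_apply, cr_single_single, one_mul, Finsupp.linearCombination_single,
          Finsupp.linearCombination_single, one_smul, one_smul, sq2_fac hj hc.1 hσ.1]) hz.1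
    exact h3
  rw [h2]
  exact cob_cyc (R := ZMod 2) (CS.top N) (h _ (fac_coc hc)) hz

open QIcAux in
/-- Kuenneth formula for the vanishing in one degree. -/
theorem prod_hz {K : Type} [Field K] {X Z : Type} [TopologicalSpace X] [TopologicalSpace Z]
    (S : CS X) (T : CS Z) {n : ℕ}
    (h : ∀ i j : ℕ, i + j = n → S.Hz K (i : ℤ) ∨ T.Hz K (j : ℤ)) :
    (S.prod T).Hz K (n : ℤ) := by
  intro w hw
  obtain ⟨r, m, x, y, h1, h2⟩ := kunneth S T hw
  have h3 : (S.prod T).Bd K (n : ℤ) (∑ i, cr (m i) (x i) (y i)) := by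
    refine Bd_sum _ _ _ fun i _ => ?_
    obtain ⟨h4, h5, h6⟩ := h1 i
    have e : (n : ℤ) = (m i : ℤ) + ((n - m i : ℕ) : ℤ) := by omega
    rw [e]
    rcases h (m i) (n - m i) (by omega) with h7 | h7
    · exact cr_bd_left S T (h7 _ h5) h6
    · exact cr_bd_right S T h5 (h7 _ h6)
  have h4 := Bd_add _ h2 h3
  rwa [sub_add_cancel] at h4

open QIcAux QDdAux QIdAux in
/-- Sq^2 on the classes of degree `d + l` of `F × F` if only the bidegrees `(d, l)` and `(l, d)`
occur, and the homology in degree `d` is generated by `ξ`. -/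
theorem prod_sqz {d l : ℕ} (hl : 2 ≤ l) (hd : 2 ≤ d)
    (hdl : d = l + 2)
    (h0 : ∀ i j : ℕ, i + j = d + l → i ≠ d → j ≠ d →
      (CS.top F).Hz (ZMod 2) (i : ℤ) ∨ (CS.top F).Hz (ZMod 2) (j : ℤ))
    (h1 : ∀ i j : ℕ, i + j = d + d → i ≠ d →
      (CS.top F).Hz (ZMod 2) (i : ℤ) ∨ (CS.top F).Hz (ZMod 2) (j : ℤ))
    {ξ : Ch (ZMod 2) F} (hξ : ξ ∈ (CS.top F).Z (ZMod 2) (d : ℤ))
    (hgen : ∀ c ∈ (CS.top F).Z (ZMod 2) (d : ℤ), ∃ r : ZMod 2,
      (CS.top F).Bd (ZMod 2) (d : ℤ) (c - r • ξ))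
    (hne : ¬ (CS.top F).Bd (ZMod 2) (d : ℤ) ξ)
    (hsq : SqZ (CS.top F) l) : SqZ (CS.top (F × F)) (d + l) := by
  intro c hc
  obtain ⟨z, hz, hz1⟩ := exists_dual hξ hne
  -- the two slices
  let u : C(Cb, F) → ZMod 2 := fun σ =>
    Finsupp.linearCombination (ZMod 2) c (cr d ξ (Finsupp.single σ 1))
  let u' : C(Cb, F) → ZMod 2 := fun σ =>
    Finsupp.linearCombination (ZMod 2) c (cr l (Finsupp.single σ 1) ξ)
  have hu : (CS.top F).Coc l u := coc_of_bd _ fun y hy => by
    rw [lc_right]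
    exact val_right rfl hc hξ hy
  have hu' : (CS.top F).Coc l u' := coc_of_bd _ fun y hy => by
    rw [lc_left]
    exact val_left (Nat.add_comm l d) hc hy hξ
  have hA := xp_coc hz hu
  have hB := xp_coc hu' hz
  rw [prod_top] at hA hB
  rw [Nat.add_comm l d] at hB
  have hbA := xp_bi hz.1 hu.1
  have hbB := xp_bi hu'.1 hz.1
  -- the difference
  have hAB := coc_add hA hB
  have he := coc_sub hc hAB
  obtain ⟨n, hn⟩ : ∃ n, d + l = n + 1 := ⟨d + l - 1, by omega⟩
  have hecob : (CS.top (F × F)).Cob n (fun σ => c σ - (xp d l z u σ + xp l d u' z σ)) := by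
    rw [hn] at he
    refine uct (R := ZMod 2) extProp_field _ he fun w hw => ?_
    refine kun he ?_ hw
    intro m k hmk x hx y hy
    rw [← hn] at he hmk
    have hlc : Finsupp.linearCombination (ZMod 2)
        (fun σ => c σ - (xp d l z u σ + xp l d u' z σ)) (cr m x y) =
        Finsupp.linearCombination (ZMod 2) c (cr m x y) -
          (Finsupp.linearCombination (ZMod 2) (xp d l z u) (cr m x y) +
            Finsupp.linearCombination (ZMod 2) (xp l d u' z) (cr m x y)) := by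
      rw [Finsupp.linearCombination_apply, Finsupp.linearCombination_apply,
        Finsupp.linearCombination_apply, Finsupp.linearCombination_apply,
        ← Finsupp.sum_add, ← Finsupp.sum_sub]
      refine Finsupp.sum_congr fun σ _ => ?_
      rw [smul_sub, smul_add]
    have hmA := bi_eval hbA hmk (C_le _ _ hx.1) (C_le _ _ hy.1)
    have hmB := bi_eval hbB (m := m) (l := k) (by omega) (C_le _ _ hx.1) (C_le _ _ hy.1)
    by_cases hm : m = d
    · subst hm
      obtain rfl : k = l := by omega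
      rw [hlc, hmA, hmB, if_pos rfl, if_neg (by omega), add_zero]
      obtain ⟨r, hr⟩ := hgen x hx
      have h2 := val_left rfl hc hr hy
      rw [map_sub, LinearMap.sub_apply, map_sub, sub_eq_zero] at h2
      have h3 := coc_bd _ hz hr
      rw [map_sub, sub_eq_zero] at h3
      rw [h2, h3, map_smul, map_smul, LinearMap.smul_apply, map_smul, hz1, lc_right]
      simp
    · by_cases hk : k = d
      · subst hk
        obtain rfl : m = l := by omega
        rw [hlc, hmA, hmB, if_neg hm, if_pos rfl, zero_add]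
        obtain ⟨r, hr⟩ := hgen y hy
        have h2 := val_right (Nat.add_comm m k) hc hx hr
        rw [map_sub, map_sub, sub_eq_zero] at h2
        have h3 := coc_bd _ hz hr
        rw [map_sub, sub_eq_zero] at h3
        rw [h2, h3, map_smul, map_smul, map_smul, hz1, lc_left]
        simp [mul_comm]
      · rcases h0 m k hmk hm hk with h2 | h2
        · exact val_left hmk he (h2 x hx) hy
        · exact val_right hmk he hx (h2 y hy)
  -- the square
  have hsqc := sq2_coc (CS.top (F × F)) (show 2 ≤ d + l by omega) hc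
  refine uct (R := ZMod 2) extProp_field _ (k := d + l + 1) hsqc fun w hw => ?_
  refine kun (n := d + l + 1 + 1) hsqc ?_ hw
  intro m k hmk x hx y hy
  by_cases hm : m = d
  · subst hm
    obtain rfl : m = k := by omega
    obtain ⟨r, hr⟩ := hgen x hx
    obtain ⟨s, hs⟩ := hgen y hy
    have h2 := val_left hmk hsqc hr hy
    have h3 := val_right hmk hsqc hξ hs
    rw [map_sub, LinearMap.sub_apply, map_sub, sub_eq_zero] at h2
    rw [map_sub, map_sub, sub_eq_zero] at h3
    rw [h2, map_smul, LinearMap.smul_apply, map_smul, h3, map_smul, map_smul]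
    -- the value on `ξ × ξ`
    have hw2 := cr_Z (CS.top F) (CS.top F) hξ hξ
    rw [prod_top, show (m : ℤ) + (m : ℤ) = ((m + l + 1 + 1 : ℕ) : ℤ) by omega] at hw2
    have hval : Finsupp.linearCombination (ZMod 2) (sq2 (m + l) c) (cr m ξ ξ) = 0 := by
      have k1 := cob_cyc (R := ZMod 2) _ (sq2_add (CS.top (F × F)) (show 2 ≤ m + l by omega)
        hAB he) hw2
      have k2 := cob_cyc (R := ZMod 2) _ (sq2_add (CS.top (F × F)) (show 2 ≤ m + l by omega)
        hA hB) hw2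
      have k3 := sq2_cob (CS.top (F × F)) (show 2 ≤ n by omega) hecob
      rw [← hn] at k3
      have hw3 := hw2
      rw [hn] at hw3
      have k4 := cob_cyc (R := ZMod 2) _ k3 hw3
      have e1 : (fun τ => (xp m l z u τ + xp l m u' z τ) +
          (c τ - (xp m l z u τ + xp l m u' z τ))) = c := by
        funext τ
        ring
      rw [e1] at k1
      have hsub3 : ∀ (f g h : C(Cb, F × F) → ZMod 2) (w : Ch (ZMod 2) (F × F)),
          Finsupp.linearCombination (ZMod 2) (fun σ => f σ - g σ - h σ) w =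
          Finsupp.linearCombination (ZMod 2) f w - Finsupp.linearCombination (ZMod 2) g w -
            Finsupp.linearCombination (ZMod 2) h w := by
        intro f g h w
        rw [Finsupp.linearCombination_apply, Finsupp.linearCombination_apply,
          Finsupp.linearCombination_apply, Finsupp.linearCombination_apply,
          ← Finsupp.sum_sub, ← Finsupp.sum_sub]
        refine Finsupp.sum_congr fun σ _ => ?_
        rw [smul_sub, smul_sub]
      rw [hsub3] at k1 k2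
      -- Cartan
      have c1 := sq2_cartan hd hl hz.1 hu.1 hbA
      have c2 := sq2_cartan hl hd hu'.1 hz.1 hbB
      have v1 := eval_cross (m := m) (l := m) (v := sq2 (m + l) (xp m l z u)) (α := z)
        (β := sq2 l u) (fun τ σ hτ hσ => by
          rw [c1 m m τ σ (by omega) hτ hσ]
          beta_reduce
          rw [if_neg (by omega), if_neg (by omega), if_pos rfl]) hξ.1 hξ.1
      have v2 := eval_cross (m := m) (l := m) (v := sq2 (l + m) (xp l m u' z))
        (α := sq2 l u') (β := z) (fun τ σ hτ hσ => by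
          rw [c2 m m τ σ (by omega) hτ hσ]
          beta_reduce
          rw [if_pos hdl]) hξ.1 hξ.1
      have hξ' := hξ
      rw [show ((m : ℕ) : ℤ) = ((l + 1 + 1 : ℕ) : ℤ) by omega] at hξ'
      have v3 := cob_cyc (R := ZMod 2) _ (hsq u hu) hξ'
      have v4 := cob_cyc (R := ZMod 2) _ (hsq u' hu') hξ'
      rw [v3, mul_zero] at v1
      rw [v4, zero_mul, Nat.add_comm l m] at v2
      rw [v1, v2, sub_zero, sub_zero] at k2
      rw [k2, k4, sub_zero, sub_zero] at k1
      exact k1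
    rw [hval, smul_zero, smul_zero]
  · rcases h1 m k (by omega) hm with h2 | h2
    · exact val_left hmk hsqc (h2 x hx) hy
    · exact val_right hmk hsqc hx (h2 y hy)

end domains

end Pool.Agent.TC
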