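import Pool.Agent.Lib.TC.SF
import Pool.Agent.Lib.TC.QI
import Pool.Agent.Lib.MP_cb6a70_gt_HB.Local

/-!
# The Bockstein commutes with suspension
-/

namespace Pool.Agent.TC

open CubeHom


namespace EX5Aux

variable {X Y : Type} [TopologicalSpace X] [TopologicalSpace Y]

theorem top_C (R : Type) [CommRing R] (k : ℤ) :
    (CS.top X).C R k = CubeHom.C R k Set.univ := by
  unfold CS.C CubeHom.C CS.top
  congr 1
  ext σ
  simp

theorem top_Q (R : Type) [CommRing R] (k : ℤ) :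
    (CS.top X).Q R k = CubeHom.Q R k (∅ : Set X) := by
  unfold CS.Q CubeHom.Q CS.top
  congr 1
  ext σ
  simp only [Set.mem_ofPred_eq, Set.mem_empty_iff_false, forall_const, true_and, false_or]

theorem sys_C {F : Type} [TopologicalSpace F] (SM : SusM F) (B : Set F) (R : Type) [CommRing R]
    (k : ℤ) : (SM.sys B).C R k = CubeHom.C R k Set.univ := by
  unfold CS.C CubeHom.C SusM.sys CS.kill CS.top
  congr 1
  ext σ
  simp

theorem sys_Q {F : Type} [TopologicalSpace F] (SM : SusM F) (B : Set F) (R : Type) [CommRing R]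
    (k : ℤ) : (SM.sys B).Q R k = CubeHom.Q R k (SM.P B) := by
  unfold CS.Q CubeHom.Q SusM.sys CS.kill CS.top
  congr 1
  ext σ
  simp only [Set.mem_ofPred_eq, Set.mem_singleton_iff, exists_eq_left, true_and, false_or]

theorem lc_cast (v : C(Cb, X) → ZMod 2) (w : Ch ℤ X) :
    Finsupp.linearCombination (ZMod 2) v (castCh (ZMod 2) w) =
      ((Finsupp.linearCombination ℤ (fun τ => ((v τ).val : ℤ)) w : ℤ) : ZMod 2) := by
  induction w using Finsupp.induction_linear with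
  | zero => simp
  | add f g hf hg => rw [map_add, map_add, map_add, hf, hg, Int.cast_add]
  | single σ r => simp [castCh_single]

theorem sq1_eval (S : CS X) {j : ℕ} (hj : 1 ≤ j) {u : C(Cb, X) → ZMod 2} (hu : S.Coc j u)
    {w e : Ch ℤ X} (hw : w ∈ S.C ℤ ((j + 1 : ℕ) : ℤ))
    (hq : bd ((j + 1 : ℕ) : ℤ) w - (2 : ℤ) • e ∈ S.Q ℤ (j : ℤ)) :
    Finsupp.linearCombination (ZMod 2) (sq1 j u) (castCh (ZMod 2) w) =
      Finsupp.linearCombination (ZMod 2) u (castCh (ZMod 2) e) := by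
  rw [lc_cast, lc_cast]
  have h2 : (Finsupp.linearCombination ℤ (dl j (fun τ => ((u τ).val : ℤ))) -
      (2 : ℤ) • Finsupp.linearCombination ℤ (fun τ => ((sq1 j u τ).val : ℤ))) w ∈
        Ideal.span {(4 : ℤ)} := by
    refine map_mem_of_supported _ (Ideal.span {(4 : ℤ)}) (fun σ hσ => ?_) hw
    rw [Ideal.mem_span_singleton]
    have h := sq1_bockstein hj hσ.1 (hu.2 σ hσ.1 hσ.2)
    have h' := (Int.modEq_iff_dvd.1 h.symm)
    simpa using h'
  have h3 : Finsupp.linearCombination ℤ (fun τ => ((u τ).val : ℤ))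
      (bd ((j + 1 : ℕ) : ℤ) w - (2 : ℤ) • e) ∈ (⊥ : Submodule ℤ ℤ) := by
    refine map_mem_of_supported _ (⊥ : Submodule ℤ ℤ) (fun σ hσ => ?_) hq
    have h := hu.1 σ hσ.1 hσ.2.1 hσ.2.2
    simp [h]
  rw [Submodule.mem_bot, map_sub, lc_bd, map_smul, sub_eq_zero] at h3
  rw [Ideal.mem_span_singleton, LinearMap.sub_apply, h3, LinearMap.smul_apply, ← smul_sub] at h2
  rw [ZMod.intCast_eq_intCast_iff_dvd_sub]
  rw [smul_eq_mul] at h2
  have : (2 : ℤ) * 2 ∣ 2 * (Finsupp.linearCombination ℤ (fun τ => ((u τ).val : ℤ)) e -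
      Finsupp.linearCombination ℤ (fun τ => ((sq1 j u τ).val : ℤ)) w) := by
    norm_num; exact h2
  exact_mod_cast (mul_dvd_mul_iff_left (by norm_num : (2 : ℤ) ≠ 0)).1 this

theorem castCh_prism (H : C(I × X, Y)) (c : Ch ℤ X) :
    castCh (ZMod 2) (prism H c) = prism H (castCh (ZMod 2) c) := by
  have h : (castCh (ZMod 2)).comp (prism (R := ℤ) H).toAddMonoidHom =
      (prism (R := ZMod 2) H).toAddMonoidHom.comp (castCh (ZMod 2)) := by
    ext σ : 2
    simp [castCh_single]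
  exact DFunLike.congr_fun h c

theorem castCh_apply (w : Ch ℤ X) (σ : C(Cb, X)) : castCh (ZMod 2) w σ = ((w σ : ℤ) : ZMod 2) := rfl

theorem exists_lift {j : ℕ} {c : Ch (ZMod 2) X}
    (hc : c ∈ (CS.top X).Z (ZMod 2) ((j + 1 : ℕ) : ℤ)) :
    ∃ w ∈ CubeHom.C ℤ ((j + 1 : ℕ) : ℤ) (Set.univ : Set X), castCh (ZMod 2) w = c ∧
      ∃ e : Ch ℤ X, bd ((j + 1 : ℕ) : ℤ) w - (2 : ℤ) • e ∈ CubeHom.Q ℤ (j : ℤ) (∅ : Set X) ∧
        castCh (ZMod 2) e ∈ (CS.top X).Z (ZMod 2) (j : ℤ) := by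
  classical
  have hcC : c ∈ CubeHom.C (ZMod 2) ((j + 1 : ℕ) : ℤ) (Set.univ : Set X) := by
    rw [← top_C]; exact hc.1
  have hcQ : bd ((j + 1 : ℕ) : ℤ) c ∈ CubeHom.Q (ZMod 2) (j : ℤ) (∅ : Set X) := by
    have h : bd ((j + 1 : ℕ) : ℤ) c ∈ (CS.top X).Q (ZMod 2) (((j + 1 : ℕ) : ℤ) - 1) := hc.2
    rw [top_Q] at h
    have h1 : (((j + 1 : ℕ) : ℤ)) - 1 = (j : ℤ) := by push_cast; ring
    rwa [h1] at h
  set w : Ch ℤ X := Finsupp.mapRange (fun r : ZMod 2 => ((r.val : ℕ) : ℤ)) (by simp) c with hw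
  have hwc : castCh (ZMod 2) w = c := by
    ext σ
    rw [castCh_apply, hw, Finsupp.mapRange_apply]
    simp
  have hwC : w ∈ CubeHom.C ℤ ((j + 1 : ℕ) : ℤ) (Set.univ : Set X) := by
    rw [CubeHom.C, Finsupp.mem_supported] at hcC ⊢
    refine subset_trans ?_ hcC
    exact_mod_cast Finsupp.support_mapRange
  set b := bd ((j + 1 : ℕ) : ℤ) w with hb
  have hbC : b ∈ CubeHom.C ℤ (j : ℤ) (Set.univ : Set X) := by
    have h := CubeHom.bd_mem_C hwC
    have h1 : (((j + 1 : ℕ) : ℤ)) - 1 = (j : ℤ) := by push_cast; ring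
    rwa [h1] at h
  set e : Ch ℤ X := Finsupp.mapRange (fun r : ℤ => r / 2) (by simp) b with he
  have heC : e ∈ CubeHom.C ℤ (j : ℤ) (Set.univ : Set X) := by
    rw [CubeHom.C, Finsupp.mem_supported] at hbC ⊢
    refine subset_trans ?_ hbC
    exact_mod_cast Finsupp.support_mapRange
  have hq : b - (2 : ℤ) • e ∈ CubeHom.Q ℤ (j : ℤ) (∅ : Set X) := by
    have h1 : castCh (ZMod 2) b ∈ CubeHom.Q (ZMod 2) (j : ℤ) (∅ : Set X) := by
      rw [hb, castCh_bd, hwc]
      exact hcQ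
    rw [CubeHom.Q, Finsupp.mem_supported] at h1 ⊢
    refine subset_trans ?_ h1
    intro σ hσ
    rw [Finset.mem_coe, Finsupp.mem_support_iff] at hσ ⊢
    intro h0
    apply hσ
    rw [castCh_apply] at h0
    have h2 : (2 : ℤ) ∣ b σ := by
      have := (ZMod.intCast_zmod_eq_zero_iff_dvd (b σ) 2).1 h0
      exact_mod_cast this
    rw [Finsupp.sub_apply, Finsupp.smul_apply, he, Finsupp.mapRange_apply, smul_eq_mul]
    omega
  refine ⟨w, hwC, hwc, e, hq, ?_, ?_⟩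
  · rw [top_C]
    exact castCh_mem_C heC
  · change bd (j : ℤ) (castCh (ZMod 2) e) ∈ (CS.top X).Q (ZMod 2) ((j : ℤ) - 1)
    rw [top_Q, ← castCh_bd]
    refine castCh_mem_Q ?_
    have h1 : bd (j : ℤ) (b - (2 : ℤ) • e) ∈ CubeHom.Q ℤ ((j : ℤ) - 1) (∅ : Set X) :=
      CubeHom.bd_mem_Q hq
    have h2 : bd (j : ℤ) b = 0 := by
      have h := bd_bd (((j + 1 : ℕ) : ℤ)) w
      have h1 : (((j + 1 : ℕ) : ℤ)) - 1 = (j : ℤ) := by push_cast; ring
      rwa [h1] at h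
    rw [map_sub, h2, map_smul, zero_sub] at h1
    rw [CubeHom.Q, Finsupp.mem_supported] at h1 ⊢
    refine subset_trans ?_ h1
    intro σ hσ
    rw [Finset.mem_coe, Finsupp.mem_support_iff] at hσ ⊢
    intro h0
    apply hσ
    rw [Finsupp.neg_apply, Finsupp.smul_apply, smul_eq_mul] at h0
    omega

end EX5Aux

section

variable {F : Type} [TopologicalSpace F] (SM : SusM F)
variable {B B' : Set F} {x0 : F}

/-- The Bockstein commutes with suspension. -/
theorem SusM.sq1_su {k : ℕ} (hk : 1 ≤ k) (hB : IsOpen B) {a : C(Cb, SM.T) → ZMod 2}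
    (ha : (SM.sys B).Coc (k + 1) a) {x : C(Cb, F) → ZMod 2} (hx : (CS.top F).Coc k x)
    (h : ∀ c ∈ (CS.top F).Z (ZMod 2) (k : ℤ),
      Finsupp.linearCombination (ZMod 2) a (SM.su c) =
        Finsupp.linearCombination (ZMod 2) x c) {c : Ch (ZMod 2) F}
    (hc : c ∈ (CS.top F).Z (ZMod 2) ((k + 1 : ℕ) : ℤ)) :
    Finsupp.linearCombination (ZMod 2) (sq1 (k + 1) a) (SM.su c) =
      Finsupp.linearCombination (ZMod 2) (sq1 k x) c := by
  obtain ⟨w, hw, hwc, e, hq, he⟩ := EX5Aux.exists_lift hc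
  have h1 := EX5Aux.sq1_eval (CS.top F) hk hx (w := w) (e := e)
    (by rw [EX5Aux.top_C]; exact hw) (by rw [EX5Aux.top_Q]; exact hq)
  have hwC : w ∈ CubeHom.C ℤ ((k + 1 : ℕ) : ℤ) (Set.univ : Set F) := hw
  have hk1 : (((k + 1 + 1 : ℕ) : ℤ)) = ((k + 1 : ℕ) : ℤ) + 1 := by push_cast; ring
  have hsu : ∀ {R : Type} [CommRing R] (c : Ch R F), SM.su c = prism SM.q c := fun c => rfl
  have hP : ∀ (t : I) (ht : t = 0 ∨ t = 1) (x : F), SM.q (t, x) ∈ SM.P B := by
    rintro t (rfl | rfl) x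
    · left
      rw [SM.h_q]
      norm_num
    · right; left
      rw [SM.h_q]
      norm_num
  have h2 := EX5Aux.sq1_eval (SM.sys B) (j := k + 1) (by omega) ha (w := prism SM.q w)
    (e := - prism SM.q e) (by
      rw [EX5Aux.sys_C, hk1]
      exact prism_mem_C (fun _ _ _ => Set.mem_univ _) hwC) (by
      rw [EX5Aux.sys_Q, hk1, bd_prism hwC]
      have e1 : push (atTime SM.q 1) w - push (atTime SM.q 0) w -
          prism SM.q (bd ((k + 1 : ℕ) : ℤ) w) - (2 : ℤ) • -prism SM.q e =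
            push (atTime SM.q 1) w - push (atTime SM.q 0) w -
              prism SM.q (bd ((k + 1 : ℕ) : ℤ) w - (2 : ℤ) • e) := by
        rw [map_sub, map_smul, smul_neg]
        abel
      rw [e1]
      refine Submodule.sub_mem _ (Submodule.sub_mem _ ?_ ?_) ?_
      · exact C_le_Q _ _ (push_mem_C (fun x _ => hP 1 (Or.inr rfl) x) hwC)
      · exact C_le_Q _ _ (push_mem_C (fun x _ => hP 0 (Or.inl rfl) x) hwC)
      · have h3 := prism_mem_Q (R := ℤ) (H := SM.q) (V := SM.P B)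
          (fun t x hx => (Set.notMem_empty x hx).elim) hq
        have hk2 : ((k + 1 : ℕ) : ℤ) = (k : ℤ) + 1 := by push_cast; ring
        rw [hk2]
        exact_mod_cast h3)
  rw [EX5Aux.castCh_prism, hwc] at h2
  rw [hsu, h2, map_neg, EX5Aux.castCh_prism, map_neg, ← hsu, h _ he, ← hwc, h1, ZMod.neg_eq_self_mod_two]

end

end Pool.Agent.TC
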