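import Pool.Agent.Lib.TC.ExcD

/-!
# Row EX6: evaluation of a triple product of suspended classes
-/

namespace Pool.Agent.TC

open CubeHom

namespace EX6

section gen

variable {X Y : Type} [TopologicalSpace X] [TopologicalSpace Y]

/-- The multiplication of `ZMod 2`. -/
abbrev ml : ZMod 2 →+ ZMod 2 →+ ZMod 2 := AddMonoidHom.mul

theorem sgn2 (k : ℕ) (x : ZMod 2) : ((-1 : ℤ) ^ k) • x = x := by
  rcases Nat.even_or_odd k with h | h
  · rw [h.neg_one_pow, one_smul]
  · rw [h.neg_one_pow, neg_smul, one_smul, ZMod.neg_eq_self_mod_two]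

theorem sgn2' (k : ℕ) (x : ZMod 2) : ((-1 : ZMod 2) ^ k) * x = x := by
  rw [ZMod.neg_eq_self_mod_two, one_pow, one_mul]

theorem sgnS2 (n : ℕ) (H : Finset ℕ) (x : ZMod 2) : sgnS n H • x = x := sgn2 _ x

theorem card_range_filter {n : ℕ} {P : ℕ → Prop} [DecidablePred P] (h : ∀ i < n, P i) :
    ((Finset.range n).filter P).card = n := by
  rw [Finset.filter_true_of_mem fun i hi => h i (Finset.mem_range.1 hi), Finset.card_range]

theorem fc_full {n : ℕ} {w : ℕ → Option Bool} (h : ∀ j < n, w j = none) :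
    fc n w = ContinuousMap.id Cb := by
  refine ContinuousMap.ext fun u => ?_
  funext j
  change (if j < n then (match w j with
    | none => u ((Finset.range j).filter (fun i => w i = none)).card
    | some b => bitI b)
    else u (j - ((Finset.range n).filter (fun i => w i ≠ none)).card)) = u j
  by_cases hj : j < n
  · rw [if_pos hj, h j hj]
    change u ((Finset.range j).filter (fun i => w i = none)).card = u j
    rw [card_range_filter fun i hi => h i (by omega)]
  · rw [if_neg hj]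
    have : (Finset.range n).filter (fun i => w i ≠ none) = ∅ := by
      refine Finset.filter_false_of_mem fun i hi => ?_
      rw [not_not]
      exact h i (Finset.mem_range.1 hi)
    rw [this, Finset.card_empty, Nat.sub_zero]

theorem cup_one (p : ℕ) (u : C(Cb, X) → ZMod 2) (σ : C(Cb, X)) :
    cup ml p 0 u (fun _ => 1) σ = u σ := by
  change ∑ H ∈ (Finset.range (p + 0)).powersetCard p, sgnS (p + 0) H •
    ml (u (σ.comp (fc (p + 0) (wfr H)))) 1 = u σ
  have h1 : (Finset.range (p + 0)).powersetCard p = {Finset.range p} := by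
    have := Finset.powersetCard_self (Finset.range p)
    rwa [Finset.card_range] at this
  rw [h1, Finset.sum_singleton, sgnS2]
  rw [fc_full fun j hj => ?_]
  · exact mul_one (u σ)
  · change (if j ∈ Finset.range p then none else some false) = none
    exact if_pos (Finset.mem_range.2 hj)

theorem one_cup (q : ℕ) (u : C(Cb, X) → ZMod 2) (σ : C(Cb, X)) :
    cup ml 0 q (fun _ => 1) u σ = u σ := by
  change ∑ H ∈ (Finset.range (0 + q)).powersetCard 0, sgnS (0 + q) H •
    ml 1 (u (σ.comp (fc (0 + q) (wbk H)))) = u σ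
  rw [Finset.powersetCard_zero, Finset.sum_singleton, sgnS2]
  rw [fc_full fun j hj => ?_]
  · exact one_mul (u σ)
  · change (if j ∈ (∅ : Finset ℕ) then some true else none) = none
    exact if_neg (Finset.notMem_empty j)

theorem wfr_card {n p : ℕ} {H : Finset ℕ} (hH : H ∈ (Finset.range n).powersetCard p) :
    ((Finset.range n).filter (fun i => wfr H i = none)).card = p := by
  rw [Finset.mem_powersetCard] at hH
  rw [← hH.2]
  congr 1
  ext i
  rw [Finset.mem_filter, Finset.mem_range]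
  change (i < n ∧ (if i ∈ H then none else some false) = none) ↔ i ∈ H
  constructor
  · rintro ⟨-, h2⟩
    by_contra h
    rw [if_neg h] at h2
    exact absurd h2 (by simp)
  · intro h
    exact ⟨Finset.mem_range.1 (hH.1 h), if_pos h⟩

theorem wbk_card {p q : ℕ} {H : Finset ℕ} (hH : H ∈ (Finset.range (p + q)).powersetCard p) :
    ((Finset.range (p + q)).filter (fun i => wbk H i = none)).card = q := by
  rw [Finset.mem_powersetCard] at hH
  have h1 : (Finset.range (p + q)).filter (fun i => wbk H i = none) =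
      Finset.range (p + q) \ H := by
    ext i
    rw [Finset.mem_filter, Finset.mem_sdiff]
    change (i ∈ Finset.range (p + q) ∧ (if i ∈ H then some true else none) = none) ↔ _
    refine and_congr_right fun _ => ?_
    constructor
    · intro h2 h
      rw [if_pos h] at h2
      exact absurd h2 (by simp)
    · intro h
      exact if_neg h
  rw [h1, Finset.card_sdiff_of_subset hH.1, Finset.card_range, hH.2]
  omega

theorem cup_congr {p q : ℕ} {u u' v v' : C(Cb, X) → ZMod 2} {σ : C(Cb, X)}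
    (hσ : IsCube ((p + q : ℕ) : ℤ) σ) (hu : ∀ τ, IsCube (p : ℤ) τ → u τ = u' τ)
    (hv : ∀ τ, IsCube (q : ℤ) τ → v τ = v' τ) : cup ml p q u v σ = cup ml p q u' v' σ := by
  refine Finset.sum_congr rfl fun H hH => ?_
  have h1 := isCube_fc (w := wfr H) hσ
  have h2 := isCube_fc (w := wbk H) hσ
  rw [wfr_card hH] at h1
  rw [wbk_card hH] at h2
  rw [hu _ h1, hv _ h2]

theorem cup_sub_left (p q : ℕ) (u u' v : C(Cb, X) → ZMod 2) (σ : C(Cb, X)) :
    cup ml p q (fun τ => u τ - u' τ) v σ = cup ml p q u v σ - cup ml p q u' v σ := by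
  unfold cup
  rw [← Finset.sum_sub_distrib]
  refine Finset.sum_congr rfl fun H _ => ?_
  rw [sgnS2, sgnS2, sgnS2]
  exact sub_mul _ _ _

theorem cup_sub_right (p q : ℕ) (u v v' : C(Cb, X) → ZMod 2) (σ : C(Cb, X)) :
    cup ml p q u (fun τ => v τ - v' τ) σ = cup ml p q u v σ - cup ml p q u v' σ := by
  unfold cup
  rw [← Finset.sum_sub_distrib]
  refine Finset.sum_congr rfl fun H _ => ?_
  rw [sgnS2, sgnS2, sgnS2]
  exact mul_sub _ _ _

theorem cup_zero_left (p q : ℕ) (v : C(Cb, X) → ZMod 2) (σ : C(Cb, X)) :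
    cup ml p q (fun _ => 0) v σ = 0 := by
  refine Finset.sum_eq_zero fun H _ => ?_
  rw [sgnS2]
  exact zero_mul _

theorem cup_zero_right (p q : ℕ) (u : C(Cb, X) → ZMod 2) (σ : C(Cb, X)) :
    cup ml p q u (fun _ => 0) σ = 0 := by
  refine Finset.sum_eq_zero fun H _ => ?_
  rw [sgnS2]
  exact mul_zero _

theorem dl_cup2 (p q : ℕ) (u v : C(Cb, X) → ZMod 2)
    {σ : C(Cb, X)} (hσ : IsCube ((p + q + 1 : ℕ) : ℤ) σ) :
    dl (p + q) (cup ml p q u v) σ =
      cup ml (p + 1) q (dl p u) v σ + cup ml p (q + 1) u (dl q v) σ := by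
  rw [dl_cup ml p q u v hσ, sgn2]

/-- Three systems of all cubes: `S` is killed by `A` or by `B`. -/
structure Sub3 (S A B : CS X) : Prop where
  hS : ∀ σ, S.ok σ
  hA : ∀ σ, A.ok σ
  hB : ∀ σ, B.ok σ
  hn : ∀ σ, S.nul σ → A.nul σ ∨ B.nul σ

theorem Sub3.rel {S A B : CS X} (h : Sub3 S A B) {p q n : ℕ} (hn : n = p + q)
    {u v : C(Cb, X) → ZMod 2} (hu : A.Rel p u) (hv : B.Rel q v) :
    S.Rel n (cup ml p q u v) := by
  subst hn
  have hAB : B.ok = A.ok := by
    funext σ
    exact propext ⟨fun _ => h.hA σ, fun _ => h.hB σ⟩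
  intro σ h1 _ h3
  refine cup_rel A B hAB ml hu hv σ h1 (h.hA σ) ?_
  exact h3.imp (h.hn σ) id

theorem Sub3.coc {S A B : CS X} (h : Sub3 S A B) {p q n : ℕ} (hn : n = p + q)
    {u v : C(Cb, X) → ZMod 2} (hu : A.Coc p u) (hv : B.Coc q v) :
    S.Coc n (cup ml p q u v) := by
  refine ⟨h.rel hn hu.1 hv.1, ?_⟩
  subst hn
  intro σ h1 _
  rw [dl_cup2 p q u v h1]
  have e1 : cup ml (p + 1) q (dl p u) v σ = 0 := by
    rw [cup_congr (u' := fun _ => 0) (v' := v) (by
      have : p + 1 + q = p + q + 1 := by omega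
      rwa [this]) (fun τ hτ => hu.2 τ hτ (h.hA τ)) fun _ _ => rfl]
    exact cup_zero_left _ _ _ _
  have e2 : cup ml p (q + 1) u (dl q v) σ = 0 := by
    rw [cup_congr (u' := u) (v' := fun _ => 0) (by
      have : p + (q + 1) = p + q + 1 := by omega
      rwa [this]) (fun _ _ => rfl) fun τ hτ => hv.2 τ hτ (h.hB τ)]
    exact cup_zero_right _ _ _ _
  rw [e1, e2, add_zero]

theorem Sub3.cob_left {S A B : CS X} (h : Sub3 S A B) {p q n p1 : ℕ} (hn : n = p + q)
    (hp : p1 = p + 1) {u u' v : C(Cb, X) → ZMod 2} (hu : A.Cob p (fun σ => u σ - u' σ))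
    (hv : B.Coc q v) :
    S.Cob n (fun σ => cup ml p1 q u v σ - cup ml p1 q u' v σ) := by
  obtain ⟨g, hg, hg2⟩ := hu
  refine ⟨cup ml p q g v, h.rel hn hg hv.1, ?_⟩
  subst hn
  subst hp
  intro σ h1 _
  rw [dl_cup2 p q g v h1]
  have e2 : cup ml p (q + 1) g (dl q v) σ = 0 := by
    rw [cup_congr (u' := g) (v' := fun _ => 0) (by
      have : p + (q + 1) = p + q + 1 := by omega
      rwa [this]) (fun _ _ => rfl) fun τ hτ => hv.2 τ hτ (h.hB τ)]
    exact cup_zero_right _ _ _ _
  rw [e2, add_zero]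
  change cup ml (p + 1) q u v σ - cup ml (p + 1) q u' v σ = _
  rw [← cup_sub_left]
  exact cup_congr (by
    have : p + 1 + q = p + q + 1 := by omega
    rwa [this]) (fun τ hτ => hg2 τ hτ (h.hA τ)) fun _ _ => rfl

theorem Sub3.cob_right {S A B : CS X} (h : Sub3 S A B) {p q n q1 : ℕ} (hn : n = p + q)
    (hq : q1 = q + 1) {u v v' : C(Cb, X) → ZMod 2} (hu : A.Coc p u)
    (hv : B.Cob q (fun σ => v σ - v' σ)) :
    S.Cob n (fun σ => cup ml p q1 u v σ - cup ml p q1 u v' σ) := by
  obtain ⟨g, hg, hg2⟩ := hv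
  refine ⟨cup ml p q u g, h.rel hn hu.1 hg, ?_⟩
  subst hn
  subst hq
  intro σ h1 _
  rw [dl_cup2 p q u g h1]
  have e1 : cup ml (p + 1) q (dl p u) g σ = 0 := by
    rw [cup_congr (u' := fun _ => 0) (v' := g) (by
      have : p + 1 + q = p + q + 1 := by omega
      rwa [this]) (fun τ hτ => hu.2 τ hτ (h.hA τ)) fun _ _ => rfl]
    exact cup_zero_left _ _ _ _
  rw [e1, zero_add]
  change cup ml p (q + 1) u v σ - cup ml p (q + 1) u v' σ = _
  rw [← cup_sub_right]
  exact cup_congr (by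
    have : p + (q + 1) = p + q + 1 := by omega
    rwa [this]) (fun _ _ => rfl) fun τ hτ => hg2 τ hτ (h.hB τ)

/-- The values on a cycle of two cochains whose difference is a coboundary. -/
theorem lc_eq {S : CS X} {k n : ℕ} (hk : n = k + 1) {u v : C(Cb, X) → ZMod 2}
    (h : S.Cob k (fun σ => u σ - v σ)) {c : Ch (ZMod 2) X} (hc : c ∈ S.Z (ZMod 2) (n : ℤ)) :
    Finsupp.linearCombination (ZMod 2) u c = Finsupp.linearCombination (ZMod 2) v c := by
  subst hk
  have h1 := cob_cyc S h hc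
  have h2 : Finsupp.linearCombination (ZMod 2) (fun σ => u σ - v σ) c =
      Finsupp.linearCombination (ZMod 2) u c - Finsupp.linearCombination (ZMod 2) v c := by
    rw [Finsupp.linearCombination_apply, Finsupp.linearCombination_apply,
      Finsupp.linearCombination_apply, Finsupp.sum, Finsupp.sum, Finsupp.sum,
      ← Finset.sum_sub_distrib]
    refine Finset.sum_congr rfl fun σ _ => ?_
    rw [smul_sub]
  rw [h2] at h1
  exact sub_eq_zero.1 h1

theorem Bi.cup2 {i j i' j' I' J' P Q : ℕ} (hI : I' = i + i') (hJ : J' = j + j')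
    (hP : P = i + j) (hQ : Q = i' + j') {a a' A : C(Cb, X) → ZMod 2}
    {b b' B : C(Cb, Y) → ZMod 2} {u u' : C(Cb, X × Y) → ZMod 2} (h : Bi (ZMod 2) i j a b u)
    (h' : Bi (ZMod 2) i' j' a' b' u') (hA : ∀ σ, cup ml i i' a a' σ = A σ)
    (hB : ∀ σ, cup ml j j' b b' σ = B σ) : Bi (ZMod 2) I' J' A B (cup ml P Q u u') := by
  subst hI hJ hP hQ
  have h1 := bi_cup h h'
  have e1 : cup AddMonoidHom.mul i i' a a' = A := funext hA
  have e2 : cup AddMonoidHom.mul j j' b b' = B := funext hB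
  have e3 : (fun σ => (-1 : ZMod 2) ^ (j * i') * cup (AddMonoidHom.mul) (i + j) (i' + j') u u' σ)
      = cup ml (i + j) (i' + j') u u' := by
    funext σ
    exact sgn2' _ _
  rw [e1, e2, e3] at h1
  exact h1

/-- The cochain of the unit interval relative to its ends. -/
noncomputable def chi : C(Cb, I) → ZMod 2 := fun σ => if σ (fun _ => 0) = 1 then 1 else 0

noncomputable def eps : C(Cb, I) → ZMod 2 := dl 0 chi

theorem eps_apply (σ : C(Cb, I)) : eps σ = chi (σ.comp (ins 0 1)) - chi (σ.comp (ins 0 0)) := by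
  change ∑ i ∈ Finset.range (0 + 1), ((-1 : ℤ) ^ i) •
    (chi (σ.comp (ins i 1)) - chi (σ.comp (ins i 0))) = _
  rw [zero_add, Finset.sum_range_one, pow_zero, one_smul]

theorem eps_const {σ : C(Cb, I)} {e : I} (h : ∀ u, σ u = e) : eps σ = 0 := by
  rw [eps_apply]
  have : ∀ f : C(Cb, Cb), chi (σ.comp f) = if e = 1 then 1 else 0 := fun f => by
    change (if σ (f fun _ => 0) = 1 then (1 : ZMod 2) else 0) = _
    rw [h]
  rw [this, this, sub_self]

theorem eps_iota {σ : C(Cb, I)} (h : ∀ u, σ u = u 0) : eps σ = 1 := by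
  rw [eps_apply]
  have h1 : chi (σ.comp (ins 0 1)) = 1 := by
    change (if σ (ins 0 1 fun _ => 0) = 1 then (1 : ZMod 2) else 0) = 1
    rw [h]
    exact if_pos rfl
  have h0 : chi (σ.comp (ins 0 0)) = 0 := by
    change (if σ (ins 0 0 fun _ => 0) = 1 then (1 : ZMod 2) else 0) = 0
    rw [h]
    exact if_neg (by
      change ¬ ((0 : I) = 1)
      exact zero_ne_one)
  rw [h1, h0, sub_zero]

theorem eps_degen {σ : C(Cb, I)} (h1 : IsCube ((1 : ℕ) : ℤ) σ) (h : Degen ((1 : ℕ) : ℤ) σ) :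
    eps σ = 0 := by
  refine eps_const (e := σ fun _ => 0) fun u => ?_
  obtain ⟨i, hi, h2⟩ := h
  have hi0 : i = 0 := by omega
  subst hi0
  have e1 : σ u = σ (Function.update u 0 0) := by
    refine h2 fun j hj => ?_
    rw [Set.mem_ofPred_eq] at hj
    rw [Function.update_of_ne hj]
  rw [e1]
  refine h1.2 fun j hj => ?_
  rw [Set.mem_ofPred_eq] at hj
  have hj0 : j = 0 := by omega
  subst hj0
  rw [Function.update_self]

/-- The cochain `eps` of a coordinate `f`. -/
theorem eps_coc {S : CS X} (f : C(X, I)) (hf : ∀ σ, S.nul σ → ∃ e : I, ∀ u, f (σ u) = e) :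
    S.Coc 1 (pb f eps) := by
  refine ⟨fun σ h1 _ h3 => ?_, fun σ _ _ => ?_⟩
  · rcases h3 with h3 | h3
    · obtain ⟨e, he⟩ := hf σ h3
      exact eps_const he
    · refine eps_degen ?_ ?_
      · exact ⟨h1.1, fun u v huv => congrArg f (h1.2 huv)⟩
      · obtain ⟨i, hi, h2⟩ := h3
        exact ⟨i, hi, fun u v huv => congrArg f (h2 huv)⟩
  · exact dl_dl 0 chi (f.comp σ)

/-- Evaluation of `eps` of a coordinate times a cochain. -/
theorem cup_coord (f : C(X, I)) (n : ℕ) (v : C(Cb, X) → ZMod 2) {σ : C(Cb, X)}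
    (h : ∀ u, f (σ u) = u 0) : cup ml 1 n (pb f eps) v σ = v (σ.comp (ins 0 1)) := by
  have key : ∀ H ∈ (Finset.range (1 + n)).powersetCard 1, H ≠ {0} →
      sgnS (1 + n) H • ml (pb f eps (σ.comp (fc (1 + n) (wfr H))))
        (v (σ.comp (fc (1 + n) (wbk H)))) = 0 := by
    intro H hH hne
    rw [sgnS2]
    have h0 : pb f eps (σ.comp (fc (1 + n) (wfr H))) = 0 := by
      refine eps_const (e := 0) fun u => ?_
      change f (σ (fc (1 + n) (wfr H) u)) = 0
      rw [h]
      have hn0 : wfr H 0 = some false := by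
        change (if 0 ∈ H then none else some false) = some false
        refine if_neg fun h0 => hne ?_
        rw [Finset.mem_powersetCard] at hH
        obtain ⟨a, ha⟩ := Finset.card_eq_one.1 hH.2
        rw [ha, Finset.mem_singleton] at h0
        rw [ha, ← h0]
      change (if 0 < 1 + n then (match wfr H 0 with
        | none => u ((Finset.range 0).filter (fun i => wfr H i = none)).card
        | some b => bitI b) else _) = 0
      rw [if_pos (by omega), hn0]
      rfl
    rw [h0]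
    exact zero_mul _
  have h0mem : ({0} : Finset ℕ) ∈ (Finset.range (1 + n)).powersetCard 1 := by
    rw [Finset.mem_powersetCard]
    refine ⟨fun i hi => ?_, rfl⟩
    rw [Finset.mem_singleton] at hi
    rw [Finset.mem_range]
    omega
  refine (Finset.sum_eq_single_of_mem {0} h0mem key).trans ?_
  rw [sgnS2]
  have e1 : pb f eps (σ.comp (fc (1 + n) (wfr {0}))) = 1 := by
    refine eps_iota fun u => ?_
    change f (σ (fc (1 + n) (wfr {0}) u)) = u 0
    rw [h]
    have hn0 : wfr {0} 0 = none := rfl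
    change (if 0 < 1 + n then (match wfr {0} 0 with
      | none => u ((Finset.range 0).filter (fun i => wfr {0} i = none)).card
      | some b => bitI b) else _) = u 0
    rw [if_pos (by omega), hn0]
    rfl
  have e2 : fc (1 + n) (wbk {0}) = ins 0 1 := by
    refine ContinuousMap.ext fun u => ?_
    funext j
    change (if j < 1 + n then (match wbk {0} j with
      | none => u ((Finset.range j).filter (fun i => wbk {0} i = none)).card
      | some b => bitI b)
      else u (j - ((Finset.range (1 + n)).filter (fun i => wbk {0} i ≠ none)).card)) =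
        (if j < 0 then u j else if j = 0 then 1 else u (j - 1))
    have hw : ∀ i, wbk {0} i = none ↔ i ≠ 0 := by
      intro i
      change (if i ∈ ({0} : Finset ℕ) then some true else none) = none ↔ i ≠ 0
      by_cases hi : i = 0
      · subst hi
        simp
      · simp [hi]
    rcases Nat.eq_zero_or_pos j with rfl | hj
    · rw [if_pos (by omega)]
      rfl
    · rw [if_neg (show ¬ j < 0 by omega), if_neg (show ¬ j = 0 by omega)]
      by_cases hjn : j < 1 + n
      · rw [if_pos hjn, (hw j).2 (by omega)]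
        change u ((Finset.range j).filter (fun i => wbk {0} i = none)).card = u (j - 1)
        congr 1
        have : (Finset.range j).filter (fun i => wbk {0} i = none) =
            (Finset.range j).erase 0 := by
          ext i
          rw [Finset.mem_filter, Finset.mem_erase, hw]
          exact and_comm
        rw [this, Finset.card_erase_of_mem (Finset.mem_range.2 hj), Finset.card_range]
      · rw [if_neg hjn]
        congr 2
        have : (Finset.range (1 + n)).filter (fun i => wbk {0} i ≠ none) = {0} := by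
          ext i
          rw [Finset.mem_filter, Finset.mem_singleton, Finset.mem_range, Ne, hw]
          omega
        rw [this, Finset.card_singleton]
  rw [e1, e2]
  exact one_mul _

end gen

section susp

variable {F : Type} [TopologicalSpace F] (SM : SusM F) {B : Set F}

/-- The quotient map with a one dimensional cube. -/
def qq1 : C((Fin 1 → I) × F, SM.T) where
  toFun p := SM.q (p.1 0, p.2)
  continuous_toFun := SM.q.continuous.comp
    (((continuous_apply 0).comp continuous_fst).prodMk continuous_snd)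

def t1 (F : Type) [TopologicalSpace F] : C((Fin 1 → I) × F, I) where
  toFun p := p.1 0
  continuous_toFun := (continuous_apply 0).comp continuous_fst

theorem mem_P0 {t : I} {x : F} (h : t = 0 ∨ t = 1) : SM.q (t, x) ∈ SM.P B := by
  rcases h with rfl | rfl
  · refine Or.inl ?_
    rw [SM.h_q]
    change (0 : ℝ) < 1 / 4
    norm_num
  · refine Or.inr (Or.inl ?_)
    rw [SM.h_q]
    change (3 / 4 : ℝ) < 1
    norm_num

theorem mem_PB {t : I} {x : F} (h : x ∈ B) : SM.q (t, x) ∈ SM.P B := by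
  by_cases h0 : t = 0
  · exact mem_P0 SM (Or.inl h0)
  by_cases h1 : t = 1
  · exact mem_P0 SM (Or.inr h1)
  · refine Or.inr (Or.inr ?_)
    rw [SM.dir_q t x (unitInterval.pos_iff_ne_zero.2 h0) (unitInterval.lt_one_iff_ne_one.2 h1)]
    exact h

theorem qq1_maps : (CS.faces 1 F).Maps (SM.sys B) (qq1 SM) := by
  refine ⟨fun _ _ => trivial, fun σ _ h => ?_⟩
  obtain ⟨i, hi⟩ := h
  refine Or.inr ⟨SM.P B, rfl, fun u => ?_⟩
  have hi0 : i = 0 := Subsingleton.elim _ _
  subst hi0
  refine mem_P0 SM ?_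
  rcases hi with hi | hi
  · exact Or.inl (hi u)
  · exact Or.inr (hi u)

theorem push_qq1 (c : Ch (ZMod 2) F) : push (qq1 SM) (fcr 1 c) = SM.su c := by
  induction c using Finsupp.induction_linear with
  | zero => rw [fcr, SusM.su, map_zero, map_zero, map_zero, map_zero]
  | add c c' h h' =>
    rw [fcr, SusM.su] at h h' ⊢
    rw [map_add, map_add, map_add, map_add, h, h']
  | single σ r =>
    rw [fcr, SusM.su, cr_single_single, cr_single_single, push_single, push_single]
    congr 1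

/-- `pb q a` and `eps × x` on the cylinder of length one. -/
theorem cob1 {i : ℕ} {a : C(Cb, SM.T) → ZMod 2} (ha : (SM.sys B).Coc (i + 1) a)
    {x : C(Cb, F) → ZMod 2} (hx : (CS.top F).Coc i x)
    (h : ∀ c ∈ (CS.top F).Z (ZMod 2) (i : ℤ),
      Finsupp.linearCombination (ZMod 2) a (SM.su c) =
        Finsupp.linearCombination (ZMod 2) x c) :
    (CS.faces 1 F).Cob i (fun σ => pb (qq1 SM) a σ -
      cup ml 1 i (pb (t1 F) eps) (pb ContinuousMap.snd x) σ) := by
  have hi : i + 1 = 1 + i := Nat.add_comm _ _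
  have hs : Sub3 (CS.faces 1 F) (CS.faces 1 F) (CS.top ((Fin 1 → I) × F)) :=
    ⟨fun _ => trivial, fun _ => trivial, fun _ => trivial, fun σ h => Or.inl h⟩
  have c1 : (CS.faces 1 F).Coc (i + 1) (pb (qq1 SM) a) := (qq1_maps SM).coc ha
  have c0 : (CS.faces 1 F).Coc 1 (pb (t1 F) eps) := by
    refine eps_coc (t1 F) fun σ hσ => ?_
    obtain ⟨l, hl⟩ := hσ
    have hl0 : l = 0 := Subsingleton.elim _ _
    subst hl0
    rcases hl with hl | hl
    · exact ⟨0, hl⟩
    · exact ⟨1, hl⟩
  have cx : (CS.top ((Fin 1 → I) × F)).Coc i (pb ContinuousMap.snd x) := by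
    have hm : (CS.top ((Fin 1 → I) × F)).Maps (CS.top F) ContinuousMap.snd :=
      ⟨fun _ _ => trivial, fun _ _ h => h⟩
    exact hm.coc hx
  have c2 : (CS.faces 1 F).Coc (i + 1)
      (cup ml 1 i (pb (t1 F) eps) (pb ContinuousMap.snd x)) := hs.coc hi c0 cx
  have c3 : (CS.faces 1 F).Coc (i + 1) (fun σ => pb (qq1 SM) a σ -
      cup ml 1 i (pb (t1 F) eps) (pb ContinuousMap.snd x) σ) := by
    refine ⟨fun σ k1 k2 k3 => ?_, fun σ k1 k2 => ?_⟩
    · change pb (qq1 SM) a σ - cup ml 1 i (pb (t1 F) eps) (pb ContinuousMap.snd x) σ = 0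
      rw [c1.1 σ k1 k2 k3, c2.1 σ k1 k2 k3, sub_zero]
    · have e1 := c1.2 σ k1 k2
      have e2 := c2.2 σ k1 k2
      have e3 : dl (i + 1) (fun σ => pb (qq1 SM) a σ -
          cup ml 1 i (pb (t1 F) eps) (pb ContinuousMap.snd x) σ) σ =
          dl (i + 1) (pb (qq1 SM) a) σ -
            dl (i + 1) (cup ml 1 i (pb (t1 F) eps) (pb ContinuousMap.snd x)) σ := by
        unfold dl
        rw [← Finset.sum_sub_distrib]
        refine Finset.sum_congr rfl fun l _ => ?_
        rw [← smul_sub]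
        congr 1
        exact sub_sub_sub_comm _ _ _ _
      rw [e3, e1, e2, sub_zero]
  refine uct extProp_field (CS.faces 1 F) c3 fun w hw => ?_
  have hw' : w ∈ (CS.faces 1 F).Z (ZMod 2) (((1 : ℕ) : ℤ) + (i : ℤ)) := by
    have : ((i + 1 : ℕ) : ℤ) = ((1 : ℕ) : ℤ) + (i : ℤ) := by push_cast; ring
    rwa [this] at hw
  obtain ⟨c, hc, hbd⟩ := faces_surj 1 hw'
  have hbd' : (CS.faces 1 F).Bd (ZMod 2) ((i + 1 : ℕ) : ℤ) (w - fcr 1 c) := by
    have : ((i + 1 : ℕ) : ℤ) = ((1 : ℕ) : ℤ) + (i : ℤ) := by push_cast; ring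
    rwa [this]
  have h1 := coc_bd (CS.faces 1 F) c3 hbd'
  rw [map_sub, sub_eq_zero] at h1
  rw [h1]
  have h2 : Finsupp.linearCombination (ZMod 2) (fun σ => pb (qq1 SM) a σ -
      cup ml 1 i (pb (t1 F) eps) (pb ContinuousMap.snd x) σ) (fcr 1 c) =
      Finsupp.linearCombination (ZMod 2) (pb (qq1 SM) a) (fcr 1 c) -
        Finsupp.linearCombination (ZMod 2)
          (cup ml 1 i (pb (t1 F) eps) (pb ContinuousMap.snd x)) (fcr 1 c) := by
    rw [Finsupp.linearCombination_apply, Finsupp.linearCombination_apply,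
      Finsupp.linearCombination_apply, Finsupp.sum, Finsupp.sum, Finsupp.sum,
      ← Finset.sum_sub_distrib]
    refine Finset.sum_congr rfl fun σ _ => ?_
    rw [smul_sub]
  rw [h2, sub_eq_zero, ← lc_push, push_qq1, h c hc]
  -- the value of the product on `fcr 1 c`
  have b0 : Bi (ZMod 2) 1 0 (pb (⟨fun t => t 0, continuous_apply 0⟩ : C(Fin 1 → I, I)) eps)
      (fun _ : C(Cb, F) => 1) (pb (t1 F) eps) := by
    refine bi_fst (a := pb (⟨fun t => t 0, continuous_apply 0⟩ : C(Fin 1 → I, I)) eps) ?_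
    refine (eps_coc (S := CS.top (Fin 1 → I)) _ ?_).1
    intro σ h
    exact h.elim
  have b1 : Bi (ZMod 2) 0 i (fun _ : C(Cb, Fin 1 → I) => 1) x (pb ContinuousMap.snd x) :=
    bi_snd hx.1
  have b2 := Bi.cup2 (I' := 1) (J' := i) (P := 1) (Q := i) (by omega) (by omega) (by omega)
    (by omega) b0 b1 (cup_one 1 _) (one_cup i _)
  have b3 := bi_eval b2 (m := 1) (l := i) rfl
    (x := Finsupp.single (idCube 1) 1) (y := c) ?_ ?_
  · rw [if_pos rfl, Finsupp.linearCombination_single, one_smul] at b3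
    rw [fcr, b3, pb, eps_iota (fun u => rfl), one_mul]
  · exact (idCube_mem_Z (ZMod 2) 1).1
  · have h5 := hc.1
    have h6 : (CS.top F).C (ZMod 2) (i : ℤ) ≤ CubeHom.C (ZMod 2) (i : ℤ) Set.univ :=
      Finsupp.supported_mono fun σ hσ => ⟨hσ.1, fun _ => Set.mem_univ _⟩
    exact h6 h5

end susp

section main

variable {F : Type} [TopologicalSpace F] (SM : SusM F) {d : ℕ} (b : C(Fin d → I, F))
  {B B' : Set F}

/-- All cubes of `Y`; zero if `P`. -/
def sy (Y : Type) [TopologicalSpace Y] (P : C(Cb, Y) → Prop)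
    (hP : ∀ (σ : C(Cb, Y)) (f : C(Cb, Cb)), P σ → P (σ.comp f)) : CS Y :=
  ⟨fun _ => True, P, fun _ _ _ => trivial, hP⟩

/-- Relative to the two faces of the coordinate `l`. -/
def yc (d : ℕ) (F : Type) [TopologicalSpace F] (l : Fin (3 + d)) :
    CS ((Fin (3 + d) → I) × F) :=
  ⟨fun _ => True, fun σ => (∀ u, (σ u).1 l = 0) ∨ (∀ u, (σ u).1 l = 1), fun _ _ _ => trivial,
    fun _ f h => h.imp (fun h u => h (f u)) (fun h u => h (f u))⟩

/-- Relative to the faces of the coordinates `2, ..., d + 2`. -/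
def y2 (d : ℕ) (F : Type) [TopologicalSpace F] : CS ((Fin (3 + d) → I) × F) :=
  ⟨fun _ => True, fun σ => ∃ l : Fin (3 + d), 2 ≤ (l : ℕ) ∧
      ((∀ u, (σ u).1 l = 0) ∨ (∀ u, (σ u).1 l = 1)), fun _ _ _ => trivial,
    fun _ f h => h.imp fun _ h => ⟨h.1, h.2.imp (fun h u => h (f u)) (fun h u => h (f u))⟩⟩

/-- Relative to the faces of the coordinates `1, ..., d + 2`. -/
def y12 (d : ℕ) (F : Type) [TopologicalSpace F] : CS ((Fin (3 + d) → I) × F) :=
  ⟨fun _ => True, fun σ => ∃ l : Fin (3 + d), 1 ≤ (l : ℕ) ∧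
      ((∀ u, (σ u).1 l = 0) ∨ (∀ u, (σ u).1 l = 1)), fun _ _ _ => trivial,
    fun _ f h => h.imp fun _ h => ⟨h.1, h.2.imp (fun h u => h (f u)) (fun h u => h (f u))⟩⟩

theorem sub12 : Sub3 (y12 d F) (yc d F (Fin.castAdd d 1)) (y2 d F) := by
  refine ⟨fun _ => trivial, fun _ => trivial, fun _ => trivial, fun σ h => ?_⟩
  obtain ⟨l, hl, h⟩ := h
  by_cases h1 : (l : ℕ) = 1
  · have : l = Fin.castAdd d 1 := Fin.ext h1
    subst this
    exact Or.inl h
  · exact Or.inr ⟨l, by omega, h⟩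

theorem sub02 : Sub3 (CS.faces (3 + d) F) (yc d F (Fin.castAdd d 0)) (y12 d F) := by
  refine ⟨fun _ => trivial, fun _ => trivial, fun _ => trivial, fun σ h => ?_⟩
  obtain ⟨l, h⟩ := h
  by_cases h1 : (l : ℕ) = 0
  · have : l = Fin.castAdd d 0 := Fin.ext h1
    subst this
    exact Or.inl h
  · exact Or.inr ⟨l, by omega, h⟩

/-- Projection to the coordinate `l` and `F`. -/
def pr (d : ℕ) (F : Type) [TopologicalSpace F] (l : Fin (3 + d)) :
    C((Fin (3 + d) → I) × F, (Fin 1 → I) × F) where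
  toFun p := (fun _ => p.1 l, p.2)
  continuous_toFun := (continuous_pi fun _ => (continuous_apply l).comp continuous_fst).prodMk
    continuous_snd

theorem pr_maps (l : Fin (3 + d)) : (yc d F l).Maps (CS.faces 1 F) (pr d F l) :=
  ⟨fun _ _ => trivial, fun _ _ h => ⟨0, h⟩⟩

/-- The cochain `eps` of the coordinate `l` on the cube. -/
def co (d : ℕ) (l : Fin (3 + d)) : C(Fin (3 + d) → I, I) := ⟨fun t => t l, continuous_apply l⟩

/-- The class `eps_l × x`. -/
noncomputable def ex (d : ℕ) (F : Type) [TopologicalSpace F] (l : Fin (3 + d)) (i : ℕ)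
    (x : C(Cb, F) → ZMod 2) : C(Cb, (Fin (3 + d) → I) × F) → ZMod 2 :=
  cup ml 1 i (pb ((co d l).comp ContinuousMap.fst) eps) (pb ContinuousMap.snd x)

theorem ex_bi (l : Fin (3 + d)) {i : ℕ} {x : C(Cb, F) → ZMod 2} (hx : (CS.top F).Coc i x) :
    Bi (ZMod 2) 1 i (pb (co d l) eps) x (ex d F l i x) := by
  have b0 : Bi (ZMod 2) 1 0 (pb (co d l) eps)
      (fun _ : C(Cb, F) => 1) (pb ((co d l).comp ContinuousMap.fst) eps) := by
    refine bi_fst (a := pb (co d l) eps) ?_
    refine (eps_coc (S := CS.top (Fin (3 + d) → I)) _ ?_).1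
    intro σ h
    exact h.elim
  have b1 : Bi (ZMod 2) 0 i (fun _ : C(Cb, Fin (3 + d) → I) => 1) x (pb ContinuousMap.snd x) :=
    bi_snd hx.1
  exact Bi.cup2 (I' := 1) (J' := i) (P := 1) (Q := i) (by omega) (by omega) (by omega)
    (by omega) b0 b1 (cup_one 1 _) (one_cup i _)

theorem ex_coc (l : Fin (3 + d)) {i : ℕ} {x : C(Cb, F) → ZMod 2} (hx : (CS.top F).Coc i x) :
    (yc d F l).Coc (i + 1) (ex d F l i x) := by
  have hs : Sub3 (yc d F l) (yc d F l) (CS.top ((Fin (3 + d) → I) × F)) :=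
    ⟨fun _ => trivial, fun _ => trivial, fun _ => trivial, fun σ h => Or.inl h⟩
  refine hs.coc (Nat.add_comm _ _) ?_ ?_
  · refine eps_coc _ fun σ hσ => ?_
    rcases hσ with hl | hl
    · exact ⟨0, hl⟩
    · exact ⟨1, hl⟩
  · have hm : (CS.top ((Fin (3 + d) → I) × F)).Maps (CS.top F) ContinuousMap.snd :=
      ⟨fun _ _ => trivial, fun _ _ h => h⟩
    exact hm.coc hx

theorem ex_cob (l : Fin (3 + d)) {i : ℕ} {a : C(Cb, SM.T) → ZMod 2}
    (ha : (SM.sys B).Coc (i + 1) a) {x : C(Cb, F) → ZMod 2} (hx : (CS.top F).Coc i x)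
    (h : ∀ c ∈ (CS.top F).Z (ZMod 2) (i : ℤ),
      Finsupp.linearCombination (ZMod 2) a (SM.su c) =
        Finsupp.linearCombination (ZMod 2) x c) :
    (yc d F l).Cob i (fun σ => pb ((qq1 SM).comp (pr d F l)) a σ - ex d F l i x σ) :=
  (pr_maps l).cob (cob1 SM ha hx h)

/-- The map `(t, v) ↦ q (t₂, b v)`. -/
def qq2 : C(Fin (3 + d) → I, SM.T) where
  toFun t := SM.q (hd3 t 2, b (tl3 t))
  continuous_toFun := SM.q.continuous.comp
    ((continuous_hd3 2).prodMk (b.continuous.comp continuous_tl3))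

theorem qq2_maps (hb : ∀ v i, (v i = 0 ∨ v i = 1) → b v ∈ B') :
    (y2 d F).Maps (SM.sys B') ((qq2 SM b).comp ContinuousMap.fst) := by
  refine ⟨fun _ _ => trivial, fun σ _ h => ?_⟩
  obtain ⟨l, hl, h⟩ := h
  refine Or.inr ⟨SM.P B', rfl, fun u => ?_⟩
  have hlu : (σ u).1 l = 0 ∨ (σ u).1 l = 1 := h.imp (fun h => h u) (fun h => h u)
  change SM.q (hd3 (σ u).1 2, b (tl3 (σ u).1)) ∈ SM.P B'
  by_cases h2 : (l : ℕ) = 2
  · have : l = Fin.castAdd d 2 := Fin.ext h2
    subst this
    exact mem_P0 SM hlu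
  · refine mem_PB SM (hb _ ⟨(l : ℕ) - 3, by omega⟩ ?_)
    have : Fin.natAdd 3 (⟨(l : ℕ) - 3, by omega⟩ : Fin d) = l := by
      refine Fin.ext ?_
      change 3 + ((l : ℕ) - 3) = l
      omega
    change (σ u).1 (Fin.natAdd 3 (⟨(l : ℕ) - 3, by omega⟩ : Fin d)) = 0 ∨
      (σ u).1 (Fin.natAdd 3 (⟨(l : ℕ) - 3, by omega⟩ : Fin d)) = 1
    rw [this]
    exact hlu

end main

end EX6

section

variable {F : Type} [TopologicalSpace F] (SM : SusM F) {d : ℕ} (b : C(Fin d → I, F))
  {B B' : Set F}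

open EX6 in
/-- N4. Evaluation of a triple product of suspended classes on the normal form block. -/
theorem SusM.eval_gg {i j : ℕ} {a a' ι : C(Cb, SM.T) → ZMod 2} (ha : (SM.sys B).Coc (i + 1) a)
    (ha' : (SM.sys B).Coc (j + 1) a') (hι : (SM.sys B').Coc (d + 1) ι)
    (hb : ∀ v i, (v i = 0 ∨ v i = 1) → b v ∈ B') {x x' : C(Cb, F) → ZMod 2}
    (hx : (CS.top F).Coc i x) (hx' : (CS.top F).Coc j x')
    (h : ∀ c ∈ (CS.top F).Z (ZMod 2) (i : ℤ),
      Finsupp.linearCombination (ZMod 2) a (SM.su c) =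
        Finsupp.linearCombination (ZMod 2) x c)
    (h' : ∀ c ∈ (CS.top F).Z (ZMod 2) (j : ℤ),
      Finsupp.linearCombination (ZMod 2) a' (SM.su c) =
        Finsupp.linearCombination (ZMod 2) x' c)
    (h1 : Finsupp.linearCombination (ZMod 2) ι
      (SM.su (push b (Finsupp.single (idCube d) 1))) = 1)
    {ξ : Ch (ZMod 2) F} (hξ : ξ ∈ (CS.top F).Z (ZMod 2) ((i + j : ℕ) : ℤ)) :
    Finsupp.linearCombination (ZMod 2) (trip (i + 1) (j + 1) (d + 1) a a' ι)
      (push (SM.gg b) (fcr (3 + d) ξ)) =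
        Finsupp.linearCombination (ZMod 2) (cup AddMonoidHom.mul i j x x') ξ := by
  -- the cochains on the block
  set al : C(Cb, (Fin (3 + d) → I) × F) → ZMod 2 :=
    pb ((qq1 SM).comp (pr d F (Fin.castAdd d 0))) a with hal
  set be : C(Cb, (Fin (3 + d) → I) × F) → ZMod 2 :=
    pb ((qq1 SM).comp (pr d F (Fin.castAdd d 1))) a' with hbe
  set ka : C(Cb, (Fin (3 + d) → I) × F) → ZMod 2 :=
    pb ((qq2 SM b).comp ContinuousMap.fst) ι with hka
  have cbe : (yc d F (Fin.castAdd d 1)).Coc (j + 1) be :=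
    (pr_maps (Fin.castAdd d 1)).coc ((qq1_maps SM).coc ha')
  have cka : (y2 d F).Coc (d + 1) ka := (qq2_maps SM b hb).coc hι
  have e0 : Finsupp.linearCombination (ZMod 2) (trip (i + 1) (j + 1) (d + 1) a a' ι)
      (push (SM.gg b) (fcr (3 + d) ξ)) =
      Finsupp.linearCombination (ZMod 2) (cup ml (i + 1) (j + 1 + (d + 1)) al
        (cup ml (j + 1) (d + 1) be ka)) (fcr (3 + d) ξ) := lc_push _ _ _
  have hcyc : fcr (3 + d) ξ ∈ (CS.faces (3 + d) F).Z (ZMod 2)
      (((i + 1) + (j + 1 + (d + 1)) : ℕ) : ℤ) := by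
    have e : (((i + 1) + (j + 1 + (d + 1)) : ℕ) : ℤ) = ((3 + d : ℕ) : ℤ) + ((i + j : ℕ) : ℤ) := by
      push_cast
      ring
    rw [e]
    exact fcr_mem (3 + d) hξ
  have s1 := sub02.cob_left (n := i + (j + 1 + (d + 1))) (q := j + 1 + (d + 1)) rfl rfl
    (ex_cob (d := d) SM (Fin.castAdd d 0) ha hx h)
    (sub12.coc (n := j + 1 + (d + 1)) rfl cbe cka)
  have s2 := sub12.cob_left (n := j + (d + 1)) rfl rfl
    (ex_cob (d := d) SM (Fin.castAdd d 1) ha' hx' h') cka
  have s3 := sub02.cob_right (n := (i + 1) + (j + (d + 1))) (q1 := j + 1 + (d + 1)) rfl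
    (by omega) (ex_coc (d := d) (Fin.castAdd d 0) hx) s2
  rw [e0, lc_eq (by omega) s1 hcyc, lc_eq (by omega) s3 hcyc]
  -- the product formula
  have bal := ex_bi (d := d) (F := F) (Fin.castAdd d 0) hx
  have bbe := ex_bi (d := d) (F := F) (Fin.castAdd d 1) hx'
  have bka : Bi (ZMod 2) (d + 1) 0 (pb (qq2 SM b) ι) (fun _ : C(Cb, F) => 1) ka := by
    refine bi_fst (a := pb (qq2 SM b) ι) ?_
    intro σ k1 _ k3
    rcases k3 with k3 | k3
    · exact k3.elim
    · refine hι.1 _ ?_ trivial (Or.inr ?_)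
      · exact ⟨k1.1, fun u v huv => congrArg (qq2 SM b) (k1.2 huv)⟩
      · obtain ⟨l, hl, k4⟩ := k3
        exact ⟨l, hl, fun u v huv => congrArg (qq2 SM b) (k4 huv)⟩
  have b1 := Bi.cup2 (I' := 1 + (d + 1)) (J' := j) (P := j + 1) (Q := d + 1) rfl rfl
    (by omega) rfl bbe bka (fun _ => rfl) (cup_one j _)
  have b2 := Bi.cup2 (I' := 1 + (1 + (d + 1))) (J' := i + j) (P := i + 1)
    (Q := j + 1 + (d + 1)) rfl rfl (by omega) (by omega) bal b1 (fun _ => rfl) (fun _ => rfl)
  have b3 := bi_eval b2 (m := 3 + d) (l := i + j) (by omega)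
    (x := Finsupp.single (idCube (3 + d)) 1) (y := ξ) ?_ ?_
  · rw [if_pos (by omega), Finsupp.linearCombination_single, one_smul] at b3
    rw [fcr, b3]
    have e1 : cup ml 1 (1 + (d + 1)) (pb (co d (Fin.castAdd d 0)) eps)
        (cup ml 1 (d + 1) (pb (co d (Fin.castAdd d 1)) eps) (pb (qq2 SM b) ι))
        (idCube (3 + d)) = 1 := by
      rw [cup_coord (co d (Fin.castAdd d 0)) _ _ fun u => rfl,
        cup_coord (co d (Fin.castAdd d 1)) _ _ fun u => rfl]
      rw [SusM.su, push_single, cr_single_single, push_single,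
        Finsupp.linearCombination_single, one_mul, one_smul] at h1
      rw [← h1]
      change ι ((qq2 SM b).comp (((idCube (3 + d)).comp (ins 0 1)).comp (ins 0 1))) = _
      congr 1
      refine ContinuousMap.ext fun u => ?_
      change SM.q (u 0, b (fun l : Fin d => (if 3 + (l : ℕ) < 0 then ins 0 1 u (3 + (l : ℕ))
        else if 3 + (l : ℕ) = 0 then 1 else (if 3 + (l : ℕ) - 1 < 0 then u (3 + (l : ℕ) - 1)
          else if 3 + (l : ℕ) - 1 = 0 then 1 else u (3 + (l : ℕ) - 1 - 1))))) =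
        SM.q (u 0, b (fun l : Fin d => u (1 + (l : ℕ))))
      congr 3
      funext l
      rw [if_neg (by omega), if_neg (by omega), if_neg (by omega), if_neg (by omega)]
      congr 1
      omega
    rw [e1, one_mul]
  · exact (idCube_mem_Z (ZMod 2) (3 + d)).1
  · have h5 := hξ.1
    have h6 : (CS.top F).C (ZMod 2) ((i + j : ℕ) : ℤ) ≤
        CubeHom.C (ZMod 2) ((i + j : ℕ) : ℤ) Set.univ :=
      Finsupp.supported_mono fun σ hσ => ⟨hσ.1, fun _ => Set.mem_univ _⟩
    exact h6 h5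

end

end Pool.Agent.TC
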