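import Pool.Agent.Lib.TC.Exc2
import Pool.Agent.Lib.TC.Exc3
import Pool.Agent.Lib.TC.Exc5
import Pool.Agent.Lib.TC.Exc6

/-!
# The exceptional case is impossible: abstract version
-/

namespace Pool.Agent.TC

open CubeHom

namespace EX7

section gen

variable {X Y : Type} [TopologicalSpace X] [TopologicalSpace Y] {R : Type} [CommRing R]

theorem CS_ext {S T : CS X} (h1 : ∀ σ, S.ok σ ↔ T.ok σ) (h2 : ∀ σ, S.nul σ ↔ T.nul σ) : S = T := by
  obtain ⟨a, b, _, _⟩ := S
  obtain ⟨c, d, _, _⟩ := T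
  obtain rfl : a = c := funext fun σ => propext (h1 σ)
  obtain rfl : b = d := funext fun σ => propext (h2 σ)
  rfl

theorem prod_top : (CS.top X).prod (CS.top Y) = CS.top (X × Y) :=
  CS_ext (fun _ => by simp [CS.prod, CS.top]) (fun _ => by simp [CS.prod, CS.top])

theorem rel_C (A : Set X) (k : ℤ) : ((CS.top X).kill {A}).C R k = CubeHom.C R k Set.univ := by
  unfold CS.C CubeHom.C CS.kill CS.top
  simp

theorem rel_Q (A : Set X) (k : ℤ) : ((CS.top X).kill {A}).Q R k = CubeHom.Q R k A := by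
  unfold CS.Q CubeHom.Q CS.kill CS.top
  simp

theorem top_C (k : ℤ) : (CS.top X).C R k = CubeHom.C R k Set.univ := by
  unfold CS.C CubeHom.C CS.top
  simp

theorem top_Q (k : ℤ) : (CS.top X).Q R k = CubeHom.Q R k (∅ : Set X) := by
  unfold CS.Q CubeHom.Q CS.top
  simp

theorem rel_Z (A : Set X) (k : ℤ) : ((CS.top X).kill {A}).Z R k = CubeHom.Z R k Set.univ A := by
  unfold CS.Z CubeHom.Z
  rw [rel_C, rel_Q]

theorem rel_Bd (A : Set X) (k : ℤ) (c : Ch R X) :
    ((CS.top X).kill {A}).Bd R k c ↔ CubeHom.Bd R k Set.univ A c := by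
  unfold CS.Bd CubeHom.Bd
  rw [rel_C, rel_Q]

theorem top_Z (k : ℤ) : (CS.top X).Z R k = CubeHom.Z R k Set.univ ∅ := by
  unfold CS.Z CubeHom.Z
  rw [top_C, top_Q]

theorem top_Bd (k : ℤ) (c : Ch R X) : (CS.top X).Bd R k c ↔ CubeHom.Bd R k Set.univ ∅ c := by
  unfold CS.Bd CubeHom.Bd
  rw [top_C, top_Q]

theorem bd_add {S : CS X} {k : ℤ} {c c' : Ch R X} (h : S.Bd R k c) (h' : S.Bd R k c') :
    S.Bd R k (c + c') := by
  obtain ⟨b, hb, h1⟩ := h
  obtain ⟨b', hb', h1'⟩ := h'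
  refine ⟨b + b', Submodule.add_mem _ hb hb', ?_⟩
  rw [map_add, add_sub_add_comm]
  exact Submodule.add_mem _ h1 h1'

theorem bd_neg {S : CS X} {k : ℤ} {c : Ch R X} (h : S.Bd R k c) : S.Bd R k (-c) := by
  obtain ⟨b, hb, h1⟩ := h
  refine ⟨-b, Submodule.neg_mem _ hb, ?_⟩
  rw [map_neg, ← neg_add', ← sub_eq_add_neg] 
  exact Submodule.neg_mem _ h1

theorem bd_sub {S : CS X} {k : ℤ} {c c' : Ch R X} (h : S.Bd R k c) (h' : S.Bd R k c') :
    S.Bd R k (c - c') := by
  rw [sub_eq_add_neg]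
  exact bd_add h (bd_neg h')

/-- A cocycle of positive degree is a coboundary if the homology is zero. -/
theorem cob_of_hz {K : Type} [Field K] (S : CS X) {k : ℕ} {u : C(Cb, X) → K}
    (hu : S.Coc (k + 1) u) (h : S.Hz K ((k + 1 : ℕ) : ℤ)) : S.Cob k u :=
  uct extProp_field S hu fun c hc => coc_bd S hu (h c hc)

/-! ### Change of rings -/

theorem cast_sup {P : Set (C(Cb, X))} {c : Ch ℤ X} (hc : c ∈ Finsupp.supported ℤ ℤ P) :
    castCh R c ∈ Finsupp.supported R R P := by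
  rw [Finsupp.mem_supported] at hc ⊢
  exact (Finset.coe_subset.2 (Finsupp.support_mapRange (hf := by simp))).trans hc

theorem cast_Z {S : CS X} {k : ℤ} {c : Ch ℤ X} (hc : c ∈ S.Z ℤ k) : castCh R c ∈ S.Z R k := by
  refine ⟨cast_sup hc.1, ?_⟩
  change bd k (castCh R c) ∈ S.Q R (k - 1)
  rw [← castCh_bd]
  exact cast_sup hc.2

theorem cast_Bd {S : CS X} {k : ℤ} {c : Ch ℤ X} (h : S.Bd ℤ k c) : S.Bd R k (castCh R c) := by
  obtain ⟨b, hb, h1⟩ := h
  refine ⟨castCh R b, cast_sup hb, ?_⟩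
  rw [← castCh_bd, ← map_sub]
  exact cast_sup h1

theorem cast_cr (n : ℕ) (x : Ch ℤ X) (y : Ch ℤ Y) :
    castCh R (cr n x y) = cr n (castCh R x) (castCh R y) := by
  induction x using Finsupp.induction_linear with
  | zero => simp
  | add x x' hx hx' => simp only [map_add, LinearMap.add_apply, hx, hx']
  | single τ r =>
    induction y using Finsupp.induction_linear with
    | zero => simp
    | add y y' hy hy' => simp only [map_add, hy, hy']
    | single σ s =>
      rw [cr_single_single, castCh_single, castCh_single, castCh_single, cr_single_single]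
      push_cast
      rfl

theorem cast_fcr (m : ℕ) (c : Ch ℤ X) : castCh R (fcr m c) = fcr m (castCh R c) := by
  unfold fcr
  rw [cast_cr, castCh_single, Int.cast_one]

theorem lc_cast (u : C(Cb, X) → ZMod 4) (w : Ch ℤ X) :
    r2 (Finsupp.linearCombination (ZMod 4) u (castCh (ZMod 4) w)) =
      Finsupp.linearCombination (ZMod 2) (fun σ => r2 (u σ)) (castCh (ZMod 2) w) := by
  induction w using Finsupp.induction_linear with
  | zero => simp
  | add x x' hx hx' => simp only [map_add, hx, hx']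
  | single τ r =>
    rw [castCh_single, castCh_single, Finsupp.linearCombination_single,
      Finsupp.linearCombination_single, smul_eq_mul, smul_eq_mul, map_mul, map_intCast]

theorem lc_congr {A : Type} [AddCommGroup A] [Module R A] {u u' : C(Cb, X) → A} {c : Ch R X}
    (h : ∀ σ ∈ c.support, u σ = u' σ) :
    Finsupp.linearCombination R u c = Finsupp.linearCombination R u' c := by
  rw [Finsupp.linearCombination_apply, Finsupp.linearCombination_apply]
  exact Finsupp.sum_congr fun σ hσ => by rw [h σ hσ]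

/-! ### Cup products depend only on the values on cubes -/

theorem isCube_map {k : ℤ} {σ : C(Cb, X)} (f : C(X, Y)) (h : IsCube k σ) : IsCube k (f.comp σ) :=
  ⟨h.1, fun _ _ huv => congrArg f (h.2 huv)⟩

theorem card_wfr {n p : ℕ} {H : Finset ℕ} (hH : H ∈ (Finset.range n).powersetCard p) :
    ((Finset.range n).filter (fun i => wfr H i = none)).card = p := by
  rw [Finset.mem_powersetCard] at hH
  rw [← hH.2]
  congr 1
  ext j
  rw [Finset.mem_filter]
  unfold wfr
  constructor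
  · rintro ⟨-, h⟩
    by_contra hj
    rw [if_neg hj] at h
    exact absurd h (by simp)
  · intro hj
    exact ⟨hH.1 hj, if_pos hj⟩

theorem card_wbk {p q : ℕ} {H : Finset ℕ} (hH : H ∈ (Finset.range (p + q)).powersetCard p) :
    ((Finset.range (p + q)).filter (fun i => wbk H i = none)).card = q := by
  rw [Finset.mem_powersetCard] at hH
  have h1 : (Finset.range (p + q)).filter (fun i => wbk H i = none) =
      Finset.range (p + q) \ H := by
    ext j
    rw [Finset.mem_filter, Finset.mem_sdiff]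
    unfold wbk
    constructor
    · rintro ⟨h0, h⟩
      refine ⟨h0, fun hj => ?_⟩
      rw [if_pos hj] at h
      exact absurd h (by simp)
    · rintro ⟨h0, hj⟩
      exact ⟨h0, if_neg hj⟩
  rw [h1, Finset.card_sdiff_of_subset hH.1, Finset.card_range, hH.2]
  omega

theorem cup_congr {A A' A'' : Type} [AddCommGroup A] [AddCommGroup A'] [AddCommGroup A'']
    (β : A →+ A' →+ A'') {p q : ℕ} {u u' : C(Cb, X) → A} {v v' : C(Cb, X) → A'} {σ : C(Cb, X)}
    (hσ : IsCube ((p + q : ℕ) : ℤ) σ) (hu : ∀ τ, IsCube (p : ℤ) τ → u τ = u' τ)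
    (hv : ∀ τ, IsCube (q : ℤ) τ → v τ = v' τ) : cup β p q u v σ = cup β p q u' v' σ := by
  unfold cup
  refine Finset.sum_congr rfl fun H hH => ?_
  have h1 := isCube_fc (w := wfr H) hσ
  have h2 := isCube_fc (w := wbk H) hσ
  rw [card_wfr hH] at h1
  rw [card_wbk hH] at h2
  rw [hu _ h1, hv _ h2]

theorem trip_congr {W : Type} [TopologicalSpace W] {i j l : ℕ} {a a' : C(Cb, X) → R}
    {b b' : C(Cb, Y) → R} {c c' : C(Cb, W) → R} {ω : C(Cb, X × (Y × W))}
    (hω : IsCube ((i + (j + l) : ℕ) : ℤ) ω) (ha : ∀ τ, IsCube (i : ℤ) τ → a τ = a' τ)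
    (hb : ∀ τ, IsCube (j : ℤ) τ → b τ = b' τ) (hc : ∀ τ, IsCube (l : ℤ) τ → c τ = c' τ) :
    trip i j l a b c ω = trip i j l a' b' c' ω := by
  unfold trip
  refine cup_congr _ hω (fun τ hτ => ha _ (isCube_map _ hτ)) fun τ hτ => ?_
  exact cup_congr _ hτ (fun τ hτ => hb _ (isCube_map _ hτ)) fun τ hτ => hc _ (isCube_map _ hτ)

/-! ### Coefficients -/

theorem r2_i2 (x : ZMod 2) : r2 (i2 x) = 0 := by
  revert x
  decide

theorem r2_lft (u : C(Cb, X) → ZMod 2) (σ : C(Cb, X)) : r2 (lft u σ) = u σ := by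
  unfold lft
  generalize u σ = x
  revert x
  decide

theorem map_dl {A A' : Type} [AddCommGroup A] [AddCommGroup A'] (φ : A →+ A') (k : ℕ)
    (u : C(Cb, X) → A) (σ : C(Cb, X)) : dl k (fun τ => φ (u τ)) σ = φ (dl k u σ) := by
  unfold dl
  rw [map_sum]
  refine Finset.sum_congr rfl fun i _ => ?_
  rw [map_zsmul, map_sub]

theorem map_coc {A A' : Type} [AddCommGroup A] [AddCommGroup A'] (φ : A →+ A') {S : CS X} {k : ℕ}
    {u : C(Cb, X) → A} (h : S.Coc k u) : S.Coc k (fun τ => φ (u τ)) := by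
  refine ⟨fun σ h1 h2 h3 => ?_, fun σ h1 h2 => ?_⟩
  · change φ (u σ) = 0
    rw [h.1 σ h1 h2 h3, map_zero]
  · rw [map_dl, h.2 σ h1 h2, map_zero]

/-! ### Maps of systems -/

theorem maps_comp {Z : Type} [TopologicalSpace Z] {S : CS X} {T : CS Y} {V : CS Z} {f : C(X, Y)}
    {h : C(Y, Z)} (hf : S.Maps T f) (hh : T.Maps V h) : S.Maps V (h.comp f) :=
  ⟨fun σ hσ => hh.1 _ (hf.1 σ hσ), fun σ hσ hn => hh.2 _ (hf.1 σ hσ) (hf.2 σ hσ hn)⟩

theorem maps_atTime {S : CS X} {T : CS Y} {H : C(I × X, Y)} (hH : S.cyl.Maps T H) (t : I) :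
    S.Maps T (atTime H t) := by
  have e : ∀ σ : C(Cb, X), (atTime H t).comp σ =
      H.comp ((ContinuousMap.const Cb t).prodMk σ) := fun σ => rfl
  constructor
  · intro σ hσ
    rw [e]
    exact hH.1 _ hσ
  · intro σ hσ hn
    rw [e]
    exact hH.2 _ hσ hn

theorem maps_rev (m : ℕ) (N : Type) [TopologicalSpace N] (i : Fin m) :
    (CS.faces m N).Maps (CS.faces m N) (revC m N i) := by
  refine ⟨fun _ _ => trivial, fun σ _ hn => ?_⟩
  obtain ⟨j, hj⟩ := hn
  refine ⟨j, ?_⟩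
  by_cases hij : j = i
  · subst hij
    rcases hj with h | h
    · right
      intro u
      change Function.update (σ u).1 j (unitInterval.symm ((σ u).1 j)) j = 1
      rw [Function.update_self, h u, unitInterval.symm_zero]
    · left
      intro u
      change Function.update (σ u).1 j (unitInterval.symm ((σ u).1 j)) j = 0
      rw [Function.update_self, h u, unitInterval.symm_one]
  · have key : ∀ u, ((revC m N i).comp σ u).1 j = (σ u).1 j := by
      intro u
      change Function.update (σ u).1 i (unitInterval.symm ((σ u).1 i)) j = (σ u).1 j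
      rw [Function.update_of_ne hij]
    rcases hj with h | h
    · exact Or.inl fun u => (key u).trans (h u)
    · exact Or.inr fun u => (key u).trans (h u)

/-- Two reversals. -/
theorem rev_rev (m : ℕ) (i i' : Fin m) {j : ℤ} {c : Ch R X} (hc : c ∈ (CS.top X).Z R j) :
    (CS.faces m X).Bd R (m + j)
      (push ((revC m X i).comp (revC m X i')) (fcr m c) - fcr m c) := by
  have h1 := rev_fcr (R := R) m i' hc
  have h2 := rev_fcr (R := R) m i hc
  have h3 := (maps_rev m X i).push_bd h1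
  have h4 := bd_sub h3 h2
  rw [map_add, push_push] at h4
  have e : push ((revC m X i).comp (revC m X i')) (fcr m c) - fcr m c =
      push ((revC m X i).comp (revC m X i')) (fcr m c) + push (revC m X i) (fcr m c) -
        (push (revC m X i) (fcr m c) + fcr m c) := by abel
  rw [e]
  exact h4

end gen

section main

variable {F : Type} [TopologicalSpace F] (SM : SusM F) {d : ℕ} (b : C(Fin d → I, F))
  {B B' : Set F}

theorem b_mem (R : Type) [CommRing R] (hb : ∀ v i, (v i = 0 ∨ v i = 1) → b v ∈ B') :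
    push b (Finsupp.single (idCube d) 1) ∈ (relB B').Z R (d : ℤ) := by
  unfold relB
  rw [rel_Z]
  refine push_mem_Z (Set.mapsTo_univ _ _) ?_ (idCube_mem_Z R d)
  rintro v ⟨i, hi⟩
  exact hb v i hi

theorem cast_su {R : Type} [CommRing R] (c : Ch ℤ F) : castCh R (SM.su c) = SM.su (castCh R c) := by
  unfold SusM.su
  rw [castCh_push, cast_cr, castCh_single, Int.cast_one]

theorem two_mul_eq {v w : ZMod 4} {ε : ℤ} (hε : ε = 1 ∨ ε = -1) (h : v = (ε : ZMod 4) * (w + w))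
    (hv : v = 0) : r2 w = 0 := by
  subst hv
  rcases hε with rfl | rfl
  · push_cast at h
    revert w
    decide
  · push_cast at h
    revert w
    decide

end main

end EX7

open EX7

section

variable {F : Type} [TopologicalSpace F] (SM : SusM F) {d : ℕ} (b : C(Fin d → I, F))

variable {B B' : Set F} {x0 : F}

include SM in
/-- The exceptional case is impossible: abstract version. `B` is a contractible open set, `B'` is
the complement of a compact cube inside a coordinate cube `b`. -/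
theorem SusM.exc_false [T2Space F] [CompactSpace F] {k : ℕ} (hk : 2 ≤ k) (hdk : d = 2 * k + 1)
    (hTC : TC0le F 2)
    (hB : IsOpen B) (hB' : IsOpen B')
    (hBac : ∀ j : ℤ, 1 ≤ j → ∀ c ∈ CubeHom.Z (ZMod 2) j B ∅, CubeHom.Bd (ZMod 2) j B ∅ c)
    (hb : ∀ v i, (v i = 0 ∨ v i = 1) → b v ∈ B') {c : Fin d → I} (hc : b c ∈ B)
    (hloc2 : ∀ j : ℤ, j ≠ d → (relB B').Hz (ZMod 2) j)
    (hfree : ∀ r : ZMod 4, (relB B').Bd (ZMod 4) (d : ℤ)
      (r • push b (Finsupp.single (idCube d) 1)) → r = 0)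
    {ξ : Ch ℤ F} (hξ : ξ ∈ (CS.top F).Z ℤ (d : ℤ)) {ε : ℤ} (hε1 : ε = 1 ∨ ε = -1)
    (hε : (relB B').Bd ℤ (d : ℤ) (ξ - ε • push b (Finsupp.single (idCube d) 1)))
    (hgen : ∀ c ∈ (CS.top F).Z (ZMod 2) (d : ℤ), ∃ r : ZMod 2,
      (CS.top F).Bd (ZMod 2) (d : ℤ) (c - r • castCh (ZMod 2) ξ))
    (hne : ¬ (CS.top F).Bd (ZMod 2) (d : ℤ) (castCh (ZMod 2) ξ))
    (hab : ∀ j : ℤ, (d : ℤ) < j → (CS.top F).Hz (ZMod 2) j)
    (hH : ∀ j : ℕ, 0 < j → j < d → j ≠ k → j ≠ k + 1 → (CS.top F).Hz (ZMod 2) (j : ℤ))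
    (hsq : SqZ (CS.top F) (2 * k - 1))
    {x x' : C(Cb, F) → ZMod 2} (hx : (CS.top F).Coc k x) (hx' : (CS.top F).Coc k x')
    (h1 : Finsupp.linearCombination (ZMod 2) (cup AddMonoidHom.mul k (k + 1) x (sq1 k x'))
      (castCh (ZMod 2) ξ) = 1) : False := by
  -- the cocycles on the suspension
  obtain ⟨a, ha, hax⟩ := SM.exists_a extProp_field hB (hBac k (by omega)) hx
  obtain ⟨a', ha', hax'⟩ := SM.exists_a extProp_field hB (hBac k (by omega)) hx'
  obtain ⟨ι, hι, hι1⟩ := SM.exists_loc extProp_zmod4 hB' (b_mem b (ZMod 4) hb) hfree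
  have hιr : (SM.sys B').Coc (d + 1) (fun τ => r2 (ι τ)) := map_coc r2.toAddMonoidHom hι
  -- the data of the invariant
  have hz3 : (SM.sys B).Hz (ZMod 2) ((k + 2 + 1 : ℕ) : ℤ) := by
    have e1 := SM.sys_hz (R := ZMod 2) (j := ((k + 2 : ℕ) : ℤ)) hB
      (relB_hz (hH (k + 2) (by omega) (by omega) (by omega) (by omega))
        (hBac _ (by push_cast; omega)))
    have e2 : ((k + 2 + 1 : ℕ) : ℤ) = 1 + ((k + 2 : ℕ) : ℤ) := by push_cast; ring
    rw [e2]
    exact e1
  have hz4 : ∀ m : ℕ, m ≠ d + 1 → (SM.sys B').Hz (ZMod 2) (m : ℤ) := by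
    intro m hm
    have e1 := SM.sys_hz (R := ZMod 2) (j := (m : ℤ) - 1) hB' (hloc2 _ (by omega))
    have e2 : (m : ℤ) = 1 + ((m : ℤ) - 1) := by ring
    rw [e2]
    exact e1
  obtain ⟨D, hD⟩ := exists_qdata (SM.sys B) (SM.sys B) (SM.sys B') (fun _ => trivial)
    (fun _ => trivial) (fun _ => trivial) (i := k + 1) (j := k + 1) (l := d + 1)
    (n := 4 * k + 3) (by omega) (by omega) (by omega) (by omega) ha ha' hι
    (cob_of_hz _ (sq2_coc _ (by omega) ha) hz3) (cob_of_hz _ (sq2_coc _ (by omega) ha') hz3)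
    (cob_of_hz _ (sq2_coc _ (by omega) hιr) (hz4 _ (by omega)))
    (cob_of_hz _ (sq1_coc _ (by omega) hιr) (hz4 _ (by omega)))
  change QData (SM.sysQ B B') (4 * k + 3) at D
  have hn : 2 ≤ 4 * k + 3 := by omega
  -- the fundamental cycles
  have hξ4 : castCh (ZMod 4) ξ ∈ (CS.top F).Z (ZMod 4) (d : ℤ) := cast_Z hξ
  have hξ2 : castCh (ZMod 2) ξ ∈ (CS.top F).Z (ZMod 2) (d : ℤ) := cast_Z hξ
  have hξξ : cr d (castCh (ZMod 4) ξ) (castCh (ZMod 4) ξ) ∈
      (CS.top (F × F)).Z (ZMod 4) ((d : ℤ) + d) := by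
    rw [top_Z] at hξ4 ⊢
    exact cr_mem_Z hξ4 hξ4 (Set.subset_univ _) (by simp) (by simp)
  have hy : fcr 3 (cr d (castCh (ZMod 4) ξ) (castCh (ZMod 4) ξ)) ∈
      (CS.faces 3 (F × F)).Z (ZMod 4) ((4 * k + 3 + 2 : ℕ) : ℤ) := by
    have := fcr_mem 3 hξξ
    have e : ((4 * k + 3 + 2 : ℕ) : ℤ) = ((3 : ℕ) : ℤ) + ((d : ℤ) + d) := by
      subst hdk
      push_cast
      ring
    rw [e]
    exact this
  have hy' : fcr (3 + d) (castCh (ZMod 4) ξ) ∈
      (CS.faces (3 + d) F).Z (ZMod 4) ((4 * k + 3 + 2 : ℕ) : ℤ) := by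
    have := fcr_mem (3 + d) hξ4
    have e : ((4 * k + 3 + 2 : ℕ) : ℤ) = ((3 + d : ℕ) : ℤ) + (d : ℤ) := by
      subst hdk
      push_cast
      ring
    rw [e]
    exact this
  -- homology of `F`
  have hzF : ∀ j : ℕ, j ≠ 0 → j ≠ k → j ≠ k + 1 → j ≠ d → (CS.top F).Hz (ZMod 2) (j : ℤ) := by
    intro j j0 j1 j2 j3
    rcases lt_or_gt_of_ne j3 with h | h
    · exact hH j (by omega) h j1 j2
    · exact hab j (by exact_mod_cast h)
  -- facts on the large domain
  have hS1 : (CS.faces 3 (F × F)).Hz (ZMod 2) ((4 * k + 3 + 1 : ℕ) : ℤ) := by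
    have e1 : ((CS.top F).prod (CS.top F)).Hz (ZMod 2) ((4 * k + 1 : ℕ) : ℤ) := by
      refine prod_hz _ _ fun i j hij => ?_
      by_cases hi : i ≠ 0 ∧ i ≠ k ∧ i ≠ k + 1 ∧ i ≠ d
      · exact Or.inl (hzF i hi.1 hi.2.1 hi.2.2.1 hi.2.2.2)
      · exact Or.inr (hzF j (by omega) (by omega) (by omega) (by omega))
    rw [prod_top] at e1
    have e2 := faces_hz e1 3
    have e : ((4 * k + 3 + 1 : ℕ) : ℤ) = ((3 : ℕ) : ℤ) + ((4 * k + 1 : ℕ) : ℤ) := by
      push_cast
      ring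
    rw [e]
    exact e2
  have hS2 : SqZ (CS.faces 3 (F × F)) (4 * k + 3) := by
    have e1 : SqZ (CS.top (F × F)) (d + (2 * k - 1)) := by
      refine prod_sqz (ξ := castCh (ZMod 2) ξ) (by omega) (by omega) (by omega) ?_ ?_ hξ2 hgen hne
        hsq
      · intro i j hij hi hj
        by_cases hi' : i ≠ 0 ∧ i ≠ k ∧ i ≠ k + 1
        · exact Or.inl (hzF i hi'.1 hi'.2.1 hi'.2.2 hi)
        · exact Or.inr (hzF j (by omega) (by omega) (by omega) hj)
      · intro i j hij hi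
        by_cases hi' : i ≠ 0 ∧ i ≠ k ∧ i ≠ k + 1
        · exact Or.inl (hzF i hi'.1 hi'.2.1 hi'.2.2 hi)
        · exact Or.inr (hzF j (by omega) (by omega) (by omega) (by omega))
    have e2 := faces_sqz (by omega) (m := 3) (by omega) e1
    have e : 3 + (d + (2 * k - 1)) = 4 * k + 3 := by omega
    rwa [e] at e2
  -- facts on the block
  have hT1 : (CS.faces (3 + d) F).Hz (ZMod 2) ((4 * k + 3 + 1 : ℕ) : ℤ) := by
    have e2 := faces_hz (hzF (2 * k) (by omega) (by omega) (by omega) (by omega)) (3 + d)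
    have e : ((4 * k + 3 + 1 : ℕ) : ℤ) = ((3 + d : ℕ) : ℤ) + ((2 * k : ℕ) : ℤ) := by
      subst hdk
      push_cast
      ring
    rw [e]
    exact e2
  have hT2 : SqZ (CS.faces (3 + d) F) (4 * k + 3) := by
    have e2 := faces_sqz (by omega) (m := 3 + d) (by omega) hsq
    have e : 3 + d + (2 * k - 1) = 4 * k + 3 := by omega
    rwa [e] at e2
  -- the domain relative to `Ro`
  have hY1 : (SM.YR B').Hz (ZMod 2) ((4 * k + 3 + 1 : ℕ) : ℤ) := by
    have e2 := SM.yr_hz (K := ZMod 2) hB' hloc2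
      (hzF (2 * k) (by omega) (by omega) (by omega) (by omega))
    have e : 3 + d + 2 * k = 4 * k + 3 + 1 := by omega
    rwa [e] at e2
  have hmD : (SM.YR B').Maps (SM.sysQ B B') SM.D3 := SM.D3_maps
  obtain ⟨v, hv⟩ := D.exists_val hY1 hmD
    (fcr 3 (cr d (castCh (ZMod 4) ξ) (castCh (ZMod 4) ξ)))
  -- the value is zero
  have hv0 : v = 0 := by
    obtain ⟨Ξ, hΞ0, hΞ1, hΞ2⟩ := SM.exists_null hTC
    obtain ⟨𝒱, hV, hcov, hnul⟩ := SM.asm_null Ξ B B' hΞ2
    have hH := SM.asmH_maps Ξ B B' hΞ1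
    have e0 : atTime (SM.asmH Ξ) 0 = SM.D3 := by
      ext p
      · exact hΞ0 0 _ _
      · exact hΞ0 1 _ _
      · exact hΞ0 2 _ _
    have hvf : D.IsQ (CS.faces 3 (F × F)) (atTime (SM.asmH Ξ) 0)
        (fcr 3 (cr d (castCh (ZMod 4) ξ) (castCh (ZMod 4) ξ))) v := by
      rw [e0]
      exact D.of_kill hv
    have hvg := D.homotopy hn hS2 hS1 hy hH hvf
    exact D.null hn hS2 (fun _ => trivial) (maps_atTime hH 1) hy hV hcov hnul hvg
  -- the two blocks
  have hε4 : (relB B').Bd (ZMod 4) (d : ℤ)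
      (castCh (ZMod 4) ξ - (ε : ZMod 4) • push b (Finsupp.single (idCube d) 1)) := by
    have := cast_Bd (R := ZMod 4) hε
    rwa [map_sub, castCh_smul, castCh_push, castCh_single, Int.cast_one] at this
  have hbl := SM.blocks b (R := ZMod 4) ⟨k, hdk⟩ hB' hb hξ4 (ε : ZMod 4) hε4
  have hv2 : D.IsQ (SM.YR B') SM.D3 ((ε : ZMod 4) •
      (push (blk1 b) (fcr (3 + d) (castCh (ZMod 4) ξ)) +
        push (blk2 b) (fcr (3 + d) (castCh (ZMod 4) ξ)))) v := by
    refine D.of_bd hn hmD ?_ hv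
    have e : 4 * k + 3 + 2 = 3 + (d + d) := by omega
    rw [e]
    exact hbl
  obtain ⟨v1, v2, q1, q2, hvv⟩ := D.of_smul_add hv2
  have p1 := D.of_push (blk1_maps SM b hb) q1
  have p2 := D.of_push (blk2_maps SM b hb) q2
  -- the normal forms
  have hgm : (CS.faces (3 + d) F).Maps (SM.sysQ B B') (SM.gg b) := SM.gg_maps b hb
  have g2 : D.IsQ (CS.faces (3 + d) F) (SM.gg b) (fcr (3 + d) (castCh (ZMod 4) ξ)) v2 := by
    obtain ⟨H, hHm, hH0, hH1⟩ := SM.blk2_homotopy b (B := B) hb hc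
    rw [← hH1]
    refine D.homotopy hn hT2 hT1 hy' hHm ?_
    rw [hH0]
    exact p2
  have g1 : D.IsQ (CS.faces (3 + d) F) ((SM.gg b).comp ((revC (3 + d) F (Fin.castAdd d 0)).comp
        (revC (3 + d) F (Fin.castAdd d 1)))) (fcr (3 + d) (castCh (ZMod 4) ξ)) v1 := by
    obtain ⟨H, hHm, hH0, hH1⟩ := SM.blk1_homotopy b (B := B) hb hc
    rw [← hH1]
    refine D.homotopy hn hT2 hT1 hy' hHm ?_
    rw [hH0]
    exact p1
  have hrr := maps_comp (maps_rev (3 + d) F (Fin.castAdd d 1))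
    (maps_rev (3 + d) F (Fin.castAdd d 0))
  obtain ⟨v3, hv3⟩ := D.exists_val hT1 hgm
    (push ((revC (3 + d) F (Fin.castAdd d 0)).comp (revC (3 + d) F (Fin.castAdd d 1)))
      (fcr (3 + d) (castCh (ZMod 4) ξ)))
  have e13 : v1 = v3 := D.unique hn hT2 hy' g1 (D.of_push hrr hv3)
  have e32 : v3 = v2 := by
    refine D.unique hn hT2 hy' (D.of_bd hn hgm ?_ hv3) g2
    have e : ((4 * k + 3 + 2 : ℕ) : ℤ) = ((3 + d : ℕ) : ℤ) + (d : ℤ) := by
      subst hdk
      push_cast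
      ring
    rw [e]
    exact rev_rev (3 + d) _ _ hξ4
  rw [e13, e32] at hvv
  have hr := two_mul_eq hε1 hvv hv0
  -- the value is odd
  obtain ⟨c0, -, -, hc0⟩ := g2
  have hlast := SM.eval_gg b (B := B) (B' := B') (i := k) (j := k + 1) (a := a)
    (a' := sq1 (k + 1) a') (ι := fun τ => r2 (ι τ)) ha (sq1_coc _ (by omega) ha') hιr hb
    (x := x) (x' := sq1 k x') hx (sq1_coc _ (by omega) hx') hax
    (fun c hc => SM.sq1_su (by omega) hB ha' hx' hax' hc)
    (by
      have := lc_cast ι (SM.su (R := ℤ) (push b (Finsupp.single (idCube d) 1)))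
      rw [cast_su, cast_su, castCh_push, castCh_push, castCh_single, castCh_single, Int.cast_one,
        Int.cast_one, hι1, map_one] at this
      exact this.symm)
    (ξ := castCh (ZMod 2) ξ) (by
      have e : ((k + (k + 1) : ℕ) : ℤ) = (d : ℤ) := by
        subst hdk
        push_cast
        ring
      rw [e]
      exact hξ2)
  rw [h1, lc_push] at hlast
  rw [hc0, ← cast_fcr, lc_cast, cast_fcr] at hr
  have hfin : Finsupp.linearCombination (ZMod 2) (fun σ => r2 (D.cur (SM.gg b) c0 σ))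
      (fcr (3 + d) (castCh (ZMod 2) ξ)) =
      Finsupp.linearCombination (ZMod 2) (pb (SM.gg b) (trip (k + 1) (k + 1 + 1) (d + 1) a
        (sq1 (k + 1) a') (fun τ => r2 (ι τ)))) (fcr (3 + d) (castCh (ZMod 2) ξ)) := by
    refine lc_congr fun σ hσ => ?_
    have hσ1 : IsCube ((k + 1 + (k + 1 + 1 + (d + 1)) : ℕ) : ℤ) σ := by
      have h2 : fcr (3 + d) (castCh (ZMod 2) ξ) ∈ Finsupp.supported (ZMod 2) (ZMod 2)
          {σ | IsCube (((3 + d : ℕ) : ℤ) + (d : ℤ)) σ ∧ (CS.faces (3 + d) F).ok σ} :=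
        (fcr_mem (3 + d) hξ2).1
      rw [Finsupp.mem_supported] at h2
      have h3 := (h2 hσ).1
      have e : ((k + 1 + (k + 1 + 1 + (d + 1)) : ℕ) : ℤ) = ((3 + d : ℕ) : ℤ) + (d : ℤ) := by
        subst hdk
        push_cast
        ring
      rw [e]
      exact h3
    unfold QData.cur pb
    rw [map_sub, map_sub, r2_i2, r2_i2, sub_zero, sub_zero]
    rw [hD, r2_trip]
    refine trip_congr (isCube_map _ hσ1) (fun τ _ => r2_lft a τ) (fun τ hτ => ?_) fun _ _ => rfl
    exact r2_hlf (by omega) hτ (ha'.2 τ hτ trivial)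
  rw [hfin, hlast] at hr
  exact absurd hr (by decide)

end

end Pool.Agent.TC
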