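import Pool.Agent.Lib.TC.SF
import Pool.Agent.Lib.TC.QI
import Pool.Agent.Lib.MP_cb6a70_gt_HB.Local

/-!
# Section 10.3, 10.4: the exceptional case, definitions
-/

namespace Pool.Agent.TC

open CubeHom

/-- Coordinates of the big cube. -/
def hd3 {d : ℕ} (t : Fin (3 + d) → I) (i : Fin 3) : I := t (Fin.castAdd d i)
def tl3 {d : ℕ} (t : Fin (3 + d) → I) : Fin d → I := fun i => t (Fin.natAdd 3 i)

theorem continuous_hd3 {d : ℕ} (i : Fin 3) : Continuous fun t : Fin (3 + d) → I => hd3 t i :=
  continuous_apply _

theorem continuous_tl3 {d : ℕ} : Continuous (tl3 : (Fin (3 + d) → I) → Fin d → I) :=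
  continuous_pi fun _ => continuous_apply _

section

variable {F : Type} [TopologicalSpace F] (SM : SusM F) {d : ℕ} (b : C(Fin d → I, F))

/-- The first block: `t₂ ↦ t₂ / 2`, the first point of `F` is `b(v)`. -/
noncomputable def blk1 : C((Fin (3 + d) → I) × F, (Fin 3 → I) × (F × F)) where
  toFun p := (![hd3 p.1 0, hd3 p.1 1, clm ((hd3 p.1 2 : ℝ) / 2)], (b (tl3 p.1), p.2))
  continuous_toFun := by
    refine Continuous.prodMk (continuous_pi fun i => ?_) ?_
    · fin_cases i
      · exact (continuous_hd3 0).comp continuous_fst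
      · exact (continuous_hd3 1).comp continuous_fst
      · exact continuous_clm.comp ((continuous_subtype_val.comp
          ((continuous_hd3 2).comp continuous_fst)).div_const 2)
    · exact (b.continuous.comp (continuous_tl3.comp continuous_fst)).prodMk continuous_snd

/-- The second block: `t₂ ↦ 1 - t₂ / 2`, the second point of `F` is `b(v)`. -/
noncomputable def blk2 : C((Fin (3 + d) → I) × F, (Fin 3 → I) × (F × F)) where
  toFun p := (![hd3 p.1 0, hd3 p.1 1, clm (1 - (hd3 p.1 2 : ℝ) / 2)], (p.2, b (tl3 p.1)))
  continuous_toFun := by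
    refine Continuous.prodMk (continuous_pi fun i => ?_) ?_
    · fin_cases i
      · exact (continuous_hd3 0).comp continuous_fst
      · exact (continuous_hd3 1).comp continuous_fst
      · exact continuous_clm.comp (continuous_const.sub ((continuous_subtype_val.comp
          ((continuous_hd3 2).comp continuous_fst)).div_const 2))
    · exact continuous_snd.prodMk (b.continuous.comp (continuous_tl3.comp continuous_fst))

/-- The triple `(D, D, D)`. -/
noncomputable def SusM.D3 : C((Fin 3 → I) × (F × F), SM.T × (SM.T × SM.T)) :=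
  SM.asm (fun _ => SM.D)

/-- The normal form of the second block. -/
def SusM.gg : C((Fin (3 + d) → I) × F, SM.T × (SM.T × SM.T)) where
  toFun p := (SM.q (hd3 p.1 0, p.2), (SM.q (hd3 p.1 1, p.2), SM.q (hd3 p.1 2, b (tl3 p.1))))
  continuous_toFun := by
    refine Continuous.prodMk ?_ (Continuous.prodMk ?_ ?_)
    · exact SM.q.continuous.comp (((continuous_hd3 0).comp continuous_fst).prodMk continuous_snd)
    · exact SM.q.continuous.comp (((continuous_hd3 1).comp continuous_fst).prodMk continuous_snd)
    · exact SM.q.continuous.comp (((continuous_hd3 2).comp continuous_fst).prodMk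
        (b.continuous.comp (continuous_tl3.comp continuous_fst)))

/-- The set where the third coordinate of `(D, D, D)` is zero relative to `B'`. -/
def SusM.Ro (B' : Set F) : Set ((Fin 3 → I) × (F × F)) := {p | SM.D (p.1 2, p.2) ∈ SM.P B'}

/-- The domain relative to the faces and `Ro`. -/
def SusM.YR (B' : Set F) : CS ((Fin 3 → I) × (F × F)) := (CS.faces 3 (F × F)).kill {SM.Ro B'}

end

end Pool.Agent.TC
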