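import Pool.Agent.Lib.TC.HDefs

/-!
# The relative cocycle dual to the diagonal
-/

namespace Pool.Agent.TCH

open CubeHom

namespace H35

variable {K : Type*} [Field K] {Y : Type*} [TopologicalSpace Y]

theorem isCube_zero_const {v : C(Cb, Y)} (hv : IsCube 0 v) :
    v = ContinuousMap.const Cb (v 0) := by
  ext u
  exact hv.2 fun j hj => by
    simp only [Set.mem_ofPred_eq] at hj
    omega

theorem push_sw_cr (n : ℕ) {v : C(Cb, Y)} (hv : IsCube 0 v) (ξ : Ch K Y) :
    push (Cq.sw Y Y) (cr 0 (Finsupp.single v 1) ξ) = cr n ξ (Finsupp.single v 1) := by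
  induction ξ using Finsupp.induction_linear with
  | zero => simp
  | add a b ha hb => rw [map_add, map_add, ha, hb, map_add, LinearMap.add_apply]
  | single σ r =>
    rw [cr_single_single, push_single, cr_single_single, one_mul, mul_one]
    congr 1
    ext u : 1
    change (Prod.swap (v u, σ (drop 0 u))) = (σ u, v (drop n u))
    have h1 : drop 0 u = u := by
      funext j
      rw [drop_apply, Nat.zero_add]
    have h2 : v u = v (drop n u) := by
      rw [isCube_zero_const hv]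
      rfl
    rw [h1, h2]
    rfl

theorem not_bd_point {v : C(Cb, Y)} (h : Bd K 0 Set.univ (∅ : Set Y) (Finsupp.single v 1)) :
    False := by
  let f : C(Y, Unit) := ⟨fun _ => (), continuous_const⟩
  have h1 := Cq.bd_push' (f := f) (V := Set.univ) (A' := (∅ : Set Unit))
    (fun _ _ => Set.mem_univ _) (fun _ hx => hx.elim) h
  obtain ⟨b, -, hb⟩ := h1
  rw [CubeHom.Loc.unit_bd, sub_zero, CubeHom.Loc.unit_Q_zero, Submodule.mem_bot, push_single] at hb
  exact one_ne_zero (Finsupp.single_eq_zero.1 hb)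

theorem bd_point_sub [PathConnectedSpace Y] {v v' : C(Cb, Y)} (hv : IsCube 0 v)
    (hv' : IsCube 0 v') :
    Bd K 0 Set.univ (∅ : Set Y) (Finsupp.single v 1 - Finsupp.single v' 1) := by
  obtain ⟨γ⟩ := PathConnectedSpace.joined (v' 0) (v 0)
  let τ : C(Cb, Y) := ⟨fun u => γ (u 0), by fun_prop⟩
  have hτ : IsCube 1 τ := by
    refine ⟨by norm_num, fun u w h => ?_⟩
    change γ (u 0) = γ (w 0)
    rw [h 0 (by simp)]
  refine ⟨Finsupp.single τ 1, mem_C_single (by simpa using hτ) (fun _ => Set.mem_univ _) _, ?_⟩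
  have e : bd (0 + 1) (Finsupp.single τ (1 : K)) = Finsupp.single v 1 - Finsupp.single v' 1 := by
    rw [bd_apply]
    simp only [zero_add, Int.toNat_one, Finset.range_one, Finset.sum_singleton, pow_zero,
      one_smul, face_single]
    congr 2
    · rw [isCube_zero_const hv]
      ext u
      change γ (ins 0 1 u 0) = v 0
      rw [ins_apply_self]
      exact γ.target
    · rw [isCube_zero_const hv']
      ext u
      change γ (ins 0 0 u 0) = v' 0
      rw [ins_apply_self]
      exact γ.source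
  rw [e, sub_self]
  exact Submodule.zero_mem _

end H35

/-- The relative cocycle of `(Y × Y, off the diagonal)` of degree `n` which takes the value one on
all `v × ξ`, `v` a point. -/
theorem exists_mu {k : Type*} [Field k] {n : ℕ} {Y : Type*} [TopologicalSpace Y] [T2Space Y]
    [CompactSpace Y] [PathConnectedSpace Y] (hY : LocEuc n Y) {ξ : Ch k Y}
    (hξ : ξ ∈ Z k n Set.univ ∅) (hg : LocGen n ξ) :
    ∃ μ : Ch k (Y × Y) →ₗ[k] k,
      (∀ q ∈ Q k n {x : Y × Y | x.1 ≠ x.2}, μ q = 0) ∧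
      (∀ b ∈ C k (n + 1) (Set.univ : Set (Y × Y)), μ (bd (n + 1) b) = 0) ∧
      (∀ v : C(Cb, Y), IsCube 0 v → μ (cr 0 (Finsupp.single v 1) ξ) = 1) := by
  classical
  obtain ⟨y₀⟩ := PathConnectedSpace.nonempty (X := Y)
  let v₀ : C(Cb, Y) := ContinuousMap.const Cb y₀
  have hv₀ : IsCube 0 v₀ := isCube_const 0 y₀
  let W : Submodule k (Ch k (Y × Y)) :=
    Q k n {x : Y × Y | x.1 ≠ x.2} ⊔ (C k (n + 1) (Set.univ : Set (Y × Y))).map (bd (n + 1))
  have hW : ∀ c, Bd k n Set.univ {x : Y × Y | x.1 ≠ x.2} c → c ∈ W := by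
    rintro c ⟨b, hb, hq⟩
    have := Submodule.add_mem_sup hq (Submodule.mem_map_of_mem (f := bd (n + 1)) hb)
    rwa [sub_add_cancel] at this
  have hW' : ∀ c, c ∈ W → Bd k n Set.univ {x : Y × Y | x.1 ≠ x.2} c := by
    intro c hc
    obtain ⟨q, hq, _, ⟨b, hb, rfl⟩, rfl⟩ := Submodule.mem_sup.1 hc
    exact ⟨b, hb, by rwa [add_sub_cancel_right]⟩
  have hnot : cr 0 (Finsupp.single v₀ 1) ξ ∉ W := by
    intro h
    have h1 := hW' _ h
    have hm : Set.MapsTo (Cq.sw Y Y) {x : Y × Y | x.1 ≠ x.2}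
        {p : Y × Y | p.1 ≠ ContinuousMap.id Y p.2} := by
      rintro ⟨a, b⟩ hx
      exact fun h => hx h.symm
    have h2 := Cq.bd_push' (f := Cq.sw Y Y) (V := Set.univ)
      (fun _ _ => Set.mem_univ _) hm h1
    rw [H35.push_sw_cr n hv₀] at h2
    have h3 := (Cq.cross_bij hξ _ _ (thmL hY hξ hg (ContinuousMap.id Y))).1 0
      (Finsupp.single v₀ 1) (Cq.mem_Z_iff.2 ⟨mem_C_single hv₀ (fun _ => Set.mem_univ _) _, by
        rw [bd_of_nonpos le_rfl]
        exact Submodule.zero_mem _⟩) (by rwa [add_zero])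
    exact H35.not_bd_point h3
  obtain ⟨f, hf, hfW⟩ := Submodule.exists_le_ker_of_notMem hnot
  refine ⟨(f (cr 0 (Finsupp.single v₀ 1) ξ))⁻¹ • f, fun q hq => ?_, fun b hb => ?_,
    fun v hv => ?_⟩
  · have h1 : f q = 0 := hfW (Submodule.mem_sup_left hq)
    rw [LinearMap.smul_apply, h1, smul_zero]
  · have h1 : f (bd (n + 1) b) = 0 :=
      hfW (Submodule.mem_sup_right (Submodule.mem_map_of_mem (f := bd (n + 1)) hb))
    rw [LinearMap.smul_apply, h1, smul_zero]
  · have h1 := H35.bd_point_sub (K := k) hv hv₀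
    have h2 := Cq.cr_bd_left (n := 0) (k := (n : ℤ)) (A' := {x : Y × Y | x.1 ≠ x.2}) h1 hξ
      (by rw [Set.empty_prod]; exact Set.empty_subset _)
      (by rw [Set.prod_empty]; exact Set.empty_subset _)
    rw [Nat.cast_zero, zero_add] at h2
    have h3 : f (cr 0 (Finsupp.single v 1 - Finsupp.single v₀ 1) ξ) = 0 := hfW (hW _ h2)
    rw [map_sub, LinearMap.sub_apply, map_sub, sub_eq_zero] at h3
    rw [LinearMap.smul_apply, h3, smul_eq_mul]
    exact inv_mul_cancel₀ hf

end Pool.Agent.TCH
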