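import Pool.Agent.Lib.TC.Defs
import Pool.Agent.Lib.MP_cb6a70_gt_HB.Fills

/-!
# Section 3: manifolds with an action of a finite group, linear charts at the fixed points
-/

namespace Pool.Agent.TC

open Metric Set
open scoped Manifold ContDiff unitInterval

/-- An equivariant open embedding of an orthogonal representation, `0` going to `x`. -/
structure LinChart (G X : Type) [Group G] [TopologicalSpace X] [MulAction G X] (n : ℕ)
    (x : X) where
  ρ : G →* (EuclideanSpace ℝ (Fin n) ≃ₗᵢ[ℝ] EuclideanSpace ℝ (Fin n))
  φ : C(EuclideanSpace ℝ (Fin n), X)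
  emb : Topology.IsOpenEmbedding φ
  zero : φ 0 = x
  equi : ∀ (g : G) (v : EuclideanSpace ℝ (Fin n)), φ (ρ g v) = g • φ v

/-- Compact manifold with a continuous action of `G`, linear near the fixed points. -/
structure GMan (G X : Type) [Group G] [TopologicalSpace X] [MulAction G X] (n : ℕ) : Prop where
  t2 : T2Space X
  compact : CompactSpace X
  cont : ∀ g : G, Continuous (fun x : X => g • x)
  loc : CubeHom.LocEuc n X
  chart : ∀ x : X, (∀ g : G, g • x = x) → Nonempty (LinChart G X n x)

/-- A neighbourhood of the fixed point set which is equivariantly deformed inside `X` to the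
fixed point set. -/
structure Halo (G X : Type) [Group G] [TopologicalSpace X] [MulAction G X] where
  N : Set X
  openN : IsOpen N
  inv : ∀ (g : G), ∀ x ∈ N, g • x ∈ N
  sub : ∀ x : X, (∀ g : G, g • x = x) → x ∈ N
  r : C(I × N, X)
  one : ∀ x : N, r (1, x) = x
  zero : ∀ (x : N) (g : G), g • r (0, x) = r (0, x)
  fix : ∀ (t : I) (x : N), (∀ g : G, g • (x : X) = x) → r (t, x) = x
  equi : ∀ (g : G) (t : I) (x : N), r (t, ⟨g • (x : X), inv g x x.2⟩) = g • r (t, x)

end Pool.Agent.TC
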