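import Pool.Agent.Lib.TC.HSmMain
import Pool.Agent.Lib.TC.HFund
import Pool.Agent.Lib.TC.HMu
import Pool.Agent.Lib.TC.Man
import Pool.Agent.Lib.TC.Coch

/-!
# Translation between the actions of `Cp p` and their generator, and between the two forms of
chains
-/

namespace Pool.Agent.TCH

open CubeHom

section Action

variable {p : ℕ} [hp : Fact p.Prime] {X : Type} [TopologicalSpace X]
  [MulAction (Multiplicative (ZMod p)) X]

/-- The generator of `Cp p` as a map. -/
noncomputable def gen (hc : ∀ a : Multiplicative (ZMod p), Continuous (fun x : X => a • x)) :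
    C(X, X) :=
  ⟨fun x => (Multiplicative.ofAdd (1 : ZMod p)) • x, hc _⟩

theorem gen_iter (hc : ∀ a : Multiplicative (ZMod p), Continuous (fun x : X => a • x)) (j : ℕ)
    (x : X) : ((gen hc)^[j]) x = (Multiplicative.ofAdd (j : ZMod p)) • x := by
  induction j with
  | zero =>
    rw [Function.iterate_zero, Nat.cast_zero, ofAdd_zero, one_smul]
    rfl
  | succ j ih =>
    rw [Function.iterate_succ_apply', ih, Nat.cast_succ, add_comm, ofAdd_add, mul_smul]
    rfl

theorem gen_per (hc : ∀ a : Multiplicative (ZMod p), Continuous (fun x : X => a • x)) (x : X) :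
    ((gen hc)^[p]) x = x := by
  rw [gen_iter, ZMod.natCast_self, ofAdd_zero, one_smul]

theorem exists_nat (a : Multiplicative (ZMod p)) :
    ∃ j : ℕ, a = Multiplicative.ofAdd (j : ZMod p) := by
  refine ⟨(Multiplicative.toAdd a).val, ?_⟩
  rw [ZMod.natCast_zmod_val, ofAdd_toAdd]

theorem mem_fixS_gen (hc : ∀ a : Multiplicative (ZMod p), Continuous (fun x : X => a • x))
    (x : X) : x ∈ fixS (gen hc) ↔ ∀ a : Multiplicative (ZMod p), a • x = x := by
  constructor
  · intro h a
    obtain ⟨j, rfl⟩ := exists_nat a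
    rw [← gen_iter hc]
    exact Function.iterate_fixed h j
  · intro h
    exact h _

theorem equi_gen {Y : Type} [TopologicalSpace Y] [MulAction (Multiplicative (ZMod p)) Y]
    (hc : ∀ a : Multiplicative (ZMod p), Continuous (fun x : X => a • x))
    (hc' : ∀ a : Multiplicative (ZMod p), Continuous (fun x : Y => a • x)) {Φ : C(X, Y)}
    (h : TC.Equi (TC.Cp p) Φ) (x : X) : Φ (gen hc x) = gen hc' (Φ x) :=
  h _ x

theorem hasHalo_gen (hc : ∀ a : Multiplicative (ZMod p), Continuous (fun x : X => a • x))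
    (H : TC.Halo (TC.Cp p) X) : HasHalo (gen hc) := by
  have hN : ∀ x, gen hc x ∈ H.N ↔ x ∈ H.N := by
    intro x
    constructor
    · intro h
      have h1 := H.inv (Multiplicative.ofAdd (1 : ZMod p))⁻¹ _ h
      change (Multiplicative.ofAdd (1 : ZMod p))⁻¹ • (Multiplicative.ofAdd (1 : ZMod p) • x) ∈
        H.N at h1
      rwa [inv_smul_smul] at h1
    · intro h
      exact H.inv _ x h
  refine ⟨H.N, hN, H.openN, fun x hx => H.sub x ((mem_fixS_gen hc x).1 hx), H.r, H.one,
    fun x => (mem_fixS_gen hc _).2 fun a => H.zero x a, fun t x => H.equi _ t x,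
    fun t x hx => H.fix t x ((mem_fixS_gen hc _).1 hx)⟩

theorem linChart_gen (hc : ∀ a : Multiplicative (ZMod p), Continuous (fun x : X => a • x))
    {n : ℕ} {x : X} (H : TC.LinChart (TC.Cp p) X n x) : LinChart n (gen hc) x :=
  ⟨H.ρ (Multiplicative.ofAdd (1 : ZMod p)), H.φ, H.emb, H.zero, fun v => H.equi _ v⟩

end Action

section Cochains

variable {R : Type*} [CommRing R] {X : Type*} [TopologicalSpace X]

theorem top_C (k : ℤ) : (TC.CS.top X).C R k = C R k (Set.univ : Set X) := by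
  unfold TC.CS.C C
  congr 1
  ext σ
  exact ⟨fun h => ⟨h.1, fun _ => Set.mem_univ _⟩, fun h => ⟨h.1, trivial⟩⟩

theorem top_Q (k : ℤ) : (TC.CS.top X).Q R k = Q R k (∅ : Set X) := by
  unfold TC.CS.Q Q
  congr 1
  ext σ
  exact ⟨fun h => ⟨h.1, Or.inr (h.2.2.resolve_left id)⟩,
    fun h => ⟨h.1, trivial, Or.inr (h.2.resolve_left fun h' => h' 0)⟩⟩

theorem top_Z (k : ℤ) : (TC.CS.top X).Z R k = Z R k (Set.univ : Set X) ∅ := by
  unfold TC.CS.Z Z
  rw [top_C, top_Q]

theorem top_Bd (k : ℤ) (c : Ch R X) : (TC.CS.top X).Bd R k c ↔ Bd R k (Set.univ : Set X) ∅ c := by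
  unfold TC.CS.Bd Bd
  rw [top_C, top_Q]

/-- The relative cocycle dual to the diagonal, as a cochain. -/
theorem exists_mu_coc {K : Type*} [Field K] {n : ℕ} {Y : Type*} [TopologicalSpace Y] [T2Space Y]
    [CompactSpace Y] [PathConnectedSpace Y] (hY : LocEuc n Y) {ξ : Ch K Y}
    (hξ : ξ ∈ Z K n Set.univ ∅) (hg : LocGen n ξ) :
    ∃ μ : C(Cb, Y × Y) → K,
      (TC.CS.mk' {Set.univ} {{x : Y × Y | x.1 ≠ x.2}}).Coc n μ ∧
      ∀ v : C(Cb, Y), IsCube 0 v →
        Finsupp.linearCombination K μ (cr 0 (Finsupp.single v 1) ξ) = 1 := by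
  obtain ⟨μ, h1, h2, h3⟩ := exists_mu hY hξ hg
  have e : Finsupp.linearCombination K (fun σ : C(Cb, Y × Y) => μ (Finsupp.single σ 1)) = μ := by
    ext σ
    simp
  refine ⟨fun σ => μ (Finsupp.single σ 1), ⟨fun σ hσ _ hn => h1 _ (mem_Q_single hσ ?_ 1),
    fun σ hσ _ => ?_⟩, fun v hv => ?_⟩
  · rcases hn with ⟨V, hV, h⟩ | h
    · obtain rfl : V = {x : Y × Y | x.1 ≠ x.2} := hV
      exact Or.inl h
    · exact Or.inr h
  · have h4 := h2 (Finsupp.single σ 1) (mem_C_single (by exact_mod_cast hσ)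
      (fun _ => Set.mem_univ _) 1)
    rw [bd_apply, map_sum] at h4
    have e1 : ((n : ℤ) + 1).toNat = n + 1 := by omega
    rw [e1] at h4
    unfold TC.dl
    rw [← h4]
    refine Finset.sum_congr rfl fun i _ => ?_
    rw [map_smul, face_single, face_single, map_sub, smul_eq_mul, zsmul_eq_mul]
    push_cast
    rfl
  · rw [e]
    exact h3 v hv

end Cochains

end Pool.Agent.TCH
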