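import Pool.Agent.Lib.MP_cb6a70_gt_HB.Conseq
import Pool.Agent.Lib.MP_cb6a70_gt_HB.SphereSC
import Pool.Agent.Lib.MP_cb6a70_gt_HB.Hurewicz
import Pool.Agent.Lib.MP_cb6a70_gt_HB.Calc

/-!
# Homology library: definitions

Operators commuting with the cubical structure, the complexes `t C`, the Smith operator
`tau = 1 - g`, finite generation, change of coefficients.
-/

namespace Pool.Agent.TCH

open CubeHom

/-- The standard sphere. -/
abbrev Sph (n : ℕ) : Type := Metric.sphere (0 : EuclideanSpace ℝ (Fin (n + 1))) 1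

section Ops

variable {R : Type*} [CommRing R] {X Y : Type*} [TopologicalSpace X] [TopologicalSpace Y]

/-- `A` is invariant under `g`. -/
def Inv (g : C(X, X)) (A : Set X) : Prop := ∀ x, g x ∈ A ↔ x ∈ A

/-- The fixed point set. -/
def fixS (g : C(X, X)) : Set X := {x | g x = x}

/-- The operator `t` on chains commutes with precomposition and with the restriction to every
`g`-invariant family of cubes. -/
structure TOp (g : C(X, X)) (t : Module.End R (Ch R X)) : Prop where
  pre : ∀ (a : C(Cb, Cb)) (c : Ch R X), t (Sub.pre R X a c) = Sub.pre R X a (t c)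
  filt : ∀ (P : C(Cb, X) → Prop) [DecidablePred P], (∀ σ, P (g.comp σ) ↔ P σ) →
    ∀ c : Ch R X, t (c.filter P) = (t c).filter P

/-- `t c` is a cycle of `(U, A)`. -/
def ZT (t : Module.End R (Ch R X)) (k : ℤ) (U A : Set X) (c : Ch R X) : Prop :=
  c ∈ C R k U ∧ bd k (t c) ∈ Q R (k - 1) A

/-- `t c` bounds in the complex `t C (U, A)`. -/
def BT (t : Module.End R (Ch R X)) (k : ℤ) (U A : Set X) (c : Ch R X) : Prop :=
  ∃ b ∈ C R (k + 1) U, t c - bd (k + 1) (t b) ∈ Q R k A

/-- The homology of `t C (X, X - K)` vanishes in the degrees above `n`. -/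
def VanT (t : Module.End R (Ch R X)) (n : ℕ) (K : Set X) : Prop :=
  ∀ k : ℤ, (n : ℤ) < k → ∀ c, ZT t k Set.univ Kᶜ c → BT t k Set.univ Kᶜ c

/-- The union of the translates of a set. -/
def orb (g : C(X, X)) (p : ℕ) (κ : Set X) : Set X := ⋃ j ∈ Finset.range p, (g^[j]) '' κ

/-- The translates of `W` under `g, ..., g^(p-1)` are disjoint from `W`. -/
def Moved (g : C(X, X)) (p : ℕ) (W : Set X) : Prop :=
  ∀ j, 0 < j → j < p → Disjoint W ((g^[j]) '' W)

/-- Finite generation of the homology of `(U, A)` in degree `k`. -/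
def FGH (R : Type*) [CommRing R] {X : Type*} [TopologicalSpace X] (k : ℤ) (U A : Set X) : Prop :=
  ∃ (m : ℕ) (s : Fin m → Ch R X), (∀ i, s i ∈ Z R k U A) ∧
    ∀ z ∈ Z R k U A, ∃ a : Fin m → R, Bd R k U A (z - ∑ i, a i • s i)

end Ops

section Smith

variable {X Y : Type*} [TopologicalSpace X] [TopologicalSpace Y]

/-- The Smith operator `tau = 1 - g` with coefficients modulo `p`. -/
noncomputable def tau (p : ℕ) (g : C(X, X)) : Module.End (ZMod p) (Ch (ZMod p) X) :=
  1 - push g

/-- An equivariant deformation of an invariant neighbourhood of the fixed point set into the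
fixed point set. -/
def HasHalo (g : C(X, X)) : Prop :=
  ∃ (N : Set X) (hN : ∀ x, g x ∈ N ↔ x ∈ N), IsOpen N ∧ fixS g ⊆ N ∧
    ∃ ρ : C(I × N, X), (∀ x : N, ρ (1, x) = x) ∧ (∀ x : N, ρ (0, x) ∈ fixS g) ∧
      (∀ (t : I) (x : N), ρ (t, ⟨g x, (hN x).2 x.2⟩) = g (ρ (t, x))) ∧
      (∀ (t : I) (x : N), (x : X) ∈ fixS g → ρ (t, x) = x)

/-- A linear chart of dimension `n` at the fixed point `x`. -/
def LinChart (n : ℕ) (g : C(X, X)) (x : X) : Prop :=
  ∃ (A : EuclideanSpace ℝ (Fin n) ≃ₗᵢ[ℝ] EuclideanSpace ℝ (Fin n))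
    (e : C(EuclideanSpace ℝ (Fin n), X)), Topology.IsOpenEmbedding e ∧ e 0 = x ∧
      ∀ v, e (A v) = g (e v)

/-- The data of the Smith ladder for the pair `(X, A)`: coefficients modulo `p`, `A` invariant,
the homology of `(X, A)` vanishes in the degrees `1, ..., n - 1`, is generated by `z` in degree
`n`, the homology of the complexes `tau^i C(X, A)` vanishes above `n`, the fixed point set has no
homology in degree `n`, and `z` is homologous to an element of `tau^(p-1) C`. -/
structure SmithDat (p n : ℕ) (g : C(X, X)) (A : Set X) (z : Ch (ZMod p) X) : Prop where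
  per : ∀ x, (g^[p]) x = x
  inv : Inv g A
  low : ∀ k : ℤ, 1 ≤ k → k < n → ∀ c ∈ Z (ZMod p) k Set.univ A, Bd (ZMod p) k Set.univ A c
  van : ∀ i : ℕ, 1 ≤ i → i < p → ∀ k : ℤ, (n : ℤ) < k → ∀ c, ZT (tau p g ^ i) k Set.univ A c →
    BT (tau p g ^ i) k Set.univ A c
  fix : ∀ f ∈ Z (ZMod p) n (fixS g) A, Bd (ZMod p) n (fixS g) A f
  mem : z ∈ Z (ZMod p) n Set.univ A
  gen : ∀ w ∈ Z (ZMod p) n Set.univ A, ∃ r : ZMod p, Bd (ZMod p) n Set.univ A (w - r • z)
  ne : ¬ Bd (ZMod p) n Set.univ A z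
  top : ∃ c ∈ C (ZMod p) n (Set.univ : Set X),
    Bd (ZMod p) n Set.univ A (z - (tau p g ^ (p - 1)) c)

end Smith

section Coeff

variable {R S : Type*} [CommRing R] [CommRing S] {X : Type*} [TopologicalSpace X]

/-- Change of coefficients. -/
noncomputable def chMap (f : R →+* S) : Ch R X →+ Ch S X :=
  Finsupp.mapRange.addMonoidHom f.toAddMonoidHom

end Coeff

end Pool.Agent.TCH
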