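import Pool.Agent.Lib.TC.HSmVan

/-!
# Smith theory: the ladder, definitions
-/

namespace Pool.Agent.TCH

open CubeHom

variable {X Y : Type*} [TopologicalSpace X] [TopologicalSpace Y]

/-- The ladder, one level: `H_j(tau^i C)` injects, for all `i`. -/
def LadInj (p : ℕ) (g : C(X, X)) (A : Set X) (h : C(Y, Y)) (B : Set Y) (Φ : C(X, Y)) (j : ℤ) :
    Prop :=
  ∀ i : ℕ, 1 ≤ i → i < p → ∀ c, ZT (tau p g ^ i) j Set.univ A c →
    BT (tau p h ^ i) j Set.univ B (push Φ c) → BT (tau p g ^ i) j Set.univ A c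

/-- `H_j(tau^i C)` surjects, for all `i`. -/
def LadSurj (p : ℕ) (g : C(X, X)) (A : Set X) (h : C(Y, Y)) (B : Set Y) (Φ : C(X, Y)) (j : ℤ) :
    Prop :=
  ∀ i : ℕ, 1 ≤ i → i < p → ∀ w, ZT (tau p h ^ i) j Set.univ B w →
    ∃ c, ZT (tau p g ^ i) j Set.univ A c ∧ BT (tau p h ^ i) j Set.univ B (w - push Φ c)

/-- The homology of the fixed point sets modulo `p` injects. -/
def FixInj (p : ℕ) (g : C(X, X)) (A : Set X) (h : C(Y, Y)) (B : Set Y) (Φ : C(X, Y)) (j : ℤ) :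
    Prop :=
  ∀ f ∈ Z (ZMod p) j (fixS g) A, Bd (ZMod p) j (fixS h) B (push Φ f) →
    Bd (ZMod p) j (fixS g) A f

/-- The homology of the fixed point sets modulo `p` surjects. -/
def FixSurj (p : ℕ) (g : C(X, X)) (A : Set X) (h : C(Y, Y)) (B : Set Y) (Φ : C(X, Y)) (j : ℤ) :
    Prop :=
  ∀ w ∈ Z (ZMod p) j (fixS h) B, ∃ f ∈ Z (ZMod p) j (fixS g) A,
    Bd (ZMod p) j (fixS h) B (w - push Φ f)

end Pool.Agent.TCH
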