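import Pool.Agent.Lib.TC.HDefs

/-!
# Homology library, HR03
-/

namespace Pool.Agent.TCH

open CubeHom

namespace H03

section

variable {R : Type*} [CommRing R] {X : Type*} [TopologicalSpace X] {g : C(X, X)}
  {t t' : Module.End R (Ch R X)}

theorem top_one : TOp g (1 : Module.End R (Ch R X)) := ⟨fun _ _ => rfl, fun _ _ _ _ => rfl⟩

theorem top_mul (h : TOp g t) (h' : TOp g t') : TOp g (t * t') := by
  refine ⟨fun a c => ?_, fun P _ hP c => ?_⟩
  · rw [Module.End.mul_apply, Module.End.mul_apply, h'.pre, h.pre]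
  · rw [Module.End.mul_apply, Module.End.mul_apply, h'.filt P hP, h.filt P hP]

theorem top_sub (h : TOp g t) (h' : TOp g t') : TOp g (t - t') := by
  refine ⟨fun a c => ?_, fun P _ hP c => ?_⟩
  · rw [LinearMap.sub_apply, LinearMap.sub_apply, h'.pre, h.pre, map_sub]
  · rw [LinearMap.sub_apply, LinearMap.sub_apply, h'.filt P hP, h.filt P hP]
    ext σ
    by_cases hσ : P σ
    · simp [hσ]
    · simp [hσ]

theorem top_push (g : C(X, X)) : TOp g (push (R := R) g) := by
  refine ⟨fun a c => ?_, fun P _ hP c => ?_⟩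
  · have h : push (R := R) g ∘ₗ Sub.pre R X a = Sub.pre R X a ∘ₗ push g := by
      refine Finsupp.lhom_ext fun σ r => ?_
      rw [LinearMap.comp_apply, LinearMap.comp_apply, Sub.pre_single, push_single, push_single,
        Sub.pre_single]
      rfl
    exact LinearMap.congr_fun h c
  · induction c using Finsupp.induction_linear with
    | zero => rw [map_zero, Finsupp.filter_zero, map_zero]
    | add c c' hc hc' => rw [Finsupp.filter_add, map_add, map_add, hc, hc', Finsupp.filter_add]
    | single σ r =>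
      rw [push_single]
      by_cases hσ : P σ
      · rw [Finsupp.filter_single_of_pos _ hσ, Finsupp.filter_single_of_pos _ ((hP σ).2 hσ),
          push_single]
      · rw [Finsupp.filter_single_of_neg _ hσ, Finsupp.filter_single_of_neg _
          (fun h => hσ ((hP σ).1 h)), map_zero]

theorem top_pow (h : TOp g t) (i : ℕ) : TOp g (t ^ i) := by
  induction i with
  | zero => rw [pow_zero]; exact top_one
  | succ i ih => rw [pow_succ]; exact top_mul ih h

theorem push_pow (g : C(X, X)) (n : ℕ) : ∃ gn : C(X, X), (∀ x, gn x = (g^[n]) x) ∧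
    (push (R := R) g) ^ n = push gn := by
  induction n with
  | zero =>
    refine ⟨ContinuousMap.id X, fun _ => rfl, ?_⟩
    rw [pow_zero]
    refine LinearMap.ext fun c => ?_
    rw [push_id]
    rfl
  | succ n ih =>
    obtain ⟨gn, h1, h2⟩ := ih
    refine ⟨gn.comp g, fun x => ?_, ?_⟩
    · rw [ContinuousMap.comp_apply, h1, Function.iterate_succ_apply]
    · rw [pow_succ, h2]
      refine LinearMap.ext fun c => ?_
      rw [Module.End.mul_apply, push_push]

theorem filter_mem_Q {P : C(Cb, X) → Prop} [DecidablePred P] {k : ℤ} {A : Set X} {c : Ch R X}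
    (hc : c ∈ Q R k A) : c.filter P ∈ Q R k A := by
  have h : c ∈ Finsupp.supported R R {σ | IsCube k σ ∧ ((∀ u, σ u ∈ A) ∨ Degen k σ)} := hc
  rw [Finsupp.mem_supported] at h
  change c.filter P ∈ Finsupp.supported R R {σ | IsCube k σ ∧ ((∀ u, σ u ∈ A) ∨ Degen k σ)}
  rw [Finsupp.mem_supported]
  refine subset_trans ?_ h
  rw [Finsupp.support_filter]
  exact_mod_cast Finset.filter_subset _ _

end

variable {p : ℕ} {X : Type*} [TopologicalSpace X] {g : C(X, X)}

/-- Chains of fixed cubes are killed by `tau`. -/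
theorem tau_of_fixed {c : Ch (ZMod p) X} (h : ∀ σ ∈ c.support, g.comp σ = σ) :
    tau p g c = 0 := by
  have h1 : push g c = c := by
    have h2 : (c.sum fun σ r => (Finsupp.single σ r : Ch (ZMod p) X)) = c := Finsupp.sum_single c
    conv_lhs => rw [← h2]
    conv_rhs => rw [← h2]
    rw [Finsupp.sum, map_sum]
    refine Finset.sum_congr rfl fun σ hσ => ?_
    rw [push_single, h σ hσ]
  change c - push g c = 0
  rw [h1, sub_self]

theorem tau_pow_of_fixed {c : Ch (ZMod p) X} (h : ∀ σ ∈ c.support, g.comp σ = σ) {i : ℕ}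
    (hi : 1 ≤ i) : (tau p g ^ i) c = 0 := by
  obtain ⟨j, rfl⟩ := Nat.exists_eq_add_of_le' hi
  rw [pow_succ, Module.End.mul_apply, tau_of_fixed h, map_zero]

theorem fixed_of_mem {k : ℤ} {f : Ch (ZMod p) X} (hf : f ∈ C (ZMod p) k (fixS g)) :
    ∀ σ ∈ f.support, g.comp σ = σ := by
  intro σ hσ
  have h : f ∈ Finsupp.supported (ZMod p) (ZMod p) {σ | IsCube k σ ∧ ∀ u, σ u ∈ fixS g} := hf
  rw [Finsupp.mem_supported] at h
  have h1 : σ ∈ {σ | IsCube k σ ∧ ∀ u, σ u ∈ fixS g} := h hσ
  ext u
  exact h1.2 u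

end H03

section Tau

variable {p : ℕ} [hp : Fact p.Prime] {X Y : Type*} [TopologicalSpace X] [TopologicalSpace Y]
  {g : C(X, X)}

theorem tau_top (hg : Function.Injective g) (i : ℕ) : TOp g (tau p g ^ i) := by
  have _ := hg
  exact H03.top_pow (H03.top_sub H03.top_one (H03.top_push g)) i

theorem tau_push {h : C(Y, Y)} (Φ : C(X, Y)) (hΦ : ∀ x, Φ (g x) = h (Φ x)) (i : ℕ)
    (c : Ch (ZMod p) X) : push Φ ((tau p g ^ i) c) = (tau p h ^ i) (push Φ c) := by
  have h1 : ∀ c : Ch (ZMod p) X, push Φ (tau p g c) = tau p h (push Φ c) := by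
    intro c
    change push Φ (c - push g c) = push Φ c - push h (push Φ c)
    rw [map_sub, push_push, push_push]
    have h2 : Φ.comp g = h.comp Φ := by
      ext x
      exact hΦ x
    rw [h2]
  induction i generalizing c with
  | zero => rfl
  | succ i ih => rw [pow_succ, pow_succ, Module.End.mul_apply, Module.End.mul_apply, ih, h1]

theorem tau_fix {i : ℕ} (hi : 1 ≤ i) {k : ℤ} {f : Ch (ZMod p) X}
    (hf : f ∈ C (ZMod p) k (fixS g)) : (tau p g ^ i) f = 0 :=
  H03.tau_pow_of_fixed (H03.fixed_of_mem hf) hi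

theorem tau_pow_p (hg : ∀ x, (g^[p]) x = x) (c : Ch (ZMod p) X) : (tau p g ^ p) c = 0 := by
  have h1 : ((1 : Polynomial (ZMod p)) - Polynomial.X) ^ p = 1 - Polynomial.X ^ p := by
    rw [sub_pow_char, one_pow]
  have h2 := congrArg (Polynomial.aeval (push (R := ZMod p) g)) h1
  rw [map_pow, map_sub, map_sub, map_one, map_pow, Polynomial.aeval_X] at h2
  obtain ⟨gp, h3, h4⟩ := H03.push_pow (R := ZMod p) g p
  have h5 : gp = ContinuousMap.id X := by
    ext x
    rw [h3, hg]
    rfl
  rw [h4, h5] at h2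
  have h6 : (tau p g ^ p) c = (1 - push (ContinuousMap.id X) : Module.End (ZMod p) _) c := by
    rw [← h2]
    rfl
  rw [h6]
  change c - push (ContinuousMap.id X) c = 0
  rw [push_id, sub_self]

/-- The sum `tau^i C + C(F)` is direct. -/
theorem tau_direct (hg : ∀ x, (g^[p]) x = x) {i : ℕ} (hi : 1 ≤ i) {A : Set X}
    (hA : Inv g A) {k : ℤ} {c f : Ch (ZMod p) X} (hc : c ∈ C (ZMod p) k Set.univ)
    (hf : f ∈ C (ZMod p) k (fixS g)) (h : (tau p g ^ i) c + f ∈ Q (ZMod p) k A) :
    (tau p g ^ i) c ∈ Q (ZMod p) k A ∧ f ∈ Q (ZMod p) k A := by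
  classical
  have _ := hA
  have _ := hc
  have hinj : Function.Injective g := by
    intro x y hxy
    have hp0 : p = (p - 1) + 1 := (Nat.sub_add_cancel hp.out.one_le).symm
    have h1 : (g^[(p - 1) + 1]) x = (g^[(p - 1) + 1]) y := by
      rw [Function.iterate_succ_apply, Function.iterate_succ_apply, hxy]
    rwa [← hp0, hg, hg] at h1
  have hP : ∀ σ : C(Cb, X), (g.comp (g.comp σ) = g.comp σ) ↔ (g.comp σ = σ) := by
    intro σ
    constructor
    · intro h1
      ext u
      exact hinj (DFunLike.congr_fun h1 u)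
    · intro h1
      rw [h1, h1]
  have h1 : ((tau p g ^ i) c).filter (fun σ => g.comp σ = σ) = 0 := by
    rw [← (tau_top (p := p) hinj i).filt (fun σ => g.comp σ = σ) hP]
    refine H03.tau_pow_of_fixed (fun σ hσ => ?_) hi
    rw [Finsupp.support_filter, Finset.mem_filter] at hσ
    exact hσ.2
  have h2 : f.filter (fun σ => g.comp σ = σ) = f := by
    rw [Finsupp.filter_eq_self_iff]
    intro σ hσ
    exact H03.fixed_of_mem hf σ (Finsupp.mem_support_iff.2 hσ)
  have h3 : f ∈ Q (ZMod p) k A := by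
    have h4 := H03.filter_mem_Q (P := fun σ => g.comp σ = σ) h
    rwa [Finsupp.filter_add, h1, h2, zero_add] at h4
  refine ⟨?_, h3⟩
  have h4 := Submodule.sub_mem _ h h3
  rwa [add_sub_cancel_right] at h4

end Tau

end Pool.Agent.TCH
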