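import Pool.Agent.Lib.TC.HDefs

/-!
# Homology library, HR04
-/

namespace Pool.Agent.TCH

open CubeHom

namespace H04

variable {p : ℕ} [hp : Fact p.Prime] {X : Type*} [TopologicalSpace X] {g : C(X, X)}

theorem inj_of_per (hg : ∀ x, (g^[p]) x = x) : Function.Injective g := by
  have h1 : p = (p - 1) + 1 := (Nat.succ_pred_eq_of_pos hp.out.pos).symm
  intro x y h
  have hx := hg x
  have hy := hg y
  rw [h1, Function.iterate_succ_apply] at hx hy
  rw [← hx, ← hy, h]

/-- The action on cubes. -/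
def G (g : C(X, X)) : C(Cb, X) → C(Cb, X) := fun σ => g.comp σ

theorem G_iter (j : ℕ) (σ : C(Cb, X)) (u : Cb) : ((G g)^[j] σ) u = (g^[j]) (σ u) := by
  induction j generalizing σ with
  | zero => rfl
  | succ j ih =>
    rw [Function.iterate_succ_apply, Function.iterate_succ_apply, ih]
    rfl

theorem G_per (hg : ∀ x, (g^[p]) x = x) (σ : C(Cb, X)) : (G g)^[p] σ = σ := by
  ext u
  rw [G_iter, hg]

theorem G_per_mul (hg : ∀ x, (g^[p]) x = x) (σ : C(Cb, X)) (m : ℕ) : (G g)^[p * m] σ = σ := by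
  rw [Function.iterate_mul]
  exact Function.iterate_fixed (G_per hg σ) m

theorem G_inj (hg : ∀ x, (g^[p]) x = x) : Function.Injective (G g) := by
  intro σ τ h
  ext u
  exact inj_of_per hg (DFunLike.congr_fun h u)

/-- The equivalence relation of the orbits. -/
def orbS (hg : ∀ x, (g^[p]) x = x) : Setoid C(Cb, X) where
  r σ τ := ∃ j, (G g)^[j] σ = τ
  iseqv := by
    refine ⟨fun σ => ⟨0, rfl⟩, ?_, ?_⟩
    · rintro σ τ ⟨j, rfl⟩
      refine ⟨j * (p - 1), ?_⟩
      rw [← Function.iterate_add_apply]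
      have h1 : j * (p - 1) + j = p * j := by
        have := Nat.succ_pred_eq_of_pos hp.out.pos
        calc j * (p - 1) + j = j * ((p - 1) + 1) := by ring
          _ = p * j := by rw [Nat.sub_add_cancel hp.out.pos, Nat.mul_comm]
      rw [h1]
      exact G_per_mul hg σ j
    · rintro σ τ υ ⟨i, rfl⟩ ⟨j, rfl⟩
      exact ⟨j + i, Function.iterate_add_apply _ _ _ _⟩

/-- The representative of the orbit. -/
noncomputable def rep (hg : ∀ x, (g^[p]) x = x) (σ : C(Cb, X)) : C(Cb, X) :=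
  (Quotient.mk (orbS hg) σ).out

theorem rep_spec (hg : ∀ x, (g^[p]) x = x) (σ : C(Cb, X)) : ∃ j, (G g)^[j] (rep hg σ) = σ :=
  Quotient.exact (s := orbS hg) (Quotient.out_eq (Quotient.mk (orbS hg) σ))

theorem rep_G (hg : ∀ x, (g^[p]) x = x) (σ : C(Cb, X)) : rep hg (G g σ) = rep hg σ := by
  unfold rep
  congr 1
  exact (Quotient.sound (s := orbS hg) ⟨1, rfl⟩).symm

/-- The phase. -/
noncomputable def ph (hg : ∀ x, (g^[p]) x = x) (σ : C(Cb, X)) : ℕ := (rep_spec hg σ).choose

theorem ph_spec (hg : ∀ x, (g^[p]) x = x) (σ : C(Cb, X)) :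
    (G g)^[ph hg σ] (rep hg σ) = σ := (rep_spec hg σ).choose_spec

theorem minPer (hg : ∀ x, (g^[p]) x = x) {σ : C(Cb, X)} (h : G g σ ≠ σ) :
    Function.minimalPeriod (G g) σ = p := by
  have h1 : Function.IsPeriodicPt (G g) p σ := G_per hg σ
  rcases (Nat.dvd_prime hp.out).1 h1.minimalPeriod_dvd with h2 | h2
  · exact absurd (Function.minimalPeriod_eq_one_iff_isFixedPt.1 h2) h
  · exact h2

theorem modEq_of_iter (hg : ∀ x, (g^[p]) x = x) {σ : C(Cb, X)} (h : G g σ ≠ σ) {a b : ℕ}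
    (hab : (G g)^[a] σ = (G g)^[b] σ) : a ≡ b [MOD p] := by
  have h1 := minPer hg h
  have hpos := hp.out.pos
  rw [← Function.iterate_mod_minimalPeriod_eq (n := a),
    ← Function.iterate_mod_minimalPeriod_eq (n := b), h1] at hab
  exact (Function.iterate_eq_iterate_iff_of_lt_minimalPeriod
    (by rw [h1]; exact Nat.mod_lt _ hpos) (by rw [h1]; exact Nat.mod_lt _ hpos)).1 hab

theorem ph_G (hg : ∀ x, (g^[p]) x = x) {σ : C(Cb, X)} (h : G g σ ≠ σ) :
    (ph hg (G g σ) : ZMod p) = (ph hg σ : ZMod p) + 1 := by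
  have h1 := ph_spec hg (G g σ)
  rw [rep_G] at h1
  have h2 : (G g)^[ph hg σ + 1] (rep hg σ) = G g σ := by
    rw [Function.iterate_succ_apply', ph_spec]
  have h3 : G g (rep hg σ) ≠ rep hg σ := by
    intro h4
    have h5 : (G g)^[ph hg σ] (rep hg σ) = rep hg σ := Function.iterate_fixed h4 _
    rw [ph_spec] at h5
    rw [← h5] at h4
    exact h h4
  have h4 := modEq_of_iter hg h3 (h1.trans h2.symm)
  have h5 := (ZMod.natCast_eq_natCast_iff _ _ _).2 h4
  rw [h5]
  push_cast
  rfl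

/-- Multiplication by the phase. -/
noncomputable def D (hg : ∀ x, (g^[p]) x = x) : Ch (ZMod p) X →ₗ[ZMod p] Ch (ZMod p) X :=
  Finsupp.linearCombination (ZMod p) fun σ => Finsupp.single σ (ph hg σ : ZMod p)

theorem D_single (hg : ∀ x, (g^[p]) x = x) (σ : C(Cb, X)) (r : ZMod p) :
    D hg (Finsupp.single σ r) = r • Finsupp.single σ (ph hg σ : ZMod p) := by
  unfold D
  rw [Finsupp.linearCombination_single]

theorem tau_apply (c : Ch (ZMod p) X) : tau p g c = c - push g c := rfl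

/-- The chains supported on the free cubes. -/
def Fr (p : ℕ) (g : C(X, X)) : Submodule (ZMod p) (Ch (ZMod p) X) :=
  Finsupp.supported (ZMod p) (ZMod p) {σ | G g σ ≠ σ}

theorem tau_mem (hg : ∀ x, (g^[p]) x = x) {c : Ch (ZMod p) X} (hc : c ∈ Fr p g) :
    tau p g c ∈ Fr p g := by
  refine map_mem_of_supported (tau p g) (Fr p g) (fun σ hσ => ?_) hc
  rw [tau_apply, push_single]
  refine Submodule.sub_mem _ (single_mem_supported hσ _) (single_mem_supported ?_ _)
  exact fun h => hσ (G_inj hg h)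

theorem tau_pow_mem (hg : ∀ x, (g^[p]) x = x) {c : Ch (ZMod p) X} (hc : c ∈ Fr p g) (m : ℕ) :
    (tau p g ^ m) c ∈ Fr p g := by
  induction m with
  | zero => exact hc
  | succ m ih =>
    rw [pow_succ', Module.End.mul_apply]
    exact tau_mem hg ih

theorem D_mem (hg : ∀ x, (g^[p]) x = x) {c : Ch (ZMod p) X} (hc : c ∈ Fr p g) :
    D hg c ∈ Fr p g := by
  refine map_mem_of_supported (D hg) (Fr p g) (fun σ hσ => ?_) hc
  rw [D_single]
  exact Submodule.smul_mem _ _ (single_mem_supported hσ _)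

/-- The commutation relation. -/
theorem D_tau (hg : ∀ x, (g^[p]) x = x) {c : Ch (ZMod p) X} (hc : c ∈ Fr p g) :
    D hg (tau p g c) = tau p g (D hg c) + tau p g c - c := by
  have key := map_eq_of_supported (R := ZMod p) ((D hg).comp (tau p g))
    ((tau p g : Ch (ZMod p) X →ₗ[ZMod p] Ch (ZMod p) X).comp (D hg) + tau p g - LinearMap.id)
    (fun σ hσ => ?_) hc
  · exact key
  · change D hg (tau p g (Finsupp.single σ 1)) = tau p g (D hg (Finsupp.single σ 1)) +
      tau p g (Finsupp.single σ 1) - Finsupp.single σ 1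
    have h1 : g.comp σ = G g σ := rfl
    rw [tau_apply, push_single, map_sub, D_single, D_single, one_smul, one_smul, tau_apply,
      push_single, h1, ph_G hg hσ, Finsupp.single_add]
    abel

theorem D_tau_pow (hg : ∀ x, (g^[p]) x = x) {c : Ch (ZMod p) X} (hc : c ∈ Fr p g) (m : ℕ) :
    D hg ((tau p g ^ (m + 1)) c) = (tau p g ^ (m + 1)) (D hg c) +
      ((m : ZMod p) + 1) • (tau p g ^ (m + 1)) c - ((m : ZMod p) + 1) • (tau p g ^ m) c := by
  induction m with
  | zero =>
    rw [zero_add, pow_one, pow_zero, D_tau hg hc]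
    simp
  | succ m ih =>
    rw [pow_succ' (tau p g) (m + 1), Module.End.mul_apply, D_tau hg (tau_pow_mem hg hc _), ih,
      Module.End.mul_apply, map_sub, map_add, map_smul, map_smul]
    have h1 : tau p g ((tau p g ^ m) c) = (tau p g ^ (m + 1)) c := by
      rw [pow_succ', Module.End.mul_apply]
    rw [h1]
    push_cast
    module

theorem step (hg : ∀ x, (g^[p]) x = x) (i : ℕ) : ∀ (m : ℕ), m + i < p → ∀ e ∈ Fr p g,
    (tau p g ^ (m + i)) e = 0 → ∃ e' ∈ Fr p g, (tau p g ^ m) e = (tau p g ^ (m + 1)) e' := by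
  induction i with
  | zero =>
    intro m _ e _ h
    exact ⟨0, Submodule.zero_mem _, by rw [map_zero]; exact h⟩
  | succ i ih =>
    intro m hm e he h
    have h1 := D_tau_pow hg he (m + i)
    have h0 : (tau p g ^ (m + i + 1)) e = 0 := h
    rw [h0, map_zero, smul_zero, add_zero] at h1
    have hl : ((m + i : ℕ) : ZMod p) + 1 ≠ 0 := by
      intro h2
      have h3 : ((m + i + 1 : ℕ) : ZMod p) = 0 := by
        push_cast
        push_cast at h2
        exact h2
      rw [ZMod.natCast_eq_zero_iff] at h3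
      exact absurd (Nat.le_of_dvd (Nat.succ_pos _) h3) (by omega)
    obtain ⟨l, hl'⟩ : ∃ l : ZMod p, l = ((m + i : ℕ) : ZMod p) + 1 := ⟨_, rfl⟩
    rw [← hl'] at h1 hl
    -- the corrected element
    have h2 : (tau p g ^ (m + i)) (e - l⁻¹ • tau p g (D hg e)) = 0 := by
      rw [map_sub, map_smul, ← Module.End.mul_apply, ← pow_succ]
      have h3 : (tau p g ^ (m + i + 1)) (D hg e) = l • (tau p g ^ (m + i)) e :=
        (sub_eq_zero.1 h1.symm)
      rw [h3, smul_smul, inv_mul_cancel₀ hl, one_smul, sub_self]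
    obtain ⟨e', he', h4⟩ := ih m (by omega) _ (Submodule.sub_mem _ he
      (Submodule.smul_mem _ _ (tau_mem hg (D_mem hg he)))) h2
    refine ⟨e' + l⁻¹ • D hg e, Submodule.add_mem _ he' (Submodule.smul_mem _ _ (D_mem hg he)), ?_⟩
    rw [map_add, ← h4, map_smul, map_sub, map_smul, pow_succ, Module.End.mul_apply]
    abel

theorem ker_free (hg : ∀ x, (g^[p]) x = x) {i : ℕ} (_hip : i < p) {c : Ch (ZMod p) X}
    (hc : c ∈ Fr p g) (h : (tau p g ^ i) c = 0) :
    ∀ m, m ≤ p - i → ∃ e ∈ Fr p g, c = (tau p g ^ m) e := by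
  intro m
  induction m with
  | zero => exact fun _ => ⟨c, hc, rfl⟩
  | succ m ih =>
    intro hm
    obtain ⟨e, he, h1⟩ := ih (by omega)
    have h2 : (tau p g ^ (m + i)) e = 0 := by
      rw [Nat.add_comm, pow_add, Module.End.mul_apply, ← h1, h]
    obtain ⟨e', he', h3⟩ := step hg i m (by omega) e he h2
    exact ⟨e', he', h1.trans h3⟩

/-- Filters by invariant families. -/
theorem push_filter (P : C(Cb, X) → Prop) [DecidablePred P] (hP : ∀ σ, P (g.comp σ) ↔ P σ)
    (c : Ch (ZMod p) X) : push g (c.filter P) = (push g c).filter P := by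
  induction c using Finsupp.induction_linear with
  | zero => rw [Finsupp.filter_zero, map_zero, Finsupp.filter_zero]
  | add c d hc hd => rw [Finsupp.filter_add, map_add, hc, hd, map_add, Finsupp.filter_add]
  | single σ r =>
    by_cases h : P σ
    · rw [Finsupp.filter_single_of_pos _ h, push_single, Finsupp.filter_single_of_pos _ ((hP σ).2 h)]
    · rw [Finsupp.filter_single_of_neg _ h, push_single,
        Finsupp.filter_single_of_neg _ (fun h' => h ((hP σ).1 h')), map_zero]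

theorem tau_pow_filter (P : C(Cb, X) → Prop) [DecidablePred P] (hP : ∀ σ, P (g.comp σ) ↔ P σ)
    (c : Ch (ZMod p) X) (i : ℕ) : (tau p g ^ i) (c.filter P) = ((tau p g ^ i) c).filter P := by
  induction i with
  | zero => rfl
  | succ i ih =>
    rw [pow_succ', Module.End.mul_apply, Module.End.mul_apply, ih, tau_apply, tau_apply,
      push_filter P hP, Finsupp.filter_sub]

theorem dependsOn_iff (hg : ∀ x, (g^[p]) x = x) (σ : C(Cb, X)) (S : Set ℕ) :
    DependsOn ((g.comp σ : C(Cb, X)) : Cb → X) S ↔ DependsOn (σ : Cb → X) S := by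
  constructor
  · intro h x y hxy
    exact inj_of_per hg (h hxy)
  · exact dependsOn_comp_left

theorem isCube_iff (hg : ∀ x, (g^[p]) x = x) (k : ℤ) (σ : C(Cb, X)) :
    IsCube k (g.comp σ) ↔ IsCube k σ :=
  and_congr_right fun _ => dependsOn_iff hg σ _

theorem degen_iff (hg : ∀ x, (g^[p]) x = x) (k : ℤ) (σ : C(Cb, X)) :
    Degen k (g.comp σ) ↔ Degen k σ :=
  exists_congr fun _ => and_congr_right fun _ => dependsOn_iff hg σ _

end H04

section Tau

variable {p : ℕ} [hp : Fact p.Prime] {X : Type*} [TopologicalSpace X] {g : C(X, X)}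

open H04 in
/-- **The kernel of `tau^i`.** -/
theorem ker_tau (hg : ∀ x, (g^[p]) x = x) {i : ℕ} (hi : 1 ≤ i) (hip : i < p) {A : Set X}
    (hA : Inv g A) {k : ℤ} {c : Ch (ZMod p) X} (hc : c ∈ C (ZMod p) k Set.univ)
    (h : (tau p g ^ i) c ∈ Q (ZMod p) k A) :
    ∃ c' ∈ C (ZMod p) k (Set.univ : Set X), ∃ f ∈ C (ZMod p) k (fixS g),
      c - (tau p g ^ (p - i)) c' - f ∈ Q (ZMod p) k A := by
  classical
  have hsup : ∀ σ ∈ c.support, IsCube k σ := fun σ hσ => (hc hσ).1
  have hcomp : ∀ σ : C(Cb, X), g.comp (g.comp σ) = g.comp σ ↔ g.comp σ = σ := fun σ =>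
    ⟨fun h' => G_inj hg h', fun h' => by rw [h', h']⟩
  have hAiff : ∀ σ : C(Cb, X), (∀ u, (g.comp σ) u ∈ A) ↔ ∀ u, σ u ∈ A := fun σ =>
    forall_congr' fun u => hA (σ u)
  -- the free part
  have hP : ∀ σ : C(Cb, X), (¬ (∀ u, (g.comp σ) u ∈ A) ∧ ¬ Degen k (g.comp σ) ∧
      g.comp (g.comp σ) ≠ g.comp σ) ↔ (¬ (∀ u, σ u ∈ A) ∧ ¬ Degen k σ ∧ g.comp σ ≠ σ) := by
    intro σ
    rw [hAiff, degen_iff hg, ne_eq, hcomp]
  let P : C(Cb, X) → Prop := fun σ => ¬ (∀ u, σ u ∈ A) ∧ ¬ Degen k σ ∧ g.comp σ ≠ σ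
  have h1 : (tau p g ^ i) (c.filter P) = 0 := by
    rw [tau_pow_filter P hP]
    ext σ
    rw [Finsupp.coe_zero, Pi.zero_apply]
    by_cases hσ : P σ
    · rw [Finsupp.filter_apply_pos _ _ hσ]
      by_contra h2
      have h3 := h (Finsupp.mem_support_iff.2 h2)
      rcases h3.2 with h4 | h4
      · exact hσ.1 h4
      · exact hσ.2.1 h4
    · rw [Finsupp.filter_apply_neg _ _ hσ]
  have h2 : c.filter P ∈ Fr p g := by
    intro σ hσ
    have h3 : σ ∈ (c.filter P).support := hσ
    rw [Finsupp.support_filter, Finset.mem_filter] at h3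
    exact h3.2.2.2
  obtain ⟨e, -, he⟩ := ker_free hg hip h2 h1 (p - i) le_rfl
  have hQ : ∀ σ : C(Cb, X), IsCube k (g.comp σ) ↔ IsCube k σ := isCube_iff hg k
  refine ⟨e.filter (IsCube k), ?_, c.filter (fun σ => ¬ P σ ∧ g.comp σ = σ), ?_, ?_⟩
  · intro σ hσ
    have h3 : σ ∈ (e.filter (IsCube k)).support := hσ
    rw [Finsupp.support_filter, Finset.mem_filter] at h3
    exact ⟨h3.2, fun _ => Set.mem_univ _⟩
  · intro σ hσ
    have h3 : σ ∈ (c.filter (fun σ => ¬ P σ ∧ g.comp σ = σ)).support := hσ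
    rw [Finsupp.support_filter, Finset.mem_filter] at h3
    exact ⟨hsup σ h3.1, fun u => DFunLike.congr_fun h3.2.2 u⟩
  · rw [tau_pow_filter (IsCube k) hQ, ← he]
    intro σ hσ
    have h3 : (c - (c.filter P).filter (IsCube k) - c.filter (fun σ => ¬ P σ ∧ g.comp σ = σ)) σ
        ≠ 0 := Finsupp.mem_support_iff.1 hσ
    rw [Finsupp.sub_apply, Finsupp.sub_apply] at h3
    have hcσ : c σ ≠ 0 := by
      intro h4
      have h5 : ((c.filter P).filter (IsCube k)) σ = 0 := by
        by_cases h6 : IsCube k σ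
        · rw [Finsupp.filter_apply_pos _ _ h6]
          by_cases h7 : P σ
          · rw [Finsupp.filter_apply_pos _ _ h7, h4]
          · rw [Finsupp.filter_apply_neg _ _ h7]
        · rw [Finsupp.filter_apply_neg _ _ h6]
      have h6 : (c.filter (fun σ => ¬ P σ ∧ g.comp σ = σ)) σ = 0 := by
        by_cases h7 : ¬ P σ ∧ g.comp σ = σ
        · rw [Finsupp.filter_apply, if_pos h7, h4]
        · rw [Finsupp.filter_apply, if_neg h7]
      rw [h4, h5, h6] at h3
      simp at h3
    have hcube : IsCube k σ := hsup σ (Finsupp.mem_support_iff.2 hcσ)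
    refine ⟨hcube, ?_⟩
    by_contra h4
    push Not at h4
    obtain ⟨h5, h6⟩ := h4
    have h5' : ¬ ∀ u, σ u ∈ A := by
      push Not
      exact h5
    by_cases h7 : g.comp σ = σ
    · have h8 : ¬ P σ ∧ g.comp σ = σ := ⟨fun h9 => h9.2.2 h7, h7⟩
      have h9 : (c.filter (fun σ => ¬ P σ ∧ g.comp σ = σ)) σ = c σ := by
        rw [Finsupp.filter_apply, if_pos h8]
      rw [h9, Finsupp.filter_apply_pos _ _ hcube, Finsupp.filter_apply_neg _ _ h8.1] at h3
      simp at h3
    · have h8 : P σ := ⟨h5', h6, h7⟩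
      have h9 : (c.filter (fun σ => ¬ P σ ∧ g.comp σ = σ)) σ = 0 := by
        rw [Finsupp.filter_apply, if_neg fun h9 => h9.1 h8]
      rw [h9, Finsupp.filter_apply_pos _ _ hcube, Finsupp.filter_apply_pos _ _ h8] at h3
      simp at h3

end Tau

end Pool.Agent.TCH
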