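import Pool.Agent.Lib.TC.HSub
import Pool.Agent.Lib.TC.HTau

/-!
# Homology library, HMV
-/

namespace Pool.Agent.TCH

open CubeHom

variable {R : Type*} [CommRing R] {X : Type*} [TopologicalSpace X] {g : C(X, X)}
  {t : Module.End R (Ch R X)}

/-- Basic calculus. -/
theorem BT.add {k : ℤ} {U A : Set X} {c c' : Ch R X} (h : BT t k U A c) (h' : BT t k U A c') :
    BT t k U A (c + c') := by
  obtain ⟨b, hb, h⟩ := h
  obtain ⟨b', hb', h'⟩ := h'
  refine ⟨b + b', Submodule.add_mem _ hb hb', ?_⟩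
  rw [map_add, map_add, map_add, add_sub_add_comm]
  exact Submodule.add_mem _ h h'

theorem BT.smul {k : ℤ} {U A : Set X} {c : Ch R X} (r : R) (h : BT t k U A c) :
    BT t k U A (r • c) := by
  obtain ⟨b, hb, h⟩ := h
  refine ⟨r • b, Submodule.smul_mem _ _ hb, ?_⟩
  rw [map_smul, map_smul, map_smul, ← smul_sub]
  exact Submodule.smul_mem _ _ h

theorem BT.mono {k : ℤ} {U U' A A' : Set X} (hU : U ⊆ U') (hA : A ⊆ A') {c : Ch R X}
    (h : BT t k U A c) : BT t k U' A' c := by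
  obtain ⟨b, hb, h⟩ := h
  exact ⟨b, C_mono _ hU hb, Q_mono _ hA h⟩

theorem ZT.mono {k : ℤ} {U U' A A' : Set X} (hU : U ⊆ U') (hA : A ⊆ A') {c : Ch R X}
    (h : ZT t k U A c) : ZT t k U' A' c :=
  ⟨C_mono _ hU h.1, Q_mono _ hA h.2⟩

theorem ZT_one {k : ℤ} {U A : Set X} {c : Ch R X} :
    ZT (1 : Module.End R (Ch R X)) k U A c ↔ c ∈ Z R k U A := Iff.rfl

theorem BT_one {k : ℤ} {U A : Set X} {c : Ch R X} :
    BT (1 : Module.End R (Ch R X)) k U A c ↔ Bd R k U A c := Iff.rfl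

namespace H05

theorem Q_inter' {k : ℤ} {A₁ A₂ : Set X} {c : Ch R X} (h1 : c ∈ Q R k A₁) (h2 : c ∈ Q R k A₂) :
    c ∈ Q R k (A₁ ∩ A₂) := by
  have h3 : c ∈ Q R k A₁ ⊓ Q R k A₂ := ⟨h1, h2⟩
  unfold Q at h3
  rw [← Finsupp.supported_inter] at h3
  unfold Q
  refine Finsupp.supported_mono ?_ h3
  rintro σ ⟨⟨hc, h⟩, -, h'⟩
  refine ⟨hc, ?_⟩
  rcases h with h | h
  · rcases h' with h' | h'
    · exact Or.inl fun u => ⟨h u, h' u⟩
    · exact Or.inr h'
  · exact Or.inr h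

theorem inv_compl {K : Set X} (h : Inv g K) : Inv g Kᶜ := fun x => not_congr (h x)

theorem inv_univ : Inv g (Set.univ : Set X) := fun _ => ⟨fun _ => trivial, fun _ => trivial⟩

theorem inv_empty : Inv g (∅ : Set X) := fun _ => Iff.rfl

/-- Splitting of a subdivision. -/
theorem subdiv_two {S : ℕ → ℤ → Module.End R (Ch R X)} {k : ℤ}
    (hS : ∀ {ι : Type} (𝒰 : ι → Set X), (∀ i, IsOpen (𝒰 i)) → ∀ W : Set X, W ⊆ ⋃ i, 𝒰 i →
        ∀ c ∈ C R k W, ∃ m0 : ℕ, ∀ m ≥ m0, S m k c ∈ ⨆ i, C R k (𝒰 i ∩ W))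
    {A₁ A₂ W : Set X} (o1 : IsOpen A₁) (o2 : IsOpen A₂) (hW : W ⊆ A₁ ∪ A₂) {c : Ch R X}
    (hc : c ∈ C R k W) : ∃ m0 : ℕ, ∀ m ≥ m0, ∃ c₁ ∈ C R k A₁, ∃ c₂ ∈ C R k A₂,
      S m k c = c₁ + c₂ := by
  obtain ⟨m0, h⟩ := hS (fun b : Bool => cond b A₁ A₂) (by rintro (_ | _) <;> assumption) W
    (by
      intro x hx
      rw [Set.mem_iUnion]
      rcases hW hx with h | h
      · exact ⟨true, h⟩
      · exact ⟨false, h⟩) c hc
  refine ⟨m0, fun m hm => ?_⟩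
  have h1 := h m hm
  rw [iSup_bool_eq] at h1
  obtain ⟨c₁, h2, c₂, h3, h4⟩ := Submodule.mem_sup.1 h1
  exact ⟨c₁, C_mono _ Set.inter_subset_left h2, c₂, C_mono _ Set.inter_subset_left h3, h4.symm⟩

end H05

open H05

/-- **Relative Mayer-Vietoris.** A class which vanishes relative to `A₁` and relative to `A₂`
vanishes relative to `A₁ ∩ A₂` if the homology of `(X, A₁ ∪ A₂)` vanishes one degree higher. -/
theorem mv_rel (ht : TOp g t) (hg : Function.Injective g) {A₁ A₂ : Set X} (o1 : IsOpen A₁)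
    (o2 : IsOpen A₂) (i1 : Inv g A₁) (i2 : Inv g A₂) {k : ℤ}
    (h12 : ∀ e, ZT t (k + 1) Set.univ (A₁ ∪ A₂) e → BT t (k + 1) Set.univ (A₁ ∪ A₂) e)
    {c : Ch R X} (hc : c ∈ C R k Set.univ) (h1 : BT t k Set.univ A₁ c)
    (h2 : BT t k Set.univ A₂ c) : BT t k Set.univ (A₁ ∩ A₂) c := by
  obtain ⟨b₁, hb₁, h1⟩ := h1
  obtain ⟨b₂, hb₂, h2⟩ := h2
  obtain ⟨S, T, E, hSC, hSQ, hSb, hST, hSt, hS⟩ := exists_subdiv R X
  have e1 : k + 1 - 1 = k := by ring
  have e2 : k + 1 + 1 - 1 = k + 1 := by ring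
  -- `e` is a cycle
  have hbe : bd (k + 1) (t (b₁ - b₂)) =
      (t c - bd (k + 1) (t b₂)) - (t c - bd (k + 1) (t b₁)) := by
    rw [map_sub, map_sub]
    abel
  have he : b₁ - b₂ ∈ C R (k + 1) Set.univ := Submodule.sub_mem _ hb₁ hb₂
  obtain ⟨h, hh, hw⟩ := h12 (b₁ - b₂) ⟨he, by
    rw [hbe, e1]
    exact Submodule.sub_mem _ (Q_mono _ Set.subset_union_right h2)
      (Q_mono _ Set.subset_union_left h1)⟩
  obtain ⟨e, he'⟩ : ∃ e, e = b₁ - b₂ := ⟨_, rfl⟩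
  rw [← he'] at hw he hbe
  obtain ⟨w, hw'⟩ : ∃ w, w = t e - bd (k + 1 + 1) (t h) := ⟨_, rfl⟩
  rw [← hw'] at hw
  have hbb : ∀ x : Ch R X, bd (k + 1) (bd (k + 1 + 1) x) = 0 := by
    intro x
    have := bd_bd (k + 1 + 1) x
    rwa [e2] at this
  have hbw : bd (k + 1) w = (t c - bd (k + 1) (t b₂)) - (t c - bd (k + 1) (t b₁)) := by
    rw [hw', map_sub, hbb, sub_zero, hbe]
  -- subdivision
  have hws := hw
  rw [Q_eq_sup] at hws
  obtain ⟨w₁, hw₁, w₂, hw₂, hww⟩ := Submodule.mem_sup.1 hws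
  obtain ⟨m, hm⟩ := subdiv_two (hS (k + 1)) o1 o2 (le_refl _) hw₁
  obtain ⟨s₁, hs₁, s₂, hs₂, hs⟩ := hm m le_rfl
  have hSw : S m (k + 1) w = s₁ + s₂ + S m (k + 1) w₂ := by
    rw [← hww, map_add, hs]
  have hS2 : S m (k + 1) w₂ ∈ Q R (k + 1) A₂ :=
    Q_mono _ (Set.empty_subset _) (hSQ m (k + 1) ∅ w₂ hw₂).1
  have hwC : w ∈ C R (k + 1) Set.univ := Q_le_C_univ _ _ hw
  have hTw := hST m (k + 1) w hwC
  rw [e1, hbw, map_sub] at hTw
  have hT1 : T m k (t c - bd (k + 1) (t b₁)) ∈ Q R (k + 1) A₁ := (hSQ m k A₁ _ h1).2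
  have hT2 : T m k (t c - bd (k + 1) (t b₂)) ∈ Q R (k + 1) A₂ := (hSQ m k A₂ _ h2).2
  have hE : E m (k + 1) w ∈ Q R (k + 1) A₂ :=
    Q_mono _ (Set.empty_subset _) (hSC m (k + 1) Set.univ w hwC).2.2.2
  obtain ⟨v, hv⟩ : ∃ v, v = T m (k + 1) e - T m (k + 1) (bd (k + 1 + 1) h) := ⟨_, rfl⟩
  have hbh : bd (k + 1 + 1) h ∈ C R (k + 1) Set.univ := by
    have := bd_mem_C hh
    rwa [e2] at this
  have hvC : v ∈ C R (k + 1 + 1) Set.univ := by
    rw [hv]
    exact Submodule.sub_mem _ (hSC m (k + 1) Set.univ e he).2.1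
      (hSC m (k + 1) Set.univ _ hbh).2.1
  have htv : T m (k + 1) w = t v := by
    rw [hv, hw', map_sub, map_sub, (hSt m (k + 1) t ht.pre e).2.1,
      (hSt m (k + 1) t ht.pre (bd (k + 1 + 1) h)).2.1, ht.bd]
  rw [htv, hSw] at hTw
  generalize E m (k + 1) w = E' at hTw hE
  generalize S m (k + 1) w₂ = S' at hTw hS2
  generalize T m k (t c - bd (k + 1) (t b₁)) = x₁ at hTw hT1
  generalize T m k (t c - bd (k + 1) (t b₂)) = x₂ at hTw hT2
  -- `e - bd h'` is small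
  obtain ⟨h', hh'⟩ : ∃ h', h' = h + v := ⟨_, rfl⟩
  have hh'C : h' ∈ C R (k + 1 + 1) Set.univ := hh' ▸ Submodule.add_mem _ hh hvC
  have hbh' : bd (k + 1 + 1) h' ∈ C R (k + 1) Set.univ := by
    have := bd_mem_C hh'C
    rwa [e2] at this
  have hkey : t (e - bd (k + 1 + 1) h') ∈ Q R (k + 1) A₁ ⊔ Q R (k + 1) A₂ := by
    have e4 : t (e - bd (k + 1 + 1) h') = w - bd (k + 1 + 1) (t v) := by
      rw [hh', map_sub, ht.bd, map_add, map_add, hw']
      abel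
    have e5 : w = bd (k + 1 + 1) (t v) + (x₂ - x₁) + E' + (s₁ + s₂ + S') :=
      sub_eq_iff_eq_add.1 hTw
    have e3 : t (e - bd (k + 1 + 1) h') = (s₁ - x₁) + (s₂ + S' + x₂ + E') := by
      rw [e4, e5]
      abel
    rw [e3]
    exact Submodule.add_mem_sup (Submodule.sub_mem _ (C_le_Q _ _ hs₁) hT1)
      (Submodule.add_mem _ (Submodule.add_mem _ (Submodule.add_mem _ (C_le_Q _ _ hs₂) hS2) hT2) hE)
  obtain ⟨u₁, hu₁, u₂, hu₂, hu⟩ := ht.split i1 i2 (Submodule.sub_mem _ he hbh') hkey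
  refine ⟨b₁ - u₁, Submodule.sub_mem _ hb₁ (C_mono _ (Set.subset_univ _) hu₁), ?_⟩
  have hbC : ∀ {A : Set X} {x : Ch R X}, x ∈ C R (k + 1) A → bd (k + 1) x ∈ C R k A := by
    intro A x hx
    have := bd_mem_C hx
    rwa [e1] at this
  have hbQ : ∀ {A : Set X} {x : Ch R X}, x ∈ Q R (k + 1) A → bd (k + 1) x ∈ Q R k A := by
    intro A x hx
    have := bd_mem_Q hx
    rwa [e1] at this
  refine Q_inter' ?_ ?_
  · have e3 : t c - bd (k + 1) (t (b₁ - u₁)) = (t c - bd (k + 1) (t b₁)) + bd (k + 1) (t u₁) := by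
      rw [map_sub, map_sub]
      abel
    rw [e3]
    exact Submodule.add_mem _ h1 (C_le_Q _ _ (hbC (ht.mem_C hg i1 hu₁)))
  · have e3 : t c - bd (k + 1) (t (b₁ - u₁)) = (t c - bd (k + 1) (t b₂)) -
        (bd (k + 1) (t (e - bd (k + 1 + 1) h' - u₁ - u₂)) + bd (k + 1) (t u₂)) := by
      have e4 : bd (k + 1) (t (bd (k + 1 + 1) h')) = 0 := by
        rw [ht.bd, hbb]
      simp only [he', map_sub, e4]
      abel
    rw [e3]
    exact Submodule.sub_mem _ h2 (Submodule.add_mem _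
      (Q_mono _ (Set.empty_subset _) (hbQ hu)) (C_le_Q _ _ (hbC (ht.mem_C hg i2 hu₂))))

theorem VanT.union (ht : TOp g t) (hg : Function.Injective g) {n : ℕ} {K₁ K₂ : Set X}
    (c1 : IsClosed K₁) (c2 : IsClosed K₂) (i1 : Inv g K₁) (i2 : Inv g K₂) (h1 : VanT t n K₁)
    (h2 : VanT t n K₂) (h12 : VanT t n (K₁ ∩ K₂)) : VanT t n (K₁ ∪ K₂) := by
  intro k hk c hc
  rw [Set.compl_union] at hc ⊢
  refine mv_rel ht hg c1.isOpen_compl c2.isOpen_compl (inv_compl i1) (inv_compl i2) ?_ hc.1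
    (h1 k hk c (hc.mono le_rfl Set.inter_subset_left))
    (h2 k hk c (hc.mono le_rfl Set.inter_subset_right))
  intro e he
  rw [← Set.compl_inter] at he ⊢
  exact h12 (k + 1) (by omega) e he

theorem VanT.empty (ht : TOp g t) (hg : Function.Injective g) (n : ℕ) :
    VanT t n (∅ : Set X) := by
  intro k hk c hc
  rw [Set.compl_empty]
  refine ⟨0, Submodule.zero_mem _, ?_⟩
  rw [map_zero, map_zero, sub_zero]
  exact C_le_Q _ _ (ht.mem_C hg inv_univ hc.1)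

namespace H06

/-- The operators of the subdivision on one chain. -/
theorem t_comm (ht : TOp g t) {T : Module.End R (Ch R X)}
    (hT : ∀ t : Module.End R (Ch R X),
        (∀ (a : C(Cb, Cb)) (c : Ch R X), t (Sub.pre R X a c) = Sub.pre R X a (t c)) → ∀ c,
          t (T c) = T (t c)) (c : Ch R X) : t (T c) = T (t c) := hT t ht.pre c

end H06

/-- **Excision** for the complexes `t C`: a class of `(X, A)` is represented in an open invariant
set `U` with `U ∪ A = X`. -/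
theorem excT_surj (ht : TOp g t) (hg : Function.Injective g) {U A : Set X} (oU : IsOpen U)
    (oA : IsOpen A) (iU : Inv g U) (iA : Inv g A) (hUA : U ∪ A = Set.univ) {k : ℤ} {c : Ch R X}
    (hc : ZT t k Set.univ A c) :
    ∃ c' , ZT t k U A c' ∧ BT t k Set.univ A (c - c') := by
  obtain ⟨hcC, hcQ⟩ := hc
  obtain ⟨S, T, E, hSC, hSQ, hSb, hST, hSt, hS⟩ := exists_subdiv R X
  obtain ⟨m, hm⟩ := subdiv_two (hS k) oU oA hUA.ge hcC
  obtain ⟨cU, hcU, cA, hcA, hs⟩ := hm m le_rfl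
  have htC : t c ∈ C R k Set.univ := ht.mem_C hg inv_univ hcC
  have e0 : k - 1 + 1 = k := by ring
  refine ⟨cU, ⟨hcU, ?_⟩, T m k c, (hSC m k Set.univ c hcC).2.1, ?_⟩
  · have e1 : bd k (t cU) = S m (k - 1) (bd k (t c)) - bd k (t cA) := by
      rw [← hSb m k _ htC, ← (hSt m k t ht.pre c).1, hs, map_add, map_add, add_sub_cancel_right]
    rw [e1]
    exact Submodule.sub_mem _ (hSQ m (k - 1) A _ hcQ).1
      (C_le_Q _ _ (bd_mem_C (ht.mem_C hg iA hcA)))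
  · have e1 := hST m k c hcC
    have e2 : c - cU = bd (k + 1) (T m k c) + T m (k - 1) (bd k c) + E m k c + cA := by
      rw [← e1, hs]
      abel
    have e3 : t (c - cU) - bd (k + 1) (t (T m k c)) =
        T m (k - 1) (bd k (t c)) + t (E m k c) + t cA := by
      rw [e2, map_add, map_add, map_add, ht.bd, (hSt m (k - 1) t ht.pre (bd k c)).2.1, ht.bd]
      abel
    rw [e3]
    have h1 := (hSQ m (k - 1) A _ hcQ).2
    rw [e0] at h1
    exact Submodule.add_mem _ (Submodule.add_mem _ h1 (Q_mono _ (Set.empty_subset _)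
      (ht.mem_Q hg inv_empty (hSC m k Set.univ c hcC).2.2.2))) (C_le_Q _ _ (ht.mem_C hg iA hcA))

theorem excT_inj (ht : TOp g t) (hg : Function.Injective g) {U A : Set X} (oU : IsOpen U)
    (oA : IsOpen A) (iU : Inv g U) (iA : Inv g A) (hUA : U ∪ A = Set.univ) {k : ℤ} {c : Ch R X}
    (hc : c ∈ C R k U) (h : BT t k Set.univ A c) : BT t k U A c := by
  obtain ⟨b, hb, h⟩ := h
  obtain ⟨S, T, E, hSC, hSQ, hSb, hST, hSt, hS⟩ := exists_subdiv R X
  obtain ⟨m, hm⟩ := subdiv_two (hS (k + 1)) oU oA hUA.ge hb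
  obtain ⟨bU, hbU, bA, hbA, hs⟩ := hm m le_rfl
  have e0 : k - 1 + 1 = k := by ring
  have e1 : k + 1 - 1 = k := by ring
  have hcC : c ∈ C R k Set.univ := C_mono _ (Set.subset_univ _) hc
  have htb : t b ∈ C R (k + 1) Set.univ := ht.mem_C hg inv_univ hb
  have htc : t c ∈ C R k Set.univ := ht.mem_C hg inv_univ hcC
  refine ⟨bU + T m k c, Submodule.add_mem _ hbU (hSC m k U c hc).2.1, ?_⟩
  have hbr : bd k (t c) ∈ Q R (k - 1) A := by
    have h1 := bd_mem_Q h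
    rw [map_sub] at h1
    have h2 := bd_bd (R := R) (k + 1) (t b)
    rw [e1] at h2
    rwa [h2, sub_zero] at h1
  have h1 := hST m k c hcC
  have h2 : t c = t (S m k c) + (bd (k + 1) (t (T m k c)) + T m (k - 1) (bd k (t c)) +
      t (E m k c)) := by
    have h3 := sub_eq_iff_eq_add'.1 h1
    have h4 := congrArg t h3
    rw [map_add, map_add, map_add, ht.bd, (hSt m (k - 1) t ht.pre (bd k c)).2.1, ht.bd] at h4
    exact h4
  have h5 : S m k (t c - bd (k + 1) (t b)) = t (S m k c) - bd (k + 1) (t bU) -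
      bd (k + 1) (t bA) := by
    have h6 := hSb m (k + 1) (t b) htb
    rw [e1] at h6
    rw [map_sub, ← h6, ← (hSt m (k + 1) t ht.pre b).1, ← (hSt m k t ht.pre c).1, hs, map_add,
      map_add]
    abel
  have h7 : t c - bd (k + 1) (t (bU + T m k c)) = S m k (t c - bd (k + 1) (t b)) +
      bd (k + 1) (t bA) + T m (k - 1) (bd k (t c)) + t (E m k c) := by
    rw [h5, map_add, map_add]
    have h8 := sub_eq_of_eq_add' h2
    rw [← sub_eq_zero] at h8 ⊢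
    rw [← h8]
    abel
  rw [h7]
  have h9 := (hSQ m (k - 1) A _ hbr).2
  rw [e0] at h9
  have h10 : bd (k + 1) (t bA) ∈ Q R k A := by
    have := bd_mem_C (ht.mem_C hg iA hbA)
    rw [e1] at this
    exact C_le_Q _ _ this
  exact Submodule.add_mem _ (Submodule.add_mem _ (Submodule.add_mem _ (hSQ m k A _ h).1 h10) h9)
    (Q_mono _ (Set.empty_subset _) (ht.mem_Q hg inv_empty (hSC m k Set.univ c hcC).2.2.2))

end Pool.Agent.TCH
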