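import Pool.Agent.Lib.TC.HDefs

/-!
# Homology library, HR02
-/

namespace Pool.Agent.TCH

open CubeHom

section Basic

variable {R : Type*} [CommRing R] {X : Type*} [TopologicalSpace X] {g : C(X, X)}
  {t : Module.End R (Ch R X)}

theorem TOp.one : TOp (ContinuousMap.id X) (1 : Module.End R (Ch R X)) :=
  ⟨fun _ _ => rfl, fun _ _ _ _ => rfl⟩

theorem TOp.bd (ht : TOp g t) (k : ℤ) (c : Ch R X) : t (bd k c) = bd k (t c) := by
  have h : ∀ (i : ℕ) (e : I) (c : Ch R X), t (face i e c) = face i e (t c) :=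
    fun i e c => ht.pre (ins i e) c
  rw [bd_apply, bd_apply, map_sum]
  refine Finset.sum_congr rfl fun i _ => ?_
  rw [map_smul, map_sub, h, h]

namespace H02

/-- Membership in a supported submodule and filters. -/
theorem filter_mem {ι : Type*} (S : Set ι) [DecidablePred (· ∈ S)] (c : ι →₀ R) :
    c.filter (· ∈ S) ∈ Finsupp.supported R R S := by
  rw [Finsupp.mem_supported]
  intro σ hσ
  rw [Finset.mem_coe, Finsupp.support_filter, Finset.mem_filter] at hσ
  exact hσ.2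

theorem filter_eq {ι : Type*} {S : Set ι} [DecidablePred (· ∈ S)] {c : ι →₀ R}
    (hc : c ∈ Finsupp.supported R R S) : c.filter (· ∈ S) = c := by
  rw [Finsupp.filter_eq_self_iff]
  intro σ hσ
  exact hc (Finset.mem_coe.2 (Finsupp.mem_support_iff.2 hσ))

/-- An operator compatible with `g` preserves the span of an invariant family of cubes. -/
theorem mem_supported (ht : TOp g t) {S : Set C(Cb, X)} (hS : ∀ σ, g.comp σ ∈ S ↔ σ ∈ S)
    {c : Ch R X} (hc : c ∈ Finsupp.supported R R S) : t c ∈ Finsupp.supported R R S := by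
  classical
  have h := ht.filt (· ∈ S) hS c
  rw [filter_eq hc] at h
  rw [h]
  exact filter_mem S _

theorem dependsOn_iff (hg : Function.Injective g) (σ : C(Cb, X)) (s : Set ℕ) :
    DependsOn ((g.comp σ : C(Cb, X)) : Cb → X) s ↔ DependsOn (σ : Cb → X) s :=
  ⟨fun h _ _ hxy => hg (h hxy), fun h => dependsOn_comp_left h⟩

theorem isCube_iff (hg : Function.Injective g) (σ : C(Cb, X)) (k : ℤ) :
    IsCube k (g.comp σ) ↔ IsCube k σ :=
  and_congr Iff.rfl (dependsOn_iff hg σ _)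

theorem degen_iff (hg : Function.Injective g) (σ : C(Cb, X)) (k : ℤ) :
    Degen k (g.comp σ) ↔ Degen k σ :=
  exists_congr fun _ => and_congr Iff.rfl (dependsOn_iff hg σ _)

theorem inv_iff {A : Set X} (hA : Inv g A) (σ : C(Cb, X)) :
    (∀ u, (g.comp σ) u ∈ A) ↔ ∀ u, σ u ∈ A :=
  forall_congr' fun u => hA (σ u)

end H02

theorem TOp.mem_C (ht : TOp g t) (hg : Function.Injective g) {A : Set X} (hA : Inv g A) {k : ℤ}
    {c : Ch R X} (hc : c ∈ C R k A) : t c ∈ C R k A :=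
  H02.mem_supported ht
    (S := {σ | IsCube k σ ∧ ∀ u, σ u ∈ A})
    (fun σ => and_congr (H02.isCube_iff hg σ k) (H02.inv_iff hA σ)) hc

theorem TOp.mem_Q (ht : TOp g t) (hg : Function.Injective g) {A : Set X} (hA : Inv g A) {k : ℤ}
    {c : Ch R X} (hc : c ∈ Q R k A) : t c ∈ Q R k A :=
  H02.mem_supported ht
    (S := {σ | IsCube k σ ∧ ((∀ u, σ u ∈ A) ∨ Degen k σ)})
    (fun σ => and_congr (H02.isCube_iff hg σ k)
      (or_congr (H02.inv_iff hA σ) (H02.degen_iff hg σ k))) hc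

/-- If `t c` is zero relative to `A` then `c` is, up to a chain of `A`, killed by `t` modulo
degenerate chains. -/
theorem TOp.split (ht : TOp g t) {A₁ A₂ : Set X} (h1 : Inv g A₁)
    (h2 : Inv g A₂) {k : ℤ} {c : Ch R X} (hc : c ∈ C R k Set.univ)
    (h : t c ∈ Q R k A₁ ⊔ Q R k A₂) :
    ∃ c₁ ∈ C R k A₁, ∃ c₂ ∈ C R k A₂, t (c - c₁ - c₂) ∈ Q R k ∅ := by
  classical
  let P1 : C(Cb, X) → Prop := fun σ => ∀ u, σ u ∈ A₁
  let P2 : C(Cb, X) → Prop := fun σ => (∀ u, σ u ∈ A₂) ∧ ¬ ∀ u, σ u ∈ A₁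
  have i1 : ∀ σ, P1 (g.comp σ) ↔ P1 σ := fun σ => H02.inv_iff h1 σ
  have i2 : ∀ σ, P2 (g.comp σ) ↔ P2 σ := fun σ =>
    and_congr (H02.inv_iff h2 σ) (not_congr (H02.inv_iff h1 σ))
  have hcube : ∀ σ, c σ ≠ 0 → IsCube k σ := fun σ hσ =>
    (hc (Finset.mem_coe.2 (Finsupp.mem_support_iff.2 hσ))).1
  refine ⟨c.filter P1, ?_, c.filter P2, ?_, ?_⟩
  · refine (Finsupp.mem_supported R _).2 fun σ hσ => ?_
    rw [Finset.mem_coe, Finsupp.support_filter, Finset.mem_filter, Finsupp.mem_support_iff] at hσ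
    exact ⟨hcube σ hσ.1, hσ.2⟩
  · refine (Finsupp.mem_supported R _).2 fun σ hσ => ?_
    rw [Finset.mem_coe, Finsupp.support_filter, Finset.mem_filter, Finsupp.mem_support_iff] at hσ
    exact ⟨hcube σ hσ.1, hσ.2.1⟩
  · rw [map_sub, map_sub, ht.filt P1 i1, ht.filt P2 i2]
    unfold Q at h
    rw [← Finsupp.supported_union] at h
    refine (Finsupp.mem_supported R _).2 fun σ hσ => ?_
    rw [Finset.mem_coe, Finsupp.mem_support_iff, Finsupp.sub_apply, Finsupp.sub_apply,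
      Finsupp.filter_apply, Finsupp.filter_apply] at hσ
    have h3 : t c σ ≠ 0 := by
      intro h0
      rw [h0, ite_self, ite_self, sub_zero, sub_zero] at hσ
      exact hσ rfl
    have n1 : ¬ P1 σ := by
      intro h0
      have n2 : ¬ P2 σ := fun h4 => h4.2 h0
      rw [if_pos h0, if_neg n2, sub_zero, sub_self] at hσ
      exact hσ rfl
    have n2 : ¬ P2 σ := by
      intro h0
      rw [if_neg n1, if_pos h0, sub_zero, sub_self] at hσ
      exact hσ rfl
    rcases h (Finset.mem_coe.2 (Finsupp.mem_support_iff.2 h3)) with ⟨h4, h5⟩ | ⟨h4, h5⟩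
    · exact ⟨h4, Or.inr (h5.resolve_left n1)⟩
    · exact ⟨h4, Or.inr (h5.resolve_left fun h6 => n2 ⟨h6, n1⟩)⟩

theorem TOp.split_one (ht : TOp g t) {A : Set X} (hA : Inv g A)
    {k : ℤ} {c : Ch R X} (hc : c ∈ C R k Set.univ) (h : t c ∈ Q R k A) :
    ∃ c₁ ∈ C R k A, t (c - c₁) ∈ Q R k ∅ := by
  obtain ⟨c₁, h1, c₂, h2, h3⟩ := ht.split hA hA hc (le_sup_left (a := Q R k A) h)
  refine ⟨c₁ + c₂, Submodule.add_mem _ h1 h2, ?_⟩
  rwa [← sub_sub]

end Basic

end Pool.Agent.TCH
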