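import Pool.Agent.Lib.TC.HMV

/-!
# Homology library, HR07
-/

namespace Pool.Agent.TCH

open CubeHom

namespace H07

section

variable {X : Type*} [TopologicalSpace X] {g : C(X, X)} {p : ℕ}

theorem inj (hp : 0 < p) (hg : ∀ x, (g^[p]) x = x) : Function.Injective g := by
  obtain ⟨q, rfl⟩ : ∃ q, p = q + 1 := ⟨p - 1, by omega⟩
  intro x y hxy
  rw [← hg x, ← hg y, Function.iterate_succ_apply, Function.iterate_succ_apply, hxy]

theorem mem_orb {κ : Set X} {x : X} : x ∈ orb g p κ ↔ ∃ j < p, ∃ y ∈ κ, (g^[j]) y = x := by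
  simp only [orb, Set.mem_iUnion, Finset.mem_range, Set.mem_image, exists_prop]

theorem orb_step (hp : 0 < p) (hg : ∀ x, (g^[p]) x = x) {κ : Set X} {x : X}
    (h : x ∈ orb g p κ) : g x ∈ orb g p κ := by
  obtain ⟨j, hj, y, hy, rfl⟩ := mem_orb.1 h
  rw [mem_orb]
  rcases Nat.lt_or_ge (j + 1) p with h1 | h1
  · exact ⟨j + 1, h1, y, hy, Function.iterate_succ_apply' _ _ _⟩
  · refine ⟨0, hp, y, hy, ?_⟩
    have h2 : p = j + 1 := by omega
    have e := hg y
    rw [h2] at e
    rw [← Function.iterate_succ_apply' (f := (g : X → X)), e]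
    rfl

theorem orb_inv (hp : 0 < p) (hg : ∀ x, (g^[p]) x = x) (κ : Set X) : Inv g (orb g p κ) := by
  intro x
  refine ⟨fun h => ?_, orb_step hp hg⟩
  have h1 : ∀ m : ℕ, (g^[m]) (g x) ∈ orb g p κ := by
    intro m
    induction m with
    | zero => exact h
    | succ m ih =>
      rw [Function.iterate_succ_apply']
      exact orb_step hp hg ih
  have h2 := h1 (p - 1)
  rw [← Function.iterate_succ_apply (f := (g : X → X))] at h2
  have h3 : (p - 1).succ = p := by omega
  rwa [h3, hg] at h2

theorem orb_compact {κ : Set X} (h : IsCompact κ) : IsCompact (orb g p κ) :=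
  (Finset.range p).isCompact_biUnion fun j _ => h.image (g.continuous.iterate j)

theorem orb_inter_le (hi : Function.Injective g) {W κ κ' : Set X} (hW : Moved g p W)
    (h : κ ⊆ W) (h' : κ' ⊆ W) : orb g p κ ∩ orb g p κ' ⊆ orb g p (κ ∩ κ') := by
  rintro x ⟨hx, hx'⟩
  obtain ⟨j, hj, y, hy, rfl⟩ := mem_orb.1 hx
  obtain ⟨l, hl, z, hz, hyz⟩ := mem_orb.1 hx'
  rw [mem_orb]
  have hmove : ∀ (m : ℕ) (a b : X), 0 < m → m < p → a ∈ W → b ∈ W → (g^[m]) b ≠ a := by
    intro m a b hm hmp ha hb hab
    exact Set.disjoint_left.1 (hW m hm hmp) ha ⟨b, hb, hab⟩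
  rcases lt_trichotomy j l with h1 | h1 | h1
  · exfalso
    have e : l = j + (l - j) := by omega
    rw [e, Function.iterate_add_apply] at hyz
    exact hmove (l - j) y z (by omega) (by omega) (h hy) (h' hz) (hi.iterate j hyz)
  · subst h1
    have e := hi.iterate j hyz
    subst e
    exact ⟨j, hj, z, ⟨hy, hz⟩, rfl⟩
  · exfalso
    have e : j = l + (j - l) := by omega
    rw [e, Function.iterate_add_apply] at hyz
    exact hmove (j - l) z y (by omega) (by omega) (h' hz) (h hy) (hi.iterate l hyz.symm)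

theorem inChart_inter {n : ℕ} {S : Set X} (φ : S ≃ₜ (Fin n → ℝ)) (B B' : Set (Fin n → ℝ)) :
    inChart φ B ∩ inChart φ B' = inChart φ (B ∩ B') := by
  have hinj : Function.Injective fun x => (φ.symm x : X) :=
    Subtype.val_injective.comp φ.symm.injective
  exact (Set.image_inter hinj).symm

theorem inChart_compact {n : ℕ} {S : Set X} (φ : S ≃ₜ (Fin n → ℝ)) {B : Set (Fin n → ℝ)}
    (hB : IsCompact B) : IsCompact (inChart φ B) :=
  hB.image (continuous_subtype_val.comp φ.symm.continuous)

theorem orb_mono {κ κ' : Set X} (h : κ ⊆ κ') : orb g p κ ⊆ orb g p κ' := by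
  intro x hx
  obtain ⟨j, hj, y, hy, rfl⟩ := mem_orb.1 hx
  exact mem_orb.2 ⟨j, hj, y, h hy, rfl⟩

end

end H07

section Equivariant

variable {R : Type*} [CommRing R] {X : Type*} [TopologicalSpace X] [T2Space X] {g : C(X, X)}
  {t : Module.End R (Ch R X)} {n p : ℕ}

/-- The base property: the vanishing holds for the orbits of the compact convex subsets of the
charts which are contained in an open set moved by `g`. -/
def VanBase (g : C(X, X)) (p : ℕ) (t : Module.End R (Ch R X)) (n : ℕ) : Prop :=
  ∀ (S W : Set X) (φ : S ≃ₜ (Fin n → ℝ)) (B : Set (Fin n → ℝ)), IsOpen S → IsOpen W →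
    Moved g p W → IsCompact B → Convex ℝ B → inChart φ B ⊆ W → VanT t n (orb g p (inChart φ B))

/-- Finite unions of orbits of convex sets. -/
theorem van_finite (ht : TOp g t) (hp : 0 < p) (hg : ∀ x, (g^[p]) x = x)
    (hb : VanBase g p t n) {S W : Set X} (φ : S ≃ₜ (Fin n → ℝ)) (oS : IsOpen S) (oW : IsOpen W)
    (hW : Moved g p W) {ι : Type} (s : Finset ι) (B : ι → Set (Fin n → ℝ))
    (h1 : ∀ i ∈ s, IsCompact (B i)) (h2 : ∀ i ∈ s, Convex ℝ (B i))
    (h3 : ∀ i ∈ s, inChart φ (B i) ⊆ W) :
    VanT t n (⋃ i ∈ s, orb g p (inChart φ (B i))) := by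
  classical
  have hi := H07.inj hp hg
  induction s using Finset.induction_on generalizing B with
  | empty =>
    have e : (⋃ i ∈ (∅ : Finset ι), orb g p (inChart φ (B i))) = ∅ := by simp
    rw [e]
    exact VanT.empty ht hi n
  | insert a s ha ih =>
    have h1s : ∀ i ∈ s, IsCompact (B i) := fun i hi => h1 i (Finset.mem_insert_of_mem hi)
    have h2s : ∀ i ∈ s, Convex ℝ (B i) := fun i hi => h2 i (Finset.mem_insert_of_mem hi)
    have h3s : ∀ i ∈ s, inChart φ (B i) ⊆ W := fun i hi => h3 i (Finset.mem_insert_of_mem hi)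
    have h1a := h1 a (Finset.mem_insert_self a s)
    have h3a := h3 a (Finset.mem_insert_self a s)
    rw [Finset.set_biUnion_insert]
    refine VanT.union ht hi
      (H07.orb_compact (H07.inChart_compact φ h1a)).isClosed
      (isClosed_biUnion_finset fun i his =>
        (H07.orb_compact (H07.inChart_compact φ (h1s i his))).isClosed)
      (H07.orb_inv hp hg _) ?_
      (hb S W φ (B a) oS oW hW h1a (h2 a (Finset.mem_insert_self a s)) h3a)
      (ih B h1s h2s h3s) ?_
    · intro x
      simp only [Set.mem_iUnion]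
      exact exists_congr fun i => exists_congr fun _ => H07.orb_inv hp hg _ x
    · have e : orb g p (inChart φ (B a)) ∩ ⋃ i ∈ s, orb g p (inChart φ (B i)) =
          ⋃ i ∈ s, orb g p (inChart φ (B a ∩ B i)) := by
        rw [Set.inter_iUnion₂]
        refine Set.iUnion₂_congr fun i his => ?_
        apply Set.Subset.antisymm
        · rw [← H07.inChart_inter]
          exact H07.orb_inter_le hi hW h3a (h3s i his)
        · rw [← H07.inChart_inter]
          exact Set.subset_inter (H07.orb_mono Set.inter_subset_left)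
            (H07.orb_mono Set.inter_subset_right)
      rw [e]
      refine ih (fun i => B a ∩ B i) (fun i his => h1a.inter (h1s i his))
        (fun i his => (h2 a (Finset.mem_insert_self a s)).inter (h2s i his)) fun i his => ?_
      rw [← H07.inChart_inter]
      exact Set.inter_subset_left.trans h3a

end Equivariant

end Pool.Agent.TCH
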