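import Pool.Agent.Lib.TC.HR07

/-!
# Homology library, HR08
-/

namespace Pool.Agent.TCH

open CubeHom

-- H08 (helper92). Place `namespace H08` block before `section Equivariant` of HVan.lean; then the theorem replaces `van_chart`.

/-! ### Supports and boxes -/

namespace H08

variable {R : Type*} [CommRing R] {X : Type*} [TopologicalSpace X]

/-- A chain which is zero relative to `A` is zero relative to a compact subset of `A`. -/
theorem exists_compact_Q {k : ℤ} {A : Set X} {q : Ch R X} (hq : q ∈ Q R k A) :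
    ∃ P : Set X, IsCompact P ∧ P ⊆ A ∧ q ∈ Q R k P := by
  classical
  have hq' : ∀ σ ∈ q.support, IsCube k σ ∧ ((∀ u, σ u ∈ A) ∨ Degen k σ) := by
    intro σ hσ
    exact (Finsupp.mem_supported R q).1 hq hσ
  refine ⟨⋃ σ ∈ q.support.filter (fun σ => ¬ Degen k σ), Set.range σ, ?_, ?_, ?_⟩
  · exact Finset.isCompact_biUnion _ fun σ _ => isCompact_range σ.continuous
  · intro x hx
    simp only [Set.mem_iUnion, Finset.mem_filter, Set.mem_range] at hx
    obtain ⟨σ, ⟨hσ, hd⟩, u, rfl⟩ := hx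
    exact ((hq' σ hσ).2.resolve_right hd) u
  · refine (Finsupp.mem_supported R q).2 fun σ hσ => ?_
    refine ⟨(hq' σ hσ).1, ?_⟩
    by_cases hd : Degen k σ
    · exact Or.inr hd
    · refine Or.inl fun u => ?_
      simp only [Set.mem_iUnion, Finset.mem_filter, Set.mem_range]
      exact ⟨σ, ⟨hσ, hd⟩, u, rfl⟩

/-- A compact subset of a chart is covered by finitely many small compact convex sets of the
chart. -/
theorem exists_boxes {n : ℕ} {S : Set X} (φ : S ≃ₜ (Fin n → ℝ)) {K U : Set X} (hK : IsCompact K)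
    (hU : IsOpen U) (hKU : K ⊆ U) (hKS : K ⊆ S) :
    ∃ (s : Finset (Fin n → ℝ)) (B : (Fin n → ℝ) → Set (Fin n → ℝ)),
      (∀ i ∈ s, IsCompact (B i)) ∧ (∀ i ∈ s, Convex ℝ (B i)) ∧
      (∀ i ∈ s, inChart φ (B i) ⊆ U) ∧ K ⊆ ⋃ i ∈ s, inChart φ (B i) := by
  classical
  obtain ⟨ψ, hψ⟩ : ∃ ψ : (Fin n → ℝ) → X, ψ = fun x => ((φ.symm x : S) : X) := ⟨_, rfl⟩
  have hψc : Continuous ψ := by
    rw [hψ]
    exact continuous_subtype_val.comp φ.symm.continuous
  -- the compact set in coordinates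
  have hK0 : IsCompact (ψ ⁻¹' K) := by
    have h1 : IsCompact ((fun x : S => (x : X)) ⁻¹' K) := by
      rw [Subtype.isCompact_iff]
      rw [Subtype.image_preimage_coe, Set.inter_eq_right.2 hKS]
      exact hK
    have h2 : ψ ⁻¹' K = φ '' ((fun x : S => (x : X)) ⁻¹' K) := by
      ext x
      rw [hψ]
      constructor
      · intro hx
        exact ⟨φ.symm x, hx, φ.apply_symm_apply x⟩
      · rintro ⟨y, hy, rfl⟩
        change ((φ.symm (φ y) : S) : X) ∈ K
        rw [φ.symm_apply_apply]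
        exact hy
    rw [h2]
    exact h1.image φ.continuous
  have hr : ∀ a ∈ ψ ⁻¹' K, ∃ r : ℝ, 0 < r ∧ Metric.closedBall a r ⊆ ψ ⁻¹' U := by
    intro a ha
    have h1 : ψ ⁻¹' U ∈ nhds a := (hU.preimage hψc).mem_nhds (hKU ha)
    exact Metric.nhds_basis_closedBall.mem_iff.1 h1
  choose! r hr0 hr1 using hr
  obtain ⟨s, hs, hcov⟩ := hK0.elim_nhds_subcover (fun a => Metric.closedBall a (r a))
    (fun a ha => Metric.closedBall_mem_nhds a (hr0 a ha))
  refine ⟨s, fun a => Metric.closedBall a (r a), fun i _ => isCompact_closedBall _ _,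
    fun i _ => convex_closedBall _ _, ?_, ?_⟩
  · intro a ha
    rintro _ ⟨x, hx, rfl⟩
    have := hr1 a (hs a ha) hx
    rw [hψ] at this
    exact this
  · intro x hx
    have h1 : φ ⟨x, hKS hx⟩ ∈ ψ ⁻¹' K := by
      rw [hψ]
      change ((φ.symm (φ ⟨x, hKS hx⟩) : S) : X) ∈ K
      rw [φ.symm_apply_apply]
      exact hx
    have h2 := hcov h1
    simp only [Set.mem_iUnion] at h2 ⊢
    obtain ⟨a, ha, h3⟩ := h2
    refine ⟨a, ha, φ ⟨x, hKS hx⟩, h3, ?_⟩
    change ((φ.symm (φ ⟨x, hKS hx⟩) : S) : X) = x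
    rw [φ.symm_apply_apply]

/-! ### Orbits -/

variable {g : C(X, X)} {p : ℕ}

theorem injective_of_iterate (hp : 0 < p) (hg : ∀ x, (g^[p]) x = x) : Function.Injective g := by
  intro x y h
  obtain ⟨q, rfl⟩ : ∃ q, p = q + 1 := ⟨p - 1, by omega⟩
  have h1 := hg x
  have h2 := hg y
  rw [Function.iterate_succ_apply] at h1 h2
  rw [← h1, ← h2, h]

theorem mem_orb {κ : Set X} {x : X} : x ∈ orb g p κ ↔ ∃ j < p, ∃ y ∈ κ, (g^[j]) y = x := by
  unfold orb
  simp only [Set.mem_iUnion, Finset.mem_range, Set.mem_image, exists_prop]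

theorem orb_mono {κ κ' : Set X} (h : κ ⊆ κ') : orb g p κ ⊆ orb g p κ' := by
  intro x hx
  rw [mem_orb] at hx ⊢
  obtain ⟨j, hj, y, hy, rfl⟩ := hx
  exact ⟨j, hj, y, h hy, rfl⟩

theorem inv_orb (hp : 0 < p) (hg : ∀ x, (g^[p]) x = x) (κ : Set X) : Inv g (orb g p κ) := by
  intro x
  rw [mem_orb, mem_orb]
  constructor
  · rintro ⟨j, hj, y, hy, h⟩
    rcases Nat.eq_zero_or_pos j with rfl | hj0
    · refine ⟨p - 1, by omega, y, hy, ?_⟩
      rw [Function.iterate_zero, id] at h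
      apply injective_of_iterate hp hg
      have e : g ((g^[p - 1]) y) = (g^[p]) y := by
        rw [← Function.iterate_succ_apply' g (p - 1) y, Nat.succ_eq_add_one,
          Nat.sub_one_add_one hp.ne']
      rw [e, hg, h]
    · refine ⟨j - 1, by omega, y, hy, ?_⟩
      apply injective_of_iterate hp hg
      have e : g ((g^[j - 1]) y) = (g^[j]) y := by
        rw [← Function.iterate_succ_apply' g (j - 1) y, Nat.succ_eq_add_one,
          Nat.sub_one_add_one hj0.ne']
      rw [e, h]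
  · rintro ⟨j, hj, y, hy, rfl⟩
    rcases Nat.lt_or_ge (j + 1) p with h | h
    · exact ⟨j + 1, h, y, hy, Function.iterate_succ_apply' g j y⟩
    · refine ⟨0, hp, y, hy, ?_⟩
      have e : g ((g^[j]) y) = (g^[p]) y := by
        rw [← Function.iterate_succ_apply' g j y, Nat.succ_eq_add_one, show j + 1 = p by omega]
      rw [e, hg]
      rfl

theorem inv_iterate {A : Set X} (hA : Inv g A) (j : ℕ) (x : X) : (g^[j]) x ∈ A ↔ x ∈ A := by
  induction j generalizing x with
  | zero => rfl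
  | succ j ih => rw [Function.iterate_succ_apply, ih, hA]

theorem inv_compl {A : Set X} (hA : Inv g A) : Inv g Aᶜ := fun x => not_congr (hA x)

theorem compact_orb {κ : Set X} (hκ : IsCompact κ) : IsCompact (orb g p κ) :=
  Finset.isCompact_biUnion _ fun j _ => hκ.image (g.continuous.iterate j)

/-- The intersection of an orbit with an invariant set. -/
theorem inter_orb {L : Set X} (hL : Inv g L) (κ : Set X) :
    L ∩ orb g p κ = orb g p (L ∩ κ) := by
  ext x
  rw [Set.mem_inter_iff, mem_orb, mem_orb]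
  constructor
  · rintro ⟨hx, j, hj, y, hy, rfl⟩
    exact ⟨j, hj, y, ⟨(inv_iterate hL j y).1 hx, hy⟩, rfl⟩
  · rintro ⟨j, hj, y, ⟨hyL, hy⟩, rfl⟩
    exact ⟨(inv_iterate hL j y).2 hyL, j, hj, y, hy, rfl⟩

theorem orb_biUnion {ι : Type*} (s : Finset ι) (κ : ι → Set X) :
    orb g p (⋃ i ∈ s, κ i) = ⋃ i ∈ s, orb g p (κ i) := by
  ext x
  simp only [mem_orb, Set.mem_iUnion]
  constructor
  · rintro ⟨j, hj, y, ⟨i, hi, hy⟩, h⟩
    exact ⟨i, hi, j, hj, y, hy, h⟩
  · rintro ⟨i, hi, j, hj, y, hy, h⟩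
    exact ⟨j, hj, y, ⟨i, hi, hy⟩, h⟩

theorem orb_eq_self (hp : 0 < p) {K : Set X} (hK : Inv g K) : orb g p K = K := by
  ext x
  rw [mem_orb]
  constructor
  · rintro ⟨j, hj, y, hy, rfl⟩
    exact (inv_iterate hK j y).2 hy
  · intro hx
    exact ⟨0, hp, x, hx, rfl⟩

end H08

section Equivariant

variable {R : Type*} [CommRing R] {X : Type*} [TopologicalSpace X] [T2Space X] {g : C(X, X)}
  {t : Module.End R (Ch R X)} {n p : ℕ}


-- in section Equivariant:

/-- Orbits of compact subsets of a moved chart. -/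
theorem van_chart (ht : TOp g t) (hp : 0 < p) (hg : ∀ x, (g^[p]) x = x)
    (hb : VanBase g p t n) {S W : Set X} (φ : S ≃ₜ (Fin n → ℝ)) (oS : IsOpen S) (oW : IsOpen W)
    (hW : Moved g p W) {K : Set X} (hK : IsCompact K) (hKS : K ⊆ S) (hKW : K ⊆ W) :
    VanT t n (orb g p K) := by
  intro k hk c hc
  obtain ⟨P, hP, hPA, hPQ⟩ := H08.exists_compact_Q hc.2
  -- the neighbourhood of `K`
  obtain ⟨O, hO⟩ : ∃ O : Set X, O = ⋂ j ∈ Finset.range p, (g^[j]) ⁻¹' Pᶜ := ⟨_, rfl⟩
  have oO : IsOpen O := by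
    rw [hO]
    exact isOpen_biInter_finset fun j _ =>
      hP.isClosed.isOpen_compl.preimage (g.continuous.iterate j)
  have hKO : K ⊆ O := by
    intro x hx
    rw [hO]
    simp only [Set.mem_iInter, Finset.mem_range, Set.mem_preimage]
    intro j hj hjP
    exact hPA hjP (H08.mem_orb.2 ⟨j, hj, x, hx, rfl⟩)
  obtain ⟨s, B, hB1, hB2, hB3, hB4⟩ := H08.exists_boxes φ hK (oW.inter oO)
    (Set.subset_inter hKW hKO) hKS
  have hv := van_finite ht hp hg hb φ oS oW hW s B hB1 hB2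
    (fun i hi => (hB3 i hi).trans Set.inter_subset_left)
  rw [← H08.orb_biUnion] at hv
  obtain ⟨K', hK'⟩ : ∃ K' : Set X, K' = ⋃ i ∈ s, inChart φ (B i) := ⟨_, rfl⟩
  rw [← hK'] at hv
  have hK'O : K' ⊆ O := by
    rw [hK']
    refine Set.iUnion₂_subset fun i hi => (hB3 i hi).trans Set.inter_subset_right
  have hPK : P ⊆ (orb g p K')ᶜ := by
    intro y hy hy'
    rw [H08.mem_orb] at hy'
    obtain ⟨j, hj, x, hx, rfl⟩ := hy'
    have h1 := hK'O hx
    rw [hO] at h1
    simp only [Set.mem_iInter, Finset.mem_range, Set.mem_preimage] at h1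
    exact h1 j hj hy
  have h1 : BT t k Set.univ (orb g p K')ᶜ c := hv k hk c ⟨hc.1, Q_mono _ hPK hPQ⟩
  refine h1.mono subset_rfl (Set.compl_subset_compl.2 (H08.orb_mono ?_))
  rw [hK']
  exact hB4

end Equivariant

end Pool.Agent.TCH
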