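import Pool.Agent.Lib.TC.HR08

/-!
# Homology library, HR09
-/

namespace Pool.Agent.TCH

open CubeHom

variable {R : Type*} [CommRing R] {X : Type*} [TopologicalSpace X] [T2Space X] {g : C(X, X)}
  {t : Module.End R (Ch R X)} {n p : ℕ}

-- H09 (helper92). Uses the lemmas of `namespace H08` (tc_H08.lean). In section Equivariant; replaces `van_moved`.

/-- **Vanishing**, equivariant form: invariant compact sets all of whose points have a moved
neighbourhood. -/
theorem van_moved (ht : TOp g t) (hp : 0 < p) (hg : ∀ x, (g^[p]) x = x)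
    (hX : LocEuc n X) (hb : VanBase g p t n) {K : Set X} (hK : IsCompact K) (iK : Inv g K)
    (hm : ∀ x ∈ K, ∃ W, IsOpen W ∧ x ∈ W ∧ Moved g p W) : VanT t n K := by
  classical
  have hinj := H08.injective_of_iterate hp hg
  choose! W hW1 hW2 hW3 using hm
  choose S hS1 hS2 φ using hX
  obtain ⟨s, hs, hcov⟩ := hK.elim_nhds_subcover (fun x => S x ∩ W x)
    (fun x hx => ((hS1 x).inter (hW1 x hx)).mem_nhds ⟨hS2 x, hW2 x hx⟩)
  obtain ⟨κ, hκ1, hκ2, hκ3⟩ := hK.finite_compact_cover s (fun x => S x ∩ W x)
    (fun x hx => (hS1 x).inter (hW1 x (hs x hx))) hcov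
  have key : ∀ s' : Finset X, s' ⊆ s → VanT t n (⋃ i ∈ s', orb g p (κ i)) := by
    intro s'
    induction s' using Finset.induction_on with
    | empty =>
      intro _
      simpa using VanT.empty ht hinj n
    | insert i s' hi ih =>
      intro hsub
      rw [Finset.set_biUnion_insert, Set.union_comm]
      have his : i ∈ s := hsub (Finset.mem_insert_self _ _)
      have hL : Inv g (⋃ j ∈ s', orb g p (κ j)) := by
        rw [← H08.orb_biUnion]
        exact H08.inv_orb hp hg _
      have hLc : IsClosed (⋃ j ∈ s', orb g p (κ j)) := by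
        rw [← H08.orb_biUnion]
        exact (H08.compact_orb (Finset.isCompact_biUnion _ fun j _ => hκ1 j)).isClosed
      obtain ⟨ψ⟩ := φ i
      refine VanT.union ht hinj hLc (H08.compact_orb (hκ1 i)).isClosed hL (H08.inv_orb hp hg _)
        (ih ((Finset.subset_insert _ _).trans hsub)) ?_ ?_
      · exact van_chart ht hp hg hb ψ (hS1 i) (hW1 i (hs i his)) (hW3 i (hs i his)) (hκ1 i)
          ((hκ2 i).trans Set.inter_subset_left) ((hκ2 i).trans Set.inter_subset_right)
      · rw [H08.inter_orb hL]
        exact van_chart ht hp hg hb ψ (hS1 i) (hW1 i (hs i his)) (hW3 i (hs i his))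
          ((hκ1 i).inter_left hLc)
          (Set.inter_subset_right.trans ((hκ2 i).trans Set.inter_subset_left))
          (Set.inter_subset_right.trans ((hκ2 i).trans Set.inter_subset_right))
  have h1 := key s subset_rfl
  rwa [← H08.orb_biUnion, ← hκ3, H08.orb_eq_self hp iK] at h1

end Pool.Agent.TCH
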