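import Pool.Agent.Lib.TC.HR09

/-!
# Homology library, HR10
-/

namespace Pool.Agent.TCH

open CubeHom

variable {R : Type*} [CommRing R] {X : Type*} [TopologicalSpace X] [T2Space X] {n : ℕ}

-- row H10: paste in section Plain of HVan.lean in place of the three sorried theorems

theorem vanBase_one : VanBase (ContinuousMap.id X) 1 (1 : Module.End R (Ch R X)) n := by
  intro S W φ B oS oW hW hB hc hBW
  have horb : orb (ContinuousMap.id X) 1 (inChart φ B) = inChart φ B := by
    unfold orb
    simp
  rw [horb]
  rcases B.eq_empty_or_nonempty with rfl | hne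
  · have : inChart φ (∅ : Set (Fin n → ℝ)) = ∅ := by
      unfold inChart
      rw [Set.image_empty]
    rw [this]
    exact VanT.empty TOp.one Function.injective_id n
  · intro k hk c hz
    rw [ZT_one] at hz
    rw [BT_one]
    exact loc_vanish oS φ hB hc hne (by omega) hz

/-- **VAN (i).** -/
theorem van_above (hX : LocEuc n X) {K : Set X} (hK : IsCompact K) {k : ℤ} (hk : (n : ℤ) < k)
    {w : Ch R X} (hw : w ∈ Z R k Set.univ Kᶜ) : Bd R k Set.univ Kᶜ w := by
  have h : VanT (1 : Module.End R (Ch R X)) n K := by
    refine van_moved (g := ContinuousMap.id X) (p := 1) TOp.one one_pos (fun x => rfl) hX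
      vanBase_one hK (fun x => Iff.rfl) fun x _ => ⟨Set.univ, isOpen_univ, Set.mem_univ _, ?_⟩
    intro j h1 h2
    omega
  exact BT_one.1 (h k hk w (ZT_one.2 hw))

theorem van_above_compact [CompactSpace X] (hX : LocEuc n X) {k : ℤ} (hk : (n : ℤ) < k)
    {w : Ch R X} (hw : w ∈ Z R k Set.univ ∅) : Bd R k Set.univ ∅ w := by
  have := van_above hX (K := (Set.univ : Set X)) isCompact_univ hk (w := w) (R := R)
  rw [Set.compl_univ] at this
  exact this hw

end Pool.Agent.TCH
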