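import Pool.Agent.Lib.TC.HR10

/-!
# Homology library, HR11
-/

namespace Pool.Agent.TCH

open CubeHom

variable {R : Type*} [CommRing R] {X : Type*} [TopologicalSpace X] [T2Space X] {n : ℕ}

-- H11 (helper92). In section Plain of HVan.lean, after van_above; uses H08.exists_compact_Q, H08.exists_boxes (tc_H08.lean). Replaces `van_top`.

namespace H11

variable {R : Type*} [CommRing R] {X : Type*} [TopologicalSpace X] {n : ℕ}

/-- A class of degree `n` relative to the complement of `K` which is zero at all points of `K` is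
zero. -/
def Top (R : Type*) [CommRing R] {X : Type*} [TopologicalSpace X] (n : ℕ) (K : Set X) : Prop :=
  ∀ w ∈ Z R n Set.univ Kᶜ, (∀ x ∈ K, Bd R n Set.univ {x}ᶜ w) → Bd R n Set.univ Kᶜ w

/-- The set of points at which a chain bounds is open. -/
theorem isOpen_zero [T2Space X] (k : ℤ) (w : Ch R X) : IsOpen {y : X | Bd R k Set.univ {y}ᶜ w} := by
  rw [isOpen_iff_forall_mem_open]
  rintro y ⟨b, hb, h⟩
  obtain ⟨P, hP, hPy, hPQ⟩ := H08.exists_compact_Q h
  refine ⟨Pᶜ, ?_, hP.isClosed.isOpen_compl, fun hy => hPy hy rfl⟩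
  intro y' hy'
  refine ⟨b, hb, Q_mono _ ?_ hPQ⟩
  intro z hz hzy
  rw [Set.mem_singleton_iff] at hzy
  subst hzy
  exact hy' hz

theorem Top.empty : Top R n (∅ : Set X) := by
  intro w hw _
  rw [Set.compl_empty]
  exact Bd.of_mem_C hw.1

theorem Top.union [T2Space X] (hX : LocEuc n X) {K₁ K₂ : Set X} (hK1 : IsCompact K₁)
    (hK2 : IsCompact K₂) (h1 : Top R n K₁) (h2 : Top R n K₂) : Top R n (K₁ ∪ K₂) := by
  intro w hw h
  rw [Set.compl_union, ← BT_one]
  refine mv_rel TOp.one Function.injective_id hK1.isClosed.isOpen_compl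
    hK2.isClosed.isOpen_compl (fun _ => Iff.rfl) (fun _ => Iff.rfl) ?_ hw.1 ?_ ?_
  · intro c hc
    rw [ZT_one] at hc
    rw [BT_one]
    rw [← Set.compl_inter] at hc ⊢
    exact van_above hX (hK1.inter hK2) (by omega) hc
  · rw [BT_one]
    exact h1 w (Z_mono subset_rfl (Set.compl_subset_compl.2 Set.subset_union_left) hw)
      fun x hx => h x (Or.inl hx)
  · rw [BT_one]
    exact h2 w (Z_mono subset_rfl (Set.compl_subset_compl.2 Set.subset_union_right) hw)
      fun x hx => h x (Or.inr hx)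

theorem Top.biUnion [T2Space X] (hX : LocEuc n X) {ι : Type*} (s : Finset ι) (K : ι → Set X)
    (hK : ∀ i ∈ s, IsCompact (K i)) (h : ∀ i ∈ s, Top R n (K i)) :
    Top R n (⋃ i ∈ s, K i) := by
  classical
  induction s using Finset.induction_on with
  | empty =>
    have e : (⋃ i ∈ (∅ : Finset ι), K i) = ∅ := by simp
    rw [e]
    exact Top.empty
  | insert i s hi ih =>
    rw [Finset.set_biUnion_insert]
    refine Top.union hX (hK i (Finset.mem_insert_self _ _))
      (s.isCompact_biUnion fun j hj => hK j (Finset.mem_insert_of_mem hj))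
      (h i (Finset.mem_insert_self _ _))
      (ih (fun j hj => hK j (Finset.mem_insert_of_mem hj))
        (fun j hj => h j (Finset.mem_insert_of_mem hj)))

/-- Rescaling a chart. -/
theorem rescale {S : Set X} (φ : S ≃ₜ (Fin n → ℝ)) {B : Set (Fin n → ℝ)} (hB : IsCompact B)
    (hc : Convex ℝ B) (hne : B.Nonempty) :
    ∃ (ψ : S ≃ₜ (Fin n → ℝ)) (B' : Set (Fin n → ℝ)), inChart ψ B' = inChart φ B ∧
      IsCompact B' ∧ Convex ℝ B' ∧ B'.Nonempty ∧ ∀ x ∈ B', ∀ i, -1 < x i ∧ x i < 1 := by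
  obtain ⟨r, hr0, hr⟩ := hB.isBounded.exists_pos_norm_le
  have ha : (r + 1)⁻¹ ≠ 0 := inv_ne_zero (by linarith)
  refine ⟨φ.trans (Homeomorph.smulOfNeZero (r + 1)⁻¹ ha), (fun x => (r + 1)⁻¹ • x) '' B, ?_, ?_,
    ?_, hne.image _, ?_⟩
  · unfold inChart
    rw [Set.image_image]
    refine Set.image_congr fun x _ => ?_
    have e : (φ.trans (Homeomorph.smulOfNeZero (r + 1)⁻¹ ha)).symm ((r + 1)⁻¹ • x) =
        φ.symm x := by
      rw [Homeomorph.symm_apply_eq]
      change (r + 1)⁻¹ • x = (r + 1)⁻¹ • φ (φ.symm x)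
      rw [φ.apply_symm_apply]
    rw [e]
  · exact hB.image (continuous_const_smul _)
  · exact hc.smul (r + 1)⁻¹
  · rintro _ ⟨x, hx, rfl⟩ i
    have h1 : |x i| ≤ r := by
      have := norm_le_pi_norm x i
      rw [Real.norm_eq_abs] at this
      exact this.trans (hr x hx)
    have h2 : |(r + 1)⁻¹ * x i| < 1 := by
      rw [abs_mul, abs_of_pos (inv_pos.2 (by linarith : (0 : ℝ) < r + 1)), inv_mul_lt_iff₀
        (by linarith)]
      linarith
    exact abs_lt.1 h2

/-- Compact convex sets of a chart. -/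
theorem top_box [T2Space X] {S : Set X} (oS : IsOpen S) (φ : S ≃ₜ (Fin n → ℝ))
    {B : Set (Fin n → ℝ)} (hB : IsCompact B) (hc : Convex ℝ B) : Top R n (inChart φ B) := by
  rcases B.eq_empty_or_nonempty with rfl | hne
  · have e : inChart φ ∅ = ∅ := Set.image_empty _
    rw [e]
    exact Top.empty
  obtain ⟨ψ, B', e, hB', hc', ⟨b, hb⟩, h1⟩ := rescale φ hB hc hne
  rw [← e]
  intro w hw h
  obtain ⟨r, hr⟩ := loc_gen oS ψ hB' hc' ⟨b, hb⟩ h1 hw
  have hx : ((ψ.symm b : S) : X) ∈ inChart ψ B' := ⟨b, hb, rfl⟩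
  have e1 : inChart ψ {b} = {((ψ.symm b : S) : X)} := Set.image_singleton
  have h2 : Bd R n Set.univ (inChart ψ {b})ᶜ (r • locCh R ψ) := by
    rw [e1]
    have h3 := h _ hx
    have h4 : Bd R n Set.univ {((ψ.symm b : S) : X)}ᶜ (w - r • locCh R ψ) :=
      hr.mono subset_rfl (Set.compl_subset_compl.2 (Set.singleton_subset_iff.2 hx))
    have h5 := h3.sub h4
    rwa [sub_sub_cancel] at h5
  have h3 := loc_free oS ψ isCompact_singleton (convex_singleton _) (Set.singleton_nonempty _)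
    (fun x hx => by
      rw [Set.mem_singleton_iff] at hx
      subst hx
      exact h1 _ hb) h2
  rwa [h3, zero_smul, sub_zero] at hr

/-- Compact sets in a chart. -/
theorem top_chart [T2Space X] (hX : LocEuc n X) {S : Set X} (oS : IsOpen S)
    (φ : S ≃ₜ (Fin n → ℝ)) {K : Set X} (hK : IsCompact K) (hKS : K ⊆ S) : Top R n K := by
  intro w hw h
  obtain ⟨P, hP, hPK, hPQ⟩ := H08.exists_compact_Q hw.2
  obtain ⟨s, B, hB1, hB2, hB3, hB4⟩ := H08.exists_boxes φ hK
    (hP.isClosed.isOpen_compl.inter (isOpen_zero (n : ℤ) w))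
    (Set.subset_inter (fun x hx hxP => hPK hxP hx) h) hKS
  have h1 : Top R n (⋃ i ∈ s, inChart φ (B i)) :=
    Top.biUnion hX s _
      (fun i hi => (hB1 i hi).image (continuous_subtype_val.comp φ.symm.continuous))
      fun i hi => top_box oS φ (hB1 i hi) (hB2 i hi)
  refine (h1 w ⟨hw.1, Q_mono _ ?_ hPQ⟩ ?_).mono subset_rfl (Set.compl_subset_compl.2 hB4)
  · intro x hxP hx
    simp only [Set.mem_iUnion] at hx
    obtain ⟨i, hi, hx⟩ := hx
    exact (hB3 i hi hx).1 hxP
  · intro x hx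
    simp only [Set.mem_iUnion] at hx
    obtain ⟨i, hi, hx⟩ := hx
    exact (hB3 i hi hx).2

end H11

/-- **VAN (ii).** -/
theorem van_top (hX : LocEuc n X) {K : Set X} (hK : IsCompact K)
    {w : Ch R X} (hw : w ∈ Z R n Set.univ Kᶜ) (h : ∀ x ∈ K, Bd R n Set.univ {x}ᶜ w) :
    Bd R n Set.univ Kᶜ w := by
  classical
  have hX' := hX
  choose S hS1 hS2 φ using hX'
  obtain ⟨s, hs, hcov⟩ := hK.elim_nhds_subcover S (fun x _ => (hS1 x).mem_nhds (hS2 x))
  obtain ⟨κ, hκ1, hκ2, hκ3⟩ := hK.finite_compact_cover s S (fun x _ => hS1 x) hcov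
  have h1 : H11.Top R n (⋃ i ∈ s, κ i) := by
    refine H11.Top.biUnion hX s κ (fun i _ => hκ1 i) fun i _ => ?_
    obtain ⟨ψ⟩ := φ i
    exact H11.top_chart hX (hS1 i) ψ (hκ1 i) (hκ2 i)
  rw [← hκ3] at h1
  exact h1 w hw h

end Pool.Agent.TCH
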