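import Pool.Agent.Lib.TC.HR11

/-!
# Homology library, HR12
-/

namespace Pool.Agent.TCH

open CubeHom

variable {R : Type*} [CommRing R] {X : Type*} [TopologicalSpace X] [T2Space X] {n : ℕ}

-- row H12: paste in section Plain of HVan.lean after van_top (van_locus before van_top_connected)

namespace H12

/-- A small closed box around a point. -/
theorem exists_box (hX : LocEuc n X) {K : Set X} (hK : IsClosed K) {x : X} (hx : x ∉ K) :
    ∃ (S : Set X) (φ : S ≃ₜ (Fin n → ℝ)) (ε : ℝ), IsOpen S ∧ 0 < ε ∧ ε < 1 ∧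
      x ∈ inChart φ (Metric.ball 0 ε) ∧ inChart φ (Metric.closedBall 0 ε) ⊆ Kᶜ := by
  obtain ⟨S, oS, hxS, φ, h0⟩ := Cq.exists_chart hX x
  have hx0 : Loc.chartMap φ 0 = x := by
    rw [← h0]
    exact congrArg Subtype.val (φ.symm_apply_apply _)
  have h1 : Loc.chartMap φ ⁻¹' Kᶜ ∈ nhds (0 : Fin n → ℝ) := by
    refine (hK.isOpen_compl.preimage (Loc.chartMap φ).continuous).mem_nhds ?_
    rw [Set.mem_preimage, hx0]
    exact hx
  obtain ⟨ε, hε, h2⟩ := Metric.nhds_basis_closedBall.mem_iff.1 h1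
  refine ⟨S, φ, min ε (1 / 2), oS, lt_min hε (by norm_num), ?_, ?_, ?_⟩
  · exact lt_of_le_of_lt (min_le_right _ _) (by norm_num)
  · exact ⟨0, Metric.mem_ball_self (lt_min hε (by norm_num)), hx0⟩
  · rintro _ ⟨v, hv, rfl⟩
    exact h2 (Metric.closedBall_subset_closedBall (min_le_left _ _) hv)

omit [T2Space X] in
theorem isOpen_inChart {S : Set X} (oS : IsOpen S) (φ : S ≃ₜ (Fin n → ℝ))
    {U : Set (Fin n → ℝ)} (hU : IsOpen U) : IsOpen (inChart φ U) :=
  (Loc.chartMap_openEmbedding oS φ).isOpenMap U hU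

end H12

open H12

/-- The vanishing locus of a relative cycle is open and closed. -/
theorem van_locus (hX : LocEuc n X) {K : Set X} (hK : IsClosed K) {w : Ch R X}
    (hw : w ∈ Z R n Set.univ K) {x : X} (hx : x ∉ K) :
    ∃ W, IsOpen W ∧ x ∈ W ∧ (∀ y ∈ W, y ∉ K) ∧
      ∀ y ∈ W, (Bd R n Set.univ {y}ᶜ w ↔ Bd R n Set.univ {x}ᶜ w) := by
  obtain ⟨S, φ, ε, oS, hε, hε1, hxb, hbK⟩ := exists_box hX hK hx
  have hsub : inChart φ (Metric.ball 0 ε) ⊆ inChart φ (Metric.closedBall 0 ε) :=
    Set.image_mono Metric.ball_subset_closedBall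
  have hbox : ∀ v ∈ Metric.closedBall (0 : Fin n → ℝ) ε, ∀ i, -1 < v i ∧ v i < 1 := by
    intro v hv i
    have h1 : |v i| ≤ ε := by
      have h2 := norm_le_pi_norm v i
      rw [mem_closedBall_zero_iff] at hv
      exact h2.trans hv
    rw [abs_le] at h1
    constructor <;> linarith
  have hne : (Metric.closedBall (0 : Fin n → ℝ) ε).Nonempty :=
    ⟨0, Metric.mem_closedBall_self hε.le⟩
  have hw' : w ∈ Z R n Set.univ (inChart φ (Metric.closedBall 0 ε))ᶜ :=
    Z_mono le_rfl (Set.subset_compl_comm.1 hbK) hw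
  obtain ⟨r, hr⟩ := loc_gen oS φ (isCompact_closedBall _ _) (convex_closedBall _ _) hne hbox hw'
  have key : ∀ y ∈ inChart φ (Metric.ball 0 ε), (Bd R n Set.univ {y}ᶜ w ↔ r = 0) := by
    intro y hy
    have h1 : Bd R n Set.univ {y}ᶜ (w - r • locCh R φ) := by
      refine hr.mono le_rfl ?_
      rw [Set.compl_subset_compl, Set.singleton_subset_iff]
      exact hsub hy
    constructor
    · intro h2
      have h3 : Bd R n Set.univ {y}ᶜ (r • locCh R φ) := by
        have h4 := h2.sub h1
        rwa [sub_sub_cancel] at h4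
      obtain ⟨v, hv, hvy⟩ := hy
      have h5 : inChart φ {v} = {y} := by
        unfold inChart
        rw [Set.image_singleton]
        exact congrArg _ hvy
      rw [← h5] at h3
      refine loc_free oS φ isCompact_singleton (convex_singleton v) (Set.singleton_nonempty v)
        ?_ h3
      rintro u rfl
      exact hbox _ (Metric.ball_subset_closedBall hv)
    · intro h2
      rw [h2, zero_smul, sub_zero] at h1
      exact h1
  refine ⟨inChart φ (Metric.ball 0 ε), isOpen_inChart oS φ Metric.isOpen_ball, hxb, ?_, ?_⟩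
  · intro y hy
    exact hbK (hsub hy)
  · intro y hy
    rw [key y hy, key x hxb]

/-- On a connected compact manifold a cycle of top degree which vanishes at one point bounds. -/
theorem van_top_connected [CompactSpace X] [ConnectedSpace X] (hX : LocEuc n X)
    {w : Ch R X} (hw : w ∈ Z R n Set.univ ∅) {x : X} (h : Bd R n Set.univ {x}ᶜ w) :
    Bd R n Set.univ ∅ w := by
  have hclopen : IsClopen {y : X | Bd R n Set.univ {y}ᶜ w} := by
    constructor
    · rw [← isOpen_compl_iff, isOpen_iff_forall_mem_open]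
      intro y hy
      obtain ⟨W, oW, hyW, -, h1⟩ := van_locus hX isClosed_empty hw (Set.notMem_empty y)
      exact ⟨W, fun z hz hz' => hy ((h1 z hz).1 hz'), oW, hyW⟩
    · rw [isOpen_iff_forall_mem_open]
      intro y hy
      obtain ⟨W, oW, hyW, -, h1⟩ := van_locus hX isClosed_empty hw (Set.notMem_empty y)
      exact ⟨W, fun z hz => (h1 z hz).2 hy, oW, hyW⟩
  have huniv : {y : X | Bd R n Set.univ {y}ᶜ w} = Set.univ :=
    hclopen.eq_univ ⟨x, h⟩
  have h1 := van_top hX (K := (Set.univ : Set X)) isCompact_univ (w := w) (R := R)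
  rw [Set.compl_univ] at h1
  exact h1 hw fun y _ => by
    have : y ∈ {y : X | Bd R n Set.univ {y}ᶜ w} := by
      rw [huniv]
      exact Set.mem_univ y
    exact this

end Pool.Agent.TCH
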