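import Pool.Agent.Lib.TC.HVan

/-!
# Homology library, HR13
-/

namespace Pool.Agent.TCH

open CubeHom

namespace H13

section Gen

variable {X : Type*} [TopologicalSpace X] {g : C(X, X)} {p : ℕ}

/-- The iterates as continuous maps. -/
noncomputable def itr (g : C(X, X)) (j : ℕ) : C(X, X) := ⟨g^[j], g.continuous.iterate j⟩

theorem itr_apply (j : ℕ) (x : X) : itr g j x = (g^[j]) x := rfl

theorem push_pow {R : Type*} [CommRing R] (j : ℕ) (c : Ch R X) :
    ((push g : Module.End R (Ch R X)) ^ j) c = push (itr g j) c := by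
  induction j generalizing c with
  | zero =>
    have h : itr g 0 = ContinuousMap.id X := by
      ext x
      rfl
    rw [h, push_id, pow_zero]
    rfl
  | succ j ih =>
    rw [pow_succ, Module.End.mul_apply, ih, push_push]
    congr 2

theorem inj (hp : 0 < p) (hg : ∀ x, (g^[p]) x = x) : Function.Injective g := by
  obtain ⟨m, rfl⟩ : ∃ m, p = m + 1 := ⟨p - 1, by omega⟩
  intro x y hxy
  have h := congrArg (g^[m]) hxy
  rwa [← Function.iterate_succ_apply, ← Function.iterate_succ_apply, hg, hg] at h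

theorem mem_orb {κ : Set X} {x : X} :
    x ∈ orb g p κ ↔ ∃ j, j < p ∧ ∃ y ∈ κ, (g^[j]) y = x := by
  simp only [orb, Set.mem_iUnion, Finset.mem_range, exists_prop]
  rfl

theorem subset_orb (hp : 0 < p) (κ : Set X) : κ ⊆ orb g p κ := fun x hx =>
  mem_orb.2 ⟨0, hp, x, hx, rfl⟩

theorem orb_fwd (hp : 0 < p) (hg : ∀ x, (g^[p]) x = x) {κ : Set X} {x : X}
    (hx : x ∈ orb g p κ) : g x ∈ orb g p κ := by
  obtain ⟨j, hj, y, hy, rfl⟩ := mem_orb.1 hx
  rw [← Function.iterate_succ_apply' g, Nat.succ_eq_add_one]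
  rcases Nat.lt_or_ge (j + 1) p with h | h
  · exact mem_orb.2 ⟨j + 1, h, y, hy, rfl⟩
  · have h1 : j + 1 = p := by omega
    rw [h1, hg]
    exact subset_orb hp κ hy

theorem inv_orb (hp : 0 < p) (hg : ∀ x, (g^[p]) x = x) (κ : Set X) : Inv g (orb g p κ) := by
  intro x
  refine ⟨fun h => ?_, orb_fwd hp hg⟩
  have h1 : ∀ m, (g^[m]) (g x) ∈ orb g p κ := by
    intro m
    induction m with
    | zero => exact h
    | succ m ih =>
      rw [Function.iterate_succ_apply']
      exact orb_fwd hp hg ih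
  obtain ⟨m, rfl⟩ : ∃ m, p = m + 1 := ⟨p - 1, by omega⟩
  have h2 := h1 m
  rwa [← Function.iterate_succ_apply, hg] at h2

theorem isOpen_image (hg : ∀ x, (g^[p]) x = x) {W : Set X} (hW : IsOpen W) {j : ℕ}
    (hj : j ≤ p) : IsOpen ((g^[j]) '' W) := by
  have h1 : Function.LeftInverse (g^[p - j]) (g^[j]) := by
    intro x
    rw [← Function.iterate_add_apply, Nat.sub_add_cancel hj, hg]
  have h2 : Function.RightInverse (g^[p - j]) (g^[j]) := by
    intro x
    rw [← Function.iterate_add_apply, Nat.add_sub_cancel' hj, hg]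
  rw [Set.image_eq_preimage_of_inverse h1 h2]
  exact hW.preimage (g.continuous.iterate _)

theorem isOpen_orb (hg : ∀ x, (g^[p]) x = x) {W : Set X} (hW : IsOpen W) :
    IsOpen (orb g p W) :=
  isOpen_biUnion fun _ hj => isOpen_image hg hW (Finset.mem_range.1 hj).le

theorem isCompact_orb {κ : Set X} (hκ : IsCompact κ) : IsCompact (orb g p κ) :=
  (Finset.range p).isCompact_biUnion fun j _ => hκ.image (g.continuous.iterate j)

theorem disj (hi : Function.Injective g) {W : Set X} (hW : Moved g p W) {j l : ℕ} (hjl : j < l)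
    (hl : l < p) : Disjoint ((g^[j]) '' W) ((g^[l]) '' W) := by
  rw [Set.disjoint_left]
  rintro _ ⟨x, hx, rfl⟩ ⟨y, hy, hxy⟩
  have h1 : (g^[j]) ((g^[l - j]) y) = (g^[j]) x := by
    rw [← Function.iterate_add_apply, Nat.add_sub_cancel' hjl.le, hxy]
  have h2 := hi.iterate j h1
  exact Set.disjoint_left.1 (hW (l - j) (by omega) (by omega)) hx ⟨y, hy, h2⟩

theorem disj' (hi : Function.Injective g) {W : Set X} (hW : Moved g p W) {j l : ℕ} (hjl : j ≠ l)
    (hj : j < p) (hl : l < p) : Disjoint ((g^[j]) '' W) ((g^[l]) '' W) := by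
  rcases Nat.lt_or_ge j l with h | h
  · exact disj hi hW h hl
  · exact (disj hi hW (by omega) hj).symm

/-- A cube of the orbit of `W` lies in one translate. -/
theorem cube_orb (hi : Function.Injective g) (hg : ∀ x, (g^[p]) x = x) {W : Set X}
    (oW : IsOpen W) (hW : Moved g p W) {σ : C(Cb, X)} (hσ : ∀ u, σ u ∈ orb g p W) :
    ∃ j, j < p ∧ ∀ u, σ u ∈ (g^[j]) '' W := by
  obtain ⟨j, hj, hy⟩ : ∃ j, j < p ∧ σ (fun _ => 0) ∈ (g^[j]) '' W := by
    obtain ⟨j, hj, y, hy, e⟩ := mem_orb.1 (hσ fun _ => 0)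
    exact ⟨j, hj, y, hy, e⟩
  refine ⟨j, hj, ?_⟩
  have hs : IsPreconnected (Set.range σ) := isPreconnected_range σ.continuous
  have h1 : Set.range σ ⊆ (g^[j]) '' W := by
    refine hs.subset_left_of_subset_union (isOpen_image hg oW hj.le)
      (v := ⋃ l ∈ {l : ℕ | l < p ∧ j ≠ l}, (g^[l]) '' W) ?_ ?_ ?_ ?_
    · exact isOpen_biUnion fun l hl => isOpen_image hg oW hl.1.le
    · rw [Set.disjoint_iUnion₂_right]
      intro l hl
      exact disj' hi hW hl.2 hj hl.1
    · rintro _ ⟨u, rfl⟩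
      obtain ⟨l, hl, y, hy, e⟩ := mem_orb.1 (hσ u)
      by_cases h : j = l
      · subst h
        exact Or.inl ⟨y, hy, e⟩
      · right
        simp only [Set.mem_iUnion, Set.mem_ofPred_eq]
        exact ⟨l, ⟨hl, h⟩, y, hy, e⟩
    · exact ⟨σ fun _ => 0, ⟨_, rfl⟩, hy⟩
  exact fun u => h1 ⟨u, rfl⟩

/-- Lifting a cube of a translate of `W` to `W`. -/
theorem cube_lift (hg : ∀ x, (g^[p]) x = x) {W : Set X} {j : ℕ}
    (hj : j < p) {k : ℤ} {σ : C(Cb, X)} (hσ : IsCube k σ) (hW : ∀ u, σ u ∈ (g^[j]) '' W) :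
    ∃ σ' : C(Cb, X), IsCube k σ' ∧ (∀ u, σ' u ∈ W) ∧ (itr g j).comp σ' = σ := by
  refine ⟨(itr g (p - j)).comp σ, hσ.comp _, ?_, ?_⟩
  · intro u
    obtain ⟨y, hy, e⟩ := hW u
    have h1 : ((itr g (p - j)).comp σ) u = y := by
      rw [ContinuousMap.comp_apply, ← e, itr_apply, ← Function.iterate_add_apply,
        Nat.sub_add_cancel hj.le, hg]
    rw [h1]
    exact hy
  · ext u
    rw [ContinuousMap.comp_apply, ContinuousMap.comp_apply, itr_apply, itr_apply,
      ← Function.iterate_add_apply, Nat.add_sub_cancel' hj.le, hg]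

theorem mem_Q_inter {R : Type*} [CommRing R] {k : ℤ} {V W : Set X} {c : Ch R X}
    (h1 : c ∈ Q R k V) (h2 : c ∈ C R k W) : c ∈ Q R k (V ∩ W) := by
  intro σ hσ
  have h3 := h1 hσ
  have h4 := h2 hσ
  exact ⟨h3.1, h3.2.imp (fun h u => ⟨h u, h4.2 u⟩) id⟩

/-- The freeness of the translates. -/
theorem of_norm {R : Type*} [CommRing R] {W : Set X} (hW : Moved g p W) (hp : 0 < p)
    {A : Set X} {k : ℤ} {c : Ch R X} (hc : c ∈ C R k W)
    (h : ∑ j ∈ Finset.range p, push (itr g j) c ∈ Q R k A) : c ∈ Q R k A := by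
  classical
  intro σ hσ
  have hσ1 := hc hσ
  have hz : ∀ j ∈ Finset.range p, j ≠ 0 → (push (itr g j) c) σ = 0 := by
    intro j hj hj0
    by_contra hne
    have h1 : push (itr g j) c ∈ C R k ((g^[j]) '' W) :=
      push_mem_C (fun x hx => Set.mem_image_of_mem (g^[j]) hx) hc
    have h2 := h1 (Finsupp.mem_support_iff.2 hne)
    exact Set.disjoint_left.1 (hW j (by omega) (Finset.mem_range.1 hj)) (hσ1.2 fun _ => 0)
      (h2.2 fun _ => 0)
  have h0 : push (itr g 0) c = c := by
    have h : itr g 0 = ContinuousMap.id X := by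
      ext x
      rfl
    rw [h, push_id]
  have hs : (∑ j ∈ Finset.range p, push (itr g j) c) σ = c σ := by
    rw [Finsupp.finsetSum_apply, Finset.sum_eq_single 0 hz
      (fun h => absurd (Finset.mem_range.2 hp) h), h0]
  apply h
  have h1 : c σ ≠ 0 := Finsupp.mem_support_iff.1 hσ
  exact Finsupp.mem_support_iff.2 (by rw [hs]; exact h1)

end Gen

section Tau

variable {p : ℕ} [hp : Fact p.Prime] {X : Type*} [TopologicalSpace X] {g : C(X, X)}

theorem poly_norm : ((1 : Polynomial (ZMod p)) - Polynomial.X) ^ (p - 1) =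
    ∑ j ∈ Finset.range p, (Polynomial.X : Polynomial (ZMod p)) ^ j := by
  have h0 : ((1 : Polynomial (ZMod p)) - Polynomial.X) ≠ 0 := by
    intro h
    have h1 := congrArg (Polynomial.eval 0) h
    simp at h1
  apply mul_left_cancel₀ h0
  rw [mul_neg_geom_sum, ← pow_succ', Nat.sub_add_cancel hp.out.one_le, sub_pow_char, one_pow]

theorem tau_norm (c : Ch (ZMod p) X) :
    (tau p g ^ (p - 1)) c = ∑ j ∈ Finset.range p, push (itr g j) c := by
  have h := congrArg (Polynomial.aeval (push g : Module.End (ZMod p) (Ch (ZMod p) X)))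
    (poly_norm (p := p))
  rw [map_pow, map_sub, map_one, Polynomial.aeval_X, map_sum] at h
  have h1 := LinearMap.congr_fun h c
  have h2 : (tau p g ^ (p - 1)) c =
      ((1 - push g : Module.End (ZMod p) (Ch (ZMod p) X)) ^ (p - 1)) c := rfl
  rw [h2, h1, LinearMap.sum_apply]
  refine Finset.sum_congr rfl fun j _ => ?_
  rw [map_pow, Polynomial.aeval_X, push_pow]

/-- Combinations of the `tau^l` of chains of `W`. -/
def M (p : ℕ) (g : C(X, X)) (k : ℤ) (W : Set X) : Submodule (ZMod p) (Ch (ZMod p) X) where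
  carrier := {c | ∃ e : ℕ → Ch (ZMod p) X, (∀ l, e l ∈ C (ZMod p) k W) ∧
    c = ∑ l ∈ Finset.range p, (tau p g ^ l) (e l)}
  zero_mem' := ⟨fun _ => 0, fun _ => Submodule.zero_mem _, by simp⟩
  add_mem' := by
    rintro _ _ ⟨e, he, rfl⟩ ⟨e', he', rfl⟩
    refine ⟨fun l => e l + e' l, fun l => Submodule.add_mem _ (he l) (he' l), ?_⟩
    simp only [map_add, Finset.sum_add_distrib]
  smul_mem' := by
    rintro r _ ⟨e, he, rfl⟩
    refine ⟨fun l => r • e l, fun l => Submodule.smul_mem _ _ (he l), ?_⟩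
    simp only [map_smul, Finset.smul_sum]

theorem M_tau (hg : ∀ x, (g^[p]) x = x) {k : ℤ} {W : Set X} {c : Ch (ZMod p) X}
    (hc : c ∈ M p g k W) : tau p g c ∈ M p g k W := by
  obtain ⟨e, he, rfl⟩ := hc
  obtain ⟨m, hm⟩ : ∃ m, p = m + 1 := ⟨p - 1, by have := hp.out.one_le; omega⟩
  refine ⟨fun l => if l = 0 then 0 else e (l - 1), fun l => ?_, ?_⟩
  · dsimp only
    split_ifs
    · exact Submodule.zero_mem _
    · exact he _
  · have h1 : Finset.range p = Finset.range (m + 1) := by rw [hm]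
    have h2 : ∀ l, tau p g ((tau p g ^ l) (e l)) = (tau p g ^ (l + 1)) (e l) := by
      intro l
      rw [pow_succ', Module.End.mul_apply]
    have h3 : (tau p g ^ (m + 1)) (e m) = 0 := by
      have h := tau_pow_p hg (e m)
      have h4 : tau p g ^ p = tau p g ^ (m + 1) := congrArg (fun i => tau p g ^ i) hm
      rwa [h4] at h
    rw [map_sum, h1]
    simp only [h2]
    rw [Finset.sum_range_succ, h3, add_zero, Finset.sum_range_succ']
    simp

theorem M_push (hg : ∀ x, (g^[p]) x = x) {k : ℤ} {W : Set X} {c : Ch (ZMod p) X}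
    (hc : c ∈ M p g k W) : push g c ∈ M p g k W := by
  have h : push g c = c - tau p g c := by
    rw [tau, LinearMap.sub_apply]
    simp
  rw [h]
  exact Submodule.sub_mem _ hc (M_tau hg hc)

theorem M_of_C {k : ℤ} {W : Set X} {c : Ch (ZMod p) X} (hc : c ∈ C (ZMod p) k W) :
    c ∈ M p g k W := by
  refine ⟨fun l => if l = 0 then c else 0, fun l => ?_, ?_⟩
  · dsimp only
    split_ifs
    · exact hc
    · exact Submodule.zero_mem _
  · rw [Finset.sum_eq_single 0]
    · simp
    · intro l _ hl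
      simp [hl]
    · intro h
      exact absurd (Finset.mem_range.2 hp.out.pos) h

theorem M_of_orb (hg : ∀ x, (g^[p]) x = x) {k : ℤ} {W : Set X} (oW : IsOpen W)
    (hW : Moved g p W) {c : Ch (ZMod p) X} (hc : c ∈ C (ZMod p) k (orb g p W)) :
    c ∈ M p g k W := by
  have hi := inj hp.out.pos hg
  refine map_mem_of_supported (LinearMap.id) (M p g k W) ?_ hc
  rintro σ ⟨h1, h2⟩
  obtain ⟨j, hj, h3⟩ := cube_orb hi hg oW hW h2
  obtain ⟨σ', h4, h5, rfl⟩ := cube_lift hg hj h1 h3
  have h6 : (Finsupp.single ((itr g j).comp σ') (1 : ZMod p)) =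
      ((push g : Module.End (ZMod p) (Ch (ZMod p) X)) ^ j) (Finsupp.single σ' 1) := by
    rw [push_pow, push_single]
  rw [LinearMap.id_apply, h6]
  clear h6 h3 h2 h1 hj
  have h7 : Finsupp.single σ' (1 : ZMod p) ∈ M p g k W := M_of_C (mem_C_single h4 h5 _)
  generalize Finsupp.single σ' (1 : ZMod p) = c' at h7
  induction j generalizing c' with
  | zero => exact h7
  | succ j ih =>
    rw [pow_succ, Module.End.mul_apply]
    exact ih _ (M_push hg h7)

/-- If `Σ tau^(i+l) u_l` is zero relative to `A`, then all `u_l` are. -/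
theorem coeff (hg : ∀ x, (g^[p]) x = x) {A W : Set X} (hA : Inv g A) (hW : Moved g p W)
    {i : ℕ} (hi : i < p) {k : ℤ} {u : ℕ → Ch (ZMod p) X} (hu : ∀ l, u l ∈ C (ZMod p) k W)
    (h : ∑ l ∈ Finset.range (p - i), (tau p g ^ (i + l)) (u l) ∈ Q (ZMod p) k A) :
    ∀ l, l < p - i → u l ∈ Q (ZMod p) k A := by
  have hin := inj hp.out.pos hg
  intro l
  induction l using Nat.strong_induction_on with
  | _ l ih =>
    intro hl
    refine of_norm hW hp.out.pos (hu l) ?_
    rw [← tau_norm]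
    have h1 := (tau_top (p := p) hin (p - 1 - i - l)).mem_Q hin hA h
    rw [map_sum] at h1
    have h2 : ∑ m ∈ Finset.range (p - i), (tau p g ^ (p - 1 - i - l))
        ((tau p g ^ (i + m)) (u m)) = (tau p g ^ (p - 1)) (u l) +
        ∑ m ∈ (Finset.range (p - i)).erase l, (tau p g ^ (p - 1 - i - l))
          ((tau p g ^ (i + m)) (u m)) := by
      rw [← Finset.add_sum_erase _ _ (Finset.mem_range.2 hl), ← Module.End.mul_apply, ← pow_add]
      congr 4
      omega
    rw [h2] at h1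
    refine (Submodule.add_mem_iff_left _ ?_).1 h1
    refine Submodule.sum_mem _ fun m hm => ?_
    rw [Finset.mem_erase, Finset.mem_range] at hm
    rcases Nat.lt_or_ge m l with hml | hml
    · exact (tau_top (p := p) hin _).mem_Q hin hA ((tau_top (p := p) hin _).mem_Q hin hA
        (ih m hml hm.2))
    · have h3 : p - 1 - i - l + (i + m) = (m - l - 1) + p := by omega
      rw [← Module.End.mul_apply, ← pow_add, h3, pow_add, Module.End.mul_apply, tau_pow_p hg,
        map_zero]
      exact Submodule.zero_mem _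

end Tau

end H13

variable {p : ℕ} [hp : Fact p.Prime] {X : Type*} [TopologicalSpace X] {g : C(X, X)} {n : ℕ}

/-- The base case: `C(X, X - G κ) = F_p[G] ⊗ C(X, X - κ)`. -/
theorem vanBase_tau [T2Space X] (hg : ∀ x, (g^[p]) x = x) {i : ℕ} (hi : i < p) :
    VanBase g p (tau p g ^ i) n := by
  have hp0 := hp.out.pos
  have hin : Function.Injective g := H13.inj hp0 hg
  have ht : TOp g (tau p g ^ i) := tau_top (p := p) hin i
  intro S W φ B oS oW hW hB cB hBW
  rcases B.eq_empty_or_nonempty with rfl | hne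
  · have h1 : orb g p (inChart φ (∅ : Set (Fin n → ℝ))) = ∅ := by
      simp [orb, inChart]
    rw [h1]
    exact VanT.empty ht hin n
  intro k hk c hc
  set κ : Set X := inChart φ B with hκ
  have cκ : IsCompact κ := hB.image (continuous_subtype_val.comp φ.symm.continuous)
  set A : Set X := (orb g p κ)ᶜ with hA
  have oA : IsOpen A := (H13.isCompact_orb cκ).isClosed.isOpen_compl
  have iA : Inv g A := fun x => not_congr (H13.inv_orb hp0 hg κ x)
  have hAκ : A ⊆ κᶜ := Set.compl_subset_compl.2 (H13.subset_orb hp0 κ)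
  have hκA : κᶜ ∩ W ⊆ A := by
    rintro x ⟨hx1, hx2⟩ hx
    obtain ⟨j, hj, y, hy, e⟩ := H13.mem_orb.1 hx
    rcases Nat.eq_zero_or_pos j with rfl | hj0
    · exact hx1 (by rw [← e]; exact hy)
    · exact Set.disjoint_left.1 (hW j hj0 hj) hx2 ⟨y, hBW hy, e⟩
  have hcov : orb g p W ∪ A = Set.univ := by
    rw [Set.eq_univ_iff_forall]
    intro x
    by_cases hx : x ∈ orb g p κ
    · left
      obtain ⟨j, hj, y, hy, e⟩ := H13.mem_orb.1 hx
      exact H13.mem_orb.2 ⟨j, hj, y, hBW hy, e⟩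
    · exact Or.inr hx
  obtain ⟨c', hc', h1⟩ := excT_surj ht hin (H13.isOpen_orb hg oW) oA (H13.inv_orb hp0 hg W) iA
    hcov hc
  have h2 : c = (c - c') + c' := by abel
  rw [h2]
  refine h1.add ?_
  obtain ⟨e, he, rfl⟩ := H13.M_of_orb hg oW hW hc'.1
  have hred : ∀ (u : ℕ → Ch (ZMod p) X), (tau p g ^ i)
      (∑ l ∈ Finset.range p, (tau p g ^ l) (u l)) =
      ∑ l ∈ Finset.range (p - i), (tau p g ^ (i + l)) (u l) := by
    intro u
    have h3 : Finset.range (p - i) ⊆ Finset.range p := Finset.range_subset_range.2 (by omega)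
    rw [map_sum, ← Finset.sum_subset h3]
    · refine Finset.sum_congr rfl fun l _ => ?_
      rw [← Module.End.mul_apply, ← pow_add]
    · intro l _ hl
      rw [Finset.mem_range, not_lt] at hl
      have h4 : i + l = (i + l - p) + p := by omega
      rw [← Module.End.mul_apply, ← pow_add, h4, pow_add, Module.End.mul_apply, tau_pow_p hg,
        map_zero]
  have hbd : ∀ (m : ℤ) (u : ℕ → Ch (ZMod p) X),
      bd m (∑ l ∈ Finset.range (p - i), (tau p g ^ (i + l)) (u l)) =
        ∑ l ∈ Finset.range (p - i), (tau p g ^ (i + l)) (bd m (u l)) := by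
    intro m u
    rw [map_sum]
    exact Finset.sum_congr rfl fun l _ => ((tau_top (p := p) hin _).bd m _).symm
  have h3 := hc'.2
  rw [hred, hbd] at h3
  have h4 := H13.coeff hg iA hW hi (fun l => bd_mem_C (he l)) h3
  have h5 : ∀ l, ∃ b ∈ C (ZMod p) (k + 1) W, l < p - i → e l - bd (k + 1) b ∈
      Q (ZMod p) k A := by
    intro l
    by_cases hl : l < p - i
    · have h6 : e l ∈ Z (ZMod p) k Set.univ κᶜ :=
        ⟨C_mono k (Set.subset_univ _) (he l), Q_mono _ hAκ (h4 l hl)⟩
      have h7 := loc_vanish oS φ hB cB hne (by omega) h6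
      have h8 : Set.univ = W ∪ κᶜ := by
        refine (Set.eq_univ_iff_forall.2 fun x => ?_).symm
        by_cases hx : x ∈ κ
        · exact Or.inl (hBW hx)
        · exact Or.inr hx
      obtain ⟨b, hb, h9⟩ := excision_inj oW cκ.isClosed.isOpen_compl h8 (he l) h7
      refine ⟨b, hb, fun _ => Q_mono _ hκA (H13.mem_Q_inter h9 ?_)⟩
      have h10 := bd_mem_C hb
      rw [add_sub_cancel_right] at h10
      exact Submodule.sub_mem _ (he l) h10
    · exact ⟨0, Submodule.zero_mem _, fun h => absurd h hl⟩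
  choose b hb hbe using h5
  refine ⟨∑ l ∈ Finset.range p, (tau p g ^ l) (b l), ?_, ?_⟩
  · refine Submodule.sum_mem _ fun l _ => ?_
    exact (tau_top (p := p) hin l).mem_C hin (fun x => Iff.rfl)
      (C_mono _ (Set.subset_univ _) (hb l))
  · rw [hred, hred, hbd, ← Finset.sum_sub_distrib]
    refine Submodule.sum_mem _ fun l hl => ?_
    rw [← map_sub]
    exact (tau_top (p := p) hin _).mem_Q hin iA (hbe l (Finset.mem_range.1 hl))

/-- Points which are not fixed have a moved neighbourhood. -/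
theorem exists_moved [T2Space X] (hg : ∀ x, (g^[p]) x = x) {x : X} (hx : x ∉ fixS g) :
    ∃ W, IsOpen W ∧ x ∈ W ∧ Moved g p W := by
  have h1 : ∀ j, 0 < j → j < p → x ≠ (g^[j]) x := by
    intro j hj0 hj h
    apply hx
    have h2 : Function.IsPeriodicPt g j x := h.symm
    have h3 : Function.IsPeriodicPt g p x := hg x
    have h4 := h2.gcd h3
    have h5 : Nat.gcd j p = 1 := by
      rw [Nat.gcd_comm]
      exact (Nat.Prime.coprime_iff_not_dvd hp.out).2 (Nat.not_dvd_of_pos_of_lt hj0 hj)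
    rw [h5] at h4
    exact h4
  have h2 : ∀ j, ∃ U V : Set X, IsOpen U ∧ IsOpen V ∧ x ∈ U ∧ (g^[j]) x ∈ V ∧
      (0 < j → j < p → Disjoint U V) := by
    intro j
    by_cases hj : 0 < j ∧ j < p
    · obtain ⟨U, V, hU, hV, hxU, hxV, h⟩ := t2_separation (h1 j hj.1 hj.2)
      exact ⟨U, V, hU, hV, hxU, hxV, fun _ _ => h⟩
    · exact ⟨Set.univ, Set.univ, isOpen_univ, isOpen_univ, trivial, trivial,
        fun h3 h4 => absurd ⟨h3, h4⟩ hj⟩
  choose U V hU hV hxU hxV hd using h2
  refine ⟨⋂ j ∈ Finset.range p, (U j ∩ (g^[j]) ⁻¹' V j), ?_, ?_, ?_⟩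
  · exact isOpen_biInter_finset fun j _ =>
      (hU j).inter ((hV j).preimage (g.continuous.iterate j))
  · simp only [Set.mem_iInter]
    exact fun j _ => ⟨hxU j, hxV j⟩
  · intro j hj0 hj
    rw [Set.disjoint_left]
    rintro _ hy1 ⟨y, hy, rfl⟩
    simp only [Set.mem_iInter] at hy1 hy
    have h3 := (hy1 j (Finset.mem_range.2 hj)).1
    have h4 := (hy j (Finset.mem_range.2 hj)).2
    exact Set.disjoint_left.1 (hd j hj0 hj) h3 h4

end Pool.Agent.TCH
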