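import Pool.Agent.Lib.TC.HR13

/-!
# Homology library, HR14
-/

namespace Pool.Agent.TCH

open CubeHom

variable {p : ℕ} [hp : Fact p.Prime] {X : Type*} [TopologicalSpace X] {g : C(X, X)} {n : ℕ}

-- row H14: paste in HSmVan.lean in place of halo_zero and van_rho

namespace H14

omit hp in
theorem injective_of_per (hp0 : 0 < p) (hg : ∀ x, (g^[p]) x = x) : Function.Injective g := by
  obtain ⟨q, rfl⟩ : ∃ q, p = q + 1 := ⟨p - 1, by omega⟩
  intro x y h
  rw [← hg x, ← hg y, Function.iterate_succ_apply, Function.iterate_succ_apply, h]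

/-- The prism commutes with equivariant maps. -/
theorem prism_push {R : Type*} [CommRing R] {Y : Type*} [TopologicalSpace Y] {H : C(I × Y, X)}
    {f : C(Y, Y)} (he : ∀ (t : I) (y : Y), H (t, f y) = g (H (t, y))) (c : Ch R Y) :
    prism H (push f c) = push g (prism H c) := by
  have h : (prism (R := R) H).comp (push f) = (push g).comp (prism H) := by
    ext σ : 2
    simp only [LinearMap.comp_apply, Finsupp.lsingle_apply, push_single, prism_single]
    congr 1
    ext u
    simp only [ContinuousMap.comp_apply, crossCube_apply]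
    exact he _ _
  exact LinearMap.congr_fun h c

theorem prism_tau {Y : Type*} [TopologicalSpace Y] {H : C(I × Y, X)}
    {f : C(Y, Y)} (he : ∀ (t : I) (y : Y), H (t, f y) = g (H (t, y))) (i : ℕ)
    (c : Ch (ZMod p) Y) : prism H ((tau p f ^ i) c) = (tau p g ^ i) (prism H c) := by
  induction i with
  | zero => rfl
  | succ i ih =>
    rw [pow_succ', pow_succ', Module.End.mul_apply, Module.End.mul_apply, ← ih]
    unfold tau
    rw [LinearMap.sub_apply, LinearMap.sub_apply, Module.End.one_apply, Module.End.one_apply,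
      map_sub, prism_push he]

end H14

open H14

/-- Chains of the halo are killed by `tau^i`, `i ≥ 1`, up to boundaries. -/
theorem halo_zero (hg : ∀ x, (g^[p]) x = x) {N : Set X} (hN : ∀ x, g x ∈ N ↔ x ∈ N)
    (ρ : C(I × N, X)) (h1 : ∀ x : N, ρ (1, x) = x) (h0 : ∀ x : N, ρ (0, x) ∈ fixS g)
    (he : ∀ (t : I) (x : N), ρ (t, ⟨g x, (hN x).2 x.2⟩) = g (ρ (t, x))) {i : ℕ} (hi : 1 ≤ i)
    {k : ℤ} {c : Ch (ZMod p) X} (hc : ZT (tau p g ^ i) k N ∅ c) :
    BT (tau p g ^ i) k Set.univ ∅ c := by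
  obtain ⟨hcN, hcQ⟩ := hc
  obtain ⟨j, hj⟩ : ∃ j : C(N, X), j = ⟨Subtype.val, continuous_subtype_val⟩ := ⟨_, rfl⟩
  have hji : Function.Injective j := by rw [hj]; exact Subtype.val_injective
  have hjt : Topology.IsInducing j := by rw [hj]; exact Topology.IsInducing.subtypeVal
  have hjr : Set.range j = N := by rw [hj]; exact Subtype.range_val
  have hjx : ∀ x : N, j x = x := by rw [hj]; exact fun _ => rfl
  obtain ⟨f, hf⟩ : ∃ f : C(N, N), ∀ x : N, f x = ⟨g x, (hN x).2 x.2⟩ :=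
    ⟨⟨fun x => ⟨g x, (hN x).2 x.2⟩, by fun_prop⟩, fun _ => rfl⟩
  have hfj : ∀ x, j (f x) = g (j x) := by
    intro x
    rw [hf, hjx, hjx]
  rw [← hjr, ← map_push_C hjt hji] at hcN
  obtain ⟨c', hc', rfl⟩ := hcN
  have hginj : Function.Injective g := injective_of_per hp.out.pos hg
  have hfinj : Function.Injective f := by
    intro x y h
    have h2 := congrArg j h
    rw [hfj, hfj] at h2
    exact hji (hginj h2)
  have hef : ∀ (t : I) (x : N), ρ (t, f x) = g (ρ (t, x)) := by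
    intro t x
    rw [hf]
    exact he t x
  have hat1 : atTime ρ 1 = j := by
    ext x
    rw [hjx]
    exact h1 x
  have inv_univ : Inv f (Set.univ : Set N) := fun _ => ⟨fun _ => trivial, fun _ => trivial⟩
  have hτ : (tau p f ^ i) c' ∈ C (ZMod p) k Set.univ :=
    (tau_top hfinj i).mem_C hfinj inv_univ hc'
  have hbd : bd k ((tau p f ^ i) c') ∈ Q (ZMod p) (k - 1) (∅ : Set N) := by
    rw [← tau_push j hfj, bd_push, push_mem_Q_iff hji, Set.preimage_empty] at hcQ
    exact hcQ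
  refine ⟨prism ρ c', prism_mem_C (fun _ _ _ => Set.mem_univ _) hc', ?_⟩
  have e1 := bd_prism (H := ρ) hτ
  rw [prism_tau hef, hat1, tau_push j hfj] at e1
  have e2 : push (atTime ρ 0) ((tau p f ^ i) c') = 0 := by
    have hef0 : ∀ x, atTime ρ 0 (f x) = g (atTime ρ 0 x) := fun x => hef 0 x
    rw [tau_push (atTime ρ 0) hef0]
    exact tau_fix hi (push_mem_C (V := fixS g) (fun x _ => h0 x) hc')
  rw [e2, sub_zero] at e1
  rw [e1, sub_sub_cancel]
  have h3 := prism_mem_Q (H := ρ) (V := (∅ : Set X)) (fun _ _ h => h) hbd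
  rwa [sub_add_cancel] at h3

/-- **VANrho.** -/
theorem van_rho [T2Space X] [CompactSpace X] (hX : LocEuc n X) (hg : ∀ x, (g^[p]) x = x)
    (hh : HasHalo g) {i : ℕ} (hi : 1 ≤ i) (hip : i < p) {k : ℤ} (hk : (n : ℤ) < k)
    {c : Ch (ZMod p) X} (hc : ZT (tau p g ^ i) k Set.univ ∅ c) :
    BT (tau p g ^ i) k Set.univ ∅ c := by
  obtain ⟨N, hN, oN, hfN, ρ, h1, h0, he, -⟩ := hh
  have hginj : Function.Injective g := injective_of_per hp.out.pos hg
  have ht := tau_top (p := p) hginj i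
  have hNc : IsCompact Nᶜ := oN.isClosed_compl.isCompact
  have iN : Inv g N := hN
  have iNc : Inv g Nᶜ := fun x => not_congr (hN x)
  have iu : Inv g (Set.univ : Set X) := fun _ => ⟨fun _ => trivial, fun _ => trivial⟩
  have hvan : VanT (tau p g ^ i) n Nᶜ := by
    refine van_moved ht hp.out.pos hg hX (vanBase_tau hg hip) hNc iNc fun x hx => ?_
    exact exists_moved hg fun h => hx (hfN h)
  have hz : ZT (tau p g ^ i) k Set.univ Nᶜᶜ c := hc.mono le_rfl (Set.empty_subset _)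
  obtain ⟨b, hb, hbQ⟩ := hvan k hk c hz
  rw [compl_compl] at hbQ
  -- `c - bd b` is, up to a chain of `N`, killed
  have hbC : bd (k + 1) b ∈ C (ZMod p) k Set.univ := by
    have := bd_mem_C hb
    rwa [add_sub_cancel_right] at this
  have e1 : (tau p g ^ i) (c - bd (k + 1) b) = (tau p g ^ i) c - bd (k + 1) ((tau p g ^ i) b) := by
    rw [map_sub, ht.bd]
  obtain ⟨c₁, hc₁, hq⟩ := ht.split_one iN (Submodule.sub_mem _ hc.1 hbC) (by rw [e1]; exact hbQ)
  -- `c₁` is a cycle of `N`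
  have e2 : (tau p g ^ i) c₁ = (tau p g ^ i) c - bd (k + 1) ((tau p g ^ i) b) -
      (tau p g ^ i) (c - bd (k + 1) b - c₁) := by
    rw [map_sub _ (c - bd (k + 1) b) c₁, e1]
    abel
  have hz₁ : ZT (tau p g ^ i) k N ∅ c₁ := by
    refine ⟨hc₁, ?_⟩
    rw [e2, map_sub, map_sub]
    have h3 := bd_bd (R := ZMod p) (k + 1) ((tau p g ^ i) b)
    rw [add_sub_cancel_right] at h3
    rw [h3, sub_zero]
    exact Submodule.sub_mem _ hc.2 (bd_mem_Q hq)
  obtain ⟨b₁, hb₁, hb₁Q⟩ := halo_zero hg hN ρ h1 h0 he hi hz₁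
  refine ⟨b + b₁, Submodule.add_mem _ hb hb₁, ?_⟩
  have e3 : (tau p g ^ i) c - bd (k + 1) ((tau p g ^ i) (b + b₁)) =
      (tau p g ^ i) (c - bd (k + 1) b - c₁) +
        ((tau p g ^ i) c₁ - bd (k + 1) ((tau p g ^ i) b₁)) := by
    rw [map_add, map_add, map_sub _ (c - bd (k + 1) b) c₁, e1]
    abel
  rw [e3]
  exact Submodule.add_mem _ hq hb₁Q

end Pool.Agent.TCH
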