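import Pool.Agent.Lib.TC.HVan

/-!
# Homology library, HR15
-/

namespace Pool.Agent.TCH

open CubeHom

namespace H15

open scoped RealInnerProductSpace

variable {E : Type*} [NormedAddCommGroup E] [InnerProductSpace ℝ E] [FiniteDimensional ℝ E]

/-- The projection to the fixed subspace of an isometry. -/
theorem exists_proj (A : E ≃ₗᵢ[ℝ] E) : ∃ P : E →L[ℝ] E, (∀ v, A (P v) = P v) ∧
    (∀ v, A v = v → P v = v) ∧ (∀ v, P (A v) = P v) ∧ ∀ v, ⟪v, P v⟫ = ⟪P v, P v⟫ := by
  let F : Submodule ℝ E := LinearMap.eqLocus (A.toLinearEquiv : E →ₗ[ℝ] E) LinearMap.id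
  have hF : ∀ v, v ∈ F ↔ A v = v := fun v => Iff.rfl
  refine ⟨F.starProjection, fun v => (hF _).1 (F.starProjection_apply_mem v),
    fun v hv => Submodule.starProjection_eq_self_iff.2 ((hF v).2 hv), fun v => ?_, fun v => ?_⟩
  · refine Submodule.eq_starProjection_of_mem_of_inner_eq_zero
      (F.starProjection_apply_mem v) fun w hw => ?_
    have h1 : ⟪A v, w⟫ = ⟪v, w⟫ := by
      conv_lhs => rw [← (hF w).1 hw]
      exact A.inner_map_map v w
    have h2 := F.starProjection_inner_eq_zero v w hw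
    rw [inner_sub_left] at h2 ⊢
    rw [h1]
    exact h2
  · have h := F.starProjection_inner_eq_zero v _ (F.starProjection_apply_mem v)
    rw [inner_sub_left] at h
    exact sub_eq_zero.1 h

end H15

open scoped RealInnerProductSpace in
/-- The unit sphere of an orthogonal representation has a halo. -/
theorem halo_sphere {m : ℕ} (A : EuclideanSpace ℝ (Fin (m + 1)) ≃ₗᵢ[ℝ]
    EuclideanSpace ℝ (Fin (m + 1)))
    (a : C(Metric.sphere (0 : EuclideanSpace ℝ (Fin (m + 1))) 1,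
      Metric.sphere (0 : EuclideanSpace ℝ (Fin (m + 1))) 1))
    (ha : ∀ x, (a x : EuclideanSpace ℝ (Fin (m + 1))) = A x) : HasHalo a := by
  obtain ⟨P, hP1, hP2, hP3, hP4⟩ := H15.exists_proj A
  have hfix : ∀ x, x ∈ fixS a ↔ A (x : EuclideanSpace ℝ (Fin (m + 1))) = x := by
    intro x
    constructor
    · intro h
      have h1 : a x = x := h
      rw [← ha, h1]
    · intro h
      exact Subtype.ext ((ha x).trans h)
  have hnorm : ∀ x : Metric.sphere (0 : EuclideanSpace ℝ (Fin (m + 1))) 1,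
      ‖(x : EuclideanSpace ℝ (Fin (m + 1)))‖ = 1 := fun x => by
    simp
  let N : Set (Metric.sphere (0 : EuclideanSpace ℝ (Fin (m + 1))) 1) :=
    {x | P (x : EuclideanSpace ℝ (Fin (m + 1))) ≠ 0}
  have hN : ∀ x, a x ∈ N ↔ x ∈ N := by
    intro x
    change P (a x : EuclideanSpace ℝ (Fin (m + 1))) ≠ 0 ↔ P (x : EuclideanSpace ℝ (Fin (m + 1))) ≠ 0
    rw [ha, hP3]
  have hNo : IsOpen N := by
    have hc : Continuous fun x : Metric.sphere (0 : EuclideanSpace ℝ (Fin (m + 1))) 1 =>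
        P (x : EuclideanSpace ℝ (Fin (m + 1))) := P.continuous.comp continuous_subtype_val
    exact isOpen_ne_fun hc continuous_const
  let w : I × N → EuclideanSpace ℝ (Fin (m + 1)) := fun q =>
    (1 - (q.1 : ℝ)) • P ((q.2 : Metric.sphere (0 : EuclideanSpace ℝ (Fin (m + 1))) 1) :
      EuclideanSpace ℝ (Fin (m + 1))) + (q.1 : ℝ) •
      ((q.2 : Metric.sphere (0 : EuclideanSpace ℝ (Fin (m + 1))) 1) :
      EuclideanSpace ℝ (Fin (m + 1)))
  have hwc : Continuous w := by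
    have h1 : Continuous fun q : I × N =>
        ((q.2 : Metric.sphere (0 : EuclideanSpace ℝ (Fin (m + 1))) 1) :
        EuclideanSpace ℝ (Fin (m + 1))) :=
      continuous_subtype_val.comp (continuous_subtype_val.comp continuous_snd)
    have h2 : Continuous fun q : I × N => ((q.1 : I) : ℝ) :=
      continuous_subtype_val.comp continuous_fst
    exact ((continuous_const.sub h2).smul (P.continuous.comp h1)).add (h2.smul h1)
  have hw0 : ∀ q, w q ≠ 0 := by
    intro q hq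
    have hPx : P ((q.2 : Metric.sphere (0 : EuclideanSpace ℝ (Fin (m + 1))) 1) :
        EuclideanSpace ℝ (Fin (m + 1))) ≠ 0 := q.2.2
    have h1 : ⟪w q, P ((q.2 : Metric.sphere (0 : EuclideanSpace ℝ (Fin (m + 1))) 1) :
        EuclideanSpace ℝ (Fin (m + 1)))⟫ = 0 := by rw [hq, inner_zero_left]
    have h2 : ⟪w q, P ((q.2 : Metric.sphere (0 : EuclideanSpace ℝ (Fin (m + 1))) 1) :
        EuclideanSpace ℝ (Fin (m + 1)))⟫ =
        ⟪P ((q.2 : Metric.sphere (0 : EuclideanSpace ℝ (Fin (m + 1))) 1) :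
        EuclideanSpace ℝ (Fin (m + 1))), P ((q.2 :
        Metric.sphere (0 : EuclideanSpace ℝ (Fin (m + 1))) 1) :
        EuclideanSpace ℝ (Fin (m + 1)))⟫ := by
      change ⟪(1 - (q.1 : ℝ)) • P _ + (q.1 : ℝ) • _, _⟫ = _
      rw [inner_add_left, real_inner_smul_left, real_inner_smul_left, hP4]
      ring
    rw [h2] at h1
    exact hPx (inner_self_eq_zero.1 h1)
  have hwn : ∀ q, ‖w q‖ ≠ 0 := fun q => norm_ne_zero_iff.2 (hw0 q)
  refine ⟨N, hN, hNo, ?_, ⟨fun q => ⟨‖w q‖⁻¹ • w q, ?_⟩, ?_⟩, ?_, ?_, ?_, ?_⟩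
  · intro x hx
    change P (x : EuclideanSpace ℝ (Fin (m + 1))) ≠ 0
    rw [hP2 _ ((hfix x).1 hx)]
    intro h
    have := hnorm x
    rw [h, norm_zero] at this
    exact zero_ne_one this
  · rw [mem_sphere_zero_iff_norm, norm_smul, norm_inv, norm_norm, inv_mul_cancel₀ (hwn q)]
  · exact ((hwc.norm.inv₀ hwn).smul hwc).subtype_mk _
  · intro x
    apply Subtype.ext
    have h1 : w (1, x) = ((x : Metric.sphere (0 : EuclideanSpace ℝ (Fin (m + 1))) 1) :
        EuclideanSpace ℝ (Fin (m + 1))) := by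
      change (1 - ((1 : I) : ℝ)) • P _ + ((1 : I) : ℝ) • _ = _
      rw [Set.Icc.coe_one, sub_self, zero_smul, one_smul, zero_add]
    change ‖w (1, x)‖⁻¹ • w (1, x) = _
    rw [h1, hnorm, inv_one, one_smul]
  · intro x
    rw [hfix]
    have h1 : w (0, x) = P ((x : Metric.sphere (0 : EuclideanSpace ℝ (Fin (m + 1))) 1) :
        EuclideanSpace ℝ (Fin (m + 1))) := by
      change (1 - ((0 : I) : ℝ)) • P _ + ((0 : I) : ℝ) • _ = _
      rw [Set.Icc.coe_zero, sub_zero, zero_smul, one_smul, add_zero]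
    change A (‖w (0, x)‖⁻¹ • w (0, x)) = ‖w (0, x)‖⁻¹ • w (0, x)
    rw [h1, map_smul, hP1]
  · intro t x
    apply Subtype.ext
    have h1 : w (t, ⟨a x, (hN x).2 x.2⟩) = A (w (t, x)) := by
      change (1 - (t : ℝ)) • P (a x : EuclideanSpace ℝ (Fin (m + 1))) +
        (t : ℝ) • (a x : EuclideanSpace ℝ (Fin (m + 1))) = A ((1 - (t : ℝ)) • P _ + (t : ℝ) • _)
      rw [map_add, map_smul, map_smul, hP1, ha, hP3]
    rw [ha]
    change ‖w (t, ⟨a x, (hN x).2 x.2⟩)‖⁻¹ • w (t, ⟨a x, (hN x).2 x.2⟩) =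
      A (‖w (t, x)‖⁻¹ • w (t, x))
    rw [h1, map_smul, A.norm_map]
  · intro t x hx
    apply Subtype.ext
    have h1 : w (t, x) = ((x : Metric.sphere (0 : EuclideanSpace ℝ (Fin (m + 1))) 1) :
        EuclideanSpace ℝ (Fin (m + 1))) := by
      change (1 - (t : ℝ)) • P _ + (t : ℝ) • _ = _
      rw [hP2 _ ((hfix _).1 hx), ← add_smul, sub_add_cancel, one_smul]
    change ‖w (t, x)‖⁻¹ • w (t, x) = _
    rw [h1, hnorm, inv_one, one_smul]

end Pool.Agent.TCH
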