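import Pool.Agent.Lib.TC.HR14
import Pool.Agent.Lib.TC.HR15

/-!
# Homology library, HR16
-/

namespace Pool.Agent.TCH

open CubeHom

variable {p : ℕ} [hp : Fact p.Prime] {X : Type*} [TopologicalSpace X] {g : C(X, X)} {n : ℕ}

namespace H16

section Gen

variable {p : ℕ} {X Y : Type*} [TopologicalSpace X] [TopologicalSpace Y]
  {g : C(X, X)} {h : C(Y, Y)}

theorem tau_apply (p : ℕ) (g : C(X, X)) (c : Ch (ZMod p) X) : tau p g c = c - push g c := rfl

theorem pow_mem_C {k : ℤ} {U : Set X} (hU : Set.MapsTo g U U) (i : ℕ) {c : Ch (ZMod p) X}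
    (hc : c ∈ C (ZMod p) k U) : (tau p g ^ i) c ∈ C (ZMod p) k U := by
  induction i with
  | zero => simpa using hc
  | succ i ih =>
    rw [pow_succ', Module.End.mul_apply, tau_apply]
    exact Submodule.sub_mem _ ih (push_mem_C hU ih)

theorem push_pow {Φ : C(X, Y)} (hΦ : ∀ x, Φ (g x) = h (Φ x)) (i : ℕ) (c : Ch (ZMod p) X) :
    push Φ ((tau p g ^ i) c) = (tau p h ^ i) (push Φ c) := by
  induction i generalizing c with
  | zero => simp
  | succ i ih =>
    have e : Φ.comp g = h.comp Φ := ContinuousMap.ext hΦ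
    rw [pow_succ', pow_succ', Module.End.mul_apply, Module.End.mul_apply, tau_apply, tau_apply,
      map_sub, push_push, e, ← push_push, ih]

theorem prism_push {H : C(I × X, Y)} (hH : ∀ t x, H (t, g x) = h (H (t, x)))
    (c : Ch (ZMod p) X) : prism H (push g c) = push h (prism H c) := by
  have e : (prism (R := ZMod p) H).comp (push g) = (push h).comp (prism H) := by
    ext σ : 2
    simp only [LinearMap.comp_apply, Finsupp.lsingle_apply, push_single, prism_single]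
    congr 1
    ext u : 1
    exact hH _ _
  exact LinearMap.congr_fun e c

theorem prism_pow {H : C(I × X, Y)} (hH : ∀ t x, H (t, g x) = h (H (t, x))) (i : ℕ)
    (c : Ch (ZMod p) X) : prism H ((tau p g ^ i) c) = (tau p h ^ i) (prism H c) := by
  induction i generalizing c with
  | zero => simp
  | succ i ih =>
    rw [pow_succ', pow_succ', Module.End.mul_apply, Module.End.mul_apply, tau_apply, tau_apply,
      map_sub, prism_push hH, ih]

/-- Equivariant homotopies. -/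
theorem BT_homotopy {H : C(I × X, Y)} (hH : ∀ t x, H (t, g x) = h (H (t, x))) {k : ℤ}
    {U A : Set X} {V A' : Set Y} (hU : ∀ t, ∀ x ∈ U, H (t, x) ∈ V)
    (hA : ∀ t, ∀ x ∈ A, H (t, x) ∈ A') (i : ℕ) {c : Ch (ZMod p) X} (hc : ZT (tau p g ^ i) k U A c) :
    BT (tau p h ^ i) k V A' (push (atTime H 1) c - push (atTime H 0) c) := by
  refine ⟨prism H c, prism_mem_C hU hc.1, ?_⟩
  have h1 : (tau p g ^ i) c ∈ C (ZMod p) k Set.univ :=
    pow_mem_C (Set.mapsTo_univ _ _) i (C_mono k (Set.subset_univ U) hc.1)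
  have e1 : ∀ s : I, ∀ x, atTime H s (g x) = h (atTime H s x) := fun s x => hH s x
  rw [map_sub, ← push_pow (e1 1), ← push_pow (e1 0), ← prism_pow hH, bd_prism h1, sub_sub_cancel]
  have h2 := prism_mem_Q (R := ZMod p) hA hc.2
  rwa [sub_add_cancel] at h2

theorem BT_push {Φ : C(X, Y)} (hΦ : ∀ x, Φ (g x) = h (Φ x)) {k : ℤ} {U A : Set X} {V A' : Set Y}
    (hU : Set.MapsTo Φ U V) (hA : Set.MapsTo Φ A A') (i : ℕ) {c : Ch (ZMod p) X}
    (hc : BT (tau p g ^ i) k U A c) : BT (tau p h ^ i) k V A' (push Φ c) := by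
  obtain ⟨b, hb, h1⟩ := hc
  refine ⟨push Φ b, push_mem_C hU hb, ?_⟩
  rw [← push_pow hΦ, ← push_pow hΦ, bd_push, ← map_sub]
  exact push_mem_Q hA h1

theorem ZT_push {Φ : C(X, Y)} (hΦ : ∀ x, Φ (g x) = h (Φ x)) {k : ℤ} {U A : Set X} {V A' : Set Y}
    (hU : Set.MapsTo Φ U V) (hA : Set.MapsTo Φ A A') (i : ℕ) {c : Ch (ZMod p) X}
    (hc : ZT (tau p g ^ i) k U A c) : ZT (tau p h ^ i) k V A' (push Φ c) := by
  refine ⟨push_mem_C hU hc.1, ?_⟩
  rw [← push_pow hΦ, bd_push]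
  exact push_mem_Q hA hc.2

theorem BT_sub {R : Type*} [CommRing R] {t : Module.End R (Ch R X)} {k : ℤ} {U A : Set X}
    {c c' : Ch R X} (h : BT t k U A c) (h' : BT t k U A c') : BT t k U A (c - c') := by
  obtain ⟨b, hb, h⟩ := h
  obtain ⟨b', hb', h'⟩ := h'
  refine ⟨b - b', Submodule.sub_mem _ hb hb', ?_⟩
  have e : t (c - c') - bd (k + 1) (t (b - b')) =
      (t c - bd (k + 1) (t b)) - (t c' - bd (k + 1) (t b')) := by
    simp only [map_sub]
    abel
  rw [e]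
  exact Submodule.sub_mem _ h h'

end Gen

section Maps

variable {n : ℕ}

/-- The punctured space. -/
abbrev Pu (n : ℕ) : Type := ({0}ᶜ : Set (EuclideanSpace ℝ (Fin n)))

/-- The inclusion. -/
def jP (n : ℕ) : C(Pu n, EuclideanSpace ℝ (Fin n)) := ⟨Subtype.val, continuous_subtype_val⟩

/-- The isometry on the punctured space. -/
noncomputable def aP (A : EuclideanSpace ℝ (Fin n) ≃ₗᵢ[ℝ] EuclideanSpace ℝ (Fin n)) : C(Pu n, Pu n) :=
  ⟨fun x => ⟨A x, fun h => x.2 (by simpa using h)⟩, by fun_prop⟩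

/-- The isometry on the sphere. -/
noncomputable def aS (A : EuclideanSpace ℝ (Fin n) ≃ₗᵢ[ℝ] EuclideanSpace ℝ (Fin n)) :
    C(Metric.sphere (0 : EuclideanSpace ℝ (Fin n)) 1,
      Metric.sphere (0 : EuclideanSpace ℝ (Fin n)) 1) :=
  ⟨fun x => ⟨A x, by simp⟩, by fun_prop⟩

theorem cont_inv (n : ℕ) : Continuous fun x : Pu n => (‖(x : EuclideanSpace ℝ (Fin n))‖)⁻¹ :=
  Continuous.inv₀ (by fun_prop) fun x => norm_ne_zero_iff.2 x.2

/-- The radial projection. -/
noncomputable def rS (n : ℕ) : C(Pu n, Metric.sphere (0 : EuclideanSpace ℝ (Fin n)) 1) :=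
  ⟨fun x => ⟨(‖(x : EuclideanSpace ℝ (Fin n))‖)⁻¹ • (x : EuclideanSpace ℝ (Fin n)), by
    have h : ‖(x : EuclideanSpace ℝ (Fin n))‖ ≠ 0 := norm_ne_zero_iff.2 x.2
    simp [norm_smul, h]⟩, by
    exact Continuous.subtype_mk ((cont_inv n).smul continuous_subtype_val) _⟩

/-- The inclusion of the sphere. -/
def iS (n : ℕ) : C(Metric.sphere (0 : EuclideanSpace ℝ (Fin n)) 1, Pu n) :=
  ⟨fun x => ⟨x, fun h => by
    have h1 := norm_eq_of_mem_sphere x
    have h2 : (x : EuclideanSpace ℝ (Fin n)) = 0 := h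
    rw [h2, norm_zero] at h1
    exact zero_ne_one h1⟩, by fun_prop⟩

/-- The radial homotopy. -/
noncomputable def hS (n : ℕ) : C(I × Pu n, Pu n) :=
  ⟨fun q => ⟨((1 - (q.1 : ℝ)) + (q.1 : ℝ) * (‖(q.2 : EuclideanSpace ℝ (Fin n))‖)⁻¹) •
      (q.2 : EuclideanSpace ℝ (Fin n)), by
    have h : 0 < ‖(q.2 : EuclideanSpace ℝ (Fin n))‖ := norm_pos_iff.2 q.2.2
    have h0 := q.1.2.1
    have h1 := q.1.2.2
    have h2 : 0 < (1 - (q.1 : ℝ)) + (q.1 : ℝ) * (‖(q.2 : EuclideanSpace ℝ (Fin n))‖)⁻¹ := by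
      rcases h0.eq_or_lt with h3 | h3
      · rw [← h3]; simp
      · have : 0 < (q.1 : ℝ) * (‖(q.2 : EuclideanSpace ℝ (Fin n))‖)⁻¹ := by positivity
        linarith
    exact smul_ne_zero h2.ne' q.2.2⟩, by
    have h1 : Continuous fun q : I × Pu n => (q.1 : ℝ) := by fun_prop
    exact Continuous.subtype_mk (((continuous_const.sub h1).add
      (h1.mul ((cont_inv n).comp continuous_snd))).smul
        (continuous_subtype_val.comp continuous_snd)) _⟩

/-- The contraction to the origin. -/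
noncomputable def hO (n : ℕ) : C(I × EuclideanSpace ℝ (Fin n), EuclideanSpace ℝ (Fin n)) :=
  ⟨fun q => (q.1 : ℝ) • q.2, by fun_prop⟩

end Maps

end H16

/-- The punctured representation space. -/
theorem van_punctured {m : ℕ} (A : EuclideanSpace ℝ (Fin (m + 1)) ≃ₗᵢ[ℝ]
    EuclideanSpace ℝ (Fin (m + 1))) (a : C(EuclideanSpace ℝ (Fin (m + 1)),
      EuclideanSpace ℝ (Fin (m + 1)))) (ha : ∀ x, a x = A x)
    (hg : ∀ x, (a^[p]) x = x) {i : ℕ} (hi : 1 ≤ i) (hip : i < p) {k : ℤ} (hk : (m : ℤ) < k)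
    {c : Ch (ZMod p) (EuclideanSpace ℝ (Fin (m + 1)))}
    (hc : ZT (tau p a ^ i) k {0}ᶜ ∅ c) : BT (tau p a ^ i) k {0}ᶜ ∅ c := by
  have hinj : Function.Injective (H16.jP (m + 1)) := Subtype.val_injective
  have hind : Topology.IsInducing (H16.jP (m + 1)) := Topology.IsInducing.subtypeVal
  have hran : Set.range (H16.jP (m + 1)) = {0}ᶜ := Subtype.range_val
  have ej : ∀ x, H16.jP (m + 1) (H16.aP A x) = a (H16.jP (m + 1) x) := fun x => (ha _).symm
  obtain ⟨c', hc', rfl⟩ : ∃ c' ∈ C (ZMod p) k (Set.univ : Set (H16.Pu (m + 1))),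
      push (H16.jP (m + 1)) c' = c := by
    have h1 := hc.1
    rw [← hran, ← map_push_C hind hinj] at h1
    exact h1
  have hz : ZT (tau p (H16.aP A) ^ i) k Set.univ ∅ c' := by
    refine ⟨hc', ?_⟩
    have h2 := hc.2
    rw [← H16.push_pow ej, bd_push, push_mem_Q_iff hinj, Set.preimage_empty] at h2
    exact h2
  -- the sphere
  have hgS : ∀ x, ((H16.aS A)^[p]) x = x := by
    intro x
    have h1 : ∀ q : ℕ, ((((H16.aS A)^[q]) x : Metric.sphere (0 : EuclideanSpace ℝ (Fin (m + 1))) 1) :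
        EuclideanSpace ℝ (Fin (m + 1))) = (a^[q]) x := by
      intro q
      induction q with
      | zero => rfl
      | succ q ih =>
        rw [Function.iterate_succ_apply', Function.iterate_succ_apply', ← ih, ha]
        rfl
    exact Subtype.ext ((h1 p).trans (hg x))
  have er : ∀ x, H16.rS (m + 1) (H16.aP A x) = H16.aS A (H16.rS (m + 1) x) := by
    intro x
    refine Subtype.ext ?_
    change (‖A (x : EuclideanSpace ℝ (Fin (m + 1)))‖)⁻¹ • A (x : EuclideanSpace ℝ (Fin (m + 1))) =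
      A ((‖(x : EuclideanSpace ℝ (Fin (m + 1)))‖)⁻¹ • (x : EuclideanSpace ℝ (Fin (m + 1))))
    rw [map_smul, LinearIsometryEquiv.norm_map]
  have ei : ∀ x, H16.iS (m + 1) (H16.aS A x) = H16.aP A (H16.iS (m + 1) x) := fun x => rfl
  have eh : ∀ t x, H16.hS (m + 1) (t, H16.aP A x) = H16.aP A (H16.hS (m + 1) (t, x)) := by
    intro t x
    refine Subtype.ext ?_
    change ((1 - (t : ℝ)) + (t : ℝ) * (‖A (x : EuclideanSpace ℝ (Fin (m + 1)))‖)⁻¹) •
      A (x : EuclideanSpace ℝ (Fin (m + 1))) = A (((1 - (t : ℝ)) + (t : ℝ) *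
        (‖(x : EuclideanSpace ℝ (Fin (m + 1)))‖)⁻¹) • (x : EuclideanSpace ℝ (Fin (m + 1))))
    rw [map_smul, LinearIsometryEquiv.norm_map]
  have h1 := van_rho (p := p) (locEuc_sphere (n := m)) hgS (halo_sphere A (H16.aS A) fun _ => rfl) hi
    hip hk (H16.ZT_push er (Set.mapsTo_univ _ _) (Set.mapsTo_empty _ _) i hz)
  have h2 := H16.BT_push ei (V := Set.univ) (A' := ∅) (Set.mapsTo_univ _ _)
    (Set.mapsTo_empty _ _) i h1
  have h3 := H16.BT_homotopy (p := p) eh (U := Set.univ) (V := Set.univ) (A := ∅) (A' := ∅)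
    (fun _ _ _ => Set.mem_univ _) (fun _ _ h => h.elim) i hz
  have e1 : atTime (H16.hS (m + 1)) 1 = (H16.iS (m + 1)).comp (H16.rS (m + 1)) := by
    ext x : 1
    refine Subtype.ext ?_
    change ((1 - ((1 : I) : ℝ)) + ((1 : I) : ℝ) * (‖(x : EuclideanSpace ℝ (Fin (m + 1)))‖)⁻¹) •
      (x : EuclideanSpace ℝ (Fin (m + 1))) = (‖(x : EuclideanSpace ℝ (Fin (m + 1)))‖)⁻¹ •
      (x : EuclideanSpace ℝ (Fin (m + 1)))
    simp
  have e0 : atTime (H16.hS (m + 1)) 0 = ContinuousMap.id _ := by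
    ext x : 1
    refine Subtype.ext ?_
    change ((1 - ((0 : I) : ℝ)) + ((0 : I) : ℝ) * (‖(x : EuclideanSpace ℝ (Fin (m + 1)))‖)⁻¹) •
      (x : EuclideanSpace ℝ (Fin (m + 1))) = (x : EuclideanSpace ℝ (Fin (m + 1)))
    simp
  rw [e1, e0, push_id] at h3
  rw [push_push] at h2
  have h4 := H16.BT_sub h2 h3
  rw [sub_sub_cancel] at h4
  exact H16.BT_push ej (fun x _ => x.2) (Set.mapsTo_empty _ _) i h4

/-- The local complexes of a linear action at the origin. -/
theorem van_origin (A : EuclideanSpace ℝ (Fin n) ≃ₗᵢ[ℝ] EuclideanSpace ℝ (Fin n))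
    (a : C(EuclideanSpace ℝ (Fin n), EuclideanSpace ℝ (Fin n))) (ha : ∀ x, a x = A x)
    (hn : 1 ≤ n) (hg : ∀ x, (a^[p]) x = x) {i : ℕ} (hi : 1 ≤ i) (hip : i < p) {k : ℤ}
    (hk : (n : ℤ) < k) {c : Ch (ZMod p) (EuclideanSpace ℝ (Fin n))}
    (hc : ZT (tau p a ^ i) k Set.univ {0}ᶜ c) : BT (tau p a ^ i) k Set.univ {0}ᶜ c := by
  obtain ⟨m, rfl⟩ : ∃ m, n = m + 1 := ⟨n - 1, by omega⟩
  have hinj : Function.Injective a := by
    intro x y hxy
    rw [ha, ha] at hxy
    exact A.injective hxy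
  have hinv : Inv a ({0}ᶜ : Set (EuclideanSpace ℝ (Fin (m + 1)))) := by
    intro x
    rw [ha]
    simp
  have ht := tau_top (p := p) hinj i
  have e0 : ∀ b : Ch (ZMod p) (EuclideanSpace ℝ (Fin (m + 1))), (tau p a ^ i) (bd k b) =
      bd k ((tau p a ^ i) b) := fun b => ht.bd k b
  obtain ⟨hcC, hcQ⟩ := hc
  obtain ⟨u, hu, hu1⟩ := ht.split_one hinv (bd_mem_C hcC) (by rw [e0]; exact hcQ)
  -- `u` is a cycle
  have hu2 : ZT (tau p a ^ i) (k - 1) {0}ᶜ ∅ u := by
    refine ⟨hu, ?_⟩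
    have h1 := bd_mem_Q hu1
    rw [map_sub, map_sub, e0, bd_bd, zero_sub] at h1
    exact (Submodule.neg_mem_iff _).1 h1
  obtain ⟨v, hv, hv1⟩ := van_punctured A a ha hg hi hip (k := k - 1) (by push_cast at hk; omega) hu2
  rw [sub_add_cancel] at hv hv1
  have hz : ZT (tau p a ^ i) k Set.univ ∅ (c - v) := by
    refine ⟨Submodule.sub_mem _ hcC (C_mono _ (Set.subset_univ _) hv), ?_⟩
    have h1 := Submodule.add_mem _ hu1 hv1
    rw [map_sub, e0] at h1
    rw [map_sub, map_sub]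
    convert h1 using 1
    abel
  -- the contraction
  have eh : ∀ (t : I) x, H16.hO (m + 1) (t, a x) = a (H16.hO (m + 1) (t, x)) := by
    intro t x
    rw [ha, ha]
    change (t : ℝ) • A x = A ((t : ℝ) • x)
    rw [map_smul]
  have h3 := H16.BT_homotopy (p := p) eh (U := Set.univ) (V := Set.univ) (A := ∅) (A' := ∅)
    (fun _ _ _ => Set.mem_univ _) (fun _ _ h => h.elim) i hz
  have e1 : atTime (H16.hO (m + 1)) 1 = ContinuousMap.id _ := by
    ext x : 1
    change ((1 : I) : ℝ) • x = x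
    simp
  have h4 : BT (tau p a ^ i) k Set.univ ∅ (push (atTime (H16.hO (m + 1)) 0) (c - v)) := by
    refine ⟨0, Submodule.zero_mem _, ?_⟩
    have h5 : push (atTime (H16.hO (m + 1)) 0) (c - v) ∈ C (ZMod p) k (fixS a) := by
      refine push_mem_C (U := Set.univ) (fun x _ => ?_) hz.1
      change a (((0 : I) : ℝ) • x) = ((0 : I) : ℝ) • x
      rw [ha]
      simp
    rw [tau_fix hi h5, map_zero, map_zero, sub_zero]
    exact Submodule.zero_mem _
  rw [e1, push_id] at h3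
  have h5 := BT.add h3 h4
  rw [sub_add_cancel] at h5
  have h6 : BT (tau p a ^ i) k Set.univ {0}ᶜ v := by
    refine ⟨0, Submodule.zero_mem _, ?_⟩
    rw [map_zero, map_zero, sub_zero]
    exact C_le_Q _ _ (ht.mem_C hinj hinv hv)
  have h7 := BT.add (h5.mono subset_rfl (Set.empty_subset _)) h6
  rw [sub_add_cancel] at h7
  exact h7

end Pool.Agent.TCH
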