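import Pool.Agent.Lib.TC.HR16

/-!
# Homology library, HR17
-/

namespace Pool.Agent.TCH

open CubeHom

namespace H17

variable {X Y : Type*}

theorem inj_of_per [TopologicalSpace X] {p : ℕ} (hp : 0 < p) {g : C(X, X)} (hg : ∀ x, (g^[p]) x = x) :
    Function.Injective g := by
  obtain ⟨q, rfl⟩ : ∃ q, p = q + 1 := ⟨p - 1, by omega⟩
  intro x y h
  have h1 : (g^[q + 1]) x = (g^[q + 1]) y := by
    rw [Function.iterate_succ_apply, Function.iterate_succ_apply, h]
  rwa [hg, hg] at h1

theorem iter_comm {a : Y → Y} {g : X → X} {e : Y → X} (h : ∀ v, e (a v) = g (e v)) (m : ℕ) (v : Y) :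
    e ((a^[m]) v) = (g^[m]) (e v) := by
  induction m generalizing v with
  | zero => rfl
  | succ m ih => rw [Function.iterate_succ_apply, Function.iterate_succ_apply, ih, h]

end H17

open H17

variable {p : ℕ} [hp : Fact p.Prime] {X : Type*} [TopologicalSpace X] {g : C(X, X)} {n : ℕ}

/-- **Local vanishing** at a fixed point with a linear chart. -/
theorem van_local [T2Space X] (hn : 1 ≤ n) (hg : ∀ x, (g^[p]) x = x) {x : X}
    (hx : LinChart n g x) {i : ℕ} (hi : 1 ≤ i) (hip : i < p) {k : ℤ} (hk : (n : ℤ) < k)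
    {c : Ch (ZMod p) X} (hc : ZT (tau p g ^ i) k Set.univ {x}ᶜ c) :
    BT (tau p g ^ i) k Set.univ {x}ᶜ c := by
  obtain ⟨A, e, he, rfl, hA⟩ := hx
  have hp0 : 0 < p := hp.out.pos
  have hinj : Function.Injective g := inj_of_per hp0 hg
  let a : C(EuclideanSpace ℝ (Fin n), EuclideanSpace ℝ (Fin n)) := ⟨A, A.continuous⟩
  have ha : ∀ v, a v = A v := fun v => rfl
  have hea : ∀ v, e (a v) = g (e v) := hA
  have hap : ∀ v, (a^[p]) v = v := by
    intro v
    apply he.injective
    rw [iter_comm hea, hg]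
  have hg0 : g (e 0) = e 0 := by
    rw [← hA, map_zero]
  have ht : TOp g (tau p g ^ i) := tau_top hinj i
  have hU : Inv g (Set.range e) := by
    intro y
    constructor
    · rintro ⟨v, hv⟩
      refine ⟨(a^[p - 1]) v, ?_⟩
      rw [iter_comm hea, hv, ← Function.iterate_succ_apply,
        show (p - 1).succ = p from by omega, hg]
    · rintro ⟨v, rfl⟩
      exact ⟨a v, hea v⟩
  have hI : Inv g ({e 0}ᶜ : Set X) := by
    intro y
    simp only [Set.mem_compl_iff, Set.mem_singleton_iff, not_iff_not]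
    constructor
    · intro h
      rw [← hg0] at h
      exact hinj h
    · rintro rfl
      exact hg0
  have hcov : Set.range e ∪ ({e 0}ᶜ : Set X) = Set.univ := by
    rw [Set.eq_univ_iff_forall]
    intro y
    by_cases hy : y = e 0
    · exact Or.inl ⟨0, hy.symm⟩
    · exact Or.inr hy
  obtain ⟨c', hc', hb⟩ := excT_surj ht hinj he.isOpen_range isOpen_compl_singleton hU hI hcov hc
  obtain ⟨c₀, hc₀, rfl⟩ := TL.exists_push_of_mem_C he.toIsInducing he.injective hc'.1
  have hpre : e ⁻¹' ({e 0}ᶜ : Set X) = {0}ᶜ := by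
    ext v
    simp only [Set.mem_preimage, Set.mem_compl_iff, Set.mem_singleton_iff, he.injective.eq_iff]
  have hz : ZT (tau p a ^ i) k Set.univ {0}ᶜ c₀ := by
    refine ⟨hc₀, ?_⟩
    have h1 := hc'.2
    rw [← tau_push e hea, bd_push, push_mem_Q_iff he.injective, hpre] at h1
    exact h1
  obtain ⟨b, hb1, hb2⟩ := van_origin A a ha hn hap hi hip hk hz
  have h2 : BT (tau p g ^ i) k Set.univ {e 0}ᶜ (push e c₀) := by
    refine ⟨push e b, push_mem_C (Set.mapsTo_univ _ _) hb1, ?_⟩
    rw [← tau_push e hea, ← tau_push e hea, bd_push, ← map_sub, push_mem_Q_iff he.injective, hpre]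
    exact hb2
  have h3 := hb.add h2
  rwa [sub_add_cancel] at h3

end Pool.Agent.TCH
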