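import Pool.Agent.Lib.TC.HSmVan

/-!
# Homology library, HR18
-/

namespace Pool.Agent.TCH

open CubeHom

variable {p n : ℕ} [hp : Fact p.Prime] {X Y : Type*} [TopologicalSpace X] [TopologicalSpace Y]
  {g : C(X, X)} {h : C(Y, Y)}

namespace H18

theorem inj_of_per (hg : ∀ x, (g^[p]) x = x) : Function.Injective g := by
  have h1 : p = (p - 1) + 1 := (Nat.succ_pred_eq_of_pos hp.out.pos).symm
  intro x y h
  have hx := hg x
  have hy := hg y
  rw [h1, Function.iterate_succ_apply] at hx hy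
  rw [← hx, ← hy, h]

theorem inv_univ : Inv g (Set.univ : Set X) := fun _ => Iff.rfl

/-- A power of `tau` maps boundaries to boundaries. -/
theorem tau_Bd (hg : ∀ x, (g^[p]) x = x) {A : Set X} (hA : Inv g A) {k : ℤ} (i : ℕ)
    {c : Ch (ZMod p) X} (h : Bd (ZMod p) k Set.univ A c) :
    Bd (ZMod p) k Set.univ A ((tau p g ^ i) c) := by
  have hi := inj_of_per hg
  have ht := tau_top (p := p) hi i
  obtain ⟨b, hb, h1⟩ := h
  refine ⟨(tau p g ^ i) b, ht.mem_C hi inv_univ hb, ?_⟩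
  rw [← ht.bd, ← map_sub]
  exact ht.mem_Q hi hA h1

end H18

open H18 in
/-- A class of `tau^i C` in the top degree which bounds in `C` bounds in `tau^i C`. -/
theorem top_inj (hg : ∀ x, (g^[p]) x = x) {A : Set X} (hA : Inv g A) {k : ℤ}
    (hvan : ∀ i : ℕ, 1 ≤ i → i < p → ∀ c,
      ZT (tau p g ^ i) (k + 1) Set.univ A c → BT (tau p g ^ i) (k + 1) Set.univ A c)
    {i : ℕ} (hi : 1 ≤ i) (hip : i < p) {c : Ch (ZMod p) X} (hc : c ∈ C (ZMod p) k Set.univ)
    (h : Bd (ZMod p) k Set.univ A ((tau p g ^ i) c)) : BT (tau p g ^ i) k Set.univ A c := by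
  have hinj := inj_of_per hg
  have ht := tau_top (p := p) hinj i
  have ht' := tau_top (p := p) hinj (p - i)
  obtain ⟨b, hb, hq⟩ := h
  -- `b` is a cycle for `tau^(p-i)`
  have hpi : (tau p g ^ (p - i)) ((tau p g ^ i) c) = 0 := by
    rw [← Module.End.mul_apply, ← pow_add, Nat.sub_add_cancel hip.le]
    exact tau_pow_p hg c
  have hZ : ZT (tau p g ^ (p - i)) (k + 1) Set.univ A b := by
    refine ⟨hb, ?_⟩
    rw [← ht'.bd]
    have h1 := ht'.mem_Q hinj hA hq
    rw [map_sub, hpi, zero_sub] at h1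
    have h2 := Submodule.neg_mem _ h1
    rw [neg_neg] at h2
    rwa [add_sub_cancel_right]
  obtain ⟨e, he, hbe⟩ := hvan (p - i) (by omega) (by omega) b hZ
  rw [← ht'.bd, ← map_sub] at hbe
  have hbe' : b - bd (k + 1 + 1) e ∈ C (ZMod p) (k + 1) Set.univ :=
    Submodule.sub_mem _ hb (bd_mem_C' he)
  obtain ⟨c', hc', f, hf, hq'⟩ := ker_tau hg (by omega) (by omega) hA hbe' hbe
  rw [Nat.sub_sub_self hip.le] at hq'
  -- the boundary
  have h3 := bd_mem_Q' hq'
  rw [map_sub, map_sub, map_sub, bd_bd', sub_zero, ← ht.bd] at h3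
  have h4 : (tau p g ^ i) (c - bd (k + 1) c') + (- bd (k + 1) f) ∈ Q (ZMod p) k A := by
    have h5 := Submodule.add_mem _ hq h3
    have h6 : (tau p g ^ i) c - bd (k + 1) b +
        (bd (k + 1) b - (tau p g ^ i) (bd (k + 1) c') - bd (k + 1) f) =
        (tau p g ^ i) (c - bd (k + 1) c') + (- bd (k + 1) f) := by
      rw [map_sub]
      abel
    rwa [h6] at h5
  have h5 := (tau_direct hg hi hA (Submodule.sub_mem _ hc (bd_mem_C' hc'))
    (Submodule.neg_mem _ (bd_mem_C' hf)) h4).1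
  refine ⟨c', hc', ?_⟩
  rw [← ht.bd, ← map_sub]
  exact h5

open H18 in
/-- **5.5**: if the homology of `(X, A)` is generated by `z` in degree `n`, the fixed point set
has no homology in degree `n`, and the Smith groups vanish above `n`, then `z` is homologous to
an element of `tau^(p-1) C`. -/
theorem exists_top (hg : ∀ x, (g^[p]) x = x) {A : Set X} (hA : Inv g A)
    (hvan : ∀ i : ℕ, 1 ≤ i → i < p → ∀ k : ℤ, (n : ℤ) < k → ∀ c,
      ZT (tau p g ^ i) k Set.univ A c → BT (tau p g ^ i) k Set.univ A c)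
    (hfix : ∀ f ∈ Z (ZMod p) n (fixS g) A, Bd (ZMod p) n (fixS g) A f)
    {z : Ch (ZMod p) X} (hz : z ∈ Z (ZMod p) n Set.univ A)
    (hgen : ∀ w ∈ Z (ZMod p) n Set.univ A, ∃ r : ZMod p, Bd (ZMod p) n Set.univ A (w - r • z))
    (hne : ¬ Bd (ZMod p) n Set.univ A z) :
    ∃ c ∈ C (ZMod p) n (Set.univ : Set X),
      Bd (ZMod p) n Set.univ A (z - (tau p g ^ (p - 1)) c) := by
  have hinj := inj_of_per hg
  have h2p := hp.out.two_le
  have ht := tau_top (p := p) hinj 1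
  have htz : (tau p g ^ 1) z ∈ Z (ZMod p) n Set.univ A := by
    refine ⟨ht.mem_C hinj inv_univ hz.1, ?_⟩
    change bd (n : ℤ) ((tau p g ^ 1) z) ∈ Q (ZMod p) (n - 1) A
    rw [← ht.bd]
    exact ht.mem_Q hinj hA hz.2
  obtain ⟨r, hr⟩ := hgen _ htz
  -- `r = 0`
  have hpow : ∀ m : ℕ, Bd (ZMod p) n Set.univ A ((tau p g ^ m) z - r ^ m • z) := by
    intro m
    induction m with
    | zero =>
      rw [pow_zero, pow_zero, one_smul, Module.End.one_apply, sub_self]
      exact Bd.zero _ _ _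
    | succ m ih =>
      have h1 := (tau_Bd hg hA 1 ih).add (hr.smul (r ^ m))
      have h2 : (tau p g ^ 1) ((tau p g ^ m) z - r ^ m • z) +
          r ^ m • ((tau p g ^ 1) z - r • z) = (tau p g ^ (m + 1)) z - r ^ (m + 1) • z := by
        rw [map_sub, map_smul, ← Module.End.mul_apply, ← pow_add, Nat.add_comm 1 m, smul_sub,
          smul_smul, ← pow_succ]
        abel
      rwa [h2] at h1
  have hr0 : r = 0 := by
    by_contra h1
    have h2 := hpow p
    rw [tau_pow_p hg, zero_sub] at h2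
    have h3 := (h2.neg).smul (r ^ p)⁻¹
    rw [neg_neg, smul_smul, inv_mul_cancel₀ (pow_ne_zero _ h1), one_smul] at h3
    exact hne h3
  rw [hr0, zero_smul, sub_zero] at hr
  obtain ⟨c', hc', hq⟩ := top_inj hg hA (fun i hi hip c => hvan i hi hip (n + 1) (by omega) c)
    le_rfl (by omega) hz.1 hr
  rw [← ht.bd, ← map_sub] at hq
  have hzc : z - bd ((n : ℤ) + 1) c' ∈ C (ZMod p) n Set.univ :=
    Submodule.sub_mem _ hz.1 (bd_mem_C' hc')
  obtain ⟨c'', hc'', f, hf, hq'⟩ := ker_tau hg le_rfl (by omega) hA hzc hq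
  have htp := tau_top (p := p) hinj (p - 1)
  -- `f` is a cycle
  have h3 := bd_mem_Q hq'
  rw [map_sub, map_sub, map_sub, bd_bd', sub_zero, ← htp.bd] at h3
  have h4 : (tau p g ^ (p - 1)) (bd (n : ℤ) c'') + bd (n : ℤ) f ∈ Q (ZMod p) (n - 1) A := by
    have hz2 : bd (n : ℤ) z ∈ Q (ZMod p) (n - 1) A := hz.2
    have h5 := Submodule.sub_mem _ hz2 h3
    have h6 : bd (n : ℤ) z - (bd (n : ℤ) z - (tau p g ^ (p - 1)) (bd (n : ℤ) c'') -
        bd (n : ℤ) f) = (tau p g ^ (p - 1)) (bd (n : ℤ) c'') + bd (n : ℤ) f := by abel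
    rwa [h6] at h5
  have h5 := (tau_direct hg (by omega) hA (bd_mem_C hc'') (bd_mem_C hf) h4).2
  have h6 := (hfix f ⟨hf, h5⟩).mono (Set.subset_univ _) (Set.Subset.refl A)
  refine ⟨c'', hc'', ?_⟩
  have h7 := (Bd.of_bd (A := A) hc').add (h6.add (Bd.of_mem_Q (U := Set.univ) hq'))
  have h8 : bd ((n : ℤ) + 1) c' + (f + (z - bd ((n : ℤ) + 1) c' - (tau p g ^ (p - 1)) c'' - f)) =
      z - (tau p g ^ (p - 1)) c'' := by abel
  rwa [h8] at h7

end Pool.Agent.TCH
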