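import Pool.Agent.Lib.TC.HLadDefs

/-!
# Homology library, HR19
-/

namespace Pool.Agent.TCH

open CubeHom

variable {p n : ℕ} [hp : Fact p.Prime] {X Y : Type*} [TopologicalSpace X] [TopologicalSpace Y]
  {g : C(X, X)} {h : C(Y, Y)}

namespace H19

theorem inj_of_per (hg : ∀ x, (g^[p]) x = x) : Function.Injective g := by
  obtain ⟨m, hm⟩ : ∃ m, p = m + 1 := ⟨p - 1, by have := hp.out.pos; omega⟩
  intro x y hxy
  have h1 : (g^[m]) (g x) = (g^[m]) (g y) := by rw [hxy]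
  rw [← Function.iterate_succ_apply, ← Function.iterate_succ_apply, ← Nat.succ_eq_add_one] at *
  rw [hm] at hg
  rwa [hg, hg] at h1

theorem inv_univ (g : C(X, X)) : Inv g (Set.univ : Set X) := fun _ => Iff.rfl

theorem tau_mem_C (hg : Function.Injective g) (i : ℕ) {k : ℤ} {c : Ch (ZMod p) X}
    (hc : c ∈ C (ZMod p) k (Set.univ : Set X)) :
    (tau p g ^ i) c ∈ C (ZMod p) k (Set.univ : Set X) :=
  (tau_top hg i).mem_C hg (inv_univ g) hc

theorem tau_mem_Q (hg : Function.Injective g) (i : ℕ) {A : Set X} (hA : Inv g A) {k : ℤ}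
    {c : Ch (ZMod p) X} (hc : c ∈ Q (ZMod p) k A) : (tau p g ^ i) c ∈ Q (ZMod p) k A :=
  (tau_top hg i).mem_Q hg hA hc

theorem tau_bd (hg : Function.Injective g) (i : ℕ) (k : ℤ) (c : Ch (ZMod p) X) :
    (tau p g ^ i) (bd k c) = bd k ((tau p g ^ i) c) := (tau_top hg i).bd k c

theorem tau_add (i j : ℕ) (c : Ch (ZMod p) X) :
    (tau p g ^ i) ((tau p g ^ j) c) = (tau p g ^ (i + j)) c := by
  rw [pow_add]; rfl

theorem tau_big (hg : ∀ x, (g^[p]) x = x) {i : ℕ} (hi : p ≤ i) (c : Ch (ZMod p) X) :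
    (tau p g ^ i) c = 0 := by
  obtain ⟨j, rfl⟩ : ∃ j, i = j + p := ⟨i - p, by omega⟩
  rw [← tau_add, tau_pow_p hg, map_zero]

/-- A `tau^i`-cycle whose image is a boundary is a `tau^i`-boundary. -/
theorem top_inj (hg : ∀ x, (g^[p]) x = x) {A : Set X} (hA : Inv g A)
    (hvan : ∀ i : ℕ, 1 ≤ i → i < p → ∀ k : ℤ, (n : ℤ) < k → ∀ c,
      ZT (tau p g ^ i) k Set.univ A c → BT (tau p g ^ i) k Set.univ A c)
    {i : ℕ} (hi : 1 ≤ i) (hip : i < p) {c : Ch (ZMod p) X} (hc : c ∈ C (ZMod p) n Set.univ)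
    (hb : Bd (ZMod p) n Set.univ A ((tau p g ^ i) c)) : BT (tau p g ^ i) n Set.univ A c := by
  have hgi := inj_of_per hg
  obtain ⟨b, hbC, hb⟩ := hb
  -- `b` is a cycle of the complementary complex
  have h1 : (tau p g ^ (p - i)) ((tau p g ^ i) c - bd ((n : ℤ) + 1) b) ∈ Q (ZMod p) n A :=
    tau_mem_Q hgi _ hA hb
  rw [map_sub, tau_add, tau_big hg (by omega), zero_sub, tau_bd hgi] at h1
  have h2 : bd ((n : ℤ) + 1) ((tau p g ^ (p - i)) b) ∈ Q (ZMod p) (((n : ℤ) + 1) - 1) A := by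
    rw [add_sub_cancel_right]
    exact (Submodule.neg_mem_iff _).1 h1
  obtain ⟨e, he, h3⟩ := hvan (p - i) (by omega) (by omega) ((n : ℤ) + 1) (by omega) b ⟨hbC, h2⟩
  have h4 : (tau p g ^ (p - i)) (b - bd ((n : ℤ) + 1 + 1) e) ∈ Q (ZMod p) ((n : ℤ) + 1) A := by
    rw [map_sub, tau_bd hgi]
    exact h3
  have h5 : b - bd ((n : ℤ) + 1 + 1) e ∈ C (ZMod p) ((n : ℤ) + 1) (Set.univ : Set X) :=
    Submodule.sub_mem _ hbC (bd_mem_C' he)
  obtain ⟨b', hb', f, hf, h6⟩ := ker_tau hg (by omega) (by omega) hA h5 h4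
  rw [show p - (p - i) = i by omega] at h6
  have h7 := bd_mem_Q' h6
  rw [map_sub, map_sub, map_sub, bd_bd', sub_zero, ← tau_bd hgi] at h7
  refine ⟨b', hb', ?_⟩
  -- combine
  have h8 : (tau p g ^ i) (c - bd ((n : ℤ) + 1) b') + (-bd ((n : ℤ) + 1) f) ∈ Q (ZMod p) n A := by
    have h9 := Submodule.add_mem _ hb h7
    have e1 : (tau p g ^ i) c - bd ((n : ℤ) + 1) b + (bd ((n : ℤ) + 1) b -
        (tau p g ^ i) (bd ((n : ℤ) + 1) b') - bd ((n : ℤ) + 1) f) =
        (tau p g ^ i) (c - bd ((n : ℤ) + 1) b') + (-bd ((n : ℤ) + 1) f) := by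
      rw [map_sub]; abel
    rwa [e1] at h9
  have h10 := (tau_direct hg hi hA (Submodule.sub_mem _ hc (bd_mem_C' hb'))
    (Submodule.neg_mem _ (bd_mem_C' hf)) h8).1
  rw [← tau_bd hgi, ← map_sub]
  exact h10

theorem BT.bd {t : Module.End (ZMod p) (Ch (ZMod p) X)} {A : Set X} {k : ℤ} {c : Ch (ZMod p) X}
    (ht : ∀ {c : Ch (ZMod p) X}, c ∈ C (ZMod p) (k + 1) (Set.univ : Set X) →
      t c ∈ C (ZMod p) (k + 1) (Set.univ : Set X))
    (hb : BT t k Set.univ A c) : Bd (ZMod p) k Set.univ A (t c) := by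
  obtain ⟨b, hb, h⟩ := hb
  exact ⟨t b, ht hb, h⟩

end H19

open H19 in
/-- At the top: `Φ` is an isomorphism on the Smith groups of degree `n` if it is one on
`H_n(X, A)`. -/
theorem lad_top {A : Set X} {B : Set Y} {z : Ch (ZMod p) X} {z' : Ch (ZMod p) Y}
    (hX : SmithDat p n g A z) (hY : SmithDat p n h B z') {Φ : C(X, Y)}
    (hΦ : ∀ x, Φ (g x) = h (Φ x)) (hAB : Set.MapsTo Φ A B)
    (hne : ¬ Bd (ZMod p) n Set.univ B (push Φ z)) :
    LadInj p g A h B Φ n ∧ LadSurj p g A h B Φ n := by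
  have hgi := inj_of_per hX.per
  have hhi := inj_of_per hY.per
  have hpush : ∀ {c : Ch (ZMod p) X}, Bd (ZMod p) n Set.univ A c →
      Bd (ZMod p) n Set.univ B (push Φ c) := fun hc =>
    Bd.push (Set.mapsTo_univ _ _) hAB hc
  constructor
  · intro i hi hip c hc hb
    have h1 : (tau p g ^ i) c ∈ Z (ZMod p) n Set.univ A := ⟨tau_mem_C hgi i hc.1, hc.2⟩
    obtain ⟨r, hr⟩ := hX.gen _ h1
    have h2 := hpush hr
    rw [map_sub, map_smul, tau_push Φ hΦ] at h2
    have h3 : Bd (ZMod p) n Set.univ B ((tau p h ^ i) (push Φ c)) :=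
      BT.bd (fun hc => tau_mem_C hhi i hc) hb
    have h4 : Bd (ZMod p) n Set.univ B (r • push Φ z) := by
      have := h3.sub h2
      rwa [sub_sub_cancel] at this
    have hr0 : r = 0 := by
      by_contra hr0
      apply hne
      have := h4.smul r⁻¹
      rwa [smul_smul, inv_mul_cancel₀ hr0, one_smul] at this
    rw [hr0, zero_smul, sub_zero] at hr
    exact top_inj hX.per hX.inv hX.van hi hip hc.1 hr
  · intro i hi hip w hw
    obtain ⟨c0, hc0, htop⟩ := hX.top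
    have hz : push Φ z ∈ Z (ZMod p) n Set.univ B := push_mem_Z (Set.mapsTo_univ _ _) hAB hX.mem
    obtain ⟨s, hs⟩ := hY.gen _ hz
    have hs0 : s ≠ 0 := by
      rintro rfl
      rw [zero_smul, sub_zero] at hs
      exact hne hs
    have hw1 : (tau p h ^ i) w ∈ Z (ZMod p) n Set.univ B := ⟨tau_mem_C hhi i hw.1, hw.2⟩
    obtain ⟨r, hr⟩ := hY.gen _ hw1
    have hci : (tau p g ^ i) ((tau p g ^ (p - 1 - i)) c0) = (tau p g ^ (p - 1)) c0 := by
      rw [tau_add, show i + (p - 1 - i) = p - 1 by omega]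
    refine ⟨(r / s) • (tau p g ^ (p - 1 - i)) c0, ⟨Submodule.smul_mem _ _ (tau_mem_C hgi _ hc0),
      ?_⟩, ?_⟩
    · rw [map_smul, map_smul, hci]
      refine Submodule.smul_mem _ _ ?_
      have h1 := htop.bd_mem
      rw [map_sub] at h1
      have h2 : bd (n : ℤ) z ∈ Q (ZMod p) ((n : ℤ) - 1) A := hX.mem.2
      have h3 := Submodule.sub_mem _ h2 h1
      rwa [sub_sub_cancel] at h3
    · refine top_inj hY.per hY.inv hY.van hi hip (Submodule.sub_mem _ hw.1
        (push_mem_C (Set.mapsTo_univ _ _) (Submodule.smul_mem _ _ (tau_mem_C hgi _ hc0)))) ?_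
      rw [map_sub, ← tau_push Φ hΦ, map_smul, hci, map_smul]
      -- `tau^i w ~ r z'`, `push tau^(p-1) c0 ~ push z ~ s z'`
      have h1 : Bd (ZMod p) n Set.univ B (push Φ z - push Φ ((tau p g ^ (p - 1)) c0)) := by
        have := hpush htop
        rwa [map_sub] at this
      have h2 : Bd (ZMod p) n Set.univ B (s • z' - push Φ ((tau p g ^ (p - 1)) c0)) :=
        hs.sub_comm.trans h1
      have h3 := h2.smul (r / s)
      rw [smul_sub, smul_smul, div_mul_cancel₀ _ hs0] at h3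
      exact hr.trans h3

end Pool.Agent.TCH
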