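import Pool.Agent.Lib.TC.HR19

/-!
# Homology library, HR20
-/

namespace Pool.Agent.TCH

open CubeHom

variable {p n : ℕ} [hp : Fact p.Prime] {X Y : Type*} [TopologicalSpace X] [TopologicalSpace Y]
  {g : C(X, X)} {h : C(Y, Y)}

-- Row H20 (helper61): replaces the sorried lad_step in HSmLad.lean (insert this block in namespace Pool.Agent.TCH, after FixSurj/lad_top).
-- Compiles inside HSmLad.lean (skeleton of 22:30Z), no sorry of its own.
namespace H20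

variable {p n : ℕ} [hp : Fact p.Prime] {X Y : Type*} [TopologicalSpace X] [TopologicalSpace Y]
  {g : C(X, X)} {h : C(Y, Y)}

theorem inj (hg : ∀ x, (g^[p]) x = x) : Function.Injective g := by
  have hp1 : p = (p - 1) + 1 := by have := hp.out.pos; omega
  have h1 : Function.Injective (g^[p]) := by
    intro a b hab
    rwa [hg, hg] at hab
  rw [hp1, Function.iterate_succ] at h1
  exact Function.Injective.of_comp h1

omit hp in
theorem tau_tau (i j : ℕ) (c : Ch (ZMod p) X) :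
    (tau p g ^ i) ((tau p g ^ j) c) = (tau p g ^ (i + j)) c := by
  rw [pow_add]
  rfl

theorem tau_of_le (hg : ∀ x, (g^[p]) x = x) {m : ℕ} (hm : p ≤ m) (c : Ch (ZMod p) X) :
    (tau p g ^ m) c = 0 := by
  obtain ⟨l, rfl⟩ := Nat.exists_eq_add_of_le hm
  rw [← tau_tau, tau_pow_p hg]

theorem tau_bd (hg : ∀ x, (g^[p]) x = x) (i : ℕ) (k : ℤ) (c : Ch (ZMod p) X) :
    (tau p g ^ i) (bd k c) = bd k ((tau p g ^ i) c) :=
  (tau_top (inj hg) i).bd k c

theorem tau_Q (hg : ∀ x, (g^[p]) x = x) {A : Set X} (hA : Inv g A) (i : ℕ) {k : ℤ}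
    {c : Ch (ZMod p) X} (hc : c ∈ Q (ZMod p) k A) : (tau p g ^ i) c ∈ Q (ZMod p) k A :=
  (tau_top (inj hg) i).mem_Q (inj hg) hA hc

theorem tau_C (hg : ∀ x, (g^[p]) x = x) (i : ℕ) {k : ℤ}
    {c : Ch (ZMod p) X} (hc : c ∈ C (ZMod p) k Set.univ) :
    (tau p g ^ i) c ∈ C (ZMod p) k Set.univ :=
  (tau_top (inj hg) i).mem_C (inj hg) (fun _ => by simp) hc

/-- The boundary of a cycle of `tau^i C` splits. -/
theorem fact1 (hg : ∀ x, (g^[p]) x = x) {A : Set X} (hA : Inv g A) {i : ℕ} (hi : 1 ≤ i)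
    (hip : i < p) {j : ℤ} {w : Ch (ZMod p) X} (hw : ZT (tau p g ^ i) j Set.univ A w) :
    ∃ u ∈ C (ZMod p) (j - 1) (Set.univ : Set X), ∃ v ∈ C (ZMod p) (j - 1) (fixS g),
      bd j w - (tau p g ^ (p - i)) u - v ∈ Q (ZMod p) (j - 1) A := by
  refine ker_tau hg hi hip hA (bd_mem_C hw.1) ?_
  rw [tau_bd hg]
  exact hw.2

/-- Both parts are cycles. -/
theorem fact1' (hg : ∀ x, (g^[p]) x = x) {A : Set X} (hA : Inv g A) {i : ℕ}
    (hip : i < p) {j : ℤ} {b u v : Ch (ZMod p) X}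
    (hu : u ∈ C (ZMod p) (j - 1) (Set.univ : Set X)) (hv : v ∈ C (ZMod p) (j - 1) (fixS g))
    (h : bd j b - (tau p g ^ (p - i)) u - v ∈ Q (ZMod p) (j - 1) A) :
    ZT (tau p g ^ (p - i)) (j - 1) Set.univ A u ∧ v ∈ Z (ZMod p) (j - 1) (fixS g) A := by
  have h1 := bd_mem_Q h
  have h2 : (tau p g ^ (p - i)) (bd (j - 1) u) + bd (j - 1) v ∈ Q (ZMod p) (j - 1 - 1) A := by
    rw [map_sub, map_sub, bd_bd, ← tau_bd hg] at h1
    have e : (tau p g ^ (p - i)) (bd (j - 1) u) + bd (j - 1) v =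
      -(0 - (tau p g ^ (p - i)) (bd (j - 1) u) - bd (j - 1) v) := by abel
    rw [e]
    exact Submodule.neg_mem _ h1
  obtain ⟨h3, h4⟩ := tau_direct hg (i := p - i) (by omega) hA (bd_mem_C hu) (bd_mem_C hv) h2
  rw [tau_bd hg] at h3
  exact ⟨⟨hu, h3⟩, hv, h4⟩

/-- Cycles of degree `j - 1` bound; the bounding chain is a cycle of `tau^i C`. -/
theorem fact2 {A : Set X} {z : Ch (ZMod p) X} (hX : SmithDat p n g A z) {j : ℤ} (hj2 : 2 ≤ j)
    (hjn : j ≤ n) {i : ℕ} {v : Ch (ZMod p) X} (hv : v ∈ Z (ZMod p) (j - 1) Set.univ A)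
    (h0 : (tau p g ^ i) v ∈ Q (ZMod p) (j - 1) A) :
    ∃ b, bd j b - v ∈ Q (ZMod p) (j - 1) A ∧ ZT (tau p g ^ i) j Set.univ A b := by
  obtain ⟨b, hb, hb1⟩ := hX.low (j - 1) (by omega) (by omega) v hv
  rw [sub_add_cancel] at hb hb1
  have hb2 : bd j b - v ∈ Q (ZMod p) (j - 1) A := by
    have h := Submodule.neg_mem _ hb1
    rwa [neg_sub] at h
  refine ⟨b, hb2, hb, ?_⟩
  have h1 := tau_Q hX.per hX.inv i hb1
  have e : bd j ((tau p g ^ i) b) = (tau p g ^ i) v - (tau p g ^ i) (v - bd j b) := by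
    rw [map_sub, tau_bd hX.per]
    abel
  rw [e]
  exact Submodule.sub_mem _ h0 h1

theorem fact2_tau {A : Set X} {z : Ch (ZMod p) X} (hX : SmithDat p n g A z) {j : ℤ}
    (hj2 : 2 ≤ j) (hjn : j ≤ n) {i : ℕ} (hip : i < p) {c : Ch (ZMod p) X}
    (hc : ZT (tau p g ^ i) (j - 1) Set.univ A c) :
    ∃ b, bd j b - (tau p g ^ i) c ∈ Q (ZMod p) (j - 1) A ∧
      ZT (tau p g ^ (p - i)) j Set.univ A b := by
  refine fact2 hX hj2 hjn ⟨tau_C hX.per i hc.1, hc.2⟩ ?_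
  rw [tau_tau, tau_of_le hX.per (by omega)]
  exact Submodule.zero_mem _

theorem fact2_fix {A : Set X} {z : Ch (ZMod p) X} (hX : SmithDat p n g A z) {j : ℤ}
    (hj2 : 2 ≤ j) (hjn : j ≤ n) {i : ℕ} (hi : 1 ≤ i) {f : Ch (ZMod p) X}
    (hf : f ∈ Z (ZMod p) (j - 1) (fixS g) A) :
    ∃ b, bd j b - f ∈ Q (ZMod p) (j - 1) A ∧ ZT (tau p g ^ i) j Set.univ A b := by
  refine fact2 hX hj2 hjn ⟨C_mono _ (Set.subset_univ _) hf.1, hf.2⟩ ?_
  rw [tau_fix hi hf.1]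
  exact Submodule.zero_mem _

/-- A cycle of `(X, A)` of degree at most `n` is zero in the homology of `tau^i C`. -/
theorem cyc_zero {A : Set X} {z : Ch (ZMod p) X} (hX : SmithDat p n g A z) {j : ℤ}
    (hj1 : 1 ≤ j) (hjn : j ≤ n) {i : ℕ} (hi : 1 ≤ i) {v : Ch (ZMod p) X}
    (hv : v ∈ Z (ZMod p) j Set.univ A) : BT (tau p g ^ i) j Set.univ A v := by
  rcases lt_or_eq_of_le hjn with hlt | rfl
  · obtain ⟨e, he, he1⟩ := hX.low j hj1 hlt v hv
    refine ⟨e, he, ?_⟩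
    rw [← tau_bd hX.per, ← map_sub]
    exact tau_Q hX.per hX.inv i he1
  · obtain ⟨r, e₁, he₁, h1⟩ := hX.gen v hv
    obtain ⟨c₀, hc₀, e₂, he₂, h2⟩ := hX.top
    refine ⟨e₁ + r • e₂, Submodule.add_mem _ he₁ (Submodule.smul_mem _ _ he₂), ?_⟩
    have h3 := tau_Q hX.per hX.inv i (Submodule.add_mem _ h1 (Submodule.smul_mem _ r h2))
    have e0 : (tau p g ^ i) ((tau p g ^ (p - 1)) c₀) = 0 := by
      rw [tau_tau]
      exact tau_of_le hX.per (by omega) _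
    have e : (tau p g ^ i) v - bd ((n : ℤ) + 1) ((tau p g ^ i) (e₁ + r • e₂)) =
        (tau p g ^ i) (v - r • z - bd ((n : ℤ) + 1) e₁ +
          r • (z - (tau p g ^ (p - 1)) c₀ - bd ((n : ℤ) + 1) e₂)) := by
      rw [← tau_bd hX.per]
      simp only [map_add, map_sub, map_smul, e0]
      module
    rw [e]
    exact h3

/-- The connecting homomorphism is injective. -/
theorem fact3 {A : Set X} {z : Ch (ZMod p) X} (hX : SmithDat p n g A z) {j : ℤ}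
    (hj1 : 1 ≤ j) (hjn : j ≤ n) {i : ℕ} (hi : 1 ≤ i) (hip : i < p) {w u v : Ch (ZMod p) X}
    (hw : w ∈ C (ZMod p) j Set.univ)
    (h : bd j w - (tau p g ^ (p - i)) u - v ∈ Q (ZMod p) (j - 1) A)
    (hu : BT (tau p g ^ (p - i)) (j - 1) Set.univ A u)
    (hv : Bd (ZMod p) (j - 1) (fixS g) A v) : BT (tau p g ^ i) j Set.univ A w := by
  obtain ⟨b₁, hb₁, h1⟩ := hu
  obtain ⟨b₂, hb₂, h2⟩ := hv
  rw [sub_add_cancel] at hb₁ h1 hb₂ h2
  have hz : w - (tau p g ^ (p - i)) b₁ - b₂ ∈ Z (ZMod p) j Set.univ A := by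
    refine ⟨Submodule.sub_mem _ (Submodule.sub_mem _ hw (tau_C hX.per _ hb₁))
      (C_mono _ (Set.subset_univ _) hb₂), ?_⟩
    change bd j (w - (tau p g ^ (p - i)) b₁ - b₂) ∈ Q (ZMod p) (j - 1) A
    have e : bd j (w - (tau p g ^ (p - i)) b₁ - b₂) =
        (bd j w - (tau p g ^ (p - i)) u - v) +
          ((tau p g ^ (p - i)) u - bd j ((tau p g ^ (p - i)) b₁)) + (v - bd j b₂) := by
      rw [map_sub, map_sub]
      abel
    rw [e]
    exact Submodule.add_mem _ (Submodule.add_mem _ h h1) h2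
  obtain ⟨e, he, h3⟩ := cyc_zero hX hj1 hjn hi hz
  refine ⟨e, he, ?_⟩
  rwa [map_sub, map_sub, tau_tau, tau_of_le hX.per (m := i + (p - i)) (by omega),
    tau_fix hi hb₂, sub_zero, sub_zero] at h3

/-- A bounding cycle of `tau^i C`: its boundary. -/
theorem bnd_of_BT {A : Set X} {z : Ch (ZMod p) X} (hX : SmithDat p n g A z) {j : ℤ}
    {i : ℕ} (hi : 1 ≤ i) (hip : i < p) {b : Ch (ZMod p) X}
    (hb : b ∈ C (ZMod p) j Set.univ) (h : BT (tau p g ^ i) j Set.univ A b) :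
    ∃ b' ∈ C (ZMod p) j (Set.univ : Set X), ∃ f' ∈ C (ZMod p) j (fixS g),
      bd j b - (tau p g ^ (p - i)) (bd j b') - bd j f' ∈ Q (ZMod p) (j - 1) A := by
  obtain ⟨e, he, h1⟩ := h
  have h2 : (tau p g ^ i) (b - bd (j + 1) e) ∈ Q (ZMod p) j A := by
    rwa [map_sub, tau_bd hX.per]
  obtain ⟨b', hb', f', hf', h3⟩ := ker_tau hX.per hi hip hX.inv
    (Submodule.sub_mem _ hb (bd_mem_C' he)) h2
  refine ⟨b', hb', f', hf', ?_⟩
  have h4 := bd_mem_Q h3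
  rwa [map_sub, map_sub, map_sub, bd_bd', sub_zero, ← tau_bd hX.per] at h4

/-- Comparison of two decompositions of a boundary. -/
theorem compare {A : Set X} {z : Ch (ZMod p) X} (hX : SmithDat p n g A z) {j : ℤ}
    {i : ℕ} (hip : i < p) {d u v b' f' : Ch (ZMod p) X}
    (hu : u ∈ C (ZMod p) (j - 1) Set.univ) (hv : v ∈ C (ZMod p) (j - 1) (fixS g))
    (hb' : b' ∈ C (ZMod p) j (Set.univ : Set X)) (hf' : f' ∈ C (ZMod p) j (fixS g))
    (h1 : d - (tau p g ^ (p - i)) u - v ∈ Q (ZMod p) (j - 1) A)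
    (h2 : d - (tau p g ^ (p - i)) (bd j b') - bd j f' ∈ Q (ZMod p) (j - 1) A) :
    BT (tau p g ^ (p - i)) (j - 1) Set.univ A u ∧ Bd (ZMod p) (j - 1) (fixS g) A v := by
  have h3 : (tau p g ^ (p - i)) (u - bd j b') + (v - bd j f') ∈ Q (ZMod p) (j - 1) A := by
    have e : (tau p g ^ (p - i)) (u - bd j b') + (v - bd j f') =
        (d - (tau p g ^ (p - i)) (bd j b') - bd j f') -
          (d - (tau p g ^ (p - i)) u - v) := by
      rw [map_sub]
      abel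
    rw [e]
    exact Submodule.sub_mem _ h2 h1
  obtain ⟨h4, h5⟩ := tau_direct hX.per (i := p - i) (by omega) hX.inv
    (Submodule.sub_mem _ hu (bd_mem_C hb')) (Submodule.sub_mem _ hv (bd_mem_C hf')) h3
  constructor
  · refine ⟨b', by rwa [sub_add_cancel], ?_⟩
    rw [sub_add_cancel, ← tau_bd hX.per, ← map_sub]
    exact h4
  · refine ⟨f', by rwa [sub_add_cancel], ?_⟩
    rwa [sub_add_cancel]

/-- The injectivity part for a pair `(u, v)`. -/
theorem inj_pair {A : Set X} {B : Set Y} {z : Ch (ZMod p) X} {z' : Ch (ZMod p) Y}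
    (hX : SmithDat p n g A z) (hY : SmithDat p n h B z') {Φ : C(X, Y)}
    (hΦ : ∀ x, Φ (g x) = h (Φ x)) (hAB : Set.MapsTo Φ A B) {j : ℤ} (hj2 : 2 ≤ j) (hjn : j ≤ n)
    (hI : LadInj p g A h B Φ j) {i : ℕ} (hi : 1 ≤ i) (hip : i < p) {b u v : Ch (ZMod p) X}
    (hb : ZT (tau p g ^ i) j Set.univ A b)
    (hu : u ∈ C (ZMod p) (j - 1) Set.univ) (hv : v ∈ C (ZMod p) (j - 1) (fixS g))
    (h1 : bd j b - (tau p g ^ (p - i)) u - v ∈ Q (ZMod p) (j - 1) A)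
    (hu' : BT (tau p h ^ (p - i)) (j - 1) Set.univ B (push Φ u))
    (hv' : Bd (ZMod p) (j - 1) (fixS h) B (push Φ v)) :
    BT (tau p g ^ (p - i)) (j - 1) Set.univ A u ∧ Bd (ZMod p) (j - 1) (fixS g) A v := by
  have h2 : bd j (push Φ b) - (tau p h ^ (p - i)) (push Φ u) - push Φ v ∈
      Q (ZMod p) (j - 1) B := by
    rw [bd_push, ← tau_push Φ hΦ, ← map_sub, ← map_sub]
    exact push_mem_Q hAB h1
  have h3 : BT (tau p h ^ i) j Set.univ B (push Φ b) :=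
    fact3 hY (by omega) hjn hi hip (push_mem_C (Set.mapsTo_univ _ _) hb.1) h2 hu' hv'
  obtain ⟨b', hb', f', hf', h4⟩ := bnd_of_BT hX hi hip hb.1 (hI i hi hip b hb h3)
  exact compare hX hip hu hv hb' hf' h1 h4

/-- The surjectivity part for a pair `(u, v)`. -/
theorem surj_pair {A : Set X} {B : Set Y} {z : Ch (ZMod p) X} {z' : Ch (ZMod p) Y}
    (hX : SmithDat p n g A z) (hY : SmithDat p n h B z') {Φ : C(X, Y)}
    (hΦ : ∀ x, Φ (g x) = h (Φ x)) (hAB : Set.MapsTo Φ A B) {j : ℤ}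
    (hS : LadSurj p g A h B Φ j) {i : ℕ} (hi : 1 ≤ i) (hip : i < p) {b u v : Ch (ZMod p) Y}
    (hb : ZT (tau p h ^ i) j Set.univ B b)
    (hu : u ∈ C (ZMod p) (j - 1) Set.univ) (hv : v ∈ C (ZMod p) (j - 1) (fixS h))
    (h1 : bd j b - (tau p h ^ (p - i)) u - v ∈ Q (ZMod p) (j - 1) B) :
    ∃ u₁ v₁, ZT (tau p g ^ (p - i)) (j - 1) Set.univ A u₁ ∧
      v₁ ∈ Z (ZMod p) (j - 1) (fixS g) A ∧
      BT (tau p h ^ (p - i)) (j - 1) Set.univ B (u - push Φ u₁) ∧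
      Bd (ZMod p) (j - 1) (fixS h) B (v - push Φ v₁) := by
  obtain ⟨c, hc, hc1⟩ := hS i hi hip b hb
  obtain ⟨u₁, hu₁, v₁, hv₁, h2⟩ := fact1 hX.per hX.inv hi hip hc
  obtain ⟨hzu, hzv⟩ := fact1' hX.per hX.inv hip hu₁ hv₁ h2
  refine ⟨u₁, v₁, hzu, hzv, ?_⟩
  have hfix : Set.MapsTo Φ (fixS g) (fixS h) := by
    intro x hx
    change h (Φ x) = Φ x
    rw [← hΦ, show g x = x from hx]
  have hbc : b - push Φ c ∈ C (ZMod p) j Set.univ :=
    Submodule.sub_mem _ hb.1 (push_mem_C (Set.mapsTo_univ _ _) hc.1)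
  obtain ⟨b', hb', f', hf', h4⟩ := bnd_of_BT hY hi hip hbc hc1
  have h2' : bd j (push Φ c) - (tau p h ^ (p - i)) (push Φ u₁) - push Φ v₁ ∈
      Q (ZMod p) (j - 1) B := by
    rw [bd_push, ← tau_push Φ hΦ, ← map_sub, ← map_sub]
    exact push_mem_Q hAB h2
  have h5 : bd j (b - push Φ c) - (tau p h ^ (p - i)) (u - push Φ u₁) - (v - push Φ v₁) ∈
      Q (ZMod p) (j - 1) B := by
    have e : bd j (b - push Φ c) - (tau p h ^ (p - i)) (u - push Φ u₁) - (v - push Φ v₁) =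
        (bd j b - (tau p h ^ (p - i)) u - v) -
          (bd j (push Φ c) - (tau p h ^ (p - i)) (push Φ u₁) - push Φ v₁) := by
      rw [map_sub, map_sub]
      abel
    rw [e]
    exact Submodule.sub_mem _ h1 h2'
  exact compare hY hip (Submodule.sub_mem _ hu (push_mem_C (Set.mapsTo_univ _ _) hu₁))
    (Submodule.sub_mem _ hv (push_mem_C hfix hv₁)) hb' hf' h5 h4

theorem BT_zero {A : Set X} {i : ℕ} {j : ℤ} :
    BT (tau p g ^ i) j Set.univ A (0 : Ch (ZMod p) X) :=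
  ⟨0, Submodule.zero_mem _, by simp⟩

theorem Bd_zero' {F A : Set X} {j : ℤ} : Bd (ZMod p) j F A (0 : Ch (ZMod p) X) :=
  ⟨0, Submodule.zero_mem _, by simp⟩

end H20

/-- One step down: degree `j`, `2 ≤ j ≤ n`. -/
theorem lad_step {A : Set X} {B : Set Y} {z : Ch (ZMod p) X} {z' : Ch (ZMod p) Y}
    (hX : SmithDat p n g A z) (hY : SmithDat p n h B z') {Φ : C(X, Y)}
    (hΦ : ∀ x, Φ (g x) = h (Φ x)) (hAB : Set.MapsTo Φ A B) {j : ℤ} (hj2 : 2 ≤ j) (hjn : j ≤ n)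
    (hI : LadInj p g A h B Φ j) (hS : LadSurj p g A h B Φ j) :
    LadInj p g A h B Φ (j - 1) ∧ LadSurj p g A h B Φ (j - 1) ∧
      FixInj p g A h B Φ (j - 1) ∧ FixSurj p g A h B Φ (j - 1) := by
  have hp2 : 2 ≤ p := hp.out.two_le
  refine ⟨?_, ?_, ?_, ?_⟩
  · intro i hi hip c hc hc'
    obtain ⟨b, hb, hzb⟩ := H20.fact2_tau hX hj2 hjn hip hc
    have hi' : p - (p - i) = i := by omega
    have h1 : bd j b - (tau p g ^ (p - (p - i))) c - 0 ∈ Q (ZMod p) (j - 1) A := by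
      rw [hi', sub_zero]
      exact hb
    have h2 := (H20.inj_pair hX hY hΦ hAB hj2 hjn hI (i := p - i) (by omega) (by omega) hzb
      hc.1 (Submodule.zero_mem _) h1 (by rwa [hi']) (by rw [map_zero]; exact H20.Bd_zero')).1
    rwa [hi'] at h2
  · intro i hi hip w hw
    obtain ⟨b, hb, hzb⟩ := H20.fact2_tau hY hj2 hjn hip hw
    have hi' : p - (p - i) = i := by omega
    have h1 : bd j b - (tau p h ^ (p - (p - i))) w - 0 ∈ Q (ZMod p) (j - 1) B := by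
      rw [hi', sub_zero]
      exact hb
    obtain ⟨u₁, v₁, h2, -, h3, -⟩ := H20.surj_pair hX hY hΦ hAB hS (i := p - i) (by omega)
      (by omega) hzb hw.1 (Submodule.zero_mem _) h1
    rw [hi'] at h2 h3
    exact ⟨u₁, h2, h3⟩
  · intro f hf hf'
    obtain ⟨b, hb, hzb⟩ := H20.fact2_fix hX hj2 hjn le_rfl hf
    have h1 : bd j b - (tau p g ^ (p - 1)) 0 - f ∈ Q (ZMod p) (j - 1) A := by
      rw [map_zero, sub_zero]
      exact hb
    exact (H20.inj_pair hX hY hΦ hAB hj2 hjn hI (i := 1) le_rfl (by omega) hzb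
      (Submodule.zero_mem _) hf.1 h1 (by rw [map_zero]; exact H20.BT_zero) hf').2
  · intro w hw
    obtain ⟨b, hb, hzb⟩ := H20.fact2_fix hY hj2 hjn le_rfl hw
    have h1 : bd j b - (tau p h ^ (p - 1)) 0 - w ∈ Q (ZMod p) (j - 1) B := by
      rw [map_zero, sub_zero]
      exact hb
    obtain ⟨u₁, v₁, -, h2, -, h3⟩ := H20.surj_pair hX hY hΦ hAB hS (i := 1) le_rfl
      (by omega) hzb (Submodule.zero_mem _) hw.1 h1
    exact ⟨v₁, h2, h3⟩

end Pool.Agent.TCH
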