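import Pool.Agent.Lib.TC.HR20

/-!
# Homology library, HR21
-/

namespace Pool.Agent.TCH

open CubeHom

variable {p n : ℕ} [hp : Fact p.Prime] {X Y : Type*} [TopologicalSpace X] [TopologicalSpace Y]
  {g : C(X, X)} {h : C(Y, Y)}

namespace H21

open H19

theorem Q_zero : Q (ZMod p) (X := X) 0 ∅ = ⊥ := by
  unfold Q
  have : {σ : C(Cb, X) | IsCube 0 σ ∧ ((∀ u, σ u ∈ (∅ : Set X)) ∨ Degen 0 σ)} = ∅ := by
    ext σ
    constructor
    · rintro ⟨-, h | ⟨i, hi, -⟩⟩
      · exact (h (fun _ => 0)).elim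
      · omega
    · intro h; exact h.elim
  rw [this, Finsupp.supported_empty]

/-- The point `x` as a cube. -/
def pt (x : X) : C(Cb, X) := ContinuousMap.const Cb x

theorem pt_isCube (x : X) : IsCube 0 (pt x) := ⟨le_rfl, fun _ _ _ => rfl⟩

theorem eq_pt {σ : C(Cb, X)} (h : IsCube 0 σ) : σ = pt (σ (fun _ => 0)) := by
  ext u
  exact h.2 (fun i hi => absurd hi (by simp))

theorem pt_mem {S : Set X} {x : X} (hx : x ∈ S) :
    (Finsupp.single (pt x) 1 : Ch (ZMod p) X) ∈ C (ZMod p) 0 S :=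
  mem_C_single (pt_isCube x) (fun _ => hx) 1

/-- The augmentation. -/
noncomputable def aug : Ch (ZMod p) X →ₗ[ZMod p] ZMod p :=
  Finsupp.linearCombination (ZMod p) (fun _ => (1 : ZMod p))

theorem aug_single (σ : C(Cb, X)) (r : ZMod p) :
    aug (Finsupp.single σ r : Ch (ZMod p) X) = r := by
  simp [aug]

theorem aug_face (i : ℕ) (e : I) (c : Ch (ZMod p) X) : aug (face i e c) = aug c := by
  have : (aug (p := p) (X := X)).comp (face i e) = aug := by
    ext σ : 2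
    simp [aug_single]
  exact LinearMap.congr_fun this c

theorem aug_bd_one (c : Ch (ZMod p) X) : aug (bd 1 c) = 0 := by
  rw [bd_apply]
  simp [aug_face]

theorem aug_push (f : C(X, Y)) (c : Ch (ZMod p) X) : aug (push f c) = aug c := by
  have : (aug (p := p) (X := Y)).comp (push f) = aug := by
    ext σ : 2
    simp [aug_single]
  exact LinearMap.congr_fun this c

theorem aug_tau {i : ℕ} (hi : 1 ≤ i) (c : Ch (ZMod p) X) : aug ((tau p g ^ i) c) = 0 := by
  obtain ⟨j, rfl⟩ : ∃ j, i = 1 + j := ⟨i - 1, by omega⟩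
  rw [← tau_add, pow_one]
  unfold tau
  rw [LinearMap.sub_apply, Module.End.one_apply, map_sub, aug_push, sub_self]

/-- Every `0`-chain of a path connected set is homologous to a multiple of a point. -/
theorem zero_chain {S : Set X} (hS : IsPathConnected S) {x0 : X} (hx0 : x0 ∈ S)
    {c : Ch (ZMod p) X} (hc : c ∈ C (ZMod p) 0 S) :
    ∃ e ∈ C (ZMod p) 1 S, c = bd 1 e + aug c • Finsupp.single (pt x0) 1 := by
  have key : ((LinearMap.id : Ch (ZMod p) X →ₗ[ZMod p] Ch (ZMod p) X) -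
      (aug (p := p) (X := X)).smulRight (Finsupp.single (pt x0) 1 : Ch (ZMod p) X)) c ∈
      (C (ZMod p) 1 S).map (bd 1) := by
    refine map_mem_of_supported _ _ ?_ hc
    rintro σ ⟨hσ, hσS⟩
    have hx : σ (fun _ => 0) ∈ S := hσS _
    obtain ⟨γ, hγ⟩ := hS.joinedIn _ hx0 _ hx
    let e : C(Cb, X) := ⟨fun u => γ (u 0), γ.continuous.comp (continuous_apply 0)⟩
    have he : IsCube 1 e := by
      refine ⟨by norm_num, fun x y hxy => ?_⟩
      show γ (x 0) = γ (y 0)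
      rw [hxy 0 (by simp)]
    refine ⟨Finsupp.single e 1, mem_C_single he (fun u => hγ _) 1, ?_⟩
    rw [bd_apply]
    have h1 : e.comp (ins 0 1) = σ := by
      rw [eq_pt hσ]
      ext u
      show γ (ins 0 1 u 0) = _
      rw [ins_apply_self, γ.target]
      rfl
    have h0 : e.comp (ins 0 0) = pt x0 := by
      ext u
      show γ (ins 0 0 u 0) = _
      rw [ins_apply_self, γ.source]
      rfl
    simp [h1, h0, aug_single]
  obtain ⟨e, he, h⟩ := key
  refine ⟨e, he, ?_⟩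
  rw [h, LinearMap.sub_apply, LinearMap.id_apply, LinearMap.smulRight_apply, sub_add_cancel]

/-- Final step of all inductions. -/
theorem fin {A : Set X} {z : Ch (ZMod p) X} (hX : SmithDat p n g A z) {j : ℤ} (h1 : 1 ≤ j)
    (hjn : j ≤ n) {i : ℕ} (hi : 1 ≤ i) (hip : i < p) {c b e : Ch (ZMod p) X}
    (he : e ∈ C (ZMod p) j (fixS g))
    (hx : c - (tau p g ^ (p - i)) b - e ∈ Z (ZMod p) j Set.univ A) :
    BT (tau p g ^ i) j Set.univ A c := by
  have hgi := inj_of_per hX.per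
  have key : ∃ (r : ZMod p) (c0 : Ch (ZMod p) X),
      Bd (ZMod p) j Set.univ A (c - (tau p g ^ (p - i)) b - e - r • (tau p g ^ (p - 1)) c0) := by
    rcases lt_or_eq_of_le hjn with hlt | heq
    · refine ⟨0, 0, ?_⟩
      rw [zero_smul, sub_zero]
      exact hX.low j h1 hlt _ hx
    · subst heq
      obtain ⟨r, hr⟩ := hX.gen _ hx
      obtain ⟨c0, -, htop⟩ := hX.top
      refine ⟨r, c0, ?_⟩
      have h2 := htop.smul r
      rw [smul_sub] at h2
      exact hr.trans h2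
  obtain ⟨r, c0, d, hd, h⟩ := key
  refine ⟨d, hd, ?_⟩
  have h2 := tau_mem_Q hgi i hX.inv h
  have e1 : (tau p g ^ i) ((tau p g ^ (p - i)) b) = 0 := by
    rw [tau_add, tau_big hX.per (by omega)]
  have e2 : (tau p g ^ i) ((tau p g ^ (p - 1)) c0) = 0 := by
    rw [tau_add, tau_big hX.per (by omega)]
  rw [map_sub, map_sub, map_sub, map_sub, map_smul, e1, e2, tau_fix hi he, smul_zero, sub_zero,
    sub_zero, sub_zero, tau_bd hgi] at h2
  exact h2

/-- The class decomposition of the boundary of a `tau^i`-cycle. -/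
theorem decomp (hg : ∀ x, (g^[p]) x = x) {A : Set X} (hA : Inv g A) {i : ℕ} (hi : 1 ≤ i)
    (hip : i < p) {j : ℤ} {c : Ch (ZMod p) X} (hc : ZT (tau p g ^ i) (j + 1) Set.univ A c) :
    ∃ c1 f, ZT (tau p g ^ (p - i)) j Set.univ A c1 ∧ f ∈ Z (ZMod p) j (fixS g) A ∧
      bd (j + 1) c - (tau p g ^ (p - i)) c1 - f ∈ Q (ZMod p) j A := by
  have hgi := inj_of_per hg
  have h1 : (tau p g ^ i) (bd (j + 1) c) ∈ Q (ZMod p) j A := by
    rw [tau_bd hgi]
    have := hc.2
    rwa [add_sub_cancel_right] at this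
  obtain ⟨c1, hc1, f, hf, h2⟩ := ker_tau hg hi hip hA (bd_mem_C' hc.1) h1
  refine ⟨c1, f, ⟨hc1, ?_⟩, ⟨hf, ?_⟩, h2⟩
  all_goals
    have h3 := bd_mem_Q h2
    have h4 := bd_bd (R := ZMod p) (j + 1) c
    rw [add_sub_cancel_right] at h4
    rw [map_sub, map_sub, h4, zero_sub, ← tau_bd hgi] at h3
    have h5 : (tau p g ^ (p - i)) (bd j c1) + bd j f ∈ Q (ZMod p) (j - 1) A := by
      have h6 := Submodule.neg_mem _ h3
      rwa [neg_sub, sub_neg_eq_add, add_comm] at h6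
    have h7 := tau_direct hg (show 1 ≤ p - i by omega) hA (bd_mem_C hc1) (bd_mem_C hf) h5
  · rw [← tau_bd hgi]; exact h7.1
  · exact h7.2

/-- Corrected cycles. -/
theorem correct (hg : ∀ x, (g^[p]) x = x) {A : Set X} {i : ℕ}
    {j : ℤ} {c c1 f b1 e1 : Ch (ZMod p) X} (hc : c ∈ C (ZMod p) (j + 1) Set.univ)
    (hb1 : b1 ∈ C (ZMod p) (j + 1) Set.univ) (he1 : e1 ∈ C (ZMod p) (j + 1) (fixS g))
    (h : bd (j + 1) c - (tau p g ^ (p - i)) c1 - f ∈ Q (ZMod p) j A)
    (h1 : (tau p g ^ (p - i)) c1 - bd (j + 1) ((tau p g ^ (p - i)) b1) ∈ Q (ZMod p) j A)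
    (h2 : f - bd (j + 1) e1 ∈ Q (ZMod p) j A) :
    c - (tau p g ^ (p - i)) b1 - e1 ∈ Z (ZMod p) (j + 1) Set.univ A := by
  have hgi := inj_of_per hg
  refine ⟨Submodule.sub_mem _ (Submodule.sub_mem _ hc (tau_mem_C hgi _ hb1))
    (C_mono _ (Set.subset_univ _) he1), ?_⟩
  show bd (j + 1) _ ∈ Q (ZMod p) (j + 1 - 1) A
  rw [add_sub_cancel_right]
  have h3 := Submodule.add_mem _ (Submodule.add_mem _ h h1) h2
  have e : bd (j + 1) (c - (tau p g ^ (p - i)) b1 - e1) =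
      bd (j + 1) c - (tau p g ^ (p - i)) c1 - f +
        ((tau p g ^ (p - i)) c1 - bd (j + 1) ((tau p g ^ (p - i)) b1)) +
        (f - bd (j + 1) e1) := by
    rw [map_sub, map_sub]; abel
  rwa [e]

end H21

open H19 H21

/-- **The ladder, downwards.** -/
theorem ladder_down {A : Set X} {B : Set Y} {z : Ch (ZMod p) X} {z' : Ch (ZMod p) Y}
    (hX : SmithDat p n g A z) (hY : SmithDat p n h B z') {Φ : C(X, Y)}
    (hΦ : ∀ x, Φ (g x) = h (Φ x)) (hAB : Set.MapsTo Φ A B)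
    (hne : ¬ Bd (ZMod p) n Set.univ B (push Φ z)) {j : ℤ} (h1 : 1 ≤ j) (hj : j < n) :
    FixInj p g A h B Φ j ∧ FixSurj p g A h B Φ j := by
  have key : ∀ m : ℕ, (m : ℤ) + 1 ≤ n → LadInj p g A h B Φ (n - m) ∧
      LadSurj p g A h B Φ (n - m) := by
    intro m
    induction m with
    | zero =>
      intro _
      simp only [Nat.cast_zero, sub_zero]
      exact lad_top hX hY hΦ hAB hne
    | succ m ih =>
      intro hm
      push_cast at hm
      obtain ⟨hI, hS⟩ := ih (by omega)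
      have h2 := lad_step hX hY hΦ hAB (j := (n : ℤ) - m) (by omega) (by omega) hI hS
      have e : (n : ℤ) - ((m + 1 : ℕ) : ℤ) = (n : ℤ) - m - 1 := by push_cast; ring
      rw [e]
      exact ⟨h2.1, h2.2.1⟩
  obtain ⟨m, hm⟩ : ∃ m : ℕ, (m : ℤ) = n - (j + 1) := ⟨((n : ℤ) - (j + 1)).toNat, by omega⟩
  obtain ⟨hI, hS⟩ := key m (by omega)
  have e : (n : ℤ) - m = j + 1 := by omega
  rw [e] at hI hS
  have h2 := lad_step hX hY hΦ hAB (j := j + 1) (by omega) (by omega) hI hS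
  rw [add_sub_cancel_right] at h2
  exact h2.2.2

/-- `H_1(tau^i C(X)) = 0` for connected `X` and `F`; here `n = 1` is allowed. -/
theorem smith_one [PathConnectedSpace X]
    (hF : IsPathConnected (fixS g)) {z : Ch (ZMod p) X} (hX : SmithDat p n g ∅ z) (hn : 1 ≤ n)
    {i : ℕ} (hi : 1 ≤ i) (hip : i < p) {c : Ch (ZMod p) X}
    (hc : ZT (tau p g ^ i) 1 Set.univ ∅ c) : BT (tau p g ^ i) 1 Set.univ ∅ c := by
  have hgi := inj_of_per hX.per
  obtain ⟨x0, hx0, -⟩ := id hF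
  have hc' : ZT (tau p g ^ i) (0 + 1) Set.univ ∅ c := hc
  obtain ⟨c1, f, hc1, hf, h1⟩ := decomp hX.per hX.inv hi hip hc'
  rw [Q_zero, Submodule.mem_bot, zero_add] at h1
  obtain ⟨e2, he2, h2⟩ := zero_chain isPathConnected_univ (Set.mem_univ x0) hc1.1
  obtain ⟨e1, he1, h3⟩ := zero_chain hF hx0 hf.1
  have haug : aug f = 0 := by
    have h4 : f = bd 1 c - (tau p g ^ (p - i)) c1 := (sub_eq_zero.1 h1).symm
    rw [h4, map_sub, aug_bd_one, aug_tau (by omega), sub_zero]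
  rw [haug, zero_smul, add_zero] at h3
  have h5 : (tau p g ^ (p - i)) c1 = bd 1 ((tau p g ^ (p - i)) e2) := by
    have h6 : (tau p g ^ (p - i)) (aug c1 • (Finsupp.single (pt x0) 1 : Ch (ZMod p) X)) = 0 := by
      rw [map_smul, tau_fix (by omega) (pt_mem hx0), smul_zero]
    conv_lhs => rw [h2]
    rw [map_add, h6, add_zero, tau_bd hgi]
  refine fin hX le_rfl (by exact_mod_cast hn) hi hip (b := e2) (e := e1) he1 ?_
  have h7 := correct (A := (∅ : Set X)) (j := 0) (i := i) (c := c) (c1 := c1) (f := f) (b1 := e2)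
    (e1 := e1) hX.per hc.1 he2 he1 (by rw [zero_add, h1]; exact Submodule.zero_mem _)
    (by rw [zero_add, ← h5, sub_self]; exact Submodule.zero_mem _)
    (by rw [zero_add, ← h3, sub_self]; exact Submodule.zero_mem _)
  exact h7

/-- **Not acyclic.** -/
theorem not_acyclic [PathConnectedSpace X]
    (hF : IsPathConnected (fixS g)) {z : Ch (ZMod p) X} (hX : SmithDat p n g ∅ z) (hn : 1 ≤ n) :
    ∃ j : ℤ, 1 ≤ j ∧ j < n ∧ ∃ f ∈ Z (ZMod p) j (fixS g) ∅, ¬ Bd (ZMod p) j (fixS g) ∅ f := by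
  by_contra hcon
  push Not at hcon
  have hgi := inj_of_per hX.per
  have hp2 := hp.out.two_le
  have key : ∀ m : ℕ, (m : ℤ) + 1 ≤ n → ∀ i : ℕ, 1 ≤ i → i < p → ∀ c,
      ZT (tau p g ^ i) ((m : ℤ) + 1) Set.univ ∅ c → BT (tau p g ^ i) ((m : ℤ) + 1) Set.univ ∅ c := by
    intro m
    induction m with
    | zero =>
      intro _ i hi hip c hc
      simp only [Nat.cast_zero, zero_add] at hc ⊢
      exact smith_one hF hX hn hi hip hc
    | succ m ih =>
      intro hm i hi hip c hc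
      push_cast at hm hc ⊢
      obtain ⟨c1, f, hc1, hf, h1⟩ := decomp hX.per hX.inv hi hip hc
      obtain ⟨b1, hb1, h2⟩ := ih (by omega) (p - i) (by omega) (by omega) c1 hc1
      obtain ⟨e1, he1, h3⟩ := hcon ((m : ℤ) + 1) (by omega) (by omega) f hf
      exact fin hX (by omega) (by omega) hi hip he1
        (correct hX.per hc.1 hb1 he1 h1 h2 h3)
  obtain ⟨c0, hc0, htop⟩ := hX.top
  obtain ⟨m, hm⟩ : ∃ m : ℕ, (m : ℤ) + 1 = n := ⟨n - 1, by omega⟩
  have h1 : ZT (tau p g ^ (p - 1)) n Set.univ ∅ c0 := by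
    refine ⟨hc0, ?_⟩
    have h1 := htop.bd_mem
    rw [map_sub] at h1
    have h2 : bd (n : ℤ) z ∈ Q (ZMod p) ((n : ℤ) - 1) (∅ : Set X) := hX.mem.2
    have h3 := Submodule.sub_mem _ h2 h1
    rwa [sub_sub_cancel] at h3
  have h2 : BT (tau p g ^ (p - 1)) n Set.univ ∅ c0 := by
    rw [← hm] at h1 ⊢
    exact key m (by omega) (p - 1) (by omega) (by omega) c0 h1
  exact hX.ne (htop.congr (BT.bd (fun hc => tau_mem_C hgi _ hc) h2))

end Pool.Agent.TCH
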