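import Pool.Agent.Lib.TC.HR21

/-!
# Homology library, HR22
-/

namespace Pool.Agent.TCH

open CubeHom

variable {p n : ℕ} [hp : Fact p.Prime] {X Y : Type*} [TopologicalSpace X] [TopologicalSpace Y]
  {g : C(X, X)} {h : C(Y, Y)}

open H19 H21

/-- **The ladder, upwards.** -/
theorem ladder_up [PathConnectedSpace X] [PathConnectedSpace Y]
    (hF : IsPathConnected (fixS g)) (hF' : IsPathConnected (fixS h))
    {z : Ch (ZMod p) X} {z' : Ch (ZMod p) Y}
    (hX : SmithDat p n g ∅ z) (hY : SmithDat p n h ∅ z') (hn : 1 ≤ n) {Φ : C(X, Y)}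
    (hΦ : ∀ x, Φ (g x) = h (Φ x))
    (hf : ∀ j : ℤ, 1 ≤ j → j < n → FixInj p g ∅ h ∅ Φ j) :
    ¬ Bd (ZMod p) n Set.univ ∅ (push Φ z) := by
  intro hbd
  have hgi := inj_of_per hX.per
  have hhi := inj_of_per hY.per
  have hp2 := hp.out.two_le
  have key : ∀ m : ℕ, (m : ℤ) + 1 ≤ n → LadInj p g ∅ h ∅ Φ ((m : ℤ) + 1) := by
    intro m
    induction m with
    | zero =>
      intro _ i hi hip c hc _
      simp only [Nat.cast_zero, zero_add] at hc ⊢
      exact smith_one hF hX hn hi hip hc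
    | succ m ih =>
      intro hm i hi hip c hc hb
      push_cast at hm hc hb ⊢
      obtain ⟨c1, f, hc1, hfZ, h1⟩ := decomp hX.per hX.inv hi hip hc
      obtain ⟨b, hbC, hb⟩ := hb
      -- the decomposition of `push c - bd b`
      have h2 : (tau p h ^ i) (push Φ c - bd ((m : ℤ) + 1 + 1 + 1) b) ∈
          Q (ZMod p) ((m : ℤ) + 1 + 1) (∅ : Set Y) := by
        rw [map_sub, tau_bd hhi]; exact hb
      obtain ⟨w1, hw1, f1, hf1, h3⟩ := ker_tau hY.per hi hip hY.inv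
        (Submodule.sub_mem _ (push_mem_C (Set.mapsTo_univ _ _) hc.1) (bd_mem_C' hbC)) h2
      have h4 := bd_mem_Q' h3
      rw [map_sub, map_sub, map_sub, bd_bd', sub_zero, bd_push, ← tau_bd hhi] at h4
      have h5 := push_mem_Q (f := Φ) (V := ∅) (fun x hx => hx.elim) h1
      rw [map_sub, map_sub, tau_push Φ hΦ] at h5
      have h6 : (tau p h ^ (p - i)) (push Φ c1 - bd ((m : ℤ) + 1 + 1) w1) +
          (push Φ f - bd ((m : ℤ) + 1 + 1) f1) ∈ Q (ZMod p) ((m : ℤ) + 1) (∅ : Set Y) := by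
        have h7 := Submodule.sub_mem _ h4 h5
        have e : push Φ (bd ((m : ℤ) + 1 + 1) c) - (tau p h ^ (p - i)) (bd ((m : ℤ) + 1 + 1) w1)
            - bd ((m : ℤ) + 1 + 1) f1 - (push Φ (bd ((m : ℤ) + 1 + 1) c) -
            (tau p h ^ (p - i)) (push Φ c1) - push Φ f) =
            (tau p h ^ (p - i)) (push Φ c1 - bd ((m : ℤ) + 1 + 1) w1) +
              (push Φ f - bd ((m : ℤ) + 1 + 1) f1) := by
          rw [map_sub]; abel
        rwa [e] at h7
      have hpf : push Φ f ∈ C (ZMod p) ((m : ℤ) + 1) (fixS h) := by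
        refine push_mem_C (fun x hx => ?_) hfZ.1
        show h (Φ x) = Φ x
        rw [← hΦ, show g x = x from hx]
      obtain ⟨h7, h8⟩ := tau_direct hY.per (show 1 ≤ p - i by omega) hY.inv
        (Submodule.sub_mem _ (push_mem_C (Set.mapsTo_univ _ _) hc1.1) (bd_mem_C' hw1))
        (Submodule.sub_mem _ hpf (bd_mem_C' hf1)) h6
      rw [map_sub, tau_bd hhi] at h7
      obtain ⟨b1, hb1, h9⟩ := ih (by omega) (p - i) (by omega) (by omega) c1 hc1 ⟨w1, hw1, h7⟩
      obtain ⟨e1, he1, h10⟩ := hf ((m : ℤ) + 1) (by omega) (by omega) f hfZ ⟨f1, hf1, h8⟩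
      exact fin hX (by omega) (by omega) hi hip he1
        (correct hX.per hc.1 hb1 he1 h1 h9 h10)
  obtain ⟨c0, hc0, htop⟩ := hX.top
  obtain ⟨m, hm⟩ : ∃ m : ℕ, (m : ℤ) + 1 = n := ⟨n - 1, by omega⟩
  have h1 : ZT (tau p g ^ (p - 1)) n Set.univ ∅ c0 := by
    refine ⟨hc0, ?_⟩
    have h1 := htop.bd_mem
    rw [map_sub] at h1
    have h2 : bd (n : ℤ) z ∈ Q (ZMod p) ((n : ℤ) - 1) (∅ : Set X) := hX.mem.2
    have h3 := Submodule.sub_mem _ h2 h1
    rwa [sub_sub_cancel] at h3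
  have h2 : Bd (ZMod p) n Set.univ ∅ ((tau p h ^ (p - 1)) (push Φ c0)) := by
    rw [← tau_push Φ hΦ]
    have h3 := Bd.push (f := Φ) (V := Set.univ) (A' := (∅ : Set Y)) (Set.mapsTo_univ _ _)
      (fun x hx => hx.elim) htop
    rw [map_sub] at h3
    exact (h3.sub_comm).congr hbd
  have h3 : BT (tau p h ^ (p - 1)) n Set.univ ∅ (push Φ c0) :=
    top_inj hY.per hY.inv hY.van (by omega) (by omega)
      (push_mem_C (Set.mapsTo_univ _ _) hc0) h2
  have h4 : BT (tau p g ^ (p - 1)) n Set.univ ∅ c0 := by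
    have h5 := key m (by omega) (p - 1) (by omega) (by omega) c0
    rw [hm] at h5
    exact h5 h1 h3
  exact hX.ne (htop.congr (BT.bd (fun hc => tau_mem_C hgi _ hc) h4))

end Pool.Agent.TCH
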