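import Pool.Agent.Lib.TC.HVan
import Pool.Agent.Lib.TC.HCoeff

/-!
# Homology library, HR23
-/

namespace Pool.Agent.TCH

open CubeHom

namespace H23

open CubeHom.Cq (T K jT zeta)

/-! ### The complement of the flat cube is homotopy equivalent to the sphere -/

theorem zero_mem_K (n : ℕ) : (0 : Fin (n + 1) → ℝ) ∈ K n := by
  refine ⟨rfl, fun i => ?_⟩
  constructor <;> norm_num

theorem toLp_ne_zero {n : ℕ} (x : T n) :
    (WithLp.toLp 2 x.1 : EuclideanSpace ℝ (Fin (n + 1))) ≠ 0 := by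
  intro h
  apply x.2
  have h1 : x.1 = 0 := by
    have h2 := congrArg WithLp.ofLp h
    simpa using h2
  rw [h1]
  exact zero_mem_K n

/-- The radial projection. -/
noncomputable def rad (n : ℕ) : C(T n, Sph n) where
  toFun x := ⟨‖(WithLp.toLp 2 x.1 : EuclideanSpace ℝ (Fin (n + 1)))‖⁻¹ •
      (WithLp.toLp 2 x.1 : EuclideanSpace ℝ (Fin (n + 1))), by
    rw [mem_sphere_zero_iff_norm, norm_smul, norm_inv, norm_norm,
      inv_mul_cancel₀ (norm_ne_zero_iff.mpr (toLp_ne_zero x))]⟩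
  continuous_toFun := by
    refine Continuous.subtype_mk ?_ _
    have h : Continuous fun x : T n => (WithLp.toLp 2 x.1 : EuclideanSpace ℝ (Fin (n + 1))) :=
      (PiLp.continuous_toLp 2 _).comp continuous_subtype_val
    exact (h.norm.inv₀ fun x => norm_ne_zero_iff.mpr (toLp_ne_zero x)).smul h

theorem sec_notMem {n : ℕ} (y : Sph n) :
    (fun i => ((n : ℝ) + 1) * y.1.ofLp i) ∉ K n := by
  rintro ⟨h1, h2⟩
  have h3 : ∀ i, (((n : ℝ) + 1) * y.1.ofLp i) ^ 2 ≤ 1 / 4 := by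
    intro i
    refine Fin.lastCases ?_ (fun i => ?_) i
    · have h1' : ((n : ℝ) + 1) * y.1.ofLp (Fin.last n) = 0 := h1
      rw [h1']
      norm_num
    · have h : ((n : ℝ) + 1) * y.1.ofLp i.castSucc ∈ Set.Icc (-(1 / 2) : ℝ) (1 / 2) := h2 i
      rw [Set.mem_Icc] at h
      have h' : |((n : ℝ) + 1) * y.1.ofLp i.castSucc| ≤ 1 / 2 := abs_le.mpr ⟨h.1, h.2⟩
      calc (((n : ℝ) + 1) * y.1.ofLp i.castSucc) ^ 2
          = |((n : ℝ) + 1) * y.1.ofLp i.castSucc| ^ 2 := (sq_abs _).symm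
        _ ≤ (1 / 2) ^ 2 := by gcongr
        _ = 1 / 4 := by norm_num
  have h4 : ∑ i, (y.1.ofLp i) ^ 2 = 1 := by
    have h5 := EuclideanSpace.norm_sq_eq y.1
    rw [mem_sphere_zero_iff_norm.mp y.2] at h5
    have h6 : ∀ i, ‖y.1.ofLp i‖ ^ 2 = (y.1.ofLp i) ^ 2 := fun i => by
      rw [Real.norm_eq_abs, sq_abs]
    rw [Finset.sum_congr rfl fun i _ => h6 i] at h5
    linarith [h5]
  have h7 : ∑ i, (((n : ℝ) + 1) * y.1.ofLp i) ^ 2 ≤ ∑ _i : Fin (n + 1), (1 / 4 : ℝ) :=
    Finset.sum_le_sum fun i _ => h3 i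
  rw [Finset.sum_const, Finset.card_univ, Fintype.card_fin] at h7
  have h8 : ∑ i, (((n : ℝ) + 1) * y.1.ofLp i) ^ 2 = ((n : ℝ) + 1) ^ 2 := by
    rw [Finset.sum_congr rfl fun i _ => mul_pow ((n : ℝ) + 1) (y.1.ofLp i) 2, ← Finset.mul_sum, h4,
      mul_one]
  rw [h8, nsmul_eq_mul] at h7
  push_cast at h7
  nlinarith [Nat.cast_nonneg (α := ℝ) n]

/-- The section of the radial projection. -/
noncomputable def sec (n : ℕ) : C(Sph n, T n) where
  toFun y := ⟨fun i => ((n : ℝ) + 1) * y.1.ofLp i, sec_notMem y⟩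
  continuous_toFun := by
    refine Continuous.subtype_mk ?_ _
    refine continuous_pi fun i => continuous_const.mul ?_
    exact (continuous_apply i).comp ((PiLp.continuous_ofLp 2 _).comp continuous_subtype_val)

theorem toLp_sec {n : ℕ} (y : Sph n) :
    (WithLp.toLp 2 (sec n y).1 : EuclideanSpace ℝ (Fin (n + 1))) = ((n : ℝ) + 1) • y.1 := by
  ext i
  rfl

theorem rad_sec (n : ℕ) : (rad n).comp (sec n) = ContinuousMap.id _ := by
  ext1 y
  apply Subtype.ext
  have hn : (0 : ℝ) < (n : ℝ) + 1 := by positivity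
  change ‖(WithLp.toLp 2 (sec n y).1 : EuclideanSpace ℝ (Fin (n + 1)))‖⁻¹ •
      (WithLp.toLp 2 (sec n y).1 : EuclideanSpace ℝ (Fin (n + 1))) = y.1
  rw [toLp_sec, norm_smul, mem_sphere_zero_iff_norm.mp y.2, mul_one, Real.norm_of_nonneg hn.le,
    smul_smul, inv_mul_cancel₀ hn.ne', one_smul]

theorem star_K {n : ℕ} {x : Fin (n + 1) → ℝ} {m μ : ℝ} (hm : 0 ≤ m) (hμ : 0 < μ) (h : m ≤ μ)
    (hx : μ • x ∈ K n) : m • x ∈ K n := by
  have h1 := (Cq.convex_K n).smul_mem_of_zero_mem (zero_mem_K n) hx (t := m / μ)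
    ⟨by positivity, (div_le_one hμ).mpr h⟩
  rwa [smul_smul, div_mul_cancel₀ _ hμ.ne'] at h1

/-- The scaling factor of the homotopy. -/
noncomputable def fac (n : ℕ) (p : I × T n) : ℝ :=
  (1 - (p.1 : ℝ)) * (((n : ℝ) + 1) *
    ‖(WithLp.toLp 2 p.2.1 : EuclideanSpace ℝ (Fin (n + 1)))‖⁻¹) + (p.1 : ℝ)

theorem fac_notMem {n : ℕ} (p : I × T n) : fac n p • p.2.1 ∉ K n := by
  intro h
  obtain ⟨t, x⟩ := p
  have hN : 0 < ‖(WithLp.toLp 2 x.1 : EuclideanSpace ℝ (Fin (n + 1)))‖ :=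
    norm_pos_iff.mpr (toLp_ne_zero x)
  set a : ℝ := ((n : ℝ) + 1) * ‖(WithLp.toLp 2 x.1 : EuclideanSpace ℝ (Fin (n + 1)))‖⁻¹ with ha
  have ha0 : 0 < a := by positivity
  have hf : fac n (t, x) = (1 - (t : ℝ)) * a + (t : ℝ) := rfl
  have ht0 := t.2.1
  have ht1 := t.2.2
  have hmin : min a 1 ≤ fac n (t, x) := by
    rw [hf]
    have h1 : min a 1 ≤ a := min_le_left _ _
    have h2 : min a 1 ≤ 1 := min_le_right _ _
    nlinarith
  have hm0 : 0 < min a 1 := lt_min ha0 one_pos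
  have h2 := star_K hm0.le (hm0.trans_le hmin) hmin h
  rcases le_total a 1 with h3 | h3
  · rw [min_eq_left h3] at h2
    apply sec_notMem (rad n x)
    have e : (fun i => ((n : ℝ) + 1) * (rad n x).1.ofLp i) = a • x.1 := by
      funext i
      change ((n : ℝ) + 1) * (‖(WithLp.toLp 2 x.1 : EuclideanSpace ℝ (Fin (n + 1)))‖⁻¹ * x.1 i) =
        a * x.1 i
      rw [ha]
      ring
    rw [e]
    exact h2
  · rw [min_eq_right h3, one_smul] at h2
    exact x.2 h2

theorem continuous_fac (n : ℕ) : Continuous (fac n) := by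
  have h : Continuous fun p : I × T n =>
      (WithLp.toLp 2 p.2.1 : EuclideanSpace ℝ (Fin (n + 1))) :=
    (PiLp.continuous_toLp 2 _).comp (continuous_subtype_val.comp continuous_snd)
  have h1 : Continuous fun p : I × T n =>
      ‖(WithLp.toLp 2 p.2.1 : EuclideanSpace ℝ (Fin (n + 1)))‖⁻¹ :=
    h.norm.inv₀ fun x => norm_ne_zero_iff.mpr (toLp_ne_zero x.2)
  have h2 : Continuous fun p : I × T n => (p.1 : ℝ) := continuous_subtype_val.comp continuous_fst
  exact ((continuous_const.sub h2).mul (continuous_const.mul h1)).add h2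

/-- The homotopy. -/
noncomputable def hty (n : ℕ) : C(I × T n, T n) where
  toFun p := ⟨fac n p • p.2.1, fac_notMem p⟩
  continuous_toFun := by
    refine Continuous.subtype_mk ?_ _
    exact (continuous_fac n).smul (continuous_subtype_val.comp continuous_snd)

theorem hty_one (n : ℕ) : atTime (hty n) 1 = ContinuousMap.id _ := by
  ext1 x
  apply Subtype.ext
  change fac n (1, x) • x.1 = x.1
  have : fac n (1, x) = 1 := by simp [fac]
  rw [this, one_smul]

theorem hty_zero (n : ℕ) : atTime (hty n) 0 = (sec n).comp (rad n) := by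
  ext1 x
  apply Subtype.ext
  funext i
  change fac n (0, x) * x.1 i = ((n : ℝ) + 1) *
    (‖(WithLp.toLp 2 x.1 : EuclideanSpace ℝ (Fin (n + 1)))‖⁻¹ * x.1 i)
  have : fac n (0, x) = ((n : ℝ) + 1) *
      ‖(WithLp.toLp 2 x.1 : EuclideanSpace ℝ (Fin (n + 1)))‖⁻¹ := by simp [fac]
  rw [this, mul_assoc]

variable {R : Type*} [CommRing R]

theorem push_rad_sec {n : ℕ} (c : Ch R (Sph n)) : push (rad n) (push (sec n) c) = c := by
  rw [push_push, rad_sec, push_id]

theorem bd_sec_rad {n : ℕ} {k : ℤ} {c : Ch R (T n)} (hc : c ∈ Z R k Set.univ ∅) :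
    Bd R k Set.univ ∅ (c - push (sec n) (push (rad n) c)) := by
  have h := Bd_homotopy (R := R) (H := hty n) (U := Set.univ) (A := ∅) (V := Set.univ) (A' := ∅)
    (fun _ _ _ => Set.mem_univ _) (fun _ _ h => h.elim) hc
  rwa [hty_one, hty_zero, push_id, ← push_push] at h

/-- The homology of the complement of the flat cube in degree `n` is free. -/
theorem zeta_free {n : ℕ} {r : R} (h : Bd R n Set.univ ∅ (r • zeta R n)) : r = 0 := by
  obtain ⟨b, hb, hq⟩ := h
  have h1 : push (jT n) b ∈ C R ((n : ℤ) + 1) (K n)ᶜ :=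
    push_mem_C (fun x _ => x.2) hb
  have h2 : r • stdCh R (n + 1) - push (jT n) b ∈ Z R ((n : ℤ) + 1) Set.univ ∅ := by
    constructor
    · refine Submodule.sub_mem _ (Submodule.smul_mem _ _ ?_) (C_mono _ (Set.subset_univ _) h1)
      have h3 := (TL.stdCh_mem_boxBd (R := R) (n + 1)).1
      have e : (((n + 1 : ℕ) : ℤ)) = (n : ℤ) + 1 := by push_cast; ring
      rwa [e] at h3
    · change bd ((n : ℤ) + 1) (r • stdCh R (n + 1) - push (jT n) b) ∈ Q R ((n : ℤ) + 1 - 1) ∅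
      rw [map_sub, map_smul, ← Cq.push_zeta, bd_push, ← map_smul, ← map_sub, add_sub_cancel_right]
      exact push_mem_Q (fun _ h => h) hq
  obtain ⟨b', hb', hq'⟩ := Cq.bd_euclid (by omega) h2
  have h4 : Bd R ((n + 1 : ℕ) : ℤ) Set.univ (K n)ᶜ (r • stdCh R (n + 1)) := by
    have e : (((n + 1 : ℕ) : ℤ)) = (n : ℤ) + 1 := by push_cast; ring
    rw [e]
    refine ⟨b', hb', ?_⟩
    have h5 : r • stdCh R (n + 1) - bd ((n : ℤ) + 1 + 1) b' =
        (r • stdCh R (n + 1) - push (jT n) b - bd ((n : ℤ) + 1 + 1) b') + push (jT n) b := by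
      abel
    rw [h5]
    exact Submodule.add_mem _ (Q_mono _ (Set.empty_subset _) hq') (C_le_Q _ _ h1)
  exact Loc.euc_free (Cq.nonempty_K n) (Cq.K_lt n) h4

/-! ### The complement of a point -/

section point

variable {n : ℕ}

/-- The contraction of the complement of a point. -/
noncomputable def ctr (v : Sph n) : C(I × ({v}ᶜ : Set (Sph n)), ({v}ᶜ : Set (Sph n))) :=
  ⟨fun p => (sphereChart v).symm ((p.1 : ℝ) • sphereChart v p.2), by fun_prop⟩

theorem ctr_zero (v : Sph n) (x : ({v}ᶜ : Set (Sph n))) :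
    ctr v (0, x) = (sphereChart v).symm 0 := by
  change (sphereChart v).symm (((0 : I) : ℝ) • sphereChart v x) = _
  simp

theorem ctr_one (v : Sph n) (x : ({v}ᶜ : Set (Sph n))) : ctr v (1, x) = x := by
  change (sphereChart v).symm (((1 : I) : ℝ) • sphereChart v x) = _
  simp

/-- The inclusion of the complement of a point. -/
def jv (v : Sph n) : C(({v}ᶜ : Set (Sph n)), Sph n) := ⟨Subtype.val, continuous_subtype_val⟩

theorem jv_ind (v : Sph n) : Topology.IsInducing (jv v) := Topology.IsInducing.subtypeVal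

theorem jv_inj (v : Sph n) : Function.Injective (jv v) := Subtype.val_injective

theorem range_jv (v : Sph n) : Set.range (jv v) = {v}ᶜ := Subtype.range_val

theorem push_const_mem {k : ℤ} (hk : 1 ≤ k) {X Y : Type*} [TopologicalSpace X]
    [TopologicalSpace Y] (y : Y) {U : Set X} {c : Ch R X} (hc : c ∈ C R k U) :
    push (ContinuousMap.const X y) c ∈ Q R k (∅ : Set Y) := by
  refine map_mem_of_supported (push (ContinuousMap.const X y)) _ (fun σ hσ => ?_) hc
  rw [push_single]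
  refine mem_Q_single (hσ.1.comp _) (Or.inr ⟨0, by push_cast; omega, ?_⟩) _
  intro x y _
  rfl

/-- A boundary of the sphere which is carried by the complement of a point bounds there. -/
theorem bd_compl {k : ℤ} (hk : 1 ≤ k) (v : Sph n) {a w : Ch R (Sph n)}
    (ha : a ∈ C R (k - 1) ({v}ᶜ : Set (Sph n))) (hw : w ∈ C R k Set.univ)
    (h : bd k w - a ∈ Q R (k - 1) ∅) : Bd R (k - 1) {v}ᶜ ∅ a := by
  have hZ : a ∈ Z R (k - 1) (Set.range (jv v)) ∅ := by
    rw [range_jv]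
    refine ⟨ha, ?_⟩
    change bd (k - 1) a ∈ Q R (k - 1 - 1) ∅
    have e : bd (k - 1) a = - bd (k - 1) (bd k w - a) := by
      rw [map_sub, bd_bd]
      abel
    rw [e]
    exact Submodule.neg_mem _ (bd_mem_Q h)
  obtain ⟨a₀, ha₀, rfl⟩ := TL.exists_push_of_mem_Z (jv_ind v) (jv_inj v) hZ
  have h1 := Bd_homotopy (R := R) (H := ctr v) (U := Set.univ) (A := ∅) (V := Set.univ) (A' := ∅)
    (fun _ _ _ => Set.mem_univ _) (fun _ _ h => h.elim) (by simpa using ha₀)
  have e1 : atTime (ctr v) 1 = ContinuousMap.id _ := ContinuousMap.ext (ctr_one v)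
  have e0 : atTime (ctr v) 0 = ContinuousMap.const _ ((sphereChart v).symm 0) :=
    ContinuousMap.ext (ctr_zero v)
  rw [e1, push_id] at h1
  have h2 : push (atTime (ctr v) 0) a₀ ∈ Q R (k - 1) ∅ := by
    have e2 : (∅ : Set ({v}ᶜ : Set (Sph n))) = jv v ⁻¹' ∅ := Set.preimage_empty.symm
    rw [e2, ← push_mem_Q_iff (jv_inj v), push_push, e0]
    have e3 : (jv v).comp (ContinuousMap.const ({v}ᶜ : Set (Sph n)) ((sphereChart v).symm 0)) =
        (ContinuousMap.const (Sph n) (jv v ((sphereChart v).symm 0))).comp (jv v) := rfl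
    rw [e3, ← push_push]
    have e4 : push (ContinuousMap.const (Sph n) (jv v ((sphereChart v).symm 0))) (push (jv v) a₀) =
        bd k (push (ContinuousMap.const (Sph n) (jv v ((sphereChart v).symm 0))) w) -
        push (ContinuousMap.const (Sph n) (jv v ((sphereChart v).symm 0)))
          (bd k w - push (jv v) a₀) := by
      rw [bd_push, ← map_sub, sub_sub_cancel]
    rw [e4]
    exact Submodule.sub_mem _ (bd_mem_Q (push_const_mem hk _ hw))
      (push_mem_Q (fun _ h => h.elim) h)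
  have h3 := Cq.bd_of_sub h1 (Cq.bd_of_Q h2)
  have h4 := h3.push (f := jv v) (V := {v}ᶜ) (A' := ∅) (fun x _ => x.2) (fun _ h => h)
  exact h4

/-- Cycles of positive degree of the complement of a point bound. -/
theorem bd_compl' {k : ℤ} (hk : 1 ≤ k) (v : Sph n) {a : Ch R (Sph n)}
    (ha : a ∈ Z R k ({v}ᶜ : Set (Sph n)) ∅) : Bd R k {v}ᶜ ∅ a := by
  have hZ : a ∈ Z R k (Set.range (jv v)) ∅ := by
    rw [range_jv]
    exact ha
  obtain ⟨a₀, ha₀, rfl⟩ := TL.exists_push_of_mem_Z (jv_ind v) (jv_inj v) hZ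
  have h1 := Cq.bd_of_contraction (H := ctr v) ⟨_, ctr_zero v⟩ (ctr_one v) hk
    (by simpa using ha₀)
  exact h1.push (f := jv v) (V := {v}ᶜ) (A' := ∅) (fun x _ => x.2) (fun _ h => h)

/-- A cycle which vanishes near a point bounds. -/
theorem bd_abs {k : ℤ} (hk : 1 ≤ k) (v : Sph n) {c : Ch R (Sph n)}
    (hc : c ∈ Z R k Set.univ ∅) (h : Bd R k Set.univ {v}ᶜ c) : Bd R k Set.univ ∅ c := by
  obtain ⟨b, hb, hq⟩ := h
  rw [Q_eq_sup] at hq
  obtain ⟨a, ha, d, hd, had⟩ := Submodule.mem_sup.mp hq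
  have hZ : a ∈ Z R k ({v}ᶜ : Set (Sph n)) ∅ := by
    refine ⟨ha, ?_⟩
    change bd k a ∈ Q R (k - 1) ∅
    have e : a = c - bd (k + 1) b - d := by rw [← had]; abel
    rw [e, map_sub, map_sub, bd_bd', sub_zero]
    exact Submodule.sub_mem _ hc.2 (bd_mem_Q hd)
  have h1 := (bd_compl' hk v hZ).mono (Set.subset_univ _) le_rfl
  have e : c = bd (k + 1) b + (a + d) := by rw [had]; abel
  rw [e]
  exact (Bd.of_bd hb).add (h1.add (Bd.of_mem_Q hd))

/-- A relative cycle is homologous to a cycle. -/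
theorem exists_abs {k : ℤ} (hk : 1 ≤ k) (v : Sph n) {w : Ch R (Sph n)}
    (hw : w ∈ Z R k Set.univ {v}ᶜ) :
    ∃ c ∈ Z R k (Set.univ : Set (Sph n)) ∅, Bd R k Set.univ {v}ᶜ (w - c) := by
  have h0 : bd k w ∈ Q R (k - 1) {v}ᶜ := hw.2
  rw [Q_eq_sup] at h0
  obtain ⟨a, ha, d, hd, had⟩ := Submodule.mem_sup.mp h0
  obtain ⟨b, hb, hq⟩ := bd_compl hk v ha hw.1 (by rw [← had, add_sub_cancel_left]; exact hd)
  rw [sub_add_cancel] at hb hq
  refine ⟨w - b, ⟨Submodule.sub_mem _ hw.1 (C_mono _ (Set.subset_univ _) hb), ?_⟩, ?_⟩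
  · change bd k (w - b) ∈ Q R (k - 1) ∅
    have e : bd k (w - b) = (a - bd k b) + d := by
      rw [map_sub, ← had]
      abel
    rw [e]
    exact Submodule.add_mem _ hq hd
  · rw [sub_sub_cancel]
    exact Bd.of_mem_C hb

end point

/-! ### Change of coefficients -/

theorem chMap_eq {X : Type*} [TopologicalSpace X] (c : Ch ℤ X) :
    chMap (Int.castRingHom R) c = castCh R c := rfl

theorem castCh_zeta (n : ℕ) : castCh R (zeta ℤ n) = zeta R n := by
  unfold zeta
  rw [map_sum]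
  refine Finset.sum_congr rfl fun i _ => ?_
  rw [castCh_smul, map_sub, castCh_single, castCh_single]
  push_cast
  rfl

theorem chMap_push_zeta (n : ℕ) :
    chMap (Int.castRingHom R) (push (rad n) (zeta ℤ n)) = push (rad n) (zeta R n) := by
  rw [chMap_eq, castCh_push, castCh_zeta]

end H23

/-- The sphere has no homology in the degrees `k ≥ 1`, `k ≠ n`. -/
theorem sph_vanish (R : Type*) [CommRing R] {n : ℕ} {k : ℤ} (hk : 1 ≤ k) (hkn : k ≠ n)
    {c : Ch R (Sph n)} (hc : c ∈ Z R k Set.univ ∅) : Bd R k Set.univ ∅ c := by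
  have h1 : push (H23.sec n) c ∈ Z R k Set.univ ∅ :=
    push_mem_Z (fun _ _ => Set.mem_univ _) (fun _ h => h) hc
  have h2 := (Cq.T_vanish hk hkn h1).push (f := H23.rad n) (V := Set.univ) (A' := ∅)
    (fun _ _ => Set.mem_univ _) (fun _ h => h)
  rwa [H23.push_rad_sec] at h2

/-- The integral fundamental cycle of the sphere. -/
theorem exists_sph_cycle {n : ℕ} (hn : 1 ≤ n) : ∃ z : Ch ℤ (Sph n), z ∈ Z ℤ n Set.univ ∅ ∧
    ∀ (R : Type) [CommRing R],
      chMap (Int.castRingHom R) z ∈ Z R n (Set.univ : Set (Sph n)) ∅ ∧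
      LocGen n (chMap (Int.castRingHom R) z) ∧
      (∀ w ∈ Z R n (Set.univ : Set (Sph n)) ∅, ∃ r : R,
        Bd R n Set.univ ∅ (w - r • chMap (Int.castRingHom R) z)) ∧
      (∀ (x : Sph n) (r : R), Bd R n Set.univ {x}ᶜ (r • chMap (Int.castRingHom R) z) → r = 0) := by
  refine ⟨push (H23.rad n) (Cq.zeta ℤ n), push_mem_Z (fun _ _ => Set.mem_univ _) (fun _ h => h)
    (Cq.zeta_mem n), fun R _ => ?_⟩
  rw [H23.chMap_push_zeta]
  have hz : push (H23.rad n) (Cq.zeta R n) ∈ Z R n (Set.univ : Set (Sph n)) ∅ :=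
    push_mem_Z (fun _ _ => Set.mem_univ _) (fun _ h => h) (Cq.zeta_mem n)
  have hn' : (1 : ℤ) ≤ (n : ℤ) := by omega
  have hgen : ∀ w ∈ Z R n (Set.univ : Set (Sph n)) ∅, ∃ r : R,
      Bd R n Set.univ ∅ (w - r • push (H23.rad n) (Cq.zeta R n)) := by
    intro w hw
    have h1 : push (H23.sec n) w ∈ Z R n Set.univ ∅ :=
      push_mem_Z (fun _ _ => Set.mem_univ _) (fun _ h => h) hw
    obtain ⟨r, hr⟩ := Cq.T_gen hn h1
    refine ⟨r, ?_⟩
    have h2 := hr.push (f := H23.rad n) (V := Set.univ) (A' := ∅)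
      (fun _ _ => Set.mem_univ _) (fun _ h => h)
    rwa [map_sub, map_smul, H23.push_rad_sec] at h2
  refine ⟨hz, ?_, hgen, ?_⟩
  · intro y w hw
    obtain ⟨c, hc, h1⟩ := H23.exists_abs hn' y hw
    obtain ⟨r, hr⟩ := hgen c hc
    exact ⟨r, h1.trans (hr.mono le_rfl (Set.empty_subset _))⟩
  · intro x r hr
    have h1 : r • push (H23.rad n) (Cq.zeta R n) ∈ Z R n (Set.univ : Set (Sph n)) ∅ :=
      Submodule.smul_mem _ _ hz
    have h2 := (H23.bd_abs hn' x h1 hr).push (f := H23.sec n) (V := Set.univ) (A' := ∅)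
      (fun _ _ => Set.mem_univ _) (fun _ h => h)
    rw [← map_smul] at h2
    have h3 : r • Cq.zeta R n ∈ Z R n (Set.univ : Set (Cq.T n)) ∅ :=
      Submodule.smul_mem _ _ (Cq.zeta_mem n)
    exact H23.zeta_free ((H23.bd_sec_rad h3).congr h2)

end Pool.Agent.TCH
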