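import Pool.Agent.Lib.TC.HR23

/-!
# Homology library, HR24
-/

namespace Pool.Agent.TCH

open CubeHom

/-- The sphere is `(n-1)`-connected. -/
theorem fills_sph {n m : ℕ} (hm : m ≤ n) : Fills (Sph n) m := by
  revert hm
  induction m using Nat.strong_induction_on with
  | _ m ih =>
    intro hm
    rcases m with _ | m
    · exact fills_sphere_zero
    rcases m with _ | m
    · exact fills_sphere_one (by omega)
    rcases m with _ | j
    · exact fills_sphere_two (by omega)
    refine fills_of_pi fun x0 f => ?_
    have : Nontrivial (Fin (j + 1 + 1)) := inferInstance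
    exact pi_zero (j := j + 1) (fun m hm' => ih (m + 1) (by omega) (by omega))
      (fun c hc => sph_vanish ℤ (by push_cast; omega) (by push_cast; omega) hc) f

end Pool.Agent.TCH
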