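import Pool.Agent.Lib.TC.HR24

/-!
# Homology library, HR25
-/

namespace Pool.Agent.TCH

open CubeHom

namespace H25

section Collapse

open Set Topology

/-- The collapse of the complement of an open subset of a compact Hausdorff space. -/
theorem exists_collapse {K : Type*} [TopologicalSpace K] [CompactSpace K] [T2Space K]
    {U : Set K} (hU : IsOpen U) :
    ∃ c : C(K, OnePoint U), (∀ x (h : x ∈ U), c x = ((⟨x, h⟩ : U) : OnePoint U)) ∧
      ∀ x, x ∉ U → c x = OnePoint.infty := by
  classical
  let f : K → OnePoint U := fun x => if h : x ∈ U then ((⟨x, h⟩ : U) : OnePoint U) else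
    OnePoint.infty
  have h1 : ∀ x (h : x ∈ U), f x = ((⟨x, h⟩ : U) : OnePoint U) := fun x h => dif_pos h
  have h2 : ∀ x, x ∉ U → f x = OnePoint.infty := fun x h => dif_neg h
  have hc : Continuous f := by
    rw [continuous_def]
    intro s hs
    by_cases hi : OnePoint.infty ∈ s
    · obtain ⟨-, hk⟩ := (OnePoint.isOpen_iff_of_mem' hi).1 hs |>.symm
      have hk' : IsCompact ((↑) ⁻¹' s : Set U)ᶜ := ((OnePoint.isOpen_iff_of_mem' hi).1 hs).1
      have h3 : f ⁻¹' s = (Subtype.val '' ((↑) ⁻¹' s : Set U)ᶜ)ᶜ := by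
        ext x
        simp only [mem_preimage, mem_compl_iff, mem_image, not_exists, not_and]
        constructor
        · rintro hx ⟨y, hy⟩ hys rfl
          rw [h1 y hy] at hx
          exact hys hx
        · intro hx
          by_cases hxU : x ∈ U
          · rw [h1 x hxU]
            by_contra hn
            exact hx ⟨x, hxU⟩ hn rfl
          · rw [h2 x hxU]
            exact hi
      rw [h3]
      exact (hk'.image continuous_subtype_val).isClosed.isOpen_compl
    · have ho : IsOpen ((↑) ⁻¹' s : Set U) := (OnePoint.isOpen_iff_of_notMem hi).1 hs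
      have h3 : f ⁻¹' s = Subtype.val '' ((↑) ⁻¹' s : Set U) := by
        ext x
        simp only [mem_preimage, mem_image]
        constructor
        · intro hx
          by_cases hxU : x ∈ U
          · rw [h1 x hxU] at hx
            exact ⟨⟨x, hxU⟩, hx, rfl⟩
          · rw [h2 x hxU] at hx
            exact absurd hx hi
        · rintro ⟨⟨y, hy⟩, hys, rfl⟩
          rw [h1 y hy]
          exact hys
      rw [h3]
      exact hU.isOpenMap_subtype_val _ ho
  exact ⟨⟨f, hc⟩, h1, h2⟩

/-- The interior of the cube. -/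
def inner (n : ℕ) : Set (Fin n → unitInterval) := {u | ∀ i, u i ≠ 0 ∧ u i ≠ 1}

theorem isOpen_inner (n : ℕ) : IsOpen (inner n) := by
  have : inner n = ⋂ i : Fin n, {u | u i ≠ 0 ∧ u i ≠ 1} := by
    ext u; simp [inner]
  rw [this]
  refine isOpen_iInter_of_finite fun i => ?_
  exact (isOpen_ne.preimage (continuous_apply i)).inter (isOpen_ne.preimage (continuous_apply i))

theorem notMem_inner {n : ℕ} {u : Fin n → unitInterval} :
    u ∉ inner n ↔ ∃ i, u i = 0 ∨ u i = 1 := by
  simp only [inner, mem_ofPred_eq, not_forall, not_and_or, not_not]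

/-- The interior of the cube is an open cube. -/
noncomputable def innerHomeo (n : ℕ) : inner n ≃ₜ (Fin n → ℝ) :=
  Homeomorph.trans
    { toFun := fun u i => (⟨2 * (u.1 i : ℝ) - 1, by
        have h := u.2 i
        have h0 : (0 : ℝ) < u.1 i := unitInterval.pos_iff_ne_zero.2 h.1
        have h1 : (u.1 i : ℝ) < 1 := unitInterval.lt_one_iff_ne_one.2 h.2
        constructor <;> linarith⟩ : Ioo (-1 : ℝ) 1)
      invFun := fun w => ⟨fun i => ⟨((w i : ℝ) + 1) / 2, by
        have h0 := (w i).2.1
        have h1 := (w i).2.2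
        constructor <;> linarith⟩, fun i => by
        have h0 := (w i).2.1
        have h1 := (w i).2.2
        constructor
        · intro h
          have := congrArg Subtype.val h
          simp only [Set.Icc.coe_zero] at this
          linarith
        · intro h
          have := congrArg Subtype.val h
          simp only [Set.Icc.coe_one] at this
          linarith⟩
      left_inv := fun u => by
        ext i
        simp
      right_inv := fun w => by
        funext i
        ext
        simp only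
        ring
      continuous_toFun := by
        refine continuous_pi fun i => Continuous.subtype_mk ?_ _
        exact ((continuous_const.mul (continuous_subtype_val.comp
          ((continuous_apply i).comp continuous_subtype_val))).sub continuous_const)
      continuous_invFun := by
        refine Continuous.subtype_mk (continuous_pi fun i => Continuous.subtype_mk ?_ _) _
        fun_prop }
    (Homeomorph.piCongrRight fun _ => (orderIsoIooNegOneOne ℝ).symm.toHomeomorph)

/-- The collapse of the cube onto the sphere. -/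
theorem exists_collapse_sphere {n : ℕ} (hn : 1 ≤ n) :
    ∃ (q : C(Fin n → unitInterval, Sph n)) (s : Sph n), Function.Surjective q ∧
      (∀ u, (∃ i, u i = 0 ∨ u i = 1) → q u = s) ∧
      ∀ u v, q u = q v → u = v ∨ ((∃ i, u i = 0 ∨ u i = 1) ∧ ∃ i, v i = 0 ∨ v i = 1) := by
  obtain ⟨c, h1, h2⟩ := exists_collapse (isOpen_inner n)
  let e : OnePoint (inner n) ≃ₜ Sph n := (innerHomeo n).onePointCongr.trans
    (onePointEquivSphereOfFinrankEq (by simp))
  refine ⟨(⟨e, e.continuous⟩ : C(OnePoint (inner n), Sph n)).comp c, e OnePoint.infty,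
    ?_, ?_, ?_⟩
  · intro y
    obtain ⟨x, rfl⟩ := e.surjective y
    induction x using OnePoint.rec with
    | infty =>
      refine ⟨fun _ => 0, ?_⟩
      show e (c _) = _
      rw [h2]
      rw [notMem_inner]
      exact ⟨⟨0, hn⟩, Or.inl rfl⟩
    | coe x =>
      refine ⟨x.1, ?_⟩
      show e (c _) = _
      rw [h1 x.1 x.2]
  · intro u hu
    show e (c u) = _
    rw [h2 u (notMem_inner.2 hu)]
  · intro u v huv
    have huv' : c u = c v := e.injective huv
    by_cases hu : u ∈ inner n <;> by_cases hv : v ∈ inner n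
    · rw [h1 u hu, h1 v hv, OnePoint.coe_eq_coe] at huv'
      exact Or.inl (congrArg Subtype.val huv')
    · rw [h1 u hu, h2 v hv] at huv'
      exact absurd huv' (OnePoint.coe_ne_infty _)
    · rw [h2 u hu, h1 v hv] at huv'
      exact absurd huv'.symm (OnePoint.coe_ne_infty _)
    · exact Or.inr ⟨notMem_inner.1 hu, notMem_inner.1 hv⟩

/-- Homotopies which are constant on the boundary at all times descend to the sphere. -/
theorem descend {n : ℕ} {X : Type*} [TopologicalSpace X] {q : C(Fin n → unitInterval, Sph n)}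
    (hq : Function.Surjective q)
    (hinj : ∀ u v, q u = q v →
      u = v ∨ ((∃ i, u i = 0 ∨ u i = 1) ∧ ∃ i, v i = 0 ∨ v i = 1))
    (F : unitInterval × (Fin n → unitInterval) → X) (hF : Continuous F)
    (hb : ∀ t u v, (∃ i, u i = 0 ∨ u i = 1) → (∃ i, v i = 0 ∨ v i = 1) → F (t, u) = F (t, v)) :
    ∃ G : C(unitInterval × Sph n, X), ∀ t u, G (t, q u) = F (t, u) := by
  let Q : C(unitInterval × (Fin n → unitInterval), unitInterval × Sph n) :=
    (ContinuousMap.id _).prodMap q
  have hQ : IsQuotientMap Q := by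
    refine IsClosedMap.isQuotientMap (Continuous.isClosedMap Q.continuous) Q.continuous ?_
    rintro ⟨t, y⟩
    obtain ⟨u, rfl⟩ := hq y
    exact ⟨(t, u), rfl⟩
  have hfac : Function.FactorsThrough (⟨F, hF⟩ : C(unitInterval × (Fin n → unitInterval), X)) Q := by
    rintro ⟨t, u⟩ ⟨t', v⟩ h
    have h1 : t = t' := congrArg Prod.fst h
    have h2 : q u = q v := congrArg Prod.snd h
    subst h1
    show F (t, u) = F (t, v)
    rcases hinj u v h2 with rfl | ⟨hu, hv⟩
    · rfl
    · exact hb t u v hu hv
  refine ⟨hQ.lift _ hfac, fun t u => ?_⟩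
  exact congrArg (fun g : C(unitInterval × (Fin n → unitInterval), X) => g (t, u))
    (hQ.lift_comp _ hfac)

end Collapse

/-- Homologous generalised loops in a simply connected, `j`-connected space are homotopic. -/
theorem homotopic_of_bd {X : Type*} [TopologicalSpace X] {x0 : X} {j : ℕ}
    [Nontrivial (Fin (j + 1))] (hF : ∀ m < j + 1, Fills X (m + 1))
    (f g : GenLoop (Fin (j + 1)) X x0)
    (h : Bd ℤ ((j + 1 : ℕ) : ℤ) Set.univ ∅
      (Finsupp.single (glCube f) 1 - Finsupp.single (glCube g) 1)) :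
    GenLoop.Homotopic f g := by
  obtain ⟨b, hb, hq⟩ := h
  have h1 : Nr (j + 1) (Finsupp.single (glCube f) 1 - Finsupp.single (glCube g) 1 -
      bd (((j + 1 : ℕ) : ℤ) + 1) b : Ch ℤ X) = 0 := Nr_Q (j + 1) hq
  rw [map_sub, map_sub, ← bd_Nr, Nr_const x0 j fun i hi => glCube_zr f hi,
    Nr_const x0 j fun i hi => glCube_zr g hi, sub_sub_sub_cancel_right, sub_eq_zero] at h1
  have h2 : (Nr (j + 1 + 1) b) ∈ C ℤ ((j + 1 + 1 : ℕ) : ℤ) (Set.univ : Set X) :=
    Nr_mem_C _ (by exact_mod_cast hb)
  have h3 := Ob_bd (x0 := x0) hF h2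
  rw [show (((j + 1 + 1 : ℕ) : ℤ)) = ((j + 1 : ℕ) : ℤ) + 1 by push_cast; ring, ← h1, map_sub,
    Ob_single, Ob_single, sub_eq_zero] at h3
  have h4 : ∀ f : GenLoop (Fin (j + 1)) X x0, ob hF x0 (glCube f) = Hat.cls f := fun f => by
    rw [ob, dif_pos (glCube_isCube f)]
    exact (Hat.cls_eq (top_homotopic hF f)).symm
  rw [h4, h4] at h3
  exact Quotient.exact (Additive.ofMul.injective h3)

end H25

/-- **Hopf.** Two maps of the sphere into a simply connected, `(n-1)`-connected space which agree
on the fundamental class are homotopic. -/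
theorem hopf {n : ℕ} (hn : 2 ≤ n) {X : Type} [TopologicalSpace X] [SimplyConnectedSpace X]
    (hX : ∀ m ≤ n, Fills X m) {z : Ch ℤ (Sph n)} (hz : z ∈ Z ℤ n Set.univ ∅)
    (hgen : ∀ w ∈ Z ℤ n (Set.univ : Set (Sph n)) ∅, ∃ r : ℤ, Bd ℤ n Set.univ ∅ (w - r • z))
    (f h : C(Sph n, X)) (hfh : Bd ℤ n Set.univ ∅ (push f z - push h z)) : f.Homotopic h := by
  obtain ⟨j, rfl⟩ : ∃ j, n = j + 1 := ⟨n - 1, by omega⟩
  have hnt : Nontrivial (Fin (j + 1)) := Fin.nontrivial_iff_two_le.2 hn
  obtain ⟨q, s, hqs, hqb, hqi⟩ := H25.exists_collapse_sphere (n := j + 1) (by omega)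
  -- move the base point
  obtain ⟨γ⟩ : Joined (f s) (h s) := PathConnectedSpace.joined _ _
  obtain ⟨E, hE, hE0, hEb⟩ := hep (fun u => f (q u)) (f.continuous.comp q.continuous)
    (fun p => γ p.1) (γ.continuous.comp continuous_fst).continuousOn
    (fun u hu => by simp [hqb u hu])
  obtain ⟨G, hG⟩ := H25.descend hqs hqi E hE (fun t u v hu hv => by
    rw [hEb t u hu, hEb t v hv])
  let f' : C(Sph (j + 1), X) := atTime G 1
  have hG0 : atTime G 0 = f := by
    ext y
    obtain ⟨u, rfl⟩ := hqs y
    exact (hG 0 u).trans (hE0 u)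
  have hff' : f.Homotopic f' := ⟨{
    toFun := G
    continuous_toFun := G.continuous
    map_zero_left := fun y => congrArg (fun g : C(Sph (j + 1), X) => g y) hG0
    map_one_left := fun y => rfl }⟩
  have hf's : ∀ u, (∃ i, u i = 0 ∨ u i = 1) → f' (q u) = h s := fun u hu => by
    show G (1, q u) = _
    rw [hG, hEb 1 u hu]
    exact γ.target
  -- the loops
  let qL : GenLoop (Fin (j + 1)) (Sph (j + 1)) s := ⟨q, fun u hu => hqb u hu⟩
  let F : GenLoop (Fin (j + 1)) X (h s) := ⟨f'.comp q, fun u hu => hf's u hu⟩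
  let H : GenLoop (Fin (j + 1)) X (h s) := ⟨h.comp q, fun u hu => congrArg h (hqb u hu)⟩
  have hw := glCube_Z qL
  obtain ⟨r, hr⟩ := hgen _ hw
  have h1 : Bd ℤ ((j + 1 : ℕ) : ℤ) Set.univ ∅ (push f' z - push f z) := by
    have := Bd_homotopy (H := G) (V := Set.univ) (A' := ∅) (fun _ _ _ => Set.mem_univ _)
      (fun _ x hx => hx.elim) hz
    rwa [hG0] at this
  have h2 : ∀ g : C(Sph (j + 1), X), Bd ℤ ((j + 1 : ℕ) : ℤ) Set.univ ∅
      (push g (Finsupp.single (glCube qL) 1) - r • push g z) := fun g => by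
    have := Bd.push (f := g) (V := Set.univ) (A' := ∅) (Set.mapsTo_univ _ _)
      (fun x hx => hx.elim) hr
    rwa [map_sub, map_smul] at this
  have h3 : Bd ℤ ((j + 1 : ℕ) : ℤ) Set.univ ∅
      (push f' (Finsupp.single (glCube qL) 1) - push h (Finsupp.single (glCube qL) 1)) := by
    have h4 := ((h2 f').sub (h2 h)).add ((h1.add hfh).smul r)
    convert h4 using 1
    simp only [smul_add, smul_sub]
    abel
  have h5 : GenLoop.Homotopic F H := by
    refine H25.homotopic_of_bd (fun m hm => hX _ (by omega)) F H ?_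
    have h6 : ∀ g : C(Sph (j + 1), X), (push g (Finsupp.single (glCube qL) (1 : ℤ)) : Ch ℤ X) =
        Finsupp.single (g.comp (glCube qL)) 1 := fun g => push_single _ _ _
    rw [h6, h6] at h3
    exact h3
  obtain ⟨K⟩ := h5
  obtain ⟨G', hG'⟩ := H25.descend hqs hqi K K.continuous (fun t u v hu hv => by
    rw [K.eq_fst t hu, K.eq_fst t hv]
    exact (hf's u hu).trans (hf's v hv).symm)
  refine hff'.trans ⟨{
    toFun := G'
    continuous_toFun := G'.continuous
    map_zero_left := fun y => ?_
    map_one_left := fun y => ?_ }⟩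
  · obtain ⟨u, rfl⟩ := hqs y
    exact (hG' 0 u).trans (K.apply_zero u)
  · obtain ⟨u, rfl⟩ := hqs y
    exact (hG' 1 u).trans (K.apply_one u)

/-- A self-map of the sphere of degree one is homotopic to the identity. -/
theorem hopf_self {n : ℕ} (hn : 2 ≤ n) {z : Ch ℤ (Sph n)} (hz : z ∈ Z ℤ n Set.univ ∅)
    (hgen : ∀ w ∈ Z ℤ n (Set.univ : Set (Sph n)) ∅, ∃ r : ℤ, Bd ℤ n Set.univ ∅ (w - r • z))
    (f : C(Sph n, Sph n)) (hf : Bd ℤ n Set.univ ∅ (push f z - z)) :
    f.Homotopic (ContinuousMap.id _) := by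
  have := sphere_simplyConnected hn
  refine hopf hn (fun m hm => fills_sph hm) hz hgen f _ ?_
  rwa [push_id]

end Pool.Agent.TCH
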