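import Pool.Agent.Lib.TC.HDefs

/-!
# Homology library, HR28
-/

namespace Pool.Agent.TCH

open CubeHom

variable {R : Type*} [CommRing R] {X Y : Type*} [TopologicalSpace X] [TopologicalSpace Y]

namespace H28

/-- Finite generation with a finite set of generators. -/
theorem fgh_iff {k : ℤ} {U A : Set X} : FGH R k U A ↔ ∃ T : Set (Ch R X), T.Finite ∧
    (∀ x ∈ T, x ∈ Z R k U A) ∧
      ∀ z ∈ Z R k U A, ∃ y ∈ Submodule.span R T, Bd R k U A (z - y) := by
  constructor
  · rintro ⟨m, s, hs, h⟩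
    refine ⟨Set.range s, Set.finite_range s, ?_, fun z hz => ?_⟩
    · rintro _ ⟨i, rfl⟩
      exact hs i
    · obtain ⟨a, ha⟩ := h z hz
      exact ⟨_, Submodule.sum_mem _ fun i _ =>
        Submodule.smul_mem _ _ (Submodule.subset_span ⟨i, rfl⟩), ha⟩
  · rintro ⟨T, hT, hs, h⟩
    have : Fintype T := hT.fintype
    let e := Fintype.equivFin T
    refine ⟨Fintype.card T, fun i => (e.symm i : Ch R X), fun i => hs _ (e.symm i).2,
      fun z hz => ?_⟩
    obtain ⟨y, hy, hb⟩ := h z hz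
    have h1 : T = Set.range fun i => (e.symm i : Ch R X) := by
      ext x
      constructor
      · intro hx
        exact ⟨e ⟨x, hx⟩, by simp⟩
      · rintro ⟨i, rfl⟩
        exact (e.symm i).2
    rw [h1, Submodule.mem_span_range_iff_exists_fun] at hy
    obtain ⟨a, rfl⟩ := hy
    exact ⟨a, hb⟩

/-- Two chains in `U` and `V` with degenerate sum. -/
theorem exists_common {l : ℤ} {U V : Set X} {x y : Ch R X} (hx : x ∈ C R l U) (hy : y ∈ C R l V)
    (hxy : x + y ∈ Q R l (∅ : Set X)) :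
    ∃ w ∈ C R l (U ∩ V), x - w ∈ Q R l (∅ : Set X) := by
  classical
  have hx' := hx
  have hy' := hy
  unfold C at hx' hy'
  unfold Q at hxy
  rw [Finsupp.mem_supported] at hx' hy' hxy
  refine ⟨x.filter (fun σ => ¬ Degen l σ), ?_, ?_⟩
  · unfold C
    rw [Finsupp.mem_supported]
    intro σ hσ
    rw [Finset.mem_coe, Finsupp.support_filter, Finset.mem_filter] at hσ
    have h1 := hx' hσ.1
    have h2 : y σ ≠ 0 := by
      intro h0
      have h3 : (x + y) σ ≠ 0 := by
        rw [Finsupp.add_apply, h0, add_zero]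
        exact Finsupp.mem_support_iff.1 hσ.1
      rcases (hxy (Finsupp.mem_support_iff.2 h3)).2 with h4 | h4
      · exact h4 fun _ => 0
      · exact hσ.2 h4
    have h3 := hy' (Finsupp.mem_support_iff.2 h2)
    exact ⟨h1.1, fun u => ⟨h1.2 u, h3.2 u⟩⟩
  · have h1 : x - x.filter (fun σ => ¬ Degen l σ) = x.filter (fun σ => Degen l σ) := by
      rw [sub_eq_iff_eq_add, Finsupp.filter_add_filter_not]
    rw [h1]
    unfold Q
    rw [Finsupp.mem_supported]
    intro σ hσ
    rw [Finset.mem_coe, Finsupp.support_filter, Finset.mem_filter] at hσ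
    exact ⟨(hx' hσ.1).1, Or.inr hσ.2⟩

end H28

open H28

/-- Absolute homology of a union of two open sets. -/
theorem FGH.union [IsNoetherianRing R] {U V : Set X} (hU : IsOpen U) (hV : IsOpen V) {k : ℤ}
    (h1 : FGH R k U ∅) (h2 : FGH R k V ∅) (h12 : FGH R (k - 1) (U ∩ V) ∅) :
    FGH R k (U ∪ V) ∅ := by
  classical
  rw [fgh_iff] at h1 h2 h12 ⊢
  obtain ⟨T1, hT1, hm1, hg1⟩ := h1
  obtain ⟨T2, hT2, hm2, hg2⟩ := h2
  obtain ⟨T, hT, hm, hg⟩ := h12
  -- the boundaries
  let N : Submodule R (Ch R X) :=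
    { carrier := {y | y ∈ Submodule.span R T ∧ ∃ z1 ∈ C R k U, ∃ z2 ∈ C R k V,
        bd k z1 - y ∈ Q R (k - 1) (∅ : Set X) ∧ bd k z2 + y ∈ Q R (k - 1) (∅ : Set X)}
      zero_mem' := ⟨Submodule.zero_mem _, 0, Submodule.zero_mem _, 0, Submodule.zero_mem _, by simp,
        by simp⟩
      add_mem' := by
        rintro y y' ⟨hy, z1, hz1, z2, hz2, ha, hb⟩ ⟨hy', z1', hz1', z2', hz2', ha', hb'⟩
        refine ⟨Submodule.add_mem _ hy hy', z1 + z1', Submodule.add_mem _ hz1 hz1', z2 + z2',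
          Submodule.add_mem _ hz2 hz2', ?_, ?_⟩
        · have e : bd k (z1 + z1') - (y + y') = (bd k z1 - y) + (bd k z1' - y') := by
            rw [map_add]; abel
          rw [e]
          exact Submodule.add_mem _ ha ha'
        · have e : bd k (z2 + z2') + (y + y') = (bd k z2 + y) + (bd k z2' + y') := by
            rw [map_add]; abel
          rw [e]
          exact Submodule.add_mem _ hb hb'
      smul_mem' := by
        rintro r y ⟨hy, z1, hz1, z2, hz2, ha, hb⟩
        refine ⟨Submodule.smul_mem _ r hy, r • z1, Submodule.smul_mem _ r hz1, r • z2,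
          Submodule.smul_mem _ r hz2, ?_, ?_⟩
        · rw [map_smul, ← smul_sub]
          exact Submodule.smul_mem _ r ha
        · rw [map_smul, ← smul_add]
          exact Submodule.smul_mem _ r hb }
  have hN : N.FG := by
    have h3 : IsNoetherian R (Submodule.span R T) := isNoetherian_span_of_finite R hT
    exact isNoetherian_submodule.1 h3 N fun y hy => hy.1
  obtain ⟨S, hS⟩ := hN
  have hSN : ∀ x ∈ S, x ∈ N := fun x hx => hS ▸ Submodule.subset_span hx
  have hch : ∀ x : Ch R X, ∃ z : Ch R X × Ch R X, x ∈ S → z.1 ∈ C R k U ∧ z.2 ∈ C R k V ∧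
      bd k z.1 - x ∈ Q R (k - 1) (∅ : Set X) ∧ bd k z.2 + x ∈ Q R (k - 1) (∅ : Set X) := by
    intro x
    by_cases hx : x ∈ S
    · obtain ⟨-, z1, hz1, z2, hz2, ha, hb⟩ := hSN x hx
      exact ⟨(z1, z2), fun _ => ⟨hz1, hz2, ha, hb⟩⟩
    · exact ⟨(0, 0), fun h => absurd h hx⟩
  choose ζ hζ using hch
  refine ⟨T1 ∪ T2 ∪ ((fun x => (ζ x).1 + (ζ x).2) '' (S : Set (Ch R X))),
    (hT1.union hT2).union (S.finite_toSet.image _), ?_, ?_⟩
  · rintro x ((hx | hx) | ⟨y, hy, rfl⟩)
    · exact Z_mono Set.subset_union_left le_rfl (hm1 x hx)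
    · exact Z_mono Set.subset_union_right le_rfl (hm2 x hx)
    · obtain ⟨ha, hb, hc, hd⟩ := hζ y hy
      refine ⟨Submodule.add_mem _ (C_mono k Set.subset_union_left ha)
        (C_mono k Set.subset_union_right hb), ?_⟩
      change bd k ((ζ y).1 + (ζ y).2) ∈ Q R (k - 1) (∅ : Set X)
      have e : bd k ((ζ y).1 + (ζ y).2) = (bd k (ζ y).1 - y) + (bd k (ζ y).2 + y) := by
        rw [map_add]; abel
      rw [e]
      exact Submodule.add_mem _ hc hd
  · intro z hz
    have hUW : U ∩ (U ∪ V) = U := Set.inter_eq_left.mpr Set.subset_union_left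
    have hVW : V ∩ (U ∪ V) = V := Set.inter_eq_left.mpr Set.subset_union_right
    obtain ⟨b, hb, h⟩ := small_cubes hU hV (le_refl (U ∪ V)) hz.1
      (A := ∅) (Submodule.mem_sup_right hz.2)
    rw [hUW, hVW] at h
    obtain ⟨t, ht, q, hq, htq⟩ := Submodule.mem_sup.mp h
    obtain ⟨z1, hz1, z2, hz2, rfl⟩ := Submodule.mem_sup.mp ht
    have hbb := bd_bd (R := R) (k + 1) b
    rw [add_sub_cancel_right] at hbb
    have hz12 : z1 + z2 = z - bd (k + 1) b - q := by rw [← htq]; abel
    have hd12 : bd k z1 + bd k z2 ∈ Q R (k - 1) (∅ : Set X) := by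
      rw [← map_add, hz12, map_sub, map_sub, hbb, sub_zero]
      exact Submodule.sub_mem _ hz.2 (bd_mem_Q hq)
    obtain ⟨w, hw, hw'⟩ := exists_common (bd_mem_C hz1) (bd_mem_C hz2) hd12
    have hwZ : w ∈ Z R (k - 1) (U ∩ V) ∅ := by
      refine ⟨hw, ?_⟩
      change bd (k - 1) w ∈ Q R (k - 1 - 1) (∅ : Set X)
      have e : w = bd k z1 - (bd k z1 - w) := by abel
      rw [e, map_sub, bd_bd, zero_sub]
      exact Submodule.neg_mem _ (bd_mem_Q hw')
    obtain ⟨y, hy, e, he, hwy⟩ := hg w hwZ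
    rw [sub_add_cancel] at he hwy
    have hy1 : bd k (z1 - e) - y ∈ Q R (k - 1) (∅ : Set X) := by
      have e1 : bd k (z1 - e) - y = (w - y - bd k e) + (bd k z1 - w) := by
        rw [map_sub]; abel
      rw [e1]
      exact Submodule.add_mem _ hwy hw'
    have hy2 : bd k (z2 + e) + y ∈ Q R (k - 1) (∅ : Set X) := by
      have e1 : bd k (z2 + e) + y = (bd k z1 + bd k z2) - (bd k (z1 - e) - y) := by
        rw [map_sub, map_add]; abel
      rw [e1]
      exact Submodule.sub_mem _ hd12 hy1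
    have hc1 : z1 - e ∈ C R k U :=
      Submodule.sub_mem _ hz1 (C_mono k Set.inter_subset_left he)
    have hc2 : z2 + e ∈ C R k V :=
      Submodule.add_mem _ hz2 (C_mono k Set.inter_subset_right he)
    have hyN : y ∈ N := ⟨hy, z1 - e, hc1, z2 + e, hc2, hy1, hy2⟩
    rw [← hS, Submodule.mem_span_finset] at hyN
    obtain ⟨f, -, hf⟩ := hyN
    have hZ1 : ∑ a ∈ S, f a • (ζ a).1 ∈ C R k U :=
      Submodule.sum_mem _ fun a ha => Submodule.smul_mem _ _ (hζ a ha).1
    have hZ2 : ∑ a ∈ S, f a • (ζ a).2 ∈ C R k V :=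
      Submodule.sum_mem _ fun a ha => Submodule.smul_mem _ _ (hζ a ha).2.1
    have hZ1' : bd k (∑ a ∈ S, f a • (ζ a).1) - y ∈ Q R (k - 1) (∅ : Set X) := by
      have e1 : bd k (∑ a ∈ S, f a • (ζ a).1) - y = ∑ a ∈ S, f a • (bd k (ζ a).1 - a) := by
        rw [map_sum, ← hf, ← Finset.sum_sub_distrib]
        refine Finset.sum_congr rfl fun a _ => ?_
        rw [map_smul, smul_sub]
      rw [e1]
      exact Submodule.sum_mem _ fun a ha => Submodule.smul_mem _ _ (hζ a ha).2.2.1
    have hZ2' : bd k (∑ a ∈ S, f a • (ζ a).2) + y ∈ Q R (k - 1) (∅ : Set X) := by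
      have e1 : bd k (∑ a ∈ S, f a • (ζ a).2) + y = ∑ a ∈ S, f a • (bd k (ζ a).2 + a) := by
        rw [map_sum, ← hf, ← Finset.sum_add_distrib]
        refine Finset.sum_congr rfl fun a _ => ?_
        rw [map_smul, smul_add]
      rw [e1]
      exact Submodule.sum_mem _ fun a ha => Submodule.smul_mem _ _ (hζ a ha).2.2.2
    have hA : z1 - e - ∑ a ∈ S, f a • (ζ a).1 ∈ Z R k U ∅ := by
      refine ⟨Submodule.sub_mem _ hc1 hZ1, ?_⟩
      change bd k (z1 - e - ∑ a ∈ S, f a • (ζ a).1) ∈ Q R (k - 1) (∅ : Set X)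
      have e1 : bd k (z1 - e - ∑ a ∈ S, f a • (ζ a).1) =
          (bd k (z1 - e) - y) - (bd k (∑ a ∈ S, f a • (ζ a).1) - y) := by
        rw [map_sub (bd k) (z1 - e)]; abel
      rw [e1]
      exact Submodule.sub_mem _ hy1 hZ1'
    have hB : z2 + e - ∑ a ∈ S, f a • (ζ a).2 ∈ Z R k V ∅ := by
      refine ⟨Submodule.sub_mem _ hc2 hZ2, ?_⟩
      change bd k (z2 + e - ∑ a ∈ S, f a • (ζ a).2) ∈ Q R (k - 1) (∅ : Set X)
      have e1 : bd k (z2 + e - ∑ a ∈ S, f a • (ζ a).2) =
          (bd k (z2 + e) + y) - (bd k (∑ a ∈ S, f a • (ζ a).2) + y) := by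
        rw [map_sub (bd k) (z2 + e)]; abel
      rw [e1]
      exact Submodule.sub_mem _ hy2 hZ2'
    obtain ⟨u, hu, hu'⟩ := hg1 _ hA
    obtain ⟨v, hv, hv'⟩ := hg2 _ hB
    refine ⟨u + v + ∑ a ∈ S, f a • ((ζ a).1 + (ζ a).2), ?_, ?_⟩
    · refine Submodule.add_mem _ (Submodule.add_mem _ ?_ ?_) ?_
      · exact Submodule.span_mono (fun x hx => Or.inl (Or.inl hx)) hu
      · exact Submodule.span_mono (fun x hx => Or.inl (Or.inr hx)) hv
      · exact Submodule.sum_mem _ fun a ha => Submodule.smul_mem _ _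
          (Submodule.subset_span (Or.inr ⟨a, ha, rfl⟩))
    · have e1 : z - (u + v + ∑ a ∈ S, f a • ((ζ a).1 + (ζ a).2)) =
          (bd (k + 1) b + q) + ((z1 - e - ∑ a ∈ S, f a • (ζ a).1) - u) +
            ((z2 + e - ∑ a ∈ S, f a • (ζ a).2) - v) := by
        have e2 : ∑ a ∈ S, f a • ((ζ a).1 + (ζ a).2) =
            ∑ a ∈ S, f a • (ζ a).1 + ∑ a ∈ S, f a • (ζ a).2 := by
          rw [← Finset.sum_add_distrib]
          exact Finset.sum_congr rfl fun a _ => smul_add _ _ _
        have e3 : z = z1 + z2 + bd (k + 1) b + q := by rw [hz12]; abel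
        rw [e2, e3]
        abel
      rw [e1]
      refine Bd.add (Bd.add (Bd.add (Bd.of_bd hb) (Bd.of_mem_Q hq)) ?_) ?_
      · exact hu'.mono Set.subset_union_left le_rfl
      · exact hv'.mono Set.subset_union_right le_rfl

/-- A convex set has the homology of a point. -/
theorem FGH.convex {E : Type*} [NormedAddCommGroup E] [NormedSpace ℝ E] {U : Set E}
    (hU : Convex ℝ U) (k : ℤ) : FGH R k U ∅ := by
  rw [fgh_iff]
  rcases U.eq_empty_or_nonempty with rfl | ⟨x0, hx0⟩
  · refine ⟨∅, Set.finite_empty, fun _ h => h.elim, fun z hz => ⟨0, Submodule.zero_mem _, ?_⟩⟩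
    rw [sub_zero]
    refine Bd.of_mem_C ?_
    exact hz.1
  let H : C(I × E, E) := ⟨fun p => AffineMap.lineMap x0 p.2 (p.1 : ℝ), by
    simp only [AffineMap.lineMap_apply, vsub_eq_sub, vadd_eq_add]
    fun_prop⟩
  have hH : ∀ t, ∀ x ∈ U, H (t, x) ∈ U := by
    intro t x hx
    exact hU.lineMap_mem hx0 hx ⟨t.2.1, t.2.2⟩
  have e1 : atTime H 1 = ContinuousMap.id E := by
    refine ContinuousMap.ext fun x => ?_
    change AffineMap.lineMap x0 x (((1 : I) : ℝ)) = x
    simp
  have e0 : atTime H 0 = ContinuousMap.const E x0 := by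
    refine ContinuousMap.ext fun x => ?_
    change AffineMap.lineMap x0 x (((0 : I) : ℝ)) = x0
    simp
  have hbd : ∀ z ∈ Z R k U ∅, Bd R k U ∅ (z - push (ContinuousMap.const E x0) z) := by
    intro z hz
    have h := Bd_homotopy (R := R) (H := H) (U := U) (A := ∅) (V := U) (A' := ∅) hH
      (fun _ _ h => h.elim) hz
    rw [e1, e0, push_id] at h
    exact h
  rcases eq_or_ne k 0 with rfl | hk
  · refine ⟨{Finsupp.single (ContinuousMap.const Cb x0) 1}, Set.finite_singleton _, ?_, ?_⟩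
    · rintro _ rfl
      refine ⟨mem_C_single (isCube_const 0 x0) (fun _ => hx0) 1, ?_⟩
      change bd 0 _ ∈ Q R (0 - 1) (∅ : Set E)
      rw [bd_of_nonpos le_rfl]
      exact Submodule.zero_mem _
    · intro z hz
      refine ⟨push (ContinuousMap.const E x0) z, ?_, hbd z hz⟩
      refine map_mem_of_supported (push (ContinuousMap.const E x0)) _ (fun σ hσ => ?_) hz.1
      rw [push_single]
      exact Submodule.subset_span rfl
  · refine ⟨∅, Set.finite_empty, fun _ h => h.elim, fun z hz => ⟨0, Submodule.zero_mem _, ?_⟩⟩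
    rw [sub_zero]
    have e : z = (z - push (ContinuousMap.const E x0) z) + push (ContinuousMap.const E x0) z := by
      abel
    rw [e]
    refine Bd.add (hbd z hz) (Bd.of_mem_Q ?_)
    refine map_mem_of_supported (push (ContinuousMap.const E x0)) _ (fun σ hσ => ?_) hz.1
    rw [push_single]
    refine mem_Q_single (hσ.1.comp _) (Or.inr ⟨0, ?_, ?_⟩) _
    · have := hσ.1.1
      push_cast
      omega
    · intro x y _
      rfl

/-- Finite unions of convex open sets. -/
theorem FGH.convex_union [IsNoetherianRing R] {E : Type*} [NormedAddCommGroup E]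
    [NormedSpace ℝ E] {ι : Type} (s : Finset ι) (O : ι → Set E) (hO : ∀ i ∈ s, IsOpen (O i))
    (hc : ∀ i ∈ s, Convex ℝ (O i)) (k : ℤ) : FGH R k (⋃ i ∈ s, O i) ∅ := by
  classical
  induction s using Finset.induction_on generalizing O k with
  | empty =>
    have e : (⋃ i ∈ (∅ : Finset ι), O i) = ∅ := by simp
    rw [e]
    exact FGH.convex convex_empty k
  | insert a s ha ih =>
    have e : (⋃ i ∈ insert a s, O i) = O a ∪ ⋃ i ∈ s, O i := by
      rw [Finset.set_biUnion_insert]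
    rw [e]
    have hO' : ∀ i ∈ s, IsOpen (O i) := fun i hi => hO i (Finset.mem_insert_of_mem hi)
    have hc' : ∀ i ∈ s, Convex ℝ (O i) := fun i hi => hc i (Finset.mem_insert_of_mem hi)
    have hOa := hO a (Finset.mem_insert_self a s)
    have hca := hc a (Finset.mem_insert_self a s)
    refine FGH.union hOa (isOpen_biUnion (s := (s : Set ι)) hO') (FGH.convex hca k)
      (ih O hO' hc' k) ?_
    change FGH R (k - 1) (O a ∩ ⋃ i ∈ s, O i) ∅
    have e2 : O a ∩ ⋃ i ∈ s, O i = ⋃ i ∈ s, (O a ∩ O i) := by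
      rw [Set.inter_iUnion₂]
    rw [e2]
    exact ih (fun i => O a ∩ O i) (fun i hi => hOa.inter (hO' i hi))
      (fun i hi => hca.inter (hc' i hi)) (k - 1)

/-- A compact neighbourhood retract of a normed space has finitely generated homology. -/
theorem FGH.retract [IsNoetherianRing R] {E : Type*} [NormedAddCommGroup E] [NormedSpace ℝ E]
    [CompactSpace X] (j : C(X, E)) {V : Set E} (hV : IsOpen V) (hj : ∀ x, j x ∈ V)
    (r : C(V, X)) (hr : ∀ x, r ⟨j x, hj x⟩ = x) (k : ℤ) : FGH R k (Set.univ : Set X) ∅ := by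
  classical
  -- a finite union of balls
  have hball : ∀ x : X, ∃ ε > 0, Metric.ball (j x) ε ⊆ V := fun x =>
    Metric.isOpen_iff.1 hV _ (hj x)
  choose ε hε hεV using hball
  obtain ⟨t, ht⟩ := isCompact_univ.elim_nhds_subcover (fun x => j ⁻¹' Metric.ball (j x) (ε x))
    (fun x _ => (Metric.isOpen_ball.preimage j.continuous).mem_nhds
      (Metric.mem_ball_self (hε x)))
  obtain ⟨O, hOdef⟩ : ∃ O : Set E, O = ⋃ i ∈ (Finset.univ : Finset (Fin t.card)),
      Metric.ball (j (t.equivFin.symm i)) (ε (t.equivFin.symm i)) := ⟨_, rfl⟩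
  have hO : FGH R k O ∅ := by
    rw [hOdef]
    exact FGH.convex_union _ _ (fun _ _ => Metric.isOpen_ball) (fun _ _ => convex_ball _ _) k
  have hOV : O ⊆ V := by
    rw [hOdef]
    exact Set.iUnion₂_subset fun i _ => hεV _
  have hjO : ∀ x, j x ∈ O := by
    intro x
    obtain ⟨y, hy, hxy⟩ := Set.mem_iUnion₂.1 (ht.2 (Set.mem_univ x))
    rw [hOdef]
    refine Set.mem_iUnion₂.2 ⟨t.equivFin ⟨y, hy⟩, Finset.mem_univ _, ?_⟩
    rw [Equiv.symm_apply_apply]
    exact hxy
  -- the subspace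
  let ι : C(O, E) := ⟨Subtype.val, continuous_subtype_val⟩
  have hιi : Function.Injective ι := Subtype.val_injective
  have hιt : Topology.IsInducing ι := Topology.IsInducing.subtypeVal
  have hιr : Set.range ι = O := Subtype.range_val
  let ρ : C(O, X) := r.comp ⟨Set.inclusion hOV, continuous_inclusion hOV⟩
  let jO : C(X, O) := ⟨fun x => ⟨j x, hjO x⟩, by fun_prop⟩
  have hρ : ρ.comp jO = ContinuousMap.id X := ContinuousMap.ext hr
  have hιj : ι.comp jO = j := rfl
  rw [fgh_iff] at hO ⊢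
  obtain ⟨T, hT, hm, hg⟩ := hO
  have hlift : ∀ l : ℤ, ∀ c ∈ C R l O, ∃ c' ∈ C R l (Set.univ : Set O), push ι c' = c := by
    intro l c hc
    rw [← hιr, ← map_push_C hιt hιi] at hc
    exact hc
  have hQ : ∀ l : ℤ, ∀ c : Ch R O, push ι c ∈ Q R l (∅ : Set E) → c ∈ Q R l (∅ : Set O) := by
    intro l c hc
    have := (push_mem_Q_iff hιi l ∅ c).1 hc
    rwa [Set.preimage_empty] at this
  have hlZ : ∀ c : Ch R E, ∃ c' : Ch R O, c ∈ T → c' ∈ Z R k (Set.univ : Set O) ∅ ∧
      push ι c' = c := by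
    intro c
    by_cases hc : c ∈ T
    · obtain ⟨c', hc', rfl⟩ := hlift k c (hm c hc).1
      refine ⟨c', fun _ => ⟨⟨hc', ?_⟩, rfl⟩⟩
      refine hQ _ _ ?_
      rw [← bd_push]
      exact (hm _ hc).2
    · exact ⟨0, fun h => absurd h hc⟩
  choose L hL using hlZ
  refine ⟨(fun c => push ρ (L c)) '' T, hT.image _, ?_, ?_⟩
  · rintro _ ⟨c, hc, rfl⟩
    exact push_mem_Z (fun _ _ => Set.mem_univ _) (fun _ h => h) (hL c hc).1
  · intro z hz
    have hz1 : push j z ∈ Z R k O ∅ := push_mem_Z (fun x _ => hjO x) (fun _ h => h) hz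
    obtain ⟨y, hy, b, hb, hby⟩ := hg _ hz1
    obtain ⟨b', hb', rfl⟩ := hlift _ b hb
    -- lift of `y`
    have hy2 : ∃ y' ∈ Submodule.span R (L '' T), push ι y' = y := by
      have e1 : T = (push ι : Ch R O →ₗ[R] Ch R E) '' (L '' T) := by
        ext c
        constructor
        · intro hc
          exact ⟨L c, ⟨c, hc, rfl⟩, (hL c hc).2⟩
        · rintro ⟨_, ⟨c', hc', rfl⟩, rfl⟩
          rw [(hL c' hc').2]
          exact hc'
      rw [e1, ← Submodule.map_span] at hy
      exact hy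
    obtain ⟨y', hy', rfl⟩ := hy2
    refine ⟨push ρ y', ?_, push ρ b', ?_, ?_⟩
    · have h1 : push ρ y' ∈ (Submodule.span R (L '' T)).map (push ρ) := ⟨y', hy', rfl⟩
      rw [Submodule.map_span, Set.image_image] at h1
      exact h1
    · exact push_mem_C (fun _ _ => Set.mem_univ _) hb'
    · have h1 : push jO z - y' - bd (k + 1) b' ∈ Q R k (∅ : Set O) := by
        refine hQ _ _ ?_
        have e2 : push ι (push jO z) = push j z := by rw [push_push]; rfl
        rw [map_sub, map_sub, e2, ← bd_push]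
        exact hby
      have h2 := push_mem_Q (f := ρ) (V := (∅ : Set X)) (fun _ h => h) h1
      have e3 : push ρ (push jO z) = z := by rw [push_push, hρ, push_id]
      rw [map_sub, map_sub, e3, ← bd_push] at h2
      exact h2

end Pool.Agent.TCH
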