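import Pool.Agent.Lib.TC.HDefs

/-!
# Homology library, HR30
-/

namespace Pool.Agent.TCH

open CubeHom

section General

variable {R S : Type*} [CommRing R] [CommRing S] (φ : R →+* S) {X Y : Type*}
  [TopologicalSpace X] [TopologicalSpace Y]

theorem chMap_single (σ : C(Cb, X)) (r : R) :
    chMap φ (Finsupp.single σ r) = Finsupp.single σ (φ r) := by
  simp [chMap]

namespace H30

theorem chMap_apply (c : Ch R X) (σ : C(Cb, X)) : chMap φ c σ = φ (c σ) := by
  simp [chMap]

theorem chMap_face (i : ℕ) (e : I) (c : Ch R X) :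
    chMap φ (face i e c) = face i e (chMap φ c) := by
  have h : (chMap φ).comp (face (R := R) (X := X) i e).toAddMonoidHom =
      (face (R := S) (X := X) i e).toAddMonoidHom.comp (chMap φ) := by
    refine Finsupp.addHom_ext fun σ r => ?_
    simp [chMap_single]
  exact DFunLike.congr_fun h c

theorem support_chMap (c : Ch R X) : ((chMap φ c).support : Set C(Cb, X)) ⊆ c.support := by
  intro σ hσ
  rw [Finset.mem_coe, Finsupp.mem_support_iff] at hσ ⊢
  intro h
  rw [chMap_apply, h, map_zero] at hσ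
  exact hσ rfl

theorem exists_lift (hφ : Function.Surjective φ) {P : Set C(Cb, X)} {c : Ch S X}
    (h : c ∈ Finsupp.supported S S P) : ∃ c' ∈ Finsupp.supported R R P, chMap φ c' = c := by
  classical
  let s : S → R := fun x => if x = 0 then 0 else Function.surjInv hφ x
  have hs0 : s 0 = 0 := if_pos rfl
  have hs : ∀ x, φ (s x) = x := by
    intro x
    by_cases hx : x = 0
    · rw [hx, hs0, map_zero]
    · change φ (if x = 0 then 0 else Function.surjInv hφ x) = x
      rw [if_neg hx]
      exact Function.surjInv_eq hφ x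
  refine ⟨c.mapRange s hs0, ?_, ?_⟩
  · rw [Finsupp.mem_supported]
    exact (Finset.coe_subset.2 Finsupp.support_mapRange).trans h
  · ext σ
    rw [chMap_apply, Finsupp.mapRange_apply, hs]

end H30

theorem chMap_smul (r : R) (c : Ch R X) : chMap φ (r • c) = φ r • chMap φ c := by
  ext σ
  rw [H30.chMap_apply, Finsupp.smul_apply, Finsupp.smul_apply, H30.chMap_apply, smul_eq_mul,
    smul_eq_mul, map_mul]

theorem chMap_bd (k : ℤ) (c : Ch R X) : chMap φ (bd k c) = bd k (chMap φ c) := by
  rw [bd_apply, bd_apply, map_sum]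
  refine Finset.sum_congr rfl fun i _ => ?_
  rw [chMap_smul, map_sub, H30.chMap_face, H30.chMap_face, map_pow, map_neg, map_one]

theorem chMap_push (f : C(X, Y)) (c : Ch R X) :
    chMap φ (push f c) = push f (chMap φ c) := by
  have h : (chMap φ).comp (push (R := R) f).toAddMonoidHom =
      (push (R := S) f).toAddMonoidHom.comp (chMap φ) := by
    refine Finsupp.addHom_ext fun σ r => ?_
    simp [chMap_single]
  exact DFunLike.congr_fun h c

theorem chMap_cr (n : ℕ) (c : Ch R X) (c' : Ch R Y) :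
    chMap φ (cr n c c') = cr n (chMap φ c) (chMap φ c') := by
  induction c using Finsupp.induction_linear with
  | zero => simp
  | add c₁ c₂ h₁ h₂ =>
    rw [map_add, LinearMap.add_apply, map_add, h₁, h₂, map_add, map_add, LinearMap.add_apply]
  | single τ r =>
    induction c' using Finsupp.induction_linear with
    | zero => simp
    | add c₁ c₂ h₁ h₂ => rw [map_add, map_add, h₁, h₂, map_add, map_add]
    | single σ s =>
      rw [cr_single_single, chMap_single, chMap_single, chMap_single, cr_single_single, map_mul]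

theorem chMap_mem_C {k : ℤ} {U : Set X} {c : Ch R X} (h : c ∈ C R k U) :
    chMap φ c ∈ C S k U := by
  unfold C at h ⊢
  rw [Finsupp.mem_supported] at h ⊢
  exact (H30.support_chMap φ c).trans h

theorem chMap_mem_Q {k : ℤ} {U : Set X} {c : Ch R X} (h : c ∈ Q R k U) :
    chMap φ c ∈ Q S k U := by
  unfold Q at h ⊢
  rw [Finsupp.mem_supported] at h ⊢
  exact (H30.support_chMap φ c).trans h

theorem chMap_mem_Z {k : ℤ} {U A : Set X} {c : Ch R X} (h : c ∈ Z R k U A) :
    chMap φ c ∈ Z S k U A := by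
  refine ⟨chMap_mem_C φ h.1, ?_⟩
  change bd k (chMap φ c) ∈ Q S (k - 1) A
  rw [← chMap_bd]
  exact chMap_mem_Q φ h.2

theorem chMap_Bd {k : ℤ} {U A : Set X} {c : Ch R X} (h : Bd R k U A c) :
    Bd S k U A (chMap φ c) := by
  obtain ⟨b, hb, h1⟩ := h
  refine ⟨chMap φ b, chMap_mem_C φ hb, ?_⟩
  rw [← chMap_bd, ← map_sub]
  exact chMap_mem_Q φ h1

theorem exists_lift_C (hφ : Function.Surjective φ) {k : ℤ} {U : Set X} {c : Ch S X}
    (h : c ∈ C S k U) : ∃ c' ∈ C R k U, chMap φ c' = c :=
  H30.exists_lift φ hφ h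

theorem exists_lift_Q (hφ : Function.Surjective φ) {k : ℤ} {U : Set X} {c : Ch S X}
    (h : c ∈ Q S k U) : ∃ c' ∈ Q R k U, chMap φ c' = c :=
  H30.exists_lift φ hφ h

/-- The local generating property is preserved by the change of coefficients. -/
theorem LocGen.chMap {n : ℕ} {X : Type*} [TopologicalSpace X] [T2Space X] (hX : LocEuc n X)
    {z : Ch R X} (hz : z ∈ Z R n Set.univ ∅) (h : LocGen n z) : LocGen n (TCH.chMap φ z) := by
  intro y w hw
  obtain ⟨U, hU, hy, ψ, h0⟩ := Cq.exists_chart hX y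
  have hK := Cq.inChart_zero ψ hy h0
  have hK1 : ∀ x ∈ ({0} : Set (Fin n → ℝ)), ∀ i, -1 < x i ∧ x i < 1 := by
    rintro x rfl i
    constructor <;> simp
  have hcm := locCh_mem (R := R) ψ hK1
  rw [hK] at hcm
  obtain ⟨r, hr⟩ := h y (locCh R ψ) hcm
  have hr' := chMap_Bd φ hr
  have e : TCH.chMap φ (locCh R ψ) = locCh S ψ := by
    unfold locCh
    rw [chMap_single, map_one]
  rw [map_sub, chMap_smul, e] at hr'
  obtain ⟨s, hs⟩ := loc_gen (R := S) hU ψ isCompact_singleton (convex_singleton 0)
    (Set.singleton_nonempty 0) hK1 (w := w) (by rw [hK]; exact hw)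
  rw [hK] at hs
  refine ⟨s * φ r, ?_⟩
  have h3 := hs.add (hr'.smul s)
  have h4 : w - (s * φ r) • TCH.chMap φ z =
      w - s • locCh S ψ + s • (locCh S ψ - φ r • TCH.chMap φ z) := by
    rw [smul_sub, smul_smul]
    abel
  rw [h4]
  exact h3

end General

end Pool.Agent.TCH
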