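import Pool.Agent.Lib.TC.HR30

/-!
# Homology library, HR31
-/

namespace Pool.Agent.TCH

open CubeHom

section Int

variable {X : Type*} [TopologicalSpace X] {m : ℕ}

namespace H31

theorem smul_mem_Q {k : ℤ} {A : Set X} {c : Ch ℤ X} (hm : m ≠ 0) (h : (m : ℤ) • c ∈ Q ℤ k A) :
    c ∈ Q ℤ k A := by
  rw [Q, Finsupp.mem_supported] at h ⊢
  intro σ hσ
  apply h
  simp only [Finset.mem_coe, Finsupp.mem_support_iff, Finsupp.smul_apply, smul_eq_mul] at hσ ⊢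
  exact mul_ne_zero (by exact_mod_cast hm) hσ

theorem chMap_m (c : Ch ℤ X) : chMap (Int.castRingHom (ZMod m)) ((m : ℤ) • c) = 0 := by
  rw [chMap_smul]
  simp

theorem surj : Function.Surjective (Int.castRingHom (ZMod m)) := ZMod.intCast_surjective

end H31

/-- The kernel of the reduction modulo `m`. -/
theorem exists_div {k : ℤ} {U A : Set X} {c : Ch ℤ X} (hc : c ∈ C ℤ k U)
    (h : chMap (Int.castRingHom (ZMod m)) c ∈ Q (ZMod m) k A) :
    ∃ c' ∈ C ℤ k U, c - (m : ℤ) • c' ∈ Q ℤ k A := by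
  classical
  set P : C(Cb, X) → Prop := fun σ => IsCube k σ ∧ ((∀ u, σ u ∈ A) ∨ Degen k σ) with hP
  rw [Q, Finsupp.mem_supported] at h
  rw [C, Finsupp.mem_supported] at hc
  refine ⟨(c.filter (fun σ => ¬ P σ)).mapRange (fun a => a / (m : ℤ)) (by simp), ?_, ?_⟩
  · rw [C, Finsupp.mem_supported]
    intro σ hσ
    apply hc
    simp only [Finset.mem_coe, Finsupp.mem_support_iff, Finsupp.mapRange_apply] at hσ ⊢
    intro h0
    apply hσ
    rw [Finsupp.filter_apply, h0]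
    simp
  · rw [Q, Finsupp.mem_supported]
    intro σ hσ
    simp only [Finset.mem_coe, Finsupp.mem_support_iff, Finsupp.sub_apply, Finsupp.smul_apply,
      Finsupp.mapRange_apply, smul_eq_mul] at hσ
    by_contra hn
    have hp : ¬ P σ := hn
    apply hσ
    rw [Finsupp.filter_apply, if_pos hp]
    have h1 : chMap (Int.castRingHom (ZMod m)) c σ = 0 := by
      by_contra h2
      exact hn (h (by simpa using h2))
    have h2 : ((c σ : ℤ) : ZMod m) = 0 := by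
      simpa [chMap] using h1
    rw [ZMod.intCast_zmod_eq_zero_iff_dvd] at h2
    rw [Int.mul_ediv_cancel' h2, sub_self]

/-- A class which vanishes modulo `m` is divisible by `m`. -/
theorem exists_div_class (hm : m ≠ 0) {k : ℤ} {U A : Set X} {c : Ch ℤ X} (hc : c ∈ Z ℤ k U A)
    (h : Bd (ZMod m) k U A (chMap (Int.castRingHom (ZMod m)) c)) :
    ∃ c' ∈ Z ℤ k U A, Bd ℤ k U A (c - (m : ℤ) • c') := by
  obtain ⟨b, hb, hb2⟩ := h
  obtain ⟨b', hb', rfl⟩ := exists_lift_C (Int.castRingHom (ZMod m)) H31.surj hb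
  rw [← chMap_bd, ← map_sub] at hb2
  obtain ⟨c', hc', hq⟩ := exists_div ((C ℤ k U).sub_mem hc.1 (bd_mem_C' hb')) hb2
  refine ⟨c', ⟨hc', ?_⟩, b', hb', ?_⟩
  · change bd k c' ∈ Q ℤ (k - 1) A
    apply H31.smul_mem_Q hm
    have h1 : bd k (c - bd (k + 1) b' - (m : ℤ) • c') ∈ Q ℤ (k - 1) A := bd_mem_Q hq
    rw [map_sub, map_sub, bd_bd', sub_zero, map_smul] at h1
    have h2 : bd k c ∈ Q ℤ (k - 1) A := hc.2
    have h3 := (Q ℤ (k - 1) A).sub_mem h2 h1
    rwa [sub_sub_cancel] at h3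
  · rwa [sub_right_comm] at hq

/-- **Bockstein.** A class modulo `m` lifts if there is no `m`-torsion one degree below. -/
theorem exists_lift_class (hm : m ≠ 0) {k : ℤ} {U A : Set X}
    (ht : ∀ y ∈ Z ℤ (k - 1) U A, Bd ℤ (k - 1) U A ((m : ℤ) • y) → Bd ℤ (k - 1) U A y)
    {z : Ch (ZMod m) X} (hz : z ∈ Z (ZMod m) k U A) :
    ∃ z' ∈ Z ℤ k U A, Bd (ZMod m) k U A (z - chMap (Int.castRingHom (ZMod m)) z') := by
  obtain ⟨z0, hz0, rfl⟩ := exists_lift_C (Int.castRingHom (ZMod m)) H31.surj hz.1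
  have h1 : bd k (chMap (Int.castRingHom (ZMod m)) z0) ∈ Q (ZMod m) (k - 1) A := hz.2
  rw [← chMap_bd] at h1
  obtain ⟨y, hy, hq⟩ := exists_div (bd_mem_C hz0) h1
  have hyZ : y ∈ Z ℤ (k - 1) U A := by
    refine ⟨hy, ?_⟩
    change bd (k - 1) y ∈ Q ℤ (k - 1 - 1) A
    apply H31.smul_mem_Q hm
    have h2 : bd (k - 1) (bd k z0 - (m : ℤ) • y) ∈ Q ℤ (k - 1 - 1) A := bd_mem_Q hq
    rw [map_sub, bd_bd, zero_sub, map_smul] at h2
    simpa using (Q ℤ (k - 1 - 1) A).neg_mem h2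
  have hyB : Bd ℤ (k - 1) U A ((m : ℤ) • y) := by
    refine ⟨z0, by rwa [sub_add_cancel], ?_⟩
    rw [sub_add_cancel]
    have h3 := (Q ℤ (k - 1) A).neg_mem hq
    rwa [neg_sub] at h3
  obtain ⟨b, hb, hb2⟩ := ht y hyZ hyB
  rw [sub_add_cancel] at hb hb2
  refine ⟨z0 - (m : ℤ) • b, ⟨(C ℤ k U).sub_mem hz0 ((C ℤ k U).smul_mem _ hb), ?_⟩, 0,
    Submodule.zero_mem _, ?_⟩
  · change bd k (z0 - (m : ℤ) • b) ∈ Q ℤ (k - 1) A
    have h4 : bd k (z0 - (m : ℤ) • b) = (bd k z0 - (m : ℤ) • y) + (m : ℤ) • (y - bd k b) := by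
      rw [map_sub, map_smul, smul_sub]
      abel
    rw [h4]
    exact (Q ℤ (k - 1) A).add_mem hq ((Q ℤ (k - 1) A).smul_mem _ hb2)
  · rw [map_sub, H31.chMap_m, sub_zero, sub_self, map_zero, sub_zero]
    exact Submodule.zero_mem _

/-- Torsion in degree `k - 1` produces a class modulo `m` in degree `k` which is not the
reduction of an integral class. -/
theorem exists_torsion_class (hm : m ≠ 0) {k : ℤ} {U A : Set X} {y : Ch ℤ X}
    (hy : y ∈ Z ℤ (k - 1) U A) (h1 : Bd ℤ (k - 1) U A ((m : ℤ) • y))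
    (h2 : ¬ Bd ℤ (k - 1) U A y) :
    ∃ z ∈ Z (ZMod m) k U A, ∀ z' ∈ Z ℤ k U A,
      ¬ Bd (ZMod m) k U A (z - chMap (Int.castRingHom (ZMod m)) z') := by
  obtain ⟨b, hb, hq⟩ := h1
  rw [sub_add_cancel] at hb hq
  refine ⟨chMap (Int.castRingHom (ZMod m)) b, ⟨chMap_mem_C _ hb, ?_⟩, ?_⟩
  · change bd k (chMap (Int.castRingHom (ZMod m)) b) ∈ Q (ZMod m) (k - 1) A
    have h3 := chMap_mem_Q (Int.castRingHom (ZMod m)) hq
    rw [map_sub, H31.chMap_m, zero_sub] at h3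
    rw [← chMap_bd]
    simpa using (Q (ZMod m) (k - 1) A).neg_mem h3
  · rintro z' hz' ⟨e, he, he2⟩
    apply h2
    obtain ⟨e', he', rfl⟩ := exists_lift_C (Int.castRingHom (ZMod m)) H31.surj he
    rw [← chMap_bd, ← map_sub, ← map_sub] at he2
    obtain ⟨c', hc', hq'⟩ := exists_div
      ((C ℤ k U).sub_mem ((C ℤ k U).sub_mem hb hz'.1) (bd_mem_C' he')) he2
    refine ⟨c', by rwa [sub_add_cancel], ?_⟩
    rw [sub_add_cancel]
    apply H31.smul_mem_Q hm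
    have h4 : bd k (b - z' - bd (k + 1) e' - (m : ℤ) • c') ∈ Q ℤ (k - 1) A := bd_mem_Q hq'
    rw [map_sub, map_sub, map_sub, bd_bd', sub_zero, map_smul] at h4
    have h5 : bd k z' ∈ Q ℤ (k - 1) A := hz'.2
    have h6 : (m : ℤ) • (y - bd k c') =
        ((m : ℤ) • y - bd k b) + (bd k b - bd k z' - (m : ℤ) • bd k c') + bd k z' := by
      rw [smul_sub]
      abel
    rw [h6]
    exact (Q ℤ (k - 1) A).add_mem ((Q ℤ (k - 1) A).add_mem hq h4) h5

end Int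

end Pool.Agent.TCH
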