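import Pool.Agent.Lib.TC.HFG
import Pool.Agent.Lib.TC.HCoeff
import Pool.Agent.Lib.TC.HVan

/-!
# Homology library, HR32
-/

namespace Pool.Agent.TCH

open CubeHom

namespace H32

section mat

variable {Y : Type*} [TopologicalSpace Y]

/-- The submodule of the chains which bound. -/
def BdS (R : Type*) [CommRing R] {Y : Type*} [TopologicalSpace Y] (k : ℤ) (U A : Set Y) :
    Submodule R (Ch R Y) where
  carrier := {c | Bd R k U A c}
  zero_mem' := Bd.zero k U A
  add_mem' := fun h h' => Bd.add h h'
  smul_mem' := fun r _ h => Bd.smul r h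

theorem mem_BdS {R : Type*} [CommRing R] {k : ℤ} {U A : Set Y} {c : Ch R Y} :
    c ∈ BdS R k U A ↔ Bd R k U A c := Iff.rfl

/-- Cramer's rule modulo a submodule. -/
theorem cramer {M : Type*} [AddCommGroup M] (W : Submodule ℤ M) {m : ℕ}
    (A : Matrix (Fin m) (Fin m) ℤ) (s : Fin m → M) (h : ∀ i, ∑ j, A i j • s j ∈ W) (l : Fin m) :
    A.det • s l ∈ W := by
  have h1 : ∑ i, A.adjugate l i • ∑ j, A i j • s j ∈ W :=
    Submodule.sum_mem _ fun i _ => Submodule.smul_mem _ _ (h i)
  have h2 : ∑ i, A.adjugate l i • ∑ j, A i j • s j = A.det • s l := by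
    calc ∑ i, A.adjugate l i • ∑ j, A i j • s j
        = ∑ i, ∑ j, (A.adjugate l i * A i j) • s j := by
          refine Finset.sum_congr rfl fun i _ => ?_
          rw [Finset.smul_sum]
          exact Finset.sum_congr rfl fun j _ => smul_smul _ _ _
      _ = ∑ j, ∑ i, (A.adjugate l i * A i j) • s j := Finset.sum_comm
      _ = ∑ j, ((A.adjugate * A) l j) • s j := by
          refine Finset.sum_congr rfl fun j _ => ?_
          rw [← Finset.sum_smul, Matrix.mul_apply]
      _ = A.det • s l := by
          rw [Matrix.adjugate_mul]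
          rw [Finset.sum_eq_single l]
          · rw [Matrix.smul_apply, Matrix.one_apply_eq, smul_eq_mul, mul_one]
          · intro j _ hj
            rw [Matrix.smul_apply, Matrix.one_apply_ne hj.symm, smul_zero, zero_smul]
          · intro hl
            exact absurd (Finset.mem_univ l) hl
  rwa [h2] at h1

end mat

end H32

/-- If `H_k` is finitely generated and `H_k(;F_p) = 0` then multiplication by `p` is injective on
the integral homology `H_k`, which is killed by an integer prime to `p`. -/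
theorem prime_to {p : ℕ} [hp : Fact p.Prime] {Y : Type*} [TopologicalSpace Y] {U A : Set Y} {k : ℤ}
    (hf : FGH ℤ k U A) (h0 : ∀ c ∈ Z (ZMod p) k U A, Bd (ZMod p) k U A c) :
    ∃ N : ℤ, ¬ (p : ℤ) ∣ N ∧ ∀ c ∈ Z ℤ k U A, Bd ℤ k U A (N • c) := by
  obtain ⟨m, s, hs, hgen⟩ := hf
  have h1 : ∀ i, ∃ a : Fin m → ℤ, Bd ℤ k U A (s i - (p : ℤ) • ∑ j, a j • s j) := by
    intro i
    obtain ⟨c', hc', hb⟩ := exists_div_class hp.out.ne_zero (hs i)
      (h0 _ (chMap_mem_Z (Int.castRingHom (ZMod p)) (hs i)))
    obtain ⟨a, ha⟩ := hgen c' hc'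
    refine ⟨a, ?_⟩
    have h2 := ha.smul (p : ℤ)
    rw [smul_sub] at h2
    exact hb.trans h2
  choose a ha using h1
  set M : Matrix (Fin m) (Fin m) ℤ := 1 - (p : ℤ) • Matrix.of a with hM
  have hW : ∀ i, ∑ j, M i j • s j ∈ H32.BdS ℤ k U A := by
    intro i
    have e : ∑ j, M i j • s j = s i - (p : ℤ) • ∑ j, a i j • s j := by
      have e1 : ∀ j, M i j • s j = (1 : Matrix (Fin m) (Fin m) ℤ) i j • s j -
          (p : ℤ) • (a i j • s j) := by
        intro j
        rw [hM, Matrix.sub_apply, Matrix.smul_apply, Matrix.of_apply, sub_smul, smul_eq_mul,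
          smul_smul]
      rw [Finset.sum_congr rfl fun j _ => e1 j, Finset.sum_sub_distrib, ← Finset.smul_sum]
      congr 1
      rw [Finset.sum_eq_single i]
      · rw [Matrix.one_apply_eq, one_smul]
      · intro j _ hj
        rw [Matrix.one_apply_ne hj.symm, zero_smul]
      · intro hi
        exact absurd (Finset.mem_univ i) hi
    rw [e]
    exact ha i
  refine ⟨M.det, ?_, ?_⟩
  · intro hdvd
    have h2 : ((M.det : ℤ) : ZMod p) = 0 := (ZMod.intCast_zmod_eq_zero_iff_dvd _ _).2 hdvd
    have h3 : (Int.castRingHom (ZMod p)) M.det = 1 := by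
      rw [RingHom.map_det]
      have h4 : (Int.castRingHom (ZMod p)).mapMatrix M = 1 := by
        rw [hM, map_sub, map_one]
        have h5 : (Int.castRingHom (ZMod p)).mapMatrix ((p : ℤ) • Matrix.of a) = 0 := by
          ext i j
          simp
        rw [h5, sub_zero]
      rw [h4, Matrix.det_one]
    rw [eq_intCast, h2] at h3
    exact zero_ne_one h3
  · intro c hc
    obtain ⟨b, hb⟩ := hgen c hc
    have h2 : M.det • c - M.det • ∑ i, b i • s i ∈ H32.BdS ℤ k U A := by
      rw [← smul_sub]
      exact Submodule.smul_mem _ _ hb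
    have h3 : M.det • ∑ i, b i • s i ∈ H32.BdS ℤ k U A := by
      rw [Finset.smul_sum]
      refine Submodule.sum_mem _ fun i _ => ?_
      rw [smul_comm]
      exact Submodule.smul_mem _ _ (H32.cramer _ M s hW i)
    have h4 := Submodule.add_mem _ h2 h3
    rw [sub_add_cancel] at h4
    exact h4

namespace H32

variable {Y : Type*} [TopologicalSpace Y]

/-- A point in the path component. -/
noncomputable def rep (y : Y) : Y := Quotient.out (Quotient.mk (pathSetoid Y) y)

theorem joined_rep (y : Y) : Joined (rep y) y := by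
  have h := Quotient.mk_out (s := pathSetoid Y) y
  exact h

theorem rep_eq {y y' : Y} (h : Joined y y') : rep y = rep y' := by
  unfold rep
  rw [Quotient.sound (s := pathSetoid Y) h]

/-- A `1`-cube from the representative to `y`. -/
noncomputable def pc (y : Y) : C(Cb, Y) where
  toFun u := (joined_rep y).somePath (u 0)
  continuous_toFun := by fun_prop

/-- The constant cube. -/
def cc (y : Y) : C(Cb, Y) := ContinuousMap.const _ y

theorem pc_isCube (y : Y) : IsCube 1 (pc y) := by
  refine ⟨by norm_num, fun u v h => ?_⟩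
  show (joined_rep y).somePath (u 0) = (joined_rep y).somePath (v 0)
  rw [h 0 (by simp)]

theorem pc_one (y : Y) : (pc y).comp (ins 0 1) = cc y := by
  ext u
  show (joined_rep y).somePath (ins 0 1 u 0) = y
  rw [ins_apply_self, Path.target]

theorem pc_zero (y : Y) : (pc y).comp (ins 0 0) = cc (rep y) := by
  ext u
  show (joined_rep y).somePath (ins 0 0 u 0) = rep y
  rw [ins_apply_self, Path.source]

/-- The value at the origin. -/
def v0 (σ : C(Cb, Y)) : Y := σ 0

theorem cube_zero {σ : C(Cb, Y)} (h : IsCube 0 σ) : σ = cc (v0 σ) := by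
  ext u
  refine h.2 fun j hj => ?_
  simp only [Set.mem_ofPred_eq] at hj
  omega

theorem bd_one_single (σ : C(Cb, Y)) (r : ℤ) :
    bd 1 (Finsupp.single σ r) = Finsupp.single (σ.comp (ins 0 1)) r -
      Finsupp.single (σ.comp (ins 0 0)) r := by
  rw [bd_apply]
  simp

theorem joined_I (a b : I) : Joined a b := by
  have h : IsPathConnected (Set.Icc (0 : ℝ) 1) :=
    (convex_Icc 0 1).isPathConnected ⟨0, by simp⟩
  have h' : PathConnectedSpace I := isPathConnected_iff_pathConnectedSpace.1 h
  exact h'.joined a b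

/-- Joined end points of a cube. -/
theorem joined_ends (σ : C(Cb, Y)) (u v : Cb) : Joined (σ u) (σ v) := by
  have h : Joined u v :=
    ⟨{ toFun := fun t j => (joined_I (u j) (v j)).somePath t
       continuous_toFun := continuous_pi fun j => (joined_I (u j) (v j)).somePath.continuous
       source' := by funext j; exact (joined_I (u j) (v j)).somePath.source
       target' := by funext j; exact (joined_I (u j) (v j)).somePath.target }⟩
  exact ⟨(h.somePath).map σ.continuous⟩

/-- The operator which moves everything to the representatives. -/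
noncomputable def mv : Ch ℤ Y →ₗ[ℤ] Ch ℤ Y :=
  Finsupp.lmapDomain ℤ ℤ (fun σ => cc (rep (v0 σ)))

/-- The operator of the paths. -/
noncomputable def pp : Ch ℤ Y →ₗ[ℤ] Ch ℤ Y :=
  Finsupp.lmapDomain ℤ ℤ (fun σ => pc (v0 σ))

theorem mv_single (σ : C(Cb, Y)) (r : ℤ) : mv (Finsupp.single σ r) =
    Finsupp.single (cc (rep (v0 σ))) r := by
  simp [mv, Finsupp.mapDomain_single]

theorem pp_single (σ : C(Cb, Y)) (r : ℤ) : pp (Finsupp.single σ r) =
    Finsupp.single (pc (v0 σ)) r := by
  simp [pp, Finsupp.mapDomain_single]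

theorem mv_bd (c : Ch ℤ Y) : mv (bd 1 c) = 0 := by
  induction c using Finsupp.induction_linear with
  | zero => simp
  | add c c' h h' => rw [map_add, map_add, h, h', add_zero]
  | single σ r =>
    rw [bd_one_single, map_sub, mv_single, mv_single]
    have e : rep (v0 (σ.comp (ins 0 1))) = rep (v0 (σ.comp (ins 0 0))) :=
      rep_eq (joined_ends σ _ _)
    rw [e, sub_self]

theorem bd_pp {c : Ch ℤ Y} (hc : c ∈ C ℤ 0 (Set.univ : Set Y)) : bd 1 (pp c) = c - mv c := by
  refine map_eq_of_supported ((bd 1).comp pp) (LinearMap.id - mv) (fun σ hσ => ?_) hc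
  rw [LinearMap.comp_apply, LinearMap.sub_apply, LinearMap.id_apply, pp_single, mv_single,
    bd_one_single, pc_one, pc_zero, ← cube_zero hσ.1]

theorem pp_mem (c : Ch ℤ Y) : pp c ∈ C ℤ 1 (Set.univ : Set Y) := by
  induction c using Finsupp.induction_linear with
  | zero => rw [map_zero]; exact Submodule.zero_mem _
  | add c c' h h' => rw [map_add]; exact Submodule.add_mem _ h h'
  | single σ r =>
    rw [pp_single]
    exact mem_C_single (pc_isCube _) (fun _ => Set.mem_univ _) _

theorem Q_zero_empty {c : Ch ℤ Y} (h : c ∈ Q ℤ 0 (∅ : Set Y)) : c = 0 := by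
  ext σ
  by_contra hne
  have h1 := h (Finsupp.mem_support_iff.2 hne)
  rcases h1.2 with h2 | ⟨i, hi, _⟩
  · exact h2 0
  · omega

end H32

/-- No torsion in degree zero. -/
theorem zero_torsionfree {Y : Type*} [TopologicalSpace Y] {m : ℤ} (hm : m ≠ 0) {y : Ch ℤ Y}
    (hy : y ∈ Z ℤ 0 Set.univ ∅) (h : Bd ℤ 0 Set.univ ∅ (m • y)) : Bd ℤ 0 Set.univ ∅ y := by
  obtain ⟨b, hb, hq⟩ := h
  have h1 : m • y = bd 1 b := sub_eq_zero.1 (H32.Q_zero_empty hq)
  have h2 : H32.mv y = 0 := by
    have h3 : m • H32.mv y = 0 := by rw [← map_smul, h1, H32.mv_bd]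
    exact (smul_eq_zero.1 h3).resolve_left hm
  refine ⟨H32.pp y, H32.pp_mem y, ?_⟩
  have h4 : bd 1 (H32.pp y) = y := by rw [H32.bd_pp hy.1, h2, sub_zero]
  have e : y - bd (0 + 1) (H32.pp y) = 0 := by
    rw [zero_add, h4, sub_self]
  rw [e]
  exact Submodule.zero_mem _

end Pool.Agent.TCH
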