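import Pool.Agent.Lib.MP_cb6a70_gt_HB.Punct
import Pool.Agent.Lib.TC.HR32

/-!
# Homology library, HR33
-/

namespace Pool.Agent.TCH

open CubeHom

namespace H33

section calc1

variable {R : Type*} [CommRing R] {Y : Type*} [TopologicalSpace Y] {k : ℤ} {U A : Set Y}
  {c c' : Ch R Y}

theorem smul_sub' (r : R) (h : Bd R k U A (c - c')) : Bd R k U A (r • c - r • c') := by
  rw [← smul_sub]
  exact h.smul r

end calc1

section deg

variable {X : Type*} [TopologicalSpace X] [T2Space X] {n : ℕ}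

theorem exists_deg [ConnectedSpace X] (hX : LocEuc n X) {ζ : Ch ℤ X}
    (hζ : ζ ∈ Z ℤ n Set.univ ∅) : ∃ m : ℕ, ∀ x, AbsDeg n ζ x m := by
  have h1 : ∀ x, ∃ d, AbsDeg n ζ x d := fun x =>
    AbsDeg.exists hX (Z_mono subset_rfl (Set.empty_subset _) hζ)
  choose d hd using h1
  have hlc : IsLocallyConstant d := by
    rw [IsLocallyConstant.iff_eventually_eq]
    intro x
    filter_upwards [AbsDeg.locConst hX isClosed_empty hζ (Set.notMem_empty x) (hd x)] with y hy
    exact (hd y).unique hy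
  obtain ⟨x₀⟩ : Nonempty X := inferInstance
  refine ⟨d x₀, fun x => ?_⟩
  rw [← hlc.apply_eq_of_preconnectedSpace x x₀]
  exact hd x

end deg

end H33

section

variable {X : Type*} [TopologicalSpace X] [T2Space X] [CompactSpace X] [ConnectedSpace X]
  {n p : ℕ} [hp : Fact p.Prime]

omit [CompactSpace X] in
/-- The absolute local multiplicity of an integral cycle is constant. -/
theorem exists_mult (hX : LocEuc n X) {ζ : Ch ℤ X} (hζ : ζ ∈ Z ℤ n Set.univ ∅) :
    ∃ m : ℕ, ∀ x : X, (∀ w ∈ Z ℤ n Set.univ ({x}ᶜ : Set X),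
      ∃ r : ℤ, Bd ℤ n Set.univ {x}ᶜ ((m : ℤ) • w - r • ζ)) ∧
      Bd (ZMod m) n Set.univ {x}ᶜ (chMap (Int.castRingHom (ZMod m)) ζ) := by
  obtain ⟨m, hm⟩ := H33.exists_deg hX hζ
  refine ⟨m, fun x => ?_⟩
  obtain ⟨S, hS, φ, hy, h0, r, hr, hb⟩ := hm x
  constructor
  · intro w hw
    obtain ⟨s, hs⟩ := Punct.loc_gen' hS φ hy h0 hw
    have h1 := H33.smul_sub' (m : ℤ) hs
    rcases Int.natAbs_eq r with h2 | h2
    · refine ⟨s, ?_⟩
      have h3 := (H33.smul_sub' s hb).sub_comm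
      rw [smul_smul] at h1 h3
      have e : s * r = (m : ℤ) * s := by rw [h2, hr]; ring
      rw [e] at h3
      exact h1.trans h3
    · refine ⟨-s, ?_⟩
      have h3 := (H33.smul_sub' (-s) hb).sub_comm
      rw [smul_smul] at h1 h3
      have e : -s * r = (m : ℤ) * s := by rw [h2, hr]; ring
      rw [e] at h3
      exact h1.trans h3
  · have h1 := chMap_Bd (Int.castRingHom (ZMod m)) hb
    rw [map_sub, chMap_smul] at h1
    have h2 : (Int.castRingHom (ZMod m)) r = 0 := by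
      rw [eq_intCast, ZMod.intCast_zmod_eq_zero_iff_dvd, ← hr]
      exact Int.natAbs_dvd.2 dvd_rfl
    rwa [h2, zero_smul, sub_zero] at h1

omit [CompactSpace X] [ConnectedSpace X] in
theorem fund_free {R : Type*} [CommRing R] (hX : LocEuc n X) {ξ : Ch R X}
    (hξ : ξ ∈ Z R n Set.univ ∅) (hg : LocGen n ξ) {r : R} {x : X}
    (h : Bd R n Set.univ {x}ᶜ (r • ξ)) : r = 0 := by
  obtain ⟨S, hS, φ, hy, h0⟩ := exists_chart hX x
  have hK1 : ∀ y ∈ ({0} : Set (Fin n → ℝ)), ∀ i, -1 < y i ∧ y i < 1 := by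
    intro y hy i
    rw [Set.mem_singleton_iff] at hy
    rw [hy]
    simp
  have hl : locCh R φ ∈ Z R n Set.univ ({x}ᶜ : Set X) := by
    have := locCh_mem (R := R) φ hK1
    rwa [CubeHom.inChart_zero h0] at this
  obtain ⟨u, hu⟩ := hg x _ hl
  obtain ⟨c, hc⟩ := Punct.loc_gen' hS φ hy h0 (Z_mono subset_rfl (Set.empty_subset _) hξ)
  have free : ∀ s : R, Bd R n Set.univ ({x}ᶜ : Set X) (s • locCh R φ) → s = 0 := fun s hs =>
    loc_free hS φ (K := {0}) isCompact_singleton (convex_singleton _)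
      (Set.singleton_nonempty _) hK1 (by rw [CubeHom.inChart_zero h0]; exact hs)
  have h1 : u * c = 1 := by
    have h2 := hu.trans (H33.smul_sub' u hc)
    rw [smul_smul] at h2
    have e : locCh R φ - (u * c) • locCh R φ = (1 - u * c) • locCh R φ := by
      rw [sub_smul, one_smul]
    rw [e] at h2
    exact (sub_eq_zero.1 (free _ h2)).symm
  have h3 : r * c = 0 := by
    refine free _ ?_
    have h4 := (H33.smul_sub' r hc).sub_comm
    rw [smul_smul] at h4
    exact Bd.of_sub h4 h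
  calc r = r * c * u := by rw [mul_assoc, mul_comm c u, h1, mul_one]
    _ = 0 := by rw [h3, zero_mul]

/-- `H_n` is freely generated by the fundamental cycle, for all coefficients. -/
theorem fund_gen {R : Type*} [CommRing R] (hX : LocEuc n X) {ξ : Ch R X}
    (hξ : ξ ∈ Z R n Set.univ ∅) (hg : LocGen n ξ) {w : Ch R X} (hw : w ∈ Z R n Set.univ ∅) :
    ∃ r : R, Bd R n Set.univ ∅ (w - r • ξ) := by
  obtain ⟨x⟩ : Nonempty X := inferInstance
  obtain ⟨r, hr⟩ := hg x w (Z_mono subset_rfl (Set.empty_subset _) hw)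
  exact ⟨r, van_top_connected hX (Submodule.sub_mem _ hw (Submodule.smul_mem _ _ hξ)) hr⟩

/-- **The fundamental cycle** exists if there is a cycle modulo `p` which is locally nonzero and
there is no `p`-torsion in degree `n - 1`. -/
theorem exists_fundamental (hX : LocEuc n X) {ζ : Ch (ZMod p) X}
    (hζ : ζ ∈ Z (ZMod p) n Set.univ ∅) (hne : ∀ x, ¬ Bd (ZMod p) n Set.univ {x}ᶜ ζ)
    (ht : ∀ y ∈ Z ℤ (n - 1) (Set.univ : Set X) ∅, Bd ℤ (n - 1) Set.univ ∅ ((p : ℤ) • y) →
      Bd ℤ (n - 1) Set.univ ∅ y) :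
    ∃ ξ ∈ Z ℤ n (Set.univ : Set X) ∅, LocGen n ξ := by
  obtain ⟨z', hz', hb⟩ := exists_lift_class hp.out.ne_zero ht hζ
  obtain ⟨m, hm⟩ := H33.exists_deg hX hz'
  have hm0 : m ≠ 0 := by
    rintro rfl
    obtain ⟨x⟩ : Nonempty X := inferInstance
    obtain ⟨S, hS, φ, hy, h0, r, hr, hbr⟩ := hm x
    rw [Int.natAbs_eq_zero] at hr
    rw [hr, zero_smul, sub_zero] at hbr
    exact hne x (Bd.of_sub (hb.mono subset_rfl (Set.empty_subset _))
      (chMap_Bd (Int.castRingHom (ZMod p)) hbr))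
  have h1 : Bd (ZMod m) n Set.univ (Set.univᶜ : Set X) (chMap (Int.castRingHom (ZMod m)) z') := by
    refine van_top hX isCompact_univ ?_ fun x _ => ?_
    · rw [Set.compl_univ]
      exact chMap_mem_Z _ hz'
    · obtain ⟨S, hS, φ, hy, h0, r, hr, hbr⟩ := hm x
      have h1 := chMap_Bd (Int.castRingHom (ZMod m)) hbr
      rw [map_sub, chMap_smul] at h1
      have h2 : (Int.castRingHom (ZMod m)) r = 0 := by
        rw [eq_intCast, ZMod.intCast_zmod_eq_zero_iff_dvd, ← hr]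
        exact Int.natAbs_dvd.2 dvd_rfl
      rwa [h2, zero_smul, sub_zero] at h1
  rw [Set.compl_univ] at h1
  obtain ⟨ξ, hξ, hd⟩ := exists_div_class hm0 hz' h1
  refine ⟨ξ, hξ, fun y w hw => ?_⟩
  obtain ⟨S, hS, φ, hy, h0, r, hr, hbr⟩ := hm y
  obtain ⟨c, hc⟩ := Punct.loc_gen' hS φ hy h0 (Z_mono subset_rfl (Set.empty_subset _) hξ)
  obtain ⟨b, hb'⟩ := Punct.loc_gen' hS φ hy h0 hw
  have hrc : r = m * c := by
    have h2 := (hbr.sub_comm.trans (hd.mono subset_rfl (Set.empty_subset _))).trans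
      (H33.smul_sub' (m : ℤ) hc)
    rw [smul_smul, ← sub_smul] at h2
    refine sub_eq_zero.1 (loc_free hS φ (K := {0}) isCompact_singleton (convex_singleton _)
      (Set.singleton_nonempty _) (fun x hx i => ?_) (by rw [CubeHom.inChart_zero h0]; exact h2))
    rw [Set.mem_singleton_iff] at hx
    rw [hx]
    simp
  have hc1 : c * c = 1 := by
    have h3 : m * c.natAbs = m * 1 := by
      rw [mul_one, ← Int.natAbs_natCast m, ← Int.natAbs_mul, ← hrc, hr, Int.natAbs_natCast]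
    have h4 : c.natAbs = 1 := Nat.eq_of_mul_eq_mul_left (Nat.pos_of_ne_zero hm0) h3
    rw [← Int.natAbs_mul_self, h4]
    rfl
  refine ⟨b * c, ?_⟩
  have h5 := (H33.smul_sub' (b * c) hc).sub_comm
  rw [smul_smul, mul_assoc, hc1, mul_one] at h5
  exact hb'.trans h5

end

end Pool.Agent.TCH
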