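import Pool.Agent.Lib.TC.HR33

/-!
# Homology library, HR34
-/

namespace Pool.Agent.TCH

open CubeHom

variable {X : Type*} [TopologicalSpace X] [T2Space X] [CompactSpace X] [ConnectedSpace X]
  {n p : ℕ} [hp : Fact p.Prime]

namespace H34

/-- Integers prime to `q` are invertible modulo `q`. -/
theorem bd_of_smul {Y : Type*} [TopologicalSpace Y] {q : ℕ} [Fact q.Prime] {k : ℤ}
    {U A : Set Y} {N : ℤ} (hN : ¬ (q : ℤ) ∣ N) {c : Ch ℤ Y} (h : Bd ℤ k U A (N • c)) :
    Bd (ZMod q) k U A (chMap (Int.castRingHom (ZMod q)) c) := by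
  have hu : (Int.castRingHom (ZMod q)) N ≠ 0 := by
    rw [eq_intCast, Ne, ZMod.intCast_zmod_eq_zero_iff_dvd]
    exact hN
  have h1 := chMap_Bd (Int.castRingHom (ZMod q)) h
  rw [chMap_smul] at h1
  have h2 := h1.smul ((Int.castRingHom (ZMod q)) N)⁻¹
  rwa [smul_smul, inv_mul_cancel₀ hu, one_smul] at h2

/-- Bezout. -/
theorem bezout {Y : Type*} [TopologicalSpace Y] {q : ℕ} (hq : q.Prime) {k : ℤ} {U A : Set Y}
    {N : ℤ} (hN : ¬ (q : ℤ) ∣ N) {y : Ch ℤ Y} (h1 : Bd ℤ k U A ((q : ℤ) • y))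
    (h2 : Bd ℤ k U A (N • y)) : Bd ℤ k U A y := by
  obtain ⟨a, b, hab⟩ : IsCoprime (q : ℤ) N :=
    (Nat.prime_iff_prime_int.1 hq).irreducible.coprime_iff_not_dvd.2 hN
  have h3 := (h1.smul a).add (h2.smul b)
  rwa [smul_smul, smul_smul, ← add_smul, hab, one_smul] at h3

end H34

/-- **6.3 (a).** If for some prime `q` there is homology modulo `q` in some degree between `0` and
`n`, then there is homology modulo `q` in two consecutive degrees `j`, `j + 1`, `1 ≤ j ≤ n - 2`. -/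
theorem two_degrees (hX : LocEuc n X) {ξ : Ch ℤ X} (hξ : ξ ∈ Z ℤ n Set.univ ∅)
    (hg : LocGen n ξ) (hf : ∀ k, FGH ℤ k (Set.univ : Set X) ∅)
    (h0 : ∀ k : ℤ, 0 < k → k < n → ∀ c ∈ Z (ZMod p) k (Set.univ : Set X) ∅,
      Bd (ZMod p) k Set.univ ∅ c) {q : ℕ} (hq : q.Prime) {i : ℤ} (hi : 0 < i) (hin : i < n)
    (hne : ∃ c ∈ Z (ZMod q) i (Set.univ : Set X) ∅, ¬ Bd (ZMod q) i Set.univ ∅ c) :
    ∃ j : ℤ, 1 ≤ j ∧ j ≤ n - 2 ∧
      (∃ c ∈ Z (ZMod q) j (Set.univ : Set X) ∅, ¬ Bd (ZMod q) j Set.univ ∅ c) ∧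
      (∃ c ∈ Z (ZMod q) (j + 1) (Set.univ : Set X) ∅, ¬ Bd (ZMod q) (j + 1) Set.univ ∅ c) := by
  have : Fact q.Prime := ⟨hq⟩
  have hq0 : q ≠ 0 := hq.ne_zero
  obtain ⟨c, hc, hcn⟩ := hne
  by_cases hred : ∀ y ∈ Z ℤ (i - 1) (Set.univ : Set X) ∅,
      Bd ℤ (i - 1) Set.univ ∅ ((q : ℤ) • y) → Bd ℤ (i - 1) Set.univ ∅ y
  · -- the class is the reduction of an integral class
    obtain ⟨z, hz, hcz⟩ := exists_lift_class hq0 hred hc
    have hzn : ¬ Bd (ZMod q) i Set.univ ∅ (chMap (Int.castRingHom (ZMod q)) z) := fun h =>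
      hcn (hcz.congr h)
    have htors : ∃ y ∈ Z ℤ i (Set.univ : Set X) ∅, Bd ℤ i Set.univ ∅ ((q : ℤ) • y) ∧
        ¬ Bd ℤ i Set.univ ∅ y := by
      by_contra hcon
      push Not at hcon
      obtain ⟨N, hN, hNz⟩ := prime_to (p := p) (hf i) (h0 i hi hin)
      have hN0 : N ≠ 0 := by
        rintro rfl
        exact hN (dvd_zero _)
      have key : ∀ m : ℕ, ∀ N : ℤ, N.natAbs = m → N ≠ 0 → ¬ Bd ℤ i Set.univ ∅ (N • z) := by
        intro m
        induction m using Nat.strong_induction_on with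
        | _ m ih =>
          intro N hm hN0 hb
          by_cases hd : (q : ℤ) ∣ N
          · obtain ⟨N', rfl⟩ := hd
            have hN' : N' ≠ 0 := right_ne_zero_of_mul hN0
            rw [mul_smul] at hb
            have h3 := hcon _ (Submodule.smul_mem _ N' hz) hb
            refine ih N'.natAbs ?_ N' rfl hN' h3
            rw [← hm, Int.natAbs_mul, Int.natAbs_natCast]
            have h4 := Int.natAbs_pos.2 hN'
            have h5 := hq.two_le
            nlinarith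
          · exact hzn (H34.bd_of_smul hd hb)
      exact key _ N rfl hN0 (hNz z hz)
    obtain ⟨y, hy, h1, h2⟩ := htors
    have e : i + 1 - 1 = i := by ring
    obtain ⟨w, hw, hwn⟩ := exists_torsion_class (k := i + 1) (U := (Set.univ : Set X)) (A := ∅)
      hq0 (y := y) (by rw [e]; exact hy) (by rw [e]; exact h1) (by rw [e]; exact h2)
    have hwb : ¬ Bd (ZMod q) (i + 1) Set.univ ∅ w := fun h =>
      hwn 0 (Submodule.zero_mem _) (by rw [map_zero, sub_zero]; exact h)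
    have hin' : i + 1 < n := by
      by_contra hcon
      have e1 : i + 1 = n := by omega
      rw [e1] at hw hwn
      obtain ⟨r, hr⟩ := fund_gen hX (chMap_mem_Z (Int.castRingHom (ZMod q)) hξ)
        (LocGen.chMap (Int.castRingHom (ZMod q)) hX hξ hg) hw
      obtain ⟨r', rfl⟩ := ZMod.intCast_surjective r
      refine hwn (r' • ξ) (Submodule.smul_mem _ _ hξ) ?_
      rw [chMap_smul, eq_intCast]
      exact hr
    exact ⟨i, by omega, by omega, ⟨c, hc, hcn⟩, ⟨w, hw, hwb⟩⟩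
  · push Not at hred
    obtain ⟨y, hy, h1, h2⟩ := hred
    have hi1 : i ≠ 1 := by
      rintro rfl
      have e : (1 : ℤ) - 1 = 0 := by norm_num
      rw [e] at hy h1 h2
      exact h2 (zero_torsionfree (by exact_mod_cast hq0) hy h1)
    refine ⟨i - 1, by omega, by omega, ?_, ?_⟩
    · by_contra hcon
      push Not at hcon
      obtain ⟨N, hN, hNz⟩ := prime_to (p := q) (hf (i - 1)) hcon
      exact h2 (H34.bezout hq hN h1 (hNz y hy))
    · have e : i - 1 + 1 = i := by ring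
      rw [e]
      exact ⟨c, hc, hcn⟩

omit [T2Space X] [CompactSpace X] [ConnectedSpace X] in
/-- **6.3 (b).** If the homology modulo `q` vanishes between `0` and `n` for all primes `q` then
so does the integral homology. -/
theorem integral_vanish (hf : ∀ k, FGH ℤ k (Set.univ : Set X) ∅) {k : ℤ}
    (h0 : ∀ q : ℕ, q.Prime → ∀ c ∈ Z (ZMod q) k (Set.univ : Set X) ∅,
      Bd (ZMod q) k Set.univ ∅ c) {c : Ch ℤ X} (hc : c ∈ Z ℤ k Set.univ ∅) :
    Bd ℤ k Set.univ ∅ c := by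
  have hpr : ∀ q : ℕ, q.Prime → ∃ N : ℤ, ¬ (q : ℤ) ∣ N ∧
      ∀ c ∈ Z ℤ k (Set.univ : Set X) ∅, Bd ℤ k Set.univ ∅ (N • c) := by
    intro q hq
    have : Fact q.Prime := ⟨hq⟩
    exact prime_to (p := q) (hf k) (h0 q hq)
  have key : ∀ m : ℕ, m ≠ 0 → Bd ℤ k Set.univ ∅ ((m : ℤ) • c) → Bd ℤ k Set.univ ∅ c := by
    intro m
    induction m using Nat.strong_induction_on with
    | _ m ih =>
      intro hm hb
      by_cases h1 : m = 1
      · rw [h1, Nat.cast_one, one_smul] at hb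
        exact hb
      · obtain ⟨q, hq, m', rfl⟩ := Nat.exists_prime_and_dvd h1
        have hm' : m' ≠ 0 := right_ne_zero_of_mul hm
        obtain ⟨N, hN, hNz⟩ := hpr q hq
        rw [Nat.cast_mul, mul_smul] at hb
        have h3 := H34.bezout hq hN hb (hNz _ (Submodule.smul_mem _ (m' : ℤ) hc))
        refine ih m' ?_ hm' h3
        have h4 := Nat.pos_of_ne_zero hm'
        have h5 := hq.two_le
        nlinarith
  obtain ⟨N, hN, hNz⟩ := hpr 2 Nat.prime_two
  have hN0 : N ≠ 0 := by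
    rintro rfl
    exact hN (dvd_zero _)
  refine key N.natAbs (Int.natAbs_ne_zero.2 hN0) ?_
  rcases Int.natAbs_eq N with h | h
  · rw [← h]
    exact hNz c hc
  · have h1 := (hNz c hc).neg
    rw [← neg_smul] at h1
    have h2 : ((N.natAbs : ℕ) : ℤ) = -N := by omega
    rw [h2]
    exact h1

end Pool.Agent.TCH
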