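import Pool.Agent.Lib.TC.HSmLad
import Pool.Agent.Lib.TC.HSph

/-!
# Homology library, HSmMain
-/

namespace Pool.Agent.TCH

open CubeHom

namespace H26

section general

variable {R : Type*} [CommRing R] {X Y : Type*} [TopologicalSpace X] [TopologicalSpace Y]

/-- The inclusion of a subset. -/
def inc (S : Set X) : C(S, X) := ⟨Subtype.val, continuous_subtype_val⟩

theorem inc_ind (S : Set X) : Topology.IsInducing (inc S) := Topology.IsInducing.subtypeVal

theorem inc_inj (S : Set X) : Function.Injective (inc S) := Subtype.val_injective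

theorem range_inc (S : Set X) : Set.range (inc S) = S := Subtype.range_coe

theorem pre_compl {S : Set X} (x : S) : inc S ⁻¹' ({(x : X)}ᶜ : Set X) = ({x}ᶜ : Set S) := by
  ext y
  simp only [Set.mem_preimage, Set.mem_compl_iff, Set.mem_singleton_iff, not_iff_not]
  exact ⟨fun h => Subtype.ext h, fun h => congrArg _ h⟩

theorem exists_of_Z {S A : Set X} {k : ℤ} {f : Ch R X} (hf : f ∈ Z R k S A) :
    ∃ c ∈ Z R k (Set.univ : Set S) (inc S ⁻¹' A), push (inc S) c = f := by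
  refine TL.exists_push_of_mem_Z (inc_ind S) (inc_inj S) ?_
  rwa [range_inc]

theorem Bd_inc {S A : Set X} {k : ℤ} {c : Ch R S} :
    Bd R k S A (push (inc S) c) ↔ Bd R k Set.univ (inc S ⁻¹' A) c := by
  have h := TL.Bd_push_iff (R := R) (inc_ind S) (inc_inj S) (k := k) (A := A) (c₀ := c)
  rwa [range_inc] at h

theorem inc_mem_Z {S A : Set X} {k : ℤ} {c : Ch R S} (hc : c ∈ Z R k Set.univ (inc S ⁻¹' A)) :
    push (inc S) c ∈ Z R k S A :=
  push_mem_Z (fun x _ => x.2) (Set.mapsTo_preimage _ _) hc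

theorem Z_empty_le {U A : Set X} {k : ℤ} {c : Ch R X} (hc : c ∈ Z R k U ∅) : c ∈ Z R k U A :=
  Z_mono (Set.Subset.refl _) (Set.empty_subset _) hc

/-- Local homology vanishes away from the dimension. -/
theorem pt_vanish [T2Space X] {n : ℕ} (hX : LocEuc n X) (x : X) {k : ℤ} (hk : k ≠ n) {w : Ch R X}
    (hw : w ∈ Z R k Set.univ ({x}ᶜ : Set X)) : Bd R k Set.univ ({x}ᶜ : Set X) w := by
  obtain ⟨S, hS, hx, φ, h0⟩ := Cq.exists_chart hX x
  have hK := Cq.inChart_zero φ hx h0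
  have h := loc_vanish (R := R) hS φ isCompact_singleton (convex_singleton 0)
    (Set.singleton_nonempty 0) hk (w := w)
  rw [hK] at h
  exact h hw

/-- Over a field the local homology at a point is generated by every nonzero class. -/
theorem pt_gen {K : Type*} [Field K] [T2Space X] {n : ℕ} (hX : LocEuc n X) (x : X) {z w : Ch K X}
    (hz : z ∈ Z K n Set.univ ({x}ᶜ : Set X)) (hne : ¬ Bd K n Set.univ ({x}ᶜ : Set X) z)
    (hw : w ∈ Z K n Set.univ ({x}ᶜ : Set X)) :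
    ∃ r : K, Bd K n Set.univ ({x}ᶜ : Set X) (w - r • z) := by
  obtain ⟨S, hS, hx, φ, h0⟩ := Cq.exists_chart hX x
  have hK := Cq.inChart_zero φ hx h0
  have hK1 : ∀ y ∈ ({0} : Set (Fin n → ℝ)), ∀ i, -1 < y i ∧ y i < 1 := by
    rintro y rfl i
    constructor <;> simp
  have h : ∀ w ∈ Z K n Set.univ ({x}ᶜ : Set X),
      ∃ r : K, Bd K n Set.univ ({x}ᶜ : Set X) (w - r • locCh K φ) := by
    intro w hw
    have h := loc_gen (R := K) hS φ isCompact_singleton (convex_singleton 0)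
      (Set.singleton_nonempty 0) hK1 (w := w)
    rw [hK] at h
    exact h hw
  obtain ⟨s, hs⟩ := h z hz
  obtain ⟨t, ht⟩ := h w hw
  have hs0 : s ≠ 0 := by
    rintro rfl
    rw [zero_smul, sub_zero] at hs
    exact hne hs
  refine ⟨t * s⁻¹, ?_⟩
  have h1 := ht.sub (hs.smul (t * s⁻¹))
  have e : w - t • locCh K φ - (t * s⁻¹) • (z - s • locCh K φ) = w - (t * s⁻¹) • z := by
    rw [smul_sub, smul_smul, mul_assoc, inv_mul_cancel₀ hs0, mul_one]
    abel
  rwa [e] at h1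

/-- Over a field a homology group generated by one class is generated by every nonzero class. -/
theorem gen_of_ne {K : Type*} [Field K] {k : ℤ} {U A : Set X} {z z' : Ch K X}
    (hgen : ∀ w ∈ Z K k U A, ∃ r : K, Bd K k U A (w - r • z'))
    (hz : z ∈ Z K k U A) (hne : ¬ Bd K k U A z) {w : Ch K X} (hw : w ∈ Z K k U A) :
    ∃ r : K, Bd K k U A (w - r • z) := by
  obtain ⟨s, hs⟩ := hgen z hz
  obtain ⟨t, ht⟩ := hgen w hw
  have hs0 : s ≠ 0 := by
    rintro rfl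
    rw [zero_smul, sub_zero] at hs
    exact hne hs
  refine ⟨t * s⁻¹, ?_⟩
  have h1 := ht.sub (hs.smul (t * s⁻¹))
  have e : w - t • z' - (t * s⁻¹) • (z - s • z') = w - (t * s⁻¹) • z := by
    rw [smul_sub, smul_smul, mul_assoc, inv_mul_cancel₀ hs0, mul_one]
    abel
  rwa [e] at h1

theorem inv_empty (g : C(X, X)) : Inv g (∅ : Set X) := fun _ => Iff.rfl

theorem inv_pt {p : ℕ} (hp : 0 < p) {g : C(X, X)} (hg : ∀ x, (g^[p]) x = x) {x : X}
    (hx : x ∈ fixS g) : Inv g ({x}ᶜ : Set X) := by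
  obtain ⟨q, rfl⟩ : ∃ q, p = q + 1 := ⟨p - 1, by omega⟩
  have hinj : Function.Injective g := by
    intro y z h
    have h1 : (g^[q + 1]) y = (g^[q + 1]) z := by
      rw [Function.iterate_succ_apply, Function.iterate_succ_apply, h]
    rwa [hg, hg] at h1
  have hx' : g x = x := hx
  intro y
  simp only [Set.mem_compl_iff, Set.mem_singleton_iff, not_iff_not]
  constructor
  · intro h
    apply hinj
    rw [h, hx']
  · rintro rfl
    exact hx'

theorem fix_compact [T2Space X] [CompactSpace X] (g : C(X, X)) : CompactSpace (fixS g) := by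
  rw [← isCompact_iff_compactSpace]
  exact (isClosed_eq g.continuous continuous_id).isCompact

/-- The fixed point set has no homology above its dimension. -/
theorem fix_above [T2Space X] [CompactSpace X] {g : C(X, X)} {d : ℕ} (hd : LocEuc d (fixS g))
    {k : ℤ} (hk : (d : ℤ) < k) {f : Ch R X} (hf : f ∈ Z R k (fixS g) ∅) :
    Bd R k (fixS g) ∅ f := by
  obtain ⟨c, hc, rfl⟩ := exists_of_Z hf
  have := fix_compact g
  rw [Bd_inc]
  rw [Set.preimage_empty] at hc ⊢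
  exact van_above_compact hd hk hc

theorem fix_above_pt [T2Space X] {g : C(X, X)} {d : ℕ} (hd : LocEuc d (fixS g))
    {x : X} (hx : x ∈ fixS g) {k : ℤ} (hk : k ≠ d) {f : Ch R X}
    (hf : f ∈ Z R k (fixS g) {x}ᶜ) : Bd R k (fixS g) {x}ᶜ f := by
  obtain ⟨c, hc, rfl⟩ := exists_of_Z hf
  rw [Bd_inc]
  have e := pre_compl (S := fixS g) ⟨x, hx⟩
  rw [e] at hc ⊢
  exact pt_vanish hd _ hk hc

end general

end H26

open H26

variable {p n d : ℕ} [hp : Fact p.Prime]

/-- The Smith data of the sphere. -/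
theorem smithDat_sph (hn : 1 ≤ n) {g : C(Sph n, Sph n)} (hg : ∀ x, (g^[p]) x = x)
    (hh : HasHalo g) (hd : LocEuc d (fixS g)) (hdn : d < n) {z : Ch (ZMod p) (Sph n)}
    (hz : z ∈ Z (ZMod p) n Set.univ ∅)
    (hgen : ∀ w ∈ Z (ZMod p) n (Set.univ : Set (Sph n)) ∅, ∃ r : ZMod p,
      Bd (ZMod p) n Set.univ ∅ (w - r • z))
    (hne : ¬ Bd (ZMod p) n Set.univ ∅ z) : SmithDat p n g ∅ z := by
  have hfix : ∀ f ∈ Z (ZMod p) n (fixS g) ∅, Bd (ZMod p) n (fixS g) ∅ f :=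
    fun f hf => fix_above hd (by exact_mod_cast hdn) hf
  have hvan : ∀ i : ℕ, 1 ≤ i → i < p → ∀ k : ℤ, (n : ℤ) < k → ∀ c,
      ZT (tau p g ^ i) k Set.univ ∅ c → BT (tau p g ^ i) k Set.univ ∅ c :=
    fun i h1 h2 k hk c hc => van_rho locEuc_sphere hg hh h1 h2 hk hc
  exact ⟨hg, inv_empty g, fun k h1 h2 c hc => sph_vanish _ h1 (by omega) hc, hvan, hfix, hz, hgen,
    hne, exists_top hg (inv_empty g) hvan hfix hz hgen hne⟩

theorem smithDat_loc (hn : 1 ≤ n) {g : C(Sph n, Sph n)} (hg : ∀ x, (g^[p]) x = x)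
    (hh : HasHalo g) (hd : LocEuc d (fixS g)) (hdn : d < n) {z : Ch (ZMod p) (Sph n)}
    (hz : z ∈ Z (ZMod p) n Set.univ ∅)
    (hgen : ∀ w ∈ Z (ZMod p) n (Set.univ : Set (Sph n)) ∅, ∃ r : ZMod p,
      Bd (ZMod p) n Set.univ ∅ (w - r • z))
    (hne : ∀ x : Sph n, ¬ Bd (ZMod p) n Set.univ {x}ᶜ z) {x : Sph n} (hx : x ∈ fixS g)
    (hl : LinChart n g x) : SmithDat p n g {x}ᶜ z := by
  have hI := inv_pt hp.out.pos hg hx
  have hfix : ∀ f ∈ Z (ZMod p) n (fixS g) {x}ᶜ, Bd (ZMod p) n (fixS g) {x}ᶜ f :=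
    fun f hf => fix_above_pt hd hx (by exact_mod_cast hdn.ne') hf
  have hvan : ∀ i : ℕ, 1 ≤ i → i < p → ∀ k : ℤ, (n : ℤ) < k → ∀ c,
      ZT (tau p g ^ i) k Set.univ {x}ᶜ c → BT (tau p g ^ i) k Set.univ {x}ᶜ c :=
    fun i h1 h2 k hk c hc => van_local hn hg hl h1 h2 hk hc
  have hz' : z ∈ Z (ZMod p) n Set.univ ({x}ᶜ : Set (Sph n)) := Z_empty_le hz
  have hg' : ∀ w ∈ Z (ZMod p) n (Set.univ : Set (Sph n)) {x}ᶜ, ∃ r : ZMod p,
      Bd (ZMod p) n Set.univ {x}ᶜ (w - r • z) :=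
    fun w hw => pt_gen locEuc_sphere x hz' (hne x) hw
  exact ⟨hg, hI, fun k h1 h2 c hc => pt_vanish locEuc_sphere x (by omega) hc, hvan, hfix, hz', hg',
    hne x, exists_top hg hI hvan hfix hz' hg' (hne x)⟩

/-- **Smith theorem.** The fixed point set of a smooth action on the sphere, if it is path
connected and of dimension `d < n`, has the homology of the `d`-sphere modulo `p`, `d ≥ 1`, and
is orientable modulo `p`. -/
theorem smith_main (hn : 1 ≤ n) {g : C(Sph n, Sph n)} (hg : ∀ x, (g^[p]) x = x)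
    (hh : HasHalo g) (hd : LocEuc d (fixS g)) (hdn : d < n) (hF : IsPathConnected (fixS g))
    (hl : ∀ x ∈ fixS g, LinChart n g x) :
    1 ≤ d ∧
    (∀ j : ℤ, 1 ≤ j → j ≠ d → ∀ c ∈ Z (ZMod p) j (Set.univ : Set (fixS g)) ∅,
      Bd (ZMod p) j Set.univ ∅ c) ∧
    ∃ ζ ∈ Z (ZMod p) d (Set.univ : Set (fixS g)) ∅,
      (∀ w ∈ Z (ZMod p) d (Set.univ : Set (fixS g)) ∅, ∃ r : ZMod p,
        Bd (ZMod p) d Set.univ ∅ (w - r • ζ)) ∧
      ∀ x, ¬ Bd (ZMod p) d Set.univ {x}ᶜ ζ := by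
  have : PathConnectedSpace (Sph n) := sphere_connected hn
  have := fix_compact g
  obtain ⟨z₀, hz₀, hz₁⟩ := exists_sph_cycle hn
  obtain ⟨hz, -, hgen, hfree⟩ := hz₁ (ZMod p)
  set z : Ch (ZMod p) (Sph n) := chMap (Int.castRingHom (ZMod p)) z₀ with hzdef
  have hne : ∀ x : Sph n, ¬ Bd (ZMod p) n Set.univ {x}ᶜ z := by
    intro x h
    have h1 := hfree x 1 (by rwa [one_smul])
    exact one_ne_zero h1
  have hne0 : ¬ Bd (ZMod p) n (Set.univ : Set (Sph n)) ∅ z := by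
    obtain ⟨x⟩ := (inferInstance : Nonempty (Sph n))
    intro h
    exact hne x (h.mono (Set.Subset.refl _) (Set.empty_subset _))
  have hX := smithDat_sph hn hg hh hd hdn hz hgen hne0
  have hY : ∀ x ∈ fixS g, SmithDat p n g {x}ᶜ z := fun x hx =>
    smithDat_loc hn hg hh hd hdn hz hgen hne hx (hl x hx)
  -- the ladder
  have hI : ∀ x ∈ fixS g, ∀ j : ℤ, 1 ≤ j → j < n → ∀ f ∈ Z (ZMod p) j (fixS g) ∅,
      Bd (ZMod p) j (fixS g) {x}ᶜ f → Bd (ZMod p) j (fixS g) ∅ f := by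
    intro x hx j h1 h2 f hf hb
    have h := (ladder_down hX (hY x hx) (Φ := ContinuousMap.id _) (fun _ => rfl)
      (fun y hy => absurd hy (Set.notMem_empty y)) (by rw [push_id]; exact hne x) h1 h2).1
    exact h f hf (by rwa [push_id])
  obtain ⟨j, hj1, hjn, f, hf, hfn⟩ := not_acyclic hF hX hn
  have hx0 : (fixS g).Nonempty := hF.nonempty
  have hfx : ∀ x ∈ fixS g, ¬ Bd (ZMod p) j (fixS g) {x}ᶜ f :=
    fun x hx h => hfn (hI x hx j hj1 hjn f hf h)
  have hjd : j = d := by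
    by_contra hjd
    obtain ⟨x, hx⟩ := hx0
    exact hfx x hx (fix_above_pt hd hx hjd (Z_empty_le hf))
  subst hjd
  refine ⟨by exact_mod_cast hj1, ?_, ?_⟩
  · intro j h1 hjd c hc
    by_cases hj : j < n
    · obtain ⟨x, hx⟩ := hx0
      have hc' : c ∈ Z (ZMod p) j (Set.univ : Set (fixS g)) (inc (fixS g) ⁻¹' ∅) := by
        rwa [Set.preimage_empty]
      have h2 := inc_mem_Z hc'
      have h3 := hI x hx j h1 hj _ h2 (fix_above_pt hd hx hjd (Z_empty_le h2))
      rwa [Bd_inc, Set.preimage_empty] at h3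
    · exact van_above_compact hd (by omega) hc
  · obtain ⟨ζ, hζ, rfl⟩ := exists_of_Z hf
    rw [Set.preimage_empty] at hζ
    have hζx : ∀ x : fixS g, ¬ Bd (ZMod p) d Set.univ {x}ᶜ ζ := by
      intro x h
      apply hfx x x.2
      rw [Bd_inc, pre_compl]
      exact h
    refine ⟨ζ, hζ, ?_, hζx⟩
    intro w hw
    obtain ⟨x, hx⟩ := hx0
    obtain ⟨r, hr⟩ := pt_gen hd ⟨x, hx⟩ (Z_empty_le hζ) (hζx ⟨x, hx⟩) (Z_empty_le hw)
    refine ⟨r, ?_⟩
    have hw' : w - r • ζ ∈ Z (ZMod p) d (Set.univ : Set (fixS g)) (inc (fixS g) ⁻¹' ∅) := by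
      rw [Set.preimage_empty]
      exact Submodule.sub_mem _ hw (Submodule.smul_mem _ r hζ)
    have h2 := inc_mem_Z hw'
    have h3 : Bd (ZMod p) d (fixS g) {x}ᶜ (push (inc (fixS g)) (w - r • ζ)) := by
      rw [Bd_inc]
      have e := pre_compl (S := fixS g) ⟨x, hx⟩
      rw [e]
      exact hr
    have h4 := hI x hx d hj1 hjn _ h2 h3
    rwa [Bd_inc, Set.preimage_empty] at h4

/-- **Equivariant maps.** A map of smooth spheres whose restriction to the fixed point sets is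
injective on homology modulo `p` is injective on the top homology modulo `p`. -/
theorem smith_map (hn : 1 ≤ n) {g h : C(Sph n, Sph n)} (hg : ∀ x, (g^[p]) x = x)
    (hh : ∀ x, (h^[p]) x = x) (Hg : HasHalo g) (Hh : HasHalo h) {d' : ℕ}
    (hd : LocEuc d (fixS g)) (hdn : d < n) (hd' : LocEuc d' (fixS h)) (hdn' : d' < n)
    (hF : IsPathConnected (fixS g)) (hF' : IsPathConnected (fixS h)) (Φ : C(Sph n, Sph n))
    (hΦ : ∀ x, Φ (g x) = h (Φ x)) (ΦF : C(fixS g, fixS h)) (hΦF : ∀ x, (ΦF x : Sph n) = Φ x)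
    (hinj : ∀ j : ℤ, 1 ≤ j → j < n → ∀ f ∈ Z (ZMod p) j (Set.univ : Set (fixS g)) ∅,
      Bd (ZMod p) j Set.univ ∅ (push ΦF f) → Bd (ZMod p) j Set.univ ∅ f)
    {z : Ch (ZMod p) (Sph n)} (hz : z ∈ Z (ZMod p) n Set.univ ∅)
    (hne : ¬ Bd (ZMod p) n Set.univ ∅ z) : ¬ Bd (ZMod p) n Set.univ ∅ (push Φ z) := by
  have : PathConnectedSpace (Sph n) := sphere_connected hn
  obtain ⟨z₀, hz₀, hz₁⟩ := exists_sph_cycle hn
  obtain ⟨hz', -, hgen, hfree⟩ := hz₁ (ZMod p)
  set z' : Ch (ZMod p) (Sph n) := chMap (Int.castRingHom (ZMod p)) z₀ with hzdef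
  have hne' : ¬ Bd (ZMod p) n (Set.univ : Set (Sph n)) ∅ z' := by
    obtain ⟨x⟩ := (inferInstance : Nonempty (Sph n))
    intro h
    have h1 := hfree x 1 (by
      rw [one_smul]
      exact h.mono (Set.Subset.refl _) (Set.empty_subset _))
    exact one_ne_zero h1
  have hX : SmithDat p n g ∅ z :=
    smithDat_sph hn hg Hg hd hdn hz (fun w hw => gen_of_ne hgen hz hne hw) hne
  have hY : SmithDat p n h ∅ z' := smithDat_sph hn hh Hh hd' hdn' hz' hgen hne'
  refine ladder_up hF hF' hX hY hn hΦ ?_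
  intro j h1 h2 f hf hb
  obtain ⟨c, hc, rfl⟩ := exists_of_Z hf
  rw [Set.preimage_empty] at hc
  have e : push Φ (push (inc (fixS g)) c) = push (inc (fixS h)) (push ΦF c) := by
    rw [push_push, push_push]
    exact congrArg (fun f => push f c) (ContinuousMap.ext fun x => (hΦF x).symm)
  rw [e, Bd_inc, Set.preimage_empty] at hb
  rw [Bd_inc, Set.preimage_empty]
  exact hinj j h1 h2 c hc hb

end Pool.Agent.TCH
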