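import Pool.Agent.Lib.TC.HDefs

/-!
# Homology library, HSub
-/

namespace Pool.Agent.TCH

open CubeHom

namespace H01

open CubeHom.Sub

noncomputable section

variable (R : Type*) [CommRing R] (X : Type*) [TopologicalSpace X]

/-- One subdivision. -/
def F (k : ℤ) : Module.End R (Ch R X) := subF (sF R X) k.toNat

/-- The homotopy of one subdivision. -/
def G (k : ℤ) : Module.End R (Ch R X) := subG R (sF R X) (fun i => pre R X (sqC i)) k.toNat

/-- The degenerate error of one subdivision. -/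
def K (k : ℤ) : Module.End R (Ch R X) :=
  ∑ i ∈ Finset.range k.toNat, subF (sF R X) i * pre R X (toC i)

variable {R X}

theorem F_of_nonpos {k : ℤ} (hk : k ≤ 0) : F R X k = 1 := by
  rw [F, Int.toNat_of_nonpos hk]
  rfl

theorem G_of_nonpos {k : ℤ} (hk : k ≤ 0) : G R X k = 0 := by
  rw [G, Int.toNat_of_nonpos hk]
  simp [subG]

theorem K_of_nonpos {k : ℤ} (hk : k ≤ 0) : K R X k = 0 := by
  rw [K, Int.toNat_of_nonpos hk]
  simp

theorem bd_F (k : ℤ) (c : Ch R X) : bd k (F R X k c) = F R X (k - 1) (bd k c) := by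
  rcases le_or_gt k 0 with hk | hk
  · rw [bd_of_nonpos hk, bd_of_nonpos hk, map_zero]
  · obtain ⟨n, rfl⟩ : ∃ n : ℕ, k = ((n + 1 : ℕ) : ℤ) :=
      ⟨(k - 1).toNat, by push_cast; omega⟩
    have h2 := LinearMap.congr_fun
      (subD_mul_subF (R := R) (S := sF R X) (d := dF R X) rel1 rel2 rel3 n) c
    rw [← bd_eq] at h2
    have e1 : (((n + 1 : ℕ) : ℤ) - 1) = (n : ℤ) := by push_cast; ring
    rw [e1]
    simp only [F, Int.toNat_natCast]
    exact h2

theorem key (k : ℤ) (c : Ch R X) :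
    bd (k + 1) (G R X k c) + G R X (k - 1) (bd k c) = F R X k c - c - K R X k c := by
  rcases le_or_gt k 0 with hk | hk
  · rw [G_of_nonpos hk, G_of_nonpos (by omega : k - 1 ≤ 0), F_of_nonpos hk, K_of_nonpos hk]
    simp
  · obtain ⟨n, rfl⟩ : ∃ n : ℕ, k = ((n + 1 : ℕ) : ℤ) :=
      ⟨(k - 1).toNat, by push_cast; omega⟩
    have key := subD_mul_subG (R := R) (S := sF R X) (T := fun i => pre R X (sqC i))
      (d := dF R X) (H := fun i => pre R X (hiC i)) (K := fun i => pre R X (toC i))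
      (L := fun i => pre R X (loC i)) rel1 rel2 rel3 rel4 rel5 rel6 rel7 (fun _ => rfl) n
    have key' := LinearMap.congr_fun key c
    rw [← bd_eq, ← bd_eq] at key'
    have e1 : (((n + 1 : ℕ) : ℤ) - 1) = (n : ℤ) := by push_cast; ring
    have e2 : (((n + 2 : ℕ) : ℤ)) = ((n + 1 : ℕ) : ℤ) + 1 := by push_cast; ring
    rw [e2] at key'
    rw [e1]
    simp only [F, G, K, Int.toNat_natCast]
    exact key'

theorem pres_F (n : ℕ) : Pres n n (F R X n) := by
  simp only [F, Int.toNat_natCast]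
  exact pres_subF

theorem pres_G (n : ℕ) : Pres n (n + 1) (G R X n) := by
  simp only [G, Int.toNat_natCast]
  exact pres_subG

theorem pres_K (n : ℕ) : Pres n n (K R X n) := by
  simp only [K, Int.toNat_natCast]
  exact Pres.sum _ fun i _ => pres_subF.mul (pres_atc (hf := continuous_const))

theorem pres_pow {n : ℕ} {φ : Module.End R (Ch R X)} (h : Pres n n φ) (m : ℕ) :
    Pres n n (φ ^ m) := by
  induction m with
  | zero => rw [pow_zero]; exact Pres.one
  | succ m ih => rw [pow_succ]; exact ih.mul h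

theorem pres_neg {n n' : ℕ} {φ : Module.End R (Ch R X)} (h : Pres n n' φ) : Pres n n' (-φ) :=
  ⟨fun U c hc => Submodule.neg_mem _ (h.1 U c hc), fun A c hc => Submodule.neg_mem _ (h.2 A c hc)⟩

theorem K_mem_Q (n : ℕ) {U A : Set X} {c : Ch R X} (hc : c ∈ C R (n : ℤ) U) :
    K R X n c ∈ Q R (n : ℤ) A := by
  simp only [K, Int.toNat_natCast]
  rw [LinearMap.sum_apply]
  refine Submodule.sum_mem _ fun i hi => ?_
  rw [Module.End.mul_apply]
  exact (pres_subF (R := R) (X := X) (m := i) (n := n)).2 A _ (toC_mem_Q (by simpa using hi) hc)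

variable (R X)

/-- The homotopy of the iterated subdivision. -/
def T (m : ℕ) (k : ℤ) : Module.End R (Ch R X) := -∑ j ∈ Finset.range m, G R X k * F R X k ^ j

/-- The error of the iterated subdivision. -/
def E (m : ℕ) (k : ℤ) : Module.End R (Ch R X) := -∑ j ∈ Finset.range m, K R X k * F R X k ^ j

variable {R X}

theorem bd_F_pow (m : ℕ) (k : ℤ) (c : Ch R X) :
    bd k ((F R X k ^ m) c) = (F R X (k - 1) ^ m) (bd k c) := by
  induction m with
  | zero => simp
  | succ m ih =>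
    rw [pow_succ', pow_succ', Module.End.mul_apply, Module.End.mul_apply, bd_F, ih]

theorem main (m : ℕ) (k : ℤ) (c : Ch R X) :
    c - (F R X k ^ m) c = bd (k + 1) (T R X m k c) + T R X m (k - 1) (bd k c) + E R X m k c := by
  induction m with
  | zero => simp [T, E]
  | succ m ih =>
    have hT : ∀ k : ℤ, T R X (m + 1) k = T R X m k - G R X k * F R X k ^ m := by
      intro k
      rw [T, T, Finset.sum_range_succ]
      abel
    have hE : E R X (m + 1) k = E R X m k - K R X k * F R X k ^ m := by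
      rw [E, E, Finset.sum_range_succ]
      abel
    have h1 := key k ((F R X k ^ m) c)
    rw [bd_F_pow] at h1
    rw [hT, hT, hE, LinearMap.sub_apply, LinearMap.sub_apply, LinearMap.sub_apply, map_sub,
      Module.End.mul_apply, Module.End.mul_apply, Module.End.mul_apply, pow_succ',
      Module.End.mul_apply]
    have h2 : c - F R X k ((F R X k ^ m) c) = (c - (F R X k ^ m) c) -
        (bd (k + 1) (G R X k ((F R X k ^ m) c)) +
          G R X (k - 1) ((F R X (k - 1) ^ m) (bd k c))) - K R X k ((F R X k ^ m) c) := by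
      rw [h1]
      abel
    rw [h2, ih]
    abel

theorem pres_T (m n : ℕ) : Pres n (n + 1) (T R X m n) :=
  pres_neg (Pres.sum _ fun _ _ => (pres_G n).mul (pres_pow (pres_F n) _))

theorem pres_E (m n : ℕ) : Pres n n (E R X m n) :=
  pres_neg (Pres.sum _ fun _ _ => (pres_K n).mul (pres_pow (pres_F n) _))

theorem E_mem_Q (m n : ℕ) {U A : Set X} {c : Ch R X} (hc : c ∈ C R (n : ℤ) U) :
    E R X m n c ∈ Q R (n : ℤ) A := by
  rw [E, LinearMap.neg_apply, LinearMap.sum_apply]
  refine Submodule.neg_mem _ (Submodule.sum_mem _ fun j _ => ?_)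
  rw [Module.End.mul_apply]
  exact K_mem_Q n ((pres_pow (pres_F n) j).1 U c hc)

theorem comm_neg {t a : Module.End R (Ch R X)} (h : Commute t a) : Commute t (-a) := by
  refine LinearMap.ext fun c => ?_
  have h1 : t (a c) = a (t c) := LinearMap.congr_fun h c
  rw [Module.End.mul_apply, Module.End.mul_apply, LinearMap.neg_apply, LinearMap.neg_apply,
    map_neg, h1]

section comm

variable {t : Module.End R (Ch R X)} (ht : ∀ a : C(Cb, Cb), Commute t (pre R X a))

include ht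

theorem comm_sF (i : ℕ) : Commute t (sF R X i) := (ht _).add_right (ht _)

theorem comm_subF (n : ℕ) : Commute t (subF (sF R X) n) := by
  induction n with
  | zero => exact Commute.one_right t
  | succ n ih => exact ih.mul_right (comm_sF ht n)

theorem comm_F (k : ℤ) : Commute t (F R X k) := comm_subF ht _

theorem comm_G (k : ℤ) : Commute t (G R X k) := by
  refine Commute.sum_right _ _ _ fun i _ => ?_
  exact Commute.smul_right ((comm_subF ht i).mul_right (ht _)) _

theorem comm_K (k : ℤ) : Commute t (K R X k) :=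
  Commute.sum_right _ _ _ fun i _ => (comm_subF ht i).mul_right (ht _)

theorem comm_T (m : ℕ) (k : ℤ) : Commute t (T R X m k) :=
  comm_neg (Commute.sum_right _ _ _ fun j _ =>
    (comm_G ht k).mul_right ((comm_F ht k).pow_right j))

theorem comm_E (m : ℕ) (k : ℤ) : Commute t (E R X m k) :=
  comm_neg (Commute.sum_right _ _ _ fun j _ =>
    (comm_K ht k).mul_right ((comm_F ht k).pow_right j))

end comm

theorem single_small' {n : ℕ} {ι : Type} {W : Set X} {𝒰 : ι → Set X} (hU : ∀ i, IsOpen (𝒰 i))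
    (hW : W ⊆ ⋃ i, 𝒰 i) {σ : C(Cb, X)} (hσ : IsCube (n : ℤ) σ) (hσW : ∀ u, σ u ∈ W) (r : R) :
    ∃ m0 : ℕ, ∀ m ≥ m0, (subF (sF R X) n ^ m) (Finsupp.single σ r) ∈
      ⨆ i, C R (n : ℤ) (𝒰 i ∩ W) := by
  classical
  let g : (Fin n → I) → X := fun x => σ (extZ n x)
  have hg : Continuous g := σ.continuous.comp (continuous_extZ n)
  obtain ⟨δ, hδ, hball⟩ := lebesgue_number_lemma_of_metric (s := Set.univ)
    (c := fun i => g ⁻¹' 𝒰 i) isCompact_univ (fun i => (hU i).preimage hg)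
    (fun x _ => by
      obtain ⟨i, hi⟩ := Set.mem_iUnion.mp (hW (hσW (extZ n x)))
      exact Set.mem_iUnion.mpr ⟨i, hi⟩)
  obtain ⟨m0, hm0⟩ := exists_pow_lt_of_lt_one hδ (show (1 / 2 : ℝ) < 1 by norm_num)
  refine ⟨m0, fun m hm => ?_⟩
  have hmδ : (1 / 2 : ℝ) ^ m < δ :=
    lt_of_le_of_lt (pow_le_pow_of_le_one (by norm_num) (by norm_num) hm) hm0
  have h1 : (subF (sF R X) n ^ m) (Finsupp.single σ r) ∈ C R (n : ℤ) W :=
    (pres_pow pres_subF m).1 W _ (Finsupp.single_mem_supported R r ⟨hσ, hσW⟩)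
  have h3 := small_subF_pow (R := R) (σ := σ) n m r
  have h4 : (⨆ i, C R (n : ℤ) (𝒰 i ∩ W)) =
      Finsupp.supported R R (⋃ i, {τ : C(Cb, X) | IsCube (n : ℤ) τ ∧ ∀ u, τ u ∈ 𝒰 i ∩ W}) :=
    (Finsupp.supported_iUnion _).symm
  rw [h4, Finsupp.mem_supported]
  intro τ hτ
  have h5 : τ ∈ {τ : C(Cb, X) | IsCube (n : ℤ) τ ∧ ∀ u, τ u ∈ W} :=
    (Finsupp.mem_supported R _).mp h1 hτ
  obtain ⟨a, ha, rfl⟩ := (Finsupp.mem_supported R _).mp h3 hτ
  obtain ⟨b, hb⟩ := hball (fun j : Fin n => a (fun _ => 0) j) (Set.mem_univ _)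
  have h6 : ∀ u, (fun j : Fin n => a u j) ∈ g ⁻¹' 𝒰 b := by
    intro u
    apply hb
    rw [Metric.mem_ball, dist_pi_lt_iff hδ]
    intro j
    have h7 := ha j u (fun _ => 0)
    simp only [j.2, if_true] at h7
    have h8 : dist (u j) (0 : I) ≤ 1 := by
      rw [Subtype.dist_eq, Real.dist_eq]
      have h0 := (u j).2.1
      have h1 := (u j).2.2
      simp only [Set.Icc.coe_zero, sub_zero]
      rw [abs_of_nonneg h0]
      exact h1
    calc dist (a u j) (a (fun _ => 0) j) ≤ (1 / 2 : ℝ) ^ m * dist (u j) (0 : I) := h7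
      _ ≤ (1 / 2 : ℝ) ^ m * 1 := mul_le_mul_of_nonneg_left h8 (by positivity)
      _ < δ := by rw [mul_one]; exact hmδ
  have h9 : ∀ u, (σ.comp a) u = g (fun j : Fin n => a u j) := by
    intro u
    refine (isCube_nat.mp hσ) _ _ fun j hj => ?_
    simp [extZ, hj]
  refine Set.mem_iUnion.mpr ⟨b, h5.1, fun u => ⟨?_, h5.2 u⟩⟩
  rw [h9]
  exact h6 u

theorem eventually_small' {n : ℕ} {ι : Type} {W : Set X} {𝒰 : ι → Set X} (hU : ∀ i, IsOpen (𝒰 i))
    (hW : W ⊆ ⋃ i, 𝒰 i) {c : Ch R X} (hc : c ∈ C R (n : ℤ) W) :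
    ∃ m0 : ℕ, ∀ m ≥ m0, (subF (sF R X) n ^ m) c ∈ ⨆ i, C R (n : ℤ) (𝒰 i ∩ W) := by
  rw [C, Finsupp.supported_eq_span_single] at hc
  induction hc using Submodule.span_induction with
  | mem x hx =>
    obtain ⟨σ, ⟨hσ, hσW⟩, rfl⟩ := hx
    exact single_small' hU hW hσ hσW 1
  | zero => exact ⟨0, fun m _ => by rw [map_zero]; exact Submodule.zero_mem _⟩
  | add x y _ _ hx hy =>
    obtain ⟨m1, h1⟩ := hx
    obtain ⟨m2, h2⟩ := hy
    refine ⟨max m1 m2, fun m hm => ?_⟩
    rw [map_add]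
    exact Submodule.add_mem _ (h1 m (le_trans (le_max_left _ _) hm))
      (h2 m (le_trans (le_max_right _ _) hm))
  | smul r x _ hx =>
    obtain ⟨m1, h1⟩ := hx
    refine ⟨m1, fun m hm => ?_⟩
    rw [map_smul]
    exact Submodule.smul_mem _ _ (h1 m hm)

end

end H01

open H01 in
/-- **Subdivision operators.** `S m k` is the `m`-fold subdivision of `k`-chains, `T m k` the
homotopy, `E m k` the degenerate error term. Everything is built from precompositions. -/
theorem exists_subdiv (R : Type*) [CommRing R] (X : Type*) [TopologicalSpace X] :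
    ∃ S T E : ℕ → ℤ → Module.End R (Ch R X),
      (∀ m k, ∀ U : Set X, ∀ c ∈ C R k U,
        S m k c ∈ C R k U ∧ T m k c ∈ C R (k + 1) U ∧ E m k c ∈ C R k U ∧
          E m k c ∈ Q R k (∅ : Set X)) ∧
      (∀ m k, ∀ A : Set X, ∀ c ∈ Q R k A, S m k c ∈ Q R k A ∧ T m k c ∈ Q R (k + 1) A) ∧
      (∀ m k, ∀ c ∈ C R k (Set.univ : Set X), bd k (S m k c) = S m (k - 1) (bd k c)) ∧
      (∀ m k, ∀ c ∈ C R k (Set.univ : Set X),
        c - S m k c = bd (k + 1) (T m k c) + T m (k - 1) (bd k c) + E m k c) ∧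
      (∀ m k, ∀ t : Module.End R (Ch R X),
        (∀ (a : C(Cb, Cb)) (c : Ch R X), t (Sub.pre R X a c) = Sub.pre R X a (t c)) → ∀ c,
          t (S m k c) = S m k (t c) ∧ t (T m k c) = T m k (t c) ∧ t (E m k c) = E m k (t c)) ∧
      (∀ k, ∀ {ι : Type} (𝒰 : ι → Set X), (∀ i, IsOpen (𝒰 i)) → ∀ W : Set X, W ⊆ ⋃ i, 𝒰 i →
        ∀ c ∈ C R k W, ∃ m0 : ℕ, ∀ m ≥ m0, S m k c ∈ ⨆ i, C R k (𝒰 i ∩ W)) := by
  refine ⟨fun m k => F R X k ^ m, H01.T R X, H01.E R X, ?_, ?_, fun m k c _ => bd_F_pow m k c,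
    fun m k c _ => H01.main m k c, ?_, ?_⟩
  · intro m k U c hc
    rcases lt_or_ge k 0 with hk | hk
    · rw [C_of_neg hk] at hc
      rw [(Submodule.mem_bot R).mp hc, map_zero, map_zero, map_zero]
      exact ⟨Submodule.zero_mem _, Submodule.zero_mem _, Submodule.zero_mem _,
        Submodule.zero_mem _⟩
    · obtain ⟨n, rfl⟩ := Int.eq_ofNat_of_zero_le hk
      refine ⟨(pres_pow (pres_F n) m).1 U c hc, ?_, (pres_E m n).1 U c hc, E_mem_Q m n hc⟩
      have h := (pres_T m n).1 U c hc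
      exact_mod_cast h
  · intro m k A c hc
    rcases lt_or_ge k 0 with hk | hk
    · rw [Q_of_neg hk] at hc
      rw [(Submodule.mem_bot R).mp hc, map_zero, map_zero]
      exact ⟨Submodule.zero_mem _, Submodule.zero_mem _⟩
    · obtain ⟨n, rfl⟩ := Int.eq_ofNat_of_zero_le hk
      refine ⟨(pres_pow (pres_F n) m).2 A c hc, ?_⟩
      have h := (pres_T m n).2 A c hc
      exact_mod_cast h
  · intro m k t ht c
    have ht' : ∀ a : C(Cb, Cb), Commute t (Sub.pre R X a) := fun a => LinearMap.ext (ht a)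
    exact ⟨LinearMap.congr_fun ((comm_F ht' k).pow_right m) c,
      LinearMap.congr_fun (comm_T ht' m k) c, LinearMap.congr_fun (comm_E ht' m k) c⟩
  · intro k ι 𝒰 hU W hW c hc
    rcases lt_or_ge k 0 with hk | hk
    · rw [C_of_neg hk] at hc
      rw [(Submodule.mem_bot R).mp hc]
      exact ⟨0, fun m _ => by rw [map_zero]; exact Submodule.zero_mem _⟩
    · obtain ⟨n, rfl⟩ := Int.eq_ofNat_of_zero_le hk
      obtain ⟨m0, hm0⟩ := eventually_small' hU hW hc
      refine ⟨m0, fun m hm => ?_⟩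
      have h := hm0 m hm
      simp only [F, Int.toNat_natCast]
      exact h

end Pool.Agent.TCH
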