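import Pool.Agent.Lib.TC.Man

/-!
# Section 3.4, 3.5: the equivariant halo of the fixed point set
-/

namespace Pool.Agent.TC

open Metric Set
open scoped unitInterval Topology

namespace HaloAux

variable {G X : Type} [Group G] [TopologicalSpace X] [MulAction G X] {n : ℕ}

/-- The average over the group. -/
noncomputable def avg [Fintype G]
    (ρ : G →* (EuclideanSpace ℝ (Fin n) ≃ₗᵢ[ℝ] EuclideanSpace ℝ (Fin n)))
    (v : EuclideanSpace ℝ (Fin n)) : EuclideanSpace ℝ (Fin n) :=
  (Fintype.card G : ℝ)⁻¹ • ∑ g : G, ρ g v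

theorem avg_fix [Fintype G]
    (ρ : G →* (EuclideanSpace ℝ (Fin n) ≃ₗᵢ[ℝ] EuclideanSpace ℝ (Fin n)))
    (v : EuclideanSpace ℝ (Fin n)) (h : G) : ρ h (avg ρ v) = avg ρ v := by
  unfold avg
  rw [map_smul, map_sum]
  congr 1
  refine Fintype.sum_equiv (Equiv.mulLeft h) _ _ fun g => ?_
  rw [Equiv.coe_mulLeft, map_mul]
  rfl

theorem avg_act [Fintype G]
    (ρ : G →* (EuclideanSpace ℝ (Fin n) ≃ₗᵢ[ℝ] EuclideanSpace ℝ (Fin n)))
    (v : EuclideanSpace ℝ (Fin n)) (h : G) : avg ρ (ρ h v) = avg ρ v := by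
  unfold avg
  congr 1
  refine Fintype.sum_equiv (Equiv.mulRight h) _ _ fun g => ?_
  rw [Equiv.coe_mulRight, map_mul]
  rfl

theorem avg_of_fix [Fintype G]
    (ρ : G →* (EuclideanSpace ℝ (Fin n) ≃ₗᵢ[ℝ] EuclideanSpace ℝ (Fin n)))
    (v : EuclideanSpace ℝ (Fin n)) (hv : ∀ g, ρ g v = v) : avg ρ v = v := by
  unfold avg
  simp only [hv, Finset.sum_const, Finset.card_univ]
  rw [← Nat.cast_smul_eq_nsmul ℝ, smul_smul, inv_mul_cancel₀, one_smul]
  exact_mod_cast Fintype.card_ne_zero

theorem continuous_avg [Fintype G]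
    (ρ : G →* (EuclideanSpace ℝ (Fin n) ≃ₗᵢ[ℝ] EuclideanSpace ℝ (Fin n))) :
    Continuous (avg ρ) := by
  unfold avg
  have h : Continuous fun v : EuclideanSpace ℝ (Fin n) => ∑ g : G, ρ g v :=
    continuous_finsetSum _ fun g _ => (ρ g).continuous
  have h2 : Continuous fun v : EuclideanSpace ℝ (Fin n) => (Fintype.card G : ℝ)⁻¹ •
      ∑ g : G, ρ g v := h.const_smul ((Fintype.card G : ℝ)⁻¹)
  exact h2

theorem lin (f : EuclideanSpace ℝ (Fin n) ≃ₗᵢ[ℝ] EuclideanSpace ℝ (Fin n)) (a b : ℝ)
    (u v : EuclideanSpace ℝ (Fin n)) : f (a • u + b • v) = a • f u + b • f v := by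
  rw [map_add, map_smul, map_smul]

/-- The inverse of a chart. -/
noncomputable def inv {x : X} (c : LinChart G X n x) : X → EuclideanSpace ℝ (Fin n) :=
  Function.invFun c.φ

theorem inv_φ {x : X} (c : LinChart G X n x) (v : EuclideanSpace ℝ (Fin n)) :
    inv c (c.φ v) = v :=
  Function.leftInverse_invFun c.emb.injective v

theorem φ_inv {x : X} (c : LinChart G X n x) {y : X} (hy : y ∈ range c.φ) :
    c.φ (inv c y) = y := by
  obtain ⟨v, rfl⟩ := hy
  rw [inv_φ]

theorem continuousOn_inv {x : X} (c : LinChart G X n x) : ContinuousOn (inv c) (range c.φ) := by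
  rintro y ⟨v, rfl⟩
  refine ContinuousAt.continuousWithinAt ?_
  rw [ContinuousAt, ← c.emb.map_nhds_eq v, Filter.tendsto_map'_iff]
  have : inv c ∘ c.φ = id := funext fun w => inv_φ c w
  rw [this, inv_φ]
  exact Filter.tendsto_id

theorem smul_range {x : X} (c : LinChart G X n x) {y : X} (hy : y ∈ range c.φ) (g : G) :
    g • y ∈ range c.φ := by
  obtain ⟨v, rfl⟩ := hy
  exact ⟨c.ρ g v, c.equi g v⟩

theorem inv_smul {x : X} (c : LinChart G X n x) {y : X} (hy : y ∈ range c.φ) (g : G) :
    inv c (g • y) = c.ρ g (inv c y) := by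
  obtain ⟨v, rfl⟩ := hy
  rw [← c.equi, inv_φ, inv_φ]

/-- A deformation near a part of the fixed point set. -/
structure Pre (G : Type) {X : Type} [Group G] [TopologicalSpace X] [MulAction G X]
    (A : Set X) where
  N : Set X
  openN : IsOpen N
  inv : ∀ (g : G), ∀ x ∈ N, g • x ∈ N
  sub : A ⊆ N
  r : I × X → X
  cont : ContinuousOn r (univ ×ˢ N)
  one : ∀ x ∈ N, r (1, x) = x
  zero : ∀ x ∈ N, ∀ g : G, g • r (0, x) = r (0, x)
  fix : ∀ (t : I), ∀ x ∈ N, (∀ g : G, g • x = x) → r (t, x) = x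
  equi : ∀ (g : G) (t : I), ∀ x ∈ N, r (t, g • x) = g • r (t, x)

/-- Straight homotopy in a chart. -/
noncomputable def str [Fintype G] {x : X} (c : LinChart G X n x) (q : I × X) : X :=
  c.φ ((1 - (q.1 : ℝ)) • avg c.ρ (inv c q.2) + (q.1 : ℝ) • inv c q.2)

/-- The combination of two deformations. -/
noncomputable def comb [Fintype G] {x : X} (c : LinChart G X n x) (r : I × X → X) (l : X → ℝ)
    (q : I × X) : X :=
  c.φ (l q.2 • inv c (r q) + (1 - l q.2) • inv c (str c q))

open Classical in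
theorem step [Fintype G] [T2Space X] [CompactSpace X] (hc : ∀ g : G, Continuous (fun x : X => g • x))
    {A : Set X} (hA : IsClosed A) (hAf : ∀ a ∈ A, ∀ g : G, g • a = a) (P : Pre G A)
    {x : X} (c : LinChart G X n x) {B : Set X} (hB : B ⊆ range c.φ)
    (hBf : ∀ a ∈ B, ∀ g : G, g • a = a) : Nonempty (Pre G (A ∪ B)) := by
  have hO : IsOpen (range c.φ) := c.emb.isOpen_range
  -- separate
  obtain ⟨U, hUo, hAU, hUN⟩ := normal_exists_closure_subset hA P.openN P.sub
  obtain ⟨V, hVo, hUV, hVN⟩ := normal_exists_closure_subset isClosed_closure P.openN hUN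
  obtain ⟨f, hf0, hf1, hf⟩ := exists_continuous_zero_one_of_isClosed
    (isClosed_compl_iff.mpr hVo) isClosed_closure
    (Set.disjoint_left.mpr fun z hz hz' => hz (hUV hz'))
  set l : X → ℝ := fun y => ∏ g : G, f (g • y) with hl
  have hlc : Continuous l := continuous_finsetProd _ fun g _ => f.continuous.comp (hc g)
  have hlinv : ∀ (g : G) (y : X), l (g • y) = l y := by
    intro g y
    refine Fintype.prod_equiv (Equiv.mulRight g) _ _ fun h => ?_
    rw [Equiv.coe_mulRight, mul_smul]
  -- region one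
  set R1 : Set X := ⋂ g : G, (fun y => g • y) ⁻¹' U with hR1
  have hR1o : IsOpen R1 := isOpen_iInter_of_finite fun g => hUo.preimage (hc g)
  have hR1inv : ∀ (g : G) (y : X), y ∈ R1 → g • y ∈ R1 := by
    intro g y hy
    rw [hR1, mem_iInter] at hy ⊢
    intro h
    have := hy (h * g)
    simp only [mem_preimage, mul_smul] at this ⊢
    exact this
  have hR1l : ∀ y ∈ R1, l y = 1 := by
    intro y hy
    rw [hR1, mem_iInter] at hy
    refine Finset.prod_eq_one fun g _ => ?_
    exact hf1 (subset_closure (hy g))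
  have hAR1 : A ⊆ R1 := by
    intro a ha
    rw [hR1, mem_iInter]
    intro g
    rw [mem_preimage, hAf a ha g]
    exact hAU ha
  have hR1U : R1 ⊆ U := by
    intro y hy
    rw [hR1, mem_iInter] at hy
    simpa using hy 1
  have hR1N : R1 ⊆ P.N := fun y hy => hUN (subset_closure (hR1U hy))
  -- region three: complement of the support
  set R3 : Set X := range c.φ ∩ ⋂ g : G, (fun y => g • y) ⁻¹' (closure V)ᶜ with hR3
  have hR3o : IsOpen R3 := hO.inter
    (isOpen_iInter_of_finite fun g => (isClosed_closure.isOpen_compl).preimage (hc g))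
  have hR3inv : ∀ (g : G) (y : X), y ∈ R3 → g • y ∈ R3 := by
    intro g y hy
    refine ⟨smul_range c hy.1 g, ?_⟩
    have h2 := hy.2
    rw [mem_iInter] at h2 ⊢
    intro h
    have := h2 (h * g)
    simp only [mem_preimage, mul_smul] at this ⊢
    exact this
  have hR3l : ∀ y ∈ R3, l y = 0 := by
    intro y hy
    have h2 := hy.2
    rw [mem_iInter] at h2
    have h1 := h2 1
    simp only [mem_preimage, one_smul] at h1
    refine Finset.prod_eq_zero (Finset.mem_univ (1 : G)) ?_
    rw [one_smul]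
    exact hf0 (fun h => h1 (subset_closure h))
  -- region two
  set R2 : Set X := {y | y ∈ range c.φ ∧ y ∈ P.N ∧ ∀ t : I, P.r (t, y) ∈ range c.φ} with hR2
  have hR2o : IsOpen R2 := by
    rw [isOpen_iff_mem_nhds]
    rintro y ⟨h1, h2, h3⟩
    have e3 : ∀ᶠ z in 𝓝 y, ∀ t ∈ (univ : Set I), P.r (t, z) ∈ range c.φ := by
      refine IsCompact.eventually_forall_of_forall_eventually isCompact_univ ?_
      intro t _
      have hct : ContinuousAt P.r (t, y) :=
        P.cont.continuousAt (prod_mem_nhds Filter.univ_mem (P.openN.mem_nhds h2))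
      have hpre : ∀ᶠ q in 𝓝 (t, y), P.r q ∈ range c.φ := hct (hO.mem_nhds (h3 t))
      have hsw : Filter.Tendsto (fun z : X × I => (z.2, z.1)) (𝓝 (y, t)) (𝓝 (t, y)) :=
        continuous_swap.tendsto (y, t)
      exact hsw.eventually hpre
    filter_upwards [hO.mem_nhds h1, P.openN.mem_nhds h2, e3] with z z1 z2 z3
    exact ⟨z1, z2, fun t => z3 t (mem_univ t)⟩
  have hR2inv : ∀ (g : G) (y : X), y ∈ R2 → g • y ∈ R2 := by
    rintro g y ⟨h1, h2, h3⟩
    refine ⟨smul_range c h1 g, P.inv g y h2, fun t => ?_⟩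
    rw [P.equi g t y h2]
    exact smul_range c (h3 t) g
  -- properties of str
  have hstrO : ∀ q : I × X, str c q ∈ range c.φ := fun q => ⟨_, rfl⟩
  have hstr1 : ∀ y ∈ range c.φ, str c (1, y) = y := by
    intro y hy
    simp only [str, Icc.coe_one, sub_self, zero_smul, one_smul, zero_add]
    exact φ_inv c hy
  have hstr0 : ∀ y : X, inv c (str c (0, y)) = avg c.ρ (inv c y) := by
    intro y
    simp only [str, Icc.coe_zero, sub_zero, zero_smul, one_smul, add_zero]
    exact inv_φ c _
  have hinvfix : ∀ y ∈ range c.φ, (∀ g : G, g • y = y) → ∀ g, c.ρ g (inv c y) = inv c y := by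
    intro y hy hf g
    rw [← inv_smul c hy g, hf g]
  have hstrfix : ∀ (t : I), ∀ y ∈ range c.φ, (∀ g : G, g • y = y) → str c (t, y) = y := by
    intro t y hy hf
    simp only [str]
    rw [avg_of_fix c.ρ _ (hinvfix y hy hf), ← add_smul]
    simp only [sub_add_cancel, one_smul]
    exact φ_inv c hy
  have hstrequi : ∀ (g : G) (t : I), ∀ y ∈ range c.φ, str c (t, g • y) = g • str c (t, y) := by
    intro g t y hy
    simp only [str]
    rw [← c.equi, inv_smul c hy, avg_act, lin, avg_fix]
  have hstrc : ContinuousOn (str c) (univ ×ˢ range c.φ) := by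
    unfold str
    refine c.φ.continuous.comp_continuousOn ?_
    have hi : ContinuousOn (fun q : I × X => inv c q.2) (univ ×ˢ range c.φ) :=
      (continuousOn_inv c).comp continuousOn_snd fun q hq => hq.2
    have ht : Continuous (fun q : I × X => (q.1 : ℝ)) := continuous_subtype_val.comp continuous_fst
    exact ((continuous_const.sub ht).continuousOn.smul
      ((continuous_avg c.ρ).comp_continuousOn hi)).add (ht.continuousOn.smul hi)
  -- properties of comb
  have hcomb1 : ∀ y ∈ R2, comb c P.r l (1, y) = y := by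
    intro y hy
    simp only [comb]
    rw [P.one y hy.2.1, hstr1 y hy.1, ← add_smul]
    simp only [add_sub_cancel, one_smul]
    exact φ_inv c hy.1
  have hcomb0 : ∀ y ∈ R2, ∀ g : G, g • comb c P.r l (0, y) = comb c P.r l (0, y) := by
    intro y hy g
    simp only [comb]
    rw [← c.equi, lin]
    rw [hinvfix _ (hy.2.2 0) (P.zero y hy.2.1) g]
    rw [hstr0, avg_fix]
  have hcombfix : ∀ (t : I), ∀ y ∈ R2, (∀ g : G, g • y = y) → comb c P.r l (t, y) = y := by
    intro t y hy hf
    simp only [comb]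
    rw [P.fix t y hy.2.1 hf, hstrfix t y hy.1 hf, ← add_smul]
    simp only [add_sub_cancel, one_smul]
    exact φ_inv c hy.1
  have hcombequi : ∀ (g : G) (t : I), ∀ y ∈ R2,
      comb c P.r l (t, g • y) = g • comb c P.r l (t, y) := by
    intro g t y hy
    simp only [comb]
    rw [← c.equi, lin, hlinv, P.equi g t y hy.2.1,
      inv_smul c (hy.2.2 t), hstrequi g t y hy.1, inv_smul c (hstrO _)]
  have hcombc : ContinuousOn (comb c P.r l) (univ ×ˢ R2) := by
    unfold comb
    refine c.φ.continuous.comp_continuousOn ?_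
    have hlq : ContinuousOn (fun q : I × X => l q.2) (univ ×ˢ R2) :=
      (hlc.comp continuous_snd).continuousOn
    have h1 : ContinuousOn (fun q : I × X => inv c (P.r q)) (univ ×ˢ R2) := by
      refine (continuousOn_inv c).comp (P.cont.mono ?_) ?_
      · rintro ⟨t, y⟩ ⟨-, hy⟩
        exact ⟨mem_univ _, hy.2.1⟩
      · rintro ⟨t, y⟩ ⟨-, hy⟩
        exact hy.2.2 t
    have h2 : ContinuousOn (fun q : I × X => inv c (str c q)) (univ ×ˢ R2) := by
      refine (continuousOn_inv c).comp (hstrc.mono ?_) fun q _ => hstrO q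
      rintro ⟨t, y⟩ ⟨-, hy⟩
      exact ⟨mem_univ _, hy.1⟩
    exact (hlq.smul h1).add ((continuousOn_const.sub hlq).smul h2)
  have hcombR1 : ∀ (t : I), ∀ y ∈ R2, y ∈ R1 → comb c P.r l (t, y) = P.r (t, y) := by
    intro t y hy hy1
    simp only [comb]
    rw [hR1l y hy1]
    simp only [one_smul, sub_self, zero_smul, add_zero]
    exact φ_inv c (hy.2.2 t)
  have hcombR3 : ∀ (t : I), ∀ y ∈ R2, y ∈ R3 → comb c P.r l (t, y) = str c (t, y) := by
    intro t y hy hy3
    simp only [comb]
    rw [hR3l y hy3]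
    simp only [one_smul, sub_zero, zero_smul, zero_add]
    exact φ_inv c (hstrO _)
  have hdis : ∀ y ∈ R1, y ∉ R3 := by
    intro y h1 h3
    have := hR1l y h1
    rw [hR3l y h3] at this
    exact zero_ne_one this
  -- the new map
  set r : I × X → X := fun q => if q.2 ∈ R1 then P.r q else if q.2 ∈ R2 then comb c P.r l q
    else str c q with hr
  have hr1 : ∀ (t : I), ∀ y ∈ R1, r (t, y) = P.r (t, y) := by
    intro t y hy
    simp only [hr, hy, if_true]
  have hr2 : ∀ (t : I), ∀ y ∈ R2, r (t, y) = comb c P.r l (t, y) := by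
    intro t y hy
    by_cases h1 : y ∈ R1
    · rw [hr1 t y h1, hcombR1 t y hy h1]
    · simp only [hr, h1, hy, if_true, if_false]
  have hr3 : ∀ (t : I), ∀ y ∈ R3, r (t, y) = str c (t, y) := by
    intro t y hy
    by_cases h2 : y ∈ R2
    · rw [hr2 t y h2, hcombR3 t y h2 hy]
    · have h1 : y ∉ R1 := fun h => hdis y h hy
      simp only [hr, h1, h2, if_false]
  have hopen : ∀ {R : Set X}, IsOpen R → ∀ (t : I) {y : X}, y ∈ R →
      (univ ×ˢ R : Set (I × X)) ∈ 𝓝 (t, y) := by
    intro R hR t y hy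
    exact prod_mem_nhds Filter.univ_mem (hR.mem_nhds hy)
  refine ⟨{ N := R1 ∪ R2 ∪ R3
            openN := (hR1o.union hR2o).union hR3o
            inv := ?_
            sub := ?_
            r := r
            cont := ?_
            one := ?_
            zero := ?_
            fix := ?_
            equi := ?_ }⟩
  · rintro g y ((h | h) | h)
    · exact Or.inl (Or.inl (hR1inv g y h))
    · exact Or.inl (Or.inr (hR2inv g y h))
    · exact Or.inr (hR3inv g y h)
  · rintro y (h | h)
    · exact Or.inl (Or.inl (hAR1 h))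
    · by_cases hN : y ∈ P.N
      · refine Or.inl (Or.inr ⟨hB h, hN, fun t => ?_⟩)
        rw [P.fix t y hN (hBf y h)]
        exact hB h
      · refine Or.inr ⟨hB h, ?_⟩
        rw [mem_iInter]
        intro g
        rw [mem_preimage, hBf y h g]
        exact fun h' => hN (hVN h')
  · rintro ⟨t, y⟩ ⟨-, ((h | h) | h)⟩
    · refine ContinuousAt.continuousWithinAt ?_
      have hca : ContinuousAt P.r (t, y) :=
        P.cont.continuousAt (hopen P.openN t (hR1N h))
      refine hca.congr ?_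
      filter_upwards [hopen hR1o t h] with q hq
      exact (hr1 q.1 q.2 hq.2).symm
    · refine ContinuousAt.continuousWithinAt ?_
      have hca : ContinuousAt (comb c P.r l) (t, y) := hcombc.continuousAt (hopen hR2o t h)
      refine hca.congr ?_
      filter_upwards [hopen hR2o t h] with q hq
      exact (hr2 q.1 q.2 hq.2).symm
    · refine ContinuousAt.continuousWithinAt ?_
      have hca : ContinuousAt (str c) (t, y) := hstrc.continuousAt (hopen hO t h.1)
      refine hca.congr ?_
      filter_upwards [hopen hR3o t h] with q hq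
      exact (hr3 q.1 q.2 hq.2).symm
  · rintro y ((h | h) | h)
    · rw [hr1 1 y h, P.one y (hR1N h)]
    · rw [hr2 1 y h, hcomb1 y h]
    · rw [hr3 1 y h, hstr1 y h.1]
  · rintro y ((h | h) | h) g
    · rw [hr1 0 y h, P.zero y (hR1N h)]
    · rw [hr2 0 y h, hcomb0 y h]
    · rw [hr3 0 y h]
      simp only [str, Icc.coe_zero, sub_zero, zero_smul, one_smul, add_zero]
      rw [← c.equi, avg_fix]
  · rintro t y ((h | h) | h) hf
    · rw [hr1 t y h, P.fix t y (hR1N h) hf]
    · rw [hr2 t y h, hcombfix t y h hf]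
    · rw [hr3 t y h, hstrfix t y h.1 hf]
  · rintro g t y ((h | h) | h)
    · rw [hr1 t y h, hr1 t (g • y) (hR1inv g y h), P.equi g t y (hR1N h)]
    · rw [hr2 t y h, hr2 t (g • y) (hR2inv g y h), hcombequi g t y h]
    · rw [hr3 t y h, hr3 t (g • y) (hR3inv g y h), hstrequi g t y h.1]

/-- The empty deformation. -/
def empty : Pre G (∅ : Set X) where
  N := ∅
  openN := isOpen_empty
  inv := by simp
  sub := Subset.rfl
  r := fun q => q.2
  cont := by simp
  one := by simp
  zero := by simp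
  fix := by simp
  equi := by simp

end HaloAux

open HaloAux in
/-- (P1) of the blueprint. -/
theorem GMan.halo {G X : Type} [Group G] [Finite G] [TopologicalSpace X] [MulAction G X]
    {n : ℕ} (h : GMan G X n) : Nonempty (Halo G X) := by
  have : Fintype G := Fintype.ofFinite G
  have := h.t2
  have := h.compact
  set F : Set X := {x | ∀ g : G, g • x = x} with hF
  have hFc : IsClosed F := by
    have : F = ⋂ g : G, {x | g • x = x} := by
      ext x
      simp [hF]
    rw [this]
    exact isClosed_iInter fun g => isClosed_eq (h.cont g) continuous_id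
  have hFk : IsCompact F := hFc.isCompact
  let c : ∀ x ∈ F, LinChart G X n x := fun x hx => (h.chart x hx).some
  let U : ∀ x ∈ F, Set X := fun x hx => (c x hx).φ '' closedBall 0 1
  have hU : ∀ (x : X) (hx : x ∈ F), U x hx ∈ 𝓝 x := by
    intro x hx
    have h1 : (c x hx).φ '' ball 0 1 ∈ 𝓝 x := by
      refine ((c x hx).emb.isOpenMap _ isOpen_ball).mem_nhds ⟨0, ?_, (c x hx).zero⟩
      simp
    exact Filter.mem_of_superset h1 (image_mono ball_subset_closedBall)
  have hUc : ∀ (x : X) (hx : x ∈ F), IsClosed (U x hx) := by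
    intro x hx
    exact ((isCompact_closedBall _ _).image (c x hx).φ.continuous).isClosed
  obtain ⟨t, ht⟩ := hFk.elim_nhds_subcover' U hU
  have key : ∀ s : Finset F, Nonempty (Pre G (F ∩ ⋃ x ∈ s, U (x : F) x.2)) := by
    intro s
    classical
    induction s using Finset.induction_on with
    | empty =>
      have : F ∩ ⋃ x ∈ (∅ : Finset F), U (x : F) x.2 = ∅ := by simp
      rw [this]
      exact ⟨HaloAux.empty⟩
    | insert a s has ih =>
      obtain ⟨P⟩ := ih
      have e : F ∩ ⋃ x ∈ insert a s, U (x : F) x.2 =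
          (F ∩ ⋃ x ∈ s, U (x : F) x.2) ∪ (F ∩ U (a : X) a.2) := by
        rw [Finset.set_biUnion_insert, inter_union_distrib_left, union_comm]
      rw [e]
      refine step h.cont ?_ (fun y hy => hy.1) P (c a a.2) ?_ (fun y hy => hy.1)
      · exact hFc.inter (isClosed_biUnion_finset fun x _ => hUc x x.2)
      · rintro y ⟨-, v, -, rfl⟩
        exact ⟨v, rfl⟩
  obtain ⟨P⟩ := key t
  have hcl : Continuous fun q : I × P.N => ((q.1, (q.2 : X)) : I × X) :=
    continuous_fst.prodMk (continuous_subtype_val.comp continuous_snd)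
  refine ⟨{ N := P.N
            openN := P.openN
            inv := P.inv
            sub := fun x hx => P.sub ⟨hx, ht hx⟩
            r := ⟨fun q => P.r (q.1, (q.2 : X)),
              P.cont.comp_continuous hcl fun q => ⟨mem_univ _, q.2.2⟩⟩
            one := fun x => P.one x x.2
            zero := fun x g => P.zero x x.2 g
            fix := fun t x hx => P.fix t x x.2 hx
            equi := fun g t x => P.equi g t x x.2 }⟩

/-- The fixed point set is a retract of an open subset of the Euclidean space. -/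
theorem exists_retract_fixed {G : Type} [Group G] {n : ℕ} [MulAction G (Sph n)]
    (H : Halo G (Sph n)) :
    ∃ W : Set (EuclideanSpace ℝ (Fin (n + 1))), IsOpen W ∧ ∃ r : C(W, Fx G (Sph n)),
      ∀ x : Fx G (Sph n), ∃ h : ((x : Sph n) : EuclideanSpace ℝ (Fin (n + 1))) ∈ W,
        r ⟨_, h⟩ = x := by
  set V : Set (EuclideanSpace ℝ (Fin (n + 1))) := {v | v ≠ 0} with hV
  have hVo : IsOpen V := isOpen_ne
  have hnorm : ∀ v : V, ‖v.1‖⁻¹ • v.1 ∈ sphere (0 : EuclideanSpace ℝ (Fin (n + 1))) 1 := by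
    intro v
    have hv : ‖v.1‖ ≠ 0 := norm_ne_zero_iff.mpr v.2
    rw [mem_sphere_zero_iff_norm, norm_smul, norm_inv, norm_norm, inv_mul_cancel₀ hv]
  set q : V → Sph n := fun v => ⟨‖v.1‖⁻¹ • v.1, hnorm v⟩ with hq
  have hqc : Continuous q := by
    refine Continuous.subtype_mk ?_ _
    have hi : Continuous fun v : V => ‖v.1‖⁻¹ :=
      (continuous_subtype_val.norm).inv₀ fun v => norm_ne_zero_iff.mpr v.2
    exact hi.smul continuous_subtype_val
  set W : Set (EuclideanSpace ℝ (Fin (n + 1))) := Subtype.val '' (q ⁻¹' H.N) with hW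
  have hWo : IsOpen W := hVo.isOpenMap_subtype_val _ (H.openN.preimage hqc)
  have hWV : ∀ w : W, (w : EuclideanSpace ℝ (Fin (n + 1))) ∈ V := by
    rintro ⟨_, v, -, rfl⟩
    exact v.2
  have hWN : ∀ w : W, q ⟨w, hWV w⟩ ∈ H.N := by
    rintro ⟨_, v, hv, rfl⟩
    exact hv
  have hrc : Continuous fun w : W => H.r (0, ⟨q ⟨w, hWV w⟩, hWN w⟩) := by
    refine H.r.continuous.comp (continuous_const.prodMk (Continuous.subtype_mk ?_ _))
    exact hqc.comp (continuous_subtype_val.subtype_mk _)
  refine ⟨W, hWo, ⟨fun w => ⟨H.r (0, ⟨q ⟨w, hWV w⟩, hWN w⟩), fun g => H.zero _ g⟩,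
    hrc.subtype_mk _⟩, ?_⟩
  intro x
  have hx1 : ‖((x : Sph n) : EuclideanSpace ℝ (Fin (n + 1)))‖ = 1 := by
    exact mem_sphere_zero_iff_norm.mp (x : Sph n).2
  have hxV : ((x : Sph n) : EuclideanSpace ℝ (Fin (n + 1))) ∈ V := by
    rw [hV, mem_ofPred_eq, ← norm_ne_zero_iff, hx1]
    exact one_ne_zero
  have hqx : q ⟨_, hxV⟩ = (x : Sph n) := by
    apply Subtype.ext
    simp only [hq, hx1, inv_one, one_smul]
  have hxN : (x : Sph n) ∈ H.N := H.sub _ x.2
  have hxW : ((x : Sph n) : EuclideanSpace ℝ (Fin (n + 1))) ∈ W :=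
    ⟨⟨_, hxV⟩, by rw [mem_preimage, hqx]; exact hxN, rfl⟩
  refine ⟨hxW, ?_⟩
  apply Subtype.ext
  change H.r (0, ⟨q ⟨_, hWV ⟨_, hxW⟩⟩, hWN ⟨_, hxW⟩⟩) = (x : Sph n)
  have e : (⟨q ⟨_, hWV ⟨_, hxW⟩⟩, hWN ⟨_, hxW⟩⟩ : H.N) = ⟨(x : Sph n), hxN⟩ :=
    Subtype.ext hqx
  rw [e]
  exact H.fix 0 _ x.2

/-- Outside a halo the action of a group of prime order is free and `X` is covered by finitely
many open sets which are disjoint from their translates. -/
theorem exists_free_cover {p : ℕ} [Fact p.Prime] {X : Type} [TopologicalSpace X]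
    [MulAction (Cp p) X] [T2Space X] [CompactSpace X]
    (hc : ∀ g : Cp p, Continuous (fun x : X => g • x)) (H : Halo (Cp p) X) :
    ∃ (m : ℕ) (O : Fin m → Set X), (∀ i, IsOpen (O i)) ∧
      (∀ i (g : Cp p), g ≠ 1 → ∀ x ∈ O i, g • x ∉ O i) ∧ ∀ x : X, x ∈ H.N ∨ ∃ i, x ∈ O i := by
  have : NeZero p := ⟨(Fact.out : p.Prime).ne_zero⟩
  have : Finite (Cp p) := inferInstanceAs (Finite (Multiplicative (ZMod p)))
  have : Fintype (Cp p) := Fintype.ofFinite _
  have hcard : Nat.card (Cp p) = p := by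
    rw [Cp, Nat.card_congr Multiplicative.toAdd, Nat.card_eq_fintype_card, ZMod.card]
  -- free outside
  have hfree : ∀ x : X, x ∉ H.N → ∀ g : Cp p, g ≠ 1 → g • x ≠ x := by
    intro x hx g hg hgx
    apply hx
    apply H.sub
    have : Fact (Nat.card (Cp p)).Prime := by rw [hcard]; infer_instance
    have htop : MulAction.stabilizer (Cp p) x = ⊤ := by
      rcases (MulAction.stabilizer (Cp p) x).eq_bot_or_eq_top_of_prime_card with hb | ht
      · exfalso
        have : g ∈ MulAction.stabilizer (Cp p) x := hgx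
        rw [hb, Subgroup.mem_bot] at this
        exact hg this
      · exact ht
    intro k
    have : k ∈ MulAction.stabilizer (Cp p) x := by rw [htop]; exact Subgroup.mem_top k
    exact this
  -- local sets
  have hloc : ∀ x : X, x ∉ H.N → ∃ O : Set X, IsOpen O ∧ x ∈ O ∧
      ∀ g : Cp p, g ≠ 1 → ∀ y ∈ O, g • y ∉ O := by
    intro x hx
    have h1 : ∀ g : Cp p, ∃ O : Set X, IsOpen O ∧ x ∈ O ∧ (g ≠ 1 → ∀ y ∈ O, g • y ∉ O) := by
      intro g
      by_cases hg : g = 1
      · exact ⟨univ, isOpen_univ, mem_univ _, fun h => absurd hg h⟩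
      · obtain ⟨A, B, hA, hB, hxA, hxB, hAB⟩ := t2_separation (hfree x hx g hg)
        refine ⟨B ∩ (fun y => g • y) ⁻¹' A, hB.inter (hA.preimage (hc g)), ⟨hxB, hxA⟩, ?_⟩
        rintro - y ⟨-, hy⟩ ⟨hy', -⟩
        exact Set.disjoint_left.mp hAB hy hy'
    choose O hO1 hO2 hO3 using h1
    refine ⟨⋂ g, O g, isOpen_iInter_of_finite hO1, mem_iInter.mpr hO2, ?_⟩
    intro g hg y hy hgy
    rw [mem_iInter] at hy hgy
    exact hO3 g hg y (hy g) (hgy g)
  have hK : IsCompact (H.N)ᶜ := H.openN.isClosed_compl.isCompact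
  choose O hO1 hO2 hO3 using hloc
  obtain ⟨t, ht⟩ := hK.elim_nhds_subcover' (fun x hx => O x hx)
    (fun x hx => (hO1 x hx).mem_nhds (hO2 x hx))
  refine ⟨t.card, fun i => O (t.equivFin.symm i).1 (t.equivFin.symm i).1.2, ?_, ?_, ?_⟩
  · intro i
    exact hO1 _ _
  · intro i g hg x hx
    exact hO3 _ _ g hg x hx
  · intro x
    by_cases hx : x ∈ H.N
    · exact Or.inl hx
    · right
      have := ht hx
      simp only [mem_iUnion] at this
      obtain ⟨a, ha, hxa⟩ := this
      refine ⟨t.equivFin ⟨a, ha⟩, ?_⟩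
      have e : t.equivFin.symm (t.equivFin ⟨a, ha⟩) = ⟨a, ha⟩ := Equiv.symm_apply_apply _ _
      have key : ∀ b : t, b = ⟨a, ha⟩ → x ∈ O b.1 b.1.2 := by
        rintro b rfl
        exact hxa
      exact key _ e

end Pool.Agent.TC
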