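import Pool.Agent.Lib.TC.Defs

/-!
# Section 1.2 and 2: homotopy invariance, restriction to the fixed point set
-/

namespace Pool.Agent.TC

open Set
open scoped unitInterval

variable {G X Y : Type} [Group G] [TopologicalSpace X] [TopologicalSpace Y] [MulAction G X]
  [MulAction G Y]

namespace InvAux

/-- the projection of the real line to the unit interval -/
noncomputable def pj (r : ℝ) : I := projIcc (0 : ℝ) 1 zero_le_one r

theorem continuous_pj : Continuous pj := continuous_projIcc (h := zero_le_one)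

theorem pj_zero : pj 0 = 0 := projIcc_left (h := zero_le_one)

theorem pj_one : pj 1 = 1 := projIcc_right (h := zero_le_one)

theorem pj_coe (t : I) : pj (t : ℝ) = t := projIcc_val (h := zero_le_one) t

/-- Concatenation of two families of paths. -/
theorem continuous_cat {A Z : Type} [TopologicalSpace A] [TopologicalSpace Z] {a b : A × I → Z}
    (ha : Continuous a) (hb : Continuous b) (hab : ∀ p, a (p, 1) = b (p, 0)) :
    Continuous fun q : A × I => if (q.2 : ℝ) ≤ 1 / 2 then a (q.1, pj (2 * (q.2 : ℝ)))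
      else b (q.1, pj (2 * (q.2 : ℝ) - 1)) := by
  refine Continuous.if_le ?_ ?_ (continuous_subtype_val.comp continuous_snd) continuous_const ?_
  · exact ha.comp (continuous_fst.prodMk (continuous_pj.comp
      (continuous_const.mul (continuous_subtype_val.comp continuous_snd))))
  · exact hb.comp (continuous_fst.prodMk (continuous_pj.comp
      ((continuous_const.mul (continuous_subtype_val.comp continuous_snd)).sub continuous_const)))
  · intro q hq
    rw [hq]
    norm_num
    rw [pj_one, pj_zero]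
    exact hab q.1

/-- the value of the concatenation -/
noncomputable def catv {Z : Type} (a b : I → Z) (t : I) : Z :=
  if (t : ℝ) ≤ 1 / 2 then a (pj (2 * (t : ℝ))) else b (pj (2 * (t : ℝ) - 1))

theorem catv_zero {Z : Type} (a b : I → Z) : catv a b 0 = a 0 := by
  unfold catv
  rw [if_pos (by norm_num)]
  norm_num
  rw [pj_zero]

theorem catv_one {Z : Type} (a b : I → Z) : catv a b 1 = b 1 := by
  unfold catv
  rw [if_neg (by norm_num)]
  norm_num
  rw [pj_one]

theorem catv_smul {Z : Type} [MulAction G Z] (g : G) {a b a' b' : I → Z}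
    (ha : ∀ t, a' t = g • a t) (hb : ∀ t, b' t = g • b t) (t : I) :
    catv a' b' t = g • catv a b t := by
  unfold catv
  split_ifs
  · exact ha _
  · exact hb _

end InvAux

open InvAux

theorem TCle.mono {k m : ℕ} (hkm : k ≤ m) (h : TCle G X k) : TCle G X m := by
  obtain ⟨U, h1, h2, h3, h4⟩ := h
  let f : Fin (m + 1) → Fin (k + 1) := fun i => ⟨min i.1 k, by omega⟩
  have hf : Function.Surjective f := fun j =>
    ⟨⟨j.1, by have := j.2; omega⟩, Fin.ext (by have := j.2; show min j.1 k = j.1; omega)⟩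
  refine ⟨fun i => U (f i), fun i => h1 _, fun i => h2 _, ?_, fun i => h4 _⟩
  rw [hf.iUnion_comp, h3]

theorem itc_le_iff {k : ℕ} : ITC G X ≤ (k : ℕ∞) ↔ TCle G X k := by
  constructor
  · intro h
    by_contra hc
    have h1 : ((k + 1 : ℕ) : ℕ∞) ≤ ITC G X := by
      refine le_iInf₂ fun m hm => ?_
      have : k < m := by
        by_contra h2
        exact hc (hm.mono (not_lt.1 h2))
      exact_mod_cast this
    have h2 := h1.trans h
    have h3 : k + 1 ≤ k := by exact_mod_cast h2
    omega
  · intro h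
    exact iInf₂_le k h

/-- Domination: a `G`-homotopy left inverse gives `TC^G(X) ≤ TC^G(Y)`. -/
theorem TCle.dominated {k : ℕ} (f : C(X, Y)) (h : C(Y, X)) (hf : Equi G f) (hh : Equi G h)
    (hH : GHomotopic G (h.comp f) (ContinuousMap.id X)) (hk : TCle G Y k) : TCle G X k := by
  classical
  obtain ⟨U, h1, h2, h3, h4⟩ := hk
  obtain ⟨H, H0, H1, Hg⟩ := hH
  have H0' : ∀ x, H (0, x) = h (f x) := H0
  have H1' : ∀ x, H (1, x) = x := H1
  have hff : Continuous fun p : X × X => (f p.1, f p.2) :=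
    (f.continuous.comp continuous_fst).prodMk (f.continuous.comp continuous_snd)
  refine ⟨fun i => (fun p : X × X => (f p.1, f p.2)) ⁻¹' U i, fun i => (h1 i).preimage hff,
    fun i g g' x y hxy => ?_, ?_, fun i => ?_⟩
  · show (f (g • x), f (g' • y)) ∈ U i
    rw [hf, hf]
    exact h2 i g g' _ _ hxy
  · rw [← preimage_iUnion, h3, preimage_univ]
  obtain ⟨s, hs, hs'⟩ := h4 i
  set U' : Set (X × X) := (fun p : X × X => (f p.1, f p.2)) ⁻¹' U i with hU'
  -- the section on the subtype
  have hsec : Continuous fun p : U' => s (f p.1.1, f p.1.2) := by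
    have h5 : ContinuousOn (fun p : X × X => s (f p.1, f p.2)) U' :=
      hs.comp hff.continuousOn fun p hp => hp
    exact continuousOn_iff_continuous_domRestrict.1 h5
  have ev1 : Continuous fun q : U' × I => (s (f q.1.1.1, f q.1.1.2)).1 q.2 := by
    have h6 : Continuous fun q : U' × I => (s (f q.1.1.1, f q.1.1.2)).1 :=
      (continuous_fst.comp hsec).comp continuous_fst
    exact h6.eval continuous_snd
  have ev2 : Continuous fun q : U' × I => (s (f q.1.1.1, f q.1.1.2)).2 q.2 := by
    have h6 : Continuous fun q : U' × I => (s (f q.1.1.1, f q.1.1.2)).2 :=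
      (continuous_snd.comp hsec).comp continuous_fst
    exact h6.eval continuous_snd
  let a1 : U' × I → X := fun q => H (unitInterval.symm q.2, q.1.1.1)
  let b1 : U' × I → X := fun q => h ((s (f q.1.1.1, f q.1.1.2)).1 q.2)
  let a2 : U' × I → X := fun q => h ((s (f q.1.1.1, f q.1.1.2)).2 q.2)
  let b2 : U' × I → X := fun q => H (q.2, q.1.1.2)
  have ha1 : Continuous a1 := H.continuous.comp
    ((unitInterval.continuous_symm.comp continuous_snd).prodMk
      (continuous_fst.comp (continuous_subtype_val.comp continuous_fst)))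
  have hb1 : Continuous b1 := h.continuous.comp ev1
  have ha2 : Continuous a2 := h.continuous.comp ev2
  have hb2 : Continuous b2 := H.continuous.comp (continuous_snd.prodMk
      (continuous_snd.comp (continuous_subtype_val.comp continuous_fst)))
  have hc1 : ∀ p, a1 (p, 1) = b1 (p, 0) := by
    intro p
    show H (unitInterval.symm 1, p.1.1) = h ((s (f p.1.1, f p.1.2)).1 0)
    rw [unitInterval.symm_one, H0', (hs' _ _ p.2).2.1]
  have hc2 : ∀ p, a2 (p, 1) = b2 (p, 0) := by
    intro p
    show h ((s (f p.1.1, f p.1.2)).2 1) = H (0, p.1.2)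
    rw [H0', (hs' _ _ p.2).2.2.1]
  let Φ1 : C(U' × I, X) := ⟨_, continuous_cat ha1 hb1 hc1⟩
  let Φ2 : C(U' × I, X) := ⟨_, continuous_cat ha2 hb2 hc2⟩
  let sec : X × X → C(I, X) × C(I, X) := fun p =>
    if hp : p ∈ U' then (Φ1.curry ⟨p, hp⟩, Φ2.curry ⟨p, hp⟩)
    else (ContinuousMap.const I p.1, ContinuousMap.const I p.1)
  have hsecp : ∀ p (hp : p ∈ U'), sec p = (Φ1.curry ⟨p, hp⟩, Φ2.curry ⟨p, hp⟩) := fun p hp =>
    dif_pos hp
  have hv1 : ∀ x y (hp : (x, y) ∈ U') (t : I), (sec (x, y)).1 t =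
      catv (fun u => H (unitInterval.symm u, x)) (fun u => h ((s (f x, f y)).1 u)) t := by
    intro x y hp t
    rw [hsecp _ hp]
    rfl
  have hv2 : ∀ x y (hp : (x, y) ∈ U') (t : I), (sec (x, y)).2 t =
      catv (fun u => h ((s (f x, f y)).2 u)) (fun u => H (u, y)) t := by
    intro x y hp t
    rw [hsecp _ hp]
    rfl
  refine ⟨sec, ?_, fun x y hxy => ?_⟩
  · show ContinuousOn sec U'
    rw [continuousOn_iff_continuous_domRestrict]
    have h7 : U'.domRestrict sec = fun p => (Φ1.curry p, Φ2.curry p) := by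
      funext p
      exact hsecp p.1 p.2
    rw [h7]
    exact Φ1.curry.continuous.prodMk Φ2.curry.continuous
  · obtain ⟨⟨g, hg⟩, e0, e1, eg⟩ := hs' _ _ hxy
    refine ⟨⟨g, ?_⟩, ?_, ?_, fun g g' t => ⟨?_, ?_⟩⟩
    · rw [hv1 x y hxy, hv2 x y hxy, catv_one, catv_zero, ← hh, hg]
    · rw [hv1 x y hxy, catv_zero, unitInterval.symm_zero, H1']
    · rw [hv2 x y hxy, catv_one, H1']
    · have hxy' : (g • x, g' • y) ∈ U' := by
        show (f (g • x), f (g' • y)) ∈ U i
        rw [hf, hf]
        exact h2 i g g' _ _ hxy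
      rw [hv1 _ _ hxy', hv1 x y hxy]
      refine catv_smul g (fun u => Hg g _ x) (fun u => ?_) t
      rw [hf, hf, (eg g g' u).1, hh]
    · have hxy' : (g • x, g' • y) ∈ U' := by
        show (f (g • x), f (g' • y)) ∈ U i
        rw [hf, hf]
        exact h2 i g g' _ _ hxy
      rw [hv2 _ _ hxy', hv2 x y hxy]
      refine catv_smul g' (fun u => ?_) (fun u => Hg g' _ y) t
      rw [hf, hf, (eg g g' u).2, hh]

/-- `TC(X^G) ≤ TC^G(X)`. -/
theorem tc0le_fixed {k : ℕ} (h : TCle G X k) : TC0le (Fx G X) k := by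
  obtain ⟨U, h1, h2, h3, h4⟩ := h
  have hv : Continuous fun p : Fx G X × Fx G X => (p.1.1, p.2.1) :=
    (continuous_subtype_val.comp continuous_fst).prodMk
      (continuous_subtype_val.comp continuous_snd)
  refine ⟨fun i => (fun p : Fx G X × Fx G X => (p.1.1, p.2.1)) ⁻¹' U i,
    fun i => (h1 i).preimage hv, ?_, fun i => ?_⟩
  · rw [← preimage_iUnion, h3, preimage_univ]
  obtain ⟨s, hs, hs'⟩ := h4 i
  set U' : Set (Fx G X × Fx G X) := (fun p : Fx G X × Fx G X => (p.1.1, p.2.1)) ⁻¹' U i with hU'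
  have hsec : Continuous fun p : U' => s (p.1.1.1, p.1.2.1) := by
    have h5 : ContinuousOn (fun p : Fx G X × Fx G X => s (p.1.1, p.2.1)) U' :=
      hs.comp hv.continuousOn fun p hp => hp
    exact continuousOn_iff_continuous_domRestrict.1 h5
  have ev1 : Continuous fun q : U' × I => (s (q.1.1.1.1, q.1.1.2.1)).1 q.2 := by
    have h6 : Continuous fun q : U' × I => (s (q.1.1.1.1, q.1.1.2.1)).1 :=
      (continuous_fst.comp hsec).comp continuous_fst
    exact h6.eval continuous_snd
  have ev2 : Continuous fun q : U' × I => (s (q.1.1.1.1, q.1.1.2.1)).2 q.2 := by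
    have h6 : Continuous fun q : U' × I => (s (q.1.1.1.1, q.1.1.2.1)).2 :=
      (continuous_snd.comp hsec).comp continuous_fst
    exact h6.eval continuous_snd
  have fx1 : ∀ (p : U') (t : I) (g : G),
      g • (s (p.1.1.1, p.1.2.1)).1 t = (s (p.1.1.1, p.1.2.1)).1 t := by
    intro p t g
    have h7 := ((hs' _ _ p.2).2.2.2 g 1 t).1
    rw [p.1.1.2 g, one_smul] at h7
    exact h7.symm
  have fx2 : ∀ (p : U') (t : I) (g : G),
      g • (s (p.1.1.1, p.1.2.1)).2 t = (s (p.1.1.1, p.1.2.1)).2 t := by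
    intro p t g
    have h7 := ((hs' _ _ p.2).2.2.2 1 g t).2
    rw [p.1.2.2 g, one_smul] at h7
    exact h7.symm
  let a : U' × I → Fx G X := fun q => ⟨(s (q.1.1.1.1, q.1.1.2.1)).1 q.2, fun g => fx1 q.1 q.2 g⟩
  let b : U' × I → Fx G X := fun q => ⟨(s (q.1.1.1.1, q.1.1.2.1)).2 q.2, fun g => fx2 q.1 q.2 g⟩
  have ha : Continuous a := Continuous.subtype_mk ev1 _
  have hb : Continuous b := Continuous.subtype_mk ev2 _
  have hab : ∀ p, a (p, 1) = b (p, 0) := by
    intro p
    obtain ⟨g, hg⟩ := (hs' _ _ p.2).1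
    apply Subtype.ext
    show (s (p.1.1.1, p.1.2.1)).1 1 = (s (p.1.1.1, p.1.2.1)).2 0
    rw [← hg]
    exact (fx1 p 1 g).symm
  refine ⟨⟨fun q : I × U' => catv (fun u => a (q.2, u)) (fun u => b (q.2, u)) q.1, ?_⟩,
    fun q => ⟨?_, ?_⟩⟩
  · exact (continuous_cat ha hb hab).comp (continuous_snd.prodMk continuous_fst)
  · show catv (fun u => a (q, u)) (fun u => b (q, u)) 0 = q.1.1
    rw [catv_zero]
    exact Subtype.ext (hs' _ _ q.2).2.1
  · show catv (fun u => a (q, u)) (fun u => b (q, u)) 1 = q.1.2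
    rw [catv_one]
    exact Subtype.ext (hs' _ _ q.2).2.2.1

end Pool.Agent.TC
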