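import Pool.Agent.Lib.TC.Defs

/-!
# Section 1.1: linear spheres have invariant topological complexity at most 2
-/

namespace Pool.Agent.TC

open Metric Set
open scoped unitInterval

namespace Lin

section general

variable {G X : Type} [Group G] [TopologicalSpace X] [MulAction G X]

/-- An open invariant set with an equivariant section. -/
def Good (G : Type) {X : Type} [Group G] [TopologicalSpace X] [MulAction G X]
    (U : Set (X × X)) : Prop :=
  IsOpen U ∧ (∀ (g h : G) (x y : X), (x, y) ∈ U → (g • x, h • y) ∈ U) ∧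
    ∃ s : X × X → C(I, X) × C(I, X), ContinuousOn s U ∧
      ∀ x y, (x, y) ∈ U →
        (∃ g : G, g • (s (x, y)).1 1 = (s (x, y)).2 0) ∧
        (s (x, y)).1 0 = x ∧ (s (x, y)).2 1 = y ∧
        ∀ (g h : G) (t : I), (s (g • x, h • y)).1 t = g • (s (x, y)).1 t ∧
          (s (g • x, h • y)).2 t = h • (s (x, y)).2 t

theorem Good.union {U U' : Set (X × X)} (h : Good G U) (h' : Good G U') (hd : Disjoint U U') :
    Good G (U ∪ U') := by
  classical
  obtain ⟨ho, hi, s, hs, hp⟩ := h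
  obtain ⟨ho', hi', s', hs', hp'⟩ := h'
  have hn : ∀ z ∈ U', z ∉ U := fun z hz hz' => (disjoint_left.mp hd) hz' hz
  refine ⟨ho.union ho', fun g h x y hxy => hxy.imp (hi g h x y) (hi' g h x y),
    fun z => if z ∈ U then s z else s' z, ?_, ?_⟩
  · intro z hz
    rcases hz with hz | hz
    · have h1 : ContinuousAt s z := hs.continuousAt (ho.mem_nhds hz)
      refine (h1.congr ?_).continuousWithinAt
      filter_upwards [ho.mem_nhds hz] with w hw
      exact (if_pos hw).symm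
    · have h1 : ContinuousAt s' z := hs'.continuousAt (ho'.mem_nhds hz)
      refine (h1.congr ?_).continuousWithinAt
      filter_upwards [ho'.mem_nhds hz] with w hw
      exact (if_neg (hn w hw)).symm
  · intro x y hxy
    rcases hxy with hz | hz
    · obtain ⟨p1, p2, p3, p4⟩ := hp x y hz
      simp only [if_pos hz]
      refine ⟨p1, p2, p3, fun g h t => ?_⟩
      rw [if_pos (hi g h x y hz)]
      exact p4 g h t
    · obtain ⟨p1, p2, p3, p4⟩ := hp' x y hz
      simp only [if_neg (hn _ hz)]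
      refine ⟨p1, p2, p3, fun g h t => ?_⟩
      rw [if_neg (hn _ (hi' g h x y hz))]
      exact p4 g h t

theorem good_of (x₀ : X) {U : Set (X × X)} (hU : IsOpen U)
    (hi : ∀ (g h : G) (x y : X), (x, y) ∈ U → (g • x, h • y) ∈ U)
    (P Q : U × I → X) (hP : Continuous P) (hQ : Continuous Q)
    (hP0 : ∀ z : U, P (z, 0) = z.1.1) (hQ1 : ∀ z : U, Q (z, 1) = z.1.2)
    (hPQ : ∀ z : U, P (z, 1) = Q (z, 0))
    (hPe : ∀ (g h : G) (x y : X) (hz : (x, y) ∈ U) (t : I),
      P (⟨(g • x, h • y), hi g h x y hz⟩, t) = g • P (⟨(x, y), hz⟩, t))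
    (hQe : ∀ (g h : G) (x y : X) (hz : (x, y) ∈ U) (t : I),
      Q (⟨(g • x, h • y), hi g h x y hz⟩, t) = h • Q (⟨(x, y), hz⟩, t)) : Good G U := by
  classical
  let p : C(U, C(I, X)) := ContinuousMap.curry ⟨P, hP⟩
  let q : C(U, C(I, X)) := ContinuousMap.curry ⟨Q, hQ⟩
  let s : X × X → C(I, X) × C(I, X) := fun z =>
    if h : z ∈ U then (p ⟨z, h⟩, q ⟨z, h⟩) else (ContinuousMap.const I x₀, ContinuousMap.const I x₀)
  have hs : ∀ z (h : z ∈ U), s z = (p ⟨z, h⟩, q ⟨z, h⟩) := fun z h => dif_pos h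
  refine ⟨hU, hi, s, ?_, ?_⟩
  · rw [continuousOn_iff_continuous_domRestrict]
    have h1 : U.domRestrict s = fun z : U => (p z, q z) := by
      funext z
      exact hs z.1 z.2
    rw [h1]
    exact p.continuous.prodMk q.continuous
  · intro x y hxy
    rw [hs _ hxy]
    refine ⟨⟨1, ?_⟩, hP0 ⟨(x, y), hxy⟩, hQ1 ⟨(x, y), hxy⟩, fun g h t => ?_⟩
    · rw [one_smul]
      exact hPQ ⟨(x, y), hxy⟩
    · rw [hs _ (hi g h x y hxy)]
      exact ⟨hPe g h x y hxy t, hQe g h x y hxy t⟩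

end general

section sphere

variable {G : Type} [Group G] {n : ℕ}
  {ρ : G →* (EuclideanSpace ℝ (Fin (n + 1)) ≃ₗᵢ[ℝ] EuclideanSpace ℝ (Fin (n + 1)))}

theorem vec_inducing : Topology.IsInducing (LinSphere.vec (ρ := ρ)) :=
  (Topology.IsInducing.subtypeVal : Topology.IsInducing (Subtype.val : Sph n → _))

theorem continuous_vec : Continuous (LinSphere.vec (ρ := ρ)) := vec_inducing.continuous

theorem vec_inj {x y : LinSphere ρ} (h : x.vec = y.vec) : x = y := Subtype.ext h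

/-- The point of the sphere with given unit vector. -/
def mk (ρ : G →* (EuclideanSpace ℝ (Fin (n + 1)) ≃ₗᵢ[ℝ] EuclideanSpace ℝ (Fin (n + 1))))
    (v : EuclideanSpace ℝ (Fin (n + 1))) (hv : ‖v‖ = 1) : LinSphere ρ :=
  (⟨v, by simpa using hv⟩ : Sph n)

theorem vec_mk (v : EuclideanSpace ℝ (Fin (n + 1))) (hv : ‖v‖ = 1) : (mk ρ v hv).vec = v := rfl

/-- Normalisation. -/
noncomputable def nrm (ρ : G →* (EuclideanSpace ℝ (Fin (n + 1)) ≃ₗᵢ[ℝ] EuclideanSpace ℝ (Fin (n + 1))))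
    (v : EuclideanSpace ℝ (Fin (n + 1))) (hv : v ≠ 0) : LinSphere ρ :=
  mk ρ (‖v‖⁻¹ • v) (by
    rw [norm_smul, norm_inv, norm_norm]
    exact inv_mul_cancel₀ (norm_ne_zero_iff.mpr hv))

theorem vec_nrm (v : EuclideanSpace ℝ (Fin (n + 1))) (hv : v ≠ 0) :
    (nrm ρ v hv).vec = ‖v‖⁻¹ • v := rfl

theorem nrm_of_unit {v : EuclideanSpace ℝ (Fin (n + 1))} (hv : v ≠ 0) {x : LinSphere ρ}
    (h : v = x.vec) : nrm ρ v hv = x := by
  apply vec_inj
  rw [vec_nrm, h, x.norm_vec, inv_one, one_smul]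

theorem nrm_smul (g : G) {v w : EuclideanSpace ℝ (Fin (n + 1))} (hv : v ≠ 0) (hw : w ≠ 0)
    (h : w = ρ g v) : nrm ρ w hw = g • nrm ρ v hv := by
  apply vec_inj
  rw [LinSphere.vec_smul, vec_nrm, vec_nrm, h, map_smul, LinearIsometryEquiv.norm_map]

theorem continuous_nrm {Z : Type*} [TopologicalSpace Z]
    {f : Z → EuclideanSpace ℝ (Fin (n + 1))} (hf : Continuous f) (h0 : ∀ z, f z ≠ 0) :
    Continuous fun z => nrm ρ (f z) (h0 z) := by
  rw [vec_inducing.continuous_iff]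
  show Continuous fun z => ‖f z‖⁻¹ • f z
  exact (hf.norm.inv₀ fun z => norm_ne_zero_iff.mpr (h0 z)).smul hf

theorem seg_ne {x a : EuclideanSpace ℝ (Fin (n + 1))} (hx : ‖x‖ = 1) (ha : ‖a‖ = 1)
    (hxa : x ≠ -a) {t : ℝ} (h0 : 0 ≤ t) (h1 : t ≤ 1) : (1 - t) • x + t • a ≠ 0 := by
  intro h
  have h2 : (1 - t) • x = -(t • a) := eq_neg_of_add_eq_zero_left h
  have h3 : ‖(1 - t) • x‖ = ‖t • a‖ := by rw [h2, norm_neg]
  rw [norm_smul, norm_smul, hx, ha, Real.norm_of_nonneg (by linarith), Real.norm_of_nonneg h0,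
    mul_one, mul_one] at h3
  have h4 : t = 1 / 2 := by linarith
  rw [h4] at h2
  have h5 : (1 / 2 : ℝ) • x = (1 / 2 : ℝ) • (-a) := by
    rw [smul_neg, ← h2]
    norm_num
  exact hxa (smul_right_injective _ (by norm_num : (1 / 2 : ℝ) ≠ 0) h5)

/-- The planner through the fixed vector `a`. -/
theorem good_via {a : EuclideanSpace ℝ (Fin (n + 1))} (ha : ‖a‖ = 1) (hf : ∀ g, ρ g a = a) :
    Good G {z : LinSphere ρ × LinSphere ρ | z.1.vec ≠ -a ∧ z.2.vec ≠ -a} := by
  have hne : ∀ (g : G) (x : LinSphere ρ), x.vec ≠ -a → (g • x).vec ≠ -a := by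
    intro g x hx h
    rw [LinSphere.vec_smul] at h
    have h1 : ρ g x.vec = ρ g (-a) := by rw [h, map_neg, hf]
    exact hx ((ρ g).injective h1)
  have hopen : IsOpen {z : LinSphere ρ × LinSphere ρ | z.1.vec ≠ -a ∧ z.2.vec ≠ -a} := by
    refine IsOpen.inter ?_ ?_
    · exact isOpen_ne.preimage (continuous_vec.comp continuous_fst)
    · exact isOpen_ne.preimage (continuous_vec.comp continuous_snd)
  have hP : ∀ z : {z : LinSphere ρ × LinSphere ρ | z.1.vec ≠ -a ∧ z.2.vec ≠ -a} × I,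
      (1 - (z.2 : ℝ)) • z.1.1.1.vec + (z.2 : ℝ) • a ≠ 0 := fun z =>
    seg_ne z.1.1.1.norm_vec ha z.1.2.1 z.2.2.1 z.2.2.2
  have hQ : ∀ z : {z : LinSphere ρ × LinSphere ρ | z.1.vec ≠ -a ∧ z.2.vec ≠ -a} × I,
      (z.2 : ℝ) • z.1.1.2.vec + (1 - (z.2 : ℝ)) • a ≠ 0 := fun z => by
    have h := seg_ne z.1.1.2.norm_vec ha z.1.2.2 (t := 1 - (z.2 : ℝ)) (by linarith [z.2.2.2])
      (by linarith [z.2.2.1])
    rwa [sub_sub_cancel] at h
  have c1 : Continuous fun z : {z : LinSphere ρ × LinSphere ρ | z.1.vec ≠ -a ∧ z.2.vec ≠ -a} × I =>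
      z.1.1.1.vec := continuous_vec.comp (by fun_prop)
  have c2 : Continuous fun z : {z : LinSphere ρ × LinSphere ρ | z.1.vec ≠ -a ∧ z.2.vec ≠ -a} × I =>
      z.1.1.2.vec := continuous_vec.comp (by fun_prop)
  refine good_of (mk ρ a ha) hopen (fun g h x y hz => ⟨hne g x hz.1, hne h y hz.2⟩)
    (fun z => nrm ρ _ (hP z)) (fun z => nrm ρ _ (hQ z)) (continuous_nrm (by fun_prop) hP)
    (continuous_nrm (by fun_prop) hQ) ?_ ?_ ?_ ?_ ?_
  · intro z
    exact nrm_of_unit _ (by simp)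
  · intro z
    exact nrm_of_unit _ (by simp)
  · intro z
    have e1 := nrm_of_unit (ρ := ρ) (hP (z, 1)) (x := mk ρ a ha) (by simp [vec_mk])
    have e2 := nrm_of_unit (ρ := ρ) (hQ (z, 0)) (x := mk ρ a ha) (by simp [vec_mk])
    exact e1.trans e2.symm
  · intro g h x y hz t
    refine nrm_smul g _ _ ?_
    show (1 - (t : ℝ)) • (g • x).vec + (t : ℝ) • a = ρ g ((1 - (t : ℝ)) • x.vec + (t : ℝ) • a)
    rw [map_add, map_smul, map_smul, hf, LinSphere.vec_smul]
  · intro g h x y hz t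
    refine nrm_smul h _ _ ?_
    show (t : ℝ) • (h • y).vec + (1 - (t : ℝ)) • a = ρ h ((t : ℝ) • y.vec + (1 - (t : ℝ)) • a)
    rw [map_add, map_smul, map_smul, hf, LinSphere.vec_smul]

/-- The planner through a path in the fixed point set. -/
theorem good_path {a : EuclideanSpace ℝ (Fin (n + 1))} (ha : ‖a‖ = 1) (hf : ∀ g, ρ g a = a)
    (c : C(I, LinSphere ρ)) (hc : ∀ (g : G) (t : I), g • c t = c t) (hc0 : (c 0).vec = -a)
    (hc1 : (c 1).vec = a) :
    Good G {z : LinSphere ρ × LinSphere ρ | inner ℝ z.1.vec a < 0 ∧ 0 < inner ℝ z.2.vec a} := by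
  set U : Set (LinSphere ρ × LinSphere ρ) :=
    {z : LinSphere ρ × LinSphere ρ | inner ℝ z.1.vec a < 0 ∧ 0 < inner ℝ z.2.vec a} with hU
  have haa : inner ℝ a a = (1 : ℝ) := by rw [real_inner_self_eq_norm_sq, ha, one_pow]
  have hin : ∀ (g : G) (x : LinSphere ρ), inner ℝ (g • x).vec a = inner ℝ x.vec a := by
    intro g x
    rw [LinSphere.vec_smul]
    conv_lhs => rw [← hf g]
    exact (ρ g).inner_map_map _ _
  have hopen : IsOpen U := by
    have k1 : Continuous fun z : LinSphere ρ × LinSphere ρ => inner ℝ z.1.vec a :=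
      (continuous_vec.comp continuous_fst).inner continuous_const
    have k2 : Continuous fun z : LinSphere ρ × LinSphere ρ => inner ℝ z.2.vec a :=
      (continuous_vec.comp continuous_snd).inner continuous_const
    exact (isOpen_lt k1 continuous_const).inter (isOpen_lt continuous_const k2)
  have h1 : ∀ z : U, z.1.1.vec ≠ -(-a) := fun z h => by
    have h2 := z.2.1
    rw [h, neg_neg, haa] at h2
    linarith
  have h2 : ∀ z : U, z.1.2.vec ≠ -a := fun z h => by
    have h2 := z.2.2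
    rw [h, inner_neg_left, haa] at h2
    linarith
  have hna : ‖-a‖ = 1 := by rw [norm_neg, ha]
  have hP : ∀ z : U × I, (1 - (z.2 : ℝ)) • z.1.1.1.vec + (z.2 : ℝ) • (-a) ≠ 0 := fun z =>
    seg_ne z.1.1.1.norm_vec hna (h1 z.1) z.2.2.1 z.2.2.2
  have hm0 : ∀ t : I, 0 ≤ max (2 * (t : ℝ) - 1) 0 := fun t => le_max_right _ _
  have hm1 : ∀ t : I, max (2 * (t : ℝ) - 1) 0 ≤ 1 := fun t =>
    max_le (by linarith [t.2.2]) (by norm_num)
  have hQ : ∀ z : U × I, (max (2 * (z.2 : ℝ) - 1) 0) • z.1.1.2.vec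
      + (1 - max (2 * (z.2 : ℝ) - 1) 0) • a ≠ 0 := fun z => by
    have h := seg_ne z.1.1.2.norm_vec ha (h2 z.1) (t := 1 - max (2 * (z.2 : ℝ) - 1) 0)
      (by linarith [hm1 z.2]) (by linarith [hm0 z.2])
    rwa [sub_sub_cancel] at h
  let d : I → I := fun t => ⟨min (2 * (t : ℝ)) 1, le_min (by linarith [t.2.1]) (by norm_num),
    min_le_right _ _⟩
  have hd : Continuous d := by
    refine Continuous.subtype_mk ?_ _
    fun_prop
  have c1 : Continuous fun z : U × I => z.1.1.1.vec := continuous_vec.comp (by fun_prop)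
  have c2 : Continuous fun z : U × I => z.1.1.2.vec := continuous_vec.comp (by fun_prop)
  have hQc : Continuous fun z : U × I =>
      if (z.2 : ℝ) ≤ 1 / 2 then c (d z.2) else nrm ρ _ (hQ z) := by
    refine Continuous.if_le (c.continuous.comp (hd.comp continuous_snd))
      (continuous_nrm (by fun_prop) hQ) (continuous_subtype_val.comp continuous_snd)
      continuous_const fun z hz => ?_
    have e1 : d z.2 = 1 := by
      apply Subtype.ext
      show min (2 * (z.2 : ℝ)) 1 = 1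
      rw [hz]
      norm_num
    rw [e1]
    refine (nrm_of_unit _ ?_).symm
    rw [hz, hc1]
    norm_num
  refine good_of (mk ρ a ha) hopen (fun g h x y hz => ⟨by rw [hin]; exact hz.1,
    by rw [hin]; exact hz.2⟩)
    (fun z => nrm ρ _ (hP z))
    (fun z => if (z.2 : ℝ) ≤ 1 / 2 then c (d z.2) else nrm ρ _ (hQ z))
    (continuous_nrm (by fun_prop) hP) hQc ?_ ?_ ?_ ?_ ?_
  · intro z
    exact nrm_of_unit _ (by simp)
  · intro z
    have e0 : ¬ ((1 : I) : ℝ) ≤ 1 / 2 := by norm_num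
    simp only
    rw [if_neg e0]
    refine nrm_of_unit _ ?_
    norm_num
  · intro z
    have e0 : ((0 : I) : ℝ) ≤ 1 / 2 := by norm_num
    have e1 : d 0 = 0 := by
      apply Subtype.ext
      show min (2 * ((0 : I) : ℝ)) 1 = 0
      norm_num
    simp only
    rw [if_pos e0, e1]
    refine nrm_of_unit _ ?_
    rw [hc0]
    simp
  · intro g h x y hz t
    refine nrm_smul g _ _ ?_
    show (1 - (t : ℝ)) • (g • x).vec + (t : ℝ) • (-a)
      = ρ g ((1 - (t : ℝ)) • x.vec + (t : ℝ) • (-a))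
    rw [map_add, map_smul, map_smul, map_neg, hf, LinSphere.vec_smul]
  · intro g h x y hz t
    by_cases ht : (t : ℝ) ≤ 1 / 2
    · simp only
      rw [if_pos ht, if_pos ht, hc]
    · simp only
      rw [if_neg ht, if_neg ht]
      refine nrm_smul h _ _ ?_
      show (max (2 * (t : ℝ) - 1) 0) • (h • y).vec + (1 - max (2 * (t : ℝ) - 1) 0) • a
        = ρ h ((max (2 * (t : ℝ) - 1) 0) • y.vec + (1 - max (2 * (t : ℝ) - 1) 0) • a)
      rw [map_add, map_smul, map_smul, hf, LinSphere.vec_smul]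

end sphere

end Lin

open Lin in
/-- Three explicit motion planners: through `e`, through `-e`, and through a path in the fixed
point set from `-e` to `e`. -/
theorem tcle_linSphere {G : Type} [Group G] {n : ℕ}
    (ρ : G →* (EuclideanSpace ℝ (Fin (n + 1)) ≃ₗᵢ[ℝ] EuclideanSpace ℝ (Fin (n + 1))))
    (h : IsPathConnected {x : LinSphere ρ | ∀ g : G, g • x = x}) : TCle G (LinSphere ρ) 2 := by
  obtain ⟨e, he, hj⟩ := h
  set a := e.vec with ha
  have hna : ‖a‖ = 1 := e.norm_vec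
  have hf : ∀ g, ρ g a = a := fun g => by
    rw [ha, ← LinSphere.vec_smul, he g]
  have hnn : ‖-a‖ = 1 := by rw [norm_neg, hna]
  have hfn : ∀ g, ρ g (-a) = -a := fun g => by rw [map_neg, hf]
  have hm : mk ρ (-a) hnn ∈ {x : LinSphere ρ | ∀ g : G, g • x = x} := fun g => by
    apply vec_inj
    rw [LinSphere.vec_smul, vec_mk, hfn]
  obtain ⟨γ, hγ⟩ := hj hm
  have hγ' : ∀ (g : G) (t : I), g • γ t = γ t := fun g t => hγ t g
  have g0 := good_via (ρ := ρ) hna hf
  have g1 := good_via (ρ := ρ) hnn hfn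
  -- `γ` goes from `e` to `-e`
  have g3 := good_path (ρ := ρ) hnn hfn γ.toContinuousMap hγ' (by
      show (γ 0).vec = - -a
      rw [γ.source, neg_neg]) (by
      show (γ 1).vec = -a
      rw [γ.target, vec_mk])
  have g2 := good_path (ρ := ρ) hna hf γ.symm.toContinuousMap (fun g t => hγ' g _) (by
      show (γ.symm 0).vec = -a
      rw [γ.symm.source, vec_mk]) (by
      show (γ.symm 1).vec = a
      rw [γ.symm.target])
  have hdis : Disjoint {z : LinSphere ρ × LinSphere ρ | inner ℝ z.1.vec a < 0 ∧ 0 < inner ℝ z.2.vec a}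
      {z : LinSphere ρ × LinSphere ρ | inner ℝ z.1.vec (-a) < 0 ∧ 0 < inner ℝ z.2.vec (-a)} := by
    rw [disjoint_left]
    rintro z ⟨h1, _⟩ ⟨h2, _⟩
    rw [inner_neg_right] at h2
    linarith
  have g4 := g2.union g3 hdis
  have haa : inner ℝ a a = (1 : ℝ) := by rw [real_inner_self_eq_norm_sq, hna, one_pow]
  have hcov : ∀ z : LinSphere ρ × LinSphere ρ,
      (z.1.vec ≠ -a ∧ z.2.vec ≠ -a) ∨ (z.1.vec ≠ - -a ∧ z.2.vec ≠ - -a) ∨
      ((inner ℝ z.1.vec a < 0 ∧ 0 < inner ℝ z.2.vec a) ∨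
        (inner ℝ z.1.vec (-a) < 0 ∧ 0 < inner ℝ z.2.vec (-a))) := by
    intro z
    have hne : a ≠ -a := by
      intro h
      rw [h, inner_neg_left] at haa
      rw [← h] at haa
      have : inner ℝ a a = (1 : ℝ) := by rw [real_inner_self_eq_norm_sq, hna, one_pow]
      linarith
    rw [neg_neg]
    by_cases h1 : z.1.vec = -a
    · by_cases h2 : z.2.vec = a
      · right; right; left
        rw [h1, h2, inner_neg_left, haa]
        norm_num
      · right; left
        refine ⟨?_, h2⟩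
        rw [h1]
        exact hne.symm
    · by_cases h2 : z.2.vec = -a
      · by_cases h3 : z.1.vec = a
        · right; right; right
          rw [h2, h3, inner_neg_right, inner_neg_neg, haa]
          norm_num
        · right; left
          refine ⟨h3, ?_⟩
          rw [h2]
          exact hne.symm
      · left
        exact ⟨h1, h2⟩
  refine ⟨![{z | z.1.vec ≠ -a ∧ z.2.vec ≠ -a}, {z | z.1.vec ≠ - -a ∧ z.2.vec ≠ - -a},
    {z | inner ℝ z.1.vec a < 0 ∧ 0 < inner ℝ z.2.vec a} ∪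
      {z | inner ℝ z.1.vec (-a) < 0 ∧ 0 < inner ℝ z.2.vec (-a)}], ?_, ?_, ?_, ?_⟩
  · intro i
    fin_cases i
    · exact g0.1
    · exact g1.1
    · exact g4.1
  · intro i
    fin_cases i
    · exact g0.2.1
    · exact g1.2.1
    · exact g4.2.1
  · rw [eq_univ_iff_forall]
    intro z
    rw [mem_iUnion]
    rcases hcov z with h | h | h
    · exact ⟨0, h⟩
    · exact ⟨1, h⟩
    · exact ⟨2, h⟩
  · intro i
    fin_cases i
    · exact g0.2.2
    · exact g1.2.2
    · exact g4.2.2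

end Pool.Agent.TC
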