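import Pool.Agent.Lib.TC.MainD

/-!
# Assembly: Smith theory for the fixed point set of a smooth action
-/

namespace Pool.Agent.TC.MA2

open CubeHom
open scoped Manifold ContDiff ContinuousMap

/-- Transport of the ENR structure. -/
theorem exists_enr {p : ℕ} [Fact p.Prime] {n : ℕ} [MulAction (Cp p) (Sph n)]
    (H : Halo (Cp p) (Sph n)) : Nonempty (ENR (Fx (Cp p) (Sph n))) := by
  obtain ⟨W, hW, r, hr⟩ := exists_retract_fixed H
  exact ⟨{
    n := n + 1
    ι := ⟨fun x => ((x : Sph n) : EuclideanSpace ℝ (Fin (n + 1))), by fun_prop⟩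
    W := W
    openW := hW
    mem := fun x => (hr x).1
    r := r
    r_ι := fun x => (hr x).2 }⟩

theorem fgh_of_enr {F : Type} [TopologicalSpace F] [CompactSpace F] (E : ENR F) (R : Type)
    [CommRing R] [IsNoetherianRing R] (k : ℤ) : TCH.FGH R k (Set.univ : Set F) ∅ :=
  TCH.FGH.retract E.ι E.openW E.mem E.r E.r_ι k

/-- No torsion below the dimension. -/
theorem no_torsion {p : ℕ} [hp : Fact p.Prime] {F : Type} [TopologicalSpace F] {d : ℕ}
    (hd : 1 ≤ d) (hf : ∀ k, TCH.FGH ℤ k (Set.univ : Set F) ∅)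
    (h0 : ∀ j : ℤ, 1 ≤ j → j < d → ∀ c ∈ Z (ZMod p) j (Set.univ : Set F) ∅,
      Bd (ZMod p) j Set.univ ∅ c) (y : Ch ℤ F) (hy : y ∈ Z ℤ ((d : ℤ) - 1) (Set.univ : Set F) ∅)
    (h : Bd ℤ ((d : ℤ) - 1) Set.univ ∅ ((p : ℤ) • y)) : Bd ℤ ((d : ℤ) - 1) Set.univ ∅ y := by
  rcases Nat.lt_or_ge 1 d with h1 | h1
  · obtain ⟨N, hN, hb⟩ := TCH.prime_to (p := p) (hf ((d : ℤ) - 1))
      (h0 _ (by omega) (by omega))
    have hcop : IsCoprime (p : ℤ) N := by
        exact (Nat.prime_iff_prime_int.1 hp.out).coprime_iff_not_dvd.2 hN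
    obtain ⟨a, b, hab⟩ := hcop
    have h2 := (h.smul a).add ((hb y hy).smul b)
    rwa [smul_smul, smul_smul, ← add_smul, hab, one_smul] at h2
  · obtain rfl : d = 1 := by omega
    have e : (((1 : ℕ) : ℤ) - 1) = 0 := by norm_num
    rw [e] at hy h ⊢
    exact TCH.zero_torsionfree (by exact_mod_cast hp.out.ne_zero) hy h

/-- Smith theory for the fixed point set of a smooth action. -/
theorem _root_.Pool.Agent.TC.fixDat_of_smooth {p : ℕ} [Fact p.Prime] {n : ℕ} (hn : 1 ≤ n) [MulAction (Cp p) (Sph n)]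
    (hs : ∀ g : Cp p, ContMDiff (𝓡 n) (𝓡 n) ∞ (fun x : Sph n => g • x))
    (hF : IsPathConnected {x : Sph n | ∀ g : Cp p, g • x = x}) :
    (∀ (x : Sph n) (g : Cp p), g • x = x) ∨
      ∃ d : ℕ, d < n ∧ FixDat p (Fx (Cp p) (Sph n)) d := by
  have gm := gman_of_smooth hs
  have hc := gm.cont
  have hps : PathConnectedSpace (Sph n) := sphere_connected hn
  have hpc : PathConnectedSpace (Fx (Cp p) (Sph n)) := isPathConnected_iff_pathConnectedSpace.1 hF
  obtain ⟨d, hdn, hloc, htriv⟩ := locEuc_fixed gm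
  rcases Nat.lt_or_ge d n with hd | hd
  swap
  · exact Or.inl (htriv (by omega))
  refine Or.inr ⟨d, hd, ?_⟩
  have hcl : IsClosed {x : Sph n | ∀ g : Cp p, g • x = x} := by
    have : {x : Sph n | ∀ g : Cp p, g • x = x} = ⋂ g : Cp p, {x : Sph n | g • x = x} := by
      ext x
      simp
    rw [this]
    exact isClosed_iInter fun g => isClosed_eq (hc g) continuous_id
  have hcomp : CompactSpace (Fx (Cp p) (Sph n)) := isCompact_iff_compactSpace.1 hcl.isCompact
  obtain ⟨H⟩ := gm.halo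
  obtain ⟨E⟩ := exists_enr H
  have hset : TCH.fixS (TCH.gen hc) = {x : Sph n | ∀ g : Cp p, g • x = x} :=
    Set.ext (TCH.mem_fixS_gen hc)
  have hsm := TCH.smith_main (p := p) (d := d) hn (TCH.gen_per hc) (TCH.hasHalo_gen hc H)
    (by rw [hset]; exact hloc) hd (by rw [hset]; exact hF)
    (fun x hx => (gm.chart x ((TCH.mem_fixS_gen hc x).1 hx)).elim fun L => TCH.linChart_gen hc L)
  rw [hset] at hsm
  obtain ⟨hd1, hz, ζ, hζ, -, hne⟩ := hsm
  have hz' : ∀ j : ℤ, 1 ≤ j → j < d → ∀ c ∈ Z (ZMod p) j (Set.univ : Set (Fx (Cp p) (Sph n))) ∅,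
      Bd (ZMod p) j Set.univ ∅ c := fun j h1 h2 c hc' => hz j h1 h2.ne c hc'
  exact {
    t2 := inferInstance
    compact := hcomp
    pc := hpc
    pos := hd1
    loc := hloc
    enr := ⟨E⟩
    hzp := by
      intro j h1 h2 c hc'
      rw [TCH.top_Z] at hc'
      rw [TCH.top_Bd]
      exact hz' j h1 h2 c hc'
    cyc := TCH.exists_fundamental (X := Fx (Cp p) (Sph n)) (p := p) hloc hζ hne
      (no_torsion hd1 (fgh_of_enr E ℤ) hz') }

end Pool.Agent.TC.MA2
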