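import Pool.Agent.Lib.TC.Main3

/-!
# Assembly: the fixed point set is a homotopy sphere
-/

namespace Pool.Agent.TC

open CubeHom
open scoped Manifold ContDiff ContinuousMap

/-- The relative cocycle dual to the diagonal, for all fields. -/
theorem fix_mu {p : ℕ} [Fact p.Prime] {F : Type} [TopologicalSpace F] {d : ℕ}
    (D : FixDat p F d) (k : Type) [Field k] :
    ∃ (μ : C(Cb, F × F) → k) (ξ : Ch k F), (offD F).Coc d μ ∧
      ξ ∈ (CS.top F).Z k (d : ℤ) ∧ ∀ v : C(Cb, F), IsCube 0 v →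
        Finsupp.linearCombination k μ (cr 0 (Finsupp.single v 1) ξ) = 1 := by
  have := D.t2
  have := D.compact
  have := D.pc
  obtain ⟨ξ, hξ, hg⟩ := D.cyc
  have h1 : TCH.chMap (Int.castRingHom k) ξ ∈ CubeHom.Z k (d : ℤ) (Set.univ : Set F) ∅ :=
    TCH.chMap_mem_Z _ hξ
  have h2 : LocGen d (TCH.chMap (Int.castRingHom k) ξ) :=
    TCH.LocGen.chMap _ D.loc hξ hg
  obtain ⟨μ, hμ, hv⟩ := TCH.exists_mu_coc D.loc h1 h2
  refine ⟨μ, TCH.chMap (Int.castRingHom k) ξ, hμ, ?_, hv⟩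
  rw [TCH.top_Z]
  exact h1

/-- The fundamental group of the fixed point set. -/
theorem fix_simply {p : ℕ} [Fact p.Prime] {F : Type} [TopologicalSpace F] {d : ℕ}
    (D : FixDat p F d) (hTC : TC0le F 2) :
    (3 ≤ d → SimplyConnectedSpace F) ∧ ∀ (φ : EuclideanSpace ℝ (Fin d) → F),
      Topology.IsOpenEmbedding φ → SimplyConnectedSpace (Co φ) := by
  have := D.t2
  have := D.compact
  have := D.pc
  obtain ⟨hF⟩ := D.enr
  have hhigh : 3 ≤ d → SimplyConnectedSpace F := fun hd3 =>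
    simplyConnected_high (p := p) hF D.loc hd3 hTC (fun k _ => fix_mu D k)
      (D.hzp 1 le_rfl (by omega))
  refine ⟨hhigh, fun φ hφ => ?_⟩
  by_cases hd3 : 3 ≤ d
  · have := hhigh hd3
    exact simplyConnected_co hd3 φ hφ
  · obtain ⟨hN, hp⟩ := compl_point D (by omega) (φ 0)
    exact simplyConnected_low (p := p) hF D.loc D.pos (by omega) φ hφ hN (fun k _ => fix_mu D k) hp

/-- A chart. -/
theorem exists_chart {F : Type} [TopologicalSpace F] {d : ℕ} (hd : LocEuc d F) (x : F) :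
    ∃ φ : EuclideanSpace ℝ (Fin d) → F, Topology.IsOpenEmbedding φ := by
  obtain ⟨S, hS, hx, ⟨e⟩⟩ := hd x
  let a : EuclideanSpace ℝ (Fin d) ≃ₜ (Fin d → ℝ) := (EuclideanSpace.equiv (Fin d) ℝ).toHomeomorph
  exact ⟨fun v => (e.symm (a v) : F),
    (hS.isOpenEmbedding_subtypeVal.comp e.symm.isOpenEmbedding).comp a.isOpenEmbedding⟩

/-- An embedding in a Euclidean space. -/
theorem exists_emb {F : Type} [TopologicalSpace F] [CompactSpace F] (hF : ENR F) :
    ∃ (N : ℕ) (e : F → (Fin N → ℝ)), Topology.IsEmbedding e := by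
  have hinj : Function.Injective hF.ι := by
    intro x y hxy
    have h : (⟨hF.ι x, hF.mem x⟩ : hF.W) = ⟨hF.ι y, hF.mem y⟩ := Subtype.ext hxy
    rw [← hF.r_ι x, ← hF.r_ι y, h]
  let a : EuclideanSpace ℝ (Fin hF.n) ≃ₜ (Fin hF.n → ℝ) :=
    (EuclideanSpace.equiv (Fin hF.n) ℝ).toHomeomorph
  exact ⟨hF.n, fun x => a (hF.ι x),
    a.isEmbedding.comp (hF.ι.continuous.isClosedEmbedding hinj).isEmbedding⟩

/-- Section 12: `F` is a homotopy sphere. -/
theorem fix_sphere {p : ℕ} [Fact p.Prime] {F : Type} [TopologicalSpace F] {d : ℕ}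
    (D : FixDat p F d) (hTC : TC0le F 2)
    (hwu : p ≠ 2 → d = 5 → SimplyConnectedSpace F → (CS.top F).Hz (ZMod 2) 4 →
      SqZ (CS.top F) 3) : Nonempty (F ≃ₕ Sph d) := by
  have := D.t2
  have := D.compact
  have := D.pc
  obtain ⟨hF⟩ := D.enr
  obtain ⟨h1, h2⟩ := fix_simply D hTC
  obtain ⟨x⟩ := (inferInstance : Nonempty F)
  obtain ⟨φ, hφ⟩ := exists_chart D.loc x
  obtain ⟨N, e, he⟩ := exists_emb hF
  have := h2 φ hφ
  have hz := fun j a b => fix_acyclic D hTC h1 hwu j a b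
  exact sphere_of_contractible_co D.pos φ hφ
    (contractible_co D.pos D.loc φ hφ e he (acyclic_co D hz φ hφ))

end Pool.Agent.TC
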