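import Pool.Agent.Lib.TC.MainD

/-!
# Assembly: the equivariant homotopy equivalence
-/

namespace Pool.Agent.TC.MA6

open CubeHom
open scoped Manifold ContDiff ContinuousMap

section general

variable {A B C' : Type} [TopologicalSpace A] [TopologicalSpace B] [TopologicalSpace C']

theorem bd_homotopic {R : Type} [CommRing R] {f g : C(A, B)} (h : f.Homotopic g) {k : ℤ}
    {c : Ch R A} (hc : c ∈ Z R k (Set.univ : Set A) ∅) :
    Bd R k Set.univ (∅ : Set B) (push f c - push g c) := by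
  obtain ⟨H⟩ := h.symm
  have h1 := Bd_homotopy (R := R) (H := (⟨fun q => H q, H.continuous⟩ : C(I × A, B)))
    (U := Set.univ) (A := ∅) (V := Set.univ) (A' := ∅)
    (fun _ _ _ => Set.mem_univ _) (fun _ _ hx => hx.elim) hc
  have e1 : atTime (⟨fun q => H q, H.continuous⟩ : C(I × A, B)) 1 = f := by
    ext x
    exact H.apply_one x
  have e0 : atTime (⟨fun q => H q, H.continuous⟩ : C(I × A, B)) 0 = g := by
    ext x
    exact H.apply_zero x
  rwa [e1, e0] at h1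

/-- Homotopy equivalences are injective on homology. -/
theorem he_inj {R : Type} [CommRing R] {f : C(A, B)} (hf : IsHE f) {k : ℤ}
    {c : Ch R A} (hc : c ∈ Z R k (Set.univ : Set A) ∅)
    (h : Bd R k Set.univ (∅ : Set B) (push f c)) : Bd R k Set.univ (∅ : Set A) c := by
  obtain ⟨g, hg, -⟩ := hf
  have h1 := bd_homotopic (R := R) hg hc
  have h2 := Bd.push (f := g) (V := Set.univ) (A' := (∅ : Set A))
    (fun _ _ => Set.mem_univ _) (fun _ hx => hx.elim) h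
  rw [push_id, ← push_push] at h1
  have h3 := h2.sub h1
  rwa [sub_sub_cancel] at h3

theorem isHE_comp {g : C(B, C')} {f : C(A, B)} (hg : IsHE g) (hf : IsHE f) :
    IsHE (g.comp f) := by
  obtain ⟨g', h1, h2⟩ := hg
  obtain ⟨f', h3, h4⟩ := hf
  refine ⟨f'.comp g', ?_, ?_⟩
  · have h5 : ((f'.comp (g'.comp g)).comp f).Homotopic ((f'.comp (ContinuousMap.id B)).comp f) :=
      ((ContinuousMap.Homotopic.refl f').comp h1).comp (ContinuousMap.Homotopic.refl f)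
    exact h5.trans h3
  · have h5 : ((g.comp (f.comp f')).comp g').Homotopic
        ((g.comp (ContinuousMap.id B)).comp g') :=
      ((ContinuousMap.Homotopic.refl g).comp h4).comp (ContinuousMap.Homotopic.refl g')
    exact h5.trans h2

theorem isHE_homeo (e : A ≃ₜ B) : IsHE (e : C(A, B)) := by
  refine ⟨(e.symm : C(B, A)), ?_, ?_⟩
  · have : ((e.symm : C(B, A)).comp (e : C(A, B))) = ContinuousMap.id A := by
      ext x
      exact e.symm_apply_apply x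
    rw [this]
  · have : ((e : C(A, B)).comp (e.symm : C(B, A))) = ContinuousMap.id B := by
      ext x
      exact e.apply_symm_apply x
    rw [this]

theorem isHE_equiv (e : A ≃ₕ B) : IsHE e.toFun := ⟨e.invFun, e.left_inv, e.right_inv⟩

theorem locEuc_homeo (e : A ≃ₜ B) {d : ℕ} (h : LocEuc d B) : LocEuc d A := by
  intro x
  obtain ⟨S, hS, hx, ⟨φ⟩⟩ := h (e x)
  exact ⟨e ⁻¹' S, hS.preimage e.continuous, hx, ⟨(e.sets rfl).trans φ⟩⟩

end general

/-- `smith_map` for sets equal to the fixed point sets. -/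
theorem smith_map' {p n d d' : ℕ} [hp : Fact p.Prime] (hn : 1 ≤ n) {g h : C(Sph n, Sph n)}
    (hg : ∀ x, (g^[p]) x = x) (hh : ∀ x, (h^[p]) x = x) (Hg : TCH.HasHalo g) (Hh : TCH.HasHalo h)
    {S T : Set (Sph n)} (hS : TCH.fixS g = S) (hT : TCH.fixS h = T)
    (hd : LocEuc d S) (hdn : d < n) (hd' : LocEuc d' T) (hdn' : d' < n)
    (hF : IsPathConnected S) (hF' : IsPathConnected T) (Φ : C(Sph n, Sph n))
    (hΦ : ∀ x, Φ (g x) = h (Φ x)) (ΦF : C(S, T)) (hΦF : ∀ x, (ΦF x : Sph n) = Φ x)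
    (hinj : ∀ j : ℤ, 1 ≤ j → j < n → ∀ f ∈ Z (ZMod p) j (Set.univ : Set S) ∅,
      Bd (ZMod p) j Set.univ ∅ (push ΦF f) → Bd (ZMod p) j Set.univ ∅ f)
    {z : Ch (ZMod p) (Sph n)} (hz : z ∈ Z (ZMod p) n Set.univ ∅)
    (hne : ¬ Bd (ZMod p) n Set.univ ∅ z) : ¬ Bd (ZMod p) n Set.univ ∅ (push Φ z) := by
  subst hS hT
  exact TCH.smith_map hn hg hh Hg Hh hd hdn hd' hdn' hF hF' Φ hΦ ΦF hΦF hinj hz hne

variable {p : ℕ} [hp : Fact p.Prime] {n d : ℕ} [MulAction (Cp p) (Sph n)]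

/-- The degree is prime to `p`. -/
theorem not_dvd (hn : 2 ≤ n) (hd : 1 ≤ d) (hdn : d < n) (gm : GMan (Cp p) (Sph n) n)
    (hloc : LocEuc d (Fx (Cp p) (Sph n))) (hpc : PathConnectedSpace (Fx (Cp p) (Sph n)))
    {ρ : Cp p →* (EuclideanSpace ℝ (Fin (n + 1)) ≃ₗᵢ[ℝ] EuclideanSpace ℝ (Fin (n + 1)))}
    (e : Fx (Cp p) (LinSphere ρ) ≃ₜ Sph d) {z : Ch ℤ (Sph n)} (hz : FCyc n z)
    (Φ : C(Sph n, LinSphere ρ)) (hΦ : Equi (Cp p) Φ) (hHE : IsHE (fixMap Φ hΦ)) {D : ℤ}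
    (hD : Dg z (und Φ) D) : ¬ (p : ℤ) ∣ D := by
  intro hdvd
  have gm' := gman_linSphere ρ
  have hc := gm.cont
  have hc' := gm'.cont
  obtain ⟨H⟩ := gm.halo
  obtain ⟨H'⟩ := gm'.halo
  have hps : PathConnectedSpace (Sph n) := sphere_connected (by omega)
  have hpd : PathConnectedSpace (Sph d) := sphere_connected hd
  have hpe : PathConnectedSpace (Fx (Cp p) (LinSphere ρ)) :=
    e.symm.surjective.pathConnectedSpace e.symm.continuous
  have hzp : TCH.chMap (Int.castRingHom (ZMod p)) z ∈ Z (ZMod p) n (Set.univ : Set (Sph n)) ∅ :=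
    TCH.chMap_mem_Z _ hz.mem
  have hloc' : LocEuc n (Sph n) := locEuc_sphere
  have hne : ¬ Bd (ZMod p) n Set.univ (∅ : Set (Sph n))
      (TCH.chMap (Int.castRingHom (ZMod p)) z) := by
    intro hb
    obtain ⟨x⟩ : Nonempty (Sph n) := inferInstance
    have h1 := TCH.fund_free (R := ZMod p) (r := 1) (x := x) hloc' hzp
      (TCH.LocGen.chMap _ hloc' hz.mem hz.loc)
      (by rw [one_smul]; exact hb.mono subset_rfl (Set.empty_subset _))
    exact one_ne_zero h1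
  have h2 := smith_map' (p := p) (n := n) (d := d) (d' := d) (by omega) (g := TCH.gen hc)
    (h := TCH.gen (X := LinSphere ρ) hc') (TCH.gen_per hc) (TCH.gen_per (X := LinSphere ρ) hc')
    (TCH.hasHalo_gen hc H) (TCH.hasHalo_gen (X := LinSphere ρ) hc' H')
    (S := {x : Sph n | ∀ a : Cp p, a • x = x})
    (T := {x : LinSphere ρ | ∀ a : Cp p, a • x = x})
    (Set.ext (TCH.mem_fixS_gen hc)) (Set.ext (TCH.mem_fixS_gen (X := LinSphere ρ) hc'))
    hloc hdn (locEuc_homeo e locEuc_sphere) hdn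
    (isPathConnected_iff_pathConnectedSpace.2 hpc)
    (isPathConnected_iff_pathConnectedSpace.2 hpe) (und Φ)
    (TCH.equi_gen (X := Sph n) (Y := LinSphere ρ) hc hc' hΦ) (fixMap Φ hΦ) (fun _ => rfl)
    (fun j _ _ f hf hb => he_inj hHE hf hb) hzp hne
  refine h2 ?_
  have h3 := TCH.chMap_Bd (Int.castRingHom (ZMod p)) hD
  rw [map_sub, TCH.chMap_push, TCH.chMap_smul] at h3
  have h4 : (Int.castRingHom (ZMod p)) D = 0 := by
    rw [eq_intCast]
    exact (ZMod.intCast_zmod_eq_zero_iff_dvd D p).2 hdvd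
  rwa [h4, zero_smul, sub_zero] at h3

/-- From a degree congruent to one modulo `p`. -/
theorem core (hn : 2 ≤ n) (hdn : d < n) (gm : GMan (Cp p) (Sph n) n)
    (hloc : LocEuc d (Fx (Cp p) (Sph n)))
    {ρ : Cp p →* (EuclideanSpace ℝ (Fin (n + 1)) ≃ₗᵢ[ℝ] EuclideanSpace ℝ (Fin (n + 1)))}
    {z : Ch ℤ (Sph n)} (hz : FCyc n z)
    (Φ : C(Sph n, LinSphere ρ)) (hΦ : Equi (Cp p) Φ) (hHE : IsHE (fixMap Φ hΦ)) {D : ℤ}
    (hD : Dg z (und Φ) D) (hdvd : (p : ℤ) ∣ 1 - D) : GHEquiv (Cp p) (Sph n) (LinSphere ρ) := by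
  have gm' := gman_linSphere ρ
  obtain ⟨H⟩ := gm.halo
  obtain ⟨H'⟩ := gm'.halo
  obtain ⟨m, hm⟩ := hdvd
  have hD0 : D ≠ 0 := by
    rintro rfl
    rw [sub_zero] at hm
    have : (p : ℤ) ∣ 1 := ⟨m, hm⟩
    exact (Nat.prime_iff_prime_int.1 hp.out).not_dvd_one this
  have hps : PathConnectedSpace (Sph n) := sphere_connected (by omega)
  have hfree : ∃ (x : Sph n) (g : Cp p), g • x ≠ x := by
    by_contra hcon
    have hall : ∀ (x : Sph n) (g : Cp p), g • x = x := by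
      intro x g
      by_contra h
      exact hcon ⟨x, g, h⟩
    have e : Sph n ≃ₜ Fx (Cp p) (Sph n) :=
      { toFun := fun x => ⟨x, hall x⟩
        invFun := fun x => x.1
        left_inv := fun _ => rfl
        right_inv := fun _ => rfl
        continuous_toFun := by fun_prop
        continuous_invFun := by fun_prop }
    have h1 : LocEuc d (Sph n) := locEuc_homeo e hloc
    have h2 := dim_unique h1 (locEuc_sphere (n := n))
    omega
  obtain ⟨Φ', hE, hfix, hD'⟩ := modify hn gm hfree hz Φ hΦ hD hD0 m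
  have e1 : D + p * m = 1 := by
    rw [← hm]
    ring
  rw [e1] at hD'
  have h1 : IsHE Φ' := isHE_of_dg_one hz hn hD'
  have h2 : fixMap Φ' hE = fixMap Φ hΦ := by
    ext x : 1
    exact Subtype.ext (hfix x)
  have := gm.t2
  have := gm.compact
  have := gm'.t2
  have := gm'.compact
  exact dold gm.cont gm'.cont H H' Φ' hE h1 (by rw [h2]; exact hHE)

omit [MulAction (Cp p) (Sph n)] in
/-- An inverse modulo `p`. -/
theorem exists_inv {D : ℤ} (h : ¬ (p : ℤ) ∣ D) : ∃ b : ℕ, ¬ p ∣ b ∧ (p : ℤ) ∣ 1 - b * D := by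
  have h1 : (D : ZMod p) ≠ 0 := by
    intro h0
    exact h ((ZMod.intCast_zmod_eq_zero_iff_dvd D p).1 h0)
  refine ⟨((D : ZMod p)⁻¹).val, ?_, ?_⟩
  · intro h2
    have h3 : (((D : ZMod p)⁻¹).val : ZMod p) = 0 := (ZMod.natCast_eq_zero_iff _ _).2 h2
    rw [ZMod.natCast_zmod_val] at h3
    exact inv_ne_zero h1 h3
  · rw [← ZMod.intCast_zmod_eq_zero_iff_dvd]
    push_cast
    rw [ZMod.natCast_zmod_val, inv_mul_cancel₀ h1, sub_self]

/-- Section 13: the equivariant homotopy equivalence. -/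
theorem _root_.Pool.Agent.TC.linear_of_sphere {p : ℕ} [Fact p.Prime] {n d : ℕ} [MulAction (Cp p) (Sph n)]
    (hs : ∀ g : Cp p, ContMDiff (𝓡 n) (𝓡 n) ∞ (fun x : Sph n => g • x)) (hdn : d < n)
    (D : FixDat p (Fx (Cp p) (Sph n)) d) (h : Nonempty (Fx (Cp p) (Sph n) ≃ₕ Sph d)) :
    ∃ ρ : Cp p →* (EuclideanSpace ℝ (Fin (n + 1)) ≃ₗᵢ[ℝ] EuclideanSpace ℝ (Fin (n + 1))),
      GHEquiv (Cp p) (Sph n) (LinSphere ρ) := by
  have hd := D.pos
  have hn : 2 ≤ n := by omega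
  have gm := gman_of_smooth hs
  obtain ⟨H⟩ := gm.halo
  obtain ⟨h⟩ := h
  obtain ⟨z, hz⟩ := exists_fcyc (n := n) (by omega)
  have hpc := D.pc
  -- the first map
  have step : ∀ (ρ : Cp p →* (EuclideanSpace ℝ (Fin (n + 1)) ≃ₗᵢ[ℝ]
      EuclideanSpace ℝ (Fin (n + 1)))) (e : Fx (Cp p) (LinSphere ρ) ≃ₜ Sph d),
      ∃ (Φ : C(Sph n, LinSphere ρ)) (hΦ : Equi (Cp p) Φ) (D0 : ℤ), IsHE (fixMap Φ hΦ) ∧
        Dg z (und Φ) D0 ∧ ¬ (p : ℤ) ∣ D0 := by
    intro ρ e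
    obtain ⟨Φ, hΦ, hfix⟩ := gext gm H ((e.symm : C(Sph d, Fx (Cp p) (LinSphere ρ))).comp h.toFun)
    obtain ⟨D0, hD0⟩ := exists_dg hz (und Φ)
    have e1 : fixMap Φ hΦ = (e.symm : C(Sph d, Fx (Cp p) (LinSphere ρ))).comp h.toFun := by
      ext x : 1
      exact Subtype.ext (hfix x)
    have h1 : IsHE (fixMap Φ hΦ) := by
      rw [e1]
      exact isHE_comp (isHE_homeo e.symm) (isHE_equiv h)
    exact ⟨Φ, hΦ, D0, h1, hD0, not_dvd hn hd hdn gm D.loc hpc e hz Φ hΦ h1 hD0⟩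
  by_cases hp2 : p = 2
  · subst hp2
    obtain ⟨ρ, ⟨e⟩⟩ := exists_rep_two hdn
    obtain ⟨Φ, hΦ, D0, h1, h2, h3⟩ := step ρ e
    refine ⟨ρ, core hn hdn gm D.loc hz Φ hΦ h1 h2 ?_⟩
    push_cast at h3 ⊢
    omega
  · have hne : Nonempty (Fx (Cp p) (Sph n)) := inferInstance
    obtain ⟨ρ, ⟨e⟩, hb⟩ := exists_rep_odd hp2 hn hdn (even_codim hp2 gm D.loc)
    obtain ⟨Φ, hΦ, D0, h1, h2, h3⟩ := step ρ e
    obtain ⟨b, hb1, hb2⟩ := exists_inv h3
    obtain ⟨ρ', Θ, hΘ, h4, h5⟩ := hb b hb1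
    have hE : Equi (Cp p) (Θ.comp Φ) := by
      intro g x
      change Θ (Φ (g • x)) = g • Θ (Φ x)
      rw [hΦ g x, hΘ g (Φ x)]
    refine ⟨ρ', core hn hdn gm D.loc hz (Θ.comp Φ) hE ?_ (D := b * D0) ?_ hb2⟩
    · have e1 : fixMap (Θ.comp Φ) hE = (fixMap Θ hΘ).comp (fixMap Φ hΦ) := rfl
      rw [e1]
      exact isHE_comp h4 h1
    · exact dg_comp hz (h5 z hz) h2

end Pool.Agent.TC.MA6
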