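import Pool.Agent.Lib.TC.Main1
import Pool.Agent.Lib.TC.Main2
import Pool.Agent.Lib.TC.Main5
import Pool.Agent.Lib.TC.Main6

/-!
# Assembly
-/

namespace Pool.Agent.TC

open CubeHom
open scoped Manifold ContDiff ContinuousMap

/-- The vanishing of `Sq^2` in dimension five (section 10.5). -/
def WuStatement : Prop :=
  ∀ (p : ℕ) [Fact p.Prime], p ≠ 2 → ∀ (n : ℕ) [MulAction (Cp p) (Sph n)],
    (∀ g : Cp p, ContMDiff (𝓡 n) (𝓡 n) ∞ (fun x : Sph n => g • x)) →
    FixDat p (Fx (Cp p) (Sph n)) 5 → SimplyConnectedSpace (Fx (Cp p) (Sph n)) →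
    (CS.top (Fx (Cp p) (Sph n))).Hz (ZMod 2) 4 → SqZ (CS.top (Fx (Cp p) (Sph n))) 3

/-- The main theorem, from the vanishing of `Sq^2`. -/
theorem main_of_wu (hw : WuStatement) : MainStatement := by
  intro p hp n inst hs hF
  refine ⟨fun h => itc_of_linear hF h, fun h => ?_⟩
  rcases Nat.eq_zero_or_pos n with rfl | hn
  · exact (zero_void hF).elim
  · rcases fixDat_of_smooth hn hs hF with h1 | ⟨d, hdn, D⟩
    · exact linear_of_trivial h1
    · have hTC : TC0le (Fx (Cp p) (Sph n)) 2 :=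
        tc0le_fixed (itc_le_iff.1 (by exact_mod_cast h))
      refine linear_of_sphere hs hdn D (fix_sphere D hTC ?_)
      intro hp2 hd5 hsc hz
      subst hd5
      exact hw p hp2 n hs D hsc hz

end Pool.Agent.TC
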