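import Pool.Agent.Lib.TC.MainD

/-!
# Assembly: the easy direction, trivial actions, dimension zero
-/

namespace Pool.Agent.TC.MA1

open CubeHom Pool.Agent.TC
open scoped Manifold ContDiff ContinuousMap

theorem isPathConnected_fixed {G X Y : Type} [Group G] [TopologicalSpace X] [TopologicalSpace Y]
    [MulAction G X] [MulAction G Y] (hF : IsPathConnected {x : X | ∀ g : G, g • x = x})
    (h : GHEquiv G X Y) : IsPathConnected {y : Y | ∀ g : G, g • y = y} := by
  obtain ⟨f, k, hf, hk, -, H, H0, H1, H2⟩ := h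
  obtain ⟨x₀, hx₀, hx⟩ := hF
  refine ⟨f x₀, fun g => by rw [← hf g, hx₀ g], ?_⟩
  intro y hy
  have h1 : ∀ g : G, g • k y = k y := fun g => by rw [← hk g, hy g]
  have h2 : JoinedIn {y : Y | ∀ g : G, g • y = y} (f x₀) (f (k y)) := by
    obtain ⟨γ, hγ⟩ := hx h1
    refine ⟨γ.map f.continuous, fun t g => ?_⟩
    change g • f (γ t) = f (γ t)
    rw [← hf g, hγ t g]
  refine h2.trans ?_
  let γ : Path (f (k y)) y :=
    { toFun := fun t => H (t, y)
      continuous_toFun := by fun_prop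
      source' := H0 y
      target' := H1 y }
  refine ⟨γ, fun t g => ?_⟩
  change g • H (t, y) = H (t, y)
  rw [← H2 g, hy g]

/-- The easy direction. -/
theorem _root_.Pool.Agent.TC.itc_of_linear {p : ℕ} [Fact p.Prime] {n : ℕ} [MulAction (Cp p) (Sph n)]
    (hF : IsPathConnected {x : Sph n | ∀ g : Cp p, g • x = x})
    (h : ∃ ρ : Cp p →* (EuclideanSpace ℝ (Fin (n + 1)) ≃ₗᵢ[ℝ] EuclideanSpace ℝ (Fin (n + 1))),
      GHEquiv (Cp p) (Sph n) (LinSphere ρ)) : ITC (Cp p) (Sph n) ≤ 2 := by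
  obtain ⟨ρ, h⟩ := h
  have h1 := tcle_linSphere ρ (isPathConnected_fixed hF h)
  obtain ⟨f, k, hf, hk, hH, -⟩ := h
  have h2 : TCle (Cp p) (Sph n) 2 := TCle.dominated f k hf hk hH h1
  exact itc_le_iff.2 h2

/-- The case of trivial actions. -/
theorem _root_.Pool.Agent.TC.linear_of_trivial {p : ℕ} [Fact p.Prime] {n : ℕ} [MulAction (Cp p) (Sph n)]
    (h : ∀ (x : Sph n) (g : Cp p), g • x = x) :
    ∃ ρ : Cp p →* (EuclideanSpace ℝ (Fin (n + 1)) ≃ₗᵢ[ℝ] EuclideanSpace ℝ (Fin (n + 1))),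
      GHEquiv (Cp p) (Sph n) (LinSphere ρ) := by
  let ρ : Cp p →* (EuclideanSpace ℝ (Fin (n + 1)) ≃ₗᵢ[ℝ] EuclideanSpace ℝ (Fin (n + 1))) := 1
  have hρ : ∀ (g : Cp p) (v : LinSphere ρ), g • v = v := fun g v => Subtype.ext rfl
  let f : C(Sph n, LinSphere ρ) := ⟨fun x => x, continuous_id⟩
  let k : C(LinSphere ρ, Sph n) := ⟨fun x => x, continuous_id⟩
  have e1 : k.comp f = ContinuousMap.id (Sph n) := rfl
  have e2 : f.comp k = ContinuousMap.id (LinSphere ρ) := rfl
  refine ⟨ρ, f, k, ?_, ?_, ?_, ?_⟩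
  · intro g x
    rw [h x g, hρ]
  · intro g x
    rw [h, hρ]
  · rw [e1]
    exact ⟨⟨fun q => q.2, continuous_snd⟩, fun _ => rfl, fun _ => rfl, fun _ _ _ => rfl⟩
  · rw [e2]
    exact ⟨⟨fun q => q.2, continuous_snd⟩, fun _ => rfl, fun _ => rfl, fun _ _ _ => rfl⟩

theorem sph_zero_abs (x : Sph 0) : |(x : EuclideanSpace ℝ (Fin 1)) 0| = 1 := by
  have h : ‖(x : EuclideanSpace ℝ (Fin 1))‖ = 1 := by
    have := x.2
    rwa [Metric.mem_sphere, dist_zero_right] at this
  rw [EuclideanSpace.norm_eq] at h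
  simpa [Real.sqrt_sq_eq_abs] using h

/-- The case `n = 0` is void. -/
theorem _root_.Pool.Agent.TC.zero_void {p : ℕ} [Fact p.Prime] [MulAction (Cp p) (Sph 0)]
    (hF : IsPathConnected {x : Sph 0 | ∀ g : Cp p, g • x = x}) : False := by
  obtain ⟨e, he⟩ := hF.nonempty
  have hne : ∀ x : Sph 0, -x ≠ x := by
    intro x hx
    have h1 := congrArg (fun y : Sph 0 => (y : EuclideanSpace ℝ (Fin 1)) 0) hx
    have h2 := sph_zero_abs x
    change -((x : EuclideanSpace ℝ (Fin 1)) 0) = (x : EuclideanSpace ℝ (Fin 1)) 0 at h1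
    have h3 : (x : EuclideanSpace ℝ (Fin 1)) 0 = 0 := by linarith
    rw [h3] at h2
    norm_num at h2
  have htwo : ∀ x y : Sph 0, x = y ∨ x = -y := by
    intro x y
    have h1 := sph_zero_abs x
    have h2 := sph_zero_abs y
    have h3 : |(x : EuclideanSpace ℝ (Fin 1)) 0| = |(y : EuclideanSpace ℝ (Fin 1)) 0| := by
      rw [h1, h2]
    rcases abs_eq_abs.1 h3 with h4 | h4
    · left
      apply Subtype.ext
      ext i
      rw [Fin.fin_one_eq_zero i]
      exact h4
    · right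
      apply Subtype.ext
      ext i
      rw [Fin.fin_one_eq_zero i]
      exact h4
  have he' : -e ∈ {x : Sph 0 | ∀ g : Cp p, g • x = x} := by
    intro g
    rcases htwo (g • (-e)) e with h | h
    · exfalso
      have h1 : g • (-e) = g • e := by rw [h, he g]
      exact hne e (MulAction.injective g h1)
    · exact h
  have hpre := hF.isConnected.isPreconnected
  have hcont : Continuous (fun x : Sph 0 => (x : EuclideanSpace ℝ (Fin 1)) 0) := by fun_prop
  have him := (hpre.image _ hcont.continuousOn).ordConnected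
  have m1 := Set.mem_image_of_mem (fun x : Sph 0 => (x : EuclideanSpace ℝ (Fin 1)) 0) he
  have m2 := Set.mem_image_of_mem (fun x : Sph 0 => (x : EuclideanSpace ℝ (Fin 1)) 0) he'
  have h0 : (0 : ℝ) ∈ (fun x : Sph 0 => (x : EuclideanSpace ℝ (Fin 1)) 0) ''
      {x : Sph 0 | ∀ g : Cp p, g • x = x} := by
    change -((e : EuclideanSpace ℝ (Fin 1)) 0) ∈ _ at m2
    rcases le_total 0 ((e : EuclideanSpace ℝ (Fin 1)) 0) with h | h
    · exact him.out m2 m1 ⟨by linarith, h⟩
    · exact him.out m1 m2 ⟨h, by linarith⟩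
  obtain ⟨x, -, hx⟩ := h0
  have h5 := sph_zero_abs x
  change (x : EuclideanSpace ℝ (Fin 1)) 0 = 0 at hx
  rw [hx] at h5
  norm_num at h5

end Pool.Agent.TC.MA1
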