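import Pool.Agent.Lib.TC.MainD

/-!
# Assembly: the homology of the fixed point set
-/

namespace Pool.Agent.TC

open CubeHom
open scoped Manifold ContDiff ContinuousMap

namespace MA3

/-- From the exact sequence of the pair: a chain in `A` which bounds in the whole space bounds in
`A` if the relative cycles of the next degree come from absolute cycles. -/
theorem bd_lift {R : Type*} [CommRing R] {X : Type*} [TopologicalSpace X] {A : Set X} {k : ℤ}
    (hl : ∀ w ∈ CubeHom.Z R (k + 1) (Set.univ : Set X) A,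
      ∃ z ∈ CubeHom.Z R (k + 1) (Set.univ : Set X) ∅,
        CubeHom.Bd R (k + 1) Set.univ A (w - z))
    {c : Ch R X} (hc : c ∈ CubeHom.C R k A) (h : CubeHom.Bd R k Set.univ ∅ c) :
    CubeHom.Bd R k A ∅ c := by
  obtain ⟨b, hb, hcb⟩ := h
  have hbA : bd (k + 1) b ∈ CubeHom.Q R k A := by
    have h1 : bd (k + 1) b = c - (c - bd (k + 1) b) := by abel
    rw [h1]
    exact Submodule.sub_mem _ (C_le_Q k A hc) (Q_mono k (Set.empty_subset _) hcb)
  have hbZ : b ∈ CubeHom.Z R (k + 1) (Set.univ : Set X) A := by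
    refine ⟨hb, ?_⟩
    change bd (k + 1) b ∈ CubeHom.Q R (k + 1 - 1) A
    rwa [add_sub_cancel_right]
  obtain ⟨z, hz, e, he, hbe⟩ := hl b hbZ
  rw [Q_eq_sup, Submodule.mem_sup] at hbe
  obtain ⟨b', hb', q', hq', hsum⟩ := hbe
  refine ⟨b', hb', ?_⟩
  have hz2 : bd (k + 1) z ∈ CubeHom.Q R k (∅ : Set X) := by
    have h2 : bd (k + 1) z ∈ CubeHom.Q R (k + 1 - 1) (∅ : Set X) := hz.2
    rwa [add_sub_cancel_right] at h2
  have hq2 : bd (k + 1) q' ∈ CubeHom.Q R k (∅ : Set X) := bd_mem_Q' hq'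
  have h3 : bd (k + 1) b' = bd (k + 1) b - bd (k + 1) z - bd (k + 1) q' := by
    have h4 : b' = b - z - bd (k + 1 + 1) e - q' := by
      rw [← hsum]
      abel
    rw [h4, map_sub, map_sub, map_sub, bd_bd', sub_zero]
  rw [h3]
  have h5 : c - (bd (k + 1) b - bd (k + 1) z - bd (k + 1) q') =
      (c - bd (k + 1) b) + bd (k + 1) z + bd (k + 1) q' := by abel
  rw [h5]
  exact Submodule.add_mem _ (Submodule.add_mem _ hcb hz2) hq2

theorem local_vanish {R : Type*} [CommRing R] {X : Type*} [TopologicalSpace X] [T2Space X] {n : ℕ}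
    (hX : LocEuc n X) (x : X) {k : ℤ} (hk : k ≠ n) {w : Ch R X}
    (hw : w ∈ CubeHom.Z R k Set.univ ({x}ᶜ : Set X)) :
    CubeHom.Bd R k Set.univ ({x}ᶜ : Set X) w := by
  obtain ⟨S, hS, hx, ⟨φ⟩⟩ := hX x
  have h1 := Loc.inChart_singleton φ hx
  rw [← h1] at hw ⊢
  exact loc_vanish hS φ isCompact_singleton (convex_singleton _) (Set.singleton_nonempty _) hk hw

theorem lift {R : Type*} [CommRing R] {X : Type*} [TopologicalSpace X] [T2Space X] {n : ℕ}
    (hX : LocEuc n X) {ξ : Ch R X} (hξ : ξ ∈ CubeHom.Z R (n : ℤ) (Set.univ : Set X) ∅)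
    (hg : LocGen n ξ) (x : X) (k : ℤ) :
    ∀ w ∈ CubeHom.Z R k (Set.univ : Set X) {x}ᶜ,
      ∃ z ∈ CubeHom.Z R k (Set.univ : Set X) ∅,
        CubeHom.Bd R k Set.univ {x}ᶜ (w - z) := by
  intro w hw
  by_cases hk : k = n
  · subst hk
    obtain ⟨r, hr⟩ := hg x w hw
    exact ⟨r • ξ, Submodule.smul_mem _ _ hξ, hr⟩
  · refine ⟨0, Submodule.zero_mem _, ?_⟩
    rw [sub_zero]
    exact local_vanish hX x hk hw

/-- The `1`-cube of a path. -/
noncomputable def pathCube {X : Type*} [TopologicalSpace X] {a b : X} (γ : Path a b) : C(Cb, X) :=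
  ⟨fun u => γ (u 0), γ.continuous.comp (continuous_apply 0)⟩

theorem pathCube_isCube {X : Type*} [TopologicalSpace X] {a b : X} (γ : Path a b) :
    IsCube 1 (pathCube γ) := by
  refine ⟨by norm_num, fun u v huv => ?_⟩
  change γ (u 0) = γ (v 0)
  rw [huv 0 (by simp)]

theorem bd_one {R : Type*} [CommRing R] {X : Type*} [TopologicalSpace X] (σ : C(Cb, X)) (r : R) :
    bd 1 (Finsupp.single σ r) =
      Finsupp.single (σ.comp (ins 0 1)) r - Finsupp.single (σ.comp (ins 0 0)) r := by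
  rw [bd_apply]
  simp [face, Finsupp.lmapDomain_apply, Finsupp.mapDomain_single]

theorem bd_pathCube {R : Type*} [CommRing R] {X : Type*} [TopologicalSpace X] {a b : X}
    (γ : Path a b) : bd 1 (Finsupp.single (pathCube γ) (1 : R)) =
      Finsupp.single (ContinuousMap.const Cb b) 1 - Finsupp.single (ContinuousMap.const Cb a) 1 := by
  have h1 : (pathCube γ).comp (ins 0 1) = ContinuousMap.const Cb b := by
    ext u
    change γ (ins 0 1 u 0) = b
    rw [ins_apply_self, γ.target]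
  have h0 : (pathCube γ).comp (ins 0 0) = ContinuousMap.const Cb a := by
    ext u
    change γ (ins 0 0 u 0) = a
    rw [ins_apply_self, γ.source]
  rw [bd_one, h1, h0]

theorem const_isCube {X : Type*} [TopologicalSpace X] (a : X) :
    IsCube 0 (ContinuousMap.const Cb a) := ⟨le_rfl, fun _ _ _ => rfl⟩

/-- If the difference of any two points of `A` bounds in `A` then `A` is preconnected. -/
theorem preconnected_of_bd {R : Type*} [CommRing R] [Nontrivial R] {X : Type*} [TopologicalSpace X]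
    {A : Set X}
    (h : ∀ a ∈ A, ∀ b ∈ A, CubeHom.Bd R 0 A ∅
      (Finsupp.single (ContinuousMap.const Cb a) (1 : R) -
        Finsupp.single (ContinuousMap.const Cb b) 1)) : IsPreconnected A := by
  classical
  rw [isPreconnected_iff_subset_of_disjoint]
  intro U V hU hV hUV hdis
  by_contra hcon
  push Not at hcon
  obtain ⟨hnU, hnV⟩ := hcon
  obtain ⟨a, haA, haU⟩ := Set.not_subset.1 hnU
  obtain ⟨b, hbA, hbV⟩ := Set.not_subset.1 hnV
  have hbU : b ∈ U := (hUV hbA).resolve_right hbV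
  obtain ⟨e, he, hq⟩ := h a haA b hbA
  have hQ0 : CubeHom.Q R 0 (∅ : Set X) = ⊥ := by
    unfold CubeHom.Q
    rw [← Finsupp.supported_empty]
    congr 1
    ext σ
    simp only [Set.mem_ofPred_eq, Set.mem_empty_iff_false, iff_false]
    rintro ⟨-, h1 | ⟨i, hi, -⟩⟩
    · exact h1 (fun _ => 0)
    · omega
  rw [hQ0, Submodule.mem_bot, sub_eq_zero] at hq
  let wt : C(Cb, X) → R := fun σ => if σ (fun _ => 0) ∈ U then 1 else 0
  have hz : ∀ c ∈ CubeHom.C R (0 + 1) A,
      Finsupp.linearCombination R wt (bd (0 + 1) c) = 0 := by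
    intro c hc
    have h2 : (Finsupp.linearCombination R wt ∘ₗ (bd (0 + 1) : Ch R X →ₗ[R] Ch R X)) c =
        (0 : Ch R X →ₗ[R] R) c := by
      refine map_eq_of_supported _ _ ?_ hc
      rintro σ ⟨-, hσ⟩
      change Finsupp.linearCombination R wt (bd (0 + 1) (Finsupp.single σ 1)) = 0
      rw [zero_add, bd_one, map_sub, Finsupp.linearCombination_single,
        Finsupp.linearCombination_single, one_smul, one_smul]
      have hpre : IsPreconnected (Set.range σ) := isPreconnected_range σ.continuous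
      have hsub : Set.range σ ⊆ U ∪ V := by
        rintro _ ⟨u, rfl⟩
        exact hUV (hσ u)
      have hdis' : Set.range σ ∩ (U ∩ V) = ∅ := by
        rw [Set.eq_empty_iff_forall_notMem] at hdis ⊢
        rintro _ ⟨⟨u, rfl⟩, hu⟩
        exact hdis _ ⟨hσ u, hu⟩
      rcases isPreconnected_iff_subset_of_disjoint.1 hpre U V hU hV hsub hdis' with h3 | h3
      · simp only [wt, ContinuousMap.comp_apply]
        rw [if_pos (h3 ⟨_, rfl⟩), if_pos (h3 ⟨_, rfl⟩), sub_self]
      · have h4 : ∀ u, σ u ∉ U := by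
          intro u hu
          rw [Set.eq_empty_iff_forall_notMem] at hdis
          exact hdis _ ⟨hσ u, hu, h3 ⟨u, rfl⟩⟩
        simp only [wt, ContinuousMap.comp_apply]
        rw [if_neg (h4 _), if_neg (h4 _), sub_self]
    exact h2
  have h5 := hz e he
  rw [← hq, map_sub, Finsupp.linearCombination_single, Finsupp.linearCombination_single, one_smul,
    one_smul] at h5
  simp only [wt, ContinuousMap.const_apply, if_neg haU, if_pos hbU] at h5
  simp at h5

end MA3

open MA3 in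
/-- The homology of the complement of a ball. -/
theorem acyclic_co {p : ℕ} [Fact p.Prime] {F : Type} [TopologicalSpace F] {d : ℕ}
    (D : FixDat p F d)
    (hz : ∀ j : ℤ, 1 ≤ j → j < d → (CS.top F).Hz ℤ j)
    (φ : EuclideanSpace ℝ (Fin d) → F) (hφ : Topology.IsOpenEmbedding φ) :
    ∀ k : ℤ, 1 ≤ k → ∀ c ∈ CubeHom.Z ℤ k (Set.univ : Set (Co φ)) ∅,
      CubeHom.Bd ℤ k Set.univ ∅ c := by
  intro k hk c hc
  have := D.t2
  have := D.compact
  have := D.pc
  obtain ⟨ξ, hξ, hgen⟩ := D.cyc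
  obtain ⟨Hh, hH1, hH2, hH3, hH4⟩ := exists_radial φ hφ
  have hCo : Co φ ⊆ ({φ 0}ᶜ : Set F) := by
    intro x hx hxy
    rw [Set.mem_singleton_iff] at hxy
    exact hx ⟨0, by simp, hxy.symm⟩
  -- the inclusions
  let i₁ : C(Co φ, ({φ 0}ᶜ : Set F)) := ⟨fun x => ⟨x.1, hCo x.2⟩, by fun_prop⟩
  let i₂ : C(({φ 0}ᶜ : Set F), F) := ⟨Subtype.val, continuous_subtype_val⟩
  have hr₂ : Set.range i₂ = ({φ 0}ᶜ : Set F) := Subtype.range_coe
  set c' : Ch ℤ F := push i₂ (push i₁ c) with hc'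
  have hc'A : c' ∈ CubeHom.Z ℤ k ({φ 0}ᶜ : Set F) ∅ := by
    have h1 : push i₁ c ∈ CubeHom.Z ℤ k (Set.univ : Set ({φ 0}ᶜ : Set F)) ∅ :=
      push_mem_Z (Set.mapsTo_univ _ _) (fun x hx => hx.elim) hc
    exact push_mem_Z (fun x _ => x.2) (fun x hx => hx.elim) h1
  have hc'u : c' ∈ CubeHom.Z ℤ k (Set.univ : Set F) ∅ :=
    Z_mono (Set.subset_univ _) le_rfl hc'A
  have hbu : CubeHom.Bd ℤ k (Set.univ : Set F) ∅ c' := by
    rcases lt_trichotomy k (d : ℤ) with hlt | heq | hgt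
    · have h1 := hz k hk hlt c' (by rw [TCH.top_Z]; exact hc'u)
      rwa [TCH.top_Bd] at h1
    · subst heq
      exact TCH.van_top_connected D.loc hc'u (x := φ 0) (Bd.of_mem_C hc'A.1)
    · exact TCH.van_above_compact D.loc hgt hc'u
  have hbA : CubeHom.Bd ℤ k ({φ 0}ᶜ : Set F) ∅ c' :=
    bd_lift (lift D.loc hξ hgen (φ 0) (k + 1)) hc'A.1 hbu
  have hb1 : CubeHom.Bd ℤ k (Set.univ : Set ({φ 0}ᶜ : Set F)) ∅ (push i₁ c) := by
    have h1 := TL.Bd_push_iff (R := ℤ) (j := i₂) (Topology.IsInducing.subtypeVal)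
      Subtype.val_injective (k := k) (A := ∅) (c₀ := push i₁ c)
    rw [hr₂, Set.preimage_empty] at h1
    exact h1.1 hbA
  let r : C(({φ 0}ᶜ : Set F), Co φ) :=
    ⟨fun x => ⟨Hh (1, x), hH3 x⟩, by fun_prop⟩
  have hb2 := Bd.push (f := r) (V := (Set.univ : Set (Co φ))) (A' := ∅) (Set.mapsTo_univ _ _)
    (fun x hx => hx.elim) hb1
  rw [push_push] at hb2
  have hid : r.comp i₁ = ContinuousMap.id _ := by
    ext x
    change Hh (1, i₁ x) = x.1
    exact hH4 (i₁ x) x.2 1
  rw [hid] at hb2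
  have hpid : push (ContinuousMap.id (Co φ)) c = c := by
    unfold push
    rw [Finsupp.lmapDomain_apply]
    have h1 : (fun σ : C(Cb, Co φ) => (ContinuousMap.id (Co φ)).comp σ) = id := by
      funext σ
      rfl
    rw [h1, Finsupp.mapDomain_id]
  rwa [hpid] at hb2

open MA3 in
/-- The complement of a point is path connected and has no `H_1` modulo `p`, for `d = 1, 2`. -/
theorem compl_point {p : ℕ} [Fact p.Prime] {F : Type} [TopologicalSpace F] {d : ℕ}
    (D : FixDat p F d) (hd : d ≤ 2) (x : F) :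
    IsConnected ({x}ᶜ : Set F) ∧ ∀ c ∈ CubeHom.Z (ZMod p) 1 ({x}ᶜ : Set F) ∅,
      CubeHom.Bd (ZMod p) 1 ({x}ᶜ : Set F) ∅ c := by
  have := D.t2
  have := D.compact
  have := D.pc
  have hd1 := D.pos
  obtain ⟨ξ', hξ', hgen'⟩ := D.cyc
  set ξ : Ch (ZMod p) F := TCH.chMap (Int.castRingHom (ZMod p)) ξ' with hξdef
  have hξ : ξ ∈ CubeHom.Z (ZMod p) (d : ℤ) (Set.univ : Set F) ∅ := TCH.chMap_mem_Z _ hξ'
  have hgen : LocGen d ξ := TCH.LocGen.chMap _ D.loc hξ' hgen'
  refine ⟨⟨?_, ?_⟩, ?_⟩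
  · obtain ⟨S, hS, hx, ⟨φ⟩⟩ := D.loc x
    obtain ⟨v, hv⟩ : ∃ v : Fin d → ℝ, v ≠ φ ⟨x, hx⟩ := by
      refine ⟨φ ⟨x, hx⟩ + 1, fun h => ?_⟩
      have h1 := congrFun h ⟨0, hd1⟩
      simp at h1
    refine ⟨(φ.symm v : F), fun h => hv ?_⟩
    rw [Set.mem_singleton_iff] at h
    have h1 : φ.symm v = ⟨x, hx⟩ := Subtype.ext h
    rw [← h1, φ.apply_symm_apply]
  · refine preconnected_of_bd (R := ZMod p) fun a ha b hb => ?_
    refine bd_lift (lift D.loc hξ hgen x (0 + 1)) ?_ ?_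
    · exact Submodule.sub_mem _ (mem_C_single (const_isCube a) (fun _ => ha) _)
        (mem_C_single (const_isCube b) (fun _ => hb) _)
    · have hγ := bd_pathCube (R := ZMod p) (PathConnectedSpace.somePath b a)
      rw [← hγ]
      have h1 : (Finsupp.single (pathCube (PathConnectedSpace.somePath b a)) 1 : Ch (ZMod p) F) ∈
          CubeHom.C (ZMod p) (0 + 1) (Set.univ : Set F) :=
        mem_C_single (pathCube_isCube _) (fun _ => Set.mem_univ _) _
      exact Bd.of_bd h1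
  · intro c hc
    refine bd_lift (lift D.loc hξ hgen x (1 + 1)) hc.1 ?_
    have hcu : c ∈ CubeHom.Z (ZMod p) 1 (Set.univ : Set F) ∅ :=
      Z_mono (Set.subset_univ _) le_rfl hc
    by_cases h1 : (1 : ℤ) < d
    · have h2 := D.hzp 1 le_rfl h1 c (by rw [TCH.top_Z]; exact hcu)
      rwa [TCH.top_Bd] at h2
    · have h3 : d = 1 := by omega
      subst h3
      exact TCH.van_top_connected D.loc hcu (x := x) (Bd.of_mem_C hc.1)

namespace MA4

theorem chMap_eq {X : Type} [TopologicalSpace X] (R : Type) [CommRing R] (c : Ch ℤ X) :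
    TCH.chMap (Int.castRingHom R) c = castCh R c := by
  ext σ
  rfl

theorem hz_top {X : Type} [TopologicalSpace X] {R : Type} [CommRing R] {k : ℤ} :
    (CS.top X).Hz R k ↔ ∀ c ∈ CubeHom.Z R k (Set.univ : Set X) ∅,
      CubeHom.Bd R k Set.univ ∅ c := by
  unfold CS.Hz
  rw [TCH.top_Z]
  simp only [TCH.top_Bd]

theorem cob_of_hz {X : Type} [TopologicalSpace X] {K : Type} [Field K] {k : ℕ}
    {u : C(Cb, X) → K} (hu : (CS.top X).Coc (k + 1) u)
    (h : (CS.top X).Hz K ((k + 1 : ℕ) : ℤ)) : (CS.top X).Cob k u :=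
  uct extProp_field (CS.top X) hu fun c hc => coc_bd (CS.top X) hu (h c hc)

end MA4

open MA4 in
/-- 9.3 and 10: the homology of the fixed point set vanishes. -/
theorem fix_acyclic {p : ℕ} [Fact p.Prime] {F : Type} [TopologicalSpace F] {d : ℕ}
    (D : FixDat p F d) (hTC : TC0le F 2) (hsc : 3 ≤ d → SimplyConnectedSpace F)
    (hwu : p ≠ 2 → d = 5 → SimplyConnectedSpace F → (CS.top F).Hz (ZMod 2) 4 →
      SqZ (CS.top F) 3) (j : ℤ) (h1 : 1 ≤ j) (h2 : j < d) : (CS.top F).Hz ℤ j := by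
  have := D.t2
  have := D.compact
  have := D.pc
  obtain ⟨ξ, hξ, hgen⟩ := D.cyc
  obtain ⟨enr⟩ := D.enr
  have hf : ∀ k, TCH.FGH ℤ k (Set.univ : Set F) ∅ := fun k =>
    TCH.FGH.retract enr.ι enr.openW enr.mem enr.r enr.r_ι k
  have hξt : ξ ∈ (CS.top F).Z ℤ (d : ℤ) := by
    rw [TCH.top_Z]
    exact hξ
  have hξR : ∀ (R : Type) [CommRing R], castCh R ξ ∈ CubeHom.Z R (d : ℤ) (Set.univ : Set F) ∅ :=
    fun R _ => castCh_mem_Z hξ
  have hgR : ∀ (R : Type) [CommRing R], LocGen d (castCh R ξ) := by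
    intro R _
    rw [← chMap_eq]
    exact TCH.LocGen.chMap _ D.loc hξ hgen
  have hPD : ∀ (q : ℕ) [Fact q.Prime], PDual F d (ZMod q) (castCh (ZMod q) ξ) := by
    intro q _
    obtain ⟨μ, hμ, hμ1⟩ := TCH.exists_mu_coc D.loc (hξR (ZMod q)) (hgR (ZMod q))
    refine pdual enr D.loc ?_ hμ hμ1
    rw [TCH.top_Z]
    exact hξR (ZMod q)
  have hzp : ∀ k : ℤ, 0 < k → k < d → ∀ c ∈ CubeHom.Z (ZMod p) k (Set.univ : Set F) ∅,
      CubeHom.Bd (ZMod p) k Set.univ ∅ c := fun k hk hk' =>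
    hz_top.1 (D.hzp k (by omega) hk')
  have hadj : ∀ (q : ℕ) [Fact q.Prime] (i : ℕ), 0 < i → i < d →
      ¬ (CS.top F).Hz (ZMod q) (i : ℤ) →
      ∃ j : ℕ, 1 ≤ j ∧ j + 2 ≤ d ∧ ¬ (CS.top F).Hz (ZMod q) (j : ℤ) ∧
        ¬ (CS.top F).Hz (ZMod q) ((j + 1 : ℕ) : ℤ) := by
    intro q hq i hi hid hne
    rw [hz_top] at hne
    push Not at hne
    obtain ⟨l, hl1, hl2, ha, hb⟩ := TCH.two_degrees (p := p) D.loc hξ hgen hf hzp hq.out
      (i := (i : ℤ)) (by exact_mod_cast hi) (by exact_mod_cast hid) hne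
    obtain ⟨l, rfl⟩ : ∃ l' : ℕ, l = (l' : ℤ) := ⟨l.toNat, by omega⟩
    refine ⟨l, by omega, by omega, ?_, ?_⟩
    · rw [hz_top]
      push Not
      exact ha
    · rw [hz_top]
      push Not
      exact hb
  have hH1 : 3 ≤ d → (CS.top F).Hz (ZMod 2) 1 := by
    intro h3
    have := hsc h3
    exact hz_one (ZMod 2)
  -- the homology modulo each prime vanishes
  have hall : ∀ q : ℕ, q.Prime → ∀ i : ℕ, 0 < i → i < d →
      (CS.top F).Hz (ZMod q) (i : ℤ) := by
    intro q hq i hi hid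
    have : Fact q.Prime := ⟨hq⟩
    rcases zd_conclusion hTC ξ hξt hPD hadj hH1 q with hc | ⟨rfl, k, hk, hdk, hH, x, x', hx, hx',
      hxx⟩
    · exact hc i hi hid
    by_cases hp2 : p = 2
    · subst hp2
      exact D.hzp i (by exact_mod_cast hi) (by exact_mod_cast hid)
    · exfalso
      have hinj : Function.Injective enr.ι := by
        intro a b hab
        have ha := enr.r_ι a
        have hb := enr.r_ι b
        have h3 : (⟨enr.ι a, enr.mem a⟩ : enr.W) = ⟨enr.ι b, enr.mem b⟩ := Subtype.ext hab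
        rw [← ha, ← hb, h3]
      have hemb : Topology.IsEmbedding enr.ι :=
        (enr.ι.continuous.isClosedEmbedding hinj).isEmbedding
      have hsq : SqZ (CS.top F) (2 * k - 1) := by
        by_cases hk2 : k = 2
        · subst hk2
          have hd5 : d = 5 := by omega
          subst hd5
          exact hwu hp2 rfl (hsc (by norm_num)) (hH 4 (by norm_num) (by norm_num) (by norm_num)
            (by norm_num))
        · intro c hc
          obtain ⟨l, hl⟩ : ∃ l, 2 * k - 1 = l + 1 := ⟨2 * k - 2, by omega⟩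
          have hz := hH (2 * k - 1) (by omega) (by omega) (by omega) (by omega)
          rw [hl] at hc hz ⊢
          have h4 := sq2_cob (CS.top F) (j := l) (by omega) (cob_of_hz hc hz)
          exact h4
      refine exc_false (enr.ι : F → EuclideanSpace ℝ (Fin enr.n)) hemb D.loc hk hdk hTC hξt
        (fun x w hw => hgen x w hw) ?_ ?_ hH hsq hx hx' hxx
      · intro c hc
        rw [TCH.top_Z] at hc
        obtain ⟨r, hr⟩ := TCH.fund_gen D.loc (hξR (ZMod 2)) (hgR (ZMod 2)) hc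
        exact ⟨r, (TCH.top_Bd _ _).2 hr⟩
      · intro l hl
        rw [hz_top]
        intro c hc
        exact TCH.van_above_compact D.loc hl hc
  rw [hz_top]
  intro c hc
  obtain ⟨i, rfl⟩ : ∃ i : ℕ, j = (i : ℤ) := ⟨j.toNat, by omega⟩
  exact TCH.integral_vanish hf (fun q hq => hz_top.1 (hall q hq i (by omega) (by omega))) hc

end Pool.Agent.TC
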