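import Pool.Agent.Lib.TC.Man
import Pool.Agent.Lib.MP_cb6a70_gt_HB.Local

/-!
# Section 3.2, 3.3: the fixed point set is a manifold
-/

namespace Pool.Agent.TC

open Metric Set CubeHom
open scoped unitInterval

namespace Man2Aux

/-- Two charts at the same point have the same dimension. -/
theorem dim_at {Y : Type*} [TopologicalSpace Y] [T2Space Y] {a b : ℕ} {S S' : Set Y}
    (hS : IsOpen S) (hS' : IsOpen S') (φ : S ≃ₜ (Fin a → ℝ)) (ψ : S' ≃ₜ (Fin b → ℝ)) {y : Y}
    (hy : y ∈ S) (hy' : y ∈ S') : a = b := by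
  by_contra hab
  let φ' : S ≃ₜ (Fin a → ℝ) := φ.trans (Homeomorph.addRight (-(φ ⟨y, hy⟩)))
  have h0 : φ' ⟨y, hy⟩ = 0 := by simp [φ']
  have k1 : ∀ x ∈ ({φ' ⟨y, hy⟩} : Set (Fin a → ℝ)), ∀ i, -1 < x i ∧ x i < 1 := by
    rintro x rfl i
    rw [h0]
    norm_num
  have z := locCh_mem (R := ℤ) φ' k1
  rw [Loc.inChart_singleton, ← Loc.inChart_singleton ψ hy'] at z
  have h1 := loc_vanish hS' ψ isCompact_singleton (convex_singleton _)
    (Set.singleton_nonempty _) (k := (a : ℤ)) (by exact_mod_cast hab) z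
  rw [Loc.inChart_singleton, ← Loc.inChart_singleton φ' hy] at h1
  have h2 := loc_free hS φ' isCompact_singleton (convex_singleton _)
    (Set.singleton_nonempty _) k1 (r := (1 : ℤ)) (by rwa [one_smul])
  exact one_ne_zero h2

/-- `Y` is Euclidean of dimension `d` near `y`. -/
def DimAt {Y : Type*} [TopologicalSpace Y] (d : ℕ) (y : Y) : Prop :=
  ∃ S : Set Y, IsOpen S ∧ y ∈ S ∧ Nonempty (S ≃ₜ (Fin d → ℝ))

theorem DimAt.unique {Y : Type*} [TopologicalSpace Y] [T2Space Y] {a b : ℕ} {y : Y}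
    (ha : DimAt a y) (hb : DimAt b y) : a = b := by
  obtain ⟨S, hS, hy, ⟨φ⟩⟩ := ha
  obtain ⟨S', hS', hy', ⟨ψ⟩⟩ := hb
  exact dim_at hS hS' φ ψ hy hy'

theorem isOpen_dimAt {Y : Type*} [TopologicalSpace Y] (d : ℕ) : IsOpen {y : Y | DimAt d y} := by
  rw [isOpen_iff_forall_mem_open]
  rintro y ⟨S, hS, hy, hφ⟩
  exact ⟨S, fun z hz => ⟨S, hS, hz, hφ⟩, hS, hy⟩

/-- A connected space which is Euclidean near every point is so of one dimension. -/
theorem exists_dim {Y : Type*} [TopologicalSpace Y] [T2Space Y] [ConnectedSpace Y]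
    (h : ∀ y : Y, ∃ d, DimAt d y) : ∃ d, LocEuc d Y := by
  choose f hf using h
  have hc : IsLocallyConstant f := by
    rw [IsLocallyConstant.iff_exists_open]
    intro y
    refine ⟨{z | DimAt (f y) z}, isOpen_dimAt _, hf y, fun z hz => ?_⟩
    exact (hf z).unique hz
  obtain ⟨y₀⟩ : Nonempty Y := inferInstance
  refine ⟨f y₀, fun y => ?_⟩
  have h1 : f y = f y₀ := hc.apply_eq_of_preconnectedSpace y y₀
  rw [← h1]
  exact hf y

section chart

variable {G X : Type} [Group G] [TopologicalSpace X] [MulAction G X] {n : ℕ}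

/-- The fixed subspace of an orthogonal representation. -/
def fixSub (ρ : G →* (EuclideanSpace ℝ (Fin n) ≃ₗᵢ[ℝ] EuclideanSpace ℝ (Fin n))) :
    Submodule ℝ (EuclideanSpace ℝ (Fin n)) where
  carrier := {v | ∀ g, ρ g v = v}
  add_mem' := fun {a b} ha hb g => by rw [map_add, ha g, hb g]
  zero_mem' := fun g => map_zero _
  smul_mem' := fun c v hv g => by rw [map_smul, hv g]

theorem mem_fixSub {ρ : G →* (EuclideanSpace ℝ (Fin n) ≃ₗᵢ[ℝ] EuclideanSpace ℝ (Fin n))}
    {v : EuclideanSpace ℝ (Fin n)} : v ∈ fixSub ρ ↔ ∀ g, ρ g v = v := Iff.rfl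

/-- The chart of the fixed point set. -/
def fixMap {x : X} (c : LinChart G X n x) : fixSub c.ρ → Fx G X :=
  fun v => ⟨c.φ v, fun g => by rw [← c.equi, v.2 g]⟩

theorem fixMap_open {x : X} (c : LinChart G X n x) : Topology.IsOpenEmbedding (fixMap c) := by
  refine ⟨?_, ?_⟩
  · refine Topology.IsEmbedding.of_comp ?_ continuous_subtype_val ?_
    · exact Continuous.subtype_mk (c.φ.continuous.comp continuous_subtype_val) _
    · exact c.emb.isEmbedding.comp Topology.IsEmbedding.subtypeVal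
  · have h : Set.range (fixMap c) = (Subtype.val : Fx G X → X) ⁻¹' (Set.range c.φ) := by
      ext y
      constructor
      · rintro ⟨v, rfl⟩
        exact ⟨v, rfl⟩
      · rintro ⟨v, hv⟩
        have h1 : v ∈ fixSub c.ρ := by
          intro g
          apply c.emb.injective
          rw [c.equi, hv]
          exact y.2 g
        exact ⟨⟨v, h1⟩, Subtype.ext hv⟩
    rw [h]
    exact c.emb.isOpen_range.preimage continuous_subtype_val

theorem dimAt_fix {x : Fx G X} (c : LinChart G X n (x : X)) :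
    DimAt (Module.finrank ℝ (fixSub c.ρ)) x := by
  refine ⟨Set.range (fixMap c), (fixMap_open c).isOpen_range, ?_, ⟨?_⟩⟩
  · exact ⟨0, Subtype.ext c.zero⟩
  · refine (fixMap_open c).isEmbedding.toHomeomorph.symm.trans ?_
    exact (ContinuousLinearEquiv.ofFinrankEq (𝕜 := ℝ) (by simp)).toHomeomorph

end chart

theorem mulA {E : Type*} [NormedAddCommGroup E] [InnerProductSpace ℝ E] (e e' : E ≃ₗᵢ[ℝ] E)
    (v : E) : (e * e') v = e (e' v) := rfl

/-- A skew adjoint injective endomorphism lives in even dimension. -/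
theorem even_of_skew {W : Type*} [NormedAddCommGroup W] [InnerProductSpace ℝ W]
    [FiniteDimensional ℝ W] (T : W →ₗ[ℝ] W) (hT : ∀ v w, inner ℝ (T v) w = - inner ℝ v (T w))
    (hinj : Function.Injective T) : Even (Module.finrank ℝ W) := by
  have h1 : LinearMap.adjoint T = -T := by
    symm
    rw [LinearMap.eq_adjoint_iff]
    intro x y
    rw [LinearMap.neg_apply, inner_neg_left, hT, neg_neg]
  have h2 : LinearMap.det T ≠ 0 := by
    have : IsUnit T := (Module.End.isUnit_iff T).2
      ⟨hinj, LinearMap.injective_iff_surjective.1 hinj⟩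
    exact (LinearMap.isUnit_iff_isUnit_det T).1 this |>.ne_zero
  have h3 : LinearMap.det (LinearMap.adjoint T) = LinearMap.det T := by
    let b := stdOrthonormalBasis ℝ W
    rw [← LinearMap.det_toMatrix b.toBasis, ← LinearMap.det_toMatrix b.toBasis,
      LinearMap.toMatrix_adjoint b b, Matrix.det_conjTranspose]
    simp
  rw [h1] at h3
  have h4 : LinearMap.det (-T) = (-1) ^ (Module.finrank ℝ W) * LinearMap.det T := by
    have : -T = (-1 : ℝ) • T := by simp
    rw [this, LinearMap.det_smul]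
  rw [h4] at h3
  by_contra hodd
  rw [Nat.not_even_iff_odd] at hodd
  rw [hodd.neg_one_pow] at h3
  apply h2
  linarith

end Man2Aux

open Man2Aux

/-- Invariance of dimension (from the local homology computed in `Local`). -/
theorem dim_unique {X : Type} [TopologicalSpace X] [T2Space X] [Nonempty X] {a b : ℕ}
    (ha : LocEuc a X) (hb : LocEuc b X) : a = b := by
  obtain ⟨x⟩ : Nonempty X := inferInstance
  exact DimAt.unique (ha x) (hb x)

/-- The fixed point set, if connected, is locally Euclidean of one dimension `d ≤ n`, and it is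
everything if `d = n`. -/
theorem locEuc_fixed {G X : Type} [Group G] [Finite G] [TopologicalSpace X] [MulAction G X]
    {n : ℕ} (h : GMan G X n) [ConnectedSpace X] [ConnectedSpace (Fx G X)] :
    ∃ d ≤ n, LocEuc d (Fx G X) ∧ (d = n → ∀ (x : X) (g : G), g • x = x) := by
  have := h.t2
  have hch : ∀ x : Fx G X, Nonempty (LinChart G X n (x : X)) := fun x => h.chart x x.2
  obtain ⟨d, hd⟩ := exists_dim (Y := Fx G X) fun x => ⟨_, dimAt_fix (hch x).some⟩
  have hdim : ∀ (x : Fx G X) (c : LinChart G X n (x : X)),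
      Module.finrank ℝ (fixSub c.ρ) = d := fun x c => (dimAt_fix c).unique (hd x)
  obtain ⟨x₀⟩ : Nonempty (Fx G X) := inferInstance
  refine ⟨d, ?_, hd, ?_⟩
  · rw [← hdim x₀ (hch x₀).some]
    refine (Submodule.finrank_le _).trans ?_
    simp
  · rintro rfl x g
    have hopen : IsOpen {y : X | ∀ g : G, g • y = y} := by
      rw [isOpen_iff_forall_mem_open]
      intro y hy
      obtain ⟨c⟩ := h.chart y hy
      have htop : fixSub c.ρ = ⊤ := by
        apply Submodule.eq_top_of_finrank_eq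
        rw [hdim ⟨y, hy⟩ c]
        simp
      refine ⟨Set.range c.φ, ?_, c.emb.isOpen_range, ⟨0, c.zero⟩⟩
      rintro _ ⟨v, rfl⟩ g
      have hv : v ∈ fixSub c.ρ := by rw [htop]; trivial
      rw [← c.equi, hv g]
    have hclosed : IsClosed {y : X | ∀ g : G, g • y = y} := by
      have : {y : X | ∀ g : G, g • y = y} = ⋂ g : G, {y : X | g • y = y} := by
        ext y
        simp
      rw [this]
      exact isClosed_iInter fun g => isClosed_eq (h.cont g) continuous_id
    have huniv := IsClopen.eq_univ ⟨hclosed, hopen⟩ ⟨(x₀ : X), x₀.2⟩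
    have hx : x ∈ {y : X | ∀ g : G, g • y = y} := by
      rw [huniv]
      trivial
    exact hx g

/-- For `p` odd the codimension of the fixed point set is even. -/
theorem even_codim {p : ℕ} [Fact p.Prime] (hp : p ≠ 2) {X : Type} [TopologicalSpace X]
    [MulAction (Cp p) X] {n d : ℕ} (h : GMan (Cp p) X n) [Nonempty (Fx (Cp p) X)]
    (hd : LocEuc d (Fx (Cp p) X)) : Even (n - d) := by
  have := h.t2
  obtain ⟨x₀⟩ : Nonempty (Fx (Cp p) X) := inferInstance
  obtain ⟨c⟩ := h.chart x₀ x₀.2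
  have hdim : Module.finrank ℝ (fixSub c.ρ) = d := (dimAt_fix c).unique (hd x₀)
  set V := fixSub c.ρ with hV
  set E := EuclideanSpace ℝ (Fin n) with hE
  have hodd : Odd p := (Fact.out : p.Prime).odd_of_ne_two hp
  obtain ⟨g0, hgp, hgen⟩ : ∃ g0 : Cp p, g0 ^ p = 1 ∧ ∀ g : Cp p, ∃ k : ℕ, g = g0 ^ k := by
    refine ⟨Multiplicative.ofAdd 1, ?_, fun g => ⟨(Multiplicative.toAdd g).val, ?_⟩⟩
    · rw [← ofAdd_nsmul]
      simp
    · rw [← ofAdd_nsmul]
      simp
  -- vectors fixed by the square of the generator are fixed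
  have hfix : ∀ v : E, c.ρ g0 v = c.ρ g0⁻¹ v → v ∈ V := by
    intro v hv g
    have h1 : c.ρ (g0 ^ 2) v = v := by
      have h2 : c.ρ g0 (c.ρ g0 v) = c.ρ g0 (c.ρ g0⁻¹ v) := by rw [hv]
      rw [← mulA, ← mulA, ← map_mul, ← map_mul,
        mul_inv_cancel, map_one, ← pow_two] at h2
      exact h2
    have h3 : ∀ k : ℕ, c.ρ ((g0 ^ 2) ^ k) v = v := by
      intro k
      induction k with
      | zero => simp
      | succ k ih =>
        rw [pow_succ, map_mul, mulA, h1, ih]
    obtain ⟨m, hm⟩ := hodd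
    have h4 : g0 = (g0 ^ 2) ^ (m + 1) := by
      rw [← pow_mul]
      have : 2 * (m + 1) = p + 1 := by omega
      rw [this, pow_succ, hgp, one_mul]
    have h5 : c.ρ g0 v = v := by
      rw [h4]
      exact h3 _
    obtain ⟨k, rfl⟩ := hgen g
    induction k with
    | zero => simp
    | succ k ih => rw [pow_succ, map_mul, mulA, h5, ih]
  -- the skew adjoint map
  let T : E →ₗ[ℝ] E :=
    (c.ρ g0).toLinearEquiv.toLinearMap - (c.ρ g0⁻¹).toLinearEquiv.toLinearMap
  have hTa : ∀ v, T v = c.ρ g0 v - c.ρ g0⁻¹ v := fun v => rfl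
  have hinner : ∀ v w : E, inner ℝ (c.ρ g0 v) w = inner ℝ v (c.ρ g0⁻¹ w) := by
    intro v w
    have h1 : w = c.ρ g0 (c.ρ g0⁻¹ w) := by
      rw [← mulA, ← map_mul, mul_inv_cancel, map_one]
      rfl
    conv_lhs => rw [h1]
    rw [LinearIsometryEquiv.inner_map_map]
  have hinner' : ∀ v w : E, inner ℝ (c.ρ g0⁻¹ v) w = inner ℝ v (c.ρ g0 w) := by
    intro v w
    rw [real_inner_comm, ← hinner, real_inner_comm]
  have hskew : ∀ v w : E, inner ℝ (T v) w = - inner ℝ v (T w) := by
    intro v w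
    rw [hTa, hTa, inner_sub_left, inner_sub_right, hinner, hinner']
    ring
  have hTV : ∀ v ∈ V, T v = 0 := by
    intro v hv
    rw [hTa, hv g0, hv g0⁻¹, sub_self]
  have hmaps : ∀ w ∈ Vᗮ, T w ∈ Vᗮ := by
    intro w _ v hv
    rw [← neg_inj, ← hskew, hTV v hv, inner_zero_left, neg_zero]
  have hev := even_of_skew (T.restrict hmaps) (by
    intro v w
    exact hskew v w) (by
    rw [← LinearMap.ker_eq_bot, LinearMap.ker_eq_bot']
    rintro ⟨w, hw⟩ hTw
    have h1 : T w = 0 := congrArg Subtype.val hTw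
    have h2 : w ∈ V := hfix w (by rw [hTa, sub_eq_zero] at h1; exact h1)
    have h3 : w ∈ V ⊓ Vᗮ := ⟨h2, hw⟩
    rw [Submodule.inf_orthogonal_eq_bot] at h3
    exact Subtype.ext h3)
  have hsum := Submodule.finrank_add_finrank_orthogonal V
  have hEn : Module.finrank ℝ E = n := finrank_euclideanSpace_fin
  rw [hdim, hEn] at hsum
  have : n - d = Module.finrank ℝ Vᗮ := by omega
  rw [this]
  exact hev

end Pool.Agent.TC
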