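import Pool.Agent.Lib.TC.Pi1G

/-!
# `kap_bound_low`
-/

namespace Pool.Agent.TC

open CubeHom

namespace P1i

/-! ### Cochains -/

section coch

variable {X Y : Type*} [TopologicalSpace X] [TopologicalSpace Y]

theorem dl_map {A A' : Type*} [AddCommGroup A] [AddCommGroup A'] (f : A →+ A') (k : ℕ)
    (u : C(Cb, X) → A) (σ : C(Cb, X)) : f (dl k u σ) = dl k (fun τ => f (u τ)) σ := by
  unfold dl
  rw [map_sum]
  refine Finset.sum_congr rfl fun i _ => ?_
  rw [map_zsmul, map_sub]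

theorem dl_congr {A : Type*} [AddCommGroup A] {k : ℕ} {u v : C(Cb, X) → A} {σ : C(Cb, X)}
    (h : ∀ i e, i < k + 1 → u (σ.comp (ins i e)) = v (σ.comp (ins i e))) :
    dl k u σ = dl k v σ := by
  unfold dl
  refine Finset.sum_congr rfl fun i hi => ?_
  rw [h i 1 (Finset.mem_range.mp hi), h i 0 (Finset.mem_range.mp hi)]

theorem dl_add {A : Type*} [AddCommGroup A] {k : ℕ} (u v : C(Cb, X) → A) (σ : C(Cb, X)) :
    dl k (fun τ => u τ + v τ) σ = dl k u σ + dl k v σ := by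
  unfold dl
  rw [← Finset.sum_add_distrib]
  refine Finset.sum_congr rfl fun i _ => ?_
  rw [← smul_add, add_sub_add_comm]

theorem top_C (R : Type*) [CommRing R] (k : ℤ) :
    (CS.top X).C R k = CubeHom.C R k Set.univ := by
  unfold CS.C CubeHom.C
  congr 1
  ext σ
  simp [CS.top]

theorem top_Q (R : Type*) [CommRing R] (k : ℤ) :
    (CS.top X).Q R k = CubeHom.Q R k ∅ := by
  unfold CS.Q CubeHom.Q
  congr 1
  ext σ
  simp [CS.top]

theorem offD_C (F : Type) [TopologicalSpace F] (R : Type*) [CommRing R] (k : ℤ) :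
    (offD F).C R k = CubeHom.C R k Set.univ := by
  unfold CS.C CubeHom.C
  congr 1
  ext σ
  simp [CS.mk']

theorem offD_Q (F : Type) [TopologicalSpace F] (R : Type*) [CommRing R] (k : ℤ) :
    (offD F).Q R k = CubeHom.Q R k {x : F × F | x.1 ≠ x.2} := by
  unfold CS.Q CubeHom.Q
  congr 1
  ext σ
  simp [CS.mk']

end coch

/-! ### The function of the diagonal on a small cycle -/

section mu

variable {F : Type} [TopologicalSpace F] {d : ℕ} {k : Type} [Field k] {μ : C(Cb, F × F) → k}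

theorem mu_bd (hμ : (offD F).Coc d μ) {c : Ch k F} (hc : (CS.top F).Bd k d c)
    {v : C(Cb, F)} (hv : IsCube 0 v) :
    Finsupp.linearCombination k μ (cr 0 (Finsupp.single v 1) c) = 0 := by
  refine coc_bd (offD F) hμ ?_
  have hc' : CubeHom.Bd k (d : ℤ) Set.univ ∅ c := by
    obtain ⟨b, hb, h⟩ := hc
    rw [top_C] at hb
    rw [top_Q] at h
    exact ⟨b, hb, h⟩
  have hz : (Finsupp.single v 1 : Ch k F) ∈ CubeHom.Z k ((0 : ℕ) : ℤ) Set.univ ∅ := by
    refine ⟨mem_C_single hv (fun _ => Set.mem_univ _) _, ?_⟩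
    change bd ((0 : ℕ) : ℤ) (Finsupp.single v 1 : Ch k F) ∈
      CubeHom.Q k (((0 : ℕ) : ℤ) - 1) (∅ : Set F)
    rw [bd_of_nonpos (by simp)]
    exact Submodule.zero_mem _
  have h := hc'.cr_right (W := Set.univ) (A' := {x : F × F | x.1 ≠ x.2}) hz
    (Set.subset_univ _) (by rw [Set.empty_prod]; exact Set.empty_subset _)
    (by rw [Set.prod_empty]; exact Set.empty_subset _)
  rw [Nat.cast_zero, zero_add] at h
  obtain ⟨b, hb, h⟩ := h
  refine ⟨b, ?_, ?_⟩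
  · rw [offD_C]
    exact hb
  · rw [offD_Q]
    exact h

theorem mu_off (hμ : (offD F).Coc d μ) {A : Set F} {c : Ch k F} (hc : c ∈ CubeHom.C k (d : ℤ) A)
    {v : C(Cb, F)} (hv : IsCube 0 v) (hvA : ∀ w, v w ∉ A) :
    Finsupp.linearCombination k μ (cr 0 (Finsupp.single v 1) c) = 0 := by
  refine (Submodule.mem_bot k).mp (map_mem_of_supported (R := k)
    ((Finsupp.linearCombination k μ).comp (cr 0 (Finsupp.single v 1))) (⊥ : Submodule k k)
    (fun σ hσ => ?_) hc)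
  rw [LinearMap.comp_apply, cr_single_single, Finsupp.linearCombination_single]
  have h1 : μ (crossCube 0 v σ) = 0 := by
    refine hμ.1 _ ?_ ⟨Set.univ, rfl, fun _ => Set.mem_univ _⟩
      (Or.inl ⟨{x : F × F | x.1 ≠ x.2}, rfl, fun u => ?_⟩)
    · have h := isCube_cross (n := 0) (k := (d : ℤ)) (τ := v) (σ := σ) hv hσ.1
      rwa [Nat.cast_zero, zero_add] at h
    · intro h
      change v u = σ (drop 0 u) at h
      exact hvA u (h ▸ hσ.2 _)
  rw [h1, smul_zero]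
  exact Submodule.zero_mem _

/-- A cycle which is small for the cover `𝒱` of `N` up to cubes in the open set `B`. -/
theorem exists_small (hμ : (offD F).Coc d μ) {ξ : Ch k F} (hξ : ξ ∈ (CS.top F).Z k (d : ℤ))
    (hμ1 : ∀ v : C(Cb, F), IsCube 0 v →
      Finsupp.linearCombination k μ (cr 0 (Finsupp.single v 1) ξ) = 1)
    {𝒱 : Set (Set F)} (hV : ∀ V ∈ 𝒱, IsOpen V) {B : Set F} (hB : IsOpen B)
    (hcov : ∀ x, x ∈ B ∨ ∃ V ∈ 𝒱, x ∈ V) :
    ∃ ξ' : Ch k F, ξ' ∈ CubeHom.C k (d : ℤ) Set.univ ∧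
      (∀ t ∈ ξ'.support, ∃ V ∈ 𝒱, ∀ w, t w ∈ V) ∧
      (∀ v : C(Cb, F), IsCube 0 v → (∀ w, v w ∈ Bᶜ) →
        Finsupp.linearCombination k μ (cr 0 (Finsupp.single v 1) ξ') = 1) ∧
      ∀ t ∈ (bd (d : ℤ) ξ').support, Degen ((d : ℤ) - 1) t ∨ ∀ w, t w ∉ Bᶜ := by
  classical
  obtain ⟨c, hc, hbd⟩ := small_cycle (R := k) (𝒱 := insert B 𝒱)
    (by
      rintro V (rfl | h)
      · exact hB
      · exact hV V h)
    (by
      ext x
      simp only [Set.mem_sUnion, Set.mem_insert_iff, Set.mem_univ, iff_true]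
      rcases hcov x with h | ⟨V, h1, h2⟩
      · exact ⟨B, Or.inl rfl, h⟩
      · exact ⟨V, Or.inr h1, h2⟩) hξ
  let P : C(Cb, F) → Prop := fun t => ∃ V ∈ 𝒱, ∀ w, t w ∈ V
  have hcsup : ∀ σ ∈ c.support, IsCube (d : ℤ) σ ∧ ∃ V ∈ insert B 𝒱, ∀ u, σ u ∈ V :=
    fun σ hσ => hc.1 hσ
  have hsum : c.filter P + c.filter (fun t => ¬ P t) = c := Finsupp.filter_add_filter_not c P
  have h1 : c.filter P ∈ CubeHom.C k (d : ℤ) Set.univ := by
    intro σ hσ
    have h := (Finsupp.mem_support_iff.mp (Finset.mem_coe.mp hσ))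
    rw [Finsupp.filter_apply] at h
    have h2 : c σ ≠ 0 := by
      intro h0
      apply h
      rw [h0, ite_self]
    exact ⟨(hcsup σ (Finsupp.mem_support_iff.mpr h2)).1, fun _ => Set.mem_univ _⟩
  have h2 : c.filter (fun t => ¬ P t) ∈ CubeHom.C k (d : ℤ) B := by
    intro σ hσ
    rw [Finset.mem_coe, Finsupp.support_filter, Finset.mem_filter] at hσ
    obtain ⟨h3, V, h4, h5⟩ := hcsup σ hσ.1
    rcases h4 with rfl | h4
    · exact ⟨h3, h5⟩
    · exact absurd ⟨V, h4, h5⟩ hσ.2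
  refine ⟨c.filter P, h1, ?_, ?_, ?_⟩
  · intro t ht
    rw [Finsupp.support_filter, Finset.mem_filter] at ht
    exact ht.2
  · intro v hv hvB
    have e1 := mu_bd hμ hbd hv
    have e2 := mu_off hμ h2 hv hvB
    have e3 := hμ1 v hv
    rw [map_sub, map_sub, e3, ← hsum, map_add, map_add, e2, add_zero, sub_eq_zero] at e1
    exact e1.symm
  · intro t ht
    have e1 : bd (d : ℤ) (c.filter P) =
        bd (d : ℤ) c - bd (d : ℤ) (c.filter (fun t => ¬ P t)) := by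
      rw [← map_sub]
      congr 1
      exact eq_sub_of_add_eq hsum
    rw [e1] at ht
    have ht2 := Finsupp.support_sub ht
    rw [Finset.mem_union] at ht2
    rcases ht2 with h | h
    · obtain ⟨_, _, h3⟩ := hc.2 h
      rcases h3 with ⟨V, h4, -⟩ | h3
      · exact h4.elim
      · exact Or.inl h3
    · obtain ⟨_, h3⟩ := (bd_mem_C h2) h
      exact Or.inr fun w hw => hw (h3 w)

end mu

/-! ### Faces -/

section faces

variable {X : Type*} [TopologicalSpace X]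

theorem fc_bk_empty (n : ℕ) : fc n (wbk ∅) = ContinuousMap.id Cb := by
  ext1 u
  funext j
  change (if j < n then _ else _) = u j
  split_ifs with h
  · simp [wbk]
  · simp [wbk]

theorem comp_fc_fr_empty {n : ℕ} {τ : C(Cb, X)} (h : IsCube (n : ℤ) τ) :
    τ.comp (fc n (wfr ∅)) = ContinuousMap.const Cb (τ fun _ => 0) := by
  ext1 u
  change τ (fc n (wfr ∅) u) = τ fun _ => 0
  refine h.2 fun j hj => ?_
  simp only [Set.mem_ofPred_eq, Nat.cast_lt] at hj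
  change (if j < n then _ else _) = (0 : I)
  rw [if_pos hj]
  simp [wfr, bitI]

theorem sgnS_empty (n : ℕ) : sgnS n ∅ = 1 := by
  simp [sgnS]

end faces

/-! ### Chains of paths -/

section paths

/-- The affine map of the interval. -/
def seg (a b : I) : C(I, I) where
  toFun s := ⟨(1 - (s : ℝ)) * a + s * b, by
    have h1 := s.2.1
    have h2 := s.2.2
    have h3 := a.2.1
    have h4 := a.2.2
    have h5 := b.2.1
    have h6 := b.2.2
    constructor
    · nlinarith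
    · nlinarith⟩
  continuous_toFun := by fun_prop

theorem seg_zero (a b : I) : seg a b 0 = a := by
  apply Subtype.ext
  change (1 - ((0 : I) : ℝ)) * a + ((0 : I) : ℝ) * b = a
  simp

theorem seg_one (a b : I) : seg a b 1 = b := by
  apply Subtype.ext
  change (1 - ((1 : I) : ℝ)) * a + ((1 : I) : ℝ) * b = b
  simp

theorem seg_mem {a b : I} (h : a ≤ b) (s : I) : seg a b s ∈ Set.Icc a b := by
  have h' : (a : ℝ) ≤ b := h
  have h1 := s.2.1
  have h2 := s.2.2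
  constructor
  · change (a : ℝ) ≤ (1 - (s : ℝ)) * a + s * b
    nlinarith
  · change (1 - (s : ℝ)) * a + s * b ≤ (b : ℝ)
    nlinarith

variable {E : Type} [TopologicalSpace E] {k : Type} [Field k]

/-- A path as a cube. -/
def pcube (γ : C(I, E)) : C(Cb, E) := ⟨fun u => γ (u 0), by fun_prop⟩

theorem isCube_pcube (γ : C(I, E)) : IsCube ((1 : ℕ) : ℤ) (pcube γ) := by
  refine ⟨by norm_num, fun x y hxy => ?_⟩
  change γ (x 0) = γ (y 0)
  rw [hxy 0 (by simp)]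

theorem bd_pcube (γ : C(I, E)) : bd ((1 : ℕ) : ℤ) (Finsupp.single (pcube γ) 1 : Ch k E) =
    Finsupp.single (ContinuousMap.const Cb (γ 1)) 1 -
      Finsupp.single (ContinuousMap.const Cb (γ 0)) 1 := by
  rw [bd_apply]
  simp only [Int.toNat_natCast, Finset.range_one, Finset.sum_singleton, pow_zero, one_smul,
    face_single]
  congr 2

/-- Points can be joined by small paths. -/
theorem path_chain [PathConnectedSpace E] {𝒲 : Set (Set E)} (hW : ∀ W ∈ 𝒲, IsOpen W)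
    (hcov : ∀ e, ∃ W ∈ 𝒲, e ∈ W) (b e : E) :
    ∃ g : Ch k E, g ∈ Finsupp.supported k k
        {τ : C(Cb, E) | IsCube ((1 : ℕ) : ℤ) τ ∧ ∃ W ∈ 𝒲, ∀ u, τ u ∈ W} ∧
      bd ((1 : ℕ) : ℤ) g = Finsupp.single (ContinuousMap.const Cb e) 1 -
        Finsupp.single (ContinuousMap.const Cb b) 1 := by
  obtain ⟨γ⟩ := PathConnectedSpace.joined b e
  obtain ⟨t, ht0, htm, ⟨N, hN⟩, hc⟩ := exists_monotone_Icc_subset_open_cover_unitInterval
    (c := fun W : 𝒲 => γ ⁻¹' W.1) (fun W => (hW _ W.2).preimage γ.continuous)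
    (fun s _ => by
      obtain ⟨W, h1, h2⟩ := hcov (γ s)
      exact Set.mem_iUnion.mpr ⟨⟨W, h1⟩, h2⟩)
  refine ⟨∑ i ∈ Finset.range N,
    Finsupp.single (pcube ((γ : C(I, E)).comp (seg (t i) (t (i + 1))))) 1, ?_, ?_⟩
  · refine Submodule.sum_mem _ fun i _ => single_mem_supported ?_ _
    obtain ⟨W, hW'⟩ := hc i
    refine ⟨isCube_pcube _, W.1, W.2, fun u => ?_⟩
    exact hW' (seg_mem (htm (Nat.le_succ i)) (u 0))
  · rw [map_sum]
    have h1 : ∀ i ∈ Finset.range N, bd ((1 : ℕ) : ℤ)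
        (Finsupp.single (pcube ((γ : C(I, E)).comp (seg (t i) (t (i + 1))))) 1 : Ch k E) =
        Finsupp.single (ContinuousMap.const Cb (γ (t (i + 1)))) 1 -
          Finsupp.single (ContinuousMap.const Cb (γ (t i))) 1 := by
      intro i _
      rw [bd_pcube]
      change Finsupp.single (ContinuousMap.const Cb (γ (seg (t i) (t (i + 1)) 1))) 1 -
        Finsupp.single (ContinuousMap.const Cb (γ (seg (t i) (t (i + 1)) 0))) 1 = _
      rw [seg_zero, seg_one]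
    rw [Finset.sum_congr rfl h1, Finset.sum_range_sub
      (fun i => (Finsupp.single (ContinuousMap.const Cb (γ (t i))) 1 : Ch k E)), ht0, hN N le_rfl,
      γ.source, γ.target]

end paths

/-! ### The pairing -/

section pairing

variable {π E F : Type} [Group π] [TopologicalSpace E] [TopologicalSpace F] [MulAction π E]
  (Fi : FineCov π E F) {k L : Type} [Field k] [AddCommGroup L] [Module k L]
  {μ : C(Cb, F × F) → k} {ρ : Representation k π L}

theorem lift_dep {s : C(Cb, E)} (hs : Fi.Sm s) {A : Set ℕ}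
    (h : DependsOn ((Fi.p.comp s : C(Cb, F)) : Cb → F) A) : DependsOn (s : Cb → E) A := by
  intro x y hxy
  exact (Fi.fine s s hs hs ⟨fun _ => 0, fun _ => 0, rfl⟩ x y).2 (h hxy)

theorem lift_isCube {n : ℤ} {s : C(Cb, E)} (hs : Fi.Sm s) (h : IsCube n (Fi.p.comp s)) :
    IsCube n s := ⟨h.1, lift_dep Fi hs h.2⟩

theorem sm_act (g : π) {s : C(Cb, E)} : Fi.Sm ((Fi.act g).comp s) ↔ Fi.Sm s := by
  unfold FineCov.Sm
  have h : ∀ u, Fi.p (((Fi.act g).comp s) u) = Fi.p (s u) := fun u => Fi.p_smul g (s u)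
  simp only [h]

theorem sm_comp {s : C(Cb, E)} (hs : Fi.Sm s) (f : C(Cb, Cb)) : Fi.Sm (s.comp f) := by
  obtain ⟨V, h1, h2⟩ := hs
  exact ⟨V, h1, fun u => h2 (f u)⟩

/-- The pairing, as a linear map. -/
noncomputable def SSl (μ : C(Cb, F × F) → k) (ρ : Representation k π L) (m : ℕ) (l : L)
    (s : C(Cb, E)) : Ch k E →ₗ[k] L where
  toFun c := Fi.SSc μ ρ m l c s
  map_add' := fun c c' => Fi.SSc_add c c' s
  map_smul' := fun a c => Fi.SSc_smul a c s

theorem SSl_apply (m : ℕ) (l : L) (s : C(Cb, E)) (c : Ch k E) :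
    SSl Fi μ ρ m l s c = Fi.SSc μ ρ m l c s := rfl

theorem SSl_single (m : ℕ) (l : L) (s τ : C(Cb, E)) :
    SSl Fi μ ρ m l s (Finsupp.single τ 1) = Fi.SS μ ρ m l τ s := by
  rw [SSl_apply, FineCov.SSc_single, one_smul]

/-- The boundary formula for chains. -/
theorem dl_SSc {d n m : ℕ} (hμ : (offD F).Coc d μ) (hmn : m + n = d) (l : L) {g : Ch k E}
    (hg : g ∈ Finsupp.supported k k {τ : C(Cb, E) | IsCube (n : ℤ) τ ∧ Fi.Sm τ})
    {s : C(Cb, E)} (hs : Fi.Sm s) (hs' : IsCube ((m + 1 : ℕ) : ℤ) s) :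
    dl m (Fi.SSc μ ρ m l g) s = (-1 : ℤ) ^ m • Fi.SSc μ ρ (m + 1) l (bd (n : ℤ) g) s := by
  have h := map_eq_of_supported (R := k) (M := L)
    (∑ i ∈ Finset.range (m + 1), ((-1 : ℤ) ^ i) •
      (SSl Fi μ ρ m l (s.comp (ins i 1)) - SSl Fi μ ρ m l (s.comp (ins i 0))))
    (((-1 : ℤ) ^ m) • (SSl Fi μ ρ (m + 1) l s).comp (bd (n : ℤ))) (fun τ hτ => ?_) hg
  · simp only [LinearMap.sum_apply, LinearMap.smul_apply, LinearMap.sub_apply,
      LinearMap.comp_apply, SSl_apply] at h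
    exact h
  · have h := Fi.dl_SS (μ := μ) (ρ := ρ) (l := l) hμ hmn hτ.2 hs hτ.1 hs'
    simp only [LinearMap.sum_apply, LinearMap.smul_apply, LinearMap.sub_apply,
      LinearMap.comp_apply, SSl_single]
    rw [SSl_apply]
    exact h

theorem SSc_mem {m n d : ℕ} (hμ : (offD F).Coc d μ) (hmn : m + n = d) (l : L) {g : Ch k E}
    (hg : g ∈ Finsupp.supported k k {τ : C(Cb, E) | IsCube (n : ℤ) τ ∧ Fi.Sm τ})
    {s : C(Cb, E)} (hs : IsCube (m : ℤ) s) (hd : Degen (m : ℤ) s) :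
    Fi.SSc μ ρ m l g s = 0 := by
  have h := map_eq_of_supported (R := k) (M := L) (SSl Fi μ ρ m l s) 0 (fun τ hτ => ?_) hg
  · exact h
  · rw [SSl_single, LinearMap.zero_apply]
    exact Fi.SS_degen hμ hmn hτ.1 hs (Or.inl hd)

theorem SSc_equi {m n : ℕ} (l : L) {c : Ch k E}
    (hc : c ∈ Finsupp.supported k k {τ : C(Cb, E) | IsCube (n : ℤ) τ ∧ Fi.Sm τ})
    (g : π) {s : C(Cb, E)} (hs : Fi.Sm s) :
    Fi.SSc μ ρ m l c ((Fi.act g).comp s) = ρ g (Fi.SSc μ ρ m l c s) := by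
  have h := map_eq_of_supported (R := k) (M := L) (SSl Fi μ ρ m l ((Fi.act g).comp s))
    ((ρ g).comp (SSl Fi μ ρ m l s)) (fun τ hτ => ?_) hc
  · exact h
  · rw [LinearMap.comp_apply, SSl_single, SSl_single]
    exact Fi.SS_equi g hτ.2 hs

/-- A point can be moved off the test region. -/
theorem point_term (hμ : (offD F).Coc 2 μ) (l : L) {e b : E} {g : Ch k E}
    (hg : g ∈ Finsupp.supported k k {τ : C(Cb, E) | IsCube ((1 : ℕ) : ℤ) τ ∧ Fi.Sm τ})
    (hgb : bd ((1 : ℕ) : ℤ) g = Finsupp.single (ContinuousMap.const Cb e) 1 -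
        Finsupp.single (ContinuousMap.const Cb b) 1)
    {s : C(Cb, E)} (hs : Fi.Sm s) (hs' : IsCube ((1 + 1 : ℕ) : ℤ) s)
    (hb : ∀ w, Fi.p (s w) ≠ Fi.p b) :
    Fi.SS μ ρ 2 l (ContinuousMap.const Cb e) s = - dl 1 (Fi.SSc μ ρ 1 l g) s := by
  rw [dl_SSc Fi hμ rfl l hg hs hs', hgb, ← SSl_apply, map_sub, SSl_single, SSl_single,
    Fi.SS_disjoint (τ := ContinuousMap.const Cb b) (s := s) (fun u _ => hb u), sub_zero, pow_one,
    neg_smul, one_smul, neg_neg]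

theorem capS_low {d : ℕ} (hd : d ≤ 2) (u : C(Cb, E) → L) {τ : C(Cb, E)}
    (hτ : IsCube (d : ℤ) τ) (s : C(Cb, E)) :
    Fi.capS μ ρ d 2 u τ s = Fi.SS μ ρ 2 (u τ) (ContinuousMap.const Cb (τ fun _ => 0)) s := by
  unfold FineCov.capS
  rw [Nat.sub_eq_zero_of_le hd, Finset.powersetCard_zero, Finset.sum_singleton, sgnS_empty,
    one_smul, fc_bk_empty, comp_fc_fr_empty hτ, ContinuousMap.comp_id]

theorem SS_zero (m : ℕ) (τ s : C(Cb, E)) : Fi.SS μ ρ m (0 : L) τ s = 0 := by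
  have h := Fi.SS_smul_left (μ := μ) (ρ := ρ) (m := m) (0 : k) (0 : L) τ s
  rwa [zero_smul, zero_smul] at h

open Classical in
/-- The primitive. -/
theorem exists_prim {d : ℕ} (hd1 : 1 ≤ d) (hd2 : d ≤ 2) [PathConnectedSpace E]
    (hμ : (offD F).Coc d μ) {u : C(Cb, E) → L} (hu : (CS.top E).Coc (1 + 1) u)
    (hequi : ∀ (g : π) (σ : C(Cb, E)), u ((Fi.act g).comp σ) = ρ g (u σ))
    {ξ : Ch k F} (hξ : ξ ∈ CubeHom.C k (d : ℤ) Set.univ)
    (hsm : ∀ t ∈ ξ.support, ∃ V ∈ Fi.𝒱, ∀ w, t w ∈ V) {M : Set F}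
    (h1 : ∀ v : C(Cb, F), IsCube 0 v → (∀ w, v w ∈ M) →
      Finsupp.linearCombination k μ (cr 0 (Finsupp.single v 1) ξ) = 1)
    (h2 : ∀ t ∈ (bd (d : ℤ) ξ).support, Degen ((d : ℤ) - 1) t ∨ ∀ w, t w ∉ M)
    (hN : ∀ V ∈ Fi.𝒱, V ⊆ Set.range Fi.p) {b : E} (hb : Fi.p b ∉ M) :
    ∃ η : C(Cb, E) → L, (∀ (g : π) (σ : C(Cb, E)), η ((Fi.act g).comp σ) = ρ g (η σ)) ∧
      (∀ σ : C(Cb, E), IsCube 1 σ → Degen 1 σ → η σ = 0) ∧
      ∀ s : C(Cb, E), IsCube 2 s → Fi.Sm s → (∀ w, Fi.p (s w) ∈ M) → u s = dl 1 η s := by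
  -- the lifts
  have hlift : ∀ t ∈ ξ.support, ∃ t' : C(Cb, E), Fi.p.comp t' = t := by
    intro t ht
    obtain ⟨V, hV, hw⟩ := hsm t ht
    obtain ⟨e, he⟩ := hN V hV (hw fun _ => 0)
    obtain ⟨t', h3, -⟩ := Fi.lift t ⟨V, hV, hw⟩ (fun _ => 0) e he
    exact ⟨t', h3⟩
  let τ : C(Cb, F) → C(Cb, E) := fun t =>
    if h : t ∈ ξ.support then (hlift t h).choose else ContinuousMap.const _ b
  have hτ : ∀ t ∈ ξ.support, Fi.p.comp (τ t) = t := by
    intro t ht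
    simp only [τ, dif_pos ht]
    exact (hlift t ht).choose_spec
  have hτsm : ∀ t ∈ ξ.support, Fi.Sm (τ t) := by
    intro t ht
    obtain ⟨V, hV, hw⟩ := hsm t ht
    refine ⟨V, hV, fun w => ?_⟩
    have h3 : Fi.p (τ t w) = t w := DFunLike.congr_fun (hτ t ht) w
    rw [h3]
    exact hw w
  have hτc : ∀ t ∈ ξ.support, IsCube (d : ℤ) (τ t) := by
    intro t ht
    refine lift_isCube Fi (hτsm t ht) ?_
    rw [hτ t ht]
    exact (hξ ht).1
  obtain ⟨ε, -, η0, he0, hn0, h0⟩ := Fi.duality ρ hμ hu hequi hξ hsm h1 h2 τ hτ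
  -- the remaining term
  suffices hmain : ∃ η1 : C(Cb, E) → L,
      (∀ (g : π) (σ : C(Cb, E)), η1 ((Fi.act g).comp σ) = ρ g (η1 σ)) ∧
      (∀ σ : C(Cb, E), IsCube 1 σ → Degen 1 σ → η1 σ = 0) ∧
      ∀ s : C(Cb, E), IsCube 2 s → Fi.Sm s → (∀ w, Fi.p (s w) ∈ M) →
        (∑ t ∈ ξ.support, ξ t • Fi.capS μ ρ d (1 + 1) u (τ t) s) = dl 1 η1 s by
    obtain ⟨η1, he1, hn1, h3⟩ := hmain
    refine ⟨fun σ => ε • η1 σ + η0 σ, fun g σ => ?_, fun σ hσ hσ' => ?_, fun s hs hs1 hs2 => ?_⟩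
    · simp only [he1, he0, map_add, map_smul]
    · simp only [hn1 σ hσ hσ', smul_zero, zero_add]
      exact hn0 σ (by exact_mod_cast hσ) (by exact_mod_cast hσ')
    · rw [dl_add, h0 s (by exact_mod_cast hs) hs1 hs2, h3 s hs hs1 hs2]
      congr 1
      exact dl_map (DistribSMul.toAddMonoidHom L ε) 1 η1 s
  rcases (show d = 1 ∨ d = 2 by omega) with rfl | rfl
  · refine ⟨fun _ => 0, fun g σ => by rw [map_zero], fun _ _ _ => rfl, fun s _ _ _ => ?_⟩
    have hz : dl 1 (fun _ : C(Cb, E) => (0 : L)) s = 0 := by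
      unfold dl
      simp
    rw [hz]
    refine Finset.sum_eq_zero fun t ht => ?_
    have h3 := hτc t ht
    have h4 : u (τ t) = 0 := by
      refine hu.1 _ ⟨by norm_num, fun x y hxy => h3.2 fun j hj => hxy j ?_⟩ trivial
        (Or.inr ⟨1, by norm_num, fun x y hxy => h3.2 fun j hj => hxy j ?_⟩)
      · simp only [Set.mem_ofPred_eq] at hj ⊢
        omega
      · simp only [Set.mem_ofPred_eq] at hj ⊢
        omega
    rw [capS_low Fi (by norm_num) u h3, h4, SS_zero, smul_zero]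
  · have hpc : ∀ t, ∃ g : Ch k E,
        g ∈ Finsupp.supported k k {τ : C(Cb, E) | IsCube ((1 : ℕ) : ℤ) τ ∧ Fi.Sm τ} ∧
        bd ((1 : ℕ) : ℤ) g = Finsupp.single (ContinuousMap.const Cb (τ t fun _ => 0)) 1 -
          Finsupp.single (ContinuousMap.const Cb b) 1 := by
      intro t
      obtain ⟨g, hg, hgb⟩ := path_chain (k := k) (𝒲 := {W | ∃ V ∈ Fi.𝒱, W = Fi.p ⁻¹' V})
        (by
          rintro _ ⟨V, hV, rfl⟩
          exact (Fi.openV V hV).preimage Fi.p.continuous)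
        (fun e => by
          obtain ⟨V, hV, he⟩ := Fi.covV e
          exact ⟨_, ⟨V, hV, rfl⟩, he⟩) b (τ t fun _ => 0)
      refine ⟨g, Finsupp.supported_mono ?_ hg, hgb⟩
      rintro σ ⟨h3, _, ⟨V, hV, rfl⟩, h4⟩
      exact ⟨h3, V, hV, h4⟩
    choose g hg hgb using hpc
    refine ⟨fun σ => if Fi.Sm σ then
      - ∑ t ∈ ξ.support, ξ t • Fi.SSc μ ρ 1 (u (τ t)) (g t) σ else 0, fun a σ => ?_,
      fun σ hσ hσ' => ?_, fun s hs hs1 hs2 => ?_⟩
    · by_cases h : Fi.Sm σ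
      · simp only [sm_act, h, if_true, map_neg, map_sum, map_smul]
        congr 1
        refine Finset.sum_congr rfl fun t _ => ?_
        rw [SSc_equi Fi (u (τ t)) (hg t) a h]
      · simp only [sm_act, h, if_false, map_zero]
    · dsimp only
      split_ifs with h
      · rw [neg_eq_zero]
        refine Finset.sum_eq_zero fun t _ => ?_
        rw [SSc_mem Fi hμ rfl (u (τ t)) (hg t) (by exact_mod_cast hσ) (by exact_mod_cast hσ'),
          smul_zero]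
      · rfl
    · have e1 : dl 1 (fun σ => if Fi.Sm σ then
          - ∑ t ∈ ξ.support, ξ t • Fi.SSc μ ρ 1 (u (τ t)) (g t) σ else 0) s =
          dl 1 (fun σ => - ∑ t ∈ ξ.support, ξ t • Fi.SSc μ ρ 1 (u (τ t)) (g t) σ) s := by
        refine dl_congr fun i e _ => ?_
        rw [if_pos (sm_comp Fi hs1 _)]
      rw [e1]
      have e2 : dl 1 (fun σ => - ∑ t ∈ ξ.support, ξ t • Fi.SSc μ ρ 1 (u (τ t)) (g t) σ) s =
          ∑ t ∈ ξ.support, ξ t • (- dl 1 (Fi.SSc μ ρ 1 (u (τ t)) (g t)) s) := by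
        simp only [smul_neg, Finset.sum_neg_distrib]
        have e3 : ∀ t ∈ ξ.support, ξ t • dl 1 (Fi.SSc μ ρ 1 (u (τ t)) (g t)) s =
            dl 1 (fun σ => ξ t • Fi.SSc μ ρ 1 (u (τ t)) (g t) σ) s := fun t _ =>
          dl_map (DistribSMul.toAddMonoidHom L (ξ t)) 1 _ s
        rw [Finset.sum_congr rfl e3]
        unfold dl
        rw [Finset.sum_comm, ← Finset.sum_neg_distrib]
        refine Finset.sum_congr rfl fun i _ => ?_
        rw [← Finset.smul_sum, Finset.sum_sub_distrib, ← smul_neg, neg_sub, neg_sub_neg]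
      rw [e2]
      refine Finset.sum_congr rfl fun t ht => ?_
      rw [capS_low Fi le_rfl u (hτc t ht), point_term Fi hμ (u (τ t)) (hg t) (hgb t) hs1
        (by exact_mod_cast hs) (fun w h => hb (h ▸ hs2 w))]

end pairing

/-! ### Conclusion -/

section duality

variable {F : Type} [TopologicalSpace F] [T2Space F] [CompactSpace F] {d : ℕ}
  {π E : Type} [Group π] [TopologicalSpace E] [MulAction π E] {k : Type} [Field k] {m : ℕ}

/-- Pid. `d ≤ 2`, the complement of a point: the same conclusion for the function `lam ∘ Ψ`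
(which is again equivariant), where `Ψ` is the deformation of `E` to the part over the compact
set `Co φ`. The cap product has degree `≤ 0`; points of `E` can be joined to points over the
ball. -/
theorem _root_.Pool.Agent.TC.kap_bound_low (hF : ENR F) (hd : LocEuc d F) (hd1 : 1 ≤ d) (hd2 : d ≤ 2)
    (φ : EuclideanSpace ℝ (Fin d) → F) (hφ : Topology.IsOpenEmbedding φ)
    (C : RCov π E ({φ 0}ᶜ : Set F)) [SimplyConnectedSpace E]
    {a : Fin m → π} {D0 : π → Fin m → MonoidAlgebra k π} (h1 : D0 1 = 0)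
    (hD : ∀ g : π, phi a (D0 g) = MonoidAlgebra.of k π g - 1) {lam : E → π}
    (hlam : ∀ (g : π) (e : E), lam (g • e) = g * lam e)
    {μ : C(Cb, F × F) → k} (hμ : (offD F).Coc d μ) {ξ : Ch k F}
    (hξ : ξ ∈ (CS.top F).Z k (d : ℤ))
    (hμ1 : ∀ v : C(Cb, F), IsCube 0 v →
      Finsupp.linearCombination k μ (cr 0 (Finsupp.single v 1) ξ) = 1)
    (Ψ : C(E, E)) (hΨ : ∀ (g : π) (e : E), Ψ (g • e) = g • Ψ e)
    (hΨM : ∀ e, C.p (Ψ e) ∈ Co φ) :
    ∃ (𝒲 : Set (Set E)) (η : C(Cb, E) → (Fin m → MonoidAlgebra k π)), (∀ W ∈ 𝒲, IsOpen W) ∧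
      ⋃₀ 𝒲 = Set.univ ∧ (∀ (g : π), ∀ W ∈ 𝒲, (fun e : E => g • e) '' W ∈ 𝒲) ∧
      (∀ σ, phi a (η σ) = 0) ∧ (∀ σ : C(Cb, E), IsCube 1 σ → Degen 1 σ → η σ = 0) ∧
      (∀ (g : π) (σ : C(Cb, E)),
        η ((⟨fun e => g • e, C.cont g⟩ : C(E, E)).comp σ) = lt g (η σ)) ∧
      ∀ σ : C(Cb, E), IsCube 2 σ → (∃ W ∈ 𝒲, ∀ u, σ u ∈ W) →
        dl 1 η σ = kap D0 (fun e => lam (Ψ e)) σ := by
  obtain ⟨Fi, hFp, -, hVN⟩ := exists_fine hF hd isClosed_singleton.isOpen_compl C {Set.univ}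
    (by rintro _ rfl; exact isOpen_univ) (fun x _ => ⟨Set.univ, rfl, Set.mem_univ x⟩)
  obtain ⟨ρ, hρ⟩ := exists_repK (k := k) a
  obtain ⟨hk1, hk2, hk3⟩ := kap_props (E := E) h1 hD C.cont hlam
  -- the ball
  have hBo : IsOpen (φ '' Metric.ball 0 1) := hφ.isOpenMap _ Metric.isOpen_ball
  have hcov : ∀ x, x ∈ φ '' Metric.ball 0 1 ∨ ∃ V ∈ Fi.𝒱, x ∈ V := by
    intro x
    by_cases hx : x = φ 0
    · exact Or.inl ⟨0, Metric.mem_ball_self one_pos, hx.symm⟩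
    · have hx' : x ∈ Set.range C.p := by
        rw [C.range]
        exact hx
      obtain ⟨e, rfl⟩ := hx'
      obtain ⟨V, hV, he⟩ := Fi.covV e
      rw [hFp] at he
      exact Or.inr ⟨V, hV, he⟩
  obtain ⟨ξ', hξ1, hξ2, hξ3, hξ4⟩ := exists_small hμ hξ hμ1 Fi.openV hBo hcov
  -- the base point over the ball
  obtain ⟨b, hb⟩ : ∃ b : E, Fi.p b ∉ Co φ := by
    have hd0 : 0 < d := hd1
    let v : EuclideanSpace ℝ (Fin d) := EuclideanSpace.single ⟨0, hd0⟩ (1 / 2)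
    have hv : ‖v‖ = 1 / 2 := by
      simp only [v, PiLp.norm_single]
      norm_num
    have hv0 : v ≠ 0 := by
      intro h
      rw [h, norm_zero] at hv
      norm_num at hv
    have hx : φ v ∈ Set.range C.p := by
      rw [C.range]
      exact fun h => hv0 (hφ.injective h)
    obtain ⟨b, hb⟩ := hx
    refine ⟨b, fun h => h ?_⟩
    rw [hFp, hb]
    exact ⟨v, by rw [mem_ball_zero_iff, hv]; norm_num, rfl⟩
  -- the cocycle with values in the kernel
  let u : C(Cb, E) → kerP k a := fun σ => ⟨kap D0 lam σ, hk2 σ⟩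
  have hu : (CS.top E).Coc (1 + 1) u := by
    refine ⟨fun σ h3 h4 h5 => Subtype.ext (hk1.1 σ h3 h4 h5), fun σ h3 h4 => ?_⟩
    refine Subtype.ext ?_
    have h5 := dl_map (kerP k a).subtype.toAddMonoidHom (1 + 1) u σ
    exact h5.trans (hk1.2 σ h3 h4)
  have hequi : ∀ (g : π) (σ : C(Cb, E)), u ((Fi.act g).comp σ) = ρ g (u σ) := by
    intro g σ
    refine Subtype.ext ?_
    rw [hρ]
    exact hk3 g σ
  obtain ⟨η, he, hn, hη⟩ := exists_prim Fi hd1 hd2 hμ hu hequi hξ1 hξ2 hξ3 hξ4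
    (fun V hV => by rw [hFp, C.range]; exact hVN V hV) hb
  have hΨg : ∀ (g : π) (σ : C(Cb, E)),
      Ψ.comp ((⟨fun e => g • e, C.cont g⟩ : C(E, E)).comp σ) = (Fi.act g).comp (Ψ.comp σ) := by
    intro g σ
    ext1 w
    exact hΨ g (σ w)
  refine ⟨{W | ∃ V ∈ Fi.𝒱, W = Ψ ⁻¹' (Fi.p ⁻¹' V)}, fun σ => (η (Ψ.comp σ)).1, ?_, ?_, ?_,
    fun σ => (η (Ψ.comp σ)).2, ?_, ?_, ?_⟩
  · rintro _ ⟨V, hV, rfl⟩
    exact ((Fi.openV V hV).preimage Fi.p.continuous).preimage Ψ.continuous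
  · ext e
    simp only [Set.mem_sUnion, Set.mem_univ, iff_true]
    obtain ⟨V, hV, he'⟩ := Fi.covV (Ψ e)
    exact ⟨_, ⟨V, hV, rfl⟩, he'⟩
  · rintro g _ ⟨V, hV, rfl⟩
    refine ⟨V, hV, ?_⟩
    ext e
    simp only [Set.mem_image, Set.mem_preimage]
    constructor
    · rintro ⟨e', h3, rfl⟩
      rw [hΨ, Fi.p_smul]
      exact h3
    · intro h3
      refine ⟨g⁻¹ • e, ?_, smul_inv_smul g e⟩
      rw [hΨ, Fi.p_smul]
      exact h3
  · intro σ h3 h4
    exact congrArg Subtype.val (hn (Ψ.comp σ) (h3.comp Ψ) (h4.comp Ψ))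
  · intro g σ
    dsimp only
    rw [hΨg, he, hρ]
  · rintro σ h3 ⟨_, ⟨V, hV, rfl⟩, h4⟩
    have h5 := hη (Ψ.comp σ) (h3.comp Ψ) ⟨V, hV, h4⟩ (fun w => by rw [hFp]; exact hΨM _)
    have h6 := congrArg Subtype.val h5
    have h7 := dl_map (kerP k a).subtype.toAddMonoidHom 1 η (Ψ.comp σ)
    exact (h6.trans h7).symm

end duality

end P1i

end Pool.Agent.TC
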