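import Pool.Agent.Lib.TC.Pi1H
import Pool.Agent.Lib.TC.Pi1I

/-!
# Row P1j: simplyConnected_high, simplyConnected_low. Private namespace P1j (top_C, top_Q, top_Z,
top_Bd, homeo_of_trivial, exists_gen). In the assembled file they stand at the end of Pi1.
-/

namespace Pool.Agent.TC

open CubeHom

namespace P1j

section

variable {R : Type} [CommRing R] {X : Type} [TopologicalSpace X]

theorem top_C (k : ℤ) : (CS.top X).C R k = CubeHom.C R k (Set.univ : Set X) := by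
  unfold CS.C CubeHom.C
  congr 1
  ext σ
  simp [CS.top]

theorem top_Q (k : ℤ) : (CS.top X).Q R k = CubeHom.Q R k (∅ : Set X) := by
  unfold CS.Q CubeHom.Q
  congr 1
  ext σ
  simp [CS.top]

theorem top_Z (k : ℤ) : (CS.top X).Z R k = CubeHom.Z R k (Set.univ : Set X) ∅ := by
  unfold CS.Z CubeHom.Z
  rw [top_C, top_Q]

theorem top_Bd (k : ℤ) (c : Ch R X) :
    (CS.top X).Bd R k c ↔ CubeHom.Bd R k (Set.univ : Set X) ∅ c := by
  unfold CS.Bd CubeHom.Bd
  rw [top_C, top_Q]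

end

section

variable {F : Type} [TopologicalSpace F]
  {π E : Type} [Group π] [TopologicalSpace E] [MulAction π E] {N : Set F}

/-- A regular covering with trivial group is a homeomorphism. -/
theorem homeo_of_trivial (C : RCov π E N) (h : ∀ x : π, x = 1) : Nonempty (E ≃ₜ N) := by
  have hinj : Function.Injective C.p := by
    intro e e' he
    obtain ⟨g, hg⟩ := C.trans e e' he
    rw [h g, one_smul] at hg
    exact hg
  have hpre : C.p ⁻¹' N = Set.univ := by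
    rw [Set.eq_univ_iff_forall]
    intro e
    have h1 : C.p e ∈ Set.range C.p := ⟨e, rfl⟩
    rw [C.range] at h1
    exact h1
  have hloc : IsLocalHomeomorph C.p := by
    have h1 := C.cov.isLocalHomeomorphOn
    rw [hpre] at h1
    exact isLocalHomeomorph_iff_isLocalHomeomorphOn_univ.2 h1
  have hemb : Topology.IsOpenEmbedding C.p :=
    Topology.IsOpenEmbedding.of_continuous_injective_isOpenMap C.p.continuous hinj hloc.isOpenMap
  exact ⟨hemb.isEmbedding.toHomeomorph.trans (Homeomorph.setCongr C.range)⟩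

theorem exists_gen {π : Type} [Group π] (h : Group.FG π) :
    ∃ (m : ℕ) (a : Fin m → π), Subgroup.closure (Set.range a) = ⊤ := by
  obtain ⟨S, hS⟩ := h.out
  refine ⟨S.card, fun i => (S.equivFin.symm i : π), ?_⟩
  rw [← hS]
  congr 1
  ext x
  constructor
  · rintro ⟨i, rfl⟩
    exact (S.equivFin.symm i).2
  · intro hx
    exact ⟨S.equivFin ⟨x, hx⟩, by simp⟩

end

end P1j

section P1jsec

variable {F : Type} [TopologicalSpace F] [T2Space F] [CompactSpace F] {d : ℕ}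
variable {p : ℕ} [Fact p.Prime]

/-- 11.5, `d ≥ 3`. -/
theorem simplyConnected_high (hF : ENR F) (hd : LocEuc d F) (hd3 : 3 ≤ d) [ConnectedSpace F]
    (hTC : TC0le F 2)
    (hμ : ∀ (k : Type) [Field k], ∃ (μ : C(Cb, F × F) → k) (ξ : Ch k F), (offD F).Coc d μ ∧
      ξ ∈ (CS.top F).Z k (d : ℤ) ∧ ∀ v : C(Cb, F), IsCube 0 v →
        Finsupp.linearCombination k μ (cr 0 (Finsupp.single v 1) ξ) = 1)
    (hp : (CS.top F).Hz (ZMod p) 1) : SimplyConnectedSpace F := by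
  obtain ⟨π, E, _, _, _, C, hSC, hT2, hE⟩ := exists_rcov hd isOpen_univ
    (isConnected_univ : IsConnected (Set.univ : Set F))
  have hFG : Group.FG π := deck_fg C hd isCompact_univ (Set.Subset.refl _) isOpen_univ
    (ContinuousMap.id E) (fun _ => Set.mem_univ _) (fun _ _ => rfl)
  have hhom : ∀ f : π →* Multiplicative (ZMod p), f = 1 := by
    refine deck_hom C fun c hc => ?_
    rw [← P1j.top_Bd]
    rw [← P1j.top_Z] at hc
    exact hp c hc
  obtain ⟨m, a, ha⟩ := P1j.exists_gen hFG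
  obtain ⟨x0⟩ := (inferInstance : Nonempty F)
  obtain ⟨U, hU, hcov, hH⟩ := hTC
  choose H hH using hH
  let V : Fin 3 → Set F := fun i => {x | (x, x0) ∈ U i}
  have hV : ∀ i, IsOpen (V i) := fun i => (hU i).preimage (by fun_prop)
  have hVc : ⋃ i, V i = Set.univ := by
    rw [Set.eq_univ_iff_forall]
    intro x
    have h1 : (x, x0) ∈ ⋃ i, U i := by
      rw [hcov]
      exact Set.mem_univ _
    obtain ⟨i, hi⟩ := Set.mem_iUnion.1 h1
    exact Set.mem_iUnion.2 ⟨i, hi⟩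
  have hcon : ∀ i, ∃ Hh : C(I × V i, F), (∀ x : V i, Hh (0, x) = x) ∧
      ∀ x : V i, Hh (1, x) = x0 := by
    intro i
    refine ⟨(H i).comp ⟨fun q => (q.1, ⟨((q.2 : F), x0), q.2.2⟩), ?_⟩, ?_, ?_⟩
    · exact continuous_fst.prodMk (Continuous.subtype_mk
        ((continuous_subtype_val.comp continuous_snd).prodMk continuous_const) _)
    · intro x
      exact (hH i ⟨((x : F), x0), x.2⟩).1
    · intro x
      exact (hH i ⟨((x : F), x0), x.2⟩).2
  obtain ⟨lam, hlam⟩ := exists_lam C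
  have hproj : ∀ (k : Type) [Field k], Module.Projective (MonoidAlgebra k π) (augI k π) := by
    intro k _
    obtain ⟨D0, h1, hD⟩ := exists_D0 (k := k) a ha
    obtain ⟨μ, ξ, hμ1, hξ, hμ2⟩ := hμ k
    obtain ⟨𝒲, η, hW, hc, hinv, hη, hηd, hηe, hdη⟩ :=
      kap_bound hF hd hd3 C h1 hD hlam hμ1 hξ hμ2 V hV hVc hcon
    exact proj_of_kap h1 hD C.cont hlam (hz_one k) hW hc hinv hη hηd hηe hdη
  have htriv : ∀ x : π, x = 1 := at_main hhom hproj
  obtain ⟨e⟩ := P1j.homeo_of_trivial C htriv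
  exact ((Homeomorph.Set.univ F).symm.trans e.symm).toHomotopyEquiv.simplyConnectedSpace

/-- 11.5, `d ≤ 2`. -/
theorem simplyConnected_low (hF : ENR F) (hd : LocEuc d F) (hd1 : 1 ≤ d) (hd2 : d ≤ 2)
    (φ : EuclideanSpace ℝ (Fin d) → F) (hφ : Topology.IsOpenEmbedding φ)
    (hN : IsConnected ({φ 0}ᶜ : Set F))
    (hμ : ∀ (k : Type) [Field k], ∃ (μ : C(Cb, F × F) → k) (ξ : Ch k F), (offD F).Coc d μ ∧
      ξ ∈ (CS.top F).Z k (d : ℤ) ∧ ∀ v : C(Cb, F), IsCube 0 v →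
        Finsupp.linearCombination k μ (cr 0 (Finsupp.single v 1) ξ) = 1)
    (hp : ∀ c ∈ CubeHom.Z (ZMod p) 1 ({φ 0}ᶜ : Set F) ∅,
      CubeHom.Bd (ZMod p) 1 ({φ 0}ᶜ : Set F) ∅ c) : SimplyConnectedSpace (Co φ) := by
  have hoN : IsOpen ({φ 0}ᶜ : Set F) := isOpen_compl_singleton
  obtain ⟨π, E, _, _, _, C, hSC, hT2, hE⟩ := exists_rcov hd hoN hN
  obtain ⟨Hh, hHN, hH0, hH1, hHM⟩ := exists_radial φ hφ
  obtain ⟨Ψ, hΨ, hΨM, hΨi⟩ := exists_lift_deform C hE Hh hHN hH0 hH1 hHM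
  have hcomp : IsCompact (Co φ) :=
    (hφ.isOpenMap _ Metric.isOpen_ball).isClosed_compl.isCompact
  have hMN : Co φ ⊆ ({φ 0}ᶜ : Set F) := by
    intro x hx hx0
    rw [Set.mem_singleton_iff] at hx0
    subst hx0
    exact hx ⟨0, by simp, rfl⟩
  have hFG : Group.FG π := deck_fg C hd hcomp hMN hoN Ψ hΨM hΨi
  have hhom : ∀ f : π →* Multiplicative (ZMod p), f = 1 := deck_hom C hp
  obtain ⟨m, a, ha⟩ := P1j.exists_gen hFG
  obtain ⟨lam, hlam⟩ := exists_lam C
  have hlam' : ∀ (g : π) (e : E), (fun e => lam (Ψ e)) (g • e) = g * (fun e => lam (Ψ e)) e := by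
    intro g e
    change lam (Ψ (g • e)) = g * lam (Ψ e)
    rw [hΨ, hlam]
  have hproj : ∀ (k : Type) [Field k], Module.Projective (MonoidAlgebra k π) (augI k π) := by
    intro k _
    obtain ⟨D0, h1, hD⟩ := exists_D0 (k := k) a ha
    obtain ⟨μ, ξ, hμ1, hξ, hμ2⟩ := hμ k
    obtain ⟨𝒲, η, hW, hc, hinv, hη, hηd, hηe, hdη⟩ :=
      kap_bound_low hF hd hd1 hd2 φ hφ C h1 hD hlam hμ1 hξ hμ2 Ψ hΨ hΨM
    exact proj_of_kap h1 hD C.cont hlam' (hz_one k) hW hc hinv hη hηd hηe hdη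
  have htriv : ∀ x : π, x = 1 := at_main hhom hproj
  obtain ⟨e⟩ := P1j.homeo_of_trivial C htriv
  have hSN : SimplyConnectedSpace ({φ 0}ᶜ : Set F) := e.symm.toHomotopyEquiv.simplyConnectedSpace
  -- the retraction
  let i : C(Co φ, ({φ 0}ᶜ : Set F)) := ⟨fun x => ⟨x, hMN x.2⟩, by fun_prop⟩
  let r : C(({φ 0}ᶜ : Set F), Co φ) :=
    ⟨fun x => ⟨Hh (1, x), hH1 x⟩, Continuous.subtype_mk (Hh.continuous.comp (by fun_prop)) _⟩
  have hri : r.comp i = ContinuousMap.id _ := by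
    refine ContinuousMap.ext fun x => Subtype.ext ?_
    exact hHM (i x) x.2 1
  have hir : (ContinuousMap.id _).Homotopic (i.comp r) := by
    refine ⟨⟨⟨fun q => ⟨Hh q, hHN q⟩, Hh.continuous.subtype_mk _⟩, fun x => ?_, fun x => ?_⟩⟩
    · exact Subtype.ext (hH0 x)
    · rfl
  let eq : ContinuousMap.HomotopyEquiv (Co φ) ({φ 0}ᶜ : Set F) :=
    ⟨i, r, by rw [hri], hir.symm⟩
  exact eq.simplyConnectedSpace

end P1jsec

end Pool.Agent.TC
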