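import Pool.Agent.Lib.TC.Inv
import Pool.Agent.Lib.TC.Lin
import Pool.Agent.Lib.TC.Man2
import Pool.Agent.Lib.TC.Deg
import Pool.Agent.Lib.TC.Pi1
import Pool.Agent.Lib.TC.Exc
import Pool.Agent.Lib.TC.HBridge

/-!
# Assembly: the facts on the fixed point set
-/

namespace Pool.Agent.TC

open CubeHom
open scoped Manifold ContDiff ContinuousMap

/-- The facts on the fixed point set which are used. -/
structure FixDat (p : ℕ) (F : Type) [TopologicalSpace F] (d : ℕ) : Prop where
  t2 : T2Space F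
  compact : CompactSpace F
  pc : PathConnectedSpace F
  pos : 1 ≤ d
  loc : LocEuc d F
  enr : Nonempty (ENR F)
  hzp : ∀ j : ℤ, 1 ≤ j → j < d → (CS.top F).Hz (ZMod p) j
  cyc : ∃ ξ ∈ CubeHom.Z ℤ (d : ℤ) (Set.univ : Set F) ∅, LocGen d ξ

end Pool.Agent.TC
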