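import Pool.Agent.Lib.TC.Dual
import Pool.Agent.Lib.TC.AT
import Pool.Agent.Lib.TC.Coll

namespace Pool.Agent.TC

open CubeHom


namespace P1d

open Topology

/-- There are charts inside any open set. -/
theorem exists_chart {n : ℕ} {Y : Type*} [TopologicalSpace Y] (hY : LocEuc n Y)
    {W : Set Y} (hW : IsOpen W) {y : Y} (hy : y ∈ W) :
    ∃ ψ : (Fin n → ℝ) → Y, IsOpenEmbedding ψ ∧ ψ 0 = y ∧ Set.range ψ ⊆ W := by
  obtain ⟨S, hS, hyS, ⟨φ⟩⟩ := hY y
  have h1 : IsOpenEmbedding (fun v : Fin n → ℝ => (φ.symm v : Y)) :=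
    hS.isOpenEmbedding_subtypeVal.comp φ.symm.isOpenEmbedding
  have h2 : IsOpen ((fun v : Fin n → ℝ => (φ.symm v : Y)) ⁻¹' W) := hW.preimage h1.continuous
  have h3 : φ ⟨y, hyS⟩ ∈ (fun v : Fin n → ℝ => (φ.symm v : Y)) ⁻¹' W := by
    simpa using hy
  obtain ⟨r, hr, hball⟩ := Metric.isOpen_iff.1 h2 _ h3
  have h4 : IsOpenEmbedding (OpenPartialHomeomorph.univBall (φ ⟨y, hyS⟩) r) :=
    OpenPartialHomeomorph.isOpenEmbedding _ (OpenPartialHomeomorph.univBall_source _ _)
  refine ⟨_, h1.comp h4, ?_, ?_⟩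
  · simp
  · rintro _ ⟨v, rfl⟩
    apply hball
    have h5 := (OpenPartialHomeomorph.univBall (φ ⟨y, hyS⟩) r).map_source
      (x := v) (by rw [OpenPartialHomeomorph.univBall_source]; trivial)
    rwa [OpenPartialHomeomorph.univBall_target _ hr] at h5

/-- An open subset of a locally Euclidean space is locally Euclidean. -/
theorem locEuc_subtype {d : ℕ} {F : Type} [TopologicalSpace F] (hd : LocEuc d F) {N : Set F}
    (hN : IsOpen N) : LocEuc d N := by
  intro x
  obtain ⟨ψ, hψ, h0, hr⟩ := exists_chart hd hN x.2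
  have h1 : ∀ v, ψ v ∈ N := fun v => hr ⟨v, rfl⟩
  let f : (Fin d → ℝ) → N := fun v => ⟨ψ v, h1 v⟩
  have hf : IsOpenEmbedding f := by
    refine IsOpenEmbedding.of_comp f hN.isOpenEmbedding_subtypeVal ?_
    exact hψ
  exact ⟨Set.range f, hf.isOpen_range, ⟨0, Subtype.ext h0⟩,
    ⟨hf.isEmbedding.toHomeomorph.symm⟩⟩

/-- The deck transformations. -/
def Deck {E M : Type} [TopologicalSpace E] (p : E → M) : Subgroup (E ≃ₜ E) where
  carrier := {g | ∀ x, p (g x) = p x}
  mul_mem' := by
    intro a b ha hb x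
    change p (a (b x)) = p x
    rw [ha, hb]
  one_mem' := fun x => rfl
  inv_mem' := by
    intro a ha x
    change p (a.symm x) = p x
    have := ha (a.symm x)
    rw [Homeomorph.apply_symm_apply] at this
    exact this.symm

/-- The action of the deck transformations. -/
@[instance_reducible]
def deckAct {E M : Type} [TopologicalSpace E] (p : E → M) : MulAction (Deck p) E where
  smul g x := g.1 x
  one_smul _ := rfl
  mul_smul _ _ _ := rfl

end P1d

section covers

variable {F : Type} [TopologicalSpace F] [T2Space F] [CompactSpace F] {d : ℕ}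

open P1d in
/-- The universal covering of a connected open subset of a manifold, as a regular covering with
its group of deck transformations. -/
theorem exists_rcov (hd : LocEuc d F) {N : Set F} (hN : IsOpen N) (hNc : IsConnected N) :
    ∃ (π E : Type) (_ : Group π) (_ : TopologicalSpace E) (_ : MulAction π E) (_ : RCov π E N),
      SimplyConnectedSpace E ∧ T2Space E ∧ LocEuc d E := by
  have i1 : ConnectedSpace N := isConnected_iff_connectedSpace.1 hNc
  obtain ⟨E, _, p, hT2, hSC, hE, hp, hsurj, hdeck⟩ :=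
    exists_universal_cover (locEuc_subtype hd hN)
  letI : MulAction (Deck p) E := deckAct p
  refine ⟨Deck p, E, inferInstance, inferInstance, inferInstance,
    { p := ⟨fun e => (p e : F), continuous_subtype_val.comp hp.continuous⟩
      range := ?_
      cov := ?_
      cont := fun g => g.1.continuous
      p_smul := fun g e => congrArg Subtype.val (g.2 e)
      free := ?_
      trans := ?_ }, hSC, hT2, hE⟩
  · ext x
    constructor
    · rintro ⟨e, rfl⟩
      exact (p e).2
    · intro hx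
      obtain ⟨e, he⟩ := hsurj ⟨x, hx⟩
      exact ⟨e, congrArg Subtype.val he⟩
  · exact IsCoveringMapOn.of_isCoveringMap_subtype hN (fun x => (p x).2) hp
  · intro g e hge
    have h1 : (g.1 : E → E) = id := by
      refine hp.eq_of_comp_eq g.1.continuous continuous_id (funext fun x => ?_) e hge
      exact g.2 x
    exact Subtype.ext (Homeomorph.ext fun x => congrFun h1 x)
  · intro e e' h
    obtain ⟨g, hg, hge⟩ := hdeck e e' (Subtype.ext h)
    exact ⟨⟨g, hg⟩, hge⟩

end covers

namespace P1d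

/-- The radial map. -/
noncomputable def rad {d : ℕ} (t : ℝ) (v : EuclideanSpace ℝ (Fin d)) : EuclideanSpace ℝ (Fin d) :=
  ((1 - t) + t / ‖v‖) • v

theorem rad_zero {d : ℕ} (v : EuclideanSpace ℝ (Fin d)) : rad 0 v = v := by simp [rad]

theorem rad_unit {d : ℕ} (t : ℝ) {v : EuclideanSpace ℝ (Fin d)} (hv : ‖v‖ = 1) : rad t v = v := by
  simp [rad, hv]

theorem norm_rad {d : ℕ} {t : ℝ} (h0 : 0 ≤ t) (h1 : t ≤ 1) {v : EuclideanSpace ℝ (Fin d)}
    (hv : v ≠ 0) : ‖rad t v‖ = (1 - t) * ‖v‖ + t := by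
  have hv' : 0 < ‖v‖ := norm_pos_iff.2 hv
  have h2 : 0 ≤ (1 - t) + t / ‖v‖ := by
    have := div_nonneg h0 hv'.le
    linarith
  rw [rad, norm_smul, Real.norm_of_nonneg h2]
  field_simp

end P1d

section duality

variable {F : Type} [TopologicalSpace F] [T2Space F] [CompactSpace F] {d : ℕ}
  {π E : Type} [Group π] [TopologicalSpace E] [MulAction π E] {k : Type} [Field k] {m : ℕ}

open P1d in
/-- The radial deformation of `F - φ 0` to the complement of the ball. -/
theorem exists_radial (φ : EuclideanSpace ℝ (Fin d) → F) (hφ : Topology.IsOpenEmbedding φ) :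
    ∃ Hh : C(I × ({φ 0}ᶜ : Set F), F), (∀ q, Hh q ∈ ({φ 0}ᶜ : Set F)) ∧
      (∀ x : ({φ 0}ᶜ : Set F), Hh (0, x) = x) ∧ (∀ x, Hh (1, x) ∈ Co φ) ∧
      ∀ x : ({φ 0}ᶜ : Set F), (x : F) ∈ Co φ → ∀ t, Hh (t, x) = x := by
  classical
  let e := hφ.toOpenPartialHomeomorph φ
  have hl : ∀ v, e.symm (φ v) = v := fun v =>
    e.left_inv (x := v) (by rw [Topology.IsOpenEmbedding.toOpenPartialHomeomorph_source]; trivial)
  have htgt : e.target = Set.range φ := hφ.toOpenPartialHomeomorph_target φ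
  have hc : ContinuousOn e.symm (Set.range φ) := by
    rw [← htgt]
    exact e.continuousOn_symm
  have hCo : IsClosed (Co φ) := (hφ.isOpenMap _ Metric.isOpen_ball).isClosed_compl
  have hCl : IsClosed (φ '' Metric.closedBall 0 1) :=
    ((isCompact_closedBall _ _).image hφ.continuous).isClosed
  let f : I × ({φ 0}ᶜ : Set F) → F := fun q =>
    if (q.2 : F) ∈ Co φ then q.2 else φ (rad (q.1 : ℝ) (e.symm (q.2 : F)))
  -- description on the closed ball
  have hf2 : ∀ (q : I × ({φ 0}ᶜ : Set F)), (q.2 : F) ∈ φ '' Metric.closedBall 0 1 →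
      f q = φ (rad (q.1 : ℝ) (e.symm (q.2 : F))) := by
    rintro ⟨t, x⟩ ⟨v, hv, hvx⟩
    change φ v = (x : F) at hvx
    by_cases h : (x : F) ∈ Co φ
    · have h1 : ‖v‖ = 1 := by
        apply le_antisymm (by simpa using hv)
        by_contra hlt
        exact h ⟨v, by simpa using hlt, hvx⟩
      change (if (x : F) ∈ Co φ then (x : F) else φ (rad (t : ℝ) (e.symm (x : F)))) =
        φ (rad (t : ℝ) (e.symm (x : F)))
      rw [if_pos h, ← hvx, hl, rad_unit _ h1]
    · exact if_neg h
  have hf1 : ∀ (q : I × ({φ 0}ᶜ : Set F)), (q.2 : F) ∈ Co φ → f q = q.2 := fun q h => if_pos h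
  have hcov : ∀ x : F, x ∈ Co φ ∨ x ∈ φ '' Metric.closedBall 0 1 := by
    intro x
    by_cases h : x ∈ φ '' Metric.ball 0 1
    · exact Or.inr (Set.image_mono Metric.ball_subset_closedBall h)
    · exact Or.inl h
  have hcont : Continuous f := by
    rw [← continuousOn_univ]
    have hA : IsClosed {q : I × ({φ 0}ᶜ : Set F) | (q.2 : F) ∈ Co φ} :=
      hCo.preimage (continuous_subtype_val.comp continuous_snd)
    have hB : IsClosed {q : I × ({φ 0}ᶜ : Set F) | (q.2 : F) ∈ φ '' Metric.closedBall 0 1} :=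
      hCl.preimage (continuous_subtype_val.comp continuous_snd)
    have hU : (Set.univ : Set (I × ({φ 0}ᶜ : Set F))) =
        {q | (q.2 : F) ∈ Co φ} ∪ {q | (q.2 : F) ∈ φ '' Metric.closedBall 0 1} := by
      ext q
      simpa using hcov q.2
    rw [hU]
    refine ContinuousOn.union_of_isClosed ?_ ?_ hA hB
    · exact (continuous_subtype_val.comp continuous_snd).continuousOn.congr fun q hq => hf1 q hq
    · refine ContinuousOn.congr ?_ fun q hq => hf2 q hq
      refine hφ.continuous.comp_continuousOn ?_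
      have h1 : ContinuousOn (fun q : I × ({φ 0}ᶜ : Set F) => e.symm (q.2 : F))
          {q | (q.2 : F) ∈ φ '' Metric.closedBall 0 1} := by
        refine hc.comp (continuous_subtype_val.comp continuous_snd).continuousOn ?_
        rintro q ⟨v, -, hv⟩
        exact ⟨v, hv⟩
      have h2 : ∀ q ∈ {q : I × ({φ 0}ᶜ : Set F) | (q.2 : F) ∈ φ '' Metric.closedBall 0 1},
          ‖e.symm (q.2 : F)‖ ≠ 0 := by
        rintro ⟨t, x⟩ ⟨v, -, hv⟩ h0
        change φ v = (x : F) at hv
        change ‖e.symm (x : F)‖ = 0 at h0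
        rw [← hv, hl, norm_eq_zero] at h0
        rw [h0] at hv
        exact x.2 hv.symm
      have h3 : ContinuousOn (fun q : I × ({φ 0}ᶜ : Set F) => (q.1 : ℝ))
          {q | (q.2 : F) ∈ φ '' Metric.closedBall 0 1} :=
        (continuous_subtype_val.comp continuous_fst).continuousOn
      exact ((continuousOn_const.sub h3).add (h3.div h1.norm h2)).smul h1
  -- values on the ball
  have hval : ∀ (q : I × ({φ 0}ᶜ : Set F)), (q.2 : F) ∉ Co φ →
      ∃ v : EuclideanSpace ℝ (Fin d), v ≠ 0 ∧ ‖v‖ < 1 ∧ φ v = q.2 ∧ f q = φ (rad (q.1 : ℝ) v) := by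
    rintro ⟨t, x⟩ hx
    obtain ⟨v, hv, hvx⟩ := not_not.1 hx
    change φ v = (x : F) at hvx
    refine ⟨v, ?_, by simpa using hv, hvx, ?_⟩
    · rintro rfl
      exact x.2 hvx.symm
    · rw [hf2 _ ⟨v, Metric.ball_subset_closedBall hv, hvx⟩]
      change φ (rad (t : ℝ) (e.symm (x : F))) = φ (rad (t : ℝ) v)
      rw [← hvx, hl]
  refine ⟨⟨f, hcont⟩, ?_, ?_, ?_, ?_⟩
  · intro q
    by_cases h : (q.2 : F) ∈ Co φ
    · change f q ∈ ({φ 0}ᶜ : Set F)
      rw [hf1 q h]
      exact q.2.2
    · obtain ⟨v, hv0, hv1, hvx, hfq⟩ := hval q h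
      change f q ∈ ({φ 0}ᶜ : Set F)
      rw [hfq]
      intro h1
      have h2 : rad (q.1 : ℝ) v = 0 := hφ.injective h1
      have h3 := norm_rad q.1.2.1 q.1.2.2 hv0
      rw [h2, norm_zero] at h3
      have hv' : 0 < ‖v‖ := norm_pos_iff.2 hv0
      have h4 := q.1.2.1
      have h5 := q.1.2.2
      have h6 := mul_nonneg (sub_nonneg.2 h5) hv'.le
      have h7 : (q.1 : ℝ) = 0 := by linarith
      rw [h7] at h3
      linarith
  · intro x
    by_cases h : (x : F) ∈ Co φ
    · exact hf1 (0, x) h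
    · obtain ⟨v, hv0, hv1, hvx, hfq⟩ := hval (0, x) h
      change f (0, x) = x
      rw [hfq]
      change φ (rad ((0 : I) : ℝ) v) = (x : F)
      rw [Set.Icc.coe_zero, rad_zero]
      exact hvx
  · intro x
    by_cases h : (x : F) ∈ Co φ
    · change f (1, x) ∈ Co φ
      rw [hf1 (1, x) h]
      exact h
    · obtain ⟨v, hv0, hv1, hvx, hfq⟩ := hval (1, x) h
      change f (1, x) ∈ Co φ
      rw [hfq]
      rintro ⟨w, hw, hwv⟩
      have h2 : w = rad ((1 : I) : ℝ) v := hφ.injective hwv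
      have h3 := norm_rad (t := ((1 : I) : ℝ)) (by simp) (by simp) hv0
      rw [← h2] at h3
      simp at h3 hw
      linarith
  · intro x h t
    exact hf1 (t, x) h

end duality

end Pool.Agent.TC
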