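import Pool.Agent.Lib.TC.Dual
import Pool.Agent.Lib.TC.AT
import Pool.Agent.Lib.TC.Coll

/-!
# Row P1f: the deck group is finitely generated
-/

namespace Pool.Agent.TC

open CubeHom Topology

section covers

variable {F : Type} [TopologicalSpace F] [T2Space F] [CompactSpace F] {d : ℕ}
variable {π E : Type} [Group π] [TopologicalSpace E] [MulAction π E] {N : Set F}

omit [T2Space F] [CompactSpace F] in
theorem RCov.isLocalHomeomorph (C : RCov π E N) : IsLocalHomeomorph C.p := by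
  rw [isLocalHomeomorph_iff_isLocalHomeomorphOn_univ]
  have h := C.cov.isLocalHomeomorphOn
  refine h.mono fun e _ => ?_
  have h1 : C.p e ∈ Set.range C.p := Set.mem_range_self e
  exact (Set.ext_iff.mp C.range _).mp h1

omit [CompactSpace F] in
/-- Two points have neighbourhoods such that at most one element of the group moves one to meet
the other. -/
theorem RCov.exists_nhds_fin (C : RCov π E N) (e e' : E) :
    ∃ U ∈ 𝓝 e, ∃ U' ∈ 𝓝 e', {g : π | ∃ u ∈ U, g • u ∈ U'}.Finite := by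
  by_cases heq : C.p e = C.p e'
  · obtain ⟨h, rfl⟩ := C.trans e e' heq
    obtain ⟨φ, hφ, hφ'⟩ := C.isLocalHomeomorph e
    have hs : φ.source ∈ 𝓝 e := φ.open_source.mem_nhds hφ
    have hc : Continuous (fun x : E => h⁻¹ • x) := C.cont h⁻¹
    have hs' : (fun x : E => h⁻¹ • x) ⁻¹' φ.source ∈ 𝓝 (h • e) :=
      (φ.open_source.preimage hc).mem_nhds (by simpa using hφ)
    refine ⟨_, hs, _, hs', (Set.finite_singleton h).subset ?_⟩
    rintro g ⟨u, hu, hgu⟩
    have h1 : C.p (h⁻¹ • g • u) = C.p u := by rw [C.p_smul, C.p_smul]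
    rw [hφ'] at h1
    have h2 : h⁻¹ • g • u = u := φ.injOn hgu hu h1
    rw [smul_smul] at h2
    have h3 := C.free _ _ h2
    rw [Set.mem_singleton_iff]
    exact (inv_mul_eq_one.mp h3).symm
  · obtain ⟨A, B, hA, hB, heA, heB, hAB⟩ := t2_separation heq
    refine ⟨C.p ⁻¹' A, (hA.preimage C.p.continuous).mem_nhds heA, C.p ⁻¹' B,
      (hB.preimage C.p.continuous).mem_nhds heB, ?_⟩
    convert Set.finite_empty
    rw [Set.eq_empty_iff_forall_notMem]
    rintro g ⟨u, hu, hgu⟩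
    rw [Set.mem_preimage, C.p_smul] at hgu
    exact Set.disjoint_left.mp hAB hu hgu

omit [CompactSpace F] in
/-- The action is properly discontinuous. -/
theorem RCov.finite_of_compact (C : RCov π E N) {K : Set E} (hK : IsCompact K) :
    {g : π | ∃ u ∈ K, g • u ∈ K}.Finite := by
  choose U hU U' hU' hfin using C.exists_nhds_fin
  have hKK : IsCompact (K ×ˢ K) := hK.prod hK
  obtain ⟨t, -, ht⟩ := hKK.elim_nhds_subcover (fun q => U q.1 q.2 ×ˢ U' q.1 q.2)
    (fun q _ => prod_mem_nhds (hU _ _) (hU' _ _))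
  refine (t.finite_toSet.biUnion fun q _ => hfin q.1 q.2).subset ?_
  rintro g ⟨u, hu, hgu⟩
  have h := ht (Set.mk_mem_prod hu hgu)
  simp only [Set.mem_iUnion] at h
  obtain ⟨q, hq, hq'⟩ := h
  simp only [Set.mem_iUnion]
  exact ⟨q, hq, u, hq'.1, hq'.2⟩

theorem RCov.exists_compact_nhds (C : RCov π E N) (e : E) : ∃ K ∈ 𝓝 e, IsCompact K := by
  obtain ⟨φ, hφ, hφ'⟩ := C.isLocalHomeomorph e
  obtain ⟨K, hK, hKs, hKc⟩ := local_compact_nhds (φ.open_target.mem_nhds (φ.map_source hφ))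
  refine ⟨φ.symm '' K, ?_, hKc.image_of_continuousOn (φ.continuousOn_symm.mono hKs)⟩
  rw [φ.symm_image_eq_source_inter_preimage hKs]
  exact Filter.inter_mem (φ.open_source.mem_nhds hφ) ((φ.continuousAt hφ).preimage_mem_nhds hK)

/-- Pie1. The deck group is finitely generated. (`p⁻¹ M = Ψ(E)` is connected; `M` is compact,
covered by finitely many relatively compact sheets.) -/
theorem deck_fg (C : RCov π E N) [PathConnectedSpace E] (hd : LocEuc d F) {M : Set F}
    (hM : IsCompact M) (hMN : M ⊆ N) (hN : IsOpen N) (Ψ : C(E, E)) (hΨ : ∀ e, C.p (Ψ e) ∈ M)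
    (hΨ' : ∀ e, C.p e ∈ M → Ψ e = e) : Group.FG π := by
  classical
  have hconn : IsPreconnected (C.p ⁻¹' M) := by
    have h : C.p ⁻¹' M = Set.range Ψ := by
      ext e
      constructor
      · intro he
        exact ⟨e, hΨ' e he⟩
      · rintro ⟨e, rfl⟩
        exact hΨ e
    rw [h]
    exact isPreconnected_range Ψ.continuous
  -- a relatively compact open set which meets all orbits over `M`
  obtain ⟨W, K, hWo, hWK, hK, hW⟩ : ∃ W K : Set E, IsOpen W ∧ W ⊆ K ∧ IsCompact K ∧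
      ∀ x ∈ M, ∃ w ∈ W, C.p w = x := by
    choose Kf hKf hKf' using C.exists_compact_nhds
    have hsurj : ∀ x ∈ M, ∃ e, C.p e = x := fun x hx => by
      exact (Set.ext_iff.mp C.range _).mpr (hMN hx)
    choose! ef hef using hsurj
    obtain ⟨t, htM, ht⟩ := hM.elim_nhds_subcover (fun x => C.p '' interior (Kf (ef x))) (by
      intro x hx
      have h1 : interior (Kf (ef x)) ∈ 𝓝 (ef x) := interior_mem_nhds.mpr (hKf _)
      have h2 := C.isLocalHomeomorph.isOpenMap.image_mem_nhds h1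
      rwa [hef x hx] at h2)
    refine ⟨⋃ x ∈ t, interior (Kf (ef x)), ⋃ x ∈ t, Kf (ef x),
      isOpen_biUnion fun _ _ => isOpen_interior,
      Set.iUnion₂_mono fun _ _ => interior_subset, t.isCompact_biUnion fun x _ => hKf' _, ?_⟩
    intro x hx
    have h := ht hx
    simp only [Set.mem_iUnion] at h
    obtain ⟨y, hy, w, hw, hwx⟩ := h
    exact ⟨w, Set.mem_biUnion hy hw, hwx⟩
  have hfin := C.finite_of_compact hK
  set S : Set π := {g : π | ∃ u ∈ K, g • u ∈ K} with hS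
  rw [Group.fg_iff]
  refine ⟨S, ?_, hfin⟩
  by_contra hne
  obtain ⟨h, hh⟩ : ∃ h : π, h ∉ Subgroup.closure S := by
    by_contra hall
    push Not at hall
    exact hne ((Subgroup.eq_top_iff' _).mpr hall)
  have hopen : ∀ g : π, IsOpen ((fun e : E => g • e) ⁻¹' W) := fun g => hWo.preimage (C.cont g)
  have hA : IsOpen (⋃ g ∈ {g : π | g ∈ Subgroup.closure S}, (fun e : E => g • e) ⁻¹' W) :=
    isOpen_biUnion fun g _ => hopen g
  have hB : IsOpen (⋃ g ∈ {g : π | g ∉ Subgroup.closure S}, (fun e : E => g • e) ⁻¹' W) :=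
    isOpen_biUnion fun g _ => hopen g
  have hcov : C.p ⁻¹' M ⊆ (⋃ g ∈ {g : π | g ∈ Subgroup.closure S}, (fun e : E => g • e) ⁻¹' W) ∪
      (⋃ g ∈ {g : π | g ∉ Subgroup.closure S}, (fun e : E => g • e) ⁻¹' W) := by
    intro e he
    obtain ⟨w, hw, hwe⟩ := hW _ he
    obtain ⟨g, hg⟩ := C.trans e w hwe.symm
    have hgW : e ∈ (fun e : E => g • e) ⁻¹' W := by
      change g • e ∈ W
      rw [hg]
      exact hw
    by_cases hgS : g ∈ Subgroup.closure S
    · exact Or.inl (Set.mem_biUnion (x := g) hgS hgW)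
    · exact Or.inr (Set.mem_biUnion (x := g) hgS hgW)
  obtain ⟨e0⟩ : Nonempty E := inferInstance
  obtain ⟨w, hw, hwe⟩ := hW _ (hΨ e0)
  have hwM : C.p w ∈ M := hwe ▸ hΨ e0
  have h1 : (C.p ⁻¹' M ∩ ⋃ g ∈ {g : π | g ∈ Subgroup.closure S},
      (fun e : E => g • e) ⁻¹' W).Nonempty :=
    ⟨w, hwM, Set.mem_biUnion (x := (1 : π)) (show (1 : π) ∈ Subgroup.closure S from Subgroup.one_mem _)
      (by change (1 : π) • w ∈ W; rwa [one_smul])⟩
  have h2 : (C.p ⁻¹' M ∩ ⋃ g ∈ {g : π | g ∉ Subgroup.closure S},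
      (fun e : E => g • e) ⁻¹' W).Nonempty := by
    refine ⟨h⁻¹ • w, ?_, Set.mem_biUnion (x := h) hh
      (by change h • h⁻¹ • w ∈ W; rwa [smul_inv_smul])⟩
    rw [Set.mem_preimage, C.p_smul]
    exact hwM
  obtain ⟨e, -, he1, he2⟩ := hconn _ _ hA hB hcov h1 h2
  simp only [Set.mem_iUnion] at he1 he2
  obtain ⟨g, hg, hge⟩ := he1
  obtain ⟨g', hg', hge'⟩ := he2
  change g • e ∈ W at hge
  change g' • e ∈ W at hge'
  refine hg' ?_
  have h3 : g' * g⁻¹ ∈ S := by
    refine ⟨g • e, hWK hge, ?_⟩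
    rw [mul_smul, inv_smul_smul]
    exact hWK hge'
  have h4 : g' = (g' * g⁻¹) * g := by group
  rw [h4]
  exact Subgroup.mul_mem _ (Subgroup.subset_closure h3) hg

end covers

end Pool.Agent.TC
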