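import Pool.Agent.Lib.TC.Pi1V

/-!
# Homomorphisms of the deck group to `F_p`
-/

namespace Pool.Agent.TC

open CubeHom

namespace P1g

/-- The domain of the cubes as a convex set. -/
def cbConv : Cb ≃ₜ {v : ℕ → ℝ // v ∈ Set.Icc (0 : ℕ → ℝ) 1} where
  toFun u := ⟨fun i => u i, ⟨fun i => (u i).2.1, fun i => (u i).2.2⟩⟩
  invFun v := fun i => ⟨v.1 i, ⟨v.2.1 i, v.2.2 i⟩⟩
  left_inv u := rfl
  right_inv v := rfl
  continuous_toFun := by fun_prop
  continuous_invFun := continuous_pi fun i =>
    (((continuous_apply i).comp continuous_subtype_val).subtype_mk _)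

theorem cb_contractible : ContractibleSpace Cb := by
  have h : ContractibleSpace {v : ℕ → ℝ // v ∈ Set.Icc (0 : ℕ → ℝ) 1} :=
    (convex_Icc (0 : ℕ → ℝ) 1).contractibleSpace ⟨0, by simp⟩
  exact cbConv.contractibleSpace

theorem cb_lpc : LocallyPathConnectedSpace Cb := by
  have h : LocallyPathConnectedSpace {v : ℕ → ℝ // v ∈ Set.Icc (0 : ℕ → ℝ) 1} :=
    (convex_Icc (0 : ℕ → ℝ) 1).locallyPathConnectedSpace
  exact cbConv.isOpenEmbedding.locallyPathConnectedSpace

section

variable {F : Type} [TopologicalSpace F]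
  {π E : Type} [Group π] [TopologicalSpace E] [MulAction π E] {N : Set F}

theorem p_mem (C : RCov π E N) (e : E) : C.p e ∈ N := by
  have h : C.p e ∈ Set.range C.p := ⟨e, rfl⟩
  rwa [C.range] at h

theorem exists_lift (C : RCov π E N) (σ : C(Cb, F)) (hσ : ∀ u, σ u ∈ N) :
    ∃ σ' : C(Cb, E), C.p.comp σ' = σ := by
  have h1 := cb_contractible
  have h2 := cb_lpc
  have h3 : σ (fun _ => 0) ∈ Set.range C.p := by
    rw [C.range]
    exact hσ _
  obtain ⟨e0, he0⟩ := h3
  obtain ⟨s, hs, -⟩ := C.cov.existsUnique_continuousMap_lifts σ he0 hσ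
  exact ⟨s, ContinuousMap.ext fun u => congrFun hs.2 u⟩

theorem lift_unique (C : RCov π E N) {s s' : C(Cb, E)} (h : C.p.comp s = C.p.comp s') (a : Cb)
    (ha : s a = s' a) : s = s' := by
  have h1 := cb_contractible
  have h2 := cb_lpc
  have hN : ∀ u, (C.p.comp s') u ∈ N := fun u => p_mem C _
  obtain ⟨t, -, ht⟩ := C.cov.existsUnique_continuousMap_lifts (C.p.comp s') (a₀ := a)
    (e₀ := s' a) rfl hN
  have e1 := ht s ⟨ha, funext fun u => DFunLike.congr_fun h u⟩
  have e2 := ht s' ⟨rfl, rfl⟩
  rw [e1, e2]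

/-- The translation. -/
def act (C : RCov π E N) (g : π) : C(E, E) := ⟨fun e => g • e, C.cont g⟩

theorem lift_trans (C : RCov π E N) {s s' : C(Cb, E)} (h : C.p.comp s = C.p.comp s') :
    ∃ g : π, ∀ u, s u = g • s' u := by
  obtain ⟨g, hg⟩ := C.trans (s' fun _ => 0) (s fun _ => 0) (DFunLike.congr_fun h fun _ => 0).symm
  refine ⟨g, fun u => ?_⟩
  have h1 : C.p.comp s = C.p.comp ((act C g).comp s') := by
    rw [h]
    refine ContinuousMap.ext fun v => ?_
    exact (C.p_smul g (s' v)).symm
  have h2 := lift_unique C h1 (fun _ => 0) hg.symm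
  exact DFunLike.congr_fun h2 u

open Classical in
/-- The value on a cube of a homomorphism of the deck group. -/
noncomputable def val (C : RCov π E N) (lam : E → π) {A : Type} [AddCommGroup A]
    (f : π → A) (s : C(Cb, F)) : A :=
  if h : ∃ s' : C(Cb, E), C.p.comp s' = s then f (lam (en h.choose)) - f (lam (st h.choose)) else 0

theorem val_eq (C : RCov π E N) {lam : E → π} (hlam : ∀ (g : π) (e : E), lam (g • e) = g * lam e)
    {A : Type} [AddCommGroup A] {f : π → A} (hf : ∀ x y, f (x * y) = f x + f y) (s' : C(Cb, E)) :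
    val C lam f (C.p.comp s') = f (lam (en s')) - f (lam (st s')) := by
  have h : ∃ s'' : C(Cb, E), C.p.comp s'' = C.p.comp s' := ⟨s', rfl⟩
  unfold val
  rw [dif_pos h]
  obtain ⟨g, hg⟩ := lift_trans C h.choose_spec
  have e1 : en h.choose = g • en s' := hg _
  have e2 : st h.choose = g • st s' := hg _
  rw [e1, e2, hlam, hlam, hf, hf]
  abel

end

end P1g

section P1gsec

variable {F : Type} [TopologicalSpace F] [T2Space F] [CompactSpace F] {d : ℕ}
variable {π E : Type} [Group π] [TopologicalSpace E] [MulAction π E] {N : Set F}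

/-- Pie2. Homomorphisms to `F_p` are trivial if `H_1(N; F_p) = 0`. -/
theorem deck_hom (C : RCov π E N) [PathConnectedSpace E] {p : ℕ} [Fact p.Prime]
    (h : ∀ c ∈ CubeHom.Z (ZMod p) 1 N ∅, CubeHom.Bd (ZMod p) 1 N ∅ c)
    (f : π →* Multiplicative (ZMod p)) : f = 1 := by
  classical
  obtain ⟨lam, hlam⟩ := exists_lam C
  set φ : π → ZMod p := fun x => Multiplicative.toAdd (f x) with hφ
  have hf : ∀ x y, φ (x * y) = φ x + φ y := fun x y => by
    simp only [hφ, map_mul, toAdd_mul]
  set θ : C(Cb, F) → ZMod p := P1g.val C lam φ with hθ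
  have hval : ∀ s' : C(Cb, E), θ (C.p.comp s') = φ (lam (en s')) - φ (lam (st s')) :=
    fun s' => P1g.val_eq C hlam hf s'
  set Θ := Finsupp.linearCombination (ZMod p) θ with hΘ
  -- degenerate 1-cubes
  have hdeg : ∀ q ∈ CubeHom.Q (ZMod p) 1 (∅ : Set F), Θ q = 0 := by
    intro q hq
    rw [hΘ, Finsupp.linearCombination_apply]
    refine Finset.sum_eq_zero fun σ hσ => ?_
    have h1 := (Finsupp.mem_supported _ _).1 hq hσ
    obtain ⟨hc, h2⟩ := h1
    have h2 : Degen 1 σ := h2.resolve_left fun h => h (fun _ => 0)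
    have h3 : θ σ = 0 := by
      by_cases hl : ∃ s' : C(Cb, E), C.p.comp s' = σ
      · obtain ⟨s', rfl⟩ := hl
        -- the cube is constant
        have hconst : ∀ u, (C.p.comp s') u = (C.p.comp s') (fun _ => 0) := by
          obtain ⟨i, hi, hdep⟩ := h2
          have hi0 : i = 0 := by omega
          subst hi0
          intro u
          have e1 : (C.p.comp s') u = (C.p.comp s') (fun j => if j = 0 then u 0 else 0) := by
            refine hc.2 fun j hj => ?_
            have hj : j = 0 := by
              have : (j : ℤ) < 1 := hj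
              omega
            subst hj
            simp
          rw [e1]
          refine hdep fun j hj => ?_
          have hj : j ≠ 0 := hj
          simp [hj]
        have h4 : C.p.comp s' = C.p.comp (ContinuousMap.const _ (s' fun _ => 0)) :=
          ContinuousMap.ext fun u => hconst u
        have h5 := P1g.lift_unique C h4 (fun _ => 0) rfl
        rw [hval, h5]
        simp [en, st]
      · rw [hθ]
        exact dif_neg hl
    change q σ • θ σ = 0
    rw [h3, smul_zero]
  -- boundaries
  have hbd : ∀ b ∈ CubeHom.C (ZMod p) 2 N, Θ (bd 2 b) = 0 := by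
    intro b hb
    have h1 : ∀ σ : C(Cb, F), (∀ u, σ u ∈ N) → Θ (bd 2 (Finsupp.single σ 1)) = 0 := by
      intro σ hσ
      obtain ⟨s, rfl⟩ := P1g.exists_lift C σ hσ
      have e : ∀ (i : ℕ) (t : I), Θ (face i t (Finsupp.single (C.p.comp s) 1)) =
          φ (lam (en (s.comp (ins i t)))) - φ (lam (st (s.comp (ins i t)))) := by
        intro i t
        rw [face_single, hΘ, Finsupp.linearCombination_single, one_smul]
        exact hval (s.comp (ins i t))
      rw [bd_apply, show (2 : ℤ).toNat = 2 from rfl, Finset.sum_range_succ, Finset.sum_range_one,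
        map_add, map_smul, map_smul, map_sub, map_sub, e, e, e, e]
      have q1 : en (s.comp (ins 0 1)) = en (s.comp (ins 1 1)) := by
        refine congrArg s (funext fun j => ?_)
        rcases j with _ | _ | j <;> simp [ins]
      have q2 : st (s.comp (ins 0 1)) = en (s.comp (ins 1 0)) := by
        refine congrArg s (funext fun j => ?_)
        rcases j with _ | _ | j <;> simp [ins]
      have q3 : en (s.comp (ins 0 0)) = st (s.comp (ins 1 1)) := by
        refine congrArg s (funext fun j => ?_)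
        rcases j with _ | _ | j <;> simp [ins]
      have q4 : st (s.comp (ins 0 0)) = st (s.comp (ins 1 0)) := by
        refine congrArg s (funext fun j => ?_)
        rcases j with _ | _ | j <;> simp [ins]
      rw [q1, q2, q3, q4]
      simp only [pow_zero, pow_one, one_smul, neg_smul]
      abel
    have h2 : ∀ b ∈ CubeHom.C (ZMod p) 2 N, Θ (bd 2 b) = (0 : Ch (ZMod p) F →ₗ[ZMod p] ZMod p) b := by
      intro b hb
      refine map_eq_of_supported (f := Θ.comp (bd 2)) (g := 0) ?_ hb
      intro σ hσ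
      exact h1 σ hσ.2
    exact h2 b hb
  -- the loop
  refine MonoidHom.ext fun g => ?_
  obtain ⟨e0⟩ := (inferInstance : Nonempty E)
  obtain ⟨γ⟩ := PathConnectedSpace.joined e0 (g • e0)
  let s : C(Cb, E) := ⟨fun u => γ (u 0), γ.continuous.comp (continuous_apply 0)⟩
  have hs0 : st s = e0 := γ.source
  have hs1 : en s = g • e0 := by
    change γ (if (0 : ℕ) = 0 then 1 else 0) = g • e0
    rw [if_pos rfl, γ.target]
  have hcube : IsCube 1 (C.p.comp s) := by
    refine ⟨by omega, fun x y hxy => ?_⟩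
    change C.p (γ (x 0)) = C.p (γ (y 0))
    rw [hxy 0 (by simp)]
  have hC : (Finsupp.single (C.p.comp s) 1 : Ch (ZMod p) F) ∈ CubeHom.C (ZMod p) 1 N :=
    mem_C_single hcube (fun u => P1g.p_mem C _) 1
  have hZ : (Finsupp.single (C.p.comp s) 1 : Ch (ZMod p) F) ∈ CubeHom.Z (ZMod p) 1 N ∅ := by
    refine ⟨hC, ?_⟩
    change bd 1 _ ∈ CubeHom.Q (ZMod p) (1 - 1) ∅
    have e : bd 1 (Finsupp.single (C.p.comp s) 1 : Ch (ZMod p) F) = 0 := by
      rw [bd_apply, show (1 : ℤ).toNat = 1 from rfl, Finset.sum_range_one, face_single, face_single]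
      have e1 : (C.p.comp s).comp (ins 0 1) = (C.p.comp s).comp (ins 0 0) := by
        refine ContinuousMap.ext fun u => ?_
        change C.p (γ (ins 0 1 u 0)) = C.p (γ (ins 0 0 u 0))
        rw [ins_apply_self, ins_apply_self, γ.target, γ.source, C.p_smul]
      rw [e1, sub_self, smul_zero]
    rw [e]
    exact Submodule.zero_mem _
  obtain ⟨b, hb, hq⟩ := h _ hZ
  have h1 := hdeg _ hq
  have e2 : Θ (bd (1 + 1) b) = 0 := hbd b hb
  rw [map_sub, e2, sub_zero, hΘ, Finsupp.linearCombination_single, one_smul, hval, hs0, hs1,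
    hlam, hf, add_sub_cancel_right] at h1
  have h2 : Multiplicative.toAdd (f g) = 0 := h1
  exact Multiplicative.toAdd.injective h2

end P1gsec

end Pool.Agent.TC
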