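import Pool.Agent.Lib.TC.Pi1G
import Pool.Agent.Lib.TC.Cap

/-!
# Row P1h
-/

namespace Pool.Agent.TC

open CubeHom

namespace P1h

section aux

variable {X Y : Type} [TopologicalSpace X] [TopologicalSpace Y] {R : Type} [CommRing R]

theorem supp_mono {S T : Set (C(Cb, X))} {c : Ch R X} (hc : c ∈ Finsupp.supported R R S)
    (h : ∀ σ, σ ∈ S → σ ∈ T) : c ∈ Finsupp.supported R R T :=
  Finsupp.supported_mono h hc

theorem top_C {k : ℤ} {c : Ch R X} : c ∈ (CS.top X).C R k ↔ c ∈ CubeHom.C R k Set.univ :=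
  ⟨fun h => supp_mono (T := {σ | IsCube k σ ∧ ∀ u, σ u ∈ Set.univ}) h
    fun _ hσ => ⟨hσ.1, fun _ => Set.mem_univ _⟩,
    fun h => supp_mono (T := {σ | IsCube k σ ∧ (CS.top X).ok σ}) h fun _ hσ => ⟨hσ.1, trivial⟩⟩

theorem top_Q {k : ℤ} {c : Ch R X} : c ∈ (CS.top X).Q R k ↔ c ∈ CubeHom.Q R k ∅ := by
  refine ⟨fun h => supp_mono (T := {σ | IsCube k σ ∧ ((∀ u, σ u ∈ (∅ : Set X)) ∨ Degen k σ)}) h
    fun _ hσ => ⟨hσ.1, Or.inr (hσ.2.2.resolve_left id)⟩,
    fun h => supp_mono (T := {σ | IsCube k σ ∧ (CS.top X).ok σ ∧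
      ((CS.top X).nul σ ∨ Degen k σ)}) h fun _ hσ => ⟨hσ.1, trivial, ?_⟩⟩
  rcases hσ.2 with h | h
  · exact (h (fun _ => 0)).elim
  · exact Or.inr h

theorem bd_to_top {k : ℤ} {c : Ch R X} (h : CubeHom.Bd R k Set.univ ∅ c) :
    (CS.top X).Bd R k c := by
  obtain ⟨b, hb, hb'⟩ := h
  exact ⟨b, top_C.mpr hb, top_Q.mpr hb'⟩

/-- A chain of cubes in a subset comes from the subspace. -/
theorem exists_pull (W : Set X) (c : Ch R X) (h : ∀ t ∈ c.support, ∀ u, t u ∈ W) :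
    ∃ c' : Ch R W, push (⟨Subtype.val, continuous_subtype_val⟩ : C(W, X)) c' = c := by
  classical
  set i : C(W, X) := ⟨Subtype.val, continuous_subtype_val⟩ with hi
  have hinj : Function.Injective (fun σ : C(Cb, W) => i.comp σ) := by
    intro σ τ hστ
    ext u
    have := DFunLike.congr_fun hστ u
    exact this
  refine ⟨c.comapDomain _ hinj.injOn, ?_⟩
  exact Finsupp.mapDomain_comapDomain _ hinj c (fun t ht => ⟨⟨fun u => ⟨t u, h t ht u⟩, by fun_prop⟩,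
    by ext u; rfl⟩)

theorem push_incl_apply (W : Set X) (c : Ch R W) (σ : C(Cb, W)) :
    push (⟨Subtype.val, continuous_subtype_val⟩ : C(W, X)) c
      ((⟨Subtype.val, continuous_subtype_val⟩ : C(W, X)).comp σ) = c σ := by
  have hinj : Function.Injective
      (fun σ : C(Cb, W) => (⟨Subtype.val, continuous_subtype_val⟩ : C(W, X)).comp σ) := by
    intro σ τ hστ
    ext u
    have := DFunLike.congr_fun hστ u
    exact this
  exact Finsupp.mapDomain_apply hinj c σ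

theorem degen_of_incl {W : Set X} {k : ℤ} {σ : C(Cb, W)}
    (h : Degen k ((⟨Subtype.val, continuous_subtype_val⟩ : C(W, X)).comp σ)) : Degen k σ := by
  obtain ⟨i, hi, h⟩ := h
  exact ⟨i, hi, fun x y hxy => Subtype.ext (h hxy)⟩

theorem isCube_of_incl {W : Set X} {k : ℤ} {σ : C(Cb, W)}
    (h : IsCube k ((⟨Subtype.val, continuous_subtype_val⟩ : C(W, X)).comp σ)) : IsCube k σ :=
  ⟨h.1, fun _ _ hxy => Subtype.ext (h.2 hxy)⟩

/-- The normalisation of the fundamental cycle does not depend on the representative. -/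
theorem mu_small {F : Type} [TopologicalSpace F] {k : Type} [Field k] {d : ℕ}
    {μ : C(Cb, F × F) → k} (hμ : (offD F).Coc d μ) {ξ ξ' : Ch k F}
    (hμ1 : ∀ v : C(Cb, F), IsCube 0 v →
      Finsupp.linearCombination k μ (cr 0 (Finsupp.single v 1) ξ) = 1)
    (hB : (CS.top F).Bd k (d : ℤ) (ξ - ξ')) (v : C(Cb, F)) (hv : IsCube 0 v) :
    Finsupp.linearCombination k μ (cr 0 (Finsupp.single v 1) ξ') = 1 := by
  obtain ⟨b, hb, hb'⟩ := hB
  have hvC : (Finsupp.single v 1 : Ch k F) ∈ CubeHom.C k ((0 : ℕ) : ℤ) Set.univ :=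
    mem_C_single (by exact_mod_cast hv) (fun _ => Set.mem_univ _) _
  have hbC : b ∈ CubeHom.C k ((d : ℤ) + 1) Set.univ := top_C.mp hb
  have hqQ : ξ - ξ' - bd ((d : ℤ) + 1) b ∈ CubeHom.Q k (d : ℤ) ∅ := top_Q.mp hb'
  have h1 : (offD F).Bd k (d : ℤ) (cr 0 (Finsupp.single v 1) (ξ - ξ')) := by
    refine ⟨cr 0 (Finsupp.single v 1) b, ?_, ?_⟩
    · have h2 := cr_mem_C hvC hbC
      rw [Nat.cast_zero, zero_add] at h2
      exact supp_mono (T := {σ | IsCube ((d : ℤ) + 1) σ ∧ (offD F).ok σ}) h2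
        fun σ hσ => ⟨hσ.1, Set.univ, rfl, fun _ => Set.mem_univ _⟩
    · have h2 := bd_cr hvC hbC
      rw [Nat.cast_zero, zero_add, bd_of_nonpos le_rfl, map_zero, LinearMap.zero_apply, zero_add,
        pow_zero, one_smul] at h2
      rw [h2, ← map_sub]
      have h3 := cr_mem_Q_right hvC hqQ
      rw [Nat.cast_zero, zero_add, Set.prod_empty] at h3
      refine supp_mono (T := {σ | IsCube (d : ℤ) σ ∧ (offD F).ok σ ∧
        ((offD F).nul σ ∨ Degen (d : ℤ) σ)}) h3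
        fun σ hσ => ⟨hσ.1, ⟨Set.univ, rfl, fun _ => Set.mem_univ _⟩, ?_⟩
      rcases hσ.2 with h | h
      · exact (h (fun _ => 0)).elim
      · exact Or.inr h
  have h2 := coc_bd (offD F) hμ h1
  rw [map_sub, map_sub, hμ1 v hv, sub_eq_zero] at h2
  exact h2.symm

theorem dl_add {A : Type} [AddCommGroup A] (j : ℕ) (u v : C(Cb, X) → A) (σ : C(Cb, X)) :
    dl j (fun τ => u τ + v τ) σ = dl j u σ + dl j v σ := by
  simp only [dl, ← Finset.sum_add_distrib, ← smul_add]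
  refine Finset.sum_congr rfl fun i _ => ?_
  congr 1
  abel

theorem dl_sub {A : Type} [AddCommGroup A] (j : ℕ) (u v : C(Cb, X) → A) (σ : C(Cb, X)) :
    dl j (fun τ => u τ - v τ) σ = dl j u σ - dl j v σ := by
  simp only [dl, ← Finset.sum_sub_distrib, ← smul_sub]
  refine Finset.sum_congr rfl fun i _ => ?_
  congr 1
  abel

theorem dl_map {A B : Type} [AddCommGroup A] [AddCommGroup B] (f : A →+ B) (j : ℕ)
    (u : C(Cb, X) → A) (σ : C(Cb, X)) : dl j (fun τ => f (u τ)) σ = f (dl j u σ) := by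
  simp only [dl, map_sum, map_zsmul, map_sub]

/-- The cap product of a cocycle with a chain is a cycle in a contractible sheet, so it bounds, if
the cocycle vanishes over the complement of the sheet. -/
theorem sheet_bounds {E F : Type} [TopologicalSpace E] [TopologicalSpace F] {k : Type} [Field k]
    (p : C(E, F)) {W : Set F} (s : C(W, E)) (hs : ∀ x : W, p (s x) = x) {e0 : E}
    (G : C(I × W, E)) (hG0 : ∀ x, G (0, x) = s x) (hG1 : ∀ x, G (1, x) = e0) {r q : ℕ}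
    {u : C(Cb, E) → k} (hu : (CS.top E).Coc q u) {P0 : C(Cb, F) → Prop}
    (hP0 : ∀ (σ : C(Cb, F)) (f : C(Cb, Cb)), P0 σ → P0 (σ.comp f))
    (hu0 : ∀ σ : C(Cb, E), IsCube (q : ℤ) σ → P0 (p.comp σ) → u σ = 0)
    {ξ : Ch k F} (hξ : ξ ∈ CubeHom.C k ((r + 1 + q : ℕ) : ℤ) Set.univ)
    (hbd : ∀ t ∈ (bd ((r + 1 + q : ℕ) : ℤ) ξ).support, Degen ((r + q : ℕ) : ℤ) t)
    (hsm : ∀ t ∈ ξ.support, (∀ w, t w ∈ W) ∨ P0 t)
    (τ : C(Cb, F) → C(Cb, E)) (hτ : ∀ t ∈ ξ.support, p.comp (τ t) = t)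
    (hτc : ∀ t ∈ ξ.support, IsCube ((r + 1 + q : ℕ) : ℤ) (τ t))
    (hτ' : ∀ t ∈ ξ.support, ∀ h : ∀ w, t w ∈ W, τ t = s.comp ⟨fun w => ⟨t w, h w⟩, by fun_prop⟩) :
    CubeHom.Bd k ((r + 1 : ℕ) : ℤ) Set.univ ∅
      (capc (r + 1) q u (∑ t ∈ ξ.support, Finsupp.single (τ t) (ξ t))) := by
  classical
  set i : C(W, F) := ⟨Subtype.val, continuous_subtype_val⟩ with hi
  set n : ℕ := r + 1 + q with hn
  have hcube : ∀ t ∈ ξ.support, IsCube (n : ℤ) t := fun t ht =>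
    ((Finsupp.mem_supported _ _).mp hξ ht).1
  -- the two parts of the chain
  set ξ1 : Ch k F := ξ.filter (fun t => ∀ w, t w ∈ W) with hξ1
  set ξ2 : Ch k F := ξ.filter (fun t => ¬ ∀ w, t w ∈ W) with hξ2
  have hsplit : ξ1 + ξ2 = ξ := Finsupp.filter_add_filter_not ξ _
  have hs1 : ∀ t ∈ ξ1.support, t ∈ ξ.support ∧ ∀ w, t w ∈ W := by
    intro t ht
    rw [hξ1, Finsupp.support_filter, Finset.mem_filter] at ht
    exact ht
  have hs2 : ∀ t ∈ ξ2.support, t ∈ ξ.support ∧ ¬ ∀ w, t w ∈ W := by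
    intro t ht
    rw [hξ2, Finsupp.support_filter, Finset.mem_filter] at ht
    exact ht
  have hs2' : ∀ t ∈ ξ2.support, P0 t := fun t ht => (hsm t (hs2 t ht).1).resolve_left (hs2 t ht).2
  obtain ⟨ζ, hζ⟩ := exists_pull W ξ1 (fun t ht => (hs1 t ht).2)
  have hζa : ∀ σ : C(Cb, W), ξ1 (i.comp σ) = ζ σ := by
    intro σ
    rw [← hζ]
    exact push_incl_apply W ζ σ
  have hζC : ζ ∈ CubeHom.C k (n : ℤ) Set.univ := by
    refine (Finsupp.mem_supported _ _).mpr fun σ hσ => ⟨?_, fun _ => Set.mem_univ _⟩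
    rw [Finset.mem_coe, Finsupp.mem_support_iff, ← hζa, ← Finsupp.mem_support_iff] at hσ
    exact isCube_of_incl (hcube _ (hs1 _ hσ).1)
  -- the part over the sheet
  have hc1 : ∑ t ∈ ξ1.support, Finsupp.single (τ t) (ξ1 t) = push s ζ := by
    have h1 : ∀ c : Ch k W, push s c = ∑ σ ∈ c.support, Finsupp.single (s.comp σ) (c σ) := by
      intro c
      rw [push, Finsupp.lmapDomain_apply, Finsupp.mapDomain, Finsupp.sum]
    rw [h1]
    symm
    refine Finset.sum_bij (fun σ _ => i.comp σ) ?_ ?_ ?_ ?_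
    · intro σ hσ
      rw [Finsupp.mem_support_iff] at hσ ⊢
      rwa [hζa]
    · intro σ _ σ' _ h
      ext w
      exact DFunLike.congr_fun h w
    · intro t ht
      refine ⟨⟨fun w => ⟨t w, (hs1 t ht).2 w⟩, by fun_prop⟩, ?_, by ext w; rfl⟩
      rw [Finsupp.mem_support_iff, ← hζa]
      exact Finsupp.mem_support_iff.mp ht
    · intro σ hσ
      have h2 : i.comp σ ∈ ξ1.support := by
        rw [Finsupp.mem_support_iff] at hσ ⊢
        rwa [hζa]
      rw [hτ' _ (hs1 _ h2).1 (hs1 _ h2).2, hζa]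
      rfl
  -- the sum
  have hsum : ∑ t ∈ ξ.support, Finsupp.single (τ t) (ξ t) =
      push s ζ + ∑ t ∈ ξ2.support, Finsupp.single (τ t) (ξ2 t) := by
    rw [← hc1]
    have h1 : ∀ c : Ch k F, ∑ t ∈ c.support, Finsupp.single (τ t) (c t) =
        Finsupp.lmapDomain k k τ c := fun c => rfl
    rw [h1, h1, h1, ← map_add, hsplit]
  -- the second part does not contribute
  have hcap2 : capc (r + 1) q u (∑ t ∈ ξ2.support, Finsupp.single (τ t) (ξ2 t)) = 0 := by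
    rw [map_sum]
    refine Finset.sum_eq_zero fun t ht => ?_
    rw [capc_single, cap1, Finset.sum_eq_zero, smul_zero]
    intro H hH
    rw [hu0, mul_zero, Finsupp.single_zero]
    · exact isCube_wbk hH (hτc t (hs2 t ht).1)
    · rw [← ContinuousMap.comp_assoc, hτ t (hs2 t ht).1]
      exact hP0 _ _ (hs2' t ht)
  -- the cap product in the sheet
  have hus : (CS.top W).Coc q (pb s u) := by
    refine ⟨fun σ hσ _ h => hu.1 _ (hσ.comp s) trivial (Or.inr ?_), fun σ hσ _ => ?_⟩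
    · exact (h.resolve_left id).comp s
    · exact hu.2 (s.comp σ) (hσ.comp s) trivial
  set w : Ch k W := capc (r + 1) q (pb s u) ζ with hw
  have hwC : w ∈ CubeHom.C k ((r + 1 : ℕ) : ℤ) Set.univ := capc_mem_C hζC
  have hbdζ : ∀ t ∈ (bd ((r + 1 + q : ℕ) : ℤ) ζ).support, Degen ((r + q : ℕ) : ℤ) t ∨
      ∀ f : C(Cb, Cb), IsCube (q : ℤ) (t.comp f) → pb s u (t.comp f) = 0 := by
    intro t ht
    have h1 : bd (n : ℤ) ξ1 (i.comp t) ≠ 0 := by
      rw [← hζ, bd_push, push_incl_apply]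
      exact Finsupp.mem_support_iff.mp ht
    have h2 : bd (n : ℤ) ξ1 = bd (n : ℤ) ξ - bd (n : ℤ) ξ2 := by
      rw [← hsplit, map_add, add_sub_cancel_right]
    by_cases h3 : bd (n : ℤ) ξ2 (i.comp t) = 0
    · left
      refine degen_of_incl (hbd _ ?_)
      rw [Finsupp.mem_support_iff]
      intro h4
      rw [h2, Finsupp.sub_apply, h3, sub_zero] at h1
      exact h1 h4
    · right
      have h4 : ξ2 ∈ Finsupp.supported k k {t | IsCube (n : ℤ) t ∧ P0 t} :=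
        (Finsupp.mem_supported _ _).mpr fun t ht => ⟨hcube _ (hs2 t ht).1, hs2' t ht⟩
      have h5 := bd_mem_closed hP0 h4
      have h6 := ((Finsupp.mem_supported _ _).mp h5 (Finsupp.mem_support_iff.mpr h3)).2
      intro f hf
      refine hu0 _ (hf.comp s) ?_
      have h7 : p.comp (s.comp (t.comp f)) = (i.comp t).comp f := by
        ext x
        exact hs _
      rw [h7]
      exact hP0 _ _ h6
  have hwZ : w ∈ CubeHom.Z k ((r + 1 : ℕ) : ℤ) Set.univ ∅ := by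
    refine ⟨hwC, ?_⟩
    have h1 := bd_capc hus hζC hbdζ
    have h2 := bd_mem_C hwC
    change bd ((r + 1 : ℕ) : ℤ) w ∈ CubeHom.Q k (((r + 1 : ℕ) : ℤ) - 1) ∅
    unfold CubeHom.Q
    rw [Finsupp.mem_supported]
    intro σ hσ
    refine ⟨((Finsupp.mem_supported _ _).mp h2 hσ).1, Or.inr ?_⟩
    have h3 := h1 σ hσ
    have h4 : ((r + 1 : ℕ) : ℤ) - 1 = (r : ℤ) := by push_cast; ring
    rw [h4]
    exact h3
  have hB := Bd_homotopy (R := k) (H := G) (U := Set.univ) (A := ∅) (V := Set.univ) (A' := ∅)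
    (fun _ _ _ => Set.mem_univ _) (fun _ _ h => h.elim) hwZ
  have h0 : atTime G 0 = s := by
    ext x
    exact hG0 x
  rw [h0] at hB
  have h1 : push (atTime G 1) w ∈ CubeHom.Q k ((r + 1 : ℕ) : ℤ) ∅ := by
    refine map_mem_of_supported (R := k) (push (R := k) (atTime G 1)) _ (fun σ hσ => ?_) hwC
    rw [push_single]
    refine mem_Q_single (hσ.1.comp _) (Or.inr ⟨0, by push_cast; omega, ?_⟩) _
    intro x y _
    change G (1, σ x) = G (1, σ y)
    rw [hG1, hG1]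
  have h2 : CubeHom.Bd k ((r + 1 : ℕ) : ℤ) Set.univ ∅ (push s w) := by
    have h3 := (Bd.of_mem_Q (U := Set.univ) h1).sub hB
    rwa [sub_sub_cancel] at h3
  rw [hsum, map_add, hcap2, add_zero, ← push_capc]
  exact h2

end aux

section main

variable {k π : Type} [Field k] [Group π] {m : ℕ}

/-- Left translation as an additive map. -/
noncomputable def ltHom (g : π) : (Fin m → MonoidAlgebra k π) →+ (Fin m → MonoidAlgebra k π) where
  toFun := lt g
  map_zero' := by funext i; simp [lt]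
  map_add' x y := by funext i; simp [lt, mul_add]

variable {F : Type} [TopologicalSpace F] {E : Type} [TopologicalSpace E] [MulAction π E]

/-- Lifts of small cubes are cubes. -/
theorem isCube_lift (Fi : FineCov π E F) {σ : C(Cb, E)} (h : Fi.Sm σ) {n : ℤ}
    (hn : IsCube n (Fi.p.comp σ)) : IsCube n σ := by
  refine ⟨hn.1, fun x y hxy => ?_⟩
  exact (Fi.fine σ σ h h ⟨fun _ => 0, fun _ => 0, rfl⟩ x y).2 (hn.2 hxy)

end main

end P1h

open P1h

section main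

variable {F : Type} [TopologicalSpace F] [T2Space F] [CompactSpace F] {d : ℕ}
  {π E : Type} [Group π] [TopologicalSpace E] [MulAction π E] {k : Type} [Field k] {m : ℕ}

/-- Pic. `d ≥ 3`, closed case: the cap product of `κ'` with the fundamental cycle is a cycle of
positive degree in the sheet over `U 2`, which is contractible in `E`, so it bounds; the duality
formula gives the cochain. -/
theorem kap_bound (hF : ENR F) (hd : LocEuc d F) (hd3 : 3 ≤ d)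
    (C : RCov π E (Set.univ : Set F)) [SimplyConnectedSpace E]
    {a : Fin m → π} {D0 : π → Fin m → MonoidAlgebra k π} (h1 : D0 1 = 0)
    (hD : ∀ g : π, phi a (D0 g) = MonoidAlgebra.of k π g - 1) {lam : E → π}
    (hlam : ∀ (g : π) (e : E), lam (g • e) = g * lam e)
    {μ : C(Cb, F × F) → k} (hμ : (offD F).Coc d μ) {ξ : Ch k F}
    (hξ : ξ ∈ (CS.top F).Z k (d : ℤ))
    (hμ1 : ∀ v : C(Cb, F), IsCube 0 v →
      Finsupp.linearCombination k μ (cr 0 (Finsupp.single v 1) ξ) = 1)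
    (U : Fin 3 → Set F) (hU : ∀ i, IsOpen (U i)) (hcov : ⋃ i, U i = Set.univ) {x0 : F}
    (hcon : ∀ i, ∃ Hh : C(I × U i, F), (∀ x : U i, Hh (0, x) = x) ∧
      ∀ x : U i, Hh (1, x) = x0) :
    ∃ (𝒲 : Set (Set E)) (η : C(Cb, E) → (Fin m → MonoidAlgebra k π)), (∀ W ∈ 𝒲, IsOpen W) ∧
      ⋃₀ 𝒲 = Set.univ ∧ (∀ (g : π), ∀ W ∈ 𝒲, (fun e : E => g • e) '' W ∈ 𝒲) ∧
      (∀ σ, phi a (η σ) = 0) ∧ (∀ σ : C(Cb, E), IsCube 1 σ → Degen 1 σ → η σ = 0) ∧
      (∀ (g : π) (σ : C(Cb, E)),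
        η ((⟨fun e => g • e, C.cont g⟩ : C(E, E)).comp σ) = lt g (η σ)) ∧
      ∀ σ : C(Cb, E), IsCube 2 σ → (∃ W ∈ 𝒲, ∀ u, σ u ∈ W) → dl 1 η σ = kap D0 lam σ := by
  classical
  obtain ⟨r, rfl⟩ : ∃ r, d = r + 1 + 2 := ⟨d - 3, by omega⟩
  obtain ⟨ρ, hρ⟩ := exists_repK (k := k) a
  obtain ⟨hk1, hk2, hk3⟩ := kap_props h1 hD C.cont hlam
  choose Hh hH0 hH1 using hcon
  have hsheet := fun i => exists_sheet C (hU i) (Hh i) (hH0 i) (hH1 i)
  choose s e0 G lamA hs hG0 hG1 hlamA _ hloc using hsheet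
  obtain ⟨η1, hη1K, hη1d, hη1e, hη1κ⟩ := exists_kap' C.p C.cont C.p_smul h1 hD hlam
    (fun i : Fin 2 => U i.castSucc) (fun i => lamA i.castSucc) (fun i => hlamA i.castSucc)
    (fun i => hloc i.castSucc)
  -- the modified cocycle
  have hmem : ∀ σ, kap D0 lam σ - dl 1 η1 σ ∈ kerP k a := by
    intro σ
    refine Submodule.sub_mem _ (hk2 σ) ?_
    refine Submodule.sum_mem _ fun i _ => ?_
    rw [← Int.cast_smul_eq_zsmul k]
    exact Submodule.smul_mem _ _ (Submodule.sub_mem _ (hη1K _) (hη1K _))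
  set κ : C(Cb, E) → kerP k a := fun σ => ⟨kap D0 lam σ - dl 1 η1 σ, hmem σ⟩ with hκ
  have hval : ∀ (j : ℕ) (u : C(Cb, E) → kerP k a) (σ : C(Cb, E)),
      ((dl j u σ : kerP k a) : Fin m → MonoidAlgebra k π) = dl j (fun τ => (u τ).1) σ := fun j u σ =>
    (dl_map (kerP k a).subtype.toAddMonoidHom j u σ).symm
  have hη1rel : (CS.top E).Rel 1 η1 := fun σ hσ _ h => hη1d σ hσ (h.resolve_left id)
  have hκc : (CS.top E).Coc 2 κ := by
    refine ⟨fun σ hσ ht h => Subtype.ext ?_, fun σ hσ _ => Subtype.ext ?_⟩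
    · change kap D0 lam σ - dl 1 η1 σ = 0
      rw [hk1.1 σ hσ ht h, dl_rel (CS.top E) hη1rel σ hσ ht h, sub_zero]
    · rw [hval]
      change dl 2 (fun τ => kap D0 lam τ - dl 1 η1 τ) σ = 0
      rw [dl_sub, hk1.2 σ hσ trivial, dl_dl, sub_zero]
  have hκe : ∀ (g : π) (σ : C(Cb, E)),
      κ ((⟨fun e => g • e, C.cont g⟩ : C(E, E)).comp σ) = ρ g (κ σ) := by
    intro g σ
    refine Subtype.ext ?_
    rw [hρ]
    change kap D0 lam _ - dl 1 η1 _ = lt g (kap D0 lam σ - dl 1 η1 σ)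
    rw [hk3]
    have h2 : dl 1 η1 ((⟨fun e => g • e, C.cont g⟩ : C(E, E)).comp σ) = lt g (dl 1 η1 σ) := by
      have h3 := dl_map (ltHom (k := k) (m := m) g) 1 η1 σ
      change dl 1 (fun τ => lt g (η1 τ)) σ = lt g (dl 1 η1 σ) at h3
      rw [← h3]
      simp only [dl, ContinuousMap.comp_assoc, hη1e]
    rw [h2]
    exact ((ltHom (k := k) (m := m) g).map_sub _ _).symm
  -- the fine cover and the small fundamental cycle
  obtain ⟨Fi, hFp, hF1, -⟩ := exists_fine hF hd isOpen_univ C (Set.range U)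
    (by rintro _ ⟨i, rfl⟩; exact hU i) (by rw [Set.sUnion_range, hcov])
  have hsurj : ∀ x : F, ∃ e : E, Fi.p e = x := by
    intro x
    rw [hFp]
    exact (Set.ext_iff.mp C.range x).mpr (Set.mem_univ x)
  have hcovF : ⋃₀ Fi.𝒱 = Set.univ := by
    rw [Set.eq_univ_iff_forall]
    intro x
    obtain ⟨e, rfl⟩ := hsurj x
    exact Fi.covV e
  obtain ⟨ξ', hξ', hξξ'⟩ := small_cycle Fi.openV hcovF hξ
  have hξ's : ∀ t ∈ ξ'.support, IsCube ((r + 1 + 2 : ℕ) : ℤ) t ∧ ∃ V ∈ Fi.𝒱, ∀ w, t w ∈ V :=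
    fun t ht => (Finsupp.mem_supported _ _).mp hξ'.1 ht
  have hξ'C : ξ' ∈ CubeHom.C k ((r + 1 + 2 : ℕ) : ℤ) Set.univ := by
    refine (Finsupp.mem_supported _ _).mpr fun t ht => ⟨(hξ's t ht).1, fun _ => Set.mem_univ _⟩
  have hξ'bd : ∀ t ∈ (bd ((r + 1 + 2 : ℕ) : ℤ) ξ').support,
      Degen (((r + 1 + 2 : ℕ) : ℤ) - 1) t := by
    intro t ht
    have h2 : bd ((r + 1 + 2 : ℕ) : ℤ) ξ' ∈ (CS.mk' Fi.𝒱 ∅).Q k (((r + 1 + 2 : ℕ) : ℤ) - 1) := hξ'.2
    have h3 := ((Finsupp.mem_supported _ _).mp h2 ht).2.2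
    rcases h3 with ⟨V, hV, -⟩ | h3
    · exact hV.elim
    · exact h3
  -- the lifts
  have hlift : ∀ t : C(Cb, F), ∃ t' : C(Cb, E), t ∈ ξ'.support → (Fi.p.comp t' = t ∧
      ∀ h : ∀ w, t w ∈ U 2, t' = (s 2).comp ⟨fun w => ⟨t w, h w⟩, by fun_prop⟩) := by
    intro t
    by_cases h : ∀ w, t w ∈ U 2
    · refine ⟨(s 2).comp ⟨fun w => ⟨t w, h w⟩, by fun_prop⟩, fun _ => ⟨?_, fun _ => rfl⟩⟩
      ext w
      rw [hFp]
      exact hs 2 _
    · by_cases ht : t ∈ ξ'.support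
      · obtain ⟨e, he⟩ := hsurj (t (fun _ => 0))
        obtain ⟨t', ht', -⟩ := Fi.lift t (hξ's t ht).2 (fun _ => 0) e he
        exact ⟨t', fun _ => ⟨ht', fun h' => absurd h' h⟩⟩
      · have : Nonempty E := (inferInstance : PathConnectedSpace E).nonempty
        exact ⟨ContinuousMap.const _ (Classical.arbitrary E), fun h' => absurd h' ht⟩
  choose τ hτ' using hlift
  have hτ : ∀ t ∈ ξ'.support, Fi.p.comp (τ t) = t := fun t ht => (hτ' t ht).1
  have hτsm : ∀ t ∈ ξ'.support, Fi.Sm (τ t) := by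
    intro t ht
    obtain ⟨V, hV, h⟩ := (hξ's t ht).2
    refine ⟨V, hV, fun w => ?_⟩
    have h2 : Fi.p (τ t w) = t w := DFunLike.congr_fun (hτ t ht) w
    rw [h2]
    exact h w
  have hτc : ∀ t ∈ ξ'.support, IsCube ((r + 1 + 2 : ℕ) : ℤ) (τ t) := by
    intro t ht
    refine isCube_lift Fi (hτsm t ht) ?_
    rw [hτ t ht]
    exact (hξ's t ht).1
  -- duality
  obtain ⟨ε, -, η2, hη2e, hη2d, hη2⟩ := Fi.duality ρ hμ (j := 1) hκc hκe hξ'C
    (fun t ht => (hξ's t ht).2) (M := Set.univ)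
    (fun v hv _ => mu_small hμ hμ1 hξξ' v hv) (fun t ht => Or.inl (hξ'bd t ht)) τ hτ
  -- the cap product bounds
  set c : Ch k E := ∑ t ∈ ξ'.support, Finsupp.single (τ t) (ξ' t) with hc
  have hcsm : c ∈ Finsupp.supported k k {σ | IsCube ((r + 1 + 2 : ℕ) : ℤ) σ ∧ Fi.Sm σ} := by
    refine Submodule.sum_mem _ fun t ht => ?_
    exact single_mem_supported (S := {σ | IsCube ((r + 1 + 2 : ℕ) : ℤ) σ ∧ Fi.Sm σ})
      ⟨hτc t ht, hτsm t ht⟩ _
  have hzero : ∀ i : Fin 2, ∀ σ : C(Cb, E), IsCube ((2 : ℕ) : ℤ) σ →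
      (∀ w, C.p (σ w) ∈ U i.castSucc) → κ σ = 0 := by
    intro i σ hσ hσi
    refine Subtype.ext ?_
    change kap D0 lam σ - dl 1 η1 σ = 0
    rw [hη1κ i σ hσ hσi, sub_self]
  set β := Module.Basis.ofVectorSpace k (kerP k a) with hβ
  have hbound : ∀ b, (CS.mk' Fi.VE ∅).Bd k ((r + 1 : ℕ) : ℤ)
      (capc (r + 1) 2 (fun σ => β.coord b (κ σ)) c) := by
    intro b
    have hub : (CS.top E).Coc 2 (fun σ => β.coord b (κ σ)) := by
      refine ⟨fun σ hσ ht h => ?_, fun σ hσ ht => ?_⟩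
      · simp only [hκc.1 σ hσ ht h, map_zero]
      · have h2 := dl_map (β.coord b).toAddMonoidHom 2 κ σ
        simp only [LinearMap.toAddMonoidHom_coe] at h2
        rw [h2, hκc.2 σ hσ ht, map_zero]
    have hB := sheet_bounds C.p (s 2) (hs 2) (G 2) (hG0 2) (hG1 2) (r := r) (q := 2) hub
      (P0 := fun t => ∃ i : Fin 2, ∀ w, t w ∈ U i.castSucc)
      (fun σ f ⟨i, h⟩ => ⟨i, fun w => h (f w)⟩)
      (fun σ hσ ⟨i, h⟩ => by simp only [hzero i σ hσ h, map_zero]) hξ'C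
      (fun t ht => by
        have h2 := hξ'bd t ht
        have h3 : ((r + 1 + 2 : ℕ) : ℤ) - 1 = ((r + 2 : ℕ) : ℤ) := by push_cast; ring
        rwa [h3] at h2)
      (fun t ht => by
        obtain ⟨V, hV, hVt⟩ := (hξ's t ht).2
        obtain ⟨_, ⟨i, rfl⟩, hVi⟩ := hF1 V hV
        by_cases hi : i = 2
        · subst hi
          exact Or.inl fun w => hVi (hVt w)
        · right
          obtain ⟨i', rfl⟩ : ∃ i' : Fin 2, i'.castSucc = i := by
            refine ⟨i.castLT ?_, Fin.castSucc_castLT _ _⟩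
            have := i.isLt
            have h4 : (i : ℕ) ≠ 2 := fun h => hi (Fin.ext h)
            omega
          exact ⟨i', fun w => hVi (hVt w)⟩)
      τ (fun t ht => by rw [← hFp]; exact hτ t ht) hτc (fun t ht => (hτ' t ht).2)
    rw [← hc] at hB
    refine small_bd Fi.openVE Fi.covVE ?_ (bd_to_top hB)
    have hcap := capc_mem (u := fun σ => β.coord b (κ σ)) (P := Fi.Sm)
      (fun σ f h => Fi.sm_comp h f) hcsm
    have hcapbd := bd_mem_closed (P := Fi.Sm) (fun σ f h => Fi.sm_comp h f) hcap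
    refine ⟨supp_mono (T := {σ | IsCube ((r + 1 : ℕ) : ℤ) σ ∧ (CS.mk' Fi.VE ∅).ok σ}) hcap
      fun σ hσ => ⟨hσ.1, (Fi.sm_iff σ).mp hσ.2⟩, ?_⟩
    change bd ((r + 1 : ℕ) : ℤ) _ ∈ (CS.mk' Fi.VE ∅).Q k (((r + 1 : ℕ) : ℤ) - 1)
    unfold CS.Q
    rw [Finsupp.mem_supported]
    intro σ hσ
    have h2 := (Finsupp.mem_supported _ _).mp hcapbd hσ
    refine ⟨h2.1, (Fi.sm_iff σ).mp h2.2, Or.inr ?_⟩
    have h3 := (Finsupp.mem_supported _ _).mp hB.bd_mem hσ
    exact h3.2.resolve_left fun h => (h (fun _ => 0)).elim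
  obtain ⟨η3, hη3e, hη3d, hη3⟩ := Fi.capS_bounds μ ρ hμ (p := r + 1) (j := 1) rfl β hbound
  refine ⟨Fi.VE, fun σ => ((ε • η3 σ + η2 σ : kerP k a) : Fin m → MonoidAlgebra k π) + η1 σ,
    Fi.openVE, Fi.covVE, Fi.invVE, ?_, ?_, ?_, ?_⟩
  · intro σ
    exact Submodule.add_mem (kerP k a) (ε • η3 σ + η2 σ).2 (hη1K σ)
  · intro σ hσ hdeg
    beta_reduce
    rw [hη3d σ hσ hdeg, hη2d σ hσ hdeg, hη1d σ hσ hdeg]
    simp
  · intro g σ
    change ((ε • η3 ((Fi.act g).comp σ) + η2 ((Fi.act g).comp σ) : kerP k a) :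
      Fin m → MonoidAlgebra k π) + η1 ((⟨fun e => g • e, C.cont g⟩ : C(E, E)).comp σ) =
        lt g (((ε • η3 σ + η2 σ : kerP k a) : Fin m → MonoidAlgebra k π) + η1 σ)
    rw [hη3e, hη2e, hη1e, ← map_smul, ← map_add, hρ]
    exact ((ltHom (k := k) (m := m) g).map_add _ _).symm
  · intro σ hσ hsm
    have hsm' : Fi.Sm σ := (Fi.sm_iff σ).mpr hsm
    have key := hη2 σ hσ hsm' (fun _ => Set.mem_univ _)
    rw [Fi.capS_sum, ← hc, hη3 σ hσ hsm'] at key
    have h2 : dl 1 (fun τ => ε • η3 τ) σ = ε • dl 1 η3 σ :=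
      dl_map (DistribSMul.toAddMonoidHom (kerP k a) ε) 1 η3 σ
    have h3 := hval 1 (fun τ => ε • η3 τ + η2 τ) σ
    rw [dl_add, h2, ← key] at h3
    rw [dl_add, ← h3]
    change kap D0 lam σ - dl 1 η1 σ + dl 1 η1 σ = kap D0 lam σ
    rw [sub_add_cancel]

end main

end Pool.Agent.TC
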