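import Pool.Agent.Lib.TC.Dual
import Pool.Agent.Lib.TC.AT
import Pool.Agent.Lib.TC.Coll

/-!
# Section 11: the fundamental group
-/

namespace Pool.Agent.TC

open CubeHom

section kappa

variable {k π : Type} [Field k] [Group π] {m : ℕ}

/-- The map `e_i ↦ a_i - 1` of left modules. -/
noncomputable def phi (a : Fin m → π) (x : Fin m → MonoidAlgebra k π) : MonoidAlgebra k π :=
  ∑ i, x i * (MonoidAlgebra.of k π (a i) - 1)

/-- The left translation. -/
noncomputable def lt (g : π) (x : Fin m → MonoidAlgebra k π) : Fin m → MonoidAlgebra k π :=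
  fun i => MonoidAlgebra.of k π g * x i

/-- The kernel of `phi`, over `k`. -/
noncomputable def kerP (k : Type) [Field k] {π : Type} [Group π] {m : ℕ} (a : Fin m → π) :
    Submodule k (Fin m → MonoidAlgebra k π) where
  carrier := {x | phi a x = 0}
  add_mem' := by
    intro x y hx hy
    simp only [phi, Set.mem_ofPred_eq, Pi.add_apply, add_mul, Finset.sum_add_distrib] at *
    rw [hx, hy, add_zero]
  zero_mem' := by simp [phi]
  smul_mem' := by
    intro c x hx
    simp only [phi, Set.mem_ofPred_eq, Pi.smul_apply, smul_mul_assoc, ← Finset.smul_sum] at *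
    rw [hx, smul_zero]

theorem lt_add (g : π) (x y : Fin m → MonoidAlgebra k π) : lt g (x + y) = lt g x + lt g y := by
  funext i
  simp [lt, mul_add]

theorem lt_zero (g : π) : lt g (0 : Fin m → MonoidAlgebra k π) = 0 := by
  funext i
  simp [lt]

theorem lt_neg (g : π) (x : Fin m → MonoidAlgebra k π) : lt g (-x) = -lt g x := by
  funext i
  simp [lt]

theorem lt_sub (g : π) (x y : Fin m → MonoidAlgebra k π) : lt g (x - y) = lt g x - lt g y := by
  funext i
  simp [lt, mul_sub]

theorem lt_smul (g : π) (c : k) (x : Fin m → MonoidAlgebra k π) : lt g (c • x) = c • lt g x := by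
  funext i
  simp [lt]

theorem lt_zsmul (g : π) (c : ℤ) (x : Fin m → MonoidAlgebra k π) : lt g (c • x) = c • lt g x := by
  funext i
  simp only [lt, Pi.smul_apply, mul_smul_comm]

theorem lt_mul (g h : π) (x : Fin m → MonoidAlgebra k π) : lt (g * h) x = lt g (lt h x) := by
  funext i
  simp only [lt, map_mul, mul_assoc]

theorem lt_one (x : Fin m → MonoidAlgebra k π) : lt 1 x = x := by
  funext i
  simp only [lt, map_one, one_mul]

/-- Left translation as a linear map. -/
noncomputable def ltL (k : Type) [Field k] {π : Type} [Group π] (m : ℕ) (g : π) :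
    (Fin m → MonoidAlgebra k π) →ₗ[k] (Fin m → MonoidAlgebra k π) where
  toFun := lt g
  map_add' := lt_add g
  map_smul' := lt_smul g

theorem ltL_apply (g : π) (x : Fin m → MonoidAlgebra k π) : ltL k m g x = lt g x := rfl

/-- `phi` as a linear map. -/
noncomputable def phiL (a : Fin m → π) :
    (Fin m → MonoidAlgebra k π) →ₗ[k] MonoidAlgebra k π where
  toFun := phi a
  map_add' x y := by
    simp only [phi, Pi.add_apply, add_mul, Finset.sum_add_distrib]
  map_smul' c x := by
    simp only [phi, Pi.smul_apply, smul_mul_assoc, ← Finset.smul_sum, RingHom.id_apply]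

theorem phiL_apply (a : Fin m → π) (x : Fin m → MonoidAlgebra k π) : phiL a x = phi a x := rfl

theorem phi_add (a : Fin m → π) (x y : Fin m → MonoidAlgebra k π) :
    phi a (x + y) = phi a x + phi a y := map_add (phiL a) x y

theorem phi_sub (a : Fin m → π) (x y : Fin m → MonoidAlgebra k π) :
    phi a (x - y) = phi a x - phi a y := map_sub (phiL a) x y

theorem phi_zero (a : Fin m → π) : phi a (0 : Fin m → MonoidAlgebra k π) = 0 :=
  map_zero (phiL a)

theorem phi_lt (a : Fin m → π) (g : π) (x : Fin m → MonoidAlgebra k π) :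
    phi a (lt g x) = MonoidAlgebra.of k π g * phi a x := by
  simp only [phi, lt, mul_assoc, Finset.mul_sum]

/-- The kernel as a representation. -/
theorem exists_repK (a : Fin m → π) :
    ∃ ρ : Representation k π (kerP k a), ∀ (g : π) (x : kerP k a),
      ((ρ g x : kerP k a) : Fin m → MonoidAlgebra k π) = lt g (x : Fin m → MonoidAlgebra k π) := by
  have hm : ∀ (g : π) (x : kerP k a), lt g (x : Fin m → MonoidAlgebra k π) ∈ kerP k a := by
    intro g x
    change phi a (lt g (x : Fin m → MonoidAlgebra k π)) = 0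
    have hx : phi a (x : Fin m → MonoidAlgebra k π) = 0 := x.2
    rw [phi_lt, hx, mul_zero]
  refine ⟨{ toFun := fun g =>
              { toFun := fun x => ⟨lt g x, hm g x⟩
                map_add' := fun x y => Subtype.ext (lt_add g _ _)
                map_smul' := fun c x => Subtype.ext (lt_smul g c _) }
            map_one' := ?_
            map_mul' := ?_ }, fun g x => rfl⟩
  · refine LinearMap.ext fun x => Subtype.ext ?_
    exact lt_one _
  · intro g h
    refine LinearMap.ext fun x => Subtype.ext ?_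
    exact lt_mul g h _

/-- A set theoretic section over the differences `g - 1`. -/
theorem exists_D0 (a : Fin m → π) (ha : Subgroup.closure (Set.range a) = ⊤) :
    ∃ D0 : π → Fin m → MonoidAlgebra k π, D0 1 = 0 ∧
      ∀ g : π, phi a (D0 g) = MonoidAlgebra.of k π g - 1 := by
  classical
  have h : ∀ g : π, ∃ x : Fin m → MonoidAlgebra k π, phi a x = MonoidAlgebra.of k π g - 1 := by
    intro g
    have hg : g ∈ Subgroup.closure (Set.range a) := by
      rw [ha]
      exact Subgroup.mem_top g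
    refine Subgroup.closure_induction (p := fun g _ => ∃ x : Fin m → MonoidAlgebra k π,
      phi a x = MonoidAlgebra.of k π g - 1) ?_ ?_ ?_ ?_ hg
    · rintro _ ⟨i, rfl⟩
      refine ⟨Pi.single i 1, ?_⟩
      simp only [phi]
      rw [Finset.sum_eq_single i]
      · rw [Pi.single_eq_same, one_mul]
      · intro j _ hj
        rw [Pi.single_eq_of_ne hj, zero_mul]
      · intro hi
        exact absurd (Finset.mem_univ i) hi
    · exact ⟨0, by rw [phi_zero, map_one, sub_self]⟩
    · rintro x y - - ⟨u, hu⟩ ⟨v, hv⟩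
      refine ⟨lt x v + u, ?_⟩
      rw [phi_add, phi_lt, hu, hv, map_mul, mul_sub, mul_one, sub_add_sub_cancel]
    · rintro x - ⟨u, hu⟩
      refine ⟨-lt x⁻¹ u, ?_⟩
      have h2 : phi a (-lt x⁻¹ u) = -phi a (lt x⁻¹ u) := map_neg (phiL a) _
      rw [h2, phi_lt, hu, mul_sub, mul_one, ← map_mul, inv_mul_cancel, map_one, neg_sub]
  choose D hD using h
  refine ⟨fun g => if g = 1 then 0 else D g, if_pos rfl, fun g => ?_⟩
  by_cases hg : g = 1
  · subst hg
    simp only [if_true]
    rw [phi_zero, map_one, sub_self]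
  · simp only [if_neg hg]
    rw [hD]

variable {E : Type} [TopologicalSpace E]

/-- The start and the end of a `1`-cube. -/
def st (σ : C(Cb, E)) : E := σ (fun _ => 0)
def en (σ : C(Cb, E)) : E := σ (fun j => if j = 0 then 1 else 0)

/-- The cochain `η_0`. -/
noncomputable def eta0 (D0 : π → Fin m → MonoidAlgebra k π) (lam : E → π) (σ : C(Cb, E)) :
    Fin m → MonoidAlgebra k π :=
  lt (lam (st σ)) (D0 ((lam (st σ))⁻¹ * lam (en σ)))

/-- The obstruction cocycle `κ = d η_0`. -/
noncomputable def kap (D0 : π → Fin m → MonoidAlgebra k π) (lam : E → π) :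
    C(Cb, E) → (Fin m → MonoidAlgebra k π) := dl 1 (eta0 D0 lam)

theorem st_comp {E' : Type} [TopologicalSpace E'] (f : C(E, E')) (σ : C(Cb, E)) :
    st (f.comp σ) = f (st σ) := rfl

theorem en_comp {E' : Type} [TopologicalSpace E'] (f : C(E, E')) (σ : C(Cb, E)) :
    en (f.comp σ) = f (en σ) := rfl

theorem st_eq_en {σ : C(Cb, E)} (h : Degen 1 σ) : st σ = en σ := by
  obtain ⟨i, hi, h⟩ := h
  obtain rfl : i = 0 := by omega
  refine h fun j hj => ?_
  rw [if_neg hj]

theorem eta0_degen {D0 : π → Fin m → MonoidAlgebra k π} (h1 : D0 1 = 0) (lam : E → π)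
    {σ : C(Cb, E)} (h : Degen 1 σ) : eta0 D0 lam σ = 0 := by
  rw [eta0, st_eq_en h, inv_mul_cancel, h1, lt_zero]

theorem phi_eta0 {a : Fin m → π} {D0 : π → Fin m → MonoidAlgebra k π}
    (hD : ∀ g : π, phi a (D0 g) = MonoidAlgebra.of k π g - 1) (lam : E → π) (σ : C(Cb, E)) :
    phi a (eta0 D0 lam σ) = MonoidAlgebra.of k π (lam (en σ)) -
      MonoidAlgebra.of k π (lam (st σ)) := by
  rw [eta0, phi_lt, hD, mul_sub, mul_one, ← map_mul, mul_inv_cancel_left]

theorem eta0_act (D0 : π → Fin m → MonoidAlgebra k π) {lam : E → π} {g : π} (f : C(E, E))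
    (hf : ∀ e, lam (f e) = g * lam e) (σ : C(Cb, E)) :
    eta0 D0 lam (f.comp σ) = lt g (eta0 D0 lam σ) := by
  rw [eta0, eta0, st_comp, en_comp, hf, hf, ← lt_mul, mul_inv_rev, mul_assoc,
    inv_mul_cancel_left]

theorem dl_act (n : ℕ) {u : C(Cb, E) → (Fin m → MonoidAlgebra k π)} {g : π} (f : C(E, E))
    (hf : ∀ σ : C(Cb, E), u (f.comp σ) = lt g (u σ)) (σ : C(Cb, E)) :
    dl n u (f.comp σ) = lt g (dl n u σ) := by
  have h1 : dl n u (f.comp σ) = dl n (fun τ => lt g (u τ)) σ := by
    simp only [dl]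
    refine Finset.sum_congr rfl fun i _ => ?_
    rw [ContinuousMap.comp_assoc, ContinuousMap.comp_assoc, hf, hf]
  rw [h1]
  simp only [dl, ← ltL_apply, map_sum, map_zsmul, map_sub]

variable [MulAction π E]

/-- `κ` is a cocycle with values in the kernel, equivariant. -/
theorem kap_props {a : Fin m → π} {D0 : π → Fin m → MonoidAlgebra k π} (h1 : D0 1 = 0)
    (hD : ∀ g : π, phi a (D0 g) = MonoidAlgebra.of k π g - 1) {lam : E → π}
    (hc : ∀ g : π, Continuous (fun e : E => g • e))
    (hlam : ∀ (g : π) (e : E), lam (g • e) = g * lam e) :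
    (CS.top E).Coc 2 (kap D0 lam) ∧ (∀ σ : C(Cb, E), phi a (kap D0 lam σ) = 0) ∧
      ∀ (g : π) (σ : C(Cb, E)),
        kap D0 lam ((⟨fun e => g • e, hc g⟩ : C(E, E)).comp σ) = lt g (kap D0 lam σ) := by
  refine ⟨⟨dl_rel (CS.top E) (k := 1) (u := eta0 D0 lam) ?_, fun σ _ _ => dl_dl 1 _ σ⟩, ?_, ?_⟩
  · rintro σ - - (h | h)
    · exact h.elim
    · exact eta0_degen h1 lam h
  · intro σ
    have e0 : kap D0 lam σ =
        (eta0 D0 lam (σ.comp (ins 0 1)) - eta0 D0 lam (σ.comp (ins 0 0))) -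
          (eta0 D0 lam (σ.comp (ins 1 1)) - eta0 D0 lam (σ.comp (ins 1 0))) := by
      simp only [kap, dl, Finset.sum_range_succ, Finset.sum_range_zero, pow_zero, pow_one,
        one_smul, neg_smul, zero_add]
      rw [sub_eq_add_neg _ (eta0 D0 lam (σ.comp (ins 1 1)) - _)]
    rw [e0, phi_sub, phi_sub, phi_sub, phi_eta0 hD, phi_eta0 hD, phi_eta0 hD, phi_eta0 hD]
    have a1 : en (σ.comp (ins 0 1)) = en (σ.comp (ins 1 1)) := by
      change σ (ins 0 1 _) = σ (ins 1 1 _)
      congr 1
      funext j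
      rcases j with _ | _ | j <;> simp [ins]
    have a2 : st (σ.comp (ins 0 1)) = en (σ.comp (ins 1 0)) := by
      change σ (ins 0 1 _) = σ (ins 1 0 _)
      congr 1
      funext j
      rcases j with _ | _ | j <;> simp [ins]
    have a3 : en (σ.comp (ins 0 0)) = st (σ.comp (ins 1 1)) := by
      change σ (ins 0 0 _) = σ (ins 1 1 _)
      congr 1
      funext j
      rcases j with _ | _ | j <;> simp [ins]
    have a4 : st (σ.comp (ins 0 0)) = st (σ.comp (ins 1 0)) := by
      change σ (ins 0 0 _) = σ (ins 1 0 _)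
      congr 1
      funext j
      rcases j with _ | _ | j <;> simp [ins]
    rw [a1, a2, a3, a4]
    abel
  · intro g σ
    exact dl_act 1 _ (fun τ => eta0_act D0 _ (fun e => hlam g e) τ) σ

/-- The constant cube. -/
def cc {X : Type} [TopologicalSpace X] (x : X) : C(Cb, X) := ContinuousMap.const Cb x

theorem isCube_cc {X : Type} [TopologicalSpace X] (x : X) {n : ℤ} (hn : 0 ≤ n) :
    IsCube n (cc x) := ⟨hn, fun _ _ _ => rfl⟩

theorem isCube_zero_eq {X : Type} [TopologicalSpace X] {σ : C(Cb, X)} (h : IsCube 0 σ) (u : Cb) :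
    σ = cc (σ u) := by
  ext v
  exact h.2 fun j hj => absurd hj (by simp)

theorem isCube_one_ins {X : Type} [TopologicalSpace X] {σ : C(Cb, X)} (h : IsCube 1 σ) (e : I) :
    σ.comp (ins 0 e) = cc (σ (fun j => if j = 0 then e else 0)) := by
  ext u
  refine h.2 fun j hj => ?_
  have hj0 : j = 0 := by
    have : (j : ℤ) < 1 := hj
    omega
  subst hj0
  rw [ins_apply_self, if_pos rfl]

theorem bd_one_single {X : Type} [TopologicalSpace X] {R : Type} [CommRing R] {σ : C(Cb, X)}
    (h : IsCube 1 σ) :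
    bd (R := R) 1 (Finsupp.single σ 1) =
      Finsupp.single (cc (en σ)) 1 - Finsupp.single (cc (st σ)) 1 := by
  rw [bd_apply, show (1 : ℤ).toNat = 1 from rfl, Finset.sum_range_one, pow_zero, one_smul,
    face_single, face_single, isCube_one_ins h, isCube_one_ins h]
  congr 3
  change σ _ = σ _
  congr 1
  funext j
  split_ifs <;> rfl

/-- The chains of the system of small cubes, degree zero: nothing is zero. -/
theorem q_zero {X : Type} [TopologicalSpace X] {R : Type} [CommRing R] {𝒱 : Set (Set X)}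
    {c : Ch R X} (hc : c ∈ (CS.mk' 𝒱 ∅).Q R 0) : c = 0 := by
  have h : c.support = ∅ := by
    by_contra hne
    obtain ⟨σ, hσ⟩ := Finset.nonempty_iff_ne_empty.2 hne
    have h2 := (Finsupp.mem_supported R c).1 hc (Finset.mem_coe.2 hσ)
    obtain ⟨-, -, h3 | h3⟩ := h2
    · obtain ⟨V, hV, -⟩ := h3
      exact hV
    · obtain ⟨i, hi, -⟩ := h3
      omega
  exact Finsupp.support_eq_empty.1 h

theorem mk'_C_le {X : Type} [TopologicalSpace X] {R : Type} [CommRing R] {𝒱 : Set (Set X)}
    {k : ℤ} : (CS.mk' 𝒱 ∅).C R k ≤ (CS.top X).C R k :=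
  Finsupp.supported_mono fun _ h => ⟨h.1, trivial⟩

theorem mk'_Q_le {X : Type} [TopologicalSpace X] {R : Type} [CommRing R] {𝒱 : Set (Set X)}
    {k : ℤ} : (CS.mk' 𝒱 ∅).Q R k ≤ (CS.top X).Q R k :=
  Finsupp.supported_mono fun _ h => ⟨h.1, trivial, h.2.2.imp
    (fun ⟨_, hV, _⟩ => hV.elim) id⟩

theorem mk'_Z_le {X : Type} [TopologicalSpace X] {R : Type} [CommRing R] {𝒱 : Set (Set X)}
    {k : ℤ} {c : Ch R X} (hc : c ∈ (CS.mk' 𝒱 ∅).Z R k) : c ∈ (CS.top X).Z R k :=
  ⟨mk'_C_le hc.1, mk'_Q_le hc.2⟩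

/-- Two points of a path connected space are joined by a small chain. -/
theorem exists_small_join {X : Type} [TopologicalSpace X] [PathConnectedSpace X] {R : Type}
    [CommRing R] {𝒱 : Set (Set X)} (hV : ∀ V ∈ 𝒱, IsOpen V) (hcov : ⋃₀ 𝒱 = Set.univ) (x y : X) :
    ∃ c ∈ (CS.mk' 𝒱 ∅).C R 1, bd 1 c = Finsupp.single (cc y) 1 - Finsupp.single (cc x) 1 := by
  have hs : ∀ z : X, (Finsupp.single (cc z) 1 : Ch R X) ∈ (CS.mk' 𝒱 ∅).C R 0 := by
    intro z
    refine Finsupp.single_mem_supported R 1 ⟨isCube_cc z le_rfl, ?_⟩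
    obtain ⟨V, hV1, hV2⟩ := Set.mem_sUnion.1 (hcov ▸ Set.mem_univ z : z ∈ ⋃₀ 𝒱)
    exact ⟨V, hV1, fun _ => hV2⟩
  have hZ : (Finsupp.single (cc y) 1 - Finsupp.single (cc x) 1 : Ch R X) ∈
      (CS.mk' 𝒱 ∅).Z R 0 := by
    refine ⟨Submodule.sub_mem _ (hs y) (hs x), ?_⟩
    change bd 0 _ ∈ (CS.mk' 𝒱 ∅).Q R (0 - 1)
    rw [bd_of_nonpos le_rfl]
    exact Submodule.zero_mem _
  obtain ⟨γ⟩ := PathConnectedSpace.joined x y
  have hγ : IsCube 1 ((γ : C(I, X)).comp (iota : C(Cb, I))) := by
    refine ⟨by norm_num, fun u v huv => ?_⟩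
    change γ (u 0) = γ (v 0)
    rw [huv 0 (by simp)]
  have hB : (CS.top X).Bd R 0 (Finsupp.single (cc y) 1 - Finsupp.single (cc x) 1 : Ch R X) := by
    refine ⟨Finsupp.single ((γ : C(I, X)).comp (iota : C(Cb, I))) 1,
      Finsupp.single_mem_supported R 1 ⟨hγ, trivial⟩, ?_⟩
    have h1 : en ((γ : C(I, X)).comp (iota : C(Cb, I))) = y := by
      change γ _ = y
      exact γ.target
    have h2 : st ((γ : C(I, X)).comp (iota : C(Cb, I))) = x := by
      change γ _ = x
      exact γ.source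
    rw [zero_add, bd_one_single hγ, h1, h2, sub_self]
    exact Submodule.zero_mem _
  obtain ⟨b, hb, hb2⟩ := small_bd hV hcov hZ hB
  rw [zero_add] at hb hb2
  exact ⟨b, hb, (sub_eq_zero.1 (q_zero hb2)).symm⟩

/-- Pia. If `κ` is, on small cubes, the coboundary of an equivariant cochain with values in the
kernel then the augmentation ideal is projective. (`η_0 - η` is a cocycle on the small cubes,
so it is `dζ` as `H_1(E; k) = 0`; `D(g) = ζ(g e) - g ζ(e)` does not depend on `e`.) -/
theorem proj_of_kap [PathConnectedSpace E] {a : Fin m → π}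
    {D0 : π → Fin m → MonoidAlgebra k π} (h1 : D0 1 = 0)
    (hD : ∀ g : π, phi a (D0 g) = MonoidAlgebra.of k π g - 1) {lam : E → π}
    (hc : ∀ g : π, Continuous (fun e : E => g • e))
    (hlam : ∀ (g : π) (e : E), lam (g • e) = g * lam e)
    (hH1 : (CS.top E).Hz k 1) {𝒲 : Set (Set E)} (hW : ∀ W ∈ 𝒲, IsOpen W)
    (hcov : ⋃₀ 𝒲 = Set.univ) (hinv : ∀ (g : π), ∀ W ∈ 𝒲, (fun e : E => g • e) '' W ∈ 𝒲)
    {η : C(Cb, E) → (Fin m → MonoidAlgebra k π)} (hη : ∀ σ, phi a (η σ) = 0)
    (hηd : ∀ σ : C(Cb, E), IsCube 1 σ → Degen 1 σ → η σ = 0)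
    (hηe : ∀ (g : π) (σ : C(Cb, E)),
      η ((⟨fun e => g • e, hc g⟩ : C(E, E)).comp σ) = lt g (η σ))
    (hdη : ∀ σ : C(Cb, E), IsCube 2 σ → (∃ W ∈ 𝒲, ∀ u, σ u ∈ W) → dl 1 η σ = kap D0 lam σ) :
    Module.Projective (MonoidAlgebra k π) (augI k π) := by
  classical
  -- the cochain
  set ψ : C(Cb, E) → (Fin m → MonoidAlgebra k π) := fun σ => eta0 D0 lam σ - η σ with hψ
  have hcoc : (CS.mk' 𝒲 ∅).Coc 1 ψ := by
    refine ⟨?_, ?_⟩
    · rintro σ hσ - (⟨V, hV, -⟩ | h)
      · exact hV.elim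
      · change eta0 D0 lam σ - η σ = 0
        rw [eta0_degen h1 lam h, hηd σ hσ h, sub_zero]
    · intro σ hσ hs
      have h2 : dl 1 ψ σ = dl 1 (eta0 D0 lam) σ - dl 1 η σ := by
        simp only [dl, hψ, ← Finset.sum_sub_distrib, ← smul_sub]
        refine Finset.sum_congr rfl fun i _ => ?_
        congr 1
        abel
      rw [h2, hdη σ hσ hs]
      exact sub_self _
  have hact : ∀ (g : π) (σ : C(Cb, E)),
      ψ ((⟨fun e => g • e, hc g⟩ : C(E, E)).comp σ) = lt g (ψ σ) := by
    intro g σ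
    change eta0 D0 lam _ - η _ = lt g (eta0 D0 lam σ - η σ)
    rw [hηe, eta0_act D0 _ (fun e => hlam g e) σ, lt_sub]
  -- its values on small cycles
  have hcyc : ∀ z ∈ (CS.mk' 𝒲 ∅).Z k 1, Finsupp.linearCombination k ψ z = 0 := by
    intro z hz
    exact coc_bd (R := k) (CS.mk' 𝒲 ∅) (k := 1) hcoc (small_bd hW hcov hz (hH1 z (mk'_Z_le hz)))
  have hcyc' : ∀ z ∈ (CS.mk' 𝒲 ∅).C k 1, bd 1 z = 0 → Finsupp.linearCombination k ψ z = 0 := by
    intro z hz hz0
    refine hcyc z ⟨hz, ?_⟩
    change bd 1 z ∈ (CS.mk' 𝒲 ∅).Q k (1 - 1)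
    rw [hz0]
    exact Submodule.zero_mem _
  -- the base point
  obtain ⟨e1⟩ : Nonempty E := inferInstance
  set e0 : E := (lam e1)⁻¹ • e1 with he0
  have hl0 : lam e0 = 1 := by rw [he0, hlam, inv_mul_cancel]
  choose c hc1 hc2 using fun y : E => exists_small_join (R := k) hW hcov e0 y
  have hpush : ∀ (g : π) (z : Ch k E), z ∈ (CS.mk' 𝒲 ∅).C k 1 →
      push (⟨fun e => g • e, hc g⟩ : C(E, E)) z ∈ (CS.mk' 𝒲 ∅).C k 1 := by
    intro g z hz
    refine map_mem_of_supported (push (⟨fun e => g • e, hc g⟩ : C(E, E)))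
      ((CS.mk' 𝒲 ∅).C k 1) ?_ hz
    rintro σ ⟨hσ, W, hW1, hW2⟩
    rw [push_single]
    refine Finsupp.single_mem_supported k 1 ⟨⟨hσ.1, dependsOn_comp_left hσ.2⟩, ?_⟩
    exact ⟨_, hinv g W hW1, fun u => ⟨σ u, hW2 u, rfl⟩⟩
  have hpsi : ∀ (g : π) (z : Ch k E),
      Finsupp.linearCombination k ψ (push (⟨fun e => g • e, hc g⟩ : C(E, E)) z) =
        lt g (Finsupp.linearCombination k ψ z) := by
    intro g z
    rw [lc_push]
    have h3 : pb (⟨fun e => g • e, hc g⟩ : C(E, E)) ψ = fun σ => ltL k m g (ψ σ) := by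
      funext σ
      exact hact g σ
    rw [h3, ← ltL_apply, Finsupp.linearCombination_apply, Finsupp.linearCombination_apply,
      Finsupp.sum, Finsupp.sum, map_sum]
    refine Finset.sum_congr rfl fun σ _ => ?_
    rw [map_smul]
  refine at_crossed a (fun g => Finsupp.linearCombination k ψ (c (g • e0))) ?_ ?_
  · intro g h
    have hz : c ((g * h) • e0) - c (g • e0) -
        push (⟨fun e => g • e, hc g⟩ : C(E, E)) (c (h • e0)) ∈ (CS.mk' 𝒲 ∅).C k 1 :=
      Submodule.sub_mem _ (Submodule.sub_mem _ (hc1 _) (hc1 _)) (hpush g _ (hc1 _))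
    have hb : bd 1 (c ((g * h) • e0) - c (g • e0) -
        push (⟨fun e => g • e, hc g⟩ : C(E, E)) (c (h • e0))) = 0 := by
      have h4 : ∀ x : E, (⟨fun e => g • e, hc g⟩ : C(E, E)).comp (cc x) = cc (g • x) :=
        fun x => rfl
      rw [map_sub, map_sub, bd_push, hc2, hc2, hc2, map_sub, push_single, push_single, h4, h4,
        mul_smul]
      abel
    have h5 := hcyc' _ hz hb
    rw [map_sub, map_sub, hpsi, sub_sub, sub_eq_zero] at h5
    exact h5
  · intro g
    have h6 : ∀ z : Ch k E, z ∈ (CS.mk' 𝒲 ∅).C k 1 →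
        phiL a (Finsupp.linearCombination k ψ z) =
          Finsupp.linearCombination k (fun σ : C(Cb, E) =>
            MonoidAlgebra.of k π (lam (st σ))) (bd 1 z) := by
      intro z hz
      refine map_eq_of_supported ((phiL a).comp (Finsupp.linearCombination k ψ))
        ((Finsupp.linearCombination k (fun σ : C(Cb, E) =>
            MonoidAlgebra.of k π (lam (st σ)))).comp (bd 1)) ?_ hz
      rintro σ ⟨hσ, -⟩
      rw [LinearMap.comp_apply, LinearMap.comp_apply, bd_one_single hσ, map_sub,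
        Finsupp.linearCombination_single, Finsupp.linearCombination_single,
        Finsupp.linearCombination_single, one_smul, one_smul, one_smul, phiL_apply]
      change phi a (eta0 D0 lam σ - η σ) = _
      rw [phi_sub, hη, sub_zero, phi_eta0 hD]
      rfl
    have h7 := h6 _ (hc1 (g • e0))
    rw [hc2, map_sub, Finsupp.linearCombination_single, Finsupp.linearCombination_single,
      one_smul, one_smul] at h7
    change phi a (Finsupp.linearCombination k ψ (c (g • e0))) = _
    rw [← phiL_apply, h7]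
    have h8 : ∀ x : E, st (cc x) = x := fun _ => rfl
    rw [h8, h8, hlam, hl0, mul_one, map_one]

/-- `H_1` of a simply connected space vanishes. -/
theorem hz_one {X : Type} [TopologicalSpace X] [SimplyConnectedSpace X] (R : Type) [CommRing R] :
    (CS.top X).Hz R 1 := by
  classical
  obtain ⟨x0⟩ : Nonempty X := inferInstance
  have hcc : ∀ (x : X) (f : C(Cb, Cb)), (cc x).comp f = cc x := fun _ _ => rfl
  -- the paths
  have hg : ∀ v : C(Cb, X), ∃ γ : C(Cb, X), IsCube 0 v → IsCube 1 γ ∧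
      γ.comp (ins 0 1) = v ∧ γ.comp (ins 0 0) = cc x0 := by
    intro v
    by_cases hv : IsCube 0 v
    · obtain ⟨T, hT, hT2⟩ := fill (n := 1) (X := X) fills_one
        (φ := fun _ e => if e then v else cc x0) ⟨by
          intro i _ e _
          cases e
          · exact isCube_cc x0 (by norm_num)
          · exact hv, by
          intro i j _ hj
          omega⟩
      exact ⟨T, fun _ => ⟨hT, hT2 0 (by norm_num) true, hT2 0 (by norm_num) false⟩⟩
    · exact ⟨v, fun h => (hv h).elim⟩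
  choose γ hγ using hg
  have hK : ∀ σ : C(Cb, X), ∃ K : C(Cb, X), IsCube 1 σ → IsCube 2 K ∧
      K.comp (ins 0 1) = σ ∧ K.comp (ins 0 0) = cc x0 ∧
      K.comp (ins 1 1) = γ (σ.comp (ins 0 1)) ∧ K.comp (ins 1 0) = γ (σ.comp (ins 0 0)) := by
    intro σ
    by_cases hσ : IsCube 1 σ
    · have h0 : ∀ e : I, IsCube 0 (σ.comp (ins 0 e)) := by
        intro e
        rw [isCube_one_ins hσ]
        exact isCube_cc _ le_rfl
      obtain ⟨T, hT, hT2⟩ := fill (n := 2) (X := X) fills_two
        (φ := fun i e => if i = 0 then (if e then σ else cc x0) else γ (σ.comp (ins 0 (pt e))))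
        ⟨by
          intro i hi e _
          have hi' : i = 0 ∨ i = 1 := by omega
          rcases hi' with rfl | rfl
          · simp only [if_true]
            cases e
            · exact isCube_cc x0 (by norm_num)
            · exact hσ
          · simp only [one_ne_zero, if_false]
            exact (hγ _ (h0 _)).1, by
          intro i j hij hj e e' _ _
          obtain rfl : j = 0 := by omega
          obtain rfl : i = 0 := by omega
          simp only [zero_add, one_ne_zero, if_false, if_true]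
          cases e
          · simp only [Bool.false_eq_true, if_false]
            rw [hcc]
            exact (hγ _ (h0 _)).2.2
          · simp only [if_true]
            exact (hγ _ (h0 _)).2.1⟩
      exact ⟨T, fun _ => ⟨hT, hT2 0 (by norm_num) true, hT2 0 (by norm_num) false,
        hT2 1 (by norm_num) true, hT2 1 (by norm_num) false⟩⟩
    · exact ⟨σ, fun h => (hσ h).elim⟩
  choose K hK using hK
  intro c hc
  refine ⟨Finsupp.lmapDomain R R K c, ?_, ?_⟩
  · refine map_mem_of_supported (Finsupp.lmapDomain R R K) ((CS.top X).C R (1 + 1)) ?_ hc.1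
    rintro σ ⟨hσ, -⟩
    rw [Finsupp.lmapDomain_apply, Finsupp.mapDomain_single]
    exact Finsupp.single_mem_supported R 1 ⟨(hK σ hσ).1, trivial⟩
  · have h0 : bd 1 c = 0 := by
      have h1 : bd 1 c ∈ (CS.top X).Q R (1 - 1) := hc.2
      have h2 : (bd 1 c).support = ∅ := by
        by_contra hne
        obtain ⟨σ, hσ⟩ := Finset.nonempty_iff_ne_empty.2 hne
        obtain ⟨-, -, h3 | h3⟩ := (Finsupp.mem_supported R _).1 h1 (Finset.mem_coe.2 hσ)
        · exact h3
        · obtain ⟨i, hi, -⟩ := h3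
          omega
      exact Finsupp.support_eq_empty.1 h2
    have h1 : bd (1 + 1) (Finsupp.lmapDomain R R K c) =
        c - Finsupp.lmapDomain R R (fun _ => cc x0) c - Finsupp.lmapDomain R R γ (bd 1 c) := by
      refine map_eq_of_supported ((bd (1 + 1)).comp (Finsupp.lmapDomain R R K))
        (LinearMap.id - Finsupp.lmapDomain R R (fun _ => cc x0) -
          (Finsupp.lmapDomain R R γ).comp (bd 1)) ?_ hc.1
      rintro σ ⟨hσ, -⟩
      obtain ⟨-, k1, k2, k3, k4⟩ := hK σ hσ
      simp only [LinearMap.comp_apply, LinearMap.sub_apply, LinearMap.id_apply,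
        Finsupp.lmapDomain_apply, Finsupp.mapDomain_single, bd_apply]
      rw [show ((1 : ℤ) + 1).toNat = 2 from rfl, show (1 : ℤ).toNat = 1 from rfl,
        Finset.sum_range_succ, Finset.sum_range_one, Finset.sum_range_one, face_single,
        face_single, face_single, face_single, face_single, face_single, k1, k2, k3, k4,
        pow_zero, pow_one, one_smul, one_smul, ← Finsupp.lmapDomain_apply R R, map_sub,
        Finsupp.lmapDomain_apply, Finsupp.lmapDomain_apply, Finsupp.mapDomain_single,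
        Finsupp.mapDomain_single, neg_smul, one_smul]
      abel
    rw [h1, h0, map_zero, sub_zero, sub_sub_cancel]
    refine map_mem_of_supported (Finsupp.lmapDomain R R (fun _ => cc x0)) ((CS.top X).Q R 1) ?_
      hc.1
    intro σ _
    rw [Finsupp.lmapDomain_apply, Finsupp.mapDomain_single]
    exact Finsupp.single_mem_supported R 1 ⟨isCube_cc x0 (by norm_num), trivial,
      Or.inr ⟨0, by norm_num, fun _ _ _ => rfl⟩⟩

-- tc P1c: replacement text for exists_kap' in Pi1.lean (aux lemmas P1c.* + theorem, section kappa, after variable [MulAction π E]).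
omit [MulAction π E] in
theorem P1c.phi_add (a : Fin m → π) (x y : Fin m → MonoidAlgebra k π) :
    phi a (x + y) = phi a x + phi a y := by
  simp only [phi, Pi.add_apply, add_mul, Finset.sum_add_distrib]

omit [MulAction π E] in
theorem P1c.phi_sub (a : Fin m → π) (x y : Fin m → MonoidAlgebra k π) :
    phi a (x - y) = phi a x - phi a y := by
  simp only [phi, Pi.sub_apply, sub_mul, Finset.sum_sub_distrib]

omit [MulAction π E] in
theorem P1c.phi_zero (a : Fin m → π) : phi a (0 : Fin m → MonoidAlgebra k π) = 0 := by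
  simp [phi]

omit [MulAction π E] in
theorem P1c.phi_lt (a : Fin m → π) (g : π) (x : Fin m → MonoidAlgebra k π) :
    phi a (lt g x) = MonoidAlgebra.of k π g * phi a x := by
  simp only [phi, lt, Finset.mul_sum, mul_assoc]

omit [MulAction π E] in
theorem P1c.lt_lt (g h : π) (x : Fin m → MonoidAlgebra k π) : lt (g * h) x = lt g (lt h x) := by
  funext i
  simp only [lt, map_mul, mul_assoc]

omit [MulAction π E] in
theorem P1c.lt_add (g : π) (x y : Fin m → MonoidAlgebra k π) : lt g (x + y) = lt g x + lt g y := by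
  funext i
  simp only [lt, Pi.add_apply, mul_add]

omit [MulAction π E] in
theorem P1c.lt_sub (g : π) (x y : Fin m → MonoidAlgebra k π) : lt g (x - y) = lt g x - lt g y := by
  funext i
  simp only [lt, Pi.sub_apply, mul_sub]

omit [MulAction π E] in
theorem P1c.lt_zero (g : π) : lt g (0 : Fin m → MonoidAlgebra k π) = 0 := by
  funext i
  simp only [lt, Pi.zero_apply, mul_zero]

/-- The differences of a function on points. -/
def P1c.df {M : Type*} [AddCommGroup M] (f : E → M) (σ : C(Cb, E)) : M := f (en σ) - f (st σ)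

omit [MulAction π E] in
theorem P1c.st_ins (σ : C(Cb, E)) (i : ℕ) (e : I) :
    st (σ.comp (ins i e)) = σ (fun j => if j = i then e else 0) := by
  change σ (ins i e (fun _ => 0)) = _
  congr 1
  funext j
  change (if j < i then (0 : I) else if j = i then e else 0) = _
  by_cases h1 : j < i
  · rw [if_pos h1, if_neg (by omega)]
  · rw [if_neg h1]

omit [MulAction π E] in
theorem P1c.en_ins_zero (σ : C(Cb, E)) (e : I) :
    en (σ.comp (ins 0 e)) = σ (fun j => if j = 0 then e else if j = 1 then 1 else 0) := by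
  change σ (ins 0 e (fun j => if j = 0 then 1 else 0)) = _
  congr 1
  funext j
  change (if j < 0 then (if j = 0 then (1 : I) else 0) else if j = 0 then e else
    (if j - 1 = 0 then 1 else 0)) = _
  rcases j with _ | _ | j <;> simp

omit [MulAction π E] in
theorem P1c.en_ins_one (σ : C(Cb, E)) (e : I) :
    en (σ.comp (ins 1 e)) = σ (fun j => if j = 0 then 1 else if j = 1 then e else 0) := by
  change σ (ins 1 e (fun j => if j = 0 then 1 else 0)) = _
  congr 1
  funext j
  change (if j < 1 then (if j = 0 then (1 : I) else 0) else if j = 1 then e else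
    (if j - 1 = 0 then 1 else 0)) = _
  rcases j with _ | _ | j <;> simp

omit [MulAction π E] in
theorem P1c.dl_df {M : Type*} [AddCommGroup M] (f : E → M) (σ : C(Cb, E)) : dl 1 (P1c.df f) σ = 0 := by
  have e1 : (fun j : ℕ => if j = 0 then (1 : I) else if j = 1 then 0 else 0) =
      fun j => if j = 0 then 1 else 0 := by
    funext j
    rcases j with _ | _ | j <;> simp
  have e2 : (fun j : ℕ => if j = 0 then (0 : I) else if j = 1 then 1 else 0) =
      fun j => if j = 1 then 1 else 0 := by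
    funext j
    rcases j with _ | _ | j <;> simp
  have e3 : (fun j : ℕ => if j = 0 then (0 : I) else 0) = fun _ => 0 := by
    funext j
    rcases j with _ | j <;> simp
  have e4 : (fun j : ℕ => if j = 1 then (0 : I) else 0) = fun _ => 0 := by
    funext j
    rcases j with _ | j <;> simp
  simp only [dl, P1c.df, Finset.sum_range_succ, Finset.sum_range_zero, P1c.st_ins, P1c.en_ins_zero, P1c.en_ins_one,
    e1, e2, e3, e4, zero_add, pow_zero, pow_one, one_smul, neg_smul]
  abel

omit [MulAction π E] in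
theorem P1c.dl_sub {M : Type*} [AddCommGroup M] (j : ℕ) (u v : C(Cb, E) → M) (σ : C(Cb, E)) :
    dl j (fun τ => u τ - v τ) σ = dl j u σ - dl j v σ := by
  simp only [dl, ← Finset.sum_sub_distrib, ← smul_sub]
  refine Finset.sum_congr rfl fun i _ => ?_
  congr 1
  abel

omit [MulAction π E] in
theorem P1c.dl_add {M : Type*} [AddCommGroup M] (j : ℕ) (u v : C(Cb, E) → M) (σ : C(Cb, E)) :
    dl j (fun τ => u τ + v τ) σ = dl j u σ + dl j v σ := by
  simp only [dl, ← Finset.sum_add_distrib, ← smul_add]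
  refine Finset.sum_congr rfl fun i _ => ?_
  congr 1
  abel

omit [MulAction π E] in
theorem P1c.st_eq_en {σ : C(Cb, E)} (h : Degen 1 σ) : st σ = en σ := by
  obtain ⟨i, hi, hd⟩ := h
  have hi0 : i = 0 := by omega
  subst hi0
  refine hd fun j hj => ?_
  have : j ≠ 0 := hj
  change (0 : I) = if j = 0 then 1 else 0
  rw [if_neg this]

/-- `λ D_0(λ⁻¹ λ')`. -/
noncomputable def P1c.zed (D0 : π → Fin m → MonoidAlgebra k π) (l l' : E → π) (e : E) :
    Fin m → MonoidAlgebra k π := lt (l e) (D0 ((l e)⁻¹ * l' e))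

omit [TopologicalSpace E] [MulAction π E] in
theorem P1c.phi_zed {a : Fin m → π} {D0 : π → Fin m → MonoidAlgebra k π}
    (hD : ∀ g : π, phi a (D0 g) = MonoidAlgebra.of k π g - 1) (l l' : E → π) (e : E) :
    phi a (P1c.zed D0 l l' e) = MonoidAlgebra.of k π (l' e) - MonoidAlgebra.of k π (l e) := by
  rw [P1c.zed, P1c.phi_lt, hD, mul_sub, ← map_mul, mul_inv_cancel_left, mul_one]

omit [TopologicalSpace E] in
theorem P1c.zed_smul (D0 : π → Fin m → MonoidAlgebra k π) {l l' : E → π}
    (hl : ∀ (g : π) (e : E), l (g • e) = g * l e) (hl' : ∀ (g : π) (e : E), l' (g • e) = g * l' e)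
    (g : π) (e : E) : P1c.zed D0 l l' (g • e) = lt g (P1c.zed D0 l l' e) := by
  rw [P1c.zed, P1c.zed, hl, hl', P1c.lt_lt, mul_inv_rev, mul_assoc, inv_mul_cancel_left]

omit [MulAction π E] in
theorem P1c.phi_eta0 {a : Fin m → π} {D0 : π → Fin m → MonoidAlgebra k π}
    (hD : ∀ g : π, phi a (D0 g) = MonoidAlgebra.of k π g - 1) (lam : E → π) (σ : C(Cb, E)) :
    phi a (eta0 D0 lam σ) =
      MonoidAlgebra.of k π (lam (en σ)) - MonoidAlgebra.of k π (lam (st σ)) := by
  rw [eta0, P1c.phi_lt, hD, mul_sub, ← map_mul, mul_inv_cancel_left, mul_one]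

theorem P1c.eta0_smul (D0 : π → Fin m → MonoidAlgebra k π) {lam : E → π}
    (hlam : ∀ (g : π) (e : E), lam (g • e) = g * lam e)
    (hc : ∀ g : π, Continuous (fun e : E => g • e)) (g : π) (σ : C(Cb, E)) :
    eta0 D0 lam ((⟨fun e => g • e, hc g⟩ : C(E, E)).comp σ) = lt g (eta0 D0 lam σ) := by
  change lt (lam (g • st σ)) (D0 ((lam (g • st σ))⁻¹ * lam (g • en σ))) = _
  rw [hlam, hlam, P1c.lt_lt, mul_inv_rev, mul_assoc, inv_mul_cancel_left]
  rfl

/-- Pib. Sheets over two open sets: `κ` can be changed by the coboundary of an equivariant cochain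
with values in the kernel such that it vanishes on the cubes over `A 0` and on the cubes over
`A 1`. (`z_i(e) = λ_i D_0(λ_i⁻¹ λ)`, `η_0 - dz_i` over `A i`, correction
`y = z_1 - z_0 + λ_0 D_0(λ_0⁻¹ λ_1)` extended by zero.) -/
theorem exists_kap' {F : Type} [TopologicalSpace F] (p : C(E, F))
    (hc : ∀ g : π, Continuous (fun e : E => g • e)) (hp : ∀ (g : π) (e : E), p (g • e) = p e)
    {a : Fin m → π}
    {D0 : π → Fin m → MonoidAlgebra k π} (h1 : D0 1 = 0)
    (hD : ∀ g : π, phi a (D0 g) = MonoidAlgebra.of k π g - 1) {lam : E → π}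
    (hlam : ∀ (g : π) (e : E), lam (g • e) = g * lam e)
    (A : Fin 2 → Set F) (lamA : Fin 2 → E → π)
    (hlamA : ∀ i (g : π) (e : E), lamA i (g • e) = g * lamA i e)
    (hloc : ∀ i, ∀ σ : C(Cb, E), (∀ u, p (σ u) ∈ A i) → ∀ u v, lamA i (σ u) = lamA i (σ v)) :
    ∃ η : C(Cb, E) → (Fin m → MonoidAlgebra k π), (∀ σ, phi a (η σ) = 0) ∧
      (∀ σ : C(Cb, E), IsCube 1 σ → Degen 1 σ → η σ = 0) ∧
      (∀ (g : π) (σ : C(Cb, E)),
        η ((⟨fun e => g • e, hc g⟩ : C(E, E)).comp σ) = lt g (η σ)) ∧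
      ∀ i, ∀ σ : C(Cb, E), IsCube 2 σ → (∀ u, p (σ u) ∈ A i) → dl 1 η σ = kap D0 lam σ := by
  classical
  -- the functions on points
  set z : Fin 2 → E → Fin m → MonoidAlgebra k π := fun i => P1c.zed D0 (lamA i) lam with hz
  set w : E → Fin m → MonoidAlgebra k π := P1c.zed D0 (lamA 0) (lamA 1) with hw
  set y : E → Fin m → MonoidAlgebra k π := fun e =>
    if p e ∈ A 0 ∧ p e ∈ A 1 then z 1 e - z 0 e + w e else 0 with hy
  have hphiy : ∀ e, phi a (y e) = 0 := by
    intro e
    simp only [hy]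
    split_ifs
    · rw [P1c.phi_add, P1c.phi_sub, hz, hw, P1c.phi_zed hD, P1c.phi_zed hD, P1c.phi_zed hD]
      abel
    · exact P1c.phi_zero a
  have hzs : ∀ i (g : π) (e : E), z i (g • e) = lt g (z i e) := fun i g e =>
    P1c.zed_smul D0 (hlamA i) hlam g e
  have hws : ∀ (g : π) (e : E), w (g • e) = lt g (w e) := fun g e =>
    P1c.zed_smul D0 (hlamA 0) (hlamA 1) g e
  have hys : ∀ (g : π) (e : E), y (g • e) = lt g (y e) := by
    intro g e
    simp only [hy, hp]
    split_ifs
    · rw [hzs, hzs, hws, P1c.lt_add, P1c.lt_sub]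
    · rw [P1c.lt_zero]
  -- over `A i` the end points have the same `lamA i`
  have hends : ∀ i, ∀ σ : C(Cb, E), (∀ u, p (σ u) ∈ A i) → lamA i (en σ) = lamA i (st σ) :=
    fun i σ h => hloc i σ h _ _
  have hphi : ∀ i, ∀ σ : C(Cb, E), (∀ u, p (σ u) ∈ A i) →
      phi a (eta0 D0 lam σ - P1c.df (z i) σ) = 0 := by
    intro i σ h
    rw [P1c.phi_sub, P1c.phi_eta0 hD, P1c.df, P1c.phi_sub, hz, P1c.phi_zed hD, P1c.phi_zed hD, hends i σ h]
    abel
  have hphidy : ∀ σ, phi a (P1c.df y σ) = 0 := by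
    intro σ
    rw [P1c.df, P1c.phi_sub, hphiy, hphiy, sub_zero]
  -- the two formulas agree on the overlap
  have hagree : ∀ σ : C(Cb, E), (∀ u, p (σ u) ∈ A 0) → (∀ u, p (σ u) ∈ A 1) →
      eta0 D0 lam σ - P1c.df (z 1) σ + P1c.df y σ = eta0 D0 lam σ - P1c.df (z 0) σ := by
    intro σ h0 h1'
    have hwc : w (en σ) = w (st σ) := by
      rw [hw, P1c.zed, P1c.zed, hends 0 σ h0, hends 1 σ h1']
    have e1 : y (en σ) = z 1 (en σ) - z 0 (en σ) + w (en σ) := by
      simp only [hy]
      exact if_pos ⟨h0 _, h1' _⟩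
    have e2 : y (st σ) = z 1 (st σ) - z 0 (st σ) + w (st σ) := by
      simp only [hy]
      exact if_pos ⟨h0 _, h1' _⟩
    rw [P1c.df, P1c.df, P1c.df, e1, e2, hwc]
    abel
  set η : C(Cb, E) → (Fin m → MonoidAlgebra k π) := fun σ =>
    if ∀ u, p (σ u) ∈ A 0 then eta0 D0 lam σ - P1c.df (z 0) σ
    else if ∀ u, p (σ u) ∈ A 1 then eta0 D0 lam σ - P1c.df (z 1) σ + P1c.df y σ else 0 with hη
  have hη0 : ∀ σ : C(Cb, E), (∀ u, p (σ u) ∈ A 0) → η σ = eta0 D0 lam σ - P1c.df (z 0) σ := by
    intro σ h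
    simp only [hη]
    exact if_pos h
  have hη1 : ∀ σ : C(Cb, E), (∀ u, p (σ u) ∈ A 1) →
      η σ = eta0 D0 lam σ - P1c.df (z 1) σ + P1c.df y σ := by
    intro σ h
    by_cases h0 : ∀ u, p (σ u) ∈ A 0
    · rw [hη0 σ h0, hagree σ h0 h]
    · simp only [hη]
      rw [if_neg h0, if_pos h]
  refine ⟨η, fun σ => ?_, fun σ _ hd => ?_, fun g σ => ?_, fun i σ _ hA => ?_⟩
  · simp only [hη]
    split_ifs with h0 h1'
    · exact hphi 0 σ h0
    · rw [P1c.phi_add, hphi 1 σ h1', hphidy, add_zero]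
    · exact P1c.phi_zero a
  · have hse : st σ = en σ := P1c.st_eq_en hd
    have he0 : eta0 D0 lam σ = 0 := by
      rw [eta0, hse, inv_mul_cancel, h1, P1c.lt_zero]
    have hdf : ∀ f : E → Fin m → MonoidAlgebra k π, P1c.df f σ = 0 := by
      intro f
      rw [P1c.df, hse, sub_self]
    simp only [hη, he0, hdf]
    split_ifs <;> simp
  · have hdfs : ∀ f : E → Fin m → MonoidAlgebra k π, (∀ (g : π) (e : E), f (g • e) = lt g (f e)) →
        P1c.df f ((⟨fun e => g • e, hc g⟩ : C(E, E)).comp σ) = lt g (P1c.df f σ) := by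
      intro f hf
      change f (g • en σ) - f (g • st σ) = _
      rw [hf, hf, ← P1c.lt_sub]
      rfl
    have hpc : ∀ (B : Set F), (∀ u, p (((⟨fun e => g • e, hc g⟩ : C(E, E)).comp σ) u) ∈ B) ↔
        ∀ u, p (σ u) ∈ B := by
      intro B
      refine forall_congr' fun u => ?_
      change p (g • σ u) ∈ B ↔ _
      rw [hp]
    by_cases h0 : ∀ u, p (σ u) ∈ A 0
    · rw [hη0 _ ((hpc _).2 h0), hη0 σ h0, P1c.eta0_smul D0 hlam hc, hdfs _ (hzs 0), ← P1c.lt_sub]
    · by_cases h1' : ∀ u, p (σ u) ∈ A 1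
      · rw [hη1 _ ((hpc _).2 h1'), hη1 σ h1', P1c.eta0_smul D0 hlam hc, hdfs _ (hzs 1), hdfs _ hys,
          ← P1c.lt_sub, ← P1c.lt_add]
      · simp only [hη, hpc]
        rw [if_neg h0, if_neg h1', if_neg h0, if_neg h1', P1c.lt_zero]
  · have hface : ∀ (j : ℕ) (e : I) (B : Set F), (∀ u, p (σ u) ∈ B) →
        ∀ u, p ((σ.comp (ins j e)) u) ∈ B := fun j e B h u => h _
    have key : ∃ v : C(Cb, E) → (Fin m → MonoidAlgebra k π), (∀ τ, dl 1 v τ = 0) ∧
        ∀ τ : C(Cb, E), (∀ u, p (τ u) ∈ A i) → η τ = eta0 D0 lam τ - v τ := by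
      fin_cases i
      · exact ⟨P1c.df (z 0), fun τ => P1c.dl_df _ τ, fun τ h => hη0 τ h⟩
      · refine ⟨fun τ => P1c.df (z 1) τ - P1c.df y τ, fun τ => ?_, fun τ h => ?_⟩
        · rw [P1c.dl_sub, P1c.dl_df, P1c.dl_df, sub_zero]
        · rw [hη1 τ h]
          exact sub_add _ _ _
    obtain ⟨v, hv, hv'⟩ := key
    have : dl 1 η σ = dl 1 (fun τ => eta0 D0 lam τ - v τ) σ := by
      simp only [dl]
      refine Finset.sum_congr rfl fun j _ => ?_
      rw [hv' _ (hface j 1 _ hA), hv' _ (hface j 0 _ hA)]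
    rw [this, P1c.dl_sub, hv, sub_zero]
    rfl

end kappa

end Pool.Agent.TC
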