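import Pool.Agent.Lib.TC.Pi1K
import Pool.Agent.Lib.TC.Pi1D
import Pool.Agent.Lib.TC.Pi1F

/-!
# Section 11: coverings
-/

namespace Pool.Agent.TC

open CubeHom

section covers

variable {F : Type} [TopologicalSpace F] [T2Space F] [CompactSpace F] {d : ℕ}

variable {π E : Type} [Group π] [TopologicalSpace E] [MulAction π E] {N : Set F}

/-- The covering as a map to the subspace `N`. -/
def RCov.q (C : RCov π E N) : E → N := fun e => ⟨C.p e, by
  have h : C.p e ∈ Set.range C.p := ⟨e, rfl⟩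
  rw [C.range] at h
  exact h⟩

omit [T2Space F] [CompactSpace F] in
theorem RCov.q_val (C : RCov π E N) (e : E) : (C.q e : F) = C.p e := rfl

omit [T2Space F] [CompactSpace F] in
theorem RCov.isCoveringMap (C : RCov π E N) : IsCoveringMap C.q := by
  have h := C.cov.isCoveringMap_restrictPreimage
  let e : E ≃ₜ (C.p ⁻¹' N : Set E) :=
    { toFun := fun x => ⟨x, (C.q x).2⟩
      invFun := fun x => x.1
      left_inv := fun _ => rfl
      right_inv := fun _ => rfl
      continuous_toFun := continuous_id.subtype_mk _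
      continuous_invFun := continuous_subtype_val }
  exact h.comp_homeomorph e

/-- An equivariant map to the group. -/
theorem exists_lam (C : RCov π E N) : ∃ lam : E → π, ∀ (g : π) (e : E), lam (g • e) = g * lam e := by
  classical
  have h1 : ∀ x : F, ∃ r : E → E, ∀ e, C.p e = x → C.p (r e) = x ∧ ∀ e', C.p e' = x → r e' = r e := by
    intro x
    by_cases hx : ∃ e0, C.p e0 = x
    · obtain ⟨e0, he0⟩ := hx
      exact ⟨fun _ => e0, fun e _ => ⟨he0, fun _ _ => rfl⟩⟩
    · exact ⟨id, fun e he => (hx ⟨e, he⟩).elim⟩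
  choose r hr using h1
  have h2 : ∀ e : E, ∃ g : π, g • r (C.p e) e = e := fun e =>
    C.trans _ _ (hr (C.p e) e rfl).1
  choose lam hlam using h2
  refine ⟨lam, fun g e => ?_⟩
  have h3 : r (C.p (g • e)) (g • e) = r (C.p e) e := by
    rw [C.p_smul]
    exact (hr (C.p e) e rfl).2 _ (C.p_smul g e)
  have h4 := hlam (g • e)
  rw [h3] at h4
  have h5 : (g * lam e)⁻¹ * lam (g • e) = 1 := by
    refine C.free _ (r (C.p e) e) ?_
    rw [mul_smul, h4, inv_smul_eq_iff, mul_smul, hlam e]
  exact (inv_mul_eq_one.1 h5).symm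

/-- Lifting the retraction of `N` to a smaller set which is homotopic to the identity in `N`. -/
theorem exists_lift_deform (C : RCov π E N) [SimplyConnectedSpace E] (hd : LocEuc d E)
    {M : Set F} (Hh : C(I × N, F)) (hN : ∀ q, Hh q ∈ N) (h0 : ∀ x : N, Hh (0, x) = x)
    (h1 : ∀ x : N, Hh (1, x) ∈ M) (hM : ∀ x : N, (x : F) ∈ M → ∀ t, Hh (t, x) = x) :
    ∃ Ψ : C(E, E), (∀ (g : π) (e : E), Ψ (g • e) = g • Ψ e) ∧ (∀ e, C.p (Ψ e) ∈ M) ∧
      ∀ e, C.p e ∈ M → Ψ e = e := by
  have cov := C.isCoveringMap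
  let hq : C(E, N) := ⟨C.q, cov.continuous⟩
  let Hn : C(I × E, N) := ⟨fun x => ⟨Hh (x.1, C.q x.2), hN _⟩, by
    refine Continuous.subtype_mk ?_ _
    exact Hh.continuous.comp (continuous_fst.prodMk (cov.continuous.comp continuous_snd))⟩
  have hHn : ∀ x, (Hn x : F) = Hh (x.1, C.q x.2) := fun _ => rfl
  obtain ⟨G, hG0, hG⟩ : ∃ G : C(I × E, E), (∀ e, G (0, e) = e) ∧ ∀ x, C.q (G x) = Hn x := by
    refine ⟨cov.liftHomotopy Hn (ContinuousMap.id E) ?_, ?_, ?_⟩
    · intro e
      refine Subtype.ext ?_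
      rw [hHn]
      exact h0 (C.q e)
    · intro e
      exact cov.liftHomotopy_zero Hn (ContinuousMap.id E) _ e
    · intro x
      exact congrFun (cov.liftHomotopy_lifts Hn (ContinuousMap.id E) _) x
  have huniq : ∀ (f g : C(I, E)), (∀ t, C.q (f t) = C.q (g t)) → f 0 = g 0 → ∀ t, f t = g t := by
    intro f g h h0 t
    exact congrFun (cov.eq_of_comp_eq f.continuous g.continuous (funext h) 0 h0) t
  refine ⟨⟨fun e => G (1, e), G.continuous.comp (by fun_prop)⟩, ?_, ?_, ?_⟩
  · intro g e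
    refine huniq ⟨fun t => G (t, g • e), G.continuous.comp (by fun_prop)⟩
      ⟨fun t => g • G (t, e), (C.cont g).comp (G.continuous.comp (by fun_prop))⟩ ?_ ?_ 1
    · intro t
      change C.q (G (t, g • e)) = C.q (g • G (t, e))
      have h5 : C.q (g • G (t, e)) = C.q (G (t, e)) := Subtype.ext (C.p_smul _ _)
      have h6 : C.q (g • e) = C.q e := Subtype.ext (C.p_smul _ _)
      rw [h5, hG, hG]
      refine Subtype.ext ?_
      rw [hHn, hHn, h6]
    · change G (0, g • e) = g • G (0, e)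
      rw [hG0, hG0]
  · intro e
    change C.p (G (1, e)) ∈ M
    have h7 : C.p (G (1, e)) = Hh (1, C.q e) := by
      rw [← RCov.q_val, hG, hHn]
    rw [h7]
    exact h1 _
  · intro e he
    refine huniq ⟨fun t => G (t, e), G.continuous.comp (by fun_prop)⟩
      (ContinuousMap.const I e) ?_ (hG0 e) 1
    intro t
    change C.q (G (t, e)) = C.q e
    rw [hG]
    refine Subtype.ext ?_
    rw [hHn]
    exact hM (C.q e) he t

/-- The sheets over an open set which is contractible in `F`, case `N = F`. -/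
theorem exists_sheet (C : RCov π E (Set.univ : Set F)) [PathConnectedSpace E] {U : Set F}
    (hU : IsOpen U)
    {x0 : F} (Hh : C(I × U, F)) (h0 : ∀ x : U, Hh (0, x) = x) (h1 : ∀ x : U, Hh (1, x) = x0) :
    ∃ (s : C(U, E)) (e0 : E) (G : C(I × U, E)) (lam : E → π), (∀ x : U, C.p (s x) = x) ∧
      (∀ x, G (0, x) = s x) ∧ (∀ x, G (1, x) = e0) ∧
      (∀ (g : π) (e : E), lam (g • e) = g * lam e) ∧
      (∀ (e : E) (h : C.p e ∈ U), e = lam e • s ⟨C.p e, h⟩) ∧
      ∀ σ : C(Cb, E), (∀ u, C.p (σ u) ∈ U) → ∀ u v, lam (σ u) = lam (σ v) := by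
  classical
  have cov : IsCoveringMap C.p := by
    rw [isCoveringMap_iff_isCoveringMapOn_univ]
    exact C.cov
  obtain ⟨e0, he0⟩ : x0 ∈ Set.range C.p := by
    rw [C.range]
    exact Set.mem_univ _
  let Hr : C(I × U, F) := ⟨fun x => Hh (unitInterval.symm x.1, x.2), Hh.continuous.comp
    ((unitInterval.continuous_symm.comp continuous_fst).prodMk continuous_snd)⟩
  have hHr : ∀ x, Hr x = Hh (unitInterval.symm x.1, x.2) := fun _ => rfl
  obtain ⟨G, hG0, hG⟩ : ∃ G : C(I × U, E), (∀ x, G (0, x) = e0) ∧ ∀ x, C.p (G x) = Hr x := by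
    refine ⟨cov.liftHomotopy Hr (ContinuousMap.const U e0) ?_, ?_, ?_⟩
    · intro x
      rw [hHr]
      change Hh (unitInterval.symm 0, x) = C.p e0
      rw [unitInterval.symm_zero, h1, he0]
    · intro e
      exact cov.liftHomotopy_zero Hr (ContinuousMap.const U e0) _ e
    · intro x
      exact congrFun (cov.liftHomotopy_lifts Hr (ContinuousMap.const U e0) _) x
  let s : C(U, E) := ⟨fun x => G (1, x), G.continuous.comp (by fun_prop)⟩
  have hs : ∀ x : U, C.p (s x) = x := by
    intro x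
    change C.p (G (1, x)) = x
    rw [hG, hHr]
    change Hh (unitInterval.symm 1, x) = x
    rw [unitInterval.symm_one, h0]
  obtain ⟨lam0, hlam0⟩ := exists_lam C
  have hex : ∀ e : E, ∃ g : π, ∀ h : C.p e ∈ U, e = g • s ⟨C.p e, h⟩ := by
    intro e
    by_cases h : C.p e ∈ U
    · obtain ⟨g, hg⟩ := C.trans (s ⟨C.p e, h⟩) e (hs _)
      exact ⟨g, fun _ => hg.symm⟩
    · exact ⟨1, fun h' => (h h').elim⟩
  choose lam1 hlam1 using hex
  have hone : ∀ (x : U) (g g' : π), g • s x = g' • s x → g = g' := by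
    intro x g g' h
    have h2 : g'⁻¹ * g = 1 := by
      refine C.free _ (s x) ?_
      rw [mul_smul, h, inv_smul_smul]
    exact (inv_mul_eq_one.1 h2).symm
  refine ⟨s, e0, ⟨fun x => G (unitInterval.symm x.1, x.2), G.continuous.comp
    ((unitInterval.continuous_symm.comp continuous_fst).prodMk continuous_snd)⟩,
    fun e => if C.p e ∈ U then lam1 e else lam0 e, hs, ?_, ?_, ?_, ?_, ?_⟩
  · intro x
    change G (unitInterval.symm 0, x) = G (1, x)
    rw [unitInterval.symm_zero]
  · intro x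
    change G (unitInterval.symm 1, x) = e0
    rw [unitInterval.symm_one, hG0]
  · intro g e
    change (if C.p (g • e) ∈ U then lam1 (g • e) else lam0 (g • e)) =
      g * (if C.p e ∈ U then lam1 e else lam0 e)
    rw [C.p_smul]
    by_cases h : C.p e ∈ U
    · rw [if_pos h, if_pos h]
      refine hone ⟨C.p e, h⟩ _ _ ?_
      have h2 := hlam1 (g • e) (by rw [C.p_smul]; exact h)
      have h3 : (⟨C.p (g • e), by rw [C.p_smul]; exact h⟩ : U) = ⟨C.p e, h⟩ :=
        Subtype.ext (C.p_smul g e)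
      rw [h3] at h2
      rw [← h2, mul_smul, ← hlam1 e h]
    · rw [if_neg h, if_neg h, hlam0]
  · intro e h
    change e = (if C.p e ∈ U then lam1 e else lam0 e) • s ⟨C.p e, h⟩
    rw [if_pos h]
    exact hlam1 e h
  · intro σ hσ u v
    change (if C.p (σ u) ∈ U then lam1 (σ u) else lam0 (σ u)) =
      (if C.p (σ v) ∈ U then lam1 (σ v) else lam0 (σ v))
    rw [if_pos (hσ u), if_pos (hσ v)]
    have hpre : PreconnectedSpace Cb := inferInstance
    have h4 : (σ : Cb → E) = fun w => lam1 (σ u) • s ⟨C.p (σ w), hσ w⟩ := by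
      refine cov.eq_of_comp_eq (a := u) σ.continuous ?_ ?_ (hlam1 (σ u) (hσ u))
      · exact (C.cont _).comp (s.continuous.comp
          ((C.p.continuous.comp σ.continuous).subtype_mk _))
      · funext w
        change C.p (σ w) = C.p (lam1 (σ u) • s ⟨C.p (σ w), hσ w⟩)
        rw [C.p_smul, hs]
    have h5 := congrFun h4 v
    have h6 := hlam1 (σ v) (hσ v)
    refine hone ⟨C.p (σ v), hσ v⟩ _ _ ?_
    rw [← h6]
    exact h5.symm

end covers

end Pool.Agent.TC
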