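import Pool.Agent.Lib.TC.Uct
import Pool.Agent.Lib.TC.EZ
import Pool.Agent.Lib.TC.CupI

/-!
# Section 10.2: the cochains on the triple product
-/

namespace Pool.Agent.TC

open CubeHom

variable {X Y W : Type} [TopologicalSpace X] [TopologicalSpace Y] [TopologicalSpace W]

/-- Multiplication by two, `ℤ/2 → ℤ/4`. -/
def i2 : ZMod 2 →+ ZMod 4 where
  toFun a := 2 * (a.val : ZMod 4)
  map_zero' := by decide
  map_add' := by decide

/-- Reduction modulo two. -/
def r2 : ZMod 4 →+* ZMod 2 := ZMod.castHom (show 2 ∣ 4 by norm_num) (ZMod 2)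

/-- The lift with values `0`, `1`. -/
def lft (u : C(Cb, X) → ZMod 2) : C(Cb, X) → ZMod 4 := fun σ => ((u σ).val : ZMod 4)

/-- Half of the coboundary of the integral lift with values `0`, `1`. -/
def hlf (j : ℕ) (u : C(Cb, X) → ZMod 2) : C(Cb, X) → ZMod 4 := fun σ =>
  ((dl j (fun τ => ((u τ).val : ℤ)) σ / 2 : ℤ) : ZMod 4)

/-- The triple external product. -/
def trip {R : Type} [CommRing R] (i j l : ℕ) (a : C(Cb, X) → R) (b : C(Cb, Y) → R)
    (c : C(Cb, W) → R) : C(Cb, X × (Y × W)) → R :=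
  cup AddMonoidHom.mul i (j + l) (pb ContinuousMap.fst a)
    (cup AddMonoidHom.mul j l (pb (ContinuousMap.fst.comp ContinuousMap.snd) b)
      (pb (ContinuousMap.snd.comp ContinuousMap.snd) c))

namespace QDaAux

theorem card_wfr {n : ℕ} {H : Finset ℕ} (hH : H ⊆ Finset.range n) :
    ((Finset.range n).filter (fun i => wfr H i = none)).card = H.card := by
  congr 1
  ext i
  simp only [Finset.mem_filter, wfr]
  constructor
  · rintro ⟨_, h⟩
    by_contra hi
    simp [hi] at h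
  · intro h
    exact ⟨hH h, by simp [h]⟩

theorem card_wbk {n : ℕ} {H : Finset ℕ} (hH : H ⊆ Finset.range n) :
    ((Finset.range n).filter (fun i => wbk H i = none)).card = n - H.card := by
  have e : (Finset.range n).filter (fun i => wbk H i = none) = Finset.range n \ H := by
    ext i
    simp only [Finset.mem_filter, wbk, Finset.mem_sdiff]
    constructor
    · rintro ⟨h1, h⟩
      refine ⟨h1, fun hi => ?_⟩
      simp [hi] at h
    · rintro ⟨h1, h⟩
      exact ⟨h1, by simp [h]⟩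
  rw [e, Finset.card_sdiff_of_subset hH, Finset.card_range]

/-- A cup product depends only on the values on the cubes of the right dimensions. -/
theorem cup_congr {A A' A'' : Type} [AddCommGroup A] [AddCommGroup A'] [AddCommGroup A'']
    (S : CS X) (β : A →+ A' →+ A'') {p q : ℕ} {u u' : C(Cb, X) → A} {v v' : C(Cb, X) → A'}
    (hu : ∀ τ, IsCube (p : ℤ) τ → S.ok τ → u τ = u' τ)
    (hv : ∀ τ, IsCube (q : ℤ) τ → S.ok τ → v τ = v' τ) {σ : C(Cb, X)}
    (hσ : IsCube ((p + q : ℕ) : ℤ) σ) (hok : S.ok σ) :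
    cup β p q u v σ = cup β p q u' v' σ := by
  unfold cup
  refine Finset.sum_congr rfl fun H hH => ?_
  rw [Finset.mem_powersetCard] at hH
  have h1 := isCube_fc (w := wfr H) hσ
  rw [card_wfr hH.1, hH.2] at h1
  have h2 := isCube_fc (w := wbk H) hσ
  rw [card_wbk hH.1, hH.2, Nat.add_sub_cancel_left] at h2
  rw [hu _ h1 (S.ok_comp _ _ hok), hv _ h2 (S.ok_comp _ _ hok)]

theorem cup_zero_left {A A' A'' : Type} [AddCommGroup A] [AddCommGroup A'] [AddCommGroup A'']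
    (S : CS X) (β : A →+ A' →+ A'') {p q : ℕ} {u : C(Cb, X) → A} (v : C(Cb, X) → A')
    (hu : ∀ τ, IsCube (p : ℤ) τ → S.ok τ → u τ = 0) {σ : C(Cb, X)}
    (hσ : IsCube ((p + q : ℕ) : ℤ) σ) (hok : S.ok σ) : cup β p q u v σ = 0 := by
  rw [cup_congr S β (u' := fun _ => 0) (v' := v) hu (fun _ _ _ => rfl) hσ hok]
  unfold cup
  refine Finset.sum_eq_zero fun H _ => ?_
  rw [map_zero, AddMonoidHom.zero_apply, smul_zero]

theorem cup_zero_right {A A' A'' : Type} [AddCommGroup A] [AddCommGroup A'] [AddCommGroup A'']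
    (S : CS X) (β : A →+ A' →+ A'') {p q : ℕ} (u : C(Cb, X) → A) {v : C(Cb, X) → A'}
    (hv : ∀ τ, IsCube (q : ℤ) τ → S.ok τ → v τ = 0) {σ : C(Cb, X)}
    (hσ : IsCube ((p + q : ℕ) : ℤ) σ) (hok : S.ok σ) : cup β p q u v σ = 0 := by
  rw [cup_congr S β (u' := u) (v' := fun _ => 0) (fun _ _ _ => rfl) hv hσ hok]
  unfold cup
  refine Finset.sum_eq_zero fun H _ => ?_
  rw [map_zero, smul_zero]

/-- The cubes of `S`; those are zero which are zero in `S` or in `T`. -/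
def un (S T : CS X) : CS X := ⟨S.ok, fun σ => S.nul σ ∨ T.nul σ, S.ok_comp,
  fun σ f h => h.imp (S.nul_comp σ f) (T.nul_comp σ f)⟩

/-- The cup product of cocycles is a cocycle. -/
theorem cup_coc {A A' A'' : Type} [AddCommGroup A] [AddCommGroup A'] [AddCommGroup A'']
    (S T : CS X) (hST : T.ok = S.ok) (β : A →+ A' →+ A'') {p q : ℕ}
    {u : C(Cb, X) → A} {v : C(Cb, X) → A'} (hu : S.Coc p u) (hv : T.Coc q v) :
    (un S T).Coc (p + q) (cup β p q u v) := by
  refine ⟨cup_rel S T hST β hu.1 hv.1, fun σ h1 h2 => ?_⟩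
  have h2' : S.ok σ := h2
  have hv2 := hv.2
  rw [hST] at hv2
  rw [dl_cup β p q u v h1,
    cup_zero_left S β v hu.2 (by rwa [show p + 1 + q = p + q + 1 by omega]) h2',
    cup_zero_right S β u hv2 h1 h2', smul_zero, add_zero]

/-- The cubes of `W` whose components are cubes of the systems, the zero cubes of one of the
factors. -/
def pull (S : CS X) (g : C(W, X)) (ok : C(Cb, W) → Prop)
    (hok : ∀ σ f, ok σ → ok (σ.comp f)) : CS W :=
  ⟨ok, fun σ => S.nul (g.comp σ), hok, fun _ f h => S.nul_comp _ f h⟩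

theorem pull_rel {A : Type} [AddCommGroup A] {S : CS X} {g : C(W, X)} {ok : C(Cb, W) → Prop}
    {hok : ∀ σ f, ok σ → ok (σ.comp f)} (h : ∀ σ, ok σ → S.ok (g.comp σ)) {k : ℕ}
    {u : C(Cb, X) → A} (hu : S.Rel k u) : (pull S g ok hok).Rel k (pb g u) :=
  fun σ h1 h2 h3 => hu (g.comp σ) (h1.comp g) (h σ h2) (h3.imp id (fun h => h.comp g))

theorem pull_coc {A : Type} [AddCommGroup A] {S : CS X} {g : C(W, X)} {ok : C(Cb, W) → Prop}
    {hok : ∀ σ f, ok σ → ok (σ.comp f)} (h : ∀ σ, ok σ → S.ok (g.comp σ)) {k : ℕ}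
    {u : C(Cb, X) → A} (hu : S.Coc k u) : (pull S g ok hok).Coc k (pb g u) :=
  ⟨pull_rel h hu.1, fun σ h1 h2 => hu.2 (g.comp σ) (h1.comp g) (h σ h2)⟩

/-- Cup products and change of rings. -/
theorem map_cup {R R' : Type} [CommRing R] [CommRing R'] (g : R →+* R') (p q : ℕ)
    (u v : C(Cb, X) → R) (σ : C(Cb, X)) :
    g (cup AddMonoidHom.mul p q u v σ) =
      cup AddMonoidHom.mul p q (fun τ => g (u τ)) (fun τ => g (v τ)) σ := by
  unfold cup
  rw [map_sum]
  refine Finset.sum_congr rfl fun H _ => ?_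
  rw [map_zsmul, AddMonoidHom.mul_apply, AddMonoidHom.mul_apply, map_mul]

theorem dl_def {A : Type} [AddCommGroup A] (k : ℕ) (u : C(Cb, X) → A) (σ : C(Cb, X)) :
    dl k u σ = ∑ i ∈ Finset.range (k + 1), ((-1 : ℤ) ^ i) •
      (u (σ.comp (ins i 1)) - u (σ.comp (ins i 0))) := rfl

/-- The integral lift. -/
def zl (u : C(Cb, X) → ZMod 2) : C(Cb, X) → ℤ := fun τ => ((u τ).val : ℤ)

theorem cast_dl_zl (j : ℕ) (u : C(Cb, X) → ZMod 2) (σ : C(Cb, X)) :
    ((dl j (zl u) σ : ℤ) : ZMod 2) = dl j u σ := by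
  unfold dl zl
  rw [Int.cast_sum]
  refine Finset.sum_congr rfl fun i _ => ?_
  have hc : ∀ x : ZMod 2, (((x.val : ℤ)) : ZMod 2) = x := fun x => by
    rw [Int.cast_natCast, ZMod.natCast_zmod_val]
  rw [smul_eq_mul, Int.cast_mul, Int.cast_sub, zsmul_eq_mul, hc, hc]

theorem cast_dl_lft (j : ℕ) (u : C(Cb, X) → ZMod 2) (σ : C(Cb, X)) :
    dl j (lft u) σ = ((dl j (zl u) σ : ℤ) : ZMod 4) := by
  unfold dl zl lft
  rw [Int.cast_sum]
  refine Finset.sum_congr rfl fun i _ => ?_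
  rw [smul_eq_mul, Int.cast_mul, Int.cast_sub, zsmul_eq_mul, Int.cast_natCast, Int.cast_natCast]

theorem even_dl_zl {j : ℕ} {u : C(Cb, X) → ZMod 2} {σ : C(Cb, X)} (h : dl j u σ = 0) :
    2 * (dl j (zl u) σ / 2) = dl j (zl u) σ := by
  have h1 := cast_dl_zl j u σ
  rw [h, ZMod.intCast_zmod_eq_zero_iff_dvd] at h1
  exact Int.mul_ediv_cancel' (by exact_mod_cast h1)

theorem face_cube {j : ℕ} {σ : C(Cb, X)} (h : IsCube ((j + 1 : ℕ) : ℤ) σ) {i : ℕ}
    (hi : i < j + 1) (e : I) : IsCube (j : ℤ) (σ.comp (ins i e)) := by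
  have := h.face (i := i) (by push_cast; omega) e
  rwa [show ((j + 1 : ℕ) : ℤ) - 1 = (j : ℤ) by push_cast; ring] at this

theorem i2_mul : ∀ (x : ZMod 2) (y : ZMod 4), i2 x * y = i2 (x * r2 y) := by
  intro x y
  have h : ∀ (x : ZMod 2) (y : ZMod 4),
      2 * (x.val : ZMod 4) * y = 2 * ((x * ((y.val : ℕ) : ZMod 2)).val : ZMod 4) := by decide
  have h2 : r2 y = ((y.val : ℕ) : ZMod 2) := by
    rw [ZMod.natCast_val]; rfl
  rw [h2]
  exact h x y

theorem cup_i2 (p q : ℕ) (x : C(Cb, X) → ZMod 2) (v : C(Cb, X) → ZMod 4) (σ : C(Cb, X)) :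
    cup AddMonoidHom.mul p q (fun τ => i2 (x τ)) v σ =
      i2 (cup AddMonoidHom.mul p q x (fun τ => r2 (v τ)) σ) := by
  unfold cup
  rw [map_sum]
  refine Finset.sum_congr rfl fun H _ => ?_
  rw [map_zsmul, AddMonoidHom.mul_apply, AddMonoidHom.mul_apply, i2_mul]

end QDaAux

open QDaAux in
theorem trip_rel {R : Type} [CommRing R] {S : CS X} {T : CS Y} {V : CS W} {i j l : ℕ}
    {a : C(Cb, X) → R} {b : C(Cb, Y) → R} {c : C(Cb, W) → R} (ha : S.Rel i a) (hb : T.Rel j b)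
    (hc : V.Rel l c) : (S.prod (T.prod V)).Rel (i + (j + l)) (trip i j l a b c) := by
  have hx : (pull S (ContinuousMap.fst : C(X × (Y × W), X)) (S.prod (T.prod V)).ok
      (S.prod (T.prod V)).ok_comp).Rel i (pb ContinuousMap.fst a) := pull_rel (fun _ h => h.1) ha
  have hy : (pull T (ContinuousMap.fst.comp ContinuousMap.snd : C(X × (Y × W), Y))
      (S.prod (T.prod V)).ok (S.prod (T.prod V)).ok_comp).Rel j
      (pb (ContinuousMap.fst.comp ContinuousMap.snd) b) := pull_rel (fun _ h => h.2.1) hb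
  have hz : (pull V (ContinuousMap.snd.comp ContinuousMap.snd : C(X × (Y × W), W))
      (S.prod (T.prod V)).ok (S.prod (T.prod V)).ok_comp).Rel l
      (pb (ContinuousMap.snd.comp ContinuousMap.snd) c) := pull_rel (fun _ h => h.2.2) hc
  exact cup_rel (pull S (ContinuousMap.fst : C(X × (Y × W), X)) (S.prod (T.prod V)).ok
      (S.prod (T.prod V)).ok_comp)
    (un (pull T (ContinuousMap.fst.comp ContinuousMap.snd : C(X × (Y × W), Y))
        (S.prod (T.prod V)).ok (S.prod (T.prod V)).ok_comp)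
      (pull V (ContinuousMap.snd.comp ContinuousMap.snd : C(X × (Y × W), W))
        (S.prod (T.prod V)).ok (S.prod (T.prod V)).ok_comp)) rfl AddMonoidHom.mul hx
    (cup_rel (pull T (ContinuousMap.fst.comp ContinuousMap.snd : C(X × (Y × W), Y))
        (S.prod (T.prod V)).ok (S.prod (T.prod V)).ok_comp)
      (pull V (ContinuousMap.snd.comp ContinuousMap.snd : C(X × (Y × W), W))
        (S.prod (T.prod V)).ok (S.prod (T.prod V)).ok_comp) rfl AddMonoidHom.mul hy hz)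

open QDaAux in
theorem trip_coc {R : Type} [CommRing R] {S : CS X} {T : CS Y} {V : CS W} {i j l : ℕ}
    {a : C(Cb, X) → R} {b : C(Cb, Y) → R} {c : C(Cb, W) → R} (ha : S.Coc i a) (hb : T.Coc j b)
    (hc : V.Coc l c) : (S.prod (T.prod V)).Coc (i + (j + l)) (trip i j l a b c) := by
  have hx : (pull S (ContinuousMap.fst : C(X × (Y × W), X)) (S.prod (T.prod V)).ok
      (S.prod (T.prod V)).ok_comp).Coc i (pb ContinuousMap.fst a) := pull_coc (fun _ h => h.1) ha
  have hy : (pull T (ContinuousMap.fst.comp ContinuousMap.snd : C(X × (Y × W), Y))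
      (S.prod (T.prod V)).ok (S.prod (T.prod V)).ok_comp).Coc j
      (pb (ContinuousMap.fst.comp ContinuousMap.snd) b) := pull_coc (fun _ h => h.2.1) hb
  have hz : (pull V (ContinuousMap.snd.comp ContinuousMap.snd : C(X × (Y × W), W))
      (S.prod (T.prod V)).ok (S.prod (T.prod V)).ok_comp).Coc l
      (pb (ContinuousMap.snd.comp ContinuousMap.snd) c) := pull_coc (fun _ h => h.2.2) hc
  exact cup_coc (pull S (ContinuousMap.fst : C(X × (Y × W), X)) (S.prod (T.prod V)).ok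
      (S.prod (T.prod V)).ok_comp)
    (un (pull T (ContinuousMap.fst.comp ContinuousMap.snd : C(X × (Y × W), Y))
        (S.prod (T.prod V)).ok (S.prod (T.prod V)).ok_comp)
      (pull V (ContinuousMap.snd.comp ContinuousMap.snd : C(X × (Y × W), W))
        (S.prod (T.prod V)).ok (S.prod (T.prod V)).ok_comp)) rfl AddMonoidHom.mul hx
    (cup_coc (pull T (ContinuousMap.fst.comp ContinuousMap.snd : C(X × (Y × W), Y))
        (S.prod (T.prod V)).ok (S.prod (T.prod V)).ok_comp)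
      (pull V (ContinuousMap.snd.comp ContinuousMap.snd : C(X × (Y × W), W))
        (S.prod (T.prod V)).ok (S.prod (T.prod V)).ok_comp) rfl AddMonoidHom.mul hy hz)

open QDaAux in
theorem r2_trip {i j l : ℕ} (a : C(Cb, X) → ZMod 4) (b : C(Cb, Y) → ZMod 4)
    (c : C(Cb, W) → ZMod 4) (σ : C(Cb, X × (Y × W))) :
    r2 (trip i j l a b c σ) =
      trip i j l (fun τ => r2 (a τ)) (fun τ => r2 (b τ)) (fun τ => r2 (c τ)) σ := by
  unfold trip
  rw [map_cup]
  congr 1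
  funext τ
  exact map_cup r2 j l _ _ τ

open QDaAux in
theorem hlf_rel (S : CS X) {j : ℕ} {u : C(Cb, X) → ZMod 2} (hu : S.Rel j u) :
    S.Rel (j + 1) (hlf j u) := by
  intro σ h1 h2 h3
  have hz : S.Rel j (zl u) := fun τ k1 k2 k3 => by
    unfold zl
    rw [hu τ k1 k2 k3]
    rfl
  have h4 : dl j (zl u) σ = 0 := dl_rel S hz σ h1 h2 h3
  change ((dl j (zl u) σ / 2 : ℤ) : ZMod 4) = 0
  rw [h4]
  rfl

open QDaAux in
theorem r2_hlf {j : ℕ} (hj : 1 ≤ j) {u : C(Cb, X) → ZMod 2} {σ : C(Cb, X)}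
    (hσ : IsCube ((j + 1 : ℕ) : ℤ) σ) (hu : dl j u σ = 0) : r2 (hlf j u σ) = sq1 j u σ := by
  have h1 : dl j (zl u) σ ≡ 2 * ((sq1 j u σ).val : ℤ) [ZMOD 4] := sq1_bockstein hj hσ hu
  change r2 ((dl j (zl u) σ / 2 : ℤ) : ZMod 4) = _
  rw [map_intCast]
  have h2 : ((dl j (zl u) σ / 2 : ℤ) : ZMod 2) = ((((sq1 j u σ).val : ℕ) : ℤ) : ZMod 2) := by
    rw [ZMod.intCast_eq_intCast_iff]
    change (dl j (zl u) σ / 2) % ((2 : ℕ) : ℤ) = _ % ((2 : ℕ) : ℤ)
    have h3 : (dl j (zl u) σ) % 4 = (2 * ((sq1 j u σ).val : ℤ)) % 4 := h1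
    push_cast
    omega
  rw [h2, Int.cast_natCast, ZMod.natCast_zmod_val]

open QDaAux in
theorem dl_hlf (S : CS X) {j : ℕ} {u : C(Cb, X) → ZMod 2} (hu : S.Coc j u)
    {σ : C(Cb, X)} (hσ : IsCube ((j + 2 : ℕ) : ℤ) σ) (hok : S.ok σ) :
    dl (j + 1) (hlf j u) σ = 0 := by
  have h0 := dl_dl j (zl u) σ
  have h1 : dl (j + 1) (dl j (zl u)) σ = 2 * dl (j + 1) (fun τ => dl j (zl u) τ / 2) σ := by
    rw [dl_def (j + 1), dl_def (j + 1), Finset.mul_sum]
    refine Finset.sum_congr rfl fun i hi => ?_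
    rw [Finset.mem_range] at hi
    have hf : ∀ e : I, 2 * (dl j (zl u) (σ.comp (ins i e)) / 2) =
        dl j (zl u) (σ.comp (ins i e)) := fun e =>
      even_dl_zl (hu.2 _ (face_cube hσ hi e) (S.ok_comp _ _ hok))
    rw [smul_eq_mul, smul_eq_mul]
    calc (-1 : ℤ) ^ i * (dl j (zl u) (σ.comp (ins i 1)) - dl j (zl u) (σ.comp (ins i 0)))
        = (-1 : ℤ) ^ i * (2 * (dl j (zl u) (σ.comp (ins i 1)) / 2) -
          2 * (dl j (zl u) (σ.comp (ins i 0)) / 2)) := by rw [hf 1, hf 0]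
      _ = _ := by ring
  rw [h1] at h0
  have h2 : dl (j + 1) (fun τ => dl j (zl u) τ / 2) σ = 0 := by omega
  have h3 : dl (j + 1) (hlf j u) σ =
      ((dl (j + 1) (fun τ => dl j (zl u) τ / 2) σ : ℤ) : ZMod 4) := by
    rw [dl_def (j + 1), dl_def (j + 1), Int.cast_sum]
    refine Finset.sum_congr rfl fun i _ => ?_
    rw [smul_eq_mul, Int.cast_mul, Int.cast_sub, zsmul_eq_mul]
    rfl
  rw [h3, h2]
  rfl

open QDaAux in
theorem sq1_coc (S : CS X) {j : ℕ} (hj : 1 ≤ j) {u : C(Cb, X) → ZMod 2} (hu : S.Coc j u) :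
    S.Coc (j + 1) (sq1 j u) := by
  refine ⟨cupI_rel S (by omega : j + j = (j + 1) + (j - 1)) hu.1 hu.1, fun σ h1 h2 => ?_⟩
  have h3 : dl (j + 1) (sq1 j u) σ = dl (j + 1) (fun τ => r2 (hlf j u τ)) σ := by
    rw [dl_def (j + 1), dl_def (j + 1)]
    refine Finset.sum_congr rfl fun i hi => ?_
    rw [Finset.mem_range] at hi
    rw [r2_hlf hj (face_cube h1 hi 1) (hu.2 _ (face_cube h1 hi 1) (S.ok_comp _ _ h2)),
      r2_hlf hj (face_cube h1 hi 0) (hu.2 _ (face_cube h1 hi 0) (S.ok_comp _ _ h2))]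
  have h4 : dl (j + 1) (fun τ => r2 (hlf j u τ)) σ = r2 (dl (j + 1) (hlf j u) σ) := by
    unfold dl
    rw [map_sum]
    refine Finset.sum_congr rfl fun i _ => ?_
    rw [map_zsmul, map_sub]
  rw [h3, h4, dl_hlf S hu h1 h2, map_zero]

open QDaAux in
/-- The coboundary of the product of the lifts. -/
theorem dl_V {S : CS X} {T : CS Y} {V : CS W} {i j l : ℕ} (hi : 1 ≤ i) (hj : 1 ≤ j)
    {a : C(Cb, X) → ZMod 2} {b : C(Cb, Y) → ZMod 2} {c : C(Cb, W) → ZMod 4}
    (ha : S.Coc i a) (hb : T.Coc j b) (hc : V.Coc l c) {ω : C(Cb, X × (Y × W))}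
    (hω : IsCube ((i + (j + 1 + l) + 1 : ℕ) : ℤ) ω) (hok : (S.prod (T.prod V)).ok ω) :
    dl (i + (j + 1 + l)) (trip i (j + 1) l (lft a) (hlf j b) c) ω =
      i2 (trip (i + 1) (j + 1) l (sq1 i a) (sq1 j b) (fun τ => r2 (c τ)) ω) := by
  have hokc := (S.prod (T.prod V)).ok_comp
  -- the product of the last two factors is a cocycle
  have hBC := QDaAux.cup_coc
    (pull ⟨T.ok, fun _ => False, T.ok_comp, fun _ _ h => h⟩
      (ContinuousMap.fst.comp ContinuousMap.snd : C(X × (Y × W), Y))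
        (S.prod (T.prod V)).ok hokc)
    (pull ⟨V.ok, fun _ => False, V.ok_comp, fun _ _ h => h⟩
      (ContinuousMap.snd.comp ContinuousMap.snd : C(X × (Y × W), W))
        (S.prod (T.prod V)).ok hokc) rfl AddMonoidHom.mul
    (p := j + 1) (q := l) (u := pb (ContinuousMap.fst.comp ContinuousMap.snd) (hlf j b))
    (v := pb (ContinuousMap.snd.comp ContinuousMap.snd) c)
    (pull_coc (fun _ h => h.2.1) ⟨fun τ k1 k2 k3 => hlf_rel T hb.1 τ k1 k2
      (Or.inr (k3.resolve_left id)), fun τ k1 k2 => dl_hlf T hb k1 k2⟩)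
    (pull_coc (fun _ h => h.2.2) ⟨fun τ k1 k2 k3 => hc.1 τ k1 k2
      (Or.inr (k3.resolve_left id)), fun τ k1 k2 => hc.2 τ k1 k2⟩)
  have hω' : IsCube ((i + 1 + (j + 1 + l) : ℕ) : ℤ) ω := by
    rwa [show i + 1 + (j + 1 + l) = i + (j + 1 + l) + 1 by omega]
  unfold trip
  rw [dl_cup (AddMonoidHom.mul : ZMod 4 →+ ZMod 4 →+ ZMod 4) i (j + 1 + l) _ _ hω,
    cup_zero_right (S.prod (T.prod V)) (AddMonoidHom.mul : ZMod 4 →+ ZMod 4 →+ ZMod 4) _
      (fun τ k1 k2 => hBC.2 τ k1 k2) hω hok,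
    smul_zero, add_zero]
  have e1 : cup AddMonoidHom.mul (i + 1) (j + 1 + l)
      (dl i (pb (ContinuousMap.fst : C(X × (Y × W), X)) (lft a)))
      (cup AddMonoidHom.mul (j + 1) l
        (pb (ContinuousMap.fst.comp ContinuousMap.snd : C(X × (Y × W), Y)) (hlf j b))
        (pb (ContinuousMap.snd.comp ContinuousMap.snd : C(X × (Y × W), W)) c)) ω =
      cup AddMonoidHom.mul (i + 1) (j + 1 + l)
      (fun τ => i2 (pb (ContinuousMap.fst : C(X × (Y × W), X)) (sq1 i a) τ))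
      (cup AddMonoidHom.mul (j + 1) l
        (pb (ContinuousMap.fst.comp ContinuousMap.snd : C(X × (Y × W), Y)) (hlf j b))
        (pb (ContinuousMap.snd.comp ContinuousMap.snd : C(X × (Y × W), W)) c)) ω := by
    refine cup_congr (S.prod (T.prod V)) _ (fun τ k1 k2 => ?_) (fun _ _ _ => rfl) hω' hok
    rw [dl_pb]
    change dl i (lft a) (ContinuousMap.fst.comp τ) = i2 (sq1 i a (ContinuousMap.fst.comp τ))
    have k3 := sq1_bockstein hi (k1.comp ContinuousMap.fst)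
      (ha.2 _ (k1.comp ContinuousMap.fst) k2.1)
    have k4 : dl i (zl a) (ContinuousMap.fst.comp τ) ≡
      2 * ((sq1 i a (ContinuousMap.fst.comp τ)).val : ℤ) [ZMOD ((4 : ℕ) : ℤ)] := k3
    rw [cast_dl_lft, (ZMod.intCast_eq_intCast_iff _ _ 4).2 k4]
    push_cast
    rfl
  rw [e1, cup_i2]
  congr 1
  refine cup_congr (S.prod (T.prod V)) _ (fun _ _ _ => rfl) (fun τ k1 k2 => ?_) hω' hok
  rw [map_cup]
  refine cup_congr (S.prod (T.prod V)) _ (fun ρ m1 m2 => ?_) (fun _ _ _ => rfl) k1 k2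
  exact r2_hlf hj (m1.comp (ContinuousMap.fst.comp ContinuousMap.snd))
    (hb.2 _ (m1.comp (ContinuousMap.fst.comp ContinuousMap.snd)) m2.2.1)

open CI1Aux CI4Aux in
/-- The external Cartan formula for `Sq^1` on product cubes. -/
theorem sq1_cartan {i j : ℕ} (hi : 1 ≤ i) (hj : 1 ≤ j) {a : C(Cb, X) → ZMod 2}
    {b : C(Cb, Y) → ZMod 2} (ha : (CS.top X).Rel i a) (hb : (CS.top Y).Rel j b)
    {u : C(Cb, X × Y) → ZMod 2} (hu : Bi (ZMod 2) i j a b u) :
    BiF (i + j + 1) (fun m τ σ =>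
      if m = i + 1 then sq1 i a τ * b σ
      else if m = i then a τ * sq1 j b σ
      else 0) (sq1 (i + j) u) := by
  intro m l τ σ hml hτ hσ
  have h0 : sq1 (i + j) u (crossCube m τ σ) =
      ∑ s ∈ Finset.range (m + 1), S m s (Sq m i a τ) * S l ((i + j - 1 : ℕ) - s) (Sq l j b σ) := by
    unfold sq1
    rw [← hml]
    exact cupI_cross hu (by omega) hτ hσ
  have hne : ∀ s : ℕ, m + s ≠ 2 * i → S m s (Sq m i a τ) = 0 := by
    intro s hs
    exact S_Sq_ne (by exact_mod_cast hs) a τ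
  -- the only term
  have hone : ∀ s : ℕ, s ≤ m → m + s = 2 * i → sq1 (i + j) u (crossCube m τ σ) =
      S m s (Sq m i a τ) * S l ((i + j - 1 : ℕ) - s) (Sq l j b σ) := by
    intro s hsm hs
    rw [h0, Finset.sum_eq_single s]
    · intro t _ ht
      rw [hne t (by omega), zero_mul]
    · intro h
      exact absurd (Finset.mem_range.2 (by omega)) h
  beta_reduce
  by_cases h1 : m = i + 1
  · obtain ⟨c, rfl⟩ : ∃ c, i = c + 1 := ⟨i - 1, by omega⟩
    have hl : l = j := by omega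
    rw [if_pos h1, hone c (by omega) (by omega)]
    subst h1
    subst hl
    have e1 : (((c + 1 + l - 1 : ℕ) : ℤ) - (c : ℤ)) = (l : ℤ) := by omega
    rw [e1, S_Sq_eq (by omega), S_Sq_eq (by omega), cupI_top]
    unfold sq1
    rw [Nat.add_sub_cancel]
  · rw [if_neg h1]
    by_cases hm0 : m = i
    · obtain ⟨d, rfl⟩ : ∃ d, j = d + 1 := ⟨j - 1, by omega⟩
      have hl : l = d + 1 + 1 := by omega
      rw [if_pos hm0, hone i (by omega) (by omega)]
      subst hm0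
      subst hl
      have e1 : (((m + (d + 1) - 1 : ℕ) : ℤ) - (m : ℤ)) = (d : ℤ) := by omega
      rw [e1, S_Sq_eq (by omega), S_Sq_eq (by omega), cupI_top]
      unfold sq1
      rw [Nat.add_sub_cancel]
    · rw [if_neg hm0, h0]
      apply Finset.sum_eq_zero
      intro s hs'
      have hs2 : s < m + 1 := Finset.mem_range.1 hs'
      by_cases hs3 : m + s = 2 * i
      · have : S l ((i + j - 1 : ℕ) - s) (Sq l j b σ) = 0 := by
          apply S_big
          omega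
        rw [this, mul_zero]
      · rw [hne s hs3, zero_mul]

namespace QDdAux

/-- The external product. -/
def xp (i j : ℕ) (a : C(Cb, X) → ZMod 2) (b : C(Cb, Y) → ZMod 2) : C(Cb, X × Y) → ZMod 2 :=
  cup AddMonoidHom.mul i j (pb ContinuousMap.fst a) (pb ContinuousMap.snd b)

theorem fc_wfr (i : ℕ) (τ : C(Cb, X)) :
    τ.comp (fc i (wfr (Finset.range i))) = τ := by
  have h : fc i (wfr (Finset.range i)) = ContinuousMap.id Cb := by
    rw [← CI4Aux.fc_none i]
    refine CI1Aux.fc_congr fun j hj => ?_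
    show wfr (Finset.range i) j = none
    simp [wfr, hj]
  rw [h]
  exact ContinuousMap.comp_id τ

theorem fc_wbk (i : ℕ) (τ : C(Cb, X)) :
    τ.comp (fc i (wbk ∅)) = τ := by
  have h : fc i (wbk ∅) = ContinuousMap.id Cb := by
    rw [← CI4Aux.fc_none i]
    refine CI1Aux.fc_congr fun j hj => ?_
    show wbk ∅ j = none
    simp [wbk]
  rw [h]
  exact ContinuousMap.comp_id τ

theorem cup_one (i : ℕ) (a : C(Cb, X) → ZMod 2) (τ : C(Cb, X)) :
    cup AddMonoidHom.mul i 0 a (fun _ => 1) τ = a τ := by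
  unfold cup
  have h1 : (Finset.range (i + 0)).powersetCard i = {Finset.range i} := by
    have h2 := Finset.powersetCard_self (Finset.range i)
    rw [Finset.card_range] at h2
    exact h2
  have h3 : sgnS (i + 0) (Finset.range i) = 1 := by
    unfold sgnS
    rw [Finset.filter_eq_empty_iff.2, Finset.card_empty, pow_zero]
    rintro ⟨x, y⟩ hxy ⟨h4, -⟩
    rw [Finset.mem_product] at hxy
    exact h4 hxy.1
  rw [h1, Finset.sum_singleton, h3, one_smul, AddMonoidHom.mul_apply, mul_one]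
  exact congrArg a (fc_wfr i τ)

theorem one_cup (i : ℕ) (a : C(Cb, X) → ZMod 2) (τ : C(Cb, X)) :
    cup AddMonoidHom.mul 0 i (fun _ => 1) a τ = a τ := by
  unfold cup
  have h3 : sgnS (0 + i) ∅ = 1 := by
    unfold sgnS
    rw [Finset.filter_eq_empty_iff.2, Finset.card_empty, pow_zero]
    rintro ⟨x, y⟩ hxy ⟨-, h4, -⟩
    exact absurd h4 (Finset.notMem_empty _)
  rw [Finset.powersetCard_zero, Finset.sum_singleton, h3, one_smul, AddMonoidHom.mul_apply,
    one_mul, Nat.zero_add]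
  exact congrArg a (fc_wbk i τ)

theorem xp_bi {i j : ℕ} {a : C(Cb, X) → ZMod 2} {b : C(Cb, Y) → ZMod 2}
    (ha : (CS.top X).Rel i a) (hb : (CS.top Y).Rel j b) :
    Bi (ZMod 2) i j a b (xp i j a b) := by
  intro m l τ σ hml hτ hσ
  have h := bi_cup (bi_fst (Y := Y) ha) (bi_snd (X := X) hb) m l τ σ (by omega) hτ hσ
  simp only [Nat.zero_add, Nat.add_zero, Nat.zero_mul, pow_zero, one_mul] at h
  unfold xp
  rw [h]
  by_cases hm : m = i
  · subst hm
    obtain rfl : l = j := by omega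
    rw [if_pos rfl, if_pos rfl, cup_one, one_cup]
  · rw [if_neg hm, if_neg hm]

theorem top_rel {S : CS X} (hS : ∀ σ, S.ok σ) {k : ℕ} {u : C(Cb, X) → ZMod 2}
    (h : S.Rel k u) : (CS.top X).Rel k u := fun σ h1 _ h3 =>
  h σ h1 (hS σ) (Or.inr (h3.resolve_left id))

open QDaAux in
theorem xp_coc {S : CS X} {T : CS Y} {i j : ℕ} {a : C(Cb, X) → ZMod 2} {b : C(Cb, Y) → ZMod 2}
    (ha : S.Coc i a) (hb : T.Coc j b) : (S.prod T).Coc (i + j) (xp i j a b) := by
  have h1 : (pull S (ContinuousMap.fst : C(X × Y, X)) (S.prod T).ok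
    (S.prod T).ok_comp).Coc i (pb ContinuousMap.fst a) := pull_coc (fun _ h => h.1) ha
  have h2 : (pull T (ContinuousMap.snd : C(X × Y, Y)) (S.prod T).ok
    (S.prod T).ok_comp).Coc j (pb ContinuousMap.snd b) := pull_coc (fun _ h => h.2) hb
  have h := QDaAux.cup_coc (pull S (ContinuousMap.fst : C(X × Y, X)) (S.prod T).ok
      (S.prod T).ok_comp) (pull T (ContinuousMap.snd : C(X × Y, Y)) (S.prod T).ok
      (S.prod T).ok_comp) rfl (AddMonoidHom.mul : ZMod 2 →+ ZMod 2 →+ ZMod 2) h1 h2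
  exact h

theorem trip_eq (i j l : ℕ) (a : C(Cb, X) → ZMod 2) (b : C(Cb, Y) → ZMod 2)
    (c : C(Cb, W) → ZMod 2) : trip i j l a b c = xp i (j + l) a (xp j l b c) := rfl

theorem coc_sub {S : CS X} {k : ℕ} {u v : C(Cb, X) → ZMod 2} (hu : S.Coc k u) (hv : S.Coc k v) :
    S.Coc k (fun σ => u σ - v σ) := by
  refine ⟨fun σ h1 h2 h3 => ?_, fun σ h1 h2 => ?_⟩
  · show u σ - v σ = 0
    rw [hu.1 σ h1 h2 h3, hv.1 σ h1 h2 h3, sub_zero]
  · have h : dl k (fun σ => u σ - v σ) σ = dl k u σ - dl k v σ := by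
      unfold dl
      rw [← Finset.sum_sub_distrib]
      refine Finset.sum_congr rfl fun i _ => ?_
      rw [← smul_sub]
      congr 1
      ring
    rw [h, hu.2 σ h1 h2, hv.2 σ h1 h2, sub_zero]

theorem neg_one_smul' (k : ℕ) (x : ZMod 2) : ((-1 : ℤ) ^ k) • x = x := by
  rcases neg_one_pow_eq_or ℤ k with h | h
  · rw [h, one_smul]
  · rw [h, neg_smul, one_smul]
    exact ZMod.neg_eq_self_mod_two x

/-- The coboundary of a function of pairs of cubes. -/
def Dop (m l : ℕ) (f : ℕ → C(Cb, X) → C(Cb, Y) → ZMod 2) (τ : C(Cb, X)) (σ : C(Cb, Y)) :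
    ZMod 2 :=
  (∑ i ∈ Finset.range m, ((-1 : ℤ) ^ i) •
    (f (m - 1) (τ.comp (ins i 1)) σ - f (m - 1) (τ.comp (ins i 0)) σ)) +
  (-1 : ℤ) ^ m • ∑ i ∈ Finset.range l, ((-1 : ℤ) ^ i) •
    (f m τ (σ.comp (ins i 1)) - f m τ (σ.comp (ins i 0)))

/-- A function of rank one. -/
def tens (p : ℕ) (α : C(Cb, X) → ZMod 2) (β : C(Cb, Y) → ZMod 2) :
    ℕ → C(Cb, X) → C(Cb, Y) → ZMod 2 := fun m τ σ => if m = p then α τ * β σ else 0

theorem Dop_add (m l : ℕ) (f g : ℕ → C(Cb, X) → C(Cb, Y) → ZMod 2) (τ : C(Cb, X))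
    (σ : C(Cb, Y)) :
    Dop m l (fun m τ σ => f m τ σ + g m τ σ) τ σ = Dop m l f τ σ + Dop m l g τ σ := by
  have h : ∀ a b c d : ZMod 2, a + b - (c + d) = (a - c) + (b - d) := by
    intro a b c d
    ring
  unfold Dop
  simp only [h, smul_add, Finset.sum_add_distrib]
  ring

theorem Dop_tens {p q m l : ℕ} (hml : m + l = p + q + 1) (α : C(Cb, X) → ZMod 2)
    (β : C(Cb, Y) → ZMod 2) (τ : C(Cb, X)) (σ : C(Cb, Y)) :
    Dop m l (tens p α β) τ σ = (if m = p + 1 then dl p α τ * β σ else 0) +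
      (if m = p then α τ * dl q β σ else 0) := by
  unfold Dop
  congr 1
  · by_cases hm : m = p + 1
    · subst hm
      rw [if_pos rfl, dl, Finset.sum_mul]
      refine Finset.sum_congr rfl fun i _ => ?_
      rw [Nat.add_sub_cancel]
      unfold tens
      rw [if_pos rfl, if_pos rfl, neg_one_smul', neg_one_smul', sub_mul]
    · rw [if_neg hm]
      refine Finset.sum_eq_zero fun i hi => ?_
      rw [Finset.mem_range] at hi
      unfold tens
      rw [if_neg (by omega), if_neg (by omega), sub_zero, smul_zero]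
  · rw [neg_one_smul']
    by_cases hm : m = p
    · subst hm
      obtain rfl : l = q + 1 := by omega
      rw [if_pos rfl, dl, Finset.mul_sum]
      refine Finset.sum_congr rfl fun i _ => ?_
      unfold tens
      rw [if_pos rfl, if_pos rfl, neg_one_smul', neg_one_smul', mul_sub]
    · rw [if_neg hm]
      refine Finset.sum_eq_zero fun i hi => ?_
      unfold tens
      rw [if_neg hm, if_neg hm, sub_zero, smul_zero]

theorem tens_zero {S : CS X} {T : CS Y} {p q n : ℕ} (hn : p + q = n) {α : C(Cb, X) → ZMod 2}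
    {β : C(Cb, Y) → ZMod 2} (hα : S.Rel p α) (hβ : T.Rel q β) (m l : ℕ) (τ : C(Cb, X))
    (σ : C(Cb, Y)) (hml : m + l = n) (hτ : IsCube (m : ℤ) τ) (hσ : IsCube (l : ℤ) σ)
    (h1 : S.ok τ) (h2 : T.ok σ)
    (h : S.nul τ ∨ T.nul σ ∨ Degen (m : ℤ) τ ∨ Degen (l : ℤ) σ) : tens p α β m τ σ = 0 := by
  unfold tens
  by_cases hm : m = p
  · subst hm
    obtain rfl : l = q := by omega
    rw [if_pos rfl]
    rcases h with h | h | h | h
    · rw [hα τ hτ h1 (Or.inl h), zero_mul]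
    · rw [hβ σ hσ h2 (Or.inl h), mul_zero]
    · rw [hα τ hτ h1 (Or.inr h), zero_mul]
    · rw [hβ σ hσ h2 (Or.inr h), mul_zero]
  · rw [if_neg hm]

/-- Three terms. -/
theorem cob_of_terms (S : CS X) (T : CS Y) {n : ℕ} {u : C(Cb, X × Y) → ZMod 2}
    (hu : (S.prod T).Coc (n + 1) u) {p1 q1 p2 q2 p3 q3 : ℕ} (hn1 : p1 + q1 = n)
    (hn2 : p2 + q2 = n) (hn3 : p3 + q3 = n) {α1 α2 α3 : C(Cb, X) → ZMod 2}
    {β1 β2 β3 : C(Cb, Y) → ZMod 2} (hα1 : S.Rel p1 α1) (hα2 : S.Rel p2 α2) (hα3 : S.Rel p3 α3)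
    (hβ1 : T.Rel q1 β1) (hβ2 : T.Rel q2 β2) (hβ3 : T.Rel q3 β3)
    (h : ∀ m l τ σ, m + l = n + 1 → IsCube (m : ℤ) τ → IsCube (l : ℤ) σ → S.ok τ → T.ok σ →
      u (crossCube m τ σ) =
        ((if m = p1 + 1 then dl p1 α1 τ * β1 σ else 0) +
          (if m = p1 then α1 τ * dl q1 β1 σ else 0)) +
        ((if m = p2 + 1 then dl p2 α2 τ * β2 σ else 0) +
          (if m = p2 then α2 τ * dl q2 β2 σ else 0)) +
        ((if m = p3 + 1 then dl p3 α3 τ * β3 σ else 0) +
          (if m = p3 then α3 τ * dl q3 β3 σ else 0))) : (S.prod T).Cob n u := by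
  refine coc_of_product S T hu (fun m τ σ => (tens p1 α1 β1 m τ σ + tens p2 α2 β2 m τ σ) +
    tens p3 α3 β3 m τ σ) ?_ ?_
  · intro m l τ σ h1 h2 h3 h4 h5 h6
    show (tens p1 α1 β1 m τ σ + tens p2 α2 β2 m τ σ) + tens p3 α3 β3 m τ σ = 0
    rw [tens_zero hn1 hα1 hβ1 m l τ σ h1 h2 h3 h4 h5 h6,
      tens_zero hn2 hα2 hβ2 m l τ σ h1 h2 h3 h4 h5 h6,
      tens_zero hn3 hα3 hβ3 m l τ σ h1 h2 h3 h4 h5 h6, add_zero, add_zero]
  · intro m l τ σ h1 h2 h3 h4 h5
    rw [h m l τ σ h1 h2 h3 h4 h5]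
    have e := Dop_add m l (fun m τ σ => tens p1 α1 β1 m τ σ + tens p2 α2 β2 m τ σ)
      (tens p3 α3 β3) τ σ
    rw [Dop_add m l (tens p1 α1 β1) (tens p2 α2 β2) τ σ,
      Dop_tens (q := q1) (by omega), Dop_tens (q := q2) (by omega),
      Dop_tens (q := q3) (by omega)] at e
    exact e.symm

theorem zero_rel (S : CS X) (k : ℕ) : S.Rel k (fun _ => (0 : ZMod 2)) := fun _ _ _ _ => rfl

theorem zero_dl (k : ℕ) (σ : C(Cb, X)) : dl k (fun _ => (0 : ZMod 2)) σ = 0 := by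
  unfold dl
  simp

/-- `Sq^1 (b × c)` is `Sq^1 b × c` modulo coboundaries. -/
theorem sq1_xp (T : CS X) (V : CS Y) (hT : ∀ σ, T.ok σ) (hV : ∀ σ, V.ok σ) {j l : ℕ}
    (hj : 1 ≤ j) (hl : 1 ≤ l) {b : C(Cb, X) → ZMod 2} {c : C(Cb, Y) → ZMod 2}
    (hb : T.Coc j b) (hc : V.Coc l c) (h4 : V.Cob l (sq1 l c)) :
    (T.prod V).Cob (j + l) (fun ω => sq1 (j + l) (xp j l b c) ω -
      xp (j + 1) l (sq1 j b) c ω) := by
  obtain ⟨γ, hγ, hγ'⟩ := h4
  have hb1 := sq1_coc T hj hb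
  have hw := xp_coc hb1 hc
  rw [show j + 1 + l = j + l + 1 by omega] at hw
  have hbi := xp_bi (top_rel hT hb.1) (top_rel hV hc.1)
  have hbi' := xp_bi (top_rel hT hb1.1) (top_rel hV hc.1)
  have hcar := sq1_cartan hj hl (top_rel hT hb.1) (top_rel hV hc.1) hbi
  refine cob_of_terms T V (coc_sub (sq1_coc (T.prod V) (by omega) (xp_coc hb hc)) hw)
    (p1 := j) (q1 := l) (p2 := j) (q2 := l) (p3 := j) (q3 := l) rfl rfl rfl hb.1
    (zero_rel T j) (zero_rel T j) hγ (zero_rel V l) (zero_rel V l) ?_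
  intro m k τ σ hmk hτ hσ h1 h2
  have e1 := hcar m k τ σ hmk hτ hσ
  have e2 := hbi' m k τ σ (by omega) hτ hσ
  rw [e1, e2]
  simp only [zero_dl, mul_zero, ite_self, add_zero]
  by_cases hm : m = j + 1
  · subst hm
    obtain rfl : k = l := by omega
    rw [if_pos rfl, if_pos rfl, if_pos rfl, if_neg (by omega), hb.2 τ hτ h1]
    ring
  · by_cases hm' : m = j
    · subst hm'
      obtain rfl : k = l + 1 := by omega
      rw [if_neg (by omega), if_pos rfl, if_neg (by omega), if_neg (by omega), if_pos rfl,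
        hγ' σ hσ h2]
      ring
    · rw [if_neg hm, if_neg hm', if_neg hm, if_neg hm, if_neg hm']
      ring

/-- `Sq^2 (b × c)` is zero modulo coboundaries. -/
theorem sq2_xp (T : CS X) (V : CS Y) (hT : ∀ σ, T.ok σ) (hV : ∀ σ, V.ok σ) {j l : ℕ}
    (hj : 2 ≤ j) (hl : 2 ≤ l) {b : C(Cb, X) → ZMod 2} {c : C(Cb, Y) → ZMod 2}
    (hb : T.Coc j b) (hc : V.Coc l c) (h2 : T.Cob (j + 1) (sq2 j b))
    (h3 : V.Cob (l + 1) (sq2 l c)) (h4 : V.Cob l (sq1 l c)) :
    (T.prod V).Cob (j + l + 1) (sq2 (j + l) (xp j l b c)) := by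
  obtain ⟨β, hβ, hβ'⟩ := h2
  obtain ⟨δ, hδ, hδ'⟩ := h3
  obtain ⟨γ, hγ, hγ'⟩ := h4
  have hb1 := sq1_coc T (by omega) hb
  have hbi := xp_bi (top_rel hT hb.1) (top_rel hV hc.1)
  have hcar := sq2_cartan hj hl (top_rel hT hb.1) (top_rel hV hc.1) hbi
  refine cob_of_terms T V (sq2_coc (T.prod V) (by omega) (xp_coc hb hc))
    (p1 := j + 1) (q1 := l) (p2 := j + 1) (q2 := l) (p3 := j) (q3 := l + 1) (by omega) (by omega)
    (by omega) hβ hb1.1 hb.1 hc.1 hγ hδ ?_
  intro m k τ σ hmk hτ hσ k1 k2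
  have e1 := hcar m k τ σ hmk hτ hσ
  rw [e1]
  beta_reduce
  by_cases hm : m = j + 2
  · subst hm
    obtain rfl : k = l := by omega
    rw [if_pos rfl, if_pos rfl, if_neg (by omega), if_pos rfl, if_neg (by omega),
      if_neg (by omega), if_neg (by omega), hb1.2 τ hτ k1, hβ' τ hτ k1]
    ring
  · by_cases hm' : m = j + 1
    · subst hm'
      obtain rfl : k = l + 1 := by omega
      rw [if_neg (by omega), if_pos rfl, if_neg (by omega), if_pos rfl, if_neg (by omega),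
        if_pos rfl, if_pos rfl, if_neg (by omega), hc.2 σ hσ k2, hb.2 τ hτ k1, hγ' σ hσ k2]
      ring
    · by_cases hm0 : m = j
      · subst hm0
        obtain rfl : k = l + 2 := by omega
        rw [if_neg (by omega), if_neg (by omega), if_pos rfl, if_neg (by omega),
          if_neg (by omega), if_neg (by omega), if_neg (by omega), if_neg (by omega), if_pos rfl,
          hδ' σ hσ k2]
        ring
      · rw [if_neg hm, if_neg hm', if_neg hm0, if_neg (by omega), if_neg (by omega),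
          if_neg (by omega), if_neg (by omega), if_neg (by omega), if_neg hm0]
        ring

end QDdAux

open QDdAux in
/-- A cocycle on a double product whose restriction to product cubes is a coboundary of products;
special case of `coc_of_product`: `u = ∑ (dα) × b' + ...`.  Here for the triple product:
`Sq^2 (a × b × c) = Sq^1 a × Sq^1 b × c` modulo coboundaries if `Sq^2 a`, `Sq^2 b`, `Sq^2 c`,
`Sq^1 c` are coboundaries. -/
theorem exists_e (S : CS X) (T : CS Y) (V : CS W) (hS : ∀ σ, S.ok σ) (hT : ∀ σ, T.ok σ)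
    (hV : ∀ σ, V.ok σ) {i j l : ℕ} (hi : 2 ≤ i) (hj : 2 ≤ j)
    (hl : 2 ≤ l) {a : C(Cb, X) → ZMod 2} {b : C(Cb, Y) → ZMod 2} {c : C(Cb, W) → ZMod 2}
    (ha : S.Coc i a) (hb : T.Coc j b) (hc : V.Coc l c) (h1 : S.Cob (i + 1) (sq2 i a))
    (h2 : T.Cob (j + 1) (sq2 j b)) (h3 : V.Cob (l + 1) (sq2 l c)) (h4 : V.Cob l (sq1 l c)) :
    (S.prod (T.prod V)).Cob (i + (j + l) + 1) (fun ω =>
      sq2 (i + (j + l)) (trip i j l a b c) ω -
        trip (i + 1) (j + 1) l (sq1 i a) (sq1 j b) c ω) := by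
  obtain ⟨α, hα, hα'⟩ := h1
  obtain ⟨β, hβ, hβ'⟩ := sq1_xp T V hT hV (by omega) (by omega) hb hc h4
  obtain ⟨ε, hε, hε'⟩ := sq2_xp T V hT hV hj hl hb hc h2 h3 h4
  have hU : ∀ ρ, (T.prod V).ok ρ := fun ρ => ⟨hT _, hV _⟩
  have hu' := xp_coc hb hc
  have ha1 := sq1_coc S (by omega) ha
  have hb1 := sq1_coc T (by omega) hb
  have hw' := xp_coc hb1 hc
  have hbi := xp_bi (top_rel hS ha.1) (top_rel hU hu'.1)
  have hbi' := xp_bi (top_rel hS ha1.1) (top_rel hU hw'.1)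
  have hcar := sq2_cartan hi (show 2 ≤ j + l by omega) (top_rel hS ha.1) (top_rel hU hu'.1) hbi
  have hw := xp_coc ha1 hw'
  rw [show i + 1 + (j + 1 + l) = i + (j + l) + 1 + 1 by omega] at hw
  have htot := coc_sub (sq2_coc (S.prod (T.prod V)) (show 2 ≤ i + (j + l) by omega)
    (xp_coc ha hu')) hw
  refine cob_of_terms S (T.prod V) htot
    (p1 := i + 1) (q1 := j + l) (p2 := i + 1) (q2 := j + l) (p3 := i) (q3 := j + l + 1)
    (by omega) (by omega) (by omega) hα ha1.1 ha.1 hu'.1 hβ hε ?_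
  intro m k τ σ hmk hτ hσ k1 k2
  have e1 := hcar m k τ σ (by omega) hτ hσ
  have e2 := hbi' m k τ σ (by omega) hτ hσ
  rw [trip_eq, trip_eq, e1, e2]
  beta_reduce
  by_cases hm : m = i + 2
  · subst hm
    obtain rfl : k = j + l := by omega
    rw [if_pos rfl, if_neg (by omega), if_pos rfl, if_neg (by omega), if_pos rfl,
      if_neg (by omega), if_neg (by omega), if_neg (by omega), ha1.2 τ hτ k1, hα' τ hτ k1]
    ring
  · by_cases hm' : m = i + 1
    · subst hm'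
      obtain rfl : k = j + l + 1 := by omega
      rw [if_neg (by omega), if_pos rfl, if_pos rfl, if_neg (by omega), if_pos rfl,
        if_neg (by omega), if_pos rfl, if_pos rfl, if_neg (by omega), hu'.2 σ hσ k2,
        ha.2 τ hτ k1, ← hβ' σ hσ k2]
      ring
    · by_cases hm0 : m = i
      · subst hm0
        obtain rfl : k = j + l + 2 := by omega
        rw [if_neg (by omega), if_neg (by omega), if_pos rfl, if_neg (by omega),
          if_neg (by omega), if_neg (by omega), if_neg (by omega), if_neg (by omega),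
          if_neg (by omega), if_pos rfl, hε' σ hσ k2]
        ring
      · rw [if_neg hm, if_neg hm', if_neg hm0, if_neg hm', if_neg (by omega), if_neg (by omega),
          if_neg (by omega), if_neg (by omega), if_neg (by omega), if_neg hm0]
        ring

/-- The data of the secondary invariant; `n + 1` is the degree of `U`. -/
structure QData {Q : Type} [TopologicalSpace Q] (SQ : CS Q) (n : ℕ) where
  U : C(Cb, Q) → ZMod 2
  V : C(Cb, Q) → ZMod 4
  e : C(Cb, Q) → ZMod 2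
  U_coc : SQ.Coc (n + 1) U
  V_rel : SQ.Rel (n + 2) V
  e_rel : SQ.Rel (n + 2) e
  dV : ∀ ω, IsCube ((n + 3 : ℕ) : ℤ) ω → SQ.ok ω →
    dl (n + 2) V ω = i2 (sq2 (n + 1) U ω + dl (n + 2) e ω)

theorem QDeAux_lft_rel (S : CS X) {j : ℕ} {u : C(Cb, X) → ZMod 2} (hu : S.Rel j u) :
    S.Rel j (lft u) := by
  intro σ hσ hok hnul
  rw [lft, hu σ hσ hok hnul]
  rfl

theorem QDeAux_r2_coc (V : CS W) {l : ℕ} {c : C(Cb, W) → ZMod 4} (hc : V.Coc l c) :
    V.Coc l (fun τ => r2 (c τ)) := by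
  refine ⟨fun σ hσ hok hnul => ?_, fun σ hσ hok => ?_⟩
  · change r2 (c σ) = 0
    rw [hc.1 σ hσ hok hnul, map_zero]
  · have h1 : dl l (fun τ => r2 (c τ)) σ = r2 (dl l c σ) := by
      rw [dl, dl, map_sum]
      refine Finset.sum_congr rfl fun i _ => ?_
      rw [map_zsmul, map_sub]
    rw [h1, hc.2 σ hσ hok, map_zero]

/-- The data which are used; only `V` is needed afterwards. -/
theorem exists_qdata (S : CS X) (T : CS Y) (V : CS W) (hS : ∀ σ, S.ok σ) (hT : ∀ σ, T.ok σ)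
    (hV : ∀ σ, V.ok σ) {i j l n : ℕ} (hn : n + 1 = i + (j + l)) (hi : 2 ≤ i) (hj : 2 ≤ j)
    (hl : 2 ≤ l) {a : C(Cb, X) → ZMod 2} {b : C(Cb, Y) → ZMod 2} {c : C(Cb, W) → ZMod 4}
    (ha : S.Coc i a) (hb : T.Coc j b) (hc : V.Coc l c) (h1 : S.Cob (i + 1) (sq2 i a))
    (h2 : T.Cob (j + 1) (sq2 j b)) (h3 : V.Cob (l + 1) (sq2 l (fun τ => r2 (c τ))))
    (h4 : V.Cob l (sq1 l (fun τ => r2 (c τ)))) :
    ∃ D : QData (S.prod (T.prod V)) n, D.V = trip i (j + 1) l (lft a) (hlf j b) c := by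
  have hc2 : V.Coc l (fun τ => r2 (c τ)) := QDeAux_r2_coc V hc
  obtain ⟨e, he, he'⟩ := exists_e S T V hS hT hV hi hj hl ha hb hc2 h1 h2 h3 h4
  have e2 : n + 2 = i + (j + 1 + l) := by omega
  have e2' : n + 2 = i + (j + l) + 1 := by omega
  have e3 : n + 3 = i + (j + 1 + l) + 1 := by omega
  have e3' : n + 3 = i + (j + l) + 1 + 1 := by omega
  refine ⟨⟨trip i j l a b (fun τ => r2 (c τ)), trip i (j + 1) l (lft a) (hlf j b) c, e, ?_, ?_,
    ?_, ?_⟩, rfl⟩
  · rw [hn]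
    exact trip_coc ha hb hc2
  · rw [e2]
    exact trip_rel (QDeAux_lft_rel S ha.1) (hlf_rel T hb.1) hc.1
  · rw [e2']
    exact he
  · intro ω hω hok
    have hω1 : IsCube ((i + (j + 1 + l) + 1 : ℕ) : ℤ) ω := by rwa [e3] at hω
    have hω2 : IsCube ((i + (j + l) + 1 + 1 : ℕ) : ℤ) ω := by rwa [e3'] at hω
    have h5 := dl_V (by omega : 1 ≤ i) (by omega : 1 ≤ j) ha hb hc hω1 hok
    have h6 := he' ω hω2 hok
    rw [← e2] at h5
    rw [h5, hn, e2', ← h6]
    congr 1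
    have h7 : ∀ x y : ZMod 2, y = x + (x - y) := by decide
    exact h7 _ _

end Pool.Agent.TC
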