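import Pool.Agent.Lib.TC.SFD
/-!
Row SFb: `SusM.exists_null` of SF.lean. Paste (without this header) in place of the sorried
statement: first the namespace SFbAux, then the theorem.
-/

namespace Pool.Agent.TC

open CubeHom

namespace SFbAux

/-- Urysohn functions with supports in the members of an open cover; at every point one of them
is one. -/
theorem exists_lam {X : Type*} [TopologicalSpace X] [CompactSpace X] [T2Space X] {n : ℕ}
    (U : Fin n → Set X) (hU : ∀ i, IsOpen (U i)) (hc : (⋃ i, U i) = Set.univ) :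
    ∃ l : Fin n → C(X, ℝ), (∀ i, tsupport (l i) ⊆ U i) ∧ ∀ x, ∃ i, l i x = 1 := by
  obtain ⟨V, hVc, -, hV⟩ := exists_iUnion_eq_closure_subset hU (fun x => Set.toFinite _) hc
  choose l h1 h2 h3 using fun i => exists_tsupport_one_of_isOpen_isClosed (hU i)
    (isClosed_closure.isCompact) isClosed_closure (hV i)
  refine ⟨l, h1, fun x => ?_⟩
  have hx : x ∈ ⋃ i, V i := by rw [hVc]; trivial
  obtain ⟨i, hi⟩ := Set.mem_iUnion.1 hx
  exact ⟨i, h2 i (subset_closure hi)⟩

variable {F : Type} [TopologicalSpace F]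

/-- The second point, moved back along the path. -/
noncomputable def mv (U : Set (F × F)) (H : C(I × U, F)) (l : F × F → ℝ) (p : I × (F × F)) : F :=
  open Classical in
  if hq : p.2 ∈ U then H (clm (1 - 2 * ((p.1 : ℝ) * l p.2)), ⟨p.2, hq⟩) else p.2.2

theorem mv_eq (U : Set (F × F)) (H : C(I × U, F)) (l : F × F → ℝ)
    (hH : ∀ q : U, H (1, q) = q.1.2) (p : I × (F × F)) (h : l p.2 = 0) :
    mv U H l p = p.2.2 := by
  unfold mv
  split_ifs with hq
  · rw [h, mul_zero, mul_zero, sub_zero]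
    have : clm 1 = 1 := Set.projIcc_of_right_le _ le_rfl
    rw [this, hH]
  · rfl

theorem continuous_mv {U : Set (F × F)} (hU : IsOpen U) (H : C(I × U, F)) (l : C(F × F, ℝ))
    (hl : tsupport l ⊆ U) (hH : ∀ q : U, H (1, q) = q.1.2) : Continuous (mv U H l) := by
  rw [continuous_iff_continuousAt]
  intro p
  by_cases hq : p.2 ∈ U
  · have hop : IsOpen {p : I × (F × F) | p.2 ∈ U} := hU.preimage continuous_snd
    have h1 : ContinuousOn (mv U H l) {p : I × (F × F) | p.2 ∈ U} := by
      rw [continuousOn_iff_continuous_domRestrict]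
      have h2 : Set.domRestrict {p : I × (F × F) | p.2 ∈ U} (mv U H l) =
          fun p : {p : I × (F × F) | p.2 ∈ U} =>
            H (clm (1 - 2 * ((p.1.1 : ℝ) * l p.1.2)), ⟨p.1.2, p.2⟩) := by
        funext p
        have hp : p.1.2 ∈ U := p.2
        simp only [Set.domRestrict_apply, mv, dif_pos hp]
      rw [h2]
      refine H.continuous.comp ((continuous_clm.comp ?_).prodMk ?_)
      · fun_prop
      · exact Continuous.subtype_mk (by fun_prop) _
    exact h1.continuousAt (hop.mem_nhds hq)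
  · have hp : p.2 ∉ tsupport l := fun h => hq (hl h)
    have hop : IsOpen {p : I × (F × F) | p.2 ∉ tsupport l} :=
      (isClosed_tsupport l).isOpen_compl.preimage continuous_snd
    have h1 : (fun p : I × (F × F) => p.2.2) =ᶠ[nhds p] mv U H l := by
      filter_upwards [hop.mem_nhds hp] with r hr
      exact (mv_eq U H l hH r (image_eq_zero_of_notMem_tsupport hr)).symm
    exact (continuous_snd.comp continuous_snd).continuousAt.congr h1

end SFbAux

variable {F : Type} [TopologicalSpace F] (SM : SusM F)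

theorem SusM.exists_null [CompactSpace F] [T2Space F] (hF : TC0le F 2) :
    ∃ Ξ : Fin 3 → C(I × (I × (F × F)), SM.T),
      (∀ i t q, Ξ i (0, (t, q)) = SM.D (t, q)) ∧
      (∀ i s q, Ξ i (s, (0, q)) = SM.p0 ∧ Ξ i (s, (1, q)) = SM.p0) ∧
      ∀ q, ∃ i, ∀ t, Ξ i (1, (t, q)) = SM.p0 := by
  obtain ⟨U, hU, hUc, hH⟩ := hF
  choose H hH using hH
  obtain ⟨l, hl, hl1⟩ := SFbAux.exists_lam U hU hUc
  have c0 : clm 0 = 0 := Set.projIcc_of_le_left _ le_rfl
  have c1 : clm 1 = 1 := Set.projIcc_of_right_le _ le_rfl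
  have hmv : ∀ i, Continuous (SFbAux.mv (U i) (H i) (l i)) := fun i =>
    SFbAux.continuous_mv (hU i) (H i) (l i) (hl i) (fun q => (hH i q).2)
  -- the factor
  let φ : Fin 3 → I × (I × (F × F)) → ℝ := fun i p => min 1 (2 - 2 * ((p.1 : ℝ) * l i p.2.2))
  have hφ : ∀ i, Continuous (φ i) := fun i => by
    simp only [φ]
    fun_prop
  let Ξ : Fin 3 → C(I × (I × (F × F)), SM.T) := fun i =>
    ⟨fun p => if (p.2.1 : ℝ) ≤ 1 / 2 then SM.q (clm (φ i p * (2 * (p.2.1 : ℝ))), p.2.2.1)
      else SM.q (clm (φ i p * (2 - 2 * (p.2.1 : ℝ))), SFbAux.mv (U i) (H i) (l i) (p.1, p.2.2)), by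
      refine Continuous.if_le ?_ ?_ (by fun_prop) continuous_const ?_
      · exact SM.q.continuous.comp ((continuous_clm.comp
          ((hφ i).mul (by fun_prop))).prodMk (by fun_prop))
      · exact SM.q.continuous.comp ((continuous_clm.comp
          ((hφ i).mul (by fun_prop))).prodMk ((hmv i).comp (by fun_prop)))
      · intro p hp
        have e1 : φ i p * (2 * (p.2.1 : ℝ)) = φ i p := by rw [hp]; ring
        have e2 : φ i p * (2 - 2 * (p.2.1 : ℝ)) = φ i p := by rw [hp]; ring
        rw [e1, e2]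
        by_cases h1 : 1 ≤ 2 - 2 * ((p.1 : ℝ) * l i p.2.2)
        · have h2 : φ i p = 1 := min_eq_left h1
          rw [h2, c1, SM.q1, SM.q1]
        · push Not at h1
          have h3 : p.2.2 ∈ U i := by
            by_contra h4
            have h5 : l i p.2.2 = 0 := image_eq_zero_of_notMem_tsupport (fun h => h4 (hl i h))
            rw [h5] at h1
            norm_num at h1
          have h6 : SFbAux.mv (U i) (H i) (l i) (p.1, p.2.2) = p.2.2.1 := by
            simp only [SFbAux.mv, dif_pos h3]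
            have : clm (1 - 2 * ((p.1 : ℝ) * l i p.2.2)) = 0 :=
              Set.projIcc_of_le_left _ (by linarith)
            rw [this]
            exact (hH i ⟨p.2.2, h3⟩).1
          rw [h6]⟩
  have hΞ : ∀ i s t q, Ξ i (s, (t, q)) =
      if (t : ℝ) ≤ 1 / 2 then SM.q (clm (min 1 (2 - 2 * ((s : ℝ) * l i q)) * (2 * (t : ℝ))), q.1)
      else SM.q (clm (min 1 (2 - 2 * ((s : ℝ) * l i q)) * (2 - 2 * (t : ℝ))),
        SFbAux.mv (U i) (H i) (l i) (s, q)) := fun i s t q => rfl
  refine ⟨Ξ, ?_, ?_, ?_⟩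
  · intro i t q
    rw [hΞ]
    have e1 : min 1 (2 - 2 * (((0 : I) : ℝ) * l i q)) = 1 := by
      rw [Set.Icc.coe_zero, zero_mul, mul_zero, sub_zero]; norm_num
    have e2 : SFbAux.mv (U i) (H i) (l i) (0, q) = q.2 := by
      unfold SFbAux.mv
      split_ifs with hq
      · simp only [Set.Icc.coe_zero, zero_mul, mul_zero, sub_zero]
        rw [c1]
        exact (hH i ⟨q, hq⟩).2
      · rfl
    rw [e1, e2, one_mul, one_mul]
    change _ = if 2 * (t : ℝ) ≤ 1 then SM.q (clm (2 * (t : ℝ)), q.1)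
      else SM.q (clm (2 - 2 * (t : ℝ)), q.2)
    have e3 : ((t : ℝ) ≤ 1 / 2) ↔ (2 * (t : ℝ) ≤ 1) := by constructor <;> intro h <;> linarith
    simp only [e3]
  · intro i s q
    rw [hΞ, hΞ]
    constructor
    · rw [if_pos (by norm_num), Set.Icc.coe_zero, mul_zero, mul_zero, c0, SM.q0]
    · rw [if_neg (by norm_num), Set.Icc.coe_one]
      have : (2 : ℝ) - 2 * 1 = 0 := by norm_num
      rw [this, mul_zero, c0, SM.q0]
  · intro q
    obtain ⟨i, hi⟩ := hl1 q
    refine ⟨i, fun t => ?_⟩
    rw [hΞ]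
    have e1 : min 1 (2 - 2 * (((1 : I) : ℝ) * l i q)) = 0 := by
      rw [Set.Icc.coe_one, hi]; norm_num
    rw [e1, zero_mul, zero_mul, c0, SM.q0, SM.q0]
    split_ifs <;> rfl

end Pool.Agent.TC
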