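import Pool.Agent.Lib.TC.SFd

namespace Pool.Agent.TC

open CubeHom

namespace SFeAux

section

variable {F : Type} [TopologicalSpace F] {R : Type} [CommRing R] {B : Set F}

theorem top_C (k : ℤ) : (CS.top F).C R k = CubeHom.C R k Set.univ := by
  unfold CS.C CubeHom.C CS.top
  congr 1
  ext σ
  simp only [Set.mem_ofPred_eq, Set.mem_univ, implies_true]

theorem top_Q (k : ℤ) : (CS.top F).Q R k = CubeHom.Q R k ∅ := by
  unfold CS.Q CubeHom.Q CS.top
  congr 1
  ext σ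
  simp only [Set.mem_ofPred_eq, Set.mem_empty_iff_false, true_and]
  refine and_congr_right fun _ => or_congr_left ?_
  refine ⟨fun h => h.elim, fun h => h (fun _ => 0)⟩

theorem rel_C (k : ℤ) : (relB B).C R k = CubeHom.C R k Set.univ := top_C k

theorem rel_Q (k : ℤ) : (relB B).Q R k = CubeHom.Q R k B := by
  unfold CS.Q CubeHom.Q relB CS.kill CS.top
  congr 1
  ext σ
  simp only [Set.mem_ofPred_eq, Set.mem_singleton_iff, exists_eq_left, true_and, false_or]

theorem top_Z (k : ℤ) : (CS.top F).Z R k = CubeHom.Z R k Set.univ ∅ := by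
  unfold CS.Z CubeHom.Z
  rw [top_C, top_Q]

theorem rel_Z (k : ℤ) : (relB B).Z R k = CubeHom.Z R k Set.univ B := by
  unfold CS.Z CubeHom.Z
  rw [rel_C, rel_Q]

theorem top_Bd (k : ℤ) (c : Ch R F) : (CS.top F).Bd R k c ↔ CubeHom.Bd R k Set.univ ∅ c := by
  unfold CS.Bd CubeHom.Bd
  rw [top_C, top_Q]

theorem rel_Bd (k : ℤ) (c : Ch R F) : (relB B).Bd R k c ↔ CubeHom.Bd R k Set.univ B c := by
  unfold CS.Bd CubeHom.Bd
  rw [rel_C, rel_Q]

theorem top_le_rel (k : ℤ) : (CS.top F).Z R k ≤ (relB B).Z R k := by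
  rw [top_Z, rel_Z]
  exact Z_mono le_rfl (Set.empty_subset _)

end

section

variable {X : Type} [TopologicalSpace X] {R : Type} [CommRing R]

/-- The boundaries form a submodule. -/
noncomputable def bdS (S : CS X) (R : Type) [CommRing R] (k : ℤ) : Submodule R (Ch R X) where
  carrier := {c | S.Bd R k c}
  zero_mem' := ⟨0, Submodule.zero_mem _, by
    rw [map_zero, sub_zero]; exact Submodule.zero_mem _⟩
  add_mem' := by
    rintro a b ⟨e, he, h⟩ ⟨e', he', h'⟩
    refine ⟨e + e', Submodule.add_mem _ he he', ?_⟩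
    rw [map_add, add_sub_add_comm]
    exact Submodule.add_mem _ h h'
  smul_mem' := by
    rintro r a ⟨e, he, h⟩
    refine ⟨r • e, Submodule.smul_mem _ _ he, ?_⟩
    rw [map_smul, ← smul_sub]
    exact Submodule.smul_mem _ _ h

/-- Factorisation of a functional through a map. -/
theorem factor (hR : ExtProp R) {M M' : Type} [AddCommGroup M] [AddCommGroup M'] [Module R M]
    [Module R M'] (L : M' →ₗ[R] M) (p : M' →ₗ[R] R) (h : ∀ m, L m = 0 → p m = 0) :
    ∃ g : M →ₗ[R] R, ∀ m, g (L m) = p m := by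
  have hle : LinearMap.ker L ≤ LinearMap.ker p := fun m hm => h m hm
  obtain ⟨g, hg⟩ := hR M (LinearMap.range L)
    (((LinearMap.ker L).liftQ p hle) ∘ₗ
      (L.quotKerEquivRange.symm : LinearMap.range L →ₗ[R] M' ⧸ LinearMap.ker L))
  refine ⟨g, fun m => ?_⟩
  have h1 := hg ⟨L m, m, rfl⟩
  rw [h1]
  have h2 : L.quotKerEquivRange.symm ⟨L m, m, rfl⟩ = (LinearMap.ker L).mkQ m := by
    rw [LinearEquiv.symm_apply_eq]
    rfl
  change (LinearMap.ker L).liftQ p hle (L.quotKerEquivRange.symm ⟨L m, m, rfl⟩) = p m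
  rw [h2]
  exact Submodule.liftQ_apply _ _ _

/-- Factorisation modulo a submodule. -/
theorem factor' (hR : ExtProp R) {M M' : Type} [AddCommGroup M] [AddCommGroup M'] [Module R M]
    [Module R M'] (N : Submodule R M) (L : M' →ₗ[R] M) (p : M' →ₗ[R] R)
    (h : ∀ m, L m ∈ N → p m = 0) : ∃ g : M →ₗ[R] R, (∀ c ∈ N, g c = 0) ∧ ∀ m, g (L m) = p m := by
  obtain ⟨g, hg⟩ := factor hR (N.mkQ ∘ₗ L) p (by
    intro m hm
    refine h m ?_
    rw [LinearMap.comp_apply, Submodule.mkQ_apply, Submodule.Quotient.mk_eq_zero] at hm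
    exact hm)
  refine ⟨g ∘ₗ N.mkQ, fun c hc => ?_, hg⟩
  have h0 : N.mkQ c = 0 := by
    rw [Submodule.mkQ_apply, Submodule.Quotient.mk_eq_zero]
    exact hc
  rw [LinearMap.comp_apply, h0, map_zero]

/-- Factorisation of a functional which is defined on a submodule. -/
theorem factor'' (hR : ExtProp R) {M M' : Type} [AddCommGroup M] [AddCommGroup M'] [Module R M]
    [Module R M'] (N : Submodule R M) (P : Submodule R M') (L : M' →ₗ[R] M) (p : M' →ₗ[R] R)
    (h : ∀ m ∈ P, L m ∈ N → p m = 0) :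
    ∃ g : M →ₗ[R] R, (∀ c ∈ N, g c = 0) ∧ ∀ m ∈ P, g (L m) = p m := by
  obtain ⟨g, hg, hg'⟩ := factor' hR N (L ∘ₗ P.subtype) (p ∘ₗ P.subtype) fun m hm => h m.1 m.2 hm
  exact ⟨g, hg, fun m hm => hg' ⟨m, hm⟩⟩

/-- A cocycle with given values on some cycles. -/
theorem exists_cocycle' (hR : ExtProp R) (S : CS X) {k : ℕ} {M' : Type} [AddCommGroup M']
    [Module R M'] (P : Submodule R M') (L : M' →ₗ[R] Ch R X) (p : M' →ₗ[R] R)
    (hL : ∀ m ∈ P, L m ∈ S.Z R (k : ℤ)) (h : ∀ m ∈ P, S.Bd R (k : ℤ) (L m) → p m = 0) :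
    ∃ u : C(Cb, X) → R, S.Coc k u ∧ ∀ m ∈ P, Finsupp.linearCombination R u (L m) = p m := by
  obtain ⟨g, hg, hg'⟩ := factor'' hR (bdS S R (k : ℤ)) P L p h
  obtain ⟨u, hu, hu'⟩ := exists_cocycle hR S (g ∘ₗ (S.Z R (k : ℤ)).subtype)
    fun c hc => hg _ hc
  exact ⟨u, hu, fun m hm => (hu' ⟨L m, hL m hm⟩).trans (hg' m hm)⟩

end

end SFeAux

section

variable {F : Type} [TopologicalSpace F] (SM : SusM F)

variable {R : Type} [CommRing R] {B : Set F}

/-- Relative to an acyclic set. -/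
theorem relB_hz {j : ℤ} (h : (CS.top F).Hz R j)
    (hB : ∀ c ∈ CubeHom.Z R (j - 1) B ∅, CubeHom.Bd R (j - 1) B ∅ c) : (relB B).Hz R j := by
  intro c hc
  rw [SFeAux.rel_Z] at hc
  rw [SFeAux.rel_Bd]
  have h1 : bd j c ∈ CubeHom.Q R (j - 1) B := hc.2
  rw [Q_eq_sup] at h1
  obtain ⟨a, ha, q, hq, haq⟩ := Submodule.mem_sup.1 h1
  have hbb : bd (j - 1) (bd j c) = 0 := bd_bd j c
  have haZ : a ∈ CubeHom.Z R (j - 1) B ∅ := by
    refine ⟨ha, ?_⟩
    change bd (j - 1) a ∈ CubeHom.Q R (j - 1 - 1) ∅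
    have h2 : bd (j - 1) a = -bd (j - 1) q := by
      rw [← haq, map_add] at hbb
      exact eq_neg_of_add_eq_zero_left hbb
    rw [h2]
    exact Submodule.neg_mem _ (bd_mem_Q hq)
  obtain ⟨b, hb, hab⟩ := hB a haZ
  rw [sub_add_cancel] at hb hab
  have hcb : c - b ∈ (CS.top F).Z R j := by
    rw [SFeAux.top_Z]
    refine ⟨Submodule.sub_mem _ hc.1 (C_mono _ (Set.subset_univ _) hb), ?_⟩
    change bd j (c - b) ∈ CubeHom.Q R (j - 1) ∅
    have h2 : bd j (c - b) = q + (a - bd j b) := by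
      rw [map_sub, ← haq]
      abel
    rw [h2]
    exact Submodule.add_mem _ hq hab
  have h3 := h _ hcb
  rw [SFeAux.top_Bd] at h3
  obtain ⟨e, he, h3⟩ := h3
  refine ⟨e, he, ?_⟩
  have h4 : c - bd (j + 1) e = b + (c - b - bd (j + 1) e) := by abel
  rw [h4]
  exact Submodule.add_mem _ (C_le_Q _ _ hb) (Q_mono _ (Set.empty_subset _) h3)

theorem relB_inj {j : ℤ} (hB : ∀ c ∈ CubeHom.Z R j B ∅, CubeHom.Bd R j B ∅ c) {c : Ch R F}
    (hc : c ∈ (CS.top F).Z R j) (h : (relB B).Bd R j c) : (CS.top F).Bd R j c := by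
  rw [SFeAux.top_Z] at hc
  rw [SFeAux.rel_Bd] at h
  rw [SFeAux.top_Bd]
  obtain ⟨e, he, h1⟩ := h
  rw [Q_eq_sup] at h1
  obtain ⟨a, ha, q, hq, haq⟩ := Submodule.mem_sup.1 h1
  have haZ : a ∈ CubeHom.Z R j B ∅ := by
    refine ⟨ha, ?_⟩
    change bd j a ∈ CubeHom.Q R (j - 1) ∅
    have h2 : bd j a = bd j c - bd j q := by
      have h3 : a = c - bd (j + 1) e - q := by rw [← haq]; abel
      rw [h3, map_sub, map_sub, bd_bd', sub_zero]
    rw [h2]
    exact Submodule.sub_mem _ hc.2 (bd_mem_Q hq)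
  obtain ⟨b, hb, hab⟩ := hB a haZ
  refine ⟨e + b, Submodule.add_mem _ he (C_mono _ (Set.subset_univ _) hb), ?_⟩
  have h4 : c - bd (j + 1) (e + b) = (a - bd (j + 1) b) + q := by
    have h3 : c = bd (j + 1) e + (a + q) := by rw [haq]; abel
    rw [map_add, h3]
    abel
  rw [h4]
  exact Submodule.add_mem _ hab hq

/-- Suspension of a cocycle. -/
theorem SusM.exists_a (hR : ExtProp R) (hB : IsOpen B) {k : ℕ}
    (hBk : ∀ c ∈ CubeHom.Z R (k : ℤ) B ∅, CubeHom.Bd R (k : ℤ) B ∅ c) {x : C(Cb, F) → R}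
    (hx : (CS.top F).Coc k x) :
    ∃ a : C(Cb, SM.T) → R, (SM.sys B).Coc (k + 1) a ∧
      ∀ c ∈ (CS.top F).Z R (k : ℤ),
        Finsupp.linearCombination R a (SM.su c) = Finsupp.linearCombination R x c := by
  have hk : (1 : ℤ) + k = ((k + 1 : ℕ) : ℤ) := by push_cast; ring
  refine SFeAux.exists_cocycle' hR (SM.sys B) ((CS.top F).Z R (k : ℤ))
    ((push SM.q).comp (cr 1 (Finsupp.single iota 1))) (Finsupp.linearCombination R x) ?_ ?_
  · intro c hc
    rw [← hk]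
    exact SM.su_mem (SFeAux.top_le_rel _ hc)
  · intro c hc h
    rw [← hk] at h
    exact coc_bd (R := R) (CS.top F) hx
      (relB_inj hBk hc (SM.su_inj hB (SFeAux.top_le_rel _ hc) h))

/-- The local class: if `c` generates a free summand. -/
theorem SusM.exists_loc (hR : ExtProp R) (hB : IsOpen B) {d : ℕ} {c : Ch R F}
    (hc : c ∈ (relB B).Z R (d : ℤ)) (hfree : ∀ r : R, (relB B).Bd R (d : ℤ) (r • c) → r = 0) :
    ∃ ι : C(Cb, SM.T) → R, (SM.sys B).Coc (d + 1) ι ∧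
      Finsupp.linearCombination R ι (SM.su c) = 1 := by
  have hk : (1 : ℤ) + d = ((d + 1 : ℕ) : ℤ) := by push_cast; ring
  obtain ⟨u, hu, hu'⟩ := SFeAux.exists_cocycle' hR (SM.sys B) (k := d + 1) (⊤ : Submodule R R)
    (LinearMap.toSpanSingleton R (Ch R SM.T) (SM.su c)) LinearMap.id (by
      intro r _
      rw [LinearMap.toSpanSingleton_apply, ← hk]
      exact Submodule.smul_mem _ r (SM.su_mem hc)) (by
      intro r _ hr
      refine hfree r (SM.su_inj hB (Submodule.smul_mem _ r hc) ?_)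
      rw [LinearMap.toSpanSingleton_apply, ← hk] at hr
      have e : SM.su (r • c) = r • SM.su c := by
        unfold SusM.su
        rw [map_smul, map_smul]
      rw [e]
      exact hr)
  refine ⟨u, hu, ?_⟩
  have h := hu' 1 Submodule.mem_top
  rwa [LinearMap.toSpanSingleton_apply, one_smul] at h

end

end Pool.Agent.TC
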