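import Pool.Agent.Lib.TC.Coch

/-!
# Universal coefficients, small cubes for arbitrary systems
-/

namespace Pool.Agent.TC

open CubeHom

/-- Functionals defined on submodules extend (`R` is self-injective). -/
def ExtProp (R : Type) [CommRing R] : Prop :=
  ∀ (M : Type) [AddCommGroup M] [Module R M] (N : Submodule R M) (f : N →ₗ[R] R),
    ∃ g : M →ₗ[R] R, ∀ x : N, g x = f x

theorem extProp_field {K : Type} [Field K] : ExtProp K := by
  intro M _ _ N f
  obtain ⟨g, hg⟩ := LinearMap.exists_extend f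
  refine ⟨g, fun x => ?_⟩
  rw [← hg]
  rfl

theorem baer_zmod4 : Module.Baer (ZMod 4) (ZMod 4) := by
  intro I g
  have key : ∀ r : ZMod 4, (∀ x (hx : x ∈ I), x * r = g ⟨x, hx⟩) →
      ∃ g' : ZMod 4 →ₗ[ZMod 4] ZMod 4, ∀ (x : ZMod 4) (mem : x ∈ I), g' x = g ⟨x, mem⟩ :=
    fun r hr => ⟨LinearMap.toSpanSingleton (ZMod 4) (ZMod 4) r, fun x hx => hr x hx⟩
  by_cases h1 : (1 : ZMod 4) ∈ I
  · refine key (g ⟨1, h1⟩) fun x hx => ?_
    rw [← smul_eq_mul, ← map_smul]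
    congr 1
    ext
    simp
  have h3 : (3 : ZMod 4) ∉ I := fun h => h1 (by
    have := I.mul_mem_left 3 h
    have e : (3 : ZMod 4) * 3 = 1 := by decide
    rwa [e] at this)
  have hcases : ∀ x : ZMod 4, x = 0 ∨ x = 1 ∨ x = 2 ∨ x = 3 := by decide
  have hg0 : ∀ h : (0 : ZMod 4) ∈ I, g ⟨0, h⟩ = 0 := fun h => by
    have : (⟨0, h⟩ : I) = 0 := rfl
    rw [this, map_zero]
  by_cases h2 : (2 : ZMod 4) ∈ I
  · have e1 : (2 : ZMod 4) * g ⟨2, h2⟩ = 0 := by
      rw [← smul_eq_mul, ← map_smul]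
      have : (2 : ZMod 4) • (⟨2, h2⟩ : I) = 0 := by
        ext
        change (2 : ZMod 4) * 2 = 0
        decide
      rw [this, map_zero]
    have e2 : ∀ y : ZMod 4, 2 * y = 0 → ∃ r : ZMod 4, 2 * r = y := by decide
    obtain ⟨r, hr⟩ := e2 _ e1
    refine key r fun x hx => ?_
    rcases hcases x with rfl | rfl | rfl | rfl
    · rw [zero_mul, hg0]
    · exact absurd hx h1
    · exact hr
    · exact absurd hx h3
  · refine key 0 fun x hx => ?_
    rcases hcases x with rfl | rfl | rfl | rfl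
    · rw [zero_mul, hg0]
    · exact absurd hx h1
    · exact absurd hx h2
    · exact absurd hx h3

/-- Baer's criterion and Zorn's lemma. -/
theorem extProp_zmod4 : ExtProp (ZMod 4) := by
  intro M _ _ N f
  obtain ⟨g, hg⟩ := baer_zmod4.extension_property N.subtype N.injective_subtype f
  refine ⟨g, fun x => ?_⟩
  rw [← hg]
  rfl

variable {X Y : Type} [TopologicalSpace X] [TopologicalSpace Y]

/-- The homology of the system in degree `k` is zero. -/
def CS.Hz (S : CS X) (R : Type) [CommRing R] (k : ℤ) : Prop :=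
  ∀ c ∈ S.Z R k, S.Bd R k c

theorem CS.u1_single_C {R : Type*} [CommRing R] (S : CS X) {k : ℤ} {σ : C(Cb, X)}
    (h1 : IsCube k σ) (h2 : S.ok σ) (r : R) : Finsupp.single σ r ∈ S.C R k :=
  single_mem_supported (S := {σ | IsCube k σ ∧ S.ok σ}) ⟨h1, h2⟩ r

theorem CS.u1_single_Q {R : Type*} [CommRing R] (S : CS X) {k : ℤ} {σ : C(Cb, X)}
    (h1 : IsCube k σ) (h2 : S.ok σ) (h3 : S.nul σ ∨ Degen k σ) (r : R) :
    Finsupp.single σ r ∈ S.Q R k :=
  single_mem_supported (S := {σ | IsCube k σ ∧ S.ok σ ∧ (S.nul σ ∨ Degen k σ)}) ⟨h1, h2, h3⟩ r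

theorem CS.u1_bd_C {R : Type*} [CommRing R] (S : CS X) {k : ℤ} {c : Ch R X}
    (hc : c ∈ S.C R k) : bd k c ∈ S.C R (k - 1) := by
  refine map_mem_of_supported (bd k) _ (fun σ hσ => ?_) hc
  rw [bd_apply]
  refine Submodule.sum_mem _ fun i hi => Submodule.smul_mem _ _ (Submodule.sub_mem _ ?_ ?_)
  all_goals
    rw [Finset.mem_range] at hi
    rw [face_single]
    exact S.u1_single_C (hσ.1.face (by omega) _) (S.ok_comp _ _ hσ.2) _

theorem CS.u1_bd_Q {R : Type*} [CommRing R] (S : CS X) {k : ℤ} {c : Ch R X}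
    (hc : c ∈ S.Q R k) : bd k c ∈ S.Q R (k - 1) := by
  refine map_mem_of_supported (bd k) _ (fun σ hσ => ?_) hc
  obtain ⟨h1, h0, h2⟩ := hσ
  rw [bd_apply]
  refine Submodule.sum_mem _ fun j hj => Submodule.smul_mem _ _ ?_
  rw [Finset.mem_range] at hj
  rw [face_single, face_single]
  rcases h2 with h2 | ⟨i, hi, h2⟩
  · exact Submodule.sub_mem _
      (S.u1_single_Q (h1.face (by omega) _) (S.ok_comp _ _ h0) (Or.inl (S.nul_comp _ _ h2)) _)
      (S.u1_single_Q (h1.face (by omega) _) (S.ok_comp _ _ h0) (Or.inl (S.nul_comp _ _ h2)) _)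
  · rcases eq_or_ne j i with hij | hij
    · subst hij
      rw [comp_ins_eq h2 1 0, sub_self]
      exact Submodule.zero_mem _
    · exact Submodule.sub_mem _
        (S.u1_single_Q (h1.face (by omega) _) (S.ok_comp _ _ h0)
          (Or.inr (degen_face h2 hi hij (by omega) _)) _)
        (S.u1_single_Q (h1.face (by omega) _) (S.ok_comp _ _ h0)
          (Or.inr (degen_face h2 hi hij (by omega) _)) _)

theorem CS.u1_Q_le_Z {R : Type*} [CommRing R] (S : CS X) (k : ℤ) : S.Q R k ≤ S.Z R k :=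
  fun c hc => by
    have h1 : c ∈ S.C R k := by
      have h2 : S.Q R k ≤ S.C R k := Finsupp.supported_mono fun _ hσ => And.intro hσ.1 hσ.2.1
      exact h2 hc
    exact And.intro h1 (S.u1_bd_Q hc)

theorem u1_lc_single {R : Type*} [CommRing R] (g : Ch R X →ₗ[R] R) (c : Ch R X) :
    Finsupp.linearCombination R (fun σ => g (Finsupp.single σ 1)) c = g c := by
  have h : Finsupp.linearCombination R (fun σ => g (Finsupp.single σ 1)) = g := by
    ext σ
    simp
  rw [h]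

/-- The coboundary of the cochain given by a functional. -/
theorem u1_dl_single {R : Type*} [CommRing R] (g : Ch R X →ₗ[R] R) (k : ℕ) (σ : C(Cb, X)) :
    dl k (fun σ => g (Finsupp.single σ 1)) σ =
      g (bd ((k + 1 : ℕ) : ℤ) (Finsupp.single σ 1)) := by
  rw [← u1_lc_single g (bd ((k + 1 : ℕ) : ℤ) (Finsupp.single σ 1)), lc_bd]
  simp

/-- A functional on the cycles which is zero on the boundaries is given by a cocycle. -/
theorem exists_cocycle {R : Type} [CommRing R] (hR : ExtProp R) (S : CS X) {k : ℕ}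
    (φ : S.Z R (k : ℤ) →ₗ[R] R)
    (h : ∀ c : S.Z R (k : ℤ), S.Bd R (k : ℤ) (c : Ch R X) → φ c = 0) :
    ∃ u : C(Cb, X) → R, S.Coc k u ∧
      ∀ c : S.Z R (k : ℤ), Finsupp.linearCombination R u (c : Ch R X) = φ c := by
  obtain ⟨g, hg⟩ := hR (Ch R X) (S.Z R (k : ℤ)) φ
  refine ⟨fun σ => g (Finsupp.single σ 1), ⟨fun σ h1 h2 h3 => ?_, fun σ h1 h2 => ?_⟩,
    fun c => ?_⟩
  · have hQ := S.u1_single_Q (R := R) h1 h2 h3 1
    have e := hg ⟨_, S.u1_Q_le_Z _ hQ⟩
    change g (Finsupp.single σ 1) = 0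
    rw [e]
    refine h _ ⟨0, Submodule.zero_mem _, ?_⟩
    rw [map_zero, sub_zero]
    exact hQ
  · have hC := S.u1_single_C (R := R) h1 h2 1
    have e0 : (((k + 1 : ℕ) : ℤ)) - 1 = (k : ℤ) := by
      push_cast
      ring
    have hZ : bd ((k + 1 : ℕ) : ℤ) (Finsupp.single σ (1 : R)) ∈ S.Z R (k : ℤ) := by
      refine ⟨?_, ?_⟩
      · have := S.u1_bd_C hC
        rwa [e0] at this
      · change bd (k : ℤ) (bd ((k + 1 : ℕ) : ℤ) (Finsupp.single σ (1 : R))) ∈ S.Q R ((k : ℤ) - 1)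
        have := bd_bd ((k + 1 : ℕ) : ℤ) (Finsupp.single σ (1 : R))
        rw [e0] at this
        rw [this]
        exact Submodule.zero_mem _
    rw [u1_dl_single]
    have e := hg ⟨_, hZ⟩
    change g (bd ((k + 1 : ℕ) : ℤ) (Finsupp.single σ 1)) = _ at e
    rw [e]
    refine h _ ⟨Finsupp.single σ 1, hC, ?_⟩
    have e1 : ((k : ℤ) + 1) = ((k + 1 : ℕ) : ℤ) := by push_cast; ring
    rw [e1]
    change bd ((k + 1 : ℕ) : ℤ) (Finsupp.single σ 1) -
      bd ((k + 1 : ℕ) : ℤ) (Finsupp.single σ 1) ∈ S.Q R (k : ℤ)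
    rw [sub_self]
    exact Submodule.zero_mem _
  · rw [u1_lc_single, hg]

/-- A functional which vanishes on the kernel descends and extends. -/
theorem u1_extend {R : Type} [CommRing R] (hR : ExtProp R) {M N : Type} [AddCommGroup M]
    [Module R M] [AddCommGroup N] [Module R N] (π : M →ₗ[R] N) (χ : M →ₗ[R] R)
    (hker : ∀ x, π x = 0 → χ x = 0) : ∃ g : N →ₗ[R] R, ∀ x, g (π x) = χ x := by
  have hk : LinearMap.ker π ≤ LinearMap.ker χ := fun x hx => hker x hx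
  obtain ⟨g, hg⟩ := hR N (LinearMap.range π)
    (((LinearMap.ker π).liftQ χ hk).comp π.quotKerEquivRange.symm.toLinearMap)
  refine ⟨g, fun x => ?_⟩
  rw [hg ⟨π x, LinearMap.mem_range_self π x⟩]
  change (LinearMap.ker π).liftQ χ hk
    (π.quotKerEquivRange.symm ⟨π x, LinearMap.mem_range_self π x⟩) = χ x
  have e : π.quotKerEquivRange.symm ⟨π x, LinearMap.mem_range_self π x⟩ =
      (LinearMap.ker π).mkQ x := by
    rw [LinearEquiv.symm_apply_eq]
    rfl
  rw [e]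
  rfl

/-- Universal coefficients: a relative cocycle of positive degree which vanishes on all relative
cycles is a coboundary. -/
theorem uct {R : Type} [CommRing R] (hR : ExtProp R) (S : CS X) {k : ℕ} {u : C(Cb, X) → R}
    (hu : S.Coc (k + 1) u)
    (h : ∀ c ∈ S.Z R ((k + 1 : ℕ) : ℤ), Finsupp.linearCombination R u c = 0) : S.Cob k u := by
  have e0 : (((k + 1 : ℕ) : ℤ)) - 1 = (k : ℤ) := by
    push_cast
    ring
  -- the functional `bd b + q ↦ u b`
  obtain ⟨g, hg⟩ := u1_extend hR (M := S.C R ((k + 1 : ℕ) : ℤ) × S.Q R (k : ℤ)) (N := Ch R X)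
    (LinearMap.coprod ((bd ((k + 1 : ℕ) : ℤ)).comp (S.C R ((k + 1 : ℕ) : ℤ)).subtype)
      (S.Q R (k : ℤ)).subtype)
    ((Finsupp.linearCombination R u).comp ((S.C R ((k + 1 : ℕ) : ℤ)).subtype.comp
      (LinearMap.fst R _ _))) (by
    rintro ⟨b, q⟩ hx
    change bd ((k + 1 : ℕ) : ℤ) (b : Ch R X) + (q : Ch R X) = 0 at hx
    change Finsupp.linearCombination R u (b : Ch R X) = 0
    refine h _ (And.intro b.2 ?_)
    rw [e0]
    change bd ((k + 1 : ℕ) : ℤ) (b : Ch R X) ∈ S.Q R (k : ℤ)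
    rw [eq_neg_of_add_eq_zero_left hx]
    exact Submodule.neg_mem _ q.2)
  have hg' : ∀ (b : Ch R X) (_ : b ∈ S.C R ((k + 1 : ℕ) : ℤ)) (q : Ch R X)
      (_ : q ∈ S.Q R (k : ℤ)), g (bd ((k + 1 : ℕ) : ℤ) b + q) =
        Finsupp.linearCombination R u b := fun b hb q hq => hg (⟨b, hb⟩, ⟨q, hq⟩)
  refine ⟨fun σ => g (Finsupp.single σ 1), fun σ h1 h2 h3 => ?_, fun σ h1 h2 => ?_⟩
  · have hQ := S.u1_single_Q (R := R) h1 h2 h3 1
    have e := hg' 0 (Submodule.zero_mem _) _ hQ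
    rw [map_zero, map_zero, zero_add] at e
    exact e
  · have hC := S.u1_single_C (R := R) h1 h2 1
    have e := hg' _ hC 0 (Submodule.zero_mem _)
    rw [add_zero, Finsupp.linearCombination_single, one_smul] at e
    rw [u1_dl_single, e]

/-- Restriction of a system to the cubes inside one of the sets of `𝒱`. -/
def CS.small (S : CS X) (𝒱 : Set (Set X)) : CS X :=
  ⟨fun σ => S.ok σ ∧ ∃ V ∈ 𝒱, ∀ u, σ u ∈ V, S.nul,
    fun σ f h => ⟨S.ok_comp σ f h.1, h.2.imp fun _ hV => ⟨hV.1, fun u => hV.2 (f u)⟩⟩,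
    S.nul_comp⟩

/-- The cubes inside one of the sets of `𝒱` are considered as zero, too. -/
def CS.kill (S : CS X) (𝒱 : Set (Set X)) : CS X :=
  ⟨S.ok, fun σ => S.nul σ ∨ ∃ V ∈ 𝒱, ∀ u, σ u ∈ V, S.ok_comp,
    fun σ f h => h.imp (S.nul_comp σ f) fun h => h.imp fun _ hV => ⟨hV.1, fun u => hV.2 (f u)⟩⟩

namespace U2A

open CubeHom.Sub

variable {X : Type*} [TopologicalSpace X] {R : Type*} [CommRing R]

/-- The subdivision in degree `n`. -/
noncomputable abbrev F (R X : Type*) [CommRing R] [TopologicalSpace X] (n : ℕ) :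
    Module.End R (Ch R X) := subF (sF R X) n

/-- The homotopy in degree `n`. -/
noncomputable abbrev G (R X : Type*) [CommRing R] [TopologicalSpace X] (n : ℕ) :
    Module.End R (Ch R X) := subG R (sF R X) (fun i => pre R X (sqC i)) n

/-- Preservation of the chains of a system. -/
def PresS (S : CS X) (n n' : ℕ) (φ : Module.End R (Ch R X)) : Prop :=
  (∀ c ∈ S.C R (n : ℤ), φ c ∈ S.C R (n' : ℤ)) ∧ (∀ c ∈ S.Q R (n : ℤ), φ c ∈ S.Q R (n' : ℤ))

variable {S : CS X}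

theorem PresS.mul {n n' n'' : ℕ} {φ ψ : Module.End R (Ch R X)} (h : PresS S n' n'' φ)
    (h' : PresS S n n' ψ) : PresS S n n'' (φ * ψ) :=
  ⟨fun c hc => h.1 _ (h'.1 c hc), fun c hc => h.2 _ (h'.2 c hc)⟩

theorem PresS.add {n n' : ℕ} {φ ψ : Module.End R (Ch R X)} (h : PresS S n n' φ)
    (h' : PresS S n n' ψ) : PresS S n n' (φ + ψ) :=
  ⟨fun c hc => Submodule.add_mem _ (h.1 c hc) (h'.1 c hc),
    fun c hc => Submodule.add_mem _ (h.2 c hc) (h'.2 c hc)⟩

theorem PresS.smul {n n' : ℕ} {φ : Module.End R (Ch R X)} (h : PresS S n n' φ) (r : R) :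
    PresS S n n' (r • φ) :=
  ⟨fun c hc => Submodule.smul_mem _ r (h.1 c hc),
    fun c hc => Submodule.smul_mem _ r (h.2 c hc)⟩

theorem PresS.zero {n n' : ℕ} : PresS S n n' (0 : Module.End R (Ch R X)) :=
  ⟨fun _ _ => Submodule.zero_mem _, fun _ _ => Submodule.zero_mem _⟩

theorem PresS.one {n : ℕ} : PresS S n n (1 : Module.End R (Ch R X)) :=
  ⟨fun _ hc => hc, fun _ hc => hc⟩

theorem PresS.pow {n : ℕ} {φ : Module.End R (Ch R X)} (h : PresS S n n φ) (m : ℕ) :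
    PresS S n n (φ ^ m) := by
  induction m with
  | zero => rw [pow_zero]; exact PresS.one
  | succ m ih => rw [pow_succ]; exact ih.mul h

theorem PresS.sum {n n' : ℕ} {ι : Type*} (s : Finset ι) {φ : ι → Module.End R (Ch R X)}
    (h : ∀ i ∈ s, PresS S n n' (φ i)) : PresS S n n' (∑ i ∈ s, φ i) := by
  classical
  induction s using Finset.induction_on with
  | empty => simpa using PresS.zero
  | insert i s hi ih =>
    rw [Finset.sum_insert hi]
    exact (h i (Finset.mem_insert_self _ _)).add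
      (ih fun j hj => h j (Finset.mem_insert_of_mem hj))

theorem pres_pre {n n' : ℕ} {a : C(Cb, Cb)}
    (h1 : ∀ u v : Cb, (∀ j < n', u j = v j) → ∀ j < n, a u j = a v j)
    (h2 : ∀ i < n, ∃ i' < n', ∀ u v : Cb, (∀ j, j ≠ i' → u j = v j) →
      ∀ j, j ≠ i → a u j = a v j) :
    PresS S n n' (pre R X a) := by
  have h3 : ∀ σ : C(Cb, X), IsCube (n : ℤ) σ → IsCube (n' : ℤ) (σ.comp a) := by
    intro σ hσ
    rw [isCube_nat] at hσ ⊢
    intro u v huv
    exact hσ _ _ (h1 u v huv)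
  refine ⟨fun c hc => ?_, fun c hc => ?_⟩
  · refine mem_supported_mapDomain a ?_ hc
    rintro σ ⟨hσ, hU⟩
    exact ⟨h3 σ hσ, S.ok_comp _ _ hU⟩
  · refine mem_supported_mapDomain a ?_ hc
    rintro σ ⟨hσ, hok, hU⟩
    refine ⟨h3 σ hσ, S.ok_comp _ _ hok, ?_⟩
    rcases hU with hU | ⟨i, hi, hdeg⟩
    · exact Or.inl (S.nul_comp _ _ hU)
    · obtain ⟨i', hi', h4⟩ := h2 i (by exact_mod_cast hi)
      refine Or.inr ⟨i', by exact_mod_cast hi', fun u v huv => ?_⟩
      exact hdeg fun j hj => h4 u v (fun j hj => huv j hj) j hj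

theorem pres_atc {f : I → I} {hf : Continuous f} {i n : ℕ} :
    PresS S n n (pre R X (⟨atc f i, continuous_atc hf i⟩ : C(Cb, Cb))) := by
  refine pres_pre (fun u v h j hj => ?_) (fun l hl => ⟨l, hl, fun u v h j hj => ?_⟩)
  · simp only [ContinuousMap.coe_mk, atc, h j hj]
  · simp only [ContinuousMap.coe_mk, atc, h j hj]

theorem pres_sF {i n : ℕ} : PresS S n n (sF R X i) :=
  (pres_atc (hf := continuous_loI)).add (pres_atc (hf := continuous_hiI))

theorem pres_F {m n : ℕ} : PresS S n n (F R X m) := by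
  induction m with
  | zero => exact PresS.one
  | succ m ih => exact ih.mul pres_sF

theorem pres_sqC {i n : ℕ} : PresS S n (n + 1) (pre R X (sqC i)) := by
  refine pres_pre (fun u v h j hj => ?_) (fun l hl => ?_)
  · simp only [sqC_apply]
    rw [h j (by omega), h (j + 1) (by omega)]
  · rcases Nat.lt_or_ge i l with hil | hil
    · refine ⟨l + 1, by omega, fun u v h j hj => ?_⟩
      simp only [sqC_apply]
      by_cases h1 : j < i
      · rw [if_pos h1, if_pos h1, h j (by omega)]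
      · by_cases h2 : j = i
        · rw [if_neg h1, if_neg h1, if_pos h2, if_pos h2, h j (by omega), h (j + 1) (by omega)]
        · rw [if_neg h1, if_neg h1, if_neg h2, if_neg h2, h (j + 1) (by omega)]
    · refine ⟨l, by omega, fun u v h j hj => ?_⟩
      simp only [sqC_apply]
      by_cases h1 : j < i
      · rw [if_pos h1, if_pos h1, h j (by omega)]
      · by_cases h2 : j = i
        · rw [if_neg h1, if_neg h1, if_pos h2, if_pos h2, h j (by omega), h (j + 1) (by omega)]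
        · rw [if_neg h1, if_neg h1, if_neg h2, if_neg h2, h (j + 1) (by omega)]

theorem pres_G {n m : ℕ} : PresS S n (n + 1) (G R X m) :=
  PresS.sum _ fun _ _ => (pres_F.mul pres_sqC).smul _

theorem toC_mem_Q {n i : ℕ} (hi : i < n) {c : Ch R X} (hc : c ∈ S.C R (n : ℤ)) :
    pre R X (toC i) c ∈ S.Q R (n : ℤ) := by
  refine mem_supported_mapDomain (toC i) ?_ hc
  rintro σ ⟨hσ, hU⟩
  refine ⟨?_, S.ok_comp _ _ hU, Or.inr ⟨i, by exact_mod_cast hi, fun u v huv => ?_⟩⟩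
  · rw [isCube_nat] at hσ ⊢
    intro u v huv
    refine hσ _ _ fun j hj => ?_
    simp only [toC, ContinuousMap.coe_mk, atc, huv j hj]
  · refine congrArg σ (funext fun j => ?_)
    simp only [toC, ContinuousMap.coe_mk, atc]
    by_cases h1 : j = i
    · simp [h1]
    · simp only [h1, if_false]
      exact huv j h1

theorem bd_F (n : ℕ) (c : Ch R X) :
    bd ((n + 1 : ℕ) : ℤ) (F R X (n + 1) c) = F R X n (bd ((n + 1 : ℕ) : ℤ) c) := by
  have h2 := LinearMap.congr_fun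
    (subD_mul_subF (R := R) (S := sF R X) (d := dF R X) rel1 rel2 rel3 n) c
  rw [← bd_eq] at h2
  exact h2

theorem bd_Fpow (n m : ℕ) (c : Ch R X) :
    bd ((n + 1 : ℕ) : ℤ) ((F R X (n + 1) ^ m) c) = (F R X n ^ m) (bd ((n + 1 : ℕ) : ℤ) c) := by
  induction m with
  | zero => simp
  | succ m ih => rw [pow_succ', pow_succ', Module.End.mul_apply, Module.End.mul_apply, bd_F, ih]

theorem Q_le_C {k : ℤ} : S.Q R k ≤ S.C R k :=
  Finsupp.supported_mono fun _ h => ⟨h.1, h.2.1⟩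

/-- One step of the subdivision of a cycle of the system. -/
theorem step {n : ℕ} {c : Ch R X} (hc : c ∈ S.Z R (n : ℤ)) :
    F R X n c ∈ S.Z R (n : ℤ) ∧ ∃ b ∈ S.C R ((n : ℤ) + 1),
      c - F R X n c - bd ((n : ℤ) + 1) b ∈ S.Q R (n : ℤ) := by
  obtain ⟨hc1, hc2⟩ := hc
  have hc2' : bd (n : ℤ) c ∈ S.Q R ((n : ℤ) - 1) := hc2
  cases n with
  | zero =>
    refine ⟨⟨hc1, hc2⟩, 0, Submodule.zero_mem _, ?_⟩
    have : c - F R X 0 c - bd (((0 : ℕ) : ℤ) + 1) (0 : Ch R X) = 0 := by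
      rw [map_zero, sub_zero]
      exact sub_self c
    rw [this]
    exact Submodule.zero_mem _
  | succ n =>
    have e1 : (((n + 1 : ℕ) : ℤ) - 1) = (n : ℤ) := by push_cast; ring
    have e2 : (((n + 2 : ℕ) : ℤ)) = ((n + 1 : ℕ) : ℤ) + 1 := by push_cast; ring
    rw [e1] at hc2'
    refine ⟨⟨pres_F.1 _ hc1, ?_⟩, ?_⟩
    · rw [SetLike.mem_coe, Submodule.mem_comap, bd_F, e1]
      exact pres_F.2 _ hc2'
    · have key := subD_mul_subG (R := R) (S := sF R X) (T := fun i => pre R X (sqC i))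
        (d := dF R X) (H := fun i => pre R X (hiC i)) (K := fun i => pre R X (toC i))
        (L := fun i => pre R X (loC i)) rel1 rel2 rel3 rel4 rel5 rel6 rel7 (fun _ => rfl) n
      have key' := LinearMap.congr_fun key c
      rw [← bd_eq, ← bd_eq] at key'
      rw [e2] at key'
      refine ⟨-(G R X (n + 1) c), ?_, ?_⟩
      · have h1 := (pres_G (R := R) (S := S) (n := n + 1) (m := n + 1)).1 c hc1
        refine Submodule.neg_mem _ ?_
        exact_mod_cast h1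
      · rw [map_neg]
        have h2 : G R X n (bd ((n + 1 : ℕ) : ℤ) c) ∈ S.Q R ((n + 1 : ℕ) : ℤ) :=
          (pres_G (R := R) (S := S) (n := n) (m := n)).2 _ hc2'
        have h6 : (∑ i ∈ Finset.range (n + 1), subF (sF R X) i * pre R X (toC i) :
            Module.End R (Ch R X)) c ∈ S.Q R ((n + 1 : ℕ) : ℤ) := by
          rw [LinearMap.sum_apply]
          refine Submodule.sum_mem _ fun i hi => ?_
          rw [Module.End.mul_apply]
          exact (pres_F (R := R) (S := S) (m := i) (n := n + 1)).2 _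
            (toC_mem_Q (by simpa using hi) hc1)
        have h8 : bd (((n + 1 : ℕ) : ℤ) + 1) (G R X (n + 1) c) +
            G R X n (bd ((n + 1 : ℕ) : ℤ) c) = F R X (n + 1) c - c -
            (∑ i ∈ Finset.range (n + 1), subF (sF R X) i * pre R X (toC i) :
          Module.End R (Ch R X)) c := key'
        have h7 : c - F R X (n + 1) c - -(bd (((n + 1 : ℕ) : ℤ) + 1) (G R X (n + 1) c)) =
            -(G R X n (bd ((n + 1 : ℕ) : ℤ) c))
            - (∑ i ∈ Finset.range (n + 1), subF (sF R X) i * pre R X (toC i) :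
            Module.End R (Ch R X)) c := by
          rw [← eq_sub_iff_add_eq] at h8
          rw [h8]
          abel
        rw [h7]
        exact Submodule.sub_mem _ (Submodule.neg_mem _ h2) h6

theorem iter {n : ℕ} {c : Ch R X} (hc : c ∈ S.Z R (n : ℤ)) (m : ℕ) :
    (F R X n ^ m) c ∈ S.Z R (n : ℤ) ∧ ∃ b ∈ S.C R ((n : ℤ) + 1),
      c - (F R X n ^ m) c - bd ((n : ℤ) + 1) b ∈ S.Q R (n : ℤ) := by
  induction m with
  | zero =>
    refine ⟨by simpa using hc, 0, Submodule.zero_mem _, ?_⟩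
    have : c - (F R X n ^ 0) c - bd ((n : ℤ) + 1) (0 : Ch R X) = 0 := by
      rw [map_zero, sub_zero, pow_zero]
      exact sub_self c
    rw [this]
    exact Submodule.zero_mem _
  | succ m ih =>
    obtain ⟨h1, b, hb, h2⟩ := ih
    obtain ⟨h3, b', hb', h4⟩ := step h1
    rw [pow_succ', Module.End.mul_apply]
    refine ⟨h3, b + b', Submodule.add_mem _ hb hb', ?_⟩
    have h5 : c - F R X n ((F R X n ^ m) c) - bd ((n : ℤ) + 1) (b + b') =
        (c - (F R X n ^ m) c - bd ((n : ℤ) + 1) b) +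
        ((F R X n ^ m) c - F R X n ((F R X n ^ m) c) - bd ((n : ℤ) + 1) b') := by
      rw [map_add]
      abel
    rw [h5]
    exact Submodule.add_mem _ h2 h4


/-! ### Smallness -/

theorem single_small {S : CS X} {𝒱 : Set (Set X)} (hV : ∀ V ∈ 𝒱, IsOpen V)
    {n : ℕ} {σ : C(Cb, X)} (hσ : IsCube (n : ℤ) σ) (hok : S.ok σ)
    (hcov : ∀ u, ∃ V ∈ 𝒱, σ u ∈ V) (r : R) :
    ∃ m0 : ℕ, ∀ m ≥ m0, (F R X n ^ m) (Finsupp.single σ r) ∈
      Finsupp.supported R R {τ : C(Cb, X) | IsCube (n : ℤ) τ ∧ S.ok τ ∧ ∃ V ∈ 𝒱, ∀ u, τ u ∈ V} := by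
  classical
  let g : (Fin n → I) → X := fun x => σ (extZ n x)
  have hg : Continuous g := σ.continuous.comp (continuous_extZ n)
  let cov : 𝒱 → Set (Fin n → I) := fun V => g ⁻¹' V.1
  have hcov' : ∀ b, IsOpen (cov b) := fun b => (hV b.1 b.2).preimage hg
  obtain ⟨δ, hδ, hball⟩ := lebesgue_number_lemma_of_metric (s := Set.univ) isCompact_univ hcov'
    (fun x _ => by
      obtain ⟨V, hV1, hV2⟩ := hcov (extZ n x)
      exact Set.mem_iUnion.mpr ⟨⟨V, hV1⟩, hV2⟩)
  obtain ⟨m0, hm0⟩ := exists_pow_lt_of_lt_one hδ (show (1 / 2 : ℝ) < 1 by norm_num)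
  refine ⟨m0, fun m hm => ?_⟩
  have hmδ : (1 / 2 : ℝ) ^ m < δ :=
    lt_of_le_of_lt (pow_le_pow_of_le_one (by norm_num) (by norm_num) hm) hm0
  have h1 : (F R X n ^ m) (Finsupp.single σ r) ∈ S.C R (n : ℤ) :=
    ((pres_F (S := S) (R := R) (m := n) (n := n)).pow m).1 _
      (Finsupp.single_mem_supported R r ⟨hσ, hok⟩)
  have h3 := small_subF_pow (R := R) (σ := σ) n m r
  rw [Finsupp.mem_supported]
  intro τ hτ
  have h5 := (Finsupp.mem_supported R _).mp h1 hτ
  obtain ⟨a, ha, rfl⟩ := (Finsupp.mem_supported R _).mp h3 hτ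
  obtain ⟨b, hb⟩ := hball (fun j : Fin n => a (fun _ => 0) j) (Set.mem_univ _)
  have h6 : ∀ u, (fun j : Fin n => a u j) ∈ cov b := by
    intro u
    apply hb
    rw [Metric.mem_ball, dist_pi_lt_iff hδ]
    intro j
    have h7 := ha j u (fun _ => 0)
    simp only [j.2, if_true] at h7
    have h8 : dist (u j) (0 : I) ≤ 1 := by
      rw [Subtype.dist_eq, Real.dist_eq]
      have h0 := (u j).2.1
      have h1 := (u j).2.2
      simp only [Set.Icc.coe_zero, sub_zero]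
      rw [abs_of_nonneg h0]
      exact h1
    calc dist (a u j) (a (fun _ => 0) j) ≤ (1 / 2 : ℝ) ^ m * dist (u j) (0 : I) := h7
      _ ≤ (1 / 2 : ℝ) ^ m * 1 := mul_le_mul_of_nonneg_left h8 (by positivity)
      _ < δ := by rw [mul_one]; exact hmδ
  have h9 : ∀ u, (σ.comp a) u = g (fun j : Fin n => a u j) := by
    intro u
    refine (isCube_nat.mp hσ) _ _ fun j hj => ?_
    simp [extZ, hj]
  refine ⟨h5.1, h5.2, b.1, b.2, fun u => ?_⟩
  rw [h9]
  exact h6 u

theorem eventually_small {S : CS X} {𝒱 : Set (Set X)} (hV : ∀ V ∈ 𝒱, IsOpen V) {n : ℕ}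
    {c : Ch R X} (hc : c ∈ Finsupp.supported R R {σ : C(Cb, X) | IsCube (n : ℤ) σ ∧ S.ok σ ∧
      ∀ u, ∃ V ∈ 𝒱, σ u ∈ V}) :
    ∃ m0 : ℕ, ∀ m ≥ m0, (F R X n ^ m) c ∈
      Finsupp.supported R R {τ : C(Cb, X) | IsCube (n : ℤ) τ ∧ S.ok τ ∧
        ∃ V ∈ 𝒱, ∀ u, τ u ∈ V} := by
  rw [Finsupp.supported_eq_span_single] at hc
  induction hc using Submodule.span_induction with
  | mem x hx =>
    obtain ⟨σ, ⟨hσ, hok, hcov⟩, rfl⟩ := hx
    exact single_small hV hσ hok hcov 1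
  | zero => exact ⟨0, fun m _ => by rw [map_zero]; exact Submodule.zero_mem _⟩
  | add x y _ _ hx hy =>
    obtain ⟨m1, h1⟩ := hx
    obtain ⟨m2, h2⟩ := hy
    refine ⟨max m1 m2, fun m hm => ?_⟩
    rw [map_add]
    exact Submodule.add_mem _ (h1 m (le_trans (le_max_left _ _) hm))
      (h2 m (le_trans (le_max_right _ _) hm))
  | smul r x _ hx =>
    obtain ⟨m1, h1⟩ := hx
    refine ⟨m1, fun m hm => ?_⟩
    rw [map_smul]
    exact Submodule.smul_mem _ _ (h1 m hm)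

theorem C_of_neg {k : ℤ} (hk : k < 0) {c : Ch R X} (hc : c ∈ S.C R k) : c = 0 := by
  unfold CS.C at hc
  have : {σ : C(Cb, X) | IsCube k σ ∧ S.ok σ} = ∅ := by
    ext σ
    simp only [Set.mem_ofPred_eq, Set.mem_empty_iff_false, iff_false]
    rintro ⟨⟨h, -⟩, -⟩
    omega
  rw [this, Finsupp.supported_empty] at hc
  exact (Submodule.mem_bot R).mp hc

/-- The boundary preserves the chains. -/
theorem bd_C {n : ℕ} {c : Ch R X} (hc : c ∈ S.C R ((n + 1 : ℕ) : ℤ)) :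
    bd ((n + 1 : ℕ) : ℤ) c ∈ S.C R (n : ℤ) := by
  have hface : ∀ (i : ℕ) (e : I), i < n + 1 → face i e c ∈ S.C R (n : ℤ) := by
    intro i e hi
    refine mem_supported_mapDomain (ins i e) ?_ hc
    rintro σ ⟨hσ, hok⟩
    refine ⟨?_, S.ok_comp _ _ hok⟩
    rw [isCube_nat] at hσ ⊢
    intro u v huv
    refine hσ _ _ fun j hj => ?_
    rw [ins_apply, ins_apply]
    by_cases h1 : j < i
    · rw [if_pos h1, if_pos h1, huv j (by omega)]
    · by_cases h2 : j = i
      · rw [if_neg h1, if_neg h1, if_pos h2, if_pos h2]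
      · rw [if_neg h1, if_neg h1, if_neg h2, if_neg h2, huv (j - 1) (by omega)]
  unfold bd
  rw [LinearMap.sum_apply]
  refine Submodule.sum_mem _ fun i hi => ?_
  have hi' : i < n + 1 := by
    have := Finset.mem_range.mp hi
    simpa using this
  rw [LinearMap.smul_apply, LinearMap.sub_apply]
  exact Submodule.smul_mem _ _ (Submodule.sub_mem _ (hface i 1 hi') (hface i 0 hi'))

end U2A

theorem U2A.small_C {S : CS X} {R : Type} [CommRing R] {𝒱 : Set (Set X)} (hV : ∀ V ∈ 𝒱, IsOpen V)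
    (hcov : ∀ σ, S.ok σ → ∀ u, ∃ V ∈ 𝒱, σ u ∈ V) {n : ℕ} {c : Ch R X}
    (hc : c ∈ S.C R (n : ℤ)) :
    ∃ m0 : ℕ, ∀ m ≥ m0, (U2A.F R X n ^ m) c ∈ (S.small 𝒱).C R (n : ℤ) := by
  have h1 : c ∈ Finsupp.supported R R {σ : C(Cb, X) | IsCube (n : ℤ) σ ∧ S.ok σ ∧
      ∀ u, ∃ V ∈ 𝒱, σ u ∈ V} := by
    refine Finsupp.supported_mono ?_ hc
    intro σ h
    exact ⟨h.1, h.2, hcov σ h.2⟩
  obtain ⟨m0, h⟩ := U2A.eventually_small (S := S) hV h1
  refine ⟨m0, fun m hm => ?_⟩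
  refine Finsupp.supported_mono ?_ (h m hm)
  intro σ h'
  exact ⟨h'.1, h'.2⟩

theorem U2A.mem_Q_small {S : CS X} {R : Type} [CommRing R] {𝒱 : Set (Set X)} {k : ℤ} {c : Ch R X}
    (h1 : c ∈ (S.small 𝒱).C R k) (h2 : c ∈ S.Q R k) : c ∈ (S.small 𝒱).Q R k := by
  unfold CS.C at h1
  unfold CS.Q at h2 ⊢
  rw [Finsupp.mem_supported] at h1 h2 ⊢
  intro τ hτ
  exact ⟨(h1 hτ).1, (h1 hτ).2, (h2 hτ).2.2⟩

/-- Subdivided zero chains. -/
theorem U2A.kill_Q {S : CS X} {R : Type} [CommRing R] {𝒱 : Set (Set X)} (hV : ∀ V ∈ 𝒱, IsOpen V)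
    {n : ℕ} {c : Ch R X} (hc : c ∈ (S.kill {⋃₀ 𝒱}).Q R (n : ℤ)) :
    ∃ m0 : ℕ, ∀ m ≥ m0, (U2A.F R X n ^ m) c ∈ (S.kill 𝒱).Q R (n : ℤ) := by
  unfold CS.Q at hc
  rw [Finsupp.supported_eq_span_single] at hc
  induction hc using Submodule.span_induction with
  | mem x hx =>
    obtain ⟨σ, ⟨hσ, hok, h⟩, rfl⟩ := hx
    have key : ((S.kill 𝒱).nul σ ∨ Degen (n : ℤ) σ) → ∃ m0 : ℕ, ∀ m ≥ m0,
        (U2A.F R X n ^ m) (Finsupp.single σ 1) ∈ (S.kill 𝒱).Q R (n : ℤ) := fun h' =>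
      ⟨0, fun m _ => ((U2A.pres_F (S := S.kill 𝒱) (R := R) (m := n) (n := n)).pow m).2 _
        (Finsupp.single_mem_supported R 1 ⟨hσ, hok, h'⟩)⟩
    rcases h with (h | ⟨U, hU, h⟩) | h
    · exact key (Or.inl (Or.inl h))
    · rw [Set.mem_singleton_iff] at hU
      subst hU
      obtain ⟨m0, h0⟩ := U2A.single_small (S := S) (R := R) hV hσ hok
        (fun u => by
          obtain ⟨V, hV1, hV2⟩ := h u
          exact ⟨V, hV1, hV2⟩) 1
      refine ⟨m0, fun m hm => ?_⟩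
      refine Finsupp.supported_mono ?_ (h0 m hm)
      intro τ h'
      exact ⟨h'.1, h'.2.1, Or.inl (Or.inr h'.2.2)⟩
    · exact key (Or.inr h)
  | zero => exact ⟨0, fun m _ => by rw [map_zero]; exact Submodule.zero_mem _⟩
  | add x y _ _ hx hy =>
    obtain ⟨m1, h1⟩ := hx
    obtain ⟨m2, h2⟩ := hy
    refine ⟨max m1 m2, fun m hm => ?_⟩
    rw [map_add]
    exact Submodule.add_mem _ (h1 m (le_trans (le_max_left _ _) hm))
      (h2 m (le_trans (le_max_right _ _) hm))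
  | smul r x _ hx =>
    obtain ⟨m1, h1⟩ := hx
    refine ⟨m1, fun m hm => ?_⟩
    rw [map_smul]
    exact Submodule.smul_mem _ _ (h1 m hm)

section small

variable {R : Type} [CommRing R] (S : CS X) {𝒱 : Set (Set X)} (hV : ∀ V ∈ 𝒱, IsOpen V)

include hV

/-- Small cubes for a system, surjectivity. -/
theorem CS.small_cycle (hcov : ∀ σ, S.ok σ → ∀ u, ∃ V ∈ 𝒱, σ u ∈ V) {k : ℤ} {c : Ch R X}
    (hc : c ∈ S.Z R k) : ∃ c' ∈ (S.small 𝒱).Z R k, S.Bd R k (c - c') := by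
  rcases lt_or_ge k 0 with hk | hk
  · rw [U2A.C_of_neg hk hc.1]
    refine ⟨0, Submodule.zero_mem _, 0, Submodule.zero_mem _, ?_⟩
    rw [map_zero, sub_zero, sub_zero]
    exact Submodule.zero_mem _
  · obtain ⟨n, rfl⟩ := Int.eq_ofNat_of_zero_le hk
    obtain ⟨m, hm⟩ := U2A.small_C hV hcov hc.1
    obtain ⟨h1, b, hb, h2⟩ := U2A.iter hc m
    have h3 := hm m le_rfl
    refine ⟨_, ⟨h3, ?_⟩, b, hb, h2⟩
    rw [SetLike.mem_coe, Submodule.mem_comap]
    have h4 : bd (n : ℤ) ((U2A.F R X n ^ m) c) ∈ S.Q R ((n : ℤ) - 1) := h1.2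
    cases n with
    | zero =>
      have : bd ((0 : ℕ) : ℤ) ((U2A.F R X 0 ^ m) c) = 0 := by
        unfold bd
        simp
      rw [this]
      exact Submodule.zero_mem _
    | succ n =>
      have e1 : (((n + 1 : ℕ) : ℤ) - 1) = (n : ℤ) := by push_cast; ring
      rw [e1] at h4 ⊢
      exact U2A.mem_Q_small (U2A.bd_C h3) h4

/-- Small cubes for a system, injectivity. -/
theorem CS.small_bd (hcov : ∀ σ, S.ok σ → ∀ u, ∃ V ∈ 𝒱, σ u ∈ V) {k : ℤ} {c : Ch R X}
    (hc : c ∈ (S.small 𝒱).Z R k) (h : S.Bd R k c) : (S.small 𝒱).Bd R k c := by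
  rcases lt_or_ge k 0 with hk | hk
  · rw [U2A.C_of_neg hk hc.1]
    refine ⟨0, Submodule.zero_mem _, ?_⟩
    rw [map_zero, sub_zero]
    exact Submodule.zero_mem _
  · obtain ⟨n, rfl⟩ := Int.eq_ofNat_of_zero_le hk
    obtain ⟨b, hb, hq⟩ := h
    have e1 : ((n : ℤ) + 1) = ((n + 1 : ℕ) : ℤ) := by push_cast; ring
    have hb' : b ∈ S.C R ((n + 1 : ℕ) : ℤ) := by rwa [← e1]
    obtain ⟨m1, hm1⟩ := U2A.small_C hV hcov hb'
    obtain ⟨m2, hm2⟩ := U2A.small_C hV hcov (U2A.Q_le_C hq)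
    set m := max m1 m2 with hm
    have g1 := hm1 m (le_max_left _ _)
    have g2 := hm2 m (le_max_right _ _)
    have g3 : (U2A.F R X n ^ m) (c - bd ((n : ℤ) + 1) b) ∈ (S.small 𝒱).Q R (n : ℤ) :=
      U2A.mem_Q_small g2 ((U2A.pres_F.pow m).2 _ hq)
    obtain ⟨-, b', hb2, h2⟩ := U2A.iter hc m
    refine ⟨b' + (U2A.F R X (n + 1) ^ m) b, Submodule.add_mem _ hb2 (by rw [e1]; exact g1), ?_⟩
    have e3 : c - bd ((n : ℤ) + 1) (b' + (U2A.F R X (n + 1) ^ m) b) =
        (c - (U2A.F R X n ^ m) c - bd ((n : ℤ) + 1) b') +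
          (U2A.F R X n ^ m) (c - bd ((n : ℤ) + 1) b) := by
      rw [map_add, map_sub, e1, U2A.bd_Fpow]
      abel
    rw [e3]
    exact Submodule.add_mem _ h2 g3

/-- Everything relative to the small cubes bounds. -/
theorem CS.kill_all (hcov : ∀ σ, S.ok σ → ∀ u, ∃ V ∈ 𝒱, σ u ∈ V) (k : ℤ) :
    (S.kill 𝒱).Hz R k := by
  intro c hc
  rcases lt_or_ge k 0 with hk | hk
  · rw [U2A.C_of_neg hk hc.1]
    refine ⟨0, Submodule.zero_mem _, ?_⟩
    rw [map_zero, sub_zero]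
    exact Submodule.zero_mem _
  · obtain ⟨n, rfl⟩ := Int.eq_ofNat_of_zero_le hk
    have hc' : c ∈ S.C R (n : ℤ) := hc.1
    obtain ⟨m, hm⟩ := U2A.small_C hV hcov hc'
    have h3 := hm m le_rfl
    obtain ⟨-, b, hb, h2⟩ := U2A.iter hc m
    refine ⟨b, hb, ?_⟩
    have h4 : (U2A.F R X n ^ m) c ∈ (S.kill 𝒱).Q R (n : ℤ) := by
      refine Finsupp.supported_mono ?_ h3
      intro τ h'
      exact ⟨h'.1, h'.2.1, Or.inl (Or.inr h'.2.2)⟩
    have e3 : c - bd ((n : ℤ) + 1) b =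
        (c - (U2A.F R X n ^ m) c - bd ((n : ℤ) + 1) b) + (U2A.F R X n ^ m) c := by abel
    rw [e3]
    exact Submodule.add_mem _ h2 h4

/-- A union of open sets or each of them: the same relative homology (surjectivity). -/
theorem CS.kill_union {k : ℤ} {c : Ch R X} (hc : c ∈ (S.kill {⋃₀ 𝒱}).Z R k) :
    ∃ c' ∈ (S.kill 𝒱).Z R k, (S.kill {⋃₀ 𝒱}).Bd R k (c - c') := by
  rcases lt_or_ge k 0 with hk | hk
  · rw [U2A.C_of_neg hk hc.1]
    refine ⟨0, Submodule.zero_mem _, 0, Submodule.zero_mem _, ?_⟩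
    rw [map_zero, sub_zero, sub_zero]
    exact Submodule.zero_mem _
  · obtain ⟨n, rfl⟩ := Int.eq_ofNat_of_zero_le hk
    cases n with
    | zero =>
      refine ⟨c, ⟨hc.1, ?_⟩, 0, Submodule.zero_mem _, ?_⟩
      · rw [SetLike.mem_coe, Submodule.mem_comap]
        have : bd ((0 : ℕ) : ℤ) c = 0 := by
          unfold bd
          simp
        rw [this]
        exact Submodule.zero_mem _
      · rw [map_zero, sub_zero, sub_self]
        exact Submodule.zero_mem _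
    | succ n =>
      have e1 : (((n + 1 : ℕ) : ℤ) - 1) = (n : ℤ) := by push_cast; ring
      have h4 : bd ((n + 1 : ℕ) : ℤ) c ∈ (S.kill {⋃₀ 𝒱}).Q R (n : ℤ) := by
        have := hc.2
        rw [SetLike.mem_coe, Submodule.mem_comap, e1] at this
        exact this
      obtain ⟨m, hm⟩ := U2A.kill_Q hV h4
      obtain ⟨h1, b, hb, h2⟩ := U2A.iter hc m
      refine ⟨_, ⟨h1.1, ?_⟩, b, hb, h2⟩
      rw [SetLike.mem_coe, Submodule.mem_comap, U2A.bd_Fpow, e1]
      exact hm m le_rfl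

/-- A union of open sets or each of them: the same relative homology (injectivity). -/
theorem CS.kill_union_bd {k : ℤ} {c : Ch R X} (hc : c ∈ (S.kill 𝒱).Z R k)
    (h : (S.kill {⋃₀ 𝒱}).Bd R k c) : (S.kill 𝒱).Bd R k c := by
  rcases lt_or_ge k 0 with hk | hk
  · rw [U2A.C_of_neg hk hc.1]
    refine ⟨0, Submodule.zero_mem _, ?_⟩
    rw [map_zero, sub_zero]
    exact Submodule.zero_mem _
  · obtain ⟨n, rfl⟩ := Int.eq_ofNat_of_zero_le hk
    obtain ⟨b, hb, hq⟩ := h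
    have e1 : ((n : ℤ) + 1) = ((n + 1 : ℕ) : ℤ) := by push_cast; ring
    have hb' : b ∈ (S.kill 𝒱).C R ((n + 1 : ℕ) : ℤ) := by rw [← e1]; exact hb
    obtain ⟨m, hm⟩ := U2A.kill_Q hV hq
    have g3 := hm m le_rfl
    obtain ⟨-, b', hb2, h2⟩ := U2A.iter hc m
    refine ⟨b' + (U2A.F R X (n + 1) ^ m) b, Submodule.add_mem _ hb2
      (by rw [e1]; exact (U2A.pres_F.pow m).1 _ hb'), ?_⟩
    have e3 : c - bd ((n : ℤ) + 1) (b' + (U2A.F R X (n + 1) ^ m) b) =
        (c - (U2A.F R X n ^ m) c - bd ((n : ℤ) + 1) b') +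
          (U2A.F R X n ^ m) (c - bd ((n : ℤ) + 1) b) := by
      rw [map_add, map_sub, e1, U2A.bd_Fpow]
      abel
    rw [e3]
    exact Submodule.add_mem _ h2 g3

end small


/-- A map which respects the systems. -/
def CS.Maps (S : CS X) (T : CS Y) (f : C(X, Y)) : Prop :=
  (∀ σ, S.ok σ → T.ok (f.comp σ)) ∧ ∀ σ, S.ok σ → S.nul σ → T.nul (f.comp σ)

/-! Auxiliary lemmas on systems. -/

namespace U3Aux

variable {R : Type} [CommRing R]

theorem mem_C_single (S : CS X) {k : ℤ} {σ : C(Cb, X)} (h1 : IsCube k σ) (h2 : S.ok σ) (r : R) :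
    Finsupp.single σ r ∈ S.C R k :=
  single_mem_supported (S := {σ | IsCube k σ ∧ S.ok σ}) ⟨h1, h2⟩ r

theorem mem_Q_single (S : CS X) {k : ℤ} {σ : C(Cb, X)} (h1 : IsCube k σ) (h2 : S.ok σ)
    (h3 : S.nul σ ∨ Degen k σ) (r : R) : Finsupp.single σ r ∈ S.Q R k :=
  single_mem_supported (S := {σ | IsCube k σ ∧ S.ok σ ∧ (S.nul σ ∨ Degen k σ)}) ⟨h1, h2, h3⟩ r

theorem C_le_univ (S : CS X) {k : ℤ} {c : Ch R X} (hc : c ∈ S.C R k) :
    c ∈ CubeHom.C R k Set.univ :=
  Finsupp.supported_mono (s := {σ : C(Cb, X) | IsCube k σ ∧ S.ok σ})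
    (t := {σ : C(Cb, X) | IsCube k σ ∧ ∀ u, σ u ∈ (Set.univ : Set X)})
    (fun _ h => ⟨h.1, fun _ => Set.mem_univ _⟩) hc

theorem push_mem_C {S : CS X} {T : CS Y} {f : C(X, Y)} (hf : S.Maps T f) {k : ℤ} {c : Ch R X}
    (hc : c ∈ S.C R k) : push f c ∈ T.C R k := by
  refine map_mem_of_supported (push f) _ (fun σ hσ => ?_) hc
  rw [push_single]
  exact mem_C_single T (hσ.1.comp f) (hf.1 σ hσ.2) _

theorem push_mem_Q {S : CS X} {T : CS Y} {f : C(X, Y)} (hf : S.Maps T f) {k : ℤ} {c : Ch R X}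
    (hc : c ∈ S.Q R k) : push f c ∈ T.Q R k := by
  refine map_mem_of_supported (push f) _ (fun σ hσ => ?_) hc
  rw [push_single]
  exact mem_Q_single T (hσ.1.comp f) (hf.1 σ hσ.2.1)
    (hσ.2.2.imp (fun h => hf.2 σ hσ.2.1 h) fun h => h.comp f) _

theorem Bd_add (S : CS X) {k : ℤ} {c c' : Ch R X} (h : S.Bd R k c) (h' : S.Bd R k c') :
    S.Bd R k (c + c') := by
  obtain ⟨b, hb, h⟩ := h
  obtain ⟨b', hb', h'⟩ := h'
  refine ⟨b + b', Submodule.add_mem _ hb hb', ?_⟩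
  rw [map_add, add_sub_add_comm]
  exact Submodule.add_mem _ h h'

end U3Aux

section maps

variable {R : Type} [CommRing R] {S : CS X} {T : CS Y} {f : C(X, Y)} (hf : S.Maps T f)

include hf

theorem CS.Maps.push_mem {k : ℤ} {c : Ch R X} (hc : c ∈ S.Z R k) : push f c ∈ T.Z R k := by
  refine ⟨U3Aux.push_mem_C hf hc.1, ?_⟩
  change bd k (push f c) ∈ T.Q R (k - 1)
  rw [bd_push]
  exact U3Aux.push_mem_Q hf hc.2

theorem CS.Maps.push_bd {k : ℤ} {c : Ch R X} (hc : S.Bd R k c) : T.Bd R k (push f c) := by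
  obtain ⟨b, hb, h⟩ := hc
  refine ⟨push f b, U3Aux.push_mem_C hf hb, ?_⟩
  rw [bd_push, ← map_sub]
  exact U3Aux.push_mem_Q hf h

theorem CS.Maps.coc {A : Type} [AddCommGroup A] {k : ℕ} {u : C(Cb, Y) → A} (hu : T.Coc k u) :
    S.Coc k (pb f u) := by
  refine ⟨fun σ h1 h2 h3 => ?_, fun σ h1 h2 => ?_⟩
  · exact hu.1 (f.comp σ) (h1.comp f) (hf.1 σ h2) (h3.imp (fun h => hf.2 σ h2 h) fun h => h.comp f)
  · exact hu.2 (f.comp σ) (h1.comp f) (hf.1 σ h2)

theorem CS.Maps.cob {A : Type} [AddCommGroup A] {k : ℕ} {u : C(Cb, Y) → A} (hu : T.Cob k u) :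
    S.Cob k (pb f u) := by
  obtain ⟨v, hv, h⟩ := hu
  refine ⟨pb f v, fun σ h1 h2 h3 => ?_, fun σ h1 h2 => ?_⟩
  · exact hv (f.comp σ) (h1.comp f) (hf.1 σ h2) (h3.imp (fun h => hf.2 σ h2 h) fun h => h.comp f)
  · exact h (f.comp σ) (h1.comp f) (hf.1 σ h2)

end maps

/-- The cylinder over a system. -/
def CS.cyl (S : CS X) : CS (I × X) :=
  ⟨fun σ => S.ok (ContinuousMap.snd.comp σ), fun σ => S.nul (ContinuousMap.snd.comp σ),
    fun _ f h => S.ok_comp _ f h, fun _ f h => S.nul_comp _ f h⟩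

/-- Homotopies which respect the systems. -/
theorem CS.cyl_bd {R : Type} [CommRing R] (S : CS X) {k : ℤ} {c : Ch R X} (hc : c ∈ S.Z R k) :
    S.cyl.Bd R k (push (atTime (ContinuousMap.id (I × X)) 1) c -
      push (atTime (ContinuousMap.id (I × X)) 0) c) := by
  have hi : IsCube ((1 : ℕ) : ℤ) iota := by exact_mod_cast iota_isCube
  have hC : ∀ {j : ℤ} {c : Ch R X}, c ∈ S.C R j →
      prism (ContinuousMap.id (I × X)) c ∈ S.cyl.C R (j + 1) := by
    intro j c hc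
    refine map_mem_of_supported (prism (ContinuousMap.id (I × X))) _ (fun σ hσ => ?_) hc
    rw [prism_single]
    have h1 : IsCube (j + 1) (crossCube 1 iota σ) := by
      have := isCube_cross (n := 1) hi hσ.1
      rwa [Nat.cast_one, add_comm] at this
    exact U3Aux.mem_C_single S.cyl (h1.comp (ContinuousMap.id (I × X))) (S.ok_comp σ (drop 1) hσ.2) _
  have hQ : ∀ {j : ℤ} {c : Ch R X}, c ∈ S.Q R j →
      prism (ContinuousMap.id (I × X)) c ∈ S.cyl.Q R (j + 1) := by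
    intro j c hc
    refine map_mem_of_supported (prism (ContinuousMap.id (I × X))) _ (fun σ hσ => ?_) hc
    rw [prism_single]
    have h1 : IsCube (j + 1) (crossCube 1 iota σ) := by
      have := isCube_cross (n := 1) hi hσ.1
      rwa [Nat.cast_one, add_comm] at this
    refine U3Aux.mem_Q_single S.cyl (h1.comp (ContinuousMap.id (I × X))) (S.ok_comp σ (drop 1) hσ.2.1) ?_ _
    rcases hσ.2.2 with h | h
    · exact Or.inl (S.nul_comp σ (drop 1) h)
    · refine Or.inr (Degen.comp ?_ _)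
      have := degen_cross_right (n := 1) hi h
      rwa [Nat.cast_one, add_comm] at this
  refine ⟨prism (ContinuousMap.id (I × X)) c, hC hc.1, ?_⟩
  rw [bd_prism (U3Aux.C_le_univ S hc.1), sub_sub_cancel]
  have h := hQ hc.2
  rwa [sub_add_cancel] at h

/-- Homotopies which respect the systems, general form. -/
private theorem homotopy_bd {R : Type} [CommRing R] {S : CS X} {T : CS Y} {H : C(I × X, Y)}
    (hH : S.cyl.Maps T H) {k : ℤ} {c : Ch R X} (hc : c ∈ S.Z R k) :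
    T.Bd R k (push (atTime H 1) c - push (atTime H 0) c) := by
  have h := hH.push_bd (S.cyl_bd hc)
  rw [map_sub, push_push, push_push] at h
  exact h

/-- The contraction of the cylinder to its bottom. -/
private def contr (X : Type) [TopologicalSpace X] : C(I × (I × X), I × X) where
  toFun p := (p.1 * p.2.1, p.2.2)
  continuous_toFun := by fun_prop

private theorem cyl_maps_snd (S : CS X) : S.cyl.Maps S (ContinuousMap.snd : C(I × X, X)) :=
  ⟨fun _ h => h, fun _ _ h => h⟩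

private theorem cyl_maps_atTime (S : CS X) (t : I) :
    S.Maps S.cyl (atTime (ContinuousMap.id (I × X)) t) :=
  ⟨fun _ h => h, fun _ _ h => h⟩

/-- The cylinder has the same homology. -/
theorem CS.cyl_surj {R : Type} [CommRing R] (S : CS X) {k : ℤ} {w : Ch R (I × X)}
    (hw : w ∈ S.cyl.Z R k) :
    S.cyl.Bd R k (w - push (atTime (ContinuousMap.id (I × X)) 0)
      (push (ContinuousMap.snd : C(I × X, X)) w)) := by
  have hm : S.cyl.cyl.Maps S.cyl (contr X) := ⟨fun _ h => h, fun _ _ h => h⟩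
  have h := homotopy_bd hm hw
  have h1 : atTime (contr X) 1 = ContinuousMap.id (I × X) := by
    ext p
    · change ((1 * p.1 : I) : ℝ) = (p.1 : ℝ)
      rw [one_mul]
    · rfl
  have h0 : atTime (contr X) 0 =
      (atTime (ContinuousMap.id (I × X)) 0).comp (ContinuousMap.snd : C(I × X, X)) := by
    ext p
    · change ((0 * p.1 : I) : ℝ) = ((0 : I) : ℝ)
      rw [zero_mul]
    · rfl
  rw [h1, h0, push_id, ← push_push] at h
  exact h

theorem CS.cyl_hz {R : Type} [CommRing R] {S : CS X} {k : ℤ} (h : S.Hz R k) :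
    S.cyl.Hz R k := by
  intro w hw
  have h1 := S.cyl_surj hw
  have h2 := h _ ((cyl_maps_snd S).push_mem hw)
  have h3 := (cyl_maps_atTime S 0).push_bd h2
  have h4 := U3Aux.Bd_add S.cyl h1 h3
  rwa [sub_add_cancel] at h4

end Pool.Agent.TC
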