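import Pool.Agent.Lib.TC.Defs
import Pool.Agent.Lib.TC.Uct
import Pool.Agent.Lib.TC.EZ
import Pool.Agent.Lib.TC.SuspH
import Pool.Agent.Lib.MP_cb6a70_gt_HB.Susp

/-!
# Section 10.1: the suspension, definitions
-/

namespace Pool.Agent.TC

open CubeHom

/-- A model of the unreduced suspension of `F`: `h` is the height, `dir` the direction. -/
structure SusM (F : Type) [TopologicalSpace F] where
  T : Type
  top : TopologicalSpace T
  q : C(I × F, T)
  h : C(T, I)
  dir : T → F
  p0 : T
  p1 : T
  h_q : ∀ t x, h (q (t, x)) = t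
  q0 : ∀ x, q (0, x) = p0
  q1 : ∀ x, q (1, x) = p1
  q_dir : ∀ τ, q (h τ, dir τ) = τ
  dir_q : ∀ t x, 0 < t → t < 1 → dir (q (t, x)) = x
  dir_cont : ContinuousOn dir {τ | 0 < h τ ∧ h τ < 1}

attribute [instance] SusM.top

/-- The closest point of the unit interval. -/
noncomputable def clm (r : ℝ) : I := Set.projIcc 0 1 zero_le_one r

theorem continuous_clm : Continuous clm := continuous_projIcc (h := zero_le_one)

section

variable {F : Type} [TopologicalSpace F] (SM : SusM F)

/-- The union of the neighbourhoods of the poles and of the meridians over `B`. -/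
def SusM.P (B : Set F) : Set SM.T :=
  {τ | (SM.h τ : ℝ) < 1 / 4 ∨ 3 / 4 < (SM.h τ : ℝ) ∨ SM.dir τ ∈ B}

/-- The cubes of the suspension relative to `P B`. -/
def SusM.sys (B : Set F) : CS SM.T := (CS.top SM.T).kill {SM.P B}

/-- The cubes of `F` relative to `B`. -/
def relB (B : Set F) : CS F := (CS.top F).kill {B}

/-- The path of length two: up over `x`, down over `y`, at the time `r ∈ [0, 2]`. -/
noncomputable def SusM.Γ : C(ℝ × (F × F), SM.T) where
  toFun p := if p.1 ≤ 1 then SM.q (clm p.1, p.2.1) else SM.q (clm (2 - p.1), p.2.2)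
  continuous_toFun := by
    refine Continuous.if_le ?_ ?_ continuous_fst continuous_const ?_
    · exact SM.q.continuous.comp ((continuous_clm.comp continuous_fst).prodMk (by fun_prop))
    · exact SM.q.continuous.comp ((continuous_clm.comp (by fun_prop)).prodMk (by fun_prop))
    · intro p hp
      have h1 : clm p.1 = 1 := by
        rw [hp]; exact Set.projIcc_of_right_le _ le_rfl
      have h2 : clm (2 - p.1) = 1 := by
        rw [hp]; exact Set.projIcc_of_right_le _ (by norm_num)
      rw [h1, h2, SM.q1, SM.q1]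

/-- The map `D`. -/
noncomputable def SusM.D : C(I × (F × F), SM.T) :=
  ⟨fun p => SM.Γ (2 * (p.1 : ℝ), p.2), by fun_prop⟩

/-- The map of the cube times `F × F` into the triple product which is given by three maps. -/
def SusM.asm (f : Fin 3 → C(I × (F × F), SM.T)) :
    C((Fin 3 → I) × (F × F), SM.T × (SM.T × SM.T)) :=
  ⟨fun p => (f 0 (p.1 0, p.2), (f 1 (p.1 1, p.2), f 2 (p.1 2, p.2))), by fun_prop⟩

/-- The system on the target. -/
def SusM.sysQ (B B' : Set F) : CS (SM.T × (SM.T × SM.T)) :=
  (SM.sys B).prod ((SM.sys B).prod (SM.sys B'))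

/-- The homotopy of triples. -/
def SusM.asmH (Ξ : Fin 3 → C(I × (I × (F × F)), SM.T)) :
    C(I × ((Fin 3 → I) × (F × F)), SM.T × (SM.T × SM.T)) :=
  ⟨fun p => (Ξ 0 (p.1, (p.2.1 0, p.2.2)), (Ξ 1 (p.1, (p.2.1 1, p.2.2)),
    Ξ 2 (p.1, (p.2.1 2, p.2.2)))), by fun_prop⟩

/-! ### Homology of the suspension -/

/-- The suspension of a chain. -/
noncomputable def SusM.su {R : Type} [CommRing R] (c : Ch R F) : Ch R SM.T :=
  push SM.q (cr 1 (Finsupp.single iota 1) c)

variable {R : Type} [CommRing R] {B : Set F}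

end

end Pool.Agent.TC
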