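import Pool.Agent.Lib.TC.SFD

/-!
# Rows SFa, SFc: proofs for SF.lean (compiled against the skeleton with primed names; aux in namespace SFAux)
-/

namespace Pool.Agent.TC

open CubeHom

namespace SFAux

/-- The model of the suspension. -/
def TT {E : Type} [NormedAddCommGroup E] [NormedSpace ℝ E] {F : Type} (e : F → E) : Type :=
  {p : I × E // ∃ x : F, p.2 = ((p.1 : ℝ) * (1 - (p.1 : ℝ))) • e x}

instance {E : Type} [NormedAddCommGroup E] [NormedSpace ℝ E] {F : Type} (e : F → E) :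
    TopologicalSpace (TT e) := instTopologicalSpaceSubtype

end SFAux

open SFAux

/-- Take `{(t, t (1 - t) e x)}` in `I × E`. -/
theorem exists_susM {E : Type} [NormedAddCommGroup E] [NormedSpace ℝ E] (F : Type)
    [TopologicalSpace F] [Nonempty F] (e : F → E) (he : Topology.IsEmbedding e) :
    Nonempty (SusM F) := by
  obtain ⟨x0⟩ := ‹Nonempty F›
  have hcont : Continuous e := he.continuous
  let q : C(I × F, TT e) :=
    ⟨fun p => ⟨(p.1, ((p.1 : ℝ) * (1 - (p.1 : ℝ))) • e p.2), p.2, rfl⟩, by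
      refine Continuous.subtype_mk ?_ _
      fun_prop⟩
  let h : C(TT e, I) := ⟨fun τ => τ.1.1, by
    exact continuous_fst.comp continuous_subtype_val⟩
  refine ⟨⟨TT e, inferInstance, q, h, fun τ => Classical.choose τ.2, ⟨(0, 0), x0, by simp⟩,
    ⟨(1, 0), x0, by simp⟩, fun _ _ => rfl, ?_, ?_, ?_, ?_, ?_⟩⟩
  · intro x
    refine Subtype.ext (Prod.ext rfl ?_)
    change (((0 : I) : ℝ) * (1 - ((0 : I) : ℝ))) • e x = 0
    simp
  · intro x
    refine Subtype.ext (Prod.ext rfl ?_)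
    change (((1 : I) : ℝ) * (1 - ((1 : I) : ℝ))) • e x = 0
    simp
  · intro τ
    exact Subtype.ext (Prod.ext rfl (Classical.choose_spec τ.2).symm)
  · intro t x h0 h1
    have h2 := Classical.choose_spec (q (t, x)).2
    change ((t : ℝ) * (1 - (t : ℝ))) • e x = ((t : ℝ) * (1 - (t : ℝ))) • e _ at h2
    have h0' : (0 : ℝ) < t := h0
    have h1' : (t : ℝ) < 1 := h1
    have h3 : (t : ℝ) * (1 - (t : ℝ)) ≠ 0 := by
      have : (0 : ℝ) < 1 - t := by linarith
      positivity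
    exact (he.injective (smul_right_injective E h3 h2)).symm
  · rw [he.isInducing.continuousOn_iff]
    have h1 : Set.EqOn (e ∘ fun τ : TT e => Classical.choose τ.2)
        (fun τ : TT e => ((h τ : ℝ) * (1 - (h τ : ℝ)))⁻¹ • τ.1.2)
        {τ | 0 < h τ ∧ h τ < 1} := by
      rintro τ ⟨h0, h1⟩
      have h0' : (0 : ℝ) < h τ := h0
      have h1' : (h τ : ℝ) < 1 := h1
      have h3 : (h τ : ℝ) * (1 - (h τ : ℝ)) ≠ 0 := by
        have : (0 : ℝ) < 1 - h τ := by linarith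
        positivity
      have h4 := Classical.choose_spec τ.2
      change e (Classical.choose τ.2) = ((h τ : ℝ) * (1 - (h τ : ℝ)))⁻¹ • τ.1.2
      rw [eq_inv_smul_iff₀ h3]
      exact h4.symm
    refine ContinuousOn.congr ?_ h1
    refine ContinuousOn.smul (ContinuousOn.inv₀ ?_ ?_) ?_
    · have : Continuous fun τ : TT e => (h τ : ℝ) * (1 - (h τ : ℝ)) := by fun_prop
      exact this.continuousOn
    · rintro τ ⟨h0, h1⟩
      have h0' : (0 : ℝ) < h τ := h0
      have h1' : (h τ : ℝ) < 1 := h1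
      have : (0 : ℝ) < 1 - h τ := by linarith
      positivity
    · exact (continuous_snd.comp continuous_subtype_val).continuousOn

section

variable {F : Type} [TopologicalSpace F] (SM : SusM F)

theorem SusM.isOpen_P {B : Set F} (hB : IsOpen B) : IsOpen (SM.P B) := by
  have h0 : IsOpen {τ : SM.T | 0 < SM.h τ ∧ SM.h τ < 1} := by
    have h1 : IsOpen (Set.Ioo (0 : I) 1) := isOpen_Ioo
    exact h1.preimage SM.h.continuous
  have h1 : SM.P B = ({τ | (SM.h τ : ℝ) < 1 / 4} ∪ {τ | 3 / 4 < (SM.h τ : ℝ)}) ∪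
      ({τ | 0 < SM.h τ ∧ SM.h τ < 1} ∩ SM.dir ⁻¹' B) := by
    ext τ
    constructor
    · rintro (h | h | h)
      · exact Or.inl (Or.inl h)
      · exact Or.inl (Or.inr h)
      · by_cases h2 : (SM.h τ : ℝ) < 1 / 4
        · exact Or.inl (Or.inl h2)
        · by_cases h3 : 3 / 4 < (SM.h τ : ℝ)
          · exact Or.inl (Or.inr h3)
          · refine Or.inr ⟨⟨?_, ?_⟩, h⟩
            · have : (0 : ℝ) < SM.h τ := by linarith
              exact this
            · have : (SM.h τ : ℝ) < 1 := by linarith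
              exact this
    · rintro ((h | h) | h)
      · exact Or.inl h
      · exact Or.inr (Or.inl h)
      · exact Or.inr (Or.inr h.2)
  rw [h1]
  have hc : Continuous fun τ => (SM.h τ : ℝ) := by fun_prop
  refine ((isOpen_lt hc continuous_const).union (isOpen_lt continuous_const hc)).union ?_
  exact SM.dir_cont.isOpen_inter_preimage h0 hB

theorem SFAux.p0_mem (x : F) (B : Set F) : SM.p0 ∈ SM.P B := by
  have h1 : SM.h SM.p0 = 0 := by rw [← SM.q0 x, SM.h_q]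
  refine Or.inl ?_
  rw [h1]
  norm_num

theorem SFAux.nul_of (B B' : Set F) {σ : C(Cb, SM.T × (SM.T × SM.T))}
    (h : (∀ u, (σ u).1 ∈ SM.P B) ∨ (∀ u, (σ u).2.1 ∈ SM.P B) ∨ (∀ u, (σ u).2.2 ∈ SM.P B')) :
    (SM.sysQ B B').nul σ := by
  rcases h with h | h | h
  · exact Or.inl (Or.inr ⟨_, rfl, h⟩)
  · exact Or.inr (Or.inl (Or.inr ⟨_, rfl, h⟩))
  · exact Or.inr (Or.inr (Or.inr ⟨_, rfl, h⟩))

theorem SusM.asmH_maps (Ξ : Fin 3 → C(I × (I × (F × F)), SM.T)) (B B' : Set F)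
    (h : ∀ i s q, Ξ i (s, (0, q)) = SM.p0 ∧ Ξ i (s, (1, q)) = SM.p0) :
    (CS.faces 3 (F × F)).cyl.Maps (SM.sysQ B B') (SM.asmH Ξ) := by
  refine ⟨fun _ _ => ⟨trivial, trivial, trivial⟩, ?_⟩
  rintro σ - ⟨i, hi⟩
  have key : ∀ u (B : Set F), Ξ i ((σ u).1, ((σ u).2.1 i, (σ u).2.2)) ∈ SM.P B := by
    intro u B
    have h1 : Ξ i ((σ u).1, ((σ u).2.1 i, (σ u).2.2)) = SM.p0 := by
      rcases hi with hi | hi
      · have h2 : (σ u).2.1 i = 0 := hi u
        rw [h2]
        exact (h i _ _).1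
      · have h2 : (σ u).2.1 i = 1 := hi u
        rw [h2]
        exact (h i _ _).2
    rw [h1]
    exact SFAux.p0_mem SM (σ u).2.2.1 B
  refine SFAux.nul_of SM B B' ?_
  fin_cases i
  · exact Or.inl fun u => key u B
  · exact Or.inr (Or.inl fun u => key u B)
  · exact Or.inr (Or.inr fun u => key u B')

/-- At time one: an open cover such that small cubes go to zero cubes. -/
theorem SusM.asm_null (Ξ : Fin 3 → C(I × (I × (F × F)), SM.T)) (B B' : Set F)
    (h : ∀ q, ∃ i, ∀ t, Ξ i (1, (t, q)) = SM.p0) :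
    ∃ 𝒱 : Set (Set ((Fin 3 → I) × (F × F))), (∀ V ∈ 𝒱, IsOpen V) ∧ ⋃₀ 𝒱 = Set.univ ∧
      ∀ V ∈ 𝒱, ∀ σ : C(Cb, (Fin 3 → I) × (F × F)), (∀ u, σ u ∈ V) →
        (SM.sysQ B B').nul ((atTime (SM.asmH Ξ) 1).comp σ) := by
  let VV : Fin 3 → Set ((Fin 3 → I) × (F × F)) := fun i =>
    {p | (SM.h (Ξ i (1, (p.1 i, p.2))) : ℝ) < 1 / 4}
  refine ⟨Set.range VV, ?_, ?_, ?_⟩
  · rintro _ ⟨i, rfl⟩
    refine isOpen_lt ?_ continuous_const
    fun_prop
  · refine Set.eq_univ_of_forall fun p => ?_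
    obtain ⟨i, hi⟩ := h p.2
    refine ⟨VV i, ⟨i, rfl⟩, ?_⟩
    change (SM.h (Ξ i (1, (p.1 i, p.2))) : ℝ) < 1 / 4
    have h1 : SM.h SM.p0 = 0 := by rw [← SM.q0 p.2.1, SM.h_q]
    rw [hi, h1]
    norm_num
  · rintro _ ⟨i, rfl⟩ σ hσ
    have key : ∀ u (B : Set F), Ξ i (1, ((σ u).1 i, (σ u).2)) ∈ SM.P B :=
      fun u B => Or.inl (hσ u)
    refine SFAux.nul_of SM B B' ?_
    fin_cases i
    · exact Or.inl fun u => key u B
    · exact Or.inr (Or.inl fun u => key u B)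
    · exact Or.inr (Or.inr fun u => key u B')

end

end Pool.Agent.TC
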