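import Pool.Agent.Lib.TC.SFac

/-!
# Task SFd: splice into SF.lean after the definition of SusM.su, in place of su_mem, su_inj, su_surj, sys_hz (tested against SF.lean under the names su_mem2 ..)
-/

namespace Pool.Agent.TC

open CubeHom

namespace SFdAux

variable {R : Type} [CommRing R]

section kill

variable {X : Type} [TopologicalSpace X]

theorem killC (A : Set X) (k : ℤ) :
    ((CS.top X).kill {A}).C R k = CubeHom.C R k Set.univ := by
  unfold CS.C CubeHom.C
  congr 1
  ext σ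
  simp [CS.kill, CS.top]

theorem killQ (A : Set X) (k : ℤ) :
    ((CS.top X).kill {A}).Q R k = CubeHom.Q R k A := by
  unfold CS.Q CubeHom.Q
  congr 1
  ext σ
  simp [CS.kill, CS.top]

theorem killZ (A : Set X) (k : ℤ) :
    ((CS.top X).kill {A}).Z R k = CubeHom.Z R k Set.univ A := by
  unfold CS.Z CubeHom.Z
  rw [killC, killQ]

theorem killBd (A : Set X) (k : ℤ) (c : Ch R X) :
    ((CS.top X).kill {A}).Bd R k c ↔ CubeHom.Bd R k Set.univ A c := by
  unfold CS.Bd CubeHom.Bd
  rw [killC, killQ]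

end kill

section thr

variable {B : Type} [TopologicalSpace B]

/-- The lower part. -/
def Am (A : Set B) : Set (ℝ × B) := {p | p.1 < -(1 / 2) ∨ p.2 ∈ A}

/-- The upper part. -/
def Ap (B : Type) : Set (ℝ × B) := {p | 1 / 2 < p.1}

/-- Both. -/
def Aa (A : Set B) : Set (ℝ × B) := {p | p.1 < -(1 / 2) ∨ 1 / 2 < p.1 ∨ p.2 ∈ A}

theorem isOpen_Am {A : Set B} (hA : IsOpen A) : IsOpen (Am A) :=
  (isOpen_lt continuous_fst continuous_const).union (hA.preimage continuous_snd)

theorem isOpen_Ap : IsOpen (Ap B) := isOpen_lt continuous_const continuous_fst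

omit [TopologicalSpace B] in
theorem Aa_eq (A : Set B) : Aa A = Ap B ∪ Am A := by
  ext ⟨t, b⟩
  simp only [Aa, Ap, Am, Set.mem_union, Set.mem_ofPred_eq]
  constructor
  · rintro (h | h | h)
    · exact Or.inr (Or.inl h)
    · exact Or.inl h
    · exact Or.inr (Or.inr h)
  · rintro (h | h | h)
    · exact Or.inr (Or.inl h)
    · exact Or.inl h
    · exact Or.inr (Or.inr h)

/-- The pair `(ℝ × B, A⁻)` is acyclic. -/
theorem acyc_Am {A : Set B} {k : ℤ} {w : Ch R (ℝ × B)}
    (hw : w ∈ CubeHom.Z R k Set.univ (Am A)) :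
    CubeHom.Bd R k Set.univ (Am A) w := by
  obtain ⟨L, hL0, hL⟩ := exists_bound w ⟨Prod.fst, continuous_fst⟩
  let H : C(I × (ℝ × B), ℝ × B) := ⟨fun p => (p.2.1 - (p.1 : ℝ) * (L + 2), p.2.2), by fun_prop⟩
  have h1 := Bd_homotopy (R := R) (H := H) (k := k) (U := Set.univ) (V := Set.univ)
    (A := Am A) (A' := Am A) (fun _ _ _ => Set.mem_univ _) (by
      rintro t ⟨s, b⟩ (h | h)
      · left
        change s - (t : ℝ) * (L + 2) < -(1 / 2)
        have := t.2.1
        have h3 : 0 ≤ (t : ℝ) * (L + 2) := mul_nonneg this (by linarith)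
        simp only at h
        linarith
      · exact Or.inr h) hw
  have h2 : push (atTime H 0) w = w := by
    have : atTime H 0 = ContinuousMap.id _ := by
      ext p : 1
      simp [atTime, H]
    rw [this, push_id]
  have h3 : push (atTime H 1) w ∈ CubeHom.C R k (Am A) := by
    refine push_mem_C_of_support hw.1 fun σ hσ u => ?_
    left
    have h4 := hL σ hσ u
    simp only [ContinuousMap.coe_mk] at h4
    change (σ u).1 - ((1 : I) : ℝ) * (L + 2) < -(1 / 2)
    have h5 := le_abs_self (σ u).1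
    have h6 : ((1 : I) : ℝ) = 1 := rfl
    rw [h6, one_mul]
    linarith
  rw [h2] at h1
  exact Bd.congr (h1.sub_comm) (Bd.of_mem_C h3)

theorem upH_pos' (t : I) (p : ℝ × B) (hp : p ∈ Ap B) : upH B (t, p) ∈ Ap B := by
  change 1 / 2 < (1 - (t : ℝ)) * p.1 + (t : ℝ)
  have h1 := t.2.1
  have h2 := t.2.2
  have h3 : 1 / 2 < p.1 := hp
  rcases lt_or_ge (t : ℝ) (1 / 2) with h | h
  · have : 0 < (1 - (t : ℝ)) * (p.1 - 1 / 2) := mul_pos (by linarith) (by linarith)
    linarith
  · have : 0 ≤ (1 - (t : ℝ)) * (p.1 - 1 / 2) := mul_nonneg (by linarith) (by linarith)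
    linarith

theorem Ap_Am {A : Set B} : Set.MapsTo (prj : C(ℝ × B, B)) (Ap B ∩ Am A) A := by
  rintro ⟨t, b⟩ ⟨ht, h | h⟩
  · have h1 : (1 : ℝ) / 2 < t := ht
    have h2 : t < -(1 / 2) := h
    linarith
  · exact h

/-- Suspension is surjective. -/
theorem susp_surj' {A : Set B} (hA : IsOpen A) {k : ℤ} {w : Ch R (ℝ × B)}
    (hw : w ∈ CubeHom.Z R ((1 : ℕ) + k) Set.univ (Aa A)) :
    ∃ c ∈ CubeHom.Z R k (Set.univ : Set B) A,
      CubeHom.Bd R ((1 : ℕ) + k) Set.univ (Aa A) (w - cr 1 (segCh R) c) := by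
  have e1 : ((1 : ℕ) : ℤ) + k = k + 1 := by push_cast; ring
  have e2 : ((1 : ℕ) : ℤ) + k - 1 = k := by push_cast; ring
  have hdw : bd (((1 : ℕ) : ℤ) + k) w ∈ CubeHom.Q R (((1 : ℕ) : ℤ) + k - 1) (Aa A) := hw.2
  have h2 := bd_bd (R := R) (((1 : ℕ) : ℤ) + k) w
  rw [e2] at hdw h2
  rw [Q_eq_sup] at hdw
  obtain ⟨v1, hv1, v2, hv2, hv⟩ := Submodule.mem_sup.mp hdw
  obtain ⟨p, hp, b, hb, hpb⟩ := excision_surj isOpen_Ap (isOpen_Am hA) (Aa_eq A)
    (w := v1) (k := k) ⟨hv1, by
      change bd k v1 ∈ CubeHom.Q R (k - 1) (Am A)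
      have h3 : bd k v1 = - bd k v2 := by
        rw [eq_neg_iff_add_eq_zero, ← map_add, hv, h2]
      rw [h3]
      exact Submodule.neg_mem _ (Q_mono _ (Set.empty_subset _) (bd_mem_Q hv2))⟩
  have hpd : bd k p ∈ CubeHom.Q R (k - 1) (Ap B ∩ Am A) := mem_Q_inter (bd_mem_C hp.1) hp.2
  have hc : push prj p ∈ CubeHom.Z R k (Set.univ : Set B) A := by
    refine ⟨push_mem_C (Set.mapsTo_univ _ _) hp.1, ?_⟩
    change bd k (push prj p) ∈ CubeHom.Q R (k - 1) A
    rw [bd_push]
    exact push_mem_Q Ap_Am hpd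
  refine ⟨push prj p, hc, ?_⟩
  -- the corrected chain
  have hP : prism (upH B) p ∈ CubeHom.C R (k + 1) (Ap B) :=
    prism_mem_C (fun t x hx => upH_pos' t x hx) hp.1
  have hPd : prism (upH B) (bd k p) ∈ CubeHom.Q R k (Am A) := by
    have h3 := prism_mem_Q (R := R) (H := upH B) (V := Ap B ∩ Am A) (by
      rintro t ⟨s, b⟩ ⟨hs, h | h⟩
      · have h1 : (1 : ℝ) / 2 < s := hs
        have h2 : s < -(1 / 2) := h
        linarith
      · exact ⟨upH_pos' t _ hs, Or.inr h⟩) hpd
    rw [sub_add_cancel] at h3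
    exact Q_mono _ Set.inter_subset_right h3
  have hw'' : w - b + prism (upH B) p - cr 1 (segCh R) (push prj p) ∈
      CubeHom.Z R (((1 : ℕ) : ℤ) + k) Set.univ (Am A) := by
    refine ⟨?_, ?_⟩
    · refine Submodule.sub_mem _ (Submodule.add_mem _ (Submodule.sub_mem _ hw.1 ?_) ?_) ?_
      · rw [e1]; exact C_mono _ (Set.subset_univ _) hb
      · rw [e1]; exact C_mono _ (Set.subset_univ _) hP
      · exact C_mono _ (Set.subset_univ _) (cr_mem_C segCh_mem.1 hc.1)
    · change bd (((1 : ℕ) : ℤ) + k) _ ∈ CubeHom.Q R (((1 : ℕ) : ℤ) + k - 1) (Am A)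
      rw [map_sub, map_add, map_sub, bd_susp hc.1, e1, bd_prism (C_mono _ (Set.subset_univ _)
        hp.1), atTime_upH_zero, push_id, atTime_upH_one, add_sub_cancel_right, ← e1, ← hv, e1]
      have h3 : v1 + v2 - bd (k + 1) b + (push (inc 1) (push prj p) - p - prism (upH B) (bd k p)) -
          (push (inc 1) (push prj p) - push (inc (-1)) (push prj p) -
            cr 1 (segCh R) (bd k (push prj p))) =
          (v1 - p - bd (k + 1) b) + v2 - prism (upH B) (bd k p) +
            push (inc (-1)) (push prj p) + cr 1 (segCh R) (bd k (push prj p)) := by abel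
      rw [h3]
      refine Submodule.add_mem _ (Submodule.add_mem _ (Submodule.sub_mem _
        (Submodule.add_mem _ hpb (Q_mono _ (Set.empty_subset _) hv2)) hPd) ?_) ?_
      · refine C_le_Q _ _ (push_mem_C (fun b _ => ?_) hc.1)
        exact Or.inl (by simp only [inc, ContinuousMap.coe_mk]; norm_num)
      · have h6 := cr_mem_Q_right (n := 1) segCh_mem.1
          (show bd k (push prj p) ∈ CubeHom.Q R (k - 1) A from hc.2)
        have e3 : ((1 : ℕ) : ℤ) + (k - 1) = k := by push_cast; ring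
        rw [e3] at h6
        exact Q_mono _ (fun p hp => Or.inr hp.2) h6
  have h4 := (acyc_Am hw'').mono (Set.Subset.refl _)
    (show Am A ⊆ Aa A by rw [Aa_eq]; exact Set.subset_union_right)
  have h5 : w - cr 1 (segCh R) (push prj p) =
      (w - b + prism (upH B) p - cr 1 (segCh R) (push prj p)) + (b - prism (upH B) p) := by abel
  rw [h5]
  refine h4.add (Bd.of_mem_C (Submodule.sub_mem _ ?_ ?_))
  · rw [e1]; exact hb
  · rw [e1, Aa_eq]; exact C_mono _ Set.subset_union_left hP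

theorem segCh_mem' : segCh R ∈ CubeHom.Z R ((1 : ℕ) : ℤ) Set.univ
    ({r : ℝ | r < -(1 / 2) ∨ 1 / 2 < r}) := by
  refine single_mem_Z segCube_isCube (fun i hi e he u => ?_) 1
  have hi0 : i = 0 := by omega
  subst hi0
  simp only [Set.mem_ofPred_eq, segCube_apply, ins_apply_self]
  rcases he with rfl | rfl
  · left; norm_num
  · right; norm_num

theorem cr_seg_mem {A : Set B} {k : ℤ} {c : Ch R B} (hc : c ∈ CubeHom.Z R k Set.univ A) :
    cr 1 (segCh R) c ∈ CubeHom.Z R ((1 : ℕ) + k) Set.univ (Aa A) := by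
  refine cr_mem_Z segCh_mem' hc (Set.subset_univ _) ?_ ?_
  · rintro p ⟨h | h, -⟩
    · exact Or.inl h
    · exact Or.inr (Or.inl h)
  · rintro p ⟨-, h⟩
    exact Or.inr (Or.inr h)

theorem cr_seg_bd {A : Set B} {k : ℤ} {c : Ch R B} (hc : CubeHom.Bd R k Set.univ A c) :
    CubeHom.Bd R ((1 : ℕ) + k) Set.univ (Aa A) (cr 1 (segCh R) c) := by
  refine Bd.cr_right segCh_mem' hc (Set.subset_univ _) ?_ ?_
  · rintro p ⟨h | h, -⟩
    · exact Or.inl h
    · exact Or.inr (Or.inl h)
  · rintro p ⟨-, h⟩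
    exact Or.inr (Or.inr h)

end thr

/-- Clamping. -/
noncomputable def clR (r : ℝ) : ℝ := max (-(3 / 4)) (min (3 / 4) r)

theorem continuous_clR : Continuous clR := by unfold clR; fun_prop

theorem clR_bounds (r : ℝ) : -(3 / 4) ≤ clR r ∧ clR r ≤ 3 / 4 :=
  ⟨le_max_left _ _, max_le (by norm_num) (min_le_left _ _)⟩

theorem clR_lt {r : ℝ} (h : r < -(1 / 2)) : clR r < -(1 / 2) :=
  max_lt (by norm_num) ((min_le_right _ _).trans_lt h)

theorem lt_clR {r : ℝ} (h : 1 / 2 < r) : 1 / 2 < clR r :=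
  lt_of_lt_of_le (lt_min (by norm_num) h) (le_max_right _ _)

theorem coe_clm (r : ℝ) : (clm r : ℝ) = max 0 (min 1 r) := Set.coe_projIcc 0 1 zero_le_one r

theorem clm_coe (t : I) : clm (t : ℝ) = t := Set.projIcc_val zero_le_one t

section main

variable {F : Type} [TopologicalSpace F] (SM : SusM F)

theorem q_mem_P {B : Set F} {r : ℝ} {x : F} (h : r < 1 / 4 ∨ 3 / 4 < r ∨ x ∈ B) :
    SM.q (clm r, x) ∈ SM.P B := by
  change (SM.h (SM.q (clm r, x)) : ℝ) < 1 / 4 ∨ 3 / 4 < (SM.h (SM.q (clm r, x)) : ℝ) ∨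
    SM.dir (SM.q (clm r, x)) ∈ B
  rw [SM.h_q, coe_clm]
  rcases h with h | h | h
  · left
    exact max_lt (by norm_num) ((min_le_right _ _).trans_lt h)
  · right; left
    exact lt_of_lt_of_le (lt_min (by norm_num) h) (le_max_right _ _)
  · by_cases h0 : r ≤ 0
    · left
      exact max_lt (by norm_num) ((min_le_right _ _).trans_lt (by linarith))
    · by_cases h1 : 1 ≤ r
      · right; left
        exact lt_of_lt_of_le (lt_min (by norm_num) (by linarith)) (le_max_right _ _)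
      · right; right
        rw [SM.dir_q]
        · exact h
        · rw [← Subtype.coe_lt_coe, coe_clm]
          exact lt_of_lt_of_le (lt_min (by norm_num) (not_le.1 h0))
            (le_max_right _ _)
        · rw [← Subtype.coe_lt_coe, coe_clm]
          exact max_lt (by norm_num) ((min_le_right _ _).trans_lt (not_le.1 h1))

/-- The map `(r, x) ↦ q ((r + 1) / 2, x)`. -/
noncomputable def ff : C(ℝ × F, SM.T) :=
  ⟨fun p => SM.q (clm ((p.1 + 1) / 2), p.2), SM.q.continuous.comp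
    ((continuous_clm.comp (by fun_prop)).prodMk continuous_snd)⟩

theorem su_eq (c : Ch R F) : SM.su c = push (ff SM) (cr 1 (segCh R) c) := by
  have h : (push SM.q).comp (cr (B := F) 1 (Finsupp.single iota (1 : R))) =
      (push (ff SM)).comp (cr 1 (segCh R)) := by
    ext σ : 2
    simp only [LinearMap.comp_apply, Finsupp.lsingle_apply, segCh, cr_single_single,
      push_single, mul_one]
    congr 1
    ext u : 1
    simp only [ContinuousMap.comp_apply, crossCube_apply, ff, ContinuousMap.coe_mk, segCube_apply]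
    congr 2
    rw [show (2 * ((u 0 : I) : ℝ) - 1 + 1) / 2 = ((u 0 : I) : ℝ) by ring, clm_coe]
    rfl
  exact LinearMap.congr_fun h c

theorem ff_maps {B : Set F} : Set.MapsTo (ff SM) (Aa B) (SM.P B) := by
  rintro ⟨r, x⟩ h
  refine q_mem_P SM ?_
  rcases h with h | h | h
  · left
    have : r < -(1 / 2) := h
    linarith
  · right; left
    have : 1 / 2 < r := h
    linarith
  · right; right
    exact h

/-- The interior part. -/
def Wset : Set SM.T := {τ | 0 < SM.h τ ∧ SM.h τ < 1}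

theorem isOpen_Wset : IsOpen (Wset SM) := by
  have h1 : IsOpen {τ : SM.T | 0 < SM.h τ} := isOpen_lt continuous_const SM.h.continuous
  have h2 : IsOpen {τ : SM.T | SM.h τ < 1} := isOpen_lt SM.h.continuous continuous_const
  exact h1.inter h2

/-- The inclusion of the interior part. -/
def iW : C(Wset SM, SM.T) := ⟨Subtype.val, continuous_subtype_val⟩

theorem iW_emb : Topology.IsOpenEmbedding (iW SM) := (isOpen_Wset SM).isOpenEmbedding_subtypeVal

theorem iW_cov (B : Set F) : SM.P B ∪ Set.range (iW SM) = Set.univ := by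
  rw [Set.eq_univ_iff_forall]
  intro τ
  by_cases h : (SM.h τ : ℝ) < 1 / 4
  · exact Or.inl (Or.inl h)
  by_cases h' : 3 / 4 < (SM.h τ : ℝ)
  · exact Or.inl (Or.inr (Or.inl h'))
  · refine Or.inr ⟨⟨τ, ?_, ?_⟩, rfl⟩
    · rw [← Subtype.coe_lt_coe]
      exact lt_of_lt_of_le (by norm_num) (not_lt.1 h)
    · rw [← Subtype.coe_lt_coe]
      exact lt_of_le_of_lt (not_lt.1 h') (by norm_num)

/-- The coordinates of the interior part. -/
noncomputable def gW : C(Wset SM, ℝ × F) :=
  ⟨fun τ => (2 * (SM.h τ : ℝ) - 1, SM.dir τ), by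
    refine Continuous.prodMk ?_ ?_
    · exact (continuous_const.mul (continuous_subtype_val.comp
        (SM.h.continuous.comp continuous_subtype_val))).sub continuous_const
    · exact continuousOn_iff_continuous_domRestrict.1 SM.dir_cont⟩

theorem gW_maps {B : Set F} : Set.MapsTo (gW SM) (iW SM ⁻¹' SM.P B) (Aa B) := by
  rintro ⟨τ, hτ⟩ h
  rcases h with h | h | h
  · left
    change 2 * (SM.h τ : ℝ) - 1 < -(1 / 2)
    have : (SM.h τ : ℝ) < 1 / 4 := h
    linarith
  · right; left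
    change 1 / 2 < 2 * (SM.h τ : ℝ) - 1
    have : 3 / 4 < (SM.h τ : ℝ) := h
    linarith
  · right; right
    exact h

theorem q_mem_W {r : ℝ} (h0 : 0 < r) (h1 : r < 1) (x : F) : SM.q (clm r, x) ∈ Wset SM := by
  refine ⟨?_, ?_⟩
  · rw [SM.h_q, ← Subtype.coe_lt_coe, coe_clm]
    exact lt_of_lt_of_le (lt_min (by norm_num) h0) (le_max_right _ _)
  · rw [SM.h_q, ← Subtype.coe_lt_coe, coe_clm]
    exact max_lt (by norm_num) ((min_le_right _ _).trans_lt h1)

/-- The way back. -/
noncomputable def rW : C(ℝ × F, Wset SM) :=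
  ⟨fun p => ⟨SM.q (clm ((clR p.1 + 1) / 2), p.2), q_mem_W SM
      (by have := (clR_bounds p.1).1; linarith) (by have := (clR_bounds p.1).2; linarith) _⟩, by
    refine Continuous.subtype_mk ?_ _
    refine SM.q.continuous.comp ((continuous_clm.comp ?_).prodMk continuous_snd)
    have := continuous_clR
    fun_prop⟩

theorem rW_maps {B : Set F} : Set.MapsTo (rW SM) (Aa B) (iW SM ⁻¹' SM.P B) := by
  rintro ⟨r, x⟩ h
  change SM.q (clm ((clR r + 1) / 2), x) ∈ SM.P B
  refine q_mem_P SM ?_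
  rcases h with h | h | h
  · left
    have := clR_lt (show r < -(1 / 2) from h)
    linarith
  · right; left
    have := lt_clR (show 1 / 2 < r from h)
    linarith
  · right; right
    exact h

/-- `i ∘ r` is homotopic to `f`. -/
noncomputable def H1 : C(I × (ℝ × F), SM.T) :=
  ⟨fun p => SM.q (clm (((1 - (p.1 : ℝ)) * p.2.1 + (p.1 : ℝ) * clR p.2.1 + 1) / 2), p.2.2), by
    refine SM.q.continuous.comp ((continuous_clm.comp ?_).prodMk (by fun_prop))
    have := continuous_clR
    fun_prop⟩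

theorem convex_lt {s r r' a : ℝ} (h0 : 0 ≤ s) (h1 : s ≤ 1) (hr : r < a) (hr' : r' < a) :
    (1 - s) * r + s * r' < a := by
  rcases lt_or_ge s (1 / 2) with h | h
  · have h2 : 0 < (1 - s) * (a - r) := mul_pos (by linarith) (by linarith)
    have h3 : 0 ≤ s * (a - r') := mul_nonneg h0 (by linarith)
    linarith
  · have h2 : 0 ≤ (1 - s) * (a - r) := mul_nonneg (by linarith) (by linarith)
    have h3 : 0 < s * (a - r') := mul_pos (by linarith) (by linarith)
    linarith

theorem lt_convex {s r r' a : ℝ} (h0 : 0 ≤ s) (h1 : s ≤ 1) (hr : a < r) (hr' : a < r') :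
    a < (1 - s) * r + s * r' := by
  have := convex_lt (r := -r) (r' := -r') (a := -a) h0 h1 (by linarith) (by linarith)
  linarith

theorem H1_maps {B : Set F} (t : I) (p : ℝ × F) (hp : p ∈ Aa B) : H1 SM (t, p) ∈ SM.P B := by
  obtain ⟨r, x⟩ := p
  refine q_mem_P SM ?_
  rcases hp with h | h | h
  · left
    have := convex_lt t.2.1 t.2.2 (show r < -(1 / 2) from h) (clR_lt (show r < -(1 / 2) from h))
    linarith
  · right; left
    have := lt_convex t.2.1 t.2.2 (show 1 / 2 < r from h) (lt_clR (show 1 / 2 < r from h))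
    linarith
  · right; right
    exact h

theorem H1_zero : atTime (H1 SM) 0 = ff SM := by
  ext p : 1
  simp [atTime, H1, ff]

theorem H1_one : atTime (H1 SM) 1 = (iW SM).comp (rW SM) := by
  ext p : 1
  simp [atTime, H1, iW, rW]

/-- `g ∘ r` is homotopic to the identity. -/
noncomputable def H2 (F : Type) [TopologicalSpace F] : C(I × (ℝ × F), ℝ × F) :=
  ⟨fun p => ((1 - (p.1 : ℝ)) * p.2.1 + (p.1 : ℝ) * clR p.2.1, p.2.2), by
    have := continuous_clR
    fun_prop⟩

theorem H2_maps {B : Set F} (t : I) (p : ℝ × F) (hp : p ∈ Aa B) : H2 F (t, p) ∈ Aa B := by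
  obtain ⟨r, x⟩ := p
  rcases hp with h | h | h
  · left
    exact convex_lt t.2.1 t.2.2 (show r < -(1 / 2) from h) (clR_lt (show r < -(1 / 2) from h))
  · right; left
    exact lt_convex t.2.1 t.2.2 (show 1 / 2 < r from h) (lt_clR (show 1 / 2 < r from h))
  · right; right
    exact h

theorem H2_zero : atTime (H2 F) 0 = ContinuousMap.id _ := by
  ext p : 1
  simp [atTime, H2]

theorem clm_mid (r : ℝ) : 0 < clm ((clR r + 1) / 2) ∧ clm ((clR r + 1) / 2) < 1 := by
  have h := clR_bounds r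
  refine ⟨?_, ?_⟩
  · rw [← Subtype.coe_lt_coe, coe_clm]
    exact lt_of_lt_of_le (lt_min (by norm_num) (show (0 : ℝ) < (clR r + 1) / 2 by linarith))
      (le_max_right _ _)
  · rw [← Subtype.coe_lt_coe, coe_clm]
    exact max_lt (by norm_num) ((min_le_right _ _).trans_lt
      (show (clR r + 1) / 2 < (1 : ℝ) by linarith))

theorem coe_clm_mid (r : ℝ) : (clm ((clR r + 1) / 2) : ℝ) = (clR r + 1) / 2 := by
  have h := clR_bounds r
  rw [coe_clm, min_eq_right (by linarith), max_eq_right (by linarith)]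

theorem H2_one : atTime (H2 F) 1 = (gW SM).comp (rW SM) := by
  ext p : 1
  obtain ⟨r, x⟩ := p
  change ((1 - ((1 : I) : ℝ)) * r + ((1 : I) : ℝ) * clR r, x) =
    (2 * (SM.h (SM.q (clm ((clR r + 1) / 2), x)) : ℝ) - 1,
      SM.dir (SM.q (clm ((clR r + 1) / 2), x)))
  rw [SM.h_q, SM.dir_q _ _ (clm_mid r).1 (clm_mid r).2, coe_clm_mid]
  refine Prod.ext ?_ rfl
  simp only [Set.Icc.coe_one]
  ring

/-- `r ∘ g` is homotopic to the identity. -/
noncomputable def H3 : C(I × Wset SM, Wset SM) :=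
  ⟨fun p => ⟨SM.q (clm (((1 - (p.1 : ℝ)) * (2 * (SM.h p.2 : ℝ) - 1) +
      (p.1 : ℝ) * clR (2 * (SM.h p.2 : ℝ) - 1) + 1) / 2), SM.dir p.2), by
      have h0 : (0 : ℝ) < SM.h p.2 := by
        have := p.2.2.1
        rwa [← Subtype.coe_lt_coe] at this
      have h1 : (SM.h p.2 : ℝ) < 1 := by
        have := p.2.2.2
        rwa [← Subtype.coe_lt_coe] at this
      have hc := clR_bounds (2 * (SM.h p.2 : ℝ) - 1)
      have h2 := lt_convex (a := -1) p.1.2.1 p.1.2.2
        (show (-1 : ℝ) < 2 * (SM.h p.2 : ℝ) - 1 by linarith)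
        (show (-1 : ℝ) < clR (2 * (SM.h p.2 : ℝ) - 1) by linarith)
      have h3 := convex_lt (a := 1) p.1.2.1 p.1.2.2
        (show 2 * (SM.h p.2 : ℝ) - 1 < 1 by linarith)
        (show clR (2 * (SM.h p.2 : ℝ) - 1) < 1 by linarith)
      exact q_mem_W SM (by linarith) (by linarith) _⟩, by
    refine Continuous.subtype_mk ?_ _
    have h1 : Continuous fun p : I × Wset SM => (SM.h p.2 : ℝ) :=
      continuous_subtype_val.comp (SM.h.continuous.comp
        (continuous_subtype_val.comp continuous_snd))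
    have h2 : Continuous fun p : I × Wset SM => (p.1 : ℝ) :=
      continuous_subtype_val.comp continuous_fst
    have h3 : Continuous fun p : I × Wset SM => 2 * (SM.h p.2 : ℝ) - 1 :=
      (continuous_const.mul h1).sub continuous_const
    have h4 : Continuous fun p : I × Wset SM => SM.dir p.2 :=
      (continuousOn_iff_continuous_domRestrict.1 SM.dir_cont).comp continuous_snd
    refine SM.q.continuous.comp ((continuous_clm.comp ?_).prodMk h4)
    exact ((((continuous_const.sub h2).mul h3).add (h2.mul (continuous_clR.comp h3))).add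
      continuous_const).div_const _⟩

theorem H3_maps {B : Set F} (t : I) (p : Wset SM) (hp : p ∈ iW SM ⁻¹' SM.P B) :
    H3 SM (t, p) ∈ iW SM ⁻¹' SM.P B := by
  change SM.q (clm (((1 - (t : ℝ)) * (2 * (SM.h p : ℝ) - 1) +
      (t : ℝ) * clR (2 * (SM.h p : ℝ) - 1) + 1) / 2), SM.dir p) ∈ SM.P B
  refine q_mem_P SM ?_
  rcases gW_maps SM hp with h | h | h
  · left
    have h' : 2 * (SM.h p : ℝ) - 1 < -(1 / 2) := h
    have := convex_lt t.2.1 t.2.2 h' (clR_lt h')
    linarith
  · right; left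
    have h' : 1 / 2 < 2 * (SM.h p : ℝ) - 1 := h
    have := lt_convex t.2.1 t.2.2 h' (lt_clR h')
    linarith
  · right; right
    exact h

theorem H3_zero : atTime (H3 SM) 0 = ContinuousMap.id _ := by
  ext p : 2
  change SM.q (clm (((1 - ((0 : I) : ℝ)) * (2 * (SM.h p : ℝ) - 1) +
      ((0 : I) : ℝ) * clR (2 * (SM.h p : ℝ) - 1) + 1) / 2), SM.dir p) = p
  have h : ((1 - ((0 : I) : ℝ)) * (2 * (SM.h p : ℝ) - 1) +
      ((0 : I) : ℝ) * clR (2 * (SM.h p : ℝ) - 1) + 1) / 2 = (SM.h p : ℝ) := by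
    simp only [Set.Icc.coe_zero]
    ring
  rw [h, clm_coe, SM.q_dir]

theorem H3_one : atTime (H3 SM) 1 = (rW SM).comp (gW SM) := by
  ext p : 2
  change SM.q (clm (((1 - ((1 : I) : ℝ)) * (2 * (SM.h p : ℝ) - 1) +
      ((1 : I) : ℝ) * clR (2 * (SM.h p : ℝ) - 1) + 1) / 2), SM.dir p) =
    SM.q (clm ((clR (2 * (SM.h p : ℝ) - 1) + 1) / 2), SM.dir p)
  have h : ((1 - ((1 : I) : ℝ)) * (2 * (SM.h p : ℝ) - 1) +
      ((1 : I) : ℝ) * clR (2 * (SM.h p : ℝ) - 1) + 1) / 2 =
      (clR (2 * (SM.h p : ℝ) - 1) + 1) / 2 := by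
    simp only [Set.Icc.coe_one]
    ring
  rw [h]

/-- `f` and `i ∘ r` agree on relative cycles. -/
theorem f_ir {B : Set F} {k : ℤ} {c : Ch R (ℝ × F)} (hc : c ∈ CubeHom.Z R k Set.univ (Aa B)) :
    CubeHom.Bd R k Set.univ (SM.P B) (push (iW SM) (push (rW SM) c) - push (ff SM) c) := by
  have h := Bd_homotopy (R := R) (H := H1 SM) (U := Set.univ) (V := Set.univ)
    (fun _ _ _ => Set.mem_univ _) (fun t p hp => H1_maps SM t p hp) hc
  rwa [H1_zero, H1_one, ← push_push] at h

theorem su_mem' {B : Set F} {j : ℤ} {c : Ch R F} (hc : c ∈ CubeHom.Z R j Set.univ B) :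
    SM.su c ∈ CubeHom.Z R ((1 : ℕ) + j) Set.univ (SM.P B) := by
  rw [su_eq]
  exact push_mem_Z (Set.mapsTo_univ _ _) (ff_maps SM) (cr_seg_mem hc)

theorem su_bd' {B : Set F} {j : ℤ} {c : Ch R F} (hc : CubeHom.Bd R j Set.univ B c) :
    CubeHom.Bd R ((1 : ℕ) + j) Set.univ (SM.P B) (SM.su c) := by
  rw [su_eq]
  exact Bd.push (Set.mapsTo_univ _ _) (ff_maps SM) (cr_seg_bd hc)

theorem su_inj' {B : Set F} (hB : IsOpen B) {j : ℤ} {c : Ch R F}
    (hc : c ∈ CubeHom.Z R j Set.univ B)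
    (h : CubeHom.Bd R ((1 : ℕ) + j) Set.univ (SM.P B) (SM.su c)) :
    CubeHom.Bd R j Set.univ B c := by
  have hs := cr_seg_mem (R := R) hc
  rw [su_eq] at h
  have h1 := (f_ir SM hs).add h
  rw [sub_add_cancel] at h1
  have h2 := embed_inj (iW_emb SM) (SM.isOpen_P hB) (iW_cov SM B)
    (push_mem_C (Set.mapsTo_univ _ _) hs.1) h1
  have h3 := Bd.push (f := gW SM) (V := Set.univ) (Set.mapsTo_univ _ _) (gW_maps SM) h2
  rw [push_push, ← H2_one] at h3
  have h4 := Bd_homotopy (R := R) (H := H2 F) (U := Set.univ) (V := Set.univ)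
    (fun _ _ _ => Set.mem_univ _) (fun t p hp => H2_maps (B := B) t p hp) hs
  rw [H2_zero, push_id] at h4
  have h5 := Bd.congr h4.sub_comm h3
  refine susp_inj hB hc (h5.mono (Set.Subset.refl _) ?_)
  rintro p (h | h | h)
  · left
    have h' : p.1 < -(1 / 2) := h
    exact fun h0 => by rw [h0] at h'; norm_num at h'
  · left
    have h' : 1 / 2 < p.1 := h
    exact fun h0 => by rw [h0] at h'; norm_num at h'
  · exact Or.inr h

theorem su_surj' {B : Set F} (hB : IsOpen B) {j : ℤ} {w : Ch R SM.T}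
    (hw : w ∈ CubeHom.Z R ((1 : ℕ) + j) Set.univ (SM.P B)) :
    ∃ c ∈ CubeHom.Z R j (Set.univ : Set F) B,
      CubeHom.Bd R ((1 : ℕ) + j) Set.univ (SM.P B) (w - SM.su c) := by
  obtain ⟨e, he, h1⟩ := embed_surj (iW_emb SM) (SM.isOpen_P hB) (iW_cov SM B) hw
  obtain ⟨c, hc, h2⟩ := susp_surj' hB (push_mem_Z (f := gW SM) (V := Set.univ)
    (Set.mapsTo_univ _ _) (gW_maps SM) he)
  refine ⟨c, hc, ?_⟩
  have hs := cr_seg_mem (R := R) hc
  have h3 := Bd.push (f := rW SM) (V := Set.univ) (Set.mapsTo_univ _ _) (rW_maps SM) h2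
  rw [map_sub, push_push, ← H3_one] at h3
  have h4 := Bd_homotopy (R := R) (H := H3 SM) (U := Set.univ) (V := Set.univ)
    (fun _ _ _ => Set.mem_univ _) (fun t p hp => H3_maps (B := B) SM t p hp) he
  rw [H3_zero, push_id] at h4
  have h5 := h4.sub_comm.trans h3
  have h6 := Bd.push (f := iW SM) (V := Set.univ) (A' := SM.P B) (Set.mapsTo_univ _ _)
    (fun _ h => h) h5
  rw [map_sub] at h6
  have h7 := (h1.trans h6).trans (f_ir SM hs)
  rwa [su_eq]

end main

end SFdAux

open SFdAux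

section

variable {F : Type} [TopologicalSpace F] (SM : SusM F) {R : Type} [CommRing R] {B : Set F}

theorem SusM.su_mem {j : ℤ} {c : Ch R F} (hc : c ∈ (relB B).Z R j) :
    SM.su c ∈ (SM.sys B).Z R (1 + j) := by
  rw [relB, killZ] at hc
  rw [SusM.sys, killZ]
  have h := su_mem' SM hc
  rwa [Nat.cast_one] at h

/-- (Excision to `{0 < h < 1} = (0,1) × F`, library `susp_inj`.) -/
theorem SusM.su_inj (hB : IsOpen B) {j : ℤ} {c : Ch R F} (hc : c ∈ (relB B).Z R j)
    (h : (SM.sys B).Bd R (1 + j) (SM.su c)) : (relB B).Bd R j c := by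
  rw [relB, killZ] at hc
  rw [SusM.sys, killBd] at h
  rw [relB, killBd]
  refine su_inj' SM hB hc ?_
  rwa [Nat.cast_one]

/-- (Excision to `{0 < h < 1} = (0,1) × F`, library `susp_surj`.) -/
theorem SusM.su_surj (hB : IsOpen B) {j : ℤ} {w : Ch R SM.T}
    (hw : w ∈ (SM.sys B).Z R (1 + j)) :
    ∃ c ∈ (relB B).Z R j, (SM.sys B).Bd R (1 + j) (w - SM.su c) := by
  rw [SusM.sys, killZ] at hw
  obtain ⟨c, hc, h⟩ := su_surj' SM hB (j := j) (w := w) (by rwa [Nat.cast_one])
  refine ⟨c, by rwa [relB, killZ], ?_⟩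
  rw [SusM.sys, killBd]
  rwa [Nat.cast_one] at h

theorem SusM.sys_hz (hB : IsOpen B) {j : ℤ} (h : (relB B).Hz R j) :
    (SM.sys B).Hz R (1 + j) := by
  intro w hw
  obtain ⟨c, hc, h1⟩ := SM.su_surj hB hw
  have h2 := h c hc
  rw [relB, killBd] at h2
  rw [SusM.sys, killBd] at h1 ⊢
  have h3 := su_bd' SM h2
  rw [Nat.cast_one] at h3
  have h4 := h1.add h3
  rwa [sub_add_cancel] at h4

end

end Pool.Agent.TC
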