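import Pool.Agent.Lib.TC.SuspHD

/-!
# Section 7.4: the cube relative to its faces, row SH1
-/

namespace Pool.Agent.TC

open CubeHom

variable {R : Type*} [CommRing R] {N : Type*} [TopologicalSpace N]

namespace SH1Aux

variable {X Y : Type*} [TopologicalSpace X] [TopologicalSpace Y]

theorem C_single (S : CS X) {k : ℤ} {σ : C(Cb, X)} (h1 : IsCube k σ) (h2 : S.ok σ) (r : R) :
    Finsupp.single σ r ∈ S.C R k :=
  single_mem_supported (S := {σ | IsCube k σ ∧ S.ok σ}) ⟨h1, h2⟩ r

theorem Q_single (S : CS X) {k : ℤ} {σ : C(Cb, X)} (h1 : IsCube k σ) (h2 : S.ok σ)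
    (h3 : S.nul σ ∨ Degen k σ) (r : R) : Finsupp.single σ r ∈ S.Q R k :=
  single_mem_supported (S := {σ | IsCube k σ ∧ S.ok σ ∧ (S.nul σ ∨ Degen k σ)}) ⟨h1, h2, h3⟩ r

theorem C_univ (S : CS X) (hok : ∀ σ, S.ok σ) (k : ℤ) :
    S.C R k = CubeHom.C R k Set.univ := by
  unfold CS.C CubeHom.C
  congr 1
  ext σ
  simp [hok]

/-- The prism of a zero chain. -/
theorem prism_Q (S : CS X) (T : CS Y) (hT : ∀ σ, T.ok σ) (H : C(I × X, Y))
    (hH : ∀ σ, S.nul σ → T.nul (H.comp (crossCube 1 iota σ))) {k : ℤ} {c : Ch R X}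
    (hc : c ∈ S.Q R k) : prism H c ∈ T.Q R (k + 1) := by
  refine map_mem_of_supported (prism H) _ (fun σ hσ => ?_) hc
  obtain ⟨h1, h2, h3⟩ := hσ
  rw [prism_single]
  have h4 : IsCube (k + 1) (crossCube 1 iota σ) := by
    have := isCube_cross (n := 1) (by exact_mod_cast iota_isCube) h1
    rw [add_comm]
    exact_mod_cast this
  refine Q_single T (h4.comp H) (hT _) ?_ 1
  rcases h3 with h3 | h3
  · exact Or.inl (hH σ h3)
  · refine Or.inr ?_
    have h5 := degen_cross_right (n := 1) (τ := iota) (by exact_mod_cast iota_isCube) h3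
    rw [add_comm]
    have h6 : Degen (1 + k) (crossCube 1 iota σ) := by exact_mod_cast h5
    exact h6.comp H

theorem cross_isCube {k : ℤ} {σ : C(Cb, X)} (h1 : IsCube k σ) :
    IsCube (k + 1) (crossCube 1 iota σ) := by
  have := isCube_cross (n := 1) (by exact_mod_cast iota_isCube) h1
  rw [add_comm]
  exact_mod_cast this

theorem cross_degen {k : ℤ} {σ : C(Cb, X)} (h3 : Degen k σ) :
    Degen (k + 1) (crossCube 1 iota σ) := by
  have h5 := degen_cross_right (n := 1) (τ := iota) (by exact_mod_cast iota_isCube) h3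
  rw [add_comm]
  exact_mod_cast h5

theorem prism_push (H : C(I × Y, N)) (f : C(X, Y)) (c : Ch R X) :
    prism H (push f c) = prism (H.comp ((ContinuousMap.id I).prodMap f)) c := by
  have h : (prism (R := R) H).comp (push f) =
      prism (H.comp ((ContinuousMap.id I).prodMap f)) := by
    ext σ : 2
    simp only [LinearMap.comp_apply, Finsupp.lsingle_apply, push_single, prism_single]
    rfl
  exact LinearMap.congr_fun h c

/-- `(t, (x, b)) ↦ (cons t x, b)`. -/
def consI (m : ℕ) (N : Type*) [TopologicalSpace N] :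
    C(I × ((Fin m → I) × N), (Fin (m + 1) → I) × N) :=
  ⟨fun p => (Fin.cons p.1 p.2.1, p.2.2), by
    refine Continuous.prodMk ?_ (by fun_prop)
    refine continuous_pi fun i => ?_
    refine Fin.cases ?_ (fun i => ?_) i
    · simpa using continuous_fst
    · simp only [Fin.cons_succ]; fun_prop⟩

/-- Drop the first coordinate. -/
def tailI (m : ℕ) (N : Type*) [TopologicalSpace N] :
    C((Fin (m + 1) → I) × N, (Fin m → I) × N) :=
  ⟨fun p => (Fin.tail p.1, p.2), by
    refine Continuous.prodMk ?_ (by fun_prop)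
    exact continuous_pi fun i => by unfold Fin.tail; fun_prop⟩

/-- The contraction of the first coordinate to `0`. -/
def conI (m : ℕ) (N : Type*) [TopologicalSpace N] :
    C(I × ((Fin (m + 1) → I) × N), (Fin (m + 1) → I) × N) :=
  (consI m N).comp ⟨fun p => (p.1 * p.2.1 0, tailI m N p.2), by fun_prop⟩

theorem conI_zero (m : ℕ) (t : I) (q : (Fin (m + 1) → I) × N) :
    (conI m N (t, q)).1 0 = t * q.1 0 := rfl

theorem conI_succ (m : ℕ) (t : I) (q : (Fin (m + 1) → I) × N) (i : Fin m) :
    (conI m N (t, q)).1 i.succ = q.1 i.succ := rfl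

theorem conI_one (m : ℕ) : atTime (conI m N) 1 = ContinuousMap.id _ := by
  ext q : 1
  refine Prod.ext ?_ rfl
  funext i
  refine Fin.cases ?_ (fun i => ?_) i
  · change (1 : I) * q.1 0 = q.1 0
    rw [one_mul]
  · rfl

theorem fcr_succ (m : ℕ) (c : Ch R N) : fcr (m + 1) c = prism (consI m N) (fcr m c) := by
  have h : cr (B := N) (m + 1) (Finsupp.single (idCube (m + 1)) (1 : R)) =
      (prism (consI m N)).comp (cr m (Finsupp.single (idCube m) 1)) := by
    ext σ : 2
    simp only [LinearMap.comp_apply, Finsupp.lsingle_apply, cr_single_single, mul_one,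
      prism_single]
    congr 1
    ext u : 1
    simp only [ContinuousMap.comp_apply, crossCube_apply, consI, ContinuousMap.coe_mk]
    refine Prod.ext ?_ ?_
    · funext i
      refine Fin.cases ?_ (fun i => ?_) i
      · rfl
      · change u ((i : ℕ) + 1) = u (1 + (i : ℕ))
        rw [add_comm]
    · change σ (drop (m + 1) u) = σ (drop m (drop 1 u))
      congr 1
      funext j
      simp only [drop_apply]
      congr 1
      omega
  exact LinearMap.congr_fun h c

theorem fcr_zero (c : Ch R ((Fin 0 → I) × N)) : fcr 0 (push ContinuousMap.snd c) = c := by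
  have h : (cr (B := N) 0 (Finsupp.single (idCube 0) (1 : R))).comp
      (push (ContinuousMap.snd : C((Fin 0 → I) × N, N))) = LinearMap.id := by
    ext σ : 2
    simp only [LinearMap.comp_apply, Finsupp.lsingle_apply, cr_single_single, mul_one,
      push_single, LinearMap.id_apply]
    congr 1
    ext u : 1
    refine Prod.ext (Subsingleton.elim _ _) ?_
    change (σ (drop 0 u)).2 = (σ u).2
    congr 2
    funext j
    rw [drop_apply, zero_add]
  exact LinearMap.congr_fun h c

theorem id_mem (m : ℕ) :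
    (Finsupp.single (idCube m) 1 : Ch R (Fin m → I)) ∈ CubeHom.C R m Set.univ :=
  mem_C_single (idCube_isCube m) (fun _ => Set.mem_univ _) _

theorem cr_Q_right (m : ℕ) {k : ℤ} {c : Ch R N} (hc : c ∈ (CS.top N).Q R k) :
    fcr m c ∈ (CS.faces m N).Q R (m + k) := by
  refine map_mem_of_supported (cr m (Finsupp.single (idCube m) (1 : R))) _ (fun σ hσ => ?_) hc
  obtain ⟨h1, -, h3⟩ := hσ
  rw [cr_single_single, one_mul]
  refine Q_single _ (isCube_cross (idCube_isCube m) h1) trivial (Or.inr ?_) 1
  rcases h3 with h3 | h3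
  · exact h3.elim
  · exact degen_cross_right (idCube_isCube m) h3

theorem cr_Q_left (m : ℕ) {k : ℤ} {c : Ch R N} (hc : c ∈ CubeHom.C R k Set.univ) :
    cr (m - 1) (bd (m : ℤ) (Finsupp.single (idCube m) (1 : R))) c ∈
      (CS.faces m N).Q R (m + k - 1) := by
  rw [bd_apply, map_sum, LinearMap.sum_apply]
  refine Submodule.sum_mem _ fun i hi => ?_
  rw [Int.toNat_natCast, Finset.mem_range] at hi
  rw [map_smul, LinearMap.smul_apply]
  refine Submodule.smul_mem _ _ ?_
  rw [map_sub, LinearMap.sub_apply]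
  have key : ∀ e : I, (e = 0 ∨ e = 1) →
      cr (m - 1) (face i e (Finsupp.single (idCube m) (1 : R))) c ∈
        (CS.faces m N).Q R (m + k - 1) := by
    intro e he
    rw [face_single]
    refine map_mem_of_supported (cr (m - 1) (Finsupp.single ((idCube m).comp (ins i e)) (1 : R)))
      _ (fun σ hσ => ?_) hc
    obtain ⟨h1, -⟩ := hσ
    rw [cr_single_single, one_mul]
    have h2 : IsCube ((m - 1 : ℕ) : ℤ) ((idCube m).comp (ins i e)) := by
      have := (idCube_isCube m).face (i := i) (by omega) e
      rwa [show ((m - 1 : ℕ) : ℤ) = (m : ℤ) - 1 by omega]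
    have h3 := isCube_cross h2 h1
    rw [show ((m - 1 : ℕ) : ℤ) + k = (m : ℤ) + k - 1 by omega] at h3
    refine Q_single (CS.faces m N) h3 trivial (Or.inl ⟨⟨i, hi⟩, ?_⟩) 1
    have h4 : ∀ u, (crossCube (m - 1) ((idCube m).comp (ins i e)) σ u).1 ⟨i, hi⟩ = e := by
      intro u
      exact ins_apply_self i e u
    rcases he with rfl | rfl
    · exact Or.inl h4
    · exact Or.inr h4
  exact Submodule.sub_mem _ (key 1 (Or.inr rfl)) (key 0 (Or.inl rfl))

/-- The boundary of a chain of zero cubes for a property closed under precomposition. -/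
theorem bd_supp {P : C(Cb, X) → Prop} (hP : ∀ σ (f : C(Cb, Cb)), P σ → P (σ.comp f)) {k : ℤ}
    {c : Ch R X} (hc : c ∈ Finsupp.supported R R {σ | IsCube k σ ∧ (P σ ∨ Degen k σ)}) :
    bd k c ∈ Finsupp.supported R R {σ | IsCube (k - 1) σ ∧ (P σ ∨ Degen (k - 1) σ)} := by
  refine map_mem_of_supported (bd k) _ (fun σ hσ => ?_) hc
  obtain ⟨h1, h2⟩ := hσ
  rw [bd_apply]
  refine Submodule.sum_mem _ fun j hj => Submodule.smul_mem _ _ ?_
  rw [Finset.mem_range] at hj
  rw [face_single, face_single]
  rcases h2 with h2 | ⟨i, hi, h2⟩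
  · exact Submodule.sub_mem _
      (single_mem_supported (S := {σ | IsCube (k - 1) σ ∧ (P σ ∨ Degen (k - 1) σ)})
        ⟨h1.face (by omega) _, Or.inl (hP _ _ h2)⟩ _)
      (single_mem_supported (S := {σ | IsCube (k - 1) σ ∧ (P σ ∨ Degen (k - 1) σ)})
        ⟨h1.face (by omega) _, Or.inl (hP _ _ h2)⟩ _)
  · rcases eq_or_ne j i with hij | hij
    · subst hij
      rw [comp_ins_eq h2 1 0, sub_self]
      exact Submodule.zero_mem _
    · exact Submodule.sub_mem _
        (single_mem_supported (S := {σ | IsCube (k - 1) σ ∧ (P σ ∨ Degen (k - 1) σ)})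
          ⟨h1.face (by omega) _, Or.inr (degen_face h2 hi hij (by omega) _)⟩ _)
        (single_mem_supported (S := {σ | IsCube (k - 1) σ ∧ (P σ ∨ Degen (k - 1) σ)})
          ⟨h1.face (by omega) _, Or.inr (degen_face h2 hi hij (by omega) _)⟩ _)

/-- The boundary of a chain with a property closed under precomposition. -/
theorem bd_supp' {P : C(Cb, X) → Prop} (hP : ∀ σ (f : C(Cb, Cb)), P σ → P (σ.comp f)) {k : ℤ}
    {c : Ch R X} (hc : c ∈ Finsupp.supported R R {σ | IsCube k σ ∧ P σ}) :
    bd k c ∈ Finsupp.supported R R {σ | IsCube (k - 1) σ ∧ P σ} := by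
  refine map_mem_of_supported (bd k) _ (fun σ hσ => ?_) hc
  obtain ⟨h1, h2⟩ := hσ
  rw [bd_apply]
  refine Submodule.sum_mem _ fun j hj => Submodule.smul_mem _ _ ?_
  rw [Finset.mem_range] at hj
  rw [face_single, face_single]
  exact Submodule.sub_mem _
      (single_mem_supported (S := {σ | IsCube (k - 1) σ ∧ P σ})
        ⟨h1.face (by omega) _, hP _ _ h2⟩ _)
      (single_mem_supported (S := {σ | IsCube (k - 1) σ ∧ P σ})
        ⟨h1.face (by omega) _, hP _ _ h2⟩ _)

end SH1Aux

open SH1Aux

theorem fcr_mem (m : ℕ) {j : ℤ} {c : Ch R N} (hc : c ∈ (CS.top N).Z R j) :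
    fcr m c ∈ (CS.faces m N).Z R (m + j) := by
  have hcC : c ∈ CubeHom.C R j Set.univ := by
    have h := hc.1
    rwa [C_univ _ (fun _ => trivial)] at h
  refine ⟨?_, ?_⟩
  · rw [C_univ _ (fun _ => trivial)]
    exact C_mono _ (Set.subset_univ _) (cr_mem_C (id_mem m) hcC)
  · change bd (m + j) (cr m (Finsupp.single (idCube m) 1) c) ∈
      (CS.faces m N).Q R (m + j - 1)
    rw [bd_cr (id_mem m) hcC]
    refine Submodule.add_mem _ (cr_Q_left m hcC) (Submodule.smul_mem _ _ ?_)
    have h := cr_Q_right (R := R) m (show bd j c ∈ (CS.top N).Q R (j - 1) from hc.2)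
    rwa [← add_sub_assoc] at h

/-- Every relative cycle is homologous to `[I^m] × c`. (Induction on `m`; prism of the
contraction of one coordinate to `0`.) -/
theorem faces_surj (m : ℕ) {j : ℤ} {w : Ch R ((Fin m → I) × N)}
    (hw : w ∈ (CS.faces m N).Z R (m + j)) :
    ∃ c ∈ (CS.top N).Z R j, (CS.faces m N).Bd R (m + j) (w - fcr m c) := by
  induction m with
  | zero =>
    rw [Nat.cast_zero, zero_add] at hw ⊢
    refine ⟨push ContinuousMap.snd w, ⟨?_, ?_⟩, 0, Submodule.zero_mem _, ?_⟩
    · refine map_mem_of_supported (push ContinuousMap.snd) _ (fun σ hσ => ?_) hw.1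
      rw [push_single]
      exact C_single _ (hσ.1.comp _) trivial _
    · change bd j (push ContinuousMap.snd w) ∈ (CS.top N).Q R (j - 1)
      rw [bd_push]
      refine map_mem_of_supported (push ContinuousMap.snd) _ (fun σ hσ => ?_) hw.2
      rw [push_single]
      refine Q_single _ (hσ.1.comp _) trivial ?_ _
      rcases hσ.2.2 with ⟨i, -⟩ | h
      · exact i.elim0
      · exact Or.inr (h.comp _)
    · rw [fcr_zero, sub_self, map_zero, sub_zero]
      exact Submodule.zero_mem _
  | succ m ih =>
    have e1 : ((m + 1 : ℕ) : ℤ) + j = (m + j) + 1 := by push_cast; ring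
    rw [e1] at hw ⊢
    set k : ℤ := m + j with hk
    obtain ⟨hwC, hwZ⟩ := hw
    have hwZ' : bd (k + 1) w ∈ (CS.faces (m + 1) N).Q R k := by
      have h : bd (k + 1) w ∈ (CS.faces (m + 1) N).Q R (k + 1 - 1) := hwZ
      rwa [add_sub_cancel_right] at h
    have hwC' : w ∈ CubeHom.C R (k + 1) Set.univ := by
      rwa [C_univ _ (fun _ => trivial)] at hwC
    -- the two parts of the boundary
    let P1 : C(Cb, (Fin (m + 1) → I) × N) → Prop := fun σ => ∀ u, (σ u).1 0 = 1
    let P2 : C(Cb, (Fin (m + 1) → I) × N) → Prop := fun σ => (∀ u, (σ u).1 0 = 0) ∨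
      ∃ i : Fin m, (∀ u, (σ u).1 i.succ = 0) ∨ (∀ u, (σ u).1 i.succ = 1)
    have hP1 : ∀ σ (f : C(Cb, Cb)), P1 σ → P1 (σ.comp f) := fun σ f h u => h (f u)
    have hP2 : ∀ σ (f : C(Cb, Cb)), P2 σ → P2 (σ.comp f) := fun σ f h =>
      h.imp (fun h u => h (f u)) fun ⟨i, h⟩ => ⟨i, h.imp (fun h u => h (f u)) fun h u => h (f u)⟩
    have hsplit : bd (k + 1) w ∈ Finsupp.supported R R {σ | IsCube k σ ∧ P1 σ} ⊔
        Finsupp.supported R R {σ | IsCube k σ ∧ (P2 σ ∨ Degen k σ)} := by
      rw [← Finsupp.supported_union]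
      refine Finsupp.supported_mono ?_ hwZ'
      rintro σ ⟨h1, -, h2⟩
      rcases h2 with ⟨i, h2⟩ | h2
      · induction i using Fin.cases with
        | zero =>
          rcases h2 with h2 | h2
          · exact Or.inr ⟨h1, Or.inl (Or.inl h2)⟩
          · exact Or.inl ⟨h1, h2⟩
        | succ i => exact Or.inr ⟨h1, Or.inl (Or.inr ⟨i, h2⟩)⟩
      · exact Or.inr ⟨h1, Or.inr h2⟩
    obtain ⟨a, ha, q, hq, haq⟩ := Submodule.mem_sup.1 hsplit
    set a' : Ch R ((Fin m → I) × N) := push (tailI m N) a with ha'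
    have haa : push (atTime (consI m N) 1) a' = a := by
      rw [ha', push_push]
      have h := map_eq_of_supported (R := R)
        (push ((atTime (consI m N) 1).comp (tailI m N))) LinearMap.id (fun σ hσ => ?_) ha
      · simpa using h
      rw [push_single, LinearMap.id_apply]
      congr 1
      ext u : 1
      refine Prod.ext ?_ rfl
      funext i
      refine Fin.cases ?_ (fun i => rfl) i
      exact (hσ.2 u).symm
    have hbda : bd k a = - bd k q := by
      have h := bd_bd' k w
      rw [← haq, map_add] at h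
      exact eq_neg_of_add_eq_zero_left h
    have ha'Z : a' ∈ (CS.faces m N).Z R (m + j) := by
      refine ⟨?_, ?_⟩
      · refine map_mem_of_supported (push (tailI m N)) _ (fun σ hσ => ?_) ha
        rw [push_single]
        exact C_single _ (hσ.1.comp _) trivial _
      · change bd k a' ∈ (CS.faces m N).Q R (k - 1)
        rw [ha', bd_push]
        have h1 : bd k a ∈ Finsupp.supported R R {σ | IsCube (k - 1) σ ∧ P1 σ} :=
          bd_supp' hP1 ha
        have h2 : bd k a ∈
            Finsupp.supported R R {σ | IsCube (k - 1) σ ∧ (P2 σ ∨ Degen (k - 1) σ)} := by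
          rw [hbda]
          exact Submodule.neg_mem _ (bd_supp hP2 hq)
        have h3 : bd k a ∈ Finsupp.supported R R ({σ | IsCube (k - 1) σ ∧ P1 σ} ∩
            {σ | IsCube (k - 1) σ ∧ (P2 σ ∨ Degen (k - 1) σ)}) := by
          rw [Finsupp.supported_inter]
          exact ⟨h1, h2⟩
        refine map_mem_of_supported (push (tailI m N)) _ (fun σ hσ => ?_) h3
        rw [push_single]
        obtain ⟨⟨h4, h5⟩, -, h6⟩ := hσ
        refine Q_single _ (h4.comp _) trivial ?_ _
        rcases h6 with (h6 | ⟨i, h6⟩) | h6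
        · exact absurd ((h6 (fun _ => 0)).symm.trans (h5 (fun _ => 0))) (by simp)
        · exact Or.inl ⟨i, h6⟩
        · exact Or.inr (h6.comp _)
    obtain ⟨c, hcZ, b', hb', hcb⟩ := ih ha'Z
    refine ⟨c, hcZ, prism (conI m N) w - prism (consI m N) b', ?_, ?_⟩
    · rw [C_univ _ (fun _ => trivial)] at hb' ⊢
      exact Submodule.sub_mem _ (prism_mem_C (fun _ _ _ => Set.mem_univ _) hwC')
        (prism_mem_C (fun _ _ _ => Set.mem_univ _) hb')
    · have hb'' : b' ∈ CubeHom.C R (k + 1) Set.univ := by
        rwa [C_univ _ (fun _ => trivial)] at hb'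
      have f1 := bd_prism (H := conI m N) hwC'
      have f2 := bd_prism (H := consI m N) hb''
      have f3 : prism (conI m N) (bd (k + 1) w) =
          prism (consI m N) a' + prism (conI m N) q := by
        have f0 : (conI m N).comp ((ContinuousMap.id I).prodMap (atTime (consI m N) 1)) =
            consI m N := by
          ext p : 1
          refine Prod.ext ?_ rfl
          funext i
          refine Fin.cases ?_ (fun i => rfl) i
          change p.1 * 1 = p.1
          rw [mul_one]
        rw [← haq, map_add, ← haa, prism_push, f0]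
      have f4 : prism (consI m N) a' = fcr (m + 1) c + prism (consI m N) (bd (k + 1) b') +
          prism (consI m N) (a' - fcr m c - bd (k + 1) b') := by
        rw [fcr_succ, map_sub, map_sub]
        abel
      rw [conI_one, push_id] at f1
      have f5 : w - fcr (m + 1) c - bd (k + 1 + 1) (prism (conI m N) w - prism (consI m N) b') =
          push (atTime (conI m N) 0) w + prism (conI m N) q +
            prism (consI m N) (a' - fcr m c - bd (k + 1) b') +
            push (atTime (consI m N) 1) b' - push (atTime (consI m N) 0) b' := by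
        rw [map_sub, f1, f2, f3, f4]
        abel
      rw [f5]
      have face_mem : ∀ {Z : Type _} [TopologicalSpace Z] (f : C(Z, (Fin (m + 1) → I) × N))
          (_ : (∀ z, (f z).1 0 = 0) ∨ (∀ z, (f z).1 0 = 1)) (x : Ch R Z),
          x ∈ CubeHom.C R (k + 1) Set.univ → push f x ∈ (CS.faces (m + 1) N).Q R (k + 1) := by
        intro Z _ f hf x hx
        refine map_mem_of_supported (push f) _ (fun σ hσ => ?_) hx
        rw [push_single]
        refine Q_single (CS.faces (m + 1) N) (hσ.1.comp _) trivial (Or.inl ⟨0, ?_⟩) _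
        exact hf.imp (fun h u => h _) (fun h u => h _)
      refine Submodule.sub_mem _ (Submodule.add_mem _ (Submodule.add_mem _
        (Submodule.add_mem _ ?_ ?_) ?_) ?_) ?_
      · refine face_mem (atTime (conI m N) 0) (Or.inl fun z => ?_) w hwC'
        change (0 : I) * z.1 0 = 0
        rw [zero_mul]
      · refine map_mem_of_supported (prism (conI m N)) _ (fun σ hσ => ?_) hq
        obtain ⟨h1, h2⟩ := hσ
        rw [prism_single]
        have h4 : IsCube (k + 1) (crossCube 1 iota σ) := cross_isCube h1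
        refine Q_single _ (h4.comp _) trivial ?_ 1
        rcases h2 with (h2 | ⟨i, h2⟩) | h2
        · refine Or.inl ⟨0, Or.inl fun u => ?_⟩
          change iota u * (σ (drop 1 u)).1 0 = 0
          rw [h2, mul_zero]
        · refine Or.inl ⟨i.succ, h2.imp (fun h u => ?_) (fun h u => ?_)⟩
          · exact h (drop 1 u)
          · exact h (drop 1 u)
        · exact Or.inr ((cross_degen h2).comp _)
      · refine prism_Q (CS.faces m N) (CS.faces (m + 1) N) (fun _ => trivial) (consI m N)
          (fun σ hσ => ?_) hcb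
        obtain ⟨i, h⟩ := hσ
        exact ⟨i.succ, h.imp (fun h u => h (drop 1 u)) (fun h u => h (drop 1 u))⟩
      · exact face_mem (atTime (consI m N) 1) (Or.inr fun z => rfl) b' hb''
      · exact face_mem (atTime (consI m N) 0) (Or.inl fun z => rfl) b' hb''

end Pool.Agent.TC
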