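import Pool.Agent.Lib.TC.Coch

/-!
# The cube relative to its faces, definitions
-/

namespace Pool.Agent.TC

open CubeHom

variable {R : Type*} [CommRing R] {N : Type*} [TopologicalSpace N]

/-- The system of all cubes of `(Fin m → I) × N`, relative to the `2m` faces (each face
separately). -/
def CS.faces (m : ℕ) (N : Type*) [TopologicalSpace N] : CS ((Fin m → I) × N) :=
  ⟨fun _ => True,
    fun σ => ∃ i : Fin m, (∀ u, (σ u).1 i = 0) ∨ (∀ u, (σ u).1 i = 1),
    fun _ _ _ => trivial,
    fun _ f h => h.imp fun _ h => h.imp (fun h u => h (f u)) (fun h u => h (f u))⟩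

/-- The fundamental chain of the cube times a chain of `N`. -/
noncomputable def fcr (m : ℕ) (c : Ch R N) : Ch R ((Fin m → I) × N) :=
  cr m (Finsupp.single (idCube m) 1) c

/-- Reversal of one coordinate of the cube. -/
def revC (m : ℕ) (N : Type*) [TopologicalSpace N] (i : Fin m) :
    C((Fin m → I) × N, (Fin m → I) × N) where
  toFun q := (Function.update q.1 i (unitInterval.symm (q.1 i)), q.2)
  continuous_toFun := by fun_prop

end Pool.Agent.TC
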