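import Pool.Agent.Lib.TC.WuD

/-!
# The normal data of a smooth action
-/

namespace Pool.Agent.TC

open CubeHom
open scoped Manifold ContDiff

namespace NdatAux

/-- Euclidean space. -/
abbrev Eu (n : ℕ) : Type := EuclideanSpace ℝ (Fin (n + 1))

section radial

variable {G : Type} [Group G] {n : ℕ} [MulAction G (Sph n)]

theorem unit_mem {v : Eu n} (h : v ≠ 0) : ‖v‖⁻¹ • v ∈ Metric.sphere (0 : Eu n) 1 := by
  rw [mem_sphere_zero_iff_norm, norm_smul, norm_inv, norm_norm,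
    inv_mul_cancel₀ (norm_ne_zero_iff.2 h)]

open Classical in
/-- The radial extension of the action. -/
noncomputable def ex (g : G) (v : Eu n) : Eu n :=
  if h : v = 0 then 0 else ‖v‖ • ((g • (⟨‖v‖⁻¹ • v, unit_mem h⟩ : Sph n) : Sph n) : Eu n)

theorem ex_of_ne (g : G) {v : Eu n} (h : v ≠ 0) :
    ex g v = ‖v‖ • ((g • (⟨‖v‖⁻¹ • v, unit_mem h⟩ : Sph n) : Sph n) : Eu n) := dif_neg h

theorem ex_zero (g : G) : ex g (0 : Eu n) = 0 := dif_pos rfl

theorem norm_sph (x : Sph n) : ‖(x : Eu n)‖ = 1 := mem_sphere_zero_iff_norm.1 x.2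

theorem sph_ne (x : Sph n) : (x : Eu n) ≠ 0 := by
  intro h
  have := norm_sph x
  rw [h, norm_zero] at this
  exact zero_ne_one this

theorem ex_coe (g : G) (x : Sph n) : ex g (x : Eu n) = ((g • x : Sph n) : Eu n) := by
  have h : (⟨‖(x : Eu n)‖⁻¹ • (x : Eu n), unit_mem (sph_ne x)⟩ : Sph n) = x := by
    apply Subtype.ext
    change ‖(x : Eu n)‖⁻¹ • (x : Eu n) = x
    rw [norm_sph, inv_one, one_smul]
  rw [ex_of_ne g (sph_ne x), h, norm_sph, one_smul]

theorem norm_ex (g : G) (v : Eu n) : ‖ex g v‖ = ‖v‖ := by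
  by_cases h : v = 0
  · rw [h, ex_zero]
  · rw [ex_of_ne g h, norm_smul, norm_norm, norm_sph, mul_one]

theorem ex_ne (g : G) {v : Eu n} (h : v ≠ 0) : ex g v ≠ 0 := by
  rw [← norm_ne_zero_iff, norm_ex]
  exact norm_ne_zero_iff.2 h

theorem ex_smul_sph (g : G) {t : ℝ} (ht : 0 < t) (x : Sph n) :
    ex g (t • (x : Eu n)) = t • ((g • x : Sph n) : Eu n) := by
  have h : t • (x : Eu n) ≠ 0 := smul_ne_zero ht.ne' (sph_ne x)
  have hn : ‖t • (x : Eu n)‖ = t := by
    rw [norm_smul, norm_sph, mul_one, Real.norm_of_nonneg ht.le]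
  rw [ex_of_ne g h]
  simp only [hn]
  congr 3
  apply Subtype.ext
  change t⁻¹ • t • (x : Eu n) = x
  rw [smul_smul, inv_mul_cancel₀ ht.ne', one_smul]

theorem exists_sph {v : Eu n} (h : v ≠ 0) : ∃ (t : ℝ) (x : Sph n), 0 < t ∧ v = t • (x : Eu n) := by
  refine ⟨‖v‖, ⟨‖v‖⁻¹ • v, unit_mem h⟩, norm_pos_iff.2 h, ?_⟩
  change v = ‖v‖ • ‖v‖⁻¹ • v
  rw [smul_smul, mul_inv_cancel₀ (norm_ne_zero_iff.2 h), one_smul]

theorem ex_smul (g : G) {t : ℝ} (ht : 0 < t) (v : Eu n) : ex g (t • v) = t • ex g v := by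
  by_cases h : v = 0
  · rw [h, smul_zero, ex_zero, smul_zero]
  · obtain ⟨s, x, hs, rfl⟩ := exists_sph h
    rw [smul_smul, ex_smul_sph g (mul_pos ht hs), ex_smul_sph g hs, smul_smul]

theorem ex_mul (g h : G) (v : Eu n) : ex (g * h) v = ex g (ex h v) := by
  by_cases hv : v = 0
  · rw [hv, ex_zero, ex_zero, ex_zero]
  · obtain ⟨s, x, hs, rfl⟩ := exists_sph hv
    rw [ex_smul_sph _ hs, ex_smul_sph _ hs, ex_smul_sph _ hs, mul_smul]

theorem ex_one (v : Eu n) : ex (1 : G) v = v := by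
  by_cases hv : v = 0
  · rw [hv, ex_zero]
  · obtain ⟨s, x, hs, rfl⟩ := exists_sph hv
    rw [ex_smul_sph _ hs, one_smul]

/-- The complement of the origin. -/
def nz (n : ℕ) : TopologicalSpace.Opens (Eu n) := ⟨{v | v ≠ 0}, isOpen_ne⟩

theorem ex_contDiffAt (hs : ∀ g : G, ContMDiff (𝓡 n) (𝓡 n) ∞ (fun x : Sph n => g • x)) (g : G)
    {v : Eu n} (hv : v ≠ 0) : ContDiffAt ℝ ∞ (ex g) v := by
  have := Fact.mk (@finrank_euclideanSpace_fin ℝ _ (n + 1))
  have h0 : ContMDiff 𝓘(ℝ, Eu n) 𝓘(ℝ, Eu n) ∞ (fun w : nz n => (w : Eu n)) :=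
    contMDiff_subtype_val
  have hn : ContMDiff 𝓘(ℝ, Eu n) 𝓘(ℝ, ℝ) ∞ (fun w : nz n => ‖(w : Eu n)‖) := by
    intro w
    have h1 : ContMDiffAt 𝓘(ℝ, Eu n) 𝓘(ℝ, ℝ) ∞ (fun u : Eu n => ‖u‖) (w : Eu n) :=
      (contDiffAt_norm ℝ w.2).contMDiffAt
    exact contMDiffAt_subtype_iff.2 h1
  have h1 : ContMDiff 𝓘(ℝ, Eu n) 𝓘(ℝ, Eu n) ∞ (fun w : nz n => ‖(w : Eu n)‖⁻¹ • (w : Eu n)) := by
    intro w
    have h2 : ContDiffAt ℝ ∞ (fun u : Eu n => ‖u‖⁻¹ • u) (w : Eu n) :=
      ((contDiffAt_norm ℝ w.2).inv (norm_ne_zero_iff.2 w.2)).smul contDiffAt_id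
    exact contMDiffAt_subtype_iff.2 h2.contMDiffAt
  have h2 := h1.codRestrict_sphere (n := n) (fun w => unit_mem w.2)
  have h3 : ContMDiff 𝓘(ℝ, Eu n) (𝓡 n) ∞ (fun w : nz n =>
      g • (⟨‖(w : Eu n)‖⁻¹ • (w : Eu n), unit_mem w.2⟩ : Sph n)) := (hs g).comp h2
  have h4 : ContMDiff 𝓘(ℝ, Eu n) 𝓘(ℝ, Eu n) ∞ (fun w : nz n =>
      ((g • (⟨‖(w : Eu n)‖⁻¹ • (w : Eu n), unit_mem w.2⟩ : Sph n) : Sph n) : Eu n)) :=
    contMDiff_coe_sphere.comp h3
  have h5 : ContMDiff 𝓘(ℝ, Eu n) 𝓘(ℝ, Eu n) ∞ (fun w : nz n => ex g (w : Eu n)) := by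
    have h6 := hn.smul h4
    refine h6.congr fun w => ?_
    exact ex_of_ne g w.2
  have h6 := contMDiffAt_subtype_iff.1 (h5 ⟨v, hv⟩)
  exact h6.contDiffAt

/-- The differential at `v`. -/
noncomputable def dx (g : G) (v : Eu n) : Eu n →L[ℝ] Eu n := fderiv ℝ (ex g) v

theorem dx_continuousAt (hs : ∀ g : G, ContMDiff (𝓡 n) (𝓡 n) ∞ (fun x : Sph n => g • x)) (g : G)
    {v : Eu n} (hv : v ≠ 0) : ContinuousAt (dx g) v :=
  ((ex_contDiffAt hs g hv).fderiv_right (m := 0) (by simp)).continuousAt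

theorem dx_strict (hs : ∀ g : G, ContMDiff (𝓡 n) (𝓡 n) ∞ (fun x : Sph n => g • x)) (g : G)
    {v : Eu n} (hv : v ≠ 0) : HasStrictFDerivAt (ex g) (dx g v) v :=
  (ex_contDiffAt hs g hv).hasStrictFDerivAt (by simp)

theorem dx_one (v : Eu n) : dx (1 : G) v = ContinuousLinearMap.id ℝ (Eu n) := by
  have : ex (1 : G) = (id : Eu n → Eu n) := funext fun v => ex_one v
  rw [dx, this, fderiv_id]

theorem dx_mul (hs : ∀ g : G, ContMDiff (𝓡 n) (𝓡 n) ∞ (fun x : Sph n => g • x)) (g h : G)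
    {x : Sph n} (hx : h • x = x) : dx (g * h) (x : Eu n) = (dx g (x : Eu n)).comp (dx h x) := by
  have e : ex (g * h) = (ex g ∘ ex h : Eu n → Eu n) := funext fun v => ex_mul g h v
  have hx' : ex h (x : Eu n) = x := by rw [ex_coe, hx]
  have h1 : HasFDerivAt (ex g) (dx g (x : Eu n)) (ex h (x : Eu n)) := by
    rw [hx']; exact (dx_strict hs g (sph_ne x)).hasFDerivAt
  have h2 := h1.comp (x : Eu n) (dx_strict hs h (sph_ne x)).hasFDerivAt
  rw [dx, e]
  exact h2.fderiv

theorem dx_self (hs : ∀ g : G, ContMDiff (𝓡 n) (𝓡 n) ∞ (fun x : Sph n => g • x)) (g : G)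
    {x : Sph n} (hx : g • x = x) : dx g (x : Eu n) (x : Eu n) = x := by
  have h1 : HasDerivAt (fun t : ℝ => t • (x : Eu n)) (x : Eu n) 1 := by
    simpa using (hasDerivAt_id (1 : ℝ)).smul_const (x : Eu n)
  have h2 : HasFDerivAt (ex g) (dx g (x : Eu n)) ((1 : ℝ) • (x : Eu n)) := by
    rw [one_smul]; exact (dx_strict hs g (sph_ne x)).hasFDerivAt
  have h3 := h2.comp_hasDerivAt (1 : ℝ) h1
  have h4 : (ex g ∘ fun t : ℝ => t • (x : Eu n)) =ᶠ[nhds 1] fun t : ℝ => t • (x : Eu n) := by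
    filter_upwards [isOpen_Ioi.mem_nhds (show (0 : ℝ) < 1 from one_pos)] with t ht
    simp only [Function.comp_apply]
    rw [ex_smul_sph g ht, hx]
  exact (h3.congr_of_eventuallyEq h4.symm).unique h1

end radial

section eigen

variable {p : ℕ} [Fact p.Prime] {N : ℕ}

/-- The eigenprojections of a representation of the cyclic group. -/
noncomputable def pj (M : ZMod p → Matrix (Fin N) (Fin N) ℂ) (j : ZMod p) :
    Matrix (Fin N) (Fin N) ℂ :=
  (p : ℂ)⁻¹ • ∑ i : ZMod p, (ZMod.stdAddChar (-(i * j)) : ℂ) • M i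

theorem sum_char (j : ZMod p) :
    ∑ i : ZMod p, (ZMod.stdAddChar (i * j) : ℂ) = if j = 0 then (p : ℂ) else 0 := by
  have h := AddChar.sum_mulShift (R := ZMod p) (R' := ℂ) j (ZMod.isPrimitive_stdAddChar p)
  simpa [ZMod.card, mul_comm] using h

theorem p_ne : (p : ℂ) ≠ 0 := Nat.cast_ne_zero.2 (Fact.out : p.Prime).ne_zero

theorem pj_mul (M : ZMod p → Matrix (Fin N) (Fin N) ℂ) (hM : ∀ i k, M (i + k) = M i * M k)
    (j k : ZMod p) : pj M j * pj M k = if j = k then pj M j else 0 := by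
  have h1 : pj M j * pj M k = (p : ℂ)⁻¹ • ((p : ℂ)⁻¹ • ∑ m : ZMod p,
      (∑ i : ZMod p, (ZMod.stdAddChar (i * (k - j)) : ℂ)) •
        ((ZMod.stdAddChar (-(m * k)) : ℂ) • M m)) := by
    unfold pj
    rw [Matrix.smul_mul, Matrix.mul_smul, Finset.sum_mul_sum]
    congr 2
    have h2 : ∀ i : ZMod p, ∑ l : ZMod p, ((ZMod.stdAddChar (-(i * j)) : ℂ) • M i) *
        ((ZMod.stdAddChar (-(l * k)) : ℂ) • M l) =
        ∑ m : ZMod p, (ZMod.stdAddChar (i * (k - j)) : ℂ) •
          ((ZMod.stdAddChar (-(m * k)) : ℂ) • M m) := by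
      intro i
      rw [← Equiv.sum_comp (Equiv.addLeft i) (fun m : ZMod p =>
        (ZMod.stdAddChar (i * (k - j)) : ℂ) • ((ZMod.stdAddChar (-(m * k)) : ℂ) • M m))]
      refine Finset.sum_congr rfl fun l _ => ?_
      rw [Equiv.coe_addLeft, hM, Matrix.smul_mul, Matrix.mul_smul, smul_smul, smul_smul,
        ← AddChar.map_add_eq_mul, ← AddChar.map_add_eq_mul]
      congr 2
      ring
    rw [Finset.sum_congr rfl fun i _ => h2 i, Finset.sum_comm]
    refine Finset.sum_congr rfl fun m _ => ?_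
    rw [Finset.sum_smul]
  rw [h1]
  simp only [sum_char, sub_eq_zero]
  by_cases h : j = k
  · subst h
    simp only [if_true]
    rw [← Finset.smul_sum, smul_smul ((p : ℂ)⁻¹) (p : ℂ), inv_mul_cancel₀ p_ne, one_smul]
    rfl
  · rw [if_neg h]
    simp [Ne.symm h]

theorem sum_pj (M : ZMod p → Matrix (Fin N) (Fin N) ℂ) (h0 : M 0 = 1) :
    ∑ j : ZMod p, pj M j = 1 := by
  unfold pj
  rw [← Finset.smul_sum, Finset.sum_comm]
  have h1 : ∀ i : ZMod p, ∑ j : ZMod p, (ZMod.stdAddChar (-(i * j)) : ℂ) • M i =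
      if i = 0 then (p : ℂ) • M 0 else 0 := by
    intro i
    rw [← Finset.sum_smul]
    have h2 : ∑ j : ZMod p, (ZMod.stdAddChar (-(i * j)) : ℂ) = if -i = 0 then (p : ℂ) else 0 := by
      rw [← sum_char (-i)]
      refine Finset.sum_congr rfl fun j _ => ?_
      congr 1
      ring
    rw [h2]
    by_cases hi : i = 0
    · subst hi; simp
    · rw [if_neg (neg_ne_zero.2 hi), if_neg hi, zero_smul]
  rw [Finset.sum_congr rfl fun i _ => h1 i, Finset.sum_ite_eq', if_pos (Finset.mem_univ _),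
    smul_smul, inv_mul_cancel₀ p_ne, one_smul, h0]

/-- Sums of eigenprojections. -/
noncomputable def ps (M : ZMod p → Matrix (Fin N) (Fin N) ℂ) (S : Finset (ZMod p)) :
    Matrix (Fin N) (Fin N) ℂ := ∑ j ∈ S, pj M j

theorem ps_mul (M : ZMod p → Matrix (Fin N) (Fin N) ℂ) (hM : ∀ i k, M (i + k) = M i * M k)
    (S T : Finset (ZMod p)) : ps M S * ps M T = ps M (S ∩ T) := by
  unfold ps
  rw [Finset.sum_mul_sum]
  simp only [pj_mul M hM]
  rw [Finset.sum_congr rfl fun j _ => Finset.sum_ite_eq T j _, ← Finset.sum_filter,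
    Finset.filter_mem_eq_inter]

theorem ps_conj (M : ZMod p → Matrix (Fin N) (Fin N) ℂ)
    (hr : ∀ i, (M i).map (starRingEnd ℂ) = M i) (S : Finset (ZMod p)) :
    (ps M S).map (starRingEnd ℂ) = ps M (S.image (fun j => -j)) := by
  unfold ps
  rw [Finset.sum_image (fun a _ b _ h => neg_injective h)]
  ext a b
  rw [Matrix.map_apply, Matrix.sum_apply, Matrix.sum_apply, map_sum]
  refine Finset.sum_congr rfl fun j _ => ?_
  unfold pj
  simp only [Matrix.smul_apply, Matrix.sum_apply, smul_eq_mul, map_mul, map_inv₀, map_sum,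
    Complex.conj_natCast]
  congr 1
  refine Finset.sum_congr rfl fun i _ => ?_
  have h1 : (starRingEnd ℂ) (M i a b) = M i a b := by
    have := congrFun (congrFun (hr i) a) b
    exact this
  rw [h1, mul_neg, neg_neg]
  congr 1
  rw [AddChar.map_neg_eq_conj, Complex.conj_conj]

end eigen

/-- Idempotent matrices have frames. -/
theorem exists_frame {N : ℕ} (P : Matrix (Fin N) (Fin N) ℂ) (hP : P * P = P) :
    ∃ (k : ℕ) (s : Matrix (Fin N) (Fin k) ℂ) (t : Matrix (Fin k) (Fin N) ℂ), IsFrame P s t := by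
  let L := Matrix.toLin' P
  let R := LinearMap.range L
  let b := Module.finBasis ℂ R
  let s : Matrix (Fin N) (Fin (Module.finrank ℂ R)) ℂ := Matrix.of fun i j => (b j : Fin N → ℂ) i
  let t : Matrix (Fin (Module.finrank ℂ R)) (Fin N) ℂ :=
    LinearMap.toMatrix' ((b.equivFun : R →ₗ[ℂ] _).comp L.rangeRestrict)
  have hs : ∀ c : Fin (Module.finrank ℂ R) → ℂ, s.mulVec c = ((b.equivFun.symm c : R) : Fin N → ℂ) := by
    intro c
    rw [Module.Basis.equivFun_symm_apply]
    ext i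
    simp [s, Matrix.mulVec, dotProduct, mul_comm]
  have ht : ∀ v, t.mulVec v = b.equivFun (L.rangeRestrict v) := by
    intro v
    rw [LinearMap.toMatrix'_mulVec]
    rfl
  have hL : ∀ v, P.mulVec v = L v := fun v => rfl
  refine ⟨_, s, t, ?_, ?_⟩
  · apply Matrix.toLin'.injective
    refine LinearMap.ext fun c => ?_
    rw [Matrix.toLin'_mul, LinearMap.comp_apply, Matrix.toLin'_apply, Matrix.toLin'_apply, hs, ht,
      Matrix.toLin'_one, LinearMap.id_apply]
    have h1 : L.rangeRestrict ((b.equivFun.symm c : R) : Fin N → ℂ) = b.equivFun.symm c := by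
      apply Subtype.ext
      obtain ⟨w, hw⟩ := (b.equivFun.symm c : R).2
      rw [LinearMap.codRestrict_apply, ← hw, ← hL, ← hL, Matrix.mulVec_mulVec, hP]
    rw [h1, LinearEquiv.apply_symm_apply]
  · apply Matrix.toLin'.injective
    refine LinearMap.ext fun v => ?_
    rw [Matrix.toLin'_mul, LinearMap.comp_apply, Matrix.toLin'_apply, Matrix.toLin'_apply, hs, ht,
      LinearEquiv.symm_apply_apply]
    rfl

section real

variable {n : ℕ}

/-- The complexified matrix of a real map. -/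
noncomputable def mt (A : Eu n →L[ℝ] Eu n) : Matrix (Fin (n + 1)) (Fin (n + 1)) ℂ :=
  Matrix.of fun l k => ((A (EuclideanSpace.single k 1) l : ℝ) : ℂ)

/-- A real vector as a complex one. -/
noncomputable def cx (u : Eu n) : Fin (n + 1) → ℂ := fun k => ((u k : ℝ) : ℂ)

/-- The real part of a complex vector. -/
noncomputable def rl (w : Fin (n + 1) → ℂ) : Eu n := WithLp.toLp 2 fun k => (w k).re

theorem rl_apply (w : Fin (n + 1) → ℂ) (k : Fin (n + 1)) : rl w k = (w k).re := rfl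

theorem map_expand (A : Eu n →L[ℝ] Eu n) (u : Eu n) (l : Fin (n + 1)) :
    A u l = ∑ k, A (EuclideanSpace.single k 1) l * u k := by
  have h1 : u = ∑ k, u k • (EuclideanSpace.single k 1 : Eu n) := by
    ext l
    rw [WithLp.ofLp_sum, Finset.sum_apply]
    simp
  conv_lhs => rw [h1]
  rw [map_sum, WithLp.ofLp_sum, Finset.sum_apply]
  refine Finset.sum_congr rfl fun k _ => ?_
  rw [map_smul]
  simp [mul_comm]

theorem mt_mulVec (A : Eu n →L[ℝ] Eu n) (u : Eu n) : (mt A).mulVec (cx u) = cx (A u) := by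
  ext l
  simp only [Matrix.mulVec, dotProduct, mt, cx, Matrix.of_apply]
  rw [map_expand A u l]
  push_cast
  rfl

theorem mt_comp (A B : Eu n →L[ℝ] Eu n) : mt (A.comp B) = mt A * mt B := by
  ext l k
  rw [Matrix.mul_apply]
  simp only [mt, Matrix.of_apply, ContinuousLinearMap.comp_apply]
  rw [map_expand A]
  push_cast
  rfl

theorem mt_id : mt (ContinuousLinearMap.id ℝ (Eu n)) = 1 := by
  ext l k
  simp only [mt, Matrix.of_apply, ContinuousLinearMap.id_apply, Matrix.one_apply]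
  rw [PiLp.single_apply]
  split_ifs <;> simp

theorem mt_conj (A : Eu n →L[ℝ] Eu n) : (mt A).map (starRingEnd ℂ) = mt A := by
  ext l k
  simp [mt]

theorem rl_mulVec (A : Eu n →L[ℝ] Eu n) (w : Fin (n + 1) → ℂ) :
    rl ((mt A).mulVec w) = A (rl w) := by
  ext l
  rw [map_expand A (rl w) l, rl_apply]
  simp only [Matrix.mulVec, dotProduct, mt, Matrix.of_apply, rl_apply]
  rw [Complex.re_sum]
  refine Finset.sum_congr rfl fun k _ => ?_
  rw [Complex.re_ofReal_mul]

theorem rl_cx (u : Eu n) : rl (cx u) = u := by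
  ext l
  rfl

theorem rl_add (v w : Fin (n + 1) → ℂ) : rl (v + w) = rl v + rl w := by
  ext l
  simp [rl_apply]

theorem rl_conj (w : Fin (n + 1) → ℂ) : rl (fun k => (starRingEnd ℂ) (w k)) = rl w := by
  ext l
  simp [rl_apply]

end real

section rep

variable {p : ℕ} [Fact p.Prime] {n : ℕ} (D : ZMod p → (Eu n →L[ℝ] Eu n))

/-- The average. -/
noncomputable def av : Eu n →L[ℝ] Eu n := (p : ℝ)⁻¹ • ∑ i, D i

theorem av_apply (u : Eu n) : av D u = (p : ℝ)⁻¹ • ∑ i, D i u := by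
  simp [av]

/-- Half of the nonzero residues. -/
def Jh (p : ℕ) [Fact p.Prime] : Finset (ZMod p) :=
  Finset.univ.filter fun j => 0 < j.val ∧ 2 * j.val < p

/-- The matrices. -/
noncomputable def Mt (i : ZMod p) : Matrix (Fin (n + 1)) (Fin (n + 1)) ℂ := mt (D i)

/-- The projection. -/
noncomputable def PJ : Matrix (Fin (n + 1)) (Fin (n + 1)) ℂ := ps (Mt D) (Jh p)

variable (hD : ∀ i k, D (i + k) = (D i).comp (D k)) (h0 : D 0 = ContinuousLinearMap.id ℝ (Eu n))

include hD in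
theorem Mt_mul (i k : ZMod p) : Mt D (i + k) = Mt D i * Mt D k := by
  unfold Mt
  rw [hD, mt_comp]

include h0 in
theorem Mt_zero : Mt D 0 = 1 := by
  unfold Mt
  rw [h0, mt_id]

include hD in
theorem PJ_idem : PJ D * PJ D = PJ D := by
  unfold PJ
  rw [ps_mul _ (Mt_mul D hD), Finset.inter_self]

theorem neg_val (j : ZMod p) (hj : j ≠ 0) : (-j).val = p - j.val := by
  rw [ZMod.neg_val, if_neg hj]

theorem conj_PJ : (PJ D).map (starRingEnd ℂ) = ps (Mt D) ((Jh p).image fun j => -j) :=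
  ps_conj _ (fun i => mt_conj (D i)) _

theorem disj_J : Jh p ∩ (Jh p).image (fun j => -j) = ∅ := by
  ext j
  simp only [Finset.mem_inter, Finset.mem_image, Finset.notMem_empty, iff_false]
  rintro ⟨h1, k, h2, h3⟩
  simp only [Jh, Finset.mem_filter, Finset.mem_univ, true_and] at h1 h2
  have hk : k ≠ 0 := by
    rintro rfl
    simp at h2
  have h4 := neg_val k hk
  rw [h3] at h4
  have := ZMod.val_lt k
  omega

include hD in
theorem PJ_conj : PJ D * (PJ D).map (starRingEnd ℂ) = 0 := by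
  rw [conj_PJ]
  unfold PJ
  rw [ps_mul _ (Mt_mul D hD), disj_J]
  simp [ps]

include hD in
theorem P0_PJ : ps (Mt D) {0} * PJ D = 0 := by
  unfold PJ
  rw [ps_mul _ (Mt_mul D hD)]
  have : ({0} : Finset (ZMod p)) ∩ Jh p = ∅ := by
    ext j
    simp only [Jh, Finset.mem_inter, Finset.mem_singleton, Finset.mem_filter, Finset.mem_univ,
      true_and, Finset.notMem_empty, iff_false]
    rintro ⟨rfl, h, -⟩
    simp at h
  rw [this]
  simp [ps]

include h0 in
theorem sum_P (hp : p ≠ 2) : ps (Mt D) {0} + PJ D + (PJ D).map (starRingEnd ℂ) = 1 := by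
  rw [conj_PJ, ← sum_pj (Mt D) (Mt_zero D h0)]
  unfold PJ
  unfold ps
  have h1 : Disjoint ({0} : Finset (ZMod p)) (Jh p) := by
    rw [Finset.disjoint_singleton_left]
    simp [Jh]
  have h2 : Disjoint ({0} ∪ Jh p) ((Jh p).image fun j => -j) := by
    rw [Finset.disjoint_union_left]
    refine ⟨?_, Finset.disjoint_iff_inter_eq_empty.2 disj_J⟩
    rw [Finset.disjoint_singleton_left]
    simp [Jh]
  rw [← Finset.sum_union h1, ← Finset.sum_union h2]
  refine Finset.sum_congr ?_ fun _ _ => rfl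
  ext j
  simp only [Finset.mem_union, Finset.mem_singleton, Finset.mem_image, Finset.mem_univ, iff_true]
  by_cases hj : j = 0
  · exact Or.inl (Or.inl hj)
  have hodd : Odd p := (Fact.out : p.Prime).odd_of_ne_two hp
  have hv : 0 < j.val := Nat.pos_of_ne_zero (by rwa [Ne, ZMod.val_eq_zero])
  have hlt := ZMod.val_lt j
  by_cases h : 2 * j.val < p
  · left; right
    simp [Jh, h, hj]
  · right
    refine ⟨-j, ?_, neg_neg j⟩
    simp only [Jh, Finset.mem_filter, Finset.mem_univ, true_and]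
    rw [neg_val j hj]
    obtain ⟨q, hq⟩ := hodd
    omega

theorem P0_mulVec_rl (w : Fin (n + 1) → ℂ) : rl ((ps (Mt D) {0}).mulVec w) = av D (rl w) := by
  have h1 : (ps (Mt D) {0}).mulVec w = fun k => ((p : ℝ) : ℂ)⁻¹ * (∑ i, (Mt D i).mulVec w) k := by
    ext k
    simp only [ps, Finset.sum_singleton, pj, mul_zero, neg_zero, AddChar.map_zero_eq_one, one_smul]
    rw [Matrix.smul_mulVec, Matrix.sum_mulVec]
    simp
  ext k
  rw [h1, rl_apply, ← Complex.ofReal_inv, Complex.re_ofReal_mul, av_apply]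
  simp only [Finset.sum_apply, Complex.re_sum, PiLp.smul_apply, smul_eq_mul]
  rw [WithLp.ofLp_sum, Finset.sum_apply]
  congr 1
  refine Finset.sum_congr rfl fun i _ => ?_
  rw [← rl_mulVec]
  rfl

theorem P0_cx (u : Eu n) : (ps (Mt D) {0}).mulVec (cx u) = cx (av D u) := by
  have h1 : (ps (Mt D) {0}).mulVec (cx u) =
      fun k => ((p : ℝ) : ℂ)⁻¹ * (∑ i, (Mt D i).mulVec (cx u)) k := by
    ext k
    simp only [ps, Finset.sum_singleton, pj, mul_zero, neg_zero, AddChar.map_zero_eq_one, one_smul]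
    rw [Matrix.smul_mulVec, Matrix.sum_mulVec]
    simp
  ext k
  rw [h1, cx, av_apply]
  simp only [Finset.sum_apply, PiLp.smul_apply, smul_eq_mul]
  rw [WithLp.ofLp_sum, Finset.sum_apply]
  push_cast
  congr 1
  refine Finset.sum_congr rfl fun i _ => ?_
  unfold Mt
  rw [mt_mulVec]
  rfl

variable {m : ℕ} {s : Matrix (Fin (n + 1)) (Fin m) ℂ} {t : Matrix (Fin m) (Fin (n + 1)) ℂ}

theorem tmap_eq (s : Matrix (Fin (n + 1)) (Fin m) ℂ) (x : Eu n) (q : (Fin m → ℂ) × ℝ) :
    tmap s x q = rl (s.mulVec q.1) + q.2 • x := by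
  ext k
  rfl

theorem frame_P (hst : IsFrame (PJ D) s t) : PJ D * s = s := by
  rw [← hst.right, Matrix.mul_assoc, hst.left, Matrix.mul_one]

include hD in
theorem av_tmap (hst : IsFrame (PJ D) s t) {x : Eu n} (hx : av D x = x) (q : (Fin m → ℂ) × ℝ) :
    av D (tmap s x q) = q.2 • x := by
  rw [tmap_eq, map_add, map_smul, hx, ← P0_mulVec_rl, Matrix.mulVec_mulVec, ← frame_P D hst,
    ← Matrix.mul_assoc, P0_PJ D hD, Matrix.zero_mul, Matrix.zero_mulVec]
  have : rl (0 : Fin (n + 1) → ℂ) = 0 := by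
    ext k; rfl
  rw [this, zero_add]

include h0 in
theorem tmap_of_av (hp : p ≠ 2) (hst : IsFrame (PJ D) s t) {x u : Eu n} {r : ℝ}
    (hu : av D u = r • x) : tmap s x ((2 : ℂ) • t.mulVec (cx u), r) = u := by
  rw [tmap_eq]
  have h1 : cx u = (ps (Mt D) {0}).mulVec (cx u) + (PJ D).mulVec (cx u) +
      ((PJ D).map (starRingEnd ℂ)).mulVec (cx u) := by
    rw [← Matrix.add_mulVec, ← Matrix.add_mulVec, sum_P D h0 hp, Matrix.one_mulVec]
  have h2 : ((PJ D).map (starRingEnd ℂ)).mulVec (cx u) =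
      fun k => (starRingEnd ℂ) ((PJ D).mulVec (cx u) k) := by
    ext k
    simp [Matrix.mulVec, dotProduct, cx]
  have h3 := congrArg rl h1
  rw [rl_cx, rl_add, rl_add, P0_cx, rl_cx, hu, h2, rl_conj] at h3
  have h4 : s.mulVec ((2 : ℂ) • t.mulVec (cx u)) = (PJ D).mulVec (cx u) + (PJ D).mulVec (cx u) := by
    rw [Matrix.mulVec_smul, Matrix.mulVec_mulVec, hst.right, two_smul]
  simp only [h4, rl_add]
  conv_rhs => rw [h3]
  abel

include hD in
theorem tmap_inj (hst : IsFrame (PJ D) s t) {x : Eu n} (hx : av D x = x) (hx0 : x ≠ 0) :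
    Function.Injective (tmap s x) := by
  have key : ∀ q : (Fin m → ℂ) × ℝ, tmap s x q = 0 → q = 0 := by
    intro q hq
    have h1 := av_tmap D hD hst hx q
    rw [hq, map_zero] at h1
    have h2 : q.2 = 0 := by
      rcases smul_eq_zero.1 h1.symm with h | h
      · exact h
      · exact absurd h hx0
    rw [tmap_eq, h2, zero_smul, add_zero] at hq
    have h3 : s.mulVec q.1 = - fun k => (starRingEnd ℂ) (s.mulVec q.1 k) := by
      ext k
      have h4 := congrFun (congrArg (fun v : Eu n => (v : Fin (n + 1) → ℝ)) hq) k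
      have h5 : (s.mulVec q.1 k).re = 0 := h4
      rw [Pi.neg_apply]
      apply Complex.ext
      · rw [Complex.neg_re, Complex.conj_re, h5, neg_zero]
      · rw [Complex.neg_im, Complex.conj_im, neg_neg]
    have h6 : (fun k => (starRingEnd ℂ) (s.mulVec q.1 k)) =
        ((PJ D).map (starRingEnd ℂ)).mulVec (fun k => (starRingEnd ℂ) (s.mulVec q.1 k)) := by
      ext k
      conv_lhs => rw [← frame_P D hst, ← Matrix.mulVec_mulVec]
      simp [Matrix.mulVec, dotProduct]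
    have h7 : s.mulVec q.1 = 0 := by
      have h8 : s.mulVec q.1 = (PJ D).mulVec (s.mulVec q.1) := by
        rw [Matrix.mulVec_mulVec, frame_P D hst]
      rw [h8]
      conv_lhs => rw [h3]
      rw [Matrix.mulVec_neg, h6, Matrix.mulVec_mulVec, PJ_conj D hD, Matrix.zero_mulVec, neg_zero]
    have h9 : q.1 = 0 := by
      have := congrArg t.mulVec h7
      rwa [Matrix.mulVec_mulVec, hst.left, Matrix.one_mulVec, Matrix.mulVec_zero] at this
    exact Prod.ext h9 h2
  intro a b hab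
  have h1 : tmap s x (a - b) = 0 := by
    have h2 : tmap s x (a - b) = tmap s x a - tmap s x b := by
      rw [tmap_eq, tmap_eq, tmap_eq]
      simp only [Prod.fst_sub, Prod.snd_sub, Matrix.mulVec_sub, sub_smul]
      have h3 : ∀ v w : Fin (n + 1) → ℂ, rl (v - w) = rl v - rl w := by
        intro v w
        ext l
        simp [rl_apply]
      rw [h3]
      abel
    rw [h2, hab, sub_self]
  exact sub_eq_zero.1 (key _ h1)

end rep

section main

variable {p : ℕ} [Fact p.Prime] {n : ℕ} [MulAction (Cp p) (Sph n)]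

/-- The differentials of the group elements at a point. -/
noncomputable def Dx (x : Eu n) (i : ZMod p) : Eu n →L[ℝ] Eu n := dx (Multiplicative.ofAdd i) x

variable (hs : ∀ g : Cp p, ContMDiff (𝓡 n) (𝓡 n) ∞ (fun x : Sph n => g • x))

include hs in
theorem Dx_add (x : Fx (Cp p) (Sph n)) (i k : ZMod p) :
    Dx ((x : Sph n) : Eu n) (i + k) =
      (Dx ((x : Sph n) : Eu n) i).comp (Dx ((x : Sph n) : Eu n) k) := by
  unfold Dx
  rw [ofAdd_add]
  exact dx_mul hs _ _ (x.2 _)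

theorem Dx_zero (x : Eu n) : Dx x (0 : ZMod p) = ContinuousLinearMap.id ℝ (Eu n) := by
  unfold Dx
  rw [ofAdd_zero]
  exact dx_one (G := Cp p) x

include hs in
theorem Dx_self (x : Fx (Cp p) (Sph n)) (i : ZMod p) :
    Dx ((x : Sph n) : Eu n) i ((x : Sph n) : Eu n) = ((x : Sph n) : Eu n) := dx_self hs _ (x.2 _)

include hs in
theorem av_self (x : Fx (Cp p) (Sph n)) :
    av (Dx (p := p) ((x : Sph n) : Eu n)) ((x : Sph n) : Eu n) = ((x : Sph n) : Eu n) := by
  rw [av_apply]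
  simp only [Dx_self hs x, Finset.sum_const, Finset.card_univ, ZMod.card]
  rw [← Nat.cast_smul_eq_nsmul ℝ, smul_smul, inv_mul_cancel₀, one_smul]
  exact Nat.cast_ne_zero.2 (Fact.out : p.Prime).ne_zero

theorem ex_fix (x : Fx (Cp p) (Sph n)) (g : Cp p) :
    ex g ((x : Sph n) : Eu n) = ((x : Sph n) : Eu n) := by
  rw [ex_coe, x.2 g]

include hs in
/-- The uniform estimate near a point. -/
theorem near_est (g : Cp p) (x0 : Sph n) : ∀ᶠ q : Eu n × Eu n in nhds ((x0 : Eu n), (x0 : Eu n)),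
    ‖ex g q.1 - ex g q.2 - dx g q.2 (q.1 - q.2)‖ ≤ 1 / 4 * ‖q.1 - q.2‖ := by
  have h1 := (dx_strict hs g (sph_ne x0)).isLittleO.def (c := 1 / 8) (by norm_num)
  have h2 : ∀ᶠ q : Eu n × Eu n in nhds ((x0 : Eu n), (x0 : Eu n)),
      ‖dx g q.2 - dx g (x0 : Eu n)‖ < 1 / 8 := by
    have h3 : ContinuousAt (fun q : Eu n × Eu n => dx g q.2) ((x0 : Eu n), (x0 : Eu n)) :=
      ContinuousAt.comp (f := Prod.snd) (g := dx g) (dx_continuousAt hs g (sph_ne x0))
        continuousAt_snd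
    have h4 := h3.eventually (Metric.ball_mem_nhds _ (show (0 : ℝ) < 1 / 8 by norm_num))
    filter_upwards [h4] with q hq
    rwa [dist_eq_norm] at hq
  filter_upwards [h1, h2] with q hq1 hq2
  have e1 : ex g q.1 - ex g q.2 - dx g q.2 (q.1 - q.2) =
      (ex g q.1 - ex g q.2 - dx g (x0 : Eu n) (q.1 - q.2)) -
        (dx g q.2 - dx g (x0 : Eu n)) (q.1 - q.2) := by
    rw [sub_apply]
    abel
  rw [e1]
  refine (norm_sub_le _ _).trans ?_
  have h5 := (dx g q.2 - dx g (x0 : Eu n)).le_opNorm (q.1 - q.2)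
  have h6 : ‖dx g q.2 - dx g (x0 : Eu n)‖ * ‖q.1 - q.2‖ ≤ 1 / 8 * ‖q.1 - q.2‖ :=
    mul_le_mul_of_nonneg_right hq2.le (norm_nonneg _)
  linarith

omit [MulAction (Cp p) (Sph n)] in
/-- Two nearby fixed points do not differ by a normal vector. -/
theorem near_alg {x y : Eu n} (hx : ‖x‖ = 1) (hy : ‖y‖ = 1) (hxy : ‖y - x‖ < 1 / 2) {r : ℝ}
    (h : ‖(y - x) - r • x‖ ≤ 1 / 4 * ‖y - x‖) : y = x := by
  have h1 : |r| ≤ 5 / 4 * ‖y - x‖ := by
    have h2 : ‖r • x‖ = |r| := by rw [norm_smul, hx, mul_one, Real.norm_eq_abs]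
    have h3 : r • x = (y - x) - ((y - x) - r • x) := by abel
    rw [← h2]
    have h4 := norm_sub_le (y - x) ((y - x) - r • x)
    rw [← h3] at h4
    linarith
  have h2 : |r| < 1 := by linarith
  have h3 : 0 < 1 + r := by
    have := (abs_lt.1 h2).1
    linarith
  have h4 : ‖(1 + r) • x‖ = 1 + r := by
    rw [norm_smul, hx, mul_one, Real.norm_of_nonneg h3.le]
  have h5 : |r| ≤ ‖(y - x) - r • x‖ := by
    have h6 := abs_norm_sub_norm_le y ((1 + r) • x)
    rw [hy, h4] at h6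
    have h7 : y - (1 + r) • x = (y - x) - r • x := by
      rw [add_smul, one_smul]
      abel
    rw [h7] at h6
    have h8 : |1 - (1 + r)| = |r| := by
      rw [show 1 - (1 + r) = -r by ring, abs_neg]
    rwa [h8] at h6
  have h6 : ‖y - x‖ ≤ ‖(y - x) - r • x‖ + |r| := by
    have h7 := norm_add_le ((y - x) - r • x) (r • x)
    rw [sub_add_cancel, norm_smul, hx, mul_one, Real.norm_eq_abs] at h7
    exact h7
  have h7 : ‖y - x‖ ≤ 0 := by linarith
  exact sub_eq_zero.1 (norm_le_zero_iff.1 h7)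

include hs in
theorem near (m : ℕ) : ∃ O : Set (Fx (Cp p) (Sph n) × Fx (Cp p) (Sph n)), IsOpen O ∧
    (∀ x, (x, x) ∈ O) ∧ ∀ x y, (y, x) ∈ O →
    ∀ s t, IsFrame (m := m) (PJ (Dx (p := p) ((x : Sph n) : Eu n))) s t → ∀ q,
      ((y : Sph n) : Eu n) - ((x : Sph n) : Eu n) = tmap s ((x : Sph n) : Eu n) q → y = x := by
  let Gd : Set (Fx (Cp p) (Sph n) × Fx (Cp p) (Sph n)) := {z |
    ∀ s t, IsFrame (m := m) (PJ (Dx (p := p) ((z.2 : Sph n) : Eu n))) s t → ∀ q,
      ((z.1 : Sph n) : Eu n) - ((z.2 : Sph n) : Eu n) = tmap s ((z.2 : Sph n) : Eu n) q →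
        z.1 = z.2}
  refine ⟨interior Gd, isOpen_interior, fun x0 => ?_, fun x y hxy => interior_subset hxy⟩
  rw [mem_interior_iff_mem_nhds]
  have hc : Continuous fun z : Fx (Cp p) (Sph n) × Fx (Cp p) (Sph n) =>
      (((z.1 : Sph n) : Eu n), ((z.2 : Sph n) : Eu n)) := by fun_prop
  have h1 : ∀ i : ZMod p, ∀ᶠ z : Fx (Cp p) (Sph n) × Fx (Cp p) (Sph n) in nhds (x0, x0),
      ‖ex (Multiplicative.ofAdd i) ((z.1 : Sph n) : Eu n) -
        ex (Multiplicative.ofAdd i) ((z.2 : Sph n) : Eu n) -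
        dx (Multiplicative.ofAdd i) ((z.2 : Sph n) : Eu n)
          (((z.1 : Sph n) : Eu n) - ((z.2 : Sph n) : Eu n))‖ ≤
        1 / 4 * ‖((z.1 : Sph n) : Eu n) - ((z.2 : Sph n) : Eu n)‖ := fun i =>
    (hc.continuousAt (x := (x0, x0))).eventually
      (near_est hs (Multiplicative.ofAdd i) (x0 : Sph n))
  have h2 : ∀ᶠ z : Fx (Cp p) (Sph n) × Fx (Cp p) (Sph n) in nhds (x0, x0),
      ‖((z.1 : Sph n) : Eu n) - ((z.2 : Sph n) : Eu n)‖ < 1 / 2 := by
    have h3 : Continuous fun z : Fx (Cp p) (Sph n) × Fx (Cp p) (Sph n) =>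
        ‖((z.1 : Sph n) : Eu n) - ((z.2 : Sph n) : Eu n)‖ := by fun_prop
    refine h3.continuousAt.eventually_lt continuousAt_const ?_
    simp
  filter_upwards [Filter.eventually_all.2 h1, h2] with z hz1 hz2
  intro s t hst q hq
  apply Subtype.ext
  apply Subtype.ext
  set x : Eu n := ((z.2 : Sph n) : Eu n) with hx
  set y : Eu n := ((z.1 : Sph n) : Eu n) with hy
  have e1 : av (Dx (p := p) x) (y - x) = q.2 • x := by
    rw [hq]
    exact av_tmap _ (Dx_add hs z.2) hst (av_self hs z.2) q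
  refine near_alg (norm_sph _) (norm_sph _) hz2 (r := q.2) ?_
  rw [← e1]
  have hp0 : (p : ℝ) ≠ 0 := Nat.cast_ne_zero.2 (Fact.out : p.Prime).ne_zero
  have e2 : (y - x) - av (Dx (p := p) x) (y - x) =
      (p : ℝ)⁻¹ • ∑ i : ZMod p, ((y - x) - Dx (p := p) x i (y - x)) := by
    rw [av_apply, Finset.sum_sub_distrib, smul_sub]
    simp only [Finset.sum_const, Finset.card_univ, ZMod.card]
    rw [← Nat.cast_smul_eq_nsmul ℝ, smul_smul, inv_mul_cancel₀ hp0, one_smul]
  rw [e2, norm_smul, norm_inv, Real.norm_natCast, inv_mul_le_iff₀ (by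
    have := (Fact.out : p.Prime).pos
    exact_mod_cast this)]
  refine (norm_sum_le _ _).trans ?_
  have e3 : ∀ i : ZMod p, ‖(y - x) - Dx (p := p) x i (y - x)‖ ≤ 1 / 4 * ‖y - x‖ := by
    intro i
    have := hz1 i
    rwa [ex_fix, ex_fix] at this
  refine (Finset.sum_le_sum fun i _ => e3 i).trans ?_
  simp only [Finset.sum_const, Finset.card_univ, ZMod.card]
  rw [nsmul_eq_mul]

end main

section main2

variable {p : ℕ} [Fact p.Prime] {n : ℕ} [MulAction (Cp p) (Sph n)]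

/-- The averaged radial extension. -/
noncomputable def Ps (x : Eu n) (v : Eu n) : Eu n :=
  (p : ℝ)⁻¹ • ∑ i : ZMod p, Dx (p := p) x (-i) (ex (Multiplicative.ofAdd i) v)

/-- The straightening map. -/
noncomputable def Th (x : Eu n) (v : Eu n) : Eu n :=
  Ps (p := p) x v - inner ℝ x (av (Dx (p := p) x) (Ps (p := p) x v)) • x +
    ((‖v‖ ^ 2 - 1) / 2) • x

variable (hs : ∀ g : Cp p, ContMDiff (𝓡 n) (𝓡 n) ∞ (fun x : Sph n => g • x))

theorem pr_ne : (p : ℝ) ≠ 0 := Nat.cast_ne_zero.2 (Fact.out : p.Prime).ne_zero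

include hs in
theorem Ps_ex (x : Fx (Cp p) (Sph n)) (k : ZMod p) (v : Eu n) :
    Ps (p := p) ((x : Sph n) : Eu n) (ex (Multiplicative.ofAdd k) v) =
      Dx (p := p) ((x : Sph n) : Eu n) k (Ps (p := p) ((x : Sph n) : Eu n) v) := by
  unfold Ps
  rw [map_smul, map_sum]
  congr 1
  rw [← Equiv.sum_comp (Equiv.addRight k) (fun j : ZMod p =>
    Dx (p := p) ((x : Sph n) : Eu n) k (Dx (p := p) ((x : Sph n) : Eu n) (-j)
      (ex (Multiplicative.ofAdd j) v)))]
  refine Finset.sum_congr rfl fun i _ => ?_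
  rw [Equiv.coe_addRight, ← ex_mul, ← ofAdd_add, ← ContinuousLinearMap.comp_apply,
    ← Dx_add hs x]
  congr 2
  ring

include hs in
theorem Ps_fix (x y : Fx (Cp p) (Sph n)) :
    Ps (p := p) ((x : Sph n) : Eu n) ((y : Sph n) : Eu n) =
      av (Dx (p := p) ((x : Sph n) : Eu n)) ((y : Sph n) : Eu n) := by
  have _h := hs
  unfold Ps
  rw [av_apply]
  congr 1
  simp only [ex_fix]
  exact Equiv.sum_comp (Equiv.neg (ZMod p)) (fun j : ZMod p =>
    Dx (p := p) ((x : Sph n) : Eu n) j ((y : Sph n) : Eu n))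

include hs in
theorem D_av (x : Fx (Cp p) (Sph n)) (k : ZMod p) (u : Eu n) :
    Dx (p := p) ((x : Sph n) : Eu n) k (av (Dx (p := p) ((x : Sph n) : Eu n)) u) =
      av (Dx (p := p) ((x : Sph n) : Eu n)) u := by
  rw [av_apply, map_smul, map_sum]
  congr 1
  rw [← Equiv.sum_comp (Equiv.addLeft k) (fun j : ZMod p =>
    Dx (p := p) ((x : Sph n) : Eu n) j u)]
  refine Finset.sum_congr rfl fun i _ => ?_
  rw [Equiv.coe_addLeft, Dx_add hs x]
  rfl

theorem av_of_fix {D : ZMod p → (Eu n →L[ℝ] Eu n)} {u : Eu n} (h : ∀ k, D k u = u) :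
    av D u = u := by
  rw [av_apply]
  simp only [h, Finset.sum_const, Finset.card_univ, ZMod.card]
  rw [← Nat.cast_smul_eq_nsmul ℝ, smul_smul, inv_mul_cancel₀ pr_ne, one_smul]

include hs in
theorem av_av (x : Fx (Cp p) (Sph n)) (u : Eu n) :
    av (Dx (p := p) ((x : Sph n) : Eu n)) (av (Dx (p := p) ((x : Sph n) : Eu n)) u) =
      av (Dx (p := p) ((x : Sph n) : Eu n)) u := av_of_fix fun k => D_av hs x k u

include hs in
theorem D_of_av (x : Fx (Cp p) (Sph n)) {u : Eu n}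
    (h : av (Dx (p := p) ((x : Sph n) : Eu n)) u = u) (k : ZMod p) :
    Dx (p := p) ((x : Sph n) : Eu n) k u = u := by
  conv_lhs => rw [← h]
  rw [D_av hs x, h]

include hs in
theorem Ps_strict (x : Fx (Cp p) (Sph n)) :
    HasStrictFDerivAt (Ps (p := p) ((x : Sph n) : Eu n)) (ContinuousLinearMap.id ℝ (Eu n))
      ((x : Sph n) : Eu n) := by
  have h1 : ∀ i : ZMod p, HasStrictFDerivAt (fun v : Eu n =>
      Dx (p := p) ((x : Sph n) : Eu n) (-i) (ex (Multiplicative.ofAdd i) v))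
      ((Dx (p := p) ((x : Sph n) : Eu n) (-i)).comp (Dx (p := p) ((x : Sph n) : Eu n) i))
      ((x : Sph n) : Eu n) := fun i =>
    (Dx (p := p) ((x : Sph n) : Eu n) (-i)).hasStrictFDerivAt.comp ((x : Sph n) : Eu n)
      (dx_strict hs (Multiplicative.ofAdd i) (sph_ne (x : Sph n)))
  have h3 := HasStrictFDerivAt.fun_sum (u := (Finset.univ : Finset (ZMod p)))
    (fun i _ => h1 i)
  have h4 := h3.const_smul ((p : ℝ)⁻¹)
  refine h4.congr_fderiv ?_
  refine ContinuousLinearMap.ext fun v => ?_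
  have h5 : ∀ i : ZMod p, ((Dx (p := p) ((x : Sph n) : Eu n) (-i)).comp
      (Dx (p := p) ((x : Sph n) : Eu n) i)) v = v := by
    intro i
    rw [← Dx_add hs x, neg_add_cancel, Dx_zero]
    rfl
  rw [smul_apply, sum_apply]
  simp only [h5, Finset.sum_const, Finset.card_univ, ZMod.card]
  rw [← Nat.cast_smul_eq_nsmul ℝ, smul_smul, inv_mul_cancel₀ pr_ne, one_smul]
  rfl

/-- The functional in the derivative of the straightening map. -/
noncomputable def fn (D : ZMod p → (Eu n →L[ℝ] Eu n)) (x : Eu n) : Eu n →L[ℝ] ℝ :=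
  (innerSL ℝ x).comp (av D) - innerSL ℝ x

theorem fn_apply (D : ZMod p → (Eu n →L[ℝ] Eu n)) (x u : Eu n) :
    fn D x u = inner ℝ x (av D u) - inner ℝ x u := rfl

/-- The derivative of the straightening map. -/
noncomputable def dTh (D : ZMod p → (Eu n →L[ℝ] Eu n)) (x : Eu n) (hx : av D x = x) :
    Eu n ≃L[ℝ] Eu n :=
  ContinuousLinearEquiv.equivOfInverse
    (ContinuousLinearMap.id ℝ (Eu n) - (fn D x).smulRight x)
    (ContinuousLinearMap.id ℝ (Eu n) + (fn D x).smulRight x)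
    (fun u => by
      have h : fn D x x = 0 := by rw [fn_apply, hx, sub_self]
      simp only [sub_apply, add_apply, ContinuousLinearMap.id_apply,
        ContinuousLinearMap.smulRight_apply, map_sub, map_smul, h]
      simp)
    (fun u => by
      have h : fn D x x = 0 := by rw [fn_apply, hx, sub_self]
      simp only [sub_apply, add_apply, ContinuousLinearMap.id_apply,
        ContinuousLinearMap.smulRight_apply, map_add, map_smul, h]
      simp)

include hs in
theorem Th_strict (x : Fx (Cp p) (Sph n)) :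
    HasStrictFDerivAt (Th (p := p) ((x : Sph n) : Eu n))
      (dTh (Dx (p := p) ((x : Sph n) : Eu n)) ((x : Sph n) : Eu n) (av_self hs x) :
        Eu n →L[ℝ] Eu n) ((x : Sph n) : Eu n) := by
  set X : Eu n := ((x : Sph n) : Eu n) with hX
  have h1 := Ps_strict hs x
  have h2 : HasStrictFDerivAt (fun v : Eu n => inner ℝ X (av (Dx (p := p) X) (Ps (p := p) X v)))
      (((innerSL ℝ X).comp (av (Dx (p := p) X))).comp (ContinuousLinearMap.id ℝ (Eu n))) X :=
    ((innerSL ℝ X).comp (av (Dx (p := p) X))).hasStrictFDerivAt.comp X h1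
  have h3 : HasStrictFDerivAt (fun v : Eu n => (‖v‖ ^ 2 - 1) / 2) (innerSL ℝ X) X := by
    have h4 : HasStrictFDerivAt (fun v : Eu n => ‖v‖ ^ 2) (2 • innerSL ℝ X) X :=
      hasStrictFDerivAt_norm_sq X
    have h5 := (h4.sub_const (1 : ℝ)).mul_const ((2 : ℝ)⁻¹)
    have e : (fun v : Eu n => (‖v‖ ^ 2 - 1) / 2) = fun v : Eu n => (‖v‖ ^ 2 - 1) * (2 : ℝ)⁻¹ := by
      funext v; rw [div_eq_mul_inv]
    rw [e]
    refine h5.congr_fderiv ?_
    ext v
    simp
  have h4 := (h1.sub (h2.smul_const X)).add (h3.smul_const X)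
  refine h4.congr_fderiv ?_
  refine ContinuousLinearMap.ext fun u => ?_
  change u - (inner ℝ X (av (Dx (p := p) X) u)) • X + (inner ℝ X u) • X =
    u - (fn (Dx (p := p) X) X u) • X
  rw [fn_apply, sub_smul]
  abel

/-- The tangential part. -/
noncomputable def pT (D : ZMod p → (Eu n →L[ℝ] Eu n)) (x : Eu n) : Eu n →L[ℝ] Eu n :=
  av D - ((innerSL ℝ x).comp (av D)).smulRight x

theorem pT_apply (D : ZMod p → (Eu n →L[ℝ] Eu n)) (x u : Eu n) :
    pT D x u = av D u - inner ℝ x (av D u) • x := rfl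

/-- The tangent space of the fixed point set. -/
noncomputable def Ts (D : ZMod p → (Eu n →L[ℝ] Eu n)) (x : Eu n) : Submodule ℝ (Eu n) where
  carrier := {u | av D u = u ∧ inner ℝ x u = 0}
  add_mem' := fun {a b} ha hb => ⟨by rw [map_add, ha.1, hb.1], by
    rw [inner_add_right, ha.2, hb.2, add_zero]⟩
  zero_mem' := ⟨map_zero _, inner_zero_right _⟩
  smul_mem' := fun c v hv => ⟨by rw [map_smul, hv.1], by rw [inner_smul_right, hv.2, mul_zero]⟩

theorem mem_Ts {D : ZMod p → (Eu n →L[ℝ] Eu n)} {x u : Eu n} :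
    u ∈ Ts D x ↔ av D u = u ∧ inner ℝ x u = 0 := Iff.rfl

include hs in
theorem pT_mem (x : Fx (Cp p) (Sph n)) (u : Eu n) :
    pT (Dx (p := p) ((x : Sph n) : Eu n)) ((x : Sph n) : Eu n) u ∈
      Ts (Dx (p := p) ((x : Sph n) : Eu n)) ((x : Sph n) : Eu n) := by
  rw [mem_Ts, pT_apply]
  constructor
  · rw [map_sub, map_smul, av_av hs, av_self hs]
  · rw [inner_sub_right, inner_smul_right, real_inner_self_eq_norm_sq, norm_sph]
    ring

include hs in
theorem Th_fix (x y : Fx (Cp p) (Sph n)) :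
    Th (p := p) ((x : Sph n) : Eu n) ((y : Sph n) : Eu n) =
      pT (Dx (p := p) ((x : Sph n) : Eu n)) ((x : Sph n) : Eu n) ((y : Sph n) : Eu n) := by
  unfold Th
  rw [Ps_fix hs, av_av hs, norm_sph, pT_apply]
  simp

include hs in
/-- Points whose image is tangential are fixed points. -/
theorem of_Th (x : Fx (Cp p) (Sph n)) {v : Eu n}
    (hv : Th (p := p) ((x : Sph n) : Eu n) v ∈
      Ts (Dx (p := p) ((x : Sph n) : Eu n)) ((x : Sph n) : Eu n)) :
    ‖v‖ = 1 ∧ ∀ k : ZMod p, Th (p := p) ((x : Sph n) : Eu n) (ex (Multiplicative.ofAdd k) v) =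
      Th (p := p) ((x : Sph n) : Eu n) v := by
  set X : Eu n := ((x : Sph n) : Eu n) with hX
  obtain ⟨h1, h2⟩ := mem_Ts.1 hv
  have h3 : av (Dx (p := p) X) (Ps (p := p) X v) = Ps (p := p) X v := by
    have e1 : Ps (p := p) X v = Th (p := p) X v +
        (inner ℝ X (av (Dx (p := p) X) (Ps (p := p) X v)) - (‖v‖ ^ 2 - 1) / 2) • X := by
      unfold Th
      rw [sub_smul]
      abel
    rw [e1, map_add, map_smul, h1, av_self hs x]
  constructor
  · have e2 : inner ℝ X (Th (p := p) X v) = (‖v‖ ^ 2 - 1) / 2 := by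
      unfold Th
      rw [inner_add_right, inner_sub_right, inner_smul_right, inner_smul_right, h3,
        real_inner_self_eq_norm_sq, norm_sph]
      ring
    rw [e2] at h2
    have e3 : ‖v‖ ^ 2 = 1 := by linarith
    exact (sq_eq_sq₀ (norm_nonneg _) zero_le_one).1 (by rw [e3, one_pow])
  · intro k
    unfold Th
    rw [Ps_ex hs x, D_of_av hs x h3, norm_ex]

end main2

section main3

variable {p : ℕ} [Fact p.Prime] {n : ℕ} [MulAction (Cp p) (Sph n)]

variable (hs : ∀ g : Cp p, ContMDiff (𝓡 n) (𝓡 n) ∞ (fun x : Sph n => g • x))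

/-- The chart of the fixed point set. -/
noncomputable def cT (x : Fx (Cp p) (Sph n)) (y : Fx (Cp p) (Sph n)) :
    Ts (Dx (p := p) ((x : Sph n) : Eu n)) ((x : Sph n) : Eu n) :=
  ⟨pT (Dx (p := p) ((x : Sph n) : Eu n)) ((x : Sph n) : Eu n) ((y : Sph n) : Eu n),
    pT_mem hs x _⟩

include hs in
/-- Near a fixed point, the fixed point set is a graph over its tangent space. -/
theorem exists_chartT (x : Fx (Cp p) (Sph n)) :
    ∃ U : Set (Fx (Cp p) (Sph n)), IsOpen U ∧ x ∈ U ∧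
      Topology.IsOpenEmbedding (fun y : U => cT hs x y) := by
  set X : Eu n := ((x : Sph n) : Eu n) with hX
  let e := (Th_strict hs x).toOpenPartialHomeomorph (Th (p := p) X)
  have hsrc : X ∈ e.source := (Th_strict hs x).mem_toOpenPartialHomeomorph_source
  have he : ∀ v, e v = Th (p := p) X v := fun v => rfl
  have h1 : ∀ k : ZMod p, ∀ᶠ v in nhds X, ex (Multiplicative.ofAdd k) v ∈ e.source := by
    intro k
    have h2 : ContinuousAt (ex (Multiplicative.ofAdd k)) X :=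
      (dx_strict hs (Multiplicative.ofAdd k) (sph_ne (x : Sph n))).continuousAt
    refine h2.eventually (e.open_source.mem_nhds ?_)
    rw [ex_fix]
    exact hsrc
  have h2 : ∀ᶠ v in nhds X, v ∈ e.source ∧
      ∀ k : ZMod p, ex (Multiplicative.ofAdd k) v ∈ e.source :=
    (e.open_source.eventually_mem hsrc).and (Filter.eventually_all.2 h1)
  obtain ⟨O, hO1, hO2, hO3⟩ := mem_nhds_iff.1 h2
  have hjc : Continuous fun y : Fx (Cp p) (Sph n) => ((y : Sph n) : Eu n) := by fun_prop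
  refine ⟨{y | ((y : Sph n) : Eu n) ∈ O}, hO2.preimage hjc, hO3, ?_⟩
  set U : Set (Fx (Cp p) (Sph n)) := {y | ((y : Sph n) : Eu n) ∈ O} with hU
  have hval : ∀ y : Fx (Cp p) (Sph n), ((cT hs x y : Ts (Dx (p := p) X) X) : Eu n) =
      Th (p := p) X ((y : Sph n) : Eu n) := fun y => (Th_fix hs x y).symm
  refine Topology.IsOpenEmbedding.of_continuous_injective_isOpenMap ?_ ?_ ?_
  · refine Continuous.subtype_mk ?_ _
    exact (pT (Dx (p := p) X) X).continuous.comp (hjc.comp continuous_subtype_val)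
  · intro y y' h
    have h3 := congrArg (fun u : Ts (Dx (p := p) X) X => (u : Eu n)) h
    simp only [hval] at h3
    have h4 := e.injOn (hO1 y.2).1 (hO1 y'.2).1 h3
    exact Subtype.ext (Subtype.ext (Subtype.ext h4))
  · intro V hV
    have hind : Topology.IsInducing fun y : U => (((y : Fx (Cp p) (Sph n)) : Sph n) : Eu n) :=
      Topology.IsInducing.subtypeVal.comp
        (Topology.IsInducing.subtypeVal.comp Topology.IsInducing.subtypeVal)
    obtain ⟨O', hO', hVO⟩ := hind.isOpen_iff.1 hV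
    have himg : IsOpen (e '' (O' ∩ O)) :=
      e.isOpen_image_of_subset_source (hO'.inter hO2) fun v hv => (hO1 hv.2).1
    have : (fun y : U => cT hs x y) '' V =
        (fun u : Ts (Dx (p := p) X) X => (u : Eu n)) ⁻¹' (e '' (O' ∩ O)) := by
      ext u
      constructor
      · rintro ⟨y, hy, rfl⟩
        refine ⟨(((y : Fx (Cp p) (Sph n)) : Sph n) : Eu n), ⟨?_, y.2⟩, (hval _).symm⟩
        rw [← hVO] at hy
        exact hy
      · rintro ⟨v, ⟨hv1, hv2⟩, hv3⟩
        have hv3' : Th (p := p) X v = (u : Eu n) := hv3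
        obtain ⟨g1, g2⟩ := of_Th hs x (v := v) (by rw [← hX, hv3']; exact u.2)
        let y0 : Sph n := ⟨v, mem_sphere_zero_iff_norm.2 g1⟩
        have g3 : ∀ g : Cp p, g • y0 = y0 := by
          intro g
          apply Subtype.ext
          rw [← ex_coe]
          exact e.injOn ((hO1 hv2).2 (Multiplicative.toAdd g)) (hO1 hv2).1
            (g2 (Multiplicative.toAdd g))
        let y : U := ⟨⟨y0, g3⟩, hv2⟩
        refine ⟨y, ?_, ?_⟩
        · rw [← hVO]
          exact hv1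
        · apply Subtype.ext
          rw [hval]
          exact hv3'
    rw [this]
    exact himg.preimage continuous_subtype_val

section lin

variable {m : ℕ} {s : Matrix (Fin (n + 1)) (Fin m) ℂ} {t : Matrix (Fin m) (Fin (n + 1)) ℂ}

omit [MulAction (Cp p) (Sph n)] in
theorem rl_smul_real (r : ℝ) (w : Fin (n + 1) → ℂ) : rl (r • w) = r • rl w := by
  ext l
  simp [rl_apply]

omit [Fact p.Prime] [MulAction (Cp p) (Sph n)] in
/-- `tmap` as a linear map. -/
noncomputable def tL (s : Matrix (Fin (n + 1)) (Fin m) ℂ) (x : Eu n) :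
    ((Fin m → ℂ) × ℝ) →ₗ[ℝ] Eu n where
  toFun := tmap s x
  map_add' a b := by
    rw [tmap_eq, tmap_eq, tmap_eq]
    simp only [Prod.fst_add, Prod.snd_add, Matrix.mulVec_add, add_smul, rl_add]
    abel
  map_smul' c a := by
    rw [tmap_eq, tmap_eq]
    simp only [Prod.smul_fst, Prod.smul_snd, RingHom.id_apply, smul_add]
    have h : s.mulVec (c • a.1) = c • s.mulVec a.1 := by
      ext k
      simp [Matrix.mulVec, dotProduct, Finset.mul_sum]
      refine Finset.sum_congr rfl fun i _ => ?_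
      ring
    rw [h]
    have h2 : rl (c • s.mulVec a.1) = c • rl (s.mulVec a.1) := by
      ext l
      simp [rl_apply]
    rw [h2, smul_smul]
    rfl

/-- The decomposition of the ambient space. -/
noncomputable def dec (D : ZMod p → (Eu n →L[ℝ] Eu n)) (s : Matrix (Fin (n + 1)) (Fin m) ℂ)
    (x : Eu n) : (Ts D x × ((Fin m → ℂ) × ℝ)) →ₗ[ℝ] Eu n :=
  (Ts D x).subtype.coprod (tL s x)

theorem dec_apply (D : ZMod p → (Eu n →L[ℝ] Eu n)) (s : Matrix (Fin (n + 1)) (Fin m) ℂ)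
    (x : Eu n) (q : Ts D x × ((Fin m → ℂ) × ℝ)) : dec D s x q = (q.1 : Eu n) + tmap s x q.2 := rfl

include hs in
theorem dec_bij (hp : p ≠ 2) (x : Fx (Cp p) (Sph n))
    (hst : IsFrame (PJ (Dx (p := p) ((x : Sph n) : Eu n))) s t) :
    Function.Bijective (dec (Dx (p := p) ((x : Sph n) : Eu n)) s ((x : Sph n) : Eu n)) := by
  set X : Eu n := ((x : Sph n) : Eu n) with hX
  have hXX : inner ℝ X X = (1 : ℝ) := by
    rw [real_inner_self_eq_norm_sq, norm_sph, one_pow]
  constructor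
  · rw [injective_iff_map_eq_zero]
    intro q hq
    rw [dec_apply] at hq
    have h1 := congrArg (av (Dx (p := p) X)) hq
    rw [map_add, av_tmap _ (Dx_add hs x) hst (av_self hs x), map_zero, (mem_Ts.1 q.1.2).1] at h1
    have h2 := congrArg (fun v : Eu n => (inner ℝ X v : ℝ)) h1
    simp only [inner_add_right, inner_smul_right, inner_zero_right] at h2
    rw [(mem_Ts.1 q.1.2).2, ← hX, hXX] at h2
    have h3 : q.2.2 = 0 := by linarith
    rw [h3, zero_smul, add_zero] at h1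
    rw [h1, zero_add] at hq
    have h4 : q.2 = 0 := by
      refine tmap_inj _ (Dx_add hs x) hst (av_self hs x) (sph_ne _) ?_
      rw [hq]
      exact (map_zero (tL s X)).symm
    exact Prod.ext (Subtype.ext h1) h4
  · intro w
    refine ⟨(⟨pT (Dx (p := p) X) X w, pT_mem hs x w⟩,
      ((2 : ℂ) • t.mulVec (cx (w - pT (Dx (p := p) X) X w)),
        inner ℝ X (av (Dx (p := p) X) w))), ?_⟩
    rw [dec_apply]
    have h1 : av (Dx (p := p) X) (w - pT (Dx (p := p) X) X w) =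
        (inner ℝ X (av (Dx (p := p) X) w) : ℝ) • X := by
      rw [pT_apply, map_sub, map_sub, map_smul, av_av hs, av_self hs]
      abel
    rw [tmap_of_av _ (Dx_zero _) hp hst h1]
    change pT (Dx (p := p) X) X w + (w - pT (Dx (p := p) X) X w) = w
    abel

/-- The decomposition as an equivalence. -/
noncomputable def decE (hp : p ≠ 2) (x : Fx (Cp p) (Sph n))
    (hst : IsFrame (PJ (Dx (p := p) ((x : Sph n) : Eu n))) s t) :
    (Ts (Dx (p := p) ((x : Sph n) : Eu n)) ((x : Sph n) : Eu n) × ((Fin m → ℂ) × ℝ)) ≃L[ℝ] Eu n :=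
  (LinearEquiv.ofBijective _ (dec_bij hs hp x hst)).toContinuousLinearEquiv

theorem decE_apply (hp : p ≠ 2) (x : Fx (Cp p) (Sph n))
    (hst : IsFrame (PJ (Dx (p := p) ((x : Sph n) : Eu n))) s t) (q) :
    decE hs hp x hst q = (q.1 : Eu n) + tmap s ((x : Sph n) : Eu n) q.2 := rfl

include hs in
theorem finrank_Ts (hp : p ≠ 2) (x : Fx (Cp p) (Sph n))
    (hst : IsFrame (PJ (Dx (p := p) ((x : Sph n) : Eu n))) s t) :
    Module.finrank ℝ (Ts (Dx (p := p) ((x : Sph n) : Eu n)) ((x : Sph n) : Eu n)) + 2 * m = n := by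
  have h := (decE hs hp x hst).toLinearEquiv.finrank_eq
  rw [Module.finrank_prod, Module.finrank_prod, Module.finrank_self, finrank_euclideanSpace,
    Fintype.card_fin, Module.finrank_pi_fintype] at h
  simp only [Complex.finrank_real_complex, Finset.sum_const, Finset.card_univ, Fintype.card_fin,
    smul_eq_mul] at h
  omega

theorem pT_of_dec (hp : p ≠ 2) (x : Fx (Cp p) (Sph n))
    (hst : IsFrame (PJ (Dx (p := p) ((x : Sph n) : Eu n))) s t) (q) :
    pT (Dx (p := p) ((x : Sph n) : Eu n)) ((x : Sph n) : Eu n) (decE hs hp x hst q) = q.1 := by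
  have hXX : inner ℝ ((x : Sph n) : Eu n) ((x : Sph n) : Eu n) = (1 : ℝ) := by
    rw [real_inner_self_eq_norm_sq, norm_sph, one_pow]
  rw [decE_apply, pT_apply, map_add, (mem_Ts.1 q.1.2).1,
    av_tmap _ (Dx_add hs x) hst (av_self hs x), inner_add_right, inner_smul_right, hXX,
    (mem_Ts.1 q.1.2).2]
  simp

include hs in
theorem local_emb (hp : p ≠ 2) (x : Fx (Cp p) (Sph n))
    (hst : IsFrame (PJ (Dx (p := p) ((x : Sph n) : Eu n))) s t) :
    ∃ U : Set (Fx (Cp p) (Sph n)), IsOpen U ∧ x ∈ U ∧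
    Topology.IsOpenEmbedding (fun q : U × ((Fin m → ℂ) × ℝ) =>
      ((((q.1 : Fx (Cp p) (Sph n)) : Sph n) : Eu n) - ((x : Sph n) : Eu n)) +
        tmap s ((x : Sph n) : Eu n) q.2) := by
  obtain ⟨U, hU, hxU, hc⟩ := exists_chartT hs x
  refine ⟨U, hU, hxU, ?_⟩
  set X : Eu n := ((x : Sph n) : Eu n) with hX
  let A := decE hs hp x hst
  let κ : U → ((Fin m → ℂ) × ℝ) := fun y =>
    (A.symm ((((y : Fx (Cp p) (Sph n)) : Sph n) : Eu n) - X)).2
  have hκ : Continuous κ := by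
    refine continuous_snd.comp (A.symm.continuous.comp ?_)
    fun_prop
  let Sh : U × ((Fin m → ℂ) × ℝ) ≃ₜ U × ((Fin m → ℂ) × ℝ) :=
    { toFun := fun q => (q.1, κ q.1 + q.2)
      invFun := fun q => (q.1, q.2 - κ q.1)
      left_inv := fun q => by
        refine Prod.ext rfl ?_
        change κ q.1 + q.2 - κ q.1 = q.2
        abel
      right_inv := fun q => by
        refine Prod.ext rfl ?_
        change κ q.1 + (q.2 - κ q.1) = q.2
        abel
      continuous_toFun := by fun_prop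
      continuous_invFun := by fun_prop }
  have h1 : Topology.IsOpenEmbedding (Prod.map (fun y : U => cT hs x y)
      (id : ((Fin m → ℂ) × ℝ) → ((Fin m → ℂ) × ℝ))) :=
    hc.prodMap Topology.IsOpenEmbedding.id
  have h2 := (A.toHomeomorph.isOpenEmbedding.comp h1).comp Sh.isOpenEmbedding
  convert h2 using 1
  funext q
  have h3 : (A.symm ((((q.1 : Fx (Cp p) (Sph n)) : Sph n) : Eu n) - X)).1 = cT hs x q.1 := by
    apply Subtype.ext
    rw [← pT_of_dec hs hp x hst]
    change pT (Dx (p := p) X) X (A (A.symm _)) = _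
    rw [ContinuousLinearEquiv.apply_symm_apply, map_sub]
    have h4 : pT (Dx (p := p) X) X X = 0 := by
      have hXX : inner ℝ X X = (1 : ℝ) := by
        rw [real_inner_self_eq_norm_sq, norm_sph, one_pow]
      rw [pT_apply, av_self hs x, ← hX, hXX, one_smul, sub_self]
    rw [h4, sub_zero]
    rfl
  have h5 : A (cT hs x q.1, κ q.1) = ((((q.1 : Fx (Cp p) (Sph n)) : Sph n) : Eu n) - X) := by
    rw [← h3]
    exact A.apply_symm_apply _
  change _ = A (cT hs x q.1, κ q.1 + q.2)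
  have h6 : (cT hs x q.1, κ q.1 + q.2) = (cT hs x q.1, κ q.1) + ((0 : Ts (Dx (p := p) X) X), q.2) := by
    refine Prod.ext ?_ rfl
    change cT hs x q.1 = cT hs x q.1 + 0
    rw [add_zero]
  rw [h6, map_add, h5]
  congr 1
  change _ = A ((0 : Ts (Dx (p := p) X) X), q.2)
  rw [decE_apply]
  simp only [ZeroMemClass.coe_zero, zero_add]
  rfl

end lin

end main3

/-- Two charts at the same point have the same dimension. -/
theorem dim_at {Y : Type} [TopologicalSpace Y] [T2Space Y] {a b : ℕ} {S S' : Set Y}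
    (hS : IsOpen S) (hS' : IsOpen S') (φ : S ≃ₜ (Fin a → ℝ)) (ψ : S' ≃ₜ (Fin b → ℝ)) {y : Y}
    (hy : y ∈ S) (hy' : y ∈ S') : a = b := by
  by_contra hab
  let φ' : S ≃ₜ (Fin a → ℝ) := φ.trans (Homeomorph.addRight (-(φ ⟨y, hy⟩)))
  have h0 : φ' ⟨y, hy⟩ = 0 := by simp [φ']
  have k1 : ∀ x ∈ ({φ' ⟨y, hy⟩} : Set (Fin a → ℝ)), ∀ i, -1 < x i ∧ x i < 1 := by
    rintro x rfl i
    rw [h0]
    norm_num
  have z := locCh_mem (R := ℤ) φ' k1
  rw [Loc.inChart_singleton, ← Loc.inChart_singleton ψ hy'] at z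
  have h1 := loc_vanish hS' ψ isCompact_singleton (convex_singleton _)
    (Set.singleton_nonempty _) (k := (a : ℤ)) (by exact_mod_cast hab) z
  rw [Loc.inChart_singleton, ← Loc.inChart_singleton φ' hy] at h1
  have h2 := loc_free hS φ' isCompact_singleton (convex_singleton _)
    (Set.singleton_nonempty _) k1 (r := (1 : ℤ)) (by rwa [one_smul])
  exact one_ne_zero h2

theorem dim_of_emb {Y : Type} [TopologicalSpace Y] {U : Set Y} (hU : IsOpen U) {x : Y}
    (hx : x ∈ U) {k : ℕ} (f : U → EuclideanSpace ℝ (Fin k)) (hf : Topology.IsOpenEmbedding f) :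
    ∃ S : Set Y, IsOpen S ∧ x ∈ S ∧ Nonempty (S ≃ₜ (Fin k → ℝ)) := by
  have hne : Nonempty U := ⟨⟨x, hx⟩⟩
  obtain ⟨ε, hε, hball⟩ := Metric.isOpen_iff.1 hf.isOpen_range (f ⟨x, hx⟩) ⟨⟨x, hx⟩, rfl⟩
  let u := OpenPartialHomeomorph.univBall (f ⟨x, hx⟩) ε
  let φ := hf.toOpenPartialHomeomorph f
  have hu : ∀ v, u v ∈ Metric.ball (f ⟨x, hx⟩) ε := by
    intro v
    have := u.map_source (x := v) (by rw [OpenPartialHomeomorph.univBall_source]; trivial)
    rwa [OpenPartialHomeomorph.univBall_target _ hε] at this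
  have hsrc : (u.trans φ.symm).source = Set.univ := by
    rw [OpenPartialHomeomorph.trans_source]
    ext v
    simp only [Set.mem_inter_iff, Set.mem_preimage, Set.mem_univ, iff_true]
    refine ⟨by rw [OpenPartialHomeomorph.univBall_source]; trivial, ?_⟩
    obtain ⟨w, hw⟩ := hball (hu v)
    rw [← hw]
    exact φ.map_source (Set.mem_univ w)
  have hemb := (u.trans φ.symm).isOpenEmbedding hsrc
  have hg := hU.isOpenEmbedding_subtypeVal.comp hemb
  refine ⟨_, hg.isOpen_range, ⟨0, ?_⟩, ⟨?_⟩⟩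
  · change ((φ.symm (u 0) : U) : Y) = x
    have h1 : u 0 = f ⟨x, hx⟩ := OpenPartialHomeomorph.univBall_apply_zero _ _
    rw [h1]
    have h2 : φ.symm (φ ⟨x, hx⟩) = ⟨x, hx⟩ := φ.left_inv (Set.mem_univ _)
    have h3 : φ ⟨x, hx⟩ = f ⟨x, hx⟩ := rfl
    rw [← h3, h2]
  · exact hg.isEmbedding.toHomeomorph.symm.trans (EuclideanSpace.equiv (Fin k) ℝ).toHomeomorph

end NdatAux

/-- The normal data of a smooth action. -/
theorem exists_ndat {p : ℕ} [Fact p.Prime] (hp : p ≠ 2) {n d : ℕ} [MulAction (Cp p) (Sph n)]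
    (hs : ∀ g : Cp p, ContMDiff (𝓡 n) (𝓡 n) ∞ (fun x : Sph n => g • x))
    (hd : LocEuc d (Fx (Cp p) (Sph n))) [Nonempty (Fx (Cp p) (Sph n))] (hdn : d ≤ n) :
    ∃ (m : ℕ) (P : C(Fx (Cp p) (Sph n), Matrix (Fin (n + 1)) (Fin (n + 1)) ℂ)),
      d + 2 * m = n ∧ NDat (Fx (Cp p) (Sph n)) (fun x => ((x : Sph n) :
        EuclideanSpace ℝ (Fin (n + 1)))) m P := by
  have _h := hdn
  -- the dimension of the tangent space
  have hdim : ∀ x : Fx (Cp p) (Sph n), Module.finrank ℝ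
      (NdatAux.Ts (NdatAux.Dx (p := p) ((x : Sph n) : NdatAux.Eu n)) ((x : Sph n) : NdatAux.Eu n)) =
        d := by
    intro x
    obtain ⟨U, hU, hxU, hc⟩ := NdatAux.exists_chartT hs x
    have h1 := (stdOrthonormalBasis ℝ (NdatAux.Ts (NdatAux.Dx (p := p)
      ((x : Sph n) : NdatAux.Eu n)) ((x : Sph n) : NdatAux.Eu n))).repr.toHomeomorph.isOpenEmbedding.comp
        hc
    obtain ⟨S, hS, hxS, ⟨φ⟩⟩ := NdatAux.dim_of_emb hU hxU _ h1
    obtain ⟨S', hS', hxS', ⟨ψ⟩⟩ := hd x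
    exact NdatAux.dim_at hS hS' φ ψ hxS hxS'
  have hfr : ∀ x : Fx (Cp p) (Sph n), ∀ (k : ℕ) (s : Matrix (Fin (n + 1)) (Fin k) ℂ)
      (t : Matrix (Fin k) (Fin (n + 1)) ℂ),
      IsFrame (NdatAux.PJ (NdatAux.Dx (p := p) ((x : Sph n) : NdatAux.Eu n))) s t →
        d + 2 * k = n := by
    intro x k s t hst
    have := NdatAux.finrank_Ts hs hp x hst
    rwa [hdim x] at this
  obtain ⟨x0⟩ : Nonempty (Fx (Cp p) (Sph n)) := inferInstance
  obtain ⟨m, s0, t0, h0⟩ := NdatAux.exists_frame _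
    (NdatAux.PJ_idem _ (NdatAux.Dx_add hs x0))
  have hm := hfr x0 m s0 t0 h0
  have hcD : ∀ i : ZMod p, Continuous fun x : Fx (Cp p) (Sph n) =>
      NdatAux.Dx (p := p) ((x : Sph n) : NdatAux.Eu n) i := by
    intro i
    rw [continuous_iff_continuousAt]
    intro x
    have h1 : Continuous fun y : Fx (Cp p) (Sph n) => ((y : Sph n) : NdatAux.Eu n) := by fun_prop
    exact ContinuousAt.comp (g := NdatAux.dx (Multiplicative.ofAdd i))
      (f := fun y : Fx (Cp p) (Sph n) => ((y : Sph n) : NdatAux.Eu n))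
      (NdatAux.dx_continuousAt hs (Multiplicative.ofAdd i) (NdatAux.sph_ne (x : Sph n)))
      h1.continuousAt
  have hcP : Continuous fun x : Fx (Cp p) (Sph n) =>
      NdatAux.PJ (NdatAux.Dx (p := p) ((x : Sph n) : NdatAux.Eu n)) := by
    refine continuous_matrix fun a b => ?_
    have e : (fun x : Fx (Cp p) (Sph n) =>
        NdatAux.PJ (NdatAux.Dx (p := p) ((x : Sph n) : NdatAux.Eu n)) a b) =
        fun x : Fx (Cp p) (Sph n) =>
        ∑ j ∈ NdatAux.Jh p, (p : ℂ)⁻¹ * ∑ i : ZMod p, (ZMod.stdAddChar (-(i * j)) : ℂ) *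
          ((((NdatAux.Dx (p := p) ((x : Sph n) : NdatAux.Eu n) i)
            (EuclideanSpace.single b 1)) a : ℝ) : ℂ) := by
      funext x
      simp [NdatAux.PJ, NdatAux.ps, NdatAux.pj, NdatAux.Mt, NdatAux.mt, Matrix.sum_apply]
    rw [e]
    refine continuous_finsetSum _ fun j _ => ?_
    refine continuous_const.mul ?_
    refine continuous_finsetSum _ fun i _ => ?_
    refine continuous_const.mul ?_
    have h1 : Continuous fun x : Fx (Cp p) (Sph n) =>
        (NdatAux.Dx (p := p) ((x : Sph n) : NdatAux.Eu n) i) (EuclideanSpace.single b 1) :=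
      (hcD i).clm_apply continuous_const
    have h2 : Continuous fun x : Fx (Cp p) (Sph n) =>
        ((NdatAux.Dx (p := p) ((x : Sph n) : NdatAux.Eu n) i) (EuclideanSpace.single b 1)) a := by
      fun_prop
    exact Complex.continuous_ofReal.comp h2
  refine ⟨m, ⟨_, hcP⟩, hm, ⟨by fun_prop, fun x => ?_, fun x s t hst => ?_, ?_, fun x s t hst => ?_⟩⟩
  · obtain ⟨k, s, t, h⟩ := NdatAux.exists_frame _ (NdatAux.PJ_idem _ (NdatAux.Dx_add hs x))
    have hk := hfr x k s t h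
    obtain rfl : k = m := by omega
    exact ⟨s, t, h⟩
  · exact NdatAux.tmap_inj _ (NdatAux.Dx_add hs x) hst (NdatAux.av_self hs x) (NdatAux.sph_ne _)
  · exact NdatAux.near hs m
  · exact NdatAux.local_emb hs hp x hst

end Pool.Agent.TC
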