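import Pool.Agent.Lib.TC.WuD

/-!
# The dual class of a graph
-/

namespace Pool.Agent.TC

open CubeHom
open scoped Manifold ContDiff

namespace WU6Aux

open QIcAux QDdAux QIdAux

section pairs

variable {X Y : Type} [TopologicalSpace X] [TopologicalSpace Y] {R : Type} [CommRing R]

/-- A pair. -/
abbrev pr (A : Set X) : CS X := CS.mk' {Set.univ} {A}

theorem pr_ok (A : Set X) (σ : C(Cb, X)) : (pr A).ok σ :=
  ⟨Set.univ, Set.mem_singleton _, fun _ => Set.mem_univ _⟩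

theorem pr_nul (A : Set X) (σ : C(Cb, X)) : (pr A).nul σ ↔ ∀ u, σ u ∈ A :=
  ⟨fun ⟨V, hV, h⟩ u => by
    rw [Set.mem_singleton_iff] at hV
    rw [← hV]
    exact h u, fun h => ⟨A, Set.mem_singleton _, h⟩⟩

theorem pr_C (A : Set X) (k : ℤ) : (pr A).C R k = CubeHom.C R k Set.univ := by
  unfold CS.C CubeHom.C
  congr 1
  ext σ
  exact ⟨fun h => ⟨h.1, fun _ => Set.mem_univ _⟩, fun h => ⟨h.1, pr_ok A σ⟩⟩

theorem pr_Q (A : Set X) (k : ℤ) : (pr A).Q R k = CubeHom.Q R k A := by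
  unfold CS.Q CubeHom.Q
  congr 1
  ext σ
  constructor
  · rintro ⟨h1, -, h3⟩
    exact ⟨h1, h3.imp (pr_nul A σ).1 id⟩
  · rintro ⟨h1, h3⟩
    exact ⟨h1, pr_ok A σ, h3.imp (pr_nul A σ).2 id⟩

theorem pr_Z (A : Set X) (k : ℤ) : (pr A).Z R k = CubeHom.Z R k Set.univ A := by
  unfold CS.Z CubeHom.Z
  rw [pr_C, pr_Q]

theorem pr_Bd (A : Set X) (k : ℤ) (c : Ch R X) :
    (pr A).Bd R k c ↔ CubeHom.Bd R k Set.univ A c := by
  unfold CS.Bd CubeHom.Bd
  rw [pr_C, pr_Q]

theorem top_C (k : ℤ) : (CS.top X).C R k = CubeHom.C R k Set.univ := by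
  unfold CS.C CubeHom.C
  congr 1
  ext σ
  exact ⟨fun h => ⟨h.1, fun _ => Set.mem_univ _⟩, fun h => ⟨h.1, trivial⟩⟩

theorem top_Z (k : ℤ) : (CS.top X).Z R k = CubeHom.Z R k Set.univ ∅ := by
  have h : (CS.top X).Q R (k - 1) = CubeHom.Q R (k - 1) ∅ := by
    unfold CS.Q CubeHom.Q
    congr 1
    ext σ
    constructor
    · rintro ⟨h1, -, h3⟩
      exact ⟨h1, h3.imp (fun h => h.elim) id⟩
    · rintro ⟨h1, h3⟩
      exact ⟨h1, trivial, h3.imp (fun h => (h 0).elim) id⟩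
  unfold CS.Z CubeHom.Z
  rw [top_C, h]

theorem pr_maps {A : Set X} {B : Set Y} {f : C(X, Y)} (h : Set.MapsTo f A B) :
    (pr A).Maps (pr B) f :=
  ⟨fun _ _ => pr_ok B _, fun σ _ h1 => (pr_nul B _).2 fun u => h ((pr_nul A σ).1 h1 u)⟩

/-- Values on homologous chains. -/
theorem lc_eq {A : Set X} {k : ℕ} {u : C(Cb, X) → ZMod 2} (hu : (pr A).Coc k u)
    {c c' : Ch (ZMod 2) X} (h : CubeHom.Bd (ZMod 2) (k : ℤ) Set.univ A (c - c')) :
    Finsupp.linearCombination (ZMod 2) u c = Finsupp.linearCombination (ZMod 2) u c' := by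
  have h1 := coc_bd (R := ZMod 2) (pr A) hu ((pr_Bd A k _).2 h)
  rwa [map_sub, sub_eq_zero] at h1

/-- The dual class of a class which is not zero. -/
theorem exists_dual' (S : CS X) {k : ℕ} {ξ : Ch (ZMod 2) X} (hξ : ξ ∈ S.Z (ZMod 2) (k : ℤ))
    (hne : ¬ S.Bd (ZMod 2) (k : ℤ) ξ) :
    ∃ z : C(Cb, X) → ZMod 2, S.Coc k z ∧ Finsupp.linearCombination (ZMod 2) z ξ = 1 := by
  let p : Submodule (ZMod 2) (S.Z (ZMod 2) (k : ℤ)) :=
    { carrier := {c | S.Bd (ZMod 2) (k : ℤ) (c : Ch (ZMod 2) X)}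
      zero_mem' := Bd_zero _
      add_mem' := fun h1 h2 => Bd_add _ h1 h2
      smul_mem' := fun r c ⟨b, h1, h2⟩ => ⟨r • b, Submodule.smul_mem _ _ h1, by
        rw [map_smul]
        have := Submodule.smul_mem _ r h2
        rwa [smul_sub] at this⟩ }
  obtain ⟨f, h1, h2⟩ := Submodule.exists_le_ker_of_notMem (p := p) (v := ⟨ξ, hξ⟩) hne
  obtain ⟨z, h3, h4⟩ := exists_cocycle extProp_field S f fun c hc => h2 hc
  refine ⟨z, h3, ?_⟩
  rw [h4 ⟨ξ, hξ⟩]
  revert h1
  generalize f ⟨ξ, hξ⟩ = t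
  revert t
  decide

/-- The generator of the cohomology of `(ℝ^n, ℝ^n - 0)`. -/
theorem exists_omega (n : ℕ) : ∃ om : C(Cb, Fin n → ℝ) → ZMod 2,
    (pr ({0}ᶜ : Set (Fin n → ℝ))).Coc n om ∧
      Finsupp.linearCombination (ZMod 2) om (stdCh (ZMod 2) n) = 1 := by
  refine exists_dual' _ ?_ ?_
  · rw [pr_Z]
    exact stdCh_mem n
  · rw [pr_Bd]
    intro h
    have h1 : CubeHom.Bd (ZMod 2) (n : ℤ) Set.univ ({0}ᶜ : Set (Fin n → ℝ))
        ((1 : ZMod 2) • stdCh (ZMod 2) n) := by rwa [one_smul]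
    have h2 := Loc.pt_free (0 : Fin n → ℝ) (fun i => by simp) h1
    exact absurd h2 (by decide)

/-- Two cocycles on a product with a Euclidean space. -/
theorem kun_std {B : Type} [TopologicalSpace B] (T : CS B) {k j : ℕ}
    {u : C(Cb, (Fin k → ℝ) × B) → ZMod 2}
    (hu : ((pr ({0}ᶜ : Set (Fin k → ℝ))).prod T).Coc (k + j) u)
    (h : ∀ c ∈ T.Z (ZMod 2) (j : ℤ),
      Finsupp.linearCombination (ZMod 2) u (cr k (stdCh (ZMod 2) k) c) = 0)
    {w : Ch (ZMod 2) ((Fin k → ℝ) × B)}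
    (hw : w ∈ ((pr ({0}ᶜ : Set (Fin k → ℝ))).prod T).Z (ZMod 2) ((k + j : ℕ) : ℤ)) :
    Finsupp.linearCombination (ZMod 2) u w = 0 := by
  obtain ⟨r, m, x, y, h1, h2⟩ := kunneth _ _ hw
  have h3 := coc_bd _ hu h2
  rw [map_sub, sub_eq_zero] at h3
  rw [h3, map_sum]
  refine Finset.sum_eq_zero fun i _ => ?_
  obtain ⟨h4, h5, h6⟩ := h1 i
  have hx := h5
  rw [pr_Z] at hx
  by_cases hm : m i = k
  · have e : k + j - m i = j := by omega
    rw [e] at h6
    rw [hm] at hx h5 ⊢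
    obtain ⟨s, hs⟩ := Loc.pt_gen (0 : Fin k → ℝ) (fun i => by simp) hx
    have h7 := cr_bd_left (pr ({0}ᶜ : Set (Fin k → ℝ))) T ((pr_Bd _ _ _).2 hs) h6
    have h8 := coc_bd _ hu (c := cr k (x i - s • stdCh (ZMod 2) k) (y i)) (by
      rw [Nat.cast_add]
      exact h7)
    rw [map_sub, LinearMap.sub_apply, map_sub, sub_eq_zero] at h8
    rw [h8, map_smul, LinearMap.smul_apply, map_smul, h _ h6, smul_zero]
  · have h7 := Loc.pt_vanish (0 : Fin k → ℝ) (k := (m i : ℤ)) (by exact_mod_cast hm) hx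
    have h8 := cr_bd_left (pr ({0}ᶜ : Set (Fin k → ℝ))) T ((pr_Bd _ _ _).2 h7) h6
    refine coc_bd _ hu ?_
    have e : ((k + j : ℕ) : ℤ) = (m i : ℤ) + ((k + j - m i : ℕ) : ℤ) := by omega
    rw [e]
    exact h8

end pairs

open CI1Aux CI4Aux in
/-- A special case of the Cartan formula. -/
theorem sq2_cartan' {X Y : Type} [TopologicalSpace X] [TopologicalSpace Y] {i j : ℕ} (hi : 1 ≤ i)
    (hj : 2 ≤ j) {a : C(Cb, X) → ZMod 2} {b : C(Cb, Y) → ZMod 2}
    {u : C(Cb, X × Y) → ZMod 2} (hu : Bi (ZMod 2) i j a b u) {τ : C(Cb, X)} {σ : C(Cb, Y)}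
    (hτ : IsCube (i : ℤ) τ) (hσ : IsCube ((j + 2 : ℕ) : ℤ) σ) :
    sq2 (i + j) u (crossCube i τ σ) = a τ * sq2 j b σ := by
  have h0 : sq2 (i + j) u (crossCube i τ σ) =
      ∑ s ∈ Finset.range (i + 1), S i s (Sq i i a τ) *
        S (j + 2) ((i + j - 2 : ℕ) - s) (Sq (j + 2) j b σ) := by
    unfold sq2
    rw [if_pos (by omega), show i + j + 2 = i + (j + 2) by omega]
    exact cupI_cross hu (by omega) hτ hσ
  obtain ⟨d, rfl⟩ : ∃ d, j = d + 2 := ⟨j - 2, by omega⟩
  rw [h0, Finset.sum_eq_single i]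
  · have e1 : (((i + (d + 2) - 2 : ℕ) : ℤ) - (i : ℤ)) = (d : ℤ) := by omega
    rw [e1, S_Sq_eq (by omega), S_Sq_eq (by omega), cupI_top]
    unfold sq2
    rw [if_pos hj, Nat.add_sub_cancel]
  · intro s hs hne
    rw [S_Sq_ne (by
      intro h
      apply hne
      omega), zero_mul]
  · intro h
    exact absurd (Finset.mem_range.2 (Nat.lt_succ_self i)) h

/-- The Thom suspension argument. -/
theorem key {B : Type} [TopologicalSpace B] {A : Set B} {k d N : ℕ} (hN : k + d = N) (hk : 1 ≤ k)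
    (hd : 2 ≤ d) (g : C((Fin k → ℝ) × B, Fin N → ℝ))
    (hg : ∀ q b, g (q, b) = 0 → q = 0 ∧ b ∉ A) {μ : C(Cb, B) → ZMod 2} (hμ : (pr A).Coc d μ)
    {om : C(Cb, Fin N → ℝ) → ZMod 2} (hom : (pr ({0}ᶜ : Set (Fin N → ℝ))).Coc N om)
    (hcmp : ∀ c ∈ CubeHom.Z (ZMod 2) (d : ℤ) Set.univ A,
      Finsupp.linearCombination (ZMod 2) (pb g om) (cr k (stdCh (ZMod 2) k) c) =
        Finsupp.linearCombination (ZMod 2) μ c) {w : Ch (ZMod 2) B}
    (hw : w ∈ CubeHom.Z (ZMod 2) ((d + 2 : ℕ) : ℤ) Set.univ A) :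
    Finsupp.linearCombination (ZMod 2) (sq2 d μ) w = 0 := by
  subst hN
  obtain ⟨σ, hσ, hσ1⟩ := exists_omega k
  have hmaps : ((pr ({0}ᶜ : Set (Fin k → ℝ))).prod (pr A)).Maps
      (pr ({0}ᶜ : Set (Fin (k + d) → ℝ))) g := by
    refine ⟨fun _ _ => pr_ok _ _, fun ρ _ h => (pr_nul _ _).2 fun u h0 => ?_⟩
    have h1 := hg (ρ u).1 (ρ u).2 h0
    rcases h with h | h
    · exact (pr_nul _ _).1 h u h1.1
    · exact h1.2 ((pr_nul _ _).1 h u)
  have hstd : stdCh (ZMod 2) k ∈ (pr ({0}ᶜ : Set (Fin k → ℝ))).Z (ZMod 2) (k : ℤ) := by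
    rw [pr_Z]
    exact stdCh_mem k
  have hx := xp_coc hσ hμ
  have hy := hmaps.coc hom
  have hbi := xp_bi (top_rel (pr_ok _) hσ.1) (top_rel (pr_ok _) hμ.1)
  have hdiff := coc_sub hy hx
  obtain ⟨n, hn⟩ : ∃ n, k + d = n + 1 := ⟨k + d - 1, by omega⟩
  have hcob : ((pr ({0}ᶜ : Set (Fin k → ℝ))).prod (pr A)).Cob n
      (fun ρ => pb g om ρ - xp k d σ μ ρ) := by
    refine uct (R := ZMod 2) extProp_field _ (by rw [← hn]; exact hdiff) fun W hW => ?_
    refine kun_std (pr A) (j := d) hdiff (fun c hc => ?_) (by rw [hn]; exact hW)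
    rw [pr_Z] at hc
    have e : ∀ W : Ch (ZMod 2) ((Fin k → ℝ) × B),
        Finsupp.linearCombination (ZMod 2) (fun ρ => pb g om ρ - xp k d σ μ ρ) W =
          Finsupp.linearCombination (ZMod 2) (pb g om) W -
            Finsupp.linearCombination (ZMod 2) (xp k d σ μ) W := by
      intro W
      rw [Finsupp.linearCombination_apply, Finsupp.linearCombination_apply,
        Finsupp.linearCombination_apply, ← Finsupp.sum_sub]
      refine Finsupp.sum_congr fun σ _ => ?_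
      rw [smul_sub]
    rw [e, hcmp c hc, bi_eval hbi rfl (stdCh_mem k).1 hc.1, if_pos rfl, hσ1, one_mul, sub_self]
  have hW := cr_Z (pr ({0}ᶜ : Set (Fin k → ℝ))) (pr A) (n := k) hstd
    (show w ∈ (pr A).Z (ZMod 2) ((d + 2 : ℕ) : ℤ) by rw [pr_Z]; exact hw)
  set W := cr k (stdCh (ZMod 2) k) w with hWdef
  have hW1 : W ∈ ((pr ({0}ᶜ : Set (Fin k → ℝ))).prod (pr A)).Z (ZMod 2)
      ((k + d + 1 + 1 : ℕ) : ℤ) := by
    rw [show ((k + d + 1 + 1 : ℕ) : ℤ) = (k : ℤ) + ((d + 2 : ℕ) : ℤ) by push_cast; ring]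
    exact hW
  -- the value of `Sq^2 (σ × μ)`
  have v1 : Finsupp.linearCombination (ZMod 2) (sq2 (k + d) (xp k d σ μ)) W =
      Finsupp.linearCombination (ZMod 2) (sq2 d μ) w := by
    rw [hWdef, eval_cross (m := k) (l := d + 2) (α := σ) (β := sq2 d μ)
      (fun τ ρ hτ hρ => sq2_cartan' hk hd hbi hτ hρ) (by
        rw [top_C]
        exact (stdCh_mem k).1) (by
        rw [top_C]
        exact hw.1), hσ1, one_mul]
  -- the value of the square of the pull back
  have v2 : Finsupp.linearCombination (ZMod 2) (sq2 (k + d) (pb g om)) W = 0 := by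
    have e : sq2 (k + d) (pb g om) = pb g (sq2 (k + d) om) := by
      unfold sq2
      rw [if_pos (by omega), if_pos (by omega)]
      exact cupI_pb _ _ _ g om om
    rw [e, ← lc_push]
    have h1 := hmaps.push_mem hW1
    rw [pr_Z] at h1
    have h2 := Loc.pt_vanish (0 : Fin (k + d) → ℝ) (k := ((k + d + 1 + 1 : ℕ) : ℤ)) (by
      push_cast
      omega) h1
    have h3 := sq2_coc (pr ({0}ᶜ : Set (Fin (k + d) → ℝ))) (j := k + d) (by omega) hom
    refine coc_bd _ h3 ((pr_Bd _ _ _).2 ?_)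
    exact h2
  rw [← v1]
  -- comparison
  have k1 := cob_cyc (R := ZMod 2) _ (sq2_add _ (show 2 ≤ k + d by omega) hx hdiff) hW1
  have k3 := sq2_cob _ (show 2 ≤ n by omega) hcob
  rw [← hn] at k3
  have hW2 := hW1
  rw [hn] at hW2
  have k4 := cob_cyc (R := ZMod 2) _ k3 hW2
  have e1 : (fun τ => xp k d σ μ τ + (pb g om τ - xp k d σ μ τ)) = pb g om := by
    funext τ
    ring
  rw [e1] at k1
  have hsub3 : ∀ (f g h : C(Cb, (Fin k → ℝ) × B) → ZMod 2) (w : Ch (ZMod 2) ((Fin k → ℝ) × B)),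
      Finsupp.linearCombination (ZMod 2) (fun σ => f σ - g σ - h σ) w =
      Finsupp.linearCombination (ZMod 2) f w - Finsupp.linearCombination (ZMod 2) g w -
        Finsupp.linearCombination (ZMod 2) h w := by
    intro f g h w
    rw [Finsupp.linearCombination_apply, Finsupp.linearCombination_apply,
      Finsupp.linearCombination_apply, Finsupp.linearCombination_apply,
      ← Finsupp.sum_sub, ← Finsupp.sum_sub]
    refine Finsupp.sum_congr fun σ _ => ?_
    rw [smul_sub, smul_sub]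
  rw [hsub3, v2, k4, sub_zero, zero_sub] at k1
  exact neg_eq_zero.1 k1


theorem pb_comp {X Y Z : Type} [TopologicalSpace X] [TopologicalSpace Y] [TopologicalSpace Z]
    (f : C(X, Y)) (g : C(Y, Z)) (u : C(Cb, Z) → ZMod 2) : pb f (pb g u) = pb (g.comp f) u := rfl

/-- Homologous chains give the same values. -/
theorem cmp_eq {B : Type} [TopologicalSpace B] {A : Set B} {k d N : ℕ} (hN : k + d = N)
    (g : C((Fin k → ℝ) × B, Fin N → ℝ))
    (hg : ∀ q b, g (q, b) = 0 → q = 0 ∧ b ∉ A)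
    {om : C(Cb, Fin N → ℝ) → ZMod 2} (hom : (pr ({0}ᶜ : Set (Fin N → ℝ))).Coc N om)
    {c c' : Ch (ZMod 2) B} (h : CubeHom.Bd (ZMod 2) (d : ℤ) Set.univ A (c - c')) :
    Finsupp.linearCombination (ZMod 2) (pb g om) (cr k (stdCh (ZMod 2) k) c) =
      Finsupp.linearCombination (ZMod 2) (pb g om) (cr k (stdCh (ZMod 2) k) c') := by
  subst hN
  have hmaps : ((pr ({0}ᶜ : Set (Fin k → ℝ))).prod (pr A)).Maps
      (pr ({0}ᶜ : Set (Fin (k + d) → ℝ))) g := by
    refine ⟨fun _ _ => pr_ok _ _, fun ρ _ h => (pr_nul _ _).2 fun u h0 => ?_⟩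
    have h1 := hg (ρ u).1 (ρ u).2 h0
    rcases h with h | h
    · exact (pr_nul _ _).1 h u h1.1
    · exact h1.2 ((pr_nul _ _).1 h u)
  have hL2 := hmaps.coc hom
  have hstd : stdCh (ZMod 2) k ∈ (pr ({0}ᶜ : Set (Fin k → ℝ))).Z (ZMod 2) (k : ℤ) := by
    rw [pr_Z]
    exact stdCh_mem k
  have hb5 := QIcAux.cr_bd_right _ _ hstd ((pr_Bd A (d : ℤ) _).2 h)
  have hb6 := coc_bd (R := ZMod 2) _ hL2 (c := cr k (stdCh (ZMod 2) k) (c - c')) (by
    rw [Nat.cast_add]
    exact hb5)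
  rwa [map_sub, map_sub, sub_eq_zero] at hb6

section geo

open Cq

variable {R : Type} [CommRing R]

/-- The degree zero homology of a path connected space. -/
theorem h0_conn {X : Type} [TopologicalSpace X] [PathConnectedSpace X] (x0 : X) {c : Ch R X}
    (hc : c ∈ CubeHom.C R 0 (Set.univ : Set X)) : ∃ r : R,
      CubeHom.Bd R 0 Set.univ ∅ (c - r • Finsupp.single (ContinuousMap.const Cb x0) 1) := by
  refine ⟨Finsupp.linearCombination R (fun _ : C(Cb, X) => (1 : R)) c, ?_⟩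
  let P : Submodule R (Ch R X) :=
    { carrier := {c | CubeHom.Bd R 0 Set.univ ∅ c}
      zero_mem' := Cq.bd_zero
      add_mem' := fun h1 h2 => Cq.bd_add h1 h2
      smul_mem' := fun r c h => Cq.bd_smul r h }
  have h := map_mem_of_supported (R := R) (LinearMap.id - (LinearMap.toSpanSingleton R (Ch R X)
    (Finsupp.single (ContinuousMap.const Cb x0) 1)).comp
      (Finsupp.linearCombination R (fun _ : C(Cb, X) => (1 : R)))) P (fun σ hσ => ?_) hc
  · exact h
  obtain ⟨γ⟩ := PathConnectedSpace.joined x0 (σ 0)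
  have hσ' : σ = ContinuousMap.const Cb (σ 0) := by
    ext u
    exact hσ.1.2 fun j hj => by
      have : (j : ℤ) < 0 := hj
      omega
  rw [LinearMap.sub_apply, LinearMap.id_apply, LinearMap.comp_apply,
    Finsupp.linearCombination_single, one_smul, LinearMap.toSpanSingleton_apply, one_smul]
  let τ : C(Cb, X) := ⟨fun u => γ (u 0), γ.continuous.comp (continuous_apply 0)⟩
  have hτ : IsCube (0 + 1) τ := ⟨by omega, fun u v huv => congrArg γ (huv 0 (by simp))⟩
  refine ⟨Finsupp.single τ 1, mem_C_single hτ (fun _ => Set.mem_univ _) _, ?_⟩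
  have hb : bd (0 + 1) (Finsupp.single τ (1 : R)) = Finsupp.single σ 1 -
      Finsupp.single (ContinuousMap.const Cb x0) 1 := by
    rw [bd_apply, show ((0 : ℤ) + 1).toNat = 1 from rfl, Finset.sum_range_one, pow_zero, one_smul,
      face_single, face_single]
    congr 2
    · rw [hσ']
      ext u
      exact γ.target
    · ext u
      exact γ.source
  rw [hb, sub_self]
  exact Submodule.zero_mem _

/-- The product with a point. -/
theorem cr_pt {X Y : Type} [TopologicalSpace X] [TopologicalSpace Y] (n : ℕ) (x : Ch R X)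
    (y0 : Y) : cr n x (Finsupp.single (ContinuousMap.const Cb y0) (1 : R)) =
      push ⟨fun a => (a, y0), by fun_prop⟩ x := by
  have h : (cr n).flip (Finsupp.single (ContinuousMap.const Cb y0) (1 : R)) =
      push (R := R) (⟨fun a => (a, y0), by fun_prop⟩ : C(X, X × Y)) := by
    ext σ : 2
    simp only [LinearMap.comp_apply, Finsupp.lsingle_apply, LinearMap.flip_apply,
      cr_single_single, push_single, mul_one]
    rfl
  exact LinearMap.congr_fun h x

theorem pt_cr {X Y : Type} [TopologicalSpace X] [TopologicalSpace Y] (x0 : X)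
    (y : Ch R Y) : cr 0 (Finsupp.single (ContinuousMap.const Cb x0) (1 : R)) y =
      push ⟨fun a => (x0, a), by fun_prop⟩ y := by
  have h : cr 0 (Finsupp.single (ContinuousMap.const Cb x0) (1 : R)) =
      push (R := R) (⟨fun a => (x0, a), by fun_prop⟩ : C(Y, X × Y)) := by
    ext σ : 2
    simp only [LinearMap.comp_apply, Finsupp.lsingle_apply, cr_single_single, push_single, mul_one]
    congr 1
    ext u
    · rfl
    · show σ (drop 0 u) = σ u
      congr 1
      funext j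
      show u (0 + j) = u j
      rw [Nat.zero_add]
  exact LinearMap.congr_fun h y

/-- The fundamental cycle is locally not zero. -/
theorem xi_ne {F : Type} [TopologicalSpace F] [T2Space F] {d : ℕ} (hF : LocEuc d F)
    {ξ : Ch (ZMod 2) F} (hg : LocGen d ξ) (x0 : F) :
    ¬ CubeHom.Bd (ZMod 2) (d : ℤ) Set.univ ({x0}ᶜ : Set F) ξ := by
  intro h
  obtain ⟨S, hS, hy, φ, h0⟩ := Cq.exists_chart hF x0
  have hK := Cq.inChart_zero φ hy h0
  have hK1 : ∀ x ∈ ({0} : Set (Fin d → ℝ)), ∀ i, -1 < x i ∧ x i < 1 := by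
    rintro x rfl i
    constructor <;> simp
  have hcm := locCh_mem (R := ZMod 2) φ hK1
  rw [hK] at hcm
  obtain ⟨r', hr'⟩ := hg x0 (locCh (ZMod 2) φ) hcm
  have h1 : (1 : ZMod 2) = 0 := by
    refine loc_free (R := ZMod 2) hS φ (isCompact_singleton) (convex_singleton 0)
      (Set.singleton_nonempty 0) hK1 ?_
    rw [hK, one_smul]
    exact Cq.bd_of_sub hr' (Cq.bd_smul r' h)
  exact absurd h1 (by decide)

/-- The local value. -/
theorem fiber_val {U : Type} [TopologicalSpace U] [T1Space U] {k d N : ℕ} (hN : k + d = N)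
    {u0 : U} (g : C((Fin k → ℝ) × U, Fin N → ℝ)) (hg : Topology.IsOpenEmbedding g)
    (hg0 : g (0, u0) = 0) {ξ : Ch (ZMod 2) U}
    (hξ : ξ ∈ CubeHom.Z (ZMod 2) (d : ℤ) Set.univ ({u0}ᶜ : Set U))
    (hne : ¬ CubeHom.Bd (ZMod 2) (d : ℤ) Set.univ ({u0}ᶜ : Set U) ξ)
    {om : C(Cb, Fin N → ℝ) → ZMod 2} (hom : (pr ({0}ᶜ : Set (Fin N → ℝ))).Coc N om)
    (hom1 : Finsupp.linearCombination (ZMod 2) om (stdCh (ZMod 2) N) = 1) :
    Finsupp.linearCombination (ZMod 2) (pb g om) (cr k (stdCh (ZMod 2) k) ξ) = 1 := by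
  subst hN
  have hpre : g ⁻¹' ({0}ᶜ : Set (Fin (k + d) → ℝ)) =
      {p : (Fin k → ℝ) × U | p.1 ≠ 0 ∨ p.2 ∈ ({u0}ᶜ : Set U)} := by
    ext ⟨q, u⟩
    show ¬ (g (q, u) = 0) ↔ (q ≠ 0 ∨ ¬ u = u0)
    rw [← hg0, hg.injective.eq_iff, Prod.mk.injEq, not_and_or]
  have hz := Cq.cr_mem_Z (A' := {p : (Fin k → ℝ) × U | p.1 ≠ 0 ∨ p.2 ∈ ({u0}ᶜ : Set U)})
    (stdCh_mem (R := ZMod 2) k) hξ (fun p hp => Or.inl hp.1) (fun p hp => Or.inr hp.2)
  have hpush : push g (cr k (stdCh (ZMod 2) k) ξ) ∈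
      CubeHom.Z (ZMod 2) ((k + d : ℕ) : ℤ) Set.univ ({0}ᶜ : Set (Fin (k + d) → ℝ)) := by
    rw [Nat.cast_add]
    refine Cq.push_mem_Z (Set.mapsTo_univ _ _) ?_ hz
    rw [← hpre]
    exact Set.mapsTo_preimage _ _
  obtain ⟨r, hr⟩ := Loc.pt_gen (0 : Fin (k + d) → ℝ) (fun i => by simp) hpush
  rw [← lc_push, lc_eq hom hr, map_smul, hom1]
  have hr0 : r ≠ 0 := by
    rintro rfl
    apply hne
    rw [zero_smul, sub_zero] at hr
    have h1 := embed_inj hg (isClosed_singleton.isOpen_compl) (by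
      rw [Set.eq_univ_iff_forall]
      intro y
      by_cases hy : y = 0
      · exact Or.inr ⟨(0, u0), by rw [hg0, hy]⟩
      · exact Or.inl hy) (by
        rw [Nat.cast_add]
        exact hz.1) hr
    rw [hpre] at h1
    have hb := Cq.cross_bij _ _ _ (suspensionN (R := ZMod 2) k (B := U)
      (isClosed_singleton (x := u0)).isOpen_compl)
    refine hb.1 d ξ hξ ?_
    rw [← Nat.cast_add]
    exact h1
  revert hr0
  generalize r = t
  revert t
  decide

/-- The value of the dual class of the diagonal on `ξ × x`. -/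
theorem mu_swap {F : Type} [TopologicalSpace F] [T2Space F] [CompactSpace F]
    [PathConnectedSpace F] {d : ℕ} (hF : LocEuc d F) {ξ : Ch (ZMod 2) F}
    (hξ : ξ ∈ CubeHom.Z (ZMod 2) (d : ℤ) Set.univ ∅)
    (hg : LocGen d ξ) {μ : C(Cb, F × F) → ZMod 2} (hμ : (offD F).Coc d μ)
    (h1 : ∀ v : C(Cb, F), IsCube 0 v →
      Finsupp.linearCombination (ZMod 2) μ (cr 0 (Finsupp.single v 1) ξ) = 1) (x0 : F) :
    Finsupp.linearCombination (ZMod 2) μ
      (push (⟨fun a => (a, x0), by fun_prop⟩ : C(F, F × F)) ξ) = 1 := by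
  have h2 := h1 (ContinuousMap.const Cb x0) ⟨le_rfl, fun _ _ _ => rfl⟩
  rw [pt_cr] at h2
  have hV : push (⟨fun a => (x0, a), by fun_prop⟩ : C(F, F × F)) ξ ∈
      CubeHom.Z (ZMod 2) ((d : ℤ) + 0) Set.univ {p : F × F | p.1 ≠ ContinuousMap.id F p.2} := by
    rw [add_zero]
    exact Cq.push_mem_Z (Set.mapsTo_univ _ _) (fun _ h => h.elim) hξ
  have hL := Cq.cross_bij _ _ _ (thmL hF hξ hg (ContinuousMap.id F))
  obtain ⟨c, hc, hb⟩ := hL.2 0 _ hV
  obtain ⟨r, hr⟩ := h0_conn x0 hc.1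
  have h3 := Cq.cr_bd_right (A' := {p : F × F | p.1 ≠ ContinuousMap.id F p.2}) hξ hr
    (by rw [Set.empty_prod]; exact Set.empty_subset _)
    (by rw [Set.prod_empty]; exact Set.empty_subset _)
  rw [map_sub] at h3
  have h4 := Cq.bd_trans hb h3
  rw [add_zero] at h4
  have h5 := lc_eq hμ h4
  rw [h2, map_smul, map_smul, cr_pt] at h5
  revert h5
  generalize Finsupp.linearCombination (ZMod 2) μ
      (push (⟨fun a => (a, x0), by fun_prop⟩ : C(F, F × F)) ξ) = t
  generalize r = s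
  revert s t
  decide

end geo

end WU6Aux


namespace WU6Aux

theorem tmap_neg {n m : ℕ} (s : Matrix (Fin (n + 1)) (Fin m) ℂ)
    (x : EuclideanSpace ℝ (Fin (n + 1))) (q : (Fin m → ℂ) × ℝ) :
    tmap s x (-q) = - tmap s x q := by
  ext i
  simp only [tmap, Prod.fst_neg, Prod.snd_neg, Matrix.mulVec_neg, Pi.neg_apply, Complex.neg_re,
    PiLp.neg_apply]
  ring

theorem tmap_zero {n m : ℕ} (s : Matrix (Fin (n + 1)) (Fin m) ℂ)
    (x : EuclideanSpace ℝ (Fin (n + 1))) : tmap s x 0 = 0 := by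
  ext i
  simp [tmap]

/-- The coordinates of the fibre. -/
theorem exists_kap (m : ℕ) : ∃ k, k = 2 * m + 1 ∧
    Nonempty ((Fin k → ℝ) ≃L[ℝ] ((Fin m → ℂ) × ℝ)) := by
  refine ⟨2 * m + 1, rfl, ⟨ContinuousLinearEquiv.ofFinrankEq ?_⟩⟩
  rw [Module.finrank_prod, Module.finrank_fin_fun, Module.finrank_pi_fintype, Module.finrank_self]
  simp [Complex.finrank_real_complex, mul_comm]

instance : PathConnectedSpace (Sph 2) := by
  have h : IsPathConnected (Metric.sphere (0 : EuclideanSpace ℝ (Fin (2 + 1))) 1) := by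
    refine isPathConnected_sphere ?_ 0 zero_le_one
    rw [← Module.finrank_eq_rank, finrank_euclideanSpace_fin]
    norm_cast
  exact isPathConnected_iff_pathConnectedSpace.1 h

theorem cont_lam {B : Type} [TopologicalSpace B] {n m : ℕ}
    {S : B → Matrix (Fin (n + 1)) (Fin m) ℂ} (hS : Continuous S)
    {e x : B → EuclideanSpace ℝ (Fin (n + 1))} (he : Continuous e) (hx : Continuous x)
    {q : B → (Fin m → ℂ) × ℝ} (hq : Continuous q) :
    Continuous fun b => (fun i => (e b - x b + tmap (S b) (x b) (q b)) i :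
      Fin (n + 1) → ℝ) := by
  refine continuous_pi fun i => ?_
  have h1 : ∀ b, (e b - x b + tmap (S b) (x b) (q b)) i =
      e b i - x b i + (((S b).mulVec (q b).1 i).re + (q b).2 * x b i) := fun b => rfl
  simp only [h1]
  have h2 : Continuous fun b => (S b).mulVec (q b).1 i :=
    (continuous_apply i).comp (hS.matrix_mulVec hq.fst)
  have h3 : Continuous fun b => e b i := (continuous_apply i).comp ((PiLp.continuous_ofLp 2 _).comp he)
  have h4 : Continuous fun b => x b i := (continuous_apply i).comp ((PiLp.continuous_ofLp 2 _).comp hx)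
  exact (h3.sub h4).add ((Complex.continuous_re.comp h2).add (hq.snd.mul h4))

end WU6Aux

section thom

variable {F : Type} [TopologicalSpace F] [T2Space F] [CompactSpace F] {n m d : ℕ}
  {ι : F → EuclideanSpace ℝ (Fin (n + 1))}
  {P : C(F, Matrix (Fin (n + 1)) (Fin (n + 1)) ℂ)}

open WU6Aux in
/-- The dual class of the graph has `Sq^2 = 0` if the normal bundle is trivial over it.
(`λ(y, v, q) = ι y - ι (f v) + tmap (s v) (ι (f v)) q` maps `(O × ℝ^(2m+1), off graph × 0)` to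
`(ℝ^(n+1), ℝ^(n+1) - 0)`; the generator pulls back to `μ' × σ`; `Sq^2` of it is zero; `μ'` is
cohomologous to the dual class by Theorem L.) -/
theorem sq2_graph [PathConnectedSpace F] (hF : LocEuc d F) (hd : 2 ≤ d) (hn : d + 2 * m = n)
    (D : NDat F ι m P) {ξ : Ch (ZMod 2) F} (hξ : ξ ∈ (CS.top F).Z (ZMod 2) (d : ℤ))
    (hg : LocGen d ξ) {μ : C(Cb, F × F) → ZMod 2} (hμ : (offD F).Coc d μ)
    (h1 : ∀ v : C(Cb, F), IsCube 0 v →
      Finsupp.linearCombination (ZMod 2) μ (cr 0 (Finsupp.single v 1) ξ) = 1)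
    (f : C(Sph 2, F)) (s : C(Sph 2, Matrix (Fin (n + 1)) (Fin m) ℂ))
    (t : C(Sph 2, Matrix (Fin m) (Fin (n + 1)) ℂ)) (hst : ∀ v, IsFrame (P (f v)) (s v) (t v))
    {w : Ch (ZMod 2) (F × Sph 2)}
    (hw : w ∈ (CS.top (F × Sph 2)).Z (ZMod 2) ((d + 2 : ℕ) : ℤ)) :
    Finsupp.linearCombination (ZMod 2) (sq2 d (pb (idx f) μ)) w = 0 := by
  rw [top_Z] at hξ hw
  obtain ⟨k, hkm, ⟨κ⟩⟩ := exists_kap m
  have hk : k + d = n + 1 := by omega
  obtain ⟨O, hO, hOd, hOn⟩ := D.near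
  -- the neighbourhood of the graph
  let O' : Set (F × Sph 2) := {q | (q.1, f q.2) ∈ O}
  have hO' : IsOpen O' := hO.preimage (by fun_prop)
  let j : C(O', F × Sph 2) := ⟨Subtype.val, continuous_subtype_val⟩
  have hj : Topology.IsOpenEmbedding j := hO'.isOpenEmbedding_subtypeVal
  let A : Set (F × Sph 2) := {q | q.1 ≠ f q.2}
  have hA : IsOpen A := isOpen_ne_fun continuous_fst (f.continuous.comp continuous_snd)
  have hcov : A ∪ Set.range j = Set.univ := by
    rw [Set.eq_univ_iff_forall]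
    intro q
    by_cases h : q.1 = f q.2
    · refine Or.inr ⟨⟨q, ?_⟩, rfl⟩
      show (q.1, f q.2) ∈ O
      rw [h]
      exact hOd _
    · exact Or.inl h
  -- the map to the Euclidean space
  let g : C((Fin k → ℝ) × O', Fin (n + 1) → ℝ) :=
    ⟨fun p => fun i => (ι p.2.1.1 - ι (f p.2.1.2) +
      tmap (s p.2.1.2) (ι (f p.2.1.2)) (κ p.1)) i,
      cont_lam (S := fun p : (Fin k → ℝ) × O' => s p.2.1.2)
        (s.continuous.comp (by fun_prop)) (e := fun p => ι p.2.1.1)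
        (D.cont.comp (by fun_prop)) (x := fun p => ι (f p.2.1.2))
        (D.cont.comp (f.continuous.comp (by fun_prop))) (q := fun p => κ p.1)
        (κ.continuous.comp continuous_fst)⟩
  have hgz : ∀ q b, g (q, b) = 0 → q = 0 ∧ b ∉ j ⁻¹' A := by
    intro q b h
    have h2 : ι b.1.1 - ι (f b.1.2) + tmap (s b.1.2) (ι (f b.1.2)) (κ q) = 0 := by
      ext i
      exact congrFun h i
    have h3 : ι b.1.1 - ι (f b.1.2) = tmap (s b.1.2) (ι (f b.1.2)) (-κ q) := by
      rw [tmap_neg]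
      exact eq_neg_of_add_eq_zero_left h2
    have h4 := hOn _ _ b.2 _ _ (hst b.1.2) _ h3
    refine ⟨?_, fun h5 => h5 h4⟩
    rw [h4, sub_self, zero_add, ← tmap_zero (s b.1.2) (ι (f b.1.2))] at h2
    have h5 := D.inj _ _ _ (hst b.1.2) h2
    exact κ.map_eq_zero_iff.1 h5
  -- the cocycles
  obtain ⟨om, hom, hom1⟩ := exists_omega (n + 1)
  have hμf : (pr A).Coc d (pb (idx f) μ) :=
    (pr_maps (A := A) (B := {x : F × F | x.1 ≠ x.2}) (f := idx f) (fun q hq => hq)).coc hμ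
  have hμj : (pr (j ⁻¹' A)).Coc d (pb j (pb (idx f) μ)) :=
    (pr_maps (A := j ⁻¹' A) (B := A) (f := j) (Set.mapsTo_preimage _ _)).coc hμf
  -- comparison on the cycles
  have hcmp : ∀ c ∈ CubeHom.Z (ZMod 2) (d : ℤ) Set.univ (j ⁻¹' A),
      Finsupp.linearCombination (ZMod 2) (pb g om)
        (cr k (stdCh (ZMod 2) k) c) =
        Finsupp.linearCombination (ZMod 2) (pb j (pb (idx f) μ)) c := by
    intro c hc
    -- `c` comes from a point
    have hpc : push j c ∈ CubeHom.Z (ZMod 2) ((d : ℤ) + 0) Set.univ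
        {p : F × Sph 2 | p.1 ≠ f p.2} := by
      rw [add_zero]
      exact Cq.push_mem_Z (Set.mapsTo_univ _ _) (Set.mapsTo_preimage _ _) hc
    have hL := Cq.cross_bij _ _ _ (thmL hF hξ hg f)
    obtain ⟨c0, hc0, hb⟩ := hL.2 0 _ hpc
    let v0 : Sph 2 := Classical.arbitrary _
    obtain ⟨r, hr⟩ := h0_conn v0 hc0.1
    have h3 := Cq.cr_bd_right (A' := {p : F × Sph 2 | p.1 ≠ f p.2}) hξ hr
      (by rw [Set.empty_prod]; exact Set.empty_subset _)
      (by rw [Set.prod_empty]; exact Set.empty_subset _)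
    rw [map_sub, map_smul, cr_pt] at h3
    have h4 := Cq.bd_trans hb h3
    rw [add_zero] at h4
    -- the local piece
    obtain ⟨U0, hU0, hxU0, hemb⟩ := D.local_emb (f v0) (s v0) (t v0) (hst v0)
    let U : Set F := U0 ∩ {y | (y, f v0) ∈ O}
    have hU : IsOpen U := hU0.inter (hO.preimage (by fun_prop))
    have hxU : f v0 ∈ U := ⟨hxU0, hOd _⟩
    let iU : C(U, F) := ⟨Subtype.val, continuous_subtype_val⟩
    have hiU : Topology.IsOpenEmbedding iU := hU.isOpenEmbedding_subtypeVal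
    let i' : C(U, O') := ⟨fun y => ⟨(y.1, v0), y.2.2⟩, by fun_prop⟩
    have hpre : iU ⁻¹' ({f v0}ᶜ : Set F) = ({⟨f v0, hxU⟩}ᶜ : Set U) := by
      ext y
      show ¬ (y.1 = f v0) ↔ ¬ (y = ⟨f v0, hxU⟩)
      rw [Subtype.ext_iff]
    have hξ' : ξ ∈ CubeHom.Z (ZMod 2) (d : ℤ) Set.univ ({f v0}ᶜ : Set F) :=
      Cq.Z_mono subset_rfl (Set.empty_subset _) hξ
    obtain ⟨ξU, hξU, hb2⟩ := embed_surj hiU (isClosed_singleton.isOpen_compl) (by
      rw [Set.eq_univ_iff_forall]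
      intro y
      by_cases hy : y = f v0
      · exact Or.inr ⟨⟨y, hy ▸ hxU⟩, rfl⟩
      · exact Or.inl hy) hξ'
    rw [hpre] at hξU
    -- the inclusion of the slice
    let sl : C(F, F × Sph 2) := ⟨fun a => (a, v0), by fun_prop⟩
    have hsl : push sl (push iU ξU) = push j (push i' ξU) := by
      rw [push_push, push_push]
      rfl
    have hb3 : CubeHom.Bd (ZMod 2) (d : ℤ) Set.univ A (push sl ξ - push j (push i' ξU)) := by
      rw [← hsl, ← map_sub]
      exact Cq.bd_push' (Set.mapsTo_univ _ _) (fun y hy => hy) hb2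
    have hb4 : CubeHom.Bd (ZMod 2) (d : ℤ) Set.univ (j ⁻¹' A) (c - r • push i' ξU) := by
      refine embed_inj hj hA hcov ?_ ?_
      · refine Submodule.sub_mem _ hc.1 (Submodule.smul_mem _ _ ?_)
        exact push_mem_C (Set.mapsTo_univ _ _) hξU.1
      · rw [map_sub, map_smul]
        have h5 := Cq.bd_smul r hb3
        rw [smul_sub] at h5
        have h6 : CubeHom.Bd (ZMod 2) (d : ℤ) Set.univ A (push j c - r • push sl ξ) := h4
        exact Cq.bd_trans h6 h5
    -- the right hand side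
    have hR : Finsupp.linearCombination (ZMod 2) (pb j (pb (idx f) μ)) (push i' ξU) = 1 := by
      rw [← lc_push, ← lc_eq hμf hb3, ← lc_push, push_push]
      exact mu_swap hF hξ hg hμ h1 (f v0)
    -- the left hand side
    have hb6 := cmp_eq hk g hgz hom hb4
    rw [map_smul, map_smul] at hb6
    have hLv : Finsupp.linearCombination (ZMod 2) (pb g om)
        (cr k (stdCh (ZMod 2) k) (push i' ξU)) = 1 := by
      have e1 : cr k (stdCh (ZMod 2) k) (push i' ξU) =
          push ((ContinuousMap.id _).prodMap i') (cr k (stdCh (ZMod 2) k) ξU) := by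
        rw [← push_cr, push_id]
      rw [e1, lc_push, pb_comp]
      have hΛ : Topology.IsOpenEmbedding (g.comp ((ContinuousMap.id (Fin k → ℝ)).prodMap i')) := by
        have hin : Topology.IsOpenEmbedding (fun y : U => (⟨y.1, y.2.1⟩ : U0)) :=
          Topology.IsOpenEmbedding.of_comp _ hU0.isOpenEmbedding_subtypeVal
            (g := (Subtype.val : U0 → F)) hU.isOpenEmbedding_subtypeVal
        have h2 := hemb.comp ((hin.prodMap κ.toHomeomorph.isOpenEmbedding).comp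
          (Homeomorph.prodComm (Fin k → ℝ) U).isOpenEmbedding)
        have h3 := (PiLp.continuousLinearEquiv 2 ℝ
          (fun _ : Fin (n + 1) => ℝ)).toHomeomorph.isOpenEmbedding.comp h2
        exact h3
      have h0 : (g.comp ((ContinuousMap.id (Fin k → ℝ)).prodMap i')) (0, ⟨f v0, hxU⟩) = 0 := by
        funext i
        show (ι (f v0) - ι (f v0) + tmap (s v0) (ι (f v0)) (κ 0)) i = 0
        rw [map_zero, tmap_zero, sub_self, add_zero]
        rfl
      have hne : ¬ CubeHom.Bd (ZMod 2) (d : ℤ) Set.univ ({⟨f v0, hxU⟩}ᶜ : Set U) ξU := by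
        intro h5
        have h6 := Cq.bd_push' (f := iU) (V := Set.univ) (A' := ({f v0}ᶜ : Set F))
          (Set.mapsTo_univ _ _) (by
            rw [← hpre]
            exact Set.mapsTo_preimage _ _) h5
        exact xi_ne hF hg (f v0) (Cq.bd_of_sub hb2 h6)
      generalize g.comp ((ContinuousMap.id (Fin k → ℝ)).prodMap i') = Λ at hΛ h0 ⊢
      exact fiber_val hk Λ hΛ h0 hξU hne hom hom1
    have hb7 := lc_eq hμj hb4
    rw [hb6, hLv, hb7, map_smul, hR]
  -- conclusion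
  obtain ⟨w', hw', hb⟩ := embed_surj hj hA hcov
    (Cq.Z_mono subset_rfl (Set.empty_subset A) hw)
  have hfin := key (k := k) (d := d) (N := n + 1) (by omega) (by omega) hd g hgz hμj hom
    hcmp hw'
  have hsq := sq2_coc (pr A) hd hμf
  rw [lc_eq hsq hb, lc_push]
  have e : pb j (sq2 d (pb (idx f) μ)) = sq2 d (pb j (pb (idx f) μ)) := by
    unfold sq2
    rw [if_pos hd, if_pos hd]
    exact (cupI_pb _ _ _ j _ _).symm
  rw [e]
  exact hfin

end thom

end Pool.Agent.TC
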