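import Pool.Agent.Lib.TC.WuD

/-!
# Poincare dual cocycles of two-chains
-/

namespace Pool.Agent.TC

open CubeHom
open scoped Manifold ContDiff

section thom

variable {F : Type} [TopologicalSpace F] [T2Space F] [CompactSpace F] {n m d : ℕ}
  {ι : F → EuclideanSpace ℝ (Fin (n + 1))}
  {P : C(F, Matrix (Fin (n + 1)) (Fin (n + 1)) ℂ)}

namespace WU7

section cross

variable {R : Type*} [CommRing R] {X Y : Type*} [TopologicalSpace X] [TopologicalSpace Y]

theorem C_le (S : CS X) (k : ℤ) : S.C R k ≤ CubeHom.C R k Set.univ :=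
  Finsupp.supported_mono fun _ h => ⟨h.1, fun _ => Set.mem_univ _⟩

theorem Q_single (S : CS X) {k : ℤ} {σ : C(Cb, X)} (h1 : IsCube k σ) (h2 : S.ok σ)
    (h3 : S.nul σ ∨ Degen k σ) (r : R) : Finsupp.single σ r ∈ S.Q R k :=
  single_mem_supported (S := {σ | IsCube k σ ∧ S.ok σ ∧ (S.nul σ ∨ Degen k σ)}) ⟨h1, h2, h3⟩ r

theorem C_single (S : CS X) {k : ℤ} {σ : C(Cb, X)} (h1 : IsCube k σ) (h2 : S.ok σ) (r : R) :
    Finsupp.single σ r ∈ S.C R k :=
  single_mem_supported (S := {σ | IsCube k σ ∧ S.ok σ}) ⟨h1, h2⟩ r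

theorem cr_C (S : CS X) (T : CS Y) {n : ℕ} {k : ℤ} {x : Ch R X} {y : Ch R Y}
    (hx : x ∈ S.C R n) (hy : y ∈ T.C R k) : cr n x y ∈ (S.prod T).C R (n + k) := by
  refine cr_mem_of_supported _ (fun τ hτ σ hσ => ?_) hx hy
  exact C_single (S.prod T) (isCube_cross hτ.1 hσ.1) ⟨hτ.2, T.ok_comp _ _ hσ.2⟩ _

theorem cr_Ql (S : CS X) (T : CS Y) {n : ℕ} {k : ℤ} {x : Ch R X} {y : Ch R Y}
    (hx : x ∈ S.Q R n) (hy : y ∈ T.C R k) : cr n x y ∈ (S.prod T).Q R (n + k) := by
  refine cr_mem_of_supported _ (fun τ hτ σ hσ => ?_) hx hy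
  refine Q_single (S.prod T) (isCube_cross hτ.1 hσ.1) ⟨hτ.2.1, T.ok_comp _ _ hσ.2⟩ ?_ _
  exact hτ.2.2.imp (fun h => Or.inl h) (fun h => degen_cross_left h hσ.1)

theorem cr_Qr (S : CS X) (T : CS Y) {n : ℕ} {k : ℤ} {x : Ch R X} {y : Ch R Y}
    (hx : x ∈ S.C R n) (hy : y ∈ T.Q R k) : cr n x y ∈ (S.prod T).Q R (n + k) := by
  refine cr_mem_of_supported _ (fun τ hτ σ hσ => ?_) hx hy
  refine Q_single (S.prod T) (isCube_cross hτ.1 hσ.1) ⟨hτ.2, T.ok_comp _ _ hσ.2.1⟩ ?_ _
  exact hσ.2.2.imp (fun h => Or.inr (T.nul_comp _ _ h)) (fun h => degen_cross_right hτ.1 h)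

theorem cr_bd_left (S : CS X) (T : CS Y) {n : ℕ} {k : ℤ} {x : Ch R X} {y : Ch R Y}
    (hx : S.Bd R n x) (hy : y ∈ T.Z R k) : (S.prod T).Bd R (n + k) (cr n x y) := by
  obtain ⟨b, hb, hq⟩ := hx
  have hb' : b ∈ S.C R ((n + 1 : ℕ) : ℤ) := by exact_mod_cast hb
  have e1 : (((n + 1 : ℕ) : ℤ) + k) = (n + k) + 1 := by push_cast; ring
  refine ⟨cr (n + 1) b y, ?_, ?_⟩
  · rw [← e1]
    exact cr_C S T hb' hy.1
  · have h := bd_cr (R := R) (C_le S _ hb') (C_le T _ hy.1)
    rw [← e1, h, Nat.add_sub_cancel]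
    have e2 : cr n x y - (cr n (bd ((n + 1 : ℕ) : ℤ) b) y +
        (-1 : R) ^ (n + 1) • cr (n + 1) b (bd k y)) =
        cr n (x - bd ((n : ℤ) + 1) b) y - (-1 : R) ^ (n + 1) • cr (n + 1) b (bd k y) := by
      rw [map_sub, LinearMap.sub_apply]
      push_cast
      abel
    rw [e2]
    refine Submodule.sub_mem _ (cr_Ql S T hq hy.1) (Submodule.smul_mem _ _ ?_)
    have h3 := cr_Qr S T hb' (show bd k y ∈ T.Q R (k - 1) from hy.2)
    have e3 : (((n + 1 : ℕ) : ℤ) + (k - 1)) = n + k := by push_cast; ring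
    rwa [e3] at h3

theorem cr_bd_right (S : CS X) (T : CS Y) {n : ℕ} {k : ℤ} {x : Ch R X} {y : Ch R Y}
    (hx : x ∈ S.Z R n) (hy : T.Bd R k y) : (S.prod T).Bd R (n + k) (cr n x y) := by
  obtain ⟨b, hb, hq⟩ := hy
  refine ⟨(-1 : R) ^ n • cr n x b, Submodule.smul_mem _ _ ?_, ?_⟩
  · have h := cr_C S T hx.1 hb
    rwa [← add_assoc] at h
  · have h := bd_cr (R := R) (C_le S _ hx.1) (C_le T _ hb)
    rw [map_smul, add_assoc, h]
    have e0 : (-1 : R) ^ n * (-1) ^ n = 1 := by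
      rw [← pow_add, ← two_mul, pow_mul]; simp
    have e2 : cr n x y - (-1 : R) ^ n • (cr (n - 1) (bd n x) b +
        (-1 : R) ^ n • cr n x (bd (k + 1) b)) =
        cr n x (y - bd (k + 1) b) - (-1 : R) ^ n • cr (n - 1) (bd n x) b := by
      rw [map_sub, smul_add, smul_smul, e0, one_smul]
      abel
    rw [e2]
    refine Submodule.sub_mem _ (cr_Qr S T hx.1 hq) (Submodule.smul_mem _ _ ?_)
    rcases Nat.eq_zero_or_pos n with h0 | h0
    · subst h0
      have : bd ((0 : ℕ) : ℤ) x = 0 := by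
        rw [bd_apply]; simp
      rw [this, map_zero, LinearMap.zero_apply]
      exact Submodule.zero_mem _
    · have e3 : ((n - 1 : ℕ) : ℤ) = (n : ℤ) - 1 := by omega
      have h3 := cr_Ql S T (n := n - 1) (by rw [e3]; exact hx.2) hb
      have e4 : ((n - 1 : ℕ) : ℤ) + (k + 1) = n + k := by omega
      rwa [e4] at h3

theorem cr_Z (S : CS X) (T : CS Y) {n : ℕ} {k : ℤ} {x : Ch R X} {y : Ch R Y}
    (hx : x ∈ S.Z R n) (hy : y ∈ T.Z R k) : cr n x y ∈ (S.prod T).Z R (n + k) := by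
  refine ⟨cr_C S T hx.1 hy.1, ?_⟩
  show bd ((n : ℤ) + k) (cr n x y) ∈ (S.prod T).Q R ((n : ℤ) + k - 1)
  rw [bd_cr (R := R) (C_le S _ hx.1) (C_le T _ hy.1)]
  refine Submodule.add_mem _ ?_ (Submodule.smul_mem _ _ ?_)
  · rcases Nat.eq_zero_or_pos n with h0 | h0
    · subst h0
      have : bd ((0 : ℕ) : ℤ) x = 0 := by
        rw [bd_apply]; simp
      rw [this, map_zero, LinearMap.zero_apply]
      exact Submodule.zero_mem _
    · have e3 : ((n - 1 : ℕ) : ℤ) = (n : ℤ) - 1 := by omega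
      have h3 := cr_Ql S T (n := n - 1) (x := bd (n : ℤ) x) (by rw [e3]; exact hx.2) hy.1
      have e4 : ((n - 1 : ℕ) : ℤ) + k = n + k - 1 := by omega
      rwa [e4] at h3
  · have h3 := cr_Qr S T hx.1 (show bd k y ∈ T.Q R (k - 1) from hy.2)
    rwa [← add_sub_assoc] at h3

end cross

section field

variable {X Y : Type} [TopologicalSpace X] [TopologicalSpace Y] {K : Type} [Field K]

theorem prod_top (X Y : Type) [TopologicalSpace X] [TopologicalSpace Y] :
    (CS.top X).prod (CS.top Y) = CS.top (X × Y) := by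
  unfold CS.prod CS.top
  congr 1
  · funext om
    exact propext ⟨fun _ => trivial, fun _ => ⟨trivial, trivial⟩⟩
  · funext om
    exact propext ⟨fun h => h.elim id id, fun h => Or.inl h⟩

/-- A cochain which vanishes on the boundaries is a cocycle. -/
theorem coc_of_bd (S : CS X) {k : ℕ} {u : C(Cb, X) → K}
    (h : ∀ y : Ch K X, S.Bd K (k : ℤ) y → Finsupp.linearCombination K u y = 0) : S.Coc k u := by
  refine ⟨fun σ h1 h2 h3 => ?_, fun σ h1 h2 => ?_⟩
  · have h4 := h (Finsupp.single σ 1) ⟨0, Submodule.zero_mem _, by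
      rw [map_zero, sub_zero]
      exact Q_single S h1 h2 h3 1⟩
    rwa [Finsupp.linearCombination_single, one_smul] at h4
  · have e : ((k + 1 : ℕ) : ℤ) = (k : ℤ) + 1 := by push_cast; rfl
    have h4 := h (bd ((k + 1 : ℕ) : ℤ) (Finsupp.single σ 1)) ⟨Finsupp.single σ 1, by
      have h5 := C_single (R := K) S h1 h2 1
      rwa [e] at h5, by
      rw [e, sub_self]
      exact Submodule.zero_mem _⟩
    rwa [lc_bd, Finsupp.linearCombination_single, one_smul] at h4

/-- The Künneth formula for cocycles. -/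
theorem kun {n : ℕ} {v : C(Cb, X × Y) → K} (hv : (CS.top (X × Y)).Coc n v)
    (h : ∀ m l : ℕ, m + l = n → ∀ x ∈ (CS.top X).Z K (m : ℤ), ∀ y ∈ (CS.top Y).Z K (l : ℤ),
      Finsupp.linearCombination K v (cr m x y) = 0) {w : Ch K (X × Y)}
    (hw : w ∈ (CS.top (X × Y)).Z K (n : ℤ)) : Finsupp.linearCombination K v w = 0 := by
  rw [← prod_top] at hw
  obtain ⟨r, m, x, y, h1, h2⟩ := kunneth (CS.top X) (CS.top Y) hw
  rw [prod_top] at h2
  have h3 := coc_bd (CS.top (X × Y)) hv h2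
  rw [map_sub, sub_eq_zero] at h3
  rw [h3, map_sum]
  refine Finset.sum_eq_zero fun i _ => ?_
  obtain ⟨h4, h5, h6⟩ := h1 i
  exact h (m i) (n - m i) (by omega) _ h5 _ h6

theorem val_left {m l n : ℕ} (hn : m + l = n) {v : C(Cb, X × Y) → K}
    (hv : (CS.top (X × Y)).Coc n v) {x : Ch K X} {y : Ch K Y} (hx : (CS.top X).Bd K (m : ℤ) x)
    (hy : y ∈ (CS.top Y).Z K (l : ℤ)) : Finsupp.linearCombination K v (cr m x y) = 0 := by
  have h := cr_bd_left (CS.top X) (CS.top Y) hx hy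
  rw [prod_top] at h
  have e : (m : ℤ) + (l : ℤ) = (n : ℤ) := by exact_mod_cast hn
  rw [e] at h
  exact coc_bd _ hv h

theorem val_right {m l n : ℕ} (hn : m + l = n) {v : C(Cb, X × Y) → K}
    (hv : (CS.top (X × Y)).Coc n v) {x : Ch K X} {y : Ch K Y}
    (hx : x ∈ (CS.top X).Z K (m : ℤ)) (hy : (CS.top Y).Bd K (l : ℤ) y) :
    Finsupp.linearCombination K v (cr m x y) = 0 := by
  have h := cr_bd_right (CS.top X) (CS.top Y) hx hy
  rw [prod_top] at h
  have e : (m : ℤ) + (l : ℤ) = (n : ℤ) := by exact_mod_cast hn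
  rw [e] at h
  exact coc_bd _ hv h

/-- Evaluation on cross products. -/
theorem eval_cross {m l : ℕ} {v : C(Cb, X × Y) → K} {α : C(Cb, X) → K} {β : C(Cb, Y) → K}
    (h : ∀ τ σ, IsCube (m : ℤ) τ → IsCube (l : ℤ) σ → v (crossCube m τ σ) = α τ * β σ)
    {x : Ch K X} {y : Ch K Y} (hx : x ∈ (CS.top X).C K (m : ℤ))
    (hy : y ∈ (CS.top Y).C K (l : ℤ)) :
    Finsupp.linearCombination K v (cr m x y) =
      Finsupp.linearCombination K α x * Finsupp.linearCombination K β y := by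
  have h1 := map_eq_of_supported (R := K) ((Finsupp.linearCombination K v).comp ((cr m).flip y))
    ((Finsupp.linearCombination K β y) • (Finsupp.linearCombination K α))
    (fun τ (hτ : IsCube (m : ℤ) τ ∧ (CS.top X).ok τ) => ?_) hx
  · rw [LinearMap.comp_apply, LinearMap.flip_apply, LinearMap.smul_apply, smul_eq_mul,
      mul_comm] at h1
    exact h1
  · rw [LinearMap.comp_apply, LinearMap.flip_apply, LinearMap.smul_apply, smul_eq_mul,
      Finsupp.linearCombination_single, one_smul, mul_comm]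
    have h2 := map_eq_of_supported (R := K)
      ((Finsupp.linearCombination K v).comp (cr m (Finsupp.single τ 1)))
      ((α τ) • (Finsupp.linearCombination K β))
      (fun σ (hσ : IsCube (l : ℤ) σ ∧ (CS.top Y).ok σ) => ?_) hy
    · exact h2
    · rw [LinearMap.comp_apply, cr_single_single, one_mul, Finsupp.linearCombination_single,
        one_smul, LinearMap.smul_apply, Finsupp.linearCombination_single, one_smul, smul_eq_mul]
      exact h τ σ hτ.1 hσ.1

theorem lc_left {m : ℕ} (v : C(Cb, X × Y) → K) (x : Ch K X) (y : Ch K Y) :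
    Finsupp.linearCombination K
      (fun σ => Finsupp.linearCombination K v (cr m (Finsupp.single σ 1) y)) x =
      Finsupp.linearCombination K v (cr m x y) := by
  have h : Finsupp.linearCombination K
      (fun σ => Finsupp.linearCombination K v (cr m (Finsupp.single σ 1) y)) =
      (Finsupp.linearCombination K v).comp ((cr m).flip y) := by
    ext σ
    simp
  rw [h]
  rfl

/-- The dual class of a generator. -/
theorem exists_dual {k : ℕ} {ξ : Ch (ZMod 2) X} (hξ : ξ ∈ (CS.top X).Z (ZMod 2) (k : ℤ))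
    (hne : ¬ (CS.top X).Bd (ZMod 2) (k : ℤ) ξ) :
    ∃ z : C(Cb, X) → ZMod 2, (CS.top X).Coc k z ∧
      Finsupp.linearCombination (ZMod 2) z ξ = 1 := by
  let p : Submodule (ZMod 2) ((CS.top X).Z (ZMod 2) (k : ℤ)) :=
    { carrier := {c | (CS.top X).Bd (ZMod 2) (k : ℤ) (c : Ch (ZMod 2) X)}
      zero_mem' := ⟨0, Submodule.zero_mem _, by
        rw [map_zero, sub_zero]; exact Submodule.zero_mem _⟩
      add_mem' := by
        rintro c c' ⟨b, hb, hq⟩ ⟨b', hb', hq'⟩
        refine ⟨b + b', Submodule.add_mem _ hb hb', ?_⟩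
        have h1 := Submodule.add_mem _ hq hq'
        convert h1 using 1
        rw [map_add, Submodule.coe_add]
        abel
      smul_mem' := fun r c ⟨b, h1, h2⟩ => ⟨r • b, Submodule.smul_mem _ _ h1, by
        rw [map_smul]
        have := Submodule.smul_mem _ r h2
        rwa [smul_sub] at this⟩ }
  obtain ⟨f, h1, h2⟩ := Submodule.exists_le_ker_of_notMem (p := p) (v := ⟨ξ, hξ⟩) hne
  obtain ⟨z, h3, h4⟩ := exists_cocycle extProp_field (CS.top X) f fun c hc => h2 hc
  refine ⟨z, h3, ?_⟩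
  rw [h4 ⟨ξ, hξ⟩]
  revert h1
  generalize f ⟨ξ, hξ⟩ = t
  revert t
  decide

theorem coc_sub {S : CS X} {k : ℕ} {u v : C(Cb, X) → ZMod 2} (hu : S.Coc k u) (hv : S.Coc k v) :
    S.Coc k (fun σ => u σ - v σ) := by
  refine ⟨fun σ h1 h2 h3 => ?_, fun σ h1 h2 => ?_⟩
  · show u σ - v σ = 0
    rw [hu.1 σ h1 h2 h3, hv.1 σ h1 h2 h3, sub_zero]
  · have h : dl k (fun σ => u σ - v σ) σ = dl k u σ - dl k v σ := by
      unfold dl
      rw [← Finset.sum_sub_distrib]
      refine Finset.sum_congr rfl fun i _ => ?_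
      rw [← smul_sub]
      congr 1
      ring
    rw [h, hu.2 σ h1 h2, hv.2 σ h1 h2, sub_zero]

theorem coc_add {S : CS X} {k : ℕ} {u v : C(Cb, X) → ZMod 2} (hu : S.Coc k u) (hv : S.Coc k v) :
    S.Coc k (fun σ => u σ + v σ) := by
  have h : (fun σ => u σ + v σ) = fun σ => u σ - v σ := by
    funext σ
    generalize u σ = x
    generalize v σ = y
    revert x y
    decide
  rw [h]
  exact coc_sub hu hv

theorem lc_sub (u v : C(Cb, X) → ZMod 2) (w : Ch (ZMod 2) X) :
    Finsupp.linearCombination (ZMod 2) (fun σ => u σ - v σ) w =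
      Finsupp.linearCombination (ZMod 2) u w - Finsupp.linearCombination (ZMod 2) v w := by
  rw [Finsupp.linearCombination_apply, Finsupp.linearCombination_apply,
    Finsupp.linearCombination_apply, ← Finsupp.sum_sub]
  refine Finsupp.sum_congr fun σ _ => ?_
  rw [smul_sub]

theorem lc_add (u v : C(Cb, X) → ZMod 2) (w : Ch (ZMod 2) X) :
    Finsupp.linearCombination (ZMod 2) (fun σ => u σ + v σ) w =
      Finsupp.linearCombination (ZMod 2) u w + Finsupp.linearCombination (ZMod 2) v w := by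
  rw [Finsupp.linearCombination_apply, Finsupp.linearCombination_apply,
    Finsupp.linearCombination_apply, ← Finsupp.sum_add]
  refine Finsupp.sum_congr fun σ _ => ?_
  rw [smul_add]

end field

section xprod

variable {X Y : Type} [TopologicalSpace X] [TopologicalSpace Y]

theorem fc_eq_id {n : ℕ} {w : ℕ → Option Bool} (h : ∀ j < n, w j = none) :
    fc n w = ContinuousMap.id Cb := by
  refine ContinuousMap.ext fun u => funext fun j => ?_
  show (if j < n then
      match w j with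
      | none => u ((Finset.range j).filter (fun i => w i = none)).card
      | some b => bitI b
    else u (j - ((Finset.range n).filter (fun i => w i ≠ none)).card)) = u j
  by_cases hj : j < n
  · rw [if_pos hj, h j hj]
    show u ((Finset.range j).filter (fun i => w i = none)).card = u j
    rw [Finset.filter_true_of_mem (fun i hi => h i ((Finset.mem_range.1 hi).trans hj)),
      Finset.card_range]
  · rw [if_neg hj]
    rw [Finset.filter_false_of_mem (fun i hi => not_not.2 (h i (Finset.mem_range.1 hi))),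
      Finset.card_empty, Nat.sub_zero]

/-- The external product. -/
def xp (i j : ℕ) (a : C(Cb, X) → ZMod 2) (b : C(Cb, Y) → ZMod 2) : C(Cb, X × Y) → ZMod 2 :=
  cup AddMonoidHom.mul i j (pb ContinuousMap.fst a) (pb ContinuousMap.snd b)

theorem cup_one (i : ℕ) (a : C(Cb, X) → ZMod 2) (τ : C(Cb, X)) :
    cup AddMonoidHom.mul i 0 a (fun _ => 1) τ = a τ := by
  unfold cup
  have h1 : (Finset.range (i + 0)).powersetCard i = {Finset.range i} := by
    have h2 := Finset.powersetCard_self (Finset.range i)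
    rw [Finset.card_range] at h2
    exact h2
  have h3 : sgnS (i + 0) (Finset.range i) = 1 := by
    unfold sgnS
    rw [Finset.filter_eq_empty_iff.2, Finset.card_empty, pow_zero]
    rintro ⟨x, y⟩ hxy ⟨h4, -⟩
    rw [Finset.mem_product] at hxy
    exact h4 hxy.1
  rw [h1, Finset.sum_singleton, h3, one_smul, AddMonoidHom.mul_apply, mul_one,
    fc_eq_id (n := i + 0) (w := wfr (Finset.range i)) (fun j hj => if_pos (Finset.mem_range.2 hj))]
  rfl

theorem one_cup (i : ℕ) (a : C(Cb, X) → ZMod 2) (τ : C(Cb, X)) :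
    cup AddMonoidHom.mul 0 i (fun _ => 1) a τ = a τ := by
  unfold cup
  have h3 : sgnS (0 + i) ∅ = 1 := by
    unfold sgnS
    rw [Finset.filter_eq_empty_iff.2, Finset.card_empty, pow_zero]
    rintro ⟨x, y⟩ hxy ⟨-, h4, -⟩
    exact absurd h4 (Finset.notMem_empty _)
  rw [Finset.powersetCard_zero, Finset.sum_singleton, h3, one_smul, AddMonoidHom.mul_apply,
    one_mul, Nat.zero_add, fc_eq_id (w := wbk ∅) (fun j hj => if_neg (Finset.notMem_empty _))]
  rfl

theorem xp_bi {i j : ℕ} {a : C(Cb, X) → ZMod 2} {b : C(Cb, Y) → ZMod 2}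
    (ha : (CS.top X).Rel i a) (hb : (CS.top Y).Rel j b) :
    Bi (ZMod 2) i j a b (xp i j a b) := by
  intro m l τ σ hml hτ hσ
  have h := bi_cup (bi_fst (Y := Y) ha) (bi_snd (X := X) hb) m l τ σ (by omega) hτ hσ
  simp only [Nat.zero_add, Nat.add_zero, Nat.zero_mul, pow_zero, one_mul] at h
  unfold xp
  rw [h]
  by_cases hm : m = i
  · subst hm
    obtain rfl : l = j := by omega
    rw [if_pos rfl, if_pos rfl, cup_one, one_cup]
  · rw [if_neg hm, if_neg hm]

theorem card_wfr {n i : ℕ} {H : Finset ℕ} (hH : H ∈ (Finset.range n).powersetCard i) :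
    ((Finset.range n).filter (fun x => wfr H x = none)).card = i := by
  rw [Finset.mem_powersetCard] at hH
  have h : (Finset.range n).filter (fun x => wfr H x = none) = H := by
    ext x
    simp only [Finset.mem_filter, wfr]
    by_cases hx : x ∈ H
    · simp [hx, Finset.mem_range.mp (hH.1 hx)]
    · simp [hx]
  rw [h, hH.2]

theorem card_wbk {i j : ℕ} {H : Finset ℕ} (hH : H ∈ (Finset.range (i + j)).powersetCard i) :
    ((Finset.range (i + j)).filter (fun x => wbk H x = none)).card = j := by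
  rw [Finset.mem_powersetCard] at hH
  have h : (Finset.range (i + j)).filter (fun x => wbk H x = none) = Finset.range (i + j) \ H := by
    ext x
    simp only [Finset.mem_filter, wbk, Finset.mem_sdiff]
    by_cases hx : x ∈ H
    · simp [hx]
    · simp [hx]
  rw [h, Finset.card_sdiff_of_subset hH.1, hH.2, Finset.card_range]
  omega

/-- The cup product of cocycles. -/
theorem cup_coc {K : Type} [Field K] {i j : ℕ} {v u : C(Cb, X) → K} (hv : (CS.top X).Coc i v)
    (hu : (CS.top X).Coc j u) : (CS.top X).Coc (i + j) (cup AddMonoidHom.mul i j v u) := by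
  refine ⟨fun σ h1 h2 h3 => ?_, fun σ hσ _ => ?_⟩
  · have h4 := cup_rel (CS.top X) (CS.top X) rfl AddMonoidHom.mul hv.1 hu.1
    refine h4 σ h1 h2 ?_
    rcases h3 with h | h
    · exact Or.inl (Or.inl h)
    · exact Or.inr h
  · rw [dl_cup _ _ _ _ _ hσ]
    have h1 : cup AddMonoidHom.mul (i + 1) j (dl i v) u σ = 0 := by
      refine Finset.sum_eq_zero fun H hH => ?_
      have e : i + 1 + j = i + j + 1 := by omega
      have h5 := isCube_fc (n := i + 1 + j) (w := wfr H) (e ▸ hσ)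
      rw [card_wfr hH] at h5
      rw [hv.2 _ h5 trivial, map_zero, AddMonoidHom.zero_apply, smul_zero]
    have h2 : cup AddMonoidHom.mul i (j + 1) v (dl j u) σ = 0 := by
      refine Finset.sum_eq_zero fun H hH => ?_
      have h5 := isCube_fc (n := i + (j + 1)) (w := wbk H) hσ
      rw [card_wbk hH] at h5
      rw [hu.2 _ h5 trivial, map_zero, smul_zero]
    rw [h1, h2, smul_zero, add_zero]

theorem maps_top (f : C(X, Y)) : (CS.top X).Maps (CS.top Y) f :=
  ⟨fun _ _ => trivial, fun _ _ h => h.elim⟩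

theorem xp_coc {i j : ℕ} {a : C(Cb, X) → ZMod 2} {b : C(Cb, Y) → ZMod 2}
    (ha : (CS.top X).Coc i a) (hb : (CS.top Y).Coc j b) :
    (CS.top (X × Y)).Coc (i + j) (xp i j a b) :=
  cup_coc ((maps_top ContinuousMap.fst).coc ha) ((maps_top ContinuousMap.snd).coc hb)

end xprod

section points

variable {K : Type} [Field K] {Y : Type} [TopologicalSpace Y]

theorem isCube_zero_const {v : C(Cb, Y)} (hv : IsCube 0 v) :
    v = ContinuousMap.const Cb (v 0) := by
  ext u
  exact hv.2 fun j hj => by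
    simp only [Set.mem_ofPred_eq] at hj
    omega

theorem bd_point_sub [PathConnectedSpace Y] {v v' : C(Cb, Y)} (hv : IsCube 0 v)
    (hv' : IsCube 0 v') :
    (CS.top Y).Bd K 0 (Finsupp.single v 1 - Finsupp.single v' 1) := by
  obtain ⟨γ⟩ := PathConnectedSpace.joined (v' 0) (v 0)
  let τ : C(Cb, Y) := ⟨fun u => γ (u 0), by fun_prop⟩
  have hτ : IsCube 1 τ := by
    refine ⟨by norm_num, fun u w h => ?_⟩
    change γ (u 0) = γ (w 0)
    rw [h 0 (by simp)]
  refine ⟨Finsupp.single τ 1, C_single _ (by simpa using hτ) trivial _, ?_⟩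
  have e : bd (0 + 1) (Finsupp.single τ (1 : K)) = Finsupp.single v 1 - Finsupp.single v' 1 := by
    rw [bd_apply]
    simp only [zero_add, Int.toNat_one, Finset.range_one, Finset.sum_singleton, pow_zero,
      one_smul, face_single]
    congr 2
    · rw [isCube_zero_const hv]
      ext u
      change γ (ins 0 1 u 0) = v 0
      rw [ins_apply_self]
      exact γ.target
    · rw [isCube_zero_const hv']
      ext u
      change γ (ins 0 0 u 0) = v' 0
      rw [ins_apply_self]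
      exact γ.source
  rw [e, sub_self]
  exact Submodule.zero_mem _

/-- Chains of dimension zero in a path connected space. -/
theorem zero_cycle [PathConnectedSpace Y] {v : C(Cb, Y)} (hv : IsCube 0 v) {y : Ch K Y}
    (hy : y ∈ (CS.top Y).Z K 0) :
    ∃ r : K, (CS.top Y).Bd K 0 (y - r • Finsupp.single v 1) := by
  have hsub := (Finsupp.mem_supported K y).1 hy.1
  refine ⟨∑ σ ∈ y.support, y σ, ?_⟩
  have e : y - (∑ σ ∈ y.support, y σ) • Finsupp.single v 1 =
      ∑ σ ∈ y.support, y σ • (Finsupp.single σ 1 - Finsupp.single v 1) := by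
    simp only [smul_sub]
    rw [Finset.sum_sub_distrib, Finset.sum_smul]
    congr 1
    conv_lhs => rw [← Finsupp.sum_single y, Finsupp.sum]
    refine Finset.sum_congr rfl fun σ _ => ?_
    rw [Finsupp.smul_single, smul_eq_mul, mul_one]
  rw [e]
  choose! b hb hq using fun (σ : C(Cb, Y)) (hσ : IsCube 0 σ) =>
    (bd_point_sub (K := K) hσ hv)
  refine ⟨∑ σ ∈ y.support, y σ • b σ, ?_, ?_⟩
  · exact Submodule.sum_mem _ fun σ hσ => Submodule.smul_mem _ _ (hb σ (hsub hσ).1)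
  · rw [map_sum, ← Finset.sum_sub_distrib]
    refine Submodule.sum_mem _ fun σ hσ => ?_
    rw [map_smul, ← smul_sub]
    exact Submodule.smul_mem _ _ (hq σ (hsub hσ).1)

end points

section diag

variable {F : Type} [TopologicalSpace F]

theorem offD_top {K : Type} [Field K] {d : ℕ} {μ : C(Cb, F × F) → K} (hμ : (offD F).Coc d μ) :
    (CS.top (F × F)).Coc d μ := by
  refine ⟨fun σ h1 _ h3 => ?_, fun σ h1 _ => ?_⟩
  · refine hμ.1 σ h1 ⟨Set.univ, rfl, fun _ => Set.mem_univ _⟩ ?_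
    rcases h3 with h | h
    · exact h.elim
    · exact Or.inr h
  · exact hμ.2 σ h1 ⟨Set.univ, rfl, fun _ => Set.mem_univ _⟩

theorem lc_pdc (μ : C(Cb, F × F) → ZMod 2) (j : ℕ) (c x : Ch (ZMod 2) F) :
    Finsupp.linearCombination (ZMod 2) (pdc μ j c) x =
      Finsupp.linearCombination (ZMod 2) μ (cr j x c) := lc_left μ x c

theorem mem_C_bd {X : Type} [TopologicalSpace X] {K : Type} [Field K] (S : CS X) {k : ℤ}
    {c : Ch K X} (hc : c ∈ S.C K k) : bd k c ∈ S.C K (k - 1) := by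
  have h1 : c ∈ CubeHom.C K k Set.univ := by
    refine Finsupp.supported_mono (s := {σ : C(Cb, X) | IsCube k σ ∧ S.ok σ}) ?_ hc
    exact fun σ hσ => ⟨hσ.1, fun _ => Set.mem_univ _⟩
  have h2 := bd_mem_C h1
  have h3 : bd k c ∈ Finsupp.supported K K {σ : C(Cb, X) | S.ok σ} := by
    rw [bd, LinearMap.sum_apply]
    refine Submodule.sum_mem _ fun i _ => ?_
    rw [LinearMap.smul_apply, LinearMap.sub_apply]
    refine Submodule.smul_mem _ _ (Submodule.sub_mem _ ?_ ?_)
    · exact Sub.mem_supported_mapDomain (ins i 1) (fun σ hσ => S.ok_comp σ _ hσ)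
        (Finsupp.supported_mono (fun σ hσ => hσ.2) hc)
    · exact Sub.mem_supported_mapDomain (ins i 0) (fun σ hσ => S.ok_comp σ _ hσ)
        (Finsupp.supported_mono (fun σ hσ => hσ.2) hc)
  rw [Finsupp.mem_supported] at h3
  rw [CubeHom.C, Finsupp.mem_supported] at h2
  rw [CS.C, Finsupp.mem_supported]
  exact fun σ hσ => ⟨(h2 hσ).1, h3 hσ⟩

theorem top_C {X : Type} [TopologicalSpace X] {K : Type} [Field K] (k : ℤ) :
    (CS.top X).C K k = CubeHom.C K k (Set.univ : Set X) := by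
  unfold CS.C CubeHom.C
  congr 1
  ext σ
  simp [CS.top]

theorem top_Q {X : Type} [TopologicalSpace X] {K : Type} [Field K] (k : ℤ) :
    (CS.top X).Q K k = CubeHom.Q K k (∅ : Set X) := by
  unfold CS.Q CubeHom.Q
  congr 1
  ext σ
  have h : ¬ ∀ u : Cb, σ u ∈ (∅ : Set X) := fun h => h (fun _ => 0)
  simp [CS.top]

theorem Q_le_C {X : Type} [TopologicalSpace X] {K : Type} [Field K] (S : CS X) (k : ℤ) :
    S.Q K k ≤ S.C K k := Finsupp.supported_mono fun _ h => ⟨h.1, h.2.1⟩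

/-- A boundary is a cycle. -/
theorem mem_Z_of_Bd {X : Type} [TopologicalSpace X] {K : Type} [Field K] {k : ℤ} {c : Ch K X}
    (hc : (CS.top X).Bd K k c) : c ∈ (CS.top X).Z K k := by
  obtain ⟨b, hb, hq⟩ := hc
  have e : c = (c - bd (k + 1) b) + bd (k + 1) b := by abel
  have h1 := mem_C_bd _ hb
  rw [add_sub_cancel_right] at h1
  refine ⟨?_, ?_⟩
  · rw [e]
    exact Submodule.add_mem _ (Q_le_C _ _ hq) h1
  · show bd k c ∈ (CS.top X).Q K (k - 1)
    rw [e, map_add, bd_bd', add_zero, top_Q]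
    rw [top_Q] at hq
    have h2 : c - bd (k + 1) b ∈ CubeHom.Q K ((k - 1) + 1) (∅ : Set X) := by
      rwa [sub_add_cancel]
    have h3 := bd_mem_Q' h2
    rwa [sub_add_cancel] at h3

end diag

section cap

variable {X : Type} [TopologicalSpace X] {K : Type} [Field K]

/-- The faces of a cube paired with `u`. -/
noncomputable def capT (i j : ℕ) (u : C(Cb, X) → K) (t : C(Cb, X)) : Ch K X :=
  ∑ H ∈ (Finset.range (i + j)).powersetCard i, sgnS (i + j) H •
    Finsupp.single (t.comp (fc (i + j) (wfr H))) (u (t.comp (fc (i + j) (wbk H))))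

/-- The cap product of a chain of degree `i + j` with a cochain of degree `j`. -/
noncomputable def capL (i j : ℕ) (u : C(Cb, X) → K) : Ch K X →ₗ[K] Ch K X :=
  Finsupp.linearCombination K (capT i j u)

theorem lc_capL (i j : ℕ) (v u : C(Cb, X) → K) (ξ : Ch K X) :
    Finsupp.linearCombination K v (capL i j u ξ) =
      Finsupp.linearCombination K (cup AddMonoidHom.mul i j v u) ξ := by
  have h : (Finsupp.linearCombination K v).comp (capL i j u) =
      Finsupp.linearCombination K (cup AddMonoidHom.mul i j v u) := by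
    refine Finsupp.lhom_ext fun t a => ?_
    rw [LinearMap.comp_apply, capL, Finsupp.linearCombination_single, map_smul, capT, map_sum,
      Finsupp.linearCombination_single, cup]
    congr 1
    refine Finset.sum_congr rfl fun H _ => ?_
    rw [map_zsmul, Finsupp.linearCombination_single, AddMonoidHom.mul_apply, smul_eq_mul, mul_comm]
  exact LinearMap.congr_fun h ξ

theorem lc_congr {v w : C(Cb, X) → K} {c : Ch K X} {s : Set C(Cb, X)}
    (hc : c ∈ Finsupp.supported K K s) (h : ∀ σ ∈ s, v σ = w σ) :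
    Finsupp.linearCombination K v c = Finsupp.linearCombination K w c := by
  rw [Finsupp.linearCombination_apply, Finsupp.linearCombination_apply]
  refine Finsupp.sum_congr fun σ hσ => ?_
  rw [h σ ((Finsupp.mem_supported K c).mp hc hσ)]

theorem lc_zero {v : C(Cb, X) → K} {c : Ch K X} {s : Set C(Cb, X)}
    (hc : c ∈ Finsupp.supported K K s) (h : ∀ σ ∈ s, v σ = 0) :
    Finsupp.linearCombination K v c = 0 := by
  rw [lc_congr (w := fun _ => 0) hc h, Finsupp.linearCombination_apply]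
  simp [Finsupp.sum]

theorem capL_mem_C (S : CS X) {i j : ℕ} (u : C(Cb, X) → K) {ξ : Ch K X}
    (hξ : ξ ∈ S.C K ((i + j : ℕ) : ℤ)) : capL i j u ξ ∈ S.C K (i : ℤ) := by
  rw [capL, Finsupp.linearCombination_apply]
  refine Submodule.sum_mem _ fun t ht => Submodule.smul_mem _ _ ?_
  have ht' := (Finsupp.mem_supported K ξ).mp hξ ht
  refine Submodule.sum_mem _ fun H hH => ?_
  refine zsmul_mem (Finsupp.single_mem_supported K _ ?_) _
  refine ⟨?_, S.ok_comp _ _ ht'.2⟩
  have h := isCube_fc (n := i + j) (w := wfr H) ht'.1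
  rwa [card_wfr hH] at h

/-- The pairing with normalised cochains detects the degenerate chains. -/
theorem mem_Q_of_lc (S : CS X) {k : ℕ} {c : Ch K X} (hc : c ∈ S.C K (k : ℤ))
    (h : ∀ w : C(Cb, X) → K, (CS.top X).Rel k w → Finsupp.linearCombination K w c = 0) :
    c ∈ S.Q K (k : ℤ) := by
  classical
  rw [CS.C, Finsupp.mem_supported] at hc
  rw [CS.Q, Finsupp.mem_supported]
  intro τ hτ
  refine ⟨(hc hτ).1, (hc hτ).2, Or.inr ?_⟩
  by_contra hdeg
  have h1 := h (fun σ => if σ = τ then 1 else 0) (by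
    intro σ _ _ hσ
    have h2 : σ ≠ τ := by
      rintro rfl
      rcases hσ with hσ | hσ
      · exact hσ
      · exact hdeg hσ
    simp [h2])
  rw [Finsupp.linearCombination_apply, Finsupp.sum] at h1
  simp only [smul_eq_mul, mul_ite, mul_one, mul_zero, Finset.sum_ite_eq'] at h1
  have hτ' : τ ∈ c.support := hτ
  rw [if_pos hτ'] at h1
  exact (Finsupp.mem_support_iff.mp hτ') h1

/-- The cap product of a cycle with a cocycle is a cycle. -/
theorem capL_mem_Z (S : CS X) (hS : ∀ σ, ¬ S.nul σ) {i j : ℕ} {u : C(Cb, X) → K}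
    (hu : (CS.top X).Coc j u) {ξ : Ch K X} (hξ : ξ ∈ S.Z K ((i + 1 + j : ℕ) : ℤ)) :
    capL (i + 1) j u ξ ∈ S.Z K ((i + 1 : ℕ) : ℤ) := by
  refine ⟨capL_mem_C S u hξ.1, ?_⟩
  show bd ((i + 1 : ℕ) : ℤ) (capL (i + 1) j u ξ) ∈ S.Q K (((i + 1 : ℕ) : ℤ) - 1)
  have e1 : (((i + 1 : ℕ) : ℤ) - 1) = (i : ℤ) := by push_cast; ring
  have h1 := mem_C_bd S (capL_mem_C S u hξ.1)
  rw [e1] at h1 ⊢
  refine mem_Q_of_lc S h1 fun w hw => ?_
  rw [lc_bd, lc_capL]
  have e2 : i + 1 + j = i + j + 1 := by omega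
  have hξC : ξ ∈ Finsupp.supported K K {σ : C(Cb, X) | IsCube ((i + j + 1 : ℕ) : ℤ) σ ∧ S.ok σ} := by
    have := hξ.1
    rw [CS.C, e2] at this
    exact this
  have h3 : Finsupp.linearCombination K (cup AddMonoidHom.mul (i + 1) j (dl i w) u) ξ =
      Finsupp.linearCombination K (dl (i + j) (cup AddMonoidHom.mul i j w u)) ξ := by
    refine lc_congr hξC fun σ hσ => ?_
    rw [dl_cup _ _ _ _ _ hσ.1]
    have h4 : cup AddMonoidHom.mul i (j + 1) w (dl j u) σ = 0 := by
      refine Finset.sum_eq_zero fun H hH => ?_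
      have h5 := isCube_fc (n := i + (j + 1)) (w := wbk H) hσ.1
      rw [card_wbk hH] at h5
      rw [hu.2 _ h5 trivial, map_zero, smul_zero]
    rw [h4, smul_zero, add_zero]
  rw [h3, ← lc_bd]
  have h6 : bd ((i + 1 + j : ℕ) : ℤ) ξ ∈ S.Q K (((i + 1 + j : ℕ) : ℤ) - 1) := hξ.2
  have e3 : (((i + 1 + j : ℕ) : ℤ) - 1) = ((i + j : ℕ) : ℤ) := by push_cast; ring
  have e4 : ((i + 1 + j : ℕ) : ℤ) = ((i + j + 1 : ℕ) : ℤ) := by push_cast; ring
  rw [e3, e4] at h6
  refine lc_zero h6 fun σ hσ => ?_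
  have h7 := cup_rel (CS.top X) (CS.top X) rfl AddMonoidHom.mul hw hu.1
  refine h7 σ hσ.1 trivial (Or.inr ?_)
  rcases hσ.2.2 with h | h
  · exact absurd h (hS σ)
  · exact h

/-- Replacing the fundamental cycle by a homologous one does not change the pairing with `μ`. -/
theorem mu_bd {μ : C(Cb, X × X) → K} {d : ℕ} (hμ : (offD X).Coc d μ) {c : Ch K X}
    (hc : (CS.top X).Bd K (d : ℤ) c) {v : C(Cb, X)} (hv : IsCube 0 v) :
    Finsupp.linearCombination K μ (cr 0 (Finsupp.single v 1) c) = 0 := by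
  refine val_right (m := 0) (l := d) (Nat.zero_add d) (offD_top hμ) ?_ hc
  refine ⟨C_single _ hv trivial _, ?_⟩
  show bd ((0 : ℕ) : ℤ) (Finsupp.single v (1 : K)) ∈ (CS.top X).Q K (((0 : ℕ) : ℤ) - 1)
  rw [bd_of_nonpos (by simp)]
  exact Submodule.zero_mem _

end cap

end WU7

open WU7 in
theorem pdc_coc {μ : C(Cb, F × F) → ZMod 2} (hμ : (offD F).Coc (3 + 2) μ)
    {c : Ch (ZMod 2) F} (hc : c ∈ (CS.top F).Z (ZMod 2) 2) :
    (CS.top F).Coc 3 (pdc μ 3 c) := by
  refine coc_of_bd _ fun y hy => ?_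
  rw [lc_pdc]
  exact val_left (m := 3) (l := 2) rfl (offD_top hμ) hy hc

open WU7 in
theorem pdc_cob {μ : C(Cb, F × F) → ZMod 2} (hμ : (offD F).Coc (3 + 2) μ)
    {c : Ch (ZMod 2) F} (hc : (CS.top F).Bd (ZMod 2) 2 c) :
    (CS.top F).Cob 2 (pdc μ 3 c) := by
  refine uct_field (CS.top F) (pdc_coc hμ (mem_Z_of_Bd hc)) fun x hx => ?_
  rw [lc_pdc]
  exact val_right (m := 3) (l := 2) rfl (offD_top hμ) hx hc

open WU7 in
theorem sq2_pdc_sphere [PathConnectedSpace F] (hF : LocEuc 5 F) {ξ : Ch (ZMod 2) F}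
    (hξ : ξ ∈ (CS.top F).Z (ZMod 2) 5)
    (hgen : ∀ c ∈ (CS.top F).Z (ZMod 2) 5, ∃ r : ZMod 2, (CS.top F).Bd (ZMod 2) 5 (c - r • ξ))
    (h4 : (CS.top F).Hz (ZMod 2) 4)
    {μ : C(Cb, F × F) → ZMod 2} (hμ : (offD F).Coc 5 μ) (f : C(Sph 2, F))
    {z : Ch (ZMod 2) (Sph 2)} (hz : z ∈ (CS.top (Sph 2)).Z (ZMod 2) 2)
    (hzg : ∀ c ∈ (CS.top (Sph 2)).Z (ZMod 2) 2, ∃ r : ZMod 2,
      (CS.top (Sph 2)).Bd (ZMod 2) 2 (c - r • z))
    (hz0 : ¬ (CS.top (Sph 2)).Bd (ZMod 2) 2 z)
    (hsq : ∀ w ∈ (CS.top (F × Sph 2)).Z (ZMod 2) 7,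
      Finsupp.linearCombination (ZMod 2) (sq2 5 (pb (idx f) μ)) w = 0) :
    (CS.top F).Cob 4 (sq2 3 (pdc μ 3 (push f z))) := by
  have hps : PathConnectedSpace (Sph 2) := sphere_connected (by norm_num)
  obtain ⟨s0⟩ := hps.nonempty
  have hμt := offD_top hμ
  have hom : (CS.top (F × Sph 2)).Coc 5 (pb (idx f) μ) := (maps_top _).coc hμt
  have hfz : push f z ∈ (CS.top F).Z (ZMod 2) 2 := (maps_top f).push_mem hz
  obtain ⟨a, ha_def⟩ : ∃ a, a = pdc μ 3 (push f z) := ⟨_, rfl⟩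
  have ha : (CS.top F).Coc 3 a := by
    rw [ha_def]
    exact pdc_coc hμ hfz
  rw [← ha_def]
  obtain ⟨om, hom_def⟩ : ∃ om, om = pb (idx f) μ := ⟨_, rfl⟩
  rw [← hom_def] at hom hsq
  have hidx : idx f = (ContinuousMap.id F).prodMap f := rfl
  have hval : ∀ x : Ch (ZMod 2) F, Finsupp.linearCombination (ZMod 2) om (cr 3 x z) =
      Finsupp.linearCombination (ZMod 2) a x := by
    intro x
    rw [hom_def, ha_def, lc_pdc, ← lc_push, hidx, ← push_cr, push_id]
  obtain ⟨b, hb, hbz⟩ := exists_dual (k := 2) hz hz0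
  obtain ⟨v0, hv0⟩ : ∃ v0 : C(Cb, Sph 2), IsCube 0 v0 :=
    ⟨ContinuousMap.const Cb s0, isCube_const 0 s0⟩
  have hv0Z : (Finsupp.single v0 1 : Ch (ZMod 2) (Sph 2)) ∈
      (CS.top (Sph 2)).Z (ZMod 2) ((0 : ℕ) : ℤ) := by
    refine ⟨C_single _ hv0 trivial _, ?_⟩
    show bd ((0 : ℕ) : ℤ) (Finsupp.single v0 (1 : ZMod 2)) ∈
      (CS.top (Sph 2)).Q (ZMod 2) (((0 : ℕ) : ℤ) - 1)
    rw [bd_of_nonpos (by simp)]
    exact Submodule.zero_mem _
  obtain ⟨y0, hy0_def⟩ : ∃ y0 : C(Cb, F) → ZMod 2, y0 = fun σ =>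
    Finsupp.linearCombination (ZMod 2) om (cr 5 (Finsupp.single σ 1) (Finsupp.single v0 1)) :=
      ⟨_, rfl⟩
  have hy0 : (CS.top F).Coc 5 y0 := by
    refine coc_of_bd _ fun y hy => ?_
    rw [hy0_def, lc_left]
    exact val_left (m := 5) (l := 0) rfl hom hy hv0Z
  have hy0v : ∀ x : Ch (ZMod 2) F, Finsupp.linearCombination (ZMod 2) y0 x =
      Finsupp.linearCombination (ZMod 2) om (cr 5 x (Finsupp.single v0 1)) := by
    intro x
    rw [hy0_def, lc_left]
  have hA : (CS.top (F × Sph 2)).Coc 5 (pb ContinuousMap.fst y0) := (maps_top _).coc hy0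
  have hB : (CS.top (F × Sph 2)).Coc 5 (xp 3 2 a b) := xp_coc ha hb
  have hAB := coc_add hA hB
  have he := coc_sub hom hAB
  have biA : Bi (ZMod 2) 5 0 y0 (fun _ : C(Cb, Sph 2) => 1) (pb ContinuousMap.fst y0) :=
    bi_fst hy0.1
  have biB := xp_bi ha.1 hb.1
  -- the Künneth decomposition
  have hcob : (CS.top (F × Sph 2)).Cob 4 (fun σ => om σ - (pb ContinuousMap.fst y0 σ +
      xp 3 2 a b σ)) := by
    refine uct_field _ he fun w hw => ?_
    refine kun he ?_ hw
    intro m l hml x hx y hy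
    have hlc : ∀ y : Ch (ZMod 2) (Sph 2), Finsupp.linearCombination (ZMod 2)
        (fun σ => om σ - (pb ContinuousMap.fst y0 σ + xp 3 2 a b σ)) (cr m x y) =
        Finsupp.linearCombination (ZMod 2) om (cr m x y) -
          (Finsupp.linearCombination (ZMod 2) (pb ContinuousMap.fst y0) (cr m x y) +
            Finsupp.linearCombination (ZMod 2) (xp 3 2 a b) (cr m x y)) := by
      intro y
      rw [lc_sub om, lc_add]
    rcases Nat.lt_or_ge 2 l with hl | hl
    · refine val_right hml he hx ?_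
      rw [TCH.top_Bd]
      rw [TCH.top_Z] at hy
      exact TCH.sph_vanish (ZMod 2) (n := 2) (by omega) (by omega) hy
    interval_cases l
    · obtain rfl : m = 5 := by omega
      obtain ⟨r, hr⟩ := zero_cycle hv0 hy
      have h2 := val_right (m := 5) (l := 0) hml he hx hr
      rw [map_sub, map_sub, map_smul, map_smul, sub_eq_zero] at h2
      rw [h2, hlc, ← hy0v, bi_eval biA (m := 5) (l := 0) rfl (C_le _ _ hx.1) (C_le _ _ hv0Z.1),
        bi_eval biB (m := 5) (l := 0) rfl (C_le _ _ hx.1) (C_le _ _ hv0Z.1), if_pos rfl,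
        if_neg (by norm_num), Finsupp.linearCombination_single, one_smul, mul_one, add_zero,
        sub_self, smul_zero]
    · obtain rfl : m = 4 := by omega
      exact val_left (m := 4) (l := 1) hml he (h4 x hx) hy
    · obtain rfl : m = 3 := by omega
      obtain ⟨r, hr⟩ := hzg y hy
      have h2 := val_right (m := 3) (l := 2) hml he hx hr
      rw [map_sub, map_sub, map_smul, map_smul, sub_eq_zero] at h2
      rw [h2, hlc, hval, bi_eval biA (m := 3) (l := 2) rfl (C_le _ _ hx.1) (C_le _ _ hz.1),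
        bi_eval biB (m := 3) (l := 2) rfl (C_le _ _ hx.1) (C_le _ _ hz.1), if_pos rfl,
        if_neg (by norm_num), hbz, mul_one, zero_add, sub_self, smul_zero]
  -- the square
  refine uct_field _ (k := 4) (sq2_coc (CS.top F) (by norm_num) ha) fun x hx => ?_
  have hw : cr 5 x z ∈ (CS.top (F × Sph 2)).Z (ZMod 2) ((5 + 1 + 1 : ℕ) : ℤ) := by
    have h1 := cr_Z (CS.top F) (CS.top (Sph 2)) (n := 5) hx hz
    rwa [prod_top] at h1
  have k0 := hsq (cr 5 x z) hw
  have k1 := cob_cyc (R := ZMod 2) _ (sq2_add (CS.top (F × Sph 2)) (show 2 ≤ 5 by norm_num)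
    hAB he) hw
  have k2 := cob_cyc (R := ZMod 2) _ (sq2_add (CS.top (F × Sph 2)) (show 2 ≤ 5 by norm_num)
    hA hB) hw
  have k3 := cob_cyc (R := ZMod 2) _ (sq2_cob (CS.top (F × Sph 2)) (show 2 ≤ 4 by norm_num)
    hcob) hw
  have e1 : (fun τ => (pb ContinuousMap.fst y0 τ + xp 3 2 a b τ) +
      (om τ - (pb ContinuousMap.fst y0 τ + xp 3 2 a b τ))) = om := by
    funext τ
    ring
  rw [e1, lc_sub, lc_sub] at k1
  rw [lc_sub, lc_sub] at k2
  have k4 : Finsupp.linearCombination (ZMod 2) (sq2 5 (pb ContinuousMap.fst y0)) (cr 5 x z) =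
      0 := by
    have h1 : sq2 5 (pb (ContinuousMap.fst : C(F × Sph 2, F)) y0) =
        pb ContinuousMap.fst (sq2 5 y0) := rfl
    have h2 : Bi (ZMod 2) 7 0 (sq2 5 y0) (fun _ : C(Cb, Sph 2) => 1)
        (pb ContinuousMap.fst (sq2 5 y0)) :=
      bi_fst (sq2_coc (CS.top F) (show 2 ≤ 5 by norm_num) hy0).1
    rw [h1, bi_eval h2 (m := 5) (l := 2) rfl (C_le _ _ hx.1) (C_le _ _ hz.1),
      if_neg (by norm_num)]
  have c1 := sq2_cartan (show 2 ≤ 3 by norm_num) (show 2 ≤ 2 by norm_num) ha.1 hb.1 biB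
  have k5 := eval_cross (m := 5) (l := 2) (v := sq2 (3 + 2) (xp 3 2 a b)) (α := sq2 3 a)
    (β := b) (fun τ σ hτ hσ => by
      rw [c1 5 2 τ σ (by norm_num) hτ hσ]
      beta_reduce
      rw [if_pos (by norm_num)]) hx.1 hz.1
  rw [hbz, mul_one] at k5
  rw [← k5]
  rw [k4, sub_zero] at k2
  rw [k0, k3, sub_zero, zero_sub] at k1
  have k6 : Finsupp.linearCombination (ZMod 2)
      (sq2 5 (fun τ => pb ContinuousMap.fst y0 τ + xp 3 2 a b τ)) (cr 5 x z) = 0 :=
    neg_eq_zero.1 k1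
  rw [k6, zero_sub] at k2
  exact neg_eq_zero.1 k2

open WU7 in
theorem exists_pdc (hE : ENR F) (hF : LocEuc 5 F) {ξ : Ch (ZMod 2) F}
    (hξ : ξ ∈ (CS.top F).Z (ZMod 2) 5)
    {μ : C(Cb, F × F) → ZMod 2} (hμ : (offD F).Coc 5 μ)
    (h1 : ∀ v : C(Cb, F), IsCube 0 v →
      Finsupp.linearCombination (ZMod 2) μ (cr 0 (Finsupp.single v 1) ξ) = 1)
    {u : C(Cb, F) → ZMod 2} (hu : (CS.top F).Coc 3 u) :
    ∃ c ∈ (CS.top F).Z (ZMod 2) 2, (CS.top F).Cob 2 (fun σ => u σ - pdc μ 3 c σ) := by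
  let _ : MulAction Unit F :=
    { smul := fun _ x => x, one_smul := fun _ => rfl, mul_smul := fun _ _ _ => rfl }
  let C : RCov Unit F (Set.univ : Set F) :=
    { p := ContinuousMap.id F
      range := Set.range_id
      cov := fun x _ => IsEvenlyCovered.to_isEvenlyCovered_preimage (I := Unit)
        ⟨inferInstance, Set.univ, Set.mem_univ _, isOpen_univ, isOpen_univ,
          (Homeomorph.prodPUnit _).symm, fun _ => rfl⟩
      cont := fun _ => continuous_id
      p_smul := fun _ _ => rfl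
      free := fun _ _ _ => rfl
      trans := fun e e' h => ⟨1, h⟩ }
  obtain ⟨Fi, hp, -, -⟩ := exists_fine hE hF isOpen_univ C {Set.univ} (by simp) (by simp)
  have hp' : Fi.p = ContinuousMap.id F := hp
  have hcov : ⋃₀ Fi.𝒱 = Set.univ := by
    rw [Set.eq_univ_iff_forall]
    intro x
    obtain ⟨V, hV, hx⟩ := Fi.covV x
    rw [hp'] at hx
    exact ⟨V, hV, hx⟩
  have hSm : ∀ s : C(Cb, F), Fi.Sm s ↔ (CS.mk' Fi.𝒱 ∅).ok s := by
    intro s
    unfold FineCov.Sm
    rw [hp']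
    rfl
  obtain ⟨ξ', hξ', hbd⟩ := small_cycle Fi.openV hcov hξ
  have hζ := capL_mem_Z (CS.mk' Fi.𝒱 ∅) (fun σ ⟨V, hV, _⟩ => hV) (i := 1) hu hξ'
  obtain ⟨c, hc_def⟩ : ∃ c, c = WU7.capL (1 + 1) 3 u ξ' := ⟨_, rfl⟩
  have hζtop : c ∈ (CS.top F).Z (ZMod 2) ((1 + 1 : ℕ) : ℤ) := by
    rw [hc_def]
    have h3 : WU7.capL (1 + 1) 3 u ξ' ∈ (CS.mk' Fi.𝒱 ∅).C (ZMod 2) ((1 + 1 : ℕ) : ℤ) := hζ.1
    have h4 : bd ((1 + 1 : ℕ) : ℤ) (WU7.capL (1 + 1) 3 u ξ') ∈
      (CS.mk' Fi.𝒱 ∅).Q (ZMod 2) (((1 + 1 : ℕ) : ℤ) - 1) := hζ.2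
    rw [CS.C, Finsupp.mem_supported] at h3
    rw [CS.Q, Finsupp.mem_supported] at h4
    refine ⟨?_, ?_⟩
    · rw [SetLike.mem_coe, CS.C, Finsupp.mem_supported]
      exact fun σ hσ => ⟨(h3 hσ).1, trivial⟩
    · show bd ((1 + 1 : ℕ) : ℤ) (WU7.capL (1 + 1) 3 u ξ') ∈
        (CS.top F).Q (ZMod 2) (((1 + 1 : ℕ) : ℤ) - 1)
      rw [CS.Q, Finsupp.mem_supported]
      refine fun σ hσ => ⟨(h4 hσ).1, trivial, Or.inr ?_⟩
      rcases (h4 hσ).2.2 with ⟨V, hV, _⟩ | h
      · exact absurd hV (Set.notMem_empty _)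
      · exact h
  have hcC : ∀ τ ∈ c.support, IsCube ((1 + 1 : ℕ) : ℤ) τ := by
    have h3 := hζtop.1
    intro τ hτ
    exact ((Finsupp.mem_supported _ _).1 h3 hτ).1
  have hξC := (Finsupp.mem_supported (ZMod 2) ξ').mp hξ'.1
  obtain ⟨ρ, hρ⟩ : ∃ ρ : Representation (ZMod 2) Unit (ZMod 2),
    ρ = Representation.trivial (ZMod 2) Unit (ZMod 2) := ⟨_, rfl⟩
  obtain ⟨ε, hε, η, -, hηd, hη⟩ := Fi.duality ρ hμ (j := 2) hu
    (by
      intro g σ
      rw [hρ, Representation.trivial_apply]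
      congr 1)
    (ξ := ξ')
    (by
      rw [CubeHom.C, Finsupp.mem_supported]
      exact fun σ hσ => ⟨(hξC hσ).1, fun _ => Set.mem_univ _⟩)
    (fun t ht => (hξC ht).2) (M := Set.univ)
    (by
      intro v hv _
      have h2 := mu_bd (d := 5) hμ hbd hv
      rw [map_sub, map_sub, h1 v hv, sub_eq_zero] at h2
      exact h2.symm)
    (by
      intro t ht
      left
      have h2 := (Finsupp.mem_supported (ZMod 2) _).mp
        (show bd (5 : ℤ) ξ' ∈ (CS.mk' Fi.𝒱 ∅).Q (ZMod 2) ((5 : ℤ) - 1) from hξ'.2)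
      rcases (h2 ht).2.2 with ⟨V, hV, _⟩ | h
      · exact absurd hV (Set.notMem_empty _)
      · exact h)
    (fun t => t) (fun t _ => by rw [hp']; rfl)
  have hε1 : ε = 1 := by
    rcases hε with h | h
    · exact h
    · rw [h]; decide
  -- the values of the pairing
  have hSS : ∀ s τ : C(Cb, F), IsCube ((2 + 1 : ℕ) : ℤ) s → IsCube ((1 + 1 : ℕ) : ℤ) τ →
      Fi.SS μ ρ (2 + 1) 1 τ s = μ (crossCube 3 s τ) := by
    intro s τ hs hτ
    have e1 : crossCube (2 + 1) (Fi.p.comp s) (Fi.p.comp τ) = crossCube 3 s τ := by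
      rw [hp']
      rfl
    unfold FineCov.SS
    by_cases h : ∃ g : Unit, ∃ u v, s u = g • τ v
    · rw [dif_pos h, e1, hρ, Representation.trivial_apply, smul_eq_mul, mul_one]
    · rw [dif_neg h]
      symm
      have h2 := isCube_cross hs hτ
      refine hμ.1 _ (by exact_mod_cast h2) ⟨Set.univ, rfl, fun _ => Set.mem_univ _⟩
        (Or.inl ⟨_, rfl, fun w hw => h ⟨1, w, drop 3 w, ?_⟩⟩)
      exact hw
  have hclaim : ∀ s : C(Cb, F), IsCube ((2 + 1 : ℕ) : ℤ) s → ∑ t ∈ ξ'.support, ξ' t •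
      Fi.capS μ ρ 5 (2 + 1) u t s = pdc μ 3 c s := by
    intro s hs
    have h2 : ∑ t ∈ ξ'.support, ξ' t • Fi.capS μ ρ 5 (2 + 1) u t s =
        Finsupp.linearCombination (ZMod 2) (fun τ => Fi.SS μ ρ (2 + 1) 1 τ s) c := by
      rw [hc_def, WU7.capL, Finsupp.linearCombination_apply (ZMod 2) ξ', Finsupp.sum, map_sum]
      refine Finset.sum_congr rfl fun t _ => ?_
      rw [map_smul, WU7.capT, map_sum, FineCov.capS]
      congr 1
      refine Finset.sum_congr rfl fun H _ => ?_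
      rw [map_zsmul, Finsupp.linearCombination_single, ← FineCov.SS_smul_left, smul_eq_mul,
        mul_one]
    rw [h2]
    have h3 : pdc μ 3 c s = Finsupp.linearCombination (ZMod 2)
        (fun τ => μ (crossCube 3 s τ)) c := by
      unfold pdc
      have h4 : (Finsupp.linearCombination (ZMod 2) μ).comp (cr 3 (Finsupp.single s 1)) =
          Finsupp.linearCombination (ZMod 2) (fun τ => μ (crossCube 3 s τ)) := by
        ext τ
        simp
      exact LinearMap.congr_fun h4 c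
    rw [h3]
    refine lc_congr (s := {τ : C(Cb, F) | IsCube ((1 + 1 : ℕ) : ℤ) τ}) ?_
      fun τ hτ => hSS s τ hs hτ
    rw [Finsupp.mem_supported]
    exact fun τ hτ => hcC τ hτ
  refine ⟨c, hζtop, ?_⟩
  have hcob : (CS.mk' Fi.𝒱 ∅).Cob 2 (fun σ => u σ - pdc μ 3 c σ) := by
    refine ⟨η, ?_, ?_⟩
    · intro σ h2 h3 h4
      refine hηd σ h2 ?_
      rcases h4 with ⟨V, hV, _⟩ | h
      · exact absurd hV (Set.notMem_empty _)
      · exact h
    · intro σ h2 h3
      have h5 := hη σ h2 ((hSm σ).2 h3) (fun _ => Set.mem_univ _)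
      rw [hclaim σ h2, hε1, one_smul] at h5
      show u σ - pdc μ 3 c σ = dl 2 η σ
      rw [h5, add_sub_cancel_left]
  have hcoc : (CS.top F).Coc (2 + 1) (fun σ => u σ - pdc μ 3 c σ) :=
    coc_sub hu (pdc_coc hμ hζtop)
  refine uct_field (CS.top F) hcoc fun w hw => ?_
  obtain ⟨w', hw', hww⟩ := small_cycle Fi.openV hcov hw
  have h2 := coc_bd (CS.top F) hcoc hww
  rw [map_sub, cob_cyc _ hcob hw', sub_zero] at h2
  exact h2

end thom

end Pool.Agent.TC
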