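import Pool.Agent.Lib.TC.WuD
import Pool.Agent.Lib.MP_cb6a70_gt_HB.Hurewicz

/-!
# Spherical classes in degree two
-/

namespace Pool.Agent.TC

open CubeHom
open scoped Manifold ContDiff

namespace WU8Aux

variable {X : Type} [TopologicalSpace X] {R : Type} [CommRing R]

theorem zc_mem_Q {k i : ℕ} (hi : i < k) {c : Ch R X} (hc : c ∈ CubeHom.C R (k : ℤ) Set.univ) :
    zc i c ∈ (CS.top X).Q R (k : ℤ) := by
  refine map_mem_of_supported (zc i) _ (fun σ hσ => ?_) hc
  rw [zc_single]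
  refine single_mem_supported (S := {σ | IsCube (k : ℤ) σ ∧ (CS.top X).ok σ ∧
    ((CS.top X).nul σ ∨ Degen (k : ℤ) σ)}) ⟨isCube_zr hσ.1 i, trivial, Or.inr
      ⟨i, by exact_mod_cast hi, fun x y hxy => ?_⟩⟩ 1
  show σ (zr i x) = σ (zr i y)
  congr 1
  funext l
  by_cases hl : l = i
  · subst hl
    rw [zr_self, zr_self]
  · rw [zr_ne hl, zr_ne hl]
    exact hxy l hl

theorem Nr_sub_mem {k : ℕ} (n : ℕ) (hn : n ≤ k) : ∀ {c : Ch R X},
    c ∈ CubeHom.C R (k : ℤ) Set.univ → Nr n c - c ∈ (CS.top X).Q R (k : ℤ) := by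
  induction n with
  | zero =>
    intro c _
    rw [Nr_zero, sub_self]
    exact Submodule.zero_mem _
  | succ n ih =>
    intro c hc
    have h1 := ih (by omega) (Submodule.sub_mem _ hc (zc_mem_C n hc))
    have h2 := zc_mem_Q (R := R) (show n < k by omega) hc
    have e : Nr (n + 1) c - c = (Nr n (c - zc n c) - (c - zc n c)) - zc n c := by
      rw [Nr_succ]
      abel
    rw [e]
    exact Submodule.sub_mem _ h1 h2

/-- The deformation operators. -/
noncomputable def DDc (R : Type) [CommRing R] (x0 : X) (m : ℕ) : Ch R X →ₗ[R] Ch R X :=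
  Finsupp.lmapDomain R R (DD x0 2 m)

/-- The top. -/
noncomputable def topc (R : Type) [CommRing R] (x0 : X) : Ch R X →ₗ[R] Ch R X :=
  Finsupp.lmapDomain R R (top x0 2 2)

theorem bd_DDc (hF : ∀ m < 2, Fills X (m + 1)) (x0 : X) {c : Ch R X}
    (hc : c ∈ CubeHom.C R ((2 : ℕ) : ℤ) Set.univ) :
    bd 3 (DDc R x0 2 c) = topc R x0 c - c - DDc R x0 1 (bd 2 c) := by
  have h := map_eq_of_supported (R := R) ((bd 3).comp (DDc R x0 2))
    (topc R x0 - LinearMap.id - (DDc R x0 1).comp (bd 2)) (fun σ hσ => ?_) hc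
  · exact h
  have hst := DD_succ (x0 := x0) hF 1 σ hσ.1
  have h0 : ∀ (m : ℕ) (τ : C(Cb, X)), DDc R x0 m (Finsupp.single τ 1) =
      Finsupp.single (DD x0 2 m τ) 1 := fun m τ => by
    unfold DDc
    rw [Finsupp.lmapDomain_apply, Finsupp.mapDomain_single]
  have h1 : topc R x0 (Finsupp.single σ 1) = Finsupp.single (top x0 2 2 σ) 1 := by
    unfold topc
    rw [Finsupp.lmapDomain_apply, Finsupp.mapDomain_single]
  have e1 : (1 : I) = pt true := rfl
  have e0 : (0 : I) = pt false := rfl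
  rw [LinearMap.comp_apply, LinearMap.sub_apply, LinearMap.sub_apply, LinearMap.comp_apply,
    LinearMap.id_apply, h0, h1, bd_apply, bd_apply]
  rw [show (3 : ℤ).toNat = 3 from rfl, show (2 : ℤ).toNat = 2 from rfl]
  simp only [Finset.sum_range_succ, Finset.sum_range_zero, zero_add, pow_zero, one_smul, pow_one,
    map_add, map_smul, map_sub, face_single, h0, e1, e0]
  have t0 : (DD x0 2 2 σ).comp (ins 0 (pt false)) = σ := hst.2.1
  have t1 : (DD x0 2 2 σ).comp (ins 0 (pt true)) = top x0 2 2 σ := rfl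
  have t2 : ∀ e, (DD x0 2 2 σ).comp (ins 1 (pt e)) = DD x0 2 1 (σ.comp (ins 0 (pt e))) :=
    fun e => hst.2.2.1 0 (by omega) e
  have t3 : ∀ e, (DD x0 2 2 σ).comp (ins 2 (pt e)) = DD x0 2 1 (σ.comp (ins 1 (pt e))) :=
    fun e => hst.2.2.1 1 (by omega) e
  rw [t0, t1, t2, t2, t3, t3]
  module

theorem isCube_top (hF : ∀ m < 2, Fills X (m + 1)) (x0 : X) {σ : C(Cb, X)}
    (hσ : IsCube ((2 : ℕ) : ℤ) σ) : IsCube ((2 : ℕ) : ℤ) (top x0 2 2 σ) := by
  have hst := DD_succ (x0 := x0) hF 1 σ hσ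
  have h1 : IsCube ((2 + 1 : ℕ) : ℤ) (DD x0 2 2 σ) := by
    have := hst.1
    exact_mod_cast this
  exact isCube_face h1 (by omega) _

end WU8Aux

open WU8Aux in
/-- Hurewicz, surjectivity in degree two, with any coefficients. -/
theorem spherical {F : Type} [TopologicalSpace F] [SimplyConnectedSpace F] {R : Type}
    [CommRing R] (x0 : F) {c : Ch R F} (hc : c ∈ (CS.top F).Z R 2) :
    ∃ (r : ℕ) (a : Fin r → R) (f : Fin r → C(Fin 2 → I, F)), (∀ i, ∀ v ∈ bd2, f i v = x0) ∧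
      (CS.top F).Bd R 2 (c - ∑ i, a i • push (f i) (Finsupp.single (idCube 2) 1)) := by
  have hF : ∀ m < 2, Fills F (m + 1) := by
    intro m hm
    interval_cases m
    · exact fills_one
    · exact fills_two
  have hc1 : c ∈ CubeHom.C R ((2 : ℕ) : ℤ) Set.univ :=
    Finsupp.supported_mono (s := {σ | IsCube (2 : ℤ) σ ∧ (CS.top F).ok σ})
      (fun σ h => And.intro h.1 fun _ => Set.mem_univ _) hc.1
  have hc2 : bd 2 c ∈ CubeHom.Q R ((1 : ℕ) : ℤ) ∅ := by
    have h : bd 2 c ∈ (CS.top F).Q R (2 - 1) := hc.2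
    exact Finsupp.supported_mono (s := {σ | IsCube (2 - 1 : ℤ) σ ∧ (CS.top F).ok σ ∧
      ((CS.top F).nul σ ∨ Degen (2 - 1 : ℤ) σ)})
      (fun σ h => And.intro h.1 (Or.inr (h.2.2.resolve_left id))) h
  set c' := Nr 2 c with hc'
  have hb : bd 2 c' = 0 := by
    have h := bd_Nr (R := R) 1 c
    rw [show ((1 : ℕ) : ℤ) + 1 = 2 by norm_num] at h
    rw [hc', h]
    exact Nr_Q 1 hc2
  have hc'1 : c' ∈ CubeHom.C R ((2 : ℕ) : ℤ) Set.univ := Nr_mem_C 2 hc1
  have hdiff : c' - c ∈ (CS.top F).Q R ((2 : ℕ) : ℤ) := Nr_sub_mem 2 le_rfl hc1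
  have hbd := bd_DDc (R := R) hF x0 hc'1
  rw [hb, map_zero, sub_zero] at hbd
  -- the cubes
  let e := c'.support.equivFin
  let f0 : C(Cb, F) → C(Fin 2 → I, F) := fun σ => (top x0 2 2 σ).comp (exC 2)
  have hsup : ∀ σ ∈ c'.support, IsCube ((2 : ℕ) : ℤ) σ := fun σ hσ =>
    (Finsupp.mem_supported R c' |>.1 hc'1 hσ).1
  have hpush : ∀ σ, IsCube ((2 : ℕ) : ℤ) σ → (f0 σ).comp (idCube 2) = top x0 2 2 σ := by
    intro σ hσ
    have h1 := isCube_top hF x0 hσ
    ext u
    refine h1.2 fun j hj => ?_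
    have hj' : j < 2 := by exact_mod_cast hj
    show exC 2 (idCube 2 u) j = u j
    have := exC_apply (idCube 2 u) ⟨j, hj'⟩
    exact this
  refine ⟨c'.support.card, fun i => c' (e.symm i : C(Cb, F)), fun i => f0 (e.symm i : C(Cb, F)),
    ?_, ?_⟩
  · rintro i v ⟨l, hl⟩
    exact top_bdry (j := 1) hF (hsup _ (e.symm i).2) hl
  · have hsum : ∑ i : Fin c'.support.card, c' (e.symm i : C(Cb, F)) •
        push (f0 (e.symm i : C(Cb, F))) (Finsupp.single (idCube 2) (1 : R)) = topc R x0 c' := by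
      rw [Equiv.sum_comp e.symm (fun x : c'.support => c' (x : C(Cb, F)) •
        push (f0 (x : C(Cb, F))) (Finsupp.single (idCube 2) (1 : R)))]
      rw [Finset.sum_coe_sort c'.support (fun x => c' x •
        push (f0 x) (Finsupp.single (idCube 2) (1 : R)))]
      have h1 : topc R x0 c' = ∑ x ∈ c'.support, c' x • Finsupp.single (top x0 2 2 x) (1 : R) := by
        conv_lhs => rw [← Finsupp.sum_single c']
        unfold topc
        rw [Finsupp.sum, map_sum]
        refine Finset.sum_congr rfl fun x _ => ?_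
        rw [Finsupp.lmapDomain_apply, Finsupp.mapDomain_single, Finsupp.smul_single, smul_eq_mul,
          mul_one]
      rw [h1]
      refine Finset.sum_congr rfl fun x hx => ?_
      rw [push_single, hpush x (hsup x hx)]
    rw [hsum]
    refine ⟨- DDc R x0 2 c', ?_, ?_⟩
    · refine Submodule.neg_mem _ ?_
      refine map_mem_of_supported (DDc R x0 2) _ (fun σ hσ => ?_) hc'1
      unfold DDc
      rw [Finsupp.lmapDomain_apply, Finsupp.mapDomain_single]
      have hst := DD_succ (x0 := x0) hF 1 σ hσ.1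
      refine single_mem_supported (S := {σ | IsCube ((2 : ℤ) + 1) σ ∧ (CS.top F).ok σ})
        ⟨?_, trivial⟩ 1
      have := hst.1
      exact_mod_cast this
    · rw [map_neg, sub_neg_eq_add, show (2 : ℤ) + 1 = 3 by norm_num, hbd]
      have e1 : c - topc R x0 c' + (topc R x0 c' - c') = - (c' - c) := by abel
      rw [e1]
      exact Submodule.neg_mem _ hdiff

end Pool.Agent.TC
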