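import Pool.Agent.Lib.TC.Wu4
import Pool.Agent.Lib.TC.Wu5
import Pool.Agent.Lib.TC.Wu6
import Pool.Agent.Lib.TC.Wu7
import Pool.Agent.Lib.TC.Wu8

/-!
# Section 10.5: the vanishing of `Sq^2` in dimension five, and the main theorem
-/

namespace Pool.Agent.TC

open CubeHom
open scoped Manifold ContDiff

section wu9

variable {X : Type} [TopologicalSpace X]

private theorem wu9_cob_add {k : ℕ} {S : CS X} {u v : C(Cb, X) → ZMod 2} (hu : S.Cob k u)
    (hv : S.Cob k v) : S.Cob k (fun σ => u σ + v σ) := by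
  obtain ⟨a, ha, hua⟩ := hu
  obtain ⟨b, hb, hvb⟩ := hv
  refine ⟨fun σ => a σ + b σ, fun σ h1 h2 h3 => ?_, fun σ h1 h2 => ?_⟩
  · change a σ + b σ = 0
    rw [ha σ h1 h2 h3, hb σ h1 h2 h3, add_zero]
  · change u σ + v σ = _
    rw [hua σ h1 h2, hvb σ h1 h2]
    unfold dl
    rw [← Finset.sum_add_distrib]
    refine Finset.sum_congr rfl fun i _ => ?_
    rw [← smul_add, add_sub_add_comm]

private theorem wu9_coc_add {k : ℕ} {S : CS X} {u v : C(Cb, X) → ZMod 2} (hu : S.Coc k u)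
    (hv : S.Coc k v) : S.Coc k (fun σ => u σ + v σ) := by
  refine ⟨fun σ h1 h2 h3 => ?_, fun σ h1 h2 => ?_⟩
  · change u σ + v σ = 0
    rw [hu.1 σ h1 h2 h3, hv.1 σ h1 h2 h3, add_zero]
  have h3 : dl k (fun σ => u σ + v σ) σ = dl k u σ + dl k v σ := by
    unfold dl
    rw [← Finset.sum_add_distrib]
    refine Finset.sum_congr rfl fun i _ => ?_
    rw [← smul_add, add_sub_add_comm]
  rw [h3, hu.2 σ h1 h2, hv.2 σ h1 h2, add_zero]

/-- Cocycles of degree three with vanishing `Sq^2`. -/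
private def wu9G (v : C(Cb, X) → ZMod 2) : Prop :=
  (CS.top X).Coc 3 v ∧ (CS.top X).Cob 4 (sq2 3 v)

private theorem wu9G.add {u v : C(Cb, X) → ZMod 2} (hu : wu9G u) (hv : wu9G v) :
    wu9G (fun σ => u σ + v σ) := by
  refine ⟨wu9_coc_add hu.1 hv.1, ?_⟩
  have h := wu9_cob_add (wu9_cob_add (sq2_add (CS.top X) (j := 3) (by norm_num) hu.1 hv.1) hu.2)
    hv.2
  have e : (fun σ => (sq2 3 (fun τ => u τ + v τ) σ - sq2 3 u σ - sq2 3 v σ) + sq2 3 u σ +
      sq2 3 v σ) = sq2 3 (fun τ => u τ + v τ) := by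
    funext σ
    abel
  rw [← e]
  exact h

private theorem wu9G.of_cob {v : C(Cb, X) → ZMod 2} (hv : (CS.top X).Coc 3 v)
    (h : (CS.top X).Cob 2 v) : wu9G v :=
  ⟨hv, sq2_cob (CS.top X) (j := 2) le_rfl h⟩

private theorem wu9_pdc_add (μ : C(Cb, X × X) → ZMod 2) (c c' : Ch (ZMod 2) X) :
    pdc μ 3 (c + c') = fun σ => pdc μ 3 c σ + pdc μ 3 c' σ := by
  funext σ
  unfold pdc
  rw [map_add, map_add]

private theorem wu9_pdc_zero (μ : C(Cb, X × X) → ZMod 2) :
    pdc μ 3 (0 : Ch (ZMod 2) X) = fun _ => 0 := by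
  funext σ
  unfold pdc
  rw [map_zero, map_zero]

end wu9

private theorem wu9_core {F : Type} [TopologicalSpace F] [T2Space F] [CompactSpace F]
    [PathConnectedSpace F] [SimplyConnectedSpace F] (E : ENR F) (hF : LocEuc 5 F)
    {ξ : Ch (ZMod 2) F} (hξ : ξ ∈ (CS.top F).Z (ZMod 2) 5) (hg : LocGen 5 ξ)
    (h4 : (CS.top F).Hz (ZMod 2) 4) {n m : ℕ} {ι : F → EuclideanSpace ℝ (Fin (n + 1))}
    {P : C(F, Matrix (Fin (n + 1)) (Fin (n + 1)) ℂ)} (hn : 5 + 2 * m = n) (D : NDat F ι m P)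
    {K : ℤ} (hK : K ≠ 0) (hH : ∀ c ∈ (CS.top F).Z ℤ 2, (CS.top F).Bd ℤ 2 (K • c)) :
    SqZ (CS.top F) 3 := by
  have hξ' : ξ ∈ CubeHom.Z (ZMod 2) ((5 : ℕ) : ℤ) Set.univ ∅ := by
    rw [TCH.top_Z] at hξ
    exact_mod_cast hξ
  obtain ⟨μ, hμ, h1⟩ := TCH.exists_mu_coc hF hξ' hg
  have hgen : ∀ c ∈ (CS.top F).Z (ZMod 2) 5, ∃ r : ZMod 2,
      (CS.top F).Bd (ZMod 2) 5 (c - r • ξ) := by
    intro c hc
    rw [TCH.top_Z] at hc
    have hc' : c ∈ CubeHom.Z (ZMod 2) ((5 : ℕ) : ℤ) Set.univ ∅ := by exact_mod_cast hc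
    obtain ⟨r, hr⟩ := TCH.fund_gen hF hξ' hg hc'
    refine ⟨r, ?_⟩
    rw [TCH.top_Bd]
    exact_mod_cast hr
  -- the two-sphere
  obtain ⟨z, hz⟩ := exists_fcyc (n := 2) (by norm_num)
  obtain ⟨α, y0, hα, hfac, hdeg⟩ := exists_collapse2
  set z2 : Ch (ZMod 2) (Sph 2) := TCH.chMap (Int.castRingHom (ZMod 2)) z with hz2
  have hpc2 : PathConnectedSpace (Sph 2) := sphere_connected (by norm_num)
  have hz2Z : z2 ∈ CubeHom.Z (ZMod 2) ((2 : ℕ) : ℤ) Set.univ ∅ := TCH.chMap_mem_Z _ hz.mem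
  have hz2g : LocGen 2 z2 := TCH.LocGen.chMap _ locEuc_sphere hz.mem hz.loc
  have hz2' : z2 ∈ (CS.top (Sph 2)).Z (ZMod 2) 2 := by
    rw [TCH.top_Z]
    exact_mod_cast hz2Z
  have hzg : ∀ c ∈ (CS.top (Sph 2)).Z (ZMod 2) 2, ∃ r : ZMod 2,
      (CS.top (Sph 2)).Bd (ZMod 2) 2 (c - r • z2) := by
    intro c hc
    rw [TCH.top_Z] at hc
    have hc' : c ∈ CubeHom.Z (ZMod 2) ((2 : ℕ) : ℤ) Set.univ ∅ := by exact_mod_cast hc
    obtain ⟨r, hr⟩ := TCH.fund_gen (X := Sph 2) locEuc_sphere hz2Z hz2g hc'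
    refine ⟨r, ?_⟩
    rw [TCH.top_Bd]
    exact_mod_cast hr
  have hz0 : ¬ (CS.top (Sph 2)).Bd (ZMod 2) 2 z2 := by
    intro h
    rw [TCH.top_Bd] at h
    have h' : CubeHom.Bd (ZMod 2) ((2 : ℕ) : ℤ) Set.univ ({y0}ᶜ : Set (Sph 2))
        ((1 : ZMod 2) • z2) := by
      rw [one_smul]
      have h'' : CubeHom.Bd (ZMod 2) ((2 : ℕ) : ℤ) Set.univ (∅ : Set (Sph 2)) z2 := by
        exact_mod_cast h
      exact h''.mono subset_rfl (Set.empty_subset _)
    have h3 := TCH.fund_free (X := Sph 2) locEuc_sphere hz2Z hz2g h'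
    exact absurd h3 (by decide)
  -- `Sq^2` of the duals of spheres
  have hsph : ∀ f : C(Sph 2, F), wu9G (pdc μ 3 (push f z2)) := by
    intro f
    have hfz : push f z2 ∈ (CS.top F).Z (ZMod 2) 2 := by
      rw [TCH.top_Z]
      have h := push_mem_Z (f := f) (Set.mapsTo_univ _ _) (Set.mapsTo_empty _ _) hz2Z
        (V := Set.univ) (A' := (∅ : Set F))
      exact_mod_cast h
    refine ⟨pdc_coc hμ hfz, ?_⟩
    obtain ⟨s, t, hst⟩ := frame_sphere P D.frame hK hH f
    refine sq2_pdc_sphere hF hξ hgen h4 hμ f hz2' hzg hz0 fun w hw => ?_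
    exact sq2_graph (d := 5) hF (by norm_num) hn D (by exact_mod_cast hξ) hg hμ h1 f s t hst
      (by exact_mod_cast hw)
  -- the collapsed square
  have hα2 : CubeHom.Bd (ZMod 2) (2 : ℤ) Set.univ ∅
      (push α (Finsupp.single (idCube 2) 1) - z2) := by
    have e1 : ∀ a : Ch (ZMod 2) (Sph 2), a + z2 = a - z2 := by
      intro a
      have h2 : z2 + z2 = 0 := by
        have h3 : (2 : ZMod 2) • z2 = 0 := by
          rw [show (2 : ZMod 2) = 0 from by decide, zero_smul]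
        rw [← h3, two_smul]
      rw [sub_eq_add_neg, ← eq_neg_of_add_eq_zero_left h2]
    have e2 : push α (Finsupp.single (idCube 2) (1 : ZMod 2)) =
        TCH.chMap (Int.castRingHom (ZMod 2)) (push α (Finsupp.single (idCube 2) 1)) := by
      rw [TCH.chMap_push, TCH.chMap_single, map_one]
    rcases hdeg z hz with h | h
    · have h' := TCH.chMap_Bd (Int.castRingHom (ZMod 2)) h
      rw [map_sub] at h'
      rw [e2]
      exact h'
    · have h' := TCH.chMap_Bd (Int.castRingHom (ZMod 2)) h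
      rw [map_add] at h'
      rw [e2, ← e1]
      exact h'
  have hαC : push α (Finsupp.single (idCube 2) (1 : ZMod 2)) ∈
      CubeHom.C (ZMod 2) (2 : ℤ) Set.univ := by
    rw [push_single]
    refine mem_C_single ?_ (fun _ => Set.mem_univ _) _
    exact_mod_cast (idCube_isCube 2).comp α
  have hz2C : z2 ∈ CubeHom.C (ZMod 2) (2 : ℤ) Set.univ := by exact_mod_cast hz2Z.1
  have hαZ : push α (Finsupp.single (idCube 2) (1 : ZMod 2)) - z2 ∈
      CubeHom.Z (ZMod 2) (2 : ℤ) Set.univ ∅ :=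
    Bd.mem_Z (Submodule.sub_mem _ hαC hz2C) hα2
  -- boundaries
  have hbdG : ∀ c ∈ CubeHom.Z (ZMod 2) (2 : ℤ) (Set.univ : Set F) ∅,
      CubeHom.Bd (ZMod 2) (2 : ℤ) Set.univ ∅ c → wu9G (pdc μ 3 c) := by
    intro c hc hb
    refine wu9G.of_cob (pdc_coc hμ ?_) (pdc_cob hμ ?_)
    · rw [TCH.top_Z]
      exact hc
    · rw [TCH.top_Bd]
      exact hb
  obtain ⟨x0⟩ : Nonempty F := inferInstance
  have hsq : ∀ f : C(Fin 2 → I, F), (∀ v ∈ bd2, f v = x0) →
      push f (Finsupp.single (idCube 2) 1) ∈ CubeHom.Z (ZMod 2) (2 : ℤ) Set.univ ∅ ∧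
        wu9G (pdc μ 3 (push f (Finsupp.single (idCube 2) 1))) := by
    intro f hf
    obtain ⟨f', rfl⟩ := hfac F f x0 hf
    have e : push (f'.comp α) (Finsupp.single (idCube 2) (1 : ZMod 2)) =
        push f' z2 + push f' (push α (Finsupp.single (idCube 2) 1) - z2) := by
      rw [map_sub, push_push]
      abel
    have hb1 : push f' (push α (Finsupp.single (idCube 2) (1 : ZMod 2)) - z2) ∈
        CubeHom.Z (ZMod 2) (2 : ℤ) Set.univ ∅ :=
      push_mem_Z (Set.mapsTo_univ _ _) (Set.mapsTo_empty _ _) hαZ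
    have hb2 : CubeHom.Bd (ZMod 2) (2 : ℤ) Set.univ ∅
        (push f' (push α (Finsupp.single (idCube 2) (1 : ZMod 2)) - z2)) :=
      hα2.push (Set.mapsTo_univ _ _) (Set.mapsTo_empty _ _)
    rw [e]
    constructor
    · refine Submodule.add_mem _ ?_ hb1
      have h := push_mem_Z (f := f') (Set.mapsTo_univ _ _) (Set.mapsTo_empty _ _) hz2Z
        (V := Set.univ) (A' := (∅ : Set F))
      exact_mod_cast h
    · rw [wu9_pdc_add]
      exact (hsph f').add (hbdG _ hb1 hb2)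
  -- all cycles of degree two
  have hall : ∀ c ∈ (CS.top F).Z (ZMod 2) 2, wu9G (pdc μ 3 c) := by
    intro c hc
    obtain ⟨r, a, f, hf, hb⟩ := spherical x0 hc
    have hsum : ∀ s : Finset (Fin r),
        (∑ i ∈ s, a i • push (f i) (Finsupp.single (idCube 2) 1)) ∈
          CubeHom.Z (ZMod 2) (2 : ℤ) (Set.univ : Set F) ∅ ∧
        wu9G (pdc μ 3 (∑ i ∈ s, a i • push (f i) (Finsupp.single (idCube 2) 1))) := by
      intro s
      classical
      induction s using Finset.induction_on with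
      | empty =>
        rw [Finset.sum_empty]
        refine ⟨Submodule.zero_mem _, hbdG _ (Submodule.zero_mem _) (CubeHom.Bd.zero _ _ _)⟩
      | insert i s hi ih =>
        rw [Finset.sum_insert hi]
        obtain ⟨h5, h6⟩ := hsq (f i) (hf i)
        have h7 : a i • push (f i) (Finsupp.single (idCube 2) 1) ∈
            CubeHom.Z (ZMod 2) (2 : ℤ) (Set.univ : Set F) ∅ ∧
            wu9G (pdc μ 3 (a i • push (f i) (Finsupp.single (idCube 2) 1))) := by
          have h8 : a i = 0 ∨ a i = 1 := by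
            have : ∀ b : ZMod 2, b = 0 ∨ b = 1 := by decide
            exact this _
          rcases h8 with h8 | h8
          · rw [h8, zero_smul]
            exact ⟨Submodule.zero_mem _, hbdG _ (Submodule.zero_mem _) (CubeHom.Bd.zero _ _ _)⟩
          · rw [h8, one_smul]
            exact ⟨h5, h6⟩
        refine ⟨Submodule.add_mem _ h7.1 ih.1, ?_⟩
        rw [wu9_pdc_add]
        exact h7.2.add ih.2
    obtain ⟨hS1, hS2⟩ := hsum Finset.univ
    rw [TCH.top_Z] at hc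
    rw [TCH.top_Bd] at hb
    have h9 := hbdG _ (Submodule.sub_mem _ hc hS1) hb
    have h10 := h9.add hS2
    rw [← wu9_pdc_add, sub_add_cancel] at h10
    exact h10
  -- the end
  intro u hu
  obtain ⟨c, hc, hcob⟩ := exists_pdc E hF hξ hμ h1 hu
  have hG := hall c hc
  have hw : (CS.top F).Coc 3 (fun σ => u σ - pdc μ 3 c σ) := by
    have h := wu9_coc_add hu hG.1
    have e : (fun σ => u σ + pdc μ 3 c σ) = fun σ => u σ - pdc μ 3 c σ := by
      funext σ
      have : ∀ a b : ZMod 2, a + b = a - b := by decide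
      exact this _ _
    rwa [e] at h
  have h := (wu9G.of_cob hw hcob).add hG
  have e : (fun σ => (u σ - pdc μ 3 c σ) + pdc μ 3 c σ) = u := by
    funext σ
    abel
  rw [e] at h
  exact h.2

/-- 10.5. -/
theorem wu_statement : WuStatement := by
  intro p hp hp2 n inst hs D hsc h4
  have t2 : T2Space (Fx (Cp p) (Sph n)) := D.t2
  have cpt : CompactSpace (Fx (Cp p) (Sph n)) := D.compact
  have pc : PathConnectedSpace (Fx (Cp p) (Sph n)) := D.pc
  obtain ⟨E⟩ := D.enr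
  obtain ⟨ξ, hξ, hg⟩ := D.cyc
  have hF : LocEuc 5 (Fx (Cp p) (Sph n)) := D.loc
  have hpp : p.Prime := hp.out
  have hne : NeZero p := ⟨hpp.ne_zero⟩
  have hfin : Finite (Cp p) := inferInstanceAs (Finite (Multiplicative (ZMod p)))
  -- the dimension
  have hn0 : n ≠ 0 := by
    rintro rfl
    exact zero_void (isPathConnected_iff_pathConnectedSpace.2 pc)
  have hcs : PathConnectedSpace (Sph n) := sphere_connected (by omega)
  have h5 : 5 ≤ n := by
    obtain ⟨d, hd, hdF, -⟩ := locEuc_fixed (gman_of_smooth hs)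
    have := dim_unique hdF hF
    omega
  obtain ⟨m, P, hm, ND⟩ := exists_ndat hp2 hs hF h5
  -- the homology in degree two is finite
  obtain ⟨K, hK, hKz⟩ := TCH.prime_to (p := p) (k := 2) (U := (Set.univ : Set (Fx (Cp p) (Sph n))))
    (A := ∅) (TCH.FGH.retract E.ι E.openW E.mem E.r E.r_ι 2) (fun c hc => by
      have h := D.hzp 2 (by norm_num) (by norm_num) c (by rw [TCH.top_Z]; exact hc)
      rw [TCH.top_Bd] at h
      exact h)
  have hK0 : K ≠ 0 := by
    rintro rfl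
    exact hK (dvd_zero _)
  refine wu9_core E hF (ξ := TCH.chMap (Int.castRingHom (ZMod 2)) ξ) ?_ ?_ h4 hm ND hK0 ?_
  · rw [TCH.top_Z]
    exact_mod_cast TCH.chMap_mem_Z (Int.castRingHom (ZMod 2)) hξ
  · exact TCH.LocGen.chMap _ hF hξ hg
  · intro c hc
    rw [TCH.top_Z] at hc
    rw [TCH.top_Bd]
    exact hKz c hc

/-- The main theorem. -/
theorem main_statement : MainStatement := main_of_wu wu_statement

end Pool.Agent.TC
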