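import Pool.Agent.Lib.TC.WuD

/-!
# Frames over cubes and paths
-/

namespace Pool.Agent.TC

open CubeHom
open scoped Manifold ContDiff

section frames

variable {N m : ℕ}

private theorem wu1_idem {P : Matrix (Fin N) (Fin N) ℂ}
    (h : ∃ (s : Matrix (Fin N) (Fin m) ℂ) (t : Matrix (Fin m) (Fin N) ℂ), IsFrame P s t) :
    P * P = P := by
  obtain ⟨s, t, hst⟩ := h
  rw [← hst.right, Matrix.mul_assoc, ← Matrix.mul_assoc t s t, hst.left, Matrix.one_mul]

/-- The intertwining matrix. -/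
private noncomputable def wu1T (P Q : Matrix (Fin N) (Fin N) ℂ) : Matrix (Fin N) (Fin N) ℂ :=
  Q * P + (1 - Q) * (1 - P)

private theorem wu1T_self {P : Matrix (Fin N) (Fin N) ℂ} (h : P * P = P) : wu1T P P = 1 := by
  unfold wu1T
  have h1 : (1 - P) * (1 - P) = 1 - P := by
    rw [sub_mul, mul_sub, one_mul, mul_sub, mul_one, h, sub_self, sub_zero, one_mul]
  rw [h1, h]
  abel

private theorem wu1T_mul {P Q : Matrix (Fin N) (Fin N) ℂ} (hP : P * P = P) (hQ : Q * Q = Q) :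
    wu1T P Q * P = Q * wu1T P Q := by
  unfold wu1T
  have h1 : (1 - P) * P = 0 := by rw [sub_mul, one_mul, hP, sub_self]
  have h2 : Q * (1 - Q) = 0 := by rw [mul_sub, mul_one, hQ, sub_self]
  rw [add_mul, mul_add, Matrix.mul_assoc, hP, Matrix.mul_assoc (1 - Q), h1, Matrix.mul_zero,
    ← Matrix.mul_assoc Q Q, hQ, ← Matrix.mul_assoc Q (1 - Q), h2, Matrix.zero_mul]

private theorem wu1_cont_inv {X : Type} [TopologicalSpace X] {A : X → Matrix (Fin N) (Fin N) ℂ}
    (hA : Continuous A) (h : ∀ x, (A x).det ≠ 0) : Continuous fun x => (A x)⁻¹ := by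
  have e : (fun x => (A x)⁻¹) = fun x => ((A x).det)⁻¹ • (A x).adjugate := by
    funext x
    rw [Matrix.inv_def, Ring.inverse_eq_inv']
  rw [e]
  exact (hA.matrix_det.inv₀ h).smul hA.matrix_adjugate

private theorem wu1_cube (k : ℕ) (P : C(Fin k → I, Matrix (Fin N) (Fin N) ℂ))
    (hP : ∀ v, P v * P v = P v) :
    ∃ G : C(Fin k → I, Matrix (Fin N) (Fin N) ℂ), (∀ v, (G v).det ≠ 0) ∧
      ∀ v, G v * P 0 = P v * G v := by
  -- closeness
  have hcont : Continuous fun q : (Fin k → I) × (Fin k → I) => (wu1T (P q.1) (P q.2)).det := by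
    unfold wu1T
    exact Continuous.matrix_det (by fun_prop)
  have huc := CompactSpace.uniformContinuous_of_continuous hcont
  rw [Metric.uniformContinuous_iff] at huc
  obtain ⟨δ, hδ, hδ1⟩ := huc 1 one_pos
  have hdet : ∀ x y : Fin k → I, dist x y < δ → (wu1T (P x) (P y)).det ≠ 0 := by
    intro x y hxy h0
    have h1 := @hδ1 (x, y) (x, x) (by
      rw [Prod.dist_eq, max_lt_iff]
      exact ⟨by rw [dist_self]; exact hδ, by rw [dist_comm]; exact hxy⟩)
    rw [wu1T_self (hP x), h0, Matrix.det_one] at h1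
    simp at h1
  obtain ⟨n, hn⟩ := exists_nat_one_div_lt hδ
  -- the points of the subdivision
  let τ : ℕ → I := fun j => Set.projIcc 0 1 zero_le_one ((j : ℝ) / (n + 1))
  let sc : I → (Fin k → I) → (Fin k → I) := fun a v i => a * v i
  have hsc : ∀ a, Continuous (sc a) := fun a =>
    continuous_pi fun i => continuous_const.mul (continuous_apply i)
  have hτ0 : τ 0 = 0 := by
    change Set.projIcc 0 1 zero_le_one (((0 : ℕ) : ℝ) / (n + 1)) = 0
    rw [Nat.cast_zero, zero_div]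
    exact Set.projIcc_of_le_left _ le_rfl
  have hτ1 : τ (n + 1) = 1 := by
    change Set.projIcc 0 1 zero_le_one (((n + 1 : ℕ) : ℝ) / (n + 1)) = 1
    have hne : ((n : ℝ) + 1) ≠ 0 := by positivity
    rw [Nat.cast_add, Nat.cast_one, div_self hne]
    exact Set.projIcc_of_right_le _ le_rfl
  have hτd : ∀ j, dist (τ j) (τ (j + 1)) ≤ 1 / ((n : ℝ) + 1) := by
    intro j
    rw [Subtype.dist_eq, Real.dist_eq]
    refine (Set.abs_projIcc_sub_projIcc zero_le_one).trans ?_
    rw [← sub_div]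
    push_cast
    rw [show (j : ℝ) - (j + 1) = -1 by ring, abs_div, abs_neg, abs_one, abs_of_pos (by positivity)]
  have hscd : ∀ j v, dist (sc (τ j) v) (sc (τ (j + 1)) v) < δ := by
    intro j v
    refine lt_of_le_of_lt ((dist_pi_le_iff (by positivity)).2 fun i => ?_) hn
    refine le_trans ?_ (hτd j)
    rw [Subtype.dist_eq, Subtype.dist_eq, Real.dist_eq, Real.dist_eq]
    change |((τ j : I) : ℝ) * (v i : ℝ) - ((τ (j + 1) : I) : ℝ) * (v i : ℝ)| ≤ _
    rw [← sub_mul, abs_mul]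
    refine mul_le_of_le_one_right (abs_nonneg _) ?_
    rw [abs_of_nonneg (v i).2.1]
    exact (v i).2.2
  -- the transport
  let G : ℕ → (Fin k → I) → Matrix (Fin N) (Fin N) ℂ := fun j => Nat.rec (fun _ => 1)
    (fun j g v => wu1T (P (sc (τ j) v)) (P (sc (τ (j + 1)) v)) * g v) j
  have hG0 : ∀ v, G 0 v = 1 := fun v => rfl
  have hGs : ∀ j v, G (j + 1) v = wu1T (P (sc (τ j) v)) (P (sc (τ (j + 1)) v)) * G j v :=
    fun j v => rfl
  have hGc : ∀ j, Continuous (G j) := by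
    intro j
    induction j with
    | zero => exact continuous_const
    | succ j ih =>
      have e : G (j + 1) = fun v => wu1T (P (sc (τ j) v)) (P (sc (τ (j + 1)) v)) * G j v := by
        funext v
        exact hGs j v
      rw [e]
      have h1 := P.continuous.comp (hsc (τ j))
      have h2 := P.continuous.comp (hsc (τ (j + 1)))
      unfold wu1T
      exact (((h2.mul h1).add ((continuous_const.sub h2).mul (continuous_const.sub h1)))).mul ih
  have hGd : ∀ j v, (G j v).det ≠ 0 := by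
    intro j v
    induction j with
    | zero => rw [hG0, Matrix.det_one]; exact one_ne_zero
    | succ j ih =>
      rw [hGs, Matrix.det_mul]
      exact mul_ne_zero (hdet _ _ (hscd j v)) ih
  have hGi : ∀ j v, G j v * P (sc (τ 0) v) = P (sc (τ j) v) * G j v := by
    intro j v
    induction j with
    | zero => rw [hG0, Matrix.one_mul, Matrix.mul_one]
    | succ j ih =>
      rw [hGs, Matrix.mul_assoc, ih, ← Matrix.mul_assoc, wu1T_mul (hP _) (hP _),
        Matrix.mul_assoc]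
  refine ⟨⟨G (n + 1), hGc (n + 1)⟩, fun v => hGd (n + 1) v, fun v => ?_⟩
  have h := hGi (n + 1) v
  have e0 : sc (τ 0) v = 0 := by
    rw [hτ0]
    funext i
    exact zero_mul _
  have e1 : sc (τ (n + 1)) v = v := by
    rw [hτ1]
    funext i
    exact one_mul _
  rw [e0, e1] at h
  exact h

/-- Frames over a cube. (For close projections `P`, `Q` the matrix `Q P + (1 - Q) (1 - P)` is
invertible and intertwines them; subdivide.) -/
theorem frame_cube (k : ℕ) (P : C(Fin k → I, Matrix (Fin N) (Fin N) ℂ))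
    (h : ∀ v, ∃ (s : Matrix (Fin N) (Fin m) ℂ) (t : Matrix (Fin m) (Fin N) ℂ),
      IsFrame (P v) s t) :
    ∃ (s : C(Fin k → I, Matrix (Fin N) (Fin m) ℂ)) (t : C(Fin k → I, Matrix (Fin m) (Fin N) ℂ)),
      ∀ v, IsFrame (P v) (s v) (t v) := by
  obtain ⟨G, hG, hGP⟩ := wu1_cube k P (fun v => wu1_idem (h v))
  obtain ⟨s0, t0, h0⟩ := h 0
  refine ⟨⟨fun v => G v * s0, G.continuous.matrix_mul continuous_const⟩,
    ⟨fun v => t0 * (G v)⁻¹, continuous_const.matrix_mul (wu1_cont_inv G.continuous hG)⟩,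
    fun v => ⟨?_, ?_⟩⟩
  · change t0 * (G v)⁻¹ * (G v * s0) = 1
    rw [Matrix.mul_assoc, ← Matrix.mul_assoc (G v)⁻¹,
      Matrix.nonsing_inv_mul _ (isUnit_iff_ne_zero.2 (hG v)), Matrix.one_mul, h0.left]
  · change G v * s0 * (t0 * (G v)⁻¹) = P v
    rw [Matrix.mul_assoc, ← Matrix.mul_assoc s0, h0.right, ← Matrix.mul_assoc, hGP,
      Matrix.mul_assoc, Matrix.mul_nonsing_inv _ (isUnit_iff_ne_zero.2 (hG v)), Matrix.mul_one]

/-- Invertible matrices are connected by a path. -/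
private theorem wu1_gl {A B : Matrix (Fin m) (Fin m) ℂ} (hA : A.det ≠ 0) (hB : B.det ≠ 0) :
    ∃ g : C(I, Matrix (Fin m) (Fin m) ℂ), g 0 = A ∧ g 1 = B ∧ ∀ τ, (g τ).det ≠ 0 := by
  let p : Polynomial ℂ :=
    (A.map (Polynomial.C : ℂ →+* Polynomial ℂ) +
      (Polynomial.X : Polynomial ℂ) • (B - A).map (Polynomial.C : ℂ →+* Polynomial ℂ)).det
  have hp : ∀ z : ℂ, p.eval z = (A + z • (B - A)).det := by
    intro z
    have h := RingHom.map_det (Polynomial.evalRingHom z)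
      (A.map (Polynomial.C : ℂ →+* Polynomial ℂ) +
        (Polynomial.X : Polynomial ℂ) • (B - A).map (Polynomial.C : ℂ →+* Polynomial ℂ))
    rw [Polynomial.coe_evalRingHom] at h
    refine h.trans ?_
    congr 1
    ext i j
    simp
  have hp0 : p ≠ 0 := by
    intro h0
    have h := hp 0
    rw [h0, Polynomial.eval_zero, zero_smul, add_zero] at h
    exact hA h.symm
  have hfin : {z | p.IsRoot z}.Finite := Polynomial.finite_setOfPred_isRoot hp0
  have hpc : IsPathConnected {z | p.IsRoot z}ᶜ :=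
    hfin.countable.isPathConnected_compl_of_one_lt_rank (by
      rw [Complex.rank_real_complex]
      exact Cardinal.one_lt_two)
  have h0 : (0 : ℂ) ∈ {z | p.IsRoot z}ᶜ := by
    change ¬ p.eval 0 = 0
    rw [hp, zero_smul, add_zero]
    exact hA
  have h1 : (1 : ℂ) ∈ {z | p.IsRoot z}ᶜ := by
    change ¬ p.eval 1 = 0
    rw [hp, one_smul, add_sub_cancel]
    exact hB
  obtain ⟨γ, hγ⟩ := hpc.joinedIn 0 h0 1 h1
  refine ⟨⟨fun τ => A + γ τ • (B - A), by fun_prop⟩, ?_, ?_, fun τ => ?_⟩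
  · change A + γ 0 • (B - A) = A
    rw [γ.source, zero_smul, add_zero]
  · change A + γ 1 • (B - A) = B
    rw [γ.target, one_smul, add_sub_cancel]
  · change (A + γ τ • (B - A)).det ≠ 0
    rw [← hp]
    exact hγ τ

/-- Frames over a path with prescribed ends (`GL_m(ℂ)` is path connected). -/
theorem frame_path (P : C(I, Matrix (Fin N) (Fin N) ℂ))
    (h : ∀ v, ∃ (s : Matrix (Fin N) (Fin m) ℂ) (t : Matrix (Fin m) (Fin N) ℂ),
      IsFrame (P v) s t)
    {s0 s1 : Matrix (Fin N) (Fin m) ℂ} {t0 t1 : Matrix (Fin m) (Fin N) ℂ}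
    (h0 : IsFrame (P 0) s0 t0) (h1 : IsFrame (P 1) s1 t1) :
    ∃ (s : C(I, Matrix (Fin N) (Fin m) ℂ)) (t : C(I, Matrix (Fin m) (Fin N) ℂ)),
      (∀ v, IsFrame (P v) (s v) (t v)) ∧ s 0 = s0 ∧ t 0 = t0 ∧ s 1 = s1 ∧ t 1 = t1 := by
  obtain ⟨S, T, hST⟩ := frame_cube (m := m) 1
    (P.comp ⟨fun v : Fin 1 → I => v 0, continuous_apply 0⟩) (fun v => h (v 0))
  let c : C(I, Fin 1 → I) := ⟨fun τ _ => τ, by fun_prop⟩
  have hc : ∀ τ, IsFrame (P τ) (S (c τ)) (T (c τ)) := fun τ => hST (c τ)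
  have key : ∀ (τ : I) (s' : Matrix (Fin N) (Fin m) ℂ) (t' : Matrix (Fin m) (Fin N) ℂ),
      IsFrame (P τ) s' t' → (t' * S (c τ)) * (T (c τ) * s') = 1 ∧
        (T (c τ) * s') * (t' * S (c τ)) = 1 ∧ S (c τ) * (T (c τ) * s') = s' ∧
        (t' * S (c τ)) * T (c τ) = t' := by
    intro τ s' t' h'
    have e1 : S (c τ) * (T (c τ) * s') = s' := by
      rw [← Matrix.mul_assoc, (hc τ).right, ← h'.right, Matrix.mul_assoc, h'.left, Matrix.mul_one]
    have e2 : (t' * S (c τ)) * T (c τ) = t' := by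
      rw [Matrix.mul_assoc, (hc τ).right, ← h'.right, ← Matrix.mul_assoc, h'.left,
        Matrix.one_mul]
    refine ⟨?_, ?_, e1, e2⟩
    · rw [Matrix.mul_assoc, e1, h'.left]
    · rw [← Matrix.mul_assoc, Matrix.mul_assoc (T (c τ)), h'.right, ← (hc τ).right,
        Matrix.mul_assoc, Matrix.mul_assoc, (hc τ).left, Matrix.mul_one, (hc τ).left]
  have hdet : ∀ {A B : Matrix (Fin m) (Fin m) ℂ}, A * B = 1 → B.det ≠ 0 := by
    intro A B hAB h0
    have h2 := congrArg Matrix.det hAB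
    rw [Matrix.det_mul, h0, mul_zero, Matrix.det_one] at h2
    exact zero_ne_one h2
  obtain ⟨k1, k2, k3, k4⟩ := key 0 s0 t0 h0
  obtain ⟨l1, l2, l3, l4⟩ := key 1 s1 t1 h1
  obtain ⟨g, hg0, hg1, hgd⟩ := wu1_gl (hdet k1) (hdet l1)
  have hu : ∀ τ, IsUnit (g τ).det := fun τ => isUnit_iff_ne_zero.2 (hgd τ)
  refine ⟨⟨fun τ => S (c τ) * g τ, (S.continuous.comp c.continuous).matrix_mul g.continuous⟩,
    ⟨fun τ => (g τ)⁻¹ * T (c τ), (wu1_cont_inv g.continuous hgd).matrix_mul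
      (T.continuous.comp c.continuous)⟩, fun τ => ⟨?_, ?_⟩, ?_, ?_, ?_, ?_⟩
  · change (g τ)⁻¹ * T (c τ) * (S (c τ) * g τ) = 1
    rw [Matrix.mul_assoc, ← Matrix.mul_assoc (T (c τ)), (hc τ).left, Matrix.one_mul,
      Matrix.nonsing_inv_mul _ (hu τ)]
  · change S (c τ) * g τ * ((g τ)⁻¹ * T (c τ)) = P τ
    rw [Matrix.mul_assoc, ← Matrix.mul_assoc (g τ), Matrix.mul_nonsing_inv _ (hu τ),
      Matrix.one_mul, (hc τ).right]
  · change S (c 0) * g 0 = s0
    rw [hg0, k3]
  · change (g 0)⁻¹ * T (c 0) = t0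
    rw [hg0, Matrix.inv_eq_left_inv k1, k4]
  · change S (c 1) * g 1 = s1
    rw [hg1, l3]
  · change (g 1)⁻¹ * T (c 1) = t1
    rw [hg1, Matrix.inv_eq_left_inv l1, l4]

end frames

end Pool.Agent.TC
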