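import Pool.Agent.Lib.TC.WuD
import Pool.Agent.Lib.MP_cb6a70_gt_HB.SphereSC

/-!
# Extension of maps to the general linear group
-/

namespace Pool.Agent.TC

open CubeHom
open scoped Manifold ContDiff

section frames

variable {N m : ℕ}

namespace GLE

open Matrix

theorem isClosed_bd2 : IsClosed bd2 := by
  have e : bd2 = ⋃ i : Fin 2, {v : Fin 2 → I | v i = 0 ∨ v i = 1} := by
    ext v
    simp [bd2]
  rw [e]
  refine isClosed_iUnion_of_finite fun i => ?_
  exact (isClosed_eq (continuous_apply i) continuous_const).union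
    (isClosed_eq (continuous_apply i) continuous_const)

/-- Tietze. -/
theorem tietze {E : Type} [TopologicalSpace E] [TietzeExtension.{0, 0} E] (f : (Fin 2 → I) → E)
    (hf : ContinuousOn f bd2) : ∃ F : C(Fin 2 → I, E), ∀ v ∈ bd2, F v = f v := by
  obtain ⟨F, hF⟩ := ContinuousMap.exists_restrict_eq isClosed_bd2
    (⟨bd2.domRestrict f, hf.domRestrict⟩ : C(bd2, E))
  exact ⟨F, fun v hv => DFunLike.congr_fun hF ⟨v, hv⟩⟩

/-- Extension of nonvanishing vectors. -/
theorem vec_extend {k : ℕ} (hk : 2 ≤ k) (a : (Fin 2 → I) → (Fin k → ℂ))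
    (ha : ContinuousOn a bd2) (h0 : ∀ v ∈ bd2, a v ≠ 0) :
    ∃ A : C(Fin 2 → I, Fin k → ℂ), (∀ v, A v ≠ 0) ∧ ∀ v ∈ bd2, A v = a v := by
  obtain ⟨n, hn⟩ : ∃ n : ℕ, n + 1 = 2 * k := ⟨2 * k - 1, by omega⟩
  have hfr : Module.finrank ℝ (Fin k → ℂ) =
      Module.finrank ℝ (EuclideanSpace ℝ (Fin (n + 1))) := by
    rw [Module.finrank_pi_fintype, finrank_euclideanSpace_fin]
    simp only [Complex.finrank_real_complex, Finset.sum_const, Finset.card_univ,
      Fintype.card_fin, smul_eq_mul]
    omega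
  have e : (Fin k → ℂ) ≃L[ℝ] EuclideanSpace ℝ (Fin (n + 1)) :=
    ContinuousLinearEquiv.ofFinrankEq hfr
  classical
  have hpos : ∀ v ∈ bd2, 0 < ‖e (a v)‖ := fun v hv =>
    norm_pos_iff.2 (fun h => h0 v hv (e.map_eq_zero_iff.1 h))
  obtain ⟨y0⟩ : Nonempty (Metric.sphere (0 : EuclideanSpace ℝ (Fin (n + 1))) 1) := inferInstance
  let g : (Fin 2 → I) → Metric.sphere (0 : EuclideanSpace ℝ (Fin (n + 1))) 1 := fun v =>
    if h : ‖e (a v)‖ ≠ 0 then ⟨‖e (a v)‖⁻¹ • e (a v), by
      rw [mem_sphere_zero_iff_norm, norm_smul, norm_inv, norm_norm, inv_mul_cancel₀ h]⟩ else y0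
  have hg1 : ∀ v ∈ bd2, ((g v : Metric.sphere (0 : EuclideanSpace ℝ (Fin (n + 1))) 1) :
      EuclideanSpace ℝ (Fin (n + 1))) = ‖e (a v)‖⁻¹ • e (a v) := by
    intro v hv
    have h : ‖e (a v)‖ ≠ 0 := (hpos v hv).ne'
    simp only [g, dif_pos h]
  have hea : ContinuousOn (fun v => e (a v)) bd2 := e.continuous.comp_continuousOn ha
  have hg : ContinuousOn g bd2 := by
    rw [Topology.IsInducing.subtypeVal.continuousOn_iff]
    refine ContinuousOn.congr ?_ hg1
    exact (hea.norm.inv₀ fun v hv => (hpos v hv).ne').smul hea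
  obtain ⟨G, hGc, hG⟩ := fills_sphere_two (n := n) (by omega) g hg
  obtain ⟨L, hL⟩ := tietze (fun v => Real.log ‖e (a v)‖)
    (hea.norm.log fun v hv => (hpos v hv).ne')
  refine ⟨⟨fun v => e.symm (Real.exp (L v) • (G v : EuclideanSpace ℝ (Fin (n + 1)))), ?_⟩,
    fun v => ?_, fun v hv => ?_⟩
  · exact e.symm.continuous.comp ((Real.continuous_exp.comp L.continuous).smul
      (continuous_subtype_val.comp hGc))
  · intro h
    have h1 : Real.exp (L v) • (G v : EuclideanSpace ℝ (Fin (n + 1))) = 0 :=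
      e.symm.map_eq_zero_iff.1 h
    rcases smul_eq_zero.1 h1 with h2 | h2
    · exact (Real.exp_pos _).ne' h2
    · have h3 : ‖(G v : EuclideanSpace ℝ (Fin (n + 1)))‖ = 1 := by
        have := (G v).2
        rwa [mem_sphere_zero_iff_norm] at this
      rw [h2, norm_zero] at h3
      exact zero_ne_one h3
  · change e.symm (Real.exp (L v) • (G v : EuclideanSpace ℝ (Fin (n + 1)))) = a v
    rw [hG v hv, hg1 v hv, hL v hv, Real.exp_log (hpos v hv), smul_smul,
      mul_inv_cancel₀ (hpos v hv).ne', one_smul, ContinuousLinearEquiv.symm_apply_apply]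

/-- The matrix which maps `a` to `b`. -/
noncomputable def tm {k : ℕ} (a b : Fin k → ℂ) : Matrix (Fin k) (Fin k) ℂ :=
  1 + vecMulVec ((star a ⬝ᵥ a)⁻¹ • (b - a)) (star a)

open scoped ComplexOrder in
theorem dot_self_ne {k : ℕ} {a : Fin k → ℂ} (h : a ≠ 0) : star a ⬝ᵥ a ≠ 0 := fun h' =>
  h (dotProduct_star_self_eq_zero.1 h')

theorem tm_mulVec {k : ℕ} {a b : Fin k → ℂ} (h : a ≠ 0) : tm a b *ᵥ a = b := by
  rw [tm, add_mulVec, one_mulVec, vecMulVec_mulVec]
  have h1 := dot_self_ne h
  ext i
  simp only [Pi.add_apply, Pi.smul_apply, smul_eq_mul, Pi.sub_apply, op_smul_eq_smul]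
  field_simp
  ring

theorem tm_det {k : ℕ} {a b : Fin k → ℂ} (h : a ≠ 0) (hab : star a ⬝ᵥ b ≠ 0) :
    (tm a b).det ≠ 0 := by
  have h1 := dot_self_ne h
  have h2 : (tm a b).det = 1 + star a ⬝ᵥ ((star a ⬝ᵥ a)⁻¹ • (b - a)) := by
    rw [tm, vecMulVec_eq (Fin 1), det_one_add_replicateCol_mul_replicateRow]
  rw [h2, dotProduct_smul, dotProduct_sub, smul_eq_mul, mul_sub, inv_mul_cancel₀ h1,
    add_sub_cancel]
  exact mul_ne_zero (inv_ne_zero h1) hab

theorem continuous_tm {X : Type} [TopologicalSpace X] {k : ℕ} {a b : X → Fin k → ℂ}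
    (ha : Continuous a) (hb : Continuous b) (h0 : ∀ x, a x ≠ 0) :
    Continuous fun x => tm (a x) (b x) := by
  unfold tm
  refine continuous_const.add ?_
  refine continuous_matrix fun i j => ?_
  simp only [vecMulVec_apply, Pi.smul_apply, Pi.sub_apply, Pi.star_apply, smul_eq_mul]
  have h1 : Continuous fun x => (star (a x) ⬝ᵥ a x)⁻¹ :=
    (Continuous.dotProduct (continuous_star.comp ha) ha).inv₀ fun x => dot_self_ne (h0 x)
  exact (h1.mul (((continuous_apply i).comp hb).sub ((continuous_apply i).comp ha))).mul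
    (continuous_star.comp ((continuous_apply j).comp ha))

/-- Close parameters. -/
theorem exists_steps (Φ : C(I × (I × (Fin 2 → I)), ℂ)) (h : ∀ s v, Φ (s, (s, v)) ≠ 0) :
    ∃ N : ℕ, 0 < N ∧ ∀ s s' : I, |(s : ℝ) - s'| ≤ 1 / N → ∀ v, Φ (s, (s', v)) ≠ 0 := by
  have hc : IsCompact {z : I × (I × (Fin 2 → I)) | Φ z = 0} :=
    (isClosed_eq Φ.continuous continuous_const).isCompact
  rcases {z : I × (I × (Fin 2 → I)) | Φ z = 0}.eq_empty_or_nonempty with he | hne
  · refine ⟨1, one_pos, fun s s' _ v h0 => ?_⟩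
    have : (s, (s', v)) ∈ {z : I × (I × (Fin 2 → I)) | Φ z = 0} := h0
    rw [he] at this
    exact this
  · obtain ⟨z, hz, hmin⟩ := hc.exists_isMinOn hne
      (f := fun z : I × (I × (Fin 2 → I)) => |(z.1 : ℝ) - (z.2.1 : ℝ)|) (by fun_prop)
    have hpos : 0 < |(z.1 : ℝ) - (z.2.1 : ℝ)| := by
      rw [abs_pos, sub_ne_zero]
      intro h1
      have h2 : z.1 = z.2.1 := Subtype.ext h1
      have h3 : Φ z = 0 := hz
      refine h z.1 z.2.2 ?_
      have h4 : z = (z.1, (z.1, z.2.2)) := Prod.ext rfl (Prod.ext h2.symm rfl)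
      rw [← h4]
      exact h3
    obtain ⟨N, hN⟩ := exists_nat_one_div_lt hpos
    refine ⟨N + 1, Nat.succ_pos N, fun s s' hs v h0 => ?_⟩
    have h1 := hmin (show (s, (s', v)) ∈ {z : I × (I × (Fin 2 → I)) | Φ z = 0} from h0)
    simp only [Set.mem_ofPred_eq] at h1
    have h2 : |(s : ℝ) - s'| ≤ 1 / ((N : ℝ) + 1) := by
      have := hs
      push_cast at this
      exact this
    linarith

theorem lift_vec {k : ℕ} (A : C(Fin 2 → I, Fin k → ℂ)) (hA : ∀ v, A v ≠ 0) :
    ∃ h : C(Fin 2 → I, Matrix (Fin k) (Fin k) ℂ), (∀ v, (h v).det ≠ 0) ∧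
      ∀ v, h v *ᵥ (A 0) = A v := by
  let Fm : C(I × (Fin 2 → I), Fin k → ℂ) := ⟨fun p => A (fun i => p.1 * p.2 i), by fun_prop⟩
  have hFm : ∀ p, Fm p ≠ 0 := fun p => hA _
  obtain ⟨N, hN, hst⟩ := exists_steps
    ⟨fun z => star (Fm (z.1, z.2.2)) ⬝ᵥ Fm (z.2.1, z.2.2), by
      refine Continuous.dotProduct (continuous_star.comp (Fm.continuous.comp (by fun_prop)))
        (Fm.continuous.comp (by fun_prop))⟩ (fun s v => dot_self_ne (hFm _))
  have hN' : (0 : ℝ) < N := by exact_mod_cast hN
  let fr : ℕ → I := fun i => Set.projIcc 0 1 zero_le_one ((i : ℝ) / N)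
  have hfr : ∀ i ≤ N, ((fr i : I) : ℝ) = (i : ℝ) / N := by
    intro i hi
    have h1 : (i : ℝ) / N ∈ Set.Icc (0 : ℝ) 1 := by
      refine ⟨by positivity, ?_⟩
      rw [div_le_one hN']
      exact_mod_cast hi
    change ((Set.projIcc 0 1 zero_le_one ((i : ℝ) / N) : I) : ℝ) = _
    rw [Set.projIcc_of_mem zero_le_one h1]
  have key : ∀ i ≤ N, ∃ h : C(Fin 2 → I, Matrix (Fin k) (Fin k) ℂ), (∀ v, (h v).det ≠ 0) ∧
      ∀ v, h v *ᵥ (A 0) = Fm (fr i, v) := by
    intro i
    induction i with
    | zero =>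
      intro _
      refine ⟨ContinuousMap.const _ 1, fun v => by simp, fun v => ?_⟩
      have h1 : fr 0 = 0 := by
        ext
        rw [hfr 0 (Nat.zero_le _)]
        simp
      change (1 : Matrix (Fin k) (Fin k) ℂ) *ᵥ (A 0) = A (fun i => fr 0 * v i)
      rw [one_mulVec, h1]
      congr 1
      funext i
      simp
    | succ i ih =>
      intro hi
      obtain ⟨h, h1, h2⟩ := ih (by omega)
      refine ⟨⟨fun v => tm (Fm (fr i, v)) (Fm (fr (i + 1), v)) * h v, ?_⟩, fun v => ?_,
        fun v => ?_⟩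
      · exact (continuous_tm (Fm.continuous.comp (by fun_prop)) (Fm.continuous.comp (by fun_prop))
          fun v => hFm _).mul h.continuous
      · change (tm (Fm (fr i, v)) (Fm (fr (i + 1), v)) * h v).det ≠ 0
        rw [det_mul]
        refine mul_ne_zero (tm_det (hFm _) ?_) (h1 v)
        refine hst (fr i) (fr (i + 1)) ?_ v
        rw [hfr i (by omega), hfr (i + 1) hi]
        push_cast
        rw [← sub_div, show (i : ℝ) - (i + 1) = -1 by ring, abs_div, abs_neg, abs_one,
          abs_of_pos hN']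
      · change (tm (Fm (fr i, v)) (Fm (fr (i + 1), v)) * h v) *ᵥ (A 0) = _
        rw [← mulVec_mulVec, h2 v, tm_mulVec (hFm _)]
  obtain ⟨h, h1, h2⟩ := key N le_rfl
  refine ⟨h, h1, fun v => ?_⟩
  rw [h2 v]
  have h3 : fr N = 1 := by
    ext
    rw [hfr N le_rfl, div_self hN'.ne']
    rfl
  change A (fun i => fr N * v i) = A v
  rw [h3]
  congr 1
  funext i
  simp

theorem lift_col {m : ℕ} (A : C(Fin 2 → I, Fin (m + 2) → ℂ)) (hA : ∀ v, A v ≠ 0) :
    ∃ h : C(Fin 2 → I, Matrix (Fin (m + 2)) (Fin (m + 2)) ℂ), (∀ v, (h v).det = 1) ∧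
      ∀ v i, h v i 0 = A v i := by
  obtain ⟨h, h1, h2⟩ := lift_vec A hA
  have he0 : (Pi.single 0 1 : Fin (m + 2) → ℂ) ≠ 0 := by
    intro h
    have := congrFun h 0
    simp at this
  obtain ⟨T, hT⟩ := SeparatingDual.exists_continuousLinearEquiv_apply_eq (R := ℂ)
    (V := Fin (m + 2) → ℂ) he0 (hA 0)
  let Tl : (Fin (m + 2) → ℂ) →ₗ[ℂ] (Fin (m + 2) → ℂ) := T.toLinearEquiv
  let Ts : (Fin (m + 2) → ℂ) →ₗ[ℂ] (Fin (m + 2) → ℂ) := T.symm.toLinearEquiv
  let T0 : Matrix (Fin (m + 2)) (Fin (m + 2)) ℂ := LinearMap.toMatrix' Tl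
  have hT0 : T0.det ≠ 0 := by
    have h3 : T0 * LinearMap.toMatrix' Ts = 1 := by
      rw [← LinearMap.toMatrix'_comp]
      have : Tl.comp Ts = LinearMap.id := LinearMap.ext fun x => T.apply_symm_apply x
      rw [this, LinearMap.toMatrix'_id]
    intro h4
    have h5 := congrArg Matrix.det h3
    rw [det_mul, h4, zero_mul, det_one] at h5
    exact zero_ne_one h5
  have hcol : ∀ v i, (h v * T0) i 0 = A v i := by
    intro v i
    have h3 : (h v * T0) *ᵥ (Pi.single 0 1) = A v := by
      rw [← mulVec_mulVec, ← h2 v]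
      congr 1
      rw [← hT]
      exact LinearMap.toMatrix'_mulVec Tl _
    rw [← h3, mulVec_single_one]
    rfl
  have hdet : ∀ v, (h v * T0).det ≠ 0 := fun v => by
    rw [det_mul]
    exact mul_ne_zero (h1 v) hT0
  have hc : Continuous fun v => h v * T0 := h.continuous.mul continuous_const
  refine ⟨⟨fun v => (h v * T0) * diagonal (fun j => if j = 1 then ((h v * T0).det)⁻¹ else 1), ?_⟩,
    fun v => ?_, fun v i => ?_⟩
  · refine hc.mul (Continuous.matrix_diagonal ?_)
    refine continuous_pi fun j => ?_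
    by_cases hj : j = 1
    · simp only [hj, if_true]
      exact hc.matrix_det.inv₀ hdet
    · simp only [hj, if_false]
      exact continuous_const
  · change ((h v * T0) * diagonal (fun j => if j = 1 then ((h v * T0).det)⁻¹ else 1)).det = 1
    rw [det_mul (h v * T0), det_diagonal, Finset.prod_ite_eq' Finset.univ (1 : Fin (m + 2))
      (fun _ => ((h v * T0).det)⁻¹), if_pos (Finset.mem_univ _), mul_inv_cancel₀ (hdet v)]
  · change ((h v * T0) * diagonal (fun j => if j = 1 then ((h v * T0).det)⁻¹ else 1) :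
      Matrix (Fin (m + 2)) (Fin (m + 2)) ℂ) i 0 = _
    rw [mul_diagonal, hcol v i, if_neg (by simp), mul_one]

end GLE

/-- A map from the boundary of the square to `GL_m(ℂ)` whose determinant has a continuous
logarithm extends to the square. (Induction on `m`: make the first column constant, `ℂ^m - 0` is
simply connected, use `1 + (b - a) a^* / |a|²` which maps `a` to `b`.) -/
theorem gl_extend (g : (Fin 2 → I) → Matrix (Fin m) (Fin m) ℂ) (hg : ContinuousOn g bd2)
    (hu : ∀ v ∈ bd2, (g v).det ≠ 0) (l : (Fin 2 → I) → ℂ) (hl : ContinuousOn l bd2)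
    (hlg : ∀ v ∈ bd2, Complex.exp (l v) = (g v).det) :
    ∃ G : C(Fin 2 → I, Matrix (Fin m) (Fin m) ℂ), (∀ v, (G v).det ≠ 0) ∧
      ∀ v ∈ bd2, G v = g v := by
  induction m with
  | zero => exact ⟨ContinuousMap.const _ 1, fun v => by simp, fun v _ => Subsingleton.elim _ _⟩
  | succ m ih =>
    rcases m with - | m
    · obtain ⟨L, hL⟩ := GLE.tietze l hl
      refine ⟨⟨fun v => Matrix.of fun _ _ => Complex.exp (L v), ?_⟩, fun v => ?_, fun v hv => ?_⟩
      · exact continuous_matrix fun i j => Complex.continuous_exp.comp L.continuous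
      · change (Matrix.of fun (_ _ : Fin 1) => Complex.exp (L v)).det ≠ 0
        rw [Matrix.det_fin_one]
        exact Complex.exp_ne_zero _
      · ext i j
        change Complex.exp (L v) = g v i j
        have hi : i = 0 := Fin.ext (by omega)
        have hj : j = 0 := Fin.ext (by omega)
        rw [hL v hv, hlg v hv, hi, hj]
        exact Matrix.det_fin_one (g v)
    · -- the first column
      have hcol : ContinuousOn (fun v => fun i => g v i 0) bd2 := by
        refine continuousOn_pi.2 fun i => ?_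
        exact (continuous_apply_apply i 0).comp_continuousOn hg
      have hcol0 : ∀ v ∈ bd2, (fun i => g v i 0) ≠ 0 := by
        intro v hv h
        refine hu v hv (Matrix.det_eq_zero_of_column_eq_zero 0 fun i => ?_)
        exact congrFun h i
      obtain ⟨A, hA0, hA⟩ := GLE.vec_extend (by omega) _ hcol hcol0
      obtain ⟨h, hdet, hh⟩ := GLE.lift_col A hA0
      -- the reduced matrices
      let k : (Fin 2 → I) → Matrix (Fin (m + 2)) (Fin (m + 2)) ℂ := fun v => (h v).adjugate * g v
      have hk : ContinuousOn k bd2 := (h.continuous.matrix_adjugate.continuousOn).mul hg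
      have hinv : ∀ v, (h v).adjugate * h v = 1 := fun v => by
        rw [Matrix.adjugate_mul, hdet v, one_smul]
      have hinv' : ∀ v, h v * (h v).adjugate = 1 := fun v => by
        rw [Matrix.mul_adjugate, hdet v, one_smul]
      have hk0 : ∀ v ∈ bd2, ∀ i, k v i 0 = if i = 0 then 1 else 0 := by
        intro v hv i
        have h1 : ∀ j, g v j 0 = h v j 0 := fun j => by
          rw [hh v j, hA v hv]
        have h2 : k v i 0 = ((h v).adjugate * h v) i 0 := by
          change ((h v).adjugate * g v) i 0 = _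
          rw [Matrix.mul_apply, Matrix.mul_apply]
          exact Finset.sum_congr rfl fun j _ => by rw [h1 j]
        rw [h2, hinv v, Matrix.one_apply]
      have hkdet : ∀ v ∈ bd2, (k v).det = (g v).det := by
        intro v _
        change ((h v).adjugate * g v).det = _
        have h1 : (h v).adjugate.det = 1 := by
          have := congrArg Matrix.det (hinv v)
          rwa [Matrix.det_mul, hdet v, mul_one, Matrix.det_one] at this
        rw [Matrix.det_mul, h1, one_mul]
      have hsub : ∀ M : Matrix (Fin (m + 2)) (Fin (m + 2)) ℂ,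
          (∀ i, M i 0 = if i = 0 then 1 else 0) →
          M.det = (M.submatrix Fin.succ Fin.succ).det := by
        intro M hM
        rw [Matrix.det_succ_column_zero, Finset.sum_eq_single 0]
        · rw [hM 0, if_pos rfl]
          simp only [Fin.val_zero, pow_zero, one_mul, Fin.succAbove_zero]
        · intro i _ hi
          rw [hM i, if_neg hi, mul_zero, zero_mul]
        · intro h
          exact absurd (Finset.mem_univ _) h
      obtain ⟨G', hG'0, hG'⟩ := ih (fun v => (k v).submatrix Fin.succ Fin.succ)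
        ((continuous_id.matrix_submatrix Fin.succ Fin.succ).comp_continuousOn hk) (fun v hv => by
          rw [← hsub (k v) (hk0 v hv), hkdet v hv]
          exact hu v hv) (fun v hv => by
          rw [← hsub (k v) (hk0 v hv), hkdet v hv]
          exact hlg v hv)
      have hrow : ContinuousOn (fun v => fun j : Fin (m + 1) => k v 0 j.succ) bd2 := by
        refine continuousOn_pi.2 fun j => ?_
        exact (continuous_apply_apply 0 j.succ).comp_continuousOn hk
      obtain ⟨Rw, hRw⟩ := GLE.tietze _ hrow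
      let M : (Fin 2 → I) → Matrix (Fin (m + 2)) (Fin (m + 2)) ℂ := fun v =>
        Matrix.of fun i j => Fin.cases (Fin.cases 1 (fun _ => 0) i)
          (fun j' => Fin.cases (Rw v j') (fun i' => G' v i' j') i) j
      have hM : Continuous M := by
        refine continuous_matrix fun i j => ?_
        refine Fin.cases ?_ (fun j' => ?_) j
        · exact continuous_const
        · refine Fin.cases ?_ (fun i' => ?_) i
          · exact (continuous_apply j').comp Rw.continuous
          · exact (continuous_apply_apply i' j').comp G'.continuous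
      have hM0 : ∀ v i, M v i 0 = if i = 0 then 1 else 0 := by
        intro v i
        refine Fin.cases ?_ (fun i' => ?_) i
        · rfl
        · simp [M]
      refine ⟨⟨fun v => h v * M v, h.continuous.mul hM⟩, fun v => ?_, fun v hv => ?_⟩
      · change (h v * M v).det ≠ 0
        rw [Matrix.det_mul, hdet v, one_mul, hsub _ (hM0 v)]
        exact hG'0 v
      · change h v * M v = g v
        have h1 : M v = k v := by
          ext i j
          refine Fin.cases ?_ (fun j' => ?_) j
          · rw [hM0, hk0 v hv]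
          · refine Fin.cases ?_ (fun i' => ?_) i
            · exact congrFun (hRw v hv) j'
            · exact congrFun (congrFun (hG' v hv) i') j'
        rw [h1]
        change h v * ((h v).adjugate * g v) = g v
        rw [← Matrix.mul_assoc, hinv' v, Matrix.one_mul]

end frames

end Pool.Agent.TC
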