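import Pool.Agent.Lib.TC.Wu1
import Pool.Agent.Lib.TC.Wu2

/-!
# The first Chern class
-/

namespace Pool.Agent.TC

open CubeHom

namespace WU3

section logs

variable {X : Type} [TopologicalSpace X]

/-- Continuous logarithm on a contractible space. -/
theorem exists_log (K : C(I × X, X)) {x0 : X} (hK0 : ∀ x, K (0, x) = x0) (hK1 : ∀ x, K (1, x) = x)
    {g : X → ℂ} (hg : Continuous g) (hg0 : ∀ x, g x ≠ 0) :
    ∃ l : C(X, ℂ), ∀ x, Complex.exp (l x) = g x := by
  have cov := Complex.isCoveringMapOn_exp.isCoveringMap_restrictPreimage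
  let H : C(I × X, ({0}ᶜ : Set ℂ)) := ⟨fun q => ⟨g (K q), hg0 _⟩, by fun_prop⟩
  let e0 : Complex.exp ⁻¹' ({0}ᶜ : Set ℂ) := ⟨Complex.log (g x0), Complex.exp_ne_zero _⟩
  let f : C(X, Complex.exp ⁻¹' ({0}ᶜ : Set ℂ)) := ContinuousMap.const X e0
  have H0 : ∀ a, H (0, a) = Set.restrictPreimage ({0}ᶜ : Set ℂ) Complex.exp (f a) := by
    intro a
    apply Subtype.ext
    change g (K (0, a)) = Complex.exp (Complex.log (g x0))
    rw [hK0, Complex.exp_log (hg0 x0)]
  refine ⟨⟨fun x => (cov.liftHomotopy H f H0 (1, x)).1, by fun_prop⟩, fun x => ?_⟩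
  have h1 := congrFun (cov.liftHomotopy_lifts H f H0) (1, x)
  have h2 := congrArg Subtype.val h1
  change Complex.exp _ = g (K (1, x)) at h2
  rw [hK1] at h2
  exact h2

/-- Multiplication of the time. -/
def scaleI : C(I × I, I) := ⟨fun q => q.1 * q.2, by fun_prop⟩

theorem exists_log_I {g : I → ℂ} (hg : Continuous g) (hg0 : ∀ x, g x ≠ 0) :
    ∃ l : C(I, ℂ), ∀ x, Complex.exp (l x) = g x :=
  exists_log (x0 := (0 : I)) scaleI (fun x => by simp [scaleI]) (fun x => by simp [scaleI]) hg hg0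

theorem exists_log_Cb {g : Cb → ℂ} (hg : Continuous g) (hg0 : ∀ x, g x ≠ 0) :
    ∃ l : C(Cb, ℂ), ∀ x, Complex.exp (l x) = g x :=
  exists_log (x0 := (fun _ => 0 : Cb)) (⟨fun q j => q.1 * q.2 j, by fun_prop⟩ : C(I × Cb, Cb))
    (fun x => by ext j; simp) (fun x => by ext j; simp) hg hg0

open Classical in
/-- The variation of the logarithm along a path of nonzero complex numbers. -/
noncomputable def lvar (g : I → ℂ) : ℂ :=
  if h : ∃ l : C(I, ℂ), ∀ x, Complex.exp (l x) = g x then h.choose 1 - h.choose 0 else 0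

/-- The variation can be computed with any logarithm. -/
theorem lvar_eq {g : I → ℂ} (l : C(I, ℂ)) (hl : ∀ x, Complex.exp (l x) = g x) :
    lvar g = l 1 - l 0 := by
  have h : ∃ l : C(I, ℂ), ∀ x, Complex.exp (l x) = g x := ⟨l, hl⟩
  rw [lvar, dif_pos h]
  have hs := h.choose_spec
  set l' := h.choose
  -- the difference of the two logarithms is constant
  have h1 : ∀ x, ∃ n : ℤ, l' x = l x + n * (2 * Real.pi * Complex.I) := fun x =>
    Complex.exp_eq_exp_iff_exists_int.mp ((hs x).trans (hl x).symm)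
  choose n hn using h1
  have hpi : (2 * Real.pi * Complex.I : ℂ) ≠ 0 := Complex.two_pi_I_ne_zero
  have h2 : ∀ x, (n x : ℂ) = (l' x - l x) / (2 * Real.pi * Complex.I) := by
    intro x
    rw [hn x, add_sub_cancel_left, mul_div_cancel_right₀ _ hpi]
  have h3 : Continuous (fun x => (n x : ℂ)) := by
    simp only [h2]
    fun_prop
  have h4 : Continuous n := by
    have h5 : Continuous (fun x => (n x : ℝ)) := by
      have := Complex.continuous_re.comp h3
      simpa [Function.comp_def] using this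
    exact (Int.isClosedEmbedding_coe_real.isEmbedding.continuous_iff).mpr h5
  have h5 : n 1 = n 0 := by
    have := (isPreconnected_univ (α := I)).constant h4.continuousOn (Set.mem_univ 1) (Set.mem_univ 0)
    exact this
  rw [hn 1, hn 0, h5]
  ring

theorem lvar_mul {g g' : I → ℂ} (hg : Continuous g) (hg0 : ∀ x, g x ≠ 0) (hg' : Continuous g')
    (hg0' : ∀ x, g' x ≠ 0) : lvar (fun x => g x * g' x) = lvar g + lvar g' := by
  obtain ⟨l, hl⟩ := exists_log_I hg hg0
  obtain ⟨l', hl'⟩ := exists_log_I hg' hg0'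
  rw [lvar_eq l hl, lvar_eq l' hl', lvar_eq (l + l') (fun x => by
    rw [ContinuousMap.add_apply, Complex.exp_add, hl, hl'])]
  simp only [ContinuousMap.add_apply]
  ring

theorem lvar_const {g : I → ℂ} (a : ℂ) (ha : a ≠ 0) (h : ∀ x, g x = a) : lvar g = 0 := by
  rw [lvar_eq (ContinuousMap.const I (Complex.log a)) (fun x => by
    rw [ContinuousMap.const_apply, Complex.exp_log ha, h])]
  simp

theorem exp_lvar {g : I → ℂ} (hg : Continuous g) (hg0 : ∀ x, g x ≠ 0) :
    Complex.exp (lvar g) * g 0 = g 1 := by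
  obtain ⟨l, hl⟩ := exists_log_I hg hg0
  rw [lvar_eq l hl, ← hl 0, ← hl 1, ← Complex.exp_add, sub_add_cancel]

end logs

section dls

variable {A : Type} [AddCommGroup A] {X : Type} [TopologicalSpace X]

theorem dl_add (j : ℕ) (u v : C(Cb, X) → A) (σ : C(Cb, X)) :
    dl j (fun τ => u τ + v τ) σ = dl j u σ + dl j v σ := by
  simp only [dl, ← Finset.sum_add_distrib, ← smul_add]
  refine Finset.sum_congr rfl fun i _ => ?_
  congr 1
  abel

theorem dl_mul (j : ℕ) (u : C(Cb, X) → ℤ) (a : ℂ) (σ : C(Cb, X)) :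
    dl j (fun τ => (u τ : ℂ) * a) σ = (dl j u σ : ℤ) * a := by
  simp only [dl, Int.cast_sum, Finset.sum_mul, zsmul_eq_mul, Int.cast_mul, Int.cast_sub]
  refine Finset.sum_congr rfl fun i _ => ?_
  push_cast
  ring

end dls

section frames

variable {N m : ℕ} {Q : Matrix (Fin N) (Fin N) ℂ} {s s' s'' : Matrix (Fin N) (Fin m) ℂ}
  {t t' t'' : Matrix (Fin m) (Fin N) ℂ}

theorem frame_trans (h : IsFrame Q s t) (h'' : IsFrame Q s'' t'') (t' : Matrix (Fin m) (Fin N) ℂ) :
    (t' * s) * (t * s'') = t' * s'' := by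
  have h1 : s * t * s'' = s'' := by
    rw [h.right, ← h''.right, Matrix.mul_assoc, h''.left, Matrix.mul_one]
  calc (t' * s) * (t * s'') = t' * (s * t * s'') := by simp only [Matrix.mul_assoc]
    _ = t' * s'' := by rw [h1]

theorem frame_det (h : IsFrame Q s t) (h' : IsFrame Q s' t') : (t' * s).det ≠ 0 := by
  have h1 := frame_trans h h' t'
  rw [h'.left] at h1
  intro h2
  have h3 := congrArg Matrix.det h1
  rw [Matrix.det_mul, h2, zero_mul, Matrix.det_one] at h3
  exact zero_ne_one h3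

end frames

section chern

variable {N m : ℕ} {F : Type} [TopologicalSpace F]

/-- The path along the first coordinate. -/
def ptw : C(I, Cb) where
  toFun t := fun j => if j = 0 then t else 0
  continuous_toFun := by
    refine continuous_pi fun j => ?_
    by_cases h : j = 0
    · simp only [h, if_true]
      exact continuous_id
    · simpa [h] using continuous_const

theorem pt_zero : ptw 0 = (fun _ => 0 : Cb) := by
  funext j
  by_cases h : j = 0 <;> simp [ptw, h]

theorem ins_zero (e : I) : ins 0 e (fun _ => 0 : Cb) = ptw e := by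
  funext j
  by_cases h : j = 0
  · subst h; simp [ins_apply_self, ptw]
  · rw [ins_apply_gt (Nat.pos_of_ne_zero h)]
    simp [ptw, h]

/-- Frames over a cube. -/
theorem frame_cb (P : C(F, Matrix (Fin N) (Fin N) ℂ))
    (h : ∀ x, ∃ (s : Matrix (Fin N) (Fin m) ℂ) (t : Matrix (Fin m) (Fin N) ℂ),
      IsFrame (P x) s t) {k : ℕ} {σ : C(Cb, F)} (hσ : IsCube (k : ℤ) σ) :
    ∃ (S : C(Cb, Matrix (Fin N) (Fin m) ℂ)) (T : C(Cb, Matrix (Fin m) (Fin N) ℂ)),
      ∀ u, IsFrame (P (σ u)) (S u) (T u) := by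
  let ext : C(Fin k → I, Cb) := ⟨fun v j => if h : j < k then v ⟨j, h⟩ else 0, by
    refine continuous_pi fun j => ?_
    by_cases h : j < k
    · simpa [h] using continuous_apply _
    · simpa [h] using continuous_const⟩
  let res : C(Cb, Fin k → I) := ⟨fun u i => u i, by fun_prop⟩
  obtain ⟨s, t, hst⟩ := frame_cube (m := m) k (P.comp (σ.comp ext)) (fun v => h _)
  refine ⟨s.comp res, t.comp res, fun u => ?_⟩
  have h1 := hst (res u)
  have h2 : σ (ext (res u)) = σ u := by
    refine hσ.2 fun j hj => ?_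
    have hj' : j < k := by exact_mod_cast hj
    change (if h : j < k then u (⟨j, h⟩ : Fin k) else 0) = u j
    rw [dif_pos hj']
  change IsFrame (P (σ (ext (res u)))) _ _ at h1
  rw [h2] at h1
  exact h1

/-- Frames at the points and along the paths. -/
structure PF (P : C(F, Matrix (Fin N) (Fin N) ℂ)) (m : ℕ) where
  s0 : F → Matrix (Fin N) (Fin m) ℂ
  t0 : F → Matrix (Fin m) (Fin N) ℂ
  h0 : ∀ x, IsFrame (P x) (s0 x) (t0 x)
  s : C(I, F) → C(I, Matrix (Fin N) (Fin m) ℂ)
  t : C(I, F) → C(I, Matrix (Fin m) (Fin N) ℂ)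
  h : ∀ γ v, IsFrame (P (γ v)) (s γ v) (t γ v)
  zero : ∀ γ, s γ 0 = s0 (γ 0)
  one : ∀ γ, s γ 1 = s0 (γ 1)
  const : ∀ γ, (∀ v, γ v = γ 0) → ∀ v, s γ v = s0 (γ 0)

theorem exists_pf (P : C(F, Matrix (Fin N) (Fin N) ℂ))
    (h : ∀ x, ∃ (s : Matrix (Fin N) (Fin m) ℂ) (t : Matrix (Fin m) (Fin N) ℂ),
      IsFrame (P x) s t) : Nonempty (PF P m) := by
  choose s0 t0 h0 using h
  have h1 : ∀ γ : C(I, F), ∃ (s : C(I, Matrix (Fin N) (Fin m) ℂ))
      (t : C(I, Matrix (Fin m) (Fin N) ℂ)), (∀ v, IsFrame (P (γ v)) (s v) (t v)) ∧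
        s 0 = s0 (γ 0) ∧ s 1 = s0 (γ 1) ∧ ((∀ v, γ v = γ 0) → ∀ v, s v = s0 (γ 0)) := by
    intro γ
    by_cases hc : ∀ v, γ v = γ 0
    · refine ⟨ContinuousMap.const I (s0 (γ 0)), ContinuousMap.const I (t0 (γ 0)), fun v => ?_, rfl,
        ?_, fun _ _ => rfl⟩
      · rw [hc v]
        exact h0 _
      · rw [hc 1]
        rfl
    · obtain ⟨s, t, hst, h2, -, h3, -⟩ := frame_path (P.comp γ) (fun v => ⟨_, _, h0 (γ v)⟩)
        (h0 (γ 0)) (h0 (γ 1))
      exact ⟨s, t, hst, h2, h3, fun h => absurd h hc⟩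
  choose s t h2 h3 h4 h5 using h1
  exact ⟨⟨s0, t0, h0, s, t, h2, h3, h4, h5⟩⟩

variable {P : C(F, Matrix (Fin N) (Fin N) ℂ)} (p : PF P m)

/-- The determinant of the frame along an edge with respect to the frame of the cube. -/
noncomputable def edet (σ : C(Cb, F)) (T : C(Cb, Matrix (Fin m) (Fin N) ℂ)) (ψ : C(Cb, Cb)) (t : I) :
    ℂ := (T (ψ (ptw t)) * p.s ((σ.comp ψ).comp ptw) t).det

/-- Its variation. -/
noncomputable def vv (σ : C(Cb, F)) (T : C(Cb, Matrix (Fin m) (Fin N) ℂ)) (ψ : C(Cb, Cb)) : ℂ :=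
  lvar (edet p σ T ψ)

/-- The winding number, times `2πi`. -/
noncomputable def ww (σ : C(Cb, F)) (T : C(Cb, Matrix (Fin m) (Fin N) ℂ)) : ℂ :=
  dl 1 (vv p σ T) (ContinuousMap.id Cb)

/-- A frame over a cube. -/
def FrC (P : C(F, Matrix (Fin N) (Fin N) ℂ)) (σ : C(Cb, F)) (S : C(Cb, Matrix (Fin N) (Fin m) ℂ))
    (T : C(Cb, Matrix (Fin m) (Fin N) ℂ)) : Prop := ∀ u, IsFrame (P (σ u)) (S u) (T u)

variable {σ : C(Cb, F)} {S S' : C(Cb, Matrix (Fin N) (Fin m) ℂ)}
  {T T' : C(Cb, Matrix (Fin m) (Fin N) ℂ)}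

theorem edet_cont (ψ : C(Cb, Cb)) : Continuous (edet p σ T ψ) := by
  unfold edet
  exact ((T.continuous.comp (ψ.continuous.comp ptw.continuous)).matrix_mul
    (p.s _).continuous).matrix_det

theorem edet_ne (h : FrC P σ S T) (ψ : C(Cb, Cb)) (t : I) : edet p σ T ψ t ≠ 0 :=
  frame_det (p.h ((σ.comp ψ).comp ptw) t) (h (ψ (ptw t)))

theorem vv_comp (ρ ψ : C(Cb, Cb)) : vv p (σ.comp ρ) (T.comp ρ) ψ = vv p σ T (ρ.comp ψ) := rfl

theorem ww_comp (ρ : C(Cb, Cb)) : ww p (σ.comp ρ) (T.comp ρ) = dl 1 (vv p σ T) ρ := by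
  unfold ww dl
  refine Finset.sum_congr rfl fun i _ => ?_
  rw [vv_comp, vv_comp]
  rfl

theorem dl_zero_apply (l : Cb → ℂ) (ψ : C(Cb, Cb)) :
    dl 0 (fun φ : C(Cb, Cb) => l (φ (fun _ => 0))) ψ = l (ψ (ptw 1)) - l (ψ (ptw 0)) := by
  simp only [dl, zero_add, Finset.range_one, Finset.sum_singleton, pow_zero, one_smul,
    ContinuousMap.comp_apply, ins_zero]

theorem ww_indep (h : FrC P σ S T) (h' : FrC P σ S' T') : ww p σ T' = ww p σ T := by
  have hc : Continuous fun u => (T' u * S u).det :=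
    (T'.continuous.matrix_mul S.continuous).matrix_det
  have hne : ∀ u, (T' u * S u).det ≠ 0 := fun u => frame_det (h u) (h' u)
  obtain ⟨l, hl⟩ := exists_log_Cb hc hne
  have h1 : ∀ ψ, vv p σ T' ψ =
      dl 0 (fun φ : C(Cb, Cb) => l (φ (fun _ => 0))) ψ + vv p σ T ψ := by
    intro ψ
    rw [dl_zero_apply, vv, vv]
    have h2 : edet p σ T' ψ = fun t => (T' (ψ (ptw t)) * S (ψ (ptw t))).det * edet p σ T ψ t := by
      funext t
      rw [edet, edet, ← Matrix.det_mul, frame_trans (h (ψ (ptw t)))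
        (p.h ((σ.comp ψ).comp ptw) t)]
    have h3 : Continuous fun t => (T' (ψ (ptw t)) * S (ψ (ptw t))).det :=
      hc.comp (ψ.continuous.comp ptw.continuous)
    have h4 : lvar (fun t => (T' (ψ (ptw t)) * S (ψ (ptw t))).det) = l (ψ (ptw 1)) - l (ψ (ptw 0)) :=
      lvar_eq (l.comp (ψ.comp ptw)) (fun t => hl _)
    rw [h2, lvar_mul h3 (fun _ => hne _) (edet_cont p ψ) (edet_ne p h ψ), h4]
  unfold ww
  rw [show vv p σ T' = fun ψ => dl 0 (fun φ : C(Cb, Cb) => l (φ (fun _ => 0))) ψ + vv p σ T ψ from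
    funext h1, dl_add]
  have h3 := dl_dl 0 (fun φ : C(Cb, Cb) => l (φ (fun _ => 0))) (ContinuousMap.id Cb)
  rw [zero_add] at h3
  rw [h3, zero_add]

theorem ww_int (h : FrC P σ S T) : ∃ n : ℤ, ww p σ T = n * (2 * Real.pi * Complex.I) := by
  have hs : ∀ x, (T x * p.s0 (σ x)).det ≠ 0 := fun x => frame_det (p.h0 (σ x)) (h x)
  have h1 : ∀ ψ, ∃ n : ℤ, vv p σ T ψ =
      dl 0 (fun φ : C(Cb, Cb) => Complex.log ((T (φ (fun _ => 0)) *
        p.s0 (σ (φ (fun _ => 0)))).det)) ψ + n * (2 * Real.pi * Complex.I) := by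
    intro ψ
    rw [dl_zero_apply (fun x => Complex.log ((T x * p.s0 (σ x)).det))]
    refine Complex.exp_eq_exp_iff_exists_int.mp ?_
    have h2 := exp_lvar (edet_cont p ψ) (edet_ne p h ψ)
    have h3 : edet p σ T ψ 0 = (T (ψ (ptw 0)) * p.s0 (σ (ψ (ptw 0)))).det := by
      rw [edet, p.zero]
      rfl
    have h4 : edet p σ T ψ 1 = (T (ψ (ptw 1)) * p.s0 (σ (ψ (ptw 1)))).det := by
      rw [edet, p.one]
      rfl
    rw [h3, h4] at h2
    rw [Complex.exp_sub, Complex.exp_log (hs _), Complex.exp_log (hs _), eq_div_iff (hs _)]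
    exact h2
  choose n hn using h1
  refine ⟨dl 1 n (ContinuousMap.id Cb), ?_⟩
  unfold ww
  rw [show vv p σ T = fun ψ => _ + _ from funext hn, dl_add, dl_mul]
  have h3 := dl_dl 0 (fun φ : C(Cb, Cb) => Complex.log ((T (φ (fun _ => 0)) *
        p.s0 (σ (φ (fun _ => 0)))).det)) (ContinuousMap.id Cb)
  rw [zero_add] at h3
  rw [h3, zero_add]

open Classical in
/-- The Chern cocycle. -/
noncomputable def cc (σ : C(Cb, F)) : ℤ :=
  if h : ∃ S T, FrC P σ S T then (ww_int p h.choose_spec.choose_spec).choose else 0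

theorem ww_eq (h : FrC P σ S T) : ww p σ T = cc p σ * (2 * Real.pi * Complex.I) := by
  have h1 : ∃ S T, FrC P σ S T := ⟨S, T, h⟩
  rw [cc, dif_pos h1, ← (ww_int p h1.choose_spec.choose_spec).choose_spec]
  exact ww_indep p h1.choose_spec.choose_spec h

theorem cc_eq_zero (h : FrC P σ S T) (h0 : ww p σ T = 0) : cc p σ = 0 := by
  have h1 := ww_eq p h
  rw [h0] at h1
  have h2 := mul_eq_zero.mp h1.symm
  rcases h2 with h2 | h2
  · exact_mod_cast h2
  · exact absurd h2 Complex.two_pi_I_ne_zero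

/-- Degenerate squares. -/
theorem cc_degen (hσ : IsCube 2 σ) (hd : Degen 2 σ) : cc p σ = 0 := by
  obtain ⟨i, hi, hdep⟩ := hd
  have hi2 : i < 2 := by exact_mod_cast hi
  -- the path in the other direction
  set j : ℕ := 1 - i with hj
  have hji : j ≠ i := by omega
  set γ : C(I, F) := (σ.comp (ins i 0)).comp ptw with hγ
  let pj : C(Cb, I) := ⟨fun u => u j, continuous_apply j⟩
  -- value of the cube
  have hval : ∀ (e : I) (x : I), σ (ins i e (ptw x)) = γ x := by
    intro e x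
    change (σ.comp (ins i e)) (ptw x) = (σ.comp (ins i 0)) (ptw x)
    rw [comp_ins_eq hdep e 0]
  have hval' : ∀ u : Cb, σ u = γ (u j) := by
    intro u
    change σ u = σ (ins i 0 (ptw (u j)))
    have h1 : ∀ a b : Cb, (∀ l < 2, l ≠ i → a l = b l) → σ a = σ b := by
      intro a b hab
      set b' : Cb := fun l => if l = i then a l else b l with hb'
      have h2 : σ a = σ b' := hσ.2 fun l hl => by
        have hl' : l < 2 := by exact_mod_cast hl
        by_cases h : l = i
        · simp [hb', h]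
        · simp [hb', h, hab l hl' h]
      have h3 : σ b' = σ b := hdep fun l hl => by
        have hl' : l ≠ i := hl
        simp [hb', hl']
      rw [h2, h3]
    refine h1 _ _ fun l hl hli => ?_
    have hlj : l = j := by omega
    rw [hlj]
    rcases lt_or_gt_of_ne hji with h | h
    · rw [ins_apply_lt h]
      have : j = 0 := by omega
      simp [ptw, this]
    · rw [ins_apply_gt h]
      have : j - 1 = 0 := by omega
      simp [ptw, this]
  have hfr : FrC P σ ((p.s γ).comp pj) ((p.t γ).comp pj) := by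
    intro u
    rw [hval' u]
    exact p.h γ (u j)
  refine cc_eq_zero p hfr ?_
  have hone : ∀ (i' : ℕ) (e : I), (e = 0 ∨ e = 1) → i' < 2 →
      vv p σ ((p.t γ).comp pj) (ins i' e) = 0 := by
    intro i' e he hi'
    refine lvar_const 1 one_ne_zero fun x => ?_
    rw [edet]
    by_cases h : i' = i
    · -- the edge is the path itself
      subst h
      have h1 : (σ.comp (ins i' e)).comp ptw = γ := by
        ext x
        exact hval e x
      have h2 : (ins i' e) (ptw x) j = x := by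
        rcases lt_or_gt_of_ne hji with h | h
        · rw [ins_apply_lt h]
          have : j = 0 := by omega
          simp [ptw, this]
        · rw [ins_apply_gt h]
          have : j - 1 = 0 := by omega
          simp [ptw, this]
      rw [h1]
      change (p.t γ ((ins i' e) (ptw x) j) * p.s γ x).det = 1
      rw [h2, (p.h γ x).left, Matrix.det_one]
    · -- the edge is constant
      have hi'j : i' = j := by omega
      subst hi'j
      have h2 : ∀ x : I, (ins j e) (ptw x) j = e := fun x => ins_apply_self _ _ _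
      have h3 : ∀ x, ((σ.comp (ins j e)).comp ptw) x = γ e := by
        intro x
        change σ (ins j e (ptw x)) = γ e
        rw [hval', h2]
      change (p.t γ ((ins j e) (ptw x) j) * p.s ((σ.comp (ins j e)).comp ptw) x).det = 1
      have h4 : p.s0 (γ e) = p.s γ e := by
        rcases he with rfl | rfl
        · exact (p.zero γ).symm
        · exact (p.one γ).symm
      rw [p.const _ (fun v => by rw [h3, h3]), h3, h2, h4, (p.h γ e).left, Matrix.det_one]
  rw [ww, dl]
  refine Finset.sum_eq_zero fun i' hi' => ?_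
  have hi'' := Finset.mem_range.mp hi'
  change (-1 : ℤ) ^ i' • (vv p σ _ (ins i' 1) - vv p σ _ (ins i' 0)) = 0
  rw [hone i' 1 (Or.inr rfl) hi'', hone i' 0 (Or.inl rfl) hi'', sub_zero, smul_zero]

/-- The cocycle property. -/
theorem cc_coc (h : ∀ x, ∃ (s : Matrix (Fin N) (Fin m) ℂ) (t : Matrix (Fin m) (Fin N) ℂ),
    IsFrame (P x) s t) : (CS.top F).Coc 2 (cc p) := by
  refine ⟨fun σ hσ _ hd => cc_degen p hσ (hd.resolve_left id), fun ρ hρ _ => ?_⟩
  obtain ⟨S, T, hST⟩ := frame_cb P h hρ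
  have h1 : ∀ (i : ℕ) (e : I), (cc p (ρ.comp (ins i e)) : ℂ) * (2 * Real.pi * Complex.I) =
      dl 1 (vv p ρ T) (ins i e) := by
    intro i e
    rw [← ww_comp, ww_eq p (S := S.comp (ins i e)) (fun u => hST (ins i e u))]
  have h2 := dl_dl 1 (vv p ρ T) (ContinuousMap.id Cb)
  have h3 := dl_mul 2 (cc p) (2 * Real.pi * Complex.I) ρ
  have h4 : dl 2 (fun τ => (cc p τ : ℂ) * (2 * Real.pi * Complex.I)) ρ =
      dl 2 (dl 1 (vv p ρ T)) (ContinuousMap.id Cb) := by
    unfold dl
    refine Finset.sum_congr rfl fun i _ => ?_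
    beta_reduce
    rw [h1 i 1, h1 i 0]
    rfl
  rw [h4] at h3
  have h5 : dl (1 + 1) (dl 1 (vv p ρ T)) (ContinuousMap.id Cb) = 0 := h2
  rw [show (1 + 1 : ℕ) = 2 from rfl] at h5
  rw [h5] at h3
  rcases mul_eq_zero.mp h3.symm with h6 | h6
  · exact_mod_cast h6
  · exact absurd h6 Complex.two_pi_I_ne_zero

end chern

section boundary

/-- The edges of the square. -/
def ed (i : Fin 2) (e : I) : C(I, Fin 2 → I) where
  toFun t := fun j => if j = i then e else t
  continuous_toFun := by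
    refine continuous_pi fun j => ?_
    by_cases h : j = i
    · simpa [h] using continuous_const
    · simp only [h, if_false]
      exact continuous_id

theorem ed_mem (i : Fin 2) (e : I) (he : e = 0 ∨ e = 1) (t : I) : ed i e t ∈ bd2 := by
  refine ⟨i, ?_⟩
  change (if i = i then e else t) = 0 ∨ (if i = i then e else t) = 1
  rw [if_pos rfl]
  exact he

/-- A continuous logarithm on the boundary of the square. -/
theorem exists_bd_log {g : (Fin 2 → I) → ℂ} (hg : Continuous g) (hg0 : ∀ v ∈ bd2, g v ≠ 0)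
    (hw : (lvar (fun t => g (ed 0 1 t)) - lvar (fun t => g (ed 0 0 t))) -
      (lvar (fun t => g (ed 1 1 t)) - lvar (fun t => g (ed 1 0 t))) = 0) :
    ∃ l : (Fin 2 → I) → ℂ, ContinuousOn l bd2 ∧ ∀ v ∈ bd2, Complex.exp (l v) = g v := by
  have hlog : ∀ (i : Fin 2) (e : I), (e = 0 ∨ e = 1) → ∃ l : C(I, ℂ),
      ∀ t, Complex.exp (l t) = g (ed i e t) := fun i e he =>
    exists_log_I (hg.comp (ed i e).continuous) (fun t => hg0 _ (ed_mem i e he t))
  obtain ⟨a0, ha0⟩ := hlog 0 0 (Or.inl rfl)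
  obtain ⟨a1, ha1⟩ := hlog 0 1 (Or.inr rfl)
  obtain ⟨b0, hb0⟩ := hlog 1 0 (Or.inl rfl)
  obtain ⟨b1, hb1⟩ := hlog 1 1 (Or.inr rfl)
  rw [lvar_eq a0 ha0, lvar_eq a1 ha1, lvar_eq b0 hb0, lvar_eq b1 hb1] at hw
  -- the corners
  have c00 : ed 0 0 0 = ed 1 0 0 := by funext j; fin_cases j <;> rfl
  have c10 : ed 0 1 0 = ed 1 0 1 := by funext j; fin_cases j <;> rfl
  have c01 : ed 0 0 1 = ed 1 1 0 := by funext j; fin_cases j <;> rfl
  have e1 : Complex.exp (a0 0 - b0 0) = 1 := by
    rw [Complex.exp_sub, ha0, hb0, c00, div_self (hg0 _ (ed_mem 1 0 (Or.inl rfl) 0))]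
  have e2 : Complex.exp (a0 0 - b0 0 + b0 1 - a1 0) = 1 := by
    rw [Complex.exp_sub, Complex.exp_add, e1, one_mul, hb0, ha1, c10,
      div_self (hg0 _ (ed_mem 1 0 (Or.inl rfl) 1))]
  have e3 : Complex.exp (a0 1 - b1 0) = 1 := by
    rw [Complex.exp_sub, ha0, hb1, c01, div_self (hg0 _ (ed_mem 1 1 (Or.inr rfl) 0))]
  classical
  let l : (Fin 2 → I) → ℂ := fun v =>
    if v 0 = 0 then a0 (v 1) else if v 0 = 1 then a1 (v 1) + (a0 0 - b0 0 + b0 1 - a1 0)
    else if v 1 = 0 then b0 (v 0) + (a0 0 - b0 0) else b1 (v 0) + (a0 1 - b1 0)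
  have l1 : ∀ v : Fin 2 → I, v 0 = 0 → l v = a0 (v 1) := fun v h => if_pos h
  have l2 : ∀ v : Fin 2 → I, v 0 = 1 → l v = a1 (v 1) + (a0 0 - b0 0 + b0 1 - a1 0) := by
    intro v h
    have h' : v 0 ≠ 0 := by rw [h]; exact one_ne_zero
    change (if v 0 = 0 then _ else if v 0 = 1 then _ else _) = _
    rw [if_neg h', if_pos h]
  have l3 : ∀ v : Fin 2 → I, v 1 = 0 → l v = b0 (v 0) + (a0 0 - b0 0) := by
    intro v h
    by_cases h0 : v 0 = 0
    · rw [l1 v h0, h, h0]; ring
    · by_cases h1 : v 0 = 1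
      · rw [l2 v h1, h, h1]; ring
      · change (if v 0 = 0 then _ else if v 0 = 1 then _ else if v 1 = 0 then _ else _) = _
        rw [if_neg h0, if_neg h1, if_pos h]
  have l4 : ∀ v : Fin 2 → I, v 1 = 1 → l v = b1 (v 0) + (a0 1 - b1 0) := by
    intro v h
    by_cases h0 : v 0 = 0
    · rw [l1 v h0, h, h0]; ring
    · by_cases h1 : v 0 = 1
      · rw [l2 v h1, h, h1]; linear_combination hw
      · have h' : v 1 ≠ 0 := by rw [h]; exact one_ne_zero
        change (if v 0 = 0 then _ else if v 0 = 1 then _ else if v 1 = 0 then _ else _) = _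
        rw [if_neg h0, if_neg h1, if_neg h']
  have hcl : ∀ (i : Fin 2) (e : I), IsClosed {v : Fin 2 → I | v i = e} := fun i e =>
    isClosed_eq (continuous_apply i) continuous_const
  have hbd : bd2 = (({v : Fin 2 → I | v 0 = 0} ∪ {v | v 0 = 1}) ∪ {v | v 1 = 0}) ∪
      {v | v 1 = 1} := by
    ext v
    simp only [bd2, Set.mem_union, Set.mem_ofPred_eq, Fin.exists_fin_two, or_assoc]
  refine ⟨l, ?_, ?_⟩
  · rw [hbd]
    refine ((((?_ : ContinuousOn l _).union_of_isClosed ?_ (hcl 0 0) (hcl 0 1)).union_of_isClosed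
      ?_ ((hcl 0 0).union (hcl 0 1)) (hcl 1 0)).union_of_isClosed ?_
      (((hcl 0 0).union (hcl 0 1)).union (hcl 1 0)) (hcl 1 1))
    · exact (a0.continuous.comp (continuous_apply 1)).continuousOn.congr fun v hv => l1 v hv
    · exact (((a1.continuous.comp (continuous_apply 1)).add continuous_const)).continuousOn.congr
        fun v hv => l2 v hv
    · exact (((b0.continuous.comp (continuous_apply 0)).add continuous_const)).continuousOn.congr
        fun v hv => l3 v hv
    · exact (((b1.continuous.comp (continuous_apply 0)).add continuous_const)).continuousOn.congr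
        fun v hv => l4 v hv
  · intro v hv
    have key : ∀ (i : Fin 2) (e : I) (j : Fin 2), j ≠ i → v i = e → ed i e (v j) = v := by
      intro i e j hji hvi
      funext j'
      change (if j' = i then e else v j) = v j'
      by_cases h : j' = i
      · rw [if_pos h, h, hvi]
      · rw [if_neg h]
        have : j = j' := by omega
        rw [this]
    rw [hbd] at hv
    rcases hv with ((hv | hv) | hv) | hv
    · rw [l1 v hv, ha0, key 0 0 1 (by decide) hv]
    · rw [l2 v hv, Complex.exp_add, e2, mul_one, ha1, key 0 1 1 (by decide) hv]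
    · rw [l3 v hv, Complex.exp_add, e1, mul_one, hb0, key 1 0 0 (by decide) hv]
    · rw [l4 v hv, Complex.exp_add, e3, mul_one, hb1, key 1 1 0 (by decide) hv]

end boundary

end WU3

open WU3

/-- The first Chern class as an integral cocycle on cubes. -/
theorem exists_chern {N m : ℕ} {F : Type} [TopologicalSpace F]
    (P : C(F, Matrix (Fin N) (Fin N) ℂ))
    (h : ∀ x, ∃ (s : Matrix (Fin N) (Fin m) ℂ) (t : Matrix (Fin m) (Fin N) ℂ),
      IsFrame (P x) s t) :
    ∃ c : C(Cb, F) → ℤ, (CS.top F).Coc 2 c ∧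
      ∀ (f : C(Fin 2 → I, F)) (x0 : F), (∀ v ∈ bd2, f v = x0) → c (f.comp (idCube 2)) = 0 →
        ∃ (s : C(Fin 2 → I, Matrix (Fin N) (Fin m) ℂ))
          (t : C(Fin 2 → I, Matrix (Fin m) (Fin N) ℂ)) (s0 : Matrix (Fin N) (Fin m) ℂ)
          (t0 : Matrix (Fin m) (Fin N) ℂ), (∀ v, IsFrame (P (f v)) (s v) (t v)) ∧
            ∀ v ∈ bd2, s v = s0 ∧ t v = t0 := by
  obtain ⟨p⟩ := exists_pf P h
  refine ⟨WU3.cc p, cc_coc p h, fun f x0 hf hc0 => ?_⟩
  obtain ⟨S, T, hST⟩ := frame_cube (m := m) 2 (P.comp f) (fun v => h _)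
  have hST' : ∀ v, IsFrame (P (f v)) (S v) (T v) := hST
  have hfr : FrC P (f.comp (idCube 2)) (S.comp (idCube 2)) (T.comp (idCube 2)) := fun u => hST' _
  have hw := ww_eq p hfr
  rw [hc0, Int.cast_zero, zero_mul] at hw
  set g : (Fin 2 → I) → ℂ := fun v => (T v * p.s0 x0).det with hg
  have hgc : Continuous g := (T.continuous.matrix_mul continuous_const).matrix_det
  have hfrb : ∀ v ∈ bd2, IsFrame (P x0) (S v) (T v) := fun v hv => by
    rw [← hf v hv]
    exact hST' v
  have hg0 : ∀ v ∈ bd2, g v ≠ 0 := fun v hv => frame_det (p.h0 x0) (hfrb v hv)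
  -- the edges
  have hedge : ∀ (i : ℕ) (hi : i < 2) (e : I), (e = 0 ∨ e = 1) →
      vv p (f.comp (idCube 2)) (T.comp (idCube 2)) (ins i e) =
        lvar (fun t => g (ed ⟨i, hi⟩ e t)) := by
    intro i hi e he
    unfold vv
    congr 1
    funext t
    have h1 : ∀ t : I, idCube 2 (ins i e (ptw t)) = ed ⟨i, hi⟩ e t := by
      intro t
      funext j
      change ins i e (ptw t) (j : ℕ) = if j = ⟨i, hi⟩ then e else t
      rcases lt_trichotomy (j : ℕ) i with h2 | h2 | h2
      · rw [ins_apply_lt h2, if_neg (fun h => by rw [h] at h2; exact lt_irrefl _ h2)]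
        have : (j : ℕ) = 0 := by omega
        simp [ptw, this]
      · rw [if_pos (Fin.ext h2), h2, ins_apply_self]
      · rw [ins_apply_gt h2, if_neg (fun h => by rw [h] at h2; exact lt_irrefl _ h2)]
        have : (j : ℕ) - 1 = 0 := by omega
        simp [ptw, this]
    have h2 : ∀ t : I, (((f.comp (idCube 2)).comp (ins i e)).comp ptw) t = x0 := by
      intro t
      change f (idCube 2 (ins i e (ptw t))) = x0
      rw [h1]
      exact hf _ (ed_mem _ _ he _)
    rw [edet, p.const _ (fun v => by rw [h2, h2]), h2]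
    change (T (idCube 2 (ins i e (ptw t))) * p.s0 x0).det = _
    rw [h1]
  obtain ⟨l, hl, hlg⟩ := exists_bd_log hgc hg0 (by
    rw [ww, dl, Finset.sum_range_succ, Finset.sum_range_one] at hw
    rw [pow_zero, one_smul, pow_one, neg_one_smul] at hw
    have h1 : ∀ i e, (ContinuousMap.id Cb).comp (ins i e) = ins i e := fun _ _ => rfl
    simp only [h1] at hw
    rw [hedge 0 (by norm_num) 1 (Or.inr rfl), hedge 0 (by norm_num) 0 (Or.inl rfl),
      hedge 1 (by norm_num) 1 (Or.inr rfl), hedge 1 (by norm_num) 0 (Or.inl rfl),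
      ← sub_eq_add_neg] at hw
    exact hw)
  obtain ⟨G, hG0, hG⟩ := gl_extend (fun v => T v * p.s0 x0)
    (T.continuous.matrix_mul continuous_const).continuousOn hg0 l hl hlg
  have hGinv : Continuous fun v => (G v)⁻¹ := by
    have h1 : ∀ v, (G v)⁻¹ = ((G v).det)⁻¹ • (G v).adjugate := fun v => by
      rw [Matrix.inv_def, Ring.inverse_eq_inv']
    simp only [h1]
    exact (G.continuous.matrix_det.inv₀ hG0).smul G.continuous.matrix_adjugate
  have hunit : ∀ v, IsUnit (G v).det := fun v => isUnit_iff_ne_zero.mpr (hG0 v)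
  refine ⟨⟨fun v => S v * G v, S.continuous.matrix_mul G.continuous⟩,
    ⟨fun v => (G v)⁻¹ * T v, hGinv.matrix_mul T.continuous⟩, p.s0 x0, p.t0 x0,
    fun v => ⟨?_, ?_⟩, fun v hv => ?_⟩
  · change (G v)⁻¹ * T v * (S v * G v) = 1
    rw [Matrix.mul_assoc, ← Matrix.mul_assoc (T v), (hST' v).left, Matrix.one_mul,
      Matrix.nonsing_inv_mul _ (hunit v)]
  · change S v * G v * ((G v)⁻¹ * T v) = P (f v)
    rw [Matrix.mul_assoc, ← Matrix.mul_assoc (G v), Matrix.mul_nonsing_inv _ (hunit v),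
      Matrix.one_mul, (hST' v).right]
  · have h1 := hfrb v hv
    have h2 := p.h0 x0
    have h3 : S v * (T v * p.s0 x0) = p.s0 x0 := by
      rw [← Matrix.mul_assoc, h1.right, ← h2.right, Matrix.mul_assoc, h2.left, Matrix.mul_one]
    refine ⟨?_, ?_⟩
    · change S v * G v = p.s0 x0
      rw [hG v hv, h3]
    · change (G v)⁻¹ * T v = p.t0 x0
      have h4 : G v * p.t0 x0 = T v := by
        rw [hG v hv, Matrix.mul_assoc, h2.right, ← h1.right, ← Matrix.mul_assoc, h1.left,
          Matrix.one_mul]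
      rw [← h4, ← Matrix.mul_assoc, Matrix.nonsing_inv_mul _ (hunit v), Matrix.one_mul]

end Pool.Agent.TC
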