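import Pool.Agent.Lib.TC.Wu3

/-!
# Frames over the two-sphere
-/

namespace Pool.Agent.TC

open CubeHom
open scoped Manifold ContDiff

namespace WU4Aux

open Metric Topology DG2Aux

variable {n : ℕ}

theorem mm_eq (u : Fin n → I) : mm u = ∏ i, ((1 - cen u i ^ 2) / 4) := by
  unfold mm cen
  exact Finset.prod_congr rfl fun i _ => by ring

theorem cen_abs (u : Fin n → I) (i : Fin n) : cen u i ^ 2 ≤ 1 := by
  have h0 := (u i).2.1
  have h1 := (u i).2.2
  unfold cen
  nlinarith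

theorem cen_injective : Function.Injective (cen : (Fin n → I) → Fin n → ℝ) := by
  intro u v h
  funext i
  apply Subtype.ext
  have h1 : 2 * (u i : ℝ) - 1 = 2 * (v i : ℝ) - 1 := congrFun h i
  linarith

theorem mm_interior {u : Fin n → I} (h : ¬ ∃ i, u i = 0 ∨ u i = 1) : 0 < mm u := by
  push Not at h
  refine Finset.prod_pos fun i _ => mul_pos ?_ (sub_pos.2 ?_)
  · exact lt_of_le_of_ne (u i).2.1 fun h1 => (h i).1 (Subtype.ext h1.symm)
  · exact lt_of_le_of_ne (u i).2.2 fun h1 => (h i).2 (Subtype.ext h1)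

theorem mm_antitone {u v : Fin n → I} (h : ∀ i, cen v i ^ 2 ≤ cen u i ^ 2) : mm u ≤ mm v := by
  rw [mm_eq, mm_eq]
  refine Finset.prod_le_prod (fun i _ => ?_) fun i _ => ?_
  · have := cen_abs u i
    linarith
  · have := h i
    linarith

/-- The ratio map is injective on the interior. -/
theorem ratio_inj {u v : Fin n → I} (hu : 0 < mm u) (hv : 0 < mm v)
    (h : (mm u)⁻¹ • cen u = (mm v)⁻¹ • cen v) : u = v := by
  have key : ∀ {u v : Fin n → I}, 0 < mm u → 0 < mm v →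
      (mm u)⁻¹ • cen u = (mm v)⁻¹ • cen v → mm u ≤ mm v := by
    intro u v hu hv h
    by_contra hlt
    push Not at hlt
    have h1 : ∀ i, cen v i ^ 2 ≤ cen u i ^ 2 := by
      intro i
      have h2 : (mm u)⁻¹ * cen u i = (mm v)⁻¹ * cen v i := congrFun h i
      have h3 : cen v i = mm v / mm u * cen u i := by
        field_simp at h2 ⊢
        linarith
      have h4 : mm v / mm u ≤ 1 := (div_le_one hu).2 hlt.le
      have h5 : 0 ≤ mm v / mm u := div_nonneg hv.le hu.le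
      rw [h3, mul_pow]
      exact mul_le_of_le_one_left (sq_nonneg _) (pow_le_one₀ h5 h4)
    exact absurd (mm_antitone h1) (not_le.2 hlt)
  have h1 : mm u = mm v := le_antisymm (key hu hv h) (key hv hu h.symm)
  apply cen_injective
  rw [h1] at h
  exact smul_right_injective _ (inv_ne_zero hv.ne') h

/-- The ratio map is onto. -/
theorem ratio_surj (x : Fin n → ℝ) : ∃ u : Fin n → I, 0 < mm u ∧ (mm u)⁻¹ • cen u = x := by
  by_cases hx : x = 0
  · refine ⟨fun _ => ⟨1 / 2, by norm_num, by norm_num⟩, ?_, ?_⟩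
    · refine mm_pos ?_
      funext i
      change 2 * ((1 : ℝ) / 2) - 1 = 0
      norm_num
    · have h1 : cen (fun _ : Fin n => (⟨1 / 2, by norm_num, by norm_num⟩ : I)) = 0 := by
        funext i
        change 2 * ((1 : ℝ) / 2) - 1 = 0
        norm_num
      rw [h1, smul_zero, hx]
  · have hn : 0 < ‖x‖ := norm_pos_iff.2 hx
    have he : ∀ i, |x i / ‖x‖| ≤ 1 := by
      intro i
      rw [abs_div, abs_of_pos hn, div_le_one hn]
      exact norm_le_pi_norm x i
    -- the ray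
    let ray : ℝ → (Fin n → I) := fun s i => Set.projIcc 0 1 zero_le_one ((s * (x i / ‖x‖) + 1) / 2)
    have hray : Continuous ray := by
      refine continuous_pi fun i => continuous_projIcc.comp (by fun_prop)
    have hcen : ∀ s ∈ Set.Icc (0 : ℝ) 1, ∀ i, cen (ray s) i = s * (x i / ‖x‖) := by
      intro s hs i
      have h1 : |s * (x i / ‖x‖)| ≤ 1 := by
        rw [abs_mul, abs_of_nonneg hs.1]
        exact mul_le_one₀ hs.2 (abs_nonneg _) (he i)
      have h2 : (s * (x i / ‖x‖) + 1) / 2 ∈ Set.Icc (0 : ℝ) 1 := by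
        rw [abs_le] at h1
        constructor <;> linarith
      change 2 * ((Set.projIcc 0 1 zero_le_one ((s * (x i / ‖x‖) + 1) / 2) : I) : ℝ) - 1 = _
      rw [Set.projIcc_of_mem _ h2]
      ring
    have hk : ContinuousOn (fun s : ℝ => s - ‖x‖ * mm (ray s)) (Set.Icc 0 1) :=
      (continuous_id.sub (continuous_const.mul (continuous_mm.comp hray))).continuousOn
    have h0 : (0 : ℝ) - ‖x‖ * mm (ray 0) ≤ 0 := by
      have := mm_nonneg (ray 0)
      nlinarith
    have h1 : 0 ≤ (1 : ℝ) - ‖x‖ * mm (ray 1) := by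
      have h2 : mm (ray 1) = 0 := by
        obtain ⟨i, hi⟩ : ∃ i, ‖x‖ = |x i| := by
          by_contra hcon
          push Not at hcon
          have h3 : ‖x‖ < ‖x‖ := (pi_norm_lt_iff hn).2 fun i =>
            lt_of_le_of_ne (norm_le_pi_norm x i) (Ne.symm (hcon i))
          exact lt_irrefl _ h3
        rw [mm_eq]
        refine Finset.prod_eq_zero (Finset.mem_univ i) ?_
        rw [hcen 1 ⟨zero_le_one, le_rfl⟩ i, one_mul, div_pow, hi, sq_abs, div_self, sub_self,
          zero_div]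
        have : 0 < |x i| := hi ▸ hn
        exact (pow_ne_zero 2 (abs_pos.1 this))
      rw [h2, mul_zero]
      norm_num
    obtain ⟨s, hs, hs0⟩ := intermediate_value_Icc zero_le_one hk ⟨h0, h1⟩
    have hs1 : s = ‖x‖ * mm (ray s) := by
      have : s - ‖x‖ * mm (ray s) = 0 := hs0
      linarith
    have hpos : 0 < mm (ray s) := by
      rcases eq_or_lt_of_le (mm_nonneg (ray s)) with h | h
      · exfalso
        rw [← h, mul_zero] at hs1
        have h2 : cen (ray s) = 0 := by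
          funext i
          rw [hcen s hs i, hs1, zero_mul]
          rfl
        exact (mm_pos h2).ne' h.symm
      · exact h
    refine ⟨ray s, hpos, ?_⟩
    funext i
    rw [Pi.smul_apply, hcen s hs i, smul_eq_mul]
    rw [inv_mul_eq_iff_eq_mul₀ hpos.ne']
    rw [← mul_div_assoc, div_eq_iff hn.ne']
    linear_combination (x i) * hs1

theorem AA_scale {E : Type*} [NormedAddCommGroup E] [InnerProductSpace ℝ E] (v : E)
    (w : (ℝ ∙ v)ᗮ) {m : ℝ} (hm : 0 < m) : AA v w m = AA v (m⁻¹ • w) 1 := by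
  unfold AA
  have h1 : ‖m⁻¹ • w‖ ^ 2 = (m ^ 2)⁻¹ * ‖w‖ ^ 2 := by
    rw [norm_smul, mul_pow, Real.norm_eq_abs, sq_abs, inv_pow]
  have hd : 0 < ‖w‖ ^ 2 + 4 * m ^ 2 := by positivity
  have h2 : (‖m⁻¹ • w‖ ^ 2 + 4 * 1 ^ 2)⁻¹ = (‖w‖ ^ 2 + 4 * m ^ 2)⁻¹ * m ^ 2 := by
    rw [h1]
    have : (m ^ 2)⁻¹ * ‖w‖ ^ 2 + 4 * 1 ^ 2 = (‖w‖ ^ 2 + 4 * m ^ 2) * (m ^ 2)⁻¹ := by
      field_simp
    rw [this, mul_inv, inv_inv]
  have h3 : ∀ y : E, ((‖w‖ ^ 2 + 4 * m ^ 2)⁻¹ * m ^ 2) • y =
      (‖w‖ ^ 2 + 4 * m ^ 2)⁻¹ • (m ^ 2 • y) := fun y => mul_smul _ _ _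
  rw [h2, h3]
  congr 1
  rw [smul_add, smul_smul, Submodule.coe_smul, smul_smul, smul_smul, h1]
  congr 2
  · field_simp
  · field_simp

section

variable (y0 : Sph n) (L : (Fin n → ℝ) ≃L[ℝ] (ℝ ∙ (y0 : EuclideanSpace ℝ (Fin (n + 1))))ᗮ)

/-- The chart. -/
noncomputable def psi : (Fin n → ℝ) → Sph n := fun w =>
  stereoInvFun (norm_eq_of_mem_sphere y0) (L w)

theorem psi_embedding : IsOpenEmbedding (psi y0 L) := by
  have h1 : IsOpenEmbedding ((stereographic (norm_eq_of_mem_sphere y0)).symm) :=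
    OpenPartialHomeomorph.isOpenEmbedding _ (stereographic_target (norm_eq_of_mem_sphere y0))
  exact h1.comp L.toHomeomorph.isOpenEmbedding

theorem psi_coe (w : Fin n → ℝ) : (psi y0 L w : EuclideanSpace ℝ (Fin (n + 1))) =
    AA (y0 : EuclideanSpace ℝ (Fin (n + 1))) (L w) 1 := by
  change (stereoInvFun _ (L w) : EuclideanSpace ℝ (Fin (n + 1))) = _
  rw [stereoInvFun_apply, AA]
  norm_num

theorem psi_ne (w : Fin n → ℝ) : psi y0 L w ≠ y0 := by
  have h1 := (stereographic (norm_eq_of_mem_sphere y0)).map_target (x := L w)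
    (by rw [stereographic_target]; trivial)
  rw [stereographic_source] at h1
  intro h
  exact h1 h

theorem psi_onto {y : Sph n} (hy : y ≠ y0) : ∃ w, psi y0 L w = y := by
  have hs : y ∈ (stereographic (norm_eq_of_mem_sphere y0)).source := by
    rw [stereographic_source]
    exact hy
  refine ⟨L.symm (stereographic (norm_eq_of_mem_sphere y0) y), ?_⟩
  change (stereographic (norm_eq_of_mem_sphere y0)).symm (L (L.symm _)) = y
  rw [ContinuousLinearEquiv.apply_symm_apply]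
  exact (stereographic (norm_eq_of_mem_sphere y0)).left_inv hs

theorem col_bdry {u : Fin n → I} (hu : ∃ i, u i = 0 ∨ u i = 1) :
    atTime (HH y0 L) 0 u = y0 := by
  apply Subtype.ext
  change AA _ (L (cen u)) ((1 - ((0 : I) : ℝ)) * mm u + ((0 : I) : ℝ)) = _
  rw [mm_bdry hu]
  have h1 : (1 - ((0 : I) : ℝ)) * 0 + ((0 : I) : ℝ) = 0 := by simp
  rw [h1]
  exact AA_zero (by rw [Ne, map_eq_zero_iff L L.injective]; exact cen_bdry hu)

theorem col_int {u : Fin n → I} (hu : 0 < mm u) :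
    atTime (HH y0 L) 0 u = psi y0 L ((mm u)⁻¹ • cen u) := by
  apply Subtype.ext
  rw [psi_coe, map_smul, ← AA_scale _ _ hu]
  change AA _ (L (cen u)) ((1 - ((0 : I) : ℝ)) * mm u + ((0 : I) : ℝ)) = _
  simp

theorem col_surj [NeZero n] : Function.Surjective (atTime (HH y0 L) 0) := by
  intro y
  by_cases hy : y = y0
  · refine ⟨fun _ => 0, ?_⟩
    rw [hy]
    exact col_bdry y0 L ⟨0, Or.inl rfl⟩
  · obtain ⟨w, rfl⟩ := psi_onto y0 L hy
    obtain ⟨u, hu, rfl⟩ := ratio_surj w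
    exact ⟨u, col_int y0 L hu⟩

theorem col_inj {u v : Fin n → I} (h : atTime (HH y0 L) 0 u = atTime (HH y0 L) 0 v) :
    u = v ∨ ((∃ i, u i = 0 ∨ u i = 1) ∧ ∃ i, v i = 0 ∨ v i = 1) := by
  by_cases hu : ∃ i, u i = 0 ∨ u i = 1
  · by_cases hv : ∃ i, v i = 0 ∨ v i = 1
    · exact Or.inr ⟨hu, hv⟩
    · rw [col_bdry y0 L hu, col_int y0 L (mm_interior hv)] at h
      exact absurd h.symm (psi_ne y0 L _)
  · by_cases hv : ∃ i, v i = 0 ∨ v i = 1
    · rw [col_bdry y0 L hv, col_int y0 L (mm_interior hu)] at h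
      exact absurd h (psi_ne y0 L _)
    · rw [col_int y0 L (mm_interior hu), col_int y0 L (mm_interior hv)] at h
      exact Or.inl (ratio_inj (mm_interior hu) (mm_interior hv)
        ((psi_embedding y0 L).injective h))

theorem exists_L (n : ℕ) (y0 : Sph n) :
    Nonempty ((Fin n → ℝ) ≃L[ℝ] (ℝ ∙ (y0 : EuclideanSpace ℝ (Fin (n + 1))))ᗮ) := by
  have hv : ‖(y0 : EuclideanSpace ℝ (Fin (n + 1)))‖ = 1 := norm_eq_of_mem_sphere y0
  have hv0 : (y0 : EuclideanSpace ℝ (Fin (n + 1))) ≠ 0 := by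
    intro h
    rw [h, norm_zero] at hv
    exact zero_ne_one hv
  have : Fact (Module.finrank ℝ (EuclideanSpace ℝ (Fin (n + 1))) = n + 1) := ⟨by simp⟩
  have hfr : Module.finrank ℝ (Fin n → ℝ) =
      Module.finrank ℝ (ℝ ∙ (y0 : EuclideanSpace ℝ (Fin (n + 1))))ᗮ := by
    rw [Submodule.finrank_orthogonal_span_singleton (n := n) hv0, Module.finrank_fin_fun]
  exact ⟨ContinuousLinearEquiv.ofFinrankEq hfr⟩

theorem col_mem (hn : 2 ≤ n) {Y : Type*} [TopologicalSpace Y] (g : C(Fin n → I, Y)) (x0 : Y)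
    (hg : ∀ v : Fin n → I, (∃ i, v i = 0 ∨ v i = 1) → g v = x0) :
    push g (Finsupp.single (idCube n) 1) ∈ CubeHom.Z ℤ (n : ℤ) (Set.univ : Set Y) ∅ := by
  have h1 := push_mem_Z (f := g) (V := Set.univ) (A' := {x0}) (Set.mapsTo_univ _ _)
    (fun u hu => hg u hu) (idCube_mem_Z ℤ n)
  exact ⟨h1.1, const_Q x0 (by omega) h1.2⟩

theorem col_deg (hn : 2 ≤ n) {z : Ch ℤ (Sph n)} (hz : FCyc n z) :
    CubeHom.Bd ℤ (n : ℤ) Set.univ ∅
        (push (atTime (HH y0 L) 0) (Finsupp.single (idCube n) 1) - z) ∨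
      CubeHom.Bd ℤ (n : ℤ) Set.univ ∅
        (push (atTime (HH y0 L) 0) (Finsupp.single (idCube n) 1) + z) := by
  classical
  have hv : ‖(y0 : EuclideanSpace ℝ (Fin (n + 1)))‖ = 1 := norm_eq_of_mem_sphere y0
  have hψ := psi_embedding y0 L
  have hψ0 : (psi y0 L 0 : EuclideanSpace ℝ (Fin (n + 1))) =
      -(y0 : EuclideanSpace ℝ (Fin (n + 1))) := by
    rw [psi_coe, map_zero, AA]
    simp only [norm_zero, ZeroMemClass.coe_zero, smul_zero, zero_add, ne_eq, OfNat.ofNat_ne_zero,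
      not_false_eq_true, zero_pow, one_pow, mul_one, zero_sub, smul_smul]
    norm_num
  set φ := chartOf hψ with hφ
  set H := HH y0 L with hH
  set x0 : Sph n := psi y0 L 0 with hx0
  have hK : inChart φ {0} = {x0} := by
    unfold inChart
    rw [Set.image_singleton]
    rfl
  have hbd : ∀ t : I, ∀ u ∈ bdry n, H (t, u) ∈ ({x0}ᶜ : Set (Sph n)) := by
    intro t u hu h
    have h1 : H (t, u) = x0 := h
    have h2 : AA (y0 : EuclideanSpace ℝ (Fin (n + 1))) (L (cen u))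
        ((1 - (t : ℝ)) * mm u + t) = -(y0 : EuclideanSpace ℝ (Fin (n + 1))) := by
      rw [← hψ0, ← h1]
      rfl
    have h3 := AA_eq_neg hv (den_pos L (t, u)) h2
    exact cen_bdry hu ((map_eq_zero_iff L L.injective).1 h3)
  have hB := Bd_homotopy (R := ℤ) (H := H) (k := n) (U := Set.univ) (A := bdry n)
    (V := Set.univ) (A' := {x0}ᶜ) (fun _ _ _ => Set.mem_univ _) hbd (idCube_mem_Z ℤ n)
  have e1 : push (atTime H 1) (Finsupp.single (idCube n) 1) = locCh ℤ φ := by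
    rw [push_single, locCh]
    congr 1
    ext u : 1
    apply Subtype.ext
    change AA _ (L (cen (idCube n u))) ((1 - ((1 : I) : ℝ)) * mm (idCube n u) + ((1 : I) : ℝ)) =
      (psi y0 L (stdCube n u) : EuclideanSpace ℝ (Fin (n + 1)))
    rw [psi_coe]
    have h1 : stdCube n u = cen (idCube n u) := rfl
    rw [h1]
    simp
  rw [e1] at hB
  have hc := col_mem hn (atTime H 0) y0 (fun u hu => col_bdry y0 L hu)
  obtain ⟨r, hr⟩ := hz.gen _ hc
  have hzx : z ∈ CubeHom.Z ℤ (n : ℤ) Set.univ (inChart φ {0})ᶜ :=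
    Z_mono le_rfl (Set.empty_subset _) hz.mem
  obtain ⟨s, hs⟩ := loc_gen hψ.isOpen_range φ isCompact_singleton (convex_singleton 0)
    (Set.singleton_nonempty 0) (by
      rintro x rfl i
      simp) hzx
  rw [hK] at hs
  have hrs : r * s = 1 := by
    have h1 : CubeHom.Bd ℤ (n : ℤ) Set.univ (inChart φ {0})ᶜ ((1 - r * s) • locCh ℤ φ) := by
      rw [hK]
      have h2 := (hB.add (hr.mono le_rfl (Set.empty_subset _))).add (hs.smul r)
      have e2 : (locCh ℤ φ - push (atTime H 0) (Finsupp.single (idCube n) 1)) +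
          (push (atTime H 0) (Finsupp.single (idCube n) 1) - r • z) + r • (z - s • locCh ℤ φ) =
            (1 - r * s) • locCh ℤ φ := by
        rw [smul_sub, sub_smul, one_smul, mul_smul]
        abel
      rw [e2] at h2
      exact h2
    have h2 := loc_free hψ.isOpen_range φ isCompact_singleton (convex_singleton 0)
      (Set.singleton_nonempty 0) (by
        rintro x rfl i
        simp) h1
    linarith
  rcases Int.eq_one_or_neg_one_of_mul_eq_one hrs with h | h
  · left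
    rw [h, one_smul] at hr
    exact hr
  · right
    rw [h, neg_one_smul, sub_neg_eq_add] at hr
    exact hr

end

theorem top_Z {X : Type} [TopologicalSpace X] (R : Type) [CommRing R] (k : ℤ) :
    (CS.top X).Z R k = CubeHom.Z R k Set.univ ∅ := by
  have h1 : (CS.top X).C R k = CubeHom.C R k Set.univ := by
    unfold CS.C CubeHom.C CS.top
    congr 1
    ext σ
    simp
  have h2 : ∀ k : ℤ, (CS.top X).Q R k = CubeHom.Q R k (∅ : Set X) := by
    intro k
    unfold CS.Q CubeHom.Q CS.top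
    congr 1
    ext σ
    simp only [Set.mem_ofPred_eq, Set.mem_empty_iff_false, forall_const, true_and, false_or]
  unfold CS.Z CubeHom.Z
  rw [h1, h2]

/-- The collapse with all its properties. -/
theorem exists_collapse3 :
    ∃ (α : C(Fin 2 → I, Sph 2)) (y0 : Sph 2), (∀ v ∈ bd2, α v = y0) ∧
      Function.Surjective α ∧
      (∀ (Y : Type) [TopologicalSpace Y] (f : C(Fin 2 → I, Y)) (x0 : Y), (∀ v ∈ bd2, f v = x0) →
        ∃ f' : C(Sph 2, Y), f'.comp α = f) ∧
      ∀ (z : Ch ℤ (Sph 2)), FCyc 2 z →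
        (CubeHom.Bd ℤ (2 : ℤ) Set.univ ∅ (push α (Finsupp.single (idCube 2) 1) - z) ∨
          CubeHom.Bd ℤ (2 : ℤ) Set.univ ∅ (push α (Finsupp.single (idCube 2) 1) + z)) := by
  let y0 : Sph 2 := ⟨EuclideanSpace.single 0 1, by simp⟩
  obtain ⟨L⟩ := exists_L 2 y0
  refine ⟨atTime (HH y0 L) 0, y0, fun v hv => col_bdry y0 L hv, col_surj y0 L, ?_, ?_⟩
  · intro Y _ f x0 hf
    have hq : IsQuotientMap (atTime (HH y0 L) 0) :=
      (atTime (HH y0 L) 0).continuous.isClosedMap.isQuotientMap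
        (atTime (HH y0 L) 0).continuous (col_surj y0 L)
    refine ⟨hq.lift f ?_, hq.lift_comp f _⟩
    intro u v huv
    rcases col_inj y0 L huv with h | ⟨h1, h2⟩
    · rw [h]
    · rw [hf u h1, hf v h2]
  · intro z hz
    exact_mod_cast col_deg y0 L le_rfl hz

end WU4Aux

/-- The square modulo its boundary is the sphere. -/
theorem exists_collapse2 :
    ∃ (α : C(Fin 2 → I, Sph 2)) (y0 : Sph 2), (∀ v ∈ bd2, α v = y0) ∧
      (∀ (Y : Type) [TopologicalSpace Y] (f : C(Fin 2 → I, Y)) (x0 : Y), (∀ v ∈ bd2, f v = x0) →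
        ∃ f' : C(Sph 2, Y), f'.comp α = f) ∧
      ∀ (z : Ch ℤ (Sph 2)), FCyc 2 z →
        (CubeHom.Bd ℤ (2 : ℤ) Set.univ ∅ (push α (Finsupp.single (idCube 2) 1) - z) ∨
          CubeHom.Bd ℤ (2 : ℤ) Set.univ ∅ (push α (Finsupp.single (idCube 2) 1) + z)) := by
  obtain ⟨α, y0, h1, _, h3, h4⟩ := WU4Aux.exists_collapse3
  exact ⟨α, y0, h1, h3, h4⟩

/-- Frames over the two-sphere. -/
theorem frame_sphere {N m : ℕ} {F : Type} [TopologicalSpace F]
    (P : C(F, Matrix (Fin N) (Fin N) ℂ))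
    (h : ∀ x, ∃ (s : Matrix (Fin N) (Fin m) ℂ) (t : Matrix (Fin m) (Fin N) ℂ),
      IsFrame (P x) s t)
    {K : ℤ} (hK : K ≠ 0) (hH : ∀ c ∈ (CS.top F).Z ℤ 2, (CS.top F).Bd ℤ 2 (K • c))
    (f : C(Sph 2, F)) :
    ∃ (s : C(Sph 2, Matrix (Fin N) (Fin m) ℂ)) (t : C(Sph 2, Matrix (Fin m) (Fin N) ℂ)),
      ∀ v, IsFrame (P (f v)) (s v) (t v) := by
  obtain ⟨c, hc, hcf⟩ := exists_chern P h
  obtain ⟨α, y0, h1, h2, h3, _⟩ := WU4Aux.exists_collapse3
  have hcyc : push (f.comp α) (Finsupp.single (idCube 2) 1) ∈ (CS.top F).Z ℤ 2 := by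
    have h4 := WU4Aux.col_mem le_rfl (f.comp α) (f y0) (fun v hv => by
      rw [ContinuousMap.comp_apply, h1 v hv])
    rw [WU4Aux.top_Z]
    exact_mod_cast h4
  have h5 : Finsupp.linearCombination ℤ c
      (K • push (f.comp α) (Finsupp.single (idCube 2) 1)) = 0 :=
    coc_bd (CS.top F) hc (by exact_mod_cast hH _ hcyc)
  rw [map_smul, push_single, Finsupp.linearCombination_single, one_smul, smul_eq_mul] at h5
  have h6 : c ((f.comp α).comp (idCube 2)) = 0 := (mul_eq_zero.1 h5).resolve_left hK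
  obtain ⟨s, t, s0, t0, hst, hb⟩ := hcf (f.comp α) (f y0) (fun v hv => by
    rw [ContinuousMap.comp_apply, h1 v hv]) h6
  obtain ⟨s', hs'⟩ := h3 _ s s0 fun v hv => (hb v hv).1
  obtain ⟨t', ht'⟩ := h3 _ t t0 fun v hv => (hb v hv).2
  refine ⟨s', t', fun v => ?_⟩
  obtain ⟨u, rfl⟩ := h2 v
  have e1 : s' (α u) = s u := DFunLike.congr_fun hs' u
  have e2 : t' (α u) = t u := DFunLike.congr_fun ht' u
  rw [e1, e2]
  exact hst u

end Pool.Agent.TC
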