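import Pool.Agent.Lib.TC.Main

/-!
# Section 10.5: the vanishing of `Sq^2` in dimension five, definitions
-/

namespace Pool.Agent.TC

open CubeHom
open scoped Manifold ContDiff

/-- `s`, `t` are a frame of the image of the projection `P` and its dual. -/
structure IsFrame {N m : ℕ} (P : Matrix (Fin N) (Fin N) ℂ) (s : Matrix (Fin N) (Fin m) ℂ)
    (t : Matrix (Fin m) (Fin N) ℂ) : Prop where
  left : t * s = 1
  right : s * t = P

/-- The boundary of the square. -/
def bd2 : Set (Fin 2 → I) := {v | ∃ i, v i = 0 ∨ v i = 1}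

/-- The real map of a complex frame and a real direction. -/
noncomputable def tmap {n m : ℕ} (s : Matrix (Fin (n + 1)) (Fin m) ℂ)
    (x : EuclideanSpace ℝ (Fin (n + 1))) (q : (Fin m → ℂ) × ℝ) :
    EuclideanSpace ℝ (Fin (n + 1)) :=
  WithLp.toLp 2 (fun i => ((s.mulVec q.1) i).re + q.2 * x i)

/-- The normal bundle of the fixed point set, with its complex structure, as a family of complex
projections: `P x = ∑_{0<j<p/2} (1/p) ∑_i ζ^{-ij} A_x^i`, `A_x` the differential at `x` of the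
radial extension of the generator. `tmap s x` is an isomorphism of `ℂ^m × ℝ` to the sum of the
normal space and `ℝ x`. -/
structure NDat {n : ℕ} (F : Type) [TopologicalSpace F] (ι : F → EuclideanSpace ℝ (Fin (n + 1)))
    (m : ℕ) (P : C(F, Matrix (Fin (n + 1)) (Fin (n + 1)) ℂ)) : Prop where
  cont : Continuous ι
  frame : ∀ x, ∃ (s : Matrix (Fin (n + 1)) (Fin m) ℂ) (t : Matrix (Fin m) (Fin (n + 1)) ℂ),
    IsFrame (P x) s t
  inj : ∀ x s t, IsFrame (m := m) (P x) s t → Function.Injective (tmap s (ι x))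
  near : ∃ O : Set (F × F), IsOpen O ∧ (∀ x, (x, x) ∈ O) ∧ ∀ x y, (y, x) ∈ O →
    ∀ s t, IsFrame (m := m) (P x) s t → ∀ q, ι y - ι x = tmap s (ι x) q → y = x
  local_emb : ∀ x s t, IsFrame (m := m) (P x) s t → ∃ U : Set F, IsOpen U ∧ x ∈ U ∧
    Topology.IsOpenEmbedding (fun q : U × ((Fin m → ℂ) × ℝ) =>
      (ι q.1 - ι x) + tmap s (ι x) q.2)

section thom

variable {F : Type} [TopologicalSpace F] [T2Space F] [CompactSpace F] {n m d : ℕ}
  {ι : F → EuclideanSpace ℝ (Fin (n + 1))}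
  {P : C(F, Matrix (Fin (n + 1)) (Fin (n + 1)) ℂ)}

/-- The map `(y, v) ↦ (y, f v)`. -/
def idx (f : C(Sph 2, F)) : C(F × Sph 2, F × F) := ⟨fun q => (q.1, f q.2), by fun_prop⟩

/-- Off the graph. -/
abbrev offG (f : C(Sph 2, F)) : CS (F × Sph 2) :=
  CS.mk' {Set.univ} {{q : F × Sph 2 | q.1 ≠ f q.2}}

/-- The Poincare dual cocycle of a two-chain. -/
noncomputable def pdc (μ : C(Cb, F × F) → ZMod 2) (j : ℕ) (c : Ch (ZMod 2) F) :
    C(Cb, F) → ZMod 2 := fun σ =>
  Finsupp.linearCombination (ZMod 2) μ (cr j (Finsupp.single σ 1) c)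

end thom

end Pool.Agent.TC
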