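import Pool.Agent.Lib.TC.ZDD

/-!
# Section 9: zero divisors
-/

namespace Pool.Agent.TC

open CubeHom

variable {F : Type} [TopologicalSpace F]

namespace ZD1Aux

section general

variable {X : Type} [TopologicalSpace X] {A A' A'' : Type}
  [AddCommGroup A] [AddCommGroup A'] [AddCommGroup A'']

theorem card_wfr {n : ℕ} {H : Finset ℕ} (hH : H ⊆ Finset.range n) :
    ((Finset.range n).filter (fun i => wfr H i = none)).card = H.card := by
  congr 1
  ext i
  rw [Finset.mem_filter, Finset.mem_range]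
  constructor
  · rintro ⟨_, h⟩
    by_contra hi
    simp [wfr, hi] at h
  · intro h
    exact ⟨Finset.mem_range.1 (hH h), by simp [wfr, h]⟩

theorem card_wbk {n : ℕ} {H : Finset ℕ} (hH : H ⊆ Finset.range n) :
    ((Finset.range n).filter (fun i => wbk H i = none)).card = n - H.card := by
  have h1 : (Finset.range n).filter (fun i => wbk H i = none) = Finset.range n \ H := by
    ext i
    rw [Finset.mem_filter, Finset.mem_sdiff]
    refine and_congr_right fun _ => ?_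
    by_cases hi : i ∈ H <;> simp [wbk, hi]
  rw [h1, Finset.card_sdiff_of_subset hH, Finset.card_range]

theorem cup_congr (β : A →+ A' →+ A'') {p q n : ℕ} (hn : n = p + q) {u u' : C(Cb, X) → A}
    {v v' : C(Cb, X) → A'} {σ : C(Cb, X)} (hσ : IsCube (n : ℤ) σ)
    (hu : ∀ τ, IsCube (p : ℤ) τ → u τ = u' τ) (hv : ∀ τ, IsCube (q : ℤ) τ → v τ = v' τ) :
    cup β p q u v σ = cup β p q u' v' σ := by
  subst hn
  refine Finset.sum_congr rfl fun H hH => ?_
  rw [Finset.mem_powersetCard] at hH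
  have h1 := isCube_fc (w := wfr H) hσ
  have h2 := isCube_fc (w := wbk H) hσ
  rw [card_wfr hH.1, hH.2] at h1
  rw [card_wbk hH.1, hH.2, Nat.add_sub_cancel_left] at h2
  rw [hu _ h1, hv _ h2]

theorem cup_zero_left (β : A →+ A' →+ A'') (p q : ℕ) (v : C(Cb, X) → A') (σ : C(Cb, X)) :
    cup β p q (fun _ => 0) v σ = 0 := by
  simp [cup]

theorem cup_zero_right (β : A →+ A' →+ A'') (p q : ℕ) (u : C(Cb, X) → A) (σ : C(Cb, X)) :
    cup β p q u (fun _ => 0) σ = 0 := by
  simp [cup]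

theorem cup_sub_left (β : A →+ A' →+ A'') (p q : ℕ) (u u' : C(Cb, X) → A)
    (v : C(Cb, X) → A') :
    cup β p q (fun τ => u τ - u' τ) v = fun σ => cup β p q u v σ - cup β p q u' v σ := by
  funext σ
  simp only [cup, map_sub, AddMonoidHom.sub_apply, smul_sub, Finset.sum_sub_distrib]

theorem cup_sub_right (β : A →+ A' →+ A'') (p q : ℕ) (u : C(Cb, X) → A)
    (v v' : C(Cb, X) → A') :
    cup β p q u (fun τ => v τ - v' τ) = fun σ => cup β p q u v σ - cup β p q u v' σ := by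
  funext σ
  simp only [cup, map_sub, smul_sub, Finset.sum_sub_distrib]

theorem dl_sub (k : ℕ) (u u' : C(Cb, X) → A) (σ : C(Cb, X)) :
    dl k (fun τ => u τ - u' τ) σ = dl k u σ - dl k u' σ := by
  simp only [dl, ← Finset.sum_sub_distrib, ← smul_sub]
  refine Finset.sum_congr rfl fun i _ => ?_
  congr 1
  abel

theorem dl_add (k : ℕ) (u u' : C(Cb, X) → A) (σ : C(Cb, X)) :
    dl k (fun τ => u τ + u' τ) σ = dl k u σ + dl k u' σ := by
  simp only [dl, ← Finset.sum_add_distrib, ← smul_add]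
  refine Finset.sum_congr rfl fun i _ => ?_
  congr 1
  abel

theorem dl_smul (k : ℕ) (z : ℤ) (u : C(Cb, X) → A) (σ : C(Cb, X)) :
    dl k (fun τ => z • u τ) σ = z • dl k u σ := by
  simp only [dl, Finset.smul_sum]
  refine Finset.sum_congr rfl fun i _ => ?_
  rw [← smul_sub, smul_comm]

theorem dl_congr (k : ℕ) {u u' : C(Cb, X) → A} {σ : C(Cb, X)}
    (hσ : IsCube ((k + 1 : ℕ) : ℤ) σ) (h : ∀ τ, IsCube (k : ℤ) τ → u τ = u' τ) :
    dl k u σ = dl k u' σ := by
  refine Finset.sum_congr rfl fun i hi => ?_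
  rw [Finset.mem_range] at hi
  have h1 : ∀ e, IsCube (k : ℤ) (σ.comp (ins i e)) := fun e => by
    have := hσ.face (i := i) (by exact_mod_cast hi) e
    rwa [show ((k + 1 : ℕ) : ℤ) - 1 = (k : ℤ) by push_cast; ring] at this
  rw [h _ (h1 1), h _ (h1 0)]

/-- Being a coboundary, with the degree as an equation. -/
def CobT (k : ℕ) (u : C(Cb, X) → A) : Prop := ∃ k', k = k' + 1 ∧ (CS.top X).Cob k' u

theorem cup_top_rel (β : A →+ A' →+ A'') {p q : ℕ} {u : C(Cb, X) → A} {v : C(Cb, X) → A'}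
    (hu : (CS.top X).Rel p u) (hv : (CS.top X).Rel q v) :
    (CS.top X).Rel (p + q) (cup β p q u v) := by
  have h := cup_rel (CS.top X) (CS.top X) rfl β hu hv
  intro σ hσ _ hd
  exact h σ hσ trivial (hd.imp (fun h => Or.inl h) id)

theorem cup_coc (β : A →+ A' →+ A'') {p q : ℕ} {u : C(Cb, X) → A} {v : C(Cb, X) → A'}
    (hu : (CS.top X).Coc p u) (hv : (CS.top X).Coc q v) :
    (CS.top X).Coc (p + q) (cup β p q u v) := by
  refine ⟨cup_top_rel β hu.1 hv.1, fun σ hσ _ => ?_⟩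
  rw [dl_cup β p q u v hσ,
    cup_congr β (show p + q + 1 = p + 1 + q by omega) hσ (u' := fun _ => 0) (v' := v)
      (fun τ hτ => hu.2 τ hτ trivial) (fun _ _ => rfl), cup_zero_left,
    cup_congr β (show p + q + 1 = p + (q + 1) by omega) hσ (u' := u) (v' := fun _ => 0)
      (fun _ _ => rfl) (fun τ hτ => hv.2 τ hτ trivial), cup_zero_right, smul_zero, add_zero]

theorem cob_cup_left (β : A →+ A' →+ A'') {p q : ℕ} {u : C(Cb, X) → A} {v : C(Cb, X) → A'}
    (hu : CobT p u) (hv : (CS.top X).Coc q v) : CobT (p + q) (cup β p q u v) := by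
  obtain ⟨p', rfl, w, hw, huw⟩ := hu
  refine ⟨p' + q, by omega, cup β p' q w v, cup_top_rel β hw hv.1, fun σ hσ _ => ?_⟩
  rw [dl_cup β p' q w v hσ,
    cup_congr β (show p' + q + 1 = p' + (q + 1) by omega) hσ (u' := w) (v' := fun _ => 0)
      (fun _ _ => rfl) (fun τ hτ => hv.2 τ hτ trivial), cup_zero_right, smul_zero, add_zero]
  exact cup_congr β (show p' + q + 1 = p' + 1 + q by omega) hσ
    (fun τ hτ => huw τ hτ trivial) (fun _ _ => rfl)

theorem cob_cup_right (β : A →+ A' →+ A'') {p q : ℕ} {u : C(Cb, X) → A} {v : C(Cb, X) → A'}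
    (hu : (CS.top X).Coc p u) (hv : CobT q v) : CobT (p + q) (cup β p q u v) := by
  obtain ⟨q', rfl, w, hw, hvw⟩ := hv
  refine ⟨p + q', by omega, fun σ => (-1 : ℤ) ^ p • cup β p q' u w σ, ?_, fun σ hσ _ => ?_⟩
  · intro σ hσ h1 h2
    have := cup_top_rel β hu.1 hw σ hσ h1 h2
    simp only [this, smul_zero]
  · rw [dl_smul, dl_cup β p q' u w hσ,
      cup_congr β (show p + q' + 1 = p + 1 + q' by omega) hσ (u' := fun _ => 0) (v' := w)
        (fun τ hτ => hu.2 τ hτ trivial) (fun _ _ => rfl), cup_zero_left, zero_add, smul_smul,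
      ← mul_pow, neg_one_mul, neg_neg, one_pow, one_smul]
    exact cup_congr β (show p + q' + 1 = p + (q' + 1) by omega) hσ
      (fun _ _ => rfl) (fun τ hτ => hvw τ hτ trivial)

theorem eval_cob {R : Type} [CommRing R] {k : ℕ} {u : C(Cb, X) → R} (hu : CobT k u)
    {c : Ch R X} (hc : c ∈ (CS.top X).Z R (k : ℤ)) : Finsupp.linearCombination R u c = 0 := by
  obtain ⟨k', rfl, hu⟩ := hu
  exact cob_cyc (CS.top X) hu hc

theorem lc_sub {R : Type} [CommRing R] (u v : C(Cb, X) → R) (c : Ch R X) :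
    Finsupp.linearCombination R (fun σ => u σ - v σ) c =
      Finsupp.linearCombination R u c - Finsupp.linearCombination R v c := by
  simp only [Finsupp.linearCombination_apply, Finsupp.sum, ← Finset.sum_sub_distrib, ← smul_sub]

end general

section lifts

variable {R : Type} [CommRing R] {U : Set (F × F)}

/-- A cube in `U` as a cube of the subspace. -/
def lift (σ : C(Cb, F × F)) (h : ∀ t, σ t ∈ U) : C(Cb, U) :=
  ⟨fun t => ⟨σ t, h t⟩, σ.continuous.subtype_mk h⟩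

theorem lift_isCube {k : ℤ} {σ : C(Cb, F × F)} (h : ∀ t, σ t ∈ U) (hσ : IsCube k σ) :
    IsCube k (lift σ h) :=
  ⟨hσ.1, fun _ _ hxy => Subtype.ext (hσ.2 hxy)⟩

theorem lift_degen {k : ℤ} {σ : C(Cb, F × F)} (h : ∀ t, σ t ∈ U) (hσ : Degen k σ) :
    Degen k (lift σ h) := by
  obtain ⟨i, hi, hσ⟩ := hσ
  exact ⟨i, hi, fun _ _ hxy => Subtype.ext (hσ hxy)⟩

open Classical in
/-- The cochain `u ∘ prism`, extended by zero. -/
noncomputable def eH (H : C(I × U, F)) (u : C(Cb, F) → R) : C(Cb, F × F) → R := fun σ =>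
  if h : ∀ t, σ t ∈ U then u (H.comp (crossCube 1 iota (lift σ h))) else 0

theorem eH_rel (H : C(I × U, F)) {k : ℕ} {u : C(Cb, F) → R} (hu : (CS.top F).Coc (k + 1) u) :
    (CS.top (F × F)).Rel k (eH H u) := by
  intro σ hσ _ hd
  rcases hd with hd | hd
  · exact hd.elim
  · unfold eH
    split_ifs with h
    · have hi : IsCube ((1 : ℕ) : ℤ) iota := by exact_mod_cast iota_isCube
      have h1 := isCube_cross hi (lift_isCube h hσ)
      have h2 := degen_cross_right hi (lift_degen h hd)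
      rw [show ((1 : ℕ) : ℤ) + (k : ℤ) = ((k + 1 : ℕ) : ℤ) by push_cast; ring] at h1 h2
      exact hu.1 _ (h1.comp H) trivial (Or.inr (h2.comp H))
    · rfl

theorem eH_key (H : C(I × U, F)) (hH : ∀ q : U, H (0, q) = q.1.1 ∧ H (1, q) = q.1.2) {k : ℕ}
    {u : C(Cb, F) → R} (hu : (CS.top F).Coc (k + 1) u) {σ : C(Cb, F × F)}
    (hσ : IsCube ((k + 1 : ℕ) : ℤ) σ) (h : ∀ t, σ t ∈ U) :
    zbar u σ + dl k (eH H u) σ = 0 := by
  have hi : IsCube ((1 : ℕ) : ℤ) iota := by exact_mod_cast iota_isCube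
  have h1 := isCube_cross hi (lift_isCube h hσ)
  rw [show ((1 : ℕ) : ℤ) + ((k + 1 : ℕ) : ℤ) = ((k + 1 + 1 : ℕ) : ℤ) by push_cast; ring] at h1
  have h2 := hu.2 _ (h1.comp H) trivial
  rw [dl, Finset.sum_range_succ'] at h2
  have h3 : ∀ e : I, (H.comp (crossCube 1 iota (lift σ h))).comp (ins 0 e) =
      H.comp ⟨fun t => (e, lift σ h t), by fun_prop⟩ := by
    intro e
    ext t
    simp only [ContinuousMap.comp_apply, crossCube_apply, ContinuousMap.coe_mk]
    have h4 : iota (ins 0 e t) = e := ins_apply_self 0 e t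
    have h5 : drop 1 (ins 0 e t) = t := by
      funext j
      rw [drop_apply, ins_apply_gt (by omega)]
      congr 1
      omega
    rw [h4, h5]
  have h4 : (H.comp (crossCube 1 iota (lift σ h))).comp (ins 0 1) =
      ContinuousMap.snd.comp σ := by
    rw [h3]
    ext t
    exact (hH (lift σ h t)).2
  have h5 : (H.comp (crossCube 1 iota (lift σ h))).comp (ins 0 0) =
      ContinuousMap.fst.comp σ := by
    rw [h3]
    ext t
    exact (hH (lift σ h t)).1
  have h6 : ∀ (i : ℕ) (e : I), (H.comp (crossCube 1 iota (lift σ h))).comp (ins (i + 1) e) =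
      H.comp (crossCube 1 iota (lift (σ.comp (ins i e)) fun t => h _)) := by
    intro i e
    have := cross_ins_right i e (σ := lift σ h) hi
    rw [add_comm 1 i] at this
    rw [ContinuousMap.comp_assoc, this]
    rfl
  have h7 : ∀ (i : ℕ) (e : I), eH H u (σ.comp (ins i e)) =
      u ((H.comp (crossCube 1 iota (lift σ h))).comp (ins (i + 1) e)) := by
    intro i e
    rw [h6]
    have hh : ∀ t, (σ.comp (ins i e)) t ∈ U := fun t => h _
    exact dif_pos hh
  have h8 : ∑ i ∈ Finset.range (k + 1), ((-1 : ℤ) ^ (i + 1)) •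
      (u ((H.comp (crossCube 1 iota (lift σ h))).comp (ins (i + 1) 1)) -
        u ((H.comp (crossCube 1 iota (lift σ h))).comp (ins (i + 1) 0))) =
      - dl k (eH H u) σ := by
    rw [dl, ← Finset.sum_neg_distrib]
    refine Finset.sum_congr rfl fun i _ => ?_
    rw [h7, h7, pow_succ, mul_neg_one, neg_smul]
  rw [h8, h4, h5, pow_zero, one_smul] at h2
  rw [zbar]
  have h9 : u (ContinuousMap.fst.comp σ) - u (ContinuousMap.snd.comp σ) =
      dl k (eH H u) σ * (-1) := by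
    linear_combination -h2
  rw [h9]
  ring

theorem zbar_coc {k : ℕ} {u : C(Cb, F) → R} (hu : (CS.top F).Coc k u) :
    (CS.top (F × F)).Coc k (zbar u) := by
  refine ⟨fun σ hσ _ hd => ?_, fun σ hσ _ => ?_⟩
  · rcases hd with hd | hd
    · exact hd.elim
    · rw [zbar, hu.1 _ (hσ.comp ContinuousMap.fst) trivial (Or.inr (hd.comp ContinuousMap.fst)),
        hu.1 _ (hσ.comp ContinuousMap.snd) trivial (Or.inr (hd.comp ContinuousMap.snd)), sub_zero]
  · have h : dl k (zbar u) σ = dl k u (ContinuousMap.fst.comp σ) -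
        dl k u (ContinuousMap.snd.comp σ) :=
      dl_sub k (pb ContinuousMap.fst u) (pb ContinuousMap.snd u) σ
    rw [h, hu.2 _ (hσ.comp ContinuousMap.fst) trivial, hu.2 _ (hσ.comp ContinuousMap.snd) trivial,
      sub_zero]

/-- The system of all cubes where the cubes in `U` are zero. -/
def sysU (U : Set (F × F)) : CS (F × F) :=
  ⟨fun _ => True, fun σ => ∀ t, σ t ∈ U, fun _ _ _ => trivial, fun _ f h t => h (f t)⟩

/-- A cocycle cohomologous to `zbar u` which vanishes on the cubes in `U`. -/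
theorem exists_modification (H : C(I × U, F)) (hH : ∀ q : U, H (0, q) = q.1.1 ∧ H (1, q) = q.1.2)
    {k : ℕ} (hk : 1 ≤ k) {u : C(Cb, F) → R} (hu : (CS.top F).Coc k u) :
    ∃ b : C(Cb, F × F) → R, (CS.top (F × F)).Coc k b ∧ (sysU U).Rel k b ∧
      CobT k (fun σ => zbar u σ - b σ) := by
  obtain ⟨k, rfl⟩ : ∃ k', k = k' + 1 := ⟨k - 1, by omega⟩
  have he := eH_rel H hu
  have hz := zbar_coc hu
  have hrel : (CS.top (F × F)).Rel (k + 1) (fun σ => zbar u σ + dl k (eH H u) σ) := by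
    intro σ hσ h1 h2
    have h3 := hz.1 σ hσ h1 h2
    have h4 := dl_rel (CS.top (F × F)) he σ hσ h1 h2
    simp only [h3, h4, add_zero]
  refine ⟨fun σ => zbar u σ + dl k (eH H u) σ, ⟨hrel, fun σ hσ _ => ?_⟩, fun σ hσ _ hd => ?_,
    k, rfl, fun σ => - eH H u σ, ?_, fun σ hσ _ => ?_⟩
  · rw [dl_add, dl_dl, hz.2 σ hσ trivial, add_zero]
  · rcases hd with hd | hd
    · exact eH_key H hH hu hσ hd
    · exact hrel σ hσ trivial (Or.inr hd)
  · intro σ hσ h1 h2
    have := he σ hσ h1 h2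
    simp only [this, neg_zero]
  · have h := dl_smul k (-1) (eH H u) σ
    simp only [neg_smul, one_smul] at h
    rw [h]
    ring

end lifts

end ZD1Aux

/-- The product of three zero divisors is zero if `TC(F) ≤ 2`. -/
theorem zd_vanish {R : Type} [CommRing R] (hF : TC0le F 2) {i j l : ℕ} (hi : 1 ≤ i) (hj : 1 ≤ j)
    (hl : 1 ≤ l) {u v w : C(Cb, F) → R} (hu : (CS.top F).Coc i u) (hv : (CS.top F).Coc j v)
    (hw : (CS.top F).Coc l w) {c : Ch R (F × F)}
    (hc : c ∈ (CS.top (F × F)).Z R ((i + j + l : ℕ) : ℤ)) :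
    Finsupp.linearCombination R
      (cup AddMonoidHom.mul (i + j) l (cup AddMonoidHom.mul i j (zbar u) (zbar v)) (zbar w))
        c = 0 := by
  obtain ⟨U, hUo, hUc, hU⟩ := hF
  obtain ⟨H0, hH0⟩ := hU 0
  obtain ⟨H1, hH1⟩ := hU 1
  obtain ⟨H2, hH2⟩ := hU 2
  obtain ⟨b0, hb0, hr0, hd0⟩ := ZD1Aux.exists_modification H0 hH0 hi hu
  obtain ⟨b1, hb1, hr1, hd1⟩ := ZD1Aux.exists_modification H1 hH1 hj hv
  obtain ⟨b2, hb2, hr2, hd2⟩ := ZD1Aux.exists_modification H2 hH2 hl hw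
  have hz1 := ZD1Aux.zbar_coc hv
  have hz2 := ZD1Aux.zbar_coc hw
  -- replace the three factors one after the other
  have e0 := ZD1Aux.eval_cob (ZD1Aux.cob_cup_left AddMonoidHom.mul
    (ZD1Aux.cob_cup_left AddMonoidHom.mul hd0 hz1) hz2) hc
  have e1 := ZD1Aux.eval_cob (ZD1Aux.cob_cup_left AddMonoidHom.mul
    (ZD1Aux.cob_cup_right AddMonoidHom.mul hb0 hd1) hz2) hc
  have e2 := ZD1Aux.eval_cob (ZD1Aux.cob_cup_right AddMonoidHom.mul
    (ZD1Aux.cup_coc AddMonoidHom.mul hb0 hb1) hd2) hc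
  rw [ZD1Aux.cup_sub_left, ZD1Aux.cup_sub_left, ZD1Aux.lc_sub, sub_eq_zero] at e0
  rw [ZD1Aux.cup_sub_right, ZD1Aux.cup_sub_left, ZD1Aux.lc_sub, sub_eq_zero] at e1
  rw [ZD1Aux.cup_sub_right, ZD1Aux.lc_sub, sub_eq_zero] at e2
  rw [e0, e1, e2]
  -- the modified product is a cocycle which vanishes on small cubes
  have hT := ZD1Aux.cup_coc AddMonoidHom.mul (ZD1Aux.cup_coc AddMonoidHom.mul hb0 hb1) hb2
  have hV : ∀ V ∈ Set.range U, IsOpen V := by
    rintro _ ⟨m, rfl⟩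
    exact hUo m
  have hcov : ⋃₀ Set.range U = Set.univ := by
    rw [Set.sUnion_range]
    exact hUc
  obtain ⟨c', hc', hcc'⟩ := small_cycle hV hcov hc
  have h1 := coc_bd (CS.top (F × F)) hT hcc'
  rw [map_sub, sub_eq_zero] at h1
  rw [h1]
  have hr01 := cup_rel (ZD1Aux.sysU (U 0)) (ZD1Aux.sysU (U 1)) rfl AddMonoidHom.mul hr0 hr1
  have hr := cup_rel _ (ZD1Aux.sysU (U 2)) (by rfl) AddMonoidHom.mul hr01 hr2
  have h2 : c' ∈ Finsupp.supported R R {σ : C(Cb, F × F) | IsCube ((i + j + l : ℕ) : ℤ) σ ∧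
      ∃ V ∈ Set.range U, ∀ u, σ u ∈ V} := hc'.1
  rw [Finsupp.mem_supported] at h2
  rw [Finsupp.linearCombination_apply, Finsupp.sum]
  refine Finset.sum_eq_zero fun σ hσ => ?_
  obtain ⟨hσ1, V, ⟨m, rfl⟩, hσ2⟩ := h2 hσ
  have h3 : cup AddMonoidHom.mul (i + j) l (cup AddMonoidHom.mul i j b0 b1) b2 σ = 0 := by
    refine hr σ hσ1 trivial (Or.inl ?_)
    fin_cases m
    · exact Or.inl (Or.inl hσ2)
    · exact Or.inl (Or.inr hσ2)
    · exact Or.inr hσ2
  rw [h3, smul_zero]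

end Pool.Agent.TC
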