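import Pool.Agent.Lib.TC.ZD1

/-!
# Section 9, rows ZD2: `zd_off`, `zd_two`
-/

namespace Pool.Agent.TC

open CubeHom

variable {F : Type} [TopologicalSpace F]

namespace ZD2Aux

section

variable {X Y : Type*} [TopologicalSpace X] [TopologicalSpace Y] {R : Type*} [CommRing R]

theorem C_top (k : ℤ) : (CS.top X).C R k = CubeHom.C R k Set.univ := by
  unfold CS.C CubeHom.C
  congr 1
  ext σ
  simp [CS.top]

theorem Q_top (k : ℤ) : (CS.top X).Q R k = CubeHom.Q R k ∅ := by
  unfold CS.Q CubeHom.Q
  congr 1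
  ext σ
  simp [CS.top]

theorem Z_top (k : ℤ) : (CS.top X).Z R k = CubeHom.Z R k Set.univ ∅ := by
  unfold CS.Z CubeHom.Z
  rw [C_top, Q_top]

theorem fc_id {n : ℕ} {w : ℕ → Option Bool} (h : ∀ j < n, w j = none) :
    fc n w = ContinuousMap.id _ := by
  ext u j : 2
  by_cases hj : j < n
  · have e : (Finset.range j).filter (fun i => w i = none) = Finset.range j := by
      refine Finset.filter_true_of_mem fun i hi => h i ?_
      rw [Finset.mem_range] at hi
      omega
    simp [fc, hj, h j hj, e]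
  · have e : (Finset.range n).filter (fun i => w i ≠ none) = ∅ := by
      refine Finset.filter_false_of_mem fun i hi => ?_
      rw [Finset.mem_range] at hi
      simp [h i hi]
    simp only [fc, ContinuousMap.coe_mk, hj, if_false, e, Finset.card_empty, Nat.sub_zero,
      ContinuousMap.id_apply]

theorem cup_one_right (p : ℕ) (u : C(Cb, X) → R) :
    cup AddMonoidHom.mul p 0 u (fun _ => (1 : R)) = u := by
  funext σ
  have e1 : (Finset.range (p + 0)).powersetCard p = {Finset.range p} := by
    have := Finset.powersetCard_self (Finset.range p)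
    rwa [Finset.card_range] at this
  have e2 : sgnS (p + 0) (Finset.range p) = 1 := by
    unfold sgnS
    rw [Finset.filter_false_of_mem, Finset.card_empty, pow_zero]
    rintro ⟨a, b⟩ h
    rw [Finset.mem_product] at h
    intro h'
    exact h'.1 h.1
  have e3 : fc (p + 0) (wfr (Finset.range p)) = ContinuousMap.id _ := by
    refine fc_id fun j hj => ?_
    simp only [wfr]
    rw [if_pos]
    rw [Finset.mem_range]
    omega
  unfold cup
  rw [e1, Finset.sum_singleton, e2, e3, ContinuousMap.comp_id, one_smul]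
  simp

theorem cup_one_left (q : ℕ) (v : C(Cb, X) → R) :
    cup AddMonoidHom.mul 0 q (fun _ => (1 : R)) v = v := by
  funext σ
  have e2 : sgnS (0 + q) ∅ = 1 := by
    unfold sgnS
    rw [Finset.filter_false_of_mem, Finset.card_empty, pow_zero]
    rintro ⟨a, b⟩ h h'
    simp at h'
  have e3 : fc (0 + q) (wbk ∅) = ContinuousMap.id _ := by
    refine fc_id fun j hj => ?_
    simp [wbk]
  unfold cup
  rw [Finset.powersetCard_zero, Finset.sum_singleton, e2, e3, ContinuousMap.comp_id, one_smul]
  simp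

theorem cup_sub_left (p q : ℕ) (u u' v : C(Cb, X) → R) :
    cup AddMonoidHom.mul p q (u - u') v =
      cup AddMonoidHom.mul p q u v - cup AddMonoidHom.mul p q u' v := by
  funext σ
  simp only [cup, Pi.sub_apply, map_sub, AddMonoidHom.sub_apply, smul_sub,
    Finset.sum_sub_distrib]

theorem cup_sub_right (p q : ℕ) (u v v' : C(Cb, X) → R) :
    cup AddMonoidHom.mul p q u (v - v') =
      cup AddMonoidHom.mul p q u v - cup AddMonoidHom.mul p q u v' := by
  funext σ
  simp only [cup, Pi.sub_apply, map_sub, smul_sub, Finset.sum_sub_distrib]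

theorem cup_const_left (p q : ℕ) (s : R) (u v : C(Cb, X) → R) :
    cup AddMonoidHom.mul p q (fun σ => s * u σ) v =
      fun σ => s * cup AddMonoidHom.mul p q u v σ := by
  funext σ
  simp only [cup, AddMonoidHom.mul_apply, Finset.mul_sum]
  refine Finset.sum_congr rfl fun H _ => ?_
  rw [mul_assoc, mul_smul_comm]

theorem lc_sub (f g : C(Cb, X) → R) (c : Ch R X) :
    Finsupp.linearCombination R (f - g) c =
      Finsupp.linearCombination R f c - Finsupp.linearCombination R g c := by
  simp only [Finsupp.linearCombination_apply, Finsupp.sum, Pi.sub_apply, smul_sub,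
    Finset.sum_sub_distrib]

theorem lc_const (s : R) (f : C(Cb, X) → R) (c : Ch R X) :
    Finsupp.linearCombination R (fun σ => s * f σ) c =
      s * Finsupp.linearCombination R f c := by
  simp only [Finsupp.linearCombination_apply, Finsupp.sum, smul_eq_mul, Finset.mul_sum]
  refine Finset.sum_congr rfl fun σ _ => ?_
  ring

/-- The pull back along the first or second projection. -/
def pe (e : Bool) (u : C(Cb, X) → R) : C(Cb, X × X) → R :=
  if e then pb ContinuousMap.fst u else pb ContinuousMap.snd u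

/-- The degree of the factor. -/
def dg (e : Bool) (i : ℕ) : ℕ := if e then i else 0

/-- The factor. -/
def fa (e : Bool) (u : C(Cb, X) → R) : C(Cb, X) → R := if e then u else fun _ => 1

theorem dg_add (e : Bool) (i : ℕ) : dg e i + dg (!e) i = i := by
  cases e <;> simp [dg]

theorem bi_pe {i : ℕ} {u : C(Cb, X) → R} (hu : (CS.top X).Rel i u) (e : Bool) :
    Bi R (dg e i) (dg (!e) i) (fa e u) (fa (!e) u) (pe e u) := by
  cases e
  · exact bi_snd hu
  · exact bi_fst hu

/-- The value of a triple product on a cross product. -/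
theorem triple {i j l : ℕ} {u v w : C(Cb, X) → R} (hu : (CS.top X).Rel i u)
    (hv : (CS.top X).Rel j v) (hw : (CS.top X).Rel l w) (e₁ e₂ e₃ : Bool) {m n : ℕ}
    (hmn : m + n = i + j + l) {x y : Ch R X}
    (hx : x ∈ CubeHom.C R (m : ℤ) Set.univ) (hy : y ∈ CubeHom.C R (n : ℤ) Set.univ) :
    (-1 : R) ^ ((dg (!e₁) i + dg (!e₂) j) * dg e₃ l) * ((-1 : R) ^ (dg (!e₁) i * dg e₂ j) *
      Finsupp.linearCombination R (cup AddMonoidHom.mul (i + j) l
        (cup AddMonoidHom.mul i j (pe e₁ u) (pe e₂ v)) (pe e₃ w)) (cr m x y)) =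
      if m = dg e₁ i + dg e₂ j + dg e₃ l then
        Finsupp.linearCombination R (cup AddMonoidHom.mul (dg e₁ i + dg e₂ j) (dg e₃ l)
          (cup AddMonoidHom.mul (dg e₁ i) (dg e₂ j) (fa e₁ u) (fa e₂ v)) (fa e₃ w)) x *
        Finsupp.linearCombination R (cup AddMonoidHom.mul (dg (!e₁) i + dg (!e₂) j) (dg (!e₃) l)
          (cup AddMonoidHom.mul (dg (!e₁) i) (dg (!e₂) j) (fa (!e₁) u) (fa (!e₂) v))
            (fa (!e₃) w)) y else 0 := by
  have h := bi_cup (bi_cup (bi_pe hu e₁) (bi_pe hv e₂)) (bi_pe hw e₃)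
  have e : dg e₁ i + dg e₂ j + (dg (!e₁) i + dg (!e₂) j) = i + j := by
    have h1 := dg_add e₁ i
    have h2 := dg_add e₂ j
    omega
  rw [dg_add, dg_add, dg_add, e, cup_const_left] at h
  have h1 := bi_eval h (m := m) (l := n) (x := x) (y := y) (by
    have h1 := dg_add e₁ i
    have h2 := dg_add e₂ j
    have h3 := dg_add e₃ l
    omega) hx hy
  rw [lc_const, lc_const] at h1
  exact h1

theorem sq_one (k : ℕ) : (-1 : R) ^ k * (-1 : R) ^ k = 1 := by
  rw [← mul_pow]
  simp

theorem triple_zero {i j l : ℕ} {u v w : C(Cb, X) → R} (hu : (CS.top X).Rel i u)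
    (hv : (CS.top X).Rel j v) (hw : (CS.top X).Rel l w) (e₁ e₂ e₃ : Bool) {m n : ℕ}
    (hmn : m + n = i + j + l) {x y : Ch R X}
    (hx : x ∈ CubeHom.C R (m : ℤ) Set.univ) (hy : y ∈ CubeHom.C R (n : ℤ) Set.univ)
    (hne : m ≠ dg e₁ i + dg e₂ j + dg e₃ l) :
    Finsupp.linearCombination R (cup AddMonoidHom.mul (i + j) l
        (cup AddMonoidHom.mul i j (pe e₁ u) (pe e₂ v)) (pe e₃ w)) (cr m x y) = 0 := by
  have h := triple hu hv hw e₁ e₂ e₃ hmn hx hy
  rw [if_neg hne] at h
  have h1 := congrArg (fun t => (-1 : R) ^ (dg (!e₁) i * dg e₂ j) *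
    ((-1 : R) ^ ((dg (!e₁) i + dg (!e₂) j) * dg e₃ l) * t)) h
  simp only [mul_zero] at h1
  rw [← mul_assoc ((-1 : R) ^ ((dg (!e₁) i + dg (!e₂) j) * dg e₃ l)), sq_one, one_mul,
    ← mul_assoc, sq_one, one_mul] at h1
  exact h1

theorem triple_ttf {i j l : ℕ} {u v w : C(Cb, X) → R} (hu : (CS.top X).Rel i u)
    (hv : (CS.top X).Rel j v) (hw : (CS.top X).Rel l w) {x y : Ch R X}
    (hx : x ∈ CubeHom.C R ((i + j : ℕ) : ℤ) Set.univ)
    (hy : y ∈ CubeHom.C R (l : ℤ) Set.univ) :
    Finsupp.linearCombination R (cup AddMonoidHom.mul (i + j) l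
        (cup AddMonoidHom.mul i j (pe true u) (pe true v)) (pe false w)) (cr (i + j) x y) =
      Finsupp.linearCombination R (cup AddMonoidHom.mul i j u v) x *
        Finsupp.linearCombination R w y := by
  have h := triple hu hv hw true true false (m := i + j) (n := l) rfl hx hy
  simp only [dg, fa, Bool.not_true, Bool.not_false, if_true, Bool.false_eq_true, if_false,
    Nat.add_zero, Nat.zero_mul, Nat.mul_zero, pow_zero, one_mul, cup_one_left,
    cup_one_right] at h
  exact h

theorem triple_fft {i j : ℕ} {u v w : C(Cb, X) → R} (hu : (CS.top X).Rel i u)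
    (hv : (CS.top X).Rel j v) (hw : (CS.top X).Rel (i + j) w) (hodd : Odd (i + j)) {x y : Ch R X}
    (hx : x ∈ CubeHom.C R ((i + j : ℕ) : ℤ) Set.univ)
    (hy : y ∈ CubeHom.C R ((i + j : ℕ) : ℤ) Set.univ) :
    Finsupp.linearCombination R (cup AddMonoidHom.mul (i + j) (i + j)
        (cup AddMonoidHom.mul i j (pe false u) (pe false v)) (pe true w)) (cr (i + j) x y) =
      - (Finsupp.linearCombination R w x *
        Finsupp.linearCombination R (cup AddMonoidHom.mul i j u v) y) := by
  have h := triple hu hv hw false false true (m := i + j) (n := i + j) rfl hx hy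
  simp only [dg, fa, Bool.not_true, Bool.not_false, if_true, Bool.false_eq_true, if_false,
    Nat.add_zero, Nat.zero_add, Nat.mul_zero, pow_zero, one_mul, cup_one_left,
    cup_one_right, (hodd.mul hodd).neg_one_pow] at h
  rw [← h]
  ring

/-- The expansion of the product of three zero divisors. -/
theorem expand {F : Type} [TopologicalSpace F] {R : Type} [CommRing R] (i j l : ℕ)
    (u v w : C(Cb, F) → R) (c : Ch R (F × F)) :
    Finsupp.linearCombination R
      (cup AddMonoidHom.mul (i + j) l (cup AddMonoidHom.mul i j (zbar u) (zbar v)) (zbar w))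
        c =
      let T : Bool → Bool → Bool → R := fun e₁ e₂ e₃ =>
        Finsupp.linearCombination R (cup AddMonoidHom.mul (i + j) l
          (cup AddMonoidHom.mul i j (pe e₁ u) (pe e₂ v)) (pe e₃ w)) c
      T true true true - T true true false - (T true false true - T true false false) -
        (T false true true - T false true false - (T false false true - T false false false)) := by
  have hz : ∀ t : C(Cb, F) → R, zbar t = pe true t - pe false t := fun t => rfl
  simp only [hz, cup_sub_left, cup_sub_right, lc_sub]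
  ring

end

end ZD2Aux

/-- 9.1: evaluate on `ξ × b`. -/
theorem zd_off {R : Type} [CommRing R] (hF : TC0le F 2) {i j l : ℕ} (hi : 1 ≤ i) (hj : 1 ≤ j)
    (hl : 1 ≤ l) (h1 : l ≠ i) (h2 : l ≠ j) (h3 : l ≠ i + j)
    {u v w : C(Cb, F) → R} (hu : (CS.top F).Coc i u) (hv : (CS.top F).Coc j v)
    (hw : (CS.top F).Coc l w) {ξ b : Ch R F} (hξ : ξ ∈ (CS.top F).Z R ((i + j : ℕ) : ℤ))
    (hb : b ∈ (CS.top F).Z R (l : ℤ)) :
    Finsupp.linearCombination R (cup AddMonoidHom.mul i j u v) ξ *
      Finsupp.linearCombination R w b = 0 := by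
  have hξ' := hξ
  have hb' := hb
  rw [ZD2Aux.Z_top] at hξ' hb'
  have hc : cr (i + j) ξ b ∈ (CS.top (F × F)).Z R ((i + j + l : ℕ) : ℤ) := by
    rw [ZD2Aux.Z_top]
    have := CubeHom.cr_mem_Z (W := Set.univ) (A' := (∅ : Set (F × F))) hξ' hb' (by simp) (by simp)
      (by simp)
    exact_mod_cast this
  have h := zd_vanish hF hi hj hl hu hv hw hc
  rw [ZD2Aux.expand] at h
  have hz := fun e₁ e₂ e₃ => ZD2Aux.triple_zero hu.1 hv.1 hw.1 e₁ e₂ e₃ (m := i + j) (n := l)
    rfl hξ'.1 hb'.1
  simp only at h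
  rw [hz true true true (by simp only [ZD2Aux.dg]; simp; omega),
    hz true false true (by simp only [ZD2Aux.dg]; simp; omega),
    hz true false false (by simp only [ZD2Aux.dg]; simp; omega),
    hz false true true (by simp only [ZD2Aux.dg]; simp; omega),
    hz false true false (by simp only [ZD2Aux.dg]; simp; omega),
    hz false false true (by simp only [ZD2Aux.dg]; simp; omega),
    hz false false false (by simp only [ZD2Aux.dg]; simp; omega),
    ZD2Aux.triple_ttf hu.1 hv.1 hw.1 hξ'.1 hb'.1] at h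
  linear_combination -h

/-- 9.2: evaluate on `ξ × ξ`. -/
theorem zd_two {R : Type} [CommRing R] (hF : TC0le F 2) {i j : ℕ} (hi : 1 ≤ i) (hj : 1 ≤ j)
    (hodd : Odd (i + j)) {u v z : C(Cb, F) → R} (hu : (CS.top F).Coc i u)
    (hv : (CS.top F).Coc j v) (hz : (CS.top F).Coc (i + j) z) {ξ : Ch R F}
    (hξ : ξ ∈ (CS.top F).Z R ((i + j : ℕ) : ℤ)) :
    2 * (Finsupp.linearCombination R (cup AddMonoidHom.mul i j u v) ξ *
      Finsupp.linearCombination R z ξ) = 0 := by
  have hξ' := hξ
  rw [ZD2Aux.Z_top] at hξ'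
  have hc : cr (i + j) ξ ξ ∈ (CS.top (F × F)).Z R ((i + j + (i + j) : ℕ) : ℤ) := by
    rw [ZD2Aux.Z_top]
    have := CubeHom.cr_mem_Z (W := Set.univ) (A' := (∅ : Set (F × F))) hξ' hξ' (by simp) (by simp)
      (by simp)
    exact_mod_cast this
  have h := zd_vanish hF hi hj (by omega : 1 ≤ i + j) hu hv hz hc
  rw [ZD2Aux.expand] at h
  have hz' := fun e₁ e₂ e₃ => ZD2Aux.triple_zero hu.1 hv.1 hz.1 e₁ e₂ e₃ (m := i + j)
    (n := i + j) rfl hξ'.1 hξ'.1
  simp only at h
  rw [hz' true true true (by simp only [ZD2Aux.dg]; simp; omega),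
    hz' true false true (by simp only [ZD2Aux.dg]; simp; omega),
    hz' true false false (by simp only [ZD2Aux.dg]; simp; omega),
    hz' false true true (by simp only [ZD2Aux.dg]; simp; omega),
    hz' false true false (by simp only [ZD2Aux.dg]; simp; omega),
    hz' false false false (by simp only [ZD2Aux.dg]; simp; omega),
    ZD2Aux.triple_ttf hu.1 hv.1 hz.1 hξ'.1 hξ'.1,
    ZD2Aux.triple_fft hu.1 hv.1 hz.1 hodd hξ'.1 hξ'.1] at h
  linear_combination -h

end Pool.Agent.TC
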