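import Pool.Agent.Lib.TC.Uct
import Pool.Agent.Lib.TC.CupI
import Pool.Agent.Lib.TC.Defs

/-!
# Section 9: definitions
-/

namespace Pool.Agent.TC

open CubeHom

variable {F : Type} [TopologicalSpace F]

/-- The zero divisor of a cochain. -/
def zbar {A : Type} [AddCommGroup A] (u : C(Cb, F) → A) : C(Cb, F × F) → A := fun σ =>
  u (ContinuousMap.fst.comp σ) - u (ContinuousMap.snd.comp σ)

/-- Poincare duality with coefficients in a field: every class of positive degree has a
complementary class. -/
def PDual (F : Type) [TopologicalSpace F] (d : ℕ) (K : Type) [Field K] (ξ : Ch K F) : Prop :=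
  ∀ i j : ℕ, 1 ≤ i → i + (j + 1) = d → ∀ u : C(Cb, F) → K, (CS.top F).Coc (j + 1) u →
    ¬ (CS.top F).Cob j u → ∃ v : C(Cb, F) → K, (CS.top F).Coc i v ∧
      Finsupp.linearCombination K (cup AddMonoidHom.mul i (j + 1) v u) ξ = 1

end Pool.Agent.TC
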